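import Mathlib
import Pool.Agent.H124R2.Vis.Defs

/-!
# `k`-convex polygons and `k`-convex point sets: definitions
-/

namespace Pool.Agent.H595K

open Vis124

/-- `L` is a straight line in the plane. -/
def IsLine (L : Set (ℝ × ℝ)) : Prop :=
  ∃ a b c : ℝ, (a ≠ 0 ∨ b ≠ 0) ∧ L = {p | a * p.1 + b * p.2 = c}

/-- Every straight line meets `S` in at most `k` connected components. -/
def IsKConvexRegion (k : ℕ) (S : Set (ℝ × ℝ)) : Prop :=
  ∀ L, IsLine L → ENat.card (ConnectedComponents ↥(L ∩ S)) ≤ k

/-- General position: no three distinct points of `P` are collinear. -/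
def GenPos (P : Finset (ℝ × ℝ)) : Prop :=
  ∀ p ∈ P, ∀ q ∈ P, ∀ r ∈ P, p ≠ q → q ≠ r → p ≠ r → ¬ Collinear ℝ {p, q, r}

/-- The finite point set `P` is `k`-convex: it is in general position and it is the vertex set of
a simple polygon (viewed as a closed region `S`) such that every straight line meets `S` in at most
`k` connected components. -/
def KConvexSet (k : ℕ) (P : Finset (ℝ × ℝ)) : Prop :=
  GenPos P ∧ ∃ (v : Fin P.card → ℝ × ℝ) (S : Set (ℝ × ℝ)),
    IsSimplePolygon v S ∧ Set.range v = ↑P ∧ IsKConvexRegion k S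

/-- `f k j n`: the largest `m` such that every `k`-convex set of `n` points contains a `j`-convex
subset of size `m`. -/
noncomputable def f (k j n : ℕ) : ℕ :=
  sSup {m | ∀ P : Finset (ℝ × ℝ), P.card = n → KConvexSet k P →
    ∃ Q ⊆ P, KConvexSet j Q ∧ Q.card = m}

end Pool.Agent.H595K
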