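import Mathlib
import Pool.Agent.H595K.Defs

/-!
# Invariance under linear maps
-/

namespace Pool.Agent.H595K

open Set Vis124

section
variable (e : (ℝ × ℝ) ≃L[ℝ] (ℝ × ℝ))

theorem edge_map {n : ℕ} (v : Fin n → ℝ × ℝ) (i : Fin n) :
    edge (fun i => e (v i)) i = e '' edge v i := by
  unfold edge
  have := image_segment ℝ (e.toLinearEquiv.toLinearMap.toAffineMap) (v i) (v (finRotate n i))
  exact this.symm

theorem curve_map {n : ℕ} (v : Fin n → ℝ × ℝ) :
    curve (fun i => e (v i)) = e '' curve v := by
  unfold curve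
  rw [image_iUnion]
  congr 1
  funext i
  exact edge_map e v i

theorem isSimplePolygon_map {n : ℕ} {v : Fin n → ℝ × ℝ} {S : Set (ℝ × ℝ)}
    (h : IsSimplePolygon v S) : IsSimplePolygon (fun i => e (v i)) (e '' S) := by
  refine ⟨h.three_le, fun i j hij => h.injective (e.injective hij), ?_,
    h.compact.image e.continuous, ?_, ?_⟩
  · intro i j hij
    rw [edge_map, edge_map, ← image_inter e.injective]
    rintro _ ⟨p, hp, rfl⟩
    obtain ⟨h1, h2⟩ := h.simple i j hij hp
    refine ⟨?_, ?_⟩
    · rcases h1 with h1 | h1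
      · left; rw [h1]
      · right
        rw [mem_singleton_iff] at h1 ⊢
        rw [h1]
    · rcases h2 with h2 | h2
      · left; rw [h2]
      · right
        rw [mem_singleton_iff] at h2 ⊢
        rw [h2]
  · have h1 := e.toHomeomorph.image_interior S
    have h2 := e.toHomeomorph.image_closure (interior S)
    rw [h.regular] at h2
    have h1' : e '' interior S = interior (e '' S) := h1
    have h2' : e '' S = closure (e '' interior S) := h2
    rw [← h1', ← h2']
  · have h1 := e.toHomeomorph.image_frontier S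
    have h1' : e '' frontier S = frontier (e '' S) := h1
    rw [← h1', h.boundary, curve_map]

theorem isLine_preimage {L : Set (ℝ × ℝ)} (h : IsLine L) : IsLine (e ⁻¹' L) := by
  obtain ⟨A, B, C, hAB, rfl⟩ := h
  have he : ∀ p : ℝ × ℝ, e p = p.1 • e (1, 0) + p.2 • e (0, 1) := by
    intro p
    rw [← e.map_smul, ← e.map_smul, ← e.map_add]
    congr 1
    ext <;> simp
  set a := (e (1, 0)).1 with ha
  set c := (e (1, 0)).2 with hc
  set b := (e (0, 1)).1 with hb
  set d := (e (0, 1)).2 with hd
  have h1 : ∀ p : ℝ × ℝ, (e p).1 = p.1 * a + p.2 * b := by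
    intro p; rw [he p]; rfl
  have h2 : ∀ p : ℝ × ℝ, (e p).2 = p.1 * c + p.2 * d := by
    intro p; rw [he p]; rfl
  refine ⟨A * a + B * c, A * b + B * d, C, ?_, ?_⟩
  · by_contra hcon
    push Not at hcon
    obtain ⟨k1, k2⟩ := hcon
    have key : ∀ q : ℝ × ℝ, A * q.1 + B * q.2 = 0 := by
      intro q
      obtain ⟨p, rfl⟩ := e.surjective q
      rw [h1, h2]
      have : A * (p.1 * a + p.2 * b) + B * (p.1 * c + p.2 * d) =
          p.1 * (A * a + B * c) + p.2 * (A * b + B * d) := by ring
      rw [this, k1, k2]; ring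
    have k3 := key (1, 0)
    have k4 := key (0, 1)
    simp only [mul_one, mul_zero, add_zero, zero_add] at k3 k4
    rcases hAB with h' | h'
    · exact h' k3
    · exact h' k4
  · ext p
    simp only [mem_preimage, mem_ofPred_eq]
    rw [h1, h2]
    constructor
    · intro h3; linarith
    · intro h3; linarith

theorem card_components_le {X Y : Type*} [TopologicalSpace X] [TopologicalSpace Y]
    (φ : X ≃ₜ Y) : ENat.card (ConnectedComponents X) ≤ ENat.card (ConnectedComponents Y) := by
  apply ENat.card_le_card_of_injective (f := φ.continuous.connectedComponentsMap)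
  apply Function.LeftInverse.injective (g := φ.symm.continuous.connectedComponentsMap)
  intro q
  obtain ⟨x, rfl⟩ := ConnectedComponents.surjective_coe q
  show ConnectedComponents.mk (φ.symm (φ x)) = ConnectedComponents.mk x
  rw [φ.symm_apply_apply]

theorem isKConvexRegion_map {k : ℕ} {S : Set (ℝ × ℝ)} (h : IsKConvexRegion k S) :
    IsKConvexRegion k (e '' S) := by
  intro L hL
  have h1 := h (e ⁻¹' L) (isLine_preimage e hL)
  have h2 : L ∩ e '' S = e '' (e ⁻¹' L ∩ S) := by
    rw [image_preimage_inter]
  rw [h2]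
  refine le_trans ?_ h1
  exact card_components_le (e.toHomeomorph.image (e ⁻¹' L ∩ S)).symm

end

end Pool.Agent.H595K
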