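import Mathlib

/-!
# Binary trees with comparisons of slopes
-/

namespace Pool.Agent.H595K

/-- binary trees whose leaves carry natural numbers -/
inductive Tr : Type
  | leaf : ℕ → Tr
  | node : Tr → Tr → Tr

namespace Tr

/-- the leaves from left to right -/
def lv : Tr → List ℕ
  | leaf i => [i]
  | node l r => lv l ++ lv r

/-- height -/
def ht : Tr → ℕ
  | leaf _ => 0
  | node l r => max (ht l) (ht r) + 1

/-- a property of all inner nodes -/
def All (P : Tr → Tr → Prop) : Tr → Prop
  | leaf _ => True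
  | node l r => P l r ∧ All P l ∧ All P r

/-- complete binary tree of depth `n` -/
def Comp : ℕ → Tr → Prop
  | 0, leaf _ => True
  | n + 1, node l r => Comp n l ∧ Comp n r
  | _, _ => False

/-- `Sel c t' t`: `t'` arises from `t` by deleting leaves, so that only inner nodes with the
property `c` remain. -/
inductive Sel (c : Tr → Tr → Prop) : Tr → Tr → Prop
  | leaf (i : ℕ) : Sel c (leaf i) (leaf i)
  | left {t' l : Tr} (r : Tr) (h : Sel c t' l) : Sel c t' (node l r)
  | right {t' r : Tr} (l : Tr) (h : Sel c t' r) : Sel c t' (node l r)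
  | node {l r l' r' : Tr} (hc : c l r) (hl : Sel c l' l) (hr : Sel c r' r) :
      Sel c (node l' r') (node l r)

theorem lv_pos (t : Tr) : 0 < t.lv.length := by
  induction t with
  | leaf i => simp [lv]
  | node l r hl hr => simp [lv]; omega

theorem All.imp {P Q : Tr → Tr → Prop} {t : Tr} (h : All P t) (hPQ : ∀ l r, P l r → Q l r) :
    All Q t := by
  induction t with
  | leaf i => trivial
  | node l r hl hr => exact ⟨hPQ _ _ h.1, hl h.2.1, hr h.2.2⟩

theorem All.imp_mem {P Q : Tr → Tr → Prop} {t : Tr} (h : All P t)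
    (hPQ : ∀ l r, (∀ i ∈ l.lv, i ∈ t.lv) → (∀ i ∈ r.lv, i ∈ t.lv) → P l r → Q l r) :
    All Q t := by
  induction t with
  | leaf i => trivial
  | node l r hl hr =>
    refine ⟨hPQ _ _ (fun i hi => by simp [lv, hi]) (fun i hi => by simp [lv, hi]) h.1,
      hl h.2.1 ?_, hr h.2.2 ?_⟩
    · intro a b ha hb hP
      exact hPQ a b (fun i hi => by simp [lv, ha i hi]) (fun i hi => by simp [lv, hb i hi]) hP
    · intro a b ha hb hP
      exact hPQ a b (fun i hi => by simp [lv, ha i hi]) (fun i hi => by simp [lv, hb i hi]) hP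

theorem All.and {P Q : Tr → Tr → Prop} {t : Tr} (h : All P t) (h' : All Q t) :
    All (fun l r => P l r ∧ Q l r) t := by
  induction t with
  | leaf i => trivial
  | node l r hl hr => exact ⟨⟨h.1, h'.1⟩, hl h.2.1 h'.2.1, hr h.2.2 h'.2.2⟩

theorem All.deep {P : Tr → Tr → Prop} {t : Tr} (h : All P t) :
    All (fun l r => P l r ∧ All P l ∧ All P r) t := by
  induction t with
  | leaf i => trivial
  | node l r hl hr => exact ⟨⟨h.1, h.2.1, h.2.2⟩, hl h.2.1, hr h.2.2⟩

theorem Sel.refl (t : Tr) : Sel (fun _ _ => True) t t := by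
  induction t with
  | leaf i => exact Sel.leaf i
  | node l r hl hr => exact Sel.node trivial hl hr

theorem Sel.mono {c c' : Tr → Tr → Prop} (hcc : ∀ l r, c l r → c' l r) {t' t : Tr}
    (h : Sel c t' t) : Sel c' t' t := by
  induction h with
  | leaf i => exact Sel.leaf i
  | left r _ ih => exact Sel.left r ih
  | right l _ ih => exact Sel.right l ih
  | node hc _ _ ihl ihr => exact Sel.node (hcc _ _ hc) ihl ihr

theorem Sel.top {c : Tr → Tr → Prop} {t' t : Tr} (h : Sel c t' t) : Sel (fun _ _ => True) t' t :=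
  h.mono (fun _ _ _ => trivial)

theorem Sel.trans {t'' t' t : Tr} (h' : Sel (fun _ _ => True) t' t)
    (h : Sel (fun _ _ => True) t'' t') : Sel (fun _ _ => True) t'' t := by
  induction h' generalizing t'' with
  | leaf i => exact h
  | left r _ ih => exact Sel.left r (ih h)
  | right l _ ih => exact Sel.right l (ih h)
  | node hc _ _ ihl ihr =>
    cases h with
    | left r h1 => exact Sel.left _ (ihl h1)
    | right l h1 => exact Sel.right _ (ihr h1)
    | node hc' h1 h2 => exact Sel.node trivial (ihl h1) (ihr h2)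

theorem Sel.sublist {c : Tr → Tr → Prop} {t' t : Tr} (h : Sel c t' t) :
    t'.lv.Sublist t.lv := by
  induction h with
  | leaf i => exact List.Sublist.refl _
  | left r _ ih => exact ih.trans (List.sublist_append_left _ _)
  | right l _ ih => exact ih.trans (List.sublist_append_right _ _)
  | node hc _ _ ihl ihr => exact ihl.append ihr

theorem Sel.mem {c : Tr → Tr → Prop} {t' t : Tr} (h : Sel c t' t) {i : ℕ} (hi : i ∈ t'.lv) :
    i ∈ t.lv := h.sublist.subset hi

theorem Sel.ht_le {c : Tr → Tr → Prop} {t' t : Tr} (h : Sel c t' t) : t'.ht ≤ t.ht := by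
  induction h with
  | leaf i => exact le_rfl
  | left r _ ih => simp only [ht]; omega
  | right l _ ih => simp only [ht]; omega
  | node hc _ _ ihl ihr => simp only [ht]; omega

theorem Sel.all {c P P' : Tr → Tr → Prop} {t' t : Tr} (h : Sel c t' t) (hP : All P t)
    (hc : ∀ l r l' r', c l r → P l r → Sel c l' l → Sel c r' r → P' l' r') : All P' t' := by
  induction h with
  | leaf i => trivial
  | left r _ ih => exact ih hP.2.1
  | right l _ ih => exact ih hP.2.2
  | node hc' h1 h2 ihl ihr => exact ⟨hc _ _ _ _ hc' hP.1 h1 h2, ihl hP.2.1, ihr hP.2.2⟩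

theorem Sel.all_or {c : Tr → Tr → Prop} {t' t : Tr} (h : Sel c t' t) (P' : Tr → Tr → Prop) :
    All P' t' ∨ ∃ a b a' b', (∀ Q : Tr → Tr → Prop, All Q t → Q a b) ∧
      (∀ t'', Sel (fun _ _ => True) t'' (Tr.node a b) → Sel (fun _ _ => True) t'' t) ∧
      c a b ∧ Sel c a' a ∧ Sel c b' b ∧ ¬ P' a' b' := by
  induction h with
  | leaf i => left; trivial
  | left r _ ih =>
    rcases ih with h1 | ⟨a, b, a', b', h1, h2, h3⟩
    · left; exact h1
    · right
      exact ⟨a, b, a', b', fun Q hQ => h1 Q hQ.2.1, fun t'' ht => Sel.left _ (h2 t'' ht), h3⟩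
  | right l _ ih =>
    rcases ih with h1 | ⟨a, b, a', b', h1, h2, h3⟩
    · left; exact h1
    · right
      exact ⟨a, b, a', b', fun Q hQ => h1 Q hQ.2.2, fun t'' ht => Sel.right _ (h2 t'' ht), h3⟩
  | @node l r l' r' hc hl hr ihl ihr =>
    by_cases h0 : P' l' r'
    · rcases ihl with h1 | ⟨a, b, a', b', h1, h2, h3⟩
      · rcases ihr with h1' | ⟨a, b, a', b', h1', h2, h3⟩
        · left; exact ⟨h0, h1, h1'⟩
        · right
          exact ⟨a, b, a', b', fun Q hQ => h1' Q hQ.2.2, fun t'' ht => Sel.right _ (h2 t'' ht), h3⟩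
      · right
        exact ⟨a, b, a', b', fun Q hQ => h1 Q hQ.2.1, fun t'' ht => Sel.left _ (h2 t'' ht), h3⟩
    · right
      exact ⟨l, r, l', r', fun Q hQ => hQ.1, fun t'' ht => ht, hc, hl, hr, h0⟩

/-- the largest number of leaves of a selection with the nodes of colour `i` only -/
noncomputable def ms (ρ : Tr → Tr → ℕ) (i : ℕ) : Tr → ℕ
  | leaf _ => 1
  | node l r => if ρ l r = i then ms ρ i l + ms ρ i r else max (ms ρ i l) (ms ρ i r)

theorem ms_pos (ρ : Tr → Tr → ℕ) (i : ℕ) (t : Tr) : 0 < ms ρ i t := by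
  induction t with
  | leaf i => simp [ms]
  | node l r hl hr =>
    simp only [ms]
    split_ifs
    · omega
    · exact lt_of_lt_of_le hl (le_max_left _ _)

theorem ms_spec (ρ : Tr → Tr → ℕ) (i : ℕ) (t : Tr) :
    ∃ t', Sel (fun l r => ρ l r = i) t' t ∧ t'.lv.length = ms ρ i t := by
  induction t with
  | leaf j => exact ⟨leaf j, Sel.leaf j, rfl⟩
  | node l r hl hr =>
    obtain ⟨l', h1, h2⟩ := hl
    obtain ⟨r', h3, h4⟩ := hr
    by_cases h : ρ l r = i
    · refine ⟨node l' r', Sel.node h h1 h3, ?_⟩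
      simp only [lv, ms, if_pos h, List.length_append, h2, h4]
    · simp only [ms, if_neg h]
      rcases le_total (ms ρ i l) (ms ρ i r) with h5 | h5
      · exact ⟨r', Sel.right _ h3, by rw [h4, max_eq_right h5]⟩
      · exact ⟨l', Sel.left _ h1, by rw [h2, max_eq_left h5]⟩

theorem length_le_prod (ρ : Tr → Tr → ℕ) (m : ℕ) (t : Tr) (h : All (fun l r => ρ l r < m) t) :
    t.lv.length ≤ ∏ i ∈ Finset.range m, ms ρ i t := by
  induction t with
  | leaf j => simp [lv, ms]
  | node l r hl hr =>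
    obtain ⟨h1, h2, h3⟩ := h
    have h4 := hl h2
    have h5 := hr h3
    have hmem : ρ l r ∈ Finset.range m := Finset.mem_range.2 h1
    simp only [lv, List.length_append]
    rw [← Finset.mul_prod_erase _ _ hmem]
    rw [← Finset.mul_prod_erase _ _ hmem] at h4 h5
    have e0 : ms ρ (ρ l r) (node l r) = ms ρ (ρ l r) l + ms ρ (ρ l r) r := by simp [ms]
    rw [e0, add_mul]
    have hge : ∀ i, ms ρ i l ≤ ms ρ i (node l r) ∧ ms ρ i r ≤ ms ρ i (node l r) := by
      intro i
      simp only [ms]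
      split_ifs
      · omega
      · exact ⟨le_max_left _ _, le_max_right _ _⟩
    apply add_le_add
    · refine h4.trans (Nat.mul_le_mul_left _ ?_)
      exact Finset.prod_le_prod (fun i _ => Nat.zero_le _) (fun i _ => (hge i).1)
    · refine h5.trans (Nat.mul_le_mul_left _ ?_)
      exact Finset.prod_le_prod (fun i _ => Nat.zero_le _) (fun i _ => (hge i).2)

theorem length_le_pow (ρ : Tr → Tr → ℕ) (m S : ℕ) (t : Tr) (h : All (fun l r => ρ l r < m) t)
    (hS : ∀ i < m, ∀ t', Sel (fun l r => ρ l r = i) t' t → t'.lv.length ≤ S) :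
    t.lv.length ≤ S ^ m := by
  refine (length_le_prod ρ m t h).trans ?_
  calc ∏ i ∈ Finset.range m, ms ρ i t ≤ ∏ _i ∈ Finset.range m, S := by
        apply Finset.prod_le_prod (fun i _ => Nat.zero_le _)
        intro i hi
        obtain ⟨t', h1, h2⟩ := ms_spec ρ i t
        rw [← h2]
        exact hS i (Finset.mem_range.1 hi) t' h1
    _ = S ^ m := by simp

theorem Comp.length {n : ℕ} {t : Tr} (h : Comp n t) : t.lv.length = 2 ^ n := by
  induction n generalizing t with
  | zero =>
    cases t with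
    | leaf i => simp [lv]
    | node l r => exact absurd h (by simp [Comp])
  | succ n ih =>
    cases t with
    | leaf i => exact absurd h (by simp [Comp])
    | node l r =>
      simp only [lv, List.length_append]
      rw [ih h.1, ih h.2, pow_succ]
      ring

theorem right_comb {t : Tr} (h : All (fun l _ => ∃ i, l = leaf i) t) : t.lv.length ≤ t.ht + 1 := by
  induction t with
  | leaf i => simp [lv, ht]
  | node l r _ hr =>
    obtain ⟨⟨i, hi⟩, _, h3⟩ := h
    have := hr h3
    subst hi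
    simp only [lv, ht, List.length_append, List.length_cons, List.length_nil]
    omega

theorem left_comb {t : Tr} (h : All (fun _ r => ∃ i, r = leaf i) t) : t.lv.length ≤ t.ht + 1 := by
  induction t with
  | leaf i => simp [lv, ht]
  | node l r hl _ =>
    obtain ⟨⟨i, hi⟩, h2, _⟩ := h
    have := hl h2
    subst hi
    simp only [lv, ht, List.length_append, List.length_cons, List.length_nil]
    omega

/-- all pairs from `A × B` have a larger value than the pairs with the points of `Z` -/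
def GtR (g : ℕ → ℕ → ℝ) (A B Z : List ℕ) : Prop :=
  ∀ i ∈ A, ∀ j ∈ B, ∀ z ∈ Z, g i z < g i j ∧ g j z < g i j

theorem GtR.mono {g : ℕ → ℕ → ℝ} {A B Z A' B' Z' : List ℕ} (h : GtR g A B Z)
    (hA : ∀ i ∈ A', i ∈ A) (hB : ∀ i ∈ B', i ∈ B) (hZ : ∀ i ∈ Z', i ∈ Z) : GtR g A' B' Z' :=
  fun i hi j hj z hz => h i (hA i hi) j (hB j hj) z (hZ z hz)

/-- trees of type `(g1, g2)` -/
def Ty (g1 g2 : ℕ → ℕ → ℝ) (t : Tr) : Prop :=
  All (fun l r => All (fun a b => GtR g1 a.lv b.lv r.lv) l ∧
    All (fun a b => GtR g2 a.lv b.lv l.lv) r) t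

/-- homogeneous trees -/
def Homog (g : ℕ → ℕ → ℝ) (t : Tr) : Prop :=
  All (fun l r =>
    All (fun a b => GtR g a.lv b.lv r.lv ∨ GtR (fun i j => - g i j) a.lv b.lv r.lv) l ∧
    All (fun a b => GtR g a.lv b.lv l.lv ∨ GtR (fun i j => - g i j) a.lv b.lv l.lv) r) t

/-- at this node starts a complete increasing tree of depth `c + 1` -/
def Rk (g : ℕ → ℕ → ℝ) (c : ℕ) (l r : Tr) : Prop :=
  ∃ l' r', Sel (fun _ _ => True) l' l ∧ Sel (fun _ _ => True) r' r ∧ Comp c l' ∧ Comp c r' ∧
    Ty g g (node l' r')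

theorem exists_leaf (t : Tr) : ∃ i, Sel (fun _ _ => True) (leaf i) t := by
  induction t with
  | leaf i => exact ⟨i, Sel.leaf i⟩
  | node l r hl _ =>
    obtain ⟨i, hi⟩ := hl
    exact ⟨i, Sel.left _ hi⟩

theorem rk_zero (g : ℕ → ℕ → ℝ) (l r : Tr) : Rk g 0 l r := by
  obtain ⟨i, hi⟩ := exists_leaf l
  obtain ⟨j, hj⟩ := exists_leaf r
  exact ⟨leaf i, leaf j, hi, hj, trivial, trivial, ⟨trivial, trivial⟩, trivial, trivial⟩

theorem extend {g : ℕ → ℕ → ℝ} (hg : ∀ i j, g i j = g j i) {a b : Tr} {Z : List ℕ}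
    (h : Ty g g (node a b)) (hZ : GtR g a.lv b.lv Z) :
    All (fun x y => GtR g x.lv y.lv Z) (node a b) := by
  obtain ⟨⟨h1, h2⟩, _, _⟩ := h
  refine ⟨hZ, ?_, ?_⟩
  · refine h1.imp_mem ?_
    intro x y hx hy hxy i hi j hj z hz
    obtain ⟨z', hz'⟩ := List.exists_mem_of_length_pos (lv_pos b)
    have e1 := hxy i hi j hj z' hz'
    have e2 := hZ i (hx i hi) z' hz' z hz
    have e3 := hZ j (hy j hj) z' hz' z hz
    exact ⟨e2.1.trans e1.1, e3.1.trans e1.2⟩
  · refine h2.imp_mem ?_
    intro x y hx hy hxy i hi j hj z hz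
    obtain ⟨z', hz'⟩ := List.exists_mem_of_length_pos (lv_pos a)
    have e1 := hxy i hi j hj z' hz'
    have e2 := hZ z' hz' i (hx i hi) z hz
    have e3 := hZ z' hz' j (hy j hj) z hz
    rw [hg z' i] at e2
    rw [hg z' j] at e3
    exact ⟨e2.2.trans e1.1, e3.2.trans e1.2⟩

/-- two increasing subtrees of larger slopes on both sides give a higher rank -/
theorem rk_succ {g : ℕ → ℕ → ℝ} (hg : ∀ i j, g i j = g j i) {c : ℕ} {l r a b e f : Tr}
    (hab : ∀ t'', Sel (fun _ _ => True) t'' (node a b) → Sel (fun _ _ => True) t'' l)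
    (hef : ∀ t'', Sel (fun _ _ => True) t'' (node e f) → Sel (fun _ _ => True) t'' r)
    (h1 : GtR g a.lv b.lv r.lv) (h2 : GtR g e.lv f.lv l.lv) (h3 : Rk g c a b) (h4 : Rk g c e f) :
    Rk g (c + 1) l r := by
  obtain ⟨a1, b1, s1, s2, c1, c2, t1⟩ := h3
  obtain ⟨e1, f1, s3, s4, c3, c4, t2⟩ := h4
  have sl : Sel (fun _ _ => True) (node a1 b1) l := hab _ (Sel.node trivial s1 s2)
  have sr : Sel (fun _ _ => True) (node e1 f1) r := hef _ (Sel.node trivial s3 s4)
  refine ⟨node a1 b1, node e1 f1, sl, sr, ⟨c1, c2⟩, ⟨c3, c4⟩, ⟨?_, ?_⟩, t1, t2⟩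
  · exact extend hg t1 (h1.mono (fun i hi => s1.mem hi) (fun i hi => s2.mem hi)
      (fun i hi => sr.mem hi))
  · exact extend hg t2 (h2.mono (fun i hi => s3.mem hi) (fun i hi => s4.mem hi)
      (fun i hi => sl.mem hi))

/-- one of the two sides has no larger nodes -/
theorem side_or {g : ℕ → ℕ → ℝ} (hg : ∀ i j, g i j = g j i) {c : Tr → Tr → Prop} {n : ℕ}
    {l r l' r' : Tr}
    (hc : ∀ a b, c a b → Rk g n a b)
    (h1 : All (fun a b => GtR g a.lv b.lv r.lv ∨ GtR (fun i j => - g i j) a.lv b.lv r.lv) l)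
    (h2 : All (fun a b => GtR g a.lv b.lv l.lv ∨ GtR (fun i j => - g i j) a.lv b.lv l.lv) r)
    (hl : Sel c l' l) (hr : Sel c r' r) (hn : ¬ Rk g (n + 1) l r) :
    All (fun a b => GtR (fun i j => - g i j) a.lv b.lv r'.lv) l' ∨
    All (fun a b => GtR (fun i j => - g i j) a.lv b.lv l'.lv) r' := by
  rcases hl.all_or (fun a b => GtR (fun i j => - g i j) a.lv b.lv r'.lv) with
    h3 | ⟨a, b, a', b', k1, k2, k3, k4, k5, k6⟩
  · exact Or.inl h3
  · rcases hr.all_or (fun a b => GtR (fun i j => - g i j) a.lv b.lv l'.lv) with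
      h3 | ⟨e, f, e', f', m1, m2, m3, m4, m5, m6⟩
    · exact Or.inr h3
    · exfalso
      apply hn
      have g1 : GtR g a.lv b.lv r.lv := by
        rcases k1 _ h1 with h | h
        · exact h
        · exact absurd (h.mono (fun i hi => k4.mem hi) (fun i hi => k5.mem hi)
            (fun i hi => hr.mem hi)) k6
      have g2 : GtR g e.lv f.lv l.lv := by
        rcases m1 _ h2 with h | h
        · exact h
        · exact absurd (h.mono (fun i hi => m4.mem hi) (fun i hi => m5.mem hi)
            (fun i hi => hl.mem hi)) m6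
      exact rk_succ hg k2 m2 g1 g2 (hc _ _ k3) (hc _ _ m3)

theorem Ty.sel {g1 g2 : ℕ → ℕ → ℝ} {c : Tr → Tr → Prop} {t' t : Tr} (h : Ty g1 g2 t)
    (hs : Sel c t' t) : Ty g1 g2 t' := by
  refine hs.all h ?_
  rintro l r l' r' _ ⟨h1, h2⟩ hl hr
  refine ⟨?_, ?_⟩
  · refine hl.all h1 ?_
    intro a b a' b' _ hab ha hb
    exact hab.mono (fun i hi => ha.mem hi) (fun i hi => hb.mem hi) (fun i hi => hr.mem hi)
  · refine hr.all h2 ?_
    intro a b a' b' _ hab ha hb
    exact hab.mono (fun i hi => ha.mem hi) (fun i hi => hb.mem hi) (fun i hi => hl.mem hi)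

/-- a node of one of four kinds -/
def Four (g : ℕ → ℕ → ℝ) (l r : Tr) : Prop :=
  (All (fun a b => GtR (fun i j => - g i j) a.lv b.lv r.lv) l ∧
      All (fun a b => GtR g a.lv b.lv l.lv) r) ∨
  (All (fun a b => GtR g a.lv b.lv r.lv) l ∧
      All (fun a b => GtR (fun i j => - g i j) a.lv b.lv l.lv) r) ∨
  (∃ i, l = leaf i) ∨ (∃ i, r = leaf i)

theorem not_both {g : ℕ → ℕ → ℝ} {t : Tr} {Z : List ℕ} (hZ : 0 < Z.length)
    (h1 : All (fun a b => GtR g a.lv b.lv Z) t)
    (h2 : All (fun a b => GtR (fun i j => - g i j) a.lv b.lv Z) t) : ∃ i, t = leaf i := by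
  cases t with
  | leaf i => exact ⟨i, rfl⟩
  | node l r =>
    exfalso
    obtain ⟨i, hi⟩ := List.exists_mem_of_length_pos (lv_pos l)
    obtain ⟨j, hj⟩ := List.exists_mem_of_length_pos (lv_pos r)
    obtain ⟨z, hz⟩ := List.exists_mem_of_length_pos hZ
    have e1 := (h1.1 i hi j hj z hz).1
    have e2 := (h2.1 i hi j hj z hz).1
    simp only at e2
    linarith

/-- a tree all of whose nodes are of one of the four kinds -/
theorem four_bound {g : ℕ → ℕ → ℝ} {t : Tr} {s S : ℕ} (h : All (Four g) t) (hs : t.ht ≤ s)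
    (hsS : s + 1 ≤ S)
    (hU : ∀ t', Sel (fun _ _ => True) t' t → Ty (fun i j => - g i j) g t' → t'.lv.length ≤ S)
    (hN : ∀ t', Sel (fun _ _ => True) t' t → Ty g (fun i j => - g i j) t' → t'.lv.length ≤ S) :
    t.lv.length ≤ S ^ 4 := by
  classical
  let ρ : Tr → Tr → ℕ := fun l r =>
    if (All (fun a b => GtR (fun i j => - g i j) a.lv b.lv r.lv) l ∧
      All (fun a b => GtR g a.lv b.lv l.lv) r) then 0 else
    if (All (fun a b => GtR g a.lv b.lv r.lv) l ∧
      All (fun a b => GtR (fun i j => - g i j) a.lv b.lv l.lv) r) then 1 else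
    if (∃ i, l = leaf i) then 2 else 3
  have h0 : ∀ l r, ρ l r = 0 → (All (fun a b => GtR (fun i j => - g i j) a.lv b.lv r.lv) l ∧
      All (fun a b => GtR g a.lv b.lv l.lv) r) := by
    intro l r h
    by_contra hc
    simp only [ρ, if_neg hc] at h
    split_ifs at h <;> omega
  have h1 : ∀ l r, ρ l r = 1 → (All (fun a b => GtR g a.lv b.lv r.lv) l ∧
      All (fun a b => GtR (fun i j => - g i j) a.lv b.lv l.lv) r) := by
    intro l r h
    by_contra hc
    simp only [ρ, if_neg hc] at h
    split_ifs at h <;> omega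
  have h2 : ∀ l r, ρ l r = 2 → ∃ i, l = leaf i := by
    intro l r h
    by_contra hc
    simp only [ρ, if_neg hc] at h
    split_ifs at h <;> omega
  have h3 : ∀ l r, Four g l r → ρ l r = 3 → ∃ i, r = leaf i := by
    intro l r hf h
    rcases hf with hf | hf | hf | hf
    · simp only [ρ, if_pos hf] at h
      omega
    · simp only [ρ, if_pos hf] at h
      split_ifs at h <;> omega
    · simp only [ρ, if_pos hf] at h
      split_ifs at h <;> omega
    · exact hf
  apply length_le_pow ρ 4 S t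
  · refine h.imp ?_
    intro l r _
    simp only [ρ]
    split_ifs <;> omega
  · intro i hi t' ht'
    have hht : t'.ht + 1 ≤ S := by have := ht'.ht_le; omega
    interval_cases i
    · apply hU t' ht'.top
      refine ht'.all h ?_
      intro l r l' r' hc _ hl hr
      obtain ⟨k1, k2⟩ := h0 l r hc
      refine ⟨?_, ?_⟩
      · refine hl.all k1 ?_
        intro a b a' b' _ hab ha hb
        exact hab.mono (fun i hi => ha.mem hi) (fun i hi => hb.mem hi) (fun i hi => hr.mem hi)
      · refine hr.all k2 ?_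
        intro a b a' b' _ hab ha hb
        exact hab.mono (fun i hi => ha.mem hi) (fun i hi => hb.mem hi) (fun i hi => hl.mem hi)
    · apply hN t' ht'.top
      refine ht'.all h ?_
      intro l r l' r' hc _ hl hr
      obtain ⟨k1, k2⟩ := h1 l r hc
      refine ⟨?_, ?_⟩
      · refine hl.all k1 ?_
        intro a b a' b' _ hab ha hb
        exact hab.mono (fun i hi => ha.mem hi) (fun i hi => hb.mem hi) (fun i hi => hr.mem hi)
      · refine hr.all k2 ?_
        intro a b a' b' _ hab ha hb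
        exact hab.mono (fun i hi => ha.mem hi) (fun i hi => hb.mem hi) (fun i hi => hl.mem hi)
    · refine (right_comb ?_).trans hht
      refine ht'.all h ?_
      intro l r l' r' hc _ hl hr
      obtain ⟨i, hi⟩ := h2 l r hc
      subst hi
      cases hl with
      | leaf i => exact ⟨i, rfl⟩
    · refine (left_comb ?_).trans hht
      refine ht'.all h ?_
      intro l r l' r' hc hf hl hr
      obtain ⟨i, hi⟩ := h3 l r hf hc
      subst hi
      cases hr with
      | leaf i => exact ⟨i, rfl⟩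

/-- the rank colour -/
noncomputable def rkc (g : ℕ → ℕ → ℝ) (y : ℕ) (l r : Tr) : ℕ := by
  classical exact Nat.findGreatest (fun c => Rk g c l r) y

theorem rkc_spec (g : ℕ → ℕ → ℝ) (y : ℕ) (l r : Tr) : Rk g (rkc g y l r) l r := by
  classical
  unfold rkc
  exact Nat.findGreatest_spec (P := fun c => Rk g c l r) (Nat.zero_le y) (rk_zero g l r)

theorem rkc_lt {g : ℕ → ℕ → ℝ} {y : ℕ} {l r : Tr} (h : ¬ Rk g y l r) : rkc g y l r < y := by
  classical
  have h1 := rkc_spec g y l r
  have h2 : rkc g y l r ≤ y := by unfold rkc; exact Nat.findGreatest_le _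
  rcases Nat.lt_or_eq_of_le h2 with h3 | h3
  · exact h3
  · rw [h3] at h1; exact absurd h1 h

theorem rkc_succ {g : ℕ → ℕ → ℝ} {y : ℕ} {l r : Tr} (h : rkc g y l r < y) :
    ¬ Rk g (rkc g y l r + 1) l r := by
  classical
  have h1 : rkc g y l r = Nat.findGreatest (fun c => Rk g c l r) y := by unfold rkc; rfl
  have h2 : Nat.findGreatest (fun c => Rk g c l r) y < rkc g y l r + 1 := by rw [← h1]; omega
  exact Nat.findGreatest_is_greatest (P := fun c => Rk g c l r) h2 h

/-- **Tree theorem.** -/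
theorem tree_bound {g : ℕ → ℕ → ℝ} (hg : ∀ i j, g i j = g j i) {t : Tr} {s S y : ℕ}
    (hH : Homog g t) (hs : t.ht ≤ s) (hsS : s + 1 ≤ S)
    (hI : All (fun l r => ¬ Rk g y l r) t)
    (hD : All (fun l r => ¬ Rk (fun i j => - g i j) y l r) t)
    (hU : ∀ t', Sel (fun _ _ => True) t' t → Ty (fun i j => - g i j) g t' → t'.lv.length ≤ S)
    (hN : ∀ t', Sel (fun _ _ => True) t' t → Ty g (fun i j => - g i j) t' → t'.lv.length ≤ S) :
    t.lv.length ≤ S ^ (4 * (y * y)) := by
  classical
  set g' : ℕ → ℕ → ℝ := fun i j => - g i j with hg'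
  have hgg' : ∀ i j, g' i j = g' j i := fun i j => by simp only [hg']; rw [hg]
  let ρ : Tr → Tr → ℕ := fun l r => rkc g y l r * y + rkc g' y l r
  have hlt : All (fun l r => ρ l r < y * y) t := by
    refine (hI.and hD).imp ?_
    rintro l r ⟨h1, h2⟩
    have e1 := rkc_lt h1
    have e2 := rkc_lt h2
    show rkc g y l r * y + rkc g' y l r < y * y
    calc rkc g y l r * y + rkc g' y l r < rkc g y l r * y + y := by omega
      _ = (rkc g y l r + 1) * y := by ring
      _ ≤ y * y := Nat.mul_le_mul_right _ e1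
  rw [pow_mul]
  apply length_le_pow ρ (y * y) (S ^ 4) t hlt
  intro i hi t' ht'
  apply four_bound (g := g) (s := s) (S := S) ?_ (ht'.ht_le.trans hs) hsS
  · intro t'' h1 h2
    exact hU t'' (ht'.top.trans h1) h2
  · intro t'' h1 h2
    exact hN t'' (ht'.top.trans h1) h2
  · have hall := ((hI.and hD.deep).and hH)
    refine ht'.all hall ?_
    rintro l r l' r' hc ⟨⟨h1, h2, hDl, hDr⟩, h3, h4⟩ hl hr
    have e1 := rkc_lt h1
    have e2 := rkc_lt h2
    have hcc : ∀ a b, ρ a b = i → rkc g' y a b < y →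
        rkc g y a b = rkc g y l r ∧ rkc g' y a b = rkc g' y l r := by
      intro a b hab hy
      have h5 : rkc g y a b * y + rkc g' y a b = rkc g y l r * y + rkc g' y l r := hab.trans hc.symm
      have h6 : (rkc g y a b * y + rkc g' y a b) % y = (rkc g y l r * y + rkc g' y l r) % y := by
        rw [h5]
      rw [Nat.add_comm, Nat.add_mul_mod_self_right, Nat.add_comm (rkc g y l r * y),
        Nat.add_mul_mod_self_right, Nat.mod_eq_of_lt hy, Nat.mod_eq_of_lt e2] at h6
      rw [h6] at h5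
      have h7 : rkc g y a b * y = rkc g y l r * y := by omega
      exact ⟨Nat.eq_of_mul_eq_mul_right (by omega) h7, h6⟩
    -- the selections keep only nodes of this colour of the tree
    have sub : ∀ {x' x : Tr}, Sel (fun l r => ρ l r = i) x' x →
        All (fun l r => ¬ Rk g' y l r) x →
        Sel (fun a b => Rk g (rkc g y l r) a b ∧ Rk g' (rkc g' y l r) a b) x' x := by
      intro x' x hsel hx
      induction hsel with
      | leaf j => exact Sel.leaf j
      | left r _ ih => exact Sel.left r (ih hx.2.1)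
      | right l _ ih => exact Sel.right l (ih hx.2.2)
      | node hc' _ _ ihl ihr =>
        refine Sel.node ?_ (ihl hx.2.1) (ihr hx.2.2)
        obtain ⟨k1, k2⟩ := hcc _ _ hc' (rkc_lt hx.1)
        rw [← k1, ← k2]
        exact ⟨rkc_spec _ _ _ _, rkc_spec _ _ _ _⟩
    have sl := sub hl hDl
    have sr := sub hr hDr
    have A := side_or hg (n := rkc g y l r) (fun a b h => h.1) h3 h4 sl sr (rkc_succ e1)
    have hneg : (fun i j => - g' i j) = g := by
      funext i j; simp only [hg', neg_neg]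
    have B := side_or hgg' (n := rkc g' y l r) (fun a b h => h.2)
      (h3.imp (fun a b h => by rw [hneg]; exact h.symm))
      (h4.imp (fun a b h => by rw [hneg]; exact h.symm)) sl sr (rkc_succ e2)
    rw [hneg] at B
    rcases A with A | A <;> rcases B with B | B
    · exact Or.inr (Or.inr (Or.inl (not_both (lv_pos r') B A)))
    · exact Or.inl ⟨A, B⟩
    · exact Or.inr (Or.inl ⟨B, A⟩)
    · exact Or.inr (Or.inr (Or.inr (not_both (lv_pos l') B A)))

end Tr

end Pool.Agent.H595K
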