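import Mathlib
import Pool.Agent.H595K.Tree

/-!
# Labelled binary trees
-/

namespace Pool.Agent.H595K

/-- binary trees with labels at the inner nodes and natural numbers at the leaves -/
inductive LT (α : Type) : Type
  | leaf : ℕ → LT α
  | node : α → LT α → LT α → LT α

namespace LT

variable {α β : Type}

/-- the leaves from left to right -/
def lv : LT α → List ℕ
  | leaf i => [i]
  | node _ l r => lv l ++ lv r

/-- height -/
def ht : LT α → ℕ
  | leaf _ => 0
  | node _ l r => max (ht l) (ht r) + 1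

/-- a property of all inner nodes -/
def AllN (P : α → LT α → LT α → Prop) : LT α → Prop
  | leaf _ => True
  | node a l r => P a l r ∧ AllN P l ∧ AllN P r

/-- a property of all labels -/
def AllL (P : α → Prop) : LT α → Prop
  | leaf _ => True
  | node a l r => P a ∧ AllL P l ∧ AllL P r

/-- complete binary tree of depth `n` -/
def Comp : ℕ → LT α → Prop
  | 0, leaf _ => True
  | n + 1, node _ l r => Comp n l ∧ Comp n r
  | _, _ => False

/-- `Sub c t' t`: `t'` arises from `t` by deleting leaves, so that only inner nodes with the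
property `c` remain. -/
inductive Sub (c : α → LT α → LT α → Prop) : LT α → LT α → Prop
  | leaf (i : ℕ) : Sub c (leaf i) (leaf i)
  | left {t' l : LT α} (a : α) (r : LT α) (h : Sub c t' l) : Sub c t' (node a l r)
  | right {t' r : LT α} (a : α) (l : LT α) (h : Sub c t' r) : Sub c t' (node a l r)
  | node {a : α} {l r l' r' : LT α} (hc : c a l r) (hl : Sub c l' l) (hr : Sub c r' r) :
      Sub c (node a l' r') (node a l r)

theorem lv_pos (t : LT α) : 0 < t.lv.length := by
  induction t with
  | leaf i => simp [lv]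
  | node a l r hl hr => simp [lv]; omega

theorem exists_mem (t : LT α) : ∃ i, i ∈ t.lv := List.exists_mem_of_length_pos (lv_pos t)

theorem AllN.imp {P Q : α → LT α → LT α → Prop} {t : LT α} (h : AllN P t)
    (hPQ : ∀ a l r, P a l r → Q a l r) : AllN Q t := by
  induction t with
  | leaf i => trivial
  | node a l r hl hr => exact ⟨hPQ _ _ _ h.1, hl h.2.1, hr h.2.2⟩

theorem AllN.and {P Q : α → LT α → LT α → Prop} {t : LT α} (h : AllN P t) (h' : AllN Q t) :
    AllN (fun a l r => P a l r ∧ Q a l r) t := by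
  induction t with
  | leaf i => trivial
  | node a l r hl hr => exact ⟨⟨h.1, h'.1⟩, hl h.2.1 h'.2.1, hr h.2.2 h'.2.2⟩

theorem AllN.deep {P : α → LT α → LT α → Prop} {t : LT α} (h : AllN P t) :
    AllN (fun a l r => P a l r ∧ AllN P l ∧ AllN P r) t := by
  induction t with
  | leaf i => trivial
  | node a l r hl hr => exact ⟨⟨h.1, h.2.1, h.2.2⟩, hl h.2.1, hr h.2.2⟩

theorem allN_of_allL {P : α → Prop} {t : LT α} (h : AllL P t) : AllN (fun a _ _ => P a) t := by
  induction t with
  | leaf i => trivial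
  | node a l r hl hr => exact ⟨h.1, hl h.2.1, hr h.2.2⟩

theorem allL_of_allN {P : α → Prop} {t : LT α} (h : AllN (fun a _ _ => P a) t) : AllL P t := by
  induction t with
  | leaf i => trivial
  | node a l r hl hr => exact ⟨h.1, hl h.2.1, hr h.2.2⟩

theorem AllL.imp {P Q : α → Prop} {t : LT α} (h : AllL P t) (hPQ : ∀ a, P a → Q a) :
    AllL Q t := by
  induction t with
  | leaf i => trivial
  | node a l r hl hr => exact ⟨hPQ _ h.1, hl h.2.1, hr h.2.2⟩

theorem AllL.and {P Q : α → Prop} {t : LT α} (h : AllL P t) (h' : AllL Q t) :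
    AllL (fun a => P a ∧ Q a) t := by
  induction t with
  | leaf i => trivial
  | node a l r hl hr => exact ⟨⟨h.1, h'.1⟩, hl h.2.1 h'.2.1, hr h.2.2 h'.2.2⟩

theorem AllN.of_forall {P : α → LT α → LT α → Prop} (h : ∀ a l r, P a l r) (t : LT α) :
    AllN P t := by
  induction t with
  | leaf i => trivial
  | node a l r hl hr => exact ⟨h _ _ _, hl, hr⟩

theorem Sub.refl (t : LT α) : Sub (fun _ _ _ => True) t t := by
  induction t with
  | leaf i => exact Sub.leaf i
  | node a l r hl hr => exact Sub.node trivial hl hr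

theorem Sub.mono {c c' : α → LT α → LT α → Prop} (hcc : ∀ a l r, c a l r → c' a l r)
    {t' t : LT α} (h : Sub c t' t) : Sub c' t' t := by
  induction h with
  | leaf i => exact Sub.leaf i
  | left a r _ ih => exact Sub.left a r ih
  | right a l _ ih => exact Sub.right a l ih
  | node hc _ _ ihl ihr => exact Sub.node (hcc _ _ _ hc) ihl ihr

theorem Sub.top {c : α → LT α → LT α → Prop} {t' t : LT α} (h : Sub c t' t) :
    Sub (fun _ _ _ => True) t' t :=
  h.mono (fun _ _ _ _ => trivial)

theorem Sub.trans {t'' t' t : LT α} (h' : Sub (fun _ _ _ => True) t' t)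
    (h : Sub (fun _ _ _ => True) t'' t') : Sub (fun _ _ _ => True) t'' t := by
  induction h' generalizing t'' with
  | leaf i => exact h
  | left a r _ ih => exact Sub.left a r (ih h)
  | right a l _ ih => exact Sub.right a l (ih h)
  | node hc _ _ ihl ihr =>
    cases h with
    | left a r h1 => exact Sub.left _ _ (ihl h1)
    | right a l h1 => exact Sub.right _ _ (ihr h1)
    | node hc' h1 h2 => exact Sub.node trivial (ihl h1) (ihr h2)

theorem Sub.sublist {c : α → LT α → LT α → Prop} {t' t : LT α} (h : Sub c t' t) :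
    t'.lv.Sublist t.lv := by
  induction h with
  | leaf i => exact List.Sublist.refl _
  | left a r _ ih => exact ih.trans (List.sublist_append_left _ _)
  | right a l _ ih => exact ih.trans (List.sublist_append_right _ _)
  | node hc _ _ ihl ihr => exact ihl.append ihr

theorem Sub.mem {c : α → LT α → LT α → Prop} {t' t : LT α} (h : Sub c t' t) {i : ℕ}
    (hi : i ∈ t'.lv) : i ∈ t.lv := h.sublist.subset hi

theorem Sub.allN {c P P' : α → LT α → LT α → Prop} {t' t : LT α} (h : Sub c t' t)
    (hP : AllN P t)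
    (hc : ∀ a l r l' r', c a l r → P a l r → Sub c l' l → Sub c r' r → P' a l' r') :
    AllN P' t' := by
  induction h with
  | leaf i => trivial
  | left a r _ ih => exact ih hP.2.1
  | right a l _ ih => exact ih hP.2.2
  | node hc' h1 h2 ihl ihr => exact ⟨hc _ _ _ _ _ hc' hP.1 h1 h2, ihl hP.2.1, ihr hP.2.2⟩

theorem Sub.allL {c : α → LT α → LT α → Prop} {P : α → Prop} {t' t : LT α} (h : Sub c t' t)
    (hP : AllL P t) : AllL P t' := by
  induction h with
  | leaf i => trivial
  | left a r _ ih => exact ih hP.2.1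
  | right a l _ ih => exact ih hP.2.2
  | node hc' h1 h2 ihl ihr => exact ⟨hP.1, ihl hP.2.1, ihr hP.2.2⟩

theorem exists_leaf (t : LT α) : ∃ i, Sub (fun _ _ _ => True) (leaf i) t := by
  induction t with
  | leaf i => exact ⟨i, Sub.leaf i⟩
  | node a l r hl _ =>
    obtain ⟨i, hi⟩ := hl
    exact ⟨i, Sub.left _ _ hi⟩

theorem exists_leafC (c : α → LT α → LT α → Prop) (t : LT α) : ∃ i, Sub c (leaf i) t := by
  induction t with
  | leaf i => exact ⟨i, Sub.leaf i⟩
  | node a l r hl _ =>
    obtain ⟨i, hi⟩ := hl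
    exact ⟨i, Sub.left _ _ hi⟩

theorem not_allN {P : α → LT α → LT α → Prop} {t : LT α} (h : ¬ AllN P t) :
    ∃ a l r, ¬ P a l r ∧ Sub (fun _ _ _ => True) (node a l r) t ∧
      ∀ Q : α → LT α → LT α → Prop, AllN Q t → Q a l r := by
  induction t with
  | leaf i => exact absurd trivial h
  | node a l r hl hr =>
    by_cases h1 : P a l r
    · by_cases h2 : AllN P l
      · have h3 : ¬ AllN P r := fun h3 => h ⟨h1, h2, h3⟩
        obtain ⟨a', b, c, k1, k2, k3⟩ := hr h3
        exact ⟨a', b, c, k1, Sub.right a l k2, fun Q hQ => k3 Q hQ.2.2⟩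
      · obtain ⟨a', b, c, k1, k2, k3⟩ := hl h2
        exact ⟨a', b, c, k1, Sub.left a r k2, fun Q hQ => k3 Q hQ.2.1⟩
    · exact ⟨a, l, r, h1, Sub.refl _, fun Q hQ => hQ.1⟩

theorem Comp.length {n : ℕ} {t : LT α} (h : Comp n t) : t.lv.length = 2 ^ n := by
  induction t generalizing n with
  | leaf i =>
    cases n with
    | zero => simp [lv]
    | succ n => exact absurd h (by simp [Comp])
  | node a l r hl hr =>
    cases n with
    | zero => exact absurd h (by simp [Comp])
    | succ n =>
      simp only [lv, List.length_append]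
      rw [hl h.1, hr h.2]
      ring

/-- monochromatic rank -/
noncomputable def rk (ρ : α → LT α → LT α → ℕ) (i : ℕ) : LT α → ℕ
  | leaf _ => 0
  | node a l r => if ρ a l r = i then max (max (rk ρ i l) (rk ρ i r)) (min (rk ρ i l) (rk ρ i r) + 1)
      else max (rk ρ i l) (rk ρ i r)

theorem rk_spec (ρ : α → LT α → LT α → ℕ) (i : ℕ) (t : LT α) (d : ℕ) (hd : d ≤ rk ρ i t) :
    ∃ t', Sub (fun a l r => ρ a l r = i) t' t ∧ Comp d t' := by
  induction t generalizing d with
  | leaf j =>
    simp only [rk] at hd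
    have : d = 0 := by omega
    subst this
    exact ⟨leaf j, Sub.leaf j, trivial⟩
  | node a l r hl hr =>
    by_cases h1 : d ≤ rk ρ i l
    · obtain ⟨t', k1, k2⟩ := hl d h1
      exact ⟨t', Sub.left _ _ k1, k2⟩
    by_cases h2 : d ≤ rk ρ i r
    · obtain ⟨t', k1, k2⟩ := hr d h2
      exact ⟨t', Sub.right _ _ k1, k2⟩
    simp only [rk] at hd
    split_ifs at hd with hρ
    · obtain ⟨d', rfl⟩ : ∃ d', d = d' + 1 := ⟨d - 1, by omega⟩
      obtain ⟨l', k1, k2⟩ := hl d' (by omega)
      obtain ⟨r', k3, k4⟩ := hr d' (by omega)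
      exact ⟨node a l' r', Sub.node hρ k1 k3, k2, k4⟩
    · omega

theorem comp_le (ρ : α → LT α → LT α → ℕ) (m : ℕ) {t : LT α}
    (h : AllN (fun a l r => ρ a l r < m) t) {n : ℕ} (hn : Comp n t) :
    n ≤ ∑ i ∈ Finset.range m, rk ρ i t := by
  induction t generalizing n with
  | leaf i =>
    cases n with
    | zero => exact Nat.zero_le _
    | succ n => exact absurd hn (by simp [Comp])
  | node a l r hl hr =>
    cases n with
    | zero => exact Nat.zero_le _
    | succ n =>
      have h1 := hl h.2.1 hn.1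
      have h2 := hr h.2.2 hn.2
      have h3 : ∀ i, max (rk ρ i l) (rk ρ i r) ≤ rk ρ i (node a l r) := by
        intro i; simp only [rk]; split_ifs <;> omega
      by_contra hc
      push Not at hc
      have e1 : ∑ i ∈ Finset.range m, rk ρ i l ≤ ∑ i ∈ Finset.range m, rk ρ i (node a l r) :=
        Finset.sum_le_sum (fun i _ => (le_max_left _ _).trans (h3 i))
      have e2 : ∑ i ∈ Finset.range m, rk ρ i r ≤ ∑ i ∈ Finset.range m, rk ρ i (node a l r) :=
        Finset.sum_le_sum (fun i _ => (le_max_right _ _).trans (h3 i))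
      -- equality everywhere
      have h0 : ρ a l r ∈ Finset.range m := Finset.mem_range.2 h.1
      have f1 : rk ρ (ρ a l r) l = rk ρ (ρ a l r) (node a l r) := by
        by_contra hne
        have : ∑ i ∈ Finset.range m, rk ρ i l < ∑ i ∈ Finset.range m, rk ρ i (node a l r) :=
          Finset.sum_lt_sum (fun i _ => (le_max_left _ _).trans (h3 i))
            ⟨_, h0, lt_of_le_of_ne ((le_max_left _ _).trans (h3 _)) hne⟩
        omega
      have f2 : rk ρ (ρ a l r) r = rk ρ (ρ a l r) (node a l r) := by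
        by_contra hne
        have : ∑ i ∈ Finset.range m, rk ρ i r < ∑ i ∈ Finset.range m, rk ρ i (node a l r) :=
          Finset.sum_lt_sum (fun i _ => (le_max_right _ _).trans (h3 i))
            ⟨_, h0, lt_of_le_of_ne ((le_max_right _ _).trans (h3 _)) hne⟩
        omega
      have f3 : min (rk ρ (ρ a l r) l) (rk ρ (ρ a l r) r) + 1 ≤ rk ρ (ρ a l r) (node a l r) := by
        simp only [rk, if_true]
        exact le_max_right _ _
      omega

/-- a monochromatic complete subtree -/
theorem exists_color (ρ : α → LT α → LT α → ℕ) {m D n : ℕ} {t : LT α}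
    (h : AllN (fun a l r => ρ a l r < m) t) (hn : Comp n t) (hmD : m * D < n) :
    ∃ i < m, ∃ t', Sub (fun a l r => ρ a l r = i) t' t ∧ Comp (D + 1) t' := by
  by_contra hcon
  push Not at hcon
  have h1 : ∀ i < m, rk ρ i t ≤ D := by
    intro i hi
    by_contra hc
    obtain ⟨t', k1, k2⟩ := rk_spec ρ i t (D + 1) (by omega)
    exact hcon i hi t' k1 k2
  have h2 := comp_le ρ m h hn
  have h3 : ∑ i ∈ Finset.range m, rk ρ i t ≤ ∑ _i ∈ Finset.range m, D :=
    Finset.sum_le_sum (fun i hi => h1 i (Finset.mem_range.1 hi))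
  simp at h3
  omega

/-- the number of leaves is bounded by the rank -/
theorem length_le_rk (t : LT α) : t.lv.length * 8 ^ t.ht ≤ 9 ^ t.ht * 8 ^ (rk (fun _ _ _ => 0) 0 t) := by
  have key : ∀ (t : LT α) (h : ℕ), t.ht ≤ h →
      t.lv.length * 8 ^ h ≤ 9 ^ h * 8 ^ (rk (fun _ _ _ => 0) 0 t) := by
    intro t
    induction t with
    | leaf i =>
      intro h _
      simp only [lv, List.length_singleton, one_mul, rk, pow_zero, mul_one]
      exact Nat.pow_le_pow_left (by norm_num) h
    | node a l r hl hr =>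
      intro h hh
      simp only [ht] at hh
      obtain ⟨h', rfl⟩ : ∃ h', h = h' + 1 := ⟨h - 1, by omega⟩
      have h1 := hl h' (by omega)
      have h2 := hr h' (by omega)
      simp only [lv, List.length_append]
      set p := rk (fun (_ : α) _ _ => 0) 0 l with hp
      set q := rk (fun (_ : α) _ _ => 0) 0 r with hq
      have h3 : rk (fun (_ : α) _ _ => 0) 0 (node a l r) = max (max p q) (min p q + 1) := by
        simp only [rk, if_true]; rfl
      rw [h3]
      have h4 : 8 * (8 ^ p + 8 ^ q) ≤ 9 * 8 ^ (max (max p q) (min p q + 1)) := by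
        rcases lt_trichotomy p q with h5 | h5 | h5
        · have e1 : max (max p q) (min p q + 1) = q := by omega
          have e2 : 8 ^ (p + 1) ≤ 8 ^ q := Nat.pow_le_pow_right (by norm_num) (by omega)
          rw [e1]; rw [pow_succ] at e2; omega
        · have e1 : max (max p q) (min p q + 1) = p + 1 := by omega
          rw [e1, ← h5, pow_succ]; omega
        · have e1 : max (max p q) (min p q + 1) = p := by omega
          have e2 : 8 ^ (q + 1) ≤ 8 ^ p := Nat.pow_le_pow_right (by norm_num) (by omega)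
          rw [e1]; rw [pow_succ] at e2; omega
      calc (l.lv.length + r.lv.length) * 8 ^ (h' + 1)
          = 8 * (l.lv.length * 8 ^ h' + r.lv.length * 8 ^ h') := by ring
        _ ≤ 8 * (9 ^ h' * 8 ^ p + 9 ^ h' * 8 ^ q) := by omega
        _ = 9 ^ h' * (8 * (8 ^ p + 8 ^ q)) := by ring
        _ ≤ 9 ^ h' * (9 * 8 ^ (max (max p q) (min p q + 1))) := Nat.mul_le_mul_left _ h4
        _ = 9 ^ (h' + 1) * 8 ^ (max (max p q) (min p q + 1)) := by ring
  exact key t _ le_rfl

theorem exists_comp {t : LT α} {h n d : ℕ} (hh : t.ht ≤ h) (hn : n ≤ t.lv.length)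
    (hd : 9 ^ h * 8 ^ d < n * 8 ^ h) :
    ∃ t', Sub (fun _ _ _ => True) t' t ∧ Comp (d + 1) t' := by
  have key := length_le_rk t
  have h1 : t.lv.length * 8 ^ h ≤ 9 ^ h * 8 ^ (rk (fun _ _ _ => 0) 0 t) := by
    obtain ⟨e, rfl⟩ := Nat.exists_eq_add_of_le hh
    calc t.lv.length * 8 ^ (t.ht + e) = (t.lv.length * 8 ^ t.ht) * 8 ^ e := by rw [pow_add]; ring
      _ ≤ (9 ^ t.ht * 8 ^ (rk (fun _ _ _ => 0) 0 t)) * 8 ^ e := Nat.mul_le_mul_right _ key
      _ ≤ (9 ^ t.ht * 8 ^ (rk (fun _ _ _ => 0) 0 t)) * 9 ^ e :=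
        Nat.mul_le_mul_left _ (Nat.pow_le_pow_left (by norm_num) e)
      _ = 9 ^ (t.ht + e) * 8 ^ (rk (fun _ _ _ => 0) 0 t) := by rw [pow_add]; ring
  have h2 : d + 1 ≤ rk (fun _ _ _ => 0) 0 t := by
    by_contra hc
    have h3 : 8 ^ (rk (fun _ _ _ => 0) 0 t) ≤ 8 ^ d := Nat.pow_le_pow_right (by norm_num) (by omega)
    have h4 : n * 8 ^ h ≤ 9 ^ h * 8 ^ d :=
      (Nat.mul_le_mul_right _ hn).trans (h1.trans (Nat.mul_le_mul_left _ h3))
    omega
  obtain ⟨t', k1, k2⟩ := rk_spec _ 0 t (d + 1) h2
  exact ⟨t', k1.top, k2⟩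

end LT

end Pool.Agent.H595K
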