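import Mathlib
import Pool.Agent.H595K.LT

/-!
# Labels for homogeneous trees
-/

namespace Pool.Agent.H595K.Lb

open LT

/-- the labels describe the comparisons of the values `g` -/
def Rel (g : ℕ → ℕ → ℝ) (x : ℝ) (Z : List ℕ) : LT ℝ → Prop :=
  LT.AllN (fun x' a b => (x < x' → Tr.GtR g a.lv b.lv Z) ∧
    (x' < x → Tr.GtR (fun i j => - g i j) a.lv b.lv Z) ∧ x' ≠ x)

/-- compatible labels -/
def Compat (g : ℕ → ℕ → ℝ) : LT ℝ → Prop :=
  LT.AllN (fun x l r => Rel g x r.lv l ∧ Rel g x l.lv r)

theorem exists_between_list (A B : List ℝ) (h : ∀ a ∈ A, ∀ b ∈ B, a < b) :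
    ∃ x, (∀ a ∈ A, a < x) ∧ ∀ b ∈ B, x < b := by
  classical
  by_cases hA : A = []
  · subst hA
    by_cases hB : B = []
    · subst hB; exact ⟨0, by simp, by simp⟩
    · obtain ⟨b0, hb0, hmin⟩ := Finset.exists_min_image B.toFinset (fun b => b)
        (by rw [List.toFinset_nonempty_iff]; exact hB)
      refine ⟨b0 - 1, by simp, ?_⟩
      intro b hb
      have := hmin b (by simpa using hb)
      linarith
  · obtain ⟨a0, ha0, hmax⟩ := Finset.exists_max_image A.toFinset (fun b => b)
      (by rw [List.toFinset_nonempty_iff]; exact hA)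
    by_cases hB : B = []
    · subst hB
      refine ⟨a0 + 1, ?_, by simp⟩
      intro a ha
      have := hmax a (by simpa using ha)
      linarith
    · obtain ⟨b0, hb0, hmin⟩ := Finset.exists_min_image B.toFinset (fun b => b)
        (by rw [List.toFinset_nonempty_iff]; exact hB)
      have h1 := h a0 (by simpa using ha0) b0 (by simpa using hb0)
      refine ⟨(a0 + b0) / 2, ?_, ?_⟩
      · intro a ha
        have := hmax a (by simpa using ha)
        linarith
      · intro b hb
        have := hmin b (by simpa using hb)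
        linarith

theorem exists_label {g : ℕ → ℕ → ℝ} (hg : ∀ i j, g i j = g j i) (t : Tr) :
    ∀ C : List (ℝ × List ℕ), Tr.Homog g t →
      (∀ c ∈ C, c.2 ≠ [] ∧ Tr.All (fun a b => Tr.GtR g a.lv b.lv c.2 ∨
        Tr.GtR (fun i j => - g i j) a.lv b.lv c.2) t) →
      (∀ c ∈ C, ∀ c' ∈ C, c.1 < c'.1 → ∀ p ∈ t.lv, ∀ z ∈ c.2, ∀ z' ∈ c'.2, g p z < g p z') →
      (∀ c ∈ C, ∀ c' ∈ C, c.1 = c'.1 → c = c') →
      ∃ T : LT ℝ, T.lv = t.lv ∧ T.ht = t.ht ∧ Compat g T ∧ ∀ c ∈ C, Rel g c.1 c.2 T := by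
  classical
  induction t with
  | leaf i =>
    intro C _ _ _ _
    exact ⟨LT.leaf i, rfl, rfl, trivial, fun _ _ => trivial⟩
  | node a b iha ihb =>
    intro C hH h1 h2 h3
    obtain ⟨⟨hHa, hHb⟩, hHl, hHr⟩ := hH
    obtain ⟨pa, hpa⟩ := List.exists_mem_of_length_pos (Tr.lv_pos a)
    obtain ⟨pb, hpb⟩ := List.exists_mem_of_length_pos (Tr.lv_pos b)
    obtain ⟨x, hxA, hxB⟩ := exists_between_list
      ((C.filter (fun c => Tr.GtR g a.lv b.lv c.2)).map Prod.fst)
      ((C.filter (fun c => ¬ Tr.GtR g a.lv b.lv c.2)).map Prod.fst) (by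
        intro u hu v hv
        obtain ⟨c, hc, rfl⟩ := List.mem_map.1 hu
        obtain ⟨c', hc', rfl⟩ := List.mem_map.1 hv
        obtain ⟨hcC, hcg⟩ := List.mem_filter.1 hc
        obtain ⟨hcC', hcg'⟩ := List.mem_filter.1 hc'
        have hcg := of_decide_eq_true hcg
        have hcg' : ¬ Tr.GtR g a.lv b.lv c'.2 := by simpa using hcg'
        have hneg := (h1 c' hcC').2.1.resolve_left hcg'
        by_contra hcon
        rcases lt_or_eq_of_le (not_lt.1 hcon) with h4 | h4
        · obtain ⟨z, hz⟩ := List.exists_mem_of_ne_nil _ (h1 c hcC).1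
          obtain ⟨z', hz'⟩ := List.exists_mem_of_ne_nil _ (h1 c' hcC').1
          have e1 := h2 c' hcC' c hcC h4 pa (by simp [Tr.lv, hpa]) z' hz' z hz
          have e2 := (hcg pa hpa pb hpb z hz).1
          have e3 := (hneg pa hpa pb hpb z' hz').1
          linarith
        · have := h3 c' hcC' c hcC h4
          rw [this] at hcg'
          exact hcg' hcg)
    have hA : ∀ c ∈ C, Tr.GtR g a.lv b.lv c.2 → c.1 < x := by
      intro c hc hgc
      exact hxA _ (List.mem_map.2 ⟨c, List.mem_filter.2 ⟨hc, by simpa using hgc⟩, rfl⟩)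
    have hB : ∀ c ∈ C, ¬ Tr.GtR g a.lv b.lv c.2 → x < c.1 := by
      intro c hc hgc
      exact hxB _ (List.mem_map.2 ⟨c, List.mem_filter.2 ⟨hc, by simpa using hgc⟩, rfl⟩)
    have hA' : ∀ c ∈ C, c.1 < x → Tr.GtR g a.lv b.lv c.2 := by
      intro c hc hlt
      by_contra hcon
      have := hB c hc hcon
      linarith
    have hB' : ∀ c ∈ C, x < c.1 → Tr.GtR (fun i j => - g i j) a.lv b.lv c.2 := by
      intro c hc hlt
      apply (h1 c hc).2.1.resolve_left
      intro hcon
      have := hA c hc hcon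
      linarith
    have hne : ∀ c ∈ C, c.1 ≠ x := by
      intro c hc heq
      by_cases hcon : Tr.GtR g a.lv b.lv c.2
      · have := hA c hc hcon; linarith
      · have := hB c hc hcon; linarith
    have hbne : b.lv ≠ [] := List.ne_nil_of_length_pos (Tr.lv_pos b)
    have hane : a.lv ≠ [] := List.ne_nil_of_length_pos (Tr.lv_pos a)
    obtain ⟨Ta, a1, a2, a3, a4⟩ := iha ((x, b.lv) :: C) hHl (by
        intro c hc
        rcases List.mem_cons.1 hc with rfl | hc
        · exact ⟨hbne, hHa⟩
        · exact ⟨(h1 c hc).1, (h1 c hc).2.2.1⟩) (by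
        intro c hc c' hc' hlt p hp z hz z' hz'
        rcases List.mem_cons.1 hc with rfl | hc <;> rcases List.mem_cons.1 hc' with rfl | hc'
        · exact absurd hlt (lt_irrefl _)
        · have := (hB' c' hc' hlt p hp z hz z' hz').1
          linarith
        · exact (hA' c hc hlt p hp z' hz' z hz).1
        · exact h2 c hc c' hc' hlt p (by simp [Tr.lv, hp]) z hz z' hz') (by
        intro c hc c' hc' heq
        rcases List.mem_cons.1 hc with rfl | hc <;> rcases List.mem_cons.1 hc' with rfl | hc'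
        · rfl
        · exact absurd heq.symm (hne c' hc')
        · exact absurd heq (hne c hc)
        · exact h3 c hc c' hc' heq)
    obtain ⟨Tb, b1, b2, b3, b4⟩ := ihb ((x, a.lv) :: C) hHr (by
        intro c hc
        rcases List.mem_cons.1 hc with rfl | hc
        · exact ⟨hane, hHb⟩
        · exact ⟨(h1 c hc).1, (h1 c hc).2.2.2⟩) (by
        intro c hc c' hc' hlt p hp z hz z' hz'
        rcases List.mem_cons.1 hc with rfl | hc <;> rcases List.mem_cons.1 hc' with rfl | hc'
        · exact absurd hlt (lt_irrefl _)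
        · have := (hB' c' hc' hlt z hz p hp z' hz').2
          rw [hg p z]
          linarith
        · have := (hA' c hc hlt z' hz' p hp z hz).2
          rw [hg p z']
          exact this
        · exact h2 c hc c' hc' hlt p (by simp [Tr.lv, hp]) z hz z' hz') (by
        intro c hc c' hc' heq
        rcases List.mem_cons.1 hc with rfl | hc <;> rcases List.mem_cons.1 hc' with rfl | hc'
        · rfl
        · exact absurd heq.symm (hne c' hc')
        · exact absurd heq (hne c hc)
        · exact h3 c hc c' hc' heq)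
    refine ⟨LT.node x Ta Tb, ?_, ?_, ⟨⟨?_, ?_⟩, a3, b3⟩, ?_⟩
    · simp only [LT.lv, Tr.lv, a1, b1]
    · simp only [LT.ht, Tr.ht, a2, b2]
    · rw [b1]; exact a4 (x, b.lv) (by simp)
    · rw [a1]; exact b4 (x, a.lv) (by simp)
    · intro c hc
      refine ⟨⟨?_, ?_, ?_⟩, a4 c (List.mem_cons_of_mem _ hc), b4 c (List.mem_cons_of_mem _ hc)⟩
      · intro hlt
        rw [a1, b1]
        exact hA' c hc hlt
      · intro hlt
        rw [a1, b1]
        exact hB' c hc hlt
      · exact (hne c hc).symm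

/-- every homogeneous tree has compatible labels -/
theorem exists_compat {g : ℕ → ℕ → ℝ} (hg : ∀ i j, g i j = g j i) {t : Tr} (h : Tr.Homog g t) :
    ∃ T : LT ℝ, T.lv = t.lv ∧ T.ht = t.ht ∧ Compat g T := by
  obtain ⟨T, h1, h2, h3, _⟩ := exists_label hg t [] h (by simp) (by simp) (by simp)
  exact ⟨T, h1, h2, h3⟩

end Pool.Agent.H595K.Lb
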