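import Mathlib
import Pool.Agent.H595K.Label

/-!
# Left-good, right-good and left-bad subtrees
-/

namespace Pool.Agent.H595K.Lb

open LT

/-- left descendants have larger labels -/
def LG : LT ℝ → Prop := LT.AllN (fun x l _ => AllL (fun u => x < u) l)

/-- left descendants have smaller labels -/
def LB : LT ℝ → Prop := LT.AllN (fun x l _ => AllL (fun u => u < x) l)

/-- right descendants have larger labels -/
def RG : LT ℝ → Prop := LT.AllN (fun x _ r => AllL (fun u => x < u) r)

/-- the labels on every path are distinct -/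
def Dst : LT ℝ → Prop := LT.AllN (fun x l r => AllL (fun u => u ≠ x) l ∧ AllL (fun u => u ≠ x) r)

/-- at this node starts a complete left-bad tree of depth `c + 1` with labels at most `x` -/
def Bd (c : ℕ) (x : ℝ) (l r : LT ℝ) : Prop :=
  ∃ l' r', Sub (fun _ _ _ => True) l' l ∧ Sub (fun _ _ _ => True) r' r ∧ Comp c l' ∧ Comp c r' ∧
    LB l' ∧ LB r' ∧ AllL (fun u => u < x) l' ∧ AllL (fun u => u < x) r'

theorem bd_zero (x : ℝ) (l r : LT ℝ) : Bd 0 x l r := by
  obtain ⟨i, hi⟩ := exists_leaf l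
  obtain ⟨j, hj⟩ := exists_leaf r
  exact ⟨leaf i, leaf j, hi, hj, trivial, trivial, trivial, trivial, trivial, trivial⟩

theorem bd_succ {c : ℕ} {x x1 x2 : ℝ} {l r a1 b1 a2 b2 : LT ℝ}
    (h1 : Bd c x1 a1 b1) (hs1 : Sub (fun _ _ _ => True) (node x1 a1 b1) l) (hx1 : x1 < x)
    (h2 : Bd c x2 a2 b2) (hs2 : Sub (fun _ _ _ => True) (node x2 a2 b2) r) (hx2 : x2 < x) :
    Bd (c + 1) x l r := by
  obtain ⟨l1, r1, p1, p2, p3, p4, p5, p6, p7, p8⟩ := h1
  obtain ⟨l2, r2, q1, q2, q3, q4, q5, q6, q7, q8⟩ := h2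
  refine ⟨node x1 l1 r1, node x2 l2 r2, hs1.trans (Sub.node trivial p1 p2),
    hs2.trans (Sub.node trivial q1 q2), ⟨p3, p4⟩, ⟨q3, q4⟩, ⟨p7, p5, p6⟩, ⟨q7, q5, q6⟩,
    ⟨hx1, p7.imp ?_, p8.imp ?_⟩, ⟨hx2, q7.imp ?_, q8.imp ?_⟩⟩
  · intro u hu; exact hu.trans hx1
  · intro u hu; exact hu.trans hx1
  · intro u hu; exact hu.trans hx2
  · intro u hu; exact hu.trans hx2

/-- the rank -/
noncomputable def bt (y : ℕ) (x : ℝ) (l r : LT ℝ) : ℕ := by
  classical exact Nat.findGreatest (fun c => Bd c x l r) y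

theorem bt_spec (y : ℕ) (x : ℝ) (l r : LT ℝ) : Bd (bt y x l r) x l r := by
  classical
  unfold bt
  exact Nat.findGreatest_spec (P := fun c => Bd c x l r) (Nat.zero_le y) (bd_zero x l r)

theorem bt_lt {y : ℕ} {x : ℝ} {l r : LT ℝ} (h : ¬ Bd y x l r) : bt y x l r < y := by
  classical
  have h1 := bt_spec y x l r
  have h2 : bt y x l r ≤ y := by unfold bt; exact Nat.findGreatest_le _
  rcases Nat.lt_or_eq_of_le h2 with h3 | h3
  · exact h3
  · rw [h3] at h1; exact absurd h1 h

theorem bt_succ {y : ℕ} {x : ℝ} {l r : LT ℝ} (h : bt y x l r < y) :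
    ¬ Bd (bt y x l r + 1) x l r := by
  classical
  have h1 : bt y x l r = Nat.findGreatest (fun c => Bd c x l r) y := by unfold bt; rfl
  have h2 : Nat.findGreatest (fun c => Bd c x l r) y < bt y x l r + 1 := by rw [← h1]; omega
  exact Nat.findGreatest_is_greatest (P := fun c => Bd c x l r) h2 h

theorem exists_good_sub {t : LT ℝ} {n y D : ℕ} (hd : Dst t) (hn : Comp n t)
    (hyD : 2 * y * D < n) :
    (∃ t', Sub (fun _ _ _ => True) t' t ∧ Comp (y + 1) t' ∧ LB t') ∨
    (∃ t', Sub (fun _ _ _ => True) t' t ∧ Comp (D + 1) t' ∧ LG t') ∨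
    (∃ t', Sub (fun _ _ _ => True) t' t ∧ Comp (D + 1) t' ∧ RG t') := by
  classical
  by_cases h1 : AllN (fun x l r => ¬ Bd y x l r) t
  · right
    let B : ℝ → LT ℝ → LT ℝ → ℕ := bt y
    let σ : ℝ → LT ℝ → LT ℝ → Prop := fun x l r =>
      AllN (fun x' a b => B x' a b = B x l r → x < x') l
    let ρ : ℝ → LT ℝ → LT ℝ → ℕ := fun x l r => 2 * B x l r + if σ x l r then 0 else 1
    have hρ : AllN (fun x l r => ρ x l r < 2 * y) t := by
      refine h1.imp ?_
      intro x l r h
      have h2 : B x l r < y := bt_lt h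
      show 2 * B x l r + (if σ x l r then 0 else 1) < 2 * y
      split_ifs <;> omega
    obtain ⟨i, hi, t', ht', hc⟩ := exists_color ρ hρ hn hyD
    have hρi : ∀ x l r, ρ x l r = i → B x l r = i / 2 ∧ (σ x l r ↔ i % 2 = 0) := by
      intro x l r h
      have h2 : 2 * B x l r + (if σ x l r then 0 else 1) = i := h
      split_ifs at h2 with h3
      · exact ⟨by omega, ⟨fun _ => by omega, fun _ => h3⟩⟩
      · exact ⟨by omega, ⟨fun h4 => absurd h4 h3, fun h4 => by omega⟩⟩
    rcases Nat.mod_two_eq_zero_or_one i with hi2 | hi2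
    · left
      refine ⟨t', ht'.top, hc, ?_⟩
      refine ht'.allN (AllN.of_forall (P := fun _ _ _ => True) (fun _ _ _ => trivial) t) ?_
      intro x l r l' r' hcol _ hl _
      obtain ⟨e1, e2⟩ := hρi _ _ _ hcol
      have h3 : σ x l r := e2.2 hi2
      apply allL_of_allN
      refine hl.allN h3 ?_
      intro x' a b a' b' hcol' hlt _ _
      exact hlt ((hρi _ _ _ hcol').1.trans e1.symm)
    · right
      refine ⟨t', ht'.top, hc, ?_⟩
      refine ht'.allN (h1.and hd) ?_
      rintro x l r l' r' hcol ⟨hB, hdl, hdr⟩ _ hr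
      obtain ⟨e1, e2⟩ := hρi _ _ _ hcol
      have h3 : ¬ σ x l r := fun h => by have := e2.1 h; omega
      obtain ⟨x1, a1, b1, k1, k2, k3⟩ := not_allN h3
      push Not at k1
      obtain ⟨k1, k4⟩ := k1
      have k5 : x1 < x := lt_of_le_of_ne k4 (k3 (fun u _ _ => u ≠ x) (allN_of_allL hdl))
      have hlt : bt y x l r < y := bt_lt hB
      have hbd1 : Bd (bt y x l r) x1 a1 b1 := by
        have := bt_spec y x1 a1 b1
        have e : bt y x1 a1 b1 = bt y x l r := k1
        rwa [e] at this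
      apply allL_of_allN
      have hsub : AllN (fun x' a b => Sub (fun _ _ _ => True) (node x' a b) r ∧ x' ≠ x) r := by
        have h5 : ∀ s : LT ℝ, Sub (fun _ _ _ => True) s r →
            AllN (fun x' a b => Sub (fun _ _ _ => True) (node x' a b) r) s := by
          intro s
          induction s with
          | leaf i => intro _; trivial
          | node u a b iha ihb =>
            intro hs
            exact ⟨hs, iha (hs.trans (Sub.left _ _ (Sub.refl _))),
              ihb (hs.trans (Sub.right _ _ (Sub.refl _)))⟩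
        exact (h5 r (Sub.refl _)).and (allN_of_allL hdr)
      refine hr.allN hsub ?_
      rintro x' a b a' b' hcol' ⟨hs', hne'⟩ _ _
      by_contra hcon
      have k6 : x' < x := lt_of_le_of_ne (not_lt.1 hcon) hne'
      have k7 : bt y x' a b = bt y x l r := (hρi _ _ _ hcol').1.trans e1.symm
      have hbd2 : Bd (bt y x l r) x' a b := by
        have := bt_spec y x' a b
        rwa [k7] at this
      exact bt_succ hlt (bd_succ hbd1 k2 k5 hbd2 hs' k6)
  · left
    obtain ⟨x, l, r, k1, k2, _⟩ := not_allN h1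
    rw [not_not] at k1
    obtain ⟨l', r', p1, p2, p3, p4, p5, p6, p7, p8⟩ := k1
    exact ⟨node x l' r', k2.trans (Sub.node trivial p1 p2), ⟨p3, p4⟩, p7, p5, p6⟩

/-! ### Reflections -/

/-- change the signs of the labels -/
def neg : LT ℝ → LT ℝ
  | leaf i => leaf i
  | node x l r => node (-x) (neg l) (neg r)

/-- exchange left and right -/
def mir {α : Type} : LT α → LT α
  | leaf i => leaf i
  | node x l r => node x (mir r) (mir l)

theorem lv_neg (t : LT ℝ) : (neg t).lv = t.lv := by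
  induction t with
  | leaf i => rfl
  | node x l r hl hr => simp only [neg, lv, hl, hr]

theorem lv_mir {α : Type} (t : LT α) : (mir t).lv = t.lv.reverse := by
  induction t with
  | leaf i => rfl
  | node x l r hl hr => simp only [mir, lv, hl, hr, List.reverse_append]

theorem comp_neg {n : ℕ} {t : LT ℝ} (h : Comp n t) : Comp n (neg t) := by
  induction t generalizing n with
  | leaf i => cases n with
    | zero => trivial
    | succ n => exact absurd h (by simp [Comp])
  | node x l r hl hr => cases n with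
    | zero => exact absurd h (by simp [Comp])
    | succ n => exact ⟨hl h.1, hr h.2⟩

theorem comp_mir {α : Type} {n : ℕ} {t : LT α} (h : Comp n t) : Comp n (mir t) := by
  induction t generalizing n with
  | leaf i => cases n with
    | zero => trivial
    | succ n => exact absurd h (by simp [Comp])
  | node x l r hl hr => cases n with
    | zero => exact absurd h (by simp [Comp])
    | succ n => exact ⟨hr h.2, hl h.1⟩

theorem allN_neg {P Q : ℝ → LT ℝ → LT ℝ → Prop} {t : LT ℝ} (h : AllN P t)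
    (hPQ : ∀ x l r, P x l r → Q (-x) (neg l) (neg r)) : AllN Q (neg t) := by
  induction t with
  | leaf i => trivial
  | node x l r hl hr => exact ⟨hPQ _ _ _ h.1, hl h.2.1, hr h.2.2⟩

theorem allL_neg {P Q : ℝ → Prop} {t : LT ℝ} (h : AllL P t)
    (hPQ : ∀ x, P x → Q (-x)) : AllL Q (neg t) := by
  induction t with
  | leaf i => trivial
  | node x l r hl hr => exact ⟨hPQ _ h.1, hl h.2.1, hr h.2.2⟩

theorem allN_mir {α : Type} {P Q : α → LT α → LT α → Prop} {t : LT α} (h : AllN P t)
    (hPQ : ∀ x l r, P x l r → Q x (mir r) (mir l)) : AllN Q (mir t) := by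
  induction t with
  | leaf i => trivial
  | node x l r hl hr => exact ⟨hPQ _ _ _ h.1, hr h.2.2, hl h.2.1⟩

theorem allL_mir {α : Type} {P : α → Prop} {t : LT α} (h : AllL P t) : AllL P (mir t) := by
  induction t with
  | leaf i => trivial
  | node x l r hl hr => exact ⟨h.1, hr h.2.2, hl h.2.1⟩

theorem lg_neg {t : LT ℝ} (h : LB t) : LG (neg t) := by
  refine allN_neg h ?_
  intro x l r hl
  refine allL_neg hl ?_
  intro u hu
  linarith

theorem lg_mir {t : LT ℝ} (h : RG t) : LG (mir t) := by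
  refine allN_mir h ?_
  intro x l r hr
  exact allL_mir hr

theorem compat_neg {g : ℕ → ℕ → ℝ} {t : LT ℝ} (h : Compat g t) :
    Compat (fun i j => - g i j) (neg t) := by
  have key : ∀ {x : ℝ} {Z : List ℕ} {s : LT ℝ}, Rel g x Z s →
      Rel (fun i j => - g i j) (-x) Z (neg s) := by
    intro x Z s hs
    refine allN_neg hs ?_
    rintro u a b ⟨h1, h2, h3⟩
    rw [lv_neg, lv_neg]
    refine ⟨fun h4 => h2 (by linarith), fun h4 => ?_, fun h4 => h3 (by linarith)⟩
    have h5 := h1 (by linarith)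
    intro i hi j hj z hz
    have := h5 i hi j hj z hz
    constructor <;> simp only [neg_neg]
    · exact this.1
    · exact this.2
  refine allN_neg h ?_
  rintro x l r ⟨h1, h2⟩
  rw [lv_neg, lv_neg]
  exact ⟨key h1, key h2⟩

theorem gtR_symm {g : ℕ → ℕ → ℝ} (hg : ∀ i j, g i j = g j i) {A B Z Z' : List ℕ}
    (h : Tr.GtR g A B Z) (hZ : ∀ z ∈ Z', z ∈ Z) : Tr.GtR g B A Z' := by
  intro i hi j hj z hz
  have := h j hj i hi z (hZ z hz)
  rw [hg i j]
  exact ⟨this.2, this.1⟩

theorem compat_mir {g : ℕ → ℕ → ℝ} (hg : ∀ i j, g i j = g j i) {t : LT ℝ} (h : Compat g t) :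
    Compat g (mir t) := by
  have hg' : ∀ i j, (fun i j => - g i j) i j = (fun i j => - g i j) j i := by
    intro i j; simp only; rw [hg]
  have key : ∀ {x : ℝ} {Z Z' : List ℕ} {s : LT ℝ}, (∀ z ∈ Z', z ∈ Z) → Rel g x Z s →
      Rel g x Z' (mir s) := by
    intro x Z Z' s hZ hs
    refine allN_mir hs ?_
    rintro u a b ⟨h1, h2, h3⟩
    refine ⟨fun h4 => ?_, fun h4 => ?_, h3⟩
    · rw [lv_mir, lv_mir]
      intro i hi j hj z hz
      have := h1 h4 j (by simpa using hj) i (by simpa using hi) z (hZ z hz)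
      rw [hg i j]
      exact ⟨this.2, this.1⟩
    · rw [lv_mir, lv_mir]
      intro i hi j hj z hz
      have := h2 h4 j (by simpa using hj) i (by simpa using hi) z (hZ z hz)
      simp only at this ⊢
      rw [hg i j]
      exact ⟨this.2, this.1⟩
  refine allN_mir h ?_
  rintro x l r ⟨h1, h2⟩
  refine ⟨key ?_ h2, key ?_ h1⟩
  · intro z hz; rw [lv_mir] at hz; simpa using hz
  · intro z hz; rw [lv_mir] at hz; simpa using hz

theorem Rel.sub {g : ℕ → ℕ → ℝ} {x : ℝ} {Z Z' : List ℕ} {c : ℝ → LT ℝ → LT ℝ → Prop}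
    {t' t : LT ℝ} (h : Sub c t' t) (hR : Rel g x Z t) (hZ : ∀ z ∈ Z', z ∈ Z) : Rel g x Z' t' := by
  refine h.allN hR ?_
  rintro u a b a' b' _ ⟨h1, h2, h3⟩ ha hb
  exact ⟨fun h4 => (h1 h4).mono (fun i hi => ha.mem hi) (fun i hi => hb.mem hi) hZ,
    fun h4 => (h2 h4).mono (fun i hi => ha.mem hi) (fun i hi => hb.mem hi) hZ, h3⟩

theorem Compat.sub {g : ℕ → ℕ → ℝ} {c : ℝ → LT ℝ → LT ℝ → Prop} {t' t : LT ℝ}
    (h : Sub c t' t) (hC : Compat g t) : Compat g t' := by
  refine h.allN hC ?_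
  rintro x l r l' r' _ ⟨h1, h2⟩ hl hr
  exact ⟨h1.sub hl (fun z hz => hr.mem hz), h2.sub hr (fun z hz => hl.mem hz)⟩

theorem Compat.dst {g : ℕ → ℕ → ℝ} {t : LT ℝ} (hC : Compat g t) : Dst t := by
  refine hC.imp ?_
  rintro x l r ⟨h1, h2⟩
  exact ⟨allL_of_allN (h1.imp (fun _ _ _ h => h.2.2)), allL_of_allN (h2.imp (fun _ _ _ h => h.2.2))⟩

end Pool.Agent.H595K.Lb
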