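import Mathlib
import Pool.Agent.H595K.Good

/-!
# The greedy selection: no active smaller label
-/

namespace Pool.Agent.H595K.Lb

open LT

/-- below a node with a label larger than `s` all labels are larger than `s` -/
def Cl (s : ℝ) : LT ℝ → Prop :=
  LT.AllN (fun x a b => s < x → AllL (fun u => s < u) a ∧ AllL (fun u => s < u) b)

/-- `Cl x r` for every node with label `x` and right subtree `r` -/
def Lm : LT ℝ → Prop := LT.AllN (fun x _ r => Cl x r)

theorem Cl.sub {s : ℝ} {c : ℝ → LT ℝ → LT ℝ → Prop} {t' t : LT ℝ} (h : Sub c t' t)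
    (hC : Cl s t) : Cl s t' := by
  refine h.allN hC ?_
  rintro x l r l' r' _ h1 hl hr h2
  exact ⟨hl.allL (h1 h2).1, hr.allL (h1 h2).2⟩

theorem LG.sub {c : ℝ → LT ℝ → LT ℝ → Prop} {t' t : LT ℝ} (h : Sub c t' t) (hL : LG t) :
    LG t' := by
  refine h.allN hL ?_
  rintro x l r l' r' _ h1 hl _
  exact hl.allL h1

theorem Lm.sub {c : ℝ → LT ℝ → LT ℝ → Prop} {t' t : LT ℝ} (h : Sub c t' t) (hL : Lm t) :
    Lm t' := by
  refine h.allN hL ?_
  rintro x l r l' r' _ h1 _ hr
  exact h1.sub hr

theorem cl_of_allL {s : ℝ} {t : LT ℝ} (h : AllL (fun u => s < u) t) : Cl s t := by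
  induction t with
  | leaf i => trivial
  | node x a b iha ihb => exact ⟨fun _ => ⟨h.2.1, h.2.2⟩, iha h.2.1, ihb h.2.2⟩

theorem lam_exists (t : LT ℝ) : ∀ (n d : ℕ) (S : Finset ℝ), LG t → Comp n t →
    2 * d + S.card ≤ n → ∃ t', Sub (fun _ _ _ => True) t' t ∧ Comp d t' ∧ Lm t' ∧
      ∀ s ∈ S, Cl s t' := by
  classical
  induction t with
  | leaf i =>
    intro n d S _ hn hd
    cases n with
    | zero =>
      have : d = 0 := by omega
      subst this
      exact ⟨leaf i, Sub.leaf i, trivial, trivial, fun _ _ => trivial⟩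
    | succ n => exact absurd hn (by simp [Comp])
  | node x l r ihl ihr =>
    intro n d S hL hn hd
    cases n with
    | zero => exact absurd hn (by simp [Comp])
    | succ n =>
      by_cases hS : ∃ s ∈ S, s < x
      · -- go to the left
        obtain ⟨s0, hs0, hs0x⟩ := hS
        have hcard : (S.filter (fun s => ¬ s < x)).card + 1 ≤ S.card := by
          have h1 : (S.filter (fun s => ¬ s < x)) ⊆ S.erase s0 := by
            intro s hs
            obtain ⟨h2, h3⟩ := Finset.mem_filter.1 hs
            exact Finset.mem_erase.2 ⟨fun h => h3 (by rw [h]; exact hs0x), h2⟩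
          have h2 := Finset.card_le_card h1
          rw [Finset.card_erase_of_mem hs0] at h2
          have : 0 < S.card := Finset.card_pos.2 ⟨s0, hs0⟩
          omega
        obtain ⟨t', h1, h2, h3, h4⟩ := ihl n d (S.filter (fun s => ¬ s < x)) hL.2.1 hn.1
          (by omega)
        refine ⟨t', Sub.left _ _ h1, h2, h3, ?_⟩
        intro s hs
        by_cases hsx : s < x
        · apply cl_of_allL
          exact (h1.allL hL.1).imp (fun u hu => hsx.trans hu)
        · exact h4 s (Finset.mem_filter.2 ⟨hs, hsx⟩)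
      · push Not at hS
        cases d with
        | zero =>
          obtain ⟨i, hi⟩ := exists_leaf (node x l r)
          exact ⟨leaf i, hi, trivial, trivial, fun _ _ => trivial⟩
        | succ d =>
          obtain ⟨l', a1, a2, a3, a4⟩ := ihl n d S hL.2.1 hn.1 (by omega)
          have hcard : (insert x S).card ≤ S.card + 1 := Finset.card_insert_le _ _
          obtain ⟨r', b1, b2, b3, b4⟩ := ihr n d (insert x S) hL.2.2 hn.2 (by omega)
          refine ⟨node x l' r', Sub.node trivial a1 b1, ⟨a2, b2⟩,
            ⟨b4 x (Finset.mem_insert_self _ _), a3, b3⟩, ?_⟩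
          intro s hs
          refine ⟨fun h => absurd h (not_lt.2 (hS s hs)), a4 s hs,
            b4 s (Finset.mem_insert_of_mem hs)⟩

end Pool.Agent.H595K.Lb
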