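import Mathlib
import Pool.Agent.H124R2.Vis.Local

/-!
# x-monotone polygons over a horizontal base edge
-/

namespace Pool.Agent.H595K

open Set Vis124

/-- slope of the `i`-th edge -/
noncomputable def sl (X Y : ℕ → ℝ) (i : ℕ) : ℝ := (Y (i + 1) - Y i) / (X (i + 1) - X i)

/-- the piecewise linear function through the points `(X i, Y i)`, `i ≤ K` -/
noncomputable def hh (X Y : ℕ → ℝ) (K : ℕ) (x : ℝ) : ℝ :=
  Y 0 + ∑ i ∈ Finset.range K, sl X Y i * (min (max x (X i)) (X (i + 1)) - X i)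

/-- the region below the graph -/
def reg (X Y : ℕ → ℝ) (K : ℕ) : Set (ℝ × ℝ) :=
  {p | (X 0 ≤ p.1 ∧ p.1 ≤ X K) ∧ (Y 0 ≤ p.2 ∧ p.2 ≤ hh X Y K p.1)}

/-- the vertices -/
def pv (X Y : ℕ → ℝ) (K : ℕ) : Fin (K + 1) → ℝ × ℝ := fun i => (X i, Y i)

/-- the data of an x-monotone polygon over a horizontal base edge -/
structure MonoPoly (X Y : ℕ → ℝ) (K : ℕ) : Prop where
  two_le : 2 ≤ K
  mono : ∀ i, i < K → X i < X (i + 1)
  base : Y K = Y 0
  above : ∀ i, 0 < i → i < K → Y 0 < Y i

theorem continuous_hh (X Y : ℕ → ℝ) (K : ℕ) : Continuous (hh X Y K) := by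
  unfold hh
  fun_prop

theorem segment_graph {a b c d : ℝ} (h : a < c) :
    segment ℝ (a, b) (c, d) =
      {p : ℝ × ℝ | (a ≤ p.1 ∧ p.1 ≤ c) ∧ p.2 = b + (d - b) / (c - a) * (p.1 - a)} := by
  have hca : 0 < c - a := by linarith
  ext p
  simp only [segment_eq_image, mem_image, mem_Icc]
  constructor
  · rintro ⟨s, ⟨h0, h1⟩, rfl⟩
    simp only [Prod.smul_mk, Prod.mk_add_mk, smul_eq_mul]
    refine ⟨⟨by nlinarith, by nlinarith⟩, ?_⟩
    show (1 - s) * b + s * d = b + (d - b) / (c - a) * ((1 - s) * a + s * c - a)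
    field_simp
    ring
  · rintro ⟨⟨h0, h1⟩, h2⟩
    refine ⟨(p.1 - a) / (c - a), ⟨div_nonneg (by linarith) hca.le, ?_⟩, ?_⟩
    · rw [div_le_one hca]; linarith
    · simp only [Prod.smul_mk, Prod.mk_add_mk, smul_eq_mul]
      ext
      · show (1 - (p.1 - a) / (c - a)) * a + (p.1 - a) / (c - a) * c = p.1
        field_simp
        ring
      · show (1 - (p.1 - a) / (c - a)) * b + (p.1 - a) / (c - a) * d = p.2
        rw [h2]
        field_simp
        ring

section
variable {X Y : ℕ → ℝ} {K : ℕ}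

theorem MonoPoly.lt (h : MonoPoly X Y K) {i j : ℕ} (hij : i < j) (hj : j ≤ K) : X i < X j := by
  induction j, hij using Nat.le_induction with
  | base => exact h.mono i (by omega)
  | succ j _ ih => exact (ih (by omega)).trans (h.mono j (by omega))

theorem MonoPoly.le (h : MonoPoly X Y K) {i j : ℕ} (hij : i ≤ j) (hj : j ≤ K) : X i ≤ X j := by
  rcases Nat.lt_or_eq_of_le hij with h1 | h1
  · exact (h.lt h1 hj).le
  · rw [h1]

theorem MonoPoly.lt_of_lt (h : MonoPoly X Y K) {i j : ℕ} (hi : i ≤ K) (hX : X i < X j) : i < j := by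
  by_contra hc
  have := h.le (not_lt.1 hc) hi
  linarith

theorem MonoPoly.hh_eq (h : MonoPoly X Y K) {m : ℕ} (hm : m < K) {x : ℝ} (h1 : X m ≤ x)
    (h2 : x ≤ X (m + 1)) : hh X Y K x = Y m + sl X Y m * (x - X m) := by
  obtain ⟨d, rfl⟩ : ∃ d, K = m + 1 + d := ⟨K - (m + 1), by omega⟩
  unfold hh
  rw [Finset.sum_range_add, Finset.sum_range_succ]
  have e1 : ∑ i ∈ Finset.range m, sl X Y i * (min (max x (X i)) (X (i + 1)) - X i) = Y m - Y 0 := by
    rw [← Finset.sum_range_sub]
    apply Finset.sum_congr rfl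
    intro i hi
    have hi' := Finset.mem_range.1 hi
    have h3 : X (i + 1) ≤ X m := h.le (by omega) (by omega)
    have h4 : X i < X (i + 1) := h.mono i (by omega)
    rw [max_eq_left (by linarith), min_eq_right (by linarith)]
    unfold sl
    have : X (i + 1) - X i ≠ 0 := by linarith
    field_simp
  have e2 : ∑ i ∈ Finset.range d, sl X Y (m + 1 + i) *
      (min (max x (X (m + 1 + i))) (X (m + 1 + i + 1)) - X (m + 1 + i)) = 0 := by
    apply Finset.sum_eq_zero
    intro i hi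
    have hi' := Finset.mem_range.1 hi
    have h3 : X (m + 1) ≤ X (m + 1 + i) := h.le (by omega) (by omega)
    have h4 : X (m + 1 + i) < X (m + 1 + i + 1) := h.mono _ (by omega)
    rw [max_eq_right (by linarith), min_eq_left (by linarith)]
    ring
  rw [e1, e2, max_eq_left h1, min_eq_left h2]
  ring

theorem MonoPoly.exists_edge (h : MonoPoly X Y K) {x : ℝ} (h1 : X 0 ≤ x) (h2 : x ≤ X K) :
    ∃ m < K, X m ≤ x ∧ x ≤ X (m + 1) ∧ (m + 1 = K ∨ x < X (m + 1)) := by
  classical
  have hK := h.two_le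
  set m := Nat.findGreatest (fun m => X m ≤ x) (K - 1) with hm
  have hm1 : m ≤ K - 1 := Nat.findGreatest_le _
  have hm2 : X m ≤ x := Nat.findGreatest_spec (P := fun m => X m ≤ x) (Nat.zero_le _) h1
  rcases Nat.lt_or_ge (m + 1) K with h3 | h3
  · have h4 : ¬ X (m + 1) ≤ x :=
      Nat.findGreatest_is_greatest (P := fun m => X m ≤ x) (n := K - 1) (by omega) (by omega)
    push Not at h4
    exact ⟨m, by omega, hm2, h4.le, Or.inr h4⟩
  · have h4 : m + 1 = K := by omega
    exact ⟨m, by omega, hm2, by rw [h4]; exact h2, Or.inl h4⟩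

theorem MonoPoly.hh_vertex (h : MonoPoly X Y K) {i : ℕ} (hi : i ≤ K) : hh X Y K (X i) = Y i := by
  have hK := h.two_le
  rcases Nat.lt_or_eq_of_le hi with h1 | h1
  · rw [h.hh_eq h1 le_rfl (h.mono i h1).le]; ring
  · have h2 : i - 1 < K := by omega
    have h3 : i - 1 + 1 = i := by omega
    have h4 := h.mono (i - 1) h2
    rw [h3] at h4
    rw [h.hh_eq h2 h4.le (by rw [h3]), sl, h3]
    have : X i - X (i - 1) ≠ 0 := by linarith
    field_simp
    ring

theorem MonoPoly.hh_pos (h : MonoPoly X Y K) {x : ℝ} (h1 : X 0 < x) (h2 : x < X K) :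
    Y 0 < hh X Y K x := by
  have hK := h.two_le
  obtain ⟨m, hm, h3, h4, _⟩ := h.exists_edge h1.le h2.le
  rw [h.hh_eq hm h3 h4, sl]
  have hd : 0 < X (m + 1) - X m := by linarith [h.mono m hm]
  set l := (x - X m) / (X (m + 1) - X m) with hl
  have hl0 : 0 ≤ l := div_nonneg (by linarith) hd.le
  have hl1 : l ≤ 1 := by rw [hl, div_le_one hd]; linarith
  have e : Y m + (Y (m + 1) - Y m) / (X (m + 1) - X m) * (x - X m) =
      (1 - l) * Y m + l * Y (m + 1) := by
    rw [hl]; field_simp; ring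
  rw [e]
  rcases Nat.eq_zero_or_pos m with hm0 | hm0
  · subst hm0
    have h5 : 0 < l := div_pos (by linarith) hd
    have h6 := h.above 1 (by omega) (by omega)
    nlinarith
  · have h5 := h.above m hm0 hm
    rcases lt_or_eq_of_le hl1 with h6 | h6
    · have h7 : Y 0 ≤ Y (m + 1) := by
        rcases Nat.lt_or_ge (m + 1) K with h8 | h8
        · exact (h.above _ (by omega) h8).le
        · have : m + 1 = K := by omega
          rw [this, h.base]
      nlinarith
    · have h7 : x = X (m + 1) := by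
        rw [hl, div_eq_one_iff_eq hd.ne'] at h6; linarith
      have h8 : m + 1 < K := h.lt_of_lt (by omega) (by rw [← h7]; exact h2)
      have h9 := h.above _ (by omega) h8
      rw [h6]; linarith

theorem MonoPoly.hh_ge (h : MonoPoly X Y K) {x : ℝ} (h1 : X 0 ≤ x) (h2 : x ≤ X K) :
    Y 0 ≤ hh X Y K x := by
  rcases lt_or_eq_of_le h1 with h3 | h3
  · rcases lt_or_eq_of_le h2 with h4 | h4
    · exact (h.hh_pos h3 h4).le
    · rw [h4, h.hh_vertex le_rfl, h.base]
  · rw [← h3, h.hh_vertex (Nat.zero_le _)]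

theorem MonoPoly.edge_lt (h : MonoPoly X Y K) {i : Fin (K + 1)} (hi : (i : ℕ) < K) :
    edge (pv X Y K) i = {p | (X i ≤ p.1 ∧ p.1 ≤ X (i + 1)) ∧ p.2 = hh X Y K p.1} := by
  have e : pv X Y K (finRotate _ i) = (X (i + 1), Y (i + 1)) := by
    have := sc_val (k := i)
    rw [if_pos (by omega)] at this
    simp only [pv]
    rw [show ((finRotate (K + 1) i : Fin (K + 1)) : ℕ) = (i : ℕ) + 1 from this]
  unfold edge
  rw [e, show pv X Y K i = (X i, Y i) from rfl, segment_graph (h.mono i hi)]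
  ext p
  simp only [mem_ofPred_eq]
  constructor
  · rintro ⟨⟨h1, h2⟩, h3⟩
    refine ⟨⟨h1, h2⟩, ?_⟩
    rw [h3, h.hh_eq hi h1 h2, sl]
  · rintro ⟨⟨h1, h2⟩, h3⟩
    refine ⟨⟨h1, h2⟩, ?_⟩
    rw [h3, h.hh_eq hi h1 h2, sl]

theorem MonoPoly.edge_last (h : MonoPoly X Y K) {i : Fin (K + 1)} (hi : (i : ℕ) = K) :
    edge (pv X Y K) i = {p | (X 0 ≤ p.1 ∧ p.1 ≤ X K) ∧ p.2 = Y 0} := by
  have hK := h.two_le
  have e : pv X Y K (finRotate _ i) = (X 0, Y 0) := by
    have := sc_val (k := i)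
    rw [if_neg (by omega)] at this
    simp only [pv]
    rw [show ((finRotate (K + 1) i : Fin (K + 1)) : ℕ) = 0 from this]
  unfold edge
  rw [e, show pv X Y K i = (X i, Y i) from rfl, hi, segment_symm,
    segment_graph (h.lt (by omega : 0 < K) le_rfl), h.base]
  ext p
  simp only [mem_ofPred_eq]
  constructor
  · rintro ⟨h1, h3⟩
    refine ⟨h1, ?_⟩
    rw [h3]; ring
  · rintro ⟨h1, h3⟩
    refine ⟨h1, ?_⟩
    rw [h3]; ring

theorem MonoPoly.curve_eq (h : MonoPoly X Y K) :
    curve (pv X Y K) = {p | (X 0 ≤ p.1 ∧ p.1 ≤ X K) ∧ (p.2 = Y 0 ∨ p.2 = hh X Y K p.1)} := by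
  have hK := h.two_le
  ext p
  simp only [curve, mem_iUnion, mem_ofPred_eq]
  constructor
  · rintro ⟨i, hi⟩
    rcases Nat.lt_or_ge i K with h1 | h1
    · rw [h.edge_lt h1] at hi
      obtain ⟨⟨h2, h3⟩, h4⟩ := hi
      exact ⟨⟨(h.le (Nat.zero_le _) (by omega)).trans h2, h3.trans (h.le (by omega) le_rfl)⟩, Or.inr h4⟩
    · rw [h.edge_last (by omega)] at hi
      exact ⟨hi.1, Or.inl hi.2⟩
  · rintro ⟨h1, h2 | h2⟩
    · exact ⟨⟨K, by omega⟩, by rw [h.edge_last rfl]; exact ⟨h1, h2⟩⟩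
    · obtain ⟨m, hm, h3, h4, _⟩ := h.exists_edge h1.1 h1.2
      exact ⟨⟨m, by omega⟩, by rw [h.edge_lt hm]; exact ⟨⟨h3, h4⟩, h2⟩⟩

/-- the homotopy parametrising the region -/
noncomputable def Ph (X Y : ℕ → ℝ) (K : ℕ) (q : ℝ × ℝ) : ℝ × ℝ :=
  (q.1, Y 0 + q.2 * (hh X Y K q.1 - Y 0))

theorem continuous_Ph : Continuous (Ph X Y K) := by
  have := continuous_hh X Y K
  unfold Ph
  fun_prop

theorem MonoPoly.reg_eq (h : MonoPoly X Y K) :
    reg X Y K = Ph X Y K '' (Icc (X 0) (X K) ×ˢ Icc 0 1) := by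
  ext p
  constructor
  · rintro ⟨⟨h1, h2⟩, h3, h4⟩
    rcases lt_or_eq_of_le (h.hh_ge h1 h2) with h5 | h5
    · have h6 : 0 < hh X Y K p.1 - Y 0 := by linarith
      refine ⟨(p.1, (p.2 - Y 0) / (hh X Y K p.1 - Y 0)), ⟨⟨h1, h2⟩, div_nonneg (by linarith) h6.le,
        ?_⟩, ?_⟩
      · show (p.2 - Y 0) / (hh X Y K p.1 - Y 0) ≤ 1
        rw [div_le_one h6]; linarith
      · ext
        · rfl
        · show Y 0 + (p.2 - Y 0) / (hh X Y K p.1 - Y 0) * (hh X Y K p.1 - Y 0) = p.2
          field_simp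
          ring
    · refine ⟨(p.1, 0), ⟨⟨h1, h2⟩, le_rfl, zero_le_one⟩, ?_⟩
      ext
      · rfl
      · show Y 0 + 0 * (hh X Y K p.1 - Y 0) = p.2
        linarith
  · rintro ⟨q, ⟨⟨h1, h2⟩, h3, h4⟩, rfl⟩
    have h5 := h.hh_ge h1 h2
    refine ⟨⟨h1, h2⟩, ?_, ?_⟩
    · show Y 0 ≤ Y 0 + q.2 * (hh X Y K q.1 - Y 0)
      have : 0 ≤ q.2 * (hh X Y K q.1 - Y 0) := mul_nonneg h3 (by linarith)
      linarith
    · show Y 0 + q.2 * (hh X Y K q.1 - Y 0) ≤ hh X Y K q.1
      have h4' : q.2 ≤ 1 := h4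
      nlinarith

theorem isOpen_inner (X Y : ℕ → ℝ) (K : ℕ) :
    IsOpen {p : ℝ × ℝ | (X 0 < p.1 ∧ p.1 < X K) ∧ (Y 0 < p.2 ∧ p.2 < hh X Y K p.1)} := by
  have hc := continuous_hh X Y K
  apply IsOpen.and
  · exact (isOpen_lt continuous_const continuous_fst).and (isOpen_lt continuous_fst continuous_const)
  · exact (isOpen_lt continuous_const continuous_snd).and
      (isOpen_lt continuous_snd (hc.comp continuous_fst))

theorem not_mem_interior_of {S : Set (ℝ × ℝ)} {p d : ℝ × ℝ} (h : ∀ ε : ℝ, 0 < ε → p + ε • d ∉ S) :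
    p ∉ interior S := by
  intro hp
  have h1 : S ∈ nhds p := mem_interior_iff_mem_nhds.1 hp
  have h2 : Filter.Tendsto (fun ε : ℝ => p + ε • d) (nhdsWithin 0 (Ioi 0)) (nhds p) := by
    have : Filter.Tendsto (fun ε : ℝ => p + ε • d) (nhds 0) (nhds (p + (0 : ℝ) • d)) :=
      Continuous.tendsto (by fun_prop) 0
    rw [zero_smul, add_zero] at this
    exact this.mono_left nhdsWithin_le_nhds
  have h3 := (h2.eventually h1).and self_mem_nhdsWithin
  obtain ⟨ε, h4, h5⟩ := h3.exists
  exact h ε h5 h4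

theorem interior_reg (X Y : ℕ → ℝ) (K : ℕ) :
    interior (reg X Y K) =
      {p : ℝ × ℝ | (X 0 < p.1 ∧ p.1 < X K) ∧ (Y 0 < p.2 ∧ p.2 < hh X Y K p.1)} := by
  apply Subset.antisymm
  · intro p hp
    obtain ⟨⟨h1, h2⟩, h3, h4⟩ := interior_subset hp
    refine ⟨⟨lt_of_le_of_ne h1 ?_, lt_of_le_of_ne h2 ?_⟩, lt_of_le_of_ne h3 ?_, lt_of_le_of_ne h4 ?_⟩
    · intro he
      refine not_mem_interior_of (d := (-1, 0)) ?_ hp
      rintro ε hε ⟨⟨h5, _⟩, _⟩
      have : X 0 ≤ p.1 + ε * (-1) := h5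
      linarith
    · intro he
      refine not_mem_interior_of (d := (1, 0)) ?_ hp
      rintro ε hε ⟨⟨_, h5⟩, _⟩
      have : p.1 + ε * 1 ≤ X K := h5
      linarith
    · intro he
      refine not_mem_interior_of (d := (0, -1)) ?_ hp
      rintro ε hε ⟨_, h5, _⟩
      have : Y 0 ≤ p.2 + ε * (-1) := h5
      linarith
    · intro he
      refine not_mem_interior_of (d := (0, 1)) ?_ hp
      rintro ε hε ⟨_, _, h5⟩
      have : p.2 + ε * 1 ≤ hh X Y K (p.1 + ε * 0) := h5
      rw [mul_zero, add_zero] at this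
      linarith
  · apply interior_maximal _ (isOpen_inner X Y K)
    rintro p ⟨⟨h1, h2⟩, h3, h4⟩
    exact ⟨⟨h1.le, h2.le⟩, h3.le, h4.le⟩

theorem MonoPoly.isCompact_reg (h : MonoPoly X Y K) : IsCompact (reg X Y K) := by
  rw [h.reg_eq]
  exact (isCompact_Icc.prod isCompact_Icc).image continuous_Ph

theorem MonoPoly.regular (h : MonoPoly X Y K) : closure (interior (reg X Y K)) = reg X Y K := by
  have hK := h.two_le
  apply Subset.antisymm
  · exact (closure_mono interior_subset).trans h.isCompact_reg.isClosed.closure_subset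
  · have hX : X 0 ≠ X K := (h.lt (by omega : 0 < K) le_rfl).ne
    have h1 : Icc (X 0) (X K) ×ˢ Icc (0 : ℝ) 1 = closure (Ioo (X 0) (X K) ×ˢ Ioo (0 : ℝ) 1) := by
      rw [closure_prod_eq, closure_Ioo hX, closure_Ioo zero_ne_one]
    rw [h.reg_eq, h1]
    apply (image_closure_subset_closure_image continuous_Ph).trans
    apply closure_mono
    rw [← h1, ← h.reg_eq, interior_reg]
    rintro _ ⟨q, ⟨⟨h2, h3⟩, h4, h5⟩, rfl⟩
    have h6 := h.hh_pos h2 h3
    refine ⟨⟨h2, h3⟩, ?_, ?_⟩
    · show Y 0 < Y 0 + q.2 * (hh X Y K q.1 - Y 0)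
      have : 0 < q.2 * (hh X Y K q.1 - Y 0) := mul_pos h4 (by linarith)
      linarith
    · show Y 0 + q.2 * (hh X Y K q.1 - Y 0) < hh X Y K q.1
      have h5' : q.2 < 1 := h5
      nlinarith

theorem MonoPoly.frontier_reg (h : MonoPoly X Y K) : frontier (reg X Y K) = curve (pv X Y K) := by
  rw [h.isCompact_reg.isClosed.frontier_eq, interior_reg, h.curve_eq]
  ext p
  constructor
  · rintro ⟨⟨⟨h1, h2⟩, h3, h4⟩, h5⟩
    refine ⟨⟨h1, h2⟩, ?_⟩
    by_contra h6
    push Not at h6
    apply h5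
    refine ⟨⟨lt_of_le_of_ne h1 ?_, lt_of_le_of_ne h2 ?_⟩, lt_of_le_of_ne h3 (Ne.symm h6.1),
      lt_of_le_of_ne h4 h6.2⟩
    · intro he
      apply h6.1
      rw [← he, h.hh_vertex (Nat.zero_le _)] at h4
      linarith
    · intro he
      apply h6.1
      rw [he, h.hh_vertex le_rfl, h.base] at h4
      linarith
  · rintro ⟨⟨h1, h2⟩, h3⟩
    have h4 := h.hh_ge h1 h2
    refine ⟨⟨⟨h1, h2⟩, ?_, ?_⟩, ?_⟩
    · rcases h3 with h3 | h3 <;> linarith
    · rcases h3 with h3 | h3 <;> linarith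
    · rintro ⟨_, h5, h6⟩
      rcases h3 with h3 | h3 <;> linarith

theorem MonoPoly.isSimplePolygon (h : MonoPoly X Y K) :
    IsSimplePolygon (pv X Y K) (reg X Y K) := by
  have hK := h.two_le
  refine ⟨by omega, ?_, ?_, h.isCompact_reg, h.regular, h.frontier_reg⟩
  · intro i j hij
    have h1 : X i = X j := congrArg Prod.fst hij
    apply Fin.ext
    rcases lt_trichotomy (i : ℕ) j with h2 | h2 | h2
    · exact absurd h1 (h.lt h2 (by omega)).ne
    · exact h2
    · exact absurd h1 (h.lt h2 (by omega)).ne'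
  · have key : ∀ i j : Fin (K + 1), i < j → edge (pv X Y K) i ∩ edge (pv X Y K) j ⊆
        {pv X Y K i, pv X Y K (finRotate _ i)} ∩ {pv X Y K j, pv X Y K (finRotate _ j)} := by
      intro i j hij p hp
      have hij' : (i : ℕ) < j := hij
      have hjK : (j : ℕ) ≤ K := by omega
      have hiK : (i : ℕ) < K := by omega
      obtain ⟨hp1, hp2⟩ := hp
      rw [h.edge_lt hiK] at hp1
      obtain ⟨⟨h1, h2⟩, h3⟩ := hp1
      have ei : pv X Y K (finRotate _ i) = (X (i + 1), Y (i + 1)) := by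
        have := sc_val (k := i)
        rw [if_pos (by omega)] at this
        simp only [pv]
        rw [show ((finRotate (K + 1) i : Fin (K + 1)) : ℕ) = (i : ℕ) + 1 from this]
      rcases Nat.lt_or_ge j K with hj | hj
      · rw [h.edge_lt hj] at hp2
        obtain ⟨⟨h4, h5⟩, h6⟩ := hp2
        have h7 : X (i + 1) ≤ X j := h.le (by omega) hjK
        have h8 : p.1 = X j := by linarith
        have h9 : (i : ℕ) + 1 = j := by
          by_contra hc
          have := h.lt (show (i : ℕ) + 1 < j by omega) hjK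
          linarith
        have h10 : p = pv X Y K j := by
          ext
          · exact h8
          · show p.2 = Y j
            rw [h3, h8, h.hh_vertex hjK]
        refine ⟨Or.inr ?_, Or.inl h10⟩
        rw [mem_singleton_iff, ei, h9]
        exact h10
      · have hjK' : (j : ℕ) = K := by omega
        have ej : pv X Y K (finRotate _ j) = (X 0, Y 0) := by
          have := sc_val (k := j)
          rw [if_neg (by omega)] at this
          simp only [pv]
          rw [show ((finRotate (K + 1) j : Fin (K + 1)) : ℕ) = 0 from this]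
        rw [h.edge_last hjK'] at hp2
        obtain ⟨⟨h4, h5⟩, h6⟩ := hp2
        rcases lt_or_eq_of_le h4 with h7 | h7
        · rcases lt_or_eq_of_le h5 with h8 | h8
          · have := h.hh_pos h7 h8
            linarith
          · have h9 : (i : ℕ) + 1 = K := by
              by_contra hc
              have := h.lt (show (i : ℕ) + 1 < K by omega) le_rfl
              linarith
            have h10 : p = (X K, Y K) := by
              ext
              · exact h8
              · show p.2 = Y K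
                rw [h6, h.base]
            refine ⟨Or.inr ?_, Or.inl ?_⟩
            · rw [mem_singleton_iff, ei, h9]; exact h10
            · rw [h10]; show (X K, Y K) = (X j, Y j); rw [hjK']
        · have h9 : (i : ℕ) = 0 := by
            by_contra hc
            have := h.lt (show 0 < (i : ℕ) by omega) (by omega)
            linarith
          have h10 : p = (X 0, Y 0) := by
            ext
            · exact h7.symm
            · exact h6
          refine ⟨Or.inl ?_, Or.inr ?_⟩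
          · rw [h10, ← h9]; rfl
          · rw [mem_singleton_iff, ej]; exact h10
    intro i j hij
    rcases lt_trichotomy i j with h' | h' | h'
    · exact key i j h'
    · exact absurd h' hij
    · rw [inter_comm]
      exact (key j i h').trans (by rw [inter_comm])

end

end Pool.Agent.H595K
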