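import Mathlib
import Pool.Agent.H595K.Defs
import Pool.Agent.H595K.Mono

/-!
# Components of a line in an x-monotone polygon
-/

namespace Pool.Agent.H595K

open Set Vis124

section
variable {X Y : ℕ → ℝ} {K : ℕ}

theorem vert (c0 : ℝ) : Convex ℝ ({p : ℝ × ℝ | p.1 = c0} ∩ reg X Y K) := by
  rintro p ⟨hp, ⟨h1, h2⟩, h3, h4⟩ q ⟨hq, ⟨h5, h6⟩, h7, h8⟩ s t hs ht hst
  have hp' : p.1 = c0 := hp
  have hq' : q.1 = c0 := hq
  have e : (s • p + t • q).1 = c0 := by
    show s * p.1 + t * q.1 = c0
    rw [hp', hq', ← add_mul, hst, one_mul]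
  have e2 : (s • p + t • q).2 = s * p.2 + t * q.2 := rfl
  refine ⟨e, ⟨?_, ?_⟩, ?_, ?_⟩
  · rw [e, ← hp']; exact h1
  · rw [e, ← hp']; exact h2
  · rw [e2]
    have g1 := mul_le_mul_of_nonneg_left h3 hs
    have g2 := mul_le_mul_of_nonneg_left h7 ht
    have g3 : s * Y 0 + t * Y 0 = Y 0 := by rw [← add_mul, hst, one_mul]
    linarith
  · rw [e2, e]
    rw [hp'] at h4
    rw [hq'] at h8
    have g1 := mul_le_mul_of_nonneg_left h4 hs
    have g2 := mul_le_mul_of_nonneg_left h8 ht
    have g3 : s * hh X Y K c0 + t * hh X Y K c0 = hh X Y K c0 := by rw [← add_mul, hst, one_mul]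
    linarith

theorem exists_neg {θ β a a' : ℝ} (haa : a < a')
    {L : Set (ℝ × ℝ)} (hL : ∀ x : ℝ, (x, θ * x + β) ∈ L)
    (ha : (a, θ * a + β) ∈ L ∩ reg X Y K) (ha' : (a', θ * a' + β) ∈ L ∩ reg X Y K)
    (hne : (ConnectedComponents.mk ⟨_, ha⟩ : ConnectedComponents ↥(L ∩ reg X Y K)) ≠
      ConnectedComponents.mk ⟨_, ha'⟩) :
    ∃ o, a < o ∧ o < a' ∧ hh X Y K o - θ * o - β < 0 := by
  by_contra hc
  push Not at hc
  apply hne
  obtain ⟨_, ⟨h1, h2⟩, h3, h4⟩ := id ha
  obtain ⟨_, ⟨h5, h6⟩, h7, h8⟩ := id ha'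
  simp only at h1 h2 h3 h4 h5 h6 h7 h8
  have hmem : ∀ x ∈ Icc a a', (x, θ * x + β) ∈ L ∩ reg X Y K := by
    rintro x ⟨hx1, hx2⟩
    refine ⟨hL x, ⟨⟨?_, ?_⟩, ?_, ?_⟩⟩
    · show X 0 ≤ x
      linarith
    · show x ≤ X K
      linarith
    · show Y 0 ≤ θ * x + β
      rcases le_total 0 θ with h9 | h9
      · nlinarith
      · nlinarith
    · show θ * x + β ≤ hh X Y K x
      rcases lt_or_eq_of_le hx1 with h9 | h9
      · rcases lt_or_eq_of_le hx2 with h10 | h10
        · have := hc x h9 h10; linarith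
        · rw [h10]; exact h8
      · rw [← h9]; exact h4
  let G : Icc a a' → ↥(L ∩ reg X Y K) := fun x => ⟨((x : ℝ), θ * x + β), hmem x x.2⟩
  have hG : Continuous G := by
    apply Continuous.subtype_mk
    fun_prop
  have hpre : PreconnectedSpace (Icc a a') := Subtype.preconnectedSpace isPreconnected_Icc
  have h9 := (isPreconnected_range hG).subset_connectedComponent
    (mem_range_self ⟨a', right_mem_Icc.2 haa.le⟩)
  have h10 := h9 (mem_range_self ⟨a, left_mem_Icc.2 haa.le⟩)
  exact ConnectedComponents.coe_eq_coe'.2 h10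

/-- one step: alternating real points give strictly increasing vertices -/
theorem MonoPoly.vertices (h : MonoPoly X Y K) (θ β : ℝ) (N : ℕ) (c : ℕ → ℝ)
    (hc : ∀ m, m < N → c m < c (m + 1)) (hc0 : ∀ m, m ≤ N → X 0 ≤ c m ∧ c m ≤ X K)
    (hs : ∀ m, m ≤ N → (0 ≤ hh X Y K (c m) - θ * c m - β ↔ m % 2 = 0)) :
    ∃ g : ℕ → ℕ, (∀ i, i < N → g i < g (i + 1)) ∧ (∀ i, i ≤ N → g i ≤ K) ∧
      ∀ i, i ≤ N → (0 ≤ Y (g i) - θ * X (g i) - β ↔ i % 2 = 0) := by
  classical
  have hex : ∀ m, ∃ E, m ≤ N → E < K ∧ X E ≤ c m ∧ c m ≤ X (E + 1) ∧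
      (E + 1 = K ∨ c m < X (E + 1)) := by
    intro m
    by_cases hm : m ≤ N
    · obtain ⟨E, h1, h2, h3, h4⟩ := h.exists_edge (hc0 m hm).1 (hc0 m hm).2
      exact ⟨E, fun _ => ⟨h1, h2, h3, h4⟩⟩
    · exact ⟨0, fun h' => absurd h' hm⟩
  choose E hE using hex
  set ψ : ℕ → ℝ := fun i => Y i - θ * X i - β with hψ
  set φ : ℝ → ℝ := fun x => hh X Y K x - θ * x - β with hφ
  have haff : ∀ i, i < K → ∃ s : ℝ, ψ (i + 1) = ψ i + s * (X (i + 1) - X i) ∧
      ∀ x, X i ≤ x → x ≤ X (i + 1) → φ x = ψ i + s * (x - X i) := by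
    intro i hi
    have key : ∀ x, X i ≤ x → x ≤ X (i + 1) → φ x = ψ i + (sl X Y i - θ) * (x - X i) := by
      intro x h1 h2
      simp only [hφ, hψ]
      rw [h.hh_eq hi h1 h2]
      ring
    refine ⟨sl X Y i - θ, ?_, key⟩
    have h1 := key (X (i + 1)) (h.mono i hi).le le_rfl
    rw [← h1]
    simp only [hφ, hψ]
    rw [h.hh_vertex (by omega)]
  let g : ℕ → ℕ := fun m => if (0 ≤ ψ (E m) ↔ 0 ≤ φ (c m)) then E m else E m + 1
  have hg1 : ∀ m, (0 ≤ ψ (E m) ↔ 0 ≤ φ (c m)) → g m = E m := fun m hm => if_pos hm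
  have hg2 : ∀ m, ¬ (0 ≤ ψ (E m) ↔ 0 ≤ φ (c m)) → g m = E m + 1 := fun m hm => if_neg hm
  have hgs : ∀ m, m ≤ N → (0 ≤ ψ (g m) ↔ 0 ≤ φ (c m)) := by
    intro m hm
    by_cases h1 : (0 ≤ ψ (E m) ↔ 0 ≤ φ (c m))
    · rw [hg1 m h1]; exact h1
    · rw [hg2 m h1]
      obtain ⟨h2, h3, h4, _⟩ := hE m hm
      obtain ⟨s, h5, h6⟩ := haff _ h2
      have h7 := h6 _ h3 h4
      have h8 := h.mono _ h2
      have h9 : ψ (E m + 1) = φ (c m) + s * (X (E m + 1) - c m) := by rw [h5, h7]; ring
      have h10 : 0 ≤ c m - X (E m) := by linarith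
      have h11 : 0 ≤ X (E m + 1) - c m := by linarith
      by_cases h12 : 0 ≤ ψ (E m)
      · have h13 : φ (c m) < 0 := by
          by_contra h14; push Not at h14; exact h1 ⟨fun _ => h14, fun _ => h12⟩
        have h14 : s < 0 := by
          by_contra h15; push Not at h15
          have := mul_nonneg h15 h10
          linarith
        have h15 : s * (X (E m + 1) - c m) ≤ 0 := mul_nonpos_of_nonpos_of_nonneg h14.le h11
        constructor
        · intro h16; linarith
        · intro h16; linarith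
      · have h13 : 0 ≤ φ (c m) := by
          by_contra h14; exact h1 ⟨fun h15 => absurd h15 h12, fun h15 => absurd h15 h14⟩
        push Not at h12
        have h14 : 0 < s := by
          by_contra h15; push Not at h15
          have := mul_nonpos_of_nonpos_of_nonneg h15 h10
          linarith
        have h15 : 0 ≤ s * (X (E m + 1) - c m) := mul_nonneg h14.le h11
        constructor
        · intro h16; linarith
        · intro h16; linarith
  have hgs' : ∀ m, m ≤ N → (0 ≤ ψ (g m) ↔ m % 2 = 0) := fun m hm => (hgs m hm).trans (hs m hm)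
  have hgle : ∀ m, E m ≤ g m ∧ g m ≤ E m + 1 := by
    intro m
    by_cases h1 : (0 ≤ ψ (E m) ↔ 0 ≤ φ (c m))
    · rw [hg1 m h1]; omega
    · rw [hg2 m h1]; omega
  refine ⟨g, ?_, ?_, hgs'⟩
  · intro m hm
    obtain ⟨h1, h2, h3, h4⟩ := hE m hm.le
    obtain ⟨h5, h6, h7, h8⟩ := hE (m + 1) hm
    have h9 := hc m hm
    have h10 : E m ≤ E (m + 1) := by
      rcases h8 with h8 | h8
      · omega
      · have : X (E m) < X (E (m + 1) + 1) := by linarith
        have := h.lt_of_lt h1.le this
        omega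
    rcases Nat.lt_or_eq_of_le h10 with h11 | h11
    · have h12 := hgle m
      have h13 := hgle (m + 1)
      have h14 : g m ≠ g (m + 1) := by
        intro h15
        have h16 := hgs' m hm.le
        have h17 := hgs' (m + 1) hm
        rw [h15] at h16
        have h18 := h16.symm.trans h17
        omega
      omega
    · obtain ⟨s, _, h13⟩ := haff _ h1
      have h14 := h13 _ h2 h3
      have h15 := h13 (c (m + 1)) (by rw [h11]; exact h6) (by rw [h11]; exact h7)
      have h16 := hs m hm.le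
      have h17 := hs (m + 1) hm
      have h18 : φ (c (m + 1)) = φ (c m) + s * (c (m + 1) - c m) := by rw [h14, h15]; ring
      have h19 : 0 < c (m + 1) - c m := by linarith
      have h20 : 0 ≤ c m - X (E m) := by linarith
      rcases Nat.mod_two_eq_zero_or_one m with h21 | h21
      · have h22 : 0 ≤ φ (c m) := h16.2 h21
        have h23 : ¬ 0 ≤ φ (c (m + 1)) := fun h24 => by have := h17.1 h24; omega
        have h24 : s < 0 := by
          by_contra h25; push Not at h25
          have := mul_nonneg h25 h19.le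
          apply h23; linarith
        have h25 := mul_nonpos_of_nonpos_of_nonneg h24.le h20
        have h26 : 0 ≤ ψ (E m) := by linarith
        rw [hg1 m ⟨fun _ => h22, fun _ => h26⟩, hg2 (m + 1) (by
          rw [← h11]; intro h27; exact h23 (h27.1 h26))]
        omega
      · have h22 : ¬ 0 ≤ φ (c m) := fun h24 => by have := h16.1 h24; omega
        have h23 : 0 ≤ φ (c (m + 1)) := h17.2 (by omega)
        have h24 : 0 < s := by
          by_contra h25; push Not at h25
          have := mul_nonpos_of_nonpos_of_nonneg h25 h19.le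
          apply h22; linarith
        have h25 := mul_nonneg h24.le h20
        have h26 : ¬ 0 ≤ ψ (E m) := by
          intro h27; apply h22; linarith
        rw [hg1 m ⟨fun h27 => absurd h27 h26, fun h27 => absurd h27 h22⟩, hg2 (m + 1) (by
          rw [← h11]; intro h27; exact h26 (h27.2 h23))]
        omega
  · intro m hm
    have := (hgle m).2
    have := (hE m hm).1
    omega

theorem MonoPoly.comps_le (h : MonoPoly X Y K) {k : ℕ} (hk : 1 ≤ k)
    (hno : ∀ θ β : ℝ, ¬ ∃ g : ℕ → ℕ, (∀ i, i < 2 * k → g i < g (i + 1)) ∧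
      (∀ i, i ≤ 2 * k → g i ≤ K) ∧
      ∀ i, i ≤ 2 * k → (0 ≤ Y (g i) - θ * X (g i) - β ↔ i % 2 = 0)) :
    IsKConvexRegion k (reg X Y K) := by
  classical
  rintro L ⟨a, b, c, hab, rfl⟩
  rcases eq_or_ne b 0 with hb | hb
  · have ha : a ≠ 0 := by
      rcases hab with h1 | h1
      · exact h1
      · exact absurd hb h1
    have e : {p : ℝ × ℝ | a * p.1 + b * p.2 = c} = {p : ℝ × ℝ | p.1 = c / a} := by
      ext p
      simp only [mem_ofPred_eq, hb, zero_mul, add_zero]
      rw [eq_div_iff ha, mul_comm]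
    rw [e]
    have h1 : PreconnectedSpace ↥({p : ℝ × ℝ | p.1 = c / a} ∩ reg X Y K) :=
      Subtype.preconnectedSpace (vert (c / a)).isPreconnected
    have h2 : Subsingleton (ConnectedComponents ↥({p : ℝ × ℝ | p.1 = c / a} ∩ reg X Y K)) := by
      infer_instance
    have h3 : ENat.card (ConnectedComponents ↥({p : ℝ × ℝ | p.1 = c / a} ∩ reg X Y K)) ≤ 1 :=
      ENat.card_le_one_iff_subsingleton _ |>.2 h2
    exact h3.trans (by exact_mod_cast hk)
  · set θ := -a / b with hθ
    set β := c / b with hβ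
    set L : Set (ℝ × ℝ) := {p : ℝ × ℝ | a * p.1 + b * p.2 = c} with hLdef
    have hLiff : ∀ p : ℝ × ℝ, p ∈ L ↔ p.2 = θ * p.1 + β := by
      intro p
      simp only [hLdef, mem_ofPred_eq, hθ, hβ]
      constructor
      · intro h1; field_simp; linarith
      · intro h1; rw [h1]; field_simp; ring
    by_contra hlt
    push Not at hlt
    have h1 : ((k + 1 : ℕ) : ℕ∞) ≤
        (univ : Set (ConnectedComponents ↥(L ∩ reg X Y K))).encard := by
      rw [encard_univ]
      push_cast
      exact Order.add_one_le_of_lt hlt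
    obtain ⟨T, _, hT⟩ := exists_subset_encard_eq h1
    have hTfin : T.Finite := finite_of_encard_eq_coe hT
    set T' := hTfin.toFinset with hT'
    have hT'card : T'.card = k + 1 := by
      rw [hTfin.encard_eq_coe_toFinset_card] at hT
      exact_mod_cast hT
    choose rep hrep using fun cc : ConnectedComponents ↥(L ∩ reg X Y K) =>
      ConnectedComponents.surjective_coe cc
    let x : ConnectedComponents ↥(L ∩ reg X Y K) → ℝ := fun cc => (rep cc).1.1
    have hpt : ∀ cc, (rep cc).1 = (x cc, θ * x cc + β) := by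
      intro cc
      ext
      · rfl
      · exact (hLiff _).1 (rep cc).2.1
    have hxinj : Function.Injective x := by
      intro c1 c2 h12
      have : rep c1 = rep c2 := by
        apply Subtype.ext
        rw [hpt, hpt, h12]
      rw [← hrep c1, ← hrep c2, this]
    set R := T'.image x with hR
    have hRcard : R.card = k + 1 := by
      rw [hR, Finset.card_image_of_injective _ hxinj, hT'card]
    let e := R.orderEmbOfFin hRcard
    have hecc : ∀ i : Fin (k + 1), ∃ cc, x cc = e i := by
      intro i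
      have := R.orderEmbOfFin_mem hRcard i
      obtain ⟨cc, _, h2⟩ := Finset.mem_image.1 this
      exact ⟨cc, h2⟩
    choose cc hcc using hecc
    have hmemL : ∀ x : ℝ, (x, θ * x + β) ∈ L := fun x => (hLiff _).2 rfl
    have hstep : ∀ i : ℕ, ∃ o : ℝ, ∀ hi : i < k, e ⟨i, by omega⟩ < o ∧ o < e ⟨i + 1, by omega⟩ ∧
        hh X Y K o - θ * o - β < 0 := by
      intro i
      by_cases hi : i < k
      · have h2 : e ⟨i, by omega⟩ < e ⟨i + 1, by omega⟩ :=
          e.strictMono (Fin.mk_lt_mk.2 (Nat.lt_succ_self i))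
        have h3 : (e ⟨i, by omega⟩, θ * e ⟨i, by omega⟩ + β) ∈ L ∩ reg X Y K := by
          have := (rep (cc ⟨i, by omega⟩)).2
          rw [hpt, hcc] at this
          exact this
        have h4 : (e ⟨i + 1, by omega⟩, θ * e ⟨i + 1, by omega⟩ + β) ∈ L ∩ reg X Y K := by
          have := (rep (cc ⟨i + 1, by omega⟩)).2
          rw [hpt, hcc] at this
          exact this
        obtain ⟨o, h5, h6, h7⟩ := exists_neg h2 hmemL h3 h4 (by
          intro heq
          have e1 : (⟨_, h3⟩ : ↥(L ∩ reg X Y K)) = rep (cc ⟨i, by omega⟩) := by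
            apply Subtype.ext
            rw [hpt, hcc]
          have e2 : (⟨_, h4⟩ : ↥(L ∩ reg X Y K)) = rep (cc ⟨i + 1, by omega⟩) := by
            apply Subtype.ext
            rw [hpt, hcc]
          rw [e1, e2] at heq
          have e3 : cc ⟨i, by omega⟩ = cc ⟨i + 1, by omega⟩ := by
            rw [← hrep (cc ⟨i, by omega⟩), ← hrep (cc ⟨i + 1, by omega⟩)]
            exact heq
          have e4 := hcc ⟨i, by omega⟩
          rw [e3, hcc] at e4
          linarith)
        exact ⟨o, fun _ => ⟨h5, h6, h7⟩⟩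
      · exact ⟨0, fun h' => absurd h' hi⟩
    choose o ho using hstep
    let e' : ℕ → ℝ := fun i => if hi : i < k + 1 then e ⟨i, hi⟩ else 0
    have he' : ∀ i (hi : i < k + 1), e' i = e ⟨i, hi⟩ := fun i hi => by simp only [e', dif_pos hi]
    let cs : ℕ → ℝ := fun m => if m % 2 = 0 then e' (m / 2) else o (m / 2)
    have hcs0 : ∀ m, m % 2 = 0 → cs m = e' (m / 2) := fun m hm => if_pos hm
    have hcs1 : ∀ m, m % 2 = 1 → cs m = o (m / 2) := fun m hm => if_neg (by omega)
    have hin : ∀ i (hi : i < k + 1), (e ⟨i, hi⟩, θ * e ⟨i, hi⟩ + β) ∈ reg X Y K := by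
      intro i hi
      have := (rep (cc ⟨i, hi⟩)).2.2
      rw [hpt, hcc] at this
      exact this
    obtain ⟨g, hg1, hg2, hg3⟩ := h.vertices θ β (2 * k) cs (by
      intro m hm
      rcases Nat.mod_two_eq_zero_or_one m with h2 | h2
      · rw [hcs0 m h2, hcs1 (m + 1) (by omega), he' _ (by omega),
          show (m + 1) / 2 = m / 2 by omega]
        exact (ho (m / 2) (by omega)).1
      · rw [hcs1 m h2, hcs0 (m + 1) (by omega), he' _ (by omega)]
        have := (ho (m / 2) (by omega)).2.1
        convert this using 3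
        omega) (by
      intro m hm
      rcases Nat.mod_two_eq_zero_or_one m with h2 | h2
      · rw [hcs0 m h2, he' _ (by omega)]
        exact (hin _ _).1
      · rw [hcs1 m h2]
        have h3 := ho (m / 2) (by omega)
        have h4 := (hin (m / 2) (by omega)).1.1
        have h5 := (hin (m / 2 + 1) (by omega)).1.2
        simp only at h4 h5
        exact ⟨by linarith, by linarith⟩) (by
      intro m hm
      rcases Nat.mod_two_eq_zero_or_one m with h2 | h2
      · rw [hcs0 m h2, he' _ (by omega)]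
        have h3 := (hin (m / 2) (by omega)).2.2
        simp only at h3
        constructor
        · intro _; exact h2
        · intro _; linarith
      · rw [hcs1 m h2]
        have h3 := (ho (m / 2) (by omega)).2.2
        constructor
        · intro h4; linarith
        · intro h4; omega)
    exact hno θ β ⟨g, hg1, hg2, hg3⟩

end

end Pool.Agent.H595K
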