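import Mathlib

/-!
# Slopes: base `M` digits evaluated at `-M`, and a density statement for them
-/

namespace Pool.Agent.H595K

/-- the base `M` expansion of `e`, evaluated at `-M` -/
def lab (M e : ℕ) : ℤ := Nat.ofDigits (-(M : ℤ)) (Nat.digits M e)

theorem lab_rec {M : ℕ} (hM : 2 ≤ M) (e : ℕ) :
    lab M e = ((e % M : ℕ) : ℤ) - M * lab M (e / M) := by
  unfold lab
  rcases Nat.eq_zero_or_pos e with h | h
  · subst h; simp [Nat.ofDigits]
  · rw [Nat.digits_def' (by omega) h]
    simp only [Nat.ofDigits]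
    push_cast
    ring

/-- same block: the labels are ordered as the numbers -/
theorem lab_same {M : ℕ} (hM : 2 ≤ M) {e f : ℕ} (h : e / M = f / M) :
    lab M f - lab M e = (f : ℤ) - e := by
  rw [lab_rec hM e, lab_rec hM f, h]
  have h1 := Nat.div_add_mod e M
  have h2 := Nat.div_add_mod f M
  have h3 : (e : ℤ) = M * (e / M : ℕ) + (e % M : ℕ) := by exact_mod_cast h1.symm
  have h4 : (f : ℤ) = M * (f / M : ℕ) + (f % M : ℕ) := by exact_mod_cast h2.symm
  rw [h] at h3
  linarith

theorem lab_inj {M : ℕ} (hM : 2 ≤ M) : ∀ e f : ℕ, lab M e = lab M f → e = f := by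
  intro e
  induction e using Nat.strong_induction_on with
  | _ e ih =>
  intro f hf
  by_cases hd : e / M = f / M
  · have := lab_same hM hd
    rw [hf, sub_self] at this
    have h5 : (f : ℤ) = e := by linarith
    exact_mod_cast h5.symm
  · exfalso
    have he : e ≠ 0 := by
      intro h0
      subst h0
      -- then lab M f = 0 with f / M ≠ 0
      have key : ∀ f : ℕ, lab M f = 0 → f = 0 := by
        intro f
        induction f using Nat.strong_induction_on with
        | _ f ihf =>
        intro h0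
        by_contra hne
        rw [lab_rec hM f] at h0
        have hdv : (M : ℤ) ∣ ((f % M : ℕ) : ℤ) := ⟨lab M (f / M), by linarith⟩
        have h1 : M ∣ f % M := by exact_mod_cast hdv
        have h2 : f % M = 0 := by
          rcases Nat.eq_zero_or_pos (f % M) with h | h
          · exact h
          · exact absurd (Nat.le_of_dvd h h1) (not_le.2 (Nat.mod_lt _ (by omega)))
        rw [h2] at h0
        have h3 : lab M (f / M) = 0 := by
          have hM0 : (M : ℤ) ≠ 0 := by positivity
          have : (M : ℤ) * lab M (f / M) = 0 := by push_cast at h0; linarith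
          exact (mul_eq_zero.1 this).resolve_left hM0
        have h4 := ihf (f / M) (Nat.div_lt_self (Nat.pos_of_ne_zero hne) (by omega)) h3
        have h5 := Nat.div_add_mod f M
        rw [h4, h2] at h5
        simp at h5
        exact hne h5.symm
      have h6 : lab M 0 = 0 := by simp [lab, Nat.ofDigits]
      rw [h6] at hf
      have := key f hf.symm
      subst this
      exact hd rfl
    have h1 := hf
    rw [lab_rec hM e, lab_rec hM f] at h1
    -- compare mod M
    have hdv : (M : ℤ) ∣ ((e % M : ℕ) : ℤ) - ((f % M : ℕ) : ℤ) :=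
      ⟨lab M (e / M) - lab M (f / M), by linarith⟩
    have hlt1 : ((e % M : ℕ) : ℤ) < M := by exact_mod_cast Nat.mod_lt _ (by omega)
    have hlt2 : ((f % M : ℕ) : ℤ) < M := by exact_mod_cast Nat.mod_lt _ (by omega)
    have hz : ((e % M : ℕ) : ℤ) - ((f % M : ℕ) : ℤ) = 0 := by
      apply Int.eq_zero_of_abs_lt_dvd hdv
      rw [abs_lt]
      constructor <;> [skip; skip] <;> [have := Int.natCast_nonneg (e % M); have := Int.natCast_nonneg (f % M)] <;> linarith
    have hM0 : (M : ℤ) ≠ 0 := by positivity
    have h2 : lab M (e / M) = lab M (f / M) := by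
      have : (M : ℤ) * lab M (e / M) = M * lab M (f / M) := by linarith
      exact mul_left_cancel₀ hM0 this
    exact hd (ih (e / M) (Nat.div_lt_self (Nat.pos_of_ne_zero he) (by omega)) _ h2)

/-- different blocks: the order of the labels is opposite to that of the labels of the blocks -/
theorem lab_diff {M : ℕ} (hM : 2 ≤ M) {e f : ℕ} (h : e / M ≠ f / M) :
    lab M e < lab M f ↔ lab M (f / M) < lab M (e / M) := by
  have h1 := lab_rec hM e
  have h2 := lab_rec hM f
  have hlt1 : ((e % M : ℕ) : ℤ) < M := by exact_mod_cast Nat.mod_lt _ (by omega)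
  have hlt2 : ((f % M : ℕ) : ℤ) < M := by exact_mod_cast Nat.mod_lt _ (by omega)
  have hp1 := Int.natCast_nonneg (e % M)
  have hp2 := Int.natCast_nonneg (f % M)
  have hne : lab M (e / M) ≠ lab M (f / M) := fun h' => h (lab_inj hM _ _ h')
  have hMp : (0 : ℤ) < M := by positivity
  constructor
  · intro hl
    by_contra hc
    have hc' : lab M (e / M) + 1 ≤ lab M (f / M) := by
      rcases lt_or_gt_of_ne hne with h' | h'
      · exact h'
      · exact absurd h' hc
    nlinarith
  · intro hl
    have hl' : lab M (f / M) + 1 ≤ lab M (e / M) := hl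
    nlinarith

theorem lab_abs_le {M : ℕ} (hM : 2 ≤ M) : ∀ e : ℕ, |lab M e| ≤ e := by
  intro e
  induction e using Nat.strong_induction_on with
  | _ e ih =>
  rcases Nat.eq_zero_or_pos e with h | h
  · subst h; simp [lab, Nat.ofDigits]
  · have h1 := ih (e / M) (Nat.div_lt_self h (by omega))
    rw [lab_rec hM e]
    have h2 := Nat.div_add_mod e M
    have h3 : (e : ℤ) = M * (e / M : ℕ) + (e % M : ℕ) := by exact_mod_cast h2.symm
    have hMp : (0 : ℤ) < M := by positivity
    rw [abs_le] at h1 ⊢
    have hp1 := Int.natCast_nonneg (e % M)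
    constructor
    · nlinarith [h1.2]
    · nlinarith [h1.1]

/-- `Ch x I u c π a b`: there are `2 c` levels of `I` above `a` and `2 c` levels of `I` below `b`,
whose labels compare to the label of `u` in the alternating pattern starting with `π`. -/
def Ch (x : ℕ → ℤ) (I : Finset ℕ) (u : ℕ) : ℕ → Bool → ℕ → ℕ → Prop
  | 0, _, _, _ => True
  | c + 1, π, a, b => ∃ g1 ∈ I, ∃ g2 ∈ I, ∃ d1 ∈ I, ∃ d2 ∈ I,
      a < g1 ∧ g1 < g2 ∧ d1 < b ∧ d2 < d1 ∧
      decide (x u < x g1) = π ∧ decide (x u < x g2) = π ∧
      decide (x u < x d1) = !π ∧ decide (x u < x d2) = !π ∧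
      Ch x I u c (!π) g2 d2

def Rich (x : ℕ → ℤ) (c : ℕ) (π : Bool) (I : Finset ℕ) : Prop := ∃ u ∈ I, Ch x I u c π u u

theorem ch_lift {M : ℕ} (hM : 2 ≤ M) {G I : Finset ℕ} (hG : ∀ g ∈ G, ∃ e ∈ I, e / M = g)
    {u u' : ℕ} (hu : u / M = u') : ∀ (c : ℕ) (π : Bool) (a b : ℕ), u' ≤ a → b ≤ u' →
    Ch (lab M) G u' c π a b →
    ∀ a' b', a' / M = a → b' / M = b → Ch (lab M) I u c (!π) a' b' := by
  intro c
  induction c with
  | zero => intro π a b _ _ _ a' b' _ _; trivial
  | succ c ih =>
    intro π a b hua hbu h a' b' ha' hb'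
    obtain ⟨g1, hg1, g2, hg2, d1, hd1, d2, hd2, h1, h2, h3, h4, s1, s2, s3, s4, hr⟩ := h
    obtain ⟨e1, he1, f1⟩ := hG g1 hg1
    obtain ⟨e2, he2, f2⟩ := hG g2 hg2
    obtain ⟨e3, he3, f3⟩ := hG d1 hd1
    obtain ⟨e4, he4, f4⟩ := hG d2 hd2
    have lt_of_div : ∀ p q : ℕ, p / M < q / M → p < q := by
      intro p q hpq
      by_contra hc
      exact absurd (Nat.div_le_div_right (c := M) (not_lt.1 hc)) (not_le.2 hpq)
    have flip : ∀ e g : ℕ, e / M = g → g ≠ u' → ∀ ρ : Bool, decide (lab M u' < lab M g) = ρ →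
        decide (lab M u < lab M e) = !ρ := by
      intro e g he hg ρ hρ
      have hne : u / M ≠ e / M := by rw [hu, he]; exact fun h' => hg h'.symm
      have h5 := lab_diff hM hne
      rw [hu, he] at h5
      have hne2 : lab M u' ≠ lab M g := fun h' => hg (lab_inj hM _ _ h').symm
      rcases lt_or_gt_of_ne hne2 with h6 | h6
      · rw [decide_eq_true h6] at hρ
        subst hρ
        rw [decide_eq_false]
        · rfl
        · rw [h5]; exact not_lt.2 h6.le
      · rw [decide_eq_false (not_lt.2 h6.le)] at hρ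
        subst hρ
        rw [decide_eq_true]
        · rfl
        · rw [h5]; exact h6
    refine ⟨e1, he1, e2, he2, e3, he3, e4, he4, ?_, ?_, ?_, ?_, ?_, ?_, ?_, ?_, ?_⟩
    · apply lt_of_div; rw [ha', f1]; exact h1
    · apply lt_of_div; rw [f1, f2]; exact h2
    · apply lt_of_div; rw [hb', f3]; exact h3
    · apply lt_of_div; rw [f3, f4]; exact h4
    · exact flip e1 g1 f1 (by omega) π s1
    · exact flip e2 g2 f2 (by omega) π s2
    · exact flip e3 d1 f3 (by omega) _ s3
    · exact flip e4 d2 f4 (by omega) _ s4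
    · exact ih (!π) g2 d2 (by omega) (by omega) hr e2 e4 f2 f4

theorem rich_lift {M : ℕ} (hM : 2 ≤ M) {G I : Finset ℕ} (hG : ∀ g ∈ G, ∃ e ∈ I, e / M = g)
    {c : ℕ} {π : Bool} (h : Rich (lab M) c π G) : Rich (lab M) c (!π) I := by
  obtain ⟨u', hu', hc⟩ := h
  obtain ⟨u, hu, hd⟩ := hG u' hu'
  exact ⟨u, hu, ch_lift hM hG hd c π u' u' le_rfl le_rfl hc u u hd hd⟩

/-- five elements in increasing order -/
theorem five {T : Finset ℕ} (h : 5 ≤ T.card) : ∃ a ∈ T, ∃ b ∈ T, ∃ c ∈ T, ∃ d ∈ T, ∃ e ∈ T,
    a < b ∧ b < c ∧ c < d ∧ d < e := by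
  have key : ∀ i : Fin 5, (i : ℕ) < T.card := fun i => lt_of_lt_of_le i.2 h
  let g : Fin 5 → ℕ := fun i => T.orderEmbOfFin rfl ⟨i, key i⟩
  have hg : ∀ i j : Fin 5, i < j → g i < g j := by
    intro i j hij
    exact (T.orderEmbOfFin rfl).strictMono (Fin.mk_lt_mk.2 hij)
  have hm : ∀ i, g i ∈ T := fun i => T.orderEmbOfFin_mem rfl _
  exact ⟨g 0, hm 0, g 1, hm 1, g 2, hm 2, g 3, hm 3, g 4, hm 4, hg _ _ (by decide),
    hg _ _ (by decide), hg _ _ (by decide), hg _ _ (by decide)⟩

theorem rich_five {M : ℕ} (hM : 2 ≤ M) {G I : Finset ℕ}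
    (hG : ∀ g ∈ G, 5 ≤ (I.filter (fun e => e / M = g)).card)
    {c : ℕ} (h : Rich (lab M) c true G) : Rich (lab M) (c + 1) true I := by
  obtain ⟨u', hu', hc⟩ := h
  obtain ⟨a, ha, b, hb, u, hu, d, hd, e, he, h1, h2, h3, h4⟩ := five (hG u' hu')
  rw [Finset.mem_filter] at ha hb hu hd he
  have hG' : ∀ g ∈ G, ∃ e ∈ I, e / M = g := by
    intro g hg
    have := hG g hg
    obtain ⟨x, hx⟩ := Finset.card_pos.1 (lt_of_lt_of_le (by norm_num) this)
    rw [Finset.mem_filter] at hx
    exact ⟨x, hx.1, hx.2⟩
  refine ⟨u, hu.1, d, hd.1, e, he.1, b, hb.1, a, ha.1, h3, h4, h2, h1, ?_, ?_, ?_, ?_, ?_⟩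
  · have := lab_same hM (hu.2.trans hd.2.symm)
    exact decide_eq_true (by have : (u : ℤ) < d := by exact_mod_cast h3
                             linarith)
  · have := lab_same hM (hu.2.trans he.2.symm)
    exact decide_eq_true (by have : (u : ℤ) < e := by exact_mod_cast h3.trans h4
                             linarith)
  · have := lab_same hM (hu.2.trans hb.2.symm)
    exact decide_eq_false (by have : (b : ℤ) < u := by exact_mod_cast h2
                              push Not; linarith)
  · have := lab_same hM (hu.2.trans ha.2.symm)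
    exact decide_eq_false (by have : (a : ℤ) < u := by exact_mod_cast h1.trans h2
                              push Not; linarith)
  · exact ch_lift hM hG' hu.2 c true u' u' le_rfl le_rfl hc e a he.2 ha.2

theorem card_groups {M : ℕ} (I : Finset ℕ) (p : ℕ → ℕ)
    (hp : ∀ g ∈ I.image (· / M), (I.filter (fun e => e / M = g)).card ≤ p g) :
    I.card ≤ ∑ g ∈ I.image (· / M), p g := by
  rw [Finset.card_eq_sum_card_image (· / M) I]
  exact Finset.sum_le_sum hp

theorem group_card_le {M : ℕ} (hM : 2 ≤ M) (I : Finset ℕ) (g : ℕ) :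
    (I.filter (fun e => e / M = g)).card ≤ M := by
  have : I.filter (fun e => e / M = g) ⊆ Finset.Ico (g * M) (g * M + M) := by
    intro e he
    rw [Finset.mem_filter] at he
    rw [Finset.mem_Ico]
    have h1 := Nat.div_add_mod e M
    have h2 := Nat.mod_lt e (show M > 0 by omega)
    rw [he.2] at h1
    rw [mul_comm g M]
    omega
  calc _ ≤ _ := Finset.card_le_card this
    _ = M := by simp

theorem dens {M : ℕ} (hM : 2 ≤ M) : ∀ h : ℕ,
    (∀ (γ : ℕ) (I : Finset ℕ), (∀ e ∈ I, e < M ^ h) → ¬ Rich (lab M) (γ + 1) true I →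
      I.card ≤ 5 ^ h * M ^ ((h + γ) / 2)) ∧
    (∀ (γ : ℕ) (I : Finset ℕ), (∀ e ∈ I, e < M ^ h) → ¬ Rich (lab M) (γ + 1) false I →
      I.card ≤ 5 ^ h * M ^ ((h + γ + 1) / 2)) := by
  intro h
  induction h with
  | zero =>
    have key : ∀ I : Finset ℕ, (∀ e ∈ I, e < M ^ 0) → I.card ≤ 1 := by
      intro I hI
      have : I ⊆ {0} := by
        intro e he
        have := hI e he
        simp at this
        simp [this]
      simpa using Finset.card_le_card this
    constructor
    · intro γ I hI _
      have h1 := key I hI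
      have h2 : 1 ≤ M ^ ((0 + γ) / 2) := Nat.one_le_pow _ _ (by omega)
      simpa using h1.trans h2
    · intro γ I hI _
      have h1 := key I hI
      have h2 : 1 ≤ M ^ ((0 + γ + 1) / 2) := Nat.one_le_pow _ _ (by omega)
      simpa using h1.trans h2
  | succ h ih =>
    obtain ⟨ihP, ihN⟩ := ih
    have hJlt : ∀ I : Finset ℕ, (∀ e ∈ I, e < M ^ (h + 1)) →
        ∀ g ∈ I.image (· / M), g < M ^ h := by
      intro I hI g hg
      rw [Finset.mem_image] at hg
      obtain ⟨e, he, rfl⟩ := hg
      exact Nat.div_lt_of_lt_mul (by have := hI e he; rw [pow_succ] at this; rwa [mul_comm] at this)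
    have hJrep : ∀ I : Finset ℕ, ∀ g ∈ I.image (· / M), ∃ e ∈ I, e / M = g := by
      intro I g hg
      rw [Finset.mem_image] at hg
      exact hg
    constructor
    · intro γ I hI hnr
      set J := I.image (· / M) with hJ
      set K := J.filter (fun g => 5 ≤ (I.filter (fun e => e / M = g)).card) with hK
      have hJc : J.card ≤ 5 ^ h * M ^ ((h + γ + 1) / 2) := by
        apply ihN γ J (hJlt I hI)
        intro hr
        exact hnr (rich_lift hM (hJrep I) hr)
      have hKc : K.card * M ≤ 5 ^ h * M ^ ((h + 1 + γ) / 2) := by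
        rcases Nat.eq_zero_or_pos γ with h0 | h0
        · subst h0
          have : K = ∅ := by
            by_contra hne
            obtain ⟨g, hg⟩ := Finset.nonempty_iff_ne_empty.2 hne
            apply hnr
            apply rich_five hM (G := K)
            · intro g hg
              exact (Finset.mem_filter.1 hg).2
            · exact ⟨g, hg, trivial⟩
          rw [this]; simp
        · obtain ⟨γ', rfl⟩ : ∃ γ', γ = γ' + 1 := ⟨γ - 1, by omega⟩
          have h1 : K.card ≤ 5 ^ h * M ^ ((h + γ') / 2) := by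
            apply ihP γ' K
            · intro g hg
              exact hJlt I hI g (Finset.mem_filter.1 hg).1
            · intro hr
              apply hnr
              apply rich_five hM (G := K) _ hr
              intro g hg
              exact (Finset.mem_filter.1 hg).2
          calc K.card * M ≤ 5 ^ h * M ^ ((h + γ') / 2) * M := Nat.mul_le_mul_right _ h1
            _ = 5 ^ h * M ^ ((h + γ') / 2 + 1) := by ring
            _ = 5 ^ h * M ^ ((h + 1 + (γ' + 1)) / 2) := by
                congr 2; omega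
      have h2 : I.card ≤ ∑ g ∈ J, (4 + if g ∈ K then M else 0) := by
        apply card_groups
        intro g hg
        by_cases hgK : g ∈ K
        · simp only [hgK, if_true]
          have := group_card_le hM I g
          omega
        · simp only [hgK, if_false]
          have : ¬ 5 ≤ (I.filter (fun e => e / M = g)).card := by
            intro h5
            exact hgK (Finset.mem_filter.2 ⟨hg, h5⟩)
          omega
      have h3 : ∑ g ∈ J, (4 + if g ∈ K then M else 0) = 4 * J.card + K.card * M := by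
        rw [Finset.sum_add_distrib, ← Finset.sum_filter]
        have : J.filter (fun g => g ∈ K) = K := by
          ext g; simp only [Finset.mem_filter, hK]; tauto
        rw [this]
        simp [mul_comm]
      have h4 : M ^ ((h + γ + 1) / 2) = M ^ ((h + 1 + γ) / 2) := by congr 2; omega
      rw [h4] at hJc
      calc I.card ≤ 4 * J.card + K.card * M := by rw [← h3]; exact h2
        _ ≤ 4 * (5 ^ h * M ^ ((h + 1 + γ) / 2)) + 5 ^ h * M ^ ((h + 1 + γ) / 2) := by
            apply Nat.add_le_add _ hKc
            exact Nat.mul_le_mul_left _ hJc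
        _ = 5 ^ (h + 1) * M ^ ((h + 1 + γ) / 2) := by ring
    · intro γ I hI hnr
      set J := I.image (· / M) with hJ
      have hJc : J.card ≤ 5 ^ h * M ^ ((h + γ) / 2) := by
        apply ihP γ J (hJlt I hI)
        intro hr
        exact hnr (rich_lift hM (hJrep I) hr)
      have h2 : I.card ≤ ∑ g ∈ J, M := by
        apply card_groups
        intro g hg
        exact group_card_le hM I g
      rw [Finset.sum_const, smul_eq_mul] at h2
      calc I.card ≤ J.card * M := h2
        _ ≤ 5 ^ h * M ^ ((h + γ) / 2) * M := Nat.mul_le_mul_right _ hJc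
        _ = 5 ^ h * M ^ ((h + γ) / 2 + 1) := by ring
        _ = 5 ^ h * M ^ ((h + 1 + γ + 1) / 2) := by congr 2; omega
        _ ≤ 5 ^ (h + 1) * M ^ ((h + 1 + γ + 1) / 2) := by
            apply Nat.mul_le_mul_right
            exact Nat.pow_le_pow_right (by norm_num) (by omega)

end Pool.Agent.H595K
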