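import Mathlib
import Pool.Agent.H595K.Lab

/-!
# Sign changes of linear functionals on binary words
-/

namespace Pool.Agent.H595K

open Finset

/-- number of changes in a list of truth values -/
def ch : List Bool → ℕ
  | [] => 0
  | [_] => 0
  | a :: b :: l => (if a = b then 0 else 1) + ch (b :: l)

@[simp] theorem ch_nil : ch [] = 0 := rfl
@[simp] theorem ch_single (a : Bool) : ch [a] = 0 := rfl
theorem ch_cons_cons (a b : Bool) (l : List Bool) :
    ch (a :: b :: l) = (if a = b then 0 else 1) + ch (b :: l) := rfl

theorem ch_split (l1 : List Bool) (a : Bool) (l2 : List Bool) :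
    ch (l1 ++ a :: l2) = ch (l1 ++ [a]) + ch (a :: l2) := by
  induction l1 with
  | nil => simp
  | cons b l1 ih =>
    cases l1 with
    | nil => simp [ch_cons_cons]
    | cons c l1 =>
      simp only [List.cons_append] at ih ⊢
      rw [ch_cons_cons, ch_cons_cons, ih]
      ring

theorem ch_le_cons (a : Bool) (l : List Bool) : ch l ≤ ch (a :: l) := by
  cases l with
  | nil => simp
  | cons b l => rw [ch_cons_cons]; omega

theorem ch_skip (a b : Bool) (l : List Bool) : ch (a :: l) ≤ ch (a :: b :: l) := by
  cases l with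
  | nil => simp
  | cons c l =>
    rw [ch_cons_cons, ch_cons_cons, ch_cons_cons]
    cases a <;> cases b <;> cases c <;> simp <;> omega

theorem ch_cons_change (a b : Bool) (l : List Bool) :
    ch (a :: l) ≤ (if a = b then 0 else 1) + ch (b :: l) := by
  cases l with
  | nil => simp
  | cons c l =>
    rw [ch_cons_cons, ch_cons_cons]
    cases a <;> cases b <;> cases c <;> simp <;> omega

theorem ch_sublist {l l' : List Bool} (h : l.Sublist l') : ch l ≤ ch l' := by
  suffices H : ch l ≤ ch l' ∧ ∀ a, ch (a :: l) ≤ ch (a :: l') from H.1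
  induction h with
  | slnil => exact ⟨le_rfl, fun _ => le_rfl⟩
  | cons b _ ih =>
    refine ⟨ih.1.trans (ch_le_cons _ _), ?_⟩
    intro a
    exact (ih.2 a).trans (ch_skip _ _ _)
  | cons_cons b _ ih =>
    refine ⟨ih.2 b, ?_⟩
    intro a
    rw [ch_cons_cons, ch_cons_cons]
    have := ih.2 b
    omega

theorem ch_join (σ μ τ : Bool) (A B : List Bool) :
    ch (σ :: (A ++ B ++ [τ])) ≤ ch (σ :: (A ++ [μ])) + ch (μ :: (B ++ [τ])) := by
  cases B with
  | nil =>
    simp only [List.append_nil, List.nil_append]
    have h1 : ch (σ :: (A ++ [μ] ++ [τ])) = ch (σ :: (A ++ [μ])) + ch [μ, τ] := by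
      have := ch_split (σ :: A) μ [τ]
      simpa using this
    rw [← h1]
    apply ch_sublist
    apply List.Sublist.cons_cons
    rw [List.append_assoc]
    apply List.Sublist.append (List.Sublist.refl _)
    exact List.Sublist.cons _ (List.Sublist.refl _)
  | cons b B =>
    have h1 : ch (σ :: (A ++ b :: B ++ [τ])) = ch (σ :: (A ++ [b])) + ch (b :: (B ++ [τ])) := by
      have := ch_split (σ :: A) b (B ++ [τ])
      simpa using this
    have h2 : ch (σ :: (A ++ [b])) ≤ ch (σ :: (A ++ [μ])) + (if μ = b then 0 else 1) := by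
      have h3 : ch (σ :: (A ++ [μ, b])) = ch (σ :: (A ++ [μ])) + ch [μ, b] := by
        have := ch_split (σ :: A) μ [b]
        simpa using this
      have h4 : ch (σ :: (A ++ [b])) ≤ ch (σ :: (A ++ [μ, b])) := by
        apply ch_sublist
        apply List.Sublist.cons_cons
        apply List.Sublist.append (List.Sublist.refl _)
        exact List.Sublist.cons _ (List.Sublist.refl _)
      rw [h3] at h4
      simpa [ch_cons_cons] using h4
    rw [h1, List.cons_append, ch_cons_cons]
    omega

theorem ch_const_right (σ τ s : Bool) (A B : List Bool) (hB : ∀ b ∈ B, b = s) :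
    ch (σ :: (A ++ B ++ [τ])) ≤ ch (σ :: (A ++ [s])) + (if τ = s then 0 else 1) := by
  have h1 := ch_join σ s τ A B
  have h2 : ∀ (B : List Bool), (∀ b ∈ B, b = s) → ch (s :: (B ++ [τ])) = if τ = s then 0 else 1 := by
    intro B
    induction B with
    | nil => intro _; simp [ch_cons_cons, eq_comm]
    | cons b B ih =>
      intro h
      have hb := h b (by simp)
      subst hb
      rw [List.cons_append, ch_cons_cons, ih (fun c hc => h c (by simp [hc]))]
      simp
  rw [h2 B hB] at h1
  exact h1

theorem ch_const_left (σ τ s : Bool) (A B : List Bool) (hA : ∀ b ∈ A, b = s) :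
    ch (σ :: (A ++ B ++ [τ])) ≤ (if σ = s then 0 else 1) + ch (s :: (B ++ [τ])) := by
  have h1 := ch_join σ s τ A B
  have h2 : ∀ (A : List Bool) (σ : Bool), (∀ b ∈ A, b = s) →
      ch (σ :: (A ++ [s])) = if σ = s then 0 else 1 := by
    intro A
    induction A with
    | nil => intro σ _; simp [ch_cons_cons]
    | cons b A ih =>
      intro σ h
      have hb := h b (by simp)
      subst hb
      rw [List.cons_append, ch_cons_cons, ih b (fun c hc => h c (by simp [hc]))]
      simp
  rw [h2 A σ hA] at h1
  exact h1

/-- linear functional on binary words of length `t` -/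
def F (c : ℕ → ℝ) : ℕ → ℕ → ℝ
  | 0, _ => 0
  | t + 1, w => F c t w + if w.testBit t then c t else 0

theorem F_congr (c : ℕ → ℝ) : ∀ (t w w' : ℕ), (∀ e < t, w.testBit e = w'.testBit e) →
    F c t w = F c t w' := by
  intro t
  induction t with
  | zero => intro w w' _; rfl
  | succ t ih =>
    intro w w' h
    simp only [F]
    rw [ih w w' (fun e he => h e (by omega)), h t (by omega)]

theorem F_lt (c : ℕ → ℝ) {t w : ℕ} (h : w < 2 ^ t) : F c (t + 1) w = F c t w := by
  simp only [F]
  rw [Nat.testBit_lt_two_pow h]
  simp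

theorem F_add (c : ℕ → ℝ) {t w : ℕ} (h : w < 2 ^ t) : F c (t + 1) (2 ^ t + w) = F c t w + c t := by
  simp only [F]
  have h1 : (2 ^ t + w).testBit t = true := by
    rw [Nat.testBit_two_pow_add_eq, Nat.testBit_lt_two_pow h]
    rfl
  rw [h1]
  simp only [if_true]
  congr 1
  apply F_congr
  intro e he
  rw [Nat.testBit_two_pow_add_gt he]

/-- the signs of `F c t w - β` for the words `w` in increasing order -/
noncomputable def sg (c : ℕ → ℝ) (t : ℕ) (β : ℝ) : List Bool :=
  (List.range (2 ^ t)).map (fun w => decide (β ≤ F c t w))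

theorem sg_succ (c : ℕ → ℝ) (t : ℕ) (β : ℝ) : sg c (t + 1) β = sg c t β ++ sg c t (β - c t) := by
  unfold sg
  rw [pow_succ, mul_two, List.range_add, List.map_append, List.map_map]
  congr 1
  · apply List.map_congr_left
    intro w hw
    rw [List.mem_range] at hw
    rw [F_lt c hw]
  · apply List.map_congr_left
    intro w hw
    rw [List.mem_range] at hw
    simp only [Function.comp]
    rw [F_add c hw]
    congr 1
    rw [sub_le_iff_le_add]

theorem F_bounds (c : ℕ → ℝ) : ∀ (t w : ℕ),
    ∑ e ∈ range t, min (c e) 0 ≤ F c t w ∧ F c t w ≤ ∑ e ∈ range t, max (c e) 0 := by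
  intro t
  induction t with
  | zero => intro w; simp [F]
  | succ t ih =>
    intro w
    obtain ⟨h1, h2⟩ := ih w
    rw [sum_range_succ, sum_range_succ]
    simp only [F]
    constructor
    · by_cases h : w.testBit t
      · simp only [h, if_true]; have := min_le_left (c t) 0; linarith
      · simp only [h]; have := min_le_right (c t) 0; simp; linarith
    · by_cases h : w.testBit t
      · simp only [h, if_true]; have := le_max_left (c t) 0; linarith
      · simp only [h]; have := le_max_right (c t) 0; simp; linarith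

def Bd (c : ℕ → ℝ) (t K : ℕ) (s : Bool) : Prop := ∀ (β : ℝ) (σ τ : Bool),
  ch (σ :: (sg c t β ++ [τ])) ≤ K + (if σ = s then 1 else 0) + (if τ = s then 0 else 1)

theorem Bd.mono {c : ℕ → ℝ} {t K K' : ℕ} {s : Bool} (h : Bd c t K s) (hK : K ≤ K') :
    Bd c t K' s := by
  intro β σ τ
  have := h β σ τ
  omega

theorem bd_zero (c : ℕ → ℝ) (s : Bool) : Bd c 0 1 s := by
  intro β σ τ
  have : sg c 0 β = [decide (β ≤ 0)] := by
    simp only [sg, F, pow_zero, List.range_one, List.map_cons, List.map_nil]
    rfl
  rw [this]
  simp only [List.cons_append, List.nil_append, ch_cons_cons, ch_single]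
  cases σ <;> cases τ <;> cases s <;> cases (decide (β ≤ 0)) <;> simp

theorem bd_exc {c : ℕ → ℝ} {t K : ℕ} {s : Bool} (h : Bd c t K s) : Bd c (t + 1) (2 * K + 1) s := by
  intro β σ τ
  rw [sg_succ]
  have h1 := ch_join σ true τ (sg c t β) (sg c t (β - c t))
  have h2 := h β σ true
  have h3 := h (β - c t) true τ
  have h4 : (if true = s then (0:ℕ) else 1) + (if true = s then 1 else 0) = 1 := by
    cases s <;> simp
  omega

theorem bd_dom {c : ℕ → ℝ} {t K : ℕ} {s s' : Bool} (h : Bd c t K s')
    (hd : ∑ e ∈ range t, |c e| < |c t|) (hs : s = decide (0 < c t)) :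
    Bd c (t + 1) (K + if s' = s then 0 else 2) s := by
  intro β σ τ
  rw [sg_succ]
  have hsum : ∑ e ∈ range t, max (c e) 0 - ∑ e ∈ range t, min (c e) 0 = ∑ e ∈ range t, |c e| := by
    rw [← sum_sub_distrib]
    apply sum_congr rfl
    intro e _
    rcases le_total 0 (c e) with h' | h'
    · rw [max_eq_left h', min_eq_right h', abs_of_nonneg h']; ring
    · rw [max_eq_right h', min_eq_left h', abs_of_nonpos h']; ring
  have key : (∀ b ∈ sg c t (β - c t), b = s) ∨ (∀ b ∈ sg c t β, b = !s) := by
    have mem_sg : ∀ β' b, b ∈ sg c t β' → ∃ w, b = decide (β' ≤ F c t w) := by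
      intro β' b hb
      unfold sg at hb
      rw [List.mem_map] at hb
      obtain ⟨w, _, hw⟩ := hb
      exact ⟨w, hw.symm⟩
    rcases lt_or_ge 0 (c t) with hp | hn
    · rw [decide_eq_true hp] at hs
      subst hs
      rw [abs_of_pos hp] at hd
      by_cases hb : β ≤ c t + ∑ e ∈ range t, min (c e) 0
      · left
        intro b hb'
        obtain ⟨w, rfl⟩ := mem_sg _ _ hb'
        apply decide_eq_true
        have := (F_bounds c t w).1
        linarith
      · right
        intro b hb'
        obtain ⟨w, rfl⟩ := mem_sg _ _ hb'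
        apply decide_eq_false
        have := (F_bounds c t w).2
        push Not at hb ⊢
        linarith
    · rw [decide_eq_false (not_lt.2 hn)] at hs
      subst hs
      rw [abs_of_nonpos hn] at hd
      by_cases hb : β ≤ ∑ e ∈ range t, min (c e) 0
      · right
        intro b hb'
        obtain ⟨w, rfl⟩ := mem_sg _ _ hb'
        apply decide_eq_true
        have := (F_bounds c t w).1
        linarith
      · left
        intro b hb'
        obtain ⟨w, rfl⟩ := mem_sg _ _ hb'
        apply decide_eq_false
        have := (F_bounds c t w).2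
        push Not at hb ⊢
        linarith
  rcases key with h1 | h1
  · have h2 := ch_const_right σ τ s (sg c t β) _ h1
    have h3 := h β σ s
    revert h2 h3
    cases s <;> cases s' <;> cases σ <;> cases τ <;> simp <;> omega
  · have h2 := ch_const_left σ τ (!s) _ (sg c t (β - c t)) h1
    have h3 := h (β - c t) (!s) τ
    revert h2 h3
    cases s <;> cases s' <;> cases σ <;> cases τ <;> simp <;> omega

/-! ### scales -/

/-- the scale at which `e` and `m` differ in base `M` (with fuel `h`) -/
def lev (M : ℕ) : ℕ → ℕ → ℕ → ℕ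
  | 0, _, _ => 0
  | h + 1, e, m => if e / M = m / M then 0 else lev M h (e / M) (m / M) + 1

theorem lev_le {M : ℕ} (hM : 2 ≤ M) : ∀ (h e m : ℕ), e < M ^ h → m < M ^ h → lev M h e m ≤ h - 1 := by
  intro h
  induction h with
  | zero => intro e m _ _; simp [lev]
  | succ h ih =>
    intro e m he hm
    simp only [lev]
    by_cases hd : e / M = m / M
    · simp [hd]
    · rw [if_neg hd]
      have e1 : e / M < M ^ h := Nat.div_lt_of_lt_mul (by rw [pow_succ] at he; rwa [mul_comm] at he)
      have e2 : m / M < M ^ h := Nat.div_lt_of_lt_mul (by rw [pow_succ] at hm; rwa [mul_comm] at hm)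
      have := ih _ _ e1 e2
      have h0 : h ≠ 0 := by
        rintro rfl
        rw [pow_zero] at e1 e2
        exact hd ((Nat.lt_one_iff.1 e1).trans (Nat.lt_one_iff.1 e2).symm)
      omega

theorem lev_mono_low {M : ℕ} : ∀ (h e e' m : ℕ), e ≤ e' → e' ≤ m → lev M h e' m ≤ lev M h e m := by
  intro h
  induction h with
  | zero => intro e e' m _ _; simp [lev]
  | succ h ih =>
    intro e e' m h1 h2
    simp only [lev]
    have d1 := Nat.div_le_div_right (c := M) h1
    have d2 := Nat.div_le_div_right (c := M) h2
    by_cases hd : e / M = m / M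
    · rw [if_pos hd, if_pos (by omega)]
    · rw [if_neg hd]
      by_cases hd' : e' / M = m / M
      · rw [if_pos hd']; omega
      · rw [if_neg hd']
        have := ih _ _ _ d1 d2
        omega

theorem lev_mono_high {M : ℕ} : ∀ (h e e' m : ℕ), m ≤ e' → e' ≤ e → lev M h e' m ≤ lev M h e m := by
  intro h
  induction h with
  | zero => intro e e' m _ _; simp [lev]
  | succ h ih =>
    intro e e' m h1 h2
    simp only [lev]
    have d1 := Nat.div_le_div_right (c := M) h1
    have d2 := Nat.div_le_div_right (c := M) h2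
    by_cases hd : e / M = m / M
    · rw [if_pos hd, if_pos (by omega)]
    · rw [if_neg hd]
      by_cases hd' : e' / M = m / M
      · rw [if_pos hd']; omega
      · rw [if_neg hd']
        have := ih _ _ _ d1 d2
        omega

theorem lev_sign_low {M : ℕ} (hM : 2 ≤ M) : ∀ (h e m : ℕ), e < m → m < M ^ h →
    (lab M m < lab M e ↔ lev M h e m % 2 = 1) := by
  intro h
  induction h with
  | zero => intro e m h1 h2; simp at h2; omega
  | succ h ih =>
    intro e m h1 h2
    simp only [lev]
    by_cases hd : e / M = m / M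
    · rw [if_pos hd]
      have h3 := lab_same hM hd
      have h4 : (e : ℤ) < m := by exact_mod_cast h1
      constructor
      · intro h5; exfalso; linarith
      · intro h5; simp at h5
    · rw [if_neg hd]
      have d1 := Nat.div_le_div_right (c := M) h1.le
      have h5 : e / M < m / M := lt_of_le_of_ne d1 hd
      have h6 : m / M < M ^ h :=
        Nat.div_lt_of_lt_mul (by rw [pow_succ] at h2; rwa [mul_comm] at h2)
      have h7 := ih _ _ h5 h6
      rw [lab_diff hM (Ne.symm hd)]
      have h8 : lab M (e / M) ≠ lab M (m / M) := fun h' => hd (lab_inj hM _ _ h')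
      have h9 : lab M (e / M) < lab M (m / M) ↔ ¬ (lab M (m / M) < lab M (e / M)) := by
        constructor
        · intro h'; exact not_lt.2 h'.le
        · intro h'; exact lt_of_le_of_ne (not_lt.1 h') h8
      rw [h9, h7]
      omega

theorem lev_sign_high {M : ℕ} (hM : 2 ≤ M) : ∀ (h e m : ℕ), m < e → e < M ^ h →
    (lab M m < lab M e ↔ lev M h e m % 2 = 0) := by
  intro h
  induction h with
  | zero => intro e m h1 h2; simp at h2; omega
  | succ h ih =>
    intro e m h1 h2
    simp only [lev]
    by_cases hd : e / M = m / M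
    · rw [if_pos hd]
      have h3 := lab_same hM hd
      have h4 : (m : ℤ) < e := by exact_mod_cast h1
      constructor
      · intro h5; rfl
      · intro h5; linarith
    · rw [if_neg hd]
      have d1 := Nat.div_le_div_right (c := M) h1.le
      have h5 : m / M < e / M := lt_of_le_of_ne d1 (Ne.symm hd)
      have h6 : e / M < M ^ h :=
        Nat.div_lt_of_lt_mul (by rw [pow_succ] at h2; rwa [mul_comm] at h2)
      have h7 := ih _ _ h5 h6
      rw [lab_diff hM (Ne.symm hd)]
      have h8 : lab M (e / M) ≠ lab M (m / M) := fun h' => hd (lab_inj hM _ _ h')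
      have h9 : lab M (e / M) < lab M (m / M) ↔ ¬ (lab M (m / M) < lab M (e / M)) := by
        constructor
        · intro h'; exact not_lt.2 h'.le
        · intro h'; exact lt_of_le_of_ne (not_lt.1 h') h8
      rw [h9, h7]
      omega

/-- the bound for the number of sign changes of one functional -/
theorem bd_all {M h t : ℕ} (hM : 2 ≤ M) (hh : 1 ≤ h) (ht0 : 1 ≤ t) (ht : t ≤ M ^ h) (θ : ℝ) (B : ℝ)
    (hB : 4 * (t : ℝ) + 3 < B) :
    ∃ K s, K + 1 ≤ 6 * h ∧ Bd (fun e => ((lab M e : ℝ) - θ) * B ^ e) t K s := by
  set c : ℕ → ℝ := fun e => ((lab M e : ℝ) - θ) * B ^ e with hc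
  have hBpos : 0 < B := by have : (0:ℝ) ≤ t := Nat.cast_nonneg t; linarith
  -- the nearest label
  obtain ⟨m, hm, hmin⟩ := Finset.exists_min_image (range t) (fun e => |(lab M e : ℝ) - θ|)
    ⟨0, by rw [mem_range]; omega⟩
  rw [mem_range] at hm
  have hmin' : ∀ e < t, |(lab M m : ℝ) - θ| ≤ |(lab M e : ℝ) - θ| :=
    fun e he => hmin e (mem_range.2 he)
  have hgap : ∀ e, e < t → e ≠ m → 1 ≤ 2 * |(lab M e : ℝ) - θ| := by
    intro e he hne
    have h1 : lab M e ≠ lab M m := fun h' => hne (lab_inj hM _ _ h')
    have h2 : (1 : ℤ) ≤ |lab M e - lab M m| := Int.one_le_abs (sub_ne_zero.2 h1)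
    have h3 : (1 : ℝ) ≤ |(lab M e : ℝ) - lab M m| := by exact_mod_cast h2
    have h4 := hmin' e he
    have h5 : |(lab M e : ℝ) - lab M m| ≤ |(lab M e : ℝ) - θ| + |(lab M m : ℝ) - θ| := by
      have := abs_sub_le (lab M e : ℝ) θ (lab M m : ℝ)
      rwa [abs_sub_comm θ] at this
    linarith
  have hsgn : ∀ e, e < t → e ≠ m → decide (0 < c e) = decide (lab M m < lab M e) := by
    intro e he hne
    have h1 : lab M e ≠ lab M m := fun h' => hne (lab_inj hM _ _ h')
    have hBe : 0 < B ^ e := pow_pos hBpos e
    have h4 := hmin' e he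
    rcases lt_or_gt_of_ne h1 with h2 | h2
    · rw [decide_eq_false, decide_eq_false]
      · exact not_lt.2 h2.le
      · have h3 : (lab M e : ℝ) < lab M m := by exact_mod_cast h2
        have h5 : (lab M e : ℝ) - θ < 0 := by
          by_contra hcon
          push Not at hcon
          rw [abs_of_nonneg hcon] at h4
          have := le_abs_self ((lab M m : ℝ) - θ)
          linarith
        exact not_lt.2 (mul_nonpos_of_nonpos_of_nonneg h5.le hBe.le)
    · rw [decide_eq_true, decide_eq_true]
      · exact h2
      · have h3 : (lab M m : ℝ) < lab M e := by exact_mod_cast h2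
        have h5 : 0 < (lab M e : ℝ) - θ := by
          by_contra hcon
          push Not at hcon
          rw [abs_of_nonpos hcon] at h4
          have := neg_abs_le ((lab M m : ℝ) - θ)
          linarith
        exact mul_pos h5 hBe
  have hdom : ∀ e, e < t → e ≠ m → ∑ e' ∈ range e, |c e'| < |c e| := by
    intro e he hne
    have h1 := hgap e he hne
    have h2 : ∀ e' ∈ range e, |c e'| ≤ (4 * t + 1) * |(lab M e : ℝ) - θ| * B ^ e' := by
      intro e' he'
      rw [mem_range] at he'
      rw [hc]
      simp only
      rw [abs_mul, abs_of_pos (pow_pos hBpos e')]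
      apply mul_le_mul_of_nonneg_right _ (pow_pos hBpos e').le
      have h3 := lab_abs_le hM e
      have h4 := lab_abs_le hM e'
      have h5 : |(lab M e : ℝ)| ≤ t := by
        have : |lab M e| ≤ (t : ℤ) := h3.trans (by exact_mod_cast he.le)
        exact_mod_cast this
      have h6 : |(lab M e' : ℝ)| ≤ t := by
        have : |lab M e'| ≤ (t : ℤ) := h4.trans (by exact_mod_cast (he'.trans he).le)
        exact_mod_cast this
      have h7 : |(lab M e' : ℝ) - θ| ≤ |(lab M e' : ℝ) - lab M e| + |(lab M e : ℝ) - θ| :=
        abs_sub_le _ _ _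
      have h8 : |(lab M e' : ℝ) - lab M e| ≤ |(lab M e' : ℝ)| + |(lab M e : ℝ)| := abs_sub _ _
      have ht' : (0:ℝ) ≤ t := Nat.cast_nonneg t
      nlinarith
    calc ∑ e' ∈ range e, |c e'| ≤ ∑ e' ∈ range e, (4 * t + 1) * |(lab M e : ℝ) - θ| * B ^ e' :=
          sum_le_sum h2
      _ = (4 * t + 1) * |(lab M e : ℝ) - θ| * ∑ e' ∈ range e, B ^ e' := by rw [mul_sum]
      _ < |c e| := by
          rw [hc]
          simp only
          rw [abs_mul, abs_of_pos (pow_pos hBpos e)]
          have hg : (∑ e' ∈ range e, B ^ e') * (B - 1) = B ^ e - 1 := geom_sum_mul B e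
          have hpos : 0 < |(lab M e : ℝ) - θ| := by linarith
          have hge : 0 ≤ ∑ e' ∈ range e, B ^ e' := sum_nonneg (fun e' _ => (pow_pos hBpos e').le)
          have h9 : (4 * t + 1) * ∑ e' ∈ range e, B ^ e' ≤ B ^ e - 1 := by
            rw [← hg, mul_comm]
            apply mul_le_mul_of_nonneg_left _ hge
            linarith
          calc (4 * t + 1) * |(lab M e : ℝ) - θ| * ∑ e' ∈ range e, B ^ e'
              = |(lab M e : ℝ) - θ| * ((4 * t + 1) * ∑ e' ∈ range e, B ^ e') := by ring
            _ ≤ |(lab M e : ℝ) - θ| * (B ^ e - 1) := mul_le_mul_of_nonneg_left h9 hpos.le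
            _ < |(lab M e : ℝ) - θ| * B ^ e := by
                apply mul_lt_mul_of_pos_left _ hpos
                linarith
  have hmh : m < M ^ h := lt_of_lt_of_le hm ht
  -- lower part
  have low : ∀ e, e < m → Bd c (e + 1) (1 + 2 * (h - 1 - lev M h e m)) (decide (0 < c e)) := by
    intro e
    induction e with
    | zero =>
      intro he
      have h1 := bd_dom (bd_zero c (decide (0 < c 0))) (hdom 0 (by omega) (by omega)) rfl
      simp only [if_true] at h1
      exact h1.mono (by omega)
    | succ e ih =>
      intro he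
      have h1 := bd_dom (ih (by omega)) (hdom (e + 1) (by omega) (by omega)) rfl
      apply h1.mono
      have l1 := lev_mono_low (M := M) h e (e + 1) m (by omega) (by omega)
      have l2 := lev_le hM h e m (by omega) hmh
      have s1 := lev_sign_low hM h e m (by omega) hmh
      have s2 := lev_sign_low hM h (e + 1) m (by omega) hmh
      rw [hsgn e (by omega) (by omega), hsgn (e + 1) (by omega) (by omega)]
      by_cases hs : decide (lab M m < lab M e) = decide (lab M m < lab M (e + 1))
      · rw [if_pos hs]; omega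
      · rw [if_neg hs]
        have hne : lev M h e m ≠ lev M h (e + 1) m := by
          intro h'
          apply hs
          rw [h', ← s2] at s1
          exact decide_eq_decide.2 s1
        omega
  have low' : ∃ s, Bd c m (2 * h - 1) s := by
    rcases Nat.eq_zero_or_pos m with h0 | h0
    · rw [h0]
      exact ⟨true, (bd_zero c true).mono (by omega)⟩
    · have := low (m - 1) (by omega)
      rw [Nat.sub_add_cancel h0] at this
      exact ⟨_, this.mono (by omega)⟩
  obtain ⟨s0, hs0⟩ := low'
  have mid : Bd c (m + 1) (4 * h - 1) s0 := (bd_exc hs0).mono (by omega)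
  -- upper part
  have up : ∀ k, m + 1 + k < t →
      Bd c (m + 1 + k + 1) (4 * h - 1 + 2 * (lev M h (m + 1 + k) m + 1))
        (decide (0 < c (m + 1 + k))) := by
    intro k
    induction k with
    | zero =>
      intro he
      have h1 := bd_dom mid (hdom (m + 1) he (by omega)) rfl
      apply h1.mono
      split_ifs <;> omega
    | succ k ih =>
      intro he
      have h1 := bd_dom (ih (by omega)) (hdom (m + 1 + k + 1) (by omega) (by omega)) rfl
      apply h1.mono
      have l1 := lev_mono_high (M := M) h (m + 1 + k + 1) (m + 1 + k) m (by omega) (by omega)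
      have s1 := lev_sign_high hM h (m + 1 + k) m (by omega) (by omega)
      have s2 := lev_sign_high hM h (m + 1 + k + 1) m (by omega) (by omega)
      rw [hsgn (m + 1 + k) (by omega) (by omega), hsgn (m + 1 + k + 1) (by omega) (by omega)]
      have e1 : m + 1 + (k + 1) = m + 1 + k + 1 := by ring
      rw [e1]
      by_cases hs : decide (lab M m < lab M (m + 1 + k)) = decide (lab M m < lab M (m + 1 + k + 1))
      · rw [if_pos hs]; omega
      · rw [if_neg hs]
        have hne : lev M h (m + 1 + k) m ≠ lev M h (m + 1 + k + 1) m := by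
          intro h'
          apply hs
          rw [h', ← s2] at s1
          exact decide_eq_decide.2 s1
        omega
  rcases Nat.lt_or_ge (m + 1) t with h1 | h1
  · have h2 := up (t - 1 - (m + 1)) (by omega)
    have e1 : m + 1 + (t - 1 - (m + 1)) + 1 = t := by omega
    rw [e1] at h2
    have l2 := lev_le hM h (m + 1 + (t - 1 - (m + 1))) m (by omega) hmh
    exact ⟨_, _, by omega, h2⟩
  · have e1 : m + 1 = t := by omega
    rw [e1] at mid
    exact ⟨_, _, by omega, mid⟩

theorem ch_signs {M h t : ℕ} (hM : 2 ≤ M) (hh : 1 ≤ h) (ht0 : 1 ≤ t) (ht : t ≤ M ^ h) (θ β : ℝ)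
    (B : ℝ) (hB : 4 * (t : ℝ) + 3 < B) :
    ch (false :: (sg (fun e => ((lab M e : ℝ) - θ) * B ^ e) t β ++ [false])) ≤ 6 * h := by
  obtain ⟨K, s, hK, hb⟩ := bd_all hM hh ht0 ht θ B hB
  have := hb β false false
  cases s <;> simp at this <;> omega

end Pool.Agent.H595K
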