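import Mathlib
import Pool.Agent.H595K.Lab

/-!
# Order-shattered level sets of sets of binary words
-/

namespace Pool.Agent.H595K

open Finset

/-- `l` is the highest binary place where `w` and `w'` differ, and `w < w'` -/
def Top (l w w' : ℕ) : Prop :=
  w / 2 ^ (l + 1) = w' / 2 ^ (l + 1) ∧ w.testBit l = false ∧ w'.testBit l = true

/-- `Emb L Q`: the set of words `Q` contains a complete binary tree which branches exactly at the
places of the (decreasing) list `L` -/
def Emb : List ℕ → Finset ℕ → Prop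
  | [], Q => Q.Nonempty
  | l :: L, Q => ∃ Q0 ⊆ Q, ∃ Q1 ⊆ Q, (∀ w ∈ Q0, ∀ w' ∈ Q1, Top l w w') ∧ Emb L Q0 ∧ Emb L Q1

theorem testBit_eq (w l : ℕ) : w.testBit l = decide (w / 2 ^ l % 2 = 1) := by
  rw [Nat.testBit_eq_decide_div_mod_eq]

theorem div_succ (w l : ℕ) : w / 2 ^ (l + 1) = w / 2 ^ l / 2 := by
  rw [pow_succ, Nat.div_div_eq_div_mul]

theorem Top.div {l w w' : ℕ} (h : Top l w w') : w' / 2 ^ l = w / 2 ^ l + 1 := by
  obtain ⟨h1, h2, h3⟩ := h
  rw [div_succ, div_succ] at h1
  rw [testBit_eq] at h2 h3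
  have h2' : ¬ (w / 2 ^ l % 2 = 1) := by simpa using h2
  have h3' : w' / 2 ^ l % 2 = 1 := by simpa using h3
  omega

theorem Top.lt {l w w' : ℕ} (h : Top l w w') : w < w' := by
  by_contra hc
  have := Nat.div_le_div_right (c := 2 ^ l) (not_lt.1 hc)
  rw [h.div] at this
  omega

theorem emb_mono : ∀ (L : List ℕ) {Q Q' : Finset ℕ}, Q ⊆ Q' → Emb L Q → Emb L Q' := by
  intro L
  cases L with
  | nil => intro Q Q' h hE; exact Finset.Nonempty.mono h hE
  | cons l L =>
    rintro Q Q' h ⟨Q0, h0, Q1, h1, ht, e0, e1⟩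
    exact ⟨Q0, h0.trans h, Q1, h1.trans h, ht, e0, e1⟩

theorem emb_nonempty : ∀ (L : List ℕ) {Q : Finset ℕ}, Emb L Q → Q.Nonempty := by
  intro L
  induction L with
  | nil => intro Q h; exact h
  | cons l L ih =>
    rintro Q ⟨Q0, h0, Q1, h1, ht, e0, e1⟩
    exact (ih e0).mono h0

theorem emb_sublist {L' L : List ℕ} (h : L'.Sublist L) : ∀ {Q : Finset ℕ}, Emb L Q → Emb L' Q := by
  induction h with
  | slnil => intro Q h; exact h
  | cons a _ ih =>
    rintro Q ⟨Q0, h0, Q1, h1, ht, e0, e1⟩
    exact emb_mono _ h0 (ih e0)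
  | cons_cons a _ ih =>
    rintro Q ⟨Q0, h0, Q1, h1, ht, e0, e1⟩
    exact ⟨Q0, h0, Q1, h1, ht, ih e0, ih e1⟩

open Classical in
/-- the order-shattered sets of places -/
noncomputable def Sh (t : ℕ) (Q : Finset ℕ) : Finset (Finset ℕ) :=
  (range t).powerset.filter (fun I => Emb (I.sort (· ≥ ·)) Q)

theorem mem_Sh {t : ℕ} {Q I : Finset ℕ} : I ∈ Sh t Q ↔ I ⊆ range t ∧ Emb (I.sort (· ≥ ·)) Q := by
  simp [Sh]

theorem card_le_Sh : ∀ (t pr : ℕ) (Q : Finset ℕ), (∀ w ∈ Q, w / 2 ^ t = pr) →
    Q.card ≤ (Sh t Q).card := by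
  intro t
  induction t with
  | zero =>
    intro pr Q hQ
    rcases Q.eq_empty_or_nonempty with h | h
    · subst h; simp
    · have h1 : Q.card ≤ 1 := by
        rw [Finset.card_le_one]
        intro a ha b hb
        have h1 := hQ a ha
        have h2 := hQ b hb
        simp at h1 h2
        omega
      have h2 : (∅ : Finset ℕ) ∈ Sh 0 Q := by
        rw [mem_Sh]
        refine ⟨by simp, ?_⟩
        simp only [sort_empty]
        exact h
      exact h1.trans (Finset.card_pos.2 ⟨_, h2⟩)
  | succ t ih =>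
    intro pr Q hQ
    set Q0 := Q.filter (fun w => w.testBit t = false) with hQ0
    set Q1 := Q.filter (fun w => w.testBit t = true) with hQ1
    have hc : Q.card = Q0.card + Q1.card := by
      rw [hQ0, hQ1, ← Finset.card_union_of_disjoint]
      · congr 1
        ext w
        simp only [mem_union, mem_filter]
        cases w.testBit t <;> simp
      · rw [Finset.disjoint_filter]
        intro w _ h1 h2
        rw [h1] at h2
        exact absurd h2 (by decide)
    have hp0 : ∀ w ∈ Q0, w / 2 ^ t = 2 * pr := by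
      intro w hw
      rw [hQ0, mem_filter, testBit_eq] at hw
      have h1 := hQ w hw.1
      rw [div_succ] at h1
      have h2 : ¬ (w / 2 ^ t % 2 = 1) := by simpa using hw.2
      omega
    have hp1 : ∀ w ∈ Q1, w / 2 ^ t = 2 * pr + 1 := by
      intro w hw
      rw [hQ1, mem_filter, testBit_eq] at hw
      have h1 := hQ w hw.1
      rw [div_succ] at h1
      have h2 : (w / 2 ^ t % 2 = 1) := by simpa using hw.2
      omega
    have h0 := ih _ Q0 hp0
    have h1 := ih _ Q1 hp1
    -- the families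
    have hsub : (Sh t Q0 ∪ Sh t Q1) ∪ ((Sh t Q0 ∩ Sh t Q1).image (insert t)) ⊆ Sh (t + 1) Q := by
      intro I hI
      rw [mem_union, mem_union, mem_image] at hI
      rcases hI with (hI | hI) | ⟨J, hJ, rfl⟩
      · rw [mem_Sh] at hI ⊢
        exact ⟨hI.1.trans (range_subset_range.2 (Nat.le_succ t)),
          emb_mono _ (filter_subset _ _) hI.2⟩
      · rw [mem_Sh] at hI ⊢
        exact ⟨hI.1.trans (range_subset_range.2 (Nat.le_succ t)),
          emb_mono _ (filter_subset _ _) hI.2⟩
      · rw [mem_inter, mem_Sh, mem_Sh] at hJ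
        rw [mem_Sh]
        refine ⟨?_, ?_⟩
        · intro x hx
          rw [mem_insert] at hx
          rcases hx with rfl | hx
          · simp
          · have := hJ.1.1 hx
            rw [mem_range] at this ⊢
            omega
        · rw [sort_insert]
          · refine ⟨Q0, filter_subset _ _, Q1, filter_subset _ _, ?_, hJ.1.2, hJ.2.2⟩
            intro w hw w' hw'
            refine ⟨?_, (mem_filter.1 hw).2, (mem_filter.1 hw').2⟩
            rw [hQ w (mem_filter.1 hw).1, hQ w' (mem_filter.1 hw').1]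
          · intro b hb
            have := hJ.1.1 hb
            rw [mem_range] at this
            exact this.le
          · intro ht
            have := hJ.1.1 ht
            simp at this
    have hdis : Disjoint (Sh t Q0 ∪ Sh t Q1) ((Sh t Q0 ∩ Sh t Q1).image (insert t)) := by
      rw [Finset.disjoint_left]
      intro I hI hI2
      rw [mem_image] at hI2
      obtain ⟨J, _, rfl⟩ := hI2
      rw [mem_union, mem_Sh, mem_Sh] at hI
      have : t ∈ range t := by
        rcases hI with h | h
        · exact h.1 (mem_insert_self _ _)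
        · exact h.1 (mem_insert_self _ _)
      simp at this
    have hinj : ((Sh t Q0 ∩ Sh t Q1).image (insert t)).card = (Sh t Q0 ∩ Sh t Q1).card := by
      apply Finset.card_image_of_injOn
      intro J hJ J' hJ' he
      have hJ1 := (mem_Sh.1 (mem_inter.1 hJ).1).1
      have hJ2 := (mem_Sh.1 (mem_inter.1 hJ').1).1
      have n1 : t ∉ J := fun h => by simpa using hJ1 h
      have n2 : t ∉ J' := fun h => by simpa using hJ2 h
      have := congrArg (fun S : Finset ℕ => S.erase t) he
      simpa [Finset.erase_insert n1, Finset.erase_insert n2] using this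
    have h3 := Finset.card_le_card hsub
    rw [Finset.card_union_of_disjoint hdis, hinj] at h3
    have h4 := Finset.card_union_add_card_inter (Sh t Q0) (Sh t Q1)
    omega

theorem sum_choose_le (t s : ℕ) : ∑ i ∈ range (s + 1), t.choose i ≤ (t + 1) ^ s := by
  induction s with
  | zero => simp
  | succ s ih =>
    rw [sum_range_succ]
    have h1 : t.choose (s + 1) ≤ t ^ (s + 1) := Nat.choose_le_pow _ _
    have h2 : t ^ (s + 1) ≤ t * (t + 1) ^ s := by
      rw [pow_succ, mul_comm]
      exact Nat.mul_le_mul_left _ (Nat.pow_le_pow_left (Nat.le_succ t) s)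
    calc _ ≤ (t + 1) ^ s + t * (t + 1) ^ s := by omega
      _ = (t + 1) ^ (s + 1) := by ring

theorem exists_emb {t s : ℕ} {Q : Finset ℕ} (hQ : ∀ w ∈ Q, w < 2 ^ t) (hc : (t + 1) ^ s < Q.card) :
    ∃ I : Finset ℕ, I ⊆ range t ∧ s < I.card ∧ Emb (I.sort (· ≥ ·)) Q := by
  by_contra hcon
  push Not at hcon
  have h1 := card_le_Sh t 0 Q (fun w hw => Nat.div_eq_of_lt (hQ w hw))
  have h2 : Sh t Q ⊆ (range (s + 1)).biUnion (fun i => powersetCard i (range t)) := by
    intro I hI
    rw [mem_Sh] at hI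
    rw [mem_biUnion]
    refine ⟨I.card, ?_, ?_⟩
    · rw [mem_range]
      by_contra hlt
      exact hcon I hI.1 (by omega) hI.2
    · rw [mem_powersetCard]
      exact ⟨hI.1, rfl⟩
  have h3 : (Sh t Q).card ≤ ∑ i ∈ range (s + 1), t.choose i := by
    calc (Sh t Q).card ≤ _ := Finset.card_le_card h2
      _ ≤ ∑ i ∈ range (s + 1), (powersetCard i (range t)).card := card_biUnion_le
      _ = _ := by simp
  have h4 := sum_choose_le t s
  omega

/-- alternating list of truth values -/
def alt : ℕ → Bool → List Bool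
  | 0, _ => []
  | c + 1, s => s :: alt c (!s)

/-- `s` negated `n` times -/
def fl : ℕ → Bool → Bool
  | 0, s => s
  | n + 1, s => fl n (!s)

theorem fl_not (n : ℕ) : ∀ s, fl n (!s) = !(fl n s) := by
  induction n with
  | zero => intro s; rfl
  | succ n ih => intro s; simp only [fl]; rw [ih]

theorem fl_fl (n : ℕ) : ∀ s, fl n (fl n s) = s := by
  induction n with
  | zero => intro s; rfl
  | succ n ih => intro s; simp only [fl]; rw [fl_not n s, Bool.not_not, ih]

theorem alt_length (c : ℕ) : ∀ s, (alt c s).length = c := by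
  induction c with
  | zero => intro s; rfl
  | succ c ih => intro s; simp [alt, ih]

theorem alt_add (a b : ℕ) : ∀ s, alt (a + b) s = alt a s ++ alt b (fl a s) := by
  induction a with
  | zero => intro s; simp [alt, fl]
  | succ a ih =>
    intro s
    rw [Nat.succ_add]
    simp only [alt, fl, List.cons_append]
    rw [ih]

theorem alt_reverse (c : ℕ) : ∀ s, (alt c s).reverse = alt c (fl c (!s)) := by
  induction c with
  | zero => intro s; rfl
  | succ c ih =>
    intro s
    have h1 : alt (c + 1) (fl (c + 1) (!s)) = alt c (fl (c + 1) (!s)) ++ alt 1 (fl c (fl (c + 1) (!s))) :=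
      alt_add c 1 _
    rw [h1]
    simp only [alt, fl, List.reverse_cons, Bool.not_not]
    rw [ih, Bool.not_not, fl_fl]

theorem alt_isChain (c : ℕ) : ∀ s, (alt c s).IsChain (· ≠ ·) := by
  induction c with
  | zero => intro s; simp [alt]
  | succ c ih =>
    intro s
    cases c with
    | zero => simp [alt]
    | succ c =>
      simp only [alt]
      have := ih (!s)
      simp only [alt] at this
      rw [List.isChain_cons_cons]
      exact ⟨by simp, this⟩

/-- the word `z` lies on the side `s` of lines through the point of `w` with slope about `x u` -/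
def Rel (x : ℕ → ℤ) (u w z : ℕ) (s : Bool) : Prop :=
  ∃ l, l ≠ u ∧ ((Top l z w ∧ decide (x u < x l) = !s) ∨ (Top l w z ∧ decide (x u < x l) = s))

theorem peel {l l' : ℕ} {R : List ℕ} {Q : Finset ℕ} (h : Emb (l :: l' :: R) Q) :
    ∃ a ∈ Q, ∃ b ∈ Q, ∃ Q' ⊆ Q, Emb R Q' ∧ ∀ w ∈ Q', Top l a w ∧ Top l' w b := by
  obtain ⟨Q0, h0, Q1, h1, ht, e0, ⟨Q10, h10, Q11, h11, ht', e10, e11⟩⟩ := h
  obtain ⟨a, ha⟩ := emb_nonempty _ e0
  obtain ⟨b, hb⟩ := emb_nonempty _ e11
  exact ⟨a, h0 ha, b, h1 (h11 hb), Q10, h10.trans h1, e10,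
    fun w hw => ⟨ht a ha w (h10 hw), ht' w hw b hb⟩⟩

theorem upper_part (x : ℕ → ℤ) (I : Finset ℕ) (u : ℕ) : ∀ (c : ℕ) (π : Bool) (a b : ℕ), u ≤ a →
    Ch x I u c π a b → ∃ Ul : List ℕ, Ul.Pairwise (· > ·) ∧ (∀ l ∈ Ul, l ∈ I ∧ a < l) ∧
      ∀ (R : List ℕ) (Q : Finset ℕ), Emb (Ul ++ R) Q →
        ∃ (A B : List ℕ) (Q' : Finset ℕ), Q' ⊆ Q ∧ Emb R Q' ∧ (∀ z ∈ A, z ∈ Q) ∧ (∀ z ∈ B, z ∈ Q) ∧
          A.Pairwise (· < ·) ∧ B.Pairwise (· < ·) ∧ (∀ z ∈ A, ∀ w ∈ Q', z < w) ∧
          (∀ z ∈ B, ∀ w ∈ Q', w < z) ∧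
          (∀ w ∈ Q', List.Forall₂ (Rel x u w) A (alt c (!π)).reverse) ∧
          (∀ w ∈ Q', List.Forall₂ (Rel x u w) B (alt c π)) := by
  intro c
  induction c with
  | zero =>
    intro π a b _ _
    refine ⟨[], List.Pairwise.nil, by simp, ?_⟩
    intro R Q h
    exact ⟨[], [], Q, Finset.Subset.refl _, h, by simp, by simp, List.Pairwise.nil,
      List.Pairwise.nil, by simp, by simp, fun w _ => by simp [alt], fun w _ => by simp [alt]⟩
  | succ c ih =>
    intro π a b hua h
    obtain ⟨g1, hg1, g2, hg2, d1, hd1, d2, hd2, h1, h2, h3, h4, s1, s2, s3, s4, hr⟩ := h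
    obtain ⟨Ul, hU1, hU2, hU3⟩ := ih (!π) g2 d2 (by omega) hr
    refine ⟨Ul ++ [g2, g1], ?_, ?_, ?_⟩
    · rw [List.pairwise_append]
      refine ⟨hU1, by simp [h2], ?_⟩
      intro l hl m hm
      have := (hU2 l hl).2
      simp only [List.mem_cons, List.not_mem_nil, or_false] at hm
      rcases hm with rfl | rfl <;> omega
    · intro l hl
      simp only [List.mem_append, List.mem_cons, List.not_mem_nil, or_false] at hl
      rcases hl with hl | rfl | rfl
      · exact ⟨(hU2 l hl).1, by have := (hU2 l hl).2; omega⟩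
      · exact ⟨hg2, by omega⟩
      · exact ⟨hg1, h1⟩
    · intro R Q hE
      rw [List.append_assoc] at hE
      obtain ⟨A, B, Q2, hs, hE2, hA, hB, pA, pB, lA, lB, fA, fB⟩ := hU3 _ _ hE
      obtain ⟨a', ha', b', hb', Q', hQ', hE', hw⟩ := peel hE2
      refine ⟨A ++ [a'], b' :: B, Q', hQ'.trans hs, hE', ?_, ?_, ?_, ?_, ?_, ?_, ?_, ?_⟩
      · intro z hz
        simp only [List.mem_append, List.mem_singleton] at hz
        rcases hz with hz | rfl
        · exact hA z hz
        · exact hs ha'
      · intro z hz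
        simp only [List.mem_cons] at hz
        rcases hz with rfl | hz
        · exact hs hb'
        · exact hB z hz
      · rw [List.pairwise_append]
        refine ⟨pA, by simp, ?_⟩
        intro z hz m hm
        simp only [List.mem_singleton] at hm
        subst hm
        exact lA z hz _ ha'
      · rw [List.pairwise_cons]
        exact ⟨fun z hz => lB z hz _ hb', pB⟩
      · intro z hz w hw'
        simp only [List.mem_append, List.mem_singleton] at hz
        rcases hz with hz | rfl
        · exact lA z hz w (hQ' hw')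
        · exact (hw w hw').1.lt
      · intro z hz w hw'
        simp only [List.mem_cons] at hz
        rcases hz with rfl | hz
        · exact (hw w hw').2.lt
        · exact lB z hz w (hQ' hw')
      · intro w hw'
        have := fA w (hQ' hw')
        simp only [alt, List.reverse_cons]
        apply List.rel_append this
        refine List.Forall₂.cons ⟨g2, by omega, Or.inl ⟨(hw w hw').1, ?_⟩⟩ List.Forall₂.nil
        rw [s2, Bool.not_not]
      · intro w hw'
        have := fB w (hQ' hw')
        simp only [alt]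
        exact List.Forall₂.cons ⟨g1, by omega, Or.inr ⟨(hw w hw').2, s1⟩⟩ this

theorem lower_part (x : ℕ → ℤ) (I : Finset ℕ) (u : ℕ) : ∀ (c : ℕ) (π : Bool) (a b : ℕ), b ≤ u →
    Ch x I u c π a b → ∃ Dl : List ℕ, Dl.Pairwise (· > ·) ∧ (∀ l ∈ Dl, l ∈ I ∧ l < b) ∧
      ∀ (Q : Finset ℕ), Emb Dl Q →
        ∃ p ∈ Q, ∃ N : List ℕ, (∀ z ∈ N, z ∈ Q) ∧ N.Pairwise (· < ·) ∧
          List.Forall₂ (Rel x u p) N (alt c π ++ (alt c (!π)).reverse) := by
  intro c
  induction c with
  | zero =>
    intro π a b _ _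
    refine ⟨[], List.Pairwise.nil, by simp, ?_⟩
    intro Q h
    obtain ⟨p, hp⟩ := h
    exact ⟨p, hp, [], by simp, List.Pairwise.nil, by simp [alt]⟩
  | succ c ih =>
    intro π a b hub h
    obtain ⟨g1, hg1, g2, hg2, d1, hd1, d2, hd2, h1, h2, h3, h4, s1, s2, s3, s4, hr⟩ := h
    obtain ⟨Dl, hU1, hU2, hU3⟩ := ih (!π) g2 d2 (by omega) hr
    refine ⟨d1 :: d2 :: Dl, ?_, ?_, ?_⟩
    · rw [List.pairwise_cons, List.pairwise_cons]
      refine ⟨?_, ?_, hU1⟩
      · intro l hl
        simp only [List.mem_cons] at hl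
        rcases hl with rfl | hl
        · exact h4
        · have := (hU2 l hl).2
          omega
      · intro l hl
        exact (hU2 l hl).2
    · intro l hl
      simp only [List.mem_cons] at hl
      rcases hl with rfl | rfl | hl
      · exact ⟨hd1, h3⟩
      · exact ⟨hd2, by omega⟩
      · exact ⟨(hU2 l hl).1, by have := (hU2 l hl).2; omega⟩
    · intro Q hE
      obtain ⟨a', ha', b', hb', Q', hQ', hE', hw⟩ := peel hE
      obtain ⟨p, hp, N, hN, pN, fN⟩ := hU3 Q' hE'
      refine ⟨p, hQ' hp, a' :: (N ++ [b']), ?_, ?_, ?_⟩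
      · intro z hz
        simp only [List.mem_cons, List.mem_append, List.not_mem_nil, or_false] at hz
        rcases hz with rfl | hz | rfl
        · exact ha'
        · exact hQ' (hN z hz)
        · exact hb'
      · rw [List.pairwise_cons, List.pairwise_append]
        refine ⟨?_, pN, by simp, ?_⟩
        · intro z hz
          simp only [List.mem_append, List.mem_singleton] at hz
          rcases hz with hz | rfl
          · exact (hw z (hN z hz)).1.lt
          · exact (hw p hp).1.lt.trans (hw p hp).2.lt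
        · intro z hz m hm
          simp only [List.mem_singleton] at hm
          subst hm
          exact (hw z (hN z hz)).2.lt
      · have e : alt (c + 1) π ++ (alt (c + 1) (!π)).reverse =
            π :: ((alt c (!π) ++ (alt c (!(!π))).reverse) ++ [!π]) := by
          simp [alt]
        rw [e]
        refine List.Forall₂.cons ⟨d1, by omega, Or.inl ⟨(hw p hp).1, s3⟩⟩ ?_
        apply List.rel_append fN
        exact List.Forall₂.cons ⟨d2, by omega, Or.inr ⟨(hw p hp).2, s4⟩⟩ List.Forall₂.nil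

theorem sublist_sort {L : List ℕ} {I : Finset ℕ} (h1 : L.Pairwise (· > ·)) (h2 : ∀ l ∈ L, l ∈ I) :
    L.Sublist (I.sort (· ≥ ·)) := by
  have hnd : L.Nodup := h1.imp (fun h => ne_of_gt h)
  have hsp : List.Subperm L (I.sort (· ≥ ·)) :=
    hnd.subperm (fun l hl => by rw [mem_sort]; exact h2 l hl)
  refine List.sublist_of_subperm_of_pairwise hsp (h1.imp (fun h => le_of_lt h)) ?_
  exact pairwise_sort _ _

/-- the alternating list of words -/
theorem exists_alternating {x : ℕ → ℤ} {I : Finset ℕ} {c : ℕ} {π : Bool} (hR : Rich x c π I)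
    {Q : Finset ℕ} (hE : Emb (I.sort (· ≥ ·)) Q) :
    ∃ u ∈ I, ∃ p ∈ Q, ∃ q ∈ Q, Top u p q ∧ ∃ zs : List ℕ, (∀ z ∈ zs, z ∈ Q) ∧ zs.Pairwise (· < ·) ∧
      ∃ s, List.Forall₂ (fun z s => Rel x u p z s ∨ Rel x u q z s) zs (alt (6 * c) s) := by
  obtain ⟨u, hu, hc⟩ := hR
  obtain ⟨Ul, hU1, hU2, hU3⟩ := upper_part x I u c π u u le_rfl hc
  obtain ⟨Dl, hD1, hD2, hD3⟩ := lower_part x I u c π u u le_rfl hc
  have hsub : (Ul ++ (u :: Dl)).Sublist (I.sort (· ≥ ·)) := by
    apply sublist_sort
    · rw [List.pairwise_append, List.pairwise_cons]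
      refine ⟨hU1, ⟨fun l hl => (hD2 l hl).2, hD1⟩, ?_⟩
      intro l hl m hm
      have h1 := (hU2 l hl).2
      simp only [List.mem_cons] at hm
      rcases hm with rfl | hm
      · exact h1
      · have := (hD2 m hm).2
        omega
    · intro l hl
      simp only [List.mem_append, List.mem_cons] at hl
      rcases hl with hl | rfl | hl
      · exact (hU2 l hl).1
      · exact hu
      · exact (hD2 l hl).1
  have hE' := emb_sublist hsub hE
  obtain ⟨A, B, Q', hQ', hE2, hA, hB, pA, pB, lA, lB, fA, fB⟩ := hU3 _ _ hE'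
  obtain ⟨Q0, h0, Q1, h1, ht, e0, e1⟩ := hE2
  obtain ⟨p, hp, N0, hN0, pN0, fN0⟩ := hD3 Q0 e0
  obtain ⟨q, hq, N1, hN1, pN1, fN1⟩ := hD3 Q1 e1
  refine ⟨u, hu, p, hQ' (h0 hp), q, hQ' (h1 hq), ht p hp q hq, A ++ (N0 ++ (N1 ++ B)), ?_, ?_,
    fl c π, ?_⟩
  · intro z hz
    simp only [List.mem_append] at hz
    rcases hz with hz | hz | hz | hz
    · exact hA z hz
    · exact hQ' (h0 (hN0 z hz))
    · exact hQ' (h1 (hN1 z hz))
    · exact hB z hz
  · rw [List.pairwise_append, List.pairwise_append, List.pairwise_append]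
    refine ⟨pA, ⟨pN0, ⟨pN1, pB, ?_⟩, ?_⟩, ?_⟩
    · intro z hz w hw
      exact lB w hw z (h1 (hN1 z hz))
    · intro z hz w hw
      simp only [List.mem_append] at hw
      rcases hw with hw | hw
      · exact (ht z (hN0 z hz) w (hN1 w hw)).lt
      · exact lB w hw z (h0 (hN0 z hz))
    · intro z hz w hw
      simp only [List.mem_append] at hw
      rcases hw with hw | hw | hw
      · exact lA z hz w (h0 (hN0 w hw))
      · exact lA z hz w (h1 (hN1 w hw))
      · exact (lA z hz p (h0 hp)).trans (lB w hw p (h0 hp))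
  · have e : alt (6 * c) (fl c π) = (alt c (!π)).reverse ++ ((alt c π ++ (alt c (!π)).reverse) ++
        ((alt c π ++ (alt c (!π)).reverse) ++ alt c π)) := by
      rw [alt_reverse, Bool.not_not]
      have h6 : 6 * c = c + ((c + c) + ((c + c) + c)) := by ring
      rw [h6]
      rw [alt_add c, fl_fl]
      rw [alt_add (c + c), alt_add c c]
      have h7 : fl (c + c) π = π := by
        have key : ∀ n m s, fl (n + m) s = fl m (fl n s) := by
          intro n
          induction n with
          | zero => intro m s; simp [fl]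
          | succ n ih => intro m s; rw [Nat.succ_add]; simp only [fl]; rw [ih]
        rw [key, fl_fl]
      rw [h7, alt_add (c + c) c, alt_add c c, h7]
    rw [e]
    apply List.rel_append
    · exact (fA p (h0 hp)).imp (fun _ _ h => Or.inl h)
    · apply List.rel_append
      · exact fN0.imp (fun _ _ h => Or.inl h)
      · apply List.rel_append
        · exact fN1.imp (fun _ _ h => Or.inr h)
        · exact (fB p (h0 hp)).imp (fun _ _ h => Or.inl h)

end Pool.Agent.H595K
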