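import Mathlib
import Pool.Agent.H595K.Emb
import Pool.Agent.H595K.Chg
import Pool.Agent.H595K.MonoComp

/-!
# The points of binary words
-/

namespace Pool.Agent.H595K

open Finset

theorem Top.testBit {l w w' : ℕ} (h : Top l w w') {e : ℕ} (he : l < e) :
    w.testBit e = w'.testBit e := by
  have h1 := h.1
  have h2 : (w / 2 ^ (l + 1)).testBit (e - (l + 1)) = (w' / 2 ^ (l + 1)).testBit (e - (l + 1)) := by
    rw [h1]
  rw [Nat.testBit_div_two_pow, Nat.testBit_div_two_pow] at h2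
  have h3 : l + 1 + (e - (l + 1)) = e := by omega
  have h4 : e - (l + 1) + (l + 1) = e := by omega
  first
    | rwa [h3] at h2
    | rwa [h4] at h2

theorem Top.lt_of_lt {l w w' t : ℕ} (h : Top l w w') (hw : w' < 2 ^ t) : l < t := by
  by_contra hc
  have h1 : w' < 2 ^ l := lt_of_lt_of_le hw (Nat.pow_le_pow_right (by norm_num) (not_lt.1 hc))
  have := Nat.testBit_lt_two_pow h1
  rw [h.2.2] at this
  exact absurd this (by simp)

theorem exists_top {t w w' : ℕ} (h : w < w') (hw : w' < 2 ^ t) : ∃ l < t, Top l w w' := by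
  classical
  set l := Nat.findGreatest (fun l => w / 2 ^ l ≠ w' / 2 ^ l) t with hl
  have h0 : w / 2 ^ 0 ≠ w' / 2 ^ 0 := by simp; omega
  have h1 : w / 2 ^ l ≠ w' / 2 ^ l :=
    Nat.findGreatest_spec (P := fun l => w / 2 ^ l ≠ w' / 2 ^ l) (Nat.zero_le t) h0
  have ht : w / 2 ^ t = w' / 2 ^ t := by
    rw [Nat.div_eq_of_lt hw, Nat.div_eq_of_lt (h.trans hw)]
  have hlt : l ≤ t := Nat.findGreatest_le _
  have hlt' : l < t := by
    rcases Nat.lt_or_eq_of_le hlt with h2 | h2
    · exact h2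
    · rw [h2] at h1; exact absurd ht h1
  have h2 : w / 2 ^ (l + 1) = w' / 2 ^ (l + 1) := by
    by_contra h3
    have : ¬ (w / 2 ^ (l + 1) ≠ w' / 2 ^ (l + 1)) :=
      Nat.findGreatest_is_greatest (P := fun l => w / 2 ^ l ≠ w' / 2 ^ l) (n := t) (by omega)
        (by omega)
    exact this h3
  refine ⟨l, hlt', h2, ?_, ?_⟩
  · rw [testBit_eq]
    rw [div_succ, div_succ] at h2
    have h3 : w / 2 ^ l ≤ w' / 2 ^ l := Nat.div_le_div_right h.le
    have : ¬ (w / 2 ^ l % 2 = 1) := by omega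
    simp [this]
  · rw [testBit_eq]
    rw [div_succ, div_succ] at h2
    have h3 : w / 2 ^ l ≤ w' / 2 ^ l := Nat.div_le_div_right h.le
    have : w' / 2 ^ l % 2 = 1 := by omega
    simp [this]

theorem F_lin (x : ℕ → ℝ) (B θ : ℝ) (t w : ℕ) : F (fun e => (x e - θ) * B ^ e) t w =
    F (fun e => x e * B ^ e) t w - θ * F (fun e => B ^ e) t w := by
  induction t with
  | zero => simp [F]
  | succ t ih =>
    simp only [F]
    rw [ih]
    split_ifs <;> ring

theorem F_diff_le (c : ℕ → ℝ) (t w w' : ℕ) : |F c t w' - F c t w| ≤ ∑ e ∈ range t, |c e| := by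
  induction t with
  | zero => simp [F]
  | succ t ih =>
    rw [sum_range_succ]
    simp only [F]
    have h1 := abs_nonneg (c t)
    have h2 := le_abs_self (c t)
    have h3 := neg_abs_le (c t)
    obtain ⟨h4, h5⟩ := abs_le.1 ih
    rw [abs_le]
    split_ifs <;> constructor <;> linarith

theorem F_top (c : ℕ → ℝ) {l w w' : ℕ} (h : Top l w w') {t : ℕ} (ht : l < t) :
    |F c t w' - F c t w - c l| ≤ ∑ e ∈ range l, |c e| := by
  induction t, ht using Nat.le_induction with
  | base =>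
    have h1 : F c (l + 1) w' = F c l w' + c l := by simp [F, h.2.2]
    have h2 : F c (l + 1) w = F c l w := by simp [F, h.2.1]
    show |F c (l + 1) w' - F c (l + 1) w - c l| ≤ _
    rw [h1, h2]
    have := F_diff_le c l w w'
    rwa [show F c l w' + c l - F c l w - c l = F c l w' - F c l w by ring]
  | succ t ht ih =>
    have h1 := h.testBit (show l < t by omega)
    have e : F c (t + 1) w' - F c (t + 1) w - c l = F c t w' - F c t w - c l := by
      simp only [F]
      rw [h1]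
      ring
    rw [e]
    exact ih

/-- first coordinate of the point of the word `w` -/
noncomputable def PX (B : ℝ) (t w : ℕ) : ℝ := F (fun e => B ^ e) t w

/-- second coordinate of the point of the word `w` -/
noncomputable def PY (M : ℕ) (B : ℝ) (t w : ℕ) : ℝ := F (fun e => (lab M e : ℝ) * B ^ e) t w

section
variable {M t : ℕ} {B : ℝ}

theorem slope (hM : 2 ≤ M) (hB : 4 * (t : ℝ) + 3 < B) {l w w' : ℕ} (h : Top l w w') (hl : l < t) :
    0 < PX B t w' - PX B t w ∧
    |(PY M B t w' - PY M B t w) - (lab M l : ℝ) * (PX B t w' - PX B t w)| <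
      (PX B t w' - PX B t w) / 2 := by
  have ht0 : (0 : ℝ) ≤ t := Nat.cast_nonneg t
  have hB0 : 0 < B := by linarith
  set G := ∑ e ∈ range l, B ^ e with hG
  have hG0 : 0 ≤ G := Finset.sum_nonneg (fun e _ => (pow_pos hB0 e).le)
  have hGB : (B - 1) * G = B ^ l - 1 := by
    rw [hG, mul_comm]; exact geom_sum_mul B l
  have h1 := F_top (fun e => B ^ e) h hl
  have h1' : ∑ e ∈ range l, |B ^ e| = G := by
    rw [hG]
    apply Finset.sum_congr rfl
    intro e _
    rw [abs_of_pos (pow_pos hB0 e)]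
  rw [h1'] at h1
  set D := PX B t w' - PX B t w with hD
  have hD1 : |D - B ^ l| ≤ G := h1
  have hD2 : B ^ l - G ≤ D := by
    have := (abs_le.1 hD1).1; linarith
  have hD3 : (4 * t) * G < D := by
    have h3 : (4 * (t : ℝ)) * G ≤ (B - 2) * G := mul_le_mul_of_nonneg_right (by linarith) hG0
    have h4 : (B - 2) * G = B ^ l - 1 - G := by linarith
    linarith
  have h2 := F_top (fun e => ((lab M e : ℝ) - (lab M l : ℝ)) * B ^ e) h hl
  rw [F_lin (fun e => (lab M e : ℝ)), F_lin (fun e => (lab M e : ℝ))] at h2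
  have h3 : ∑ e ∈ range l, |((lab M e : ℝ) - (lab M l : ℝ)) * B ^ e| ≤ (2 * t) * G := by
    rw [hG, Finset.mul_sum]
    apply Finset.sum_le_sum
    intro e he
    have he' := Finset.mem_range.1 he
    rw [abs_mul, abs_of_pos (pow_pos hB0 e)]
    apply mul_le_mul_of_nonneg_right _ (pow_pos hB0 e).le
    have h4 : |(lab M e : ℝ)| ≤ e := by exact_mod_cast lab_abs_le hM e
    have h5 : |(lab M l : ℝ)| ≤ l := by exact_mod_cast lab_abs_le hM l
    have h6 : (e : ℝ) ≤ t := by exact_mod_cast (by omega : e ≤ t)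
    have h7 : (l : ℝ) ≤ t := by exact_mod_cast (by omega : l ≤ t)
    calc |(lab M e : ℝ) - (lab M l : ℝ)| ≤ |(lab M e : ℝ)| + |(lab M l : ℝ)| := abs_sub _ _
      _ ≤ 2 * t := by linarith
  have h4 := h2.trans h3
  have e1 : F (fun e => (lab M e : ℝ) * B ^ e) t w' - (lab M l : ℝ) * F (fun e => B ^ e) t w' -
      (F (fun e => (lab M e : ℝ) * B ^ e) t w - (lab M l : ℝ) * F (fun e => B ^ e) t w) -
      ((lab M l : ℝ) - (lab M l : ℝ)) * B ^ l =
      (PY M B t w' - PY M B t w) - (lab M l : ℝ) * D := by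
    rw [hD]; unfold PX PY; ring
  rw [e1] at h4
  refine ⟨?_, ?_⟩
  · have : 0 ≤ (4 * t) * G := by positivity
    linarith
  · refine lt_of_le_of_lt h4 ?_
    linarith

theorem slope_le (hM : 2 ≤ M) (hB : 4 * (t : ℝ) + 3 < B) {w w' : ℕ} (h : w < w')
    (hw : w' < 2 ^ t) : 0 < PX B t w' - PX B t w ∧
    |PY M B t w' - PY M B t w| < t * (PX B t w' - PX B t w) := by
  obtain ⟨l, hl, htop⟩ := exists_top h hw
  obtain ⟨h1, h2⟩ := slope hM hB htop hl
  refine ⟨h1, ?_⟩
  set D := PX B t w' - PX B t w with hD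
  have h5 : |(lab M l : ℝ)| ≤ l := by exact_mod_cast lab_abs_le hM l
  have h6 : (l : ℝ) + 1 ≤ t := by exact_mod_cast hl
  have h7 : |(lab M l : ℝ) * D| ≤ (t - 1) * D := by
    rw [abs_mul, abs_of_pos h1]
    apply mul_le_mul_of_nonneg_right _ h1.le
    linarith
  have h8 : |PY M B t w' - PY M B t w| ≤
      |(PY M B t w' - PY M B t w) - (lab M l : ℝ) * D| + |(lab M l : ℝ) * D| := by
    have := abs_add_le ((PY M B t w' - PY M B t w) - (lab M l : ℝ) * D) ((lab M l : ℝ) * D)
    rwa [sub_add_cancel] at this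
  have h9 : (t - 1) * D = t * D - D := by ring
  linarith

theorem side (hM : 2 ≤ M) (hB : 4 * (t : ℝ) + 3 < B) {u w z : ℕ} {s : Bool}
    (hw : w < 2 ^ t) (hz : z < 2 ^ t) (h : Rel (lab M) u w z s) {θ : ℝ}
    (hθ : |θ - (lab M u : ℝ)| < 1 / 2) :
    (PY M B t z - PY M B t w) - θ * (PX B t z - PX B t w) ≠ 0 ∧
      decide (0 < (PY M B t z - PY M B t w) - θ * (PX B t z - PX B t w)) = s := by
  obtain ⟨l, hlu, h⟩ := h
  have hne : lab M u ≠ lab M l := fun h' => hlu (lab_inj hM _ _ h').symm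
  obtain ⟨hθ1, hθ2⟩ := abs_lt.1 hθ
  have key : ∀ (D N : ℝ), 0 < D → |N - (lab M l : ℝ) * D| < D / 2 →
      (lab M u < lab M l → 0 < N - θ * D) ∧ (¬ lab M u < lab M l → N - θ * D < 0) := by
    intro D N hD hN
    obtain ⟨h1, h2⟩ := abs_lt.1 hN
    constructor
    · intro h3
      have h4 : (lab M u : ℝ) + 1 ≤ lab M l := by exact_mod_cast h3
      have h5 : θ * D ≤ ((lab M u : ℝ) + 1 / 2) * D := mul_le_mul_of_nonneg_right (by linarith) hD.le
      have h6 : ((lab M u : ℝ) + 1) * D ≤ (lab M l : ℝ) * D := mul_le_mul_of_nonneg_right h4 hD.le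
      have h7 : ((lab M u : ℝ) + 1) * D = ((lab M u : ℝ) + 1 / 2) * D + D / 2 := by ring
      linarith
    · intro h3
      have h4' : lab M l < lab M u := lt_of_le_of_ne (not_lt.1 h3) hne.symm
      have h4 : (lab M l : ℝ) + 1 ≤ lab M u := by exact_mod_cast h4'
      have h5 : ((lab M u : ℝ) - 1 / 2) * D ≤ θ * D := mul_le_mul_of_nonneg_right (by linarith) hD.le
      have h6 : (lab M l : ℝ) * D ≤ ((lab M u : ℝ) - 1) * D :=
        mul_le_mul_of_nonneg_right (by linarith) hD.le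
      have h7 : ((lab M u : ℝ) - 1) * D = ((lab M u : ℝ) - 1 / 2) * D - D / 2 := by ring
      linarith
  rcases h with ⟨h1, h2⟩ | ⟨h1, h2⟩
  · obtain ⟨h3, h4⟩ := slope hM hB h1 (h1.lt_of_lt hw)
    obtain ⟨k1, k2⟩ := key _ _ h3 h4
    have e : (PY M B t z - PY M B t w) - θ * (PX B t z - PX B t w) =
        -((PY M B t w - PY M B t z) - θ * (PX B t w - PX B t z)) := by ring
    rw [e]
    by_cases h5 : lab M u < lab M l
    · have h6 := k1 h5
      rw [decide_eq_true h5] at h2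
      have hs : s = false := by cases s <;> simp_all
      refine ⟨by linarith [neg_lt_zero.2 h6] |> fun (h : _ < (0:ℝ)) => h.ne, ?_⟩
      rw [hs]
      simp only [decide_eq_false_iff_not, not_lt]
      linarith
    · have h6 := k2 h5
      rw [decide_eq_false h5] at h2
      have hs : s = true := by cases s <;> simp_all
      have h7 : 0 < -((PY M B t w - PY M B t z) - θ * (PX B t w - PX B t z)) := by linarith
      refine ⟨h7.ne', ?_⟩
      rw [hs]
      simp only [decide_eq_true_eq]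
      exact h7
  · obtain ⟨h3, h4⟩ := slope hM hB h1 (h1.lt_of_lt hz)
    obtain ⟨k1, k2⟩ := key _ _ h3 h4
    by_cases h5 : lab M u < lab M l
    · have h6 := k1 h5
      rw [decide_eq_true h5] at h2
      refine ⟨h6.ne', ?_⟩
      rw [← h2]
      simp only [decide_eq_true_eq]
      exact h6
    · have h6 := k2 h5
      rw [decide_eq_false h5] at h2
      refine ⟨h6.ne, ?_⟩
      rw [← h2]
      simp only [decide_eq_false_iff_not, not_lt]
      exact h6.le

/-- bound for the first coordinates -/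
noncomputable def SS (B : ℝ) (t : ℕ) : ℝ := ∑ e ∈ range t, B ^ e

theorem PX_bounds (hB : 4 * (t : ℝ) + 3 < B) (w : ℕ) : 0 ≤ PX B t w ∧ PX B t w ≤ SS B t := by
  have ht0 : (0 : ℝ) ≤ t := Nat.cast_nonneg t
  have hB0 : 0 < B := by linarith
  obtain ⟨h1, h2⟩ := F_bounds (fun e => B ^ e) t w
  have e1 : ∑ e ∈ range t, min (B ^ e) 0 = 0 :=
    Finset.sum_eq_zero (fun e _ => min_eq_right (pow_pos hB0 e).le)
  have e2 : ∑ e ∈ range t, max (B ^ e) 0 = SS B t :=
    Finset.sum_congr rfl (fun e _ => max_eq_left (pow_pos hB0 e).le)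
  rw [e1] at h1
  rw [e2] at h2
  exact ⟨h1, h2⟩

theorem F_zero (c : ℕ → ℝ) (t : ℕ) : F c t 0 = 0 := by
  induction t with
  | zero => rfl
  | succ t ih => simp [F, ih]

theorem PY_bounds (hM : 2 ≤ M) (hB : 4 * (t : ℝ) + 3 < B) {w : ℕ} (hw : w < 2 ^ t) :
    |PY M B t w| ≤ t * SS B t := by
  have ht0 : (0 : ℝ) ≤ t := Nat.cast_nonneg t
  obtain ⟨h3, h4⟩ := PX_bounds hB w
  have h5 : PY M B t 0 = 0 := F_zero _ t
  have h6 : PX B t 0 = 0 := F_zero _ t
  have h7 : t * PX B t w ≤ t * SS B t := mul_le_mul_of_nonneg_left h4 ht0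
  rcases Nat.eq_zero_or_pos w with h | h
  · rw [h, h5, abs_zero]
    exact mul_nonneg ht0 (h3.trans h4)
  · obtain ⟨h1, h2⟩ := slope_le hM hB h hw
    rw [h5, h6, sub_zero, sub_zero] at h2
    linarith

end

end Pool.Agent.H595K
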