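import Mathlib
import Pool.Agent.H595K.Geo

/-!
# The polygon through the points of binary words
-/

namespace Pool.Agent.H595K

open Finset Vis124

theorem alt_eq_map (n : ℕ) : ∀ s, (List.range n).map (fun i => if i % 2 = 0 then s else !s) =
    alt n s := by
  induction n with
  | zero => intro s; rfl
  | succ n ih =>
    intro s
    rw [List.range_succ_eq_map, List.map_cons, List.map_map]
    simp only [alt]
    rw [← ih (!s)]
    congr 1
    apply List.map_congr_left
    intro i _
    simp only [Function.comp]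
    rcases Nat.mod_two_eq_zero_or_one i with h | h
    · rw [if_neg (by omega), if_pos h]
    · rw [if_pos (by omega), if_neg (by omega), Bool.not_not]

theorem ch_alt (n : ℕ) : ∀ s, ch (alt (n + 1) s) = n := by
  induction n with
  | zero => intro s; rfl
  | succ n ih =>
    intro s
    have e : alt (n + 1 + 1) s = s :: (!s) :: alt n (!!s) := rfl
    have e2 : alt (n + 1) (!s) = (!s) :: alt n (!!s) := rfl
    rw [e, ch_cons_cons, ← e2, ih]
    cases s <;> simp <;> omega

theorem fl_odd (n : ℕ) : ∀ s, fl (2 * n + 1) s = !s := by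
  induction n with
  | zero => intro s; rfl
  | succ n ih =>
    intro s
    have e : fl (2 * (n + 1) + 1) s = fl (2 * n + 1) (!!s) := rfl
    rw [e, Bool.not_not, ih]

theorem sublist_range {L : List ℕ} {m : ℕ} (h1 : L.Pairwise (· < ·)) (h2 : ∀ l ∈ L, l < m) :
    L.Sublist (List.range m) := by
  have hnd : L.Nodup := h1.imp (fun h => ne_of_lt h)
  have hsp : List.Subperm L (List.range m) :=
    hnd.subperm (fun l hl => by rw [List.mem_range]; exact h2 l hl)
  refine List.sublist_of_subperm_of_pairwise hsp (h1.imp (fun h => le_of_lt h)) ?_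
  exact List.pairwise_le_range

/-- depth of the base points -/
noncomputable def DD (B : ℝ) (t : ℕ) : ℝ := (2 * t + 2) * (SS B t + 1)

/-- first coordinates of the vertices -/
noncomputable def VX (B : ℝ) (t N : ℕ) (i : ℕ) : ℝ :=
  if i = 0 then -1 else if i ≤ N then PX B t (i - 1) else SS B t + 1

/-- second coordinates of the vertices -/
noncomputable def VY (M : ℕ) (B : ℝ) (t N : ℕ) (i : ℕ) : ℝ :=
  if i = 0 then -DD B t else if i ≤ N then PY M B t (i - 1) else -DD B t

section
variable {M t N : ℕ} {B : ℝ}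

theorem VX_zero : VX B t N 0 = -1 := by simp [VX]
theorem VY_zero : VY M B t N 0 = -DD B t := by simp [VY]
theorem VX_last : VX B t N (N + 1) = SS B t + 1 := by simp [VX]
theorem VY_last : VY M B t N (N + 1) = -DD B t := by simp [VY]
theorem VX_word {i : ℕ} (h0 : 0 < i) (h : i ≤ N) : VX B t N i = PX B t (i - 1) := by
  simp [VX, h, h0.ne']
theorem VY_word {i : ℕ} (h0 : 0 < i) (h : i ≤ N) : VY M B t N i = PY M B t (i - 1) := by
  simp [VY, h, h0.ne']

theorem SS_nonneg (hB : 4 * (t : ℝ) + 3 < B) : 0 ≤ SS B t :=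
  (PX_bounds hB 0).1.trans (PX_bounds hB 0).2

theorem deep (hM : 2 ≤ M) (hB : 4 * (t : ℝ) + 3 < B) {w : ℕ} (hw : w < 2 ^ t) :
    (t + 1) * (SS B t + 1) < PY M B t w + DD B t := by
  have h1 := (abs_le.1 (PY_bounds hM hB hw)).1
  have h2 := SS_nonneg hB
  have ht0 : (0 : ℝ) ≤ t := Nat.cast_nonneg t
  unfold DD
  nlinarith

theorem monoPoly (hM : 2 ≤ M) (hB : 4 * (t : ℝ) + 3 < B) (hN : 1 ≤ N) (hN2 : N ≤ 2 ^ t) :
    MonoPoly (VX B t N) (VY M B t N) (N + 1) := by
  have hS := SS_nonneg hB
  have ht0 : (0 : ℝ) ≤ t := Nat.cast_nonneg t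
  refine ⟨by omega, ?_, ?_, ?_⟩
  · intro i hi
    rcases Nat.eq_zero_or_pos i with h0 | h0
    · subst h0
      rw [VX_zero, VX_word (by omega) hN]
      have := (PX_bounds hB (0 + 1 - 1)).1
      linarith
    · rcases Nat.lt_or_ge i N with h1 | h1
      · rw [VX_word h0 h1.le, VX_word (by omega) h1]
        have := (slope_le hM hB (show i - 1 < i + 1 - 1 by omega) (by omega)).1
        linarith
      · have h2 : i = N := by omega
        subst h2
        rw [VX_last, VX_word h0 le_rfl]
        have := (PX_bounds hB (i - 1)).2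
        linarith
  · rw [VY_last, VY_zero]
  · intro i h0 hi
    rw [VY_zero, VY_word h0 (by omega)]
    have := deep hM hB (show i - 1 < 2 ^ t by omega)
    have : 0 ≤ (t + 1) * (SS B t + 1) := by positivity
    linarith

theorem no_alt {h : ℕ} (hM : 2 ≤ M) (hh : 1 ≤ h) (ht0 : 1 ≤ t) (ht : t ≤ M ^ h)
    (hB : 4 * (t : ℝ) + 3 < B) (hN2 : N ≤ 2 ^ t) (θ β : ℝ) :
    ¬ ∃ g : ℕ → ℕ, (∀ i, i < 2 * (3 * h) → g i < g (i + 1)) ∧
      (∀ i, i ≤ 2 * (3 * h) → g i ≤ N + 1) ∧
      ∀ i, i ≤ 2 * (3 * h) →
        (0 ≤ VY M B t N (g i) - θ * VX B t N (g i) - β ↔ i % 2 = 0) := by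
  rintro ⟨g, hg1, hg2, hg3⟩
  have hS := SS_nonneg hB
  have htr : (0 : ℝ) ≤ t := Nat.cast_nonneg t
  have hword : ∀ i, 0 < g i → g i ≤ N → i ≤ 2 * (3 * h) →
      (0 ≤ PY M B t (g i - 1) - θ * PX B t (g i - 1) - β ↔ i % 2 = 0) := by
    intro i h1 h2 h3
    have := hg3 i h3
    rwa [VX_word h1 h2, VY_word h1 h2] at this
  have g01 := hg1 0 (by omega)
  have g12 := hg1 1 (by omega)
  have g23 := hg1 2 (by omega)
  have g34 := hg1 3 (by omega)
  have g4 := hg2 4 (by omega)
  norm_num at g01 g12 g23 g34
  by_cases hbase : (0 ≤ -DD B t - θ * (-1) - β) ∨ (0 ≤ -DD B t - θ * (SS B t + 1) - β)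
  · rcases le_or_gt (|θ|) (t + 1) with hθ | hθ
    · obtain ⟨hθ1, hθ2⟩ := abs_le.1 hθ
      have h1 := hword 1 (by omega) (by omega) (by omega)
      have hw : g 1 - 1 < 2 ^ t := by omega
      obtain ⟨h2, h3⟩ := PX_bounds hB (g 1 - 1)
      have h4 := deep hM hB hw
      have h5 : ¬ (0 ≤ PY M B t (g 1 - 1) - θ * PX B t (g 1 - 1) - β) := by
        rw [h1]; omega
      apply h5
      rcases hbase with hb | hb
      · nlinarith
      · nlinarith
    · have h1 := hword 1 (by omega) (by omega) (by omega)
      have h2 := hword 2 (by omega) (by omega) (by omega)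
      have h3 := hword 3 (by omega) (by omega) (by omega)
      obtain ⟨k1, k2⟩ := slope_le (M := M) hM hB (show g 1 - 1 < g 2 - 1 by omega) (by omega)
      obtain ⟨k3, k4⟩ := slope_le (M := M) hM hB (show g 2 - 1 < g 3 - 1 by omega) (by omega)
      have h1' : ¬ (0 ≤ PY M B t (g 1 - 1) - θ * PX B t (g 1 - 1) - β) := by
        rw [h1]; omega
      have h2' : 0 ≤ PY M B t (g 2 - 1) - θ * PX B t (g 2 - 1) - β := h2.2 rfl
      have h3' : ¬ (0 ≤ PY M B t (g 3 - 1) - θ * PX B t (g 3 - 1) - β) := by
        rw [h3]; omega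
      obtain ⟨k5, k6⟩ := abs_lt.1 k2
      obtain ⟨k7, k8⟩ := abs_lt.1 k4
      rcases lt_abs.1 hθ with h4 | h4
      · have h5 : (t : ℝ) * (PX B t (g 2 - 1) - PX B t (g 1 - 1)) ≤
            θ * (PX B t (g 2 - 1) - PX B t (g 1 - 1)) :=
          mul_le_mul_of_nonneg_right (by linarith) k1.le
        apply h1'
        linarith
      · have h5 : θ * (PX B t (g 3 - 1) - PX B t (g 2 - 1)) ≤
            (-t) * (PX B t (g 3 - 1) - PX B t (g 2 - 1)) :=
          mul_le_mul_of_nonneg_right (by linarith) k3.le
        apply h3'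
        linarith
  · push Not at hbase
    obtain ⟨hb0, hb1⟩ := hbase
    have hmono : ∀ i j, i < j → j ≤ 2 * (3 * h) → g i < g j := by
      intro i j hij
      induction j, hij using Nat.le_induction with
      | base => intro hj; exact hg1 i (by omega)
      | succ j _ ih => intro hj; exact (ih (by omega)).trans (hg1 j (by omega))
    have hpos : ∀ i, i ≤ 2 * (3 * h) → 0 < g i := by
      intro i hi
      have h0 : 0 < g 0 := by
        by_contra hc
        have h1 : g 0 = 0 := by omega
        have h2 := (hg3 0 (by omega)).2 rfl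
        rw [h1, VX_zero, VY_zero] at h2
        linarith
      rcases Nat.eq_zero_or_pos i with h1 | h1
      · rw [h1]; exact h0
      · exact h0.trans (hmono 0 i h1 hi)
    have hle : ∀ i, i ≤ 2 * (3 * h) → g i ≤ N := by
      intro i hi
      have h0 : g (2 * (3 * h)) ≤ N := by
        by_contra hc
        have h1 : g (2 * (3 * h)) = N + 1 := by
          have := hg2 (2 * (3 * h)) le_rfl
          omega
        have h2 := (hg3 (2 * (3 * h)) le_rfl).2 (by omega)
        rw [h1, VX_last, VY_last] at h2
        linarith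
      rcases Nat.lt_or_eq_of_le hi with h1 | h1
      · exact (hmono i _ h1 le_rfl).le.trans h0
      · rw [h1]; exact h0
    set c : ℕ → ℝ := fun e => ((lab M e : ℝ) - θ) * B ^ e with hc
    have hF : ∀ w, F c t w = PY M B t w - θ * PX B t w := fun w => F_lin _ B θ t w
    set ws : List ℕ := (List.range (6 * h + 1)).map (fun i => g i - 1) with hws
    have hws1 : ws.Pairwise (· < ·) := by
      rw [hws, List.pairwise_map]
      refine List.Pairwise.imp_of_mem ?_ List.pairwise_lt_range
      intro i j hi hj hij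
      have hi' := List.mem_range.1 hi
      have hj' := List.mem_range.1 hj
      have h1 := hmono i j hij (by omega)
      have h2 := hpos i (by omega)
      omega
    have hws2 : ∀ w ∈ ws, w < 2 ^ t := by
      intro w hw
      rw [hws, List.mem_map] at hw
      obtain ⟨i, hi, rfl⟩ := hw
      have hi' := List.mem_range.1 hi
      have h1 := hle i (by omega)
      have h2 := hpos i (by omega)
      omega
    have hsub := (sublist_range hws1 hws2).map (fun w => decide (β ≤ F c t w))
    have e1 : ws.map (fun w => decide (β ≤ F c t w)) = alt (6 * h + 1) true := by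
      rw [hws, List.map_map, ← alt_eq_map]
      apply List.map_congr_left
      intro i hi
      have hi' := List.mem_range.1 hi
      have h1 := hword i (hpos i (by omega)) (hle i (by omega)) (by omega)
      simp only [Function.comp]
      rw [hF]
      rcases Nat.mod_two_eq_zero_or_one i with h2 | h2
      · rw [if_pos h2]
        have := h1.2 h2
        simp only [decide_eq_true_eq]
        linarith
      · rw [if_neg (by omega)]
        have : ¬ (0 ≤ PY M B t (g i - 1) - θ * PX B t (g i - 1) - β) := by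
          rw [h1]; omega
        simp only [Bool.not_true, decide_eq_false_iff_not, not_le]
        push Not at this
        linarith
    rw [e1] at hsub
    have hsub2 : (false :: (alt (6 * h + 1) true ++ [false])).Sublist
        (false :: (sg c t β ++ [false])) :=
      List.Sublist.cons_cons _ (hsub.append (List.Sublist.refl _))
    have h1 := ch_sublist hsub2
    have h2 : ch (false :: (sg c t β ++ [false])) ≤ 6 * h := ch_signs hM hh ht0 ht θ β B hB
    have e2 : (false :: (alt (6 * h + 1) true ++ [false])) = alt (6 * h + 2 + 1) false := by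
      have e3 : alt (6 * h + 2 + 1) false = false :: alt (6 * h + 1 + 1) true := rfl
      rw [e3, alt_add (6 * h + 1) 1 true]
      have e4 : 6 * h + 1 = 2 * (3 * h) + 1 := by ring
      rw [e4, fl_odd]
      rfl
    rw [e2, ch_alt] at h1
    omega

/-- twice the signed area of the triangle of three vertices -/
noncomputable def det3 (M : ℕ) (B : ℝ) (t N i j k : ℕ) : ℝ :=
  (VX B t N j - VX B t N i) * (VY M B t N k - VY M B t N i) -
    (VX B t N k - VX B t N i) * (VY M B t N j - VY M B t N i)

theorem det3_ne (hM : 2 ≤ M) (hB : 4 * (t : ℝ) + 3 < B) (hN2 : N ≤ 2 ^ t) {i j k : ℕ}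
    (hij : i < j) (hjk : j < k) (hk : k ≤ N + 1) : det3 M B t N i j k ≠ 0 := by
  have hS := SS_nonneg hB
  have htr : (0 : ℝ) ≤ t := Nat.cast_nonneg t
  unfold det3
  have hj0 : 0 < j := by omega
  have hjN : j ≤ N := by omega
  rw [VX_word hj0 hjN, VY_word hj0 hjN]
  obtain ⟨hj1, hj2⟩ := PX_bounds hB (j - 1)
  have hj3 := deep hM hB (show j - 1 < 2 ^ t by omega)
  rcases Nat.eq_zero_or_pos i with hi | hi
  · subst hi
    rw [VX_zero, VY_zero]
    rcases Nat.lt_or_ge k (N + 1) with hk1 | hk1
    · rw [VX_word (by omega) (by omega), VY_word (by omega) (by omega)]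
      obtain ⟨h1, h2⟩ := slope_le (M := M) hM hB (show j - 1 < k - 1 by omega) (by omega)
      obtain ⟨h3, h4⟩ := abs_lt.1 h2
      set a := PX B t (j - 1) with ha
      set b := PY M B t (j - 1) with hb
      set D := PX B t (k - 1) - a with hD
      set E := PY M B t (k - 1) - b with hE
      have e : (a - -1) * (PY M B t (k - 1) - -DD B t) - (PX B t (k - 1) - -1) * (b - -DD B t) =
          (a + 1) * E - D * (b + DD B t) := by rw [hE, hD]; ring
      rw [e]
      have h5 : (a + 1) * E ≤ (SS B t + 1) * (t * D) := by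
        have h6 : (a + 1) * E ≤ (a + 1) * (t * D) := mul_le_mul_of_nonneg_left h4.le (by linarith)
        have h7 : (a + 1) * (t * D) ≤ (SS B t + 1) * (t * D) :=
          mul_le_mul_of_nonneg_right (by linarith) (mul_nonneg htr h1.le)
        linarith
      have h6 : D * ((t + 1) * (SS B t + 1)) < D * (b + DD B t) := mul_lt_mul_of_pos_left hj3 h1
      have h7 : 0 ≤ D * (SS B t + 1) := mul_nonneg h1.le (by linarith)
      have : (a + 1) * E - D * (b + DD B t) < 0 := by nlinarith
      exact this.ne
    · have hk2 : k = N + 1 := by omega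
      subst hk2
      rw [VX_last, VY_last]
      have : 0 ≤ (t + 1) * (SS B t + 1) := by positivity
      have h8 : 0 < (SS B t + 1 - -1) * (PY M B t (j - 1) - -DD B t) := by
        apply mul_pos
        · linarith
        · linarith
      have e : (PX B t (j - 1) - -1) * (-DD B t - -DD B t) -
          (SS B t + 1 - -1) * (PY M B t (j - 1) - -DD B t) =
          -((SS B t + 1 - -1) * (PY M B t (j - 1) - -DD B t)) := by ring
      rw [e]
      exact (neg_lt_zero.2 h8).ne
  · rw [VX_word hi (by omega), VY_word hi (by omega)]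
    obtain ⟨hi1, hi2⟩ := PX_bounds hB (i - 1)
    have hi3 := deep hM hB (show i - 1 < 2 ^ t by omega)
    rcases Nat.lt_or_ge k (N + 1) with hk1 | hk1
    · rw [VX_word (by omega) (by omega), VY_word (by omega) (by omega)]
      obtain ⟨l1, hl1, ht1⟩ := exists_top (t := t) (show i - 1 < j - 1 by omega) (by omega)
      obtain ⟨l2, hl2, ht2⟩ := exists_top (t := t) (show j - 1 < k - 1 by omega) (by omega)
      obtain ⟨a1, a2⟩ := slope hM hB ht1 hl1
      obtain ⟨b1, b2⟩ := slope hM hB ht2 hl2
      have hne : l1 ≠ l2 := by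
        intro hl
        have h1 := ht1.2.2
        have h2 := ht2.2.1
        rw [hl, h2] at h1
        exact absurd h1 (by simp)
      have hlab : lab M l1 ≠ lab M l2 := fun h' => hne (lab_inj hM _ _ h')
      set D1 := PX B t (j - 1) - PX B t (i - 1) with hD1
      set D2 := PX B t (k - 1) - PX B t (j - 1) with hD2
      set N1 := PY M B t (j - 1) - PY M B t (i - 1) with hN1
      set N3 := PY M B t (k - 1) - PY M B t (j - 1) with hN3
      have e : D1 * (PY M B t (k - 1) - PY M B t (i - 1)) -
          (PX B t (k - 1) - PX B t (i - 1)) * N1 = D1 * N3 - D2 * N1 := by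
        rw [hD1, hD2, hN1, hN3]; ring
      rw [e]
      obtain ⟨a3, a4⟩ := abs_lt.1 a2
      obtain ⟨b3, b4⟩ := abs_lt.1 b2
      rcases lt_or_gt_of_ne hlab with h1 | h1
      · have h2 : (lab M l1 : ℝ) + 1 ≤ lab M l2 := by exact_mod_cast h1
        have h3 : N1 < ((lab M l1 : ℝ) + 1 / 2) * D1 := by linarith
        have h4 : ((lab M l1 : ℝ) + 1 / 2) * D2 < N3 := by
          have : ((lab M l1 : ℝ) + 1) * D2 ≤ (lab M l2 : ℝ) * D2 :=
            mul_le_mul_of_nonneg_right h2 b1.le
          linarith
        have h5 := mul_lt_mul_of_pos_left h3 b1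
        have h6 := mul_lt_mul_of_pos_left h4 a1
        have : 0 < D1 * N3 - D2 * N1 := by linarith
        exact this.ne'
      · have h2 : (lab M l2 : ℝ) + 1 ≤ lab M l1 := by exact_mod_cast h1
        have h3 : ((lab M l2 : ℝ) + 1 / 2) * D1 < N1 := by
          have : ((lab M l2 : ℝ) + 1) * D1 ≤ (lab M l1 : ℝ) * D1 :=
            mul_le_mul_of_nonneg_right h2 a1.le
          linarith
        have h4 : N3 < ((lab M l2 : ℝ) + 1 / 2) * D2 := by linarith
        have h5 := mul_lt_mul_of_pos_left h3 b1
        have h6 := mul_lt_mul_of_pos_left h4 a1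
        have : D1 * N3 - D2 * N1 < 0 := by linarith
        exact this.ne
    · have hk2 : k = N + 1 := by omega
      subst hk2
      rw [VX_last, VY_last]
      obtain ⟨h1, h2⟩ := slope_le (M := M) hM hB (show i - 1 < j - 1 by omega) (by omega)
      obtain ⟨h3, h4⟩ := abs_lt.1 h2
      set a := PX B t (i - 1) with ha
      set b := PY M B t (i - 1) with hb
      set D := PX B t (j - 1) - a with hD
      set E := PY M B t (j - 1) - b with hE
      have h5 : -((SS B t + 1) * (t * D)) ≤ (SS B t + 1 - a) * E := by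
        have h6 : (SS B t + 1 - a) * (-(t * D)) ≤ (SS B t + 1 - a) * E :=
          mul_le_mul_of_nonneg_left h3.le (by linarith)
        have h7 : (SS B t + 1 - a) * (t * D) ≤ (SS B t + 1) * (t * D) :=
          mul_le_mul_of_nonneg_right (by linarith) (mul_nonneg htr h1.le)
        linarith
      have h6 : D * ((t + 1) * (SS B t + 1)) < D * (b + DD B t) := mul_lt_mul_of_pos_left hi3 h1
      have h7 : 0 ≤ D * (SS B t + 1) := mul_nonneg h1.le (by linarith)
      have : D * (-DD B t - b) - (SS B t + 1 - a) * E < 0 := by nlinarith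
      exact this.ne

end

end Pool.Agent.H595K
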