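import Mathlib
import Pool.Agent.H595K.Aff
import Pool.Agent.H595K.MonoComp
import Pool.Agent.H595K.Poly
import Pool.Agent.H595K.Tree

/-!
# Polygons from lists of points
-/

namespace Pool.Agent.H595K

open Set Vis124

/-- the shear `(x, y) ↦ (x, y + c x)` -/
noncomputable def shearY (c : ℝ) : (ℝ × ℝ) ≃L[ℝ] (ℝ × ℝ) :=
  LinearEquiv.toContinuousLinearEquiv
    { toFun := fun p => (p.1, p.2 + c * p.1)
      map_add' := by intro p q; ext <;> simp; ring
      map_smul' := by intro s p; ext <;> simp; ring
      invFun := fun p => (p.1, p.2 - c * p.1)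
      left_inv := by intro p; ext <;> simp
      right_inv := by intro p; ext <;> simp }

theorem shearY_apply (c : ℝ) (p : ℝ × ℝ) : shearY c p = (p.1, p.2 + c * p.1) := rfl

/-- the shear `(x, y) ↦ (x - c y, y)` -/
noncomputable def shearX (c : ℝ) : (ℝ × ℝ) ≃L[ℝ] (ℝ × ℝ) :=
  LinearEquiv.toContinuousLinearEquiv
    { toFun := fun p => (p.1 - c * p.2, p.2)
      map_add' := by intro p q; ext <;> simp; ring
      map_smul' := by intro s p; ext <;> simp; ring
      invFun := fun p => (p.1 + c * p.2, p.2)
      left_inv := by intro p; ext <;> simp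
      right_inv := by intro p; ext <;> simp }

theorem shearX_apply (c : ℝ) (p : ℝ × ℝ) : shearX c p = (p.1 - c * p.2, p.2) := rfl

/-- the reflection `(x, y) ↦ (x, -y)` -/
noncomputable def reflY : (ℝ × ℝ) ≃L[ℝ] (ℝ × ℝ) :=
  LinearEquiv.toContinuousLinearEquiv
    { toFun := fun p => (p.1, - p.2)
      map_add' := by intro p q; ext <;> simp; ring
      map_smul' := by intro s p; ext <;> simp
      invFun := fun p => (p.1, - p.2)
      left_inv := by intro p; ext <;> simp
      right_inv := by intro p; ext <;> simp }

theorem reflY_apply (p : ℝ × ℝ) : reflY p = (p.1, - p.2) := rfl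

theorem poly_of_seq {X Y : ℕ → ℝ} {K k : ℕ} (hK : 2 ≤ K) (hX : ∀ i, i < K → X i < X (i + 1))
    (hch : ∀ i, 0 < i → i < K → (Y K - Y 0) * (X i - X 0) < (Y i - Y 0) * (X K - X 0))
    (hk : 1 ≤ k)
    (hno : ∀ θ β : ℝ, ¬ ∃ g : ℕ → ℕ, (∀ i, i < 2 * k → g i < g (i + 1)) ∧
      (∀ i, i ≤ 2 * k → g i ≤ K) ∧
      ∀ i, i ≤ 2 * k → (0 ≤ Y (g i) - θ * X (g i) - β ↔ i % 2 = 0)) :
    ∃ S, IsSimplePolygon (pv X Y K) S ∧ IsKConvexRegion k S := by
  have hmono : ∀ i j, i < j → j ≤ K → X i < X j := by
    intro i j hij
    induction j, hij using Nat.le_induction with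
    | base => intro hj; exact hX i (by omega)
    | succ j _ ih => intro hj; exact (ih (by omega)).trans (hX j (by omega))
  have hD : 0 < X K - X 0 := by linarith [hmono 0 K (by omega) le_rfl]
  set c := (Y K - Y 0) / (X K - X 0) with hc
  have hcD : Y K - Y 0 = c * (X K - X 0) := by rw [hc]; field_simp
  set Y' : ℕ → ℝ := fun i => Y i - c * X i with hY'
  have hmp : MonoPoly X Y' K := by
    refine ⟨hK, hX, ?_, ?_⟩
    · simp only [hY']; linarith
    · intro i h0 hi
      have h1 := hch i h0 hi
      rw [hcD] at h1
      have h2 : (c * (X i - X 0)) * (X K - X 0) < (Y i - Y 0) * (X K - X 0) := by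
        have : c * (X K - X 0) * (X i - X 0) = (c * (X i - X 0)) * (X K - X 0) := by ring
        linarith
      have h3 := lt_of_mul_lt_mul_right h2 hD.le
      simp only [hY']; linarith
  refine ⟨shearY c '' reg X Y' K, ?_, ?_⟩
  · have h1 := isSimplePolygon_map (shearY c) hmp.isSimplePolygon
    have h2 : (fun i => shearY c (pv X Y' K i)) = pv X Y K := by
      funext i
      rw [shearY_apply]
      simp only [pv, hY']
      ext
      · rfl
      · simp
    rwa [h2] at h1
  · apply isKConvexRegion_map
    apply hmp.comps_le hk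
    intro θ β ⟨g, h1, h2, h3⟩
    apply hno (θ + c) β
    refine ⟨g, h1, h2, ?_⟩
    intro i hi
    rw [← h3 i hi]
    simp only [hY']
    constructor
    · intro h; linarith
    · intro h; linarith

/-- the sides of the points of the list `Q` with respect to the line `y = θ x + β` -/
noncomputable def Wd (x y : ℕ → ℝ) (θ β : ℝ) (Q : List ℕ) : List Bool :=
  Q.map (fun i => decide (0 ≤ y i - θ * x i - β))

/-- lists of points which form a `3`-convex polygon above the chord of the end points -/
def Nice (x y : ℕ → ℝ) (Q : List ℕ) : Prop :=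
  Q.Pairwise (fun i j => x i < x j) ∧
  (∀ (p z : ℕ) (L : List ℕ), Q = p :: (L ++ [z]) → ∀ i ∈ L,
    (y z - y p) * (x i - x p) < (y i - y p) * (x z - x p)) ∧
  ∀ θ β, ch (Wd x y θ β Q) ≤ 5

theorem poly_of_nice {x y : ℕ → ℝ} {Q : List ℕ} (h : Nice x y Q) (h3 : 3 ≤ Q.length) :
    ∃ (n : ℕ) (v : Fin n → ℝ × ℝ) (S : Set (ℝ × ℝ)), IsSimplePolygon v S ∧
      Set.range v = {p | ∃ i ∈ Q, p = (x i, y i)} ∧ IsKConvexRegion 3 S := by
  obtain ⟨hx, hch, hW⟩ := h
  set K := Q.length - 1 with hK
  have hKl : K + 1 = Q.length := by omega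
  set q : ℕ → ℕ := fun i => Q.getD i 0 with hq
  have hqe : ∀ i (hi : i < Q.length), q i = Q[i] := by
    intro i hi
    simp only [hq]
    rw [List.getD_eq_getElem _ _ hi]
  have hpw : ∀ i j, i < j → j < Q.length → x (q i) < x (q j) := by
    intro i j hij hj
    rw [hqe i (by omega), hqe j hj]
    exact List.pairwise_iff_getElem.1 hx i j (by omega) hj hij
  obtain ⟨S, hS1, hS2⟩ := poly_of_seq (X := fun i => x (q i)) (Y := fun i => y (q i)) (K := K)
    (k := 3) (by omega) (fun i hi => hpw i (i + 1) (by omega) (by omega)) (by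
      intro i h0 hi
      -- decompose the list
      have hne : Q ≠ [] := by intro h; rw [h] at h3; simp at h3
      obtain ⟨p, Q', rfl⟩ := List.exists_cons_of_ne_nil hne
      have hne' : Q' ≠ [] := by intro h; rw [h] at h3; simp at h3
      obtain ⟨L, z, rfl⟩ : ∃ L z, Q' = L ++ [z] := ⟨Q'.dropLast, Q'.getLast hne',
        (List.dropLast_append_getLast hne').symm⟩
      have hlen : (p :: (L ++ [z])).length = L.length + 2 := by simp
      have hK' : K = L.length + 1 := by omega
      have e0 : q 0 = p := by rw [hqe 0 (by omega)]; rfl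
      have eK : q K = z := by
        rw [hqe K (by omega)]
        simp [hK']
      have ei : q i ∈ L := by
        rw [hqe i (by omega)]
        obtain ⟨i', rfl⟩ : ∃ i', i = i' + 1 := ⟨i - 1, by omega⟩
        have : i' < L.length := by omega
        rw [List.getElem_cons_succ, List.getElem_append_left this]
        exact List.getElem_mem _
      simp only [e0, eK]
      exact hch p z L rfl (q i) ei) (by norm_num) (by
      intro θ β ⟨g, h1, h2, h4⟩
      have hgm : ∀ i j, i < j → j ≤ 6 → g i < g j := by
        intro i j hij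
        induction j, hij using Nat.le_induction with
        | base => intro hj; exact h1 i (by omega)
        | succ j _ ih => intro hj; exact (ih (by omega)).trans (h1 j (by omega))
      have hsub : ((List.range 7).map g).Sublist (List.range Q.length) := by
        apply sublist_range
        · rw [List.pairwise_map]
          refine List.Pairwise.imp_of_mem ?_ List.pairwise_lt_range
          intro i j hi hj hij
          have hj' := List.mem_range.1 hj
          exact hgm i j hij (by omega)
        · intro l hl
          obtain ⟨i, hi, rfl⟩ := List.mem_map.1 hl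
          have hi' := List.mem_range.1 hi
          have := h2 i (by omega)
          omega
      have hQ : (List.range Q.length).map q = Q := by
        apply List.ext_getElem
        · simp
        · intro i hi hi'
          simp only [List.getElem_map, List.getElem_range]
          exact hqe i hi'
      have hsub2 := (hsub.map q).map (fun i => decide (0 ≤ y i - θ * x i - β))
      rw [hQ] at hsub2
      have e1 : (((List.range 7).map g).map q).map (fun i => decide (0 ≤ y i - θ * x i - β)) =
          alt 7 true := by
        rw [List.map_map, List.map_map, ← alt_eq_map]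
        apply List.map_congr_left
        intro i hi
        have hi' := List.mem_range.1 hi
        have h5 := h4 i (by omega)
        simp only [Function.comp]
        rcases Nat.mod_two_eq_zero_or_one i with h6 | h6
        · rw [if_pos h6, decide_eq_true (h5.2 h6)]
        · have h7 : ¬ (0 ≤ y (q (g i)) - θ * x (q (g i)) - β) := by
            intro h8; have := h5.1 h8; omega
          rw [if_neg (by omega), decide_eq_false h7]
          rfl
      rw [e1] at hsub2
      have h5 := ch_sublist hsub2
      rw [ch_alt] at h5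
      have h6 := hW θ β
      unfold Wd at h6
      omega)
  refine ⟨K + 1, _, S, hS1, ?_, hS2⟩
  ext p
  simp only [Set.mem_range, mem_ofPred_eq, pv]
  constructor
  · rintro ⟨i, rfl⟩
    refine ⟨q i, ?_, rfl⟩
    rw [hqe i (by have := i.2; omega)]
    exact List.getElem_mem _
  · rintro ⟨i, hi, rfl⟩
    obtain ⟨m, hm, rfl⟩ := List.getElem_of_mem hi
    exact ⟨⟨m, by omega⟩, by rw [hqe m hm]⟩

end Pool.Agent.H595K
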