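import Mathlib
import Pool.Agent.H595K.PolyList

/-!
# Increasing trees and caps give 3-convex polygons
-/

namespace Pool.Agent.H595K

open Tr

/-- slope of the line through two points -/
noncomputable def slp (x y : ℕ → ℝ) (i j : ℕ) : ℝ := (y j - y i) / (x j - x i)

theorem slp_comm (x y : ℕ → ℝ) (i j : ℕ) : slp x y i j = slp x y j i := by
  unfold slp
  rw [← neg_sub (y i), ← neg_sub (x i), neg_div_neg_eq]

theorem slp_mul {x y : ℕ → ℝ} {i j : ℕ} (h : x i < x j) :
    slp x y i j * (x j - x i) = y j - y i := by
  unfold slp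
  have : x j - x i ≠ 0 := by linarith
  field_simp

theorem ch_sorted (A : List Bool) (hA : A.Pairwise (fun a b => a = true → b = true)) :
    ch (true :: (A ++ [true])) ≤ 2 ∧ ch (true :: (A ++ [false])) ≤ 3 ∧
    ch (false :: (A ++ [true])) ≤ 1 ∧ ch (false :: (A ++ [false])) ≤ 2 := by
  induction A with
  | nil => simp [ch_cons_cons]
  | cons b A ih =>
    rw [List.pairwise_cons] at hA
    obtain ⟨h1, h2⟩ := hA
    obtain ⟨i1, i2, i3, i4⟩ := ih h2
    cases b with
    | false =>
      simp only [List.cons_append, ch_cons_cons]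
      simp
      omega
    | true =>
      have hc : ∀ b ∈ A, b = true := fun b hb => h1 b hb rfl
      have k1 := ch_const_left true true true A [] hc
      have k2 := ch_const_left true false true A [] hc
      simp only [List.append_nil, List.nil_append] at k1 k2
      simp only [List.cons_append, ch_cons_cons]
      simp [ch_cons_cons] at k1 k2 ⊢
      omega

theorem ch_sorted' (A : List Bool) (hA : A.Pairwise (fun a b => a = false → b = false)) :
    ch (true :: (A ++ [false])) ≤ 1 := by
  induction A with
  | nil => simp [ch_cons_cons]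
  | cons b A ih =>
    rw [List.pairwise_cons] at hA
    obtain ⟨h1, h2⟩ := hA
    have i1 := ih h2
    cases b with
    | true =>
      simp only [List.cons_append, ch_cons_cons]
      simp
      omega
    | false =>
      have hc : ∀ b ∈ A, b = false := fun b hb => h1 b hb rfl
      have k2 := ch_const_left false false false A [] hc
      simp only [List.append_nil, List.nil_append] at k2
      simp only [List.cons_append, ch_cons_cons]
      simp [ch_cons_cons] at k2 ⊢
      omega

section
variable {x y : ℕ → ℝ}

theorem pairs_of_all {g : ℕ → ℕ → ℝ} {Z : List ℕ} {t : Tr}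
    (h : All (fun a b => GtR g a.lv b.lv Z) t) :
    t.lv.Pairwise (fun i j => ∀ z ∈ Z, g i z < g i j ∧ g j z < g i j) := by
  induction t with
  | leaf i => simp [lv]
  | node l r hl hr =>
    simp only [lv]
    rw [List.pairwise_append]
    exact ⟨hl h.2.1, hr h.2.2, fun i hi j hj z hz => h.1 i hi j hj z hz⟩

theorem not_pairwise {R : ℕ → ℕ → Prop} {L : List ℕ} (h : ¬ L.Pairwise R) :
    ∃ i j, [i, j].Sublist L ∧ ¬ R i j := by
  rw [List.pairwise_iff_forall_sublist] at h
  push Not at h
  obtain ⟨i, j, h1, h2⟩ := h
  exact ⟨i, j, h1, h2⟩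

theorem of_sublist {R : ℕ → ℕ → Prop} {L : List ℕ} (h : L.Pairwise R) {i j : ℕ}
    (hs : [i, j].Sublist L) : R i j := List.pairwise_iff_forall_sublist.1 h hs

theorem word_sorted {θ β : ℝ} {L : List ℕ}
    (h : L.Pairwise (fun i j => 0 ≤ y i - θ * x i - β → 0 ≤ y j - θ * x j - β)) :
    (Wd x y θ β L).Pairwise (fun a b => a = true → b = true) := by
  unfold Wd
  rw [List.pairwise_map]
  refine h.imp ?_
  intro i j hij hi
  rw [decide_eq_true_eq] at hi ⊢
  exact hij hi

theorem word_sorted' {θ β : ℝ} {L : List ℕ}
    (h : L.Pairwise (fun i j => ¬ 0 ≤ y i - θ * x i - β → ¬ 0 ≤ y j - θ * x j - β)) :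
    (Wd x y θ β L).Pairwise (fun a b => a = false → b = false) := by
  unfold Wd
  rw [List.pairwise_map]
  refine h.imp ?_
  intro i j hij hi
  rw [decide_eq_false_iff_not] at hi ⊢
  exact hij hi

theorem wd_append (θ β : ℝ) (A B : List ℕ) :
    Wd x y θ β (A ++ B) = Wd x y θ β A ++ Wd x y θ β B := by
  unfold Wd; rw [List.map_append]

theorem word_true {θ β : ℝ} {L : List ℕ} (h : ∀ i ∈ L, 0 ≤ y i - θ * x i - β) :
    ∀ b ∈ Wd x y θ β L, b = true := by
  intro b hb
  unfold Wd at hb
  obtain ⟨i, hi, rfl⟩ := List.mem_map.1 hb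
  exact decide_eq_true (h i hi)

theorem word_false {θ β : ℝ} {L : List ℕ} (h : ∀ i ∈ L, ¬ 0 ≤ y i - θ * x i - β) :
    ∀ b ∈ Wd x y θ β L, b = false := by
  intro b hb
  unfold Wd at hb
  obtain ⟨i, hi, rfl⟩ := List.mem_map.1 hb
  exact decide_eq_false (h i hi)

/-- if the left part is crossed downwards, then the right part is below the line -/
theorem right_below {θ β : ℝ} {L Z : List ℕ} (hx : L.Pairwise (fun i j => x i < x j))
    (hxz : ∀ i ∈ L, ∀ z ∈ Z, x i < x z)
    (h : L.Pairwise (fun i j => ∀ z ∈ Z, slp x y i z < slp x y i j ∧ slp x y j z < slp x y i j))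
    {i j : ℕ} (hij : [i, j].Sublist L) (hi : 0 ≤ y i - θ * x i - β)
    (hj : ¬ 0 ≤ y j - θ * x j - β) : ∀ z ∈ Z, ¬ 0 ≤ y z - θ * x z - β := by
  intro z hz
  push Not at hj ⊢
  have h1 := of_sublist hx hij
  have h2 := (of_sublist h hij z hz).2
  have h3 := slp_mul (y := y) h1
  have hjL : j ∈ L := hij.subset (by simp)
  have h4 := hxz j hjL z hz
  have h5 := slp_mul (y := y) h4
  have h6 : slp x y i j < θ := by
    by_contra hc
    push Not at hc
    have := mul_le_mul_of_nonneg_right hc (show 0 ≤ x j - x i by linarith)
    linarith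
  have h7 := mul_lt_mul_of_pos_right (h2.trans h6) (show 0 < x z - x j by linarith)
  linarith

/-- if the right part is crossed downwards, then the left part is above the line -/
theorem left_above {θ β : ℝ} {L Z : List ℕ} (hx : L.Pairwise (fun i j => x i < x j))
    (hxz : ∀ i ∈ L, ∀ z ∈ Z, x z < x i)
    (h : L.Pairwise (fun i j => ∀ z ∈ Z, slp x y i z < slp x y i j ∧ slp x y j z < slp x y i j))
    {i j : ℕ} (hij : [i, j].Sublist L) (hi : 0 ≤ y i - θ * x i - β)
    (hj : ¬ 0 ≤ y j - θ * x j - β) : ∀ z ∈ Z, 0 ≤ y z - θ * x z - β := by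
  intro z hz
  push Not at hj
  have h1 := of_sublist hx hij
  have h2 := (of_sublist h hij z hz).1
  have h3 := slp_mul (y := y) h1
  have hiL : i ∈ L := hij.subset (by simp)
  have h4 := hxz i hiL z hz
  have h5 := slp_mul (y := y) h4
  rw [slp_comm x y z i] at h5
  have h6 : slp x y i j < θ := by
    by_contra hc
    push Not at hc
    have := mul_le_mul_of_nonneg_right hc (show 0 ≤ x j - x i by linarith)
    linarith
  have h7 := mul_lt_mul_of_pos_right (h2.trans h6) (show 0 < x i - x z by linarith)
  linarith

/-- if the right part is crossed upwards, then the left part is below the line -/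
theorem left_below {θ β : ℝ} {L Z : List ℕ} (hx : L.Pairwise (fun i j => x i < x j))
    (hxz : ∀ i ∈ L, ∀ z ∈ Z, x z < x i)
    (h : L.Pairwise (fun i j => ∀ z ∈ Z, - slp x y i z < - slp x y i j ∧
      - slp x y j z < - slp x y i j))
    {i j : ℕ} (hij : [i, j].Sublist L) (hi : ¬ 0 ≤ y i - θ * x i - β)
    (hj : 0 ≤ y j - θ * x j - β) : ∀ z ∈ Z, ¬ 0 ≤ y z - θ * x z - β := by
  intro z hz
  push Not at hi ⊢
  have h1 := of_sublist hx hij
  have h2 := (of_sublist h hij z hz).1
  have h3 := slp_mul (y := y) h1
  have hiL : i ∈ L := hij.subset (by simp)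
  have h4 := hxz i hiL z hz
  have h5 := slp_mul (y := y) h4
  rw [slp_comm x y z i] at h5
  have h6 : θ < slp x y i j := by
    by_contra hc
    push Not at hc
    have := mul_le_mul_of_nonneg_right hc (show 0 ≤ x j - x i by linarith)
    linarith
  have h7 := mul_lt_mul_of_pos_right (show θ < slp x y i z by linarith)
    (show 0 < x i - x z by linarith)
  linarith

theorem ty_inc_word {t : Tr} (h : Ty (slp x y) (slp x y) t)
    (hx : t.lv.Pairwise (fun i j => x i < x j)) (θ β : ℝ) :
    ch (true :: (Wd x y θ β t.lv ++ [false])) ≤ 5 := by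
  induction t with
  | leaf i =>
    simp only [lv, Wd, List.map_cons, List.map_nil]
    cases decide (0 ≤ y i - θ * x i - β) <;> simp [ch_cons_cons]
  | node l r hl hr =>
    obtain ⟨⟨h1, h2⟩, h3, h4⟩ := h
    simp only [lv] at hx ⊢
    rw [List.pairwise_append] at hx
    obtain ⟨hx1, hx2, hx3⟩ := hx
    have p1 := pairs_of_all h1
    have p2 := pairs_of_all h2
    rw [wd_append]
    by_cases c1 : l.lv.Pairwise (fun i j => 0 ≤ y i - θ * x i - β → 0 ≤ y j - θ * x j - β)
    · by_cases c2 : r.lv.Pairwise (fun i j => 0 ≤ y i - θ * x i - β → 0 ≤ y j - θ * x j - β)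
      · have s1 := (ch_sorted _ (word_sorted c1)).1
        have s2 := (ch_sorted _ (word_sorted c2)).2.1
        have s3 := ch_join true true false (Wd x y θ β l.lv) (Wd x y θ β r.lv)
        omega
      · obtain ⟨i, j, hij, hn⟩ := not_pairwise c2
        push Not at hn
        have hb := left_above hx2 (fun i hi z hz => hx3 z hz i hi) p2 hij hn.1
          (by push Not; exact hn.2)
        have s1 := ch_const_left true false true (Wd x y θ β l.lv) (Wd x y θ β r.lv)
          (word_true hb)
        have s2 := hr h4 hx2
        simp at s1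
        simp
        omega
    · obtain ⟨i, j, hij, hn⟩ := not_pairwise c1
      push Not at hn
      have hb := right_below hx1 hx3 p1 hij hn.1 (by push Not; exact hn.2)
      have s1 := ch_const_right true false false (Wd x y θ β l.lv) (Wd x y θ β r.lv)
        (word_false hb)
      have s2 := hl h3 hx1
      simp at s1
      simp
      omega

theorem ty_cap_word {t : Tr} (h : Ty (slp x y) (fun i j => - slp x y i j) t)
    (hx : t.lv.Pairwise (fun i j => x i < x j)) (θ β : ℝ) :
    ch (false :: (Wd x y θ β t.lv ++ [false])) ≤ 2 := by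
  induction t with
  | leaf i =>
    simp only [lv, Wd, List.map_cons, List.map_nil]
    cases decide (0 ≤ y i - θ * x i - β) <;> simp [ch_cons_cons]
  | node l r hl hr =>
    obtain ⟨⟨h1, h2⟩, h3, h4⟩ := h
    simp only [lv] at hx ⊢
    rw [List.pairwise_append] at hx
    obtain ⟨hx1, hx2, hx3⟩ := hx
    have p1 := pairs_of_all h1
    have p2 := pairs_of_all h2
    rw [wd_append]
    by_cases c1 : l.lv.Pairwise (fun i j => 0 ≤ y i - θ * x i - β → 0 ≤ y j - θ * x j - β)
    · by_cases c2 : r.lv.Pairwise
          (fun i j => ¬ 0 ≤ y i - θ * x i - β → ¬ 0 ≤ y j - θ * x j - β)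
      · have s1 := (ch_sorted _ (word_sorted c1)).2.2.1
        have s2 := ch_sorted' _ (word_sorted' c2)
        have s3 := ch_join false true false (Wd x y θ β l.lv) (Wd x y θ β r.lv)
        omega
      · obtain ⟨i, j, hij, hn⟩ := not_pairwise c2
        rw [Classical.not_imp, not_not] at hn
        have hb := left_below hx2 (fun i hi z hz => hx3 z hz i hi) p2 hij hn.1 hn.2
        have s1 := ch_const_left false false false (Wd x y θ β l.lv) (Wd x y θ β r.lv)
          (word_false hb)
        have s2 := hr h4 hx2
        simp at s1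
        simp
        omega
    · obtain ⟨i, j, hij, hn⟩ := not_pairwise c1
      push Not at hn
      have hb := right_below hx1 hx3 p1 hij hn.1 (by push Not; exact hn.2)
      have s1 := ch_const_right false false false (Wd x y θ β l.lv) (Wd x y θ β r.lv)
        (word_false hb)
      have s2 := hl h3 hx1
      simp at s1
      simp
      omega

theorem chord {p i z : ℕ} (h1 : x p < x i) (h2 : x p < x z) (h : slp x y p z < slp x y p i) :
    (y z - y p) * (x i - x p) < (y i - y p) * (x z - x p) := by
  have e1 := slp_mul (y := y) h1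
  have e2 := slp_mul (y := y) h2
  rw [← e1, ← e2]
  have h3 : 0 < (x i - x p) * (x z - x p) := mul_pos (by linarith) (by linarith)
  have := mul_lt_mul_of_pos_right h h3
  calc slp x y p z * (x z - x p) * (x i - x p) = slp x y p z * ((x i - x p) * (x z - x p)) := by ring
    _ < slp x y p i * ((x i - x p) * (x z - x p)) := this
    _ = slp x y p i * (x i - x p) * (x z - x p) := by ring

/-- an increasing tree gives a nice list -/
theorem nice_inc {l r : Tr} (h : Ty (slp x y) (slp x y) (Tr.node l r))
    (hx : (Tr.node l r).lv.Pairwise (fun i j => x i < x j)) {z : ℕ} (hz : z ∈ r.lv) :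
    Nice x y (l.lv ++ [z]) := by
  have hsub : (l.lv ++ [z]).Sublist (Tr.node l r).lv := by
    simp only [lv]
    exact (List.Sublist.refl _).append (List.singleton_sublist.2 hz)
  refine ⟨hx.sublist hsub, ?_, ?_⟩
  · intro p z' L hL i hi
    have h1 := congrArg List.getLast? hL
    have h2 : z = z' := by
      rw [List.getLast?_append, ← List.cons_append, List.getLast?_append] at h1
      simpa using h1
    subst h2
    rw [← List.cons_append] at hL
    have h3 := List.append_cancel_right hL
    have h4 : [p, i].Sublist l.lv := by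
      rw [h3]
      exact List.Sublist.cons_cons _ (List.singleton_sublist.2 hi)
    have hx' := hx.sublist hsub
    rw [List.pairwise_append] at hx'
    have h5 := of_sublist hx'.1 h4
    have hp : p ∈ l.lv := h4.subset (by simp)
    have h6 := hx'.2.2 p hp z (by simp)
    have h7 := (of_sublist (pairs_of_all h.1.1) h4 z hz).1
    exact chord h5 h6 h7
  · intro θ β
    have h1 := ty_inc_word h hx θ β
    have h2 : (Wd x y θ β (l.lv ++ [z])).Sublist
        (true :: (Wd x y θ β (Tr.node l r).lv ++ [false])) := by
      apply List.Sublist.cons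
      refine List.Sublist.trans ?_ (List.sublist_append_left _ _)
      exact hsub.map _
    exact (ch_sublist h2).trans h1

theorem cap_triple {t : Tr} (h : Ty (slp x y) (fun i j => - slp x y i j) t)
    (hx : t.lv.Pairwise (fun i j => x i < x j)) :
    ∀ p i z, [p, i, z].Sublist t.lv → slp x y p z < slp x y p i := by
  induction t with
  | leaf j =>
    intro p i z hs
    have := hs.length_le
    simp [lv] at this
  | node l r hl hr =>
    intro p i z hs
    obtain ⟨⟨h1, h2⟩, h3, h4⟩ := h
    simp only [lv] at hx hs
    rw [List.pairwise_append] at hx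
    obtain ⟨hx1, hx2, hx3⟩ := hx
    rw [List.sublist_append_iff] at hs
    obtain ⟨A, B, hAB, hA, hB⟩ := hs
    match A, hAB, hA with
    | [], hAB, hA =>
      simp only [List.nil_append] at hAB
      rw [← hAB] at hB
      exact hr h4 hx2 p i z hB
    | [a], hAB, hA =>
      simp only [List.cons_append, List.nil_append, List.cons.injEq] at hAB
      obtain ⟨rfl, hB'⟩ := hAB
      rw [← hB'] at hB
      have hp : p ∈ l.lv := hA.subset (by simp)
      have hi : i ∈ r.lv := hB.subset (by simp)
      have hz : z ∈ r.lv := hB.subset (by simp)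
      have k1 := (of_sublist (pairs_of_all h2) hB p hp).2
      have k2 := of_sublist hx2 hB
      have k3 := hx3 p hp i hi
      have k4 := hx3 p hp z hz
      have k5 := slp_mul (y := y) k2
      have k6 := slp_mul (y := y) k3
      have k7 := slp_mul (y := y) k4
      rw [slp_comm x y z p] at k1
      -- slope p z > slope i z and y z - y p is the sum
      have k8 : slp x y i z < slp x y p z := by linarith
      by_contra hc
      push Not at hc
      have e1 := mul_le_mul_of_nonneg_right hc (show 0 ≤ x i - x p by linarith)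
      have e2 := mul_lt_mul_of_pos_right k8 (show 0 < x z - x i by linarith)
      have e3 : slp x y p z * (x z - x p) = slp x y p z * (x i - x p) +
        slp x y p z * (x z - x i) := by ring
      linarith
    | [a, b], hAB, hA =>
      simp only [List.cons_append, List.nil_append, List.cons.injEq] at hAB
      obtain ⟨rfl, rfl, hB'⟩ := hAB
      rw [← hB'] at hB
      have hz : z ∈ r.lv := hB.subset (by simp)
      exact (of_sublist (pairs_of_all h1) hA z hz).1
    | [a, b, c], hAB, hA =>
      simp only [List.cons_append, List.nil_append, List.cons.injEq] at hAB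
      obtain ⟨rfl, rfl, rfl, _⟩ := hAB
      exact hl h3 hx1 _ _ _ hA
    | a :: b :: c :: d :: A, hAB, hA =>
      simp at hAB

/-- a cap gives nice lists -/
theorem nice_cap {t : Tr} (h : Ty (slp x y) (fun i j => - slp x y i j) t)
    (hx : t.lv.Pairwise (fun i j => x i < x j)) {Q : List ℕ} (hQ : Q.Sublist t.lv) :
    Nice x y Q := by
  refine ⟨hx.sublist hQ, ?_, ?_⟩
  · intro p z L hL i hi
    have h1 : [p, i, z].Sublist Q := by
      rw [hL]
      apply List.Sublist.cons_cons
      exact (List.singleton_sublist.2 hi).append (List.Sublist.refl _)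
    have h2 := cap_triple h hx p i z (h1.trans hQ)
    have h3 : [p, i].Sublist Q := List.Sublist.trans (by
      show [p, i].Sublist ([p, i] ++ [z]); exact List.sublist_append_left _ _) h1
    have h4 : [p, z].Sublist Q := List.Sublist.trans (by
      apply List.Sublist.cons_cons; apply List.Sublist.cons; exact List.Sublist.refl _) h1
    exact chord (of_sublist hx (h3.trans hQ)) (of_sublist hx (h4.trans hQ)) h2
  · intro θ β
    have h1 := ty_cap_word h hx θ β
    have h2 : (Wd x y θ β Q).Sublist (false :: (Wd x y θ β t.lv ++ [false])) := by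
      apply List.Sublist.cons
      refine List.Sublist.trans ?_ (List.sublist_append_left _ _)
      exact hQ.map _
    exact ((ch_sublist h2).trans h1).trans (by norm_num)

end

end Pool.Agent.H595K
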