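import Mathlib
import Pool.Agent.H595K.Lam
import Pool.Agent.H595K.TreeGeo

/-!
# Alternation numbers
-/

namespace Pool.Agent.H595K.Lb

open LT

open scoped Classical in
/-- the greedy alternation number of the labels in the list (nearest first) relative to `x` -/
noncomputable def an (x : ℝ) (L : List ℝ) : ℕ :=
  L.foldr (fun y n => if (y < x ∧ n % 2 = 0) ∨ (x < y ∧ n % 2 = 1) then n + 1 else n) 0

theorem an_nil (x : ℝ) : an x [] = 0 := by
  unfold an; rfl

theorem an_cons (x y : ℝ) (L : List ℝ) :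
    ((y < x ∧ an x L % 2 = 0) ∨ (x < y ∧ an x L % 2 = 1) → an x (y :: L) = an x L + 1) ∧
    (¬ ((y < x ∧ an x L % 2 = 0) ∨ (x < y ∧ an x L % 2 = 1)) → an x (y :: L) = an x L) := by
  classical
  constructor
  · intro h
    unfold an at h ⊢
    simp only [List.foldr_cons]
    rw [if_pos h]
  · intro h
    unfold an at h ⊢
    simp only [List.foldr_cons]
    rw [if_neg h]

theorem an_le_cons (x y : ℝ) (L : List ℝ) : an x L ≤ an x (y :: L) := by
  by_cases h : (y < x ∧ an x L % 2 = 0) ∨ (x < y ∧ an x L % 2 = 1)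
  · rw [(an_cons x y L).1 h]; omega
  · rw [(an_cons x y L).2 h]

theorem an_le_append (x : ℝ) (M L : List ℝ) : an x L ≤ an x (M ++ L) := by
  induction M with
  | nil => exact le_rfl
  | cons y M ih => exact ih.trans (an_le_cons x y (M ++ L))

theorem an_congr {v w : ℝ} {L : List ℝ} (h : ∀ y ∈ L, (y < v ↔ y < w) ∧ (v < y ↔ w < y)) :
    an v L = an w L := by
  induction L with
  | nil => rw [an_nil, an_nil]
  | cons y L ih =>
    have h1 := ih (fun z hz => h z (List.mem_cons_of_mem _ hz))
    obtain ⟨h2, h3⟩ := h y (by simp)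
    by_cases hc : (y < w ∧ an w L % 2 = 0) ∨ (w < y ∧ an w L % 2 = 1)
    · have hc' : (y < v ∧ an v L % 2 = 0) ∨ (v < y ∧ an v L % 2 = 1) := by
        rw [h1, h2, h3]; exact hc
      rw [(an_cons w y L).1 hc, (an_cons v y L).1 hc', h1]
    · have hc' : ¬ ((y < v ∧ an v L % 2 = 0) ∨ (v < y ∧ an v L % 2 = 1)) := by
        rw [h1, h2, h3]; exact hc
      rw [(an_cons w y L).2 hc, (an_cons v y L).2 hc', h1]

/-- annotate the nodes with their alternation numbers; `L` is the list of the passed labels -/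
noncomputable def ann : List ℝ → LT ℝ → LT (ℝ × ℕ)
  | _, leaf i => leaf i
  | L, node x l r => node (x, an x L) (ann L l) (ann (x :: L) r)

/-- forget the annotation -/
def strip : LT (ℝ × ℕ) → LT ℝ
  | leaf i => leaf i
  | node x l r => node x.1 (strip l) (strip r)

theorem strip_ann (t : LT ℝ) : ∀ L, strip (ann L t) = t := by
  induction t with
  | leaf i => intro L; rfl
  | node x l r hl hr => intro L; simp only [ann, strip, hl, hr]

theorem comp_ann {t : LT ℝ} : ∀ {n : ℕ} (L : List ℝ), Comp n t → Comp n (ann L t) := by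
  induction t with
  | leaf i =>
    intro n L h
    cases n with
    | zero => trivial
    | succ n => exact absurd h (by simp [Comp])
  | node x l r hl hr =>
    intro n L h
    cases n with
    | zero => exact absurd h (by simp [Comp])
    | succ n => exact ⟨hl L h.1, hr _ h.2⟩

theorem comp_strip {t : LT (ℝ × ℕ)} {n : ℕ} (h : Comp n t) : Comp n (strip t) := by
  induction t generalizing n with
  | leaf i =>
    cases n with
    | zero => trivial
    | succ n => exact absurd h (by simp [Comp])
  | node x l r hl hr =>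
    cases n with
    | zero => exact absurd h (by simp [Comp])
    | succ n => exact ⟨hl h.1, hr h.2⟩

theorem sub_strip {c : ℝ × ℕ → LT (ℝ × ℕ) → LT (ℝ × ℕ) → Prop} {t' t : LT (ℝ × ℕ)}
    (h : Sub c t' t) : Sub (fun _ _ _ => True) (strip t') (strip t) := by
  induction h with
  | leaf i => exact Sub.leaf i
  | left a r _ ih => exact Sub.left _ _ ih
  | right a l _ ih => exact Sub.right _ _ ih
  | node hc _ _ ihl ihr => exact Sub.node trivial ihl ihr

theorem allL_ann {P : ℝ → Prop} {t : LT ℝ} (h : AllL P t) :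
    ∀ L, AllL (fun u => P u.1) (ann L t) := by
  induction t with
  | leaf i => intro L; trivial
  | node x l r hl hr => intro L; exact ⟨h.1, hl h.2.1 L, hr h.2.2 _⟩

theorem ann_ge (t : LT ℝ) : ∀ L, AllL (fun u => an u.1 L ≤ u.2) (ann L t) := by
  induction t with
  | leaf i => intro L; trivial
  | node x l r hl hr =>
    intro L
    refine ⟨le_rfl, hl L, (hr (x :: L)).imp ?_⟩
    intro u hu
    exact (an_le_cons _ _ _).trans hu

/-- the property of the annotation -/
def P3 : LT (ℝ × ℕ) → Prop :=
  LT.AllN (fun p _ r => AllN (fun q _ r2 => q.1 < p.1 →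
    AllL (fun u => q.1 < u.1 → u.1 < p.1 → p.2 < u.2) r2) r)

theorem p3_aux {x' : ℝ} {a' : ℕ} {L0 : List ℝ} (t : LT ℝ) : ∀ L : List ℝ, (∃ M, L = M ++ L0) →
    AllL (fun v => v < x' → an v L0 % 2 = 0 ∧ a' ≤ an v L0) t →
    AllN (fun q _ r2 => q.1 < x' → AllL (fun u => q.1 < u.1 → u.1 < x' → a' < u.2) r2)
      (ann L t) := by
  induction t with
  | leaf i => intro L _ _; trivial
  | node x l r hl hr =>
    rintro L ⟨M, rfl⟩ h
    refine ⟨?_, hl _ ⟨M, rfl⟩ h.2.1, hr _ ⟨x :: M, rfl⟩ h.2.2⟩
    intro hx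
    refine ((ann_ge r (x :: (M ++ L0))).and (allL_ann h.2.2 _)).imp ?_
    rintro u ⟨h1, h2⟩ h3 h4
    obtain ⟨h5, h6⟩ := h2 h4
    have h7 := an_le_append u.1 M L0
    by_cases hpar : an u.1 (M ++ L0) % 2 = 0
    · have := (an_cons u.1 x (M ++ L0)).1 (Or.inl ⟨h3, hpar⟩)
      omega
    · have := an_le_cons u.1 x (M ++ L0)
      omega

theorem allL_forall {P : ℝ → ℝ → Prop} {L : List ℝ} {t : LT ℝ} (h : ∀ y ∈ L, AllL (P y) t) :
    AllL (fun v => ∀ y ∈ L, P y v) t := by
  induction t with
  | leaf i => trivial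
  | node x l r hl hr =>
    exact ⟨fun y hy => (h y hy).1, hl (fun y hy => (h y hy).2.1), hr (fun y hy => (h y hy).2.2)⟩

theorem p3_ann (t : LT ℝ) : ∀ L : List ℝ, Lm t → Dst t → (∀ y ∈ L, Cl y t ∧ AllL (fun u => u ≠ y) t) →
    P3 (ann L t) := by
  induction t with
  | leaf i => intro L _ _ _; trivial
  | node x l r hl hr =>
    intro L hm hd hL
    refine ⟨?_, ?_, ?_⟩
    · apply p3_aux r (x :: L) ⟨[], rfl⟩
      have h1 : AllL (fun v => ∀ y ∈ L, y < x → y < v) r :=
        allL_forall (P := fun y v => y < x → y < v) (by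
          intro y hy
          by_cases hyx : y < x
          · exact (((hL y hy).1.1 hyx).2).imp (fun v hv _ => hv)
          · exact ((hL y hy).2.2.2).imp (fun v _ h => absurd h hyx))
      refine h1.imp ?_
      intro v hv hvx
      have h2 : an v L = an x L := by
        apply an_congr
        intro y hy
        have hyx : y ≠ x := (hL y hy).2.1.symm
        rcases lt_or_gt_of_ne hyx with h3 | h3
        · have h4 := hv y hy h3
          exact ⟨⟨fun _ => h3, fun _ => h4⟩, ⟨fun h => absurd h (not_lt.2 h4.le),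
            fun h => absurd h (not_lt.2 h3.le)⟩⟩
        · have h4 : v < y := hvx.trans h3
          exact ⟨⟨fun h => absurd h (not_lt.2 h4.le), fun h => absurd h (not_lt.2 h3.le)⟩,
            ⟨fun _ => h3, fun _ => h4⟩⟩
      by_cases hpar : an v L % 2 = 1
      · have := (an_cons v x L).1 (Or.inr ⟨hvx, hpar⟩)
        omega
      · have := (an_cons v x L).2 (by
          rintro (⟨h3, _⟩ | ⟨_, h3⟩)
          · linarith
          · exact hpar h3)
        omega
    · exact hl L hm.2.1 hd.2.1 (fun y hy => ⟨(hL y hy).1.2.1, (hL y hy).2.2.1⟩)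
    · apply hr (x :: L) hm.2.2 hd.2.2
      intro y hy
      rcases List.mem_cons.1 hy with rfl | hy
      · exact ⟨hm.1, hd.1.2⟩
      · exact ⟨(hL y hy).1.2.2, (hL y hy).2.2.2⟩

/-- no line is crossed often -/
def Cross (x y : ℕ → ℝ) (A : List ℕ) (m : ℕ) : Prop :=
  ∀ θ β : ℝ, ∀ Q : List ℕ, Q.Sublist A →
    Q.IsChain (fun i j => (y i - θ * x i - β) * (y j - θ * x j - β) < 0) → Q.length < m

theorem an_chain {f : ℕ → ℝ} {x : ℝ} (W : List (ℝ × ℕ))
    (h : ∀ w ∈ W, (w.1 < x → 0 < f w.2) ∧ (x < w.1 → f w.2 < 0)) :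
    ∃ Q : List ℕ, Q.Sublist (W.map Prod.snd).reverse ∧ Q.IsChain (fun i j => f i * f j < 0) ∧
      Q.length = an x (W.map Prod.fst) ∧
      ∀ z ∈ Q.getLast?, (Q.length % 2 = 1 → 0 < f z) ∧ (Q.length % 2 = 0 → f z < 0) := by
  induction W with
  | nil => exact ⟨[], by simp, List.isChain_nil, by simp [an_nil], by simp⟩
  | cons w W ih =>
    obtain ⟨Q, h1, h2, h3, h4⟩ := ih (fun w' hw' => h w' (List.mem_cons_of_mem _ hw'))
    obtain ⟨h5, h6⟩ := h w (by simp)
    simp only [List.map_cons, List.reverse_cons]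
    by_cases hc : (w.1 < x ∧ an x (W.map Prod.fst) % 2 = 0) ∨
        (x < w.1 ∧ an x (W.map Prod.fst) % 2 = 1)
    · refine ⟨Q ++ [w.2], h1.append (List.Sublist.refl _), ?_, ?_, ?_⟩
      · rw [List.isChain_append]
        refine ⟨h2, List.isChain_singleton _, ?_⟩
        intro a ha b hb
        have hb' : w.2 = b := by simpa using hb
        subst hb'
        obtain ⟨k1, k2⟩ := h4 a ha
        rcases hc with ⟨c1, c2⟩ | ⟨c1, c2⟩
        · exact mul_neg_of_neg_of_pos (k2 (by omega)) (h5 c1)
        · exact mul_neg_of_pos_of_neg (k1 (by omega)) (h6 c1)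
      · rw [(an_cons _ _ _).1 hc, List.length_append, h3]; rfl
      · intro z hz
        have hz' : w.2 = z := by
          rw [List.getLast?_append] at hz
          simpa using hz
        subst hz'
        rw [List.length_append, h3, List.length_singleton]
        rcases hc with ⟨c1, c2⟩ | ⟨c1, c2⟩
        · exact ⟨fun _ => h5 c1, fun h => by omega⟩
        · exact ⟨fun h => by omega, fun _ => h6 c1⟩
    · refine ⟨Q, h1.trans (List.sublist_append_left _ _), h2, ?_, h4⟩
      rw [(an_cons _ _ _).2 hc]; exact h3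

theorem ann_lt {x y : ℕ → ℝ} {A : List ℕ} {m : ℕ} (hA : A.Pairwise (fun i j => x i < x j))
    (hC : Cross x y A m) (t : LT ℝ) : ∀ W : List (ℝ × ℕ),
      ((W.map Prod.snd).reverse ++ t.lv).Sublist A → (∀ w ∈ W, Rel (slp x y) w.1 [w.2] t) →
      Compat (slp x y) t → AllL (fun u => u.2 < m) (ann (W.map Prod.fst) t) := by
  induction t with
  | leaf i => intro W _ _ _; trivial
  | node u l r hl hr =>
    intro W hW hR hCt
    simp only [lv] at hW
    obtain ⟨i, hi⟩ := exists_mem l
    obtain ⟨j, hj⟩ := exists_mem r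
    have hpw := hA.sublist hW
    rw [List.pairwise_append] at hpw
    obtain ⟨hp1, hp2, hp3⟩ := hpw
    refine ⟨?_, ?_, ?_⟩
    · obtain ⟨Q, q1, q2, q3, _⟩ := an_chain (f := fun z => y z - slp x y i j * x z -
        (y i - slp x y i j * x i)) (x := u) W (by
          intro w hw
          have hwi : x w.2 < x i := hp3 w.2 (by simp; exact ⟨w.1, hw⟩) i (by simp [hi])
          have e : y w.2 - slp x y i j * x w.2 - (y i - slp x y i j * x i) =
              (slp x y i j - slp x y w.2 i) * (x i - x w.2) := by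
            have := slp_mul (y := y) hwi
            linear_combination this
          have hRw := (hR w hw).1
          constructor
          · intro hlt
            rw [e]
            have := (hRw.1 hlt i hi j hj w.2 (by simp)).1
            rw [slp_comm x y i w.2] at this
            exact mul_pos (by linarith) (by linarith)
          · intro hlt
            rw [e]
            have := (hRw.2.1 hlt i hi j hj w.2 (by simp)).1
            simp only at this
            rw [slp_comm x y i w.2] at this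
            exact mul_neg_of_neg_of_pos (by linarith) (by linarith))
      show an u (W.map Prod.fst) < m
      rw [← q3]
      exact hC _ _ Q (q1.trans ((List.sublist_append_left _ _).trans hW)) q2
    · apply hl W _ (fun w hw => (hR w hw).2.1) hCt.2.1
      refine List.Sublist.trans ?_ hW
      exact (List.Sublist.refl _).append (List.sublist_append_left _ _)
    · apply hr ((u, i) :: W) _ _ hCt.2.2
      · simp only [List.map_cons, List.reverse_cons]
        refine List.Sublist.trans ?_ hW
        rw [List.append_assoc]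
        exact (List.Sublist.refl _).append ((List.singleton_sublist.2 hi).append
          (List.Sublist.refl _))
      · intro w hw
        rcases List.mem_cons.1 hw with rfl | hw
        · exact hCt.1.2.sub (Sub.refl r) (by intro z hz; simp at hz; rw [hz]; exact hi)
        · exact (hR w hw).2.2

/-! ### The final property -/

/-- for a smaller label `v` the labels to the right of `v` are smaller than `v` or larger than
`x` -/
def Ly (x : ℝ) : LT ℝ → Prop :=
  LT.AllN (fun v _ b => v < x → AllL (fun u => u < v ∨ x < u) b)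

/-- `Ly x r` for every node with label `x` and right subtree `r` -/
def Lay : LT ℝ → Prop := LT.AllN (fun x _ r => Ly x r)

theorem p3_sub {c : ℝ × ℕ → LT (ℝ × ℕ) → LT (ℝ × ℕ) → Prop} {t' t : LT (ℝ × ℕ)}
    (h : Sub c t' t) (hP : P3 t) : P3 t' := by
  refine h.allN hP ?_
  rintro p l r l' r' _ h1 _ hr
  refine hr.allN h1 ?_
  rintro q a b a' b' _ h2 _ hb hlt
  exact hb.allL (h2 hlt)

theorem allN_strip {P : ℝ × ℕ → LT (ℝ × ℕ) → LT (ℝ × ℕ) → Prop} {Q : ℝ → LT ℝ → LT ℝ → Prop}
    {t : LT (ℝ × ℕ)} (h : AllN P t) (hPQ : ∀ p l r, P p l r → Q p.1 (strip l) (strip r)) :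
    AllN Q (strip t) := by
  induction t with
  | leaf i => trivial
  | node x l r hl hr => exact ⟨hPQ _ _ _ h.1, hl h.2.1, hr h.2.2⟩

theorem allL_strip {P : ℝ × ℕ → Prop} {Q : ℝ → Prop}
    {t : LT (ℝ × ℕ)} (h : AllL P t) (hPQ : ∀ p, P p → Q p.1) :
    AllL Q (strip t) := by
  induction t with
  | leaf i => trivial
  | node x l r hl hr => exact ⟨hPQ _ h.1, hl h.2.1, hr h.2.2⟩

theorem lay_strip {c : ℕ} {t : LT (ℝ × ℕ)} (hP : P3 t) (hc : AllL (fun p => p.2 = c) t)
    (hd : Dst (strip t)) : Lay (strip t) := by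
  have key : ∀ (s : LT (ℝ × ℕ)) (p : ℝ × ℕ), p.2 = c → AllL (fun p => p.2 = c) s →
      AllL (fun u => u ≠ p.1) (strip s) → Dst (strip s) →
      AllN (fun q _ r2 => q.1 < p.1 → AllL (fun u => q.1 < u.1 → u.1 < p.1 → p.2 < u.2) r2) s →
      Ly p.1 (strip s) := by
    intro s p hp
    induction s with
    | leaf i => intro _ _ _ _; trivial
    | node q a b iha ihb =>
      intro hcs hps hds h1
      refine ⟨?_, iha hcs.2.1 hps.2.1 hds.2.1 h1.2.1, ihb hcs.2.2 hps.2.2 hds.2.2 h1.2.2⟩
      intro hq
      have e1 : AllL (fun u => u ≤ q.1 ∨ p.1 ≤ u) (strip b) := by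
        refine allL_strip ((h1.1 hq).and hcs.2.2) ?_
        rintro u ⟨hu, huc⟩
        by_contra hcon
        push Not at hcon
        have := hu hcon.1 hcon.2
        omega
      refine ((e1.and hds.1.2).and hps.2.2).imp ?_
      rintro u ⟨⟨h2, h3⟩, h4⟩
      rcases h2 with h2 | h2
      · left; exact lt_of_le_of_ne h2 h3
      · right; exact lt_of_le_of_ne h2 (Ne.symm h4)
  induction t with
  | leaf i => trivial
  | node p l r hl hr =>
    exact ⟨key r p hc.1 hc.2.2 hd.1.2 hd.2.2 hP.1, hl hP.2.1 hc.2.1 hd.2.1,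
      hr hP.2.2 hc.2.2 hd.2.2⟩

end Pool.Agent.H595K.Lb
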