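import Mathlib
import Pool.Agent.H595K.TreeGeo

/-!
# Thinning out an x-monotone sequence
-/

namespace Pool.Agent.H595K

open Finset

/-- no line has more than `m - 1` alternations with respect to the first `N` points -/
def NoAlt (x y : ℕ → ℝ) (N m : ℕ) : Prop :=
  ∀ θ β : ℝ, ¬ ∃ g : ℕ → ℕ, (∀ i j, i < j → j < m → g i < g j) ∧ (∀ i, i < m → g i < N) ∧
    ∀ i, i < m → (i % 2 = 0 → 0 < y (g i) - θ * x (g i) - β) ∧
      (i % 2 = 1 → y (g i) - θ * x (g i) - β < 0)

/-- the numbers `i` which agree with `w` above the digit `e` (in base `G`) and have the digit `c`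
there -/
def InC (G e c w i : ℕ) : Prop := i / G ^ (e + 1) = w / G ^ (e + 1) ∧ i / G ^ e % G = c

theorem InC.div {G e c w i : ℕ} (h : InC G e c w i) : i / G ^ e = w / G ^ (e + 1) * G + c := by
  obtain ⟨h1, h2⟩ := h
  have h3 := Nat.div_add_mod (i / G ^ e) G
  rw [Nat.div_div_eq_div_mul, ← pow_succ, h1, h2] at h3
  rw [← h3]; ring

theorem self_div (G e w : ℕ) : w / G ^ e = w / G ^ (e + 1) * G + w / G ^ e % G := by
  have h3 := Nat.div_add_mod (w / G ^ e) G
  rw [Nat.div_div_eq_div_mul, ← pow_succ] at h3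
  rw [mul_comm]; exact h3.symm

theorem div_eq_of_div_eq {G e E i w : ℕ} (hE : e ≤ E) (h : i / G ^ e = w / G ^ e) :
    i / G ^ E = w / G ^ E := by
  obtain ⟨d, rfl⟩ := Nat.exists_eq_add_of_le hE
  rw [pow_add, ← Nat.div_div_eq_div_mul, ← Nat.div_div_eq_div_mul, h]

/-- different clusters are separated by the order -/
theorem separated {G w e c e' c' : ℕ} (hc : c ≠ w / G ^ e % G) (hc' : c' ≠ w / G ^ e' % G)
    (hne : (e, c) ≠ (e', c')) : ∃ E a a', a ≠ a' ∧ (∀ i, InC G e c w i → i / G ^ E = a) ∧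
      ∀ i, InC G e' c' w i → i / G ^ E = a' := by
  rcases lt_trichotomy e e' with h | h | h
  · refine ⟨e', w / G ^ e', w / G ^ (e' + 1) * G + c', ?_, ?_, fun i hi => hi.div⟩
    · have := self_div G e' w
      omega
    · intro i hi
      exact div_eq_of_div_eq (show e + 1 ≤ e' by omega) hi.1
  · subst h
    refine ⟨e, w / G ^ (e + 1) * G + c, w / G ^ (e + 1) * G + c', ?_, fun i hi => hi.div,
      fun i hi => hi.div⟩
    intro h'
    apply hne
    have : c = c' := by omega
    rw [this]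
  · refine ⟨e, w / G ^ (e + 1) * G + c, w / G ^ e, ?_, fun i hi => hi.div, ?_⟩
    · have := self_div G e w
      omega
    · intro i hi
      exact div_eq_of_div_eq (show e' + 1 ≤ e by omega) hi.1

theorem separated_lt {G w e c e' c' : ℕ} (hc : c ≠ w / G ^ e % G) (hc' : c' ≠ w / G ^ e' % G)
    (hne : (e, c) ≠ (e', c')) {i j i' j' : ℕ} (hi : InC G e c w i) (hj : InC G e c w j)
    (hi' : InC G e' c' w i') (hj' : InC G e' c' w j') (h : i < i') : j < j' := by
  obtain ⟨E, a, a', haa, h1, h2⟩ := separated hc hc' hne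
  have e1 := h1 i hi
  have e2 := h1 j hj
  have e3 := h2 i' hi'
  have e4 := h2 j' hj'
  have e5 : i / G ^ E ≤ i' / G ^ E := Nat.div_le_div_right h.le
  by_contra hc
  have e6 : j' / G ^ E ≤ j / G ^ E := Nat.div_le_div_right (not_lt.1 hc)
  omega

section
variable {x y : ℕ → ℝ} {N m : ℕ}

theorem slp_sub (hx : ∀ i j, i < j → j < N → x i < x j) {w i : ℕ} (hw : w < N) (hi : i < N)
    (hne : i ≠ w) (θ : ℝ) :
    y i - θ * x i - (y w - θ * x w) = (slp x y w i - θ) * (x i - x w) := by
  have h1 : x i - x w ≠ 0 := by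
    rcases lt_or_gt_of_ne hne with h | h
    · have := hx i w h hw; linarith
    · have := hx w i h hi; linarith
  unfold slp
  field_simp
  ring

theorem count_le (hx : ∀ i j, i < j → j < N → x i < x j) (hA : NoAlt x y N m) {G w : ℕ}
    (hw : w < N) (θ : ℝ) (C : Finset (ℕ × ℕ)) (hC : ∀ q ∈ C, q.2 ≠ w / G ^ q.1 % G)
    (hI : ∀ q ∈ C, ∃ i j, InC G q.1 q.2 w i ∧ InC G q.1 q.2 w j ∧ i < N ∧ j < N ∧
      slp x y w i < θ ∧ θ < slp x y w j) : C.card < m := by
  classical
  by_contra hcon
  push Not at hcon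
  obtain ⟨C', hC'C, hC'⟩ := Finset.exists_subset_card_eq hcon
  have key : ∀ q : ℕ × ℕ, ∃ p n : ℕ, q ∈ C' → InC G q.1 q.2 w p ∧ InC G q.1 q.2 w n ∧ p < N ∧
      n < N ∧ 0 < y p - θ * x p - (y w - θ * x w) ∧ y n - θ * x n - (y w - θ * x w) < 0 := by
    intro q
    by_cases hq : q ∈ C'
    · obtain ⟨i, j, h1, h2, h3, h4, h5, h6⟩ := hI q (hC'C hq)
      have hd := hC q (hC'C hq)
      have hiw : i ≠ w := by rintro rfl; exact hd h1.2.symm
      have hjw : j ≠ w := by rintro rfl; exact hd h2.2.symm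
      have fi := slp_sub (y := y) hx hw h3 hiw θ
      have fj := slp_sub (y := y) hx hw h4 hjw θ
      -- `i` and `j` are on the same side of `w`
      have hside : (i < w ↔ j < w) := by
        have e1 := h1.div
        have e2 := h2.div
        have e3 := self_div G q.1 w
        have key2 : ∀ i, InC G q.1 q.2 w i → (i < w ↔ q.2 < w / G ^ q.1 % G) := by
          intro i hi
          have e1 := hi.div
          constructor
          · intro h
            have : i / G ^ q.1 ≤ w / G ^ q.1 := Nat.div_le_div_right h.le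
            omega
          · intro h
            by_contra hc
            have : w / G ^ q.1 ≤ i / G ^ q.1 := Nat.div_le_div_right (not_lt.1 hc)
            omega
        rw [key2 i h1, key2 j h2]
      rcases lt_or_gt_of_ne hiw with h | h
      · have hj' := hside.1 h
        refine ⟨i, j, fun _ => ⟨h1, h2, h3, h4, ?_, ?_⟩⟩
        · rw [fi]
          exact mul_pos_of_neg_of_neg (by linarith) (by linarith [hx i w h hw])
        · rw [fj]
          exact mul_neg_of_pos_of_neg (by linarith) (by linarith [hx j w hj' hw])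
      · have hj' : w < j := by
          rcases lt_or_gt_of_ne hjw with h' | h'
          · have := hside.2 h'; omega
          · exact h'
        refine ⟨j, i, fun _ => ⟨h2, h1, h4, h3, ?_, ?_⟩⟩
        · rw [fj]
          exact mul_pos (by linarith) (by linarith [hx w j hj' h4])
        · rw [fi]
          exact mul_neg_of_neg_of_pos (by linarith) (by linarith [hx w i h h3])
    · exact ⟨0, 0, fun h => absurd h hq⟩
  choose p n hpn using key
  have hpinj : Set.InjOn p C' := by
    intro q hq q' hq' hpp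
    by_contra hne
    obtain ⟨E, a, a', haa, h1, h2⟩ := separated (hC q (hC'C hq)) (hC q' (hC'C hq')) hne
    have e1 := h1 _ (hpn q hq).1
    have e2 := h2 _ (hpn q' hq').1
    rw [hpp] at e1
    exact haa (e1.symm.trans e2)
  set P := C'.image p with hP
  have hPcard : P.card = m := by rw [hP, card_image_of_injOn hpinj, hC']
  let emb := P.orderEmbOfFin hPcard
  have hq : ∀ i : Fin m, ∃ q ∈ C', p q = emb i := by
    intro i
    have := P.orderEmbOfFin_mem hPcard i
    exact Finset.mem_image.1 this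
  choose q hqC hqp using hq
  apply hA θ (y w - θ * x w)
  refine ⟨fun i => if h : i < m then (if i % 2 = 0 then p (q ⟨i, h⟩) else n (q ⟨i, h⟩)) else 0,
    ?_, ?_, ?_⟩
  · intro i j hij hj
    have hi : i < m := by omega
    simp only [dif_pos hi, dif_pos hj]
    have h1 : emb ⟨i, hi⟩ < emb ⟨j, hj⟩ := emb.strictMono (Fin.mk_lt_mk.2 hij)
    rw [← hqp, ← hqp] at h1
    have hne : ((q ⟨i, hi⟩).1, (q ⟨i, hi⟩).2) ≠ ((q ⟨j, hj⟩).1, (q ⟨j, hj⟩).2) := by
      intro h2
      have h3 : q ⟨i, hi⟩ = q ⟨j, hj⟩ := h2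
      rw [h3] at h1
      exact lt_irrefl _ h1
    obtain ⟨a1, a2, _⟩ := hpn _ (hqC ⟨i, hi⟩)
    obtain ⟨b1, b2, _⟩ := hpn _ (hqC ⟨j, hj⟩)
    have sep : ∀ {u v : ℕ}, InC G (q ⟨i, hi⟩).1 (q ⟨i, hi⟩).2 w u →
        InC G (q ⟨j, hj⟩).1 (q ⟨j, hj⟩).2 w v → u < v := fun hu hv =>
      separated_lt (hC _ (hC'C (hqC _))) (hC _ (hC'C (hqC _))) hne a1 hu b1 hv h1
    split_ifs
    · exact sep a1 b1
    · exact sep a1 b2
    · exact sep a2 b1
    · exact sep a2 b2
  · intro i hi
    simp only [dif_pos hi]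
    obtain ⟨_, _, h3, h4, _⟩ := hpn _ (hqC ⟨i, hi⟩)
    split_ifs
    · exact h3
    · exact h4
  · intro i hi
    simp only [dif_pos hi]
    obtain ⟨_, _, _, _, h5, h6⟩ := hpn _ (hqC ⟨i, hi⟩)
    constructor
    · intro h; rw [if_pos h]; exact h5
    · intro h; rw [if_neg (by omega)]; exact h6

end

end Pool.Agent.H595K
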