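import Mathlib
import Pool.Agent.H595K.Thin

/-!
# Counting the bad words
-/

namespace Pool.Agent.H595K

open Finset

section
variable {s G : ℕ}

/-- the number with the digits `f` -/
def idx (f : Fin s → Fin G) : ℕ := (finFunctionFinEquiv f : ℕ)

theorem idx_lt (f : Fin s → Fin G) : idx f < G ^ s := (finFunctionFinEquiv f).2

theorem idx_digit (f : Fin s → Fin G) (e : Fin s) : idx f / G ^ (e : ℕ) % G = f e := by
  have h : finFunctionFinEquiv.symm (finFunctionFinEquiv f) e = f e := by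
    rw [Equiv.symm_apply_apply]
  rw [← h]
  rfl

theorem idx_inj {f f' : Fin s → Fin G} (h : idx f = idx f') : f = f' :=
  finFunctionFinEquiv.injective (Fin.ext h)

theorem card_one (e : Fin s) (c : Fin G) :
    (univ.filter (fun a : Fin s → Fin G => a e = c)).card = G ^ (s - 1) := by
  classical
  have h1 : univ.filter (fun a : Fin s → Fin G => a e = c) =
      Fintype.piFinset (fun i => if i = e then {c} else univ) := by
    ext a
    simp only [mem_filter, mem_univ, true_and, Fintype.mem_piFinset]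
    constructor
    · intro h i
      by_cases hi : i = e
      · subst hi; simp [h]
      · simp [hi]
    · intro h
      have := h e
      simpa using this
  rw [h1, Fintype.card_piFinset, ← Finset.mul_prod_erase _ _ (mem_univ e)]
  rw [if_pos rfl, card_singleton, one_mul]
  rw [Finset.prod_congr rfl (g := fun _ => G)]
  · simp
  · intro i hi
    rw [if_neg (Finset.ne_of_mem_erase hi)]
    simp

theorem card_two {e e' : Fin s} (hne : e ≠ e') (c c' : Fin G) :
    (univ.filter (fun a : Fin s → Fin G => a e = c ∧ a e' = c')).card = G ^ (s - 2) := by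
  classical
  have h1 : univ.filter (fun a : Fin s → Fin G => a e = c ∧ a e' = c') =
      Fintype.piFinset (fun i => if i = e then {c} else if i = e' then {c'} else univ) := by
    ext a
    simp only [mem_filter, mem_univ, true_and, Fintype.mem_piFinset]
    constructor
    · rintro ⟨h, h'⟩ i
      by_cases hi : i = e
      · subst hi; simp [h]
      · by_cases hi' : i = e'
        · subst hi'; simp [h', hi]
        · simp [hi, hi']
    · intro h
      have k1 := h e
      have k2 := h e'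
      rw [if_neg (Ne.symm hne), if_pos rfl] at k2
      exact ⟨by simpa using k1, by simpa using k2⟩
  rw [h1, Fintype.card_piFinset, ← Finset.mul_prod_erase _ _ (mem_univ e)]
  rw [if_pos rfl, card_singleton, one_mul]
  have he' : e' ∈ univ.erase e := by simp [Ne.symm hne]
  rw [← Finset.mul_prod_erase _ _ he']
  rw [if_neg (Ne.symm hne), if_pos rfl, card_singleton, one_mul]
  rw [Finset.prod_congr rfl (g := fun _ => G)]
  · rw [prod_const, card_erase_of_mem he', card_erase_of_mem (mem_univ e)]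
    simp
    congr 1
  · intro i hi
    have h2 := Finset.ne_of_mem_erase hi
    have h3 := Finset.ne_of_mem_erase (Finset.mem_of_mem_erase hi)
    rw [if_neg h3, if_neg h2]
    simp

/-- the cluster of the numbers below `G ^ s` which agree with `w` above the digit `e` and have the
digit `c` there -/
def Cl (s G w : ℕ) (q : ℕ × ℕ) : Finset ℕ :=
  (range (G ^ s)).filter (fun i => i / G ^ (q.1 + 1) = w / G ^ (q.1 + 1) ∧ i / G ^ q.1 % G = q.2)

theorem mem_Cl {w i : ℕ} {q : ℕ × ℕ} : i ∈ Cl s G w q ↔ i < G ^ s ∧ InC G q.1 q.2 w i := by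
  unfold Cl InC
  rw [mem_filter, mem_range]

/-- the slope of the point number `z` from `w` is strictly inside the slopes of the cluster `q` -/
def Inside (x y : ℕ → ℝ) (s G w : ℕ) (q : ℕ × ℕ) (z : ℕ) : Prop :=
  ∃ i ∈ Cl s G w q, ∃ j ∈ Cl s G w q, slp x y w i < slp x y w z ∧ slp x y w z < slp x y w j

/-- the slopes of the two clusters are separated -/
def Sepd (x y : ℕ → ℝ) (s G w : ℕ) (q q' : ℕ × ℕ) : Prop :=
  (∀ i ∈ Cl s G w q, ∀ j ∈ Cl s G w q', slp x y w i < slp x y w j) ∨
  (∀ i ∈ Cl s G w q, ∀ j ∈ Cl s G w q', slp x y w j < slp x y w i)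

theorem exists_mn (x y : ℕ → ℝ) (s G w : ℕ) : ∃ mn : ℕ × ℕ → ℕ, ∀ q, (Cl s G w q).Nonempty →
    mn q ∈ Cl s G w q ∧ ∀ i ∈ Cl s G w q, slp x y w (mn q) ≤ slp x y w i := by
  classical
  have : ∀ q, ∃ z, (Cl s G w q).Nonempty →
      z ∈ Cl s G w q ∧ ∀ i ∈ Cl s G w q, slp x y w z ≤ slp x y w i := by
    intro q
    by_cases h : (Cl s G w q).Nonempty
    · obtain ⟨z, hz, h1⟩ := Finset.exists_min_image _ (slp x y w) h
      exact ⟨z, fun _ => ⟨hz, h1⟩⟩
    · exact ⟨0, fun h' => absurd h' h⟩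
  choose mn h using this
  exact ⟨mn, h⟩

variable {x y : ℕ → ℝ} {N m : ℕ}

theorem inside_of_not_sep {w : ℕ}
    (hgen : ∀ i j z, i < N → j < N → z < N → i ≠ j → j ≠ z → i ≠ z → slp x y i j ≠ slp x y i z)
    (hGN : G ^ s ≤ N) (hw : w < G ^ s) {q q' : ℕ × ℕ} (hq : q.2 ≠ w / G ^ q.1 % G)
    (hq' : q'.2 ≠ w / G ^ q'.1 % G) (hne : q ≠ q') {mn : ℕ × ℕ → ℕ}
    (hmn : ∀ q, (Cl s G w q).Nonempty →
      mn q ∈ Cl s G w q ∧ ∀ i ∈ Cl s G w q, slp x y w (mn q) ≤ slp x y w i)
    (h : ¬ Sepd x y s G w q q') :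
    Inside x y s G w q (mn q') ∨ Inside x y s G w q' (mn q) := by
  unfold Sepd at h
  push Not at h
  obtain ⟨⟨i, hi, j, hj, h1⟩, i', hi', j', hj', h2⟩ := h
  obtain ⟨m1, m2⟩ := hmn q ⟨i, hi⟩
  obtain ⟨m3, m4⟩ := hmn q' ⟨j, hj⟩
  have hdist : ∀ {a b : ℕ}, a ∈ Cl s G w q → b ∈ Cl s G w q' → slp x y w a ≠ slp x y w b := by
    intro a b ha hb
    rw [mem_Cl] at ha hb
    apply hgen w a b (by omega) (by omega) (by omega)
    · rintro rfl; exact hq ha.2.2.symm
    · rintro rfl
      obtain ⟨E, u, u', huu, k1, k2⟩ := separated hq hq' hne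
      exact huu ((k1 a ha.2).symm.trans (k2 a hb.2))
    · rintro rfl; exact hq' hb.2.2.symm
  rcases lt_or_gt_of_ne (hdist m1 m3) with h3 | h3
  · left
    refine ⟨mn q, m1, i, hi, h3, ?_⟩
    have := hdist hi m3
    exact lt_of_le_of_ne ((m4 j hj).trans h1) this.symm
  · right
    refine ⟨mn q', m3, j', hj', h3, ?_⟩
    have := hdist m1 hj'
    exact lt_of_le_of_ne ((m2 i' hi').trans h2) this

/-- bad pairs of words -/
def BadW (x y : ℕ → ℝ) (w a : Fin s → Fin G) : Prop :=
  (∃ e, a e = w e) ∨ ∃ e e' : Fin s, e ≠ e' ∧ a e ≠ w e ∧ a e' ≠ w e' ∧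
    ¬ Sepd x y s G (idx w) ((e : ℕ), (a e : ℕ)) ((e' : ℕ), (a e' : ℕ))

theorem bad_count (hx : ∀ i j, i < j → j < N → x i < x j) (hA : NoAlt x y N m)
    (hgen : ∀ i j z, i < N → j < N → z < N → i ≠ j → j ≠ z → i ≠ z → slp x y i j ≠ slp x y i z)
    (hGN : G ^ s ≤ N) (hs : 2 ≤ s) (hG : 2 * (s * m) ≤ G) (w : Fin s → Fin G) (B : Finset (Fin s → Fin G))
    (hB : ∀ a ∈ B, BadW x y w a) :
    2 * B.card ≤ G ^ s := by
  classical
  have hwl := idx_lt w
  obtain ⟨mn, hmn⟩ := exists_mn x y s G (idx w)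
  have hG0 : 0 < G := by
    by_contra hc
    have h0 : G = 0 := by omega
    subst h0
    exact absurd (w ⟨0, by omega⟩).2 (by omega)
  -- clusters containing a given direction
  let X : Fin s × Fin G → Finset (Fin s × Fin G) := fun Y =>
    univ.filter (fun q => q.2 ≠ w q.1 ∧ Inside x y s G (idx w) ((q.1 : ℕ), (q.2 : ℕ))
      (mn ((Y.1 : ℕ), (Y.2 : ℕ))))
  have hXcard : ∀ Y, (X Y).card < m := by
    intro Y
    have h1 := count_le hx hA (G := G) (w := idx w) (by omega)
      (slp x y (idx w) (mn ((Y.1 : ℕ), (Y.2 : ℕ))))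
      ((X Y).image (fun q => ((q.1 : ℕ), (q.2 : ℕ)))) (by
        intro q hq
        obtain ⟨q', hq', rfl⟩ := mem_image.1 hq
        have := (mem_filter.1 hq').2.1
        intro h2
        apply this
        apply Fin.ext
        rw [← idx_digit w q'.1]
        exact h2) (by
        intro q hq
        obtain ⟨q', hq', rfl⟩ := mem_image.1 hq
        obtain ⟨i, hi, j, hj, k1, k2⟩ := (mem_filter.1 hq').2.2
        rw [mem_Cl] at hi hj
        exact ⟨i, j, hi.2, hj.2, by omega, by omega, k1, k2⟩)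
    rw [card_image_of_injective] at h1
    · exact h1
    · intro q q' hqq
      have e1 : (q.1 : ℕ) = q'.1 := congrArg Prod.fst hqq
      have e2 : (q.2 : ℕ) = q'.2 := congrArg Prod.snd hqq
      exact Prod.ext (Fin.ext e1) (Fin.ext e2)
  have hsub : B ⊆ (univ.biUnion (fun e : Fin s => univ.filter (fun a : Fin s → Fin G => a e = w e))) ∪
      (univ.biUnion (fun Y : Fin s × Fin G => (X Y).biUnion (fun q =>
        if q.1 = Y.1 then ∅ else
          univ.filter (fun a : Fin s → Fin G => a q.1 = q.2 ∧ a Y.1 = Y.2)))) := by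
    intro a ha
    rcases hB a ha with ⟨e, he⟩ | ⟨e, e', hee, h1, h2, h3⟩
    · apply mem_union_left
      exact mem_biUnion.2 ⟨e, mem_univ _, mem_filter.2 ⟨mem_univ _, he⟩⟩
    · apply mem_union_right
      have d1 : ((e : ℕ), (a e : ℕ)).2 ≠ idx w / G ^ ((e : ℕ), (a e : ℕ)).1 % G := by
        show (a e : ℕ) ≠ idx w / G ^ (e : ℕ) % G
        rw [idx_digit]
        exact fun h => h1 (Fin.ext h)
      have d2 : ((e' : ℕ), (a e' : ℕ)).2 ≠ idx w / G ^ ((e' : ℕ), (a e' : ℕ)).1 % G := by
        show (a e' : ℕ) ≠ idx w / G ^ (e' : ℕ) % G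
        rw [idx_digit]
        exact fun h => h2 (Fin.ext h)
      have hne : ((e : ℕ), (a e : ℕ)) ≠ ((e' : ℕ), (a e' : ℕ)) := by
        intro h
        exact hee (Fin.ext (congrArg Prod.fst h))
      rcases inside_of_not_sep hgen hGN hwl d1 d2 hne hmn h3 with h4 | h4
      · refine mem_biUnion.2 ⟨(e', a e'), mem_univ _, mem_biUnion.2 ⟨(e, a e), ?_, ?_⟩⟩
        · exact mem_filter.2 ⟨mem_univ _, h1, h4⟩
        · simp [hee]
      · refine mem_biUnion.2 ⟨(e, a e), mem_univ _, mem_biUnion.2 ⟨(e', a e'), ?_, ?_⟩⟩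
        · exact mem_filter.2 ⟨mem_univ _, h2, h4⟩
        · simp [Ne.symm hee]
  have h1 : (univ.biUnion (fun e : Fin s => univ.filter
      (fun a : Fin s → Fin G => a e = w e))).card ≤ s * G ^ (s - 1) := by
    refine card_biUnion_le.trans (le_of_eq ?_)
    calc ∑ e : Fin s, (univ.filter (fun a : Fin s → Fin G => a e = w e)).card
        = ∑ _e : Fin s, G ^ (s - 1) := Finset.sum_congr rfl (fun e _ => card_one e (w e))
      _ = s * G ^ (s - 1) := by simp
  have h2 : (univ.biUnion (fun Y : Fin s × Fin G => (X Y).biUnion (fun q =>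
        if q.1 = Y.1 then ∅ else
          univ.filter (fun a : Fin s → Fin G => a q.1 = q.2 ∧ a Y.1 = Y.2)))).card ≤
      (s * G) * ((m - 1) * G ^ (s - 2)) := by
    refine card_biUnion_le.trans ?_
    calc _ ≤ ∑ _Y : Fin s × Fin G, (m - 1) * G ^ (s - 2) := by
          apply Finset.sum_le_sum
          intro Y _
          refine card_biUnion_le.trans ?_
          calc _ ≤ ∑ _q ∈ X Y, G ^ (s - 2) := by
                apply Finset.sum_le_sum
                intro q _
                split_ifs with h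
                · simp
                · rw [card_two h]
            _ = (X Y).card * G ^ (s - 2) := by simp
            _ ≤ (m - 1) * G ^ (s - 2) := by
                apply Nat.mul_le_mul_right
                have := hXcard Y
                omega
      _ = (s * G) * ((m - 1) * G ^ (s - 2)) := by simp
  have h3 : B.card ≤ s * G ^ (s - 1) + (s * G) * ((m - 1) * G ^ (s - 2)) :=
    (card_le_card hsub).trans ((card_union_le _ _).trans (add_le_add h1 h2))
  have hm : 1 ≤ m := by
    have := hXcard (⟨0, by omega⟩, ⟨0, hG0⟩)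
    omega
  obtain ⟨s', rfl⟩ : ∃ s', s = s' + 2 := ⟨s - 2, by omega⟩
  obtain ⟨m', rfl⟩ : ∃ m', m = m' + 1 := ⟨m - 1, by omega⟩
  simp only [Nat.add_sub_cancel] at h3
  have e1 : s' + 2 - 1 = s' + 1 := by omega
  rw [e1] at h3
  calc 2 * B.card ≤ 2 * ((s' + 2) * G ^ (s' + 1) + ((s' + 2) * G) * (m' * G ^ s')) := by omega
    _ = (2 * ((s' + 2) * (m' + 1))) * G ^ (s' + 1) := by ring
    _ ≤ G * G ^ (s' + 1) := Nat.mul_le_mul_right _ hG
    _ = G ^ (s' + 2) := by ring

end

end Pool.Agent.H595K
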