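import Mathlib
import Pool.Agent.H595K.Thin2

/-!
# A homogeneous set of words
-/

namespace Pool.Agent.H595K

open Finset

section
variable {s G : ℕ}

/-- mixing two words -/
def mix (b : Fin s → Bool) (α β : Fin s → Fin G) : Fin s → Fin G :=
  fun e => if b e = true then β e else α e

theorem mix_mix (b : Fin s → Bool) (α β : Fin s → Fin G) :
    mix b (mix b α β) (mix b β α) = α := by
  funext e
  unfold mix
  by_cases h : b e = true <;> simp [h]

theorem mix_mix' (b : Fin s → Bool) (α β : Fin s → Fin G) :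
    mix b (mix b β α) (mix b α β) = β := mix_mix b β α

variable {x y : ℕ → ℝ} {N m : ℕ}

theorem exists_good (hx : ∀ i j, i < j → j < N → x i < x j) (hA : NoAlt x y N m)
    (hgen : ∀ i j z, i < N → j < N → z < N → i ≠ j → j ≠ z → i ≠ z → slp x y i j ≠ slp x y i z)
    (hGN : G ^ s ≤ N) (hs : 2 ≤ s) (hG : 2 * (s * m) ≤ G) (hG0 : 0 < G) :
    ∃ (α β : Fin s → Fin G) (Z : Finset (Fin s → Bool)), 2 ^ s ≤ 2 * Z.card ∧
      ∀ b ∈ Z, ¬ BadW x y (mix b α β) (mix b β α) := by
  classical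
  by_contra hcon
  push Not at hcon
  have h1 : ∀ αβ : (Fin s → Fin G) × (Fin s → Fin G),
      2 * (univ.filter (fun b : Fin s → Bool =>
        ¬ BadW x y (mix b αβ.1 αβ.2) (mix b αβ.2 αβ.1))).card < 2 ^ s := by
    intro αβ
    by_contra hc
    push Not at hc
    obtain ⟨b, hb, hb2⟩ := hcon αβ.1 αβ.2 _ hc
    exact (mem_filter.1 hb).2 hb2
  have h2 : ∑ αβ : (Fin s → Fin G) × (Fin s → Fin G), 2 * (univ.filter (fun b : Fin s → Bool =>
        ¬ BadW x y (mix b αβ.1 αβ.2) (mix b αβ.2 αβ.1))).card <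
      ∑ _αβ : (Fin s → Fin G) × (Fin s → Fin G), 2 ^ s := by
    apply Finset.sum_lt_sum_of_nonempty
    · exact ⟨(fun _ => ⟨0, hG0⟩, fun _ => ⟨0, hG0⟩), mem_univ _⟩
    · intro αβ _
      exact h1 αβ
  have h3 : ∑ αβ : (Fin s → Fin G) × (Fin s → Fin G), (univ.filter (fun b : Fin s → Bool =>
        ¬ BadW x y (mix b αβ.1 αβ.2) (mix b αβ.2 αβ.1))).card =
      ∑ b : Fin s → Bool, (univ.filter (fun αβ : (Fin s → Fin G) × (Fin s → Fin G) =>
        ¬ BadW x y (mix b αβ.1 αβ.2) (mix b αβ.2 αβ.1))).card := by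
    simp only [Finset.card_filter]
    exact Finset.sum_comm
  have h4 : ∀ b : Fin s → Bool, (univ.filter (fun αβ : (Fin s → Fin G) × (Fin s → Fin G) =>
        ¬ BadW x y (mix b αβ.1 αβ.2) (mix b αβ.2 αβ.1))).card =
      (univ.filter (fun wa : (Fin s → Fin G) × (Fin s → Fin G) => ¬ BadW x y wa.1 wa.2)).card := by
    intro b
    refine Finset.card_bij' (fun αβ _ => (mix b αβ.1 αβ.2, mix b αβ.2 αβ.1))
      (fun αβ _ => (mix b αβ.1 αβ.2, mix b αβ.2 αβ.1)) ?_ ?_ ?_ ?_
    · intro αβ h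
      simp only [mem_filter, mem_univ, true_and] at h ⊢
      exact h
    · intro αβ h
      simp only [mem_filter, mem_univ, true_and] at h ⊢
      rw [mix_mix, mix_mix']
      exact h
    · intro αβ h
      simp only [mix_mix, mix_mix']
    · intro αβ h
      simp only [mix_mix, mix_mix']
  have h5 : ∀ w : Fin s → Fin G, G ^ s ≤ 2 * (univ.filter (fun a : Fin s → Fin G =>
      ¬ BadW x y w a)).card := by
    intro w
    have k1 := bad_count hx hA hgen hGN hs hG w (univ.filter (fun a : Fin s → Fin G =>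
      BadW x y w a)) (fun a ha => (mem_filter.1 ha).2)
    have k2 := Finset.card_filter_add_card_filter_not (s := (univ : Finset (Fin s → Fin G)))
      (fun a => BadW x y w a)
    have k3 : (univ : Finset (Fin s → Fin G)).card = G ^ s := by simp
    omega
  have h6 : (univ.filter (fun wa : (Fin s → Fin G) × (Fin s → Fin G) =>
      ¬ BadW x y wa.1 wa.2)).card = ∑ w : Fin s → Fin G, (univ.filter (fun a : Fin s → Fin G =>
      ¬ BadW x y w a)).card := by
    simp only [Finset.card_filter]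
    rw [← Finset.univ_product_univ, Finset.sum_product]
  have h7 : G ^ s * G ^ s ≤ 2 * (univ.filter (fun wa : (Fin s → Fin G) × (Fin s → Fin G) =>
      ¬ BadW x y wa.1 wa.2)).card := by
    rw [h6, Finset.mul_sum]
    calc G ^ s * G ^ s = ∑ _w : Fin s → Fin G, G ^ s := by simp
      _ ≤ _ := Finset.sum_le_sum (fun w _ => h5 w)
  rw [← Finset.mul_sum, h3, Finset.sum_congr rfl (fun b _ => h4 b)] at h2
  simp only [Finset.sum_const, Finset.card_univ, Fintype.card_prod, Fintype.card_fun,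
    Fintype.card_fin, Fintype.card_bool, smul_eq_mul] at h2
  have h8 := Nat.mul_le_mul_left (2 ^ s) h7
  have h9 : 2 ^ s * (2 * (univ.filter (fun wa : (Fin s → Fin G) × (Fin s → Fin G) =>
      ¬ BadW x y wa.1 wa.2)).card) = 2 * (2 ^ s * (univ.filter (fun wa :
      (Fin s → Fin G) × (Fin s → Fin G) => ¬ BadW x y wa.1 wa.2)).card) := by ring
  have h10 : 2 ^ s * (G ^ s * G ^ s) = G ^ s * G ^ s * 2 ^ s := by ring
  rw [h9, h10] at h8
  omega

/-- `i` and `w` differ first at the digit `e` -/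
def Dif (G w i e : ℕ) : Prop := i / G ^ (e + 1) = w / G ^ (e + 1) ∧ i / G ^ e ≠ w / G ^ e

theorem exists_thin (hx : ∀ i j, i < j → j < N → x i < x j) (hA : NoAlt x y N m)
    (hgen : ∀ i j z, i < N → j < N → z < N → i ≠ j → j ≠ z → i ≠ z → slp x y i j ≠ slp x y i z)
    (hGN : G ^ s ≤ N) (hs : 2 ≤ s) (hG : 2 * (s * m) ≤ G) (hG0 : 0 < G) :
    ∃ (T : Finset ℕ) (α β : ℕ → ℕ), 2 ^ s ≤ 2 * T.card ∧ (∀ i ∈ T, i < G ^ s) ∧
      (∀ i ∈ T, ∀ e, e < s → i / G ^ e % G = α e ∨ i / G ^ e % G = β e) ∧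
      ∀ w ∈ T, ∀ e e', e < s → e' < s → e ≠ e' →
        (∀ i ∈ T, ∀ j ∈ T, Dif G w i e → Dif G w j e' → slp x y w i < slp x y w j) ∨
        (∀ i ∈ T, ∀ j ∈ T, Dif G w i e → Dif G w j e' → slp x y w j < slp x y w i) := by
  classical
  obtain ⟨α, β, Z, hZ, hgood⟩ := exists_good hx hA hgen hGN hs hG hG0
  have hZne : Z.Nonempty := by
    rw [← Finset.card_pos]
    have : 0 < 2 ^ s := by positivity
    omega
  have hαβ : ∀ e, α e ≠ β e := by
    intro e he
    obtain ⟨b, hb⟩ := hZne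
    apply hgood b hb
    left
    refine ⟨e, ?_⟩
    unfold mix
    by_cases h : b e = true <;> simp [h, he]
  have hinj : Set.InjOn (fun b => idx (mix b α β)) Z := by
    intro b _ b' _ hbb
    have h1 := idx_inj hbb
    funext e
    have h2 := congrFun h1 e
    unfold mix at h2
    cases hb : b e <;> cases hb' : b' e <;> simp [hb, hb'] at h2 ⊢
    · exact hαβ e h2
    · exact hαβ e h2.symm
  have hdig : ∀ (b : Fin s → Bool) (e : ℕ) (he : e < s),
      idx (mix b α β) / G ^ e % G = if b ⟨e, he⟩ = true then (β ⟨e, he⟩ : ℕ) else α ⟨e, he⟩ := by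
    intro b e he
    have := idx_digit (mix b α β) ⟨e, he⟩
    rw [this]
    unfold mix
    split_ifs <;> rfl
  have hdig' : ∀ (b : Fin s → Bool) (e : ℕ) (he : e < s),
      ((mix b β α ⟨e, he⟩ : Fin G) : ℕ) = if b ⟨e, he⟩ = true then (α ⟨e, he⟩ : ℕ) else β ⟨e, he⟩ := by
    intro b e he
    unfold mix
    split_ifs <;> rfl
  -- an element of `T` which differs first at `e` is in the cluster
  have hcl : ∀ b ∈ Z, ∀ b' ∈ Z, ∀ (e : ℕ) (he : e < s),
      Dif G (idx (mix b α β)) (idx (mix b' α β)) e →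
      idx (mix b' α β) ∈ Cl s G (idx (mix b α β)) (e, ((mix b β α ⟨e, he⟩ : Fin G) : ℕ)) := by
    intro b _ b' _ e he hd
    rw [mem_Cl]
    refine ⟨idx_lt _, hd.1, ?_⟩
    obtain ⟨d1, d2⟩ := hd
    have e1 := self_div G e (idx (mix b α β))
    have e2 := self_div G e (idx (mix b' α β))
    rw [d1] at e2
    have e3 : idx (mix b' α β) / G ^ e % G ≠ idx (mix b α β) / G ^ e % G := by omega
    show idx (mix b' α β) / G ^ e % G = ((mix b β α ⟨e, he⟩ : Fin G) : ℕ)
    rw [hdig' b e he, hdig b' e he]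
    rw [hdig b e he, hdig b' e he] at e3
    cases hb : b ⟨e, he⟩ <;> cases hb' : b' ⟨e, he⟩ <;> simp [hb, hb'] at e3 ⊢
  refine ⟨Z.image (fun b => idx (mix b α β)), fun e => if h : e < s then (α ⟨e, h⟩ : ℕ) else 0,
    fun e => if h : e < s then (β ⟨e, h⟩ : ℕ) else 0, ?_, ?_, ?_, ?_⟩
  · rw [card_image_of_injOn hinj]; exact hZ
  · intro i hi
    obtain ⟨b, _, rfl⟩ := mem_image.1 hi
    exact idx_lt _
  · intro i hi e he
    obtain ⟨b, _, rfl⟩ := mem_image.1 hi
    simp only [dif_pos he]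
    show idx (mix b α β) / G ^ e % G = _ ∨ idx (mix b α β) / G ^ e % G = _
    rw [hdig b e he]
    by_cases hb : b ⟨e, he⟩ = true
    · right; simp [hb]
    · left; simp [hb]
  · intro w hw e e' he he' hee
    obtain ⟨b, hb, rfl⟩ := mem_image.1 hw
    have h1 := hgood b hb
    unfold BadW at h1
    push Not at h1
    obtain ⟨h2, h3⟩ := h1
    have h4 : Sepd x y s G (idx (mix b α β)) (e, ((mix b β α ⟨e, he⟩ : Fin G) : ℕ))
        (e', ((mix b β α ⟨e', he'⟩ : Fin G) : ℕ)) := by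
      have := h3 ⟨e, he⟩ ⟨e', he'⟩ (fun h => hee (congrArg Fin.val h)) (h2 _) (h2 _)
      exact this
    rcases h4 with h4 | h4
    · left
      intro i hi j hj hdi hdj
      obtain ⟨b1, hb1, rfl⟩ := mem_image.1 hi
      obtain ⟨b2, hb2, rfl⟩ := mem_image.1 hj
      exact h4 _ (hcl b hb b1 hb1 e he hdi) _ (hcl b hb b2 hb2 e' he' hdj)
    · right
      intro i hi j hj hdi hdj
      obtain ⟨b1, hb1, rfl⟩ := mem_image.1 hi
      obtain ⟨b2, hb2, rfl⟩ := mem_image.1 hj
      exact h4 _ (hcl b hb b1 hb1 e he hdi) _ (hcl b hb b2 hb2 e' he' hdj)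

end

end Pool.Agent.H595K
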