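import Mathlib
import Pool.Agent.H595K.Thin3

/-!
# The homogeneous tree
-/

namespace Pool.Agent.H595K

open Finset Tr

theorem Dif.symm {G w i e : ℕ} (h : Dif G w i e) : Dif G i w e := ⟨h.1.symm, h.2.symm⟩

/-- the inner nodes of the tree have levels smaller than `e`, decreasing downwards -/
def Lev (G : ℕ) : Tr → ℕ → Prop
  | Tr.leaf _, _ => True
  | Tr.node l r, e => ∃ e', e' < e ∧ (∀ i ∈ l.lv, ∀ j ∈ r.lv, Dif G i j e') ∧
      Lev G l e' ∧ Lev G r e'

theorem Lev.mono {G : ℕ} {t : Tr} {e e' : ℕ} (h : Lev G t e) (hee : e ≤ e') : Lev G t e' := by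
  cases t with
  | leaf i => trivial
  | node l r =>
    obtain ⟨d, h1, h2⟩ := h
    exact ⟨d, by omega, h2⟩

theorem three_gt {x y : ℕ → ℝ} {i j z : ℕ} (hij : x i < x j) (hz : x j < x z ∨ x z < x i) :
    slp x y i z < slp x y i j ↔ slp x y j z < slp x y i j := by
  rcases hz with hz | hz
  · have e1 := slp_mul (y := y) hij
    have e2 := slp_mul (y := y) hz
    have e3 := slp_mul (y := y) (hij.trans hz)
    constructor
    · intro h
      by_contra hc
      push Not at hc
      have f1 := mul_lt_mul_of_pos_right h (show 0 < x z - x i by linarith)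
      have f2 := mul_le_mul_of_nonneg_right hc (show 0 ≤ x z - x j by linarith)
      have f3 : slp x y i j * (x z - x i) = slp x y i j * (x j - x i) + slp x y i j * (x z - x j) := by
        ring
      linarith
    · intro h
      by_contra hc
      push Not at hc
      have f1 := mul_lt_mul_of_pos_right h (show 0 < x z - x j by linarith)
      have f2 := mul_le_mul_of_nonneg_right hc (show 0 ≤ x z - x i by linarith)
      have f3 : slp x y i j * (x z - x i) = slp x y i j * (x j - x i) + slp x y i j * (x z - x j) := by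
        ring
      linarith
  · have e1 := slp_mul (y := y) hij
    have e2 := slp_mul (y := y) hz
    have e3 := slp_mul (y := y) (hz.trans hij)
    rw [slp_comm x y i z, slp_comm x y j z]
    constructor
    · intro h
      by_contra hc
      push Not at hc
      have f1 := mul_lt_mul_of_pos_right h (show 0 < x i - x z by linarith)
      have f2 := mul_le_mul_of_nonneg_right hc (show 0 ≤ x j - x z by linarith)
      have f3 : slp x y i j * (x j - x z) = slp x y i j * (x j - x i) + slp x y i j * (x i - x z) := by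
        ring
      linarith
    · intro h
      by_contra hc
      push Not at hc
      have f1 := mul_lt_mul_of_pos_right h (show 0 < x j - x z by linarith)
      have f2 := mul_le_mul_of_nonneg_right hc (show 0 ≤ x i - x z by linarith)
      have f3 : slp x y i j * (x j - x z) = slp x y i j * (x j - x i) + slp x y i j * (x i - x z) := by
        ring
      linarith

theorem slp_neg (x y : ℕ → ℝ) (i j : ℕ) : slp x (fun n => - y n) i j = - slp x y i j := by
  unfold slp
  ring

theorem three_lt {x y : ℕ → ℝ} {i j z : ℕ} (hij : x i < x j) (hz : x j < x z ∨ x z < x i) :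
    slp x y i j < slp x y i z ↔ slp x y i j < slp x y j z := by
  have h := three_gt (y := fun n => - y n) hij hz
  rw [slp_neg, slp_neg, slp_neg] at h
  rw [neg_lt_neg_iff, neg_lt_neg_iff] at h
  exact h

/-- the separation of the directions at the points of `T` -/
def GoodT (x y : ℕ → ℝ) (G : ℕ) (T : Finset ℕ) (s : ℕ) : Prop :=
  ∀ w ∈ T, ∀ e e', e < s → e' < s → e ≠ e' →
        (∀ i ∈ T, ∀ j ∈ T, Dif G w i e → Dif G w j e' → slp x y w i < slp x y w j) ∨
        (∀ i ∈ T, ∀ j ∈ T, Dif G w i e → Dif G w j e' → slp x y w j < slp x y w i)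

theorem homog_pair {x y : ℕ → ℝ} {G s : ℕ} {T : Finset ℕ} (hT : GoodT x y G T s)
    {a b Z : List ℕ} {e e' : ℕ} (he : e < s) (he' : e' < s) (hee : e ≠ e')
    (ha : ∀ i ∈ a, i ∈ T) (hb : ∀ i ∈ b, i ∈ T) (hZ : ∀ i ∈ Z, i ∈ T)
    (hab : ∀ i ∈ a, ∀ j ∈ b, Dif G i j e) (haz : ∀ i ∈ a, ∀ z ∈ Z, Dif G i z e')
    (hbz : ∀ j ∈ b, ∀ z ∈ Z, Dif G j z e')
    (hx : ∀ i ∈ a, ∀ j ∈ b, x i < x j) (ho : ∀ i ∈ a, ∀ j ∈ b, ∀ z ∈ Z, x j < x z ∨ x z < x i) :
    GtR (slp x y) a b Z ∨ GtR (fun i j => - slp x y i j) a b Z := by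
  by_cases hne : (∃ i, i ∈ a) ∧ ∃ z, z ∈ Z
  · obtain ⟨⟨i0, hi0⟩, z0, hz0⟩ := hne
    rcases hT i0 (ha i0 hi0) e e' he he' hee with h | h
    · right
      intro i hi j hj z hz
      have h1 := h j (hb j hj) z0 (hZ z0 hz0) (hab i0 hi0 j hj) (haz i0 hi0 z0 hz0)
      rw [three_lt (hx i0 hi0 j hj) (ho i0 hi0 j hj z0 hz0)] at h1
      rcases hT j (hb j hj) e e' he he' hee with h2 | h2
      · have h3 := h2 i (ha i hi) z (hZ z hz) (hab i hi j hj).symm (hbz j hj z hz)
        rw [slp_comm x y j i] at h3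
        have h4 := (three_lt (hx i hi j hj) (ho i hi j hj z hz)).2 h3
        exact ⟨neg_lt_neg h4, neg_lt_neg h3⟩
      · have h3 := h2 i0 (ha i0 hi0) z0 (hZ z0 hz0) (hab i0 hi0 j hj).symm (hbz j hj z0 hz0)
        rw [slp_comm x y j i0] at h3
        exact absurd h3 (not_lt.2 h1.le)
    · left
      intro i hi j hj z hz
      have h1 := h j (hb j hj) z0 (hZ z0 hz0) (hab i0 hi0 j hj) (haz i0 hi0 z0 hz0)
      rw [three_gt (hx i0 hi0 j hj) (ho i0 hi0 j hj z0 hz0)] at h1
      rcases hT j (hb j hj) e e' he he' hee with h2 | h2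
      · have h3 := h2 i0 (ha i0 hi0) z0 (hZ z0 hz0) (hab i0 hi0 j hj).symm (hbz j hj z0 hz0)
        rw [slp_comm x y j i0] at h3
        exact absurd h3 (not_lt.2 h1.le)
      · have h3 := h2 i (ha i hi) z (hZ z hz) (hab i hi j hj).symm (hbz j hj z hz)
        rw [slp_comm x y j i] at h3
        have h4 := (three_gt (hx i hi j hj) (ho i hi j hj z hz)).2 h3
        exact ⟨h4, h3⟩
  · left
    intro i hi j hj z hz
    exact absurd ⟨⟨i, hi⟩, ⟨z, hz⟩⟩ hne

theorem homog_sub {x y : ℕ → ℝ} {G s : ℕ} {T : Finset ℕ} (hT : GoodT x y G T s)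
    {Z : List ℕ} {e' : ℕ} (he' : e' < s) (hZ : ∀ i ∈ Z, i ∈ T) {t : Tr} {e : ℕ}
    (hlev : Lev G t e) (hee : e ≤ e') (ht : ∀ i ∈ t.lv, i ∈ T)
    (hd : ∀ i ∈ t.lv, ∀ z ∈ Z, Dif G i z e')
    (hx : t.lv.Pairwise (fun i j => x i < x j))
    (ho : (∀ i ∈ t.lv, ∀ z ∈ Z, x i < x z) ∨ (∀ i ∈ t.lv, ∀ z ∈ Z, x z < x i)) :
    All (fun a b => GtR (slp x y) a.lv b.lv Z ∨ GtR (fun i j => - slp x y i j) a.lv b.lv Z) t := by
  induction t generalizing e with
  | leaf i => trivial
  | node l r ihl ihr =>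
    obtain ⟨d, h1, h2, h3, h4⟩ := hlev
    simp only [lv] at hx ht hd ho
    rw [List.pairwise_append] at hx
    obtain ⟨hx1, hx2, hx3⟩ := hx
    have htl : ∀ i ∈ l.lv, i ∈ T := fun i hi => ht i (List.mem_append_left _ hi)
    have htr : ∀ i ∈ r.lv, i ∈ T := fun i hi => ht i (List.mem_append_right _ hi)
    refine ⟨?_, ?_, ?_⟩
    · apply homog_pair hT (show d < s by omega) he' (by omega) htl htr hZ h2
        (fun i hi z hz => hd i (List.mem_append_left _ hi) z hz)
        (fun i hi z hz => hd i (List.mem_append_right _ hi) z hz) hx3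
      intro i hi j hj z hz
      rcases ho with ho | ho
      · left; exact ho j (List.mem_append_right _ hj) z hz
      · right; exact ho i (List.mem_append_left _ hi) z hz
    · apply ihl h3 (by omega) htl (fun i hi z hz => hd i (List.mem_append_left _ hi) z hz) hx1
      rcases ho with ho | ho
      · left; exact fun i hi z hz => ho i (List.mem_append_left _ hi) z hz
      · right; exact fun i hi z hz => ho i (List.mem_append_left _ hi) z hz
    · apply ihr h4 (by omega) htr (fun i hi z hz => hd i (List.mem_append_right _ hi) z hz) hx2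
      rcases ho with ho | ho
      · left; exact fun i hi z hz => ho i (List.mem_append_right _ hi) z hz
      · right; exact fun i hi z hz => ho i (List.mem_append_right _ hi) z hz

theorem homog_tree {x y : ℕ → ℝ} {G s : ℕ} {T : Finset ℕ} (hT : GoodT x y G T s) {t : Tr} {e : ℕ}
    (hlev : Lev G t e) (hee : e ≤ s) (ht : ∀ i ∈ t.lv, i ∈ T)
    (hx : t.lv.Pairwise (fun i j => x i < x j)) : Homog (slp x y) t := by
  induction t generalizing e with
  | leaf i => trivial
  | node l r ihl ihr =>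
    obtain ⟨d, h1, h2, h3, h4⟩ := hlev
    simp only [lv] at hx ht
    rw [List.pairwise_append] at hx
    obtain ⟨hx1, hx2, hx3⟩ := hx
    have htl : ∀ i ∈ l.lv, i ∈ T := fun i hi => ht i (List.mem_append_left _ hi)
    have htr : ∀ i ∈ r.lv, i ∈ T := fun i hi => ht i (List.mem_append_right _ hi)
    refine ⟨⟨?_, ?_⟩, ihl h3 (by omega) htl hx1, ihr h4 (by omega) htr hx2⟩
    · exact homog_sub hT (show d < s by omega) htr h3 le_rfl htl h2 hx1 (Or.inl hx3)
    · exact homog_sub hT (show d < s by omega) htl h4 le_rfl htr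
        (fun i hi z hz => (h2 z hz i hi).symm) hx2 (Or.inr (fun i hi z hz => hx3 z hz i hi))

theorem exists_lev {G s : ℕ} {T : Finset ℕ} {α β : ℕ → ℕ}
    (hd : ∀ i ∈ T, ∀ e, e < s → i / G ^ e % G = α e ∨ i / G ^ e % G = β e) (e : ℕ) (he : e ≤ s)
    (Q : Finset ℕ) (hQ : Q ⊆ T) (hne : Q.Nonempty) (p : ℕ) (hp : ∀ i ∈ Q, i / G ^ e = p) :
    ∃ t : Tr, (∀ i, i ∈ t.lv ↔ i ∈ Q) ∧ t.lv.Pairwise (fun i j => i < j) ∧ t.ht ≤ e ∧
      Lev G t e := by
  classical
  induction e generalizing Q p with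
  | zero =>
    obtain ⟨q, hq⟩ := hne
    refine ⟨Tr.leaf q, ?_, ?_, ?_, trivial⟩
    · intro i
      simp only [lv, List.mem_singleton]
      constructor
      · rintro rfl; exact hq
      · intro hi
        have h1 := hp i hi
        have h2 := hp q hq
        simp only [pow_zero, Nat.div_one] at h1 h2
        omega
    · simp [lv]
    · simp [ht]
  | succ e ih =>
    obtain ⟨q, hq, hmin⟩ := Finset.exists_min_image Q (fun i => i / G ^ e) hne
    -- the digits
    have hself : ∀ i ∈ Q, i / G ^ e = p * G + i / G ^ e % G := by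
      intro i hi
      have := self_div G e i
      rw [hp i hi] at this
      exact this
    set Q1 := Q.filter (fun i => i / G ^ e = q / G ^ e) with hQ1
    set Q2 := Q.filter (fun i => i / G ^ e ≠ q / G ^ e) with hQ2
    obtain ⟨l, hl1, hl2, hl3, hl4⟩ := ih (by omega) Q1 ((Finset.filter_subset _ _).trans hQ)
      ⟨q, mem_filter.2 ⟨hq, rfl⟩⟩ (q / G ^ e) (fun i hi => (mem_filter.1 hi).2)
    by_cases h2 : Q2.Nonempty
    · obtain ⟨q', hq'⟩ := h2
      obtain ⟨hq'1, hq'2⟩ := mem_filter.1 hq'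
      obtain ⟨r, hr1, hr2, hr3, hr4⟩ := ih (by omega) Q2 ((Finset.filter_subset _ _).trans hQ)
        ⟨q', hq'⟩ (q' / G ^ e) (by
          intro i hi
          obtain ⟨hi1, hi2⟩ := mem_filter.1 hi
          have a1 := hself i hi1
          have a2 := hself q hq
          have a3 := hself q' hq'1
          have b1 := hd i (hQ hi1) e (by omega)
          have b2 := hd q (hQ hq) e (by omega)
          have b3 := hd q' (hQ hq'1) e (by omega)
          omega)
      refine ⟨Tr.node l r, ?_, ?_, ?_, ?_⟩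
      · intro i
        simp only [lv, List.mem_append]
        rw [hl1, hr1, mem_filter, mem_filter]
        tauto
      · simp only [lv]
        rw [List.pairwise_append]
        refine ⟨hl2, hr2, ?_⟩
        intro i hi j hj
        obtain ⟨i1, i2⟩ := mem_filter.1 ((hl1 i).1 hi)
        obtain ⟨j1, j2⟩ := mem_filter.1 ((hr1 j).1 hj)
        have k1 := hmin j j1
        by_contra hc
        have k2 : j / G ^ e ≤ i / G ^ e := Nat.div_le_div_right (not_lt.1 hc)
        omega
      · simp only [ht]; omega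
      · refine ⟨e, by omega, ?_, hl4, hr4⟩
        intro i hi j hj
        obtain ⟨i1, i2⟩ := mem_filter.1 ((hl1 i).1 hi)
        obtain ⟨j1, j2⟩ := mem_filter.1 ((hr1 j).1 hj)
        exact ⟨by rw [hp i i1, hp j j1], by rw [i2]; exact j2⟩
    · rw [Finset.not_nonempty_iff_eq_empty] at h2
      refine ⟨l, ?_, hl2, by omega, hl4.mono (by omega)⟩
      intro i
      rw [hl1, mem_filter]
      constructor
      · exact fun h => h.1
      · intro h
        refine ⟨h, ?_⟩
        by_contra hc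
        have : i ∈ Q2 := mem_filter.2 ⟨h, hc⟩
        rw [h2] at this
        simp at this

theorem exists_tree {x y : ℕ → ℝ} {N m s G : ℕ} (hx : ∀ i j, i < j → j < N → x i < x j)
    (hA : NoAlt x y N m)
    (hgen : ∀ i j z, i < N → j < N → z < N → i ≠ j → j ≠ z → i ≠ z → slp x y i j ≠ slp x y i z)
    (hGN : G ^ s ≤ N) (hs : 2 ≤ s) (hG : 2 * (s * m) ≤ G) (hG0 : 0 < G) :
    ∃ t : Tr, 2 ^ s ≤ 2 * t.lv.length ∧ (∀ i ∈ t.lv, i < N) ∧
      t.lv.Pairwise (fun i j => x i < x j) ∧ t.ht ≤ s ∧ Homog (slp x y) t := by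
  classical
  obtain ⟨T, α, β, h1, h2, h3, h4⟩ := exists_thin hx hA hgen hGN hs hG hG0
  have hT : T.Nonempty := by
    rw [← Finset.card_pos]
    have : 0 < 2 ^ s := by positivity
    omega
  obtain ⟨t, t1, t2, t3, t4⟩ := exists_lev h3 s le_rfl T (Finset.Subset.refl _) hT 0
    (fun i hi => Nat.div_eq_of_lt (h2 i hi))
  have hN : ∀ i ∈ t.lv, i < N := fun i hi => lt_of_lt_of_le (h2 i ((t1 i).1 hi)) hGN
  have hxx : t.lv.Pairwise (fun i j => x i < x j) := by
    rw [List.pairwise_iff_forall_sublist] at t2 ⊢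
    intro i j hij
    exact hx i j (t2 hij) (hN j (hij.subset (by simp)))
  refine ⟨t, ?_, hN, hxx, t3, homog_tree h4 t4 le_rfl (fun i hi => (t1 i).1 hi) hxx⟩
  have hnd : t.lv.Nodup := t2.imp (fun h => ne_of_lt h)
  have : t.lv.toFinset = T := by
    ext i
    rw [List.mem_toFinset]
    exact t1 i
  rw [← List.toFinset_card_of_nodup hnd, this]
  exact h1

end Pool.Agent.H595K
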