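import Mathlib
import Pool.Agent.H124R2.Vis.Orient

/-!
# Many sign changes along a simple polygon give many components of a line in the polygon
-/

namespace Pool.Agent.H595K

open Set Vis124

theorem flip_abstract (T : Finset ℝ) (In : ℝ → Prop)
    (h1 : ∀ s s', s ≤ s' → (∀ x ∈ T, ¬ (s ≤ x ∧ x ≤ s')) → (In s ↔ In s'))
    (h2 : ∀ x ∈ T, ∃ ε > 0, ∀ s s', x - ε < s → s < x → x < s' → s' < x + ε → (In s ↔ ¬ In s'))
    (h3 : ∃ R, ∀ s, s < R → ¬ In s) :
    ∃ y : ℕ → ℝ, (∀ i j, i < j → j ≤ T.card → y i < y j) ∧
      ∀ i, i ≤ T.card → (In (y i) ↔ i % 2 = 1) := by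
  classical
  set N := T.card with hN
  let e := T.orderEmbOfFin hN.symm
  let a : ℕ → ℝ := fun k => if h : k < N then e ⟨k, h⟩ else
    (if h : 0 < N then e ⟨N - 1, by omega⟩ + 2 else 0)
  let b : ℕ → ℝ := fun k => if k = 0 then a 0 - 2 else a (k - 1)
  have ha : ∀ k (h : k < N), a k = e ⟨k, h⟩ := fun k h => by simp only [a, dif_pos h]
  have hb0 : b 0 = a 0 - 2 := by simp [b]
  have hbs : ∀ k, b (k + 1) = a k := fun k => by simp [b]
  have hmem : ∀ k (h : k < N), a k ∈ T := fun k h => by rw [ha k h]; exact T.orderEmbOfFin_mem _ _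
  have hlt : ∀ k, k < N → a k < a (k + 1) := by
    intro k hk
    rw [ha k hk]
    by_cases hk' : k + 1 < N
    · rw [ha _ hk']
      exact e.strictMono (Fin.mk_lt_mk.2 (Nat.lt_succ_self k))
    · have : k = N - 1 := by omega
      subst this
      simp only [a, dif_neg hk', dif_pos (show 0 < N by omega)]
      linarith
  have hba : ∀ k, k ≤ N → b k < a k := by
    intro k hk
    cases k with
    | zero => rw [hb0]; linarith
    | succ k => rw [hbs]; exact hlt k (by omega)
  have hT : ∀ x ∈ T, ∃ k, ∃ h : k < N, x = a k := by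
    intro x hx
    have h4 : x ∈ Set.range e := by rw [T.range_orderEmbOfFin]; exact hx
    obtain ⟨k, hk⟩ := h4
    exact ⟨k, k.2, by rw [ha k k.2]; exact hk.symm⟩
  have hmono : ∀ i j, i ≤ j → j ≤ N → a i ≤ a j := by
    intro i j hij
    induction j, hij using Nat.le_induction with
    | base => intro _; exact le_rfl
    | succ j _ ih => intro hj; exact (ih (by omega)).trans (hlt j (by omega)).le
  let y : ℕ → ℝ := fun k => (b k + a k) / 2
  have hya : ∀ k, k ≤ N → y k < a k := fun k hk => by
    have := hba k hk
    simp only [y]; linarith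
  have hyb : ∀ k, k ≤ N → b k < y k := fun k hk => by
    have := hba k hk
    simp only [y]; linarith
  have hys : ∀ k, k < N → y k < y (k + 1) := by
    intro k hk
    have h4 := hya k hk.le
    have h5 := hyb (k + 1) hk
    rw [hbs] at h5
    linarith
  have hymono : ∀ i j, i < j → j ≤ N → y i < y j := by
    intro i j hij
    induction j, hij using Nat.le_induction with
    | base => intro hj; exact hys i (by omega)
    | succ j _ ih => intro hj; exact (ih (by omega)).trans (hys j (by omega))
  refine ⟨y, hymono, ?_⟩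
  intro i
  induction i with
  | zero =>
    intro _
    obtain ⟨R, hR⟩ := h3
    have h4 := h1 (min (y 0) (R - 1)) (y 0) (min_le_left _ _) (by
      rintro x hx ⟨_, h5⟩
      obtain ⟨k, hk, rfl⟩ := hT x hx
      have h6 := hya 0 (by omega)
      have h7 := hmono 0 k (Nat.zero_le _) hk.le
      linarith)
    rw [← h4]
    have h5 := hR (min (y 0) (R - 1)) (lt_of_le_of_lt (min_le_right _ _) (by linarith))
    simp [h5]
  | succ i ih =>
    intro hi
    have hi' : i < N := hi
    have ih' := ih hi'.le
    obtain ⟨ε, hε, hflip⟩ := h2 (a i) (hmem i hi')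
    have h4 := hya i hi'.le
    have h5 := hyb (i + 1) hi
    rw [hbs] at h5
    have l1 : In (y i) ↔ In (max (y i) (a i - ε / 2)) := by
      apply h1 _ _ (le_max_left _ _)
      rintro x hx ⟨h6, h7⟩
      obtain ⟨k, hk, rfl⟩ := hT x hx
      have h8 : max (y i) (a i - ε / 2) < a i := max_lt h4 (by linarith)
      rcases Nat.lt_or_ge k i with hki | hki
      · have h9 := hyb i hi'.le
        cases i with
        | zero => omega
        | succ i =>
          rw [hbs] at h9
          have := hmono k i (by omega) (by omega)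
          linarith
      · have := hmono i k hki hk.le
        linarith
    have l2 : In (min (y (i + 1)) (a i + ε / 2)) ↔ In (y (i + 1)) := by
      apply h1 _ _ (min_le_left _ _)
      rintro x hx ⟨h6, h7⟩
      obtain ⟨k, hk, rfl⟩ := hT x hx
      have h8 : a i < min (y (i + 1)) (a i + ε / 2) := lt_min h5 (by linarith)
      rcases Nat.lt_or_ge i k with hki | hki
      · have h9 := hya (i + 1) hi
        have := hmono (i + 1) k (by omega) hk.le
        linarith
      · have := hmono k i hki hi'.le
        linarith
    have l3 := hflip (max (y i) (a i - ε / 2)) (min (y (i + 1)) (a i + ε / 2))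
      (lt_of_lt_of_le (by linarith) (le_max_right _ _)) (max_lt h4 (by linarith))
      (lt_min h5 (by linarith)) (lt_of_le_of_lt (min_le_right _ _) (by linarith))
    rw [← l1, l2, ih'] at l3
    by_cases hpar : i % 2 = 1
    · have h6 : ¬ In (y (i + 1)) := l3.1 hpar
      constructor
      · intro h7; exact absurd h7 h6
      · intro h7; omega
    · have h6 : In (y (i + 1)) := by
        by_contra h7
        exact hpar (l3.2 h7)
      constructor
      · intro _; omega
      · intro _; exact h6

section
variable {n : ℕ} {v : Fin n → ℝ × ℝ} {S : Set (ℝ × ℝ)}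

/-- discrete intermediate value theorem -/
theorem exists_change (p : ℕ → Prop) {i j : ℕ} (hij : i < j) (h : p i ↔ ¬ p j) :
    ∃ k, i ≤ k ∧ k < j ∧ (p k ↔ ¬ p (k + 1)) := by
  by_contra hc
  push Not at hc
  have key : ∀ k, i ≤ k → k ≤ j → (p i ↔ p k) := by
    intro k hk
    induction k, hk using Nat.le_induction with
    | base => intro _; exact Iff.rfl
    | succ k hk ih =>
      intro hkj
      have h1 := ih (by omega)
      have h2 := hc k hk (by omega)
      tauto
  have := key j hij.le le_rfl
  tauto

theorem comps_ge (h : IsSimplePolygon v S) (a b c : ℝ) (hab : a ≠ 0 ∨ b ≠ 0)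
    (hne : ∀ i, a * (v i).1 + b * (v i).2 - c ≠ 0) (m : ℕ) (idx : ℕ → Fin n)
    (hidx : ∀ i j, i < j → j < 2 * m → idx i < idx j)
    (halt : ∀ i, i + 1 < 2 * m → (0 < a * (v (idx i)).1 + b * (v (idx i)).2 - c ↔
      ¬ 0 < a * (v (idx (i + 1))).1 + b * (v (idx (i + 1))).2 - c)) :
    (m : ℕ∞) ≤ ENat.card (ConnectedComponents ↥({p : ℝ × ℝ | a * p.1 + b * p.2 = c} ∩ S)) := by
  classical
  rcases Nat.eq_zero_or_pos m with hm0 | hm0
  · subst hm0; simp
  set G : ℝ × ℝ → ℝ := fun p => a * p.1 + b * p.2 - c with hG
  set D : ℝ := a ^ 2 + b ^ 2 with hD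
  have hDpos : 0 < D := by
    rcases hab with h' | h'
    · have := sq_pos_of_ne_zero h'; have := sq_nonneg b; rw [hD]; linarith
    · have := sq_pos_of_ne_zero h'; have := sq_nonneg a; rw [hD]; linarith
  set P : ℝ → ℝ × ℝ := fun s => (a * c / D + s * b, b * c / D - s * a) with hP
  set tp : ℝ × ℝ → ℝ := fun p => (b * p.1 - a * p.2) / D with htp
  have hGP : ∀ s, G (P s) = 0 := by
    intro s
    simp only [hG, hP]
    field_simp
    rw [hD]; ring
  have htpP : ∀ s, tp (P s) = s := by
    intro s
    simp only [htp, hP]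
    field_simp
    rw [hD]; ring
  have hPtp : ∀ p, G p = 0 → P (tp p) = p := by
    intro p hp
    simp only [hG] at hp
    have hc : c = a * p.1 + b * p.2 := by linarith
    simp only [htp, hP]
    ext
    · simp only
      field_simp
      rw [hc, hD]; ring
    · simp only
      field_simp
      rw [hc, hD]; ring
  have hGne : ∀ i, G (v i) ≠ 0 := hne
  set E : Finset (Fin n) := Finset.univ.filter (fun i => G (v i) * G (v (sc i)) < 0) with hE
  set al : Fin n → ℝ := fun i => G (v i) / (G (v i) - G (v (sc i))) with hal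
  set z : Fin n → ℝ × ℝ := fun i => v i + al i • wd v i with hz
  have hGaff : ∀ i (t : ℝ), G (v i + t • wd v i) = G (v i) + t * (G (v (sc i)) - G (v i)) := by
    intro i t
    simp only [hG, wd, Prod.fst_add, Prod.snd_add, Prod.smul_fst, Prod.smul_snd, Prod.fst_sub,
      Prod.snd_sub, smul_eq_mul]
    ring
  have hEd : ∀ i ∈ E, G (v i) * G (v (sc i)) < 0 := fun i hi => (Finset.mem_filter.1 hi).2
  have hdiff : ∀ i ∈ E, G (v i) - G (v (sc i)) ≠ 0 := by
    intro i hi h0
    have h4 := hEd i hi
    have h5 : G (v (sc i)) = G (v i) := by linarith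
    rw [h5] at h4
    nlinarith [sq_nonneg (G (v i))]
  have hal01 : ∀ i ∈ E, 0 < al i ∧ al i < 1 := by
    intro i hi
    have h4 := hEd i hi
    simp only [hal]
    rcases lt_or_gt_of_ne (hGne i) with h5 | h5
    · have h6 : 0 < G (v (sc i)) := by
        by_contra h7; push Not at h7; nlinarith
      have h8 : G (v i) - G (v (sc i)) < 0 := by linarith
      constructor
      · exact div_pos_of_neg_of_neg h5 h8
      · rw [div_lt_one_of_neg h8]; linarith
    · have h6 : G (v (sc i)) < 0 := by
        by_contra h7; push Not at h7; nlinarith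
      have h8 : 0 < G (v i) - G (v (sc i)) := by linarith
      constructor
      · exact div_pos h5 h8
      · rw [div_lt_one h8]; linarith
  have hGz : ∀ i ∈ E, G (z i) = 0 := by
    intro i hi
    have h4 := hdiff i hi
    simp only [hz]
    rw [hGaff]
    simp only [hal]
    field_simp
    ring
  have hzedge : ∀ i ∈ E, z i ∈ edge v i := by
    intro i hi
    rw [edge_eq]
    exact ⟨al i, (hal01 i hi).1.le, (hal01 i hi).2.le, rfl⟩
  set T : Finset ℝ := E.image (fun i => tp (z i)) with hT
  have hPs : ∀ i ∈ E, P (tp (z i)) = z i := fun i hi => hPtp _ (hGz i hi)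
  have hinj : Set.InjOn (fun i => tp (z i)) (E : Set (Fin n)) := by
    intro i hi j hj hij
    by_contra hne'
    have h4 : z i = z j := by
      rw [← hPs i hi, ← hPs j hj]
      simp only at hij
      rw [hij]
    have h5 := h.simple i j hne' ⟨hzedge i hi, h4 ▸ hzedge j hj⟩
    rcases h5.1 with h6 | h6
    · have := hGz i hi
      rw [h6] at this
      exact hGne i this
    · have := hGz i hi
      rw [mem_singleton_iff] at h6
      rw [h6] at this
      exact hGne _ this
  have hTcard : T.card = E.card := Finset.card_image_of_injOn hinj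
  have hcurve : ∀ s, P s ∈ curve v → s ∈ T := by
    intro s hs
    simp only [curve, mem_iUnion] at hs
    obtain ⟨i, hi⟩ := hs
    rw [edge_eq] at hi
    obtain ⟨t, ht0, ht1, ht⟩ := hi
    have h4 := hGP s
    rw [ht, hGaff] at h4
    have h5 : G (v i) * G (v (sc i)) < 0 := by
      have hg1 := hGne i
      have hg2 := hGne (sc i)
      have ht0' : t ≠ 0 := by
        rintro rfl
        simp at h4
        exact hg1 h4
      have ht1' : t ≠ 1 := by
        rintro rfl
        apply hg2
        linarith
      have ht0'' : 0 < t := lt_of_le_of_ne ht0 (Ne.symm ht0')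
      have ht1'' : t < 1 := lt_of_le_of_ne ht1 ht1'
      have h6 : (1 - t) * G (v i) = - (t * G (v (sc i))) := by linarith
      have h7 : (1 - t) * (G (v i) * G (v (sc i))) = - (t * G (v (sc i)) ^ 2) := by
        calc (1 - t) * (G (v i) * G (v (sc i))) = ((1 - t) * G (v i)) * G (v (sc i)) := by ring
          _ = _ := by rw [h6]; ring
      have h8 : 0 < t * G (v (sc i)) ^ 2 := mul_pos ht0'' (by positivity)
      by_contra h9
      push Not at h9
      have : 0 ≤ (1 - t) * (G (v i) * G (v (sc i))) := mul_nonneg (by linarith) h9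
      linarith
    have hiE : i ∈ E := Finset.mem_filter.2 ⟨Finset.mem_univ _, h5⟩
    have h6 := hdiff i hiE
    have h7 : t = al i := by
      simp only [hal]
      field_simp
      linarith
    rw [hT, Finset.mem_image]
    refine ⟨i, hiE, ?_⟩
    have : z i = P s := by rw [ht, h7]
    rw [this, htpP]
  -- the line from left to right
  have hPcont : Continuous P := by
    simp only [hP]
    fun_prop
  have htpcont : Continuous tp := by
    simp only [htp]
    fun_prop
  obtain ⟨y, hy1, hy2⟩ := flip_abstract T (fun s => P s ∈ S)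
    (by
      intro s s' hss hno
      have h4 : IsPreconnected (P '' Icc s s') := isPreconnected_Icc.image _ hPcont.continuousOn
      have h5 : Disjoint (P '' Icc s s') (curve v) := by
        rw [Set.disjoint_left]
        rintro _ ⟨x, hx, rfl⟩ hc
        exact hno x (hcurve x hc) hx
      have m1 : P s ∈ P '' Icc s s' := ⟨s, ⟨le_rfl, hss⟩, rfl⟩
      have m2 : P s' ∈ P '' Icc s s' := ⟨s', ⟨hss, le_rfl⟩, rfl⟩
      rcases disj_or h _ h4 h5 with h6 | h6
      · exact ⟨fun _ => interior_subset (h6 m2), fun _ => interior_subset (h6 m1)⟩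
      · exact ⟨fun h7 => absurd h7 (h6 m1), fun h7 => absurd h7 (h6 m2)⟩)
    (by
      intro x hx
      rw [hT, Finset.mem_image] at hx
      obtain ⟨i, hi, rfl⟩ := hx
      obtain ⟨σ, hσ, hint, hext⟩ := oriented h
      have hσ2 : σ ^ 2 = 1 := by rcases hσ with rfl | rfl <;> norm_num
      have hσ2' : (-σ) ^ 2 = 1 := by rw [neg_sq, hσ2]
      obtain ⟨ha0, ha1⟩ := hal01 i hi
      obtain ⟨δ1, hδ1, st1⟩ := strip_ev h (absorbs_int h) hσ2 (hint i)
        (a1 := al i / 2) (a2 := (1 + al i) / 2) (by linarith) (by linarith) (by linarith)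
      obtain ⟨δ2, hδ2, st2⟩ := strip_ev h (absorbs_ext h) hσ2' (hext i)
        (a1 := al i / 2) (a2 := (1 + al i) / 2) (by linarith) (by linarith) (by linarith)
      set w := wd v i with hw
      have hw0 : w ≠ 0 := wd_ne h i
      set W := w.1 ^ 2 + w.2 ^ 2 with hWdef
      have hW : 0 < W := norm2_pos hw0
      set g : ℝ := a * w.1 + b * w.2 with hg
      have hgne : g ≠ 0 := by
        have h4 := hdiff i hi
        intro h5
        apply h4
        have : g = G (v (sc i)) - G (v i) := by
          simp only [hg, hG, hw, wd, Prod.fst_sub, Prod.snd_sub]; ring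
        rw [this] at h5
        linarith
      set s0 := tp (z i) with hs0
      have hz0 : P s0 = z i := hPs i hi
      -- decomposition
      have hdec : ∀ s, P s = v i + (al i + (s - s0) * ((b * w.1 - a * w.2) / W)) • w +
          (-(s - s0) * g / W) • rot w := by
        intro s
        have e1 : P s = P s0 + (s - s0) • ((b, -a) : ℝ × ℝ) := by
          simp only [hP]
          ext <;> simp <;> ring
        have e2 : ((b, -a) : ℝ × ℝ) = ((b * w.1 - a * w.2) / W) • w + (-g / W) • rot w := by
          ext
          · simp only [rot, Prod.fst_add, Prod.smul_fst, smul_eq_mul]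
            field_simp
            rw [hWdef, hg]; ring
          · simp only [rot, Prod.snd_add, Prod.smul_snd, smul_eq_mul]
            field_simp
            rw [hWdef, hg]; ring
        rw [e1, hz0, e2]
        simp only [hz]
        ext
        · simp only [Prod.fst_add, Prod.smul_fst, smul_eq_mul]; ring
        · simp only [Prod.snd_add, Prod.smul_snd, smul_eq_mul]; ring
      set A := |(b * w.1 - a * w.2) / W| + 1 with hA
      have hApos : 0 < A := by positivity
      set Bq := |g / W| with hBq
      have hBpos : 0 < Bq := abs_pos.2 (div_ne_zero hgne hW.ne')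
      set r := min (al i / 2) ((1 - al i) / 2) with hr
      have hrpos : 0 < r := lt_min (by linarith) (by linarith)
      set δ := min δ1 δ2 with hδ
      have hδpos : 0 < δ := lt_min hδ1 hδ2
      refine ⟨min (r / A) (δ / Bq), lt_min (div_pos hrpos hApos) (div_pos hδpos hBpos), ?_⟩
      have hrange : ∀ s, |s - s0| < min (r / A) (δ / Bq) →
          al i / 2 ≤ al i + (s - s0) * ((b * w.1 - a * w.2) / W) ∧
          al i + (s - s0) * ((b * w.1 - a * w.2) / W) ≤ (1 + al i) / 2 ∧
          |-(s - s0) * g / W| < δ := by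
        intro s hs
        have h4 : |s - s0| < r / A := lt_of_lt_of_le hs (min_le_left _ _)
        have h5 : |s - s0| < δ / Bq := lt_of_lt_of_le hs (min_le_right _ _)
        rw [lt_div_iff₀ hApos] at h4
        rw [lt_div_iff₀ hBpos] at h5
        have h6 : |(s - s0) * ((b * w.1 - a * w.2) / W)| ≤ r := by
          rw [abs_mul]
          calc |s - s0| * |(b * w.1 - a * w.2) / W| ≤ |s - s0| * A := by
                apply mul_le_mul_of_nonneg_left _ (abs_nonneg _)
                rw [hA]; linarith
            _ ≤ r := h4.le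
        rw [abs_le] at h6
        have h7 : r ≤ al i / 2 := min_le_left _ _
        have h8 : r ≤ (1 - al i) / 2 := min_le_right _ _
        refine ⟨by linarith [h6.1], by linarith [h6.2], ?_⟩
        have : -(s - s0) * g / W = -(s - s0) * (g / W) := by ring
        rw [this, abs_mul, abs_neg]
        exact h5
      have hin : ∀ s, |s - s0| < min (r / A) (δ / Bq) → 0 < (-(s - s0) * g / W) * σ → P s ∈ S := by
        intro s hs hpos
        obtain ⟨r1, r2, r3⟩ := hrange s hs
        have h4 := st1 _ ((-(s - s0) * g / W) * σ) r1 r2 hpos (by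
          calc (-(s - s0) * g / W) * σ ≤ |(-(s - s0) * g / W) * σ| := le_abs_self _
            _ = |-(s - s0) * g / W| := by
                rw [abs_mul]
                rcases hσ with rfl | rfl <;> simp
            _ < δ1 := lt_of_lt_of_le r3 (min_le_left _ _))
        have h5 : (-(s - s0) * g / W) * σ * σ = -(s - s0) * g / W := by
          rw [mul_assoc, ← sq, hσ2, mul_one]
        rw [h5, ← hdec] at h4
        exact interior_subset h4
      have hout : ∀ s, |s - s0| < min (r / A) (δ / Bq) → 0 < (-(s - s0) * g / W) * (-σ) →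
          P s ∉ S := by
        intro s hs hpos
        obtain ⟨r1, r2, r3⟩ := hrange s hs
        have h4 := st2 _ ((-(s - s0) * g / W) * (-σ)) r1 r2 hpos (by
          calc (-(s - s0) * g / W) * (-σ) ≤ |(-(s - s0) * g / W) * (-σ)| := le_abs_self _
            _ = |-(s - s0) * g / W| := by
                rw [abs_mul]
                rcases hσ with rfl | rfl <;> simp
            _ < δ2 := lt_of_lt_of_le r3 (min_le_right _ _))
        have h5 : (-(s - s0) * g / W) * (-σ) * (-σ) = -(s - s0) * g / W := by
          rw [mul_assoc, ← sq, hσ2', mul_one]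
        rw [h5, ← hdec] at h4
        exact h4
      intro s s' l1 l2 l3 l4
      have as : |s - s0| < min (r / A) (δ / Bq) := by rw [abs_lt]; constructor <;> linarith
      have as' : |s' - s0| < min (r / A) (δ / Bq) := by rw [abs_lt]; constructor <;> linarith
      have hgW : g / W * σ ≠ 0 := by
        apply mul_ne_zero (div_ne_zero hgne hW.ne')
        rcases hσ with rfl | rfl <;> norm_num
      have e1 : ∀ s, (-(s - s0) * g / W) * σ = (s0 - s) * (g / W * σ) := by intro s; ring
      have e2 : ∀ s, (-(s - s0) * g / W) * (-σ) = (s - s0) * (g / W * σ) := by intro s; ring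
      rcases lt_or_gt_of_ne hgW with hneg | hpos
      · have o1 : P s ∉ S := hout s as (by rw [e2]; exact mul_pos_of_neg_of_neg (by linarith) hneg)
        have o2 : P s' ∈ S := hin s' as' (by rw [e1]; exact mul_pos_of_neg_of_neg (by linarith) hneg)
        exact ⟨fun h' => absurd h' o1, fun h' => absurd o2 h'⟩
      · have o1 : P s ∈ S := hin s as (by rw [e1]; exact mul_pos (by linarith) hpos)
        have o2 : P s' ∉ S := hout s' as' (by rw [e2]; exact mul_pos (by linarith) hpos)
        exact ⟨fun _ => o2, fun _ => o1⟩)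
    (by
      obtain ⟨R, hR⟩ := (h.compact.image htpcont).bddBelow
      refine ⟨R, ?_⟩
      intro s hs hin
      have := hR ⟨P s, hin, htpP s⟩
      linarith)
  -- many crossing edges
  have hEcard : 2 * m - 1 ≤ E.card := by
    have hch : ∀ i : Fin (2 * m - 1), ∃ k : Fin n, k ∈ E ∧ idx i ≤ k ∧ k < idx (i + 1) := by
      intro i
      have hi : (i : ℕ) + 1 < 2 * m := by have := i.2; omega
      have h4 := hidx i (i + 1) (Nat.lt_succ_self _) hi
      have h5 := halt i hi
      obtain ⟨k, hk1, hk2, hk3⟩ := exists_change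
        (fun k => ∃ hk : k < n, 0 < G (v ⟨k, hk⟩)) (i := idx i) (j := idx (i + 1)) h4 (by
          constructor
          · rintro ⟨_, h6⟩ ⟨_, h7⟩
            exact h5.1 h6 h7
          · intro h6
            refine ⟨(idx i).2, h5.2 ?_⟩
            intro h7
            exact h6 ⟨(idx (i + 1)).2, h7⟩)
      have hkn : k + 1 < n := lt_of_le_of_lt hk2 (idx (i + 1)).2
      have hsc : sc (⟨k, by omega⟩ : Fin n) = ⟨k + 1, hkn⟩ := by
        apply Fin.ext; rw [sc_val]; simp [hkn]
      refine ⟨⟨k, by omega⟩, ?_, hk1, hk2⟩
      rw [hE, Finset.mem_filter]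
      refine ⟨Finset.mem_univ _, ?_⟩
      rw [hsc]
      have g1 := hGne ⟨k, by omega⟩
      have g2 := hGne ⟨k + 1, hkn⟩
      by_cases hp : 0 < G (v ⟨k, by omega⟩)
      · have h6 := hk3.1 ⟨by omega, hp⟩
        have h7 : ¬ 0 < G (v ⟨k + 1, hkn⟩) := fun h8 => h6 ⟨hkn, h8⟩
        exact mul_neg_of_pos_of_neg hp (lt_of_le_of_ne (not_lt.1 h7) g2)
      · have h7 : 0 < G (v ⟨k + 1, hkn⟩) := by
          by_contra h8
          have h9 : ∃ hk : k < n, 0 < G (v ⟨k, hk⟩) := hk3.2 (fun ⟨_, h10⟩ => h8 h10)
          obtain ⟨_, h10⟩ := h9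
          exact hp h10
        exact mul_neg_of_neg_of_pos (lt_of_le_of_ne (not_lt.1 hp) g1) h7
    choose f hf1 hf2 hf3 using hch
    have hfmono : StrictMono f := by
      intro i j hij
      have h4 : idx ((i : ℕ) + 1) ≤ idx j := by
        rcases Nat.lt_or_ge ((i : ℕ) + 1) j with h5 | h5
        · exact (hidx _ _ h5 (by have := j.2; omega)).le
        · have : (i : ℕ) + 1 = j := by have : (i : ℕ) < j := hij; omega
          rw [this]
      exact lt_of_lt_of_le (hf3 i) (h4.trans (hf2 j))
    have := Finset.card_le_card_of_injOn (s := (Finset.univ : Finset (Fin (2 * m - 1)))) (t := E) f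
      (fun i _ => hf1 i) (hfmono.injective.injOn)
    simpa using this
  rw [← hTcard] at hEcard
  -- the points
  have hLS : ∀ k, k < m → P (y (2 * k + 1)) ∈ ({p : ℝ × ℝ | a * p.1 + b * p.2 = c} ∩ S) := by
    intro k hk
    refine ⟨?_, ?_⟩
    · have := hGP (y (2 * k + 1))
      simp only [hG] at this
      show a * (P (y (2 * k + 1))).1 + b * (P (y (2 * k + 1))).2 = c
      linarith
    · exact (hy2 (2 * k + 1) (by omega)).2 (by omega)
  let φ : Fin m → ConnectedComponents ↥({p : ℝ × ℝ | a * p.1 + b * p.2 = c} ∩ S) :=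
    fun k => ConnectedComponents.mk ⟨P (y (2 * k + 1)), hLS k k.2⟩
  have hφ : Function.Injective φ := by
    have key : ∀ i j : Fin m, i < j → φ i ≠ φ j := by
      intro i j hij he
      have h4 := ConnectedComponents.coe_eq_coe'.1 he
      set X := ({p : ℝ × ℝ | a * p.1 + b * p.2 = c} ∩ S) with hX
      set C : Set ↥X := connectedComponent ⟨P (y (2 * j + 1)), hLS j j.2⟩ with hC
      have h5 : IsPreconnected C := isPreconnected_connectedComponent
      have h6 : IsPreconnected ((fun q : ↥X => tp q.1) '' C) :=
        h5.image _ (htpcont.comp continuous_subtype_val).continuousOn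
      have h7 : y (2 * i + 1) ∈ (fun q : ↥X => tp q.1) '' C := ⟨_, h4, by simp [htpP]⟩
      have h8 : y (2 * j + 1) ∈ (fun q : ↥X => tp q.1) '' C :=
        ⟨_, mem_connectedComponent, by simp [htpP]⟩
      have hij' : (i : ℕ) < j := hij
      have hjm := j.2
      have h9 : y (2 * i + 2) ∈ (fun q : ↥X => tp q.1) '' C := by
        apply h6.Icc_subset h7 h8
        constructor
        · exact (hy1 _ _ (by omega) (by omega)).le
        · exact (hy1 _ _ (by omega) (by omega)).le
      obtain ⟨q, _, hq⟩ := h9
      have hqX : q.1 ∈ X := q.2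
      have h10 : G q.1 = 0 := by
        have : a * q.1.1 + b * q.1.2 = c := hqX.1
        simp only [hG]; linarith
      have h11 : P (y (2 * i + 2)) = q.1 := by
        rw [← hPtp q.1 h10]
        simp only at hq
        rw [hq]
      have h12 : P (y (2 * i + 2)) ∈ S := by rw [h11]; exact hqX.2
      have h13 := (hy2 (2 * i + 2) (by omega)).1 h12
      omega
    intro i j hij
    rcases lt_trichotomy i j with h' | h' | h'
    · exact absurd hij (key i j h')
    · exact h'
    · exact absurd hij.symm (key j i h')
  have := ENat.card_le_card_of_injective hφ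
  simpa using this

end

end Pool.Agent.H595K
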