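import Mathlib
import Pool.Agent.H595K.Poly
import Pool.Agent.H595K.Comp
import Pool.Agent.H184R3.ES

/-!
# Polygons on the points of binary words with few components on each line have few vertices
-/

namespace Pool.Agent.H595K

open Finset Vis124

theorem comps_list {n : ℕ} {v : Fin n → ℝ × ℝ} {S : Set (ℝ × ℝ)} (h : IsSimplePolygon v S)
    (a b c : ℝ) (hab : a ≠ 0 ∨ b ≠ 0) (hne : ∀ i, a * (v i).1 + b * (v i).2 - c ≠ 0) (m : ℕ)
    (js : List (Fin n)) (hjs : js.Pairwise (· < ·)) (s0 : Bool)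
    (hs : List.Forall₂ (fun i s => decide (0 < a * (v i).1 + b * (v i).2 - c) = s) js
      (alt (2 * m) s0)) :
    (m : ℕ∞) ≤ ENat.card
      (ConnectedComponents ↥({p : ℝ × ℝ | a * p.1 + b * p.2 = c} ∩ S)) := by
  have h3 := h.three_le
  have hlen : js.length = 2 * m := by rw [hs.length_eq, alt_length]
  rw [List.forall₂_iff_get] at hs
  obtain ⟨_, hs⟩ := hs
  set idx : ℕ → Fin n := fun i => js.getD i ⟨0, by omega⟩ with hidx
  have hget : ∀ i (hi : i < js.length), idx i = js[i] := by
    intro i hi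
    simp only [hidx]
    rw [List.getD_eq_getElem _ _ hi]
  have hval : ∀ i, i < 2 * m → decide (0 < a * (v (idx i)).1 + b * (v (idx i)).2 - c) =
      if i % 2 = 0 then s0 else !s0 := by
    intro i hi
    have h4 : i < js.length := by omega
    have h5 : i < (alt (2 * m) s0).length := by rw [alt_length]; exact hi
    have h6 := hs i h4 h5
    rw [hget i h4]
    simp only [List.get_eq_getElem] at h6
    rw [h6]
    simp only [← alt_eq_map, List.getElem_map, List.getElem_range]
  apply comps_ge h a b c hab hne m idx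
  · intro i j hij hj
    rw [hget i (by omega), hget j (by omega)]
    exact List.pairwise_iff_getElem.1 hjs i j (by omega) (by omega) hij
  · intro i hi
    have h4 := hval i (by omega)
    have h5 := hval (i + 1) hi
    have h6 : decide (0 < a * (v (idx (i + 1))).1 + b * (v (idx (i + 1))).2 - c) =
        !decide (0 < a * (v (idx i)).1 + b * (v (idx i)).2 - c) := by
      rw [h4, h5]
      rcases Nat.mod_two_eq_zero_or_one i with h7 | h7
      · rw [if_neg (by omega), if_pos h7]
      · rw [if_pos (by omega), if_neg (by omega), Bool.not_not]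
    by_cases h7 : 0 < a * (v (idx i)).1 + b * (v (idx i)).2 - c
    · rw [decide_eq_true h7] at h6
      have h8 : ¬ 0 < a * (v (idx (i + 1))).1 + b * (v (idx (i + 1))).2 - c := by
        intro h9
        rw [decide_eq_true h9] at h6
        exact absurd h6 (by simp)
      exact ⟨fun _ => h8, fun _ => h7⟩
    · rw [decide_eq_false h7] at h6
      have h8 : 0 < a * (v (idx (i + 1))).1 + b * (v (idx (i + 1))).2 - c := by
        by_contra h9
        rw [decide_eq_false h9] at h6
        exact absurd h6 (by simp)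
      exact ⟨fun h9 => absurd h9 h7, fun h9 => absurd h8 h9⟩

section
variable {M t N H a : ℕ} {B : ℝ}

theorem PX_inj (hM : 2 ≤ M) (hB : 4 * (t : ℝ) + 3 < B) {w w' : ℕ} (hw : w < 2 ^ t)
    (hw' : w' < 2 ^ t) (h : PX B t w = PX B t w') : w = w' := by
  rcases lt_trichotomy w w' with h1 | h1 | h1
  · have := (slope_le (M := M) hM hB h1 hw').1; linarith
  · exact h1
  · have := (slope_le (M := M) hM hB h1 hw).1; linarith

theorem card_le_of_convex (hM : 2 ≤ M) (ht : t ≤ M ^ H) (hB : 4 * (t : ℝ) + 3 < B)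
    (hN2 : N ≤ 2 ^ t) {m : ℕ} {v : Fin m → ℝ × ℝ} {S : Set (ℝ × ℝ)} (hv : IsSimplePolygon v S)
    (hk : IsKConvexRegion (3 * a + 2) S)
    (hP : ∀ i, ∃ r, r ≤ N + 1 ∧ v i = (VX B t N r, VY M B t N r)) :
    m ≤ (t + 1) ^ (2 * (5 ^ H * M ^ ((H + a) / 2))) + 2 := by
  classical
  set s := 5 ^ H * M ^ ((H + a) / 2) with hs
  by_contra hlt
  push Not at hlt
  have h3 := hv.three_le
  set W : Finset ℕ := (range N).filter (fun w => ∃ i, v i = (PX B t w, PY M B t w)) with hW
  have hWlt : ∀ w ∈ W, w < 2 ^ t := by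
    intro w hw
    have := mem_range.1 (mem_filter.1 hw).1
    omega
  have hWcard : m ≤ W.card + 2 := by
    choose r hr1 hr2 using hP
    have hrinj : Function.Injective r := by
      intro i j hij
      apply hv.injective
      rw [hr2 i, hr2 j, hij]
    have hsub : (univ : Finset (Fin m)).image r ⊆ {0, N + 1} ∪ W.image (fun w => w + 1) := by
      intro x hx
      obtain ⟨i, _, rfl⟩ := mem_image.1 hx
      rw [mem_union]
      by_cases h0 : r i = 0
      · left; simp [h0]
      by_cases h1 : r i = N + 1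
      · left; simp [h1]
      right
      rw [mem_image]
      have h4 := hr1 i
      refine ⟨r i - 1, mem_filter.2 ⟨mem_range.2 (by omega), i, ?_⟩, by omega⟩
      rw [hr2 i, VX_word (by omega) (by omega), VY_word (by omega) (by omega)]
    have h4 := card_le_card hsub
    rw [card_image_of_injective _ hrinj, card_univ, Fintype.card_fin] at h4
    have h5 := card_union_le ({0, N + 1} : Finset ℕ) (W.image (fun w => w + 1))
    have h6 : ({0, N + 1} : Finset ℕ).card ≤ 2 := card_le_two
    have h7 : (W.image (fun w => w + 1)).card ≤ W.card := card_image_le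
    omega
  have hex : ∀ w : ↥W, ∃ i, v i = (PX B t w, PY M B t w) := fun w => (mem_filter.1 w.2).2
  choose f hf using hex
  have hfinj : Function.Injective f := by
    intro w w' h
    have h4 : (PX B t w, PY M B t w) = (PX B t w', PY M B t w') := by rw [← hf w, ← hf w', h]
    have h5 : PX B t w = PX B t w' := congrArg Prod.fst h4
    exact Subtype.ext (PX_inj hM hB (hWlt _ w.2) (hWlt _ w'.2) h5)
  have hcard : (t + 1) ^ s * (t + 1) ^ s < Fintype.card ↥W := by
    rw [Fintype.card_coe]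
    have : (t + 1) ^ (2 * s) = (t + 1) ^ s * (t + 1) ^ s := by rw [two_mul, pow_add]
    omega
  -- a set of words on which the order of the polygon is monotone
  have hT : ∃ T : Finset ↥W, (t + 1) ^ s < T.card ∧ (StrictMonoOn f T ∨ StrictAntiOn f T) := by
    rcases Pool.Agent.H184R3.ES.erdos_szekeres hcard hfinj with ⟨T, h1, h2⟩ | ⟨T, h1, h2⟩
    · exact ⟨T, h1, Or.inl h2⟩
    · exact ⟨T, h1, Or.inr h2⟩
  obtain ⟨T, hT1, hT2⟩ := hT
  set T' : Finset ℕ := T.map ⟨Subtype.val, Subtype.val_injective⟩ with hT'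
  have hT'W : ∀ w ∈ T', ∃ hw : w ∈ W, ⟨w, hw⟩ ∈ T := by
    intro w hw
    rw [hT', mem_map] at hw
    obtain ⟨x, hx, rfl⟩ := hw
    exact ⟨x.2, hx⟩
  have hT'lt : ∀ w ∈ T', w < 2 ^ t := fun w hw => hWlt w (hT'W w hw).1
  obtain ⟨I, hI1, hI2, hI3⟩ := exists_emb hT'lt (s := s) (by rw [hT', card_map]; exact hT1)
  have hrich : Rich (lab M) (a + 1) true I := by
    by_contra hc
    have := (dens hM H).1 a I (fun e he => lt_of_lt_of_le (mem_range.1 (hI1 he)) ht) hc
    omega
  obtain ⟨u, hu, p, hp, q, hq, htop, zs, hzs1, hzs2, s0, hzs3⟩ := exists_alternating hrich hI3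
  have hpt := hT'lt p hp
  have hqt := hT'lt q hq
  obtain ⟨hD, hsl⟩ := slope hM hB htop (htop.lt_of_lt hqt)
  set θ : ℝ := (PY M B t q - PY M B t p) / (PX B t q - PX B t p) with hθ
  have hθN : PY M B t q - PY M B t p = θ * (PX B t q - PX B t p) := by
    rw [hθ]; field_simp
  have hθ2 : |θ - (lab M u : ℝ)| < 1 / 2 := by
    have e : (PY M B t q - PY M B t p) - (lab M u : ℝ) * (PX B t q - PX B t p) =
        (θ - (lab M u : ℝ)) * (PX B t q - PX B t p) := by rw [hθN]; ring
    rw [e, abs_mul, abs_of_pos hD] at hsl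
    by_contra hc
    push Not at hc
    have := mul_le_mul_of_nonneg_right hc hD.le
    linarith
  -- sides of the words
  set G : ℝ × ℝ → ℝ := fun z => (z.2 - PY M B t p) - θ * (z.1 - PX B t p) with hG
  have hside : ∀ z s, z ∈ zs → (Rel (lab M) u p z s ∨ Rel (lab M) u q z s) →
      decide (0 < G (PX B t z, PY M B t z)) = s := by
    intro z s hz h
    have hzt := hT'lt z (hzs1 z hz)
    rcases h with h | h
    · exact (side hM hB hpt hzt h hθ2).2
    · have h4 := (side hM hB hqt hzt h hθ2).2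
      have e : G (PX B t z, PY M B t z) =
          (PY M B t z - PY M B t q) - θ * (PX B t z - PX B t q) := by
        simp only [hG]; linarith
      rw [e]; exact h4
  obtain ⟨ε, hε0, hε⟩ : ∃ ε : ℝ, 0 < ε ∧ ∀ i, 0 < G (v i) → ε < G (v i) := by
    have h4 : ∀ᶠ ε : ℝ in nhdsWithin 0 (Set.Ioi 0), ∀ i, 0 < G (v i) → ε < G (v i) := by
      rw [Filter.eventually_all]
      intro i
      by_cases h5 : 0 < G (v i)
      · have : ∀ᶠ ε : ℝ in nhds 0, ε < G (v i) := eventually_lt_nhds h5
        exact (this.filter_mono nhdsWithin_le_nhds).mono (fun ε h _ => h)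
      · exact Filter.Eventually.of_forall (fun ε h => absurd h h5)
    obtain ⟨ε, h5, h6⟩ := (h4.and self_mem_nhdsWithin).exists
    exact ⟨ε, h6, h5⟩
  set c : ℝ := PY M B t p - θ * PX B t p + ε with hc
  have hGc : ∀ z : ℝ × ℝ, (-θ) * z.1 + 1 * z.2 - c = G z - ε := by
    intro z; simp only [hG, hc]; ring
  have hpos : ∀ i, (0 < (-θ) * (v i).1 + 1 * (v i).2 - c ↔ 0 < G (v i)) := by
    intro i
    rw [hGc]
    constructor
    · intro h4; linarith
    · intro h4; have := hε i h4; linarith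
  have hne : ∀ i, (-θ) * (v i).1 + 1 * (v i).2 - c ≠ 0 := by
    intro i h4
    by_cases h5 : 0 < G (v i)
    · have := (hpos i).2 h5; linarith
    · rw [hGc] at h4; push Not at h5; linarith
  let fz : ℕ → Fin m := fun w => if h : w ∈ W then f ⟨w, h⟩ else ⟨0, by omega⟩
  have hfz : ∀ w (h : w ∈ W), fz w = f ⟨w, h⟩ := fun w h => by simp only [fz, dif_pos h]
  have hzsW : ∀ z ∈ zs, z ∈ W := fun z hz => (hT'W z (hzs1 z hz)).1
  have hsigns : List.Forall₂ (fun i s => decide (0 < (-θ) * (v i).1 + 1 * (v i).2 - c) = s)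
      (zs.map fz) (alt (2 * (3 * (a + 1))) s0) := by
    rw [List.forall₂_map_left_iff, show 2 * (3 * (a + 1)) = 6 * (a + 1) by ring]
    rw [List.forall₂_iff_get] at hzs3 ⊢
    refine ⟨hzs3.1, ?_⟩
    intro i h1 h2
    have h4 := hzs3.2 i h1 h2
    have h5 : zs.get ⟨i, h1⟩ ∈ zs := List.get_mem _ _
    have h6 := hside _ _ h5 h4
    rw [← h6, hfz _ (hzsW _ h5)]
    rw [decide_eq_decide, hpos, hf]
  have hcomp : ((3 * (a + 1) : ℕ) : ℕ∞) ≤ ENat.card
      (ConnectedComponents ↥({p : ℝ × ℝ | (-θ) * p.1 + 1 * p.2 = c} ∩ S)) := by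
    rcases hT2 with hT2 | hT2
    · refine comps_list hv (-θ) 1 c (Or.inr one_ne_zero) hne _ (zs.map fz) ?_ s0 hsigns
      rw [List.pairwise_map]
      refine List.Pairwise.imp_of_mem ?_ hzs2
      intro z z' hz hz' hzz
      obtain ⟨h4, h5⟩ := hT'W z (hzs1 z hz)
      obtain ⟨h6, h7⟩ := hT'W z' (hzs1 z' hz')
      rw [hfz z h4, hfz z' h6]
      exact hT2 h5 h7 (Subtype.mk_lt_mk.2 hzz)
    · refine comps_list hv (-θ) 1 c (Or.inr one_ne_zero) hne _ (zs.map fz).reverse ?_
        (fl (2 * (3 * (a + 1))) (!s0)) ?_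
      · rw [List.pairwise_reverse, List.pairwise_map]
        refine List.Pairwise.imp_of_mem ?_ hzs2
        intro z z' hz hz' hzz
        obtain ⟨h4, h5⟩ := hT'W z (hzs1 z hz)
        obtain ⟨h6, h7⟩ := hT'W z' (hzs1 z' hz')
        rw [hfz z h4, hfz z' h6]
        exact hT2 h5 h7 (Subtype.mk_lt_mk.2 hzz)
      · rw [← alt_reverse]
        exact List.rel_reverse hsigns
  have h4 := hcomp.trans (hk _ ⟨-θ, 1, c, Or.inr one_ne_zero, rfl⟩)
  have h5 : 3 * (a + 1) ≤ 3 * a + 2 := by exact_mod_cast h4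
  omega

end

end Pool.Agent.H595K
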