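import Mathlib
import Pool.Agent.H595K.Small

/-!
# The point sets and the numerical bound
-/

namespace Pool.Agent.H595K

open Finset Vis124

theorem KConvexSet.mono {k k' : ℕ} (h : k ≤ k') {P : Finset (ℝ × ℝ)} (hP : KConvexSet k P) :
    KConvexSet k' P := by
  obtain ⟨h1, v, S, h2, h3, h4⟩ := hP
  exact ⟨h1, v, S, h2, h3, fun L hL => (h4 L hL).trans (by exact_mod_cast h)⟩

theorem kConvex_of {k n : ℕ} {v : Fin n → ℝ × ℝ} {S : Set (ℝ × ℝ)} {P : Finset (ℝ × ℝ)}
    (hg : GenPos P) (hv : IsSimplePolygon v S) (hr : Set.range v = ↑P)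
    (hk : IsKConvexRegion k S) : KConvexSet k P := by
  classical
  have h1 : P = univ.image v := by
    apply Finset.coe_injective
    rw [Finset.coe_image, Finset.coe_univ, Set.image_univ, hr]
  have h2 : P.card = n := by
    rw [h1, card_image_of_injective _ hv.injective, card_univ, Fintype.card_fin]
  subst h2
  exact ⟨hg, v, S, hv, hr, hk⟩

theorem collinear_det {p q r : ℝ × ℝ} (h : Collinear ℝ {p, q, r}) :
    (q.1 - p.1) * (r.2 - p.2) - (r.1 - p.1) * (q.2 - p.2) = 0 := by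
  rw [collinear_iff_of_mem (p₀ := p) (by simp)] at h
  obtain ⟨v, hv⟩ := h
  obtain ⟨r1, h1⟩ := hv q (by simp)
  obtain ⟨r2, h2⟩ := hv r (by simp)
  have e1 : q.1 = r1 * v.1 + p.1 := by rw [h1]; rfl
  have e2 : q.2 = r1 * v.2 + p.2 := by rw [h1]; rfl
  have e3 : r.1 = r2 * v.1 + p.1 := by rw [h2]; rfl
  have e4 : r.2 = r2 * v.2 + p.2 := by rw [h2]; rfl
  rw [e1, e2, e3, e4]
  ring

theorem exists_set {M H t N : ℕ} (hM : 2 ≤ M) (hH : 1 ≤ H) (ht0 : 1 ≤ t) (ht : t ≤ M ^ H)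
    (hN : 1 ≤ N) (hN2 : N ≤ 2 ^ t) :
    ∃ P : Finset (ℝ × ℝ), P.card = N + 2 ∧ KConvexSet (3 * H) P ∧
      ∀ a, ∀ Q ⊆ P, KConvexSet (3 * a + 2) Q →
        Q.card ≤ (t + 1) ^ (2 * (5 ^ H * M ^ ((H + a) / 2))) + 2 := by
  classical
  set B : ℝ := 4 * t + 4 with hB'
  have hB : 4 * (t : ℝ) + 3 < B := by rw [hB']; linarith
  have hmp := monoPoly (B := B) hM hB hN hN2
  set pt : ℕ → ℝ × ℝ := fun i => (VX B t N i, VY M B t N i) with hpt
  set P : Finset (ℝ × ℝ) := (range (N + 2)).image pt with hP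
  have hmem : ∀ p, p ∈ P ↔ ∃ i, i ≤ N + 1 ∧ pt i = p := by
    intro p
    rw [hP, mem_image]
    constructor
    · rintro ⟨i, hi, h⟩
      exact ⟨i, by have := mem_range.1 hi; omega, h⟩
    · rintro ⟨i, hi, h⟩
      exact ⟨i, mem_range.2 (by omega), h⟩
  have hcard : P.card = N + 2 := by
    rw [hP, card_image_of_injOn, card_range]
    intro i hi j hj hij
    have hi' : i < N + 2 := by simpa using hi
    have hj' : j < N + 2 := by simpa using hj
    have h1 : VX B t N i = VX B t N j := congrArg Prod.fst hij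
    rcases lt_trichotomy i j with h2 | h2 | h2
    · exact absurd h1 (hmp.lt h2 (by omega)).ne
    · exact h2
    · exact absurd h1 (hmp.lt h2 (by omega)).ne'
  have hgen : GenPos P := by
    intro p hp q hq r hr hpq hqr hpr hcol
    obtain ⟨i, hi, rfl⟩ := (hmem p).1 hp
    obtain ⟨j, hj, rfl⟩ := (hmem q).1 hq
    obtain ⟨k, hk, rfl⟩ := (hmem r).1 hr
    have hij : i ≠ j := fun h => hpq (by rw [h])
    have hjk : j ≠ k := fun h => hqr (by rw [h])
    have hik : i ≠ k := fun h => hpr (by rw [h])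
    have hd := collinear_det hcol
    simp only [hpt] at hd
    have key : ∀ x y z : ℕ, x < y → y < z → z ≤ N + 1 → det3 M B t N x y z ≠ 0 :=
      fun x y z h1 h2 h3 => det3_ne hM hB hN2 h1 h2 h3
    unfold det3 at key
    rcases lt_or_gt_of_ne hij with h1 | h1 <;> rcases lt_or_gt_of_ne hjk with h2 | h2 <;>
      rcases lt_or_gt_of_ne hik with h3 | h3
    · exact key i j k h1 h2 hk hd
    · omega
    · exact key i k j h3 h2 hj (by linear_combination -hd)
    · exact key k i j h3 h1 hj (by linear_combination hd)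
    · exact key j i k h1 h3 hk (by linear_combination -hd)
    · exact key j k i h2 h3 hi (by linear_combination hd)
    · omega
    · exact key k j i h2 h1 hi (by linear_combination -hd)
  refine ⟨P, hcard, ?_, ?_⟩
  · apply kConvex_of hgen hmp.isSimplePolygon
    · ext p
      rw [Finset.mem_coe, hmem]
      constructor
      · rintro ⟨i, rfl⟩
        exact ⟨i, by omega, rfl⟩
      · rintro ⟨i, hi, rfl⟩
        exact ⟨⟨i, by omega⟩, rfl⟩
    · exact hmp.comps_le (by omega) (fun θ β => no_alt hM hH ht0 ht hB hN2 θ β)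
  · rintro a Q hQ ⟨_, v, S, hv, hr, hk⟩
    apply card_le_of_convex hM ht hB hN2 hv hk
    intro i
    have h1 : v i ∈ Q := by
      rw [← Finset.mem_coe, ← hr]; exact Set.mem_range_self i
    obtain ⟨r, hr1, hr2⟩ := (hmem _).1 (hQ h1)
    exact ⟨r, hr1, hr2.symm⟩

/-- the bound -/
noncomputable def bd (C α : ℝ) (n : ℕ) : ℝ :=
  Real.exp (C * Real.log n ^ α * Real.log (Real.log n))

theorem log16 {n : ℕ} (hn : 16 ≤ n) : 2.772 ≤ Real.log n := by
  have h1 : Real.log 16 ≤ Real.log n := Real.log_le_log (by norm_num) (by exact_mod_cast hn)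
  have h2 : Real.log 16 = 4 * Real.log 2 := by
    rw [show (16 : ℝ) = 2 ^ (4 : ℕ) by norm_num, Real.log_pow]; norm_num
  have := Real.log_two_gt_d9
  linarith

theorem numeric {H e : ℕ} (hH : 1 ≤ H) (he : e ≤ H) {n : ℕ} (hn : 16 ≤ n) :
    ∃ M t : ℕ, 2 ≤ M ∧ 1 ≤ t ∧ t ≤ M ^ H ∧ n ≤ 2 ^ t ∧
      (((t + 1) ^ (2 * (5 ^ H * M ^ e)) + 2 : ℕ) : ℝ) ≤
        bd (12 * 5 ^ H * 3 ^ e + 2) ((e : ℝ) / H) n := by
  set L := Real.log n with hL
  have hL1 : 2.772 ≤ L := log16 hn
  have hL0 : 0 < L := by linarith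
  have hHr : (0 : ℝ) < H := by exact_mod_cast hH
  set t := Nat.log 2 n + 1 with ht
  have ht2 : n ≤ 2 ^ t := (Nat.lt_pow_succ_log_self (by norm_num) n).le
  have htL : (t : ℝ) ≤ 2 * L := by
    have h1 : (2 : ℕ) ^ Nat.log 2 n ≤ n := Nat.pow_log_le_self 2 (by omega)
    have h2 : Real.log ((2 : ℝ) ^ Nat.log 2 n) ≤ L :=
      Real.log_le_log (by positivity) (by exact_mod_cast h1)
    rw [Real.log_pow] at h2
    have h3 := Real.log_two_gt_d9
    have h4 : (0 : ℝ) ≤ (Nat.log 2 n : ℕ) := Nat.cast_nonneg _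
    rw [ht]; push_cast
    nlinarith
  have ht0 : (1 : ℝ) ≤ t := by rw [ht]; push_cast; linarith [(Nat.cast_nonneg (Nat.log 2 n) : (0:ℝ) ≤ _)]
  set T := (t : ℝ) ^ ((1 : ℝ) / H) with hT
  have hT1 : 1 ≤ T := Real.one_le_rpow ht0 (by positivity)
  set M := ⌈T⌉₊ + 1 with hM
  have hM2 : 2 ≤ M := by
    have : 0 < ⌈T⌉₊ := Nat.ceil_pos.2 (by linarith)
    omega
  have hMT : T ≤ M := by
    rw [hM]; push_cast
    have := Nat.le_ceil T
    linarith
  have hMT3 : (M : ℝ) ≤ 3 * T := by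
    rw [hM]; push_cast
    have := Nat.ceil_lt_add_one (show 0 ≤ T by linarith)
    linarith
  have hTH : T ^ H = t := by
    rw [hT, ← Real.rpow_natCast, ← Real.rpow_mul (by linarith)]
    rw [one_div, inv_mul_cancel₀ hHr.ne', Real.rpow_one]
  have htM : t ≤ M ^ H := by
    have : (t : ℝ) ≤ (M : ℝ) ^ H := by
      rw [← hTH]; exact pow_le_pow_left₀ (by linarith) hMT H
    exact_mod_cast this
  refine ⟨M, t, hM2, by omega, htM, ht2, ?_⟩
  set α : ℝ := (e : ℝ) / H with hα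
  have hα0 : 0 ≤ α := by positivity
  have hα1 : α ≤ 1 := by
    rw [hα, div_le_one hHr]; exact_mod_cast he
  have hLα : 1 ≤ L ^ α := Real.one_le_rpow (by linarith) hα0
  have hTe : T ^ e ≤ 2 * L ^ α := by
    have h1 : T ^ e = (t : ℝ) ^ α := by
      rw [hT, ← Real.rpow_natCast, ← Real.rpow_mul (by linarith), hα]
      congr 1
      field_simp
    rw [h1]
    calc (t : ℝ) ^ α ≤ (2 * L) ^ α := Real.rpow_le_rpow (by linarith) htL hα0
      _ = 2 ^ α * L ^ α := Real.mul_rpow (by norm_num) hL0.le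
      _ ≤ 2 * L ^ α := by
        apply mul_le_mul_of_nonneg_right _ (by linarith)
        calc (2 : ℝ) ^ α ≤ 2 ^ (1 : ℝ) := Real.rpow_le_rpow_of_exponent_le (by norm_num) hα1
          _ = 2 := Real.rpow_one 2
  have hMe : (M : ℝ) ^ e ≤ 3 ^ e * (2 * L ^ α) := by
    calc (M : ℝ) ^ e ≤ (3 * T) ^ e := pow_le_pow_left₀ (by positivity) hMT3 e
      _ = 3 ^ e * T ^ e := mul_pow _ _ _
      _ ≤ 3 ^ e * (2 * L ^ α) := mul_le_mul_of_nonneg_left hTe (by positivity)
  have hlogL : 1 ≤ Real.log L := by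
    have h1 : Real.exp 1 ≤ L := by have := Real.exp_one_lt_d9; linarith
    have h2 := Real.log_le_log (Real.exp_pos 1) h1
    rwa [Real.log_exp] at h2
  have hlogt : Real.log (t + 1) ≤ 3 * Real.log L := by
    have h1 : Real.log (t + 1) ≤ Real.log (3 * L) :=
      Real.log_le_log (by linarith) (by linarith)
    have h2 : Real.log (3 * L) = Real.log 3 + Real.log L :=
      Real.log_mul (by norm_num) hL0.ne'
    have h3 := Real.log_le_sub_one_of_pos (show (0 : ℝ) < 3 by norm_num)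
    linarith
  set s : ℕ := 5 ^ H * M ^ e with hs
  have hs1 : (s : ℝ) ≤ 5 ^ H * (3 ^ e * (2 * L ^ α)) := by
    rw [hs]; push_cast
    exact mul_le_mul_of_nonneg_left hMe (by positivity)
  have hx : ((t : ℝ) + 1) ^ (2 * s) = Real.exp (2 * s * Real.log (t + 1)) := by
    rw [← Real.exp_log (show (0 : ℝ) < (t + 1) ^ (2 * s) by positivity), Real.log_pow]
    push_cast
    rfl
  have hx1 : (1 : ℝ) ≤ ((t : ℝ) + 1) ^ (2 * s) := one_le_pow₀ (by linarith)
  have h3 : (3 : ℝ) ≤ Real.exp 2 := by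
    have := Real.add_one_le_exp (2 : ℝ); linarith
  push_cast
  calc ((t : ℝ) + 1) ^ (2 * s) + 2 ≤ ((t : ℝ) + 1) ^ (2 * s) * 3 := by linarith
    _ ≤ ((t : ℝ) + 1) ^ (2 * s) * Real.exp 2 := mul_le_mul_of_nonneg_left h3 (by positivity)
    _ = Real.exp (2 * s * Real.log (t + 1) + 2) := by rw [hx, Real.exp_add]
    _ ≤ bd (12 * 5 ^ H * 3 ^ e + 2) α n := by
      unfold bd
      apply Real.exp_le_exp.2
      rw [← hL]
      have hs0 : (0 : ℝ) ≤ s := Nat.cast_nonneg s
      have g1 : 2 * (s : ℝ) * Real.log (t + 1) ≤ 2 * s * (3 * Real.log L) :=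
        mul_le_mul_of_nonneg_left hlogt (by positivity)
      have g2 : 2 * (s : ℝ) * (3 * Real.log L) ≤
          2 * (5 ^ H * (3 ^ e * (2 * L ^ α))) * (3 * Real.log L) := by
        apply mul_le_mul_of_nonneg_right _ (by linarith)
        linarith
      have g3 : (2 : ℝ) ≤ 2 * L ^ α * Real.log L := by nlinarith
      calc 2 * (s : ℝ) * Real.log (t + 1) + 2
          ≤ 2 * (5 ^ H * (3 ^ e * (2 * L ^ α))) * (3 * Real.log L) + 2 * L ^ α * Real.log L := by
            linarith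
        _ = (12 * 5 ^ H * 3 ^ e + 2) * L ^ α * Real.log L := by ring

end Pool.Agent.H595K
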