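import Mathlib
import Pool.Agent.H595K.Build
import Pool.Agent.H595K.Aff
import Pool.Agent.H595K.Main
import Pool.Agent.H595K.Comp
import Pool.Agent.H184R3.ES

/-!
# Large `3`-convex subsets of `k`-convex sets
-/

namespace Pool.Agent.H595K

open Finset Tr Vis124

theorem not_all {P : Tr → Tr → Prop} {t : Tr} (h : ¬ All P t) :
    ∃ l r, ¬ P l r ∧ Sel (fun _ _ => True) (Tr.node l r) t := by
  induction t with
  | leaf i => exact absurd trivial h
  | node l r hl hr =>
    by_cases h1 : P l r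
    · by_cases h2 : All P l
      · have h3 : ¬ All P r := fun h3 => h ⟨h1, h2, h3⟩
        obtain ⟨a, b, k1, k2⟩ := hr h3
        exact ⟨a, b, k1, Sel.right l k2⟩
      · obtain ⟨a, b, k1, k2⟩ := hl h2
        exact ⟨a, b, k1, Sel.left r k2⟩
    · exact ⟨l, r, h1, Sel.refl _⟩

/-- the list from an increasing tree -/
theorem list_of_rk {x y : ℕ → ℝ} {t l r : Tr} {Y : ℕ} (hx : t.lv.Pairwise (fun i j => x i < x j))
    (hs : Sel (fun _ _ => True) (Tr.node l r) t) (h : Rk (slp x y) Y l r) :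
    ∃ Q : List ℕ, Q.length = 2 ^ Y + 1 ∧ (∀ i ∈ Q, i ∈ t.lv) ∧ Nice x y Q := by
  obtain ⟨l', r', h1, h2, h3, h4, h5⟩ := h
  have hs' : Sel (fun _ _ => True) (Tr.node l' r') t := hs.trans (Sel.node trivial h1 h2)
  obtain ⟨z, hz⟩ := List.exists_mem_of_length_pos (lv_pos r')
  refine ⟨l'.lv ++ [z], ?_, ?_, nice_inc h5 (hx.sublist hs'.sublist) hz⟩
  · rw [List.length_append, h3.length]; simp
  · intro i hi
    apply hs'.mem
    simp only [lv, List.mem_append]
    rcases List.mem_append.1 hi with h | h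
    · exact Or.inl h
    · right; rw [List.mem_singleton.1 h]; exact hz

theorem list_of_cap {x y : ℕ → ℝ} {t t' : Tr} {M : ℕ}
    (hx : t.lv.Pairwise (fun i j => x i < x j))
    (hs : Sel (fun _ _ => True) t' t) (h : Ty (slp x y) (fun i j => - slp x y i j) t')
    (hM : M ≤ t'.lv.length) :
    ∃ Q : List ℕ, Q.length = M ∧ (∀ i ∈ Q, i ∈ t.lv) ∧ Nice x y Q := by
  refine ⟨t'.lv.take M, ?_, ?_, nice_cap h (hx.sublist hs.sublist) (List.take_sublist _ _)⟩
  · rw [List.length_take]; omega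
  · intro i hi
    exact hs.mem (List.mem_of_mem_take hi)

theorem core_seq {x y : ℕ → ℝ} {N m s G Y : ℕ} (hx : ∀ i j, i < j → j < N → x i < x j)
    (hA : NoAlt x y N m)
    (hgen : ∀ i j z, i < N → j < N → z < N → i ≠ j → j ≠ z → i ≠ z → slp x y i j ≠ slp x y i z)
    (hGN : G ^ s ≤ N) (hs : 2 ≤ s) (hG : 2 * (s * m) ≤ G) (hG0 : 0 < G)
    (hY : 4 * (Y * (Y * Y)) + 1 < s) (hsY : s + 1 ≤ 2 ^ Y) :
    ∃ Q : List ℕ, Q.length = 2 ^ Y + 1 ∧ (∀ i ∈ Q, i < N) ∧
      (Nice x y Q ∨ Nice x (fun n => - y n) Q) := by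
  obtain ⟨t, h1, h2, h3, h4, h5⟩ := exists_tree hx hA hgen hGN hs hG hG0
  have hneg : (fun i j => - slp x y i j) = slp x (fun n => - y n) := by
    funext i j; rw [slp_neg]
  have hneg' : slp x y = (fun i j => - slp x (fun n => - y n) i j) := by
    funext i j; rw [slp_neg, neg_neg]
  by_contra hcon
  push Not at hcon
  have hb := tree_bound (slp_comm x y) h5 h4 hsY (y := Y) (by
      by_contra hI
      obtain ⟨l, r, k1, k2⟩ := not_all hI
      obtain ⟨Q, q1, q2, q3⟩ := list_of_rk h3 k2 (not_not.1 k1)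
      exact (hcon Q q1 (fun i hi => h2 i (q2 i hi))).1 q3) (by
      by_contra hI
      obtain ⟨l, r, k1, k2⟩ := not_all hI
      rw [hneg] at k1
      obtain ⟨Q, q1, q2, q3⟩ := list_of_rk h3 k2 (not_not.1 k1)
      exact (hcon Q q1 (fun i hi => h2 i (q2 i hi))).2 q3) (by
      intro t' k1 k2
      by_contra hc
      rw [hneg, hneg'] at k2
      rw [← hneg'] at k2
      have k3 : Ty (slp x (fun n => - y n)) (fun i j => - slp x (fun n => - y n) i j) t' := by
        rw [← hneg']; exact k2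
      obtain ⟨Q, q1, q2, q3⟩ := list_of_cap (M := 2 ^ Y + 1) h3 k1 k3 (by omega)
      exact (hcon Q q1 (fun i hi => h2 i (q2 i hi))).2 q3) (by
      intro t' k1 k2
      by_contra hc
      obtain ⟨Q, q1, q2, q3⟩ := list_of_cap (M := 2 ^ Y + 1) h3 k1 k2 (by omega)
      exact (hcon Q q1 (fun i hi => h2 i (q2 i hi))).1 q3)
  have hb2 : (2 ^ Y) ^ (4 * (Y * Y)) = 2 ^ (4 * (Y * (Y * Y))) := by
    rw [← pow_mul]; congr 1; ring
  rw [hb2] at hb
  have hb3 : 2 ^ s ≤ 2 ^ (4 * (Y * (Y * Y)) + 1) := by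
    rw [pow_succ]; omega
  have := (Nat.pow_le_pow_iff_right (by norm_num)).1 hb3
  omega

/-! ### From polygons to sequences -/

theorem exists_shear (P : Finset (ℝ × ℝ)) :
    ∃ ε : ℝ, ∀ p ∈ P, ∀ q ∈ P, p.1 + ε * p.2 = q.1 + ε * q.2 → p = q := by
  classical
  obtain ⟨ε, hε⟩ := Set.Infinite.exists_notMem_finset (Set.infinite_univ (α := ℝ))
    ((P ×ˢ P).image (fun pq => (pq.2.1 - pq.1.1) / (pq.1.2 - pq.2.2)))
  refine ⟨ε, fun p hp q hq h => ?_⟩
  have h2 : p.2 = q.2 := by
    by_contra hne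
    apply hε.2
    refine mem_image.2 ⟨(p, q), mem_product.2 ⟨hp, hq⟩, ?_⟩
    have : p.2 - q.2 ≠ 0 := sub_ne_zero.2 hne
    show (q.1 - p.1) / (p.2 - q.2) = ε
    rw [div_eq_iff this]
    linarith
  rw [h2] at h
  exact Prod.ext (by linarith) h2

theorem exists_level (F : Finset ℝ) (β : ℝ) :
    ∃ β', (∀ w ∈ F, β < w → β' < w) ∧ (∀ w ∈ F, w ≤ β → w < β') := by
  classical
  by_cases h : (F.filter (fun w => β < w)).Nonempty
  · obtain ⟨w0, hw0, hmin⟩ := Finset.exists_min_image _ (fun w => w) h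
    have h1 := (mem_filter.1 hw0).2
    refine ⟨(β + w0) / 2, ?_, ?_⟩
    · intro w hw hβ
      have := hmin w (mem_filter.2 ⟨hw, hβ⟩)
      linarith
    · intro w hw hβ
      linarith
  · refine ⟨β + 1, ?_, ?_⟩
    · intro w hw hβ
      exact absurd ⟨w, mem_filter.2 ⟨hw, hβ⟩⟩ h
    · intro w hw hβ
      linarith

theorem noAlt_of {n k N : ℕ} {v : Fin n → ℝ × ℝ} {S : Set (ℝ × ℝ)} (hv : IsSimplePolygon v S)
    (hk : IsKConvexRegion k S) (ε : ℝ) (q : ℕ → Fin n)
    (hq : (∀ i j, i < j → j < N → q i < q j) ∨ (∀ i j, i < j → j < N → q j < q i)) :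
    NoAlt (fun i => (v (q i)).1 + ε * (v (q i)).2) (fun i => (v (q i)).2) N (2 * k + 2) := by
  classical
  rintro θ β ⟨g, h1, h2, h3⟩
  obtain ⟨β', b1, b2⟩ := exists_level
    (univ.image (fun i => (-θ) * (v i).1 + (1 - θ * ε) * (v i).2)) β
  have hne : ∀ i, (-θ) * (v i).1 + (1 - θ * ε) * (v i).2 - β' ≠ 0 := by
    intro i h0
    have hm : (-θ) * (v i).1 + (1 - θ * ε) * (v i).2 ∈
        univ.image (fun i => (-θ) * (v i).1 + (1 - θ * ε) * (v i).2) :=
      mem_image_of_mem _ (mem_univ i)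
    rcases lt_or_ge β ((-θ) * (v i).1 + (1 - θ * ε) * (v i).2) with h | h
    · have := b1 _ hm h; linarith
    · have := b2 _ hm h; linarith
  have hab : (-θ) ≠ 0 ∨ (1 - θ * ε) ≠ 0 := by
    by_cases h : θ = 0
    · right; rw [h]; norm_num
    · left; simpa using h
  have hpos : ∀ i, i < 2 * k + 2 → (0 < (-θ) * (v (q (g i))).1 + (1 - θ * ε) * (v (q (g i))).2 - β' ↔
      i % 2 = 0) := by
    intro i hi
    have hm : (-θ) * (v (q (g i))).1 + (1 - θ * ε) * (v (q (g i))).2 ∈
        univ.image (fun i => (-θ) * (v i).1 + (1 - θ * ε) * (v i).2) :=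
      mem_image_of_mem _ (mem_univ _)
    obtain ⟨k1, k2⟩ := h3 i hi
    constructor
    · intro h
      by_contra hc
      have k3 := k2 (by omega)
      have := b2 _ hm (by linarith)
      linarith
    · intro h
      have k3 := k1 h
      have := b1 _ hm (by linarith)
      linarith
  have hline : IsLine {p : ℝ × ℝ | (-θ) * p.1 + (1 - θ * ε) * p.2 = β'} :=
    ⟨-θ, 1 - θ * ε, β', hab, rfl⟩
  have hle := hk _ hline
  rcases hq with hq | hq
  · have h4 := comps_ge hv (-θ) (1 - θ * ε) β' hab hne (k + 1) (fun i => q (g i)) (by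
      intro i j hij hj
      exact hq _ _ (h1 i j hij (by omega)) (h2 j (by omega))) (by
      intro i hi
      rw [hpos i (by omega), hpos (i + 1) (by omega)]
      omega)
    have h5 := h4.trans hle
    have h6 : k + 1 ≤ k := by exact_mod_cast h5
    omega
  · have h4 := comps_ge hv (-θ) (1 - θ * ε) β' hab hne (k + 1) (fun i => q (g (2 * k + 1 - i))) (by
      intro i j hij hj
      exact hq _ _ (h1 _ _ (by omega) (by omega)) (h2 _ (by omega))) (by
      intro i hi
      rw [hpos _ (by omega), hpos _ (by omega)]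
      omega)
    have h5 := h4.trans hle
    have h6 : k + 1 ≤ k := by exact_mod_cast h5
    omega

theorem collinear_of_det {p q r : ℝ × ℝ} (hpq : p ≠ q)
    (h : (q.1 - p.1) * (r.2 - p.2) - (r.1 - p.1) * (q.2 - p.2) = 0) : Collinear ℝ {p, q, r} := by
  rw [collinear_iff_of_mem (p₀ := p) (by simp)]
  by_cases h1 : q.1 - p.1 = 0
  · have h2 : q.2 - p.2 ≠ 0 := by
      intro h2
      apply hpq
      exact Prod.ext (by linarith) (by linarith)
    refine ⟨q - p, ?_⟩
    intro a ha
    simp only [Set.mem_insert_iff, Set.mem_singleton_iff] at ha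
    rcases ha with rfl | rfl | rfl
    · exact ⟨0, by simp⟩
    · exact ⟨1, by simp⟩
    · refine ⟨(a.2 - p.2) / (q.2 - p.2), ?_⟩
      rw [h1] at h
      have h3 : a.1 - p.1 = 0 := by
        have : (a.1 - p.1) * (q.2 - p.2) = 0 := by linarith
        rcases mul_eq_zero.1 this with h4 | h4
        · exact h4
        · exact absurd h4 h2
      ext
      · simp only [vadd_eq_add, Prod.fst_add, Prod.smul_fst, Prod.fst_sub, smul_eq_mul]
        rw [h1]; linarith
      · simp only [vadd_eq_add, Prod.snd_add, Prod.smul_snd, Prod.snd_sub, smul_eq_mul]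
        field_simp
        ring
  · refine ⟨q - p, ?_⟩
    intro a ha
    simp only [Set.mem_insert_iff, Set.mem_singleton_iff] at ha
    rcases ha with rfl | rfl | rfl
    · exact ⟨0, by simp⟩
    · exact ⟨1, by simp⟩
    · refine ⟨(a.1 - p.1) / (q.1 - p.1), ?_⟩
      ext
      · simp only [vadd_eq_add, Prod.fst_add, Prod.smul_fst, Prod.fst_sub, smul_eq_mul]
        field_simp
        ring
      · simp only [vadd_eq_add, Prod.snd_add, Prod.smul_snd, Prod.snd_sub, smul_eq_mul]
        field_simp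
        linarith

theorem kconvex_map (e : (ℝ × ℝ) ≃L[ℝ] (ℝ × ℝ)) {n k : ℕ} {v : Fin n → ℝ × ℝ} {S : Set (ℝ × ℝ)}
    (hv : IsSimplePolygon v S) (hk : IsKConvexRegion k S) :
    IsSimplePolygon (fun i => e (v i)) (e '' S) ∧ IsKConvexRegion k (e '' S) :=
  ⟨isSimplePolygon_map e hv, isKConvexRegion_map e hk⟩

theorem GenPos.subset {P Q : Finset (ℝ × ℝ)} (h : GenPos P) (hQ : Q ⊆ P) : GenPos Q :=
  fun p hp q hq r hr => h p (hQ hp) q (hQ hq) r (hQ hr)

/-- nice lists of points give `3`-convex sets -/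
theorem kconvex_of_nice {P : Finset (ℝ × ℝ)} (hgp : GenPos P) (ε : ℝ) (p : ℕ → ℝ × ℝ)
    {L : List ℕ} (hL : ∀ i ∈ L, p i ∈ P) (h3 : 3 ≤ L.length)
    (hnice : Nice (fun i => (p i).1 + ε * (p i).2) (fun i => (p i).2) L ∨
      Nice (fun i => (p i).1 + ε * (p i).2) (fun i => - (p i).2) L) :
    ∃ Q ⊆ P, KConvexSet 3 Q ∧ Q.card = L.length := by
  classical
  set x : ℕ → ℝ := fun i => (p i).1 + ε * (p i).2 with hx
  set y : ℕ → ℝ := fun i => (p i).2 with hy
  have hL4 : L.Pairwise (fun i j => x i < x j) := by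
    rcases hnice with h | h
    · exact h.1
    · exact h.1
  have hnd : L.Nodup := hL4.imp (fun h => by rintro rfl; exact lt_irrefl _ h)
  set Q : Finset (ℝ × ℝ) := L.toFinset.image p with hQ
  have hQP : Q ⊆ P := by
    intro a ha
    obtain ⟨i, hi, rfl⟩ := mem_image.1 ha
    exact hL i (by simpa using hi)
  have hinj : ∀ i ∈ L, ∀ j ∈ L, x i = x j → i = j := by
    intro i hi j hj hij
    by_contra hne
    obtain ⟨a, ha, rfl⟩ := List.getElem_of_mem hi
    obtain ⟨b, hb, rfl⟩ := List.getElem_of_mem hj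
    rcases lt_trichotomy a b with h1 | h1 | h1
    · have := List.pairwise_iff_getElem.1 hL4 a b ha hb h1; linarith
    · subst h1; exact hne rfl
    · have := List.pairwise_iff_getElem.1 hL4 b a hb ha h1; linarith
  have hQc : Q.card = L.length := by
    rw [hQ, card_image_of_injOn, List.toFinset_card_of_nodup hnd]
    intro i hi j hj hij
    apply hinj i (by simpa using hi) j (by simpa using hj)
    have : p i = p j := hij
    simp only [hx]
    rw [this]
  refine ⟨Q, hQP, ?_, hQc⟩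
  rcases hnice with hnice | hnice
  · obtain ⟨n', v', S', p1, p2, p3⟩ := poly_of_nice hnice h3
    obtain ⟨p4, p5⟩ := kconvex_map (shearX ε) p1 p3
    refine kConvex_of (hgp.subset hQP) p4 ?_ p5
    ext a
    simp only [Set.mem_range]
    rw [hQ, Finset.coe_image]
    constructor
    · rintro ⟨i, rfl⟩
      have h1 : v' i ∈ {p | ∃ i ∈ L, p = (x i, y i)} := by rw [← p2]; exact Set.mem_range_self i
      obtain ⟨j, hj, hj2⟩ := h1
      refine ⟨j, by simpa using hj, ?_⟩
      rw [hj2, shearX_apply]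
      ext
      · simp only [hx, hy]; ring
      · rfl
    · rintro ⟨j, hj, rfl⟩
      have h1 : (x j, y j) ∈ Set.range v' := by
        rw [p2]
        exact ⟨j, by simpa using hj, rfl⟩
      obtain ⟨i, hi⟩ := h1
      refine ⟨i, ?_⟩
      rw [hi, shearX_apply]
      ext
      · simp only [hx, hy]; ring
      · rfl
  · obtain ⟨n', v', S', p1, p2, p3⟩ := poly_of_nice hnice h3
    obtain ⟨p4, p5⟩ := kconvex_map reflY p1 p3
    obtain ⟨p6, p7⟩ := kconvex_map (shearX ε) p4 p5
    refine kConvex_of (hgp.subset hQP) p6 ?_ p7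
    ext a
    simp only [Set.mem_range]
    rw [hQ, Finset.coe_image]
    constructor
    · rintro ⟨i, rfl⟩
      have h1 : v' i ∈ {p | ∃ i ∈ L, p = (x i, - y i)} := by rw [← p2]; exact Set.mem_range_self i
      obtain ⟨j, hj, hj2⟩ := h1
      refine ⟨j, by simpa using hj, ?_⟩
      rw [hj2, reflY_apply, shearX_apply]
      ext
      · simp only [hx, hy]; ring
      · simp only [hy]; ring
    · rintro ⟨j, hj, rfl⟩
      have h1 : (x j, - y j) ∈ Set.range v' := by
        rw [p2]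
        exact ⟨j, by simpa using hj, rfl⟩
      obtain ⟨i, hi⟩ := h1
      refine ⟨i, ?_⟩
      rw [hi, reflY_apply, shearX_apply]
      ext
      · simp only [hx, hy]; ring
      · simp only [hy]; ring

/-- an element of a nonempty finset of indices -/
noncomputable def someIdx {n : ℕ} (t : Finset (Fin n)) (h : 0 < t.card) : Fin n :=
  (Finset.card_pos.1 h).choose

theorem core {k s G Y : ℕ} {P : Finset (ℝ × ℝ)} (hP : KConvexSet k P) (hs : 2 ≤ s)
    (hn : G ^ s * G ^ s < P.card) (hG : 2 * (s * (2 * k + 2)) ≤ G)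
    (hY : 4 * (Y * (Y * Y)) + 1 < s) (hsY : s + 1 ≤ 2 ^ Y) :
    ∃ Q ⊆ P, KConvexSet 3 Q ∧ Q.card = 2 ^ Y + 1 := by
  classical
  obtain ⟨hgp, v, S, hv, hr, hk⟩ := hP
  obtain ⟨ε, hε⟩ := exists_shear P
  have hvP : ∀ i, v i ∈ P := fun i => by
    rw [← Finset.mem_coe, ← hr]; exact Set.mem_range_self i
  have hinj : Function.Injective (fun i => (v i).1 + ε * (v i).2) := by
    intro i j hij
    exact hv.injective (hε _ (hvP i) _ (hvP j) hij)
  have hG0 : 0 < G := by
    have : 0 < 2 * (s * (2 * k + 2)) := by positivity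
    omega
  have hES := Pool.Agent.H184R3.ES.erdos_szekeres (r := G ^ s) (s := G ^ s)
    (f := fun i => (v i).1 + ε * (v i).2) (by rw [Fintype.card_fin]; exact hn) hinj
  -- a monotone sequence
  obtain ⟨N, hN, q, hq, hxq⟩ : ∃ N, G ^ s ≤ N ∧ ∃ q : ℕ → Fin P.card,
      ((∀ i j, i < j → j < N → q i < q j) ∨ (∀ i j, i < j → j < N → q j < q i)) ∧
      ∀ i j, i < j → j < N →
        (v (q i)).1 + ε * (v (q i)).2 < (v (q j)).1 + ε * (v (q j)).2 := by
    rcases hES with ⟨t, ht, hmono⟩ | ⟨t, ht, hanti⟩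
    · refine ⟨t.card, ht.le, fun i => if h : i < t.card then t.orderEmbOfFin rfl ⟨i, h⟩ else
        someIdx t (by omega), ?_, ?_⟩
      · left
        intro i j hij hj
        simp only [dif_pos hj, dif_pos (show i < t.card by omega)]
        exact (t.orderEmbOfFin rfl).strictMono (Fin.mk_lt_mk.2 hij)
      · intro i j hij hj
        simp only [dif_pos hj, dif_pos (show i < t.card by omega)]
        exact hmono (t.orderEmbOfFin_mem rfl _) (t.orderEmbOfFin_mem rfl _)
          ((t.orderEmbOfFin rfl).strictMono (Fin.mk_lt_mk.2 hij))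
    · refine ⟨t.card, ht.le, fun i => if h : i < t.card then
        t.orderEmbOfFin rfl ⟨t.card - 1 - i, by omega⟩ else someIdx t (by omega), ?_, ?_⟩
      · right
        intro i j hij hj
        simp only [dif_pos hj, dif_pos (show i < t.card by omega)]
        exact (t.orderEmbOfFin rfl).strictMono (Fin.mk_lt_mk.2 (by omega))
      · intro i j hij hj
        simp only [dif_pos hj, dif_pos (show i < t.card by omega)]
        exact hanti (t.orderEmbOfFin_mem rfl _) (t.orderEmbOfFin_mem rfl _)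
          ((t.orderEmbOfFin rfl).strictMono (Fin.mk_lt_mk.2 (by omega)))
  set x : ℕ → ℝ := fun i => (v (q i)).1 + ε * (v (q i)).2 with hx
  set y : ℕ → ℝ := fun i => (v (q i)).2 with hy
  have hA : NoAlt x y N (2 * k + 2) := noAlt_of hv hk ε q hq
  have hgen : ∀ i j z, i < N → j < N → z < N → i ≠ j → j ≠ z → i ≠ z →
      slp x y i j ≠ slp x y i z := by
    intro i j z hi hj hz hij hjz hiz h
    have hxne : ∀ a b, a < N → b < N → a ≠ b → x b - x a ≠ 0 := by
      intro a b ha hb hab h0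
      rcases lt_or_gt_of_ne hab with h1 | h1
      · have : x a < x b := hxq a b h1 hb
        linarith
      · have : x b < x a := hxq b a h1 ha
        linarith
    have hvne : ∀ a b, a < N → b < N → a ≠ b → v (q a) ≠ v (q b) := by
      intro a b ha hb hab h0
      apply hxne a b ha hb hab
      simp only [hx]
      rw [h0]; ring
    have e1 := hxne i j hi hj hij
    have e2 := hxne i z hi hz hiz
    unfold slp at h
    rw [div_eq_div_iff e1 e2] at h
    apply hgp _ (hvP (q i)) _ (hvP (q j)) _ (hvP (q z)) (hvne i j hi hj hij)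
      (hvne j z hj hz hjz) (hvne i z hi hz hiz)
    apply collinear_of_det (hvne i j hi hj hij)
    simp only [hx, hy] at h
    linear_combination -h
  obtain ⟨L, hL1, hL2, hL3⟩ := core_seq (fun i j hij hj => hxq i j hij hj) hA hgen hN hs hG hG0
    hY hsY
  have h3 : 3 ≤ L.length := by omega
  obtain ⟨Q, q1, q2, q3⟩ := kconvex_of_nice hgp ε (fun i => v (q i)) (fun i _ => hvP (q i)) h3 hL3
  exact ⟨Q, q1, q2, by rw [q3, hL1]⟩

/-- three points -/
theorem triangle_aux {P : Finset (ℝ × ℝ)} (hgp : GenPos P) (ε : ℝ) {a b c : ℝ × ℝ}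
    (ha : a ∈ P) (hb : b ∈ P) (hc : c ∈ P) (hab : a.1 + ε * a.2 < b.1 + ε * b.2)
    (hbc : b.1 + ε * b.2 < c.1 + ε * c.2) : ∃ Q ⊆ P, KConvexSet 3 Q ∧ Q.card = 3 := by
  have nab : a ≠ b := by rintro rfl; exact lt_irrefl _ hab
  have nbc : b ≠ c := by rintro rfl; exact lt_irrefl _ hbc
  have nac : a ≠ c := by rintro rfl; exact lt_irrefl _ (hab.trans hbc)
  have hdet : (b.1 - a.1) * (c.2 - a.2) - (c.1 - a.1) * (b.2 - a.2) ≠ 0 := fun h =>
    hgp a ha b hb c hc nab nbc nac (collinear_of_det nab h)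
  set p : ℕ → ℝ × ℝ := fun i => if i = 0 then a else if i = 1 then b else c with hp
  have key : ∀ y : ℕ → ℝ, (y 2 - y 0) * ((p 1).1 + ε * (p 1).2 - ((p 0).1 + ε * (p 0).2)) <
      (y 1 - y 0) * ((p 2).1 + ε * (p 2).2 - ((p 0).1 + ε * (p 0).2)) →
      Nice (fun i => (p i).1 + ε * (p i).2) y [0, 1, 2] := by
    intro y hy
    refine ⟨?_, ?_, ?_⟩
    · have h1 : a.1 + ε * a.2 < c.1 + ε * c.2 := hab.trans hbc
      simp [hp, hab, hbc, h1]
    · intro p' z L hL i hi
      have hl : L.length = 1 := by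
        have := congrArg List.length hL
        simp at this
        omega
      obtain ⟨l, rfl⟩ := List.length_eq_one_iff.1 hl
      simp at hL
      obtain ⟨rfl, rfl, rfl⟩ := hL
      rw [List.mem_singleton] at hi
      subst hi
      exact hy
    · intro θ β
      unfold Wd
      simp only [List.map_cons, List.map_nil]
      generalize decide (0 ≤ y 0 - θ * ((p 0).1 + ε * (p 0).2) - β) = b0
      generalize decide (0 ≤ y 1 - θ * ((p 1).1 + ε * (p 1).2) - β) = b1
      generalize decide (0 ≤ y 2 - θ * ((p 2).1 + ε * (p 2).2) - β) = b2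
      cases b0 <;> cases b1 <;> cases b2 <;> simp [ch_cons_cons]
  have hmem : ∀ i ∈ [0, 1, 2], p i ∈ P := by
    intro i hi
    simp only [List.mem_cons, List.not_mem_nil, or_false] at hi
    rcases hi with rfl | rfl | rfl
    · simpa [hp] using ha
    · simpa [hp] using hb
    · simpa [hp] using hc
  rcases lt_or_gt_of_ne hdet with h | h
  · exact kconvex_of_nice hgp ε p hmem (by simp) (Or.inl (key _ (by
      simp only [hp]; norm_num; linarith)))
  · exact kconvex_of_nice hgp ε p hmem (by simp) (Or.inr (key _ (by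
      simp only [hp]; norm_num; linarith)))

theorem triangle {P : Finset (ℝ × ℝ)} (hgp : GenPos P) (h3 : 3 ≤ P.card) :
    ∃ Q ⊆ P, KConvexSet 3 Q ∧ Q.card = 3 := by
  obtain ⟨ε, hε⟩ := exists_shear P
  obtain ⟨a, ha, b, hb, c, hc, hab, hac, hbc⟩ := Finset.two_lt_card.1 (show 2 < P.card by omega)
  have e1 : a.1 + ε * a.2 ≠ b.1 + ε * b.2 := fun h => hab (hε a ha b hb h)
  have e2 : a.1 + ε * a.2 ≠ c.1 + ε * c.2 := fun h => hac (hε a ha c hc h)
  have e3 : b.1 + ε * b.2 ≠ c.1 + ε * c.2 := fun h => hbc (hε b hb c hc h)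
  rcases lt_or_gt_of_ne e1 with h1 | h1 <;> rcases lt_or_gt_of_ne e2 with h2 | h2 <;>
    rcases lt_or_gt_of_ne e3 with h3 | h3
  · exact triangle_aux hgp ε ha hb hc h1 h3
  · exact triangle_aux hgp ε ha hc hb h2 h3
  · linarith
  · exact triangle_aux hgp ε hc ha hb h2 h1
  · exact triangle_aux hgp ε hb ha hc h1 h2
  · linarith
  · exact triangle_aux hgp ε hb hc ha h3 h2
  · exact triangle_aux hgp ε hc hb ha h3 h1

/-! ### The function `f` -/

theorem le_f {k j n m : ℕ} (hk : 3 ≤ k) (hn : 3 ≤ n)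
    (h : ∀ P : Finset (ℝ × ℝ), P.card = n → KConvexSet k P →
      ∃ Q ⊆ P, KConvexSet j Q ∧ Q.card = m) : m ≤ f k j n := by
  unfold f
  refine le_csSup ?_ (show m ∈ {m | ∀ P : Finset (ℝ × ℝ), P.card = n → KConvexSet k P →
    ∃ Q ⊆ P, KConvexSet j Q ∧ Q.card = m} from h)
  refine ⟨n, ?_⟩
  intro m' hm'
  obtain ⟨P, hP1, hP2, _⟩ := exists_set (M := n) (H := 1) (t := n) (N := n - 2) (by omega) le_rfl
    (by omega) (by simp) (by omega)
    ((Nat.sub_le n 2).trans (Nat.lt_two_pow_self).le)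
  have hP3 : P.card = n := by omega
  obtain ⟨Q, q1, _, q3⟩ := hm' P hP3 (hP2.mono (by omega))
  rw [← q3, ← hP3]
  exact card_le_card q1

end Pool.Agent.H595K
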