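import Mathlib
import Pool.Agent.H595K.Ann

/-!
# Lines crossing a layered left-good tree
-/

namespace Pool.Agent.H595K.Lb

open LT

section
variable {x y : ℕ → ℝ} {θ β : ℝ}

/-- the side of the point number `i` -/
def sd (x y : ℕ → ℝ) (θ β : ℝ) (i : ℕ) : ℝ := y i - θ * x i - β

theorem slope_lt {i j : ℕ} (h : x i < x j) (hi : 0 ≤ sd x y θ β i) (hj : sd x y θ β j < 0) :
    slp x y i j < θ := by
  unfold sd at hi hj
  have h1 := slp_mul (y := y) h
  by_contra hc
  have := mul_le_mul_of_nonneg_right (not_lt.1 hc) (show 0 ≤ x j - x i by linarith)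
  linarith

theorem slope_gt {i j : ℕ} (h : x i < x j) (hi : sd x y θ β i < 0) (hj : 0 ≤ sd x y θ β j) :
    θ < slp x y i j := by
  unfold sd at hi hj
  have h1 := slp_mul (y := y) h
  by_contra hc
  have := mul_le_mul_of_nonneg_right (not_lt.1 hc) (show 0 ≤ x j - x i by linarith)
  linarith

/-- nodes with larger labels are not crossed downwards -/
def DL (x y : ℕ → ℝ) (θ β u0 : ℝ) : LT ℝ → Prop :=
  LT.AllN (fun u a b => u0 < u → ∀ i ∈ a.lv, ∀ j ∈ b.lv,
    ¬ (0 ≤ sd x y θ β i ∧ sd x y θ β j < 0))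

/-- nodes with smaller labels are not crossed upwards -/
def UH (x y : ℕ → ℝ) (θ β u0 : ℝ) : LT ℝ → Prop :=
  LT.AllN (fun u a b => u < u0 → ∀ i ∈ a.lv, ∀ j ∈ b.lv,
    ¬ (sd x y θ β i < 0 ∧ 0 ≤ sd x y θ β j))

theorem allN_order {P P' : ℝ → LT ℝ → LT ℝ → Prop} {t : LT ℝ} {x : ℕ → ℝ} (h : AllN P t)
    (hx : t.lv.Pairwise (fun i j => x i < x j))
    (hPP : ∀ u a b, P u a b → (∀ i ∈ a.lv, i ∈ t.lv) → (∀ i ∈ b.lv, i ∈ t.lv) →
      (∀ i ∈ a.lv, ∀ j ∈ b.lv, x i < x j) → P' u a b) : AllN P' t := by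
  induction t with
  | leaf i => trivial
  | node u a b iha ihb =>
    simp only [lv] at hx
    rw [List.pairwise_append] at hx
    obtain ⟨hx1, hx2, hx3⟩ := hx
    refine ⟨hPP u a b h.1 (fun i hi => by simp [lv, hi]) (fun i hi => by simp [lv, hi]) hx3,
      iha h.2.1 hx1 ?_, ihb h.2.2 hx2 ?_⟩
    · intro u' a' b' h1 h2 h3 h4
      exact hPP u' a' b' h1 (fun i hi => by simp [lv, h2 i hi]) (fun i hi => by simp [lv, h3 i hi])
        h4
    · intro u' a' b' h1 h2 h3 h4
      exact hPP u' a' b' h1 (fun i hi => by simp [lv, h2 i hi]) (fun i hi => by simp [lv, h3 i hi])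
        h4

theorem fact_DL {u0 : ℝ} {Z : List ℕ} {r : LT ℝ} (hR : Rel (slp x y) u0 Z r)
    (hx : r.lv.Pairwise (fun i j => x i < x j)) (hxz : ∀ z ∈ Z, ∀ j ∈ r.lv, x z < x j)
    {q : ℕ} (hq : q ∈ Z) (hf : sd x y θ β q < 0) : DL x y θ β u0 r := by
  refine allN_order hR hx ?_
  rintro u a b ⟨h1, _, _⟩ ha hb hab hlt i hi j hj ⟨h2, h3⟩
  have e1 := (h1 hlt i hi j hj q hq).1
  rw [slp_comm x y i q] at e1
  have e2 := slope_lt (hab i hi j hj) h2 h3
  have e3 := slope_gt (hxz q hq i (ha i hi)) hf h2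
  linarith

theorem fact_UH {u0 : ℝ} {Z : List ℕ} {r : LT ℝ} (hR : Rel (slp x y) u0 Z r)
    (hx : r.lv.Pairwise (fun i j => x i < x j)) (hxz : ∀ z ∈ Z, ∀ j ∈ r.lv, x z < x j)
    {q : ℕ} (hq : q ∈ Z) (hf : 0 ≤ sd x y θ β q) : UH x y θ β u0 r := by
  refine allN_order hR hx ?_
  rintro u a b ⟨_, h1, _⟩ ha hb hab hlt i hi j hj ⟨h2, h3⟩
  have e1 := (h1 hlt i hi j hj q hq).1
  simp only at e1
  rw [slp_comm x y i q] at e1
  have e2 := slope_gt (hab i hi j hj) h2 h3
  have e3 := slope_lt (hxz q hq i (ha i hi)) hf h2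
  linarith

theorem fact_C1 {u0 : ℝ} {Z : List ℕ} {l : LT ℝ} (hR : Rel (slp x y) u0 Z l)
    (hl : AllL (fun u => u0 < u) l)
    (hx : l.lv.Pairwise (fun i j => x i < x j)) (hxz : ∀ j ∈ l.lv, ∀ z ∈ Z, x j < x z)
    {q : ℕ} (hq : q ∈ Z) (hf : 0 ≤ sd x y θ β q) :
    l.lv.Pairwise (fun i j => 0 ≤ y i - θ * x i - β → 0 ≤ y j - θ * x j - β) := by
  induction l with
  | leaf i => simp [lv]
  | node u a b iha ihb =>
    simp only [lv] at hx ⊢
    rw [List.pairwise_append] at hx ⊢
    obtain ⟨hx1, hx2, hx3⟩ := hx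
    refine ⟨iha hR.2.1 hl.2.1 hx1 (fun j hj => hxz j (by simp [lv, hj])),
      ihb hR.2.2 hl.2.2 hx2 (fun j hj => hxz j (by simp [lv, hj])), ?_⟩
    intro i hi j hj h2
    by_contra hcon
    push Not at hcon
    have e1 := (hR.1.1 hl.1 i hi j hj q hq).2
    have e2 := slope_lt (θ := θ) (β := β) (y := y) (hx3 i hi j hj) h2 hcon
    have e3 := slope_gt (θ := θ) (β := β) (y := y) (hxz j (by simp [lv, hj]) q hq) hcon hf
    linarith

theorem pairs_sorted {r : LT ℝ} (h : AllN (fun _ a b => ∀ i ∈ a.lv, ∀ j ∈ b.lv,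
    ¬ (0 ≤ sd x y θ β i ∧ sd x y θ β j < 0)) r) :
    r.lv.Pairwise (fun i j => 0 ≤ y i - θ * x i - β → 0 ≤ y j - θ * x j - β) := by
  induction r with
  | leaf i => simp [lv]
  | node u a b iha ihb =>
    simp only [lv]
    rw [List.pairwise_append]
    refine ⟨iha h.2.1, ihb h.2.2, ?_⟩
    intro i hi j hj h2
    by_contra hcon
    push Not at hcon
    exact h.1 i hi j hj ⟨h2, hcon⟩

theorem high_sorted {u0 : ℝ} {r : LT ℝ} (hD : DL x y θ β u0 r) (h : AllL (fun u => u0 < u) r) :
    (Wd x y θ β r.lv).Pairwise (fun a b => a = true → b = true) := by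
  apply word_sorted
  apply pairs_sorted
  refine (hD.and (allN_of_allL h)).imp ?_
  rintro u a b ⟨h1, h2⟩
  exact h1 h2

theorem ch_leaf (σ : Bool) (i : ℕ) : ch (σ :: (Wd x y θ β (leaf (α := ℝ) i).lv ++ [false])) ≤ 2 := by
  simp only [lv, Wd, List.map_cons, List.map_nil]
  cases decide (0 ≤ y i - θ * x i - β) <;> cases σ <;> simp [ch_cons_cons]

theorem lemma2 {u0 : ℝ} (r : LT ℝ) (hD : DL x y θ β u0 r) (hU : UH x y θ β u0 r)
    (hC : Cl u0 r) (hne : AllL (fun u => u ≠ u0) r) :
    ch (true :: (Wd x y θ β r.lv ++ [false])) ≤ 3 := by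
  induction r with
  | leaf i => exact (ch_leaf _ i).trans (by norm_num)
  | node u a b iha ihb =>
    rcases lt_or_gt_of_ne hne.1 with hlt | hlt
    · simp only [lv]
      rw [wd_append]
      by_cases hb : ∀ q ∈ b.lv, ¬ 0 ≤ y q - θ * x q - β
      · have s1 := ch_const_right true false false (Wd x y θ β a.lv) (Wd x y θ β b.lv)
          (word_false hb)
        have s2 := iha hD.2.1 hU.2.1 hC.2.1 hne.2.1
        simp at s1
        simp
        omega
      · push Not at hb
        obtain ⟨q, hq, hfq⟩ := hb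
        have ha : ∀ i ∈ a.lv, 0 ≤ y i - θ * x i - β := by
          intro i hi
          by_contra hcon
          push Not at hcon
          exact hU.1 hlt i hi q hq ⟨hcon, hfq⟩
        have s1 := ch_const_left true false true (Wd x y θ β a.lv) (Wd x y θ β b.lv)
          (word_true ha)
        have s2 := ihb hD.2.2 hU.2.2 hC.2.2 hne.2.2
        simp at s1
        simp
        omega
    · have h1 : AllL (fun v => u0 < v) (node u a b) := ⟨hlt, (hC.1 hlt).1, (hC.1 hlt).2⟩
      exact (ch_sorted _ (high_sorted hD h1)).2.1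

theorem lemma1 {u0 : ℝ} (r : LT ℝ) (hCp : Compat (slp x y) r) (hLG : LG r)
    (hx : r.lv.Pairwise (fun i j => x i < x j))
    (hD : DL x y θ β u0 r) (hC : Cl u0 r) (hL : Ly u0 r) (hne : AllL (fun u => u ≠ u0) r) :
    ch (false :: (Wd x y θ β r.lv ++ [false])) ≤ 4 := by
  induction r with
  | leaf i => exact (ch_leaf _ i).trans (by norm_num)
  | node u a b iha ihb =>
    rcases lt_or_gt_of_ne hne.1 with hlt | hlt
    · simp only [lv] at hx ⊢
      rw [List.pairwise_append] at hx
      obtain ⟨hx1, hx2, hx3⟩ := hx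
      rw [wd_append]
      by_cases hb : ∀ q ∈ b.lv, ¬ 0 ≤ y q - θ * x q - β
      · have s1 := ch_const_right false false false (Wd x y θ β a.lv) (Wd x y θ β b.lv)
          (word_false hb)
        have s2 := iha hCp.2.1 hLG.2.1 hx1 hD.2.1 hC.2.1 hL.2.1 hne.2.1
        simp at s1
        simp
        omega
      · push Not at hb
        obtain ⟨q, hq, hfq⟩ := hb
        by_cases ha : ∀ i ∈ a.lv, ¬ 0 ≤ y i - θ * x i - β
        · have s1 := ch_const_left false false false (Wd x y θ β a.lv) (Wd x y θ β b.lv)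
            (word_false ha)
          have s2 := ihb hCp.2.2 hLG.2.2 hx2 hD.2.2 hC.2.2 hL.2.2 hne.2.2
          simp at s1
          simp
          omega
        · push Not at ha
          obtain ⟨p, hp, hfp⟩ := ha
          have hso := fact_C1 hCp.1.1 hLG.1 hx1 hx3 hq hfq
          have hUH := fact_UH hCp.1.2 hx2 hx3 hp hfp
          have hUH' : UH x y θ β u0 b := by
            refine (hUH.and (allN_of_allL (hL.1 hlt))).imp ?_
            rintro v a' b' ⟨k1, k2⟩ hv
            rcases k2 with k2 | k2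
            · exact k1 k2
            · exact absurd k2 (not_lt.2 hv.le)
          have s1 := (ch_sorted _ (word_sorted hso)).2.2.1
          have s2 := lemma2 b hD.2.2 hUH' hC.2.2 hne.2.2
          have s3 := ch_join false true false (Wd x y θ β a.lv) (Wd x y θ β b.lv)
          omega
    · have h1 : AllL (fun v => u0 < v) (node u a b) := ⟨hlt, (hC.1 hlt).1, (hC.1 hlt).2⟩
      exact ((ch_sorted _ (high_sorted hD h1)).2.2.2).trans (by norm_num)

/-- **Word lemma.** -/
theorem word_le (t : LT ℝ) (hCp : Compat (slp x y) t) (hLG : LG t) (hLm : Lm t) (hLay : Lay t)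
    (hx : t.lv.Pairwise (fun i j => x i < x j)) :
    ch (true :: (Wd x y θ β t.lv ++ [false])) ≤ 5 := by
  induction t with
  | leaf i => exact (ch_leaf _ i).trans (by norm_num)
  | node u a b iha ihb =>
    simp only [lv] at hx ⊢
    rw [List.pairwise_append] at hx
    obtain ⟨hx1, hx2, hx3⟩ := hx
    rw [wd_append]
    have hne : AllL (fun v => v ≠ u) b := allL_of_allN (hCp.1.2.imp (fun _ _ _ h => h.2.2))
    by_cases hb : ∀ q ∈ b.lv, ¬ 0 ≤ y q - θ * x q - β
    · have s1 := ch_const_right true false false (Wd x y θ β a.lv) (Wd x y θ β b.lv)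
        (word_false hb)
      have s2 := iha hCp.2.1 hLG.2.1 hLm.2.1 hLay.2.1 hx1
      simp at s1
      simp
      omega
    · push Not at hb
      obtain ⟨q, hq, hfq⟩ := hb
      have hso := fact_C1 hCp.1.1 hLG.1 hx1 hx3 hq hfq
      by_cases hT : ∀ i ∈ a.lv, 0 ≤ y i - θ * x i - β
      · have s1 := ch_const_left true false true (Wd x y θ β a.lv) (Wd x y θ β b.lv)
          (word_true hT)
        have s2 := ihb hCp.2.2 hLG.2.2 hLm.2.2 hLay.2.2 hx2
        simp at s1
        simp
        omega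
      · push Not at hT
        obtain ⟨p, hp, hfp⟩ := hT
        have hDL : DL x y θ β u b := fact_DL hCp.1.2 hx2 hx3 hp hfp
        by_cases hF : ∀ i ∈ a.lv, ¬ 0 ≤ y i - θ * x i - β
        · have s1 := ch_const_left true false false (Wd x y θ β a.lv) (Wd x y θ β b.lv)
            (word_false hF)
          have s2 := lemma1 b hCp.2.2 hLG.2.2 hx2 hDL hLm.1 hLay.1 hne
          simp at s1
          simp
          omega
        · push Not at hF
          obtain ⟨p', hp', hfp'⟩ := hF
          have hUH : UH x y θ β u b := fact_UH hCp.1.2 hx2 hx3 hp' hfp'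
          have s1 := (ch_sorted _ (word_sorted hso)).1
          have s2 := lemma2 b hDL hUH hLm.1 hne
          have s3 := ch_join true true false (Wd x y θ β a.lv) (Wd x y θ β b.lv)
          omega

/-- a layered left-good tree gives a nice list -/
theorem nice_of_lay {u : ℝ} {l r : LT ℝ} (hCp : Compat (slp x y) (node u l r))
    (hLG : LG (node u l r)) (hLm : Lm (node u l r)) (hLay : Lay (node u l r))
    (hx : (node u l r).lv.Pairwise (fun i j => x i < x j)) {z : ℕ} (hz : z ∈ r.lv) :
    Nice x y (l.lv ++ [z]) := by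
  have hsub : (l.lv ++ [z]).Sublist (node u l r).lv := by
    simp only [lv]
    exact (List.Sublist.refl _).append (List.singleton_sublist.2 hz)
  have hpairs : l.lv.Pairwise (fun i j => slp x y i z < slp x y i j) := by
    have h1 := hCp.1.1
    have h2 := hLG.1
    have key : ∀ s : LT ℝ, Rel (slp x y) u r.lv s → AllL (fun v => u < v) s →
        s.lv.Pairwise (fun i j => slp x y i z < slp x y i j) := by
      intro s
      induction s with
      | leaf i => intro _ _; simp [lv]
      | node v a b iha ihb =>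
        intro k1 k2
        simp only [lv]
        rw [List.pairwise_append]
        exact ⟨iha k1.2.1 k2.2.1, ihb k1.2.2 k2.2.2,
          fun i hi j hj => (k1.1.1 k2.1 i hi j hj z hz).1⟩
    exact key l h1 h2
  refine ⟨hx.sublist hsub, ?_, ?_⟩
  · intro p z' L hL i hi
    have h1 := congrArg List.getLast? hL
    have h2 : z = z' := by
      rw [List.getLast?_append, ← List.cons_append, List.getLast?_append] at h1
      simpa using h1
    subst h2
    rw [← List.cons_append] at hL
    have h3 := List.append_cancel_right hL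
    have h4 : [p, i].Sublist l.lv := by
      rw [h3]
      exact List.Sublist.cons_cons _ (List.singleton_sublist.2 hi)
    have hx' := hx.sublist hsub
    rw [List.pairwise_append] at hx'
    have h5 := of_sublist hx'.1 h4
    have hp : p ∈ l.lv := h4.subset (by simp)
    have h6 := hx'.2.2 p hp z (by simp)
    have h7 := of_sublist hpairs h4
    exact chord h5 h6 h7
  · intro θ β
    have h1 := word_le (θ := θ) (β := β) _ hCp hLG hLm hLay hx
    have h2 : (Wd x y θ β (l.lv ++ [z])).Sublist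
        (true :: (Wd x y θ β (node u l r).lv ++ [false])) := by
      apply List.Sublist.cons
      refine List.Sublist.trans ?_ (List.sublist_append_left _ _)
      exact hsub.map _
    exact (ch_sublist h2).trans h1

end

end Pool.Agent.H595K.Lb
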