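import Mathlib
import Pool.Agent.H595K.Word
import Pool.Agent.H595K.Thin

/-!
# Nice lists from complete labelled trees
-/

namespace Pool.Agent.H595K.Lb

open LT

theorem Cross.sub {x y : ℕ → ℝ} {A B : List ℕ} {m : ℕ} (h : Cross x y A m) (hB : B.Sublist A) :
    Cross x y B m := fun θ β Q hQ => h θ β Q (hQ.trans hB)

theorem lg_core {x y : ℕ → ℝ} {t : LT ℝ} {m Y : ℕ} (hx : t.lv.Pairwise (fun i j => x i < x j))
    (hC : Cross x y t.lv m) (hCp : Compat (slp x y) t) (hLG : LG t)
    (hn : Comp (2 * (m * Y) + 2) t) :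
    ∃ Q : List ℕ, Q.length = 2 ^ Y + 1 ∧ (∀ i ∈ Q, i ∈ t.lv) ∧ Nice x y Q := by
  obtain ⟨t1, a1, a2, a3, _⟩ := lam_exists t (2 * (m * Y) + 2) (m * Y + 1) ∅ hLG hn
    (by simp; omega)
  have hx1 := hx.sublist a1.sublist
  have hC1 := hC.sub a1.sublist
  have hCp1 := hCp.sub a1
  have hLG1 := LG.sub a1 hLG
  have h1 : AllL (fun u => u.2 < m) (ann [] t1) :=
    ann_lt hx1 hC1 t1 [] (by simp) (by simp) hCp1
  have h2 := p3_ann t1 [] a3 hCp1.dst (by simp)
  obtain ⟨c, _, t2, b1, b2⟩ := exists_color (fun (p : ℝ × ℕ) _ _ => p.2) (D := Y)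
    (allN_of_allL h1) (comp_ann [] a2) (by omega)
  have b3 := sub_strip b1
  rw [strip_ann] at b3
  have hP3 := p3_sub b1 h2
  have hcol : AllL (fun p => p.2 = c) t2 := by
    apply allL_of_allN
    refine b1.allN (AllN.of_forall (P := fun _ _ _ => True) (fun _ _ _ => trivial) _) ?_
    intro a l r l' r' hc _ _ _
    exact hc
  have hCp3 := hCp1.sub b3
  have hLay := lay_strip hP3 hcol hCp3.dst
  have hLG3 := LG.sub b3 hLG1
  have hLm3 := Lm.sub b3 a3
  have hx3 := hx1.sublist b3.sublist
  have b4 := comp_strip b2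
  revert b4 hLay hLG3 hLm3 hx3 hCp3 b3
  generalize strip t2 = t3
  intro b3 hCp3 hLay hLG3 hLm3 hx3 b4
  cases t3 with
  | leaf i => exact absurd b4 (by simp [Comp])
  | node u l r =>
    obtain ⟨z, hz⟩ := exists_mem r
    refine ⟨l.lv ++ [z], ?_, ?_, nice_of_lay hCp3 hLG3 hLm3 hLay hx3 hz⟩
    · rw [List.length_append, b4.1.length]; rfl
    · intro i hi
      apply a1.mem
      apply b3.mem
      simp only [lv, List.mem_append]
      rcases List.mem_append.1 hi with h | h
      · exact Or.inl h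
      · right; rw [List.mem_singleton.1 h]; exact hz

theorem Cross.negY {x y : ℕ → ℝ} {A : List ℕ} {m : ℕ} (h : Cross x y A m) :
    Cross x (fun n => - y n) A m := by
  intro θ β Q hQ hch
  refine h (-θ) (-β) Q hQ (hch.imp ?_)
  intro i j hij
  have e : (y i - -θ * x i - -β) * (y j - -θ * x j - -β) =
      (- y i - θ * x i - β) * (- y j - θ * x j - β) := by ring
  rw [e]; exact hij

theorem Cross.neg {x y : ℕ → ℝ} {A : List ℕ} {m : ℕ} (h : Cross x y A m) :
    Cross (fun n => - x n) (fun n => - y n) A.reverse m := by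
  intro θ β Q hQ hch
  have hQ' : Q.reverse.Sublist A := by
    have := hQ.reverse
    rwa [List.reverse_reverse] at this
  have := h θ (-β) Q.reverse hQ' (by
    rw [List.isChain_reverse]
    refine hch.imp ?_
    intro i j hij
    show (y j - θ * x j - -β) * (y i - θ * x i - -β) < 0
    have e : (y j - θ * x j - -β) * (y i - θ * x i - -β) =
      (- y i - θ * - x i - β) * (- y j - θ * - x j - β) := by ring
    rw [e]; exact hij)
  rwa [List.length_reverse] at this

theorem slp_negY (x y : ℕ → ℝ) (i j : ℕ) : slp x (fun n => - y n) i j = - slp x y i j := by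
  unfold slp
  ring

theorem slp_neg2 (x y : ℕ → ℝ) (i j : ℕ) :
    slp (fun n => - x n) (fun n => - y n) i j = slp x y i j := by
  unfold slp
  rw [show - y j - - y i = -(y j - y i) by ring, show - x j - - x i = -(x j - x i) by ring,
    neg_div_neg_eq]

theorem lt_core {x y : ℕ → ℝ} {t : LT ℝ} {m Y n : ℕ} (hx : t.lv.Pairwise (fun i j => x i < x j))
    (hC : Cross x y t.lv m) (hCp : Compat (slp x y) t) (hn : Comp n t)
    (hYn : 2 * (2 * (m * Y) + 1) * (2 * (m * Y) + 1) < n) :
    ∃ Q : List ℕ, Q.length = 2 ^ Y + 1 ∧ (∀ i ∈ Q, i ∈ t.lv) ∧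
      (Nice x y Q ∨ Nice x (fun n => - y n) Q ∨ Nice (fun n => - x n) (fun n => - y n) Q) := by
  rcases exists_good_sub hCp.dst hn hYn with ⟨t', h1, h2, h3⟩ | ⟨t', h1, h2, h3⟩ | ⟨t', h1, h2, h3⟩
  · -- left-bad
    have e1 : (fun i j => - slp x y i j) = slp x (fun n => - y n) := by
      funext i j; rw [slp_negY]
    have k1 : Compat (slp x (fun n => - y n)) (neg t') := by
      rw [← e1]; exact compat_neg (hCp.sub h1)
    obtain ⟨Q, q1, q2, q3⟩ := lg_core (t := neg t') (by rw [lv_neg]; exact hx.sublist h1.sublist)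
      (by rw [lv_neg]; exact (hC.sub h1.sublist).negY) k1 (lg_neg h3) (comp_neg h2)
    exact ⟨Q, q1, fun i hi => h1.mem (by have := q2 i hi; rwa [lv_neg] at this), Or.inr (Or.inl q3)⟩
  · obtain ⟨Q, q1, q2, q3⟩ := lg_core (hx.sublist h1.sublist) (hC.sub h1.sublist) (hCp.sub h1) h3 h2
    exact ⟨Q, q1, fun i hi => h1.mem (q2 i hi), Or.inl q3⟩
  · have e1 : slp (fun n => - x n) (fun n => - y n) = slp x y := by
      funext i j; rw [slp_neg2]
    have k1 : Compat (slp (fun n => - x n) (fun n => - y n)) (mir t') := by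
      rw [e1]; exact compat_mir (slp_comm x y) (hCp.sub h1)
    obtain ⟨Q, q1, q2, q3⟩ := lg_core (t := mir t') (by
        rw [lv_mir, List.pairwise_reverse]
        refine (hx.sublist h1.sublist).imp ?_
        intro i j hij
        linarith)
      (by rw [lv_mir]; exact (hC.sub h1.sublist).neg) k1 (lg_mir h3) (comp_mir h2)
    exact ⟨Q, q1, fun i hi => h1.mem (by have := q2 i hi; rw [lv_mir] at this; simpa using this),
      Or.inr (Or.inr q3)⟩

/-- crossing numbers from the condition on alternating sequences -/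
theorem cross_of_noAlt {x y : ℕ → ℝ} {N m : ℕ} (h : NoAlt x y N (m + 1)) {A : List ℕ}
    (hA : A.Pairwise (fun i j => i < j)) (hN : ∀ i ∈ A, i < N) : Cross x y A (m + 2) := by
  intro θ β Q hQ hch
  by_contra hcon
  push Not at hcon
  set f : ℕ → ℝ := fun i => y i - θ * x i - β with hf
  have hQA := hA.sublist hQ
  have hch' : ∀ i (hi : i + 1 < Q.length), f Q[i] * f Q[i + 1] < 0 := by
    intro i hi
    exact List.isChain_iff_getElem.1 hch i hi
  have hlt : ∀ i j (hi : i < Q.length) (hj : j < Q.length), i < j → Q[i] < Q[j] := by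
    intro i j hi hj hij
    exact List.pairwise_iff_getElem.1 hQA i j hi hj hij
  have hsign : ∀ (i : ℕ) (hi : i < Q.length), ((0 : ℝ) < f (Q[0]'(by omega)) →
      (i % 2 = 0 → (0 : ℝ) < f Q[i]) ∧ (i % 2 = 1 → f Q[i] < (0 : ℝ))) ∧
      (f (Q[0]'(by omega)) < (0 : ℝ) → (i % 2 = 0 → f Q[i] < (0 : ℝ)) ∧
        (i % 2 = 1 → (0 : ℝ) < f Q[i])) := by
    intro i
    induction i with
    | zero =>
      intro hi
      exact ⟨fun h => ⟨fun _ => h, fun h => by omega⟩, fun h => ⟨fun _ => h, fun h => by omega⟩⟩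
    | succ i ih =>
      intro hi
      obtain ⟨h1, h2⟩ := ih (by omega)
      have h3 := hch' i hi
      constructor
      · intro h0
        obtain ⟨k1, k2⟩ := h1 h0
        constructor
        · intro hp
          have := k2 (by omega)
          by_contra hc
          have := mul_nonneg_of_nonpos_of_nonpos this.le (not_lt.1 hc)
          linarith
        · intro hp
          have := k1 (by omega)
          by_contra hc
          have := mul_nonneg this.le (not_lt.1 hc)
          linarith
      · intro h0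
        obtain ⟨k1, k2⟩ := h2 h0
        constructor
        · intro hp
          have := k2 (by omega)
          by_contra hc
          have := mul_nonneg this.le (not_lt.1 hc)
          linarith
        · intro hp
          have := k1 (by omega)
          by_contra hc
          have := mul_nonneg_of_nonpos_of_nonpos this.le (not_lt.1 hc)
          linarith
  have h0 : f (Q[0]'(by omega)) ≠ 0 := by
    intro h0
    have := hch' 0 (by omega)
    rw [h0, zero_mul] at this
    exact lt_irrefl _ this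
  obtain ⟨s, hs, hs2⟩ : ∃ s, s ≤ 1 ∧ ∀ i (hi : i + s < Q.length), (i % 2 = 0 → 0 < f Q[i + s]) ∧
      (i % 2 = 1 → f Q[i + s] < 0) := by
    rcases lt_or_gt_of_ne h0 with h1 | h1
    · refine ⟨1, le_rfl, ?_⟩
      intro i hi
      obtain ⟨k1, k2⟩ := (hsign (i + 1) hi).2 h1
      exact ⟨fun h => k2 (by omega), fun h => k1 (by omega)⟩
    · refine ⟨0, by norm_num, ?_⟩
      intro i hi
      exact (hsign i (by omega)).1 h1
  apply h θ β
  refine ⟨fun i => Q.getD (i + s) 0, ?_, ?_, ?_⟩
  · intro i j hij hj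
    have hj' : j + s < Q.length := by omega
    have hi' : i + s < Q.length := by omega
    show Q.getD (i + s) 0 < Q.getD (j + s) 0
    rw [List.getD_eq_getElem _ _ hi', List.getD_eq_getElem _ _ hj']
    exact hlt _ _ hi' hj' (by omega)
  · intro i hi
    have hi' : i + s < Q.length := by omega
    show Q.getD (i + s) 0 < N
    rw [List.getD_eq_getElem _ _ hi']
    exact hN _ (hQ.subset (List.getElem_mem hi'))
  · intro i hi
    have hi' : i + s < Q.length := by omega
    obtain ⟨k1, k2⟩ := hs2 i hi'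
    show (i % 2 = 0 → 0 < f (Q.getD (i + s) 0)) ∧ (i % 2 = 1 → f (Q.getD (i + s) 0) < 0)
    rw [List.getD_eq_getElem _ _ hi']
    exact ⟨k1, k2⟩

end Pool.Agent.H595K.Lb
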