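import Mathlib
import Pool.Agent.H595K.Build

/-!
# Thinning out with a bounded number of choices per level
-/

namespace Pool.Agent.H595K

open Finset

section
variable {s G : ℕ}

open scoped Classical in
/-- the bad levels -/
noncomputable def BadL (x y : ℕ → ℝ) (w a : Fin s → Fin G) : Finset (Fin s) :=
  univ.filter (fun e => a e = w e ∨ ∃ e', e ≠ e' ∧ a e ≠ w e ∧ a e' ≠ w e' ∧
    ¬ Sepd x y s G (idx w) ((e : ℕ), (a e : ℕ)) ((e' : ℕ), (a e' : ℕ)))

variable {x y : ℕ → ℝ} {N m : ℕ}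

theorem bad_sum (hx : ∀ i j, i < j → j < N → x i < x j) (hA : NoAlt x y N m)
    (hgen : ∀ i j z, i < N → j < N → z < N → i ≠ j → j ≠ z → i ≠ z → slp x y i j ≠ slp x y i z)
    (hGN : G ^ s ≤ N) (hs : 2 ≤ s) (w : Fin s → Fin G) :
    ∑ a : Fin s → Fin G, (BadL x y w a).card ≤ 2 * (s * m) * G ^ (s - 1) := by
  classical
  have hwl := idx_lt w
  obtain ⟨mn, hmn⟩ := exists_mn x y s G (idx w)
  have hG0 : 0 < G := by
    by_contra hc
    have h0 : G = 0 := by omega
    subst h0
    exact absurd (w ⟨0, by omega⟩).2 (by omega)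
  -- clusters containing a given direction
  let X : Fin s × Fin G → Finset (Fin s × Fin G) := fun Y =>
    univ.filter (fun q => q.2 ≠ w q.1 ∧ Inside x y s G (idx w) ((q.1 : ℕ), (q.2 : ℕ))
      (mn ((Y.1 : ℕ), (Y.2 : ℕ))))
  have hXcard : ∀ Y, (X Y).card < m := by
    intro Y
    have h1 := count_le hx hA (G := G) (w := idx w) (by omega)
      (slp x y (idx w) (mn ((Y.1 : ℕ), (Y.2 : ℕ))))
      ((X Y).image (fun q => ((q.1 : ℕ), (q.2 : ℕ)))) (by
        intro q hq
        obtain ⟨q', hq', rfl⟩ := mem_image.1 hq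
        have := (mem_filter.1 hq').2.1
        intro h2
        apply this
        apply Fin.ext
        rw [← idx_digit w q'.1]
        exact h2) (by
        intro q hq
        obtain ⟨q', hq', rfl⟩ := mem_image.1 hq
        obtain ⟨i, hi, j, hj, k1, k2⟩ := (mem_filter.1 hq').2.2
        rw [mem_Cl] at hi hj
        exact ⟨i, j, hi.2, hj.2, by omega, by omega, k1, k2⟩)
    rw [card_image_of_injective] at h1
    · exact h1
    · intro q q' hqq
      have e1 : (q.1 : ℕ) = q'.1 := congrArg Prod.fst hqq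
      have e2 : (q.2 : ℕ) = q'.2 := congrArg Prod.snd hqq
      exact Prod.ext (Fin.ext e1) (Fin.ext e2)
  have hm : 1 ≤ m := by
    have := hXcard (⟨0, by omega⟩, ⟨0, hG0⟩)
    omega
  let U1 : Finset ((Fin s → Fin G) × Fin s) := univ.biUnion (fun e : Fin s =>
    (univ.filter (fun a : Fin s → Fin G => a e = w e)).image (fun a => (a, e)))
  let U2 : Finset ((Fin s → Fin G) × Fin s) := univ.biUnion (fun Y : Fin s × Fin G =>
    (X Y).biUnion (fun q => if q.1 = Y.1 then ∅ else
      ((univ.filter (fun a : Fin s → Fin G => a q.1 = q.2 ∧ a Y.1 = Y.2)).image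
        (fun a => (a, q.1))) ∪
      ((univ.filter (fun a : Fin s → Fin G => a q.1 = q.2 ∧ a Y.1 = Y.2)).image
        (fun a => (a, Y.1)))))
  have hsub : univ.filter (fun ae : (Fin s → Fin G) × Fin s => ae.2 ∈ BadL x y w ae.1) ⊆
      U1 ∪ U2 := by
    rintro ⟨a, e⟩ hae
    have h1 := (mem_filter.1 hae).2
    unfold BadL at h1
    rcases (mem_filter.1 h1).2 with he | ⟨e', hee, h1, h2, h3⟩
    · apply mem_union_left
      exact mem_biUnion.2 ⟨e, mem_univ _, mem_image.2 ⟨a, mem_filter.2 ⟨mem_univ _, he⟩, rfl⟩⟩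
    · apply mem_union_right
      have d1 : ((e : ℕ), (a e : ℕ)).2 ≠ idx w / G ^ ((e : ℕ), (a e : ℕ)).1 % G := by
        show (a e : ℕ) ≠ idx w / G ^ (e : ℕ) % G
        rw [idx_digit]
        exact fun h => h1 (Fin.ext h)
      have d2 : ((e' : ℕ), (a e' : ℕ)).2 ≠ idx w / G ^ ((e' : ℕ), (a e' : ℕ)).1 % G := by
        show (a e' : ℕ) ≠ idx w / G ^ (e' : ℕ) % G
        rw [idx_digit]
        exact fun h => h2 (Fin.ext h)
      have hne : ((e : ℕ), (a e : ℕ)) ≠ ((e' : ℕ), (a e' : ℕ)) := by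
        intro h
        exact hee (Fin.ext (congrArg Prod.fst h))
      rcases inside_of_not_sep hgen hGN hwl d1 d2 hne hmn h3 with h4 | h4
      · refine mem_biUnion.2 ⟨(e', a e'), mem_univ _, mem_biUnion.2 ⟨(e, a e), ?_, ?_⟩⟩
        · exact mem_filter.2 ⟨mem_univ _, h1, h4⟩
        · simp [hee]
      · refine mem_biUnion.2 ⟨(e, a e), mem_univ _, mem_biUnion.2 ⟨(e', a e'), ?_, ?_⟩⟩
        · exact mem_filter.2 ⟨mem_univ _, h2, h4⟩
        · simp [Ne.symm hee]
  have h0 : ∑ a : Fin s → Fin G, (BadL x y w a).card =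
      (univ.filter (fun ae : (Fin s → Fin G) × Fin s => ae.2 ∈ BadL x y w ae.1)).card := by
    rw [Finset.card_filter, ← Finset.univ_product_univ, Finset.sum_product]
    apply Finset.sum_congr rfl
    intro a _
    rw [← Finset.card_filter]
    congr 1
    ext e
    simp
  have h1 : U1.card ≤ s * G ^ (s - 1) := by
    refine card_biUnion_le.trans ?_
    calc _ ≤ ∑ e : Fin s, (univ.filter (fun a : Fin s → Fin G => a e = w e)).card :=
          Finset.sum_le_sum (fun e _ => card_image_le)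
      _ = ∑ _e : Fin s, G ^ (s - 1) := Finset.sum_congr rfl (fun e _ => card_one e (w e))
      _ = s * G ^ (s - 1) := by simp
  have h2 : U2.card ≤ (s * G) * ((m - 1) * (2 * G ^ (s - 2))) := by
    refine card_biUnion_le.trans ?_
    calc _ ≤ ∑ _Y : Fin s × Fin G, (m - 1) * (2 * G ^ (s - 2)) := by
          apply Finset.sum_le_sum
          intro Y _
          refine card_biUnion_le.trans ?_
          calc _ ≤ ∑ _q ∈ X Y, 2 * G ^ (s - 2) := by
                apply Finset.sum_le_sum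
                intro q _
                split_ifs with h
                · simp
                · refine (card_union_le _ _).trans ?_
                  have k1 : ((univ.filter (fun a : Fin s → Fin G => a q.1 = q.2 ∧ a Y.1 = Y.2)).image
                      (fun a => (a, q.1))).card ≤ G ^ (s - 2) := by
                    refine card_image_le.trans (le_of_eq ?_)
                    exact card_two h _ _
                  have k2 : ((univ.filter (fun a : Fin s → Fin G => a q.1 = q.2 ∧ a Y.1 = Y.2)).image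
                      (fun a => (a, Y.1))).card ≤ G ^ (s - 2) := by
                    refine card_image_le.trans (le_of_eq ?_)
                    exact card_two h _ _
                  omega
            _ = (X Y).card * (2 * G ^ (s - 2)) := by simp
            _ ≤ (m - 1) * (2 * G ^ (s - 2)) := by
                apply Nat.mul_le_mul_right
                have := hXcard Y
                omega
      _ = (s * G) * ((m - 1) * (2 * G ^ (s - 2))) := by simp
  rw [h0]
  have h3 := (card_le_card hsub).trans ((card_union_le _ _).trans (add_le_add h1 h2))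
  obtain ⟨s', rfl⟩ : ∃ s', s = s' + 2 := ⟨s - 2, by omega⟩
  obtain ⟨m', rfl⟩ : ∃ m', m = m' + 1 := ⟨m - 1, by omega⟩
  simp only [Nat.add_sub_cancel] at h3
  have e1 : s' + 2 - 1 = s' + 1 := by omega
  rw [e1] at h3 ⊢
  refine h3.trans ?_
  calc (s' + 2) * G ^ (s' + 1) + (s' + 2) * G * (m' * (2 * G ^ s'))
      = ((s' + 2) * (2 * m' + 1)) * G ^ (s' + 1) := by ring
    _ ≤ (2 * ((s' + 2) * (m' + 1))) * G ^ (s' + 1) := by
      apply Nat.mul_le_mul_right
      nlinarith

theorem exists_good2 (hx : ∀ i j, i < j → j < N → x i < x j) (hA : NoAlt x y N m)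
    (hgen : ∀ i j z, i < N → j < N → z < N → i ≠ j → j ≠ z → i ≠ z → slp x y i j ≠ slp x y i z)
    (hGN : G ^ s ≤ N) (hs : 2 ≤ s) {q : ℕ} (hG : G = 2 * m * q) (hG0 : 0 < G) :
    ∃ (α β : Fin s → Fin G),
      q * ∑ b : Fin s → Bool, (BadL x y (mix b α β) (mix b β α)).card ≤ 2 ^ s * s := by
  classical
  by_contra hcon
  push Not at hcon
  have hm0 : 0 < m := by
    by_contra hc
    have : m = 0 := by omega
    rw [this] at hG; simp at hG; omega
  have h2 : ∑ αβ : (Fin s → Fin G) × (Fin s → Fin G), 2 ^ s * s <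
      ∑ αβ : (Fin s → Fin G) × (Fin s → Fin G),
        q * ∑ b : Fin s → Bool, (BadL x y (mix b αβ.1 αβ.2) (mix b αβ.2 αβ.1)).card := by
    apply Finset.sum_lt_sum_of_nonempty
    · exact ⟨(fun _ => ⟨0, hG0⟩, fun _ => ⟨0, hG0⟩), mem_univ _⟩
    · intro αβ _
      exact hcon αβ.1 αβ.2
  have h3 : ∑ αβ : (Fin s → Fin G) × (Fin s → Fin G),
        q * ∑ b : Fin s → Bool, (BadL x y (mix b αβ.1 αβ.2) (mix b αβ.2 αβ.1)).card =
      q * ∑ b : Fin s → Bool, ∑ αβ : (Fin s → Fin G) × (Fin s → Fin G),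
        (BadL x y (mix b αβ.1 αβ.2) (mix b αβ.2 αβ.1)).card := by
    rw [← Finset.mul_sum, Finset.sum_comm]
  rw [h3] at h2
  have h4 : ∀ b : Fin s → Bool, ∑ αβ : (Fin s → Fin G) × (Fin s → Fin G),
        (BadL x y (mix b αβ.1 αβ.2) (mix b αβ.2 αβ.1)).card =
      ∑ wa : (Fin s → Fin G) × (Fin s → Fin G), (BadL x y wa.1 wa.2).card := by
    intro b
    refine Finset.sum_bij' (fun αβ _ => (mix b αβ.1 αβ.2, mix b αβ.2 αβ.1))
      (fun αβ _ => (mix b αβ.1 αβ.2, mix b αβ.2 αβ.1)) ?_ ?_ ?_ ?_ ?_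
    · intro αβ h; exact mem_univ _
    · intro αβ h; exact mem_univ _
    · intro αβ h
      simp only [mix_mix]
    · intro αβ h
      simp only [mix_mix]
    · intro αβ h
      rfl
  rw [Finset.sum_congr rfl (fun b _ => h4 b)] at h2
  have h6 : ∑ wa : (Fin s → Fin G) × (Fin s → Fin G), (BadL x y wa.1 wa.2).card ≤
      G ^ s * (2 * (s * m) * G ^ (s - 1)) := by
    rw [← Finset.univ_product_univ, Finset.sum_product]
    calc _ ≤ ∑ _w : Fin s → Fin G, 2 * (s * m) * G ^ (s - 1) :=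
          Finset.sum_le_sum (fun w _ => bad_sum hx hA hgen hGN hs w)
      _ = G ^ s * (2 * (s * m) * G ^ (s - 1)) := by simp
  simp only [Finset.sum_const, Finset.card_univ, Fintype.card_prod, Fintype.card_fun,
    Fintype.card_fin, Fintype.card_bool, smul_eq_mul] at h2
  have h7 : q * (2 ^ s * ∑ wa : (Fin s → Fin G) × (Fin s → Fin G), (BadL x y wa.1 wa.2).card) ≤
      q * (2 ^ s * (G ^ s * (2 * (s * m) * G ^ (s - 1)))) :=
    Nat.mul_le_mul_left _ (Nat.mul_le_mul_left _ h6)
  obtain ⟨s', rfl⟩ : ∃ s', s = s' + 1 := ⟨s - 1, by omega⟩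
  simp only [Nat.add_sub_cancel] at h7
  have h8 : q * (2 ^ (s' + 1) * (G ^ (s' + 1) * (2 * ((s' + 1) * m) * G ^ s'))) =
      G ^ (s' + 1) * G ^ (s' + 1) * (2 ^ (s' + 1) * (s' + 1)) := by
    calc q * (2 ^ (s' + 1) * (G ^ (s' + 1) * (2 * ((s' + 1) * m) * G ^ s')))
        = (2 * m * q) * (G ^ s' * G ^ (s' + 1)) * (2 ^ (s' + 1) * (s' + 1)) := by ring
      _ = G * (G ^ s' * G ^ (s' + 1)) * (2 ^ (s' + 1) * (s' + 1)) := by rw [← hG]
      _ = G ^ (s' + 1) * G ^ (s' + 1) * (2 ^ (s' + 1) * (s' + 1)) := by ring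
  rw [h8] at h7
  omega

/-- the number of words over three letters with few visible letters -/
theorem card_codes (s σ : ℕ) (K : Finset (Fin s → Option Bool))
    (hK : ∀ f ∈ K, (univ.filter (fun e => f e ≠ none)).card ≤ σ) :
    K.card * 8 ^ s ≤ 9 ^ s * 16 ^ σ := by
  classical
  let wt : Option Bool → ℕ := fun o => if o = none then 16 else 1
  have h1 : ∑ f : Fin s → Option Bool, ∏ e, wt (f e) = 18 ^ s := by
    have h := Finset.prod_univ_sum (fun _ : Fin s => (univ : Finset (Option Bool)))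
      (fun _ o => wt o)
    rw [Fintype.piFinset_univ] at h
    rw [← h]
    have h2 : ∑ o : Option Bool, wt o = 18 := by
      rw [Fintype.sum_option]
      simp [wt]
    rw [h2]
    simp
  have h2 : ∀ f ∈ K, 16 ^ s ≤ (∏ e, wt (f e)) * 16 ^ σ := by
    intro f hf
    have h3 : ∏ e, wt (f e) = 16 ^ (univ.filter (fun e => f e = none)).card := by
      rw [← Finset.prod_filter_mul_prod_filter_not univ (fun e => f e = none)]
      have h4 : ∏ e ∈ univ.filter (fun e => f e = none), wt (f e) =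
          ∏ e ∈ univ.filter (fun e => f e = none), 16 := by
        apply Finset.prod_congr rfl
        intro e he
        simp only [wt]
        rw [if_pos (mem_filter.1 he).2]
      have h5 : ∏ e ∈ univ.filter (fun e => ¬ f e = none), wt (f e) =
          ∏ e ∈ univ.filter (fun e => ¬ f e = none), 1 := by
        apply Finset.prod_congr rfl
        intro e he
        simp only [wt]
        rw [if_neg (mem_filter.1 he).2]
      rw [h4, h5]
      simp
    have h4 : (univ.filter (fun e => f e = none)).card + (univ.filter (fun e => f e ≠ none)).card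
        = s := by
      rw [Finset.card_filter_add_card_filter_not]
      simp
    have h5 := hK f hf
    rw [h3, ← pow_add]
    exact Nat.pow_le_pow_right (by norm_num) (by omega)
  have h3 : K.card * 16 ^ s ≤ 18 ^ s * 16 ^ σ := by
    calc K.card * 16 ^ s = ∑ _f ∈ K, 16 ^ s := by simp
      _ ≤ ∑ f ∈ K, (∏ e, wt (f e)) * 16 ^ σ := Finset.sum_le_sum h2
      _ ≤ ∑ f : Fin s → Option Bool, (∏ e, wt (f e)) * 16 ^ σ :=
        Finset.sum_le_sum_of_subset (Finset.subset_univ _)
      _ = 18 ^ s * 16 ^ σ := by rw [← Finset.sum_mul, h1]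
  have e1 : (16 : ℕ) ^ s = 2 ^ s * 8 ^ s := by rw [← mul_pow]; norm_num
  have e2 : (18 : ℕ) ^ s = 2 ^ s * 9 ^ s := by rw [← mul_pow]; norm_num
  rw [e1, e2] at h3
  have h4 : 2 ^ s * (K.card * 8 ^ s) ≤ 2 ^ s * (9 ^ s * 16 ^ σ) := by
    calc 2 ^ s * (K.card * 8 ^ s) = K.card * (2 ^ s * 8 ^ s) := by ring
      _ ≤ 2 ^ s * 9 ^ s * 16 ^ σ := h3
      _ = 2 ^ s * (9 ^ s * 16 ^ σ) := by ring
  exact Nat.le_of_mul_le_mul_left h4 (by positivity)

theorem exists_thin2 {σ : ℕ} (hx : ∀ i j, i < j → j < N → x i < x j) (hA : NoAlt x y N m)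
    (hgen : ∀ i j z, i < N → j < N → z < N → i ≠ j → j ≠ z → i ≠ z → slp x y i j ≠ slp x y i z)
    (hGN : G ^ (40 * σ) ≤ N) (hσ : 1 ≤ σ) (hG : G = 2 * m * 80) (hG0 : 0 < G) :
    ∃ (T : Finset ℕ) (α β : ℕ → ℕ), 16 ^ (40 * σ) ≤ 2 * T.card * (9 ^ (40 * σ) * 16 ^ σ) ∧
      (∀ i ∈ T, i < G ^ (40 * σ)) ∧
      (∀ i ∈ T, ∀ e, e < 40 * σ → i / G ^ e % G = α e ∨ i / G ^ e % G = β e) ∧
      GoodT x y G T (40 * σ) := by
  classical
  set s := 40 * σ with hs
  obtain ⟨α, β, hαβ⟩ := exists_good2 hx hA hgen hGN (by omega) hG hG0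
  set B : (Fin s → Bool) → Finset (Fin s) := fun b => BadL x y (mix b α β) (mix b β α) with hB
  have hαβ' : 80 * ∑ b : Fin s → Bool, (B b).card ≤ 2 ^ s * s := hαβ
  -- few words have many bad levels
  set Z : Finset (Fin s → Bool) := univ.filter (fun b => (B b).card ≤ σ) with hZ
  have hZcard : 2 ^ s ≤ 2 * Z.card := by
    have h1 : (univ.filter (fun b : Fin s → Bool => ¬ (B b).card ≤ σ)).card * (σ + 1) ≤
        ∑ b : Fin s → Bool, (B b).card := by
      calc _ = ∑ _b ∈ univ.filter (fun b : Fin s → Bool => ¬ (B b).card ≤ σ), (σ + 1) := by simp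
        _ ≤ ∑ b ∈ univ.filter (fun b : Fin s → Bool => ¬ (B b).card ≤ σ), (B b).card := by
          apply Finset.sum_le_sum
          intro b hb
          have := (mem_filter.1 hb).2
          omega
        _ ≤ _ := Finset.sum_le_sum_of_subset (Finset.subset_univ _)
    have h2 : Z.card + (univ.filter (fun b : Fin s → Bool => ¬ (B b).card ≤ σ)).card = 2 ^ s := by
      rw [hZ, Finset.card_filter_add_card_filter_not]
      simp
    by_contra hcon
    have h4 : 2 ^ s < 2 * (univ.filter (fun b : Fin s → Bool => ¬ (B b).card ≤ σ)).card := by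
      omega
    have h5 : 2 ^ s * (σ + 1) < 2 * ((univ.filter (fun b : Fin s → Bool =>
        ¬ (B b).card ≤ σ)).card * (σ + 1)) := by
      calc 2 ^ s * (σ + 1) < 2 * (univ.filter (fun b : Fin s → Bool =>
          ¬ (B b).card ≤ σ)).card * (σ + 1) := Nat.mul_lt_mul_of_pos_right h4 (by omega)
        _ = _ := by ring
    have h6 : 80 * ∑ b : Fin s → Bool, (B b).card ≤ 40 * (2 ^ s * σ) := by
      calc _ ≤ 2 ^ s * s := hαβ'
        _ = 40 * (2 ^ s * σ) := by rw [hs]; ring
    have h7 : 2 ^ s * (σ + 1) = 2 ^ s * σ + 2 ^ s := by ring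
    have h8 : 0 < 2 ^ s := by positivity
    omega
  -- the codes
  set code : (Fin s → Bool) → Fin s → Option Bool := fun b e => if e ∈ B b then some (b e) else none
    with hcode
  set K := Z.image code with hK
  have hKcard : K.card * 8 ^ s ≤ 9 ^ s * 16 ^ σ := by
    apply card_codes
    intro f hf
    obtain ⟨b, hb, rfl⟩ := mem_image.1 hf
    have h1 : univ.filter (fun e => code b e ≠ none) = B b := by
      ext e
      simp only [mem_filter, mem_univ, true_and, hcode]
      by_cases he : e ∈ B b <;> simp [he]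
    rw [h1]
    exact (mem_filter.1 hb).2
  have hZne : Z.Nonempty := by
    rw [← Finset.card_pos]
    have : 0 < 2 ^ s := by positivity
    omega
  have hKne : K.Nonempty := hZne.image _
  obtain ⟨f0, hf0, hfib⟩ : ∃ f0 ∈ K, Z.card ≤ (Z.filter (fun b => code b = f0)).card * K.card := by
    by_contra hcon
    push Not at hcon
    have h1 := Finset.card_eq_sum_card_fiberwise (s := Z) (t := K) (f := code)
      (fun b hb => mem_image_of_mem _ hb)
    have h2 : K.card * Z.card = ∑ f ∈ K, (Z.filter (fun b => code b = f)).card * K.card := by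
      rw [← Finset.sum_mul, ← h1]; ring
    have h3 : ∑ f ∈ K, (Z.filter (fun b => code b = f)).card * K.card < ∑ _f ∈ K, Z.card :=
      Finset.sum_lt_sum_of_nonempty hKne hcon
    rw [Finset.sum_const, smul_eq_mul] at h3
    omega
  set Z0 := Z.filter (fun b => code b = f0) with hZ0
  have hZ0ne : Z0.Nonempty := by
    obtain ⟨b, hb, hbf⟩ := mem_image.1 hf0
    exact ⟨b, mem_filter.2 ⟨hb, hbf⟩⟩
  -- the common bad set
  have hcodeeq : ∀ b ∈ Z0, ∀ b' ∈ Z0, ∀ e, (e ∈ B b ↔ e ∈ B b') ∧ (e ∈ B b → b e = b' e) := by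
    intro b hb b' hb' e
    have h1 : code b e = code b' e := by
      rw [(mem_filter.1 hb).2, (mem_filter.1 hb').2]
    simp only [hcode] at h1
    by_cases h2 : e ∈ B b <;> by_cases h3 : e ∈ B b'
    · rw [if_pos h2, if_pos h3] at h1
      exact ⟨⟨fun _ => h3, fun _ => h2⟩, fun _ => Option.some_injective _ h1⟩
    · rw [if_pos h2, if_neg h3] at h1; exact absurd h1 (by simp)
    · rw [if_neg h2, if_pos h3] at h1; exact absurd h1 (by simp)
    · exact ⟨⟨fun h => absurd h h2, fun h => absurd h h3⟩, fun h => absurd h h2⟩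
  have hne : ∀ b ∈ Z0, ∀ e, e ∉ B b → α e ≠ β e := by
    intro b _ e he hab
    apply he
    simp only [hB, BadL]
    apply mem_filter.2
    refine ⟨mem_univ _, Or.inl ?_⟩
    unfold mix
    by_cases h : b e = true <;> simp [h, hab]
  have hinj : Set.InjOn (fun b => idx (mix b α β)) Z0 := by
    intro b hb b' hb' hbb
    have h1 := idx_inj hbb
    funext e
    by_cases he : e ∈ B b
    · exact ((hcodeeq b hb b' hb' e).2) he
    · have h2 := congrFun h1 e
      have h3 := hne b hb e he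
      unfold mix at h2
      cases hbe : b e <;> cases hbe' : b' e <;> simp [hbe, hbe'] at h2 ⊢
      · exact h3 h2
      · exact h3 h2.symm
  have hdig : ∀ (b : Fin s → Bool) (e : ℕ) (he : e < s),
      idx (mix b α β) / G ^ e % G = if b ⟨e, he⟩ = true then (β ⟨e, he⟩ : ℕ) else α ⟨e, he⟩ := by
    intro b e he
    have := idx_digit (mix b α β) ⟨e, he⟩
    rw [this]
    unfold mix
    split_ifs <;> rfl
  have hdig' : ∀ (b : Fin s → Bool) (e : ℕ) (he : e < s),
      ((mix b β α ⟨e, he⟩ : Fin G) : ℕ) = if b ⟨e, he⟩ = true then (α ⟨e, he⟩ : ℕ) else β ⟨e, he⟩ := by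
    intro b e he
    unfold mix
    split_ifs <;> rfl
  -- no first difference at a bad level
  have hnd : ∀ b ∈ Z0, ∀ b' ∈ Z0, ∀ (e : ℕ) (he : e < s),
      Dif G (idx (mix b α β)) (idx (mix b' α β)) e → (⟨e, he⟩ : Fin s) ∉ B b := by
    intro b hb b' hb' e he hd hbad
    obtain ⟨d1, d2⟩ := hd
    have e1 := self_div G e (idx (mix b α β))
    have e2 := self_div G e (idx (mix b' α β))
    rw [d1] at e2
    rw [hdig b' e he] at e2
    rw [hdig b e he] at e1
    rw [(hcodeeq b hb b' hb' ⟨e, he⟩).2 hbad] at e1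
    omega
  -- an element of `T` which differs first at `e` is in the cluster
  have hcl : ∀ b ∈ Z0, ∀ b' ∈ Z0, ∀ (e : ℕ) (he : e < s),
      Dif G (idx (mix b α β)) (idx (mix b' α β)) e →
      idx (mix b' α β) ∈ Cl s G (idx (mix b α β)) (e, ((mix b β α ⟨e, he⟩ : Fin G) : ℕ)) := by
    intro b _ b' _ e he hd
    rw [mem_Cl]
    refine ⟨idx_lt _, hd.1, ?_⟩
    obtain ⟨d1, d2⟩ := hd
    have e1 := self_div G e (idx (mix b α β))
    have e2 := self_div G e (idx (mix b' α β))
    rw [d1] at e2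
    have e3 : idx (mix b' α β) / G ^ e % G ≠ idx (mix b α β) / G ^ e % G := by omega
    show idx (mix b' α β) / G ^ e % G = ((mix b β α ⟨e, he⟩ : Fin G) : ℕ)
    rw [hdig' b e he, hdig b' e he]
    rw [hdig b e he, hdig b' e he] at e3
    cases hb : b ⟨e, he⟩ <;> cases hb' : b' ⟨e, he⟩ <;> simp [hb, hb'] at e3 ⊢
  refine ⟨Z0.image (fun b => idx (mix b α β)), fun e => if h : e < s then (α ⟨e, h⟩ : ℕ) else 0,
    fun e => if h : e < s then (β ⟨e, h⟩ : ℕ) else 0, ?_, ?_, ?_, ?_⟩
  · rw [card_image_of_injOn hinj]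
    have h1 : 2 ^ s * 8 ^ s ≤ 2 * (Z0.card * (K.card * 8 ^ s)) := by
      calc 2 ^ s * 8 ^ s ≤ 2 * Z.card * 8 ^ s := Nat.mul_le_mul_right _ hZcard
        _ ≤ 2 * (Z0.card * K.card) * 8 ^ s :=
          Nat.mul_le_mul_right _ (Nat.mul_le_mul_left _ hfib)
        _ = 2 * (Z0.card * (K.card * 8 ^ s)) := by ring
    calc 16 ^ s = 2 ^ s * 8 ^ s := by rw [← mul_pow]; norm_num
      _ ≤ 2 * (Z0.card * (K.card * 8 ^ s)) := h1
      _ ≤ 2 * (Z0.card * (9 ^ s * 16 ^ σ)) :=
        Nat.mul_le_mul_left _ (Nat.mul_le_mul_left _ hKcard)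
      _ = 2 * Z0.card * (9 ^ s * 16 ^ σ) := by ring
  · intro i hi
    obtain ⟨b, _, rfl⟩ := mem_image.1 hi
    exact idx_lt _
  · intro i hi e he
    obtain ⟨b, _, rfl⟩ := mem_image.1 hi
    simp only [dif_pos he]
    show idx (mix b α β) / G ^ e % G = _ ∨ idx (mix b α β) / G ^ e % G = _
    rw [hdig b e he]
    by_cases hb : b ⟨e, he⟩ = true
    · right; simp [hb]
    · left; simp [hb]
  · intro w hw e e' he he' hee
    obtain ⟨b, hb, rfl⟩ := mem_image.1 hw
    by_cases hbe : (⟨e, he⟩ : Fin s) ∈ B b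
    · left
      intro i hi j _ hdi _
      obtain ⟨b1, hb1, rfl⟩ := mem_image.1 hi
      exact absurd hbe (hnd b hb b1 hb1 e he hdi)
    by_cases hbe' : (⟨e', he'⟩ : Fin s) ∈ B b
    · left
      intro i _ j hj _ hdj
      obtain ⟨b1, hb1, rfl⟩ := mem_image.1 hj
      exact absurd hbe' (hnd b hb b1 hb1 e' he' hdj)
    have h2 : ∀ e, e ∉ B b → mix b β α e ≠ mix b α β e := by
      intro e he hc
      apply he
      simp only [hB, BadL]
      exact mem_filter.2 ⟨mem_univ _, Or.inl hc⟩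
    have h4 : Sepd x y s G (idx (mix b α β)) (e, ((mix b β α ⟨e, he⟩ : Fin G) : ℕ))
        (e', ((mix b β α ⟨e', he'⟩ : Fin G) : ℕ)) := by
      by_contra hcon
      apply hbe
      simp only [hB, BadL]
      exact mem_filter.2 ⟨mem_univ _, Or.inr ⟨⟨e', he'⟩, fun h => hee (congrArg Fin.val h),
        h2 _ hbe, h2 _ hbe', hcon⟩⟩
    rcases h4 with h4 | h4
    · left
      intro i hi j hj hdi hdj
      obtain ⟨b1, hb1, rfl⟩ := mem_image.1 hi
      obtain ⟨b2, hb2, rfl⟩ := mem_image.1 hj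
      exact h4 _ (hcl b hb b1 hb1 e he hdi) _ (hcl b hb b2 hb2 e' he' hdj)
    · right
      intro i hi j hj hdi hdj
      obtain ⟨b1, hb1, rfl⟩ := mem_image.1 hi
      obtain ⟨b2, hb2, rfl⟩ := mem_image.1 hj
      exact h4 _ (hcl b hb b1 hb1 e he hdi) _ (hcl b hb b2 hb2 e' he' hdj)

open Tr in
theorem exists_tree2 {σ : ℕ} (hx : ∀ i j, i < j → j < N → x i < x j)
    (hA : NoAlt x y N m)
    (hgen : ∀ i j z, i < N → j < N → z < N → i ≠ j → j ≠ z → i ≠ z → slp x y i j ≠ slp x y i z)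
    (hGN : G ^ (40 * σ) ≤ N) (hσ : 1 ≤ σ) (hG : G = 2 * m * 80) (hG0 : 0 < G) :
    ∃ t : Tr, 16 ^ (40 * σ) ≤ 2 * t.lv.length * (9 ^ (40 * σ) * 16 ^ σ) ∧ (∀ i ∈ t.lv, i < N) ∧
      t.lv.Pairwise (fun i j => i < j) ∧
      t.lv.Pairwise (fun i j => x i < x j) ∧ t.ht ≤ 40 * σ ∧ Homog (slp x y) t := by
  classical
  obtain ⟨T, α, β, h1, h2, h3, h4⟩ := exists_thin2 hx hA hgen hGN hσ hG hG0
  have hT : T.Nonempty := by
    rw [← Finset.card_pos]
    by_contra hc
    have h0 : T.card = 0 := by omega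
    rw [h0] at h1
    have : 0 < 16 ^ (40 * σ) := by positivity
    omega
  obtain ⟨t, t1, t2, t3, t4⟩ := exists_lev h3 (40 * σ) le_rfl T (Finset.Subset.refl _) hT 0
    (fun i hi => Nat.div_eq_of_lt (h2 i hi))
  have hN : ∀ i ∈ t.lv, i < N := fun i hi => lt_of_lt_of_le (h2 i ((t1 i).1 hi)) hGN
  have hxx : t.lv.Pairwise (fun i j => x i < x j) := by
    have t2' := t2
    rw [List.pairwise_iff_forall_sublist] at t2' ⊢
    intro i j hij
    exact hx i j (t2' hij) (hN j (hij.subset (by simp)))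
  refine ⟨t, ?_, hN, t2, hxx, t3, homog_tree h4 t4 le_rfl (fun i hi => (t1 i).1 hi) hxx⟩
  have hnd : t.lv.Nodup := t2.imp (fun h => ne_of_lt h)
  have : t.lv.toFinset = T := by
    ext i
    rw [List.mem_toFinset]
    exact t1 i
  rw [← List.toFinset_card_of_nodup hnd, this]
  exact h1

end

end Pool.Agent.H595K
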