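import Mathlib
import Pool.Agent.H595K.Core
import Pool.Agent.H595K.LtCore
import Pool.Agent.H595K.Thin4

/-!
# Large `3`-convex subsets of `k`-convex sets, second version
-/

namespace Pool.Agent.H595K

open Finset Vis124

/-- the point reflection -/
noncomputable def refl0 : (ℝ × ℝ) ≃L[ℝ] (ℝ × ℝ) := ContinuousLinearEquiv.neg ℝ

theorem refl0_apply (p : ℝ × ℝ) : refl0 p = (- p.1, - p.2) := rfl

theorem kconvex_of_nice3 {P : Finset (ℝ × ℝ)} (hgp : GenPos P) (ε : ℝ) (p : ℕ → ℝ × ℝ)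
    {L : List ℕ} (hL : ∀ i ∈ L, p i ∈ P) (h3 : 3 ≤ L.length)
    (hnice : Nice (fun n => - ((p n).1 + ε * (p n).2)) (fun n => - (p n).2) L) :
    ∃ Q ⊆ P, KConvexSet 3 Q ∧ Q.card = L.length := by
  classical
  set x : ℕ → ℝ := fun i => (p i).1 + ε * (p i).2 with hx
  set y : ℕ → ℝ := fun i => (p i).2 with hy
  have hL4 : L.Pairwise (fun i j => - x i < - x j) := hnice.1
  have hnd : L.Nodup := hL4.imp (fun h => by rintro rfl; exact lt_irrefl _ h)
  set Q : Finset (ℝ × ℝ) := L.toFinset.image p with hQ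
  have hQP : Q ⊆ P := by
    intro a ha
    obtain ⟨i, hi, rfl⟩ := mem_image.1 ha
    exact hL i (by simpa using hi)
  have hinj : ∀ i ∈ L, ∀ j ∈ L, x i = x j → i = j := by
    intro i hi j hj hij
    by_contra hne
    obtain ⟨a, ha, rfl⟩ := List.getElem_of_mem hi
    obtain ⟨b, hb, rfl⟩ := List.getElem_of_mem hj
    rcases lt_trichotomy a b with h1 | h1 | h1
    · have := List.pairwise_iff_getElem.1 hL4 a b ha hb h1; linarith
    · subst h1; exact hne rfl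
    · have := List.pairwise_iff_getElem.1 hL4 b a hb ha h1; linarith
  have hQc : Q.card = L.length := by
    rw [hQ, card_image_of_injOn, List.toFinset_card_of_nodup hnd]
    intro i hi j hj hij
    apply hinj i (by simpa using hi) j (by simpa using hj)
    have : p i = p j := hij
    simp only [hx]
    rw [this]
  refine ⟨Q, hQP, ?_, hQc⟩
  obtain ⟨n', v', S', p1, p2, p3⟩ := poly_of_nice hnice h3
  obtain ⟨p4, p5⟩ := kconvex_map refl0 p1 p3
  obtain ⟨p6, p7⟩ := kconvex_map (shearX ε) p4 p5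
  refine kConvex_of (hgp.subset hQP) p6 ?_ p7
  ext a
  simp only [Set.mem_range]
  rw [hQ, Finset.coe_image]
  constructor
  · rintro ⟨i, rfl⟩
    have h1 : v' i ∈ {p | ∃ i ∈ L, p = (- x i, - y i)} := by rw [← p2]; exact Set.mem_range_self i
    obtain ⟨j, hj, hj2⟩ := h1
    refine ⟨j, by simpa using hj, ?_⟩
    rw [hj2, refl0_apply, shearX_apply]
    ext
    · simp only [hx, hy]; ring
    · simp only [hy]; ring
  · rintro ⟨j, hj, rfl⟩
    have h1 : (- x j, - y j) ∈ Set.range v' := by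
      rw [p2]
      exact ⟨j, by simpa using hj, rfl⟩
    obtain ⟨i, hi⟩ := h1
    refine ⟨i, ?_⟩
    rw [hi, refl0_apply, shearX_apply]
    ext
    · simp only [hx, hy]; ring
    · simp only [hy]; ring

/-- extraction of a monotone sequence -/
theorem extract {k M : ℕ} {P : Finset (ℝ × ℝ)} (hP : KConvexSet k P) (hn : M * M < P.card) :
    ∃ (N : ℕ) (ε : ℝ) (p : ℕ → ℝ × ℝ), M ≤ N ∧ (∀ i, p i ∈ P) ∧
      (∀ i j, i < j → j < N → (p i).1 + ε * (p i).2 < (p j).1 + ε * (p j).2) ∧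
      NoAlt (fun i => (p i).1 + ε * (p i).2) (fun i => (p i).2) N (2 * k + 2) ∧
      ∀ i j z, i < N → j < N → z < N → i ≠ j → j ≠ z → i ≠ z →
        slp (fun i => (p i).1 + ε * (p i).2) (fun i => (p i).2) i j ≠
        slp (fun i => (p i).1 + ε * (p i).2) (fun i => (p i).2) i z := by
  classical
  obtain ⟨hgp, v, S, hv, hr, hk⟩ := hP
  obtain ⟨ε, hε⟩ := exists_shear P
  have hvP : ∀ i, v i ∈ P := fun i => by
    rw [← Finset.mem_coe, ← hr]; exact Set.mem_range_self i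
  have hinj : Function.Injective (fun i => (v i).1 + ε * (v i).2) := by
    intro i j hij
    exact hv.injective (hε _ (hvP i) _ (hvP j) hij)
  have hES := Pool.Agent.H184R3.ES.erdos_szekeres (r := M) (s := M)
    (f := fun i => (v i).1 + ε * (v i).2) (by rw [Fintype.card_fin]; exact hn) hinj
  obtain ⟨N, hN, q, hq, hxq⟩ : ∃ N, M ≤ N ∧ ∃ q : ℕ → Fin P.card,
      ((∀ i j, i < j → j < N → q i < q j) ∨ (∀ i j, i < j → j < N → q j < q i)) ∧
      ∀ i j, i < j → j < N →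
        (v (q i)).1 + ε * (v (q i)).2 < (v (q j)).1 + ε * (v (q j)).2 := by
    rcases hES with ⟨t, ht, hmono⟩ | ⟨t, ht, hanti⟩
    · refine ⟨t.card, ht.le, fun i => if h : i < t.card then t.orderEmbOfFin rfl ⟨i, h⟩ else
        someIdx t (by omega), ?_, ?_⟩
      · left
        intro i j hij hj
        simp only [dif_pos hj, dif_pos (show i < t.card by omega)]
        exact (t.orderEmbOfFin rfl).strictMono (Fin.mk_lt_mk.2 hij)
      · intro i j hij hj
        simp only [dif_pos hj, dif_pos (show i < t.card by omega)]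
        exact hmono (t.orderEmbOfFin_mem rfl _) (t.orderEmbOfFin_mem rfl _)
          ((t.orderEmbOfFin rfl).strictMono (Fin.mk_lt_mk.2 hij))
    · refine ⟨t.card, ht.le, fun i => if h : i < t.card then
        t.orderEmbOfFin rfl ⟨t.card - 1 - i, by omega⟩ else someIdx t (by omega), ?_, ?_⟩
      · right
        intro i j hij hj
        simp only [dif_pos hj, dif_pos (show i < t.card by omega)]
        exact (t.orderEmbOfFin rfl).strictMono (Fin.mk_lt_mk.2 (by omega))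
      · intro i j hij hj
        simp only [dif_pos hj, dif_pos (show i < t.card by omega)]
        exact hanti (t.orderEmbOfFin_mem rfl _) (t.orderEmbOfFin_mem rfl _)
          ((t.orderEmbOfFin rfl).strictMono (Fin.mk_lt_mk.2 (by omega)))
  refine ⟨N, ε, fun i => v (q i), hN, fun i => hvP _, hxq, noAlt_of hv hk ε q hq, ?_⟩
  set x : ℕ → ℝ := fun i => (v (q i)).1 + ε * (v (q i)).2 with hx
  set y : ℕ → ℝ := fun i => (v (q i)).2 with hy
  intro i j z hi hj hz hij hjz hiz h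
  have hxne : ∀ a b, a < N → b < N → a ≠ b → x b - x a ≠ 0 := by
    intro a b ha hb hab h0
    rcases lt_or_gt_of_ne hab with h1 | h1
    · have : x a < x b := hxq a b h1 hb
      linarith
    · have : x b < x a := hxq b a h1 ha
      linarith
  have hvne : ∀ a b, a < N → b < N → a ≠ b → v (q a) ≠ v (q b) := by
    intro a b ha hb hab h0
    apply hxne a b ha hb hab
    simp only [hx]
    rw [h0]; ring
  have e1 := hxne i j hi hj hij
  have e2 := hxne i z hi hz hiz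
  unfold slp at h
  rw [div_eq_div_iff e1 e2] at h
  apply hgp _ (hvP (q i)) _ (hvP (q j)) _ (hvP (q z)) (hvne i j hi hj hij)
    (hvne j z hj hz hjz) (hvne i z hi hz hiz)
  apply collinear_of_det (hvne i j hi hj hij)
  simp only [hx, hy] at h
  linear_combination -h

theorem pow_facts (σ : ℕ) (hσ : 1 ≤ σ) {n : ℕ} (h : 16 ^ (40 * σ) ≤ 2 * n * (9 ^ (40 * σ) * 16 ^ σ)) :
    9 ^ (40 * σ) * 8 ^ (7 * σ - 1) < n * 8 ^ (40 * σ) ∧ 2 ^ (29 * σ) ≤ 2 * n := by
  have h81 : (81 : ℕ) ^ (40 * σ) ≤ 2 ^ (254 * σ) := by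
    rw [pow_mul, pow_mul 2 254 σ]
    exact Nat.pow_le_pow_left (by norm_num) σ
  have h9 : (9 : ℕ) ^ (40 * σ) ≤ 2 ^ (127 * σ) := by
    rw [pow_mul, pow_mul 2 127 σ]
    exact Nat.pow_le_pow_left (by norm_num) σ
  have e16 : (16 : ℕ) ^ (40 * σ) = 2 ^ (160 * σ) := by
    rw [show (16 : ℕ) = 2 ^ 4 by norm_num, ← pow_mul]; congr 1; ring
  have e16' : (16 : ℕ) ^ σ = 2 ^ (4 * σ) := by
    rw [show (16 : ℕ) = 2 ^ 4 by norm_num, ← pow_mul]
  have e8 : (8 : ℕ) ^ (40 * σ) = 2 ^ (120 * σ) := by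
    rw [show (8 : ℕ) = 2 ^ 3 by norm_num, ← pow_mul]; congr 1; ring
  have e8' : (8 : ℕ) ^ (7 * σ - 1) = 2 ^ (21 * σ - 3) := by
    rw [show (8 : ℕ) = 2 ^ 3 by norm_num, ← pow_mul]; congr 1; omega
  have e81 : (9 : ℕ) ^ (40 * σ) * 9 ^ (40 * σ) = 81 ^ (40 * σ) := by
    rw [← mul_pow]; norm_num
  rw [e16, e16'] at h
  constructor
  · rw [e8, e8']
    by_contra hcon
    push Not at hcon
    -- multiply by `2 * 9 ^ s * 16 ^ σ`
    have h1 : 2 ^ (160 * σ) * 2 ^ (120 * σ) ≤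
        2 * (2 ^ (254 * σ) * 2 ^ (21 * σ - 3)) * 2 ^ (4 * σ) := by
      calc 2 ^ (160 * σ) * 2 ^ (120 * σ) ≤
          2 * n * (9 ^ (40 * σ) * 2 ^ (4 * σ)) * 2 ^ (120 * σ) := Nat.mul_le_mul_right _ h
        _ = 2 * (n * 2 ^ (120 * σ)) * 9 ^ (40 * σ) * 2 ^ (4 * σ) := by ring
        _ ≤ 2 * (9 ^ (40 * σ) * 2 ^ (21 * σ - 3)) * 9 ^ (40 * σ) * 2 ^ (4 * σ) := by
          apply Nat.mul_le_mul_right
          apply Nat.mul_le_mul_right
          exact Nat.mul_le_mul_left _ hcon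
        _ = 2 * ((9 ^ (40 * σ) * 9 ^ (40 * σ)) * 2 ^ (21 * σ - 3)) * 2 ^ (4 * σ) := by ring
        _ ≤ 2 * (2 ^ (254 * σ) * 2 ^ (21 * σ - 3)) * 2 ^ (4 * σ) := by
          rw [e81]
          apply Nat.mul_le_mul_right
          apply Nat.mul_le_mul_left
          exact Nat.mul_le_mul_right _ h81
    have h2 : 2 * (2 ^ (254 * σ) * 2 ^ (21 * σ - 3)) * 2 ^ (4 * σ) = 2 ^ (279 * σ - 2) := by
      rw [← pow_add, ← pow_succ', ← pow_add]
      congr 1
      omega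
    rw [← pow_add, h2] at h1
    have := (Nat.pow_le_pow_iff_right (by norm_num)).1 h1
    omega
  · have h1 : 2 ^ (29 * σ) * 2 ^ (131 * σ) ≤ 2 * n * 2 ^ (131 * σ) := by
      calc 2 ^ (29 * σ) * 2 ^ (131 * σ) = 2 ^ (160 * σ) := by rw [← pow_add]; congr 1; ring
        _ ≤ 2 * n * (9 ^ (40 * σ) * 2 ^ (4 * σ)) := h
        _ ≤ 2 * n * (2 ^ (127 * σ) * 2 ^ (4 * σ)) :=
          Nat.mul_le_mul_left _ (Nat.mul_le_mul_right _ h9)
        _ = 2 * n * 2 ^ (131 * σ) := by rw [← pow_add]; congr 2; ring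
    exact Nat.le_of_mul_le_mul_right h1 (by positivity)

open Tr in
theorem core_seq2 {x y : ℕ → ℝ} {N m σ G Y : ℕ} (hx : ∀ i j, i < j → j < N → x i < x j)
    (hA : NoAlt x y N (m + 1))
    (hgen : ∀ i j z, i < N → j < N → z < N → i ≠ j → j ≠ z → i ≠ z → slp x y i j ≠ slp x y i z)
    (hGN : G ^ (40 * σ) ≤ N) (hσ : 1 ≤ σ) (hG : G = 2 * (m + 1) * 80)
    (hY : 2 * (2 * ((m + 2) * Y) + 1) * (2 * ((m + 2) * Y) + 1) < 7 * σ ∨
      (4 * (Y * (Y * Y)) + 1 < 29 * σ ∧ 40 * σ + 1 ≤ 2 ^ Y)) :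
    ∃ Q : List ℕ, Q.length = 2 ^ Y + 1 ∧ (∀ i ∈ Q, i < N) ∧
      (Nice x y Q ∨ Nice x (fun n => - y n) Q ∨ Nice (fun n => - x n) (fun n => - y n) Q) := by
  obtain ⟨t, h1, h2, h3, h4, h5, h6⟩ := exists_tree2 hx hA hgen hGN hσ hG (by rw [hG]; positivity)
  obtain ⟨hf1, hf2⟩ := pow_facts σ hσ h1
  rcases hY with hY | ⟨hY, hsY⟩
  · obtain ⟨T, t1, t2, t3⟩ := Lb.exists_compat (slp_comm x y) h6
    obtain ⟨t', k1, k2⟩ := LT.exists_comp (t := T) (h := 40 * σ) (n := t.lv.length) (d := 7 * σ - 1)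
      (by rw [t2]; exact h5) (by rw [t1]) hf1
    have e : 7 * σ - 1 + 1 = 7 * σ := by omega
    rw [e] at k2
    have hcr : Lb.Cross x y t.lv (m + 2) := Lb.cross_of_noAlt hA h3 h2
    obtain ⟨Q, q1, q2, q3⟩ := Lb.lt_core (t := t') (m := m + 2) (Y := Y) (n := 7 * σ)
      (by rw [← t1] at h4; exact h4.sublist k1.sublist)
      (by rw [← t1] at hcr; exact hcr.sub k1.sublist) (t3.sub k1) k2 hY
    exact ⟨Q, q1, fun i hi => h2 i (by rw [← t1]; exact k1.mem (q2 i hi)), q3⟩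
  · have hneg : (fun i j => - slp x y i j) = slp x (fun n => - y n) := by
      funext i j; rw [slp_neg]
    have hneg' : slp x y = (fun i j => - slp x (fun n => - y n) i j) := by
      funext i j; rw [slp_neg, neg_neg]
    by_contra hcon
    push Not at hcon
    have hb := tree_bound (slp_comm x y) h6 h5 hsY (y := Y) (by
        by_contra hI
        obtain ⟨l, r, k1, k2⟩ := not_all hI
        obtain ⟨Q, q1, q2, q3⟩ := list_of_rk h4 k2 (not_not.1 k1)
        exact (hcon Q q1 (fun i hi => h2 i (q2 i hi))).1 q3) (by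
        by_contra hI
        obtain ⟨l, r, k1, k2⟩ := not_all hI
        rw [hneg] at k1
        obtain ⟨Q, q1, q2, q3⟩ := list_of_rk h4 k2 (not_not.1 k1)
        exact (hcon Q q1 (fun i hi => h2 i (q2 i hi))).2.1 q3) (by
        intro t' k1 k2
        by_contra hc
        have k3 : Ty (slp x (fun n => - y n)) (fun i j => - slp x (fun n => - y n) i j) t' := by
          rw [← hneg', ← hneg]; exact k2
        obtain ⟨Q, q1, q2, q3⟩ := list_of_cap (M := 2 ^ Y + 1) h4 k1 k3 (by omega)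
        exact (hcon Q q1 (fun i hi => h2 i (q2 i hi))).2.1 q3) (by
        intro t' k1 k2
        by_contra hc
        obtain ⟨Q, q1, q2, q3⟩ := list_of_cap (M := 2 ^ Y + 1) h4 k1 k2 (by omega)
        exact (hcon Q q1 (fun i hi => h2 i (q2 i hi))).1 q3)
    have hb2 : (2 ^ Y) ^ (4 * (Y * Y)) = 2 ^ (4 * (Y * (Y * Y))) := by
      rw [← pow_mul]; congr 1; ring
    rw [hb2] at hb
    have hb3 : 2 ^ (29 * σ) ≤ 2 ^ (4 * (Y * (Y * Y)) + 1) := by
      rw [pow_succ]; omega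
    have := (Nat.pow_le_pow_iff_right (by norm_num)).1 hb3
    omega

theorem core2 {k σ Y : ℕ} {P : Finset (ℝ × ℝ)} (hP : KConvexSet k P) (hσ : 1 ≤ σ) (hY1 : 1 ≤ Y)
    (hn : (320 * (k + 1)) ^ (40 * σ) * (320 * (k + 1)) ^ (40 * σ) < P.card)
    (hY : 2 * (2 * ((2 * k + 3) * Y) + 1) * (2 * ((2 * k + 3) * Y) + 1) < 7 * σ ∨
      (4 * (Y * (Y * Y)) + 1 < 29 * σ ∧ 40 * σ + 1 ≤ 2 ^ Y)) :
    ∃ Q ⊆ P, KConvexSet 3 Q ∧ Q.card = 2 ^ Y + 1 := by
  obtain ⟨N, ε, p, hN, hpP, hx, hA, hgen⟩ := extract hP hn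
  obtain ⟨L, hL1, hL2, hL3⟩ := core_seq2 (m := 2 * k + 1) hx hA hgen hN hσ (by ring) hY
  have h3 : 3 ≤ L.length := by
    rw [hL1]
    have : 2 ^ 1 ≤ 2 ^ Y := Nat.pow_le_pow_right (by norm_num) hY1
    omega
  have hgp := hP.1
  rcases hL3 with h | h | h
  · obtain ⟨Q, q1, q2, q3⟩ := kconvex_of_nice hgp ε p (fun i _ => hpP i) h3 (Or.inl h)
    exact ⟨Q, q1, q2, by rw [q3, hL1]⟩
  · obtain ⟨Q, q1, q2, q3⟩ := kconvex_of_nice hgp ε p (fun i _ => hpP i) h3 (Or.inr h)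
    exact ⟨Q, q1, q2, by rw [q3, hL1]⟩
  · obtain ⟨Q, q1, q2, q3⟩ := kconvex_of_nice3 hgp ε p (fun i _ => hpP i) h3 h
    exact ⟨Q, q1, q2, by rw [q3, hL1]⟩

end Pool.Agent.H595K
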