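import Mathlib
import Pool.Agent.H595K.Ann

/-!
# Words with few changes
-/

namespace Pool.Agent.H595K.Lb

theorem ch_reverse (l : List Bool) : ch l.reverse = ch l := by
  induction l with
  | nil => rfl
  | cons a l ih =>
    cases l with
    | nil => simp
    | cons b l =>
      rw [List.reverse_cons] at ih
      rw [List.reverse_cons, List.reverse_cons, List.append_assoc]
      have h1 := ch_split l.reverse b [a]
      have h2 : ([b] ++ [a] : List Bool) = b :: [a] := rfl
      rw [h2, h1, ih, ch_cons_cons, ch_cons_cons, ch_single]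
      cases a <;> cases b <;> simp
      all_goals omega

theorem exists_pair {B : List Bool} (h1 : true ∈ B) (h2 : false ∈ B) :
    ∃ b, [b, !b].Sublist B := by
  cases B with
  | nil => simp at h1
  | cons c B =>
    refine ⟨c, ?_⟩
    apply List.Sublist.cons_cons
    rw [List.singleton_sublist]
    cases c with
    | true => simpa using h2
    | false => simpa using h1

theorem ch_pos {B : List Bool} (h1 : true ∈ B) (h2 : false ∈ B) : 1 ≤ ch B := by
  obtain ⟨b, hb⟩ := exists_pair h1 h2
  have h := ch_sublist hb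
  rw [ch_cons_cons] at h
  cases b <;> simp at h <;> omega

theorem ch_le_one_pairwise {s : Bool} : ∀ {D : List Bool}, ch (s :: D) ≤ 1 →
    D.Pairwise (fun a b => b = s → a = s) := by
  intro D
  induction D with
  | nil => intro _; exact List.Pairwise.nil
  | cons d D ih =>
    intro h
    rw [ch_cons_cons] at h
    rw [List.pairwise_cons]
    by_cases hd : s = d
    · subst hd
      rw [if_pos rfl] at h
      exact ⟨fun _ _ _ => rfl, ih (by omega)⟩
    · rw [if_neg hd] at h
      have h0 : ch (d :: D) = 0 := by omega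
      have hall : ∀ b ∈ D, b = d := by
        intro b hb
        by_contra hne
        have h1 : [d, b].Sublist (d :: D) :=
          List.Sublist.cons_cons _ (List.singleton_sublist.2 hb)
        have h2 := ch_sublist h1
        rw [ch_cons_cons, if_neg (Ne.symm hne)] at h2
        omega
      refine ⟨fun b hb hbs => ?_, ?_⟩
      · exact absurd (hbs.symm.trans (hall b hb)) hd
      · rw [List.pairwise_iff_forall_sublist]
        intro a b hab hbs
        exact absurd (hbs.symm.trans (hall b (hab.subset (by simp)))) hd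

/-- the main computation -/
theorem word_cases {A Br Bl Cr Cl D : List Bool} (hA : true ∈ A ∧ false ∈ A)
    (hBr : true ∈ Br ∧ false ∈ Br) (hBl : true ∈ Bl ∧ false ∈ Bl)
    (hCr : true ∈ Cr ∧ false ∈ Cr) (hCl : true ∈ Cl ∧ false ∈ Cl) (hD : true ∈ D ∧ false ∈ D)
    (h : ∀ e1 e2, ch (A ++ (Br ++ [e1] ++ Bl) ++ (Cr ++ [e2] ++ Cl) ++ D) ≤ 8) :
    ∃ s, A.reverse.Pairwise (fun a b => b = s → a = s) ∧ D.Pairwise (fun a b => b = s → a = s) := by
  obtain ⟨b1, hb1⟩ := exists_pair hBr.1 hBr.2
  obtain ⟨b2, hb2⟩ := exists_pair hBl.1 hBl.2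
  obtain ⟨c1, hc1⟩ := exists_pair hCr.1 hCr.2
  obtain ⟨c2, hc2⟩ := exists_pair hCl.1 hCl.2
  have key : ∀ e1 e2, ch (A ++ [b1]) + ch [b1, !b1, e1, b2, !b2, c1, !c1, e2, c2, !c2] +
      ch ((!c2) :: D) ≤ 8 := by
    intro e1 e2
    refine le_trans ?_ (h e1 e2)
    have hs : (A ++ ([b1, !b1] ++ [e1] ++ [b2, !b2]) ++ ([c1, !c1] ++ [e2] ++ [c2, !c2]) ++ D).Sublist
        (A ++ (Br ++ [e1] ++ Bl) ++ (Cr ++ [e2] ++ Cl) ++ D) :=
      (((List.Sublist.refl _).append ((hb1.append (List.Sublist.refl _)).append hb2)).append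
        ((hc1.append (List.Sublist.refl _)).append hc2)).append (List.Sublist.refl _)
    refine le_trans (le_of_eq ?_) (ch_sublist hs)
    have e : A ++ ([b1, !b1] ++ [e1] ++ [b2, !b2]) ++ ([c1, !c1] ++ [e2] ++ [c2, !c2]) ++ D =
        A ++ b1 :: ([!b1, e1, b2, !b2, c1, !c1, e2, c2] ++ (!c2) :: D) := by simp
    have e1' := ch_split A b1 ([!b1, e1, b2, !b2, c1, !c1, e2, c2] ++ (!c2) :: D)
    have e2' := ch_split (b1 :: [!b1, e1, b2, !b2, c1, !c1, e2, c2]) (!c2) D
    rw [e, e1']
    simp only [List.cons_append, List.nil_append] at e2' ⊢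
    rw [e2']
    omega
  have hA1 : 1 ≤ ch (A ++ [b1]) :=
    (ch_pos hA.1 hA.2).trans (ch_sublist (List.sublist_append_left _ _))
  have hD1 : 1 ≤ ch ((!c2) :: D) := (ch_pos hD.1 hD.2).trans (ch_le_cons _ _)
  have hfin : ch (A ++ [b1]) ≤ 1 ∧ ch ((!c2) :: D) ≤ 1 ∧ b1 = !c2 := by
    have k1 := key true true
    have k2 := key true false
    have k3 := key false true
    have k4 := key false false
    revert k1 k2 k3 k4 hA1 hD1
    generalize ch (A ++ [b1]) = p
    generalize ch ((!c2) :: D) = q
    intro hA1 hD1 k1 k2 k3 k4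
    cases b1 <;> cases b2 <;> cases c1 <;> cases c2 <;>
      simp [ch_cons_cons] at k1 k2 k3 k4 ⊢ <;> omega
  obtain ⟨h1, h2, h3⟩ := hfin
  refine ⟨b1, ?_, ?_⟩
  · apply ch_le_one_pairwise
    have : b1 :: A.reverse = (A ++ [b1]).reverse := by simp
    rw [this, ch_reverse]
    exact h1
  · rw [← h3] at h2
    exact ch_le_one_pairwise h2

/-- alternating sublists from sign words -/
theorem chain_of_ch {f : ℕ → ℝ} : ∀ (Q : List ℕ), (∀ z ∈ Q, f z ≠ 0) → Q ≠ [] →
    ∃ Q' : List ℕ, Q'.Sublist Q ∧ Q'.IsChain (fun i j => f i * f j < 0) ∧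
      Q'.length = ch (Q.map (fun z => decide (0 < f z))) + 1 ∧
      ∀ a ∈ Q.head?, ∀ b ∈ Q'.head?, (0 < f a ↔ 0 < f b) := by
  intro Q
  induction Q with
  | nil => intro _ h; exact absurd rfl h
  | cons a Q ih =>
    intro hf _
    cases Q with
    | nil => exact ⟨[a], List.Sublist.refl _, List.isChain_singleton _, by simp, by simp⟩
    | cons b Q =>
      obtain ⟨Q', h1, h2, h3, h4⟩ := ih (fun z hz => hf z (List.mem_cons_of_mem _ hz)) (by simp)
      have ha := hf a (by simp)
      by_cases hab : (0 < f a ↔ 0 < f b)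
      · refine ⟨Q', h1.cons _, h2, ?_, ?_⟩
        · rw [h3, List.map_cons, List.map_cons, List.map_cons, ch_cons_cons, if_pos (by simp [hab])]
          omega
        · intro a' ha' c hc
          have e : a = a' := by simpa using ha'
          subst e
          rw [hab]
          exact h4 b (by simp) c hc
      · refine ⟨a :: Q', h1.cons_cons _, ?_, ?_, ?_⟩
        · rw [List.isChain_cons]
          refine ⟨?_, h2⟩
          intro c hc
          have h5 := h4 b (by simp) c hc
          have hc0 : f c ≠ 0 := hf c (List.mem_cons_of_mem _ (h1.subset (List.mem_of_mem_head? hc)))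
          by_cases h6 : 0 < f a
          · have h7 : ¬ 0 < f c := fun h8 => hab ⟨fun _ => h5.2 h8, fun _ => h6⟩
            exact mul_neg_of_pos_of_neg h6 (lt_of_le_of_ne (not_lt.1 h7) hc0)
          · have h7 : 0 < f c := by
              by_contra h8
              exact hab ⟨fun h => absurd h h6, fun h => absurd (h5.1 h) h8⟩
            exact mul_neg_of_neg_of_pos (lt_of_le_of_ne (not_lt.1 h6) ha) h7
        · rw [List.length_cons, h3, List.map_cons, List.map_cons, List.map_cons, ch_cons_cons,
            if_neg (by simpa using hab)]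
          omega
        · intro a' ha' c hc
          have e : a = a' := by simpa using ha'
          have e2 : a = c := by simpa using hc
          rw [← e, ← e2]

/-- perturbation -/
theorem perturb {f h : ℕ → ℝ} (Z : List ℕ) (hf : ∀ z ∈ Z, f z ≠ 0) :
    ∃ ε > 0, ∀ z ∈ Z, (0 < f z → 0 < f z + ε * h z) ∧ (f z < 0 → f z + ε * h z < 0) := by
  suffices H : ∃ ε0 > 0, ∀ ε, 0 < ε → ε ≤ ε0 → ∀ z ∈ Z,
      (0 < f z → 0 < f z + ε * h z) ∧ (f z < 0 → f z + ε * h z < 0) by
    obtain ⟨ε0, h1, h2⟩ := H
    exact ⟨ε0, h1, h2 ε0 h1 le_rfl⟩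
  induction Z with
  | nil => exact ⟨1, by norm_num, by simp⟩
  | cons a Z ih =>
    obtain ⟨ε0, h1, h2⟩ := ih (fun z hz => hf z (List.mem_cons_of_mem _ hz))
    have ha : 0 < |f a| := abs_pos.2 (hf a (by simp))
    have hden : 0 < |h a| + 1 := by positivity
    refine ⟨min ε0 (|f a| / (|h a| + 1) / 2), lt_min h1 (by positivity), ?_⟩
    intro ε hε hle z hz
    rcases List.mem_cons.1 hz with rfl | hz
    · have h3 : ε ≤ |f z| / (|h z| + 1) / 2 := hle.trans (min_le_right _ _)
      have h4 : ε * (|h z| + 1) ≤ |f z| / 2 := by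
        rw [div_right_comm] at h3
        rwa [le_div_iff₀ hden] at h3
      have h5 : |ε * h z| < |f z| := by
        rw [abs_mul, abs_of_pos hε]
        nlinarith [abs_nonneg (h z)]
      rw [abs_lt] at h5
      constructor
      · intro h6
        rw [abs_of_pos h6] at h5
        linarith [h5.1]
      · intro h6
        rw [abs_of_neg h6] at h5
        linarith [h5.2]
    · exact h2 ε hε (hle.trans (min_le_left _ _)) z hz

end Pool.Agent.H595K.Lb
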