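import Mathlib
import Pool.Agent.H595K.FWord
import Pool.Agent.H595K.Good

/-!
# Paths, mixed subtrees and the word of a node
-/

namespace Pool.Agent.H595K.Lb

open LT

/-- paths from the root to a leaf; an entry of the list consists of the turn (`true` is a turn to
the right), the label of the node and a leaf of the other subtree of the node -/
inductive Pth : LT ℝ → List (Bool × ℝ × ℕ) → ℕ → Prop
  | leaf (i : ℕ) : Pth (leaf i) [] i
  | left {a : ℝ} {l r : LT ℝ} {W : List (Bool × ℝ × ℕ)} {i z : ℕ} (h : Pth l W i)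
      (hz : z ∈ r.lv) : Pth (node a l r) ((false, a, z) :: W) i
  | right {a : ℝ} {l r : LT ℝ} {W : List (Bool × ℝ × ℕ)} {i z : ℕ} (h : Pth r W i)
      (hz : z ∈ l.lv) : Pth (node a l r) ((true, a, z) :: W) i

theorem Pth.mem {t : LT ℝ} {W : List (Bool × ℝ × ℕ)} {i : ℕ} (h : Pth t W i) : i ∈ t.lv := by
  induction h with
  | leaf i => simp [lv]
  | left _ _ ih => simp [lv, ih]
  | right _ _ ih => simp [lv, ih]

theorem exists_pth (t : LT ℝ) : ∃ W i, Pth t W i := by
  induction t with
  | leaf i => exact ⟨_, _, Pth.leaf i⟩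
  | node a l r hl _ =>
    obtain ⟨W, i, h⟩ := hl
    obtain ⟨z, hz⟩ := exists_mem r
    exact ⟨_, _, Pth.left h hz⟩

theorem Pth.sub {c : ℝ → LT ℝ → LT ℝ → Prop} {t' t : LT ℝ} (hs : Sub c t' t) :
    ∀ {W' : List (Bool × ℝ × ℕ)} {i : ℕ}, Pth t' W' i → ∃ W, Pth t W i ∧ ∀ w ∈ W', w ∈ W := by
  induction hs with
  | leaf i => intro W' i h; exact ⟨W', h, fun _ h => h⟩
  | left a r _ ih =>
    intro W' i h
    obtain ⟨W, h1, h2⟩ := ih h
    obtain ⟨z, hz⟩ := exists_mem r
    exact ⟨_, Pth.left h1 hz, fun w hw => List.mem_cons_of_mem _ (h2 w hw)⟩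
  | right a l _ ih =>
    intro W' i h
    obtain ⟨W, h1, h2⟩ := ih h
    obtain ⟨z, hz⟩ := exists_mem l
    exact ⟨_, Pth.right h1 hz, fun w hw => List.mem_cons_of_mem _ (h2 w hw)⟩
  | node hc hl hr ihl ihr =>
    intro W' i h
    cases h with
    | left h hz =>
      obtain ⟨W, h1, h2⟩ := ihl h
      refine ⟨_, Pth.left h1 (hr.mem hz), ?_⟩
      intro w hw
      rcases List.mem_cons.1 hw with rfl | hw
      · simp
      · exact List.mem_cons_of_mem _ (h2 w hw)
    | right h hz =>
      obtain ⟨W, h1, h2⟩ := ihr h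
      refine ⟨_, Pth.right h1 (hl.mem hz), ?_⟩
      intro w hw
      rcases List.mem_cons.1 hw with rfl | hw
      · simp
      · exact List.mem_cons_of_mem _ (h2 w hw)

/-- a path with smaller and larger labels at both kinds of turns -/
def Mix (x : ℝ) (t : LT ℝ) : Prop :=
  ∃ W i, Pth t W i ∧ (∃ w ∈ W, w.1 = true ∧ w.2.1 < x) ∧ (∃ w ∈ W, w.1 = true ∧ x < w.2.1) ∧
    (∃ w ∈ W, w.1 = false ∧ w.2.1 < x) ∧ (∃ w ∈ W, w.1 = false ∧ x < w.2.1)

theorem Mix.sub {c : ℝ → LT ℝ → LT ℝ → Prop} {t' t : LT ℝ} (hs : Sub c t' t) {x : ℝ}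
    (h : Mix x t') : Mix x t := by
  obtain ⟨W', i, h1, ⟨w1, a1, b1⟩, ⟨w2, a2, b2⟩, ⟨w3, a3, b3⟩, ⟨w4, a4, b4⟩⟩ := h
  obtain ⟨W, h2, h3⟩ := Pth.sub hs h1
  exact ⟨W, i, h2, ⟨w1, h3 _ a1, b1⟩, ⟨w2, h3 _ a2, b2⟩, ⟨w3, h3 _ a3, b3⟩, ⟨w4, h3 _ a4, b4⟩⟩

theorem mir_mir {α : Type} (t : LT α) : mir (mir t) = t := by
  induction t with
  | leaf i => rfl
  | node x l r hl hr => simp only [mir, hl, hr]

/-- reflect an entry -/
def flp (w : Bool × ℝ × ℕ) : Bool × ℝ × ℕ := (!w.1, w.2)

theorem Pth.mir {t : LT ℝ} {W : List (Bool × ℝ × ℕ)} {i : ℕ} (h : Pth t W i) :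
    Pth (mir t) (W.map flp) i := by
  induction h with
  | leaf i => exact Pth.leaf i
  | left _ hz ih => exact Pth.right ih (by rw [lv_mir]; simpa using hz)
  | right _ hz ih => exact Pth.left ih (by rw [lv_mir]; simpa using hz)

theorem Mix.mir {t : LT ℝ} {x : ℝ} (h : Mix x t) : Mix x (mir t) := by
  obtain ⟨W, i, h1, ⟨w1, a1, b1, c1⟩, ⟨w2, a2, b2, c2⟩, ⟨w3, a3, b3, c3⟩, ⟨w4, a4, b4, c4⟩⟩ := h
  refine ⟨_, i, h1.mir, ⟨flp w3, List.mem_map_of_mem a3, by simp [flp, b3], c3⟩,
    ⟨flp w4, List.mem_map_of_mem a4, by simp [flp, b4], c4⟩,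
    ⟨flp w1, List.mem_map_of_mem a1, by simp [flp, b1], c1⟩,
    ⟨flp w2, List.mem_map_of_mem a2, by simp [flp, b2], c2⟩⟩

open scoped Classical in
/-- the side of the witness leaf of an entry relative to the lines through a node with label `u` -/
noncomputable def lett (u : ℝ) (w : Bool × ℝ × ℕ) : Bool :=
  if w.1 = true then decide (w.2.1 < u) else decide (u < w.2.1)

/-- the entries with a turn to the right, last entry first -/
def rR (V : List (Bool × ℝ × ℕ)) : List (Bool × ℝ × ℕ) := (V.filter (fun w => w.1)).reverse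

/-- the entries with a turn to the left -/
def rL (V : List (Bool × ℝ × ℕ)) : List (Bool × ℝ × ℕ) := V.filter (fun w => !w.1)

/-- the witness leaves -/
def lf (V : List (Bool × ℝ × ℕ)) : List ℕ := V.map (fun w => w.2.2)

theorem Pth.sublist {t : LT ℝ} {W : List (Bool × ℝ × ℕ)} {i : ℕ} (h : Pth t W i) :
    (lf (rR W.reverse) ++ [i] ++ lf (rL W.reverse)).Sublist t.lv := by
  induction h with
  | leaf i => simp [lf, rR, rL, lv]
  | @left a l r W i z h hz ih =>
    have e : lf (rR ((false, a, z) :: W).reverse) ++ [i] ++ lf (rL ((false, a, z) :: W).reverse) =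
        (lf (rR W.reverse) ++ [i] ++ lf (rL W.reverse)) ++ [z] := by
      simp [lf, rR, rL]
    rw [e]
    exact ih.append (List.singleton_sublist.2 hz)
  | @right a l r W i z h hz ih =>
    have e : lf (rR ((true, a, z) :: W).reverse) ++ [i] ++ lf (rL ((true, a, z) :: W).reverse) =
        [z] ++ (lf (rR W.reverse) ++ [i] ++ lf (rL W.reverse)) := by
      simp [lf, rR, rL]
    rw [e]
    exact (List.singleton_sublist.2 hz).append ih

section
variable {X Y : ℕ → ℝ}

theorem Pth.slopes {t : LT ℝ} {W : List (Bool × ℝ × ℕ)} {i : ℕ} (h : Pth t W i) {u : ℝ}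
    {Z : List ℕ} (hR : Rel (slp X Y) u Z t) {q : ℕ} (hq : q ∈ Z) :
    ∀ w ∈ W, w.2.1 ≠ u ∧ (u < w.2.1 → slp X Y i q < slp X Y i w.2.2) ∧
      (w.2.1 < u → slp X Y i w.2.2 < slp X Y i q) := by
  induction h with
  | leaf i => simp
  | @left a l r W i z h hz ih =>
    intro w hw
    rcases List.mem_cons.1 hw with rfl | hw
    · refine ⟨hR.1.2.2, fun h1 => (hR.1.1 h1 i h.mem z hz q hq).1, fun h1 => ?_⟩
      have := (hR.1.2.1 h1 i h.mem z hz q hq).1
      simp only at this
      linarith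
    · exact ih hR.2.1 w hw
  | @right a l r W i z h hz ih =>
    intro w hw
    rcases List.mem_cons.1 hw with rfl | hw
    · refine ⟨hR.1.2.2, fun h1 => ?_, fun h1 => ?_⟩
      · have := (hR.1.1 h1 z hz i h.mem q hq).2
        rw [slp_comm X Y z i] at this
        exact this
      · have := (hR.1.2.1 h1 z hz i h.mem q hq).2
        simp only at this
        rw [slp_comm X Y z i] at this
        show slp X Y i z < slp X Y i q
        linarith
    · exact ih hR.2.2 w hw

theorem Pth.pos {t : LT ℝ} {W : List (Bool × ℝ × ℕ)} {i : ℕ} (h : Pth t W i)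
    (hx : t.lv.Pairwise (fun i j => X i < X j)) :
    ∀ w ∈ W, (w.1 = false → X i < X w.2.2) ∧ (w.1 = true → X w.2.2 < X i) := by
  induction h with
  | leaf i => simp
  | @left a l r W i z h hz ih =>
    simp only [lv] at hx
    rw [List.pairwise_append] at hx
    intro w hw
    rcases List.mem_cons.1 hw with rfl | hw
    · exact ⟨fun _ => hx.2.2 i h.mem z hz, by simp⟩
    · exact ih hx.1 w hw
  | @right a l r W i z h hz ih =>
    simp only [lv] at hx
    rw [List.pairwise_append] at hx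
    intro w hw
    rcases List.mem_cons.1 hw with rfl | hw
    · exact ⟨by simp, fun _ => hx.2.2 z hz i h.mem⟩
    · exact ih hx.2.1 w hw

/-- the sign of the witness leaf -/
theorem sg_of {i : ℕ} {u θ : ℝ} {w : Bool × ℝ × ℕ} (hne : w.2.1 ≠ u)
    (h1 : u < w.2.1 → θ < slp X Y i w.2.2) (h2 : w.2.1 < u → slp X Y i w.2.2 < θ)
    (h3 : w.1 = false → X i < X w.2.2) (h4 : w.1 = true → X w.2.2 < X i) :
    (lett u w = true → 0 < Y w.2.2 - θ * X w.2.2 - (Y i - θ * X i)) ∧
    (lett u w = false → Y w.2.2 - θ * X w.2.2 - (Y i - θ * X i) < 0) := by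
  obtain ⟨b, a, z⟩ := w
  cases b with
  | true =>
    have h5 := h4 rfl
    have e : Y z - θ * X z - (Y i - θ * X i) = (θ - slp X Y i z) * (X i - X z) := by
      have := slp_mul (y := Y) h5
      rw [slp_comm] at this
      simp only at this ⊢
      linear_combination this
    simp only [lett, if_true, decide_eq_true_eq, decide_eq_false_iff_not]
    rw [e]
    constructor
    · intro h6
      exact mul_pos (by have := h2 h6; simp only at this; linarith) (by simp only at h5; linarith)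
    · intro h6
      have h7 : u < a := lt_of_le_of_ne (not_lt.1 h6) (Ne.symm hne)
      exact mul_neg_of_neg_of_pos (by have := h1 h7; simp only at this; linarith)
        (by simp only at h5; linarith)
  | false =>
    have h5 := h3 rfl
    have e : Y z - θ * X z - (Y i - θ * X i) = (slp X Y i z - θ) * (X z - X i) := by
      have := slp_mul (y := Y) h5
      simp only at this ⊢
      linear_combination -this
    simp only [lett, Bool.false_eq_true, if_false, decide_eq_true_eq, decide_eq_false_iff_not]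
    rw [e]
    constructor
    · intro h6
      exact mul_pos (by have := h1 h6; simp only at this; linarith) (by simp only at h5; linarith)
    · intro h6
      have h7 : a < u := lt_of_le_of_ne (not_lt.1 h6) hne
      exact mul_neg_of_neg_of_pos (by have := h2 h7; simp only at this; linarith)
        (by simp only at h5; linarith)

theorem map_row {f : ℕ → ℝ} {u : ℝ} (R : List (Bool × ℝ × ℕ))
    (h : ∀ w ∈ R, (lett u w = true → 0 < f w.2.2) ∧ (lett u w = false → f w.2.2 < 0)) :
    (lf R).map (fun z => decide (0 < f z)) = R.map (lett u) := by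
  unfold lf
  rw [List.map_map]
  apply List.map_congr_left
  intro w hw
  obtain ⟨h1, h2⟩ := h w hw
  simp only [Function.comp]
  cases hl : lett u w with
  | true => simpa using h1 hl
  | false => simpa using (h2 hl).le

theorem mem_rR {V : List (Bool × ℝ × ℕ)} {w : Bool × ℝ × ℕ} : w ∈ rR V ↔ w ∈ V ∧ w.1 = true := by
  simp [rR]

theorem mem_rL {V : List (Bool × ℝ × ℕ)} {w : Bool × ℝ × ℕ} : w ∈ rL V ↔ w ∈ V ∧ w.1 = false := by
  simp [rL]

/-- **The word of a node.** -/
theorem local_word {A : List ℕ} {k : ℕ} (hA : A.Pairwise (fun i j => X i < X j))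
    (hC : Cross X Y A (k + 2))
    {V W1 W2 : List (Bool × ℝ × ℕ)} {u : ℝ} {l r : LT ℝ} {i j : ℕ} (h1 : Pth l W1 i)
    (h2 : Pth r W2 j) (hS : (lf (rR V) ++ (l.lv ++ r.lv) ++ lf (rL V)).Sublist A)
    (hR : ∀ w ∈ V, Rel (slp X Y) w.2.1 [w.2.2] (node u l r))
    (hCp : Compat (slp X Y) (node u l r)) (e1 e2 : Bool) :
    ch ((rR V).map (lett u) ++ ((rR W1.reverse).map (lett u) ++ [e1] ++
      (rL W1.reverse).map (lett u)) ++ ((rR W2.reverse).map (lett u) ++ [e2] ++
      (rL W2.reverse).map (lett u)) ++ (rL V).map (lett u)) ≤ k := by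
  have hpw := hA.sublist hS
  rw [List.pairwise_append, List.pairwise_append] at hpw
  obtain ⟨⟨hp1, hp2, hp3⟩, hp4, hp5⟩ := hpw
  rw [List.pairwise_append] at hp2
  obtain ⟨hpl, hpr, hplr⟩ := hp2
  have hi := h1.mem
  have hj := h2.mem
  have hij : X i < X j := hplr i hi j hj
  set θ := slp X Y i j with hθ
  set f : ℕ → ℝ := fun z => Y z - θ * X z - (Y i - θ * X i) with hf
  have hfi : f i = 0 := by simp [hf]
  have hfj : f j = 0 := by
    have := slp_mul (y := Y) hij
    simp only [hf]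
    linear_combination -this
  have hfj' : ∀ z, f z = Y z - θ * X z - (Y j - θ * X j) := by
    intro z
    have : Y j - θ * X j - (Y i - θ * X i) = 0 := hfj
    simp only [hf]
    linear_combination this
  have gV : ∀ w ∈ V, (lett u w = true → 0 < f w.2.2) ∧ (lett u w = false → f w.2.2 < 0) := by
    intro w hw
    obtain ⟨k1, k2, k3⟩ := (hR w hw).1
    apply sg_of k3.symm
    · intro h
      have := (k2 h i hi j hj w.2.2 (by simp)).1
      simp only at this
      rw [hθ]; linarith
    · intro h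
      exact (k1 h i hi j hj w.2.2 (by simp)).1
    · intro h
      exact hp5 i (by simp [hi]) w.2.2 (List.mem_map.2 ⟨w, mem_rL.2 ⟨hw, h⟩, rfl⟩)
    · intro h
      exact hp3 w.2.2 (List.mem_map.2 ⟨w, mem_rR.2 ⟨hw, h⟩, rfl⟩) i (by simp [hi])
  have gW1 : ∀ w ∈ W1, (lett u w = true → 0 < f w.2.2) ∧ (lett u w = false → f w.2.2 < 0) := by
    intro w hw
    obtain ⟨k1, k2, k3⟩ := h1.slopes hCp.1.1 hj w hw
    obtain ⟨k4, k5⟩ := h1.pos hpl w hw
    exact sg_of k1 k2 k3 k4 k5
  have gW2 : ∀ w ∈ W2, (lett u w = true → 0 < f w.2.2) ∧ (lett u w = false → f w.2.2 < 0) := by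
    intro w hw
    obtain ⟨k1, k2, k3⟩ := h2.slopes hCp.1.2 hi w hw
    obtain ⟨k4, k5⟩ := h2.pos hpr w hw
    rw [slp_comm X Y j i] at k2 k3
    rw [hfj']
    exact sg_of k1 k2 k3 k4 k5
  -- the perturbation
  let s : Bool → ℝ := fun e => if e = true then 1 else -1
  have hs1 : s true = 1 := rfl
  have hs2 : s false = -1 := rfl
  set b0 : ℝ := (s e2 - s e1) / (X j - X i) with hb0
  set a0 : ℝ := s e1 - b0 * X i with ha0
  have hxne : X j - X i ≠ 0 := by linarith
  have hhi : a0 + b0 * X i = s e1 := by rw [ha0]; ring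
  have hhj : a0 + b0 * X j = s e2 := by
    have : b0 * (X j - X i) = s e2 - s e1 := by rw [hb0]; field_simp
    rw [ha0]; linear_combination this
  obtain ⟨ε, hε, hpert⟩ := perturb (f := f) (h := fun z => a0 + b0 * X z) (lf (V ++ W1 ++ W2)) (by
    intro z hz
    obtain ⟨w, hw, rfl⟩ := List.mem_map.1 hz
    have hg : (lett u w = true → 0 < f w.2.2) ∧ (lett u w = false → f w.2.2 < 0) := by
      rcases List.mem_append.1 hw with hw | hw
      · rcases List.mem_append.1 hw with hw | hw
        · exact gV w hw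
        · exact gW1 w hw
      · exact gW2 w hw
    cases hl : lett u w with
    | true => exact (hg.1 hl).ne'
    | false => exact (hg.2 hl).ne)
  set f' : ℕ → ℝ := fun z => Y z - (θ - ε * b0) * X z - (Y i - θ * X i - ε * a0) with hf'
  have hff : ∀ z, f' z = f z + ε * (a0 + b0 * X z) := by
    intro z; simp only [hf', hf]; ring
  have gg : ∀ w ∈ V ++ W1 ++ W2, ((lett u w = true → 0 < f w.2.2) ∧
      (lett u w = false → f w.2.2 < 0)) →
      (lett u w = true → 0 < f' w.2.2) ∧ (lett u w = false → f' w.2.2 < 0) := by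
    intro w hw hg
    obtain ⟨k1, k2⟩ := hpert w.2.2 (List.mem_map_of_mem hw)
    rw [hff]
    exact ⟨fun h => k1 (hg.1 h), fun h => k2 (hg.2 h)⟩
  have gV' := fun w (hw : w ∈ V) => gg w (by simp [hw]) (gV w hw)
  have gW1' := fun w (hw : w ∈ W1) => gg w (by simp [hw]) (gW1 w hw)
  have gW2' := fun w (hw : w ∈ W2) => gg w (by simp [hw]) (gW2 w hw)
  have hf'i : f' i = ε * s e1 := by rw [hff, hfi, hhi]; ring
  have hf'j : f' j = ε * s e2 := by rw [hff, hfj, hhj]; ring
  have hsgn : ∀ (z : ℕ) (e : Bool), f' z = ε * s e → decide (0 < f' z) = e ∧ f' z ≠ 0 := by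
    intro z e h
    rw [h]
    cases e with
    | true => rw [hs1]; simp [hε, hε.ne']
    | false => rw [hs2]; simp [hε.le, hε.ne']
  set Q : List ℕ := lf (rR V) ++ (lf (rR W1.reverse) ++ [i] ++ lf (rL W1.reverse)) ++
    (lf (rR W2.reverse) ++ [j] ++ lf (rL W2.reverse)) ++ lf (rL V) with hQ
  have hQA : Q.Sublist A := by
    refine List.Sublist.trans ?_ hS
    rw [hQ, ← List.append_assoc (lf (rR V)) l.lv r.lv]
    exact (((List.Sublist.refl _).append h1.sublist).append h2.sublist).append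
      (List.Sublist.refl _)
  have hword : Q.map (fun z => decide (0 < f' z)) = (rR V).map (lett u) ++
      ((rR W1.reverse).map (lett u) ++ [e1] ++ (rL W1.reverse).map (lett u)) ++
      ((rR W2.reverse).map (lett u) ++ [e2] ++ (rL W2.reverse).map (lett u)) ++
      (rL V).map (lett u) := by
    simp only [hQ, List.map_append, List.map_cons, List.map_nil]
    rw [(hsgn i e1 hf'i).1, (hsgn j e2 hf'j).1]
    rw [map_row (rR V) (fun w hw => gV' w (mem_rR.1 hw).1),
      map_row (rL V) (fun w hw => gV' w (mem_rL.1 hw).1),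
      map_row (rR W1.reverse) (fun w hw => gW1' w (by simpa using (mem_rR.1 hw).1)),
      map_row (rL W1.reverse) (fun w hw => gW1' w (by simpa using (mem_rL.1 hw).1)),
      map_row (rR W2.reverse) (fun w hw => gW2' w (by simpa using (mem_rR.1 hw).1)),
      map_row (rL W2.reverse) (fun w hw => gW2' w (by simpa using (mem_rL.1 hw).1))]
  have hrow : ∀ (U R : List (Bool × ℝ × ℕ)),
      (∀ w ∈ U, (lett u w = true → 0 < f' w.2.2) ∧ (lett u w = false → f' w.2.2 < 0)) →
      (∀ w ∈ R, w ∈ U) → ∀ z ∈ lf R, f' z ≠ 0 := by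
    intro U R hU hRU z hz
    obtain ⟨w, hw, rfl⟩ := List.mem_map.1 hz
    obtain ⟨k1, k2⟩ := hU w (hRU w hw)
    cases hl : lett u w with
    | true => exact (k1 hl).ne'
    | false => exact (k2 hl).ne
  have hne : ∀ z ∈ Q, f' z ≠ 0 := by
    intro z hz
    simp only [hQ, List.mem_append, List.mem_singleton] at hz
    rcases hz with ((hz | ((hz | hz) | hz)) | ((hz | hz) | hz)) | hz
    · exact hrow V _ gV' (fun w hw => (mem_rR.1 hw).1) z hz
    · exact hrow W1 _ gW1' (fun w hw => by simpa using (mem_rR.1 hw).1) z hz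
    · rw [hz]; exact (hsgn i e1 hf'i).2
    · exact hrow W1 _ gW1' (fun w hw => by simpa using (mem_rL.1 hw).1) z hz
    · exact hrow W2 _ gW2' (fun w hw => by simpa using (mem_rR.1 hw).1) z hz
    · rw [hz]; exact (hsgn j e2 hf'j).2
    · exact hrow W2 _ gW2' (fun w hw => by simpa using (mem_rL.1 hw).1) z hz
    · exact hrow V _ gV' (fun w hw => (mem_rL.1 hw).1) z hz
  have hQne : Q ≠ [] := by
    intro h
    have : i ∈ Q := by simp [hQ]
    rw [h] at this
    simp at this
  obtain ⟨Q', q1, q2, q3, _⟩ := chain_of_ch (f := f') Q hne hQne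
  have := hC (θ - ε * b0) (Y i - θ * X i - ε * a0) Q' (q1.trans hQA) q2
  rw [q3, hword] at this
  omega

end

end Pool.Agent.H595K.Lb
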