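import Mathlib
import Pool.Agent.H595K.FPath

/-!
# Colours of nodes from their contexts
-/

namespace Pool.Agent.H595K.Lb

open LT

/-- right descendants have smaller labels -/
def RB : LT ℝ → Prop := LT.AllN (fun x _ r => AllL (fun u => u < x) r)

/-- annotate the nodes with the list of their ancestors (turn and label), nearest first -/
def ctx : List (Bool × ℝ) → LT ℝ → LT (ℝ × List (Bool × ℝ))
  | _, leaf i => leaf i
  | L, node x l r => node (x, L) (ctx ((false, x) :: L) l) (ctx ((true, x) :: L) r)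

/-- forget the annotation -/
def unc : LT (ℝ × List (Bool × ℝ)) → LT ℝ
  | leaf i => leaf i
  | node p l r => node p.1 (unc l) (unc r)

theorem unc_ctx (t : LT ℝ) : ∀ L, unc (ctx L t) = t := by
  induction t with
  | leaf i => intro L; rfl
  | node x l r hl hr => intro L; simp only [ctx, unc, hl, hr]

theorem comp_ctx {t : LT ℝ} : ∀ {n : ℕ} (L : List (Bool × ℝ)), Comp n t → Comp n (ctx L t) := by
  induction t with
  | leaf i =>
    intro n L h
    cases n with
    | zero => trivial
    | succ n => exact absurd h (by simp [Comp])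
  | node x l r hl hr =>
    intro n L h
    cases n with
    | zero => exact absurd h (by simp [Comp])
    | succ n => exact ⟨hl _ h.1, hr _ h.2⟩

theorem comp_unc {t : LT (ℝ × List (Bool × ℝ))} {n : ℕ} (h : Comp n t) : Comp n (unc t) := by
  induction t generalizing n with
  | leaf i =>
    cases n with
    | zero => trivial
    | succ n => exact absurd h (by simp [Comp])
  | node x l r hl hr =>
    cases n with
    | zero => exact absurd h (by simp [Comp])
    | succ n => exact ⟨hl h.1, hr h.2⟩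

theorem sub_unc {c : ℝ × List (Bool × ℝ) → LT (ℝ × List (Bool × ℝ)) →
    LT (ℝ × List (Bool × ℝ)) → Prop} {t' t : LT (ℝ × List (Bool × ℝ))}
    (h : Sub c t' t) : Sub (fun _ _ _ => True) (unc t') (unc t) := by
  induction h with
  | leaf i => exact Sub.leaf i
  | left a r _ ih => exact Sub.left _ _ ih
  | right a l _ ih => exact Sub.right _ _ ih
  | node hc _ _ ihl ihr => exact Sub.node trivial ihl ihr

theorem allL_unc {P : ℝ × List (Bool × ℝ) → Prop} {Q : ℝ → Prop}
    {t : LT (ℝ × List (Bool × ℝ))} (h : AllL P t) (hPQ : ∀ p, P p → Q p.1) :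
    AllL Q (unc t) := by
  induction t with
  | leaf i => trivial
  | node x l r hl hr => exact ⟨hPQ _ h.1, hl h.2.1, hr h.2.2⟩

theorem allN_unc {P : ℝ × List (Bool × ℝ) → LT (ℝ × List (Bool × ℝ)) →
    LT (ℝ × List (Bool × ℝ)) → Prop} {Q : ℝ → LT ℝ → LT ℝ → Prop}
    {t : LT (ℝ × List (Bool × ℝ))} (h : AllN P t)
    (hPQ : ∀ p l r, P p l r → Q p.1 (unc l) (unc r)) : AllN Q (unc t) := by
  induction t with
  | leaf i => trivial
  | node x l r hl hr => exact ⟨hPQ _ _ _ h.1, hl h.2.1, hr h.2.2⟩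

/-- the contexts of the descendants extend the context of a node -/
def Cx : LT (ℝ × List (Bool × ℝ)) → Prop :=
  LT.AllN (fun p l r => AllL (fun q => ∃ M, q.2 = M ++ (false, p.1) :: p.2) l ∧
    AllL (fun q => ∃ M, q.2 = M ++ (true, p.1) :: p.2) r)

theorem ctx_ext (t : LT ℝ) : ∀ L, AllL (fun q => ∃ M, q.2 = M ++ L) (ctx L t) := by
  induction t with
  | leaf i => intro L; trivial
  | node x l r hl hr =>
    intro L
    refine ⟨⟨[], rfl⟩, (hl ((false, x) :: L)).imp ?_, (hr ((true, x) :: L)).imp ?_⟩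
    · rintro q ⟨M, hM⟩
      exact ⟨M ++ [(false, x)], by rw [hM]; simp⟩
    · rintro q ⟨M, hM⟩
      exact ⟨M ++ [(true, x)], by rw [hM]; simp⟩

theorem cx_ctx (t : LT ℝ) : ∀ L, Cx (ctx L t) := by
  induction t with
  | leaf i => intro L; trivial
  | node x l r hl hr =>
    intro L
    exact ⟨⟨ctx_ext l _, ctx_ext r _⟩, hl _, hr _⟩

theorem Cx.sub {c : ℝ × List (Bool × ℝ) → LT (ℝ × List (Bool × ℝ)) →
    LT (ℝ × List (Bool × ℝ)) → Prop} {t' t : LT (ℝ × List (Bool × ℝ))}
    (h : Sub c t' t) (hC : Cx t) : Cx t' := by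
  refine h.allN hC ?_
  rintro p l r l' r' _ ⟨h1, h2⟩ hl hr
  exact ⟨hl.allL h1, hr.allL h2⟩

theorem left_of {t : LT (ℝ × List (Bool × ℝ))} (hCx : Cx t)
    {P : List (Bool × ℝ) → ℝ → Prop} {R : ℝ → ℝ → Prop} (hP : AllL (fun q => P q.2 q.1) t)
    (h : ∀ x W y M, P W x → P (M ++ (false, x) :: W) y → R x y) :
    AllN (fun x l _ => AllL (fun u => R x u) l) (unc t) := by
  induction t with
  | leaf i => trivial
  | node p l r hl hr =>
    refine ⟨allL_unc (hCx.1.1.and hP.2.1) ?_, hl hCx.2.1 hP.2.1, hr hCx.2.2 hP.2.2⟩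
    rintro q ⟨⟨M, hM⟩, hq⟩
    rw [hM] at hq
    exact h _ _ _ _ hP.1 hq

theorem right_of {t : LT (ℝ × List (Bool × ℝ))} (hCx : Cx t)
    {P : List (Bool × ℝ) → ℝ → Prop} {R : ℝ → ℝ → Prop} (hP : AllL (fun q => P q.2 q.1) t)
    (h : ∀ x W y M, P W x → P (M ++ (true, x) :: W) y → R x y) :
    AllN (fun x _ r => AllL (fun u => R x u) r) (unc t) := by
  induction t with
  | leaf i => trivial
  | node p l r hl hr =>
    refine ⟨allL_unc (hCx.1.2.and hP.2.2) ?_, hl hCx.2.1 hP.2.1, hr hCx.2.2 hP.2.2⟩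
    rintro q ⟨⟨M, hM⟩, hq⟩
    rw [hM] at hq
    exact h _ _ _ _ hP.1 hq

/-! ### The topmost pair -/

open scoped Classical in
/-- the topmost pair of an ancestor with a turn to the left and one with a turn to the right whose
labels are related by `R` -/
noncomputable def top (R : ℝ → ℝ → Prop) : List (Bool × ℝ) → Option (ℝ × ℝ)
  | [] => none
  | w :: W => match top R W with
    | some p => some p
    | none => if h : ∃ p : ℝ × ℝ, (false, p.1) ∈ w :: W ∧ (true, p.2) ∈ w :: W ∧ R p.1 p.2 then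
        some h.choose else none

theorem top_stable {R : ℝ → ℝ → Prop} {W : List (Bool × ℝ)} {p : ℝ × ℝ} (h : top R W = some p)
    (M : List (Bool × ℝ)) : top R (M ++ W) = some p := by
  induction M with
  | nil => exact h
  | cons w M ih => rw [List.cons_append, top, ih]

theorem top_sound {R : ℝ → ℝ → Prop} {W : List (Bool × ℝ)} {p : ℝ × ℝ} (h : top R W = some p) :
    (false, p.1) ∈ W ∧ (true, p.2) ∈ W ∧ R p.1 p.2 := by
  induction W with
  | nil => simp [top] at h
  | cons w W ih =>
    rw [top] at h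
    split at h
    · rename_i q hq
      obtain ⟨h1, h2, h3⟩ := ih (hq.trans h)
      exact ⟨List.mem_cons_of_mem _ h1, List.mem_cons_of_mem _ h2, h3⟩
    · split_ifs at h with hc
      have h1 := hc.choose_spec
      have h2 : hc.choose = p := by simpa using h
      rw [h2] at h1
      exact h1

theorem top_complete {R : ℝ → ℝ → Prop} {W : List (Bool × ℝ)} {v v' : ℝ} (h1 : (false, v) ∈ W)
    (h2 : (true, v') ∈ W) (h3 : R v v') : ∃ p, top R W = some p := by
  cases W with
  | nil => simp at h1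
  | cons w W =>
    rw [top]
    split
    · exact ⟨_, rfl⟩
    · rw [dif_pos ⟨(v, v'), h1, h2, h3⟩]
      exact ⟨_, rfl⟩

/-- near ancestors with a turn to the left are small, with a turn to the right are large -/
def NearM (W : List (Bool × ℝ)) (x : ℝ) : Prop :=
  W.Pairwise (fun w w' => (w.1 = false → w'.1 = false → w'.2 < x → w.2 < x) ∧
    (w.1 = true → w'.1 = true → x < w'.2 → x < w.2))

/-- near ancestors with a turn to the left are large, with a turn to the right are small -/
def NearP (W : List (Bool × ℝ)) (x : ℝ) : Prop :=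
  W.Pairwise (fun w w' => (w.1 = false → w'.1 = false → x < w'.2 → x < w.2) ∧
    (w.1 = true → w'.1 = true → w'.2 < x → w.2 < x))

/-- the colours -/
def Pc : ℕ → List (Bool × ℝ) → ℝ → LT ℝ → LT ℝ → Prop
  | 0, W, x, _, _ => ∀ w ∈ W, w.1 = false → w.2 < x
  | 1, W, x, _, _ => ∀ w ∈ W, w.1 = false → x < w.2
  | 2, W, x, _, _ => ∀ w ∈ W, w.1 = true → w.2 < x
  | 3, W, x, _, _ => ∀ w ∈ W, w.1 = true → x < w.2
  | 4, _, x, l, _ => ¬ Mix x l
  | 5, _, x, _, r => ¬ Mix x r
  | 6, W, x, _, _ => NearM W x ∧ ∃ p, top (fun a b => a < b) W = some p ∧ p.1 < x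
  | 7, W, x, _, _ => NearM W x ∧ ∃ p, top (fun a b => a < b) W = some p ∧ x < p.2
  | 8, W, x, _, _ => NearP W x ∧ ∃ p, top (fun a b => b < a) W = some p ∧ x < p.1
  | 9, W, x, _, _ => NearP W x ∧ ∃ p, top (fun a b => b < a) W = some p ∧ p.2 < x
  | _, _, _, _, _ => False

theorem rel6 (x : ℝ) (W : List (Bool × ℝ)) (y : ℝ) (M : List (Bool × ℝ)) (l r l' r' : LT ℝ)
    (h : Pc 6 W x l r) (h' : Pc 6 (M ++ (false, x) :: W) y l' r') : x < y := by
  obtain ⟨_, p, h1, _⟩ := h
  obtain ⟨h2, p', h3, h4⟩ := h'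
  have h5 := top_stable h1 (M ++ [(false, x)])
  rw [List.append_assoc, List.singleton_append, h3] at h5
  have h6 : p' = p := by simpa using h5
  subst h6
  have h7 := (List.pairwise_append.1 h2).2.1
  exact ((List.pairwise_cons.1 h7).1 _ (top_sound h1).1).1 rfl rfl h4

theorem rel7 (x : ℝ) (W : List (Bool × ℝ)) (y : ℝ) (M : List (Bool × ℝ)) (l r l' r' : LT ℝ)
    (h : Pc 7 W x l r) (h' : Pc 7 (M ++ (true, x) :: W) y l' r') : y < x := by
  obtain ⟨_, p, h1, _⟩ := h
  obtain ⟨h2, p', h3, h4⟩ := h'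
  have h5 := top_stable h1 (M ++ [(true, x)])
  rw [List.append_assoc, List.singleton_append, h3] at h5
  have h6 : p' = p := by simpa using h5
  subst h6
  have h7 := (List.pairwise_append.1 h2).2.1
  exact ((List.pairwise_cons.1 h7).1 _ (top_sound h1).2.1).2 rfl rfl h4

theorem rel8 (x : ℝ) (W : List (Bool × ℝ)) (y : ℝ) (M : List (Bool × ℝ)) (l r l' r' : LT ℝ)
    (h : Pc 8 W x l r) (h' : Pc 8 (M ++ (false, x) :: W) y l' r') : y < x := by
  obtain ⟨_, p, h1, _⟩ := h
  obtain ⟨h2, p', h3, h4⟩ := h'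
  have h5 := top_stable h1 (M ++ [(false, x)])
  rw [List.append_assoc, List.singleton_append, h3] at h5
  have h6 : p' = p := by simpa using h5
  subst h6
  have h7 := (List.pairwise_append.1 h2).2.1
  exact ((List.pairwise_cons.1 h7).1 _ (top_sound h1).1).1 rfl rfl h4

theorem rel9 (x : ℝ) (W : List (Bool × ℝ)) (y : ℝ) (M : List (Bool × ℝ)) (l r l' r' : LT ℝ)
    (h : Pc 9 W x l r) (h' : Pc 9 (M ++ (true, x) :: W) y l' r') : x < y := by
  obtain ⟨_, p, h1, _⟩ := h
  obtain ⟨h2, p', h3, h4⟩ := h'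
  have h5 := top_stable h1 (M ++ [(true, x)])
  rw [List.append_assoc, List.singleton_append, h3] at h5
  have h6 : p' = p := by simpa using h5
  subst h6
  have h7 := (List.pairwise_append.1 h2).2.1
  exact ((List.pairwise_cons.1 h7).1 _ (top_sound h1).2.1).2 rfl rfl h4

section
variable {X Y : ℕ → ℝ}

/-- **Every node has one of the ten colours.** -/
theorem colours {A : List ℕ} (hA : A.Pairwise (fun i j => X i < X j)) (hC : Cross X Y A 10)
    (t : LT ℝ) : ∀ V : List (Bool × ℝ × ℕ), (lf (rR V) ++ t.lv ++ lf (rL V)).Sublist A →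
      (∀ w ∈ V, Rel (slp X Y) w.2.1 [w.2.2] t) → Compat (slp X Y) t →
      AllN (fun p l r => ∃ c < 10, Pc c p.2 p.1 (unc l) (unc r))
        (ctx (V.map (fun w => (w.1, w.2.1))) t) := by
  induction t with
  | leaf i => intro V _ _ _; trivial
  | node u l r hl hr =>
    intro V hS hR hCp
    simp only [lv] at hS
    obtain ⟨i0, hi0⟩ := exists_mem l
    obtain ⟨j0, hj0⟩ := exists_mem r
    refine ⟨?_, ?_, ?_⟩
    · simp only [unc_ctx]
      by_contra hcon
      push Not at hcon
      have n0 := hcon 0 (by norm_num)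
      have n1 := hcon 1 (by norm_num)
      have n2 := hcon 2 (by norm_num)
      have n3 := hcon 3 (by norm_num)
      have n4 := hcon 4 (by norm_num)
      have n5 := hcon 5 (by norm_num)
      have n6 := hcon 6 (by norm_num)
      have n7 := hcon 7 (by norm_num)
      have n8 := hcon 8 (by norm_num)
      have n9 := hcon 9 (by norm_num)
      simp only [Pc] at n0 n1 n2 n3 n4 n5 n6 n7 n8 n9
      push Not at n0 n1 n2 n3 n4 n5
      have hneV : ∀ w ∈ V, w.2.1 ≠ u := fun w hw => (hR w hw).1.2.2.symm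
      have hneW : ∀ w ∈ V.map (fun w => (w.1, w.2.1)), w.2 ≠ u := by
        intro w hw
        obtain ⟨w', hw', rfl⟩ := List.mem_map.1 hw
        exact hneV w' hw'
      obtain ⟨w0, m0, b0, c0⟩ := n0
      obtain ⟨w1, m1, b1, c1⟩ := n1
      obtain ⟨w2, m2, b2, c2⟩ := n2
      obtain ⟨w3, m3, b3, c3⟩ := n3
      have c0 : u < w0.2 := lt_of_le_of_ne c0 (hneW _ m0).symm
      have c1 : w1.2 < u := lt_of_le_of_ne c1 (hneW _ m1)
      have c2 : u < w2.2 := lt_of_le_of_ne c2 (hneW _ m2).symm
      have c3 : w3.2 < u := lt_of_le_of_ne c3 (hneW _ m3)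
      obtain ⟨W1, i, p1, ⟨x1, y1, z1, z1'⟩, ⟨x2, y2, z2, z2'⟩, ⟨x3, y3, z3, z3'⟩,
        ⟨x4, y4, z4, z4'⟩⟩ := n4
      obtain ⟨W2, j, p2, ⟨x5, y5, z5, z5'⟩, ⟨x6, y6, z6, z6'⟩, ⟨x7, y7, z7, z7'⟩,
        ⟨x8, y8, z8, z8'⟩⟩ := n5
      have tR : ∀ {w : Bool × ℝ × ℕ}, w.1 = true → w.2.1 < u → lett u w = true := by
        intro w h1 h2; unfold lett; rw [if_pos h1]; exact decide_eq_true h2
      have fR : ∀ {w : Bool × ℝ × ℕ}, w.1 = true → u < w.2.1 → lett u w = false := by
        intro w h1 h2; unfold lett; rw [if_pos h1]; exact decide_eq_false (not_lt.2 h2.le)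
      have tL : ∀ {w : Bool × ℝ × ℕ}, w.1 = false → u < w.2.1 → lett u w = true := by
        intro w h1 h2; unfold lett; rw [if_neg (by rw [h1]; simp)]; exact decide_eq_true h2
      have fL : ∀ {w : Bool × ℝ × ℕ}, w.1 = false → w.2.1 < u → lett u w = false := by
        intro w h1 h2; unfold lett; rw [if_neg (by rw [h1]; simp)]
        exact decide_eq_false (not_lt.2 h2.le)
      obtain ⟨v0, d0, e0⟩ := List.mem_map.1 m0
      obtain ⟨v1, d1, e1⟩ := List.mem_map.1 m1
      obtain ⟨v2, d2, e2⟩ := List.mem_map.1 m2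
      obtain ⟨v3, d3, e3⟩ := List.mem_map.1 m3
      obtain ⟨s, s1, s2⟩ := word_cases
        (A := (rR V).map (lett u)) (Br := (rR W1.reverse).map (lett u))
        (Bl := (rL W1.reverse).map (lett u)) (Cr := (rR W2.reverse).map (lett u))
        (Cl := (rL W2.reverse).map (lett u)) (D := (rL V).map (lett u))
        ⟨List.mem_map.2 ⟨v3, mem_rR.2 ⟨d3, by rw [← e3] at b3; exact b3⟩,
            tR (by rw [← e3] at b3; exact b3) (by rw [← e3] at c3; exact c3)⟩,
          List.mem_map.2 ⟨v2, mem_rR.2 ⟨d2, by rw [← e2] at b2; exact b2⟩,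
            fR (by rw [← e2] at b2; exact b2) (by rw [← e2] at c2; exact c2)⟩⟩
        ⟨List.mem_map.2 ⟨x1, mem_rR.2 ⟨by simpa using y1, z1⟩, tR z1 z1'⟩,
          List.mem_map.2 ⟨x2, mem_rR.2 ⟨by simpa using y2, z2⟩, fR z2 z2'⟩⟩
        ⟨List.mem_map.2 ⟨x4, mem_rL.2 ⟨by simpa using y4, z4⟩, tL z4 z4'⟩,
          List.mem_map.2 ⟨x3, mem_rL.2 ⟨by simpa using y3, z3⟩, fL z3 z3'⟩⟩
        ⟨List.mem_map.2 ⟨x5, mem_rR.2 ⟨by simpa using y5, z5⟩, tR z5 z5'⟩,
          List.mem_map.2 ⟨x6, mem_rR.2 ⟨by simpa using y6, z6⟩, fR z6 z6'⟩⟩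
        ⟨List.mem_map.2 ⟨x8, mem_rL.2 ⟨by simpa using y8, z8⟩, tL z8 z8'⟩,
          List.mem_map.2 ⟨x7, mem_rL.2 ⟨by simpa using y7, z7⟩, fL z7 z7'⟩⟩
        ⟨List.mem_map.2 ⟨v0, mem_rL.2 ⟨d0, by rw [← e0] at b0; exact b0⟩,
            tL (by rw [← e0] at b0; exact b0) (by rw [← e0] at c0; exact c0)⟩,
          List.mem_map.2 ⟨v1, mem_rL.2 ⟨d1, by rw [← e1] at b1; exact b1⟩,
            fL (by rw [← e1] at b1; exact b1) (by rw [← e1] at c1; exact c1)⟩⟩
        (local_word hA hC p1 p2 hS hR hCp)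
      rw [← List.map_reverse, rR, List.reverse_reverse, List.pairwise_map,
        List.pairwise_filter] at s1
      rw [rL, List.pairwise_map, List.pairwise_filter] at s2
      have s3 := s1.and s2
      have lR : ∀ {w : Bool × ℝ × ℕ}, w.1 = true → w ∈ V → (lett u w = true ↔ w.2.1 < u) ∧
          (lett u w = false ↔ u < w.2.1) := by
        intro w h1 h2
        rcases lt_or_gt_of_ne (hneV w h2) with h3 | h3
        · have := tR h1 h3
          rw [this]; simp [h3, h3.le]
        · have := fR h1 h3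
          rw [this]; simp [h3, h3.le]
      have lL : ∀ {w : Bool × ℝ × ℕ}, w.1 = false → w ∈ V → (lett u w = true ↔ u < w.2.1) ∧
          (lett u w = false ↔ w.2.1 < u) := by
        intro w h1 h2
        rcases lt_or_gt_of_ne (hneV w h2) with h3 | h3
        · have := fL h1 h3
          rw [this]; simp [h3, h3.le]
        · have := tL h1 h3
          rw [this]; simp [h3, h3.le]
      cases s with
      | false =>
        have hN : NearM (V.map (fun w => (w.1, w.2.1))) u := by
          unfold NearM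
          rw [List.pairwise_map]
          refine s3.imp_of_mem ?_
          rintro w w' hw hw' ⟨k1, k2⟩
          constructor
          · intro g1 g2 g3
            exact (lL g1 hw).2.1 (k2 (by simpa using g1) (by simpa using g2) ((lL g2 hw').2.2 g3))
          · intro g1 g2 g3
            exact (lR g1 hw).2.1 (k1 g1 g2 ((lR g2 hw').2.2 g3))
        have h1 : w1 = (false, w1.2) := by rw [← b1]
        have h2 : w2 = (true, w2.2) := by rw [← b2]
        rw [h1] at m1
        rw [h2] at m2
        obtain ⟨p, hp⟩ := top_complete (R := fun a b => a < b) m1 m2 (c1.trans c2)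
        obtain ⟨q1, q2, q3⟩ := top_sound hp
        rcases lt_or_gt_of_ne (hneW _ q1) with h3 | h3
        · exact n6 ⟨hN, p, hp, h3⟩
        · exact n7 ⟨hN, p, hp, h3.trans q3⟩
      | true =>
        have hN : NearP (V.map (fun w => (w.1, w.2.1))) u := by
          unfold NearP
          rw [List.pairwise_map]
          refine s3.imp_of_mem ?_
          rintro w w' hw hw' ⟨k1, k2⟩
          constructor
          · intro g1 g2 g3
            exact (lL g1 hw).1.1 (k2 (by simpa using g1) (by simpa using g2) ((lL g2 hw').1.2 g3))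
          · intro g1 g2 g3
            exact (lR g1 hw).1.1 (k1 g1 g2 ((lR g2 hw').1.2 g3))
        have h1 : w0 = (false, w0.2) := by rw [← b0]
        have h2 : w3 = (true, w3.2) := by rw [← b3]
        rw [h1] at m0
        rw [h2] at m3
        obtain ⟨p, hp⟩ := top_complete (R := fun a b => b < a) m0 m3 (c3.trans c0)
        obtain ⟨q1, q2, q3⟩ := top_sound hp
        rcases lt_or_gt_of_ne (hneW _ q1) with h3 | h3
        · exact n9 ⟨hN, p, hp, q3.trans h3⟩
        · exact n8 ⟨hN, p, hp, h3⟩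
    · have h := hl ((false, u, j0) :: V) (by
          have e : lf (rR ((false, u, j0) :: V)) ++ l.lv ++ lf (rL ((false, u, j0) :: V)) =
              lf (rR V) ++ (l.lv ++ [j0]) ++ lf (rL V) := by
            simp [lf, rR, rL]
          rw [e]
          refine List.Sublist.trans ?_ hS
          exact ((List.Sublist.refl _).append ((List.Sublist.refl _).append
            (List.singleton_sublist.2 hj0))).append (List.Sublist.refl _)) (by
          intro w hw
          rcases List.mem_cons.1 hw with rfl | hw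
          · exact hCp.1.1.sub (Sub.refl l) (by intro z hz; simp at hz; rw [hz]; exact hj0)
          · exact (hR w hw).2.1) hCp.2.1
      exact h
    · have h := hr ((true, u, i0) :: V) (by
          have e : lf (rR ((true, u, i0) :: V)) ++ r.lv ++ lf (rL ((true, u, i0) :: V)) =
              lf (rR V) ++ ([i0] ++ r.lv) ++ lf (rL V) := by
            simp [lf, rR, rL]
          rw [e]
          refine List.Sublist.trans ?_ hS
          exact ((List.Sublist.refl _).append ((List.singleton_sublist.2 hi0).append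
            (List.Sublist.refl _))).append (List.Sublist.refl _)) (by
          intro w hw
          rcases List.mem_cons.1 hw with rfl | hw
          · exact hCp.1.2.sub (Sub.refl r) (by intro z hz; simp at hz; rw [hz]; exact hi0)
          · exact (hR w hw).2.2) hCp.2.2
      exact h

end

end Pool.Agent.H595K.Lb
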