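import Mathlib
import Pool.Agent.H595K.FCol

/-!
# Trees without mixed subtrees
-/

namespace Pool.Agent.H595K.Lb

open LT

/-- at most one label with the property `R` on every path -/
def Pu (R : ℝ → Prop) : LT ℝ → Prop :=
  LT.AllN (fun a l r => R a → AllL (fun b => ¬ R b) l ∧ AllL (fun b => ¬ R b) r)

theorem Pu.sub {R : ℝ → Prop} {c : ℝ → LT ℝ → LT ℝ → Prop} {t' t : LT ℝ} (hs : Sub c t' t)
    (h : Pu R t) : Pu R t' := by
  refine hs.allN h ?_
  rintro a l r l' r' _ h1 hl hr ha
  exact ⟨hl.allL (h1 ha).1, hr.allL (h1 ha).2⟩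

/-- mixed with respect to two properties -/
def MixG (R S : ℝ → Prop) (t : LT ℝ) : Prop :=
  ∃ W i, Pth t W i ∧ (∃ w ∈ W, w.1 = true ∧ R w.2.1) ∧ (∃ w ∈ W, w.1 = true ∧ S w.2.1) ∧
    (∃ w ∈ W, w.1 = false ∧ R w.2.1) ∧ (∃ w ∈ W, w.1 = false ∧ S w.2.1)

theorem MixG.symm {R S : ℝ → Prop} {t : LT ℝ} (h : MixG R S t) : MixG S R t := by
  obtain ⟨W, i, h1, h2, h3, h4, h5⟩ := h
  exact ⟨W, i, h1, h3, h2, h5, h4⟩

theorem not_allL {P : ℝ → Prop} {t : LT ℝ} (h : ¬ AllL P t) :
    ∃ a l r, ¬ P a ∧ Sub (fun _ _ _ => True) (node a l r) t := by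
  induction t with
  | leaf i => exact absurd trivial h
  | node a l r hl hr =>
    by_cases h1 : P a
    · by_cases h2 : AllL P l
      · have h3 : ¬ AllL P r := fun h3 => h ⟨h1, h2, h3⟩
        obtain ⟨a', b, c, k1, k2⟩ := hr h3
        exact ⟨a', b, c, k1, Sub.right a l k2⟩
      · obtain ⟨a', b, c, k1, k2⟩ := hl h2
        exact ⟨a', b, c, k1, Sub.left a r k2⟩
    · exact ⟨a, l, r, h1, Sub.refl _⟩

theorem path_of_not_pu {R : ℝ → Prop} {t : LT ℝ} (h : ¬ Pu R t) :
    ∃ W i, Pth t W i ∧ (∃ w ∈ W, w.1 = true ∧ R w.2.1) ∧ (∃ w ∈ W, w.1 = false ∧ R w.2.1) := by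
  obtain ⟨a, l, r, h1, h2, _⟩ := not_allN h
  push Not at h1
  obtain ⟨ha, h3⟩ := h1
  by_cases h4 : AllL (fun b => ¬ R b) l
  · have h5 := h3 h4
    obtain ⟨b, l2, r2, h6, h7⟩ := not_allL h5
    rw [not_not] at h6
    obtain ⟨W, i, hW⟩ := exists_pth l2
    obtain ⟨z, hz⟩ := exists_mem r2
    obtain ⟨z', hz'⟩ := exists_mem l
    have h8 : Pth (node a l (node b l2 r2)) ((true, a, z') :: (false, b, z) :: W) i :=
      Pth.right (Pth.left hW hz) hz'
    have h9 : Sub (fun _ _ _ => True) (node a l (node b l2 r2)) t :=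
      h2.trans (Sub.node trivial (Sub.refl _) h7)
    obtain ⟨W', k1, k2⟩ := Pth.sub h9 h8
    exact ⟨W', i, k1, ⟨(true, a, z'), k2 _ (by simp), rfl, ha⟩,
      ⟨(false, b, z), k2 _ (by simp), rfl, h6⟩⟩
  · obtain ⟨b, l2, r2, h6, h7⟩ := not_allL h4
    rw [not_not] at h6
    obtain ⟨W, i, hW⟩ := exists_pth r2
    obtain ⟨z, hz⟩ := exists_mem l2
    obtain ⟨z', hz'⟩ := exists_mem r
    have h8 : Pth (node a (node b l2 r2) r) ((false, a, z') :: (true, b, z) :: W) i :=
      Pth.left (Pth.right hW hz) hz'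
    have h9 : Sub (fun _ _ _ => True) (node a (node b l2 r2) r) t :=
      h2.trans (Sub.node trivial h7 (Sub.refl _))
    obtain ⟨W', k1, k2⟩ := Pth.sub h9 h8
    exact ⟨W', i, k1, ⟨(true, b, z), k2 _ (by simp), rfl, h6⟩,
      ⟨(false, a, z'), k2 _ (by simp), rfl, ha⟩⟩

theorem pure_aux {R S : ℝ → Prop} {n : ℕ} {t : LT ℝ} (hM : ¬ MixG R S t) (hn : Comp (n + 3) t)
    (hRS : AllL (fun a => R a ∨ S a) t) (hroot : ∀ a l r, t = node a l r → R a) :
    ∃ t', Sub (fun _ _ _ => True) t' t ∧ Comp n t' ∧ (Pu R t' ∨ Pu S t') := by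
  cases t with
  | leaf i => exact absurd hn (by simp [Comp])
  | node a l r =>
    have ha : R a := hroot a l r rfl
    cases l with
    | leaf i => exact absurd hn.1 (by simp [Comp])
    | node b l2 r2 =>
      obtain ⟨z0, hz0⟩ := exists_mem r
      rcases hRS.2.1.1 with hb | hb
      · -- the same property: go to the right
        cases r2 with
        | leaf i => exact absurd hn.1.2 (by simp [Comp])
        | node c l3 r3 =>
          refine ⟨r3, Sub.left _ _ (Sub.right _ _ (Sub.right _ _ (Sub.refl _))), hn.1.2.2, ?_⟩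
          right
          by_contra hcon
          obtain ⟨W, i, h1, ⟨w1, h2, h3⟩, ⟨w2, h4, h5⟩⟩ := path_of_not_pu hcon
          obtain ⟨z1, hz1⟩ := exists_mem l2
          obtain ⟨z2, hz2⟩ := exists_mem l3
          apply hM
          refine ⟨_, i, Pth.left (Pth.right (Pth.right h1 hz2) hz1) hz0,
            ⟨(true, b, z1), by simp, rfl, hb⟩, ⟨w1, by simp [h2], h3⟩,
            ⟨(false, a, z0), by simp, rfl, ha⟩, ⟨w2, by simp [h4], h5⟩⟩
      · cases l2 with
        | leaf i => exact absurd hn.1.1 (by simp [Comp])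
        | node c l3 r3 =>
          refine ⟨r3, Sub.left _ _ (Sub.left _ _ (Sub.right _ _ (Sub.refl _))), hn.1.1.2, ?_⟩
          obtain ⟨z1, hz1⟩ := exists_mem r2
          obtain ⟨z2, hz2⟩ := exists_mem l3
          rcases hRS.2.1.2.1.1 with hc | hc
          · right
            by_contra hcon
            obtain ⟨W, i, h1, ⟨w1, h2, h3⟩, _⟩ := path_of_not_pu hcon
            apply hM
            refine ⟨_, i, Pth.left (Pth.left (Pth.right h1 hz2) hz1) hz0,
              ⟨(true, c, z2), by simp, rfl, hc⟩, ⟨w1, by simp [h2], h3⟩,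
              ⟨(false, a, z0), by simp, rfl, ha⟩, ⟨(false, b, z1), by simp, rfl, hb⟩⟩
          · left
            by_contra hcon
            obtain ⟨W, i, h1, ⟨w1, h2, h3⟩, _⟩ := path_of_not_pu hcon
            apply hM
            refine ⟨_, i, Pth.left (Pth.left (Pth.right h1 hz2) hz1) hz0,
              ⟨w1, by simp [h2], h3⟩, ⟨(true, c, z2), by simp, rfl, hc⟩,
              ⟨(false, a, z0), by simp, rfl, ha⟩, ⟨(false, b, z1), by simp, rfl, hb⟩⟩

theorem pure_descend {x : ℝ} {n : ℕ} {t : LT ℝ} (hM : ¬ Mix x t) (hn : Comp (n + 3) t)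
    (hne : AllL (fun a => a ≠ x) t) :
    ∃ t', Sub (fun _ _ _ => True) t' t ∧ Comp n t' ∧
      (Pu (fun a => a < x) t' ∨ Pu (fun a => x < a) t') := by
  have h1 : ¬ MixG (fun a => a < x) (fun a => x < a) t := hM
  have h2 : ¬ MixG (fun a => x < a) (fun a => a < x) t := fun h => h1 h.symm
  cases t with
  | leaf i => exact absurd hn (by simp [Comp])
  | node a l r =>
    rcases lt_or_gt_of_ne hne.1 with h | h
    · refine pure_aux h1 hn (hne.imp (fun a ha => lt_or_gt_of_ne ha)) ?_
      rintro a' l' r' h3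
      injection h3 with h3
      rw [← h3]; exact h
    · obtain ⟨t', k1, k2, k3⟩ := pure_aux h2 hn (hne.imp (fun a ha => (lt_or_gt_of_ne ha).symm)) (by
        rintro a' l' r' h3
        injection h3 with h3
        rw [← h3]; exact h)
      exact ⟨t', k1, k2, k3.symm⟩

theorem comp_drop {α : Type} {a : ℕ} : ∀ (b : ℕ) {t : LT α}, Comp (a + b) t →
    ∃ t', Sub (fun _ _ _ => True) t' t ∧ Comp a t' := by
  intro b
  induction b with
  | zero => intro t h; exact ⟨t, Sub.refl _, h⟩
  | succ b ih =>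
    intro t h
    cases t with
    | leaf i => exact absurd h (by simp [Comp])
    | node x l r =>
      obtain ⟨t', k1, k2⟩ := ih h.1
      exact ⟨t', Sub.left _ _ k1, k2⟩

theorem comp_le' {α : Type} {a n : ℕ} (h : a ≤ n) {t : LT α} (hn : Comp n t) :
    ∃ t', Sub (fun _ _ _ => True) t' t ∧ Comp a t' := by
  obtain ⟨b, rfl⟩ := Nat.exists_eq_add_of_le h
  exact comp_drop b hn

theorem pure_select (n : ℕ) : ∀ {t : LT ℝ}, AllN (fun x l _ => ¬ Mix x l) t → Dst t →
    Comp (4 * n) t → ∃ t', Sub (fun _ _ _ => True) t' t ∧ Comp n t' ∧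
      AllN (fun x l _ => Pu (fun a => a < x) l ∨ Pu (fun a => x < a) l) t' := by
  induction n with
  | zero =>
    intro t _ _ _
    obtain ⟨i, hi⟩ := exists_leaf t
    exact ⟨leaf i, hi, trivial, trivial⟩
  | succ n ih =>
    intro t hM hd hn
    have e : 4 * (n + 1) = 4 * n + 3 + 1 := by ring
    rw [e] at hn
    cases t with
    | leaf i => exact absurd hn (by simp [Comp])
    | node x l r =>
      obtain ⟨l1, a1, a2, a3⟩ := pure_descend hM.1 hn.1 hd.1.1
      have hMs : ∀ {s' s : LT ℝ}, Sub (fun _ _ _ => True) s' s →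
          AllN (fun x l _ => ¬ Mix x l) s → AllN (fun x l _ => ¬ Mix x l) s' := by
        intro s' s hs h
        refine hs.allN h ?_
        intro x l r l' r' _ h1 hl _ h2
        exact h1 (h2.sub hl)
      have hds : ∀ {s' s : LT ℝ}, Sub (fun _ _ _ => True) s' s → Dst s → Dst s' := by
        intro s' s hs h
        refine hs.allN h ?_
        rintro x l r l' r' _ ⟨h1, h2⟩ hl hr
        exact ⟨hl.allL h1, hr.allL h2⟩
      obtain ⟨l2, b1, b2, b3⟩ := ih (hMs a1 hM.2.1) (hds a1 hd.2.1) a2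
      obtain ⟨r1, c1, c2⟩ := comp_drop 3 hn.2
      obtain ⟨r2, d1, d2, d3⟩ := ih (hMs c1 hM.2.2) (hds c1 hd.2.2) c2
      refine ⟨node x l2 r2, Sub.node trivial (a1.trans b1) (c1.trans d1), ⟨b2, d2⟩, ?_, b3, d3⟩
      rcases a3 with h | h
      · exact Or.inl (h.sub b1)
      · exact Or.inr (h.sub b1)

theorem sub_neg {t' t : LT ℝ} (h : Sub (fun _ _ _ => True) t' t) :
    Sub (fun _ _ _ => True) (neg t') (neg t) := by
  induction h with
  | leaf i => exact Sub.leaf i
  | left a r _ ih => exact Sub.left _ _ ih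
  | right a l _ ih => exact Sub.right _ _ ih
  | node hc _ _ ihl ihr => exact Sub.node trivial ihl ihr

theorem sub_mir {α : Type} {t' t : LT α} (h : Sub (fun _ _ _ => True) t' t) :
    Sub (fun _ _ _ => True) (mir t') (mir t) := by
  induction h with
  | leaf i => exact Sub.leaf i
  | left a r _ ih => exact Sub.right _ _ ih
  | right a l _ ih => exact Sub.left _ _ ih
  | node hc _ _ ihl ihr => exact Sub.node trivial ihr ihl

theorem neg_neg' (t : LT ℝ) : neg (neg t) = t := by
  induction t with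
  | leaf i => rfl
  | node x l r hl hr => simp only [neg, hl, hr, neg_neg]

/-- a good subtree -/
def Gd (E : ℕ) (t : LT ℝ) : Prop :=
  ∃ t', Sub (fun _ _ _ => True) t' t ∧ Comp (E + 1) t' ∧ (LG t' ∨ LB t' ∨ RG t' ∨ RB t')

theorem Gd.sub {E : ℕ} {t' t : LT ℝ} (hs : Sub (fun _ _ _ => True) t' t) (h : Gd E t') :
    Gd E t := by
  obtain ⟨s, h1, h2, h3⟩ := h
  exact ⟨s, hs.trans h1, h2, h3⟩

theorem Gd.neg {E : ℕ} {t : LT ℝ} (h : Gd E (neg t)) : Gd E t := by
  obtain ⟨s, h1, h2, h3⟩ := h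
  refine ⟨Lb.neg s, ?_, comp_neg h2, ?_⟩
  · have := sub_neg h1
    rwa [neg_neg'] at this
  · rcases h3 with h | h | h | h
    · right; left
      refine allN_neg h ?_
      intro x l r hl
      exact allL_neg hl (fun u hu => by linarith)
    · left
      refine allN_neg h ?_
      intro x l r hl
      exact allL_neg hl (fun u hu => by linarith)
    · right; right; right
      refine allN_neg h ?_
      intro x l r hl
      exact allL_neg hl (fun u hu => by linarith)
    · right; right; left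
      refine allN_neg h ?_
      intro x l r hl
      exact allL_neg hl (fun u hu => by linarith)

theorem Gd.mir {E : ℕ} {t : LT ℝ} (h : Gd E (mir t)) : Gd E t := by
  obtain ⟨s, h1, h2, h3⟩ := h
  refine ⟨Lb.mir s, ?_, comp_mir h2, ?_⟩
  · have := sub_mir h1
    rwa [mir_mir] at this
  · rcases h3 with h | h | h | h
    · right; right; left
      exact allN_mir h (fun x l r hl => allL_mir hl)
    · right; right; right
      exact allN_mir h (fun x l r hl => allL_mir hl)
    · left
      exact allN_mir h (fun x l r hl => allL_mir hl)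
    · right; left
      exact allN_mir h (fun x l r hl => allL_mir hl)

theorem gd_of_pu {E n : ℕ} {t : LT ℝ} (h : AllN (fun x l _ => Pu (fun a => a < x) l) t)
    (hd : Dst t) (hn : Comp n t) (hE : 4 * E < n) : Gd E t := by
  rcases exists_good_sub (y := 2) (D := E) hd hn (by omega) with ⟨t', h1, h2, h3⟩ |
    ⟨t', h1, h2, h3⟩ | ⟨t', h1, h2, h3⟩
  · exfalso
    have h4 : AllN (fun x l _ => Pu (fun a => a < x) l) t' :=
      h1.allN h (fun x l r l' r' _ k hl _ => k.sub hl)
    cases t' with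
    | leaf i => exact absurd h2 (by simp [Comp])
    | node x l r =>
      cases l with
      | leaf i => exact absurd h2.1 (by simp [Comp])
      | node a l2 r2 =>
        cases l2 with
        | leaf i => exact absurd h2.1.1 (by simp [Comp])
        | node b l3 r3 => exact ((h4.1.1 h3.1.1).1).1 h3.1.2.1.1
  · exact ⟨t', h1, h2, Or.inl h3⟩
  · exact ⟨t', h1, h2, Or.inr (Or.inr (Or.inl h3))⟩

theorem dst_sub {c : ℝ → LT ℝ → LT ℝ → Prop} {s' s : LT ℝ} (hs : Sub c s' s) (h : Dst s) :
    Dst s' := by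
  refine hs.allN h ?_
  rintro x l r l' r' _ ⟨h1, h2⟩ hl hr
  exact ⟨hl.allL h1, hr.allL h2⟩

theorem pu_neg {t : LT ℝ} {x : ℝ} (h : Pu (fun a => x < a) t) : Pu (fun a => a < -x) (neg t) := by
  refine allN_neg h ?_
  intro a l r h1 ha
  obtain ⟨h2, h3⟩ := h1 (by linarith)
  exact ⟨allL_neg h2 (fun u hu hc => hu (by linarith)),
    allL_neg h3 (fun u hu hc => hu (by linarith))⟩

theorem dst_neg {t : LT ℝ} (h : Dst t) : Dst (neg t) := by
  refine allN_neg h ?_
  rintro a l r ⟨h1, h2⟩
  exact ⟨allL_neg h1 (fun u hu hc => hu (by linarith)),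
    allL_neg h2 (fun u hu hc => hu (by linarith))⟩

theorem dst_mir {t : LT ℝ} (h : Dst t) : Dst (mir t) := by
  refine allN_mir h ?_
  rintro a l r ⟨h1, h2⟩
  exact ⟨allL_mir h2, allL_mir h1⟩

/-- **Trees without mixed left subtrees.** -/
theorem gd_of_not_mix {E n : ℕ} {t : LT ℝ} (h : AllN (fun x l _ => ¬ Mix x l) t)
    (hd : Dst t) (hn : Comp n t) (hE : 32 * E + 4 ≤ n) : Gd E t := by
  classical
  obtain ⟨t0, z1, z2⟩ := comp_le' hE hn
  have h0 : AllN (fun x l _ => ¬ Mix x l) t0 :=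
    z1.allN h (fun x l r l' r' _ k hl _ hm => k (hm.sub hl))
  obtain ⟨t1, a1, a2, a3⟩ := pure_select (8 * E + 1) h0 (dst_sub z1 hd)
    (by rw [show 4 * (8 * E + 1) = 32 * E + 4 by ring]; exact z2)
  have hd1 := dst_sub a1 (dst_sub z1 hd)
  obtain ⟨c, hc, t2, b1, b2⟩ := exists_color
    (fun x l _ => if Pu (fun a => a < x) l then 0 else 1) (m := 2) (D := 4 * E)
    (t := t1) (AllN.of_forall (fun x l r => by split_ifs <;> omega) t1) a2 (by omega)
  have hd2 := dst_sub b1 hd1
  refine Gd.sub (z1.trans (a1.trans b1.top)) ?_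
  interval_cases c
  · have h2 : AllN (fun x l _ => Pu (fun a => a < x) l) t2 := by
      refine b1.allN a3 ?_
      intro x l r l' r' hcol _ hl _
      by_cases hp : Pu (fun a => a < x) l
      · exact hp.sub hl
      · rw [if_neg hp] at hcol; omega
    exact gd_of_pu h2 hd2 b2 (by omega)
  · have h2 : AllN (fun x l _ => Pu (fun a => x < a) l) t2 := by
      refine b1.allN a3 ?_
      intro x l r l' r' hcol h3 hl _
      by_cases hp : Pu (fun a => a < x) l
      · rw [if_pos hp] at hcol; omega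
      · exact (h3.resolve_left hp).sub hl
    apply Gd.neg
    refine gd_of_pu (n := 4 * E + 1) ?_ (dst_neg hd2) (comp_neg b2) (by omega)
    exact allN_neg h2 (fun x l r k => pu_neg k)

/-- **A good subtree of linear depth.** -/
theorem exists_gd {X Y : ℕ → ℝ} {t : LT ℝ} {n E : ℕ}
    (hx : t.lv.Pairwise (fun i j => X i < X j))
    (hC : Cross X Y t.lv 10) (hCp : Compat (slp X Y) t) (hn : Comp n t)
    (hE : 320 * E + 31 ≤ n) : Gd E t := by
  classical
  have h1 := colours hx hC t [] (by simp [lf, rR, rL]) (by simp) hCp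
  simp only [List.map_nil] at h1
  have hcx := cx_ctx t []
  set T := ctx [] t with hT
  have hnT : Comp n T := comp_ctx _ hn
  let ρ : ℝ × List (Bool × ℝ) → LT (ℝ × List (Bool × ℝ)) → LT (ℝ × List (Bool × ℝ)) → ℕ :=
    fun p l r => if h : ∃ c < 10, Pc c p.2 p.1 (unc l) (unc r) then h.choose else 10
  have hρ : ∀ p l r, (∃ c < 10, Pc c p.2 p.1 (unc l) (unc r)) →
      ρ p l r < 10 ∧ Pc (ρ p l r) p.2 p.1 (unc l) (unc r) := by
    intro p l r h
    have e : ρ p l r = h.choose := dif_pos h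
    rw [e]
    exact h.choose_spec
  obtain ⟨c, hc, T', a1, a2⟩ := exists_color ρ (m := 10) (D := 32 * E + 3)
    (h1.imp (fun p l r h => (hρ p l r h).1)) hnT (by omega)
  have hs : Sub (fun _ _ _ => True) (unc T') t := by
    have := sub_unc a1
    rwa [hT, unc_ctx] at this
  have hcx' := hcx.sub a1
  have hcomp := comp_unc a2
  have hd' := dst_sub hs hCp.dst
  have hQ : AllN (fun p l' r' => ∃ L R, Sub (fun _ _ _ => True) (unc l') L ∧
      Sub (fun _ _ _ => True) (unc r') R ∧ Pc c p.2 p.1 L R) T' := by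
    refine a1.allN h1 ?_
    intro p l r l' r' hcol h2 hl hr
    refine ⟨unc l, unc r, sub_unc hl, sub_unc hr, ?_⟩
    have h3 := (hρ p l r h2).2
    rwa [hcol] at h3
  obtain ⟨T'', e1, e2⟩ := comp_le' (show E + 1 ≤ 32 * E + 3 + 1 by omega) hcomp
  have fin : (LG (unc T') ∨ LB (unc T') ∨ RG (unc T') ∨ RB (unc T')) → Gd E t := by
    intro h
    refine ⟨T'', hs.trans e1, e2, ?_⟩
    rcases h with h | h | h | h
    · exact Or.inl (h.sub e1)
    · right; left
      refine e1.allN h ?_
      intro x l r l' r' _ h1 hl _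
      exact hl.allL h1
    · right; right; left
      refine e1.allN h ?_
      intro x l r l' r' _ h1 _ hr
      exact hr.allL h1
    · right; right; right
      refine e1.allN h ?_
      intro x l r l' r' _ h1 _ hr
      exact hr.allL h1
  interval_cases c
  · apply fin; left
    refine left_of (P := fun W x => Pc 0 W x (leaf 0) (leaf 0)) (R := fun x u => x < u) hcx'
      (allL_of_allN (hQ.imp (fun p l r ⟨L, R, _, _, h⟩ => h))) ?_
    intro x W y M _ h
    exact h (false, x) (by simp) rfl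
  · apply fin; right; left
    refine left_of (P := fun W x => Pc 1 W x (leaf 0) (leaf 0)) (R := fun x u => u < x) hcx'
      (allL_of_allN (hQ.imp (fun p l r ⟨L, R, _, _, h⟩ => h))) ?_
    intro x W y M _ h
    exact h (false, x) (by simp) rfl
  · apply fin; right; right; left
    refine right_of (P := fun W x => Pc 2 W x (leaf 0) (leaf 0)) (R := fun x u => x < u) hcx'
      (allL_of_allN (hQ.imp (fun p l r ⟨L, R, _, _, h⟩ => h))) ?_
    intro x W y M _ h
    exact h (true, x) (by simp) rfl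
  · apply fin; right; right; right
    refine right_of (P := fun W x => Pc 3 W x (leaf 0) (leaf 0)) (R := fun x u => u < x) hcx'
      (allL_of_allN (hQ.imp (fun p l r ⟨L, R, _, _, h⟩ => h))) ?_
    intro x W y M _ h
    exact h (true, x) (by simp) rfl
  · refine Gd.sub hs (gd_of_not_mix ?_ hd' hcomp (by omega))
    refine allN_unc hQ ?_
    rintro p l r ⟨L, R, h2, _, h3⟩ h4
    exact h3 (h4.sub h2)
  · refine Gd.sub hs (Gd.mir (gd_of_not_mix ?_ (dst_mir hd') (comp_mir hcomp) (by omega)))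
    refine allN_mir (P := fun x _ r => ¬ Mix x r) ?_ ?_
    · refine allN_unc hQ ?_
      rintro p l r ⟨L, R, _, h2, h3⟩ h4
      exact h3 (h4.sub h2)
    · intro x l r h2 h3
      have h4 := h3.mir
      rw [mir_mir] at h4
      exact h2 h4
  · apply fin; left
    refine left_of (P := fun W x => Pc 6 W x (leaf 0) (leaf 0)) (R := fun x u => x < u) hcx'
      (allL_of_allN (hQ.imp (fun p l r ⟨L, R, _, _, h⟩ => h))) ?_
    intro x W y M h h'
    exact rel6 x W y M _ _ _ _ h h'
  · apply fin; right; right; right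
    refine right_of (P := fun W x => Pc 7 W x (leaf 0) (leaf 0)) (R := fun x u => u < x) hcx'
      (allL_of_allN (hQ.imp (fun p l r ⟨L, R, _, _, h⟩ => h))) ?_
    intro x W y M h h'
    exact rel7 x W y M _ _ _ _ h h'
  · apply fin; right; left
    refine left_of (P := fun W x => Pc 8 W x (leaf 0) (leaf 0)) (R := fun x u => u < x) hcx'
      (allL_of_allN (hQ.imp (fun p l r ⟨L, R, _, _, h⟩ => h))) ?_
    intro x W y M h h'
    exact rel8 x W y M _ _ _ _ h h'
  · apply fin; right; right; left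
    refine right_of (P := fun W x => Pc 9 W x (leaf 0) (leaf 0)) (R := fun x u => x < u) hcx'
      (allL_of_allN (hQ.imp (fun p l r ⟨L, R, _, _, h⟩ => h))) ?_
    intro x W y M h h'
    exact rel9 x W y M _ _ _ _ h h'

end Pool.Agent.H595K.Lb
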