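import Mathlib
import Pool.Agent.H595K.Core

/-!
# The lower bound
-/

namespace Pool.Agent.H595K

open Finset

theorem pow_big {Y : ℕ} (hY : 20 ≤ Y) : 8 * (Y + 1) ^ 3 + 1 ≤ 2 ^ Y := by
  induction Y, hY using Nat.le_induction with
  | base => norm_num
  | succ Y hY ih =>
    have h0 : 2 ^ (Y + 1) = 2 ^ Y * 2 := pow_succ 2 Y
    have : (Y + 1 + 1) ^ 3 ≤ 2 * (Y + 1) ^ 3 := by nlinarith [sq_nonneg (Y : ℤ)]
    omega

theorem lower_main {k j : ℕ} (hk : 3 ≤ k) (hj : 3 ≤ j) {P : Finset (ℝ × ℝ)} (hP : KConvexSet k P)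
    {L D W u : ℝ} (hL : L = Real.log P.card) (hL1 : 1 ≤ L)
    (hD : D = Real.log k + Real.log L) (hW : W = L / D) (hu : u ^ 3 = W) (hu80 : 80 < u) :
    ∃ Q ⊆ P, KConvexSet j Q ∧ Q.card = 2 ^ ⌊u / 4⌋₊ + 1 := by
  have hk3 : (3 : ℝ) ≤ k := by exact_mod_cast hk
  have hlogk : 1 ≤ Real.log k := by
    have h1 : Real.exp 1 ≤ k := by have := Real.exp_one_lt_d9; linarith
    have h2 := Real.log_le_log (Real.exp_pos 1) h1
    rwa [Real.log_exp] at h2
  have hlogL : 0 ≤ Real.log L := Real.log_nonneg hL1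
  have hD1 : 1 ≤ D := by rw [hD]; linarith
  have hWL : W ≤ L := by
    rw [hW]
    exact div_le_self (by linarith) hD1
  have hWD : W * D = L := by
    rw [hW]; field_simp
  have hW512 : 512000 < W := by
    rw [← hu]
    have : (80 : ℝ) ^ 3 < u ^ 3 := pow_lt_pow_left₀ hu80 (by norm_num) (by norm_num)
    norm_num at this
    exact this
  set s := ⌊W / 8⌋₊ with hs
  set Y := ⌊u / 4⌋₊ with hYdef
  have s1 : (s : ℝ) ≤ W / 8 := Nat.floor_le (by linarith)
  have s2 : W / 8 < s + 1 := Nat.lt_floor_add_one _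
  have y1 : (Y : ℝ) ≤ u / 4 := Nat.floor_le (by linarith)
  have y2 : u / 4 < Y + 1 := Nat.lt_floor_add_one _
  have hY20 : 20 ≤ Y := by
    apply Nat.le_floor
    push_cast
    linarith
  have hs2 : 2 ≤ s := by
    apply Nat.le_floor
    push_cast
    linarith
  have hY3 : 4 * (Y * (Y * Y)) + 1 < s := by
    have h1 : (Y : ℝ) ^ 3 ≤ (u / 4) ^ 3 := pow_le_pow_left₀ (by positivity) y1 3
    have h2 : (u / 4) ^ 3 = W / 64 := by rw [div_pow, hu]; norm_num
    have h3 : (4 * ((Y : ℝ) * (Y * Y)) + 1) < s := by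
      have : (Y : ℝ) * (Y * Y) = (Y : ℝ) ^ 3 := by ring
      rw [this]
      linarith
    exact_mod_cast h3
  have hsY : s + 1 ≤ 2 ^ Y := by
    have h1 : u < 4 * (Y + 1) := by linarith
    have h2 : W < (4 * ((Y : ℝ) + 1)) ^ 3 := by
      rw [← hu]
      exact pow_lt_pow_left₀ h1 (by linarith) (by norm_num)
    have h3 : (s : ℝ) < 8 * ((Y : ℝ) + 1) ^ 3 := by
      calc (s : ℝ) ≤ W / 8 := s1
        _ < (4 * ((Y : ℝ) + 1)) ^ 3 / 8 := by linarith
        _ = 8 * ((Y : ℝ) + 1) ^ 3 := by ring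
    have h4 : s < 8 * (Y + 1) ^ 3 := by exact_mod_cast h3
    have := pow_big hY20
    omega
  set G := 2 * (s * (2 * k + 2)) with hG
  have hG0 : 0 < G := by
    rw [hG]
    have : 0 < s := by omega
    positivity
  have hGr : (G : ℝ) ≤ L * k := by
    have h1 : (G : ℝ) = 4 * (k + 1) * s := by rw [hG]; push_cast; ring
    rw [h1]
    calc 4 * ((k : ℝ) + 1) * s ≤ 4 * (k + 1) * (W / 8) := by
          apply mul_le_mul_of_nonneg_left s1; positivity
      _ = W * ((k + 1) / 2) := by ring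
      _ ≤ L * k := mul_le_mul hWL (by linarith) (by positivity) (by linarith)
  have hlogG : Real.log G ≤ D := by
    have h1 : Real.log G ≤ Real.log (L * k) :=
      Real.log_le_log (by exact_mod_cast hG0) hGr
    rw [Real.log_mul (by linarith) (by linarith)] at h1
    rw [hD]; linarith
  have hlogG0 : 0 ≤ Real.log G := Real.log_nonneg (by exact_mod_cast hG0)
  have hn : G ^ s * G ^ s < P.card := by
    have hcard : (0 : ℝ) < P.card := by
      by_contra hc
      have : (P.card : ℝ) = 0 := le_antisymm (not_lt.1 hc) (Nat.cast_nonneg _)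
      rw [this, Real.log_zero] at hL
      linarith
    have h1 : Real.log ((G : ℝ) ^ s * (G : ℝ) ^ s) < Real.log P.card := by
      rw [← pow_add, Real.log_pow, ← hL]
      push_cast
      have h2 : ((s : ℝ) + s) * Real.log G ≤ (W / 8 + W / 8) * D :=
        mul_le_mul (by linarith) hlogG hlogG0 (by linarith)
      have h3 : (W / 8 + W / 8) * D = L / 4 := by rw [← hWD]; ring
      linarith
    have h2 : (G : ℝ) ^ s * (G : ℝ) ^ s < P.card := by
      have hpos : (0 : ℝ) < (G : ℝ) ^ s * (G : ℝ) ^ s := by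
        have : (0 : ℝ) < G := by exact_mod_cast hG0
        positivity
      exact (Real.log_lt_log_iff hpos hcard).1 h1
    exact_mod_cast h2
  obtain ⟨Q, q1, q2, q3⟩ := core hP hs2 hn (le_of_eq hG.symm) hY3 hsY
  exact ⟨Q, q1, q2.mono hj, q3⟩

theorem lower_bound (k j n : ℕ) (hk : 3 ≤ k) (hj : 3 ≤ j) (hn : 3 ≤ n) :
    Real.exp (1 / 80 * (Real.log n / (Real.log k + Real.log (Real.log n))) ^ ((1 : ℝ) / 3)) ≤
      f k j n := by
  set L := Real.log n with hL
  have hn3 : (3 : ℝ) ≤ n := by exact_mod_cast hn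
  have hk3 : (3 : ℝ) ≤ k := by exact_mod_cast hk
  have hL1 : 1 ≤ L := by
    have h1 : Real.exp 1 ≤ n := by have := Real.exp_one_lt_d9; linarith
    have h2 := Real.log_le_log (Real.exp_pos 1) h1
    rwa [Real.log_exp] at h2
  have hlogk : 1 ≤ Real.log k := by
    have h1 : Real.exp 1 ≤ k := by have := Real.exp_one_lt_d9; linarith
    have h2 := Real.log_le_log (Real.exp_pos 1) h1
    rwa [Real.log_exp] at h2
  have hlogL : 0 ≤ Real.log L := Real.log_nonneg hL1
  set D := Real.log k + Real.log L with hD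
  have hD1 : 1 ≤ D := by linarith
  set W := L / D with hW
  have hW0 : 0 ≤ W := by positivity
  set u := W ^ ((1 : ℝ) / 3) with hu
  have hu0 : 0 ≤ u := Real.rpow_nonneg hW0 _
  have hu3 : u ^ 3 = W := by
    rw [hu, ← Real.rpow_natCast, ← Real.rpow_mul hW0]
    norm_num
  rcases le_or_gt u 80 with h | h
  · have h1 : 3 ≤ f k j n := by
      apply le_f hk hn
      intro P hP1 hP2
      obtain ⟨Q, q1, q2, q3⟩ := triangle hP2.1 (by omega)
      exact ⟨Q, q1, q2.mono hj, q3⟩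
    have h2 : Real.exp (1 / 80 * u) ≤ Real.exp 1 := Real.exp_le_exp.2 (by linarith)
    have h3 := Real.exp_one_lt_d9
    have h4 : (3 : ℝ) ≤ f k j n := by exact_mod_cast h1
    linarith
  · have h1 : 2 ^ ⌊u / 4⌋₊ + 1 ≤ f k j n := by
      apply le_f hk hn
      intro P hP1 hP2
      exact lower_main hk hj hP2 (by rw [hP1]) hL1 hD hW hu3 h
    have h2 : ((2 : ℝ) ^ ⌊u / 4⌋₊ + 1) ≤ f k j n := by exact_mod_cast h1
    have h3 : (2 : ℝ) ^ ⌊u / 4⌋₊ = Real.exp (⌊u / 4⌋₊ * Real.log 2) := by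
      rw [← Real.exp_log (show (0 : ℝ) < 2 ^ ⌊u / 4⌋₊ by positivity), Real.log_pow]
    have h4 : 1 / 80 * u ≤ ⌊u / 4⌋₊ * Real.log 2 := by
      have h5 := Nat.lt_floor_add_one (u / 4)
      have h6 := Real.log_two_gt_d9
      have h7 : (u / 4 - 1) * 0.69 ≤ (⌊u / 4⌋₊ : ℝ) * Real.log 2 :=
        mul_le_mul (by linarith) (by linarith) (by norm_num) (by positivity)
      linarith
    have h5 := Real.exp_le_exp.2 h4
    rw [← h3] at h5
    linarith

end Pool.Agent.H595K
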