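import Mathlib
import Pool.Agent.H595K.Core2
import Pool.Agent.H595K.Lower

/-!
# The lower bound, second version
-/

namespace Pool.Agent.H595K

open Finset

theorem log_le_mul {k : ℕ} (hk : 3 ≤ k) : Real.log ((320 * (k + 1) : ℕ) : ℝ) ≤ 7 * Real.log k := by
  have h1 : 320 * (k + 1) ≤ k ^ 7 := by
    have h3 : 3 ^ 6 ≤ k ^ 6 := Nat.pow_le_pow_left hk 6
    have h4 : k ^ 7 = k ^ 6 * k := by ring
    rw [h4]
    nlinarith
  have h2 : ((320 * (k + 1) : ℕ) : ℝ) ≤ (k : ℝ) ^ 7 := by exact_mod_cast h1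
  have h3 : Real.log ((320 * (k + 1) : ℕ) : ℝ) ≤ Real.log ((k : ℝ) ^ 7) :=
    Real.log_le_log (by positivity) h2
  rw [Real.log_pow] at h3
  exact_mod_cast h3

/-- common part of the two estimates -/
theorem lower_aux {k n σ Y : ℕ} (hk : 3 ≤ k) (hn : 3 ≤ n) (hσ : 1 ≤ σ) (hY1 : 1 ≤ Y)
    (hσ2 : (σ : ℝ) ≤ Real.log n / Real.log k / 600)
    (hY : 2 * (2 * ((2 * k + 3) * Y) + 1) * (2 * ((2 * k + 3) * Y) + 1) < 7 * σ ∨
      (4 * (Y * (Y * Y)) + 1 < 29 * σ ∧ 40 * σ + 1 ≤ 2 ^ Y)) {j : ℕ} (hj : 3 ≤ j) :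
    2 ^ Y + 1 ≤ f k j n := by
  apply le_f hk hn
  intro P hP1 hP2
  have hk3 : (3 : ℝ) ≤ k := by exact_mod_cast hk
  have hn3 : (3 : ℝ) ≤ n := by exact_mod_cast hn
  have hlogk : 1 ≤ Real.log k := by
    have h1 : Real.exp 1 ≤ k := by have := Real.exp_one_lt_d9; linarith
    have h2 := Real.log_le_log (Real.exp_pos 1) h1
    rwa [Real.log_exp] at h2
  have hlogn : 1 ≤ Real.log n := by
    have h1 : Real.exp 1 ≤ n := by have := Real.exp_one_lt_d9; linarith
    have h2 := Real.log_le_log (Real.exp_pos 1) h1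
    rwa [Real.log_exp] at h2
  have h1 : (320 * (k + 1)) ^ (40 * σ) * (320 * (k + 1)) ^ (40 * σ) < P.card := by
    rw [hP1]
    have h2 : Real.log ((((320 * (k + 1) : ℕ) : ℝ)) ^ (40 * σ) *
        (((320 * (k + 1) : ℕ) : ℝ)) ^ (40 * σ)) < Real.log n := by
      rw [← pow_add, Real.log_pow]
      push_cast
      have h3 := log_le_mul hk
      push_cast at h3
      have h4 : (40 * (σ : ℝ) + 40 * σ) * Real.log (320 * ((k : ℝ) + 1)) ≤
          (40 * (σ : ℝ) + 40 * σ) * (7 * Real.log k) :=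
        mul_le_mul_of_nonneg_left h3 (by positivity)
      have h5 : (σ : ℝ) * Real.log k ≤ Real.log n / 600 := by
        calc (σ : ℝ) * Real.log k ≤ Real.log n / Real.log k / 600 * Real.log k :=
              mul_le_mul_of_nonneg_right hσ2 (by linarith)
          _ = Real.log n / 600 := by
            have : Real.log k ≠ 0 := by linarith
            field_simp
      have h6 : (40 * (σ : ℝ) + 40 * σ) * (7 * Real.log k) = 560 * ((σ : ℝ) * Real.log k) := by ring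
      linarith
    have h3 : (((320 * (k + 1) : ℕ) : ℝ)) ^ (40 * σ) * (((320 * (k + 1) : ℕ) : ℝ)) ^ (40 * σ) < n :=
      (Real.log_lt_log_iff (by positivity) (by positivity)).1 h2
    exact_mod_cast h3
  obtain ⟨Q, q1, q2, q3⟩ := core2 hP2 hσ hY1 h1 hY
  exact ⟨Q, q1, q2.mono hj, q3⟩

theorem three_le_f {k j n : ℕ} (hk : 3 ≤ k) (hj : 3 ≤ j) (hn : 3 ≤ n) : 3 ≤ f k j n := by
  apply le_f hk hn
  intro P hP1 hP2
  obtain ⟨Q, q1, q2, q3⟩ := triangle hP2.1 (by omega)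
  exact ⟨Q, q1, q2.mono hj, q3⟩

theorem exp_le_two_pow {t : ℝ} {Y : ℕ} (h : t ≤ 0.69 * Y) : Real.exp t ≤ 2 ^ Y := by
  have h3 : (2 : ℝ) ^ Y = Real.exp (Y * Real.log 2) := by
    rw [← Real.exp_log (show (0 : ℝ) < 2 ^ Y by positivity), Real.log_pow]
  rw [h3]
  apply Real.exp_le_exp.2
  have h6 := Real.log_two_gt_d9
  have h7 : 0.69 * (Y : ℝ) ≤ Real.log 2 * Y :=
    mul_le_mul_of_nonneg_right (by linarith) (Nat.cast_nonneg Y)
  linarith

theorem lower_sqrt {k j n : ℕ} (hk : 3 ≤ k) (hj : 3 ≤ j) (hn : 3 ≤ n) {V u : ℝ}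
    (hV : V = Real.log n / Real.log k) (hu : 0 ≤ u) (huV : u ^ 2 * (k : ℝ) ^ 2 = V) :
    Real.exp (1 / 300 * u) ≤ f k j n := by
  have hk3 : (3 : ℝ) ≤ k := by exact_mod_cast hk
  rcases le_or_gt u 300 with h | h
  · have h2 : Real.exp (1 / 300 * u) ≤ Real.exp 1 := Real.exp_le_exp.2 (by linarith)
    have h3 := Real.exp_one_lt_d9
    have h4 : (3 : ℝ) ≤ f k j n := by exact_mod_cast three_le_f hk hj hn
    linarith
  · have hV1 : 810000 < V := by
      rw [← huV]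
      have h1 : (300 : ℝ) ^ 2 < u ^ 2 := pow_lt_pow_left₀ h (by norm_num) (by norm_num)
      have h2 : (3 : ℝ) ^ 2 ≤ (k : ℝ) ^ 2 := pow_le_pow_left₀ (by norm_num) hk3 2
      nlinarith
    set σ := ⌊V / 600⌋₊ with hσ
    set Y := ⌊u / 100⌋₊ with hY
    have s1 : (σ : ℝ) ≤ V / 600 := Nat.floor_le (by linarith)
    have s2 : V / 600 < σ + 1 := Nat.lt_floor_add_one _
    have y1 : (Y : ℝ) ≤ u / 100 := Nat.floor_le (by linarith)
    have y2 : u / 100 < Y + 1 := Nat.lt_floor_add_one _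
    have hY1 : 1 ≤ Y := by
      apply Nat.le_floor
      push_cast
      linarith
    have hσ1 : 1 ≤ σ := by
      apply Nat.le_floor
      push_cast
      linarith
    have hmain : 2 * (2 * ((2 * k + 3) * Y) + 1) * (2 * ((2 * k + 3) * Y) + 1) < 7 * σ := by
      have h1 : 2 * ((2 * k + 3) * Y) + 1 ≤ 7 * (k * Y) := by nlinarith
      have h2 : (2 * (2 * ((2 * k + 3) * Y) + 1) * (2 * ((2 * k + 3) * Y) + 1)) ≤
          2 * (7 * (k * Y)) * (7 * (k * Y)) := by
        apply Nat.mul_le_mul _ h1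
        exact Nat.mul_le_mul_left _ h1
      have h3 : (2 * (7 * ((k : ℝ) * Y)) * (7 * (k * Y))) < 7 * σ := by
        have h4 : ((k : ℝ) * Y) ^ 2 ≤ V / 10000 := by
          have h5 : ((k : ℝ) * Y) ^ 2 ≤ (k * (u / 100)) ^ 2 :=
            pow_le_pow_left₀ (by positivity) (mul_le_mul_of_nonneg_left y1 (by positivity)) 2
          have h6 : ((k : ℝ) * (u / 100)) ^ 2 = V / 10000 := by
            rw [← huV]; ring
          linarith
        have h5 : (2 * (7 * ((k : ℝ) * Y)) * (7 * (k * Y))) = 98 * ((k : ℝ) * Y) ^ 2 := by ring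
        rw [h5]
        linarith
      have h4 : 2 * (7 * (k * Y)) * (7 * (k * Y)) < 7 * σ := by exact_mod_cast h3
      omega
    have h1 := lower_aux hk hn hσ1 hY1 (by rw [← hV]; exact s1) (Or.inl hmain) hj
    have h2 : ((2 : ℝ) ^ Y + 1) ≤ f k j n := by exact_mod_cast h1
    have h3 : Real.exp (1 / 300 * u) ≤ 2 ^ Y := exp_le_two_pow (by linarith)
    linarith

theorem pow_big2 {Y : ℕ} (hY : 20 ≤ Y) : 40 * (Y + 1) ^ 3 ≤ 2 ^ Y := by
  induction Y, hY using Nat.le_induction with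
  | base => norm_num
  | succ Y hY ih =>
    have h0 : 2 ^ (Y + 1) = 2 ^ Y * 2 := pow_succ 2 Y
    have : (Y + 1 + 1) ^ 3 ≤ 2 * (Y + 1) ^ 3 := by nlinarith [sq_nonneg (Y : ℤ)]
    omega

theorem lower_cube {k j n : ℕ} (hk : 3 ≤ k) (hj : 3 ≤ j) (hn : 3 ≤ n) {V u : ℝ}
    (hV : V = Real.log n / Real.log k) (hu : 0 ≤ u) (huV : u ^ 3 = V) :
    Real.exp (1 / 300 * u) ≤ f k j n := by
  have hk3 : (3 : ℝ) ≤ k := by exact_mod_cast hk
  rcases le_or_gt u 300 with h | h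
  · have h2 : Real.exp (1 / 300 * u) ≤ Real.exp 1 := Real.exp_le_exp.2 (by linarith)
    have h3 := Real.exp_one_lt_d9
    have h4 : (3 : ℝ) ≤ f k j n := by exact_mod_cast three_le_f hk hj hn
    linarith
  · have hV1 : 27000000 < V := by
      rw [← huV]
      have h1 : (300 : ℝ) ^ 3 < u ^ 3 := pow_lt_pow_left₀ h (by norm_num) (by norm_num)
      norm_num at h1
      exact h1
    set σ := ⌊V / 600⌋₊ with hσ
    set Y := ⌊u / 8⌋₊ with hY
    have s1 : (σ : ℝ) ≤ V / 600 := Nat.floor_le (by linarith)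
    have s2 : V / 600 < σ + 1 := Nat.lt_floor_add_one _
    have y1 : (Y : ℝ) ≤ u / 8 := Nat.floor_le (by linarith)
    have y2 : u / 8 < Y + 1 := Nat.lt_floor_add_one _
    have hY20 : 20 ≤ Y := by
      apply Nat.le_floor
      push_cast
      linarith
    have hσ1 : 1 ≤ σ := by
      apply Nat.le_floor
      push_cast
      linarith
    have hmain1 : 4 * (Y * (Y * Y)) + 1 < 29 * σ := by
      have h1 : (Y : ℝ) ^ 3 ≤ (u / 8) ^ 3 := pow_le_pow_left₀ (by positivity) y1 3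
      have h2 : (u / 8) ^ 3 = V / 512 := by rw [div_pow, huV]; norm_num
      have h3 : (4 * ((Y : ℝ) * (Y * Y)) + 1) < 29 * σ := by
        have : (Y : ℝ) * (Y * Y) = (Y : ℝ) ^ 3 := by ring
        rw [this]
        linarith
      exact_mod_cast h3
    have hmain2 : 40 * σ + 1 ≤ 2 ^ Y := by
      have h1 : u < 8 * (Y + 1) := by linarith
      have h2 : V < (8 * ((Y : ℝ) + 1)) ^ 3 := by
        rw [← huV]
        exact pow_lt_pow_left₀ h1 (by linarith) (by norm_num)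
      have h3 : 40 * (σ : ℝ) < 40 * ((Y : ℝ) + 1) ^ 3 := by
        have h4 : (8 * ((Y : ℝ) + 1)) ^ 3 = 512 * ((Y : ℝ) + 1) ^ 3 := by ring
        rw [h4] at h2
        have h5 : 0 < ((Y : ℝ) + 1) ^ 3 := by positivity
        linarith
      have h4 : 40 * σ < 40 * (Y + 1) ^ 3 := by exact_mod_cast h3
      have := pow_big2 hY20
      omega
    have h1 := lower_aux hk hn hσ1 (by omega) (by rw [← hV]; exact s1)
      (Or.inr ⟨hmain1, hmain2⟩) hj
    have h2 : ((2 : ℝ) ^ Y + 1) ≤ f k j n := by exact_mod_cast h1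
    have h3 : Real.exp (1 / 300 * u) ≤ 2 ^ Y := exp_le_two_pow (by linarith)
    linarith

theorem lower_bound2 (k j n : ℕ) (hk : 3 ≤ k) (hj : 3 ≤ j) (hn : 3 ≤ n) :
    Real.exp (1 / 300 * max ((Real.log n / Real.log k) ^ ((1 : ℝ) / 3))
      (√(Real.log n / Real.log k) / k)) ≤ f k j n := by
  have hn3 : (3 : ℝ) ≤ n := by exact_mod_cast hn
  have hk3 : (3 : ℝ) ≤ k := by exact_mod_cast hk
  have hV0 : 0 ≤ Real.log n / Real.log k :=
    div_nonneg (Real.log_nonneg (by linarith)) (Real.log_nonneg (by linarith))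
  rcases max_cases ((Real.log n / Real.log k) ^ ((1 : ℝ) / 3))
    (√(Real.log n / Real.log k) / k) with ⟨h, _⟩ | ⟨h, _⟩
  · rw [h]
    apply lower_cube hk hj hn rfl (Real.rpow_nonneg hV0 _)
    rw [← Real.rpow_natCast, ← Real.rpow_mul hV0]
    norm_num
  · rw [h]
    apply lower_sqrt hk hj hn rfl (by positivity)
    rw [div_pow, Real.sq_sqrt hV0]
    have : (k : ℝ) ≠ 0 := by linarith
    field_simp

end Pool.Agent.H595K
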