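import Mathlib
import Pool.Agent.H595K.FPure
import Pool.Agent.H595K.Lower2

/-!
# Polynomial lower bounds from good subtrees of linear depth
-/

namespace Pool.Agent.H595K

open Finset Vis124 Lb

theorem cross_poly {n k N : ℕ} {v : Fin n → ℝ × ℝ} {S : Set (ℝ × ℝ)} (hv : IsSimplePolygon v S)
    (hk : IsKConvexRegion k S) (ε : ℝ) (q : ℕ → Fin n)
    (hq : (∀ i j, i < j → j < N → q i < q j) ∨ (∀ i j, i < j → j < N → q j < q i))
    {A : List ℕ} (hA : A.Pairwise (fun i j => i < j)) (hN : ∀ i ∈ A, i < N) :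
    Cross (fun i => (v (q i)).1 + ε * (v (q i)).2) (fun i => (v (q i)).2) A (2 * k + 2) := by
  classical
  intro θ β Q hQ hch
  by_contra hcon
  push Not at hcon
  obtain ⟨β', b1, b2⟩ := exists_level
    (univ.image (fun i => (-θ) * (v i).1 + (1 - θ * ε) * (v i).2)) β
  have hm : ∀ i, (-θ) * (v i).1 + (1 - θ * ε) * (v i).2 ∈
      univ.image (fun i => (-θ) * (v i).1 + (1 - θ * ε) * (v i).2) :=
    fun i => mem_image_of_mem _ (mem_univ i)
  have hne : ∀ i, (-θ) * (v i).1 + (1 - θ * ε) * (v i).2 - β' ≠ 0 := by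
    intro i h0
    rcases lt_or_ge β ((-θ) * (v i).1 + (1 - θ * ε) * (v i).2) with h | h
    · have := b1 _ (hm i) h; linarith
    · have := b2 _ (hm i) h; linarith
  have hab : (-θ) ≠ 0 ∨ (1 - θ * ε) ≠ 0 := by
    by_cases h : θ = 0
    · right; rw [h]; norm_num
    · left; simpa using h
  have hline : IsLine {p : ℝ × ℝ | (-θ) * p.1 + (1 - θ * ε) * p.2 = β'} :=
    ⟨-θ, 1 - θ * ε, β', hab, rfl⟩
  have hle := hk _ hline
  set F : ℕ → ℝ := fun i => (v (q i)).2 - θ * ((v (q i)).1 + ε * (v (q i)).2) - β with hF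
  have hQA := hA.sublist hQ
  have hlen : ∀ {i : ℕ}, i < 2 * k + 2 → i < Q.length := fun h => by omega
  have hget : ∀ {i : ℕ} (h : i < 2 * k + 2), Q.getD i 0 = Q[i]'(hlen h) := by
    intro i h; exact List.getD_eq_getElem _ _ (hlen h)
  have hmono : ∀ i j, i < j → j < 2 * k + 2 → Q.getD i 0 < Q.getD j 0 := by
    intro i j hij hj
    rw [hget (by omega), hget hj]
    exact List.pairwise_iff_getElem.1 hQA i j _ _ hij
  have hltN : ∀ i, i < 2 * k + 2 → Q.getD i 0 < N := by
    intro i hi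
    rw [hget hi]
    exact hN _ (hQ.subset (List.getElem_mem _))
  have halt : ∀ i, i + 1 < 2 * k + 2 →
      (0 < (-θ) * (v (q (Q.getD i 0))).1 + (1 - θ * ε) * (v (q (Q.getD i 0))).2 - β' ↔
        ¬ 0 < (-θ) * (v (q (Q.getD (i + 1) 0))).1 +
          (1 - θ * ε) * (v (q (Q.getD (i + 1) 0))).2 - β') := by
    intro i hi
    have h1 := List.isChain_iff_getElem.1 hch i (hlen hi)
    have h2 : F (Q.getD i 0) * F (Q.getD (i + 1) 0) < 0 := by
      rw [hget (by omega), hget hi]; exact h1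
    have hpos : ∀ a, 0 < F a → 0 < (-θ) * (v (q a)).1 + (1 - θ * ε) * (v (q a)).2 - β' := by
      intro a ha
      have := b1 _ (hm (q a)) (by simp only [hF] at ha; linarith)
      linarith
    have hneg : ∀ a, F a < 0 → ¬ 0 < (-θ) * (v (q a)).1 + (1 - θ * ε) * (v (q a)).2 - β' := by
      intro a ha
      have := b2 _ (hm (q a)) (by simp only [hF] at ha; linarith)
      linarith
    rcases mul_neg_iff.1 h2 with ⟨h3, h4⟩ | ⟨h3, h4⟩
    · exact ⟨fun _ => hneg _ h4, fun _ => hpos _ h3⟩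
    · exact ⟨fun h => absurd h (hneg _ h3), fun h => absurd (hpos _ h4) h⟩
  rcases hq with hq | hq
  · have h4 := comps_ge hv (-θ) (1 - θ * ε) β' hab hne (k + 1) (fun i => q (Q.getD i 0)) (by
      intro i j hij hj
      exact hq _ _ (hmono i j hij (by omega)) (hltN j (by omega))) (by
      intro i hi
      exact halt i (by omega))
    have h6 : k + 1 ≤ k := by exact_mod_cast h4.trans hle
    omega
  · have h4 := comps_ge hv (-θ) (1 - θ * ε) β' hab hne (k + 1)
      (fun i => q (Q.getD (2 * k + 1 - i) 0)) (by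
      intro i j hij hj
      exact hq _ _ (hmono _ _ (by omega) (by omega)) (hltN _ (by omega))) (by
      intro i hi
      have := halt (2 * k + 1 - (i + 1)) (by omega)
      rw [show 2 * k + 1 - (i + 1) + 1 = 2 * k + 1 - i by omega] at this
      show 0 < (-θ) * (v (q (Q.getD (2 * k + 1 - i) 0))).1 + _ - β' ↔
        ¬ 0 < (-θ) * (v (q (Q.getD (2 * k + 1 - (i + 1)) 0))).1 + _ - β'
      tauto)
    have h6 : k + 1 ≤ k := by exact_mod_cast h4.trans hle
    omega

/-- extraction of a monotone sequence, with the sharp crossing number -/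
theorem extract2 {k M : ℕ} {P : Finset (ℝ × ℝ)} (hP : KConvexSet k P) (hn : M * M < P.card) :
    ∃ (N : ℕ) (ε : ℝ) (p : ℕ → ℝ × ℝ), M ≤ N ∧ (∀ i, p i ∈ P) ∧
      (∀ i j, i < j → j < N → (p i).1 + ε * (p i).2 < (p j).1 + ε * (p j).2) ∧
      NoAlt (fun i => (p i).1 + ε * (p i).2) (fun i => (p i).2) N (2 * k + 2) ∧
      (∀ A : List ℕ, A.Pairwise (fun i j => i < j) → (∀ i ∈ A, i < N) →
        Cross (fun i => (p i).1 + ε * (p i).2) (fun i => (p i).2) A (2 * k + 2)) ∧
      ∀ i j z, i < N → j < N → z < N → i ≠ j → j ≠ z → i ≠ z →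
        slp (fun i => (p i).1 + ε * (p i).2) (fun i => (p i).2) i j ≠
        slp (fun i => (p i).1 + ε * (p i).2) (fun i => (p i).2) i z := by
  classical
  obtain ⟨hgp, v, S, hv, hr, hk⟩ := hP
  obtain ⟨ε, hε⟩ := exists_shear P
  have hvP : ∀ i, v i ∈ P := fun i => by
    rw [← Finset.mem_coe, ← hr]; exact Set.mem_range_self i
  have hinj : Function.Injective (fun i => (v i).1 + ε * (v i).2) := by
    intro i j hij
    exact hv.injective (hε _ (hvP i) _ (hvP j) hij)
  have hES := Pool.Agent.H184R3.ES.erdos_szekeres (r := M) (s := M)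
    (f := fun i => (v i).1 + ε * (v i).2) (by rw [Fintype.card_fin]; exact hn) hinj
  obtain ⟨N, hN, q, hq, hxq⟩ : ∃ N, M ≤ N ∧ ∃ q : ℕ → Fin P.card,
      ((∀ i j, i < j → j < N → q i < q j) ∨ (∀ i j, i < j → j < N → q j < q i)) ∧
      ∀ i j, i < j → j < N →
        (v (q i)).1 + ε * (v (q i)).2 < (v (q j)).1 + ε * (v (q j)).2 := by
    rcases hES with ⟨t, ht, hmono⟩ | ⟨t, ht, hanti⟩
    · refine ⟨t.card, ht.le, fun i => if h : i < t.card then t.orderEmbOfFin rfl ⟨i, h⟩ else
        someIdx t (by omega), ?_, ?_⟩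
      · left
        intro i j hij hj
        simp only [dif_pos hj, dif_pos (show i < t.card by omega)]
        exact (t.orderEmbOfFin rfl).strictMono (Fin.mk_lt_mk.2 hij)
      · intro i j hij hj
        simp only [dif_pos hj, dif_pos (show i < t.card by omega)]
        exact hmono (t.orderEmbOfFin_mem rfl _) (t.orderEmbOfFin_mem rfl _)
          ((t.orderEmbOfFin rfl).strictMono (Fin.mk_lt_mk.2 hij))
    · refine ⟨t.card, ht.le, fun i => if h : i < t.card then
        t.orderEmbOfFin rfl ⟨t.card - 1 - i, by omega⟩ else someIdx t (by omega), ?_, ?_⟩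
      · right
        intro i j hij hj
        simp only [dif_pos hj, dif_pos (show i < t.card by omega)]
        exact (t.orderEmbOfFin rfl).strictMono (Fin.mk_lt_mk.2 (by omega))
      · intro i j hij hj
        simp only [dif_pos hj, dif_pos (show i < t.card by omega)]
        exact hanti (t.orderEmbOfFin_mem rfl _) (t.orderEmbOfFin_mem rfl _)
          ((t.orderEmbOfFin rfl).strictMono (Fin.mk_lt_mk.2 (by omega)))
  refine ⟨N, ε, fun i => v (q i), hN, fun i => hvP _, hxq, noAlt_of hv hk ε q hq,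
    fun A hA hAN => cross_poly hv hk ε q hq hA hAN, ?_⟩
  set x : ℕ → ℝ := fun i => (v (q i)).1 + ε * (v (q i)).2 with hx
  set y : ℕ → ℝ := fun i => (v (q i)).2 with hy
  intro i j z hi hj hz hij hjz hiz h
  have hxne : ∀ a b, a < N → b < N → a ≠ b → x b - x a ≠ 0 := by
    intro a b ha hb hab h0
    rcases lt_or_gt_of_ne hab with h1 | h1
    · have : x a < x b := hxq a b h1 hb
      linarith
    · have : x b < x a := hxq b a h1 ha
      linarith
  have hvne : ∀ a b, a < N → b < N → a ≠ b → v (q a) ≠ v (q b) := by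
    intro a b ha hb hab h0
    apply hxne a b ha hb hab
    simp only [hx]
    rw [h0]; ring
  have e1 := hxne i j hi hj hij
  have e2 := hxne i z hi hz hiz
  unfold slp at h
  rw [div_eq_div_iff e1 e2] at h
  apply hgp _ (hvP (q i)) _ (hvP (q j)) _ (hvP (q z)) (hvne i j hi hj hij)
    (hvne j z hj hz hjz) (hvne i z hi hz hiz)
  apply collinear_of_det (hvne i j hi hj hij)
  simp only [hx, hy] at h
  linear_combination -h

theorem kconvex_of_nice4 {P : Finset (ℝ × ℝ)} (hgp : GenPos P) (ε : ℝ) (p : ℕ → ℝ × ℝ)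
    {L : List ℕ} (hL : ∀ i ∈ L, p i ∈ P) (h3 : 3 ≤ L.length)
    (hnice : Nice (fun n => - ((p n).1 + ε * (p n).2)) (fun n => (p n).2) L) :
    ∃ Q ⊆ P, KConvexSet 3 Q ∧ Q.card = L.length := by
  classical
  set x : ℕ → ℝ := fun i => (p i).1 + ε * (p i).2 with hx
  set y : ℕ → ℝ := fun i => (p i).2 with hy
  have hL4 : L.Pairwise (fun i j => - x i < - x j) := hnice.1
  have hnd : L.Nodup := hL4.imp (fun h => by rintro rfl; exact lt_irrefl _ h)
  set Q : Finset (ℝ × ℝ) := L.toFinset.image p with hQ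
  have hQP : Q ⊆ P := by
    intro a ha
    obtain ⟨i, hi, rfl⟩ := mem_image.1 ha
    exact hL i (by simpa using hi)
  have hinj : ∀ i ∈ L, ∀ j ∈ L, x i = x j → i = j := by
    intro i hi j hj hij
    by_contra hne
    obtain ⟨a, ha, rfl⟩ := List.getElem_of_mem hi
    obtain ⟨b, hb, rfl⟩ := List.getElem_of_mem hj
    rcases lt_trichotomy a b with h1 | h1 | h1
    · have := List.pairwise_iff_getElem.1 hL4 a b ha hb h1; linarith
    · subst h1; exact hne rfl
    · have := List.pairwise_iff_getElem.1 hL4 b a hb ha h1; linarith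
  have hQc : Q.card = L.length := by
    rw [hQ, card_image_of_injOn, List.toFinset_card_of_nodup hnd]
    intro i hi j hj hij
    apply hinj i (by simpa using hi) j (by simpa using hj)
    have : p i = p j := hij
    simp only [hx]
    rw [this]
  refine ⟨Q, hQP, ?_, hQc⟩
  obtain ⟨n', v', S', p1, p2, p3⟩ := poly_of_nice hnice h3
  obtain ⟨p4, p5⟩ := kconvex_map refl0 p1 p3
  obtain ⟨p6, p7⟩ := kconvex_map reflY p4 p5
  obtain ⟨p8, p9⟩ := kconvex_map (shearX ε) p6 p7
  refine kConvex_of (hgp.subset hQP) p8 ?_ p9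
  ext a
  simp only [Set.mem_range]
  rw [hQ, Finset.coe_image]
  constructor
  · rintro ⟨i, rfl⟩
    have h1 : v' i ∈ {p | ∃ i ∈ L, p = (- x i, y i)} := by rw [← p2]; exact Set.mem_range_self i
    obtain ⟨j, hj, hj2⟩ := h1
    refine ⟨j, by simpa using hj, ?_⟩
    rw [hj2, refl0_apply, reflY_apply, shearX_apply]
    ext
    · simp only [hx, hy]; ring
    · simp only [hy]; ring
  · rintro ⟨j, hj, rfl⟩
    have h1 : (- x j, y j) ∈ Set.range v' := by
      rw [p2]
      exact ⟨j, by simpa using hj, rfl⟩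
    obtain ⟨i, hi⟩ := h1
    refine ⟨i, ?_⟩
    rw [hi, refl0_apply, reflY_apply, shearX_apply]
    ext
    · simp only [hx, hy]; ring
    · simp only [hy]; ring

open LT in
theorem nice4_of_gd {x y : ℕ → ℝ} {t : LT ℝ} {m Y : ℕ}
    (hx : t.lv.Pairwise (fun i j => x i < x j))
    (hC : Cross x y t.lv m) (hCp : Compat (slp x y) t) (hG : Gd (2 * (m * Y) + 1) t) :
    ∃ Q : List ℕ, Q.length = 2 ^ Y + 1 ∧ (∀ i ∈ Q, i ∈ t.lv) ∧
      (Nice x y Q ∨ Nice x (fun n => - y n) Q ∨ Nice (fun n => - x n) (fun n => - y n) Q ∨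
        Nice (fun n => - x n) y Q) := by
  obtain ⟨t', h1, h2, h3⟩ := hG
  have hx' := hx.sublist h1.sublist
  have hC' := hC.sub h1.sublist
  have hCp' := hCp.sub h1
  have e1 : (fun i j => - slp x y i j) = slp x (fun n => - y n) := by
    funext i j; rw [slp_negY]
  have e2 : slp (fun n => - x n) (fun n => - y n) = slp x y := by
    funext i j; rw [slp_neg2]
  rcases h3 with h3 | h3 | h3 | h3
  · obtain ⟨Q, q1, q2, q3⟩ := lg_core hx' hC' hCp' h3 h2
    exact ⟨Q, q1, fun i hi => h1.mem (q2 i hi), Or.inl q3⟩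
  · have k1 : Compat (slp x (fun n => - y n)) (Lb.neg t') := by
      rw [← e1]; exact compat_neg hCp'
    obtain ⟨Q, q1, q2, q3⟩ := lg_core (t := Lb.neg t') (by rw [lv_neg]; exact hx')
      (by rw [lv_neg]; exact hC'.negY) k1 (lg_neg h3) (comp_neg h2)
    exact ⟨Q, q1, fun i hi => h1.mem (by have := q2 i hi; rwa [lv_neg] at this), Or.inr (Or.inl q3)⟩
  · have k1 : Compat (slp (fun n => - x n) (fun n => - y n)) (mir t') := by
      rw [e2]; exact compat_mir (slp_comm x y) hCp'
    obtain ⟨Q, q1, q2, q3⟩ := lg_core (t := mir t') (by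
        rw [lv_mir, List.pairwise_reverse]
        refine hx'.imp ?_
        intro i j hij
        linarith)
      (by rw [lv_mir]; exact hC'.neg) k1 (lg_mir h3) (comp_mir h2)
    exact ⟨Q, q1, fun i hi => h1.mem (by have := q2 i hi; rw [lv_mir] at this; simpa using this),
      Or.inr (Or.inr (Or.inl q3))⟩
  · -- right-bad
    have k0 : Compat (slp (fun n => - x n) (fun n => - y n)) (mir t') := by
      rw [e2]; exact compat_mir (slp_comm x y) hCp'
    have k1 : Compat (slp (fun n => - x n) y) (Lb.neg (mir t')) := by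
      have e3 : slp (fun n => - x n) y = (fun i j => - slp (fun n => - x n) (fun n => - y n) i j) := by
        funext i j
        have := slp_negY (fun n => - x n) (fun n => - y n) i j
        simp only [neg_neg] at this
        exact this
      rw [e3]
      exact compat_neg k0
    have hlg : LG (Lb.neg (mir t')) := by
      apply lg_neg
      exact allN_mir h3 (fun x l r hl => allL_mir hl)
    have hC2 : Cross (fun n => - x n) y (mir t').lv m := by
      have h5 : Cross (fun n => - x n) (fun n => - y n) (mir t').lv m := by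
        rw [lv_mir]; exact hC'.neg
      have h6 := h5.negY
      simp only [neg_neg] at h6
      exact h6
    obtain ⟨Q, q1, q2, q3⟩ := lg_core (t := Lb.neg (mir t')) (by
        rw [lv_neg, lv_mir, List.pairwise_reverse]
        refine hx'.imp ?_
        intro i j hij
        linarith)
      (by rw [lv_neg]; exact hC2) k1 hlg (comp_neg (comp_mir h2))
    exact ⟨Q, q1, fun i hi => h1.mem (by
      have := q2 i hi; rw [lv_neg, lv_mir] at this; simpa using this), Or.inr (Or.inr (Or.inr q3))⟩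

/-- good subtrees of linear depth exist -/
def HasGd (k C : ℕ) : Prop :=
  ∀ (X Y : ℕ → ℝ) (t : LT ℝ) (n E : ℕ), t.lv.Pairwise (fun i j => X i < X j) →
    Cross X Y t.lv (2 * k + 2) → Compat (slp X Y) t → LT.Comp n t → C * (E + 1) ≤ n → Gd E t

open Tr in
theorem core3 {k C σ Y : ℕ} (hG : HasGd k C) {P : Finset (ℝ × ℝ)} (hP : KConvexSet k P)
    (hσ : 1 ≤ σ) (hY1 : 1 ≤ Y)
    (hn : (320 * (k + 1)) ^ (40 * σ) * (320 * (k + 1)) ^ (40 * σ) < P.card)
    (hY : C * (2 * ((2 * k + 2) * Y) + 2) ≤ 7 * σ) :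
    ∃ Q ⊆ P, KConvexSet 3 Q ∧ Q.card = 2 ^ Y + 1 := by
  obtain ⟨N, ε, p, hN, hpP, hx, hA, hCr, hgen⟩ := extract2 hP hn
  obtain ⟨t, h1, h2, h3, h4, h5, h6⟩ := exists_tree2 hx hA hgen hN hσ (by ring) (by positivity)
  obtain ⟨hf1, hf2⟩ := pow_facts σ hσ h1
  obtain ⟨T, t1, t2, t3⟩ := Lb.exists_compat (slp_comm _ _) h6
  obtain ⟨t', k1, k2⟩ := LT.exists_comp (t := T) (h := 40 * σ) (n := t.lv.length) (d := 7 * σ - 1)
    (by rw [t2]; exact h5) (by rw [t1]) hf1
  have e : 7 * σ - 1 + 1 = 7 * σ := by omega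
  rw [e] at k2
  have hcr := hCr t.lv h3 h2
  have hxt := h4
  rw [← t1] at hcr hxt
  have hx' := hxt.sublist k1.sublist
  have hC' := hcr.sub k1.sublist
  have hgd := hG _ _ t' (7 * σ) (2 * ((2 * k + 2) * Y) + 1) hx' hC' (t3.sub k1) k2 hY
  obtain ⟨L, hL1, hL2, hL3⟩ := nice4_of_gd hx' hC' (t3.sub k1) hgd
  have h3 : 3 ≤ L.length := by
    rw [hL1]
    have : 2 ^ 1 ≤ 2 ^ Y := Nat.pow_le_pow_right (by norm_num) hY1
    omega
  have hgp := hP.1
  rcases hL3 with h | h | h | h
  · obtain ⟨Q, q1, q2, q3⟩ := kconvex_of_nice hgp ε p (fun i _ => hpP i) h3 (Or.inl h)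
    exact ⟨Q, q1, q2, by rw [q3, hL1]⟩
  · obtain ⟨Q, q1, q2, q3⟩ := kconvex_of_nice hgp ε p (fun i _ => hpP i) h3 (Or.inr h)
    exact ⟨Q, q1, q2, by rw [q3, hL1]⟩
  · obtain ⟨Q, q1, q2, q3⟩ := kconvex_of_nice3 hgp ε p (fun i _ => hpP i) h3 h
    exact ⟨Q, q1, q2, by rw [q3, hL1]⟩
  · obtain ⟨Q, q1, q2, q3⟩ := kconvex_of_nice4 hgp ε p (fun i _ => hpP i) h3 h
    exact ⟨Q, q1, q2, by rw [q3, hL1]⟩

theorem poly_of_hasGd {k C : ℕ} (hk : 3 ≤ k) (hG : HasGd k C) :
    ∃ c : ℝ, 0 < c ∧ ∀ j n : ℕ, 3 ≤ j → 3 ≤ n → (n : ℝ) ^ c ≤ f k j n := by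
  obtain ⟨G, hGdef⟩ : ∃ G : ℕ, G = 320 * (k + 1) := ⟨_, rfl⟩
  obtain ⟨B, hB⟩ : ∃ B : ℕ, B = (C + 1) * (4 * k + 6) := ⟨_, rfl⟩
  have hBpos : 0 < B := by rw [hB]; positivity
  have hGr : (1280 : ℝ) ≤ (G : ℝ) := by
    have : 1280 ≤ G := by rw [hGdef]; omega
    exact_mod_cast this
  have hlogG : 0 < Real.log G := Real.log_pos (by linarith)
  set D : ℝ := 81 * B * Real.log G with hD
  have hBr : (1 : ℝ) ≤ B := by exact_mod_cast hBpos
  have hDpos : 0 < D := by positivity
  refine ⟨0.23 / D, by positivity, ?_⟩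
  intro j n hj hn
  have hn3 : (3 : ℝ) ≤ n := by exact_mod_cast hn
  have hnpos : (0 : ℝ) < n := by linarith
  have hlogn : 0 < Real.log n := Real.log_pos (by linarith)
  have e0 : (n : ℝ) ^ (0.23 / D) = Real.exp (0.23 / D * Real.log n) := by
    rw [Real.rpow_def_of_pos hnpos, mul_comm]
  rw [e0]
  set σ := ⌊Real.log n / (81 * Real.log G)⌋₊ with hσ
  set Y := σ / B with hY
  have s1 : (σ : ℝ) ≤ Real.log n / (81 * Real.log G) := Nat.floor_le (by positivity)
  have s2 : Real.log n / (81 * Real.log G) < σ + 1 := Nat.lt_floor_add_one _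
  have y1 : Y * B ≤ σ := Nat.div_mul_le_self _ _
  have y2 : σ < (Y + 1) * B := by
    have := Nat.lt_div_mul_add (a := σ) hBpos
    rw [← hY] at this
    rw [add_mul, one_mul]; exact this
  have hkey : Real.log n / D < Y + 2 := by
    have h1 : Real.log n / D = Real.log n / (81 * Real.log G) / B := by
      rw [hD]; field_simp
    rw [h1, div_lt_iff₀ (by linarith)]
    have h2 : (σ : ℝ) < (Y + 1) * B := by exact_mod_cast y2
    nlinarith
  rcases Nat.eq_zero_or_pos Y with h0 | h0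
  · have h1 : Real.log n / D < 2 := by
      rw [h0] at hkey
      simpa using hkey
    have h2 : 0.23 / D * Real.log n ≤ 1 := by
      have : 0.23 / D * Real.log n = 0.23 * (Real.log n / D) := by ring
      rw [this]; linarith
    have h3 : Real.exp (0.23 / D * Real.log n) ≤ Real.exp 1 := Real.exp_le_exp.2 h2
    have h4 := Real.exp_one_lt_d9
    have h5 : (3 : ℝ) ≤ f k j n := by exact_mod_cast three_le_f hk hj hn
    linarith
  · have hσ1 : 1 ≤ σ := by nlinarith
    have hlow : 2 ^ Y + 1 ≤ f k j n := by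
      apply le_f hk hn
      intro P hP1 hP2
      have h1 : (320 * (k + 1)) ^ (40 * σ) * (320 * (k + 1)) ^ (40 * σ) < P.card := by
        rw [hP1, ← hGdef]
        have h2 : Real.log ((G : ℝ) ^ (40 * σ) * (G : ℝ) ^ (40 * σ)) < Real.log n := by
          rw [← pow_add, Real.log_pow]
          push_cast
          have h3 : (σ : ℝ) * (81 * Real.log G) ≤ Real.log n := by
            rwa [le_div_iff₀ (by positivity)] at s1
          have h4 : (1 : ℝ) ≤ σ := by exact_mod_cast hσ1
          nlinarith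
        have h3 : (G : ℝ) ^ (40 * σ) * (G : ℝ) ^ (40 * σ) < n :=
          (Real.log_lt_log_iff (by positivity) (by positivity)).1 h2
        exact_mod_cast h3
      obtain ⟨Q, q1, q2, q3⟩ := core3 hG hP2 hσ1 h0 h1 (by
        have h2 : C * (2 * ((2 * k + 2) * Y) + 2) ≤ Y * B := by
          rw [hB]
          have h3 : 2 * ((2 * k + 2) * Y) + 2 ≤ (4 * k + 6) * Y := by nlinarith
          calc C * (2 * ((2 * k + 2) * Y) + 2) ≤ C * ((4 * k + 6) * Y) :=
                Nat.mul_le_mul_left _ h3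
            _ ≤ (C + 1) * ((4 * k + 6) * Y) := Nat.mul_le_mul_right _ (by omega)
            _ = Y * ((C + 1) * (4 * k + 6)) := by ring
        omega)
      exact ⟨Q, q1, q2.mono hj, q3⟩
    have h2 : ((2 : ℝ) ^ Y + 1) ≤ f k j n := by exact_mod_cast hlow
    have h4 : (1 : ℝ) ≤ Y := by exact_mod_cast h0
    have h3 : Real.exp (0.23 / D * Real.log n) ≤ 2 ^ Y := by
      apply exp_le_two_pow
      have : 0.23 / D * Real.log n = 0.23 * (Real.log n / D) := by ring
      rw [this]; linarith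
    linarith

theorem hasGd4 : HasGd 4 351 := by
  intro X Y t n E hx hC hCp hn hE
  exact exists_gd hx hC hCp hn (by omega)

/-- **The polynomial lower bound for `k = 4`.** -/
theorem poly4 : ∃ c : ℝ, 0 < c ∧ ∀ j n : ℕ, 3 ≤ j → 3 ≤ n → (n : ℝ) ^ c ≤ f 4 j n :=
  poly_of_hasGd (by norm_num) hasGd4

end Pool.Agent.H595K
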