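import Mathlib
import Pool.Agent.H595K.FPure

/-!
# Trees with a middle part and bottom parts
-/

namespace Pool.Agent.H595K.Lb

open LT

/-! ### Properties of nodes with their contexts -/

/-- a property of all nodes and their contexts -/
def AllC (P : List (Bool × ℝ) → ℝ → Prop) : List (Bool × ℝ) → LT ℝ → Prop
  | _, leaf _ => True
  | L, node x l r => P L x ∧ AllC P ((false, x) :: L) l ∧ AllC P ((true, x) :: L) r

theorem AllC.sub {P : List (Bool × ℝ) → ℝ → Prop}
    (hP : ∀ L L' x, L'.Sublist L → P L x → P L' x) {c : ℝ → LT ℝ → LT ℝ → Prop} {t' t : LT ℝ}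
    (hs : Sub c t' t) : ∀ {L L' : List (Bool × ℝ)}, L'.Sublist L → AllC P L t → AllC P L' t' := by
  induction hs with
  | leaf i => intro L L' _ _; trivial
  | left a r _ ih => intro L L' hL h; exact ih (hL.trans (List.sublist_cons_self _ _)) h.2.1
  | right a l _ ih => intro L L' hL h; exact ih (hL.trans (List.sublist_cons_self _ _)) h.2.2
  | node hc _ _ ihl ihr =>
    intro L L' hL h
    exact ⟨hP _ _ _ hL h.1, ihl (hL.cons_cons _) h.2.1, ihr (hL.cons_cons _) h.2.2⟩

theorem AllC.allL {P : List (Bool × ℝ) → ℝ → Prop} {Q : ℝ → Prop} {W : List (Bool × ℝ)}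
    (hPQ : ∀ K x, P (K ++ W) x → Q x) {s : LT ℝ} : ∀ {K : List (Bool × ℝ)},
    AllC P (K ++ W) s → AllL Q s := by
  induction s with
  | leaf i => intro K _; trivial
  | node a l r ihl ihr =>
    intro K h
    exact ⟨hPQ _ _ h.1, ihl (K := (false, a) :: K) h.2.1, ihr (K := (true, a) :: K) h.2.2⟩

theorem AllC.strip {P P' : List (Bool × ℝ) → ℝ → Prop} {Q : ℝ → Prop} {W : List (Bool × ℝ)}
    (hPQ : ∀ K x, P (K ++ W) x → Q x → P' K x) {s : LT ℝ} : ∀ {K : List (Bool × ℝ)},
    AllC P (K ++ W) s → AllL Q s → AllC P' K s := by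
  induction s with
  | leaf i => intro K _ _; trivial
  | node a l r ihl ihr =>
    intro K h hq
    exact ⟨hPQ _ _ h.1 hq.1, ihl (K := (false, a) :: K) h.2.1 hq.2.1,
      ihr (K := (true, a) :: K) h.2.2 hq.2.2⟩

open scoped Classical in
/-- the row of the ancestors with turn `b` -/
noncomputable def rowc (b : Bool) (x : ℝ) (L : List (Bool × ℝ)) : List Bool :=
  (L.filter (fun w => w.1 == b)).map (fun w => decide (w.2 < x))

/-- the number of changes in the two rows -/
noncomputable def chs (x : ℝ) (L : List (Bool × ℝ)) : ℕ := ch (rowc false x L) + ch (rowc true x L)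

theorem chs_sublist {x : ℝ} {L' L : List (Bool × ℝ)} (h : L'.Sublist L) : chs x L' ≤ chs x L := by
  unfold chs rowc
  exact Nat.add_le_add (ch_sublist ((h.filter _).map _)) (ch_sublist ((h.filter _).map _))

theorem ch_append_ge (A B : List Bool) : ch A + ch B ≤ ch (A ++ B) := by
  cases B with
  | nil => simp
  | cons b B =>
    rw [ch_split]
    have := ch_sublist (List.sublist_append_left A [b])
    omega

theorem chs_append (x : ℝ) (M W : List (Bool × ℝ)) : chs x M + chs x W ≤ chs x (M ++ W) := by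
  unfold chs rowc
  simp only [List.filter_append, List.map_append]
  have h1 := ch_append_ge ((M.filter (fun w => w.1 == false)).map (fun w => decide (w.2 < x)))
    ((W.filter (fun w => w.1 == false)).map (fun w => decide (w.2 < x)))
  have h2 := ch_append_ge ((M.filter (fun w => w.1 == true)).map (fun w => decide (w.2 < x)))
    ((W.filter (fun w => w.1 == true)).map (fun w => decide (w.2 < x)))
  omega

theorem ch_zero {l : List Bool} (h : ch l = 0) : ∃ s, ∀ b ∈ l, b = s := by
  by_cases h1 : true ∈ l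
  · by_cases h2 : false ∈ l
    · have := ch_pos h1 h2; omega
    · refine ⟨true, fun b hb => ?_⟩
      cases b with
      | true => rfl
      | false => exact absurd hb h2
  · refine ⟨false, fun b hb => ?_⟩
    cases b with
    | true => exact absurd hb h1
    | false => rfl

/-- the four kinds of relations to the ancestors -/
def Rc : ℕ → Bool → ℝ → ℝ → Prop
  | 0, _, x, y => y < x
  | 1, false, x, y => x < y
  | 1, true, x, y => y < x
  | 2, false, x, y => y < x
  | 2, true, x, y => x < y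
  | _, _, x, y => x < y

theorem exists_rc {y : ℝ} {W : List (Bool × ℝ)} (h : chs y W = 0) (hne : ∀ w ∈ W, w.2 ≠ y) :
    ∃ c < 4, ∀ w ∈ W, Rc c w.1 w.2 y := by
  unfold chs at h
  obtain ⟨s1, h1⟩ := ch_zero (l := rowc false y W) (by omega)
  obtain ⟨s2, h2⟩ := ch_zero (l := rowc true y W) (by omega)
  have k1 : ∀ w ∈ W, w.1 = false → decide (w.2 < y) = s1 := by
    intro w hw hb
    apply h1
    unfold rowc
    exact List.mem_map.2 ⟨w, List.mem_filter.2 ⟨hw, by simp [hb]⟩, rfl⟩
  have k2 : ∀ w ∈ W, w.1 = true → decide (w.2 < y) = s2 := by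
    intro w hw hb
    apply h2
    unfold rowc
    exact List.mem_map.2 ⟨w, List.mem_filter.2 ⟨hw, by simp [hb]⟩, rfl⟩
  have hgt : ∀ w ∈ W, decide (w.2 < y) = false → y < w.2 := by
    intro w hw h
    have h3 : ¬ w.2 < y := by simpa using h
    exact lt_of_le_of_ne (not_lt.1 h3) (hne w hw).symm
  have hlt : ∀ w ∈ W, decide (w.2 < y) = true → w.2 < y := by
    intro w hw h
    simpa using h
  have hb : ∀ w : Bool × ℝ, w.1 = false ∨ w.1 = true := fun w => by cases w.1 <;> simp
  cases s1 with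
  | false =>
    cases s2 with
    | false =>
      refine ⟨0, by norm_num, fun w hw => ?_⟩
      rcases hb w with h | h
      · exact hgt w hw (k1 w hw h)
      · exact hgt w hw (k2 w hw h)
    | true =>
      refine ⟨2, by norm_num, fun w hw => ?_⟩
      rcases hb w with h | h
      · rw [h]; exact hgt w hw (k1 w hw h)
      · rw [h]; exact hlt w hw (k2 w hw h)
  | true =>
    cases s2 with
    | false =>
      refine ⟨1, by norm_num, fun w hw => ?_⟩
      rcases hb w with h | h
      · rw [h]; exact hlt w hw (k1 w hw h)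
      · rw [h]; exact hgt w hw (k2 w hw h)
    | true =>
      refine ⟨3, by norm_num, fun w hw => ?_⟩
      rcases hb w with h | h
      · exact hlt w hw (k1 w hw h)
      · exact hlt w hw (k2 w hw h)

/-! ### Monochromatic subtrees -/

theorem Sub.andN {α : Type} {c P : α → LT α → LT α → Prop} {t' t : LT α} (h : Sub c t' t)
    (hP : AllN P t) : Sub (fun a l r => c a l r ∧ P a l r) t' t := by
  induction h with
  | leaf i => exact Sub.leaf i
  | left a r _ ih => exact Sub.left _ _ (ih hP.2.1)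
  | right a l _ ih => exact Sub.right _ _ (ih hP.2.2)
  | node hc _ _ ihl ihr => exact Sub.node ⟨hc, hP.1⟩ (ihl hP.2.1) (ihr hP.2.2)

theorem exists_colorP {α : Type} {m D n : ℕ} {t : LT α} (P : ℕ → α → LT α → LT α → Prop)
    (h : AllN (fun a l r => ∃ c < m, P c a l r) t) (hn : Comp n t) (hmD : m * D < n) :
    ∃ c < m, ∃ t', Sub (P c) t' t ∧ Comp (D + 1) t' := by
  classical
  let ρ : α → LT α → LT α → ℕ := fun a l r => if h : ∃ c < m, P c a l r then h.choose else m
  have hρ : ∀ a l r, (∃ c < m, P c a l r) → ρ a l r < m ∧ P (ρ a l r) a l r := by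
    intro a l r h
    have e : ρ a l r = h.choose := dif_pos h
    rw [e]
    exact h.choose_spec
  obtain ⟨c, hc, t', h1, h2⟩ := exists_color ρ (h.imp (fun a l r h => (hρ a l r h).1)) hn hmD
  refine ⟨c, hc, t', ?_, h2⟩
  refine (Sub.andN h1 h).mono ?_
  rintro a l r ⟨h3, h4⟩
  have := (hρ a l r h4).2
  rwa [h3] at this

theorem allL_of_sub {Q : ℝ → Prop} {t' t : LT ℝ} (h : Sub (fun a _ _ => Q a) t' t) :
    AllL Q t' := by
  induction h with
  | leaf i => trivial
  | left a r _ ih => exact ih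
  | right a l _ ih => exact ih
  | node hc _ _ ihl ihr => exact ⟨hc, ihl, ihr⟩

theorem allN_of_allL {Q : ℝ → Prop} {t : LT ℝ} (h : AllL Q t) : AllN (fun a _ _ => Q a) t :=
  LT.allN_of_allL h

/-- the property used in the induction -/
def PM (M : ℕ) (L : List (Bool × ℝ)) (x : ℝ) : Prop := chs x L ≤ M ∧ ∀ w ∈ L, w.2 ≠ x

theorem pm_sublist {M : ℕ} (L L' : List (Bool × ℝ)) (x : ℝ) (h : L'.Sublist L) (hP : PM M L x) :
    PM M L' x := ⟨(chs_sublist h).trans hP.1, fun w hw => hP.2 w (h.subset hw)⟩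

/-- colouring a bottom subtree -/
theorem leaf_color {M K n : ℕ} {W : List (Bool × ℝ)} {s : LT ℝ} (hn : Comp n s)
    (hP : AllC (PM M) W s) (hK : 5 * K < n) :
    (∃ M', M = M' + 1 ∧ ∃ s', Sub (fun _ _ _ => True) s' s ∧ Comp (K + 1) s' ∧
      AllC (PM M') [] s') ∨
    ∃ c < 4, ∃ s', Sub (fun _ _ _ => True) s' s ∧ Comp (K + 1) s' ∧
      AllL (fun y => ∀ w ∈ W, Rc c w.1 w.2 y) s' := by
  have hne : AllL (fun y => ∀ w ∈ W, w.2 ≠ y) s := by
    refine AllC.allL (P := PM M) (W := W) (K := []) ?_ hP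
    intro K x h w hw
    exact h.2 w (List.mem_append_right _ hw)
  have h1 : AllN (fun y _ _ => ∃ c < 5, (c = 4 ∧ 1 ≤ chs y W) ∨
      (c < 4 ∧ ∀ w ∈ W, Rc c w.1 w.2 y)) s := by
    refine (LT.allN_of_allL hne).imp ?_
    intro y _ _ h
    by_cases h0 : chs y W = 0
    · obtain ⟨c, hc, h2⟩ := exists_rc h0 h
      exact ⟨c, by omega, Or.inr ⟨hc, h2⟩⟩
    · exact ⟨4, by norm_num, Or.inl ⟨rfl, by omega⟩⟩
  obtain ⟨c, hc, s', h2, h3⟩ := exists_colorP
    (fun c y _ _ => (c = 4 ∧ 1 ≤ chs y W) ∨ (c < 4 ∧ ∀ w ∈ W, Rc c w.1 w.2 y)) h1 hn hK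
  have h4 := allL_of_sub h2
  by_cases hc4 : c < 4
  · right
    refine ⟨c, hc4, s', h2.top, h3, h4.imp ?_⟩
    rintro y (⟨h5, _⟩ | ⟨_, h5⟩)
    · omega
    · exact h5
  · left
    have h5 : AllL (fun y => 1 ≤ chs y W) s' := by
      refine h4.imp ?_
      rintro y (⟨_, h5⟩ | ⟨h5, _⟩)
      · exact h5
      · exact absurd h5 hc4
    have hP' : AllC (PM M) W s' := AllC.sub pm_sublist h2 (List.Sublist.refl _) hP
    have h6 : AllC (fun L x => PM M (L ++ W) x ∧ 1 ≤ chs x W) [] s' := by
      refine AllC.strip (P := PM M) (Q := fun y => 1 ≤ chs y W) (W := W) (K := []) ?_ hP' h5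
      intro K x h7 h8
      exact ⟨h7, h8⟩
    have hM : ∃ M', M = M' + 1 := by
      cases s' with
      | leaf i => exact absurd h3 (by simp [Comp])
      | node a l r =>
        have h7 := hP'.1.1
        have h8 := h5.1
        exact ⟨M - 1, by omega⟩
    obtain ⟨M', rfl⟩ := hM
    refine ⟨M', rfl, s', h2.top, h3, ?_⟩
    have h9 : AllC (PM (M' + 1)) ([] ++ W) s' := hP'
    refine AllC.strip (P := PM (M' + 1)) (Q := fun y => 1 ≤ chs y W) (W := W) (K := []) ?_ h9 h5
    intro K x h10 h11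
    refine ⟨?_, fun w hw => h10.2 w (List.mem_append_left _ hw)⟩
    have := chs_append x K W
    have := h10.1
    omega

/-! ### Middle part and bottom parts -/

/-- all labels in the subtrees at depth `D` -/
def Btm (P : ℝ → Prop) : ℕ → LT ℝ → Prop
  | 0, s => AllL P s
  | _ + 1, leaf _ => False
  | D + 1, node _ l r => Btm P D l ∧ Btm P D r

theorem Btm.imp {P Q : ℝ → Prop} (hPQ : ∀ x, P x → Q x) : ∀ {D : ℕ} {s : LT ℝ}, Btm P D s →
    Btm Q D s := by
  intro D
  induction D with
  | zero => intro s h; exact AllL.imp h hPQ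
  | succ D ih =>
    intro s h
    cases s with
    | leaf i => exact h
    | node a l r => exact ⟨ih h.1, ih h.2⟩

/-- a middle part of depth `D`, bottom parts of depth `N`; the labels of the bottom parts are
related to those of the middle part -/
def St (R : Bool → ℝ → ℝ → Prop) (N : ℕ) : ℕ → LT ℝ → Prop
  | 0, s => Comp N s
  | _ + 1, leaf _ => False
  | D + 1, node x l r => Btm (R false x) D l ∧ Btm (R true x) D r ∧ St R N D l ∧ St R N D r

open Finset in
/-- pigeonhole principle for the bottom parts -/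
theorem pig {P : List (Bool × ℝ) → ℝ → Prop} {X : LT ℝ} {R : ℕ → Bool → ℝ → ℝ → Prop}
    {m N2 N : ℕ}
    (hB : ∀ W s, Sub (fun _ _ _ => True) s X → Comp N2 s → AllC P W s →
      ∃ c < m, ∃ s', Sub (fun _ _ _ => True) s' s ∧ Comp N s' ∧
        AllL (fun y => ∀ w ∈ W, R c w.1 w.2 y) s') (N1 : ℕ) :
    ∀ (D : ℕ → ℕ), ∑ c ∈ range m, D c ≤ N1 → ∀ W s, Sub (fun _ _ _ => True) s X →
      Comp (N1 + N2) s → AllC P W s → ∃ c < m, ∃ s', Sub (fun _ _ _ => True) s' s ∧
        St (R c) N (D c) s' ∧ Btm (fun y => ∀ w ∈ W, R c w.1 w.2 y) (D c) s' := by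
  induction N1 with
  | zero =>
    intro D hD W s hs hn hP
    rw [Nat.zero_add] at hn
    obtain ⟨c, hc, s', h1, h2, h3⟩ := hB W s hs hn hP
    have h0 : D c = 0 := by
      have := Finset.single_le_sum (f := D) (fun i _ => Nat.zero_le _) (Finset.mem_range.2 hc)
      omega
    refine ⟨c, hc, s', h1, ?_, ?_⟩
    · rw [h0]; exact h2
    · rw [h0]; exact h3
  | succ N1 ih =>
    intro D hD W s hs hn hP
    rw [show N1 + 1 + N2 = N1 + N2 + 1 by ring] at hn
    cases s with
    | leaf i => exact absurd hn (by simp [Comp])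
    | node x l r =>
      have hsl : Sub (fun _ _ _ => True) l X := hs.trans (Sub.left _ _ (Sub.refl _))
      have hsr : Sub (fun _ _ _ => True) r X := hs.trans (Sub.right _ _ (Sub.refl _))
      by_cases h0 : ∀ c < m, D c = 0
      · obtain ⟨c, hc, s', h1, h2, h3⟩ := ih D (by
          rw [Finset.sum_eq_zero (fun c hc => h0 c (Finset.mem_range.1 hc))]; omega)
          ((false, x) :: W) l hsl hn.1 hP.2.1
        exact ⟨c, hc, s', Sub.left _ _ h1, h2,
          h3.imp (fun y hy w hw => hy w (List.mem_cons_of_mem _ hw))⟩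
      · push Not at h0
        obtain ⟨c0, hc0, h0⟩ := h0
        have hsum : ∑ c ∈ range m, Function.update D c0 (D c0 - 1) c ≤ N1 := by
          have e1 := Finset.sum_update_of_mem (Finset.mem_range.2 hc0) D (D c0 - 1)
          have e2 := Finset.sum_erase_add (range m) D (Finset.mem_range.2 hc0)
          rw [← Finset.erase_eq] at e1
          rw [e1]
          omega
        obtain ⟨c1, hc1, s1, a1, a2, a3⟩ := ih _ hsum ((false, x) :: W) l hsl hn.1 hP.2.1
        obtain ⟨c2, hc2, s2, b1, b2, b3⟩ := ih _ hsum ((true, x) :: W) r hsr hn.2 hP.2.2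
        by_cases e1 : c1 = c0
        · by_cases e2 : c2 = c0
          · subst e1
            subst e2
            rw [Function.update_self] at a2 a3 b2 b3
            obtain ⟨d, hd⟩ : ∃ d, D c2 = d + 1 := ⟨D c2 - 1, by omega⟩
            rw [hd, Nat.add_sub_cancel] at a2 a3 b2 b3
            refine ⟨c2, hc1, node x s1 s2, Sub.node trivial a1 b1, ?_, ?_⟩
            · rw [hd]
              exact ⟨a3.imp (fun y hy => hy (false, x) (by simp)),
                b3.imp (fun y hy => hy (true, x) (by simp)), a2, b2⟩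
            · rw [hd]
              exact ⟨a3.imp (fun y hy w hw => hy w (List.mem_cons_of_mem _ hw)),
                b3.imp (fun y hy w hw => hy w (List.mem_cons_of_mem _ hw))⟩
          · rw [Function.update_of_ne e2] at b2 b3
            exact ⟨c2, hc2, s2, Sub.right _ _ b1, b2,
              b3.imp (fun y hy w hw => hy w (List.mem_cons_of_mem _ hw))⟩
        · rw [Function.update_of_ne e1] at a2 a3
          exact ⟨c1, hc1, s1, Sub.left _ _ a1, a2,
            a3.imp (fun y hy w hw => hy w (List.mem_cons_of_mem _ hw))⟩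

/-- the first leaf -/
def fl : LT ℝ → ℕ
  | leaf i => i
  | node _ l _ => fl l

/-- cut off the bottom parts -/
def trunc : ℕ → LT ℝ → LT ℝ
  | 0, s => leaf (fl s)
  | _ + 1, leaf i => leaf i
  | D + 1, node x l r => node x (trunc D l) (trunc D r)

theorem fl_sub (s : LT ℝ) : Sub (fun _ _ _ => True) (leaf (fl s)) s := by
  induction s with
  | leaf i => exact Sub.leaf i
  | node a l r ihl _ => exact Sub.left _ _ ihl

theorem trunc_sub : ∀ (D : ℕ) (s : LT ℝ), Sub (fun _ _ _ => True) (trunc D s) s := by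
  intro D
  induction D with
  | zero => intro s; exact fl_sub s
  | succ D ih =>
    intro s
    cases s with
    | leaf i => exact Sub.leaf i
    | node a l r => exact Sub.node trivial (ih l) (ih r)

theorem comp_trunc {R : Bool → ℝ → ℝ → Prop} {N : ℕ} : ∀ {D : ℕ} {s : LT ℝ}, St R N D s →
    Comp D (trunc D s) := by
  intro D
  induction D with
  | zero => intro s _; trivial
  | succ D ih =>
    intro s h
    cases s with
    | leaf i => exact h.elim
    | node a l r => exact ⟨ih h.2.2.1, ih h.2.2.2⟩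

/-- a bottom part -/
theorem exists_bottom {R : Bool → ℝ → ℝ → Prop} {N : ℕ} : ∀ {D : ℕ} {s : LT ℝ}, St R N D s →
    ∃ s', Sub (fun _ _ _ => True) s' s ∧ Comp N s' ∧ ∀ P : ℝ → Prop, Btm P D s → AllL P s' := by
  intro D
  induction D with
  | zero => intro s h; exact ⟨s, Sub.refl _, h, fun P hP => hP⟩
  | succ D ih =>
    intro s h
    cases s with
    | leaf i => exact h.elim
    | node a l r =>
      obtain ⟨s', h1, h2, h3⟩ := ih h.2.2.1
      exact ⟨s', Sub.left _ _ h1, h2, fun P hP => h3 P hP.1⟩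

theorem exists_bottom_label {R : Bool → ℝ → ℝ → Prop} {N D : ℕ} {s : LT ℝ} (h : St R N D s)
    (hN : 1 ≤ N) : ∃ y : ℝ, ∀ P : ℝ → Prop, Btm P D s → P y := by
  obtain ⟨s', h1, h2, h3⟩ := exists_bottom h
  cases s' with
  | leaf i =>
    obtain ⟨N', rfl⟩ : ∃ N', N = N' + 1 := ⟨N - 1, by omega⟩
    exact absurd h2 (by simp [Comp])
  | node a l r => exact ⟨a, fun P hP => (h3 P hP).1⟩

/-- in the first mixed case the labels of the middle part are pure -/
theorem mid_of_btm1 {N : ℕ} (hN : 1 ≤ N) {P : ℝ → Prop} (hP : ∀ y z, P y → y < z → P z) :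
    ∀ {D : ℕ} {s : LT ℝ}, St (Rc 1) N D s → Btm P D s → AllL P (trunc D s) := by
  intro D
  induction D with
  | zero => intro s _ _; trivial
  | succ D ih =>
    intro s h hb
    cases s with
    | leaf i => exact h.elim
    | node a l r =>
      obtain ⟨y, hy⟩ := exists_bottom_label h.2.2.2 hN
      exact ⟨hP y a (hy _ hb.2) (hy _ h.2.1), ih h.2.2.1 hb.1, ih h.2.2.2 hb.2⟩

theorem mid_of_btm2 {N : ℕ} (hN : 1 ≤ N) {P : ℝ → Prop} (hP : ∀ y z, P y → z < y → P z) :
    ∀ {D : ℕ} {s : LT ℝ}, St (Rc 2) N D s → Btm P D s → AllL P (trunc D s) := by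
  intro D
  induction D with
  | zero => intro s _ _; trivial
  | succ D ih =>
    intro s h hb
    cases s with
    | leaf i => exact h.elim
    | node a l r =>
      obtain ⟨y, hy⟩ := exists_bottom_label h.2.2.2 hN
      exact ⟨hP y a (hy _ hb.2) (hy _ h.2.1), ih h.2.2.1 hb.1, ih h.2.2.2 hb.2⟩

theorem lg_of_st {N : ℕ} (hN : 1 ≤ N) : ∀ {D : ℕ} {s : LT ℝ}, St (Rc 1) N D s →
    LG (trunc D s) := by
  intro D
  induction D with
  | zero => intro s _; trivial
  | succ D ih =>
    intro s h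
    cases s with
    | leaf i => exact h.elim
    | node a l r =>
      exact ⟨mid_of_btm1 hN (P := fun y => a < y) (fun y z h1 h2 => h1.trans h2) h.2.2.1 h.1,
        ih h.2.2.1, ih h.2.2.2⟩

theorem lb_of_st {N : ℕ} (hN : 1 ≤ N) : ∀ {D : ℕ} {s : LT ℝ}, St (Rc 2) N D s →
    LB (trunc D s) := by
  intro D
  induction D with
  | zero => intro s _; trivial
  | succ D ih =>
    intro s h
    cases s with
    | leaf i => exact h.elim
    | node a l r =>
      exact ⟨mid_of_btm2 hN (P := fun y => y < a) (fun y z h1 h2 => h2.trans h1) h.2.2.1 h.1,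
        ih h.2.2.1, ih h.2.2.2⟩

/-- **Structure theorem.** -/
theorem exists_st (M : ℕ) : ∃ C : ℕ, ∀ (E N D n : ℕ) (X : LT ℝ), 1 ≤ N →
    C * (E + 1 + N + D) ≤ n → Comp n X → AllC (PM M) [] X → ¬ Gd E X →
    ∃ X', Sub (fun _ _ _ => True) X' X ∧ (St (Rc 0) N D X' ∨ St (Rc 3) N D X') := by
  have main : ∀ (M K E N D : ℕ) (X : LT ℝ), 1 ≤ N → N ≤ K + 1 →
      (∀ M', M = M' + 1 → ∀ s, Sub (fun _ _ _ => True) s X → Comp (K + 1) s →
        AllC (PM M') [] s → ∃ X', Sub (fun _ _ _ => True) X' s ∧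
          (St (Rc 0) N D X' ∨ St (Rc 3) N D X')) →
      Comp ((2 * (E + 1) + 2 * D) + (5 * K + 1)) X → AllC (PM M) [] X → ¬ Gd E X →
      ∃ X', Sub (fun _ _ _ => True) X' X ∧ (St (Rc 0) N D X' ∨ St (Rc 3) N D X') := by
    intro M K E N D X hN hNK hIH hn hP hG
    by_contra hcon
    obtain ⟨c, hc, s', h1, h2, _⟩ := pig (P := PM M) (X := X) (R := Rc) (m := 4)
      (N2 := 5 * K + 1) (N := N) (by
        intro W s hs hns hPs
        rcases leaf_color (K := K) hns hPs (by omega) with ⟨M', hM, s', k1, k2, k3⟩ |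
          ⟨c, hc, s', k1, k2, k3⟩
        · exfalso
          obtain ⟨X', g1, g2⟩ := hIH M' hM s' (hs.trans k1) k2 k3
          exact hcon ⟨X', (hs.trans k1).trans g1, g2⟩
        · obtain ⟨s'', g1, g2⟩ := comp_le' hNK k2
          exact ⟨c, hc, s'', k1.trans g1, g2, g1.allL k3⟩)
      (2 * (E + 1) + 2 * D) (fun c => if c = 1 ∨ c = 2 then E + 1 else D) (by
        simp [Finset.sum_range_succ]; omega) [] X (Sub.refl _) hn hP
    interval_cases c
    · exact hcon ⟨s', h1, Or.inl (by simpa using h2)⟩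
    · have h3 : St (Rc 1) N (E + 1) s' := by simpa using h2
      exact hG ⟨trunc (E + 1) s', h1.trans (trunc_sub _ _), comp_trunc h3, Or.inl (lg_of_st hN h3)⟩
    · have h3 : St (Rc 2) N (E + 1) s' := by simpa using h2
      exact hG ⟨trunc (E + 1) s', h1.trans (trunc_sub _ _), comp_trunc h3,
        Or.inr (Or.inl (lb_of_st hN h3))⟩
    · exact hcon ⟨s', h1, Or.inr (by simpa using h2)⟩
  induction M with
  | zero =>
    refine ⟨10, ?_⟩
    intro E N D n X hN hC hn hP hG
    obtain ⟨X', a1, a2⟩ := comp_le' (a := (2 * (E + 1) + 2 * D) + (5 * N + 1)) (by omega) hn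
    obtain ⟨X'', b1, b2⟩ := main 0 N E N D X' hN (by omega) (by intro M' h; omega) a2
      (AllC.sub pm_sublist a1 (List.Sublist.refl _) hP) (fun h => hG (h.sub a1))
    exact ⟨X'', a1.trans b1, b2⟩
  | succ M ih =>
    obtain ⟨C, hC0⟩ := ih
    refine ⟨5 * C + 15, ?_⟩
    intro E N D n X hN hC hn hP hG
    obtain ⟨X', a1, a2⟩ := comp_le'
      (a := (2 * (E + 1) + 2 * D) + (5 * (C * (E + 1 + N + D) + N) + 1)) (by
        have : (5 * C + 15) * (E + 1 + N + D) = 5 * (C * (E + 1 + N + D)) +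
          15 * (E + 1 + N + D) := by ring
        omega) hn
    obtain ⟨X'', b1, b2⟩ := main (M + 1) (C * (E + 1 + N + D) + N) E N D X' hN (by omega) (by
      intro M' hM' s hs hns hPs
      have e : M' = M := by omega
      subst e
      exact hC0 E N D _ s hN (by omega) hns hPs (fun h => hG ((h.sub hs).sub a1))) a2
      (AllC.sub pm_sublist a1 (List.Sublist.refl _) hP) (fun h => hG (h.sub a1))
    exact ⟨X'', a1.trans b1, b2⟩

end Pool.Agent.H595K.Lb
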