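import Mathlib
import Pool.Agent.H595K.GStr
import Pool.Agent.H595K.LtCore

/-!
# Words with twelve letters
-/

namespace Pool.Agent.H595K.Lb

open LT

theorem Pth.labels {t : LT ℝ} {W : List (Bool × ℝ × ℕ)} {i : ℕ} (h : Pth t W i) {P : ℝ → Prop}
    (hP : AllL P t) : ∀ w ∈ W, P w.2.1 := by
  induction h with
  | leaf i => simp
  | left _ _ ih =>
    intro w hw
    rcases List.mem_cons.1 hw with rfl | hw
    · exact hP.1
    · exact ih hP.2.1 w hw
  | right _ _ ih =>
    intro w hw
    rcases List.mem_cons.1 hw with rfl | hw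
    · exact hP.1
    · exact ih hP.2.2 w hw

/-- change a path in the bottom part -/
theorem ext_path {R : Bool → ℝ → ℝ → Prop} {N : ℕ} (hN : 2 ≤ N) {u : ℝ} :
    ∀ {D : ℕ} {s : LT ℝ}, St R N D s → Btm (fun y => y < u) D s →
      ∀ {W : List (Bool × ℝ × ℕ)} {i : ℕ}, Pth s W i →
      ∃ W0 b1 z1 b2 z2 W3 i', Pth s (W0 ++ (false, b1, z1) :: (true, b2, z2) :: W3) i' ∧
        b1 < u ∧ b2 < u ∧ ∀ w ∈ W, u < w.2.1 → w ∈ W0 := by
  intro D
  induction D with
  | zero =>
    intro s h hb W i hW
    obtain ⟨N', rfl⟩ : ∃ N', N = N' + 2 := ⟨N - 2, by omega⟩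
    have h : Comp (N' + 2) s := h
    have hb : AllL (fun y => y < u) s := hb
    cases s with
    | leaf i => exact absurd h (by simp [Comp])
    | node b1 l c =>
      cases l with
      | leaf i => exact absurd h.1 (by simp [Comp])
      | node b2 a b =>
        obtain ⟨W3, i', hW3⟩ := exists_pth b
        obtain ⟨z1, hz1⟩ := exists_mem c
        obtain ⟨z2, hz2⟩ := exists_mem a
        refine ⟨[], b1, z1, b2, z2, W3, i', Pth.left (Pth.right hW3 hz2) hz1, hb.1, hb.2.1.1, ?_⟩
        intro w hw hlt
        have := hW.labels hb w hw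
        linarith
  | succ D ih =>
    intro s h hb W i hW
    cases hW with
    | leaf i => exact h.elim
    | @left x l r W i z hW hz =>
      obtain ⟨W0, b1, z1, b2, z2, W3, i', k1, k2, k3, k4⟩ := ih h.2.2.1 hb.1 hW
      refine ⟨(false, x, z) :: W0, b1, z1, b2, z2, W3, i', Pth.left k1 hz, k2, k3, ?_⟩
      intro w hw hlt
      rcases List.mem_cons.1 hw with rfl | hw
      · simp
      · exact List.mem_cons_of_mem _ (k4 w hw hlt)
    | @right x l r W i z hW hz =>
      obtain ⟨W0, b1, z1, b2, z2, W3, i', k1, k2, k3, k4⟩ := ih h.2.2.2 hb.2 hW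
      refine ⟨(true, x, z) :: W0, b1, z1, b2, z2, W3, i', Pth.right k1 hz, k2, k3, ?_⟩
      intro w hw hlt
      rcases List.mem_cons.1 hw with rfl | hw
      · simp
      · exact List.mem_cons_of_mem _ (k4 w hw hlt)

/-- the four colours of the middle part -/
def Q4 : ℕ → List (Bool × ℝ) → ℝ → LT ℝ → LT ℝ → Prop
  | 0, W, x, _, _ => ∀ w ∈ W, w.1 = true → x < w.2
  | 1, W, x, _, _ => ∀ w ∈ W, w.1 = false → x < w.2
  | 2, _, x, l, _ => Pu (fun a => x < a) l
  | 3, _, x, _, r => Pu (fun a => x < a) r
  | _, _, _, _, _ => False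

theorem lett_tt {u : ℝ} {w : Bool × ℝ × ℕ} (h1 : w.1 = true) (h2 : w.2.1 < u) :
    lett u w = true := by
  unfold lett; rw [if_pos h1]; exact decide_eq_true h2

theorem lett_tf {u : ℝ} {w : Bool × ℝ × ℕ} (h1 : w.1 = true) (h2 : u < w.2.1) :
    lett u w = false := by
  unfold lett; rw [if_pos h1]; exact decide_eq_false (not_lt.2 h2.le)

theorem lett_ft {u : ℝ} {w : Bool × ℝ × ℕ} (h1 : w.1 = false) (h2 : u < w.2.1) :
    lett u w = true := by
  unfold lett; rw [if_neg (by rw [h1]; simp)]; exact decide_eq_true h2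

theorem lett_ff {u : ℝ} {w : Bool × ℝ × ℕ} (h1 : w.1 = false) (h2 : w.2.1 < u) :
    lett u w = false := by
  unfold lett; rw [if_neg (by rw [h1]; simp)]; exact decide_eq_false (not_lt.2 h2.le)

/-- the letters of a path with a turn to the right at a large label, a turn to the left at a large
label, and then both turns at small labels -/
theorem path_letters {u : ℝ} {W0 W3 : List (Bool × ℝ × ℕ)} {b1 b2 : ℝ} {z1 z2 : ℕ}
    {h h' : Bool × ℝ × ℕ} (hh : h ∈ W0) (h1 : h.1 = true) (h2 : u < h.2.1)
    (hh' : h' ∈ W0) (h1' : h'.1 = false) (h2' : u < h'.2.1) (hb1 : b1 < u) (hb2 : b2 < u) :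
    [false, true].Sublist ((rR (W0 ++ (false, b1, z1) :: (true, b2, z2) :: W3).reverse).map
      (lett u)) ∧
    [false, true].Sublist ((rL (W0 ++ (false, b1, z1) :: (true, b2, z2) :: W3).reverse).map
      (lett u)) := by
  constructor
  · have e : rR (W0 ++ (false, b1, z1) :: (true, b2, z2) :: W3).reverse =
        W0.filter (fun w => w.1) ++ (true, b2, z2) :: W3.filter (fun w => w.1) := by
      simp [rR]
    rw [e, List.map_append, List.map_cons, lett_tt rfl hb2]
    have k1 : [false].Sublist ((W0.filter (fun w => w.1)).map (lett u)) := by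
      rw [List.singleton_sublist]
      exact List.mem_map.2 ⟨h, List.mem_filter.2 ⟨hh, h1⟩, lett_tf h1 h2⟩
    exact k1.append (List.Sublist.cons_cons true (List.nil_sublist _))
  · have e : rL (W0 ++ (false, b1, z1) :: (true, b2, z2) :: W3).reverse =
        (W3.filter (fun w => !w.1)).reverse ++ ((false, b1, z1) ::
          (W0.filter (fun w => !w.1)).reverse) := by
      simp [rL, List.filter_reverse]
    rw [e, List.map_append, List.map_cons, lett_ff rfl hb1]
    have k1 : [true].Sublist (((W0.filter (fun w => !w.1)).reverse).map (lett u)) := by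
      rw [List.singleton_sublist]
      exact List.mem_map.2 ⟨h', List.mem_reverse.2 (List.mem_filter.2 ⟨hh', by simp [h1']⟩),
        lett_ft h1' h2'⟩
    exact (List.Sublist.cons_cons false k1).trans (List.sublist_append_right _ _)

section
variable {X Y : ℕ → ℝ}

theorem final_cols {A : List ℕ} (hA : A.Pairwise (fun i j => X i < X j)) (hC : Cross X Y A 12)
    {N : ℕ} (hN : 2 ≤ N) {v1 v2 : ℝ} {z1 z2 : ℕ} (D : ℕ) : ∀ (s : LT ℝ)
    (V : List (Bool × ℝ × ℕ)),
      (lf (rR (V ++ [(true, v2, z2), (false, v1, z1)])) ++ s.lv ++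
        lf (rL (V ++ [(true, v2, z2), (false, v1, z1)]))).Sublist A →
      (∀ w ∈ V ++ [(true, v2, z2), (false, v1, z1)], Rel (slp X Y) w.2.1 [w.2.2] s) →
      Compat (slp X Y) s → St (Rc 0) N D s → AllL (fun y => y < v1 ∧ y < v2) s →
      AllN (fun p l r => ∃ c < 4, Q4 c p.2 p.1 (unc l) (unc r))
        (ctx (V.map (fun w => (w.1, w.2.1))) (trunc D s)) := by
  induction D with
  | zero => intro s V _ _ _ _ _; trivial
  | succ D ih =>
    intro s V hS hR hCp hSt hfar
    cases s with
    | leaf i => trivial
    | node u l r =>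
      simp only [lv] at hS
      obtain ⟨i0, hi0⟩ := exists_mem l
      obtain ⟨j0, hj0⟩ := exists_mem r
      refine ⟨?_, ?_, ?_⟩
      · simp only [unc_ctx]
        by_contra hcon
        push Not at hcon
        have n0 := hcon 0 (by norm_num)
        have n1 := hcon 1 (by norm_num)
        have n2 := hcon 2 (by norm_num)
        have n3 := hcon 3 (by norm_num)
        simp only [Q4] at n0 n1 n2 n3
        push Not at n0 n1
        have hneV : ∀ w ∈ V, w.2.1 ≠ u :=
          fun w hw => (hR w (List.mem_append_left _ hw)).1.2.2.symm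
        obtain ⟨w0, m0, b0, c0⟩ := n0
        obtain ⟨w1, m1, b1, c1⟩ := n1
        obtain ⟨v0, d0, e0⟩ := List.mem_map.1 m0
        obtain ⟨v3, d1, e1⟩ := List.mem_map.1 m1
        have b0' : v0.1 = true := by rw [← e0] at b0; exact b0
        have b1' : v3.1 = false := by rw [← e1] at b1; exact b1
        have c0' : v0.2.1 < u := by
          rw [← e0] at c0
          exact lt_of_le_of_ne c0 (hneV v0 d0)
        have c1' : v3.2.1 < u := by
          rw [← e1] at c1
          exact lt_of_le_of_ne c1 (hneV v3 d1)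
        obtain ⟨W1, i, p1, ⟨x1, y1, q1, q1'⟩, ⟨x2, y2, q2, q2'⟩⟩ := path_of_not_pu n2
        obtain ⟨W2, j, p2, ⟨x3, y3, q3, q3'⟩, ⟨x4, y4, q4, q4'⟩⟩ := path_of_not_pu n3
        obtain ⟨W1', g1, g2⟩ := Pth.sub (trunc_sub D l) p1
        obtain ⟨W2', g3, g4⟩ := Pth.sub (trunc_sub D r) p2
        obtain ⟨U0, a1, a2, a3, a4, U3, i', k1, k2, k3, k4⟩ :=
          ext_path hN hSt.2.2.1 hSt.1 g1
        obtain ⟨U0', a1', a2', a3', a4', U3', j', k1', k2', k3', k4'⟩ :=
          ext_path hN hSt.2.2.2 hSt.2.1 g3
        obtain ⟨L1, L2⟩ := path_letters (W3 := U3) (z1 := a2) (z2 := a4)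
          (k4 x1 (g2 x1 y1) q1') q1 q1' (k4 x2 (g2 x2 y2) q2') q2 q2' k2 k3
        obtain ⟨L3, L4⟩ := path_letters (W3 := U3') (z1 := a2') (z2 := a4')
          (k4' x3 (g4 x3 y3) q3') q3 q3' (k4' x4 (g4 x4 y4) q4') q4 q4' k2' k3'
        have L5 : [false, true].Sublist ((rR (V ++ [(true, v2, z2), (false, v1, z1)])).map
            (lett u)) := by
          have e : rR (V ++ [(true, v2, z2), (false, v1, z1)]) =
              (true, v2, z2) :: (V.filter (fun w => w.1)).reverse := by
            simp [rR]
          rw [e, List.map_cons, lett_tf rfl hfar.1.2]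
          apply List.Sublist.cons_cons
          rw [List.singleton_sublist]
          exact List.mem_map.2 ⟨v0, List.mem_reverse.2 (List.mem_filter.2 ⟨d0, b0'⟩),
            lett_tt b0' c0'⟩
        have L6 : [false, true].Sublist ((rL (V ++ [(true, v2, z2), (false, v1, z1)])).map
            (lett u)) := by
          have e : rL (V ++ [(true, v2, z2), (false, v1, z1)]) =
              V.filter (fun w => !w.1) ++ [(false, v1, z1)] := by
            simp [rL]
          rw [e, List.map_append, List.map_cons, List.map_nil, lett_ft rfl hfar.1.1]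
          have k5 : [false].Sublist ((V.filter (fun w => !w.1)).map (lett u)) := by
            rw [List.singleton_sublist]
            exact List.mem_map.2 ⟨v3, List.mem_filter.2 ⟨d1, by simp [b1']⟩, lett_ff b1' c1'⟩
          exact k5.append (List.Sublist.refl _)
        have hw := local_word (k := 10) hA hC k1 k1' hS hR hCp true true
        have hsub := ch_sublist (((L5.append ((L1.append (List.Sublist.refl [true])).append
          L2)).append ((L3.append (List.Sublist.refl [true])).append L4)).append L6)
        have h11 : ch ([false, true] ++ ([false, true] ++ [true] ++ [false, true]) ++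
          ([false, true] ++ [true] ++ [false, true]) ++ [false, true]) = 11 := by decide
        rw [h11] at hsub
        omega
      · have h := ih l ((false, u, j0) :: V) (by
            have e : lf (rR ((false, u, j0) :: V ++ [(true, v2, z2), (false, v1, z1)])) ++ l.lv ++
                lf (rL ((false, u, j0) :: V ++ [(true, v2, z2), (false, v1, z1)])) =
                lf (rR (V ++ [(true, v2, z2), (false, v1, z1)])) ++ (l.lv ++ [j0]) ++
                lf (rL (V ++ [(true, v2, z2), (false, v1, z1)])) := by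
              simp [lf, rR, rL]
            rw [e]
            refine List.Sublist.trans ?_ hS
            exact ((List.Sublist.refl _).append ((List.Sublist.refl _).append
              (List.singleton_sublist.2 hj0))).append (List.Sublist.refl _)) (by
            intro w hw
            rcases List.mem_cons.1 hw with rfl | hw
            · exact hCp.1.1.sub (Sub.refl l) (by intro z hz; simp at hz; rw [hz]; exact hj0)
            · exact (hR w hw).2.1) hCp.2.1 hSt.2.2.1 hfar.2.1
        exact h
      · have h := ih r ((true, u, i0) :: V) (by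
            have e : lf (rR ((true, u, i0) :: V ++ [(true, v2, z2), (false, v1, z1)])) ++ r.lv ++
                lf (rL ((true, u, i0) :: V ++ [(true, v2, z2), (false, v1, z1)])) =
                lf (rR (V ++ [(true, v2, z2), (false, v1, z1)])) ++ ([i0] ++ r.lv) ++
                lf (rL (V ++ [(true, v2, z2), (false, v1, z1)])) := by
              simp [lf, rR, rL]
            rw [e]
            refine List.Sublist.trans ?_ hS
            exact ((List.Sublist.refl _).append ((List.singleton_sublist.2 hi0).append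
              (List.Sublist.refl _))).append (List.Sublist.refl _)) (by
            intro w hw
            rcases List.mem_cons.1 hw with rfl | hw
            · exact hCp.1.2.sub (Sub.refl r) (by intro z hz; simp at hz; rw [hz]; exact hi0)
            · exact (hR w hw).2.2) hCp.2.2 hSt.2.2.2 hfar.2.2
        exact h

theorem gd_of_pu' {E n : ℕ} {t : LT ℝ} (h : AllN (fun x l _ => Pu (fun a => x < a) l) t)
    (hd : Dst t) (hn : Comp n t) (hE : 4 * E < n) : Gd E t := by
  apply Gd.neg
  refine gd_of_pu ?_ (dst_neg hd) (comp_neg hn) hE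
  exact allN_neg h (fun x l r k => pu_neg k)

theorem pu_mir {R : ℝ → Prop} {t : LT ℝ} (h : Pu R t) : Pu R (mir t) := by
  refine allN_mir h ?_
  intro a l r h1 ha
  exact ⟨allL_mir (h1 ha).2, allL_mir (h1 ha).1⟩

/-- the first case -/
theorem final_gd {s a b : LT ℝ} {v1 v2 : ℝ} {N D E : ℕ}
    (hx : (node v1 (node v2 a s) b).lv.Pairwise (fun i j => X i < X j))
    (hC : Cross X Y (node v1 (node v2 a s) b).lv 12)
    (hCp : Compat (slp X Y) (node v1 (node v2 a s) b)) (hN : 2 ≤ N) (hSt : St (Rc 0) N D s)
    (h1 : AllL (fun y => y < v1) s) (h2 : AllL (fun y => y < v2) s) (hD : 16 * E + 1 ≤ D) :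
    Gd E s := by
  obtain ⟨z1, hz1⟩ := exists_mem b
  obtain ⟨z2, hz2⟩ := exists_mem a
  have hcols := final_cols hx hC hN (z1 := z1) (z2 := z2) D s [] (by
      have e : lf (rR ([] ++ [(true, v2, z2), (false, v1, z1)])) ++ s.lv ++
          lf (rL ([] ++ [(true, v2, z2), (false, v1, z1)])) = ([z2] ++ s.lv) ++ [z1] := by
        simp [lf, rR, rL]
      rw [e]
      simp only [lv]
      exact ((List.singleton_sublist.2 hz2).append (List.Sublist.refl _)).append
        (List.singleton_sublist.2 hz1)) (by
      intro w hw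
      simp only [List.nil_append, List.mem_cons, List.not_mem_nil, or_false] at hw
      rcases hw with rfl | rfl
      · exact Rel.sub (g := slp X Y) (x := v2) (Z := a.lv) (Sub.refl s) hCp.2.1.1.2
          (by intro z hz; simp at hz; rw [hz]; exact hz2)
      · exact Rel.sub (g := slp X Y) (x := v1) (Z := b.lv) (Sub.refl s) hCp.1.1.2.2
          (by intro z hz; simp at hz; rw [hz]; exact hz1))
    hCp.2.1.2.2 hSt (h1.and h2)
  simp only [List.map_nil] at hcols
  have hds : Dst s := hCp.dst.2.1.2.2
  have hct := comp_trunc hSt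
  have hcx := cx_ctx (trunc D s) []
  obtain ⟨c, hc, T', a1, a2⟩ := exists_colorP
    (fun c p l r => Q4 c p.2 p.1 (unc l) (unc r)) hcols (D := 4 * E)
    (comp_ctx [] hct) (by omega)
  have hs : Sub (fun _ _ _ => True) (unc T') (trunc D s) := by
    have := sub_unc a1
    rwa [unc_ctx] at this
  have hs2 : Sub (fun _ _ _ => True) (unc T') s := (trunc_sub D s).trans hs
  have hcx' := hcx.sub a1
  have hcomp := comp_unc a2
  have hd' := dst_sub hs2 hds
  have hQ : AllN (fun p l' r' => ∃ L R, Sub (fun _ _ _ => True) (unc l') L ∧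
      Sub (fun _ _ _ => True) (unc r') R ∧ Q4 c p.2 p.1 L R) T' := by
    refine a1.allN (AllN.of_forall (P := fun _ _ _ => True) (fun _ _ _ => trivial) _) ?_
    intro p l r l' r' hcol _ hl hr
    exact ⟨unc l, unc r, sub_unc hl, sub_unc hr, hcol⟩
  obtain ⟨T'', e1, e2⟩ := comp_le' (show E + 1 ≤ 4 * E + 1 by omega) hcomp
  interval_cases c
  · refine ⟨T'', hs2.trans e1, e2, ?_⟩
    right; right; right
    have h3 : RB (unc T') := by
      refine right_of (P := fun W x => Q4 0 W x (leaf 0) (leaf 0)) (R := fun x u => u < x) hcx'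
        (allL_of_allN (hQ.imp (fun p l r ⟨L, R, _, _, h⟩ => h))) ?_
      intro x W y M _ h
      exact h (true, x) (by simp) rfl
    refine e1.allN h3 ?_
    intro x l r l' r' _ h1 _ hr
    exact hr.allL h1
  · refine ⟨T'', hs2.trans e1, e2, ?_⟩
    right; left
    have h3 : LB (unc T') := by
      refine left_of (P := fun W x => Q4 1 W x (leaf 0) (leaf 0)) (R := fun x u => u < x) hcx'
        (allL_of_allN (hQ.imp (fun p l r ⟨L, R, _, _, h⟩ => h))) ?_
      intro x W y M _ h
      exact h (false, x) (by simp) rfl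
    refine e1.allN h3 ?_
    intro x l r l' r' _ h1 hl _
    exact hl.allL h1
  · refine Gd.sub hs2 (gd_of_pu' ?_ hd' hcomp (by omega))
    refine allN_unc hQ ?_
    rintro p l r ⟨L, R, h2, _, h3⟩
    exact Pu.sub h2 h3
  · refine Gd.sub hs2 (Gd.mir (gd_of_pu' ?_ (dst_mir hd') (comp_mir hcomp) (by omega)))
    refine allN_mir (P := fun x _ r => Pu (fun a => x < a) r) ?_ ?_
    · refine allN_unc hQ ?_
      rintro p l r ⟨L, R, _, h2, h3⟩
      exact Pu.sub h2 h3
    · intro x l r h2
      exact pu_mir h2

theorem btm_neg {P Q : ℝ → Prop} (hPQ : ∀ x, P x → Q (-x)) : ∀ {D : ℕ} {s : LT ℝ},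
    Btm P D s → Btm Q D (neg s) := by
  intro D
  induction D with
  | zero => intro s h; exact allL_neg h hPQ
  | succ D ih =>
    intro s h
    cases s with
    | leaf i => exact h
    | node a l r => exact ⟨ih h.1, ih h.2⟩

theorem st_neg {N : ℕ} : ∀ {D : ℕ} {s : LT ℝ}, St (Rc 3) N D s → St (Rc 0) N D (neg s) := by
  intro D
  induction D with
  | zero => intro s h; exact comp_neg h
  | succ D ih =>
    intro s h
    cases s with
    | leaf i => exact h
    | node a l r =>
      refine ⟨btm_neg (P := Rc 3 false a) ?_ h.1, btm_neg (P := Rc 3 true a) ?_ h.2.1,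
        ih h.2.2.1, ih h.2.2.2⟩
      · intro x hx
        have : a < x := hx
        show -x < -a
        linarith
      · intro x hx
        have : a < x := hx
        show -x < -a
        linarith

/-- the second case -/
theorem final_gd' {s a b : LT ℝ} {v1 v2 : ℝ} {N D E : ℕ}
    (hx : (node v1 (node v2 a s) b).lv.Pairwise (fun i j => X i < X j))
    (hC : Cross X Y (node v1 (node v2 a s) b).lv 12)
    (hCp : Compat (slp X Y) (node v1 (node v2 a s) b)) (hN : 2 ≤ N) (hSt : St (Rc 3) N D s)
    (h1 : AllL (fun y => v1 < y) s) (h2 : AllL (fun y => v2 < y) s) (hD : 16 * E + 1 ≤ D) :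
    Gd E s := by
  apply Gd.neg
  have e1 : (fun i j => - slp X Y i j) = slp X (fun n => - Y n) := by
    funext i j; rw [slp_negY]
  have hCp' := compat_neg hCp
  rw [e1] at hCp'
  refine final_gd (X := X) (Y := fun n => - Y n) (a := neg a) (b := neg b) (v1 := -v1) (v2 := -v2)
    ?_ ?_ hCp' hN (st_neg hSt) (allL_neg h1 (fun x hx => by linarith))
    (allL_neg h2 (fun x hx => by linarith)) hD
  · have := lv_neg (node v1 (node v2 a s) b)
    simp only [neg] at this
    rw [this]
    exact hx
  · have := lv_neg (node v1 (node v2 a s) b)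
    simp only [neg] at this
    rw [this]
    exact hC.negY

/-- both cases -/
theorem final_both {s t : LT ℝ} {v1 v2 : ℝ} {N D E c : ℕ} (hc : c = 0 ∨ c = 3)
    (hx : t.lv.Pairwise (fun i j => X i < X j))
    (hC : Cross X Y t.lv 12) (hCp : Compat (slp X Y) t) (hN : 2 ≤ N) (hSt : St (Rc c) N D s)
    {a b : LT ℝ} (hs : Sub (fun _ _ _ => True) (node v1 (node v2 a s) b) t)
    (h1 : AllL (fun y => Rc c false v1 y) s) (h2 : AllL (fun y => Rc c true v2 y) s)
    (hD : 16 * E + 1 ≤ D) : Gd E t := by
  have hx' := hx.sublist hs.sublist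
  have hC' := hC.sub hs.sublist
  have hCp' := hCp.sub hs
  have hs2 : Sub (fun _ _ _ => True) s t := hs.trans (Sub.left _ _ (Sub.right _ _ (Sub.refl _)))
  rcases hc with rfl | rfl
  · exact Gd.sub hs2 (final_gd hx' hC' hCp' hN hSt h1 h2 hD)
  · exact Gd.sub hs2 (final_gd' hx' hC' hCp' hN hSt h1 h2 hD)

/-! ### The initial bound -/

theorem ch_map_not (l : List Bool) : ch (l.map not) = ch l := by
  induction l with
  | nil => rfl
  | cons a l ih =>
    cases l with
    | nil => rfl
    | cons b l =>
      simp only [List.map_cons] at ih ⊢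
      rw [ch_cons_cons, ch_cons_cons, ih]
      cases a <;> cases b <;> simp

theorem init_pm {A : List ℕ} {k : ℕ} (hA : A.Pairwise (fun i j => X i < X j))
    (hC : Cross X Y A (k + 2)) (t : LT ℝ) : ∀ V : List (Bool × ℝ × ℕ),
      (lf (rR V) ++ t.lv ++ lf (rL V)).Sublist A →
      (∀ w ∈ V, Rel (slp X Y) w.2.1 [w.2.2] t) → Compat (slp X Y) t →
      AllC (PM (2 * k)) (V.map (fun w => (w.1, w.2.1))) t := by
  induction t with
  | leaf i => intro V _ _ _; trivial
  | node u l r hl hr =>
    intro V hS hR hCp
    simp only [lv] at hS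
    obtain ⟨i0, hi0⟩ := exists_mem l
    obtain ⟨j0, hj0⟩ := exists_mem r
    refine ⟨?_, ?_, ?_⟩
    · have hneV : ∀ w ∈ V, w.2.1 ≠ u := fun w hw => (hR w hw).1.2.2.symm
      refine ⟨?_, ?_⟩
      · obtain ⟨W1, i, p1⟩ := exists_pth l
        obtain ⟨W2, j, p2⟩ := exists_pth r
        have hw := local_word (k := k) hA hC p1 p2 hS hR hCp true true
        have h1 : ch ((rR V).map (lett u)) ≤ k := by
          refine le_trans (ch_sublist ?_) hw
          rw [List.append_assoc, List.append_assoc]
          exact List.sublist_append_left _ _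
        have h2 : ch ((rL V).map (lett u)) ≤ k :=
          le_trans (ch_sublist (List.sublist_append_right _ _)) hw
        have e1 : ch (rowc true u (V.map (fun w => (w.1, w.2.1)))) = ch ((rR V).map (lett u)) := by
          rw [rR, List.map_reverse, ch_reverse]
          unfold rowc
          rw [List.filter_map, List.map_map]
          congr 1
          have e2 : V.filter ((fun w : Bool × ℝ => w.1 == true) ∘ fun w => (w.1, w.2.1)) =
              V.filter (fun w => w.1) := by
            apply List.filter_congr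
            intro w _
            simp
          rw [e2]
          apply List.map_congr_left
          intro w hw
          have hw1 : w.1 = true := (List.mem_filter.1 hw).2
          simp only [Function.comp, lett]
          rw [if_pos hw1]
        have e3 : ch (rowc false u (V.map (fun w => (w.1, w.2.1)))) = ch ((rL V).map (lett u)) := by
          rw [← ch_map_not, rL]
          unfold rowc
          rw [List.filter_map, List.map_map, List.map_map]
          congr 1
          have e2 : V.filter ((fun w : Bool × ℝ => w.1 == false) ∘ fun w => (w.1, w.2.1)) =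
              V.filter (fun w => !w.1) := by
            apply List.filter_congr
            intro w _
            simp
          rw [e2]
          apply List.map_congr_left
          intro w hw
          have hw1 : w.1 = false := by simpa using (List.mem_filter.1 hw).2
          have hne := hneV w (List.mem_filter.1 hw).1
          simp only [Function.comp, lett]
          rw [if_neg (by rw [hw1]; simp)]
          rcases lt_or_gt_of_ne hne with h | h
          · simp [h, h.le]
          · simp [h, h.le]
        unfold chs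
        rw [e1, e3]
        omega
      · intro w hw
        obtain ⟨w', hw', rfl⟩ := List.mem_map.1 hw
        exact hneV w' hw'
    · have h := hl ((false, u, j0) :: V) (by
          have e : lf (rR ((false, u, j0) :: V)) ++ l.lv ++ lf (rL ((false, u, j0) :: V)) =
              lf (rR V) ++ (l.lv ++ [j0]) ++ lf (rL V) := by
            simp [lf, rR, rL]
          rw [e]
          refine List.Sublist.trans ?_ hS
          exact ((List.Sublist.refl _).append ((List.Sublist.refl _).append
            (List.singleton_sublist.2 hj0))).append (List.Sublist.refl _)) (by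
          intro w hw
          rcases List.mem_cons.1 hw with rfl | hw
          · exact hCp.1.1.sub (Sub.refl l) (by intro z hz; simp at hz; rw [hz]; exact hj0)
          · exact (hR w hw).2.1) hCp.2.1
      exact h
    · have h := hr ((true, u, i0) :: V) (by
          have e : lf (rR ((true, u, i0) :: V)) ++ r.lv ++ lf (rL ((true, u, i0) :: V)) =
              lf (rR V) ++ ([i0] ++ r.lv) ++ lf (rL V) := by
            simp [lf, rR, rL]
          rw [e]
          refine List.Sublist.trans ?_ hS
          exact ((List.Sublist.refl _).append ((List.singleton_sublist.2 hi0).append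
            (List.Sublist.refl _))).append (List.Sublist.refl _)) (by
          intro w hw
          rcases List.mem_cons.1 hw with rfl | hw
          · exact hCp.1.2.sub (Sub.refl r) (by intro z hz; simp at hz; rw [hz]; exact hi0)
          · exact (hR w hw).2.2) hCp.2.2
      exact h

/-- the two top nodes above a bottom part -/
theorem top_two {R : Bool → ℝ → ℝ → Prop} {N D : ℕ} {s : LT ℝ} (h : St R N (D + 2) s) :
    ∃ v1 v2 a b s1, Sub (fun _ _ _ => True) (node v1 (node v2 a s1) b) s ∧ Comp N s1 ∧
      AllL (fun y => R false v1 y) s1 ∧ AllL (fun y => R true v2 y) s1 := by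
  cases s with
  | leaf i => exact h.elim
  | node v1 l b =>
    cases l with
    | leaf i => exact h.2.2.1.elim
    | node v2 a s0 =>
      obtain ⟨s1, h1, h2, h3⟩ := exists_bottom h.2.2.1.2.2.2
      exact ⟨v1, v2, a, b, s1, Sub.node trivial (Sub.node trivial (Sub.refl _) h1) (Sub.refl _),
        h2, h3 _ h.1.2, h3 _ h.2.2.1.2.1⟩

/-- **Good subtrees of linear depth for crossing number 12.** -/
theorem exists_gd5 : ∃ C : ℕ, ∀ (X Y : ℕ → ℝ) (t : LT ℝ) (n E : ℕ),
    t.lv.Pairwise (fun i j => X i < X j) → Cross X Y t.lv 12 → Compat (slp X Y) t → Comp n t →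
    C * (E + 1) ≤ n → Gd E t := by
  obtain ⟨C, hC0⟩ := exists_st 20
  -- sizes
  refine ⟨(C + 1) * ((C + 1) * ((C + 1) * 40 + 40) + 40), ?_⟩
  intro X Y t n E hx hCr hCp hn hE
  by_contra hG
  have hP : AllC (PM 20) [] t := init_pm (k := 10) hx hCr t [] (by simp [lf, rR, rL]) (by simp) hCp
  set e := E + 1 with he
  set D := 16 * e + 2 with hD
  set n2 := C * (e + 2 + D) + 2 with hn2
  set n1 := C * (e + n2 + D) + 2 with hn1
  have hn0 : C * (e + n1 + D) ≤ n := by
    refine le_trans ?_ hE
    have b2 : n2 ≤ ((C + 1) * 40) * e := by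
      rw [hn2, hD]
      nlinarith [Nat.zero_le (C * e)]
    have b1 : n1 ≤ ((C + 1) * ((C + 1) * 40 + 40)) * e := by
      rw [hn1]
      have k1 : e + n2 + D ≤ ((C + 1) * 40 + 20) * e := by rw [hD]; nlinarith
      have k2 : C * (e + n2 + D) ≤ C * (((C + 1) * 40 + 20) * e) := Nat.mul_le_mul_left _ k1
      nlinarith [Nat.zero_le (C * e), Nat.zero_le (C * C * e)]
    have k1 : e + n1 + D ≤ ((C + 1) * ((C + 1) * 40 + 40) + 40) * e := by rw [hD]; nlinarith
    calc C * (e + n1 + D) ≤ C * (((C + 1) * ((C + 1) * 40 + 40) + 40) * e) :=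
          Nat.mul_le_mul_left _ k1
      _ ≤ (C + 1) * (((C + 1) * ((C + 1) * 40 + 40) + 40) * e) :=
          Nat.mul_le_mul_right _ (by omega)
      _ = (C + 1) * ((C + 1) * ((C + 1) * 40 + 40) + 40) * e := by ring
  have hsub : ∀ {s : LT ℝ}, Sub (fun _ _ _ => True) s t → AllC (PM 20) [] s ∧ ¬ Gd E s :=
    fun hs => ⟨AllC.sub pm_sublist hs (List.Sublist.refl _) hP, fun h => hG (h.sub hs)⟩
  -- first step
  obtain ⟨X1, a1, a2⟩ := hC0 E n1 D n t (by omega) hn0 hn hP hG
  obtain ⟨c1, hc1, a3⟩ : ∃ c, (c = 0 ∨ c = 3) ∧ St (Rc c) n1 D X1 := by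
    rcases a2 with h | h
    · exact ⟨0, Or.inl rfl, h⟩
    · exact ⟨3, Or.inr rfl, h⟩
  rw [show D = 16 * e + 2 from hD] at a3
  obtain ⟨v1, v2, p1, p2, s1, a4, a5, a6, a7⟩ := top_two a3
  have hs1 : Sub (fun _ _ _ => True) s1 t :=
    (a1.trans a4).trans (Sub.left _ _ (Sub.right _ _ (Sub.refl _)))
  -- second step
  obtain ⟨X2, b1, b2⟩ := hC0 E n2 D n1 s1 (by omega)
    (show C * (e + n2 + D) ≤ n1 by omega) a5 (hsub hs1).1 (hsub hs1).2
  obtain ⟨c2, hc2, b3⟩ : ∃ c, (c = 0 ∨ c = 3) ∧ St (Rc c) n2 D X2 := by
    rcases b2 with h | h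
    · exact ⟨0, Or.inl rfl, h⟩
    · exact ⟨3, Or.inr rfl, h⟩
  by_cases h12 : c2 = c1
  · subst h12
    apply hG
    refine final_both hc2 hx hCr hCp (N := n2) (by omega) b3
      ((a1.trans a4).trans (Sub.node trivial (Sub.node trivial (Sub.refl _) b1) (Sub.refl _)))
      (b1.allL a6) (b1.allL a7) (by omega)
  · rw [show D = 16 * e + 2 from hD] at b3
    obtain ⟨v3, v4, p3, p4, s2, b4, b5, b6, b7⟩ := top_two b3
    have hs2' : Sub (fun _ _ _ => True) s2 s1 :=
      (b1.trans b4).trans (Sub.left _ _ (Sub.right _ _ (Sub.refl _)))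
    have hs2 := hs1.trans hs2'
    obtain ⟨X3, d1, d2⟩ := hC0 E 2 D n2 s2 (by omega)
      (show C * (e + 2 + D) ≤ n2 by omega) b5 (hsub hs2).1 (hsub hs2).2
    obtain ⟨c3, hc3, d3⟩ : ∃ c, (c = 0 ∨ c = 3) ∧ St (Rc c) 2 D X3 := by
      rcases d2 with h | h
      · exact ⟨0, Or.inl rfl, h⟩
      · exact ⟨3, Or.inr rfl, h⟩
    by_cases h31 : c3 = c1
    · subst h31
      apply hG
      refine final_both hc3 hx hCr hCp (N := 2) le_rfl d3
        ((a1.trans a4).trans (Sub.node trivial (Sub.node trivial (Sub.refl _)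
          (hs2'.trans d1)) (Sub.refl _)))
        ((hs2'.trans d1).allL a6) ((hs2'.trans d1).allL a7) (by omega)
    · have h32 : c3 = c2 := by omega
      subst h32
      apply hG
      refine final_both hc3 hx hCr hCp (N := 2) le_rfl d3
        (hs1.trans ((b1.trans b4).trans (Sub.node trivial (Sub.node trivial (Sub.refl _)
          d1) (Sub.refl _))))
        (d1.allL b6) (d1.allL b7) (by omega)

end

end Pool.Agent.H595K.Lb
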