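import Mathlib
import Pool.Agent.H595K.GFin
import Pool.Agent.H595K.FCore

/-!
# The polynomial lower bound for `k ≤ 5`
-/

namespace Pool.Agent.H595K

open Lb

theorem Lb.Cross.mono {x y : ℕ → ℝ} {A : List ℕ} {m m' : ℕ} (h : Cross x y A m) (hm : m ≤ m') :
    Cross x y A m' := fun θ β Q hQ hch => lt_of_lt_of_le (h θ β Q hQ hch) hm

theorem hasGd_le_five : ∃ C : ℕ, ∀ k, k ≤ 5 → HasGd k C := by
  obtain ⟨C, hC⟩ := exists_gd5
  refine ⟨C, ?_⟩
  intro k hk X Y t n E hx hCr hCp hn hE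
  exact hC X Y t n E hx (hCr.mono (by omega)) hCp hn hE

theorem poly_le_five : ∃ c : ℝ, 0 < c ∧ ∀ k j n : ℕ, 3 ≤ k → k ≤ 5 → 3 ≤ j → 3 ≤ n →
    (n : ℝ) ^ c ≤ f k j n := by
  obtain ⟨C, hC⟩ := hasGd_le_five
  obtain ⟨c3, p3, h3⟩ := poly_of_hasGd (k := 3) (by norm_num) (hC 3 (by norm_num))
  obtain ⟨c4, p4, h4⟩ := poly_of_hasGd (k := 4) (by norm_num) (hC 4 (by norm_num))
  obtain ⟨c5, p5, h5⟩ := poly_of_hasGd (k := 5) (by norm_num) (hC 5 (by norm_num))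
  refine ⟨min c3 (min c4 c5), lt_min p3 (lt_min p4 p5), ?_⟩
  intro k j n hk3 hk5 hj hn
  have hn1 : (1 : ℝ) ≤ n := by exact_mod_cast (by omega : 1 ≤ n)
  interval_cases k
  · exact (Real.rpow_le_rpow_of_exponent_le hn1 (min_le_left _ _)).trans (h3 j n hj hn)
  · exact (Real.rpow_le_rpow_of_exponent_le hn1
      ((min_le_right _ _).trans (min_le_left _ _))).trans (h4 j n hj hn)
  · exact (Real.rpow_le_rpow_of_exponent_le hn1
      ((min_le_right _ _).trans (min_le_right _ _))).trans (h5 j n hj hn)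

end Pool.Agent.H595K
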