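import Mathlib

/-!
# The exponent
-/

namespace Pool.Agent.H595K

/-- The exponent `expo k j`. With `a = ⌊j / 3⌋`, `H = ⌊k / 3⌋` and `t = ⌊(H - a - 1) / 2⌋` it is
`(a + t) / (a + 2 t + 1)` if `H ≠ a`, and `1` if `H = a`. -/
noncomputable def expo (k j : ℕ) : ℝ :=
  if k / 3 = j / 3 then 1
  else ((j / 3 + (k / 3 - j / 3 - 1) / 2 : ℕ) : ℝ) /
    ((j / 3 + 2 * ((k / 3 - j / 3 - 1) / 2) + 1 : ℕ) : ℝ)

end Pool.Agent.H595K
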