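import Mathlib
import Pool.Agent.H595K.GFin

/-!
# Words and their extensions
-/

namespace Pool.Agent.H595K.Lb

/-- the six parts of a word -/
structure Tup where
  A : List Bool
  Br : List Bool
  Bl : List Bool
  Cr : List Bool
  Cl : List Bool
  D : List Bool

/-- the word of a tuple -/
def wrd (t : Tup) (e1 e2 : Bool) : List Bool :=
  t.A ++ (t.Br ++ [e1] ++ t.Bl) ++ (t.Cr ++ [e2] ++ t.Cl) ++ t.D

/-- extension by one layer of direction `d` -/
def ext (d : Bool) (t : Tup) : Tup :=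
  ⟨d :: t.A, t.Br ++ [!d], d :: t.Bl, t.Cr ++ [!d], d :: t.Cl, t.D ++ [!d]⟩

/-- extension by several layers, the first one is the innermost one -/
def exts : List Bool → Tup → Tup
  | [], t => t
  | d :: s, t => exts s (ext d t)

/-- componentwise sublists -/
def TLe (t t' : Tup) : Prop :=
  t.A.Sublist t'.A ∧ t.Br.Sublist t'.Br ∧ t.Bl.Sublist t'.Bl ∧ t.Cr.Sublist t'.Cr ∧
    t.Cl.Sublist t'.Cl ∧ t.D.Sublist t'.D

theorem TLe.refl (t : Tup) : TLe t t :=
  ⟨List.Sublist.refl _, List.Sublist.refl _, List.Sublist.refl _, List.Sublist.refl _,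
    List.Sublist.refl _, List.Sublist.refl _⟩

theorem TLe.trans {t t' t'' : Tup} (h : TLe t t') (h' : TLe t' t'') : TLe t t'' :=
  ⟨h.1.trans h'.1, h.2.1.trans h'.2.1, h.2.2.1.trans h'.2.2.1, h.2.2.2.1.trans h'.2.2.2.1,
    h.2.2.2.2.1.trans h'.2.2.2.2.1, h.2.2.2.2.2.trans h'.2.2.2.2.2⟩

theorem TLe.ext {t t' : Tup} (d : Bool) (h : TLe t t') : TLe (ext d t) (Lb.ext d t') :=
  ⟨h.1.cons_cons _, h.2.1.append (List.Sublist.refl _), h.2.2.1.cons_cons _,
    h.2.2.2.1.append (List.Sublist.refl _), h.2.2.2.2.1.cons_cons _,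
    h.2.2.2.2.2.append (List.Sublist.refl _)⟩

theorem TLe.exts (s : List Bool) : ∀ {t t' : Tup}, TLe t t' → TLe (exts s t) (Lb.exts s t') := by
  induction s with
  | nil => intro t t' h; exact h
  | cons d s ih => intro t t' h; exact ih (h.ext d)

theorem tle_ext (d : Bool) (t : Tup) : TLe t (ext d t) :=
  ⟨List.sublist_cons_self _ _, List.sublist_append_left _ _, List.sublist_cons_self _ _,
    List.sublist_append_left _ _, List.sublist_cons_self _ _, List.sublist_append_left _ _⟩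

theorem wrd_sublist {t t' : Tup} (h : TLe t t') (e1 e2 : Bool) :
    (wrd t e1 e2).Sublist (wrd t' e1 e2) := by
  unfold wrd
  exact ((h.1.append ((h.2.1.append (List.Sublist.refl _)).append h.2.2.1)).append
    ((h.2.2.2.1.append (List.Sublist.refl _)).append h.2.2.2.2.1)).append h.2.2.2.2.2

theorem ch_wrd_mono {t t' : Tup} (h : TLe t t') (e1 e2 : Bool) :
    ch (wrd t e1 e2) ≤ ch (wrd t' e1 e2) := ch_sublist (wrd_sublist h e1 e2)

/-- the bound for the number of changes -/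
def VLe (t : Tup) (K : ℕ) : Prop := ∀ e1 e2, ch (wrd t e1 e2) ≤ K

theorem VLe.mono {t t' : Tup} {K K' : ℕ} (h : VLe t' K) (ht : TLe t t') (hK : K ≤ K') :
    VLe t K' := fun e1 e2 => ((ch_wrd_mono ht e1 e2).trans (h e1 e2)).trans hK

theorem ch_cons_le (a : Bool) (l : List Bool) : ch (a :: l) ≤ ch l + 1 := by
  cases l with
  | nil => simp
  | cons b l => rw [ch_cons_cons]; split_ifs <;> omega

theorem ch_concat_le (a : Bool) (l : List Bool) : ch (l ++ [a]) ≤ ch l + 1 := by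
  rw [← ch_reverse, ← ch_reverse l]
  simp only [List.reverse_append, List.reverse_cons, List.reverse_nil, List.nil_append,
    List.cons_append]
  exact ch_cons_le _ _

/-- removing the inner letters of one side -/
theorem ch_mid_le (d e : Bool) (X Y : List Bool) :
    ∃ e', ch (X ++ ([!d] ++ [e] ++ [d]) ++ Y) ≤ ch (X ++ [e'] ++ Y) + 2 := by
  have key : ∀ (X Y : List Bool), ch (X ++ ([!d] ++ [e] ++ [d]) ++ Y) =
      ch (X ++ [!d]) + 1 + ch (d :: Y) := by
    intro X Y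
    have h1 := ch_split X (!d) ([e] ++ d :: Y)
    have h2 := ch_split ([!d, e]) d Y
    have e1 : X ++ ([!d] ++ [e] ++ [d]) ++ Y = X ++ (!d) :: ([e] ++ d :: Y) := by simp
    have e2 : (!d) :: ([e] ++ d :: Y) = [!d, e] ++ d :: Y := by simp
    rw [e1, h1, e2, h2]
    have h3 : ch ([!d, e] ++ [d]) = 1 := by cases d <;> cases e <;> rfl
    rw [h3]; ring
  have key2 : ∀ (e' : Bool) (X Y : List Bool), ch (X ++ [e'] ++ Y) = ch (X ++ [e']) + ch (e' :: Y) := by
    intro e' X Y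
    have h1 := ch_split X e' Y
    rw [← h1]; simp
  rcases List.eq_nil_or_concat X with rfl | ⟨X', β, rfl⟩
  · refine ⟨d, ?_⟩
    rw [key, key2]
    simp
    omega
  · cases Y with
    | nil =>
      refine ⟨!d, ?_⟩
      rw [key, key2]
      simp
    | cons γ Y =>
      refine ⟨if β = γ then !γ else β, ?_⟩
      rw [key, key2]
      have h1 : ∀ c, ch (X' ++ [β] ++ [c]) = ch (X' ++ [β]) + ch [β, c] := by
        intro c
        have := ch_split X' β [c]
        simpa using this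
      rw [List.concat_eq_append, h1, h1, ch_cons_cons, ch_cons_cons]
      cases β <;> cases γ <;> cases d <;> simp [ch_cons_cons] <;> omega

theorem vle_ext {t : Tup} {K : ℕ} (h : VLe t K) (d : Bool) : VLe (ext d t) (K + 6) := by
  intro e1 e2
  -- first letter
  have h1 : ch (wrd (ext d t) e1 e2) ≤ ch (t.A ++ t.Br ++ ([!d] ++ [e1] ++ [d]) ++
      (t.Bl ++ t.Cr ++ ([!d] ++ [e2] ++ [d]) ++ (t.Cl ++ t.D))) + 2 := by
    have e0 : wrd (ext d t) e1 e2 = d :: ((t.A ++ t.Br ++ ([!d] ++ [e1] ++ [d]) ++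
        (t.Bl ++ t.Cr ++ ([!d] ++ [e2] ++ [d]) ++ (t.Cl ++ t.D))) ++ [!d]) := by
      simp [wrd, ext]
    rw [e0]
    have k1 := ch_cons_le d ((t.A ++ t.Br ++ ([!d] ++ [e1] ++ [d]) ++
        (t.Bl ++ t.Cr ++ ([!d] ++ [e2] ++ [d]) ++ (t.Cl ++ t.D))) ++ [!d])
    have k2 := ch_concat_le (!d) (t.A ++ t.Br ++ ([!d] ++ [e1] ++ [d]) ++
        (t.Bl ++ t.Cr ++ ([!d] ++ [e2] ++ [d]) ++ (t.Cl ++ t.D)))
    omega
  obtain ⟨e1', h2⟩ := ch_mid_le d e1 (t.A ++ t.Br)
    (t.Bl ++ t.Cr ++ ([!d] ++ [e2] ++ [d]) ++ (t.Cl ++ t.D))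
  obtain ⟨e2', h3⟩ := ch_mid_le d e2 (t.A ++ t.Br ++ [e1'] ++ (t.Bl ++ t.Cr)) (t.Cl ++ t.D)
  have h4 := h e1' e2'
  have e3 : t.A ++ t.Br ++ [e1'] ++ (t.Bl ++ t.Cr ++ ([!d] ++ [e2] ++ [d]) ++ (t.Cl ++ t.D)) =
      t.A ++ t.Br ++ [e1'] ++ (t.Bl ++ t.Cr) ++ ([!d] ++ [e2] ++ [d]) ++ (t.Cl ++ t.D) := by simp
  have e4 : t.A ++ t.Br ++ [e1'] ++ (t.Bl ++ t.Cr) ++ [e2'] ++ (t.Cl ++ t.D) = wrd t e1' e2' := by
    simp [wrd]
  rw [e3] at h2
  rw [e4] at h3
  omega

/-- alternating lists of directions -/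
def Alt : List Bool → Prop
  | [] => True
  | [_] => True
  | a :: b :: s => b = !a ∧ Alt (b :: s)

/-- the number of changes for alternating layers -/
theorem ch_exts (s : List Bool) : ∀ (d : Bool) (t : Tup) (c : ℕ) (e1 e2 : Bool), Alt (d :: s) →
    t.A = [d] ++ t.A.tail → t.D.getLast? = some (!d) → t.Br.getLast? = some (!d) →
    t.Bl = [d] ++ t.Bl.tail → t.Cr.getLast? = some (!d) → t.Cl = [d] ++ t.Cl.tail →
    ch (wrd t e1 e2) = c → ch (wrd (exts s t) e1 e2) = c + 6 * s.length := by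
  induction s with
  | nil => intro d t c e1 e2 _ _ _ _ _ _ _ h; simpa [exts] using h
  | cons b s ih =>
    intro d t c e1 e2 halt hA hD hBr hBl hCr hCl hc
    obtain ⟨hb, halt'⟩ := halt
    subst hb
    obtain ⟨A, Br, Bl, Cr, Cl, D⟩ := t
    simp only at hA hD hBr hBl hCr hCl
    obtain ⟨D', rfl⟩ : ∃ D', D = D' ++ [!d] := by
      rcases List.eq_nil_or_concat D with h | ⟨D', x, h⟩
      · rw [h] at hD; simp at hD
      · rw [h, List.concat_eq_append] at hD
        simp at hD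
        exact ⟨D', by rw [h, hD, List.concat_eq_append]⟩
    obtain ⟨Br', rfl⟩ : ∃ D', Br = D' ++ [!d] := by
      rcases List.eq_nil_or_concat Br with h | ⟨D', x, h⟩
      · rw [h] at hBr; simp at hBr
      · rw [h, List.concat_eq_append] at hBr
        simp at hBr
        exact ⟨D', by rw [h, hBr, List.concat_eq_append]⟩
    obtain ⟨Cr', rfl⟩ : ∃ D', Cr = D' ++ [!d] := by
      rcases List.eq_nil_or_concat Cr with h | ⟨D', x, h⟩
      · rw [h] at hCr; simp at hCr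
      · rw [h, List.concat_eq_append] at hCr
        simp at hCr
        exact ⟨D', by rw [h, hCr, List.concat_eq_append]⟩
    obtain ⟨A', rfl⟩ : ∃ A', A = [d] ++ A' := ⟨_, hA⟩
    obtain ⟨Bl', rfl⟩ : ∃ A', Bl = [d] ++ A' := ⟨_, hBl⟩
    obtain ⟨Cl', rfl⟩ : ∃ A', Cl = [d] ++ A' := ⟨_, hCl⟩
    have h1 : ch (wrd (ext (!d) ⟨[d] ++ A', Br' ++ [!d], [d] ++ Bl', Cr' ++ [!d], [d] ++ Cl',
        D' ++ [!d]⟩) e1 e2) = c + 6 := by
      have s1 := ch_split ([!d]) d (A' ++ (Br' ++ [!d] ++ [d] ++ [e1] ++ ([!d] ++ [d] ++ Bl')) ++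
        (Cr' ++ [!d] ++ [d] ++ [e2] ++ ([!d] ++ [d] ++ Cl')) ++ (D' ++ [!d] ++ [d]))
      have s2 := ch_split (d :: A' ++ Br') (!d) ([d] ++ [e1] ++ ([!d] ++ [d] ++ Bl') ++
        (Cr' ++ [!d] ++ [d] ++ [e2] ++ ([!d] ++ [d] ++ Cl')) ++ (D' ++ [!d] ++ [d]))
      have s3 := ch_split ([!d, d, e1, !d]) d (Bl' ++
        (Cr' ++ [!d] ++ [d] ++ [e2] ++ ([!d] ++ [d] ++ Cl')) ++ (D' ++ [!d] ++ [d]))
      have s4 := ch_split (d :: Bl' ++ Cr') (!d) ([d] ++ [e2] ++ ([!d] ++ [d] ++ Cl') ++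
        (D' ++ [!d] ++ [d]))
      have s5 := ch_split ([!d, d, e2, !d]) d (Cl' ++ (D' ++ [!d] ++ [d]))
      have s6 := ch_split (d :: Cl' ++ D') (!d) [d]
      have r1 := ch_split (d :: A' ++ Br') (!d) ([e1] ++ ([d] ++ Bl') ++
        (Cr' ++ [!d] ++ [e2] ++ ([d] ++ Cl')) ++ (D' ++ [!d]))
      have r2 := ch_split ([!d, e1]) d (Bl' ++
        (Cr' ++ [!d] ++ [e2] ++ ([d] ++ Cl')) ++ (D' ++ [!d]))
      have r3 := ch_split (d :: Bl' ++ Cr') (!d) ([e2] ++ ([d] ++ Cl') ++ (D' ++ [!d]))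
      have r4 := ch_split ([!d, e2]) d (Cl' ++ (D' ++ [!d]))
      have q1 : ch ([!d] ++ [d]) = 1 := by cases d <;> rfl
      have q2 : ch ([!d, d, e1, !d] ++ [d]) = 3 := by cases d <;> cases e1 <;> rfl
      have q3 : ch ([!d, d, e2, !d] ++ [d]) = 3 := by cases d <;> cases e2 <;> rfl
      have q4 : ch ((!d) :: [d]) = 1 := by cases d <;> rfl
      have q5 : ch ([!d, e1] ++ [d]) = 1 := by cases d <;> cases e1 <;> rfl
      have q6 : ch ([!d, e2] ++ [d]) = 1 := by cases d <;> cases e2 <;> rfl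
      simp only [wrd, ext, Bool.not_not, List.cons_append, List.nil_append, List.append_assoc,
        List.append_nil] at hc s1 s2 s3 s4 s5 s6 r1 r2 r3 r4 q1 q2 q3 q4 q5 q6 ⊢
      omega
    have h2 := ih (!d) (ext (!d) ⟨[d] ++ A', Br' ++ [!d], [d] ++ Bl', Cr' ++ [!d], [d] ++ Cl',
        D' ++ [!d]⟩) (c + 6) e1 e2 halt' (by simp [ext]) (by simp [ext]) (by simp [ext])
        (by simp [ext]) (by simp [ext]) (by simp [ext]) h1
    show ch (wrd (exts s (ext (!d) ⟨[d] ++ A', Br' ++ [!d], [d] ++ Bl', Cr' ++ [!d], [d] ++ Cl',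
        D' ++ [!d]⟩)) e1 e2) = _
    rw [h2, List.length_cons]
    ring

theorem six_le {s : List Bool} (hs : Alt s) (hne : s ≠ []) {t : Tup} {K : ℕ}
    (h : VLe (exts s t) K) : 6 * s.length ≤ K + 1 := by
  cases s with
  | nil => exact absurd rfl hne
  | cons d s =>
    have h0 : TLe ⟨[], [], [], [], [], []⟩ t :=
      ⟨List.nil_sublist _, List.nil_sublist _, List.nil_sublist _, List.nil_sublist _,
        List.nil_sublist _, List.nil_sublist _⟩
    have h1 := (ch_wrd_mono (h0.exts (d :: s)) true true).trans (h true true)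
    have h2 := ch_exts s d (ext d ⟨[], [], [], [], [], []⟩) 5 true true hs (by simp [ext])
      (by simp [ext]) (by simp [ext]) (by simp [ext]) (by simp [ext]) (by simp [ext])
      (by cases d <;> rfl)
    have h3 : ch (wrd (exts (d :: s) ⟨[], [], [], [], [], []⟩) true true) = 5 + 6 * s.length := h2
    rw [h3] at h1
    rw [List.length_cons]
    omega

end Pool.Agent.H595K.Lb
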