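import Mathlib
import Pool.Agent.H595K.JWord

/-!
# The words of the nodes of a tree
-/

namespace Pool.Agent.H595K.Lb

open LT

/-! ### Comparison of lists -/

/-- `A` can be replaced by `B` in a word without decreasing the number of changes -/
def CLe (A B : List Bool) : Prop := ∀ P S, ch (P ++ A ++ S) ≤ ch (P ++ B ++ S)

theorem CLe.refl (A : List Bool) : CLe A A := fun _ _ => le_rfl

theorem CLe.trans {A B C : List Bool} (h : CLe A B) (h' : CLe B C) : CLe A C :=
  fun P S => (h P S).trans (h' P S)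

theorem CLe.append {A B A' B' : List Bool} (h : CLe A B) (h' : CLe A' B') :
    CLe (A ++ A') (B ++ B') := by
  intro P S
  have h1 := h P (A' ++ S)
  have h2 := h' (P ++ B) S
  simp only [List.append_assoc] at h1 h2 ⊢
  exact h1.trans h2

theorem cle_of_sublist {A B : List Bool} (h : A.Sublist B) : CLe A B :=
  fun P S => ch_sublist (((List.Sublist.refl P).append h).append (List.Sublist.refl S))

theorem CLe.ch_le {A B : List Bool} (h : CLe A B) : ch A ≤ ch B := by
  have := h [] []
  simpa using this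

theorem ch_app_one (P S : List Bool) (c : Bool) : ch (P ++ [c] ++ S) = ch (P ++ [c]) + ch (c :: S) := by
  rw [List.append_assoc]
  exact ch_split P c S

/-- constant parts -/
theorem cle_cons_const {c : Bool} : ∀ {M : List Bool}, (∀ b ∈ M, b = c) → CLe (c :: M) [c] := by
  intro M
  induction M with
  | nil => intro _; exact CLe.refl _
  | cons a M ih =>
    intro h P S
    have ha : a = c := h a (by simp)
    subst ha
    have h1 := ih (fun b hb => h b (by simp [hb])) P S
    refine le_trans (le_of_eq ?_) h1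
    have e1 : P ++ (a :: a :: M) ++ S = P ++ [a] ++ (a :: M ++ S) := by simp
    have e2 : P ++ (a :: M) ++ S = P ++ [a] ++ (M ++ S) := by simp
    rw [e1, e2, ch_app_one, ch_app_one]
    have e3 : a :: (a :: M ++ S) = a :: a :: (M ++ S) := by simp
    rw [e3, ch_cons_cons, if_pos rfl, Nat.zero_add]

theorem cle_const {c : Bool} {M : List Bool} (h : ∀ b ∈ M, b = c) : CLe M [c] :=
  (cle_of_sublist (List.sublist_cons_self c M)).trans (cle_cons_const h)

theorem cle_const_left {c : Bool} {M A : List Bool} (h : ∀ b ∈ M, b = c) :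
    CLe (c :: (M ++ A)) (c :: A) := by
  have := (cle_cons_const h).append (CLe.refl A)
  simpa using this

theorem cle_const_right {c : Bool} {M A : List Bool} (h : ∀ b ∈ M, b = c) :
    CLe ((A ++ M) ++ [c]) (A ++ [c]) := by
  rw [List.append_assoc]
  refine (CLe.refl A).append (cle_const ?_)
  intro b hb
  rcases List.mem_append.1 hb with hb | hb
  · exact h b hb
  · simpa using hb

/-- comparison of tuples -/
def TC (t t' : Tup) : Prop :=
  CLe t.A t'.A ∧ CLe t.Br t'.Br ∧ CLe t.Bl t'.Bl ∧ CLe t.Cr t'.Cr ∧ CLe t.Cl t'.Cl ∧ CLe t.D t'.D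

theorem TC.vle {t t' : Tup} (h : TC t t') {K : ℕ} (hK : VLe t' K) : VLe t K := by
  intro e1 e2
  refine le_trans ?_ (hK e1 e2)
  unfold wrd
  exact (((h.1.append ((h.2.1.append (CLe.refl _)).append h.2.2.1)).append
    ((h.2.2.2.1.append (CLe.refl _)).append h.2.2.2.2.1)).append h.2.2.2.2.2).ch_le

/-! ### Paths -/

/-- the lists of turns and labels of the paths, top-down -/
inductive Pl : LT ℝ → List (Bool × ℝ) → Prop
  | leaf (i : ℕ) : Pl (leaf i) []
  | left {a : ℝ} {l r : LT ℝ} {W : List (Bool × ℝ)} (h : Pl l W) :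
      Pl (node a l r) ((false, a) :: W)
  | right {a : ℝ} {l r : LT ℝ} {W : List (Bool × ℝ)} (h : Pl r W) :
      Pl (node a l r) ((true, a) :: W)

theorem exists_pl (t : LT ℝ) : ∃ W, Pl t W := by
  induction t with
  | leaf i => exact ⟨_, Pl.leaf i⟩
  | node a l r hl _ =>
    obtain ⟨W, h⟩ := hl
    exact ⟨_, Pl.left h⟩

/-- forget the witness -/
def fw (w : Bool × ℝ × ℕ) : Bool × ℝ := (w.1, w.2.1)

theorem Pl.lift {t : LT ℝ} {W : List (Bool × ℝ)} (h : Pl t W) :
    ∃ V i, Pth t V i ∧ V.map fw = W := by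
  induction h with
  | leaf i => exact ⟨[], i, Pth.leaf i, rfl⟩
  | @left a l r W _ ih =>
    obtain ⟨V, i, h1, h2⟩ := ih
    obtain ⟨z, hz⟩ := exists_mem r
    exact ⟨_, i, Pth.left h1 hz, by simp [h2, fw]⟩
  | @right a l r W _ ih =>
    obtain ⟨V, i, h1, h2⟩ := ih
    obtain ⟨z, hz⟩ := exists_mem l
    exact ⟨_, i, Pth.right h1 hz, by simp [h2, fw]⟩

theorem Pl.allL {t : LT ℝ} {W : List (Bool × ℝ)} (h : Pl t W) {P : ℝ → Prop} (hP : AllL P t) :
    ∀ w ∈ W, P w.2 := by
  induction h with
  | leaf i => simp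
  | left _ ih =>
    intro w hw
    rcases List.mem_cons.1 hw with rfl | hw
    · exact hP.1
    · exact ih hP.2.1 w hw
  | right _ ih =>
    intro w hw
    rcases List.mem_cons.1 hw with rfl | hw
    · exact hP.1
    · exact ih hP.2.2 w hw

/-- embeddings of labelled trees, the leaves are mapped to arbitrary subtrees -/
inductive Em : LT ℝ → LT ℝ → Prop
  | leaf (i : ℕ) (t : LT ℝ) : Em (leaf i) t
  | left {t' l : LT ℝ} (a : ℝ) (r : LT ℝ) (h : Em t' l) : Em t' (node a l r)
  | right {t' r : LT ℝ} (a : ℝ) (l : LT ℝ) (h : Em t' r) : Em t' (node a l r)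
  | node {a : ℝ} {l r l' r' : LT ℝ} (hl : Em l' l) (hr : Em r' r) :
      Em (node a l' r') (node a l r)

theorem em_of_sub {c : ℝ → LT ℝ → LT ℝ → Prop} {t' t : LT ℝ} (h : Sub c t' t) : Em t' t := by
  induction h with
  | leaf i => exact Em.leaf i _
  | left a r _ ih => exact Em.left _ _ ih
  | right a l _ ih => exact Em.right _ _ ih
  | node _ _ _ ihl ihr => exact Em.node ihl ihr

theorem Em.pl {t' t : LT ℝ} (h : Em t' t) : ∀ {W' : List (Bool × ℝ)}, Pl t' W' →
    ∃ W, Pl t W ∧ W'.Sublist W := by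
  induction h with
  | leaf i t =>
    intro W' h
    cases h
    obtain ⟨W, hW⟩ := exists_pl t
    exact ⟨W, hW, List.nil_sublist _⟩
  | left a r _ ih =>
    intro W' h
    obtain ⟨W, h1, h2⟩ := ih h
    exact ⟨_, Pl.left h1, h2.cons _⟩
  | right a l _ ih =>
    intro W' h
    obtain ⟨W, h1, h2⟩ := ih h
    exact ⟨_, Pl.right h1, h2.cons _⟩
  | node _ _ ihl ihr =>
    intro W' h
    cases h with
    | left h =>
      obtain ⟨W, h1, h2⟩ := ihl h
      exact ⟨_, Pl.left h1, h2.cons_cons _⟩
    | right h =>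
      obtain ⟨W, h1, h2⟩ := ihr h
      exact ⟨_, Pl.right h1, h2.cons_cons _⟩

/-! ### Words -/

open scoped Classical in
/-- the letter of an entry -/
noncomputable def lt2 (x : ℝ) (w : Bool × ℝ) : Bool :=
  if w.1 = true then decide (w.2 < x) else decide (x < w.2)

/-- the letters of the entries with a turn to the right, last entry first -/
noncomputable def rA (x : ℝ) (L : List (Bool × ℝ)) : List Bool :=
  ((L.filter (fun w => w.1)).map (lt2 x)).reverse

/-- the letters of the entries with a turn to the left -/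
noncomputable def rD (x : ℝ) (L : List (Bool × ℝ)) : List Bool :=
  (L.filter (fun w => !w.1)).map (lt2 x)

theorem rA_append (x : ℝ) (L M : List (Bool × ℝ)) : rA x (L ++ M) = rA x M ++ rA x L := by
  simp [rA]

theorem rD_append (x : ℝ) (L M : List (Bool × ℝ)) : rD x (L ++ M) = rD x L ++ rD x M := by
  simp [rD]

theorem rA_sublist (x : ℝ) {L M : List (Bool × ℝ)} (h : L.Sublist M) :
    (rA x L).Sublist (rA x M) := ((h.filter _).map _).reverse

theorem rD_sublist (x : ℝ) {L M : List (Bool × ℝ)} (h : L.Sublist M) :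
    (rD x L).Sublist (rD x M) := (h.filter _).map _

theorem mem_rA {x : ℝ} {L : List (Bool × ℝ)} {b : Bool} (h : b ∈ rA x L) :
    ∃ w ∈ L, w.1 = true ∧ lt2 x w = b := by
  unfold rA at h
  rw [List.mem_reverse, List.mem_map] at h
  obtain ⟨w, h1, h2⟩ := h
  rw [List.mem_filter] at h1
  exact ⟨w, h1.1, h1.2, h2⟩

theorem mem_rD {x : ℝ} {L : List (Bool × ℝ)} {b : Bool} (h : b ∈ rD x L) :
    ∃ w ∈ L, w.1 = false ∧ lt2 x w = b := by
  unfold rD at h
  rw [List.mem_map] at h
  obtain ⟨w, h1, h2⟩ := h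
  rw [List.mem_filter] at h1
  exact ⟨w, h1.1, by simpa using h1.2, h2⟩

/-- the tuple of a node -/
noncomputable def tup (x : ℝ) (L W1 W2 : List (Bool × ℝ)) : Tup :=
  ⟨rA x L, rA x W1.reverse, rD x W1.reverse, rA x W2.reverse, rD x W2.reverse, rD x L⟩

theorem tup_le (x : ℝ) {L L' W1 W1' W2 W2' : List (Bool × ℝ)} (h : L'.Sublist L)
    (h1 : W1'.Sublist W1) (h2 : W2'.Sublist W2) : TLe (tup x L' W1' W2') (tup x L W1 W2) :=
  ⟨rA_sublist x h, rA_sublist x h1.reverse, rD_sublist x h1.reverse, rA_sublist x h2.reverse,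
    rD_sublist x h2.reverse, rD_sublist x h⟩

/-- the words of a node -/
def WN (s : List Bool) (K : ℕ) (L : List (Bool × ℝ)) (x : ℝ) (l r : LT ℝ) : Prop :=
  ∀ W1 W2, Pl l W1 → Pl r W2 → VLe (exts s (tup x L W1 W2)) K

/-- all words of the tree, extended by the layers `s`, have at most `K` changes -/
def WB (s : List Bool) (K : ℕ) : List (Bool × ℝ) → LT ℝ → Prop
  | _, leaf _ => True
  | L, node x l r => WN s K L x l r ∧ WB s K ((false, x) :: L) l ∧ WB s K ((true, x) :: L) r

theorem WB.em {s : List Bool} {K : ℕ} {t' t : LT ℝ} (h : Em t' t) :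
    ∀ {L L' : List (Bool × ℝ)}, L'.Sublist L → WB s K L t → WB s K L' t' := by
  induction h with
  | leaf i t => intro L L' _ _; trivial
  | left a r _ ih => intro L L' hL hW; exact ih (hL.trans (List.sublist_cons_self _ _)) hW.2.1
  | right a l _ ih => intro L L' hL hW; exact ih (hL.trans (List.sublist_cons_self _ _)) hW.2.2
  | node h1 h2 ihl ihr =>
    intro L L' hL hW
    refine ⟨?_, ihl (hL.cons_cons _) hW.2.1, ihr (hL.cons_cons _) hW.2.2⟩
    intro W1 W2 p1 p2
    obtain ⟨V1, q1, s1⟩ := h1.pl p1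
    obtain ⟨V2, q2, s2⟩ := h2.pl p2
    exact (hW.1 V1 V2 q1 q2).mono ((tup_le _ hL s1 s2).exts s) le_rfl

theorem WB.sub {s : List Bool} {K : ℕ} {c : ℝ → LT ℝ → LT ℝ → Prop} {t' t : LT ℝ}
    (h : Sub c t' t) {L L' : List (Bool × ℝ)} (hL : L'.Sublist L) (hW : WB s K L t) :
    WB s K L' t' := WB.em (em_of_sub h) hL hW

theorem WB.imp {s s' : List Bool} {K K' : ℕ}
    (h : ∀ t : Tup, VLe (exts s t) K → VLe (exts s' t) K') {t : LT ℝ} :
    ∀ {L : List (Bool × ℝ)}, WB s K L t → WB s' K' L t := by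
  induction t with
  | leaf i => intro L _; trivial
  | node x l r hl hr =>
    intro L hW
    exact ⟨fun W1 W2 p1 p2 => h _ (hW.1 W1 W2 p1 p2), hl hW.2.1, hr hW.2.2⟩

theorem WB.mono {s : List Bool} {K K' : ℕ} (hK : K ≤ K') {t : LT ℝ} {L : List (Bool × ℝ)}
    (hW : WB s K L t) : WB s K' L t :=
  hW.imp (fun _ h => h.mono (TLe.refl _) hK)

/-- removing the layer -/
theorem WB.drop {d : Bool} {K : ℕ} {t : LT ℝ} {L : List (Bool × ℝ)} (hW : WB [d] K L t) :
    WB [] K L t :=
  WB.imp (s := [d]) (s' := []) (fun t h => VLe.mono (t := t) (t' := ext d t) h (tle_ext d t) le_rfl)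
    hW

/-- changing the direction -/
theorem WB.turn {d d' : Bool} {K : ℕ} {t : LT ℝ} {L : List (Bool × ℝ)} (hW : WB [d] K L t) :
    WB [d'] (K + 6) L t :=
  WB.imp (s := []) (s' := [d']) (fun t h => vle_ext (t := t) h d') hW.drop

/-! ### Geometry -/

theorem rA_fw (x : ℝ) (V : List (Bool × ℝ × ℕ)) : rA x (V.map fw) = (rR V).map (lett x) := by
  unfold rA rR
  rw [List.map_reverse, List.filter_map, List.map_map]
  rfl

theorem rD_fw (x : ℝ) (V : List (Bool × ℝ × ℕ)) : rD x (V.map fw) = (rL V).map (lett x) := by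
  unfold rD rL
  rw [List.filter_map, List.map_map]
  rfl

section
variable {X Y : ℕ → ℝ}

theorem wb_of_cross {A : List ℕ} {k : ℕ} (hA : A.Pairwise (fun i j => X i < X j))
    (hC : Cross X Y A (k + 2)) (t : LT ℝ) : ∀ V : List (Bool × ℝ × ℕ),
      (lf (rR V) ++ t.lv ++ lf (rL V)).Sublist A →
      (∀ w ∈ V, Rel (slp X Y) w.2.1 [w.2.2] t) → Compat (slp X Y) t →
      WB [] k (V.map fw) t := by
  induction t with
  | leaf i => intro V _ _ _; trivial
  | node u l r hl hr =>
    intro V hS hR hCp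
    simp only [lv] at hS
    obtain ⟨i0, hi0⟩ := exists_mem l
    obtain ⟨j0, hj0⟩ := exists_mem r
    refine ⟨?_, ?_, ?_⟩
    · intro W1 W2 p1 p2 e1 e2
      obtain ⟨V1, i, q1, r1⟩ := p1.lift
      obtain ⟨V2, j, q2, r2⟩ := p2.lift
      have hw := local_word (k := k) hA hC q1 q2 hS hR hCp e1 e2
      have e : wrd (exts [] (tup u (V.map fw) W1 W2)) e1 e2 =
          (rR V).map (lett u) ++ ((rR V1.reverse).map (lett u) ++ [e1] ++
          (rL V1.reverse).map (lett u)) ++ ((rR V2.reverse).map (lett u) ++ [e2] ++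
          (rL V2.reverse).map (lett u)) ++ (rL V).map (lett u) := by
        rw [← r1, ← r2]
        simp only [exts, tup, wrd, ← List.map_reverse, rA_fw, rD_fw]
      rw [e]
      exact hw
    · have h := hl ((false, u, j0) :: V) (by
          have e : lf (rR ((false, u, j0) :: V)) ++ l.lv ++ lf (rL ((false, u, j0) :: V)) =
              lf (rR V) ++ (l.lv ++ [j0]) ++ lf (rL V) := by
            simp [lf, rR, rL]
          rw [e]
          refine List.Sublist.trans ?_ hS
          exact ((List.Sublist.refl _).append ((List.Sublist.refl _).append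
            (List.singleton_sublist.2 hj0))).append (List.Sublist.refl _)) (by
          intro w hw
          rcases List.mem_cons.1 hw with rfl | hw
          · exact hCp.1.1.sub (Sub.refl l) (by intro z hz; simp at hz; rw [hz]; exact hj0)
          · exact (hR w hw).2.1) hCp.2.1
      exact h
    · have h := hr ((true, u, i0) :: V) (by
          have e : lf (rR ((true, u, i0) :: V)) ++ r.lv ++ lf (rL ((true, u, i0) :: V)) =
              lf (rR V) ++ ([i0] ++ r.lv) ++ lf (rL V) := by
            simp [lf, rR, rL]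
          rw [e]
          refine List.Sublist.trans ?_ hS
          exact ((List.Sublist.refl _).append ((List.singleton_sublist.2 hi0).append
            (List.Sublist.refl _))).append (List.Sublist.refl _)) (by
          intro w hw
          rcases List.mem_cons.1 hw with rfl | hw
          · exact hCp.1.2.sub (Sub.refl r) (by intro z hz; simp at hz; rw [hz]; exact hi0)
          · exact (hR w hw).2.2) hCp.2.2
      exact h

end

end Pool.Agent.H595K.Lb
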