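import Mathlib
import Pool.Agent.H595K.JTree

/-!
# Replacing the leaves of a tree by trees
-/

namespace Pool.Agent.H595K.Lb

open LT

/-- `y` is larger (`d = true`) or smaller (`d = false`) than `x` -/
def Dr (d : Bool) (x y : ℝ) : Prop := if d = true then x < y else y < x

theorem lt2_anc_r {d : Bool} {a x : ℝ} (h : Dr d a x) : lt2 x (true, a) = d := by
  cases d with
  | true =>
    have h : a < x := h
    simp [lt2, h]
  | false =>
    have h : x < a := by simpa [Dr] using h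
    simp [lt2, h.le]

theorem lt2_anc_l {d : Bool} {a x : ℝ} (h : Dr d a x) : lt2 x (false, a) = !d := by
  cases d with
  | true =>
    have h : a < x := h
    simp [lt2, h.le]
  | false =>
    have h : x < a := by simpa [Dr] using h
    simp [lt2, h]

theorem lt2_desc_r {d : Bool} {x b : ℝ} (h : Dr d x b) : lt2 x (true, b) = !d := by
  cases d with
  | true =>
    have h : x < b := h
    simp [lt2, h.le]
  | false =>
    have h : b < x := by simpa [Dr] using h
    simp [lt2, h]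

theorem lt2_desc_l {d : Bool} {x b : ℝ} (h : Dr d x b) : lt2 x (false, b) = d := by
  cases d with
  | true =>
    have h : x < b := h
    simp [lt2, h]
  | false =>
    have h : b < x := by simpa [Dr] using h
    simp [lt2, h.le]

theorem rA_anc {d : Bool} {x : ℝ} {L : List (Bool × ℝ)} (h : ∀ w ∈ L, Dr d w.2 x) :
    ∀ b ∈ rA x L, b = d := by
  intro b hb
  obtain ⟨w, h1, h2, h3⟩ := mem_rA hb
  obtain ⟨c, a⟩ := w
  simp only at h2
  subst h2
  rw [← h3]
  exact lt2_anc_r (h _ h1)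

theorem rD_anc {d : Bool} {x : ℝ} {L : List (Bool × ℝ)} (h : ∀ w ∈ L, Dr d w.2 x) :
    ∀ b ∈ rD x L, b = !d := by
  intro b hb
  obtain ⟨w, h1, h2, h3⟩ := mem_rD hb
  obtain ⟨c, a⟩ := w
  simp only at h2
  subst h2
  rw [← h3]
  exact lt2_anc_l (h _ h1)

theorem rA_desc {d : Bool} {x : ℝ} {L : List (Bool × ℝ)} (h : ∀ w ∈ L, Dr d x w.2) :
    ∀ b ∈ rA x L, b = !d := by
  intro b hb
  obtain ⟨w, h1, h2, h3⟩ := mem_rA hb
  obtain ⟨c, a⟩ := w
  simp only at h2
  subst h2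
  rw [← h3]
  exact lt2_desc_r (h _ h1)

theorem rD_desc {d : Bool} {x : ℝ} {L : List (Bool × ℝ)} (h : ∀ w ∈ L, Dr d x w.2) :
    ∀ b ∈ rD x L, b = d := by
  intro b hb
  obtain ⟨w, h1, h2, h3⟩ := mem_rD hb
  obtain ⟨c, a⟩ := w
  simp only at h2
  subst h2
  rw [← h3]
  exact lt2_desc_l (h _ h1)

/-- new outer ancestors -/
theorem vle_anc {d : Bool} {K : ℕ} {x : ℝ} {M L W1 W2 : List (Bool × ℝ)}
    (h : ∀ w ∈ L, Dr d w.2 x) (hK : VLe (ext d (tup x M W1 W2)) K) :
    VLe (ext d (tup x (M ++ L) W1 W2)) K := by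
  refine TC.vle ?_ hK
  refine ⟨?_, CLe.refl _, CLe.refl _, CLe.refl _, CLe.refl _, ?_⟩
  · show CLe (d :: rA x (M ++ L)) (d :: rA x M)
    rw [rA_append]
    exact cle_const_left (rA_anc h)
  · show CLe (rD x (M ++ L) ++ [!d]) (rD x M ++ [!d])
    rw [rD_append]
    exact cle_const_right (rD_anc h)

/-- longer paths -/
theorem vle_desc {d : Bool} {K : ℕ} {x : ℝ} {L U1 B1 U2 B2 : List (Bool × ℝ)}
    (h1 : ∀ w ∈ B1, Dr d x w.2) (h2 : ∀ w ∈ B2, Dr d x w.2)
    (hK : VLe (ext d (tup x L U1 U2)) K) : VLe (ext d (tup x L (U1 ++ B1) (U2 ++ B2))) K := by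
  refine TC.vle ?_ hK
  have h1' : ∀ w ∈ B1.reverse, Dr d x w.2 := fun w hw => h1 w (by simpa using hw)
  have h2' : ∀ w ∈ B2.reverse, Dr d x w.2 := fun w hw => h2 w (by simpa using hw)
  refine ⟨CLe.refl _, ?_, ?_, ?_, ?_, CLe.refl _⟩
  · show CLe (rA x (U1 ++ B1).reverse ++ [!d]) (rA x U1.reverse ++ [!d])
    rw [List.reverse_append, rA_append]
    exact cle_const_right (rA_desc h1')
  · show CLe (d :: rD x (U1 ++ B1).reverse) (d :: rD x U1.reverse)
    rw [List.reverse_append, rD_append]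
    exact cle_const_left (rD_desc h1')
  · show CLe (rA x (U2 ++ B2).reverse ++ [!d]) (rA x U2.reverse ++ [!d])
    rw [List.reverse_append, rA_append]
    exact cle_const_right (rA_desc h2')
  · show CLe (d :: rD x (U2 ++ B2).reverse) (d :: rD x U2.reverse)
    rw [List.reverse_append, rD_append]
    exact cle_const_left (rD_desc h2')

/-! ### Grafts -/

/-- all labels in the trees which replace the leaves -/
def Bt (P : ℝ → Prop) : LT ℝ → LT ℝ → Prop
  | leaf _, t => AllL P t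
  | node _ _ _, leaf _ => False
  | node _ l r, node _ l' r' => Bt P l l' ∧ Bt P r r'

/-- the leaves are replaced by trees with property `Q`, the labels of which are related to the
labels of their ancestors -/
def Gr (Q : LT ℝ → Prop) (d : Bool) : LT ℝ → LT ℝ → Prop
  | leaf _, t => Q t
  | node _ _ _, leaf _ => False
  | node x l r, node x' l' r' => x = x' ∧ Bt (Dr d x) l l' ∧ Bt (Dr d x) r r' ∧ Gr Q d l l' ∧
      Gr Q d r r'

theorem Bt.imp {P P' : ℝ → Prop} (hP : ∀ x, P x → P' x) {X : LT ℝ} :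
    ∀ {Y : LT ℝ}, Bt P X Y → Bt P' X Y := by
  induction X with
  | leaf i => intro Y h; exact AllL.imp h hP
  | node x l r hl hr =>
    intro Y h
    cases Y with
    | leaf i => exact h
    | node x' l' r' => exact ⟨hl h.1, hr h.2⟩

theorem Bt.and {P P' : ℝ → Prop} {X : LT ℝ} :
    ∀ {Y : LT ℝ}, Bt P X Y → Bt P' X Y → Bt (fun x => P x ∧ P' x) X Y := by
  induction X with
  | leaf i => intro Y h h'; exact AllL.and h h'
  | node x l r hl hr =>
    intro Y h h'
    cases Y with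
    | leaf i => exact h
    | node x' l' r' => exact ⟨hl h.1 h'.1, hr h.2 h'.2⟩

theorem bt_of_allL {P : ℝ → Prop} {Q : LT ℝ → Prop} {d : Bool} {X : LT ℝ} :
    ∀ {Y : LT ℝ}, Gr Q d X Y → AllL P Y → Bt P X Y := by
  induction X with
  | leaf i => intro Y _ h; exact h
  | node x l r hl hr =>
    intro Y h h'
    cases Y with
    | leaf i => exact h
    | node x' l' r' => exact ⟨hl h.2.2.2.1 h'.2.1, hr h.2.2.2.2 h'.2.2⟩

theorem Gr.comp {m : ℕ} {d : Bool} {X : LT ℝ} : ∀ {n : ℕ} {Y : LT ℝ}, Comp n X → Gr (Comp m) d X Y →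
    Comp (n + m) Y := by
  induction X with
  | leaf i =>
    intro n Y hn h
    cases n with
    | zero => rw [Nat.zero_add]; exact h
    | succ n => exact absurd hn (by simp [Comp])
  | node x l r hl hr =>
    intro n Y hn h
    cases n with
    | zero => exact absurd hn (by simp [Comp])
    | succ n =>
      cases Y with
      | leaf i => exact h.elim
      | node x' l' r' =>
        rw [show n + 1 + m = (n + m) + 1 by ring]
        exact ⟨hl hn.1 h.2.2.2.1, hr hn.2 h.2.2.2.2⟩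

/-- a bottom part -/
theorem Gr.bottom {Q : LT ℝ → Prop} {d : Bool} {X : LT ℝ} : ∀ {Y : LT ℝ}, Gr Q d X Y →
    ∃ B, Sub (fun _ _ _ => True) B Y ∧ Q B ∧ ∀ P : ℝ → Prop, Bt P X Y → AllL P B := by
  induction X with
  | leaf i => intro Y h; exact ⟨Y, Sub.refl _, h, fun P hP => hP⟩
  | node x l r hl hr =>
    intro Y h
    cases Y with
    | leaf i => exact h.elim
    | node x' l' r' =>
      obtain ⟨B, h1, h2, h3⟩ := hl h.2.2.2.1
      exact ⟨B, Sub.left _ _ h1, h2, fun P hP => h3 P hP.1⟩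

/-- selection in the upper part -/
theorem Gr.select {Q : LT ℝ → Prop} {d : Bool} {X0 X : LT ℝ} (hX : Em X0 X) :
    ∀ {Y : LT ℝ}, Gr Q d X Y → ∃ Y0, Sub (fun _ _ _ => True) Y0 Y ∧ Gr Q d X0 Y0 ∧
      ∀ P : ℝ → Prop, Bt P X Y → Bt P X0 Y0 := by
  induction hX with
  | leaf i X =>
    intro Y h
    obtain ⟨B, h1, h2, h3⟩ := h.bottom
    exact ⟨B, h1, h2, fun P hP => h3 P hP⟩
  | left a r _ ih =>
    intro Y h
    cases Y with
    | leaf i => exact h.elim
    | node x' l' r' =>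
      obtain ⟨Y0, h1, h2, h3⟩ := ih h.2.2.2.1
      exact ⟨Y0, Sub.left _ _ h1, h2, fun P hP => h3 P hP.1⟩
  | right a l _ ih =>
    intro Y h
    cases Y with
    | leaf i => exact h.elim
    | node x' l' r' =>
      obtain ⟨Y0, h1, h2, h3⟩ := ih h.2.2.2.2
      exact ⟨Y0, Sub.right _ _ h1, h2, fun P hP => h3 P hP.2⟩
  | node _ _ ihl ihr =>
    intro Y h
    cases Y with
    | leaf i => exact h.elim
    | node x' l' r' =>
      obtain ⟨e, b1, b2, g1, g2⟩ := h
      subst e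
      obtain ⟨Y1, h1, h2, h3⟩ := ihl g1
      obtain ⟨Y2, k1, k2, k3⟩ := ihr g2
      exact ⟨node _ Y1 Y2, Sub.node trivial h1 k1, ⟨rfl, h3 _ b1, k3 _ b2, h2, k2⟩,
        fun P hP => ⟨h3 P hP.1, k3 P hP.2⟩⟩

/-- change the bottom parts -/
theorem Gr.map {Q Q' : LT ℝ → Prop} {d : Bool} {X0 : LT ℝ} : ∀ {Y : LT ℝ}, Gr Q d X0 Y →
    (∀ B, Q B → Sub (fun _ _ _ => True) B Y → ∃ B', Sub (fun _ _ _ => True) B' B ∧ Q' B') →
    ∃ Y', Sub (fun _ _ _ => True) Y' Y ∧ Gr Q' d X0 Y' ∧ ∀ P : ℝ → Prop, Bt P X0 Y → Bt P X0 Y' := by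
  induction X0 with
  | leaf i =>
    intro Y h hQ
    obtain ⟨B', h1, h2⟩ := hQ Y h (Sub.refl _)
    exact ⟨B', h1, h2, fun P hP => h1.allL hP⟩
  | node x l r hl hr =>
    intro Y h hQ
    cases Y with
    | leaf i => exact h.elim
    | node x' l' r' =>
      obtain ⟨e, b1, b2, g1, g2⟩ := h
      subst e
      obtain ⟨Y1, h1, h2, h3⟩ := hl g1 (fun B q s => hQ B q (Sub.left _ _ s))
      obtain ⟨Y2, k1, k2, k3⟩ := hr g2 (fun B q s => hQ B q (Sub.right _ _ s))
      exact ⟨node _ Y1 Y2, Sub.node trivial h1 k1, ⟨rfl, h3 _ b1, k3 _ b2, h2, k2⟩,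
        fun P hP => ⟨h3 P hP.1, k3 P hP.2⟩⟩

/-- decomposition of paths -/
theorem Gr.path {Q : LT ℝ → Prop} {d : Bool} {P : ℝ → Prop} {X0 : LT ℝ} : ∀ {Y : LT ℝ},
    Gr Q d X0 Y → Bt P X0 Y → ∀ {W : List (Bool × ℝ)}, Pl Y W →
    ∃ U B, Pl X0 U ∧ W = U ++ B ∧ ∀ w ∈ B, P w.2 := by
  induction X0 with
  | leaf i =>
    intro Y _ hb W hW
    exact ⟨[], W, Pl.leaf i, rfl, hW.allL hb⟩
  | node x l r hl hr =>
    intro Y h hb W hW
    cases hW with
    | leaf i => exact h.elim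
    | left hW =>
      obtain ⟨e, b1, b2, g1, g2⟩ := h
      subst e
      obtain ⟨U, B, h1, h2, h3⟩ := hl g1 hb.1 hW
      exact ⟨_, B, Pl.left h1, by rw [h2]; rfl, h3⟩
    | right hW =>
      obtain ⟨e, b1, b2, g1, g2⟩ := h
      subst e
      obtain ⟨U, B, h1, h2, h3⟩ := hr g2 hb.2 hW
      exact ⟨_, B, Pl.right h1, by rw [h2]; rfl, h3⟩

/-- extension of paths -/
theorem Gr.path_ext {Q : LT ℝ → Prop} {d : Bool} {P : ℝ → Prop}
    (hQ : ∀ t, Q t → ∃ N, Comp (N + 2) t) {X0 : LT ℝ} : ∀ {Y : LT ℝ},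
    Gr Q d X0 Y → Bt P X0 Y → ∀ {U : List (Bool × ℝ)}, Pl X0 U →
    ∃ b1 b2 W, Pl Y (U ++ (false, b1) :: (true, b2) :: W) ∧ P b1 ∧ P b2 := by
  induction X0 with
  | leaf i =>
    intro Y h hb U hU
    cases hU
    obtain ⟨N, hN⟩ := hQ Y h
    have hb : AllL P Y := hb
    cases Y with
    | leaf i => exact absurd hN (by simp [Comp])
    | node b1 l c =>
      cases l with
      | leaf i => exact absurd hN.1 (by simp [Comp])
      | node b2 a b =>
        obtain ⟨W, hW⟩ := exists_pl b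
        exact ⟨b1, b2, W, Pl.left (Pl.right hW), hb.1, hb.2.1.1⟩
  | node x l r hl hr =>
    intro Y h hb U hU
    cases Y with
    | leaf i => exact h.elim
    | node x' l' r' =>
      obtain ⟨e, c1, c2, g1, g2⟩ := h
      subst e
      cases hU with
      | left hU =>
        obtain ⟨b1, b2, W, h1, h2, h3⟩ := hl g1 hb.1 hU
        exact ⟨b1, b2, W, Pl.left h1, h2, h3⟩
      | right hU =>
        obtain ⟨b1, b2, W, h1, h2, h3⟩ := hr g2 hb.2 hU
        exact ⟨b1, b2, W, Pl.right h1, h2, h3⟩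

/-! ### Closure -/

theorem wb_bot {d : Bool} {K : ℕ} {L : List (Bool × ℝ)} {B : LT ℝ} :
    ∀ {M : List (Bool × ℝ)}, WB [d] K M B → AllL (fun y => ∀ w ∈ L, Dr d w.2 y) B →
      WB [d] K (M ++ L) B := by
  induction B with
  | leaf i => intro M _ _; trivial
  | node x l r hl hr =>
    intro M h hA
    exact ⟨fun W1 W2 p1 p2 => vle_anc hA.1 (h.1 W1 W2 p1 p2), hl h.2.1 hA.2.1, hr h.2.2 hA.2.2⟩

/-- **Closure of the classes.** -/
theorem wb_gr {d : Bool} {K : ℕ} {Q : LT ℝ → Prop} (hQ : ∀ t, Q t → WB [d] K [] t) {X0 : LT ℝ} :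
    ∀ {Y : LT ℝ} {L : List (Bool × ℝ)}, WB [d] K L X0 → Gr Q d X0 Y →
      Bt (fun y => ∀ w ∈ L, Dr d w.2 y) X0 Y → WB [d] K L Y := by
  induction X0 with
  | leaf i =>
    intro Y L _ hG hb
    exact wb_bot (M := []) (hQ Y hG) hb
  | node x l r hl hr =>
    intro Y L hW hG hb
    cases Y with
    | leaf i => exact hG.elim
    | node x' l' r' =>
      obtain ⟨e, b1, b2, g1, g2⟩ := hG
      subst e
      refine ⟨?_, hl hW.2.1 g1 ?_, hr hW.2.2 g2 ?_⟩
      · intro W1 W2 p1 p2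
        obtain ⟨U1, B1, q1, e1, s1⟩ := g1.path b1 p1
        obtain ⟨U2, B2, q2, e2, s2⟩ := g2.path b2 p2
        rw [e1, e2]
        exact vle_desc s1 s2 (hW.1 U1 U2 q1 q2)
      · refine (b1.and hb.1).imp ?_
        rintro y ⟨k1, k2⟩ w hw
        rcases List.mem_cons.1 hw with rfl | hw
        · exact k1
        · exact k2 w hw
      · refine (b2.and hb.2).imp ?_
        rintro y ⟨k1, k2⟩ w hw
        rcases List.mem_cons.1 hw with rfl | hw
        · exact k1
        · exact k2 w hw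

/-! ### Sandwiches -/

theorem ext_tup_le {d : Bool} {x v1 v2 b1 b2 c1 c2 : ℝ} (h1 : Dr d v1 x) (h2 : Dr d v2 x)
    (k1 : Dr d x b1) (k2 : Dr d x b2) (k3 : Dr d x c1) (k4 : Dr d x c2)
    (L U1 U2 V1 V2 : List (Bool × ℝ)) :
    TLe (ext d (tup x L U1 U2)) (tup x (L ++ [(true, v2), (false, v1)])
      (U1 ++ (false, b1) :: (true, b2) :: V1) (U2 ++ (false, c1) :: (true, c2) :: V2)) := by
  have key : ∀ (U V : List (Bool × ℝ)) (b1 b2 : ℝ), Dr d x b1 → Dr d x b2 →
      (rA x U.reverse ++ [!d]).Sublist (rA x (U ++ (false, b1) :: (true, b2) :: V).reverse) ∧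
      (d :: rD x U.reverse).Sublist (rD x (U ++ (false, b1) :: (true, b2) :: V).reverse) := by
    intro U V b1 b2 k1 k2
    have e : (U ++ (false, b1) :: (true, b2) :: V).reverse =
        (V.reverse ++ [(true, b2)]) ++ ([(false, b1)] ++ U.reverse) := by simp
    rw [e]
    simp only [rA_append, rD_append]
    have e1 : rA x [(true, b2)] = [!d] := by simp [rA, lt2_desc_r k2]
    have e2 : rA x [(false, b1)] = [] := by simp [rA]
    have e3 : rD x [(true, b2)] = [] := by simp [rD]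
    have e4 : rD x [(false, b1)] = [d] := by simp [rD, lt2_desc_l k1]
    rw [e1, e2, e3, e4]
    constructor
    · simp only [List.append_nil, List.append_assoc]
      exact (List.Sublist.refl _).append (List.sublist_append_left _ _)
    · simp only [List.append_nil, List.cons_append, List.nil_append]
      exact List.sublist_append_right _ _
  have e5 : rA x (L ++ [(true, v2), (false, v1)]) = d :: rA x L := by
    rw [rA_append]
    simp [rA, lt2_anc_r h2]
  have e6 : rD x (L ++ [(true, v2), (false, v1)]) = rD x L ++ [!d] := by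
    rw [rD_append]
    simp [rD, lt2_anc_l h1]
  refine ⟨?_, (key U1 V1 b1 b2 k1 k2).1, (key U1 V1 b1 b2 k1 k2).2, (key U2 V2 c1 c2 k3 k4).1,
    (key U2 V2 c1 c2 k3 k4).2, ?_⟩
  · show (d :: rA x L).Sublist (rA x (L ++ [(true, v2), (false, v1)]))
    rw [e5]
  · show (rD x L ++ [!d]).Sublist (rD x (L ++ [(true, v2), (false, v1)]))
    rw [e6]

theorem wb_sand {s : List Bool} {K : ℕ} {d : Bool} {Q : LT ℝ → Prop} {v1 v2 : ℝ}
    (hQ : ∀ t, Q t → ∃ N, Comp (N + 2) t) {X0 : LT ℝ} : ∀ {Y : LT ℝ} {L : List (Bool × ℝ)},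
      Gr Q d X0 Y → AllL (fun y => Dr d v1 y ∧ Dr d v2 y) X0 →
      WB s K (L ++ [(true, v2), (false, v1)]) Y → WB (d :: s) K L X0 := by
  induction X0 with
  | leaf i => intro Y L _ _ _; trivial
  | node x l r hl hr =>
    intro Y L hG hA hW
    cases Y with
    | leaf i => exact hG.elim
    | node x' l' r' =>
      obtain ⟨e, b1, b2, g1, g2⟩ := hG
      subst e
      refine ⟨?_, hl g1 hA.2.1 hW.2.1, hr g2 hA.2.2 hW.2.2⟩
      intro U1 U2 p1 p2
      obtain ⟨c1, c2, V1, q1, m1, m2⟩ := g1.path_ext hQ b1 p1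
      obtain ⟨c3, c4, V2, q2, m3, m4⟩ := g2.path_ext hQ b2 p2
      have h1 := hW.1 _ _ q1 q2
      exact h1.mono ((ext_tup_le hA.1.1 hA.1.2 m1 m2 m3 m4 L U1 U2 V1 V2).exts s) le_rfl

theorem gr_sub {Q : LT ℝ → Prop} {d : Bool} {P : ℝ → Prop} {X0 : LT ℝ} : ∀ {Y : LT ℝ},
    Gr Q d X0 Y → AllL P Y → AllL P X0 := by
  induction X0 with
  | leaf i => intro Y _ _; trivial
  | node x l r hl hr =>
    intro Y hG hA
    cases Y with
    | leaf i => exact hG.elim
    | node x' l' r' =>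
      obtain ⟨e, b1, b2, g1, g2⟩ := hG
      subst e
      exact ⟨hA.1, hl g1 hA.2.1, hr g2 hA.2.2⟩

/-- **Sandwiches.** -/
theorem wb_sandwich {s : List Bool} {K : ℕ} {d : Bool} {Q : LT ℝ → Prop} {v1 v2 : ℝ}
    (hQ : ∀ t, Q t → ∃ N, Comp (N + 2) t) {X0 Y a b : LT ℝ} (hG : Gr Q d X0 Y)
    (h1 : AllL (Dr d v1) Y) (h2 : AllL (Dr d v2) Y)
    (hW : WB s K [] (node v1 (node v2 a Y) b)) : WB (d :: s) K [] X0 :=
  wb_sand hQ hG (gr_sub hG (h1.and h2)) (L := []) hW.2.1.2.2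

/-! ### Pure trees -/

/-- pure trees -/
def PP (e : Bool) : LT ℝ → Prop :=
  LT.AllN (fun x l r => AllL (Dr e x) l ∧ AllL (Dr (!e) x) r)

theorem ch_pure (d e e1 e2 : Bool) : ch (wrd ⟨[d, !e], [!e, !d], [d, e], [e, !d], [d, !e],
    [!e, !d]⟩ e1 e2) ≤ 5 := by
  cases d <;> cases e <;> cases e1 <;> cases e2 <;> decide

theorem wb_pure {d e : Bool} {X : LT ℝ} : ∀ {L : List (Bool × ℝ)}, PP e X →
    AllL (fun y => ∀ w ∈ L, (w.1 = false → Dr e w.2 y) ∧ (w.1 = true → Dr (!e) w.2 y)) X →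
    WB [d] 5 L X := by
  induction X with
  | leaf i => intro L _ _; trivial
  | node x l r hl hr =>
    intro L hP hA
    obtain ⟨⟨hP1, hP2⟩, hP3, hP4⟩ := hP
    obtain ⟨hA1, hA2, hA3⟩ := hA
    refine ⟨?_, hl hP3 ?_, hr hP4 ?_⟩
    · intro W1 W2 p1 p2
      have hW1 : ∀ w ∈ W1.reverse, Dr e x w.2 := fun w hw => p1.allL hP1 w (by simpa using hw)
      have hW2 : ∀ w ∈ W2.reverse, Dr (!e) x w.2 := fun w hw => p2.allL hP2 w (by simpa using hw)
      have a1 : ∀ b ∈ rA x L, b = !e := by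
        intro b hb
        obtain ⟨⟨c, a⟩, h1, h2, h3⟩ := mem_rA hb
        simp only at h2
        subst h2
        rw [← h3]
        exact lt2_anc_r ((hA1 _ h1).2 rfl)
      have a2 : ∀ b ∈ rD x L, b = !e := by
        intro b hb
        obtain ⟨⟨c, a⟩, h1, h2, h3⟩ := mem_rD hb
        simp only at h2
        subst h2
        rw [← h3]
        exact lt2_anc_l ((hA1 _ h1).1 rfl)
      have a3 := rA_desc hW1
      have a4 := rD_desc hW1
      have a5 := rA_desc hW2
      have a6 := rD_desc hW2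
      rw [Bool.not_not] at a5
      refine TC.vle (t' := ⟨[d, !e], [!e, !d], [d, e], [e, !d], [d, !e], [!e, !d]⟩) ?_
        (fun e1 e2 => ch_pure d e e1 e2)
      refine ⟨?_, ?_, ?_, ?_, ?_, ?_⟩
      · exact (CLe.refl [d]).append (cle_const a1)
      · exact (cle_const a3).append (CLe.refl [!d])
      · exact (CLe.refl [d]).append (cle_const a4)
      · exact (cle_const a5).append (CLe.refl [!d])
      · exact (CLe.refl [d]).append (cle_const a6)
      · exact (cle_const a2).append (CLe.refl [!d])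
    · refine (hP1.and hA2).imp ?_
      rintro y ⟨k1, k2⟩ w hw
      rcases List.mem_cons.1 hw with rfl | hw
      · exact ⟨fun _ => k1, by simp⟩
      · exact k2 w hw
    · refine (hP2.and hA3).imp ?_
      rintro y ⟨k1, k2⟩ w hw
      rcases List.mem_cons.1 hw with rfl | hw
      · exact ⟨by simp, fun _ => k1⟩
      · exact k2 w hw

theorem allL_triv {P : ℝ → Prop} (h : ∀ x, P x) (t : LT ℝ) : AllL P t := by
  induction t with
  | leaf i => trivial
  | node x l r hl hr => exact ⟨h x, hl, hr⟩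

theorem wb_pure' {d e : Bool} {X : LT ℝ} (h : PP e X) : WB [d] 5 [] X :=
  wb_pure h (allL_triv (by simp) X)

theorem wb_single {d : Bool} {x : ℝ} {i j : ℕ} : WB [d] 5 [] (node x (leaf i) (leaf j)) :=
  wb_pure' (e := true) ⟨⟨trivial, trivial⟩, trivial, trivial⟩

end Pool.Agent.H595K.Lb
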