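import Mathlib
import Pool.Agent.H595K.JGraft

/-!
# Splitting a tree and chains of blocks
-/

namespace Pool.Agent.H595K.Lb

open LT

theorem exists_colorV {α : Type} {m n : ℕ} {t : LT α} (P : ℕ → α → LT α → LT α → Prop)
    (D : ℕ → ℕ) (h : AllN (fun a l r => ∃ c < m, P c a l r) t) (hn : Comp n t)
    (hmD : ∑ c ∈ Finset.range m, D c < n) :
    ∃ c < m, ∃ t', Sub (P c) t' t ∧ Comp (D c + 1) t' := by
  classical
  let ρ : α → LT α → LT α → ℕ := fun a l r => if h : ∃ c < m, P c a l r then h.choose else m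
  have hρ : ∀ a l r, (∃ c < m, P c a l r) → ρ a l r < m ∧ P (ρ a l r) a l r := by
    intro a l r h
    have e : ρ a l r = h.choose := dif_pos h
    rw [e]
    exact h.choose_spec
  have h2 := comp_le ρ m (h.imp (fun a l r h => (hρ a l r h).1)) hn
  obtain ⟨c, hc, hlt⟩ : ∃ c ∈ Finset.range m, D c < rk ρ c t := by
    by_contra hcon
    push Not at hcon
    have := Finset.sum_le_sum hcon
    omega
  rw [Finset.mem_range] at hc
  obtain ⟨t', h3, h4⟩ := rk_spec ρ c t (D c + 1) hlt
  refine ⟨c, hc, t', ?_, h4⟩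
  refine (Sub.andN h3 h).mono ?_
  rintro a l r ⟨h5, h6⟩
  have := (hρ a l r h6).2
  rwa [h5] at this

/-- colouring a bottom subtree -/
theorem leaf_colorV {M n : ℕ} (N : ℕ → ℕ) {W : List (Bool × ℝ)} {s : LT ℝ} (hn : Comp n s)
    (hP : AllC (PM M) W s) (hK : N 0 + N 1 + N 2 + N 3 + N 4 < n) :
    (∃ M', M = M' + 1 ∧ ∃ s', Sub (fun _ _ _ => True) s' s ∧ Comp (N 4) s' ∧
      AllC (PM M') [] s') ∨
    ∃ c < 4, ∃ s', Sub (fun _ _ _ => True) s' s ∧ Comp (N c) s' ∧
      AllL (fun y => ∀ w ∈ W, Rc c w.1 w.2 y) s' := by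
  have hne : AllL (fun y => ∀ w ∈ W, w.2 ≠ y) s := by
    refine AllC.allL (P := PM M) (W := W) (K := []) ?_ hP
    intro K x h w hw
    exact h.2 w (List.mem_append_right _ hw)
  have h1 : AllN (fun y _ _ => ∃ c < 5, (c = 4 ∧ 1 ≤ chs y W) ∨
      (c < 4 ∧ ∀ w ∈ W, Rc c w.1 w.2 y)) s := by
    refine (LT.allN_of_allL hne).imp ?_
    intro y _ _ h
    by_cases h0 : chs y W = 0
    · obtain ⟨c, hc, h2⟩ := exists_rc h0 h
      exact ⟨c, by omega, Or.inr ⟨hc, h2⟩⟩
    · exact ⟨4, by norm_num, Or.inl ⟨rfl, by omega⟩⟩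
  obtain ⟨c, hc, s', h2, h3⟩ := exists_colorV
    (fun c y _ _ => (c = 4 ∧ 1 ≤ chs y W) ∨ (c < 4 ∧ ∀ w ∈ W, Rc c w.1 w.2 y)) N h1 hn
    (by simp [Finset.sum_range_succ]; omega)
  have h4 := allL_of_sub h2
  by_cases hc4 : c < 4
  · right
    obtain ⟨s'', g1, g2⟩ := comp_le' (Nat.le_succ (N c)) h3
    refine ⟨c, hc4, s'', h2.top.trans g1, g2, g1.allL (h4.imp ?_)⟩
    rintro y (⟨h5, _⟩ | ⟨_, h5⟩)
    · omega
    · exact h5
  · left
    have hc' : c = 4 := by omega
    subst hc'
    have h5 : AllL (fun y => 1 ≤ chs y W) s' := by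
      refine h4.imp ?_
      rintro y (⟨_, h5⟩ | ⟨h5, _⟩)
      · exact h5
      · exact absurd h5 hc4
    have hP' : AllC (PM M) W s' := AllC.sub pm_sublist h2 (List.Sublist.refl _) hP
    have h6 : AllC (fun L x => PM M (L ++ W) x ∧ 1 ≤ chs x W) [] s' := by
      refine AllC.strip (P := PM M) (Q := fun y => 1 ≤ chs y W) (W := W) (K := []) ?_ hP' h5
      intro K x h7 h8
      exact ⟨h7, h8⟩
    have hM : ∃ M', M = M' + 1 := by
      cases s' with
      | leaf i => exact absurd h3 (by simp [Comp])
      | node a l r =>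
        have h7 := hP'.1.1
        have h8 := h5.1
        exact ⟨M - 1, by omega⟩
    obtain ⟨M', rfl⟩ := hM
    obtain ⟨s'', g1, g2⟩ := comp_le' (Nat.le_succ (N 4)) h3
    refine ⟨M', rfl, s'', h2.top.trans g1, g2, ?_⟩
    have h9 : AllC (PM (M' + 1)) ([] ++ W) s' := hP'
    have h10 : AllC (PM M') [] s' := by
      refine AllC.strip (P := PM (M' + 1)) (Q := fun y => 1 ≤ chs y W) (W := W) (K := []) ?_ h9 h5
      intro K x h10 h11
      refine ⟨?_, fun w hw => h10.2 w (List.mem_append_left _ hw)⟩
      have := chs_append x K W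
      have := h10.1
      omega
    exact AllC.sub pm_sublist g1 (List.Sublist.refl _) h10

open Finset in
/-- pigeonhole principle for the bottom parts -/
theorem pigV {P : List (Bool × ℝ) → ℝ → Prop} {X : LT ℝ} {R : ℕ → Bool → ℝ → ℝ → Prop}
    {m N2 : ℕ} {N : ℕ → ℕ}
    (hB : ∀ W s, Sub (fun _ _ _ => True) s X → Comp N2 s → AllC P W s →
      ∃ c < m, ∃ s', Sub (fun _ _ _ => True) s' s ∧ Comp (N c) s' ∧
        AllL (fun y => ∀ w ∈ W, R c w.1 w.2 y) s') (N1 : ℕ) :
    ∀ (D : ℕ → ℕ), ∑ c ∈ range m, D c ≤ N1 → ∀ W s, Sub (fun _ _ _ => True) s X →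
      Comp (N1 + N2) s → AllC P W s → ∃ c < m, ∃ s', Sub (fun _ _ _ => True) s' s ∧
        St (R c) (N c) (D c) s' ∧ Btm (fun y => ∀ w ∈ W, R c w.1 w.2 y) (D c) s' := by
  induction N1 with
  | zero =>
    intro D hD W s hs hn hP
    rw [Nat.zero_add] at hn
    obtain ⟨c, hc, s', h1, h2, h3⟩ := hB W s hs hn hP
    have h0 : D c = 0 := by
      have := Finset.single_le_sum (f := D) (fun i _ => Nat.zero_le _) (Finset.mem_range.2 hc)
      omega
    refine ⟨c, hc, s', h1, ?_, ?_⟩
    · rw [h0]; exact h2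
    · rw [h0]; exact h3
  | succ N1 ih =>
    intro D hD W s hs hn hP
    rw [show N1 + 1 + N2 = N1 + N2 + 1 by ring] at hn
    cases s with
    | leaf i => exact absurd hn (by simp [Comp])
    | node x l r =>
      have hsl : Sub (fun _ _ _ => True) l X := hs.trans (Sub.left _ _ (Sub.refl _))
      have hsr : Sub (fun _ _ _ => True) r X := hs.trans (Sub.right _ _ (Sub.refl _))
      by_cases h0 : ∀ c < m, D c = 0
      · obtain ⟨c, hc, s', h1, h2, h3⟩ := ih D (by
          rw [Finset.sum_eq_zero (fun c hc => h0 c (Finset.mem_range.1 hc))]; omega)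
          ((false, x) :: W) l hsl hn.1 hP.2.1
        exact ⟨c, hc, s', Sub.left _ _ h1, h2,
          h3.imp (fun y hy w hw => hy w (List.mem_cons_of_mem _ hw))⟩
      · push Not at h0
        obtain ⟨c0, hc0, h0⟩ := h0
        have hsum : ∑ c ∈ range m, Function.update D c0 (D c0 - 1) c ≤ N1 := by
          have e1 := Finset.sum_update_of_mem (Finset.mem_range.2 hc0) D (D c0 - 1)
          have e2 := Finset.sum_erase_add (range m) D (Finset.mem_range.2 hc0)
          rw [← Finset.erase_eq] at e1
          rw [e1]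
          omega
        obtain ⟨c1, hc1, s1, a1, a2, a3⟩ := ih _ hsum ((false, x) :: W) l hsl hn.1 hP.2.1
        obtain ⟨c2, hc2, s2, b1, b2, b3⟩ := ih _ hsum ((true, x) :: W) r hsr hn.2 hP.2.2
        by_cases e1 : c1 = c0
        · by_cases e2 : c2 = c0
          · subst e1
            subst e2
            rw [Function.update_self] at a2 a3 b2 b3
            obtain ⟨d, hd⟩ : ∃ d, D c2 = d + 1 := ⟨D c2 - 1, by omega⟩
            rw [hd, Nat.add_sub_cancel] at a2 a3 b2 b3
            refine ⟨c2, hc1, node x s1 s2, Sub.node trivial a1 b1, ?_, ?_⟩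
            · rw [hd]
              exact ⟨a3.imp (fun y hy => hy (false, x) (by simp)),
                b3.imp (fun y hy => hy (true, x) (by simp)), a2, b2⟩
            · rw [hd]
              exact ⟨a3.imp (fun y hy w hw => hy w (List.mem_cons_of_mem _ hw)),
                b3.imp (fun y hy w hw => hy w (List.mem_cons_of_mem _ hw))⟩
          · rw [Function.update_of_ne e2] at b2 b3
            exact ⟨c2, hc2, s2, Sub.right _ _ b1, b2,
              b3.imp (fun y hy w hw => hy w (List.mem_cons_of_mem _ hw))⟩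
        · rw [Function.update_of_ne e1] at a2 a3
          exact ⟨c1, hc1, s1, Sub.left _ _ a1, a2,
            a3.imp (fun y hy w hw => hy w (List.mem_cons_of_mem _ hw))⟩

theorem St.imp {R R' : Bool → ℝ → ℝ → Prop} {N : ℕ} (hR : ∀ b x y, R b x y → R' b x y) :
    ∀ {D : ℕ} {s : LT ℝ}, St R N D s → St R' N D s := by
  intro D
  induction D with
  | zero => intro s h; exact h
  | succ D ih =>
    intro s h
    cases s with
    | leaf i => exact h
    | node x l r => exact ⟨h.1.imp (hR _ _), h.2.1.imp (hR _ _), ih h.2.2.1, ih h.2.2.2⟩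

/-- closed in the direction `e` -/
theorem mid_of_btm_r {e : Bool} {N : ℕ} (hN : 1 ≤ N) {P : ℝ → Prop}
    (hP : ∀ y z, P y → Dr (!e) z y → P z) : ∀ {D : ℕ} {s : LT ℝ},
      St (fun b => Dr (if b = true then !e else e)) N D s → Btm P D s → AllL P (trunc D s) := by
  intro D
  induction D with
  | zero => intro s _ _; trivial
  | succ D ih =>
    intro s h hb
    cases s with
    | leaf i => exact h.elim
    | node a l r =>
      obtain ⟨y, hy⟩ := exists_bottom_label h.2.2.2 hN
      exact ⟨hP y a (hy _ hb.2) (hy _ h.2.1), ih h.2.2.1 hb.1, ih h.2.2.2 hb.2⟩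

theorem mid_of_btm_l {e : Bool} {N : ℕ} (hN : 1 ≤ N) {P : ℝ → Prop}
    (hP : ∀ y z, P y → Dr e z y → P z) : ∀ {D : ℕ} {s : LT ℝ},
      St (fun b => Dr (if b = true then !e else e)) N D s → Btm P D s → AllL P (trunc D s) := by
  intro D
  induction D with
  | zero => intro s _ _; trivial
  | succ D ih =>
    intro s h hb
    cases s with
    | leaf i => exact h.elim
    | node a l r =>
      obtain ⟨y, hy⟩ := exists_bottom_label h.2.2.1 hN
      exact ⟨hP y a (hy _ hb.1) (hy _ h.1), ih h.2.2.1 hb.1, ih h.2.2.2 hb.2⟩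

theorem dr_trans {d : Bool} {x y z : ℝ} (h1 : Dr d x y) (h2 : Dr d y z) : Dr d x z := by
  cases d with
  | true => exact lt_trans (show x < y from h1) (show y < z from h2)
  | false =>
    have h1 : y < x := by simpa [Dr] using h1
    have h2 : z < y := by simpa [Dr] using h2
    show (if false = true then x < z else z < x)
    simpa using h2.trans h1

theorem dr_symm {d : Bool} {x y : ℝ} (h : Dr (!d) x y) : Dr d y x := by
  cases d with
  | true =>
    have h : y < x := by simpa [Dr] using h
    exact h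
  | false =>
    have h : x < y := by simpa [Dr] using h
    show (if false = true then y < x else x < y)
    simpa using h

theorem pp_of_st {e : Bool} {N : ℕ} (hN : 1 ≤ N) : ∀ {D : ℕ} {s : LT ℝ},
    St (fun b => Dr (if b = true then !e else e)) N D s → PP e (trunc D s) := by
  intro D
  induction D with
  | zero => intro s _; trivial
  | succ D ih =>
    intro s h
    cases s with
    | leaf i => exact h.elim
    | node a l r =>
      refine ⟨⟨?_, ?_⟩, ih h.2.2.1, ih h.2.2.2⟩
      · exact mid_of_btm_r hN (P := Dr e a) (fun y z h1 h2 => dr_trans h1 (dr_symm h2))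
          h.2.2.1 h.1
      · refine mid_of_btm_l hN (P := Dr (!e) a) (fun y z h1 h2 => dr_trans h1 ?_)
          h.2.2.2 h.2.1
        exact dr_symm (by rw [Bool.not_not]; exact h2)

/-- **Splitting a tree.** -/
theorem splitG {M n E qA : ℕ} {X : LT ℝ} (D N : Bool → ℕ)
    (hn : 2 * E + D false + D true + (2 + qA + N false + N true + 1) ≤ n) (hX : Comp n X)
    (hP : AllC (PM M) [] X) :
    (∃ M', M = M' + 1 ∧ ∃ s', Sub (fun _ _ _ => True) s' X ∧ Comp qA s' ∧ AllC (PM M') [] s') ∨
    (∃ e X', Sub (fun _ _ _ => True) X' X ∧ Comp E X' ∧ PP e X') ∨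
    ∃ d X', Sub (fun _ _ _ => True) X' X ∧ St (fun _ => Dr d) (N d) (D d) X' := by
  by_contra hcon
  push Not at hcon
  obtain ⟨c1, c2, c3⟩ := hcon
  obtain ⟨X', a1, a2⟩ := comp_le' hn hX
  let N5 : ℕ → ℕ := fun c => if c = 0 then N false else if c = 3 then N true else
    if c = 4 then qA else 1
  have hP' : AllC (PM M) [] X' := AllC.sub pm_sublist a1 (List.Sublist.refl _) hP
  obtain ⟨c, hc, s', h1, h2, _⟩ := pigV (P := PM M) (X := X') (R := Rc) (m := 4)
    (N2 := 2 + qA + N false + N true + 1) (N := N5) (by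
      intro W s hs hns hPs
      rcases leaf_colorV N5 hns hPs (by simp [N5]; omega) with ⟨M', hM, s', k1, k2, k3⟩ |
        ⟨c, hc, s', k1, k2, k3⟩
      · exact absurd k3 (c1 M' hM s' ((a1.trans hs).trans k1) (by simpa [N5] using k2))
      · exact ⟨c, hc, s', k1, k2, k3⟩)
    (2 * E + D false + D true) (fun c => if c = 0 then D false else if c = 3 then D true else E) (by
      simp [Finset.sum_range_succ]; omega) [] X' (Sub.refl _) a2 hP'
  have hs' := a1.trans h1
  interval_cases c
  · refine c3 false s' hs' ?_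
    have h3 : St (Rc 0) (N false) (D false) s' := by simpa [N5] using h2
    refine h3.imp ?_
    intro b x y h
    have h : y < x := h
    simpa [Dr] using h
  · have h3 : St (Rc 1) 1 E s' := by simpa [N5] using h2
    have h4 : St (fun b => Dr (if b = true then !true else true)) 1 E s' := by
      refine h3.imp ?_
      intro b x y h
      cases b with
      | true => have h : y < x := h; simpa [Dr] using h
      | false => have h : x < y := h; simpa [Dr] using h
    exact c2 true (trunc E s') (hs'.trans (trunc_sub _ _)) (comp_trunc h4) (pp_of_st le_rfl h4)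
  · have h3 : St (Rc 2) 1 E s' := by simpa [N5] using h2
    have h4 : St (fun b => Dr (if b = true then !false else false)) 1 E s' := by
      refine h3.imp ?_
      intro b x y h
      cases b with
      | true => have h : x < y := h; simpa [Dr] using h
      | false => have h : y < x := h; simpa [Dr] using h
    exact c2 false (trunc E s') (hs'.trans (trunc_sub _ _)) (comp_trunc h4) (pp_of_st le_rfl h4)
  · refine c3 true s' hs' ?_
    have h3 : St (Rc 3) (N true) (D true) s' := by simpa [N5] using h2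
    refine h3.imp ?_
    intro b x y h
    have h : x < y := h
    simpa [Dr] using h

/-! ### Chains -/

theorem bt_of_btm {P : ℝ → Prop} : ∀ {D : ℕ} {s : LT ℝ}, Btm P D s → Bt P (trunc D s) s := by
  intro D
  induction D with
  | zero => intro s h; exact h
  | succ D ih =>
    intro s h
    cases s with
    | leaf i => exact h.elim
    | node x l r => exact ⟨ih h.1, ih h.2⟩

theorem gr_of_st {d : Bool} {N : ℕ} : ∀ {D : ℕ} {s : LT ℝ}, St (fun _ => Dr d) N D s →
    Gr (Comp N) d (trunc D s) s := by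
  intro D
  induction D with
  | zero => intro s h; exact h
  | succ D ih =>
    intro s h
    cases s with
    | leaf i => exact h.elim
    | node x l r =>
      exact ⟨rfl, bt_of_btm h.1, bt_of_btm h.2.1, ih h.2.2.1, ih h.2.2.2⟩

theorem Gr.imp {Q Q' : LT ℝ → Prop} {d : Bool} (hQ : ∀ t, Q t → Q' t) {X : LT ℝ} :
    ∀ {Y : LT ℝ}, Gr Q d X Y → Gr Q' d X Y := by
  induction X with
  | leaf i => intro Y h; exact hQ Y h
  | node x l r hl hr =>
    intro Y h
    cases Y with
    | leaf i => exact h
    | node x' l' r' => exact ⟨h.1, h.2.1, h.2.2.1, hl h.2.2.2.1, hr h.2.2.2.2⟩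

/-- **Chains of blocks.** -/
theorem chain {B : LT ℝ} {Goal : Prop} {M E q b Δ : ℕ} {d : Bool} {kept : Finset ℕ}
    (hkne : kept.Nonempty) {n' Kc : ℕ → ℕ} (hP : AllC (PM M) [] B)
    (hA : ∀ M', M = M' + 1 → ∀ s, Sub (fun _ _ _ => True) s B → Comp q s → AllC (PM M') [] s →
      Goal)
    (hN : ∀ e X', Sub (fun _ _ _ => True) X' B → Comp E X' → PP e X' → Goal)
    (hO : ∀ v1 v2 a c s1, Sub (fun _ _ _ => True) (node v1 (node v2 a s1) c) B → Comp q s1 →
      AllL (Dr (!d) v1) s1 → AllL (Dr (!d) v2) s1 → Goal)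
    (hI : ∀ X, Sub (fun _ _ _ => True) X B → Comp b X → Goal ∨ ∃ c ∈ kept, ∃ X0, Em X0 X ∧
      Comp (n' c) X0 ∧ WB [d] (Kc c) [] X0)
    (hΔ : b + 2 * E + 2 * q + 5 ≤ Δ) (Rn : ℕ) : ∀ (Rv : ℕ → ℕ), ∑ c ∈ kept, Rv c ≤ Rn →
      ∀ s, Sub (fun _ _ _ => True) s B → Comp (Rn * Δ) s →
      Goal ∨ ∃ c ∈ kept, ∃ Y, Sub (fun _ _ _ => True) Y s ∧ Comp (Rv c * n' c) Y ∧
        WB [d] (Kc c) [] Y := by
  classical
  induction Rn with
  | zero =>
    intro Rv hRv s hs _
    right
    obtain ⟨c, hc⟩ := hkne
    obtain ⟨i, hi⟩ := exists_leaf s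
    refine ⟨c, hc, leaf i, hi, ?_, trivial⟩
    have : Rv c = 0 := by
      have := Finset.single_le_sum (f := Rv) (fun i _ => Nat.zero_le _) hc
      omega
    rw [this, Nat.zero_mul]
    trivial
  | succ Rn ih =>
    intro Rv hRv s hs hn
    have hPs : AllC (PM M) [] s := AllC.sub pm_sublist hs (List.Sublist.refl _) hP
    rcases splitG (E := E) (qA := q) (fun x => if x = d then b else 2)
      (fun x => if x = d then Rn * Δ else q) (by
        have : (Rn + 1) * Δ = Rn * Δ + Δ := by ring
        rw [this]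
        cases d <;> simp <;> omega) hn hPs with
      ⟨M', hM, s', k1, k2, k3⟩ | ⟨e, X', k1, k2, k3⟩ | ⟨d', X', k1, k2⟩
    · exact Or.inl (hA M' hM s' (hs.trans k1) k2 k3)
    · exact Or.inl (hN e X' (hs.trans k1) k2 k3)
    · by_cases hd : d' = d
      · subst hd
        rw [if_pos rfl, if_pos rfl] at k2
        have hG := gr_of_st k2
        rcases hI (trunc b X') ((hs.trans k1).trans (trunc_sub _ _)) (comp_trunc k2) with hg |
          ⟨c0, hc0, X0, g1, g2, g3⟩
        · exact Or.inl hg
        · by_cases hz : Rv c0 = 0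
          · right
            obtain ⟨i, hi⟩ := exists_leaf s
            refine ⟨c0, hc0, leaf i, hi, ?_, trivial⟩
            rw [hz, Nat.zero_mul]
            trivial
          · obtain ⟨Y0, p1, p2, _⟩ := hG.select g1
            have hsum : ∑ c ∈ kept, Function.update Rv c0 (Rv c0 - 1) c ≤ Rn := by
              have e1 := Finset.sum_update_of_mem hc0 Rv (Rv c0 - 1)
              have e2 := Finset.sum_erase_add kept Rv hc0
              rw [← Finset.erase_eq] at e1
              rw [e1]
              omega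
            by_cases hb : ∀ B', Comp (Rn * Δ) B' → Sub (fun _ _ _ => True) B' Y0 →
                ∃ Y', Sub (fun _ _ _ => True) Y' B' ∧ (Comp ((Rv c0 - 1) * n' c0) Y' ∧
                  WB [d'] (Kc c0) [] Y')
            · right
              obtain ⟨Y1, r1, r2, _⟩ := p2.map hb
              refine ⟨c0, hc0, Y1, (k1.trans p1).trans r1, ?_, ?_⟩
              · have h1 := Gr.comp g2 (r2.imp (fun t h => h.1))
                have e : n' c0 + (Rv c0 - 1) * n' c0 = Rv c0 * n' c0 := by
                  obtain ⟨v, hv⟩ : ∃ v, Rv c0 = v + 1 := ⟨Rv c0 - 1, by omega⟩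
                  rw [hv, Nat.add_sub_cancel]
                  ring
                rwa [e] at h1
              · exact wb_gr (Q := fun t => Comp ((Rv c0 - 1) * n' c0) t ∧ WB [d'] (Kc c0) [] t)
                  (fun t h => h.2) g3 r2 (bt_of_allL r2 (allL_triv (by simp) Y1))
            · push Not at hb
              obtain ⟨B', r1, r2, r3⟩ := hb
              have hsB' : Sub (fun _ _ _ => True) B' s := (k1.trans p1).trans r2
              rcases ih _ hsum B' (hs.trans hsB') r1 with hg | ⟨c, hc, Y, u1, u2, u3⟩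
              · exact Or.inl hg
              · right
                by_cases hcc : c = c0
                · subst hcc
                  rw [Function.update_self] at u2
                  exact absurd u3 (r3 Y u1 u2)
                · rw [Function.update_of_ne hcc] at u2
                  exact ⟨c, hc, Y, hsB'.trans u1, u2, u3⟩
      · have hd' : d' = !d := by
          cases d <;> cases d' <;> simp_all
        rw [if_neg hd, if_neg hd] at k2
        obtain ⟨v1, v2, a, c, s1, h1, h2, h3, h4⟩ := top_two (D := 0) k2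
        subst hd'
        exact Or.inl (hO v1 v2 a c s1 ((hs.trans k1).trans h1) h2 h3 h4)

end Pool.Agent.H595K.Lb
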