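import Mathlib
import Pool.Agent.H595K.JSt

/-!
# The recursion
-/

namespace Pool.Agent.H595K.Lb

open LT

/-- plans: `dir c` and `bud c` are the direction and the budget of the strategy `c` -/
def PlanOK (C0 A0 : ℕ) : ℕ → Bool → (ℕ → Bool) → (ℕ → ℕ) → Prop
  | 0, _, _, _ => True
  | h + 1, d, dir, bud => A0 ≤ ((Finset.range C0).filter (fun c => dir c = d)).card ∧
      (∀ c < C0, 1 ≤ bud c) ∧ ∃ (dir' : ℕ → Bool) (bud' : ℕ → ℕ),
        (∀ c < C0, 1 ≤ bud' c ∧ ((dir' c = dir c ∧ bud' c ≤ bud c) ∨ bud' c + 1 ≤ bud c)) ∧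
        PlanOK C0 A0 h (!d) dir' bud'

/-- the statement of the recursion -/
def RecAt (K H C0 A0 : ℕ) (β : ℝ) (h M : ℕ) (C : ℝ) (m : ℕ) : Prop :=
  ∀ (d : Bool) (s : List Bool) (dir : ℕ → Bool) (bud n : ℕ → ℕ) (B : LT ℝ),
    PlanOK C0 A0 h d dir bud → Alt (d :: s) → s.length + h = H → (∀ c < C0, 1 ≤ n c) →
    ∑ c ∈ Finset.range C0, Real.log (n c) + C ≤ β * Real.log m → Comp m B →
    AllC (PM M) [] B → WB (d :: s) K [] B →
    ∃ c < C0, ∃ X, Sub (fun _ _ _ => True) X B ∧ Comp (n c) X ∧ WB [dir c] (6 * bud c - 1) [] X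

theorem drop_pm {M n : ℕ} {W : List (Bool × ℝ)} {s : LT ℝ} (hP : AllC (PM M) W s)
    (h : AllL (fun y => 1 ≤ chs y W) s) (hn : Comp (n + 1) s) :
    ∃ M', M = M' + 1 ∧ AllC (PM M') [] s := by
  have hM : ∃ M', M = M' + 1 := by
    cases s with
    | leaf i => exact absurd hn (by simp [Comp])
    | node a l r =>
      have h7 := hP.1.1
      have h8 := h.1
      exact ⟨M - 1, by omega⟩
  obtain ⟨M', rfl⟩ := hM
  refine ⟨M', rfl, ?_⟩
  have h9 : AllC (PM (M' + 1)) ([] ++ W) s := hP
  refine AllC.strip (P := PM (M' + 1)) (Q := fun y => 1 ≤ chs y W) (W := W) (K := []) ?_ h9 h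
  intro K x h10 h11
  refine ⟨?_, fun w hw => h10.2 w (List.mem_append_left _ hw)⟩
  have := chs_append x K W
  have := h10.1
  omega

theorem floor_log {Z m : ℕ} (hZ : 1 ≤ Z) (hm : Z ≤ m) :
    1 ≤ m / Z ∧ Real.log m ≤ Real.log ((m / Z : ℕ) : ℝ) + Real.log (2 * Z) := by
  have h1 : 1 ≤ m / Z := Nat.div_pos hm hZ
  refine ⟨h1, ?_⟩
  have h2 : m < (m / Z + 1) * Z := by
    have := Nat.lt_div_mul_add (a := m) (b := Z) hZ
    rw [add_mul, one_mul]; exact this
  have h3 : m ≤ (m / Z) * (2 * Z) := by nlinarith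
  have h4 : (m : ℝ) ≤ ((m / Z : ℕ) : ℝ) * (2 * Z) := by exact_mod_cast h3
  have h5 : (0 : ℝ) < m := by
    have : 0 < m := by omega
    exact_mod_cast this
  have h6 : (0 : ℝ) < ((m / Z : ℕ) : ℝ) := by exact_mod_cast h1
  have h7 : (0 : ℝ) < Z := by exact_mod_cast hZ
  rw [← Real.log_mul h6.ne' (by positivity)]
  exact Real.log_le_log h5 h4

theorem exists_R {β : ℝ} {A0 C0 : ℕ} (hβ0 : 0 < β) (hβ : β < A0) (hC0 : 1 ≤ C0) :
    ∃ R : ℕ, 2 ≤ R ∧ β * Real.log (20 * C0 * R) ≤ A0 * Real.log (R / 2) := by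
  have hd : 0 < (A0 : ℝ) - β := by linarith
  set T := (A0 * Real.log 2 + β * Real.log (20 * C0)) / (A0 - β) with hT
  obtain ⟨R, hR⟩ := exists_nat_ge (Real.exp T)
  refine ⟨R + 2, by omega, ?_⟩
  have hRpos : (0 : ℝ) < (R : ℝ) + 2 := by positivity
  have hC0r : (0 : ℝ) < 20 * C0 := by
    have : (1 : ℝ) ≤ C0 := by exact_mod_cast hC0
    linarith
  have h1 : T ≤ Real.log (R + 2) := by
    rw [Real.le_log_iff_exp_le hRpos]
    linarith
  have h2 : A0 * Real.log 2 + β * Real.log (20 * C0) ≤ (A0 - β) * Real.log (R + 2) := by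
    rw [hT, div_le_iff₀ hd] at h1
    linarith
  push_cast
  rw [Real.log_mul hC0r.ne' hRpos.ne', Real.log_div hRpos.ne' (by norm_num)]
  linarith

theorem ch_two {a b : Bool} (h : a ≠ b) (l : List Bool) : 1 ≤ ch (a :: b :: l) := by
  rw [ch_cons_cons, if_neg h]
  omega

/-- The case of the opposite direction and then the same direction. -/
theorem one_le_chs {d : Bool} {x v1 v2 y : ℝ} (h1 : Dr d x y) (h2 : Dr (!d) v1 y) :
    1 ≤ chs y [(false, x), (true, v2), (false, v1)] := by
  unfold chs
  have e : rowc false y [(false, x), (true, v2), (false, v1)] =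
      [decide (x < y), decide (v1 < y)] := by
    simp [rowc]
  rw [e]
  have : 1 ≤ ch [decide (x < y), decide (v1 < y)] := by
    apply ch_two
    cases d with
    | true =>
      have h1 : x < y := h1
      have h2 : y < v1 := by simpa [Dr] using h2
      simp [h1, h2.le]
    | false =>
      have h1 : y < x := by simpa [Dr] using h1
      have h2 : v1 < y := by simpa [Dr] using h2
      simp [h1.le, h2]
  omega

theorem rec_step {K H C0 A0 h M : ℕ} {β C1 C2 : ℝ} (hβ0 : 0 < β) (hβ : β < A0) (hAC : A0 ≤ C0)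
    (hC1 : 0 < C1) (hC2 : 0 < C2) (h1 : ∀ m, RecAt K H C0 A0 β h M C1 m)
    (h2 : ∀ M', M = M' + 1 → ∀ m, RecAt K H C0 A0 β (h + 1) M' C2 m) :
    ∃ C, 0 < C ∧ ∀ m, RecAt K H C0 A0 β (h + 1) M C m := by
  classical
  have hA0 : 1 ≤ A0 := by
    have : (0 : ℝ) < A0 := by linarith
    have : 0 < A0 := by exact_mod_cast this
    omega
  have hC0 : 1 ≤ C0 := by omega
  have hC0r : (1 : ℝ) ≤ C0 := by exact_mod_cast hC0
  have hACr : (A0 : ℝ) ≤ C0 := by exact_mod_cast hAC
  obtain ⟨R, hR2, hR⟩ := exists_R hβ0 hβ hC0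
  have hR2r : (2 : ℝ) ≤ R := by exact_mod_cast hR2
  obtain ⟨Z, hZ⟩ : ∃ Z : ℕ, Z = 10 * (C0 * R) := ⟨_, rfl⟩
  have hZ1 : 20 ≤ Z := by
    rw [hZ]; nlinarith
  have hZr : (20 : ℝ) ≤ Z := by exact_mod_cast hZ1
  have hlogZ : 0 ≤ Real.log (22 * Z) := Real.log_nonneg (by linarith)
  refine ⟨C1 + C2 + (β + C0) * Real.log (22 * Z) + 1, by positivity, ?_⟩
  intro m
  induction m using Nat.strong_induction_on with
  | _ m ihm =>
  intro d s dir bud n B hplan hAlt hlen hn hsum hB hP hW
  obtain ⟨hcard, hbud, dir', bud', htr, hplan'⟩ := id hplan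
  have hlogn : ∀ c ∈ Finset.range C0, 0 ≤ Real.log (n c) := by
    intro c hc
    apply Real.log_nonneg
    exact_mod_cast hn c (Finset.mem_range.1 hc)
  have hS0 : 0 ≤ ∑ c ∈ Finset.range C0, Real.log (n c) := Finset.sum_nonneg hlogn
  have hblog : β * Real.log (22 * Z) < β * Real.log m := by
    have : 0 ≤ (C0 : ℝ) * Real.log (22 * Z) := by positivity
    nlinarith
  have hlm : Real.log (22 * Z) < Real.log m := lt_of_mul_lt_mul_left hblog hβ0.le
  have hm0 : (0 : ℝ) < m := by
    by_contra hcon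
    have : (m : ℝ) = 0 := le_antisymm (not_lt.1 hcon) (Nat.cast_nonneg m)
    rw [this, Real.log_zero] at hlm
    linarith
  have hmZ : 22 * Z < m := by
    have := (Real.log_lt_log_iff (by positivity) hm0).1 hlm
    exact_mod_cast this
  obtain ⟨hb, hlb⟩ := floor_log (Z := Z) (m := m) (by omega) (by omega)
  obtain ⟨hb2, hlb2⟩ := floor_log (Z := 11 * Z) (m := m) (by omega) (by omega)
  have hlog2 : Real.log (2 * Z) ≤ Real.log (22 * Z) :=
    Real.log_le_log (by positivity) (by linarith)
  have e22 : (2 : ℝ) * ((11 * Z : ℕ) : ℝ) = 22 * Z := by push_cast; ring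
  rw [e22] at hlb2
  have hb11 : 11 * (m / (11 * Z)) ≤ m / Z := by
    rw [mul_comm 11 Z, ← Nat.div_div_eq_div_mul]
    exact Nat.mul_div_le _ _
  set b := m / Z with hbdef
  set b2 := m / (11 * Z) with hb2def
  have hbZ : b * Z ≤ m := Nat.div_mul_le_self _ _
  have hbm : b < m := by nlinarith
  -- a small target
  obtain ⟨cs, hcs, hcs2⟩ : ∃ c < C0, n c ≤ b2 := by
    by_contra hcon
    push Not at hcon
    have h3 : ∀ c ∈ Finset.range C0, Real.log m - Real.log (22 * Z) ≤ Real.log (n c) := by
      intro c hc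
      have h4 := hcon c (Finset.mem_range.1 hc)
      have h5 : Real.log b2 ≤ Real.log (n c) := by
        apply Real.log_le_log
        · exact_mod_cast hb2
        · exact_mod_cast h4.le
      linarith
    have h4 := Finset.card_nsmul_le_sum (Finset.range C0) (fun c => Real.log (n c)) _ h3
    rw [Finset.card_range, nsmul_eq_mul] at h4
    have hlm0 : 0 ≤ Real.log m := by linarith
    have h5 : β * Real.log m ≤ C0 * Real.log m :=
      mul_le_mul_of_nonneg_right (by linarith) hlm0
    have h6 : 0 ≤ β * Real.log (22 * Z) := by positivity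
    nlinarith
  -- the goal
  let Goal : Prop := ∃ c < C0, ∃ X, Sub (fun _ _ _ => True) X B ∧ Comp (n c) X ∧
    WB [dir c] (6 * bud c - 1) [] X
  have hdrop : ∀ M', M = M' + 1 → ∀ D s', Real.log m ≤ Real.log (D : ℕ) + Real.log (22 * Z) →
      Sub (fun _ _ _ => True) s' B → Comp D s' → AllC (PM M') [] s' → Goal := by
    intro M' hM D s' hD hs hc hPs
    obtain ⟨c, hc, X, k1, k2, k3⟩ := h2 M' hM D d s dir bud n s' hplan hAlt hlen hn (by
      have : 0 ≤ (C0 : ℝ) * Real.log (22 * Z) := by positivity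
      have := mul_le_mul_of_nonneg_left hD hβ0.le
      nlinarith) hc hPs (hW.sub hs (List.Sublist.refl _))
    exact ⟨c, hc, X, hs.trans k1, k2, k3⟩
  have hpure : ∀ D, b2 ≤ D → ∀ e X', Sub (fun _ _ _ => True) X' B → Comp D X' → PP e X' →
      Goal := by
    intro D hD e X' hs hc hp
    obtain ⟨X, k1, k2⟩ := comp_le' (hcs2.trans hD) hc
    refine ⟨cs, hcs, X, hs.trans k1, k2, ?_⟩
    refine WB.mono ?_ (WB.sub k1 (List.Sublist.refl _) (wb_pure' (d := dir cs) hp))
    have := hbud cs hcs
    omega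
  have hopp : ∀ v1 v2 a c s1, Sub (fun _ _ _ => True) (node v1 (node v2 a s1) c) B → Comp b s1 →
      AllL (Dr (!d) v1) s1 → AllL (Dr (!d) v2) s1 → Goal := by
    intro v1 v2 a c s1 hs hc hv1 hv2
    have hs1 : Sub (fun _ _ _ => True) s1 B :=
      hs.trans (Sub.left _ _ (Sub.right _ _ (Sub.refl _)))
    have hPs1 : AllC (PM M) [] s1 := AllC.sub pm_sublist hs1 (List.Sublist.refl _) hP
    rcases splitG (E := b2) (qA := b2) (fun x => if x = d then 1 else b2)
      (fun x => if x = d then b2 else 2) (by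
        have : 5 * b2 + 6 ≤ b := by omega
        cases d <;> simp <;> omega) hc hPs1 with
      ⟨M', hM, s', k1, k2, k3⟩ | ⟨e, X', k1, k2, k3⟩ | ⟨d', X', k1, k2⟩
    · exact hdrop M' hM b2 s' hlb2 (hs1.trans k1) k2 k3
    · exact hpure b2 le_rfl e X' (hs1.trans k1) k2 k3
    · by_cases hd : d' = d
      · subst hd
        rw [if_pos rfl, if_pos rfl] at k2
        cases X' with
        | leaf i => exact k2.elim
        | node x l r =>
          obtain ⟨k3, _, k4, _⟩ := k2
          have k3 : AllL (Dr d' x) l := k3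
          have k4 : Comp b2 l := k4
          have hbig : Sub (fun _ _ _ => True) (node v1 (node v2 a (node x l r)) c) B :=
            hs.trans (Sub.node trivial (Sub.node trivial (Sub.refl _) k1) (Sub.refl _))
          have hP2 := AllC.sub pm_sublist hbig (List.Sublist.refl _) hP
          have hP3 : AllC (PM M) [(false, x), (true, v2), (false, v1)] l := hP2.2.1.2.2.2.1
          have hlv1 : AllL (Dr (!d') v1) l :=
            (Sub.trans k1 (Sub.left _ _ (Sub.refl _))).allL hv1
          obtain ⟨n2, hn2⟩ : ∃ n2, b2 = n2 + 1 := ⟨b2 - 1, by omega⟩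
          obtain ⟨M', hM, hP4⟩ := drop_pm (n := n2) hP3
            ((k3.and hlv1).imp (fun y hy => one_le_chs hy.1 hy.2)) (by rw [← hn2]; exact k4)
          exact hdrop M' hM b2 l hlb2 (hs1.trans (k1.trans (Sub.left _ _ (Sub.refl _)))) k4 hP4
      · have hd' : d' = !d := by
          cases d <;> cases d' <;> simp_all
        rw [if_neg hd, if_neg hd] at k2
        subst hd'
        have hG := gr_of_st k2
        have hbig : Sub (fun _ _ _ => True) (node v1 (node v2 a X') c) B :=
          hs.trans (Sub.node trivial (Sub.node trivial (Sub.refl _) k1) (Sub.refl _))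
        have hsand := wb_sandwich (s := d :: s) (fun t ht => ⟨0, ht⟩) hG (k1.allL hv1)
          (k1.allL hv2) (hW.sub hbig (List.Sublist.refl _))
        have hX0 : Sub (fun _ _ _ => True) (trunc b2 X') B :=
          (hs1.trans k1).trans (trunc_sub _ _)
        obtain ⟨c', hc', X, u1, u2, u3⟩ := h1 b2 (!d) (d :: s) dir' bud' n (trunc b2 X') hplan'
          ⟨by simp, hAlt⟩ (by simp; omega) hn (by
            have : 0 ≤ (C0 : ℝ) * Real.log (22 * Z) := by positivity
            have := mul_le_mul_of_nonneg_left hlb2 hβ0.le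
            nlinarith) (comp_trunc k2)
          (AllC.sub pm_sublist hX0 (List.Sublist.refl _) hP) hsand
        refine ⟨c', hc', X, hX0.trans u1, u2, ?_⟩
        obtain ⟨t1, t2⟩ := htr c' hc'
        rcases t2 with ⟨t2, t3⟩ | t2
        · rw [← t2]
          exact u3.mono (by omega)
        · exact (u3.turn (d' := dir c')).mono (by omega)
  set kept := (Finset.range C0).filter (fun c => dir c = d) with hkept
  have hkne : kept.Nonempty := by
    rw [← Finset.card_pos]
    omega
  have hBZ : C0 * R * (10 * b) ≤ m := by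
    calc C0 * R * (10 * b) = b * (10 * (C0 * R)) := by ring
      _ = b * Z := by rw [hZ]
      _ ≤ m := hbZ
  by_cases hcase : ∃ c0 ∈ kept, n c0 ≤ R
  · -- single nodes
    obtain ⟨c0, hc0, hc0R⟩ := hcase
    obtain ⟨B', z1, z2⟩ := comp_le' (a := n c0 * (10 * b)) (by
      refine le_trans ?_ hBZ
      apply Nat.mul_le_mul_right
      calc n c0 ≤ R := hc0R
        _ = 1 * R := (one_mul R).symm
        _ ≤ C0 * R := Nat.mul_le_mul_right _ hC0) hB
    have hc0' := Finset.mem_filter.1 hc0
    rcases chain (B := B) (Goal := Goal) (M := M) (E := b) (q := b) (b := 1) (Δ := 10 * b) (d := d)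
      (kept := {c0}) ⟨c0, by simp⟩ (n' := fun _ => 1) (Kc := fun _ => 5) hP
      (fun M' hM s' hs hc hPs => hdrop M' hM b s' (by linarith) hs hc hPs)
      (fun e X' hs hc hp => hpure b (by omega) e X' hs hc hp)
      (fun v1 v2 a c s1 hs hc hv1 hv2 => hopp v1 v2 a c s1 hs hc hv1 hv2)
      (by
        intro X hs hc
        right
        refine ⟨c0, by simp, X, em_of_sub (Sub.refl X), hc, ?_⟩
        cases X with
        | leaf i => exact absurd hc (by simp [Comp])
        | node x l r =>
          cases l with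
          | node _ _ _ => exact absurd hc.1 (by simp [Comp])
          | leaf i =>
            cases r with
            | node _ _ _ => exact absurd hc.2 (by simp [Comp])
            | leaf j => exact wb_single)
      (by omega) (n c0) (fun _ => n c0) (by simp) B' z1 z2 with hg | ⟨c, hc, Y, u1, u2, u3⟩
    · exact hg
    · rw [Finset.mem_singleton] at hc
      subst hc
      refine ⟨c, Finset.mem_range.1 hc0'.1, Y, z1.trans u1, by simpa using u2, ?_⟩
      rw [hc0'.2]
      refine u3.mono ?_
      have := hbud c (Finset.mem_range.1 hc0'.1)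
      omega
  · -- blocks
    push Not at hcase
    set n' : ℕ → ℕ := fun c => if dir c = d then (n c + R - 1) / R else n c with hn'
    have hn'1 : ∀ c < C0, 1 ≤ n' c := by
      intro c hc
      simp only [hn']
      split_ifs with hd
      · have := hn c hc
        exact Nat.div_pos (by omega) (by omega)
      · exact hn c hc
    have hkey : ∀ c ∈ Finset.range C0, Real.log (n' c) ≤
        Real.log (n c) - (if dir c = d then Real.log (R / 2) else 0) := by
      intro c hc
      by_cases hd : dir c = d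
      · rw [if_pos hd]
        have hck : c ∈ kept := Finset.mem_filter.2 ⟨hc, hd⟩
        have h3 := hcase c hck
        have h4 : n' c * R ≤ n c + R - 1 := by
          simp only [hn', if_pos hd]
          exact Nat.div_mul_le_self _ _
        have h5 : n' c * R ≤ 2 * n c := by omega
        have h6 : (n' c : ℝ) * R ≤ 2 * n c := by exact_mod_cast h5
        have h7 : (0 : ℝ) < n' c := by exact_mod_cast hn'1 c (Finset.mem_range.1 hc)
        have h8 : (0 : ℝ) < n c := by exact_mod_cast hn c (Finset.mem_range.1 hc)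
        have h9 : Real.log ((n' c : ℝ) * (R / 2)) ≤ Real.log (n c) :=
          Real.log_le_log (by positivity) (by linarith)
        rw [Real.log_mul h7.ne' (by positivity)] at h9
        linarith
      · rw [if_neg hd]
        have : n' c = n c := by simp only [hn', if_neg hd]
        rw [this, sub_zero]
    have hlogR : 0 ≤ Real.log ((R : ℝ) / 2) := Real.log_nonneg (by linarith)
    have hsum' : ∑ c ∈ Finset.range C0, Real.log (n' c) ≤
        ∑ c ∈ Finset.range C0, Real.log (n c) - A0 * Real.log (R / 2) := by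
      have h3 := Finset.sum_le_sum hkey
      rw [Finset.sum_sub_distrib, ← Finset.sum_filter, Finset.sum_const, nsmul_eq_mul] at h3
      have h4 : (A0 : ℝ) * Real.log (R / 2) ≤ (kept.card : ℝ) * Real.log (R / 2) :=
        mul_le_mul_of_nonneg_right (by exact_mod_cast hcard) hlogR
      linarith
    have hlogb : β * Real.log m ≤ β * Real.log b + A0 * Real.log (R / 2) := by
      have h3 : Real.log (2 * Z) = Real.log (20 * C0 * R) := by
        congr 1
        rw [hZ]; push_cast; ring
      rw [h3] at hlb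
      have := mul_le_mul_of_nonneg_left hlb hβ0.le
      linarith
    obtain ⟨B', z1, z2⟩ := comp_le' hBZ hB
    rcases chain (B := B) (Goal := Goal) (M := M) (E := b) (q := b) (b := b) (Δ := 10 * b) (d := d)
      (kept := kept) hkne (n' := n') (Kc := fun c => 6 * bud c - 1) hP
      (fun M' hM s' hs hc hPs => hdrop M' hM b s' (by linarith) hs hc hPs)
      (fun e X' hs hc hp => hpure b (by omega) e X' hs hc hp)
      (fun v1 v2 a c s1 hs hc hv1 hv2 => hopp v1 v2 a c s1 hs hc hv1 hv2)
      (by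
        intro X hs hc
        obtain ⟨c, hc', X0, u1, u2, u3⟩ := ihm b hbm d s dir bud n' X hplan hAlt hlen hn'1 (by
          linarith) hc (AllC.sub pm_sublist hs (List.Sublist.refl _) hP)
          (hW.sub hs (List.Sublist.refl _))
        by_cases hd : dir c = d
        · right
          refine ⟨c, Finset.mem_filter.2 ⟨Finset.mem_range.2 hc', hd⟩, X0, em_of_sub u1, u2, ?_⟩
          rw [hd] at u3
          exact u3
        · left
          refine ⟨c, hc', X0, hs.trans u1, ?_, u3⟩
          have : n' c = n c := by simp only [hn', if_neg hd]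
          rwa [this] at u2)
      (by omega) (C0 * R) (fun _ => R) (by
        rw [Finset.sum_const, smul_eq_mul]
        apply Nat.mul_le_mul_right
        calc kept.card ≤ (Finset.range C0).card := Finset.card_filter_le _ _
          _ = C0 := Finset.card_range C0) B' z1 z2 with hg | ⟨c, hc, Y, u1, u2, u3⟩
    · exact hg
    · have hc' := Finset.mem_filter.1 hc
      have h3 : n c ≤ R * n' c := by
        simp only [hn', if_pos hc'.2]
        have h4 := Nat.div_add_mod (n c + R - 1) R
        have h5 := Nat.mod_lt (n c + R - 1) (show R > 0 by omega)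
        omega
      obtain ⟨Y', y1, y2⟩ := comp_le' h3 u2
      refine ⟨c, Finset.mem_range.1 hc'.1, Y', (z1.trans u1).trans y1, y2, ?_⟩
      rw [hc'.2]
      exact u3.sub y1 (List.Sublist.refl _)

theorem rec_zero {K H C0 A0 M : ℕ} {β : ℝ} (hβ0 : 0 < β) (hK : K ≤ 6 * H + 4) (m : ℕ) :
    RecAt K H C0 A0 β 0 M 1 m := by
  intro d s dir bud n B _ hAlt hlen hn hsum hB _ hW
  exfalso
  have hS0 : 0 ≤ ∑ c ∈ Finset.range C0, Real.log (n c) := by
    apply Finset.sum_nonneg
    intro c hc
    apply Real.log_nonneg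
    exact_mod_cast hn c (Finset.mem_range.1 hc)
  have hm : m ≠ 0 := by
    rintro rfl
    simp at hsum
    linarith
  obtain ⟨m', rfl⟩ : ∃ m', m = m' + 1 := ⟨m - 1, by omega⟩
  cases B with
  | leaf i => exact absurd hB (by simp [Comp])
  | node x l r =>
    obtain ⟨W1, p1⟩ := exists_pl l
    obtain ⟨W2, p2⟩ := exists_pl r
    have h3 := six_le hAlt (by simp) (hW.1 W1 W2 p1 p2)
    rw [List.length_cons] at h3
    omega

/-- **The recursion.** -/
theorem rec_exists {K H C0 A0 : ℕ} {β : ℝ} (hβ0 : 0 < β) (hβ : β < A0) (hAC : A0 ≤ C0)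
    (hK : K ≤ 6 * H + 4) (h : ℕ) : ∀ M, ∃ C, 0 < C ∧ ∀ m, RecAt K H C0 A0 β h M C m := by
  induction h with
  | zero => intro M; exact ⟨1, one_pos, rec_zero hβ0 hK⟩
  | succ h ih =>
    intro M
    induction M with
    | zero =>
      obtain ⟨C1, hC1, h1⟩ := ih 0
      exact rec_step hβ0 hβ hAC hC1 one_pos h1 (fun M' hM => by omega)
    | succ M ihM =>
      obtain ⟨C1, hC1, h1⟩ := ih (M + 1)
      obtain ⟨C2, hC2, h2⟩ := ihM
      refine rec_step hβ0 hβ hAC hC1 hC2 h1 (fun M' hM => ?_)
      have : M' = M := by omega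
      subst this
      exact h2

end Pool.Agent.H595K.Lb
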