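import Mathlib
import Pool.Agent.H595K.JRec

/-!
# The strategies
-/

namespace Pool.Agent.H595K.Lb

/-- position on the cycle -/
def uu (C i c : ℕ) : ℕ := if i + c < C then i + c else i + c - C

/-- direction of the strategy `c` in phase `i` -/
def dirS (a t i : ℕ) (d : Bool) (c : ℕ) : Bool :=
  if uu (a + 2 * t + 1) i c % 2 = 0 ∧ uu (a + 2 * t + 1) i c ≤ 2 * t then !d else d

/-- budget of the strategy `c` in phase `i` -/
def budS (a t i : ℕ) (c : ℕ) : ℕ :=
  if i + c < a + 2 * t + 1 then a + (c - (2 * t + 1)) - (i + c - (2 * t + 1))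
  else 1 + (c - (2 * t + 1)) - (i + c - (a + 2 * t + 1) - (2 * t + 1))

theorem budS_pos {a t i c : ℕ} (ha : 1 ≤ a) (hi : i ≤ a + 2 * t + 1) (hc : c < a + 2 * t + 1) :
    1 ≤ budS a t i c := by
  unfold budS
  split_ifs <;> omega

theorem card_dirS {a t i : ℕ} {d : Bool} (hi : i ≤ a + 2 * t + 1) :
    a + t ≤ ((Finset.range (a + 2 * t + 1)).filter (fun c => dirS a t i d c = d)).card := by
  classical
  have h1 := Finset.card_filter_add_card_filter_not (s := Finset.range (a + 2 * t + 1))
    (fun c => dirS a t i d c = d)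
  rw [Finset.card_range] at h1
  have h2 : ((Finset.range (a + 2 * t + 1)).filter (fun c => ¬ dirS a t i d c = d)).card ≤
      (Finset.range (t + 1)).card := by
    apply Finset.card_le_card_of_injOn (fun c => uu (a + 2 * t + 1) i c / 2)
    · intro c hc
      simp only [Finset.coe_filter, Finset.mem_range, Set.mem_setOf_eq] at hc
      obtain ⟨hc1, hc2⟩ := hc
      simp only [Finset.coe_range, Set.mem_Iio]
      unfold dirS at hc2
      split_ifs at hc2 with h
      · omega
      · exact absurd rfl hc2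
    · intro c hc c' hc' he
      simp only [Finset.coe_filter, Finset.mem_range, Set.mem_setOf_eq] at hc hc'
      obtain ⟨hc1, hc2⟩ := hc
      obtain ⟨hc3, hc4⟩ := hc'
      simp only at he
      unfold dirS at hc2 hc4
      split_ifs at hc2 with h
      · split_ifs at hc4 with h'
        · have h3 : uu (a + 2 * t + 1) i c = uu (a + 2 * t + 1) i c' := by omega
          unfold uu at h3
          split_ifs at h3 <;> omega
        · exact absurd rfl hc4
      · exact absurd rfl hc2
  rw [Finset.card_range] at h2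
  omega

theorem trans_plan {a t i c : ℕ} (d : Bool) (ha : 1 ≤ a) (hi : i + 1 ≤ a + 2 * t + 1)
    (hc : c < a + 2 * t + 1) :
    (dirS a t (i + 1) (!d) c = dirS a t i d c ∧ budS a t (i + 1) c ≤ budS a t i c) ∨
      budS a t (i + 1) c + 1 ≤ budS a t i c := by
  have hdir : ((uu (a + 2 * t + 1) (i + 1) c % 2 = 0 ∧ uu (a + 2 * t + 1) (i + 1) c ≤ 2 * t) ↔
      ¬ (uu (a + 2 * t + 1) i c % 2 = 0 ∧ uu (a + 2 * t + 1) i c ≤ 2 * t)) →
      dirS a t (i + 1) (!d) c = dirS a t i d c := by
    intro h
    unfold dirS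
    by_cases h1 : uu (a + 2 * t + 1) i c % 2 = 0 ∧ uu (a + 2 * t + 1) i c ≤ 2 * t
    · rw [if_pos h1, if_neg (fun h2 => (h.1 h2) h1)]
    · rw [if_neg h1, if_pos (h.2 h1), Bool.not_not]
  by_cases h1 : i + c < a + 2 * t + 1
  · by_cases h2 : i + 1 + c < a + 2 * t + 1
    · by_cases h3 : i + c ≤ 2 * t
      · left
        refine ⟨hdir ?_, ?_⟩
        · unfold uu
          rw [if_pos h1, if_pos h2]
          omega
        · unfold budS
          rw [if_pos h1, if_pos h2]
          omega
      · right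
        unfold budS
        rw [if_pos h1, if_pos h2]
        omega
    · left
      refine ⟨hdir ?_, ?_⟩
      · unfold uu
        rw [if_pos h1, if_neg h2]
        omega
      · unfold budS
        rw [if_pos h1, if_neg h2]
        omega
  · have h2 : ¬ i + 1 + c < a + 2 * t + 1 := by omega
    by_cases h3 : i + c - (a + 2 * t + 1) ≤ 2 * t
    · left
      refine ⟨hdir ?_, ?_⟩
      · unfold uu
        rw [if_neg h1, if_neg h2]
        omega
      · unfold budS
        rw [if_neg h1, if_neg h2]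
        omega
    · right
      unfold budS
      rw [if_neg h1, if_neg h2]
      omega

theorem plan_main {a t : ℕ} (ha : 1 ≤ a) (h : ℕ) : ∀ (i : ℕ) (d : Bool), i + h ≤ a + 2 * t + 2 →
    PlanOK (a + 2 * t + 1) (a + t) h d (dirS a t i d) (budS a t i) := by
  induction h with
  | zero => intro i d _; trivial
  | succ h ih =>
    intro i d hi
    refine ⟨card_dirS (by omega), fun c hc => budS_pos ha (by omega) hc, ?_⟩
    by_cases h0 : h = 0
    · subst h0
      exact ⟨dirS a t i d, budS a t i, fun c hc => ⟨budS_pos ha (by omega) hc, Or.inl ⟨rfl, le_rfl⟩⟩,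
        trivial⟩
    · exact ⟨dirS a t (i + 1) (!d), budS a t (i + 1),
        fun c hc => ⟨budS_pos ha (by omega) hc, trans_plan d ha (by omega) hc⟩,
        ih (i + 1) (!d) (by omega)⟩

theorem exists_plan {a t H : ℕ} (ha : 1 ≤ a) (hH : H ≤ a + 2 * t + 2) (d : Bool) :
    ∃ (dir : ℕ → Bool) (bud : ℕ → ℕ), (∀ c < a + 2 * t + 1, 1 ≤ bud c ∧ bud c ≤ a) ∧
      PlanOK (a + 2 * t + 1) (a + t) H d dir bud := by
  refine ⟨dirS a t 0 d, budS a t 0, ?_, plan_main ha H 0 d (by omega)⟩
  intro c hc
  refine ⟨budS_pos ha (by omega) hc, ?_⟩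
  unfold budS
  rw [if_pos (by omega)]
  omega

theorem plan_one (h : ℕ) : ∀ (b : ℕ) (d : Bool), h ≤ b → 1 ≤ b →
    PlanOK 1 1 h d (fun _ => d) (fun _ => b) := by
  induction h with
  | zero => intro b d _ _; trivial
  | succ h ih =>
    intro b d hb hb1
    refine ⟨by simp, fun c _ => hb1, ?_⟩
    by_cases h0 : h = 0
    · subst h0
      exact ⟨fun _ => d, fun _ => b, fun c _ => ⟨hb1, Or.inl ⟨rfl, le_rfl⟩⟩, trivial⟩
    · refine ⟨fun _ => !d, fun _ => b - 1, fun c _ => ⟨?_, Or.inr ?_⟩,
        ih (b - 1) (!d) (by omega) (by omega)⟩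
      · show 1 ≤ b - 1
        omega
      · show b - 1 + 1 ≤ b
        omega

end Pool.Agent.H595K.Lb
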