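import Mathlib
import Pool.Agent.H595K.JGraft

/-!
# Sign words of lines and words of nodes
-/

namespace Pool.Agent.H595K.Lb

open LT

/-- ascending nodes -/
def Asc (σ : ℕ → Bool) (l r : LT ℝ) : Prop := (∃ i ∈ l.lv, σ i = false) ∧ ∃ j ∈ r.lv, σ j = true

/-- descending nodes -/
def Dsc (σ : ℕ → Bool) (l r : LT ℝ) : Prop := (∃ i ∈ l.lv, σ i = true) ∧ ∃ j ∈ r.lv, σ j = false

/-- the signs are consistent with the labels -/
def Cons (σ : ℕ → Bool) : LT ℝ → Prop :=
  LT.AllN (fun a l r =>
    LT.AllN (fun b l' r' => (Asc σ l' r' → (∃ q ∈ r.lv, σ q = false) → a < b) ∧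
      (Dsc σ l' r' → (∃ q ∈ r.lv, σ q = true) → b < a) ∧ b ≠ a) l ∧
    LT.AllN (fun b l' r' => (Asc σ l' r' → (∃ q ∈ l.lv, σ q = true) → a < b) ∧
      (Dsc σ l' r' → (∃ q ∈ l.lv, σ q = false) → b < a) ∧ b ≠ a) r)

theorem map_const {σ : ℕ → Bool} {l : List ℕ} {c : Bool} (h : ∀ q ∈ l, σ q = c) :
    ∀ b ∈ l.map σ, b = c := by
  intro b hb
  obtain ⟨q, h1, rfl⟩ := List.mem_map.1 hb
  exact h q h1

/-- reduction of the sign word of a subtree -/
theorem reduce {σ : ℕ → Bool} {x : ℝ} {t : LT ℝ}
    (h : AllN (fun b l r => (Asc σ l r → x < b) ∧ (Dsc σ l r → b < x)) t) :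
    ∃ W e, Pl t W ∧ CLe (t.lv.map σ) (rA x W.reverse ++ [e] ++ rD x W.reverse) := by
  induction t with
  | leaf i => exact ⟨[], σ i, Pl.leaf i, by simpa [lv, rA, rD] using CLe.refl [σ i]⟩
  | node b l r ihl ihr =>
    obtain ⟨⟨h1, h2⟩, h3, h4⟩ := h
    -- the two moves
    have goR : ∀ c, (∀ q ∈ l.lv, σ q = c) → lt2 x (true, b) = c →
        ∃ W e, Pl (node b l r) W ∧
          CLe ((node b l r).lv.map σ) (rA x W.reverse ++ [e] ++ rD x W.reverse) := by
      intro c hc hlt
      obtain ⟨W, e, p, k⟩ := ihr h4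
      refine ⟨(true, b) :: W, e, Pl.right p, ?_⟩
      have e1 : rA x ((true, b) :: W).reverse = [c] ++ rA x W.reverse := by
        rw [List.reverse_cons, rA_append]
        simp [rA, hlt]
      have e2 : rD x ((true, b) :: W).reverse = rD x W.reverse := by
        rw [List.reverse_cons, rD_append]
        simp [rD]
      rw [e1, e2]
      simp only [lv, List.map_append]
      have := (cle_const (map_const hc)).append k
      simpa only [List.append_assoc] using this
    have goL : ∀ c, (∀ q ∈ r.lv, σ q = c) → lt2 x (false, b) = c →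
        ∃ W e, Pl (node b l r) W ∧
          CLe ((node b l r).lv.map σ) (rA x W.reverse ++ [e] ++ rD x W.reverse) := by
      intro c hc hlt
      obtain ⟨W, e, p, k⟩ := ihl h3
      refine ⟨(false, b) :: W, e, Pl.left p, ?_⟩
      have e1 : rA x ((false, b) :: W).reverse = rA x W.reverse := by
        rw [List.reverse_cons, rA_append]
        simp [rA]
      have e2 : rD x ((false, b) :: W).reverse = rD x W.reverse ++ [c] := by
        rw [List.reverse_cons, rD_append]
        simp [rD, hlt]
      rw [e1, e2]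
      simp only [lv, List.map_append]
      have := k.append (cle_const (map_const hc))
      simpa only [List.append_assoc] using this
    by_cases hlf : ∃ i ∈ l.lv, σ i = false
    · by_cases hlt : ∃ i ∈ l.lv, σ i = true
      · by_cases hrf : ∃ j ∈ r.lv, σ j = false
        · have hb := h2 ⟨hlt, hrf⟩
          have hr : ∀ q ∈ r.lv, σ q = false := by
            intro q hq
            cases hσ : σ q with
            | false => rfl
            | true => have := h1 ⟨hlf, q, hq, hσ⟩; linarith
          exact goL false hr (by simp [lt2, hb.le])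
        · have hr : ∀ q ∈ r.lv, σ q = true := by
            intro q hq
            cases hσ : σ q with
            | true => rfl
            | false => exact absurd ⟨q, hq, hσ⟩ hrf
          obtain ⟨j, hj⟩ := exists_mem r
          have hb := h1 ⟨hlf, j, hj, hr j hj⟩
          exact goL true hr (by simp [lt2, hb])
      · have hl : ∀ q ∈ l.lv, σ q = false := by
          intro q hq
          cases hσ : σ q with
          | false => rfl
          | true => exact absurd ⟨q, hq, hσ⟩ hlt
        by_cases hrt : ∃ j ∈ r.lv, σ j = true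
        · have hb := h1 ⟨hlf, hrt⟩
          exact goR false hl (by simp [lt2, hb.le])
        · have hr : ∀ q ∈ r.lv, σ q = false := by
            intro q hq
            cases hσ : σ q with
            | false => rfl
            | true => exact absurd ⟨q, hq, hσ⟩ hrt
          obtain ⟨W, hW⟩ := exists_pl (node b l r)
          refine ⟨W, false, hW, ?_⟩
          refine (cle_const (c := false) (map_const ?_)).trans (cle_of_sublist ?_)
          · intro q hq
            simp only [lv, List.mem_append] at hq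
            rcases hq with hq | hq
            · exact hl q hq
            · exact hr q hq
          · exact (List.sublist_append_right _ _).trans (List.sublist_append_left _ _)
    · have hl : ∀ q ∈ l.lv, σ q = true := by
        intro q hq
        cases hσ : σ q with
        | true => rfl
        | false => exact absurd ⟨q, hq, hσ⟩ hlf
      obtain ⟨i, hi⟩ := exists_mem l
      by_cases hrf : ∃ j ∈ r.lv, σ j = false
      · have hb := h2 ⟨⟨i, hi, hl i hi⟩, hrf⟩
        exact goR true hl (by simp [lt2, hb])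
      · have hr : ∀ q ∈ r.lv, σ q = true := by
          intro q hq
          cases hσ : σ q with
          | true => rfl
          | false => exact absurd ⟨q, hq, hσ⟩ hrf
        obtain ⟨W, hW⟩ := exists_pl (node b l r)
        refine ⟨W, true, hW, ?_⟩
        refine (cle_const (c := true) (map_const ?_)).trans (cle_of_sublist ?_)
        · intro q hq
          simp only [lv, List.mem_append] at hq
          rcases hq with hq | hq
          · exact hl q hq
          · exact hr q hq
        · exact (List.sublist_append_right _ _).trans (List.sublist_append_left _ _)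

/-- actual subtrees, with the path -/
inductive Occ : List (Bool × ℝ) → LT ℝ → LT ℝ → Prop
  | refl (t : LT ℝ) : Occ [] t t
  | left {L : List (Bool × ℝ)} {s l : LT ℝ} (x : ℝ) (r : LT ℝ) (h : Occ L s l) :
      Occ (L ++ [(false, x)]) s (node x l r)
  | right {L : List (Bool × ℝ)} {s r : LT ℝ} (x : ℝ) (l : LT ℝ) (h : Occ L s r) :
      Occ (L ++ [(true, x)]) s (node x l r)

theorem Occ.wb {s0 : List Bool} {K : ℕ} {L : List (Bool × ℝ)} {s t : LT ℝ} (h : Occ L s t) :
    ∀ {M : List (Bool × ℝ)}, WB s0 K M t → WB s0 K (L ++ M) s := by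
  induction h with
  | refl t => intro M h; exact h
  | left x r _ ih => intro M h; simpa using ih h.2.1
  | right x l _ ih => intro M h; simpa using ih h.2.2

theorem Occ.allN {P : ℝ → LT ℝ → LT ℝ → Prop} {L : List (Bool × ℝ)} {s t : LT ℝ}
    (h : Occ L s t) (hP : AllN P t) : AllN P s := by
  induction h with
  | refl t => exact hP
  | left x r _ ih => exact ih hP.2.1
  | right x l _ ih => exact ih hP.2.2

theorem Occ.mem {L : List (Bool × ℝ)} {s t : LT ℝ} (h : Occ L s t) : ∀ i ∈ s.lv, i ∈ t.lv := by
  induction h with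
  | refl t => exact fun i hi => hi
  | left x r _ ih => intro i hi; simp [lv, ih i hi]
  | right x l _ ih => intro i hi; simp [lv, ih i hi]

/-- reduction of the sign word outside of the subtree of a node -/
theorem ctx_cle {σ : ℕ → Bool} {x : ℝ} {s : LT ℝ} {L : List (Bool × ℝ)} {t : LT ℝ}
    (h : Occ L s t)
    (ht : AllN (fun w t1 t2 => (∀ L', Occ L' s t1 → ∀ q ∈ t2.lv, σ q = lt2 x (false, w)) ∧
      (∀ L', Occ L' s t2 → ∀ q ∈ t1.lv, σ q = lt2 x (true, w))) t) :
    CLe (t.lv.map σ) (rA x L ++ s.lv.map σ ++ rD x L) := by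
  induction h with
  | refl t => simpa [rA, rD] using CLe.refl _
  | @left L s l w r h ih =>
    have h1 := ih ht.2.1
    have h2 := cle_const (map_const (ht.1.1 L h))
    have e1 : rA x (L ++ [(false, w)]) = rA x L := by rw [rA_append]; simp [rA]
    have e2 : rD x (L ++ [(false, w)]) = rD x L ++ [lt2 x (false, w)] := by
      rw [rD_append]; simp [rD]
    rw [e1, e2]
    simp only [lv, List.map_append]
    have := h1.append h2
    simpa only [List.append_assoc] using this
  | @right L s r w l h ih =>
    have h1 := ih ht.2.2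
    have h2 := cle_const (map_const (ht.1.2 L h))
    have e1 : rA x (L ++ [(true, w)]) = [lt2 x (true, w)] ++ rA x L := by
      rw [rA_append]; simp [rA]
    have e2 : rD x (L ++ [(true, w)]) = rD x L := by rw [rD_append]; simp [rD]
    rw [e1, e2]
    simp only [lv, List.map_append]
    have := h2.append h1
    simpa only [List.append_assoc] using this

theorem allN_occ (t : LT ℝ) : AllN (fun b l r => ∃ L, Occ L (node b l r) t) t := by
  induction t with
  | leaf i => trivial
  | node x l r hl hr =>
    refine ⟨⟨[], Occ.refl _⟩, hl.imp ?_, hr.imp ?_⟩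
    · rintro b l' r' ⟨L, h⟩
      exact ⟨_, Occ.left _ _ h⟩
    · rintro b l' r' ⟨L, h⟩
      exact ⟨_, Occ.right _ _ h⟩

theorem finite_occ (P : LT ℝ → LT ℝ → Prop) (t : LT ℝ) :
    {x : ℝ | ∃ L l r, Occ L (node x l r) t ∧ P l r}.Finite := by
  induction t with
  | leaf i =>
    refine Set.Finite.subset (Set.finite_empty) ?_
    rintro x ⟨L, l, r, h, _⟩
    cases h
  | node y l r hl hr =>
    refine Set.Finite.subset ((hl.union hr).insert y) ?_
    rintro x ⟨L, l', r', h, hP⟩
    cases h with
    | refl t => exact Set.mem_insert _ _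
    | left x r h => exact Set.mem_insert_of_mem _ (Or.inl ⟨_, _, _, h, hP⟩)
    | right x r h => exact Set.mem_insert_of_mem _ (Or.inr ⟨_, _, _, h, hP⟩)

theorem exists_min {P : LT ℝ → LT ℝ → Prop} {t : LT ℝ} (h : ¬ AllN (fun _ l r => ¬ P l r) t) :
    ∃ L x l r, Occ L (node x l r) t ∧ P l r ∧ AllN (fun b l' r' => P l' r' → x ≤ b) t := by
  have hne : {x : ℝ | ∃ L l r, Occ L (node x l r) t ∧ P l r}.Nonempty := by
    by_contra hcon
    rw [Set.not_nonempty_iff_eq_empty] at hcon
    apply h
    refine (allN_occ t).imp ?_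
    rintro b l r ⟨L, hL⟩ hP
    have : b ∈ {x : ℝ | ∃ L l r, Occ L (node x l r) t ∧ P l r} := ⟨L, l, r, hL, hP⟩
    rw [hcon] at this
    exact this
  obtain ⟨x, hx, hmin⟩ := Set.exists_min_image _ id (finite_occ P t) hne
  obtain ⟨L, l, r, h1, h2⟩ := hx
  refine ⟨L, x, l, r, h1, h2, (allN_occ t).imp ?_⟩
  rintro b l' r' ⟨L', h3⟩ h4
  exact hmin b ⟨L', l', r', h3, h4⟩

theorem ch_le_one {σ : ℕ → Bool} {t : LT ℝ} (h : AllN (fun _ l r => ¬ Asc σ l r) t) :
    ch (t.lv.map σ) ≤ 1 := by
  have key : (t.lv.map σ).Pairwise (fun a b => a = false → b = false) := by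
    induction t with
    | leaf i => simp [lv]
    | node x l r hl hr =>
      simp only [lv, List.map_append]
      rw [List.pairwise_append]
      refine ⟨hl h.2.1, hr h.2.2, ?_⟩
      intro a ha b hb hf
      obtain ⟨i, hi, rfl⟩ := List.mem_map.1 ha
      obtain ⟨j, hj, rfl⟩ := List.mem_map.1 hb
      by_contra hcon
      exact h.1 ⟨⟨i, hi, hf⟩, j, hj, by simpa using hcon⟩
  refine le_trans (ch_sublist ?_) (ch_sorted' _ key)
  exact (List.sublist_append_left _ _).trans (List.sublist_cons_self _ _)

/-- **Sign words are bounded by the words of the nodes.** -/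
theorem shape {σ : ℕ → Bool} {K : ℕ} {X : LT ℝ} (hK : 1 ≤ K) (hC : Cons σ X)
    (hW : WB [] K [] X) : ch (X.lv.map σ) ≤ K := by
  by_cases hasc : AllN (fun _ l r => ¬ Asc σ l r) X
  · exact (ch_le_one hasc).trans hK
  obtain ⟨L, x, l, r, hocc, hA, hmin⟩ := exists_min hasc
  have hC' := (hocc.allN hC).1
  have hmin' := hocc.allN hmin
  obtain ⟨W1, e1, p1, k1⟩ := reduce (σ := σ) (x := x) (t := l) (by
    refine (hC'.1.and hmin'.2.1).imp ?_
    rintro b l' r' ⟨⟨h1, h2, h3⟩, h4⟩
    exact ⟨fun h => lt_of_le_of_ne (h4 h) h3.symm, fun h => h2 h hA.2⟩)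
  obtain ⟨W2, e2, p2, k2⟩ := reduce (σ := σ) (x := x) (t := r) (by
    refine (hC'.2.and hmin'.2.2).imp ?_
    rintro b l' r' ⟨⟨h1, h2, h3⟩, h4⟩
    exact ⟨fun h => lt_of_le_of_ne (h4 h) h3.symm, fun h => h2 h hA.1⟩)
  have hctx := ctx_cle (σ := σ) (x := x) hocc (by
    refine (hC.and hmin).imp ?_
    rintro w t1 t2 ⟨⟨h1, h2⟩, h3⟩
    constructor
    · intro L' ho
      obtain ⟨g1, _, g3⟩ := (ho.allN h1).1
      have hlf : ∃ i ∈ t1.lv, σ i = false := by
        obtain ⟨i, hi, hi2⟩ := hA.1
        exact ⟨i, ho.mem i (by simp [lv, hi]), hi2⟩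
      by_cases hf : ∃ q ∈ t2.lv, σ q = false
      · have hw : w < x := g1 hA hf
        intro q hq
        cases hσ : σ q with
        | false => simp [lt2, hw.le]
        | true =>
          have := h3 ⟨hlf, q, hq, hσ⟩
          linarith
      · intro q hq
        have hσ : σ q = true := by
          cases hσ : σ q with
          | true => rfl
          | false => exact absurd ⟨q, hq, hσ⟩ hf
        have h4 := h3 ⟨hlf, q, hq, hσ⟩
        have h5 : x < w := lt_of_le_of_ne h4 g3
        rw [hσ]
        simp [lt2, h5]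
    · intro L' ho
      obtain ⟨g1, _, g3⟩ := (ho.allN h2).1
      have hrt : ∃ j ∈ t2.lv, σ j = true := by
        obtain ⟨i, hi, hi2⟩ := hA.2
        exact ⟨i, ho.mem i (by simp [lv, hi]), hi2⟩
      by_cases hf : ∃ q ∈ t1.lv, σ q = true
      · have hw : w < x := g1 hA hf
        intro q hq
        cases hσ : σ q with
        | true => simp [lt2, hw]
        | false =>
          have := h3 ⟨⟨q, hq, hσ⟩, hrt⟩
          linarith
      · intro q hq
        have hσ : σ q = false := by
          cases hσ : σ q with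
          | false => rfl
          | true => exact absurd ⟨q, hq, hσ⟩ hf
        have h4 := h3 ⟨⟨q, hq, hσ⟩, hrt⟩
        have h5 : x < w := lt_of_le_of_ne h4 g3
        rw [hσ]
        simp [lt2, h5.le])
  have hw := (hocc.wb hW).1 W1 W2 p1 p2 e1 e2
  refine le_trans (CLe.ch_le (hctx.trans ?_)) hw
  show CLe _ (wrd (tup x (L ++ []) W1 W2) e1 e2)
  simp only [lv, List.map_append, List.append_nil, wrd, tup]
  have := ((CLe.refl (rA x L)).append (k1.append k2)).append (CLe.refl (rD x L))
  simpa only [List.append_assoc] using this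

section
variable {X Y : ℕ → ℝ}

theorem slp_lt {θ : ℝ} {i j : ℕ} (hx : X i < X j) (h : Y i - θ * X i < Y j - θ * X j) :
    θ < slp X Y i j := by
  unfold slp
  rw [lt_div_iff₀ (by linarith)]
  linarith

theorem lt_slp {θ : ℝ} {i j : ℕ} (hx : X i < X j) (h : Y j - θ * X j < Y i - θ * X i) :
    slp X Y i j < θ := by
  unfold slp
  rw [div_lt_iff₀ (by linarith)]
  linarith

theorem cons_of_compat {σ : ℕ → Bool} {θ : ℝ}
    (hσ : ∀ i j, σ i = false → σ j = true → Y i - θ * X i < Y j - θ * X j) {t : LT ℝ}
    (hx : t.lv.Pairwise (fun i j => X i < X j)) (hC : Compat (slp X Y) t) : Cons σ t := by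
  induction t with
  | leaf i => trivial
  | node a l r ihl ihr =>
    simp only [lv] at hx
    rw [List.pairwise_append] at hx
    obtain ⟨hxl, hxr, hxlr⟩ := hx
    obtain ⟨⟨hR1, hR2⟩, hCl, hCr⟩ := hC
    refine ⟨⟨?_, ?_⟩, ihl hxl hCl, ihr hxr hCr⟩
    · have key : ∀ s : LT ℝ, Rel (slp X Y) a r.lv s → s.lv.Pairwise (fun i j => X i < X j) →
          (∀ i ∈ s.lv, ∀ j ∈ r.lv, X i < X j) →
          AllN (fun b l' r' => (Asc σ l' r' → (∃ q ∈ r.lv, σ q = false) → a < b) ∧
            (Dsc σ l' r' → (∃ q ∈ r.lv, σ q = true) → b < a) ∧ b ≠ a) s := by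
        intro s
        induction s with
        | leaf i => intro _ _ _; trivial
        | node b l' r' ih1 ih2 =>
          intro hR hp hq
          simp only [lv] at hp hq
          rw [List.pairwise_append] at hp
          obtain ⟨hp1, hp2, hp3⟩ := hp
          obtain ⟨⟨k1, k2, k3⟩, k4, k5⟩ := hR
          refine ⟨⟨?_, ?_, k3⟩, ih1 k4 hp1 (fun i hi j hj => hq i (by simp [hi]) j hj),
            ih2 k5 hp2 (fun i hi j hj => hq i (by simp [hi]) j hj)⟩
          · rintro ⟨⟨i, hi, hi2⟩, j, hj, hj2⟩ ⟨q, hq1, hq2⟩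
            by_contra hcon
            have hba : b < a := lt_of_le_of_ne (not_lt.1 hcon) k3
            have h1 := (k2 hba i hi j hj q hq1).2
            have h2 := slp_lt (Y := Y) (hp3 i hi j hj) (hσ i j hi2 hj2)
            have h3 := lt_slp (Y := Y) (hq j (by simp [hj]) q hq1) (hσ q j hq2 hj2)
            simp only at h1
            linarith
          · rintro ⟨⟨i, hi, hi2⟩, j, hj, hj2⟩ ⟨q, hq1, hq2⟩
            by_contra hcon
            have hba : a < b := lt_of_le_of_ne (not_lt.1 hcon) k3.symm
            have h1 := (k1 hba i hi j hj q hq1).2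
            have h2 := lt_slp (Y := Y) (hp3 i hi j hj) (hσ j i hj2 hi2)
            have h3 := slp_lt (Y := Y) (hq j (by simp [hj]) q hq1) (hσ j q hj2 hq2)
            linarith
      exact key l hR1 hxl hxlr
    · have key : ∀ s : LT ℝ, Rel (slp X Y) a l.lv s → s.lv.Pairwise (fun i j => X i < X j) →
          (∀ i ∈ l.lv, ∀ j ∈ s.lv, X i < X j) →
          AllN (fun b l' r' => (Asc σ l' r' → (∃ q ∈ l.lv, σ q = true) → a < b) ∧
            (Dsc σ l' r' → (∃ q ∈ l.lv, σ q = false) → b < a) ∧ b ≠ a) s := by
        intro s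
        induction s with
        | leaf i => intro _ _ _; trivial
        | node b l' r' ih1 ih2 =>
          intro hR hp hq
          simp only [lv] at hp hq
          rw [List.pairwise_append] at hp
          obtain ⟨hp1, hp2, hp3⟩ := hp
          obtain ⟨⟨k1, k2, k3⟩, k4, k5⟩ := hR
          refine ⟨⟨?_, ?_, k3⟩, ih1 k4 hp1 (fun i hi j hj => hq i hi j (by simp [hj])),
            ih2 k5 hp2 (fun i hi j hj => hq i hi j (by simp [hj]))⟩
          · rintro ⟨⟨i, hi, hi2⟩, j, hj, hj2⟩ ⟨q, hq1, hq2⟩
            by_contra hcon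
            have hba : b < a := lt_of_le_of_ne (not_lt.1 hcon) k3
            have h1 := (k2 hba i hi j hj q hq1).1
            have h2 := slp_lt (Y := Y) (hp3 i hi j hj) (hσ i j hi2 hj2)
            have h3 := lt_slp (Y := Y) (hq q hq1 i (by simp [hi])) (hσ i q hi2 hq2)
            rw [slp_comm] at h3
            simp only at h1
            linarith
          · rintro ⟨⟨i, hi, hi2⟩, j, hj, hj2⟩ ⟨q, hq1, hq2⟩
            by_contra hcon
            have hba : a < b := lt_of_le_of_ne (not_lt.1 hcon) k3.symm
            have h1 := (k1 hba i hi j hj q hq1).1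
            have h2 := lt_slp (Y := Y) (hp3 i hi j hj) (hσ j i hj2 hi2)
            have h3 := slp_lt (Y := Y) (hq q hq1 i (by simp [hi])) (hσ q i hq2 hi2)
            rw [slp_comm] at h3
            linarith
      exact key r hR2 hxr hxlr

end

end Pool.Agent.H595K.Lb
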