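import Mathlib
import Pool.Agent.H595K.JShape
import Pool.Agent.H595K.FCore

/-!
# Polygons from trees with short words
-/

namespace Pool.Agent.H595K

open Set Vis124

/-- lists of points which form a `k`-convex polygon above the chord of the end points -/
def NiceK (k : ℕ) (x y : ℕ → ℝ) (Q : List ℕ) : Prop :=
  Q.Pairwise (fun i j => x i < x j) ∧
  (∀ (p z : ℕ) (L : List ℕ), Q = p :: (L ++ [z]) → ∀ i ∈ L,
    (y z - y p) * (x i - x p) < (y i - y p) * (x z - x p)) ∧
  ∀ θ β, ch (Wd x y θ β Q) + 1 ≤ 2 * k

theorem poly_of_niceK {k : ℕ} (hk : 1 ≤ k) {x y : ℕ → ℝ} {Q : List ℕ} (h : NiceK k x y Q)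
    (h3 : 3 ≤ Q.length) :
    ∃ (n : ℕ) (v : Fin n → ℝ × ℝ) (S : Set (ℝ × ℝ)), IsSimplePolygon v S ∧
      Set.range v = {p | ∃ i ∈ Q, p = (x i, y i)} ∧ IsKConvexRegion k S := by
  obtain ⟨hx, hch, hW⟩ := h
  set K := Q.length - 1 with hK
  have hKl : K + 1 = Q.length := by omega
  set q : ℕ → ℕ := fun i => Q.getD i 0 with hq
  have hqe : ∀ i (hi : i < Q.length), q i = Q[i] := by
    intro i hi
    simp only [hq]
    rw [List.getD_eq_getElem _ _ hi]
  have hpw : ∀ i j, i < j → j < Q.length → x (q i) < x (q j) := by
    intro i j hij hj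
    rw [hqe i (by omega), hqe j hj]
    exact List.pairwise_iff_getElem.1 hx i j (by omega) hj hij
  obtain ⟨S, hS1, hS2⟩ := poly_of_seq (X := fun i => x (q i)) (Y := fun i => y (q i)) (K := K)
    (k := k) (by omega) (fun i hi => hpw i (i + 1) (by omega) (by omega)) (by
      intro i h0 hi
      -- decompose the list
      have hne : Q ≠ [] := by intro h; rw [h] at h3; simp at h3
      obtain ⟨p, Q', rfl⟩ := List.exists_cons_of_ne_nil hne
      have hne' : Q' ≠ [] := by intro h; rw [h] at h3; simp at h3
      obtain ⟨L, z, rfl⟩ : ∃ L z, Q' = L ++ [z] := ⟨Q'.dropLast, Q'.getLast hne',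
        (List.dropLast_append_getLast hne').symm⟩
      have hlen : (p :: (L ++ [z])).length = L.length + 2 := by simp
      have hK' : K = L.length + 1 := by omega
      have e0 : q 0 = p := by rw [hqe 0 (by omega)]; rfl
      have eK : q K = z := by
        rw [hqe K (by omega)]
        simp [hK']
      have ei : q i ∈ L := by
        rw [hqe i (by omega)]
        obtain ⟨i', rfl⟩ : ∃ i', i = i' + 1 := ⟨i - 1, by omega⟩
        have : i' < L.length := by omega
        rw [List.getElem_cons_succ, List.getElem_append_left this]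
        exact List.getElem_mem _
      simp only [e0, eK]
      exact hch p z L rfl (q i) ei) hk (by
      intro θ β ⟨g, h1, h2, h4⟩
      have hgm : ∀ i j, i < j → j ≤ 2 * k → g i < g j := by
        intro i j hij
        induction j, hij using Nat.le_induction with
        | base => intro hj; exact h1 i (by omega)
        | succ j _ ih => intro hj; exact (ih (by omega)).trans (h1 j (by omega))
      have hsub : ((List.range (2 * k + 1)).map g).Sublist (List.range Q.length) := by
        apply sublist_range
        · rw [List.pairwise_map]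
          refine List.Pairwise.imp_of_mem ?_ List.pairwise_lt_range
          intro i j hi hj hij
          have hj' := List.mem_range.1 hj
          exact hgm i j hij (by omega)
        · intro l hl
          obtain ⟨i, hi, rfl⟩ := List.mem_map.1 hl
          have hi' := List.mem_range.1 hi
          have := h2 i (by omega)
          omega
      have hQ : (List.range Q.length).map q = Q := by
        apply List.ext_getElem
        · simp
        · intro i hi hi'
          simp only [List.getElem_map, List.getElem_range]
          exact hqe i hi'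
      have hsub2 := (hsub.map q).map (fun i => decide (0 ≤ y i - θ * x i - β))
      rw [hQ] at hsub2
      have e1 : (((List.range (2 * k + 1)).map g).map q).map
          (fun i => decide (0 ≤ y i - θ * x i - β)) = alt (2 * k + 1) true := by
        rw [List.map_map, List.map_map, ← alt_eq_map]
        apply List.map_congr_left
        intro i hi
        have hi' := List.mem_range.1 hi
        have h5 := h4 i (by omega)
        simp only [Function.comp]
        rcases Nat.mod_two_eq_zero_or_one i with h6 | h6
        · rw [if_pos h6, decide_eq_true (h5.2 h6)]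
        · have h7 : ¬ (0 ≤ y (q (g i)) - θ * x (q (g i)) - β) := by
            intro h8; have := h5.1 h8; omega
          rw [if_neg (by omega), decide_eq_false h7]
          rfl
      rw [e1] at hsub2
      have h5 := ch_sublist hsub2
      rw [ch_alt] at h5
      have h6 := hW θ β
      unfold Wd at h6
      omega)
  refine ⟨K + 1, _, S, hS1, ?_, hS2⟩
  ext p
  simp only [Set.mem_range, mem_ofPred_eq, pv]
  constructor
  · rintro ⟨i, rfl⟩
    refine ⟨q i, ?_, rfl⟩
    rw [hqe i (by have := i.2; omega)]
    exact List.getElem_mem _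
  · rintro ⟨i, hi, rfl⟩
    obtain ⟨m, hm, rfl⟩ := List.getElem_of_mem hi
    exact ⟨⟨m, by omega⟩, by rw [hqe m hm]⟩

/-- nice lists of points give `k`-convex sets -/
theorem kconvex_of_niceK {k : ℕ} (hk : 1 ≤ k) {P : Finset (ℝ × ℝ)} (hgp : GenPos P) (ε : ℝ)
    (p : ℕ → ℝ × ℝ) {L : List ℕ} (hL : ∀ i ∈ L, p i ∈ P) (h3 : 3 ≤ L.length)
    (hnice : NiceK k (fun i => (p i).1 + ε * (p i).2) (fun i => (p i).2) L ∨
      NiceK k (fun i => (p i).1 + ε * (p i).2) (fun i => - (p i).2) L) :
    ∃ Q ⊆ P, KConvexSet k Q ∧ Q.card = L.length := by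
  classical
  set x : ℕ → ℝ := fun i => (p i).1 + ε * (p i).2 with hx
  set y : ℕ → ℝ := fun i => (p i).2 with hy
  have hL4 : L.Pairwise (fun i j => x i < x j) := by
    rcases hnice with h | h
    · exact h.1
    · exact h.1
  have hnd : L.Nodup := hL4.imp (fun h => by rintro rfl; exact lt_irrefl _ h)
  set Q : Finset (ℝ × ℝ) := L.toFinset.image p with hQ
  have hQP : Q ⊆ P := by
    intro a ha
    obtain ⟨i, hi, rfl⟩ := Finset.mem_image.1 ha
    exact hL i (by simpa using hi)
  have hinj : ∀ i ∈ L, ∀ j ∈ L, x i = x j → i = j := by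
    intro i hi j hj hij
    by_contra hne
    obtain ⟨a, ha, rfl⟩ := List.getElem_of_mem hi
    obtain ⟨b, hb, rfl⟩ := List.getElem_of_mem hj
    rcases lt_trichotomy a b with h1 | h1 | h1
    · have := List.pairwise_iff_getElem.1 hL4 a b ha hb h1; linarith
    · subst h1; exact hne rfl
    · have := List.pairwise_iff_getElem.1 hL4 b a hb ha h1; linarith
  have hQc : Q.card = L.length := by
    rw [hQ, Finset.card_image_of_injOn, List.toFinset_card_of_nodup hnd]
    intro i hi j hj hij
    apply hinj i (by simpa using hi) j (by simpa using hj)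
    have : p i = p j := hij
    simp only [hx]
    rw [this]
  refine ⟨Q, hQP, ?_, hQc⟩
  rcases hnice with hnice | hnice
  · obtain ⟨n', v', S', p1, p2, p3⟩ := poly_of_niceK hk hnice h3
    obtain ⟨p4, p5⟩ := kconvex_map (shearX ε) p1 p3
    refine kConvex_of (hgp.subset hQP) p4 ?_ p5
    ext a
    simp only [Set.mem_range]
    rw [hQ, Finset.coe_image]
    constructor
    · rintro ⟨i, rfl⟩
      have h1 : v' i ∈ {p | ∃ i ∈ L, p = (x i, y i)} := by rw [← p2]; exact Set.mem_range_self i
      obtain ⟨j, hj, hj2⟩ := h1
      refine ⟨j, by simpa using hj, ?_⟩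
      rw [hj2, shearX_apply]
      ext
      · simp only [hx, hy]; ring
      · rfl
    · rintro ⟨j, hj, rfl⟩
      have h1 : (x j, y j) ∈ Set.range v' := by
        rw [p2]
        exact ⟨j, by simpa using hj, rfl⟩
      obtain ⟨i, hi⟩ := h1
      refine ⟨i, ?_⟩
      rw [hi, shearX_apply]
      ext
      · simp only [hx, hy]; ring
      · rfl
  · obtain ⟨n', v', S', p1, p2, p3⟩ := poly_of_niceK hk hnice h3
    obtain ⟨p4, p5⟩ := kconvex_map reflY p1 p3
    obtain ⟨p6, p7⟩ := kconvex_map (shearX ε) p4 p5
    refine kConvex_of (hgp.subset hQP) p6 ?_ p7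
    ext a
    simp only [Set.mem_range]
    rw [hQ, Finset.coe_image]
    constructor
    · rintro ⟨i, rfl⟩
      have h1 : v' i ∈ {p | ∃ i ∈ L, p = (x i, - y i)} := by rw [← p2]; exact Set.mem_range_self i
      obtain ⟨j, hj, hj2⟩ := h1
      refine ⟨j, by simpa using hj, ?_⟩
      rw [hj2, reflY_apply, shearX_apply]
      ext
      · simp only [hx, hy]; ring
      · simp only [hy]; ring
    · rintro ⟨j, hj, rfl⟩
      have h1 : (x j, - y j) ∈ Set.range v' := by
        rw [p2]
        exact ⟨j, by simpa using hj, rfl⟩
      obtain ⟨i, hi⟩ := h1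
      refine ⟨i, ?_⟩
      rw [hi, reflY_apply, shearX_apply]
      ext
      · simp only [hx, hy]; ring
      · simp only [hy]; ring

namespace Lb

open LT

section
variable {X Y : ℕ → ℝ}

theorem pairs_of_rel {g : ℕ → ℕ → ℝ} {v : ℝ} {Z : List ℕ} {t : LT ℝ} (h : Rel g v Z t)
    (hv : AllL (fun b => v < b) t) :
    t.lv.Pairwise (fun i j => ∀ z ∈ Z, g i z < g i j) := by
  induction t with
  | leaf i => simp [lv]
  | node b l r hl hr =>
    simp only [lv]
    rw [List.pairwise_append]
    refine ⟨hl h.2.1 hv.2.1, hr h.2.2 hv.2.2, ?_⟩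
    intro i hi j hj z hz
    exact (h.1.1 hv.1 i hi j hj z hz).1

theorem pairs_of_rel' {g : ℕ → ℕ → ℝ} {v : ℝ} {Z : List ℕ} {t : LT ℝ} (h : Rel g v Z t)
    (hv : AllL (fun b => b < v) t) :
    t.lv.Pairwise (fun i j => ∀ z ∈ Z, g i j < g i z) := by
  induction t with
  | leaf i => simp [lv]
  | node b l r hl hr =>
    simp only [lv]
    rw [List.pairwise_append]
    refine ⟨hl h.2.1 hv.2.1, hr h.2.2 hv.2.2, ?_⟩
    intro i hi j hj z hz
    have := (h.1.2.1 hv.1 i hi j hj z hz).1
    simp only at this
    linarith

/-- **Polygons from trees with short words.** -/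
theorem exists_niceK {K k n : ℕ} (hK : 1 ≤ K) (hKk : K + 1 ≤ 2 * k) {t : LT ℝ}
    (hx : t.lv.Pairwise (fun i j => X i < X j)) (hC : Compat (slp X Y) t)
    (hn : Comp (2 * n + 2) t) (hW : WB [] K [] t) :
    ∃ Q : List ℕ, Q.length = 2 ^ (n + 1) + 1 ∧ (∀ i ∈ Q, i ∈ t.lv) ∧
      (NiceK k X Y Q ∨ NiceK k X (fun i => - Y i) Q) := by
  cases t with
  | leaf i => exact absurd hn (by simp [Comp])
  | node v l r =>
    obtain ⟨c, hc, t', h1, h2⟩ := exists_colorP
      (fun c b _ _ => (c = 0 → v < b) ∧ (c = 1 → b < v)) (m := 2) (D := n) (t := l) (by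
        refine (LT.allN_of_allL hC.dst.1.1).imp ?_
        intro b _ _ hb
        rcases lt_or_gt_of_ne hb with h | h
        · exact ⟨1, by norm_num, by norm_num, fun _ => h⟩
        · exact ⟨0, by norm_num, fun _ => h, by norm_num⟩) hn.1 (by omega)
    obtain ⟨z, hz⟩ : ∃ z, Sub (fun _ _ _ => True) (leaf z) r := exists_leaf r
    have hsub : Sub (fun _ _ _ => True) (node v t' (leaf z)) (node v l r) :=
      Sub.node trivial h1.top hz
    have hx' := hx.sublist hsub.sublist
    have hC' := hC.sub hsub
    have hW' := hW.sub hsub (List.Sublist.refl _)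
    have hlv : (node v t' (leaf z)).lv = t'.lv ++ [z] := rfl
    have h5 := allL_of_sub h1
    have hx'' := hx'
    rw [hlv, List.pairwise_append] at hx''
    obtain ⟨hxt, _, hxz⟩ := hx''
    refine ⟨t'.lv ++ [z], by simp [h2.length], ?_, ?_⟩
    · intro i hi
      exact hsub.mem (by rw [hlv]; exact hi)
    · interval_cases c
      · left
        have h6 := pairs_of_rel hC'.1.1 (h5.imp (fun b hb => hb.1 rfl))
        refine ⟨by rw [← hlv]; exact hx', ?_, ?_⟩
        · intro p z' L e i hi
          have e1 : t'.lv ++ [z] = (p :: L) ++ [z'] := e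
          have e2 := List.append_inj' e1 rfl
          obtain ⟨e3, e4⟩ := e2
          have e5 : z = z' := by simpa using e4
          subst e5
          rw [e3] at h6 hxt hxz
          have h7 := (List.pairwise_cons.1 h6).1 i hi z (by simp [lv])
          have h8 := (List.pairwise_cons.1 hxt).1 i hi
          have h9 := hxz p (by simp) z (by simp)
          have h10 : slp X Y p z * (X z - X p) = Y z - Y p := slp_mul h9
          have h11 : slp X Y p i * (X i - X p) = Y i - Y p := slp_mul h8
          rw [← h10, ← h11]
          have h12 : 0 < (X z - X p) * (X i - X p) := mul_pos (by linarith) (by linarith)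
          nlinarith
        · intro θ β
          have h7 : Cons (fun i => decide (0 ≤ Y i - θ * X i - β)) (node v t' (leaf z)) := by
            refine cons_of_compat (X := X) (Y := Y) (θ := θ) ?_ hx' hC'
            intro i j hi hj
            have hi : Y i - θ * X i - β < 0 := by simpa using hi
            have hj : 0 ≤ Y j - θ * X j - β := by simpa using hj
            linarith
          have h8 := shape hK h7 hW'
          rw [hlv] at h8
          unfold Wd
          omega
      · right
        have h6 := pairs_of_rel' hC'.1.1 (h5.imp (fun b hb => hb.2 rfl))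
        refine ⟨by rw [← hlv]; exact hx', ?_, ?_⟩
        · intro p z' L e i hi
          have e1 : t'.lv ++ [z] = (p :: L) ++ [z'] := e
          have e2 := List.append_inj' e1 rfl
          obtain ⟨e3, e4⟩ := e2
          have e5 : z = z' := by simpa using e4
          subst e5
          rw [e3] at h6 hxt hxz
          have h7 := (List.pairwise_cons.1 h6).1 i hi z (by simp [lv])
          have h8 := (List.pairwise_cons.1 hxt).1 i hi
          have h9 := hxz p (by simp) z (by simp)
          have h10 : slp X Y p z * (X z - X p) = Y z - Y p := slp_mul h9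
          have h11 : slp X Y p i * (X i - X p) = Y i - Y p := slp_mul h8
          have h12 : 0 < (X z - X p) * (X i - X p) := mul_pos (by linarith) (by linarith)
          show (-Y z - -Y p) * (X i - X p) < (-Y i - -Y p) * (X z - X p)
          have e6 : -Y z - -Y p = -(slp X Y p z * (X z - X p)) := by rw [h10]; ring
          have e7 : -Y i - -Y p = -(slp X Y p i * (X i - X p)) := by rw [h11]; ring
          rw [e6, e7]
          nlinarith
        · intro θ β
          have h7 : Cons (fun i => !decide (0 ≤ -Y i - θ * X i - β)) (node v t' (leaf z)) := by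
            refine cons_of_compat (X := X) (Y := Y) (θ := -θ) ?_ hx' hC'
            intro i j hi hj
            have hi : 0 ≤ -Y i - θ * X i - β := by simpa using hi
            have hj : -Y j - θ * X j - β < 0 := by simpa using hj
            linarith
          have h8 := shape hK h7 hW'
          rw [hlv] at h8
          have e8 : (t'.lv ++ [z]).map (fun i => !decide (0 ≤ -Y i - θ * X i - β)) =
              ((t'.lv ++ [z]).map (fun i => decide (0 ≤ -Y i - θ * X i - β))).map not := by
            rw [List.map_map]; rfl
          rw [e8, ch_map_not] at h8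
          show ch ((t'.lv ++ [z]).map (fun i => decide (0 ≤ -Y i - θ * X i - β))) + 1 ≤ 2 * k
          omega

end

end Lb

end Pool.Agent.H595K
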