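import Mathlib
import Pool.Agent.H595K.JPlan
import Pool.Agent.H595K.JPoly

/-!
# The lower bound
-/

namespace Pool.Agent.H595K

namespace Lb

open LT

/-- **The first sandwich.** -/
theorem exists_start (K M : ℕ) : ∃ c0 : ℕ, 1 ≤ c0 ∧ ∀ (m : ℕ) (T : LT ℝ),
    Comp (c0 * (m + 1)) T → AllC (PM M) [] T → WB [] K [] T →
    (∃ e X, Sub (fun _ _ _ => True) X T ∧ Comp m X ∧ PP e X) ∨
    ∃ d B, Sub (fun _ _ _ => True) B T ∧ Comp m B ∧ WB [d] K [] B := by
  -- one step
  have step : ∀ (M c' : ℕ), (∀ M', M = M' + 1 → ∀ (m : ℕ) (T : LT ℝ),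
      Comp (c' * (m + 1)) T → AllC (PM M') [] T → WB [] K [] T →
      (∃ e X, Sub (fun _ _ _ => True) X T ∧ Comp m X ∧ PP e X) ∨
      ∃ d B, Sub (fun _ _ _ => True) B T ∧ Comp m B ∧ WB [d] K [] B) →
      ∀ (m : ℕ) (T : LT ℝ), Comp ((5 * c' + 35) * (m + 1)) T → AllC (PM M) [] T →
      WB [] K [] T →
      (∃ e X, Sub (fun _ _ _ => True) X T ∧ Comp m X ∧ PP e X) ∨
      ∃ d B, Sub (fun _ _ _ => True) B T ∧ Comp m B ∧ WB [d] K [] B := by
    intro M c' hIH m T hT hP hW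
    obtain ⟨q, hq⟩ : ∃ q, q = c' * (m + 1) := ⟨_, rfl⟩
    obtain ⟨n2, hn2⟩ : ∃ n2, n2 = 4 * m + q + 7 := ⟨_, rfl⟩
    obtain ⟨n1, hn1⟩ : ∃ n1, n1 = 3 * m + q + n2 + 7 := ⟨_, rfl⟩
    have hN : 2 * m + q + 2 * n1 + 7 ≤ (5 * c' + 35) * (m + 1) := by
      have e : (5 * c' + 35) * (m + 1) = 5 * (c' * (m + 1)) + 35 * (m + 1) := by ring
      rw [e, ← hq]
      omega
    have hdrop : ∀ M', M = M' + 1 → ∀ s', Sub (fun _ _ _ => True) s' T → Comp q s' →
        AllC (PM M') [] s' →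
        (∃ e X, Sub (fun _ _ _ => True) X T ∧ Comp m X ∧ PP e X) ∨
        ∃ d B, Sub (fun _ _ _ => True) B T ∧ Comp m B ∧ WB [d] K [] B := by
      intro M' hM s' hs hc hPs
      rw [hq] at hc
      rcases hIH M' hM m s' hc hPs (hW.sub hs (List.Sublist.refl _)) with
        ⟨e, X, k1, k2, k3⟩ | ⟨d, B, k1, k2, k3⟩
      · exact Or.inl ⟨e, X, hs.trans k1, k2, k3⟩
      · exact Or.inr ⟨d, B, hs.trans k1, k2, k3⟩
    have hPsub : ∀ s', Sub (fun _ _ _ => True) s' T → AllC (PM M) [] s' :=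
      fun s' hs => AllC.sub pm_sublist hs (List.Sublist.refl _) hP
    -- first step
    rcases splitG (E := m) (qA := q) (fun _ => 2) (fun _ => n1) (by omega) hT
      hP with ⟨M', hM, s', k1, k2, k3⟩ | ⟨e, X', k1, k2, k3⟩ | ⟨d1, X1, k1, k2⟩
    · exact hdrop M' hM s' k1 k2 k3
    · exact Or.inl ⟨e, X', k1, k2, k3⟩
    obtain ⟨v1, v2, a, b, s1, h1, h2, h3, h4⟩ := top_two (D := 0) k2
    have hs1 : Sub (fun _ _ _ => True) s1 T :=
      (k1.trans h1).trans (Sub.left _ _ (Sub.right _ _ (Sub.refl _)))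
    -- second step
    rcases splitG (E := m) (qA := q) (fun x => if x = d1 then m else 2)
      (fun x => if x = d1 then 2 else n2) (by cases d1 <;> simp <;> omega) h2 (hPsub s1 hs1) with
      ⟨M', hM, s', g1, g2, g3⟩ | ⟨e, X', g1, g2, g3⟩ | ⟨d2, X2, g1, g2⟩
    · exact hdrop M' hM s' (hs1.trans g1) g2 g3
    · exact Or.inl ⟨e, X', hs1.trans g1, g2, g3⟩
    by_cases hd : d2 = d1
    · subst hd
      rw [if_pos rfl, if_pos rfl] at g2
      right
      refine ⟨d2, trunc m X2, (hs1.trans g1).trans (trunc_sub _ _), comp_trunc g2, ?_⟩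
      refine wb_sandwich (s := []) (v1 := v1) (v2 := v2) (a := a) (b := b)
        (fun t ht => ⟨0, ht⟩) (gr_of_st g2) (g1.allL h3) (g1.allL h4) ?_
      exact hW.sub ((k1.trans h1).trans (Sub.node trivial (Sub.node trivial (Sub.refl _) g1)
        (Sub.refl _))) (List.Sublist.refl _)
    · rw [if_neg hd, if_neg hd] at g2
      obtain ⟨v3, v4, a', b', s2, u1, u2, u3, u4⟩ := top_two (D := 0) g2
      have hs21 : Sub (fun _ _ _ => True) s2 s1 :=
        (g1.trans u1).trans (Sub.left _ _ (Sub.right _ _ (Sub.refl _)))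
      have hs2 := hs1.trans hs21
      rcases splitG (E := m) (qA := q) (fun _ => m) (fun _ => 2) (by omega) u2
        (hPsub s2 hs2) with ⟨M', hM, s', y1, y2, y3⟩ | ⟨e, X', y1, y2, y3⟩ | ⟨d3, X3, y1, y2⟩
      · exact hdrop M' hM s' (hs2.trans y1) y2 y3
      · exact Or.inl ⟨e, X', hs2.trans y1, y2, y3⟩
      right
      refine ⟨d3, trunc m X3, (hs2.trans y1).trans (trunc_sub _ _), comp_trunc y2, ?_⟩
      by_cases hd3 : d3 = d1
      · subst hd3
        refine wb_sandwich (s := []) (v1 := v1) (v2 := v2) (a := a) (b := b)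
          (fun t ht => ⟨0, ht⟩) (gr_of_st y2) ((hs21.trans y1).allL h3)
          ((hs21.trans y1).allL h4) ?_
        exact hW.sub ((k1.trans h1).trans (Sub.node trivial (Sub.node trivial (Sub.refl _)
          (hs21.trans y1)) (Sub.refl _))) (List.Sublist.refl _)
      · have hd32 : d3 = d2 := by
          cases d1 <;> cases d2 <;> cases d3 <;> simp_all
        subst hd32
        refine wb_sandwich (s := []) (v1 := v3) (v2 := v4) (a := a') (b := b')
          (fun t ht => ⟨0, ht⟩) (gr_of_st y2) (y1.allL u3) (y1.allL u4) ?_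
        exact hW.sub (((hs1.trans g1).trans u1).trans
          (Sub.node trivial (Sub.node trivial (Sub.refl _) y1) (Sub.refl _)))
          (List.Sublist.refl _)
  induction M with
  | zero => exact ⟨5 * 0 + 35, by norm_num, step 0 0 (fun M' hM => by omega)⟩
  | succ M ih =>
    obtain ⟨c', _, hc⟩ := ih
    refine ⟨5 * c' + 35, by omega, step (M + 1) c' (fun M' hM => ?_)⟩
    have : M' = M := by omega
    subst this
    exact hc

/-- strategies for both directions -/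
def HasPlan (a H C0 A0 : ℕ) : Prop :=
  ∀ d, ∃ (dir : ℕ → Bool) (bud : ℕ → ℕ), (∀ c < C0, 1 ≤ bud c ∧ bud c ≤ a) ∧
    PlanOK C0 A0 H d dir bud

/-- **Subtrees with short words.** -/
theorem exists_short {K H C0 A0 a M : ℕ} {β : ℝ} (hβ0 : 0 < β) (hβ : β < A0) (hAC : A0 ≤ C0)
    (ha : 1 ≤ a) (hK : K ≤ 6 * H + 4) (hp : HasPlan a H C0 A0) :
    ∃ (C : ℝ) (c0 : ℕ), 0 < C ∧ 1 ≤ c0 ∧ ∀ (m N : ℕ) (T : LT ℝ), 1 ≤ N →
      C0 * Real.log N + C ≤ β * Real.log m → Comp (c0 * (m + 1)) T → AllC (PM M) [] T →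
      WB [] K [] T → ∃ X, Sub (fun _ _ _ => True) X T ∧ Comp N X ∧ WB [] (6 * a - 1) [] X := by
  obtain ⟨C, hC, hrec⟩ := rec_exists hβ0 hβ hAC hK H M
  obtain ⟨c0, hc0, hst⟩ := exists_start K M
  refine ⟨C, c0, hC, hc0, ?_⟩
  intro m N T hN hlog hT hP hW
  rcases hst m T hT hP hW with ⟨e, X, k1, k2, k3⟩ | ⟨d, B, k1, k2, k3⟩
  · have hNm : N ≤ m := by
      by_contra hcon
      push Not at hcon
      have hN0 : 0 ≤ Real.log N := Real.log_nonneg (by exact_mod_cast hN)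
      have hA : (A0 : ℝ) ≤ C0 := by exact_mod_cast hAC
      rcases Nat.eq_zero_or_pos m with h0 | h0
      · subst h0
        have : 0 ≤ (C0 : ℝ) * Real.log N := by positivity
        simp at hlog
        linarith
      · have h1 : Real.log m ≤ Real.log N := Real.log_le_log (by exact_mod_cast h0)
          (by exact_mod_cast hcon.le)
        have h2 : 0 ≤ Real.log m := Real.log_nonneg (by exact_mod_cast h0)
        have h3 : β * Real.log m ≤ C0 * Real.log m := mul_le_mul_of_nonneg_right (by linarith) h2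
        have h4 : (C0 : ℝ) * Real.log m ≤ C0 * Real.log N :=
          mul_le_mul_of_nonneg_left h1 (by positivity)
        linarith
    obtain ⟨X', g1, g2⟩ := comp_le' hNm k2
    refine ⟨X', k1.trans g1, g2, ?_⟩
    exact (WB.sub g1 (List.Sublist.refl _) (wb_pure' (d := true) k3)).drop.mono (by omega)
  · obtain ⟨dir, bud, hb, hplan⟩ := hp d
    obtain ⟨c, hc, X, g1, g2, g3⟩ := hrec m d [] dir bud (fun _ => N) B hplan trivial
      (by simp) (fun _ _ => hN) (by
        rw [Finset.sum_const, Finset.card_range, nsmul_eq_mul]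
        exact hlog) k2 (AllC.sub pm_sublist k1 (List.Sublist.refl _) hP) k3
    refine ⟨X, k1.trans g1, g2, g3.drop.mono ?_⟩
    have := hb c hc
    omega

end Lb

open LT Lb Tr in
theorem exists_T {k σ : ℕ} {P : Finset (ℝ × ℝ)} (hP : KConvexSet k P) (hσ : 1 ≤ σ)
    (hn : (320 * (k + 1)) ^ (40 * σ) * (320 * (k + 1)) ^ (40 * σ) < P.card) :
    ∃ (ε : ℝ) (p : ℕ → ℝ × ℝ) (T : LT ℝ), (∀ i, p i ∈ P) ∧
      T.lv.Pairwise (fun i j => (p i).1 + ε * (p i).2 < (p j).1 + ε * (p j).2) ∧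
      Cross (fun i => (p i).1 + ε * (p i).2) (fun i => (p i).2) T.lv (2 * k + 2) ∧
      Compat (slp (fun i => (p i).1 + ε * (p i).2) (fun i => (p i).2)) T ∧
      LT.Comp (7 * σ) T := by
  obtain ⟨N, ε, p, hN, hpP, hx, hA, hCr, hgen⟩ := extract2 hP hn
  obtain ⟨t, h1, h2, h3, h4, h5, h6⟩ := exists_tree2 hx hA hgen hN hσ (by ring) (by positivity)
  obtain ⟨hf1, hf2⟩ := pow_facts σ hσ h1
  obtain ⟨T, t1, t2, t3⟩ := Lb.exists_compat (slp_comm _ _) h6
  obtain ⟨t', k1, k2⟩ := LT.exists_comp (t := T) (h := 40 * σ) (n := t.lv.length) (d := 7 * σ - 1)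
    (by rw [t2]; exact h5) (by rw [t1]) hf1
  have e : 7 * σ - 1 + 1 = 7 * σ := by omega
  rw [e] at k2
  have hcr := hCr t.lv h3 h2
  have hxt := h4
  rw [← t1] at hcr hxt
  exact ⟨ε, p, t', hpP, hxt.sublist k1.sublist, hcr.sub k1.sublist, t3.sub k1, k2⟩

open Lb in
/-- **The lower bound.** -/
theorem lower_exp {k j a H C0 A0 : ℕ} {β : ℝ} (hk3 : 3 ≤ k) (ha : 1 ≤ a) (hβ0 : 0 < β)
    (hβ : β < A0) (hAC : A0 ≤ C0) (hk : k ≤ 3 * H + 2) (hj : 3 * a ≤ j)
    (hp : HasPlan a H C0 A0) :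
    ∃ c : ℝ, 0 < c ∧ ∀ n : ℕ, 3 ≤ n → Real.exp (c * (Real.log n) ^ (β / C0)) ≤ f k j n := by
  obtain ⟨C, c0, hC, hc0, hshort⟩ := exists_short (K := 2 * k) (M := 2 * (2 * k)) hβ0 hβ hAC ha
    (by omega) hp
  have hA0 : 1 ≤ A0 := by
    have : (0 : ℝ) < A0 := by linarith
    have : 0 < A0 := by exact_mod_cast this
    omega
  have hC0 : (1 : ℝ) ≤ C0 := by exact_mod_cast (hA0.trans hAC)
  set γ := β / C0 with hγ
  have hγ0 : 0 < γ := by positivity
  obtain ⟨G, hGdef⟩ : ∃ G : ℕ, G = 320 * (k + 1) := ⟨_, rfl⟩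
  have hGr : (1280 : ℝ) ≤ (G : ℝ) := by
    have : 1280 ≤ G := by rw [hGdef]; omega
    exact_mod_cast this
  have hlogG : 0 < Real.log G := Real.log_pos (by linarith)
  have hc0r : (1 : ℝ) ≤ c0 := by exact_mod_cast hc0
  set C' := Real.exp (C / β) with hC'
  have hC'0 : 0 < C' := Real.exp_pos _
  set D : ℝ := 81 * Real.log G * (c0 * (C' + 2)) with hD
  have hDpos : 0 < D := by positivity
  set c5 : ℝ := (1 / D) ^ γ with hc5
  have hc5pos : 0 < c5 := by positivity
  refine ⟨c5 / 8, by positivity, ?_⟩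
  intro n hn
  have hn3 : (3 : ℝ) ≤ n := by exact_mod_cast hn
  have hnpos : (0 : ℝ) < n := by linarith
  set V := Real.log n with hV
  have hV0 : 0 < V := Real.log_pos (by linarith)
  set N := ⌊c5 * V ^ γ⌋₊ with hN
  have hcV : 0 ≤ c5 * V ^ γ := by positivity
  have hN1 : (N : ℝ) ≤ c5 * V ^ γ := Nat.floor_le hcV
  have hN2 : c5 * V ^ γ < N + 1 := Nat.lt_floor_add_one _
  rcases Nat.lt_or_ge N 4 with h4 | h4
  · have h5 : (N : ℝ) + 1 ≤ 4 := by exact_mod_cast h4
    have h6 : c5 / 8 * V ^ γ ≤ 1 := by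
      have : c5 / 8 * V ^ γ = c5 * V ^ γ / 8 := by ring
      rw [this]; linarith
    have h7 : Real.exp (c5 / 8 * V ^ γ) ≤ Real.exp 1 := Real.exp_le_exp.2 h6
    have h8 := Real.exp_one_lt_d9
    have h9 : (3 : ℝ) ≤ f k j n := by exact_mod_cast three_le_f hk3 (by omega) hn
    linarith
  · have hNr : (4 : ℝ) ≤ N := by exact_mod_cast h4
    have hNpos : (0 : ℝ) < N := by linarith
    -- the depth
    have hpow : (N : ℝ) ^ (1 / γ) ≤ V / D := by
      have h1 : (N : ℝ) ^ (1 / γ) ≤ (c5 * V ^ γ) ^ (1 / γ) :=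
        Real.rpow_le_rpow hNpos.le hN1 (by positivity)
      have h2 : (c5 * V ^ γ) ^ (1 / γ) = V / D := by
        rw [hc5, ← Real.mul_rpow (by positivity) hV0.le, ← Real.rpow_mul (by positivity),
          mul_one_div, div_self hγ0.ne', Real.rpow_one]
        ring
      rw [h2] at h1
      exact h1
    have hNp1 : 1 ≤ (N : ℝ) ^ (1 / γ) := Real.one_le_rpow (by linarith) (by positivity)
    set m := ⌈C' * (N : ℝ) ^ (1 / γ)⌉₊ with hm
    have hm1 : C' * (N : ℝ) ^ (1 / γ) ≤ m := Nat.le_ceil _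
    have hm2 : (m : ℝ) < C' * (N : ℝ) ^ (1 / γ) + 1 := Nat.ceil_lt_add_one (by positivity)
    have hlog : C0 * Real.log N + C ≤ β * Real.log m := by
      have h1 : Real.log (C' * (N : ℝ) ^ (1 / γ)) ≤ Real.log m :=
        Real.log_le_log (by positivity) hm1
      have h2 : Real.log (C' * (N : ℝ) ^ (1 / γ)) = C / β + 1 / γ * Real.log N := by
        rw [Real.log_mul hC'0.ne' (by positivity), hC', Real.log_exp, Real.log_rpow hNpos]
      rw [h2] at h1
      have h3 := mul_le_mul_of_nonneg_left h1 hβ0.le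
      have h4 : β * (C / β + 1 / γ * Real.log N) = C0 * Real.log N + C := by
        rw [hγ]
        have : β ≠ 0 := hβ0.ne'
        field_simp
        ring
      linarith
    obtain ⟨σ, hσdef⟩ : ∃ σ : ℕ, σ = c0 * (m + 1) := ⟨_, rfl⟩
    have hσ1 : 1 ≤ σ := by
      rw [hσdef]
      exact Nat.mul_pos (by omega) (by omega)
    have hσ2 : (σ : ℝ) * (81 * Real.log G) ≤ V := by
      rw [hσdef]
      push_cast
      have h1 : (m : ℝ) + 1 ≤ (C' + 2) * (N : ℝ) ^ (1 / γ) := by nlinarith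
      have h2 : ((c0 : ℝ) * (m + 1)) * (81 * Real.log G) ≤
          (c0 * ((C' + 2) * (N : ℝ) ^ (1 / γ))) * (81 * Real.log G) := by
        apply mul_le_mul_of_nonneg_right _ (by positivity)
        exact mul_le_mul_of_nonneg_left h1 (by linarith)
      have h3 : (c0 * ((C' + 2) * (N : ℝ) ^ (1 / γ))) * (81 * Real.log G) =
          D * (N : ℝ) ^ (1 / γ) := by rw [hD]; ring
      have h4 : D * (N : ℝ) ^ (1 / γ) ≤ D * (V / D) := mul_le_mul_of_nonneg_left hpow hDpos.le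
      have h5 : D * (V / D) = V := by field_simp
      linarith
    have hlow : 2 ^ (N / 2) + 1 ≤ f k j n := by
      apply le_f hk3 hn
      intro P hP1 hP2
      have h1 : (320 * (k + 1)) ^ (40 * σ) * (320 * (k + 1)) ^ (40 * σ) < P.card := by
        rw [hP1, ← hGdef]
        have h2 : Real.log ((G : ℝ) ^ (40 * σ) * (G : ℝ) ^ (40 * σ)) < Real.log n := by
          rw [← pow_add, Real.log_pow]
          push_cast
          have h4 : (1 : ℝ) ≤ σ := by exact_mod_cast hσ1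
          nlinarith
        have h3 : (G : ℝ) ^ (40 * σ) * (G : ℝ) ^ (40 * σ) < n :=
          (Real.log_lt_log_iff (by positivity) (by positivity)).1 h2
        exact_mod_cast h3
      obtain ⟨ε, p, T, hpP, hx, hCr, hCp, hT⟩ := exists_T hP2 hσ1 h1
      obtain ⟨T', z1, z2⟩ := comp_le' (a := c0 * (m + 1)) (by rw [← hσdef]; omega) hT
      have hx' := hx.sublist z1.sublist
      have hCr' := hCr.sub z1.sublist
      have hCp' := hCp.sub z1
      have hPM := init_pm (k := 2 * k) hx' hCr' T' [] (by simp [lf, rR, rL]) (by simp) hCp'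
      have hWB := wb_of_cross (k := 2 * k) hx' hCr' T' [] (by simp [lf, rR, rL]) (by simp) hCp'
      obtain ⟨X, g1, g2, g3⟩ := hshort m N T' (by omega) hlog z2 hPM hWB
      obtain ⟨X', g4, g5⟩ := comp_le' (a := 2 * (N / 2 - 1) + 2) (by omega) g2
      have hsub := g1.trans g4
      obtain ⟨L, q1, q2, q3⟩ := exists_niceK (K := 6 * a - 1) (k := j) (n := N / 2 - 1)
        (by omega) (by omega) (hx'.sublist hsub.sublist) (hCp'.sub hsub) g5
        (g3.sub g4 (List.Sublist.refl _))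
      have e1 : N / 2 - 1 + 1 = N / 2 := by omega
      rw [e1] at q1
      have h3 : 3 ≤ L.length := by
        rw [q1]
        have : 2 ^ 1 ≤ 2 ^ (N / 2) := Nat.pow_le_pow_right (by norm_num) (by omega)
        omega
      obtain ⟨Q, r1, r2, r3⟩ := kconvex_of_niceK (k := j) (by omega) hP2.1 ε p
        (fun i _ => hpP i) h3 q3
      exact ⟨Q, r1, r2, by rw [r3, q1]⟩
    have h2 : ((2 : ℝ) ^ (N / 2) + 1) ≤ f k j n := by exact_mod_cast hlow
    have h3 : Real.exp (c5 / 8 * V ^ γ) ≤ 2 ^ (N / 2) := by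
      apply exp_le_two_pow
      have h4 : (N : ℝ) ≤ 2 * ((N / 2 : ℕ) : ℝ) + 1 := by
        have : N ≤ 2 * (N / 2) + 1 := by omega
        exact_mod_cast this
      have : c5 / 8 * V ^ γ = c5 * V ^ γ / 8 := by ring
      rw [this]; linarith
    linarith

end Pool.Agent.H595K
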