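import Mathlib
import Pool.Agent.H595K.Main
import Pool.Agent.H595K.Lower2

/-!
# The upper bound
-/

namespace Pool.Agent.H595K

theorem upper_bound (j H : ℕ) (hj : j < 3 * H) :
    ∃ C : ℝ, 0 < C ∧
      ∀ k n : ℕ, 3 * H ≤ k → 16 ≤ n →
        (f k j n : ℝ) ≤ Real.exp (C * Real.log n ^ ((((H + j / 3) / 2 : ℕ) : ℝ) / H) *
          Real.log (Real.log n)) := by
  have hH : 1 ≤ H := by omega
  have hHr : (0 : ℝ) < H := by exact_mod_cast hH
  refine ⟨12 * 5 ^ H * 3 ^ ((H + j / 3) / 2) + 2, by positivity, ?_⟩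
  set α : ℝ := (((H + j / 3) / 2 : ℕ) : ℝ) / H with hα
  set C : ℝ := 12 * 5 ^ H * 3 ^ ((H + j / 3) / 2) + 2 with hC
  intro k n hk hn
  obtain ⟨M, t, hM, ht0, ht, hn2, hb⟩ :=
    numeric (H := H) (e := (H + j / 3) / 2) hH (by omega) hn
  obtain ⟨P, hP1, hP2, hP3⟩ := exists_set (N := n - 2) hM hH ht0 ht (by omega) (by omega)
  have hP : ∀ Q ⊆ P, KConvexSet j Q →
      (Q.card : ℝ) ≤ Real.exp (C * Real.log n ^ α * Real.log (Real.log n)) := by
    intro Q hQ hQj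
    have h1 := hP3 (j / 3) Q hQ (hQj.mono (by omega))
    have h2 : (Q.card : ℝ) ≤
        (((t + 1) ^ (2 * (5 ^ H * M ^ ((H + j / 3) / 2))) + 2 : ℕ) : ℝ) := by exact_mod_cast h1
    exact h2.trans hb
  have hPc : P.card = n := by omega
  have h1 : ∀ m ∈ {m | ∀ P : Finset (ℝ × ℝ), P.card = n → KConvexSet k P →
      ∃ Q ⊆ P, KConvexSet j Q ∧ Q.card = m}, (m : ℝ) ≤
        Real.exp (C * Real.log n ^ α * Real.log (Real.log n)) := by
    intro m hm
    obtain ⟨Q, hQ1, hQ2, hQ3⟩ := hm P hPc (hP2.mono hk)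
    rw [← hQ3]
    exact hP Q hQ1 hQ2
  unfold f
  set A := {m | ∀ P : Finset (ℝ × ℝ), P.card = n → KConvexSet k P →
      ∃ Q ⊆ P, KConvexSet j Q ∧ Q.card = m} with hA
  rcases Set.eq_empty_or_nonempty A with hA0 | hA0
  · rw [hA0]
    simp only [csSup_empty, bot_eq_zero', Nat.cast_zero]
    exact (Real.exp_pos _).le
  · have hbdd : BddAbove A := by
      refine ⟨⌈Real.exp (C * Real.log n ^ α * Real.log (Real.log n))⌉₊, ?_⟩
      intro m hm
      exact_mod_cast (h1 m hm).trans (Nat.le_ceil _)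
    exact h1 _ (Nat.sSup_mem hA0 hbdd)

theorem f_le {k j n : ℕ} (hk : 3 ≤ k) (hn : 3 ≤ n) : f k j n ≤ n := by
  unfold f
  obtain ⟨P, hP1, hP2, _⟩ := exists_set (M := n) (H := 1) (t := n) (N := n - 2) (by omega) le_rfl
    (by omega) (by simp) (by omega)
    ((Nat.sub_le n 2).trans (Nat.lt_two_pow_self).le)
  have hP3 : P.card = n := by omega
  set A := {m | ∀ P : Finset (ℝ × ℝ), P.card = n → KConvexSet k P →
      ∃ Q ⊆ P, KConvexSet j Q ∧ Q.card = m} with hA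
  have h1 : ∀ m ∈ A, m ≤ n := by
    intro m hm
    obtain ⟨Q, q1, _, q3⟩ := hm P hP3 (hP2.mono (by omega))
    rw [← q3, ← hP3]
    exact Finset.card_le_card q1
  rcases Set.eq_empty_or_nonempty A with hA0 | hA0
  · rw [hA0]; simp
  · exact h1 _ (Nat.sSup_mem hA0 ⟨n, h1⟩)

end Pool.Agent.H595K
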