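import Mathlib
import Pool.Agent.H595K.JLow
import Pool.Agent.H595K.JUp
import Pool.Agent.H595K.JDefs

/-!
# The exponents
-/

namespace Pool.Agent.H595K

theorem expo_pos {k j : ℕ} (hj : 3 ≤ j) : 0 < expo k j := by
  unfold expo
  split_ifs
  · norm_num
  · have h1 : 0 < j / 3 + (k / 3 - j / 3 - 1) / 2 := by omega
    have h2 : 0 < j / 3 + 2 * ((k / 3 - j / 3 - 1) / 2) + 1 := by omega
    have h3 : (0 : ℝ) < ((j / 3 + (k / 3 - j / 3 - 1) / 2 : ℕ) : ℝ) := by exact_mod_cast h1
    have h4 : (0 : ℝ) < ((j / 3 + 2 * ((k / 3 - j / 3 - 1) / 2) + 1 : ℕ) : ℝ) := by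
      exact_mod_cast h2
    positivity

theorem expo_up {k j : ℕ} (hk : 3 ≤ k) (hjk : j ≤ k) :
    ∃ C : ℝ, 0 < C ∧ ∀ n : ℕ, 16 ≤ n →
      (f k j n : ℝ) ≤ Real.exp (C * Real.log n ^ expo k j * Real.log (Real.log n)) := by
  unfold expo
  split_ifs with h
  · refine ⟨1, one_pos, ?_⟩
    intro n hn
    have hn16 : (16 : ℝ) ≤ n := by exact_mod_cast hn
    have h1 : (f k j n : ℝ) ≤ n := by exact_mod_cast f_le hk (by omega)
    have h2 : (n : ℝ) = Real.exp (Real.log n) := (Real.exp_log (by linarith)).symm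
    have hL : 2.75 ≤ Real.log n := by
      have h3 : Real.log 16 ≤ Real.log n := Real.log_le_log (by norm_num) hn16
      have h4 : Real.log 16 = 4 * Real.log 2 := by
        rw [show (16 : ℝ) = 2 ^ 4 by norm_num, Real.log_pow]; norm_num
      have := Real.log_two_gt_d9
      linarith
    have hLL : 1 ≤ Real.log (Real.log n) := by
      have h1 : Real.exp 1 ≤ Real.log n := by have := Real.exp_one_lt_d9; linarith
      have h2 := Real.log_le_log (Real.exp_pos 1) h1
      rwa [Real.log_exp] at h2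
    refine h1.trans ?_
    nth_rewrite 1 [h2]
    apply Real.exp_le_exp.2
    rw [Real.rpow_one, one_mul]
    nlinarith
  · set a := j / 3 with ha
    set t := (k / 3 - a - 1) / 2 with ht
    obtain ⟨C, hC, hup⟩ := upper_bound j (a + 2 * t + 1) (by omega)
    refine ⟨C, hC, ?_⟩
    intro n hn
    have h1 := hup k n (by omega) hn
    have e : (a + 2 * t + 1 + j / 3) / 2 = a + t := by omega
    rw [e] at h1
    exact h1

theorem expo_low {k j : ℕ} (hj : 3 ≤ j) (hjk : j ≤ k) {ε : ℝ} (hε : 0 < ε) :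
    ∃ c : ℝ, 0 < c ∧ ∀ n : ℕ, 3 ≤ n →
      Real.exp (c * Real.log n ^ (expo k j - ε)) ≤ (f k j n : ℝ) := by
  have key : ∀ (C0 A0 : ℕ), 1 ≤ A0 → A0 ≤ C0 → Lb.HasPlan (j / 3) (k / 3) C0 A0 →
      ∃ c : ℝ, 0 < c ∧ ∀ n : ℕ, 3 ≤ n →
      Real.exp (c * Real.log n ^ ((A0 : ℝ) / C0 - ε)) ≤ (f k j n : ℝ) := by
    intro C0 A0 hA0 hAC hp
    have hA0r : (1 : ℝ) ≤ A0 := by exact_mod_cast hA0
    have hACr : (A0 : ℝ) ≤ C0 := by exact_mod_cast hAC
    have hC0 : (0 : ℝ) < C0 := by linarith
    obtain ⟨c, hc, hlow⟩ := lower_exp (k := k) (j := j) (a := j / 3) (H := k / 3) (C0 := C0)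
      (A0 := A0) (β := max (A0 - ε * C0) (A0 / 2)) (by omega) (by omega)
      (lt_of_lt_of_le (by linarith) (le_max_right _ _))
      (max_lt (by nlinarith) (by linarith)) hAC (by omega) (by omega) hp
    refine ⟨c, hc, ?_⟩
    intro n hn
    refine le_trans ?_ (hlow n hn)
    apply Real.exp_le_exp.2
    apply mul_le_mul_of_nonneg_left _ hc.le
    have hn3 : (3 : ℝ) ≤ n := by exact_mod_cast hn
    have hL : 1 ≤ Real.log n := by
      rw [Real.le_log_iff_exp_le (by linarith)]
      have := Real.exp_one_lt_d9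
      linarith
    apply Real.rpow_le_rpow_of_exponent_le hL
    have h1 : (A0 : ℝ) - ε * C0 ≤ max ((A0 : ℝ) - ε * C0) (A0 / 2) := le_max_left _ _
    rw [le_div_iff₀ hC0]
    have h2 : ((A0 : ℝ) / C0 - ε) * C0 = A0 - ε * C0 := by field_simp
    linarith
  unfold expo
  split_ifs with h
  · have h1 := key 1 1 le_rfl le_rfl (by
      intro d
      refine ⟨fun _ => d, fun _ => j / 3, ?_, ?_⟩
      · intro c _
        exact ⟨(by omega : 1 ≤ j / 3), le_rfl⟩
      · exact Lb.plan_one (k / 3) (j / 3) d (by omega) (by omega))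
    simpa using h1
  · exact key (j / 3 + 2 * ((k / 3 - j / 3 - 1) / 2) + 1) (j / 3 + (k / 3 - j / 3 - 1) / 2)
      (by omega) (by omega) (fun d => Lb.exists_plan (by omega) (by omega) d)

open Filter Topology in
/-- **The exponents.** -/
theorem expo_limit {k j : ℕ} (hj : 3 ≤ j) (hjk : j ≤ k) :
    Tendsto (fun n : ℕ => Real.log (Real.log (f k j n)) / Real.log (Real.log n)) atTop
      (𝓝 (expo k j)) := by
  have hlog : Tendsto (fun n : ℕ => Real.log (Real.log n)) atTop atTop :=
    Real.tendsto_log_atTop.comp (Real.tendsto_log_atTop.comp tendsto_natCast_atTop_atTop)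
  rw [tendsto_order]
  constructor
  · intro b hb
    obtain ⟨c, hc, hlow⟩ := expo_low hj hjk (ε := (expo k j - b) / 2) (by linarith)
    have h1 : Tendsto (fun n : ℕ => (expo k j - b) / 2 * Real.log (Real.log n)) atTop atTop :=
      Tendsto.const_mul_atTop (by linarith) hlog
    filter_upwards [eventually_ge_atTop 3, h1.eventually_gt_atTop (-Real.log c),
      hlog.eventually_gt_atTop 0] with n hn3 hn1 hn2
    have h3 := hlow n hn3
    have hn3' : (3 : ℝ) ≤ n := by exact_mod_cast hn3
    have hL0 : 0 < Real.log n := Real.log_pos (by linarith)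
    have hf : (3 : ℝ) ≤ f k j n := by exact_mod_cast three_le_f (by omega) hj hn3
    have h4 := Real.log_le_log (Real.exp_pos _) h3
    rw [Real.log_exp] at h4
    have h5 := Real.log_le_log (by positivity) h4
    rw [Real.log_mul hc.ne' (by positivity), Real.log_rpow hL0] at h5
    rw [lt_div_iff₀ hn2]
    linarith
  · intro b hb
    obtain ⟨C, hC, hup⟩ := expo_up (k := k) (j := j) (by omega) hjk
    have h1 : Tendsto (fun x : ℝ => (b - expo k j) * x - Real.log x) atTop atTop := by
      have h2 : Real.log =o[atTop] (fun x : ℝ => x) := Real.isLittleO_log_id_atTop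
      have hb' : 0 < b - expo k j := by linarith
      have h3 := h2.def (c := (b - expo k j) / 2) (by linarith)
      have h4 : Tendsto (fun x : ℝ => (b - expo k j) / 2 * x) atTop atTop :=
        Tendsto.const_mul_atTop (by linarith) tendsto_id
      refine tendsto_atTop_mono' atTop ?_ h4
      filter_upwards [h3, eventually_ge_atTop 0] with x hx hx0
      rw [Real.norm_eq_abs, Real.norm_eq_abs, abs_of_nonneg hx0] at hx
      have := le_abs_self (Real.log x)
      linarith
    have h2 := (h1.comp hlog).eventually_gt_atTop (Real.log C)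
    filter_upwards [eventually_ge_atTop 16, h2, hlog.eventually_gt_atTop 0] with n hn16 hn1 hn2
    have h3 := hup n hn16
    have hn16' : (16 : ℝ) ≤ n := by exact_mod_cast hn16
    have hL0 : 0 < Real.log n := Real.log_pos (by linarith)
    have hf : (3 : ℝ) ≤ f k j n := by exact_mod_cast three_le_f (by omega) hj (by omega)
    have h4 := Real.log_le_log (by linarith) h3
    rw [Real.log_exp] at h4
    have hlf : 0 < Real.log (f k j n) := Real.log_pos (by linarith)
    have h5 := Real.log_le_log hlf h4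
    rw [Real.log_mul (by positivity) hn2.ne', Real.log_mul hC.ne' (by positivity),
      Real.log_rpow hL0] at h5
    rw [div_lt_iff₀ hn2]
    simp only [Function.comp] at hn1
    linarith

end Pool.Agent.H595K
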