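import Mathlib
import Pool.Agent.H595K.JGraft
import Pool.Agent.H595K.FCol

/-!
# Ranks, witnesses and classes
-/

namespace Pool.Agent.H595K.Lb

open LT

theorem rowc_cons_true (z w : ℝ) (N : List (Bool × ℝ)) :
    rowc false z ((true, w) :: N) = rowc false z N := by
  simp [rowc]

theorem rowc_cons_false (z w : ℝ) (N : List (Bool × ℝ)) :
    rowc false z ((false, w) :: N) = decide (w < z) :: rowc false z N := by
  simp [rowc]

theorem rowc_sublist (z : ℝ) {N' N : List (Bool × ℝ)} (h : N'.Sublist N) :
    (rowc false z N').Sublist (rowc false z N) := (h.filter _).map _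

theorem ch_head_ne {a b : Bool} (h : a ≠ b) (l : List Bool) : ch (a :: b :: l) = ch (b :: l) + 1 := by
  rw [ch_cons_cons, if_neg h]; omega

theorem ch_head_eq (a : Bool) (l : List Bool) : ch (a :: a :: l) = ch (a :: l) := by
  rw [ch_cons_cons, if_pos rfl]; omega

/-- a bound for the changes; for `b = true` the value `k` is not attained with the head `false` -/
def Gd2 (k : ℕ) (b : Bool) (s : List Bool) : Prop :=
  ch s ≤ k ∧ (b = true → ch s = k → s.head? ≠ some false)

theorem gd2_sublist {k : ℕ} {b : Bool} {s' s : List Bool} (h : s'.Sublist s) (hs : Gd2 k b s) :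
    Gd2 k b s' := by
  refine ⟨(ch_sublist h).trans hs.1, ?_⟩
  intro hb hk hh
  have h1 := ch_sublist h
  have h2 : ch s = k := le_antisymm hs.1 (by omega)
  cases s' with
  | nil => simp at hh
  | cons a s' =>
    simp only [List.head?_cons, Option.some.injEq] at hh
    subst hh
    cases s with
    | nil => simp at h
    | cons c s =>
      cases c with
      | false => exact hs.2 hb h2 rfl
      | true =>
        have h3 : (false :: s').Sublist s := by
          rcases List.sublist_cons_iff.1 h with h | ⟨r, hr, _⟩
          · exact h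
          · simp at hr
        have h4 : (true :: false :: s').Sublist (true :: s) := h3.cons_cons _
        have h5 := ch_sublist h4
        rw [ch_head_ne (by simp)] at h5
        omega

/-- the rank condition -/
def RkL (k : ℕ) (b : Bool) (L : List (Bool × ℝ)) : Prop :=
  ∀ N t z L', L = N ++ (t, z) :: L' → Gd2 k b (rowc false z N)

theorem RkL.sublist {k : ℕ} {b : Bool} {L' L : List (Bool × ℝ)} (h : L'.Sublist L)
    (hL : RkL k b L) : RkL k b L' := by
  rintro N t z L'' rfl
  rw [List.append_sublist_iff] at h
  obtain ⟨r1, r2, rfl, h1, h2⟩ := h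
  rw [List.cons_sublist_iff] at h2
  obtain ⟨s1, s2, rfl, h3, h4⟩ := h2
  obtain ⟨u1, u2, rfl⟩ := List.append_of_mem h3
  have := hL (r1 ++ u1) t z (u2 ++ s2) (by simp)
  exact gd2_sublist (rowc_sublist z (h1.trans (List.sublist_append_left _ _))) this

/-- witnesses -/
def Wt (e : Bool) (k : ℕ) (L : List (Bool × ℝ)) (z : ℝ) : Prop :=
  ∃ N t L', L = N ++ (t, z) :: L' ∧ ch (rowc false z N) = k ∧
    (rowc false z N).head? = some (!e)

theorem Wt.mem {e : Bool} {k : ℕ} {L : List (Bool × ℝ)} {z : ℝ} (h : Wt e k L z) :
    ∃ t, (t, z) ∈ L := by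
  obtain ⟨N, t, L', rfl, _⟩ := h
  exact ⟨t, by simp⟩

theorem Wt.cons {e b : Bool} {k : ℕ} {L : List (Bool × ℝ)} {z : ℝ} (h : Wt e k L z)
    (w : Bool × ℝ) (hR : RkL k b (w :: L)) : Wt e k (w :: L) z := by
  obtain ⟨N, t, L', rfl, h1, h2⟩ := h
  obtain ⟨c, x⟩ := w
  have h3 := (hR ((c, x) :: N) t z L' rfl).1
  refine ⟨(c, x) :: N, t, L', rfl, ?_⟩
  cases c with
  | true => rw [rowc_cons_true]; exact ⟨h1, h2⟩
  | false =>
    rw [rowc_cons_false] at h3 ⊢
    cases hs : rowc false z N with
    | nil => rw [hs] at h2; simp at h2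
    | cons a s =>
      rw [hs] at h1 h2 h3
      simp only [List.head?_cons, Option.some.injEq] at h2
      subst h2
      by_cases h4 : decide (x < z) = !e
      · rw [h4, ch_head_eq]
        exact ⟨h1, by simp⟩
      · rw [ch_head_ne h4] at h3
        omega

theorem Wt.append {e b : Bool} {k : ℕ} {L : List (Bool × ℝ)} {z : ℝ} (h : Wt e k L z) :
    ∀ (M : List (Bool × ℝ)), RkL k b (M ++ L) → Wt e k (M ++ L) z := by
  intro M
  induction M with
  | nil => intro _; exact h
  | cons w M ih =>
    intro hR
    exact (ih (hR.sublist (List.sublist_cons_self _ _))).cons w hR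

/-- the next ancestor with a turn to the left is on the right side of the witness -/
theorem Wt.next {e b : Bool} {k : ℕ} {L : List (Bool × ℝ)} {z y : ℝ} (h : Wt e k L z)
    (hR : RkL k b ((false, y) :: L)) (hne : z ≠ y) : Dr e z y := by
  obtain ⟨N, t, L', rfl, h1, h2⟩ := h
  have h3 := (hR ((false, y) :: N) t z L' rfl).1
  rw [rowc_cons_false] at h3
  cases hs : rowc false z N with
  | nil => rw [hs] at h2; simp at h2
  | cons a s =>
    rw [hs] at h1 h2 h3
    simp only [List.head?_cons, Option.some.injEq] at h2
    subst h2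
    by_cases h4 : decide (y < z) = !e
    · cases e with
      | true =>
        have h5 : ¬ y < z := by simpa using h4
        exact lt_of_le_of_ne (not_lt.1 h5) hne
      | false =>
        have h5 : y < z := by simpa using h4
        show (if false = true then z < y else y < z)
        simpa using h5
    · rw [ch_head_ne h4] at h3
      omega

/-- signed labels -/
noncomputable def vl (e : Bool) (z : ℝ) : ℝ := if e = true then z else -z

theorem dr_iff {e : Bool} {x y : ℝ} : Dr e x y ↔ vl e x < vl e y := by
  cases e <;> simp [Dr, vl]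

theorem vl_inj {e : Bool} {x y : ℝ} (h : vl e x = vl e y) : x = y := by
  cases e
  · simp only [vl, Bool.false_eq_true, if_false, neg_inj] at h; exact h
  · simp only [vl, if_true] at h; exact h

open scoped Classical in
/-- the largest witness -/
noncomputable def lb (e : Bool) (k : ℕ) (L : List (Bool × ℝ)) : WithBot ℝ :=
  ((L.toFinset.image Prod.snd).filter (fun z => Wt e k L z)).sup
    (fun z => ((vl e z : ℝ) : WithBot ℝ))

theorem le_lb {e : Bool} {k : ℕ} {L : List (Bool × ℝ)} {z : ℝ} (h : Wt e k L z) :
    ((vl e z : ℝ) : WithBot ℝ) ≤ lb e k L := by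
  classical
  unfold lb
  apply Finset.le_sup (f := fun z => ((vl e z : ℝ) : WithBot ℝ))
  rw [Finset.mem_filter, Finset.mem_image]
  obtain ⟨t, ht⟩ := h.mem
  exact ⟨⟨(t, z), by simpa using ht, rfl⟩, h⟩

theorem lb_le {e : Bool} {k : ℕ} {L : List (Bool × ℝ)} {β : WithBot ℝ}
    (h : ∀ z, Wt e k L z → ((vl e z : ℝ) : WithBot ℝ) ≤ β) : lb e k L ≤ β := by
  classical
  unfold lb
  apply Finset.sup_le
  intro z hz
  exact h z (Finset.mem_filter.1 hz).2

theorem lb_lt {e : Bool} {k : ℕ} {L : List (Bool × ℝ)} {y : ℝ}
    (h : ∀ z, Wt e k L z → Dr e z y) : lb e k L < ((vl e y : ℝ) : WithBot ℝ) := by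
  classical
  unfold lb
  rw [Finset.sup_lt_iff (WithBot.bot_lt_coe _)]
  intro z hz
  exact WithBot.coe_lt_coe.2 (dr_iff.1 (h z (Finset.mem_filter.1 hz).2))

theorem lb_mono {e b : Bool} {k : ℕ} {L M : List (Bool × ℝ)} (hR : RkL k b (M ++ L)) :
    lb e k L ≤ lb e k (M ++ L) := lb_le (fun _ hz => le_lb (hz.append M hR))

theorem lb_congr {e : Bool} {k : ℕ} {L L' : List (Bool × ℝ)} (h : ∀ z, Wt e k L z ↔ Wt e k L' z) :
    lb e k L = lb e k L' :=
  le_antisymm (lb_le (fun z hz => le_lb ((h z).1 hz))) (lb_le (fun z hz => le_lb ((h z).2 hz)))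

theorem lb_cons_true {e : Bool} {k : ℕ} {x : ℝ} {L : List (Bool × ℝ)} :
    lb e k ((true, x) :: L) = lb e k L := by
  apply lb_congr
  intro z
  constructor
  · rintro ⟨N, t, L', h0, h1, h2⟩
    cases N with
    | nil => simp [rowc] at h2
    | cons w N =>
      rw [List.cons_append, List.cons.injEq] at h0
      obtain ⟨rfl, rfl⟩ := h0
      rw [rowc_cons_true] at h1 h2
      exact ⟨N, t, L', rfl, h1, h2⟩
  · rintro ⟨N, t, L', rfl, h1, h2⟩
    refine ⟨(true, x) :: N, t, L', rfl, ?_, ?_⟩
    · rw [rowc_cons_true]; exact h1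
    · rw [rowc_cons_true]; exact h2

open scoped Classical in
/-- the classes of the contexts of the ancestors (turn to the left) with an inversion -/
noncomputable def SS (e : Bool) (k : ℕ) (y : ℝ) : List (Bool × ℝ) → Finset (WithBot ℝ)
  | [] => ∅
  | w :: L => if w.1 = false ∧ Dr e y w.2 then insert (lb e k L) (SS e k y L) else SS e k y L

theorem ss_high {e : Bool} {k : ℕ} {x y : ℝ} {L : List (Bool × ℝ)} (h : Dr e y x) :
    SS e k y ((false, x) :: L) = insert (lb e k L) (SS e k y L) := by
  simp [SS, h]

theorem ss_low {e : Bool} {k : ℕ} {x y : ℝ} {L : List (Bool × ℝ)} (h : ¬ Dr e y x) :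
    SS e k y ((false, x) :: L) = SS e k y L := by
  simp [SS, h]

theorem ss_true {e : Bool} {k : ℕ} {x y : ℝ} {L : List (Bool × ℝ)} :
    SS e k y ((true, x) :: L) = SS e k y L := by
  simp [SS]

theorem letter_high {e : Bool} {x y : ℝ} (hne : x ≠ y) : decide (x < y) = (!e) ↔ Dr e y x := by
  cases e with
  | true =>
    simp only [Bool.not_true, decide_eq_false_iff_not, not_lt, Dr, if_true]
    exact ⟨fun h => lt_of_le_of_ne h hne.symm, le_of_lt⟩
  | false =>
    simp [Dr]

/-- nearest entries -/
theorem lb_step {e : Bool} {k : ℕ} (hk : 1 ≤ k) {x y : ℝ} {L : List (Bool × ℝ)}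
    (hx : Dr e y x) (hhead : (rowc false y L).head? = some (!e)) (hne : ∀ w ∈ L, w.2 ≠ y)
    (hP : ∀ z, Wt e k ((false, x) :: L) z → Dr e z y)
    (hP' : ∀ z, Wt e k L z → Dr e z y) :
    lb e k ((false, x) :: L) = lb e k L := by
  -- the head of the row of a witness
  have key : ∀ (z : ℝ), Dr e z y → ∀ (N : List (Bool × ℝ)) (L0 : List (Bool × ℝ)),
      (rowc false y (N ++ L0)).head? = some (!e) → (∀ w ∈ N ++ L0, w.2 ≠ y) →
      rowc false z N ≠ [] → (rowc false z N).head? = some (!e) := by
    intro z hz N
    induction N with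
    | nil => intro L0 _ _ h; simp [rowc] at h
    | cons w N ih =>
      intro L0 h1 h2 h3
      obtain ⟨c, u⟩ := w
      cases c with
      | true =>
        rw [rowc_cons_true] at h3 ⊢
        rw [List.cons_append, rowc_cons_true] at h1
        exact ih L0 h1 (fun w hw => h2 w (by simp [List.mem_append.1 hw])) h3
      | false =>
        rw [rowc_cons_false]
        rw [List.cons_append, rowc_cons_false] at h1
        simp only [List.head?_cons, Option.some.injEq] at h1 ⊢
        have hu : u ≠ y := h2 (false, u) (by simp)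
        have h4 := (letter_high hu).1 h1
        have h5 : Dr e z u := dr_iff.2 ((dr_iff.1 hz).trans (dr_iff.1 h4))
        have h6 : u ≠ z := by
          rintro rfl
          exact lt_irrefl _ (dr_iff.1 h5)
        exact (letter_high h6).2 h5
  apply lb_congr
  intro z
  constructor
  · intro hz
    have hzy := hP z hz
    obtain ⟨N, t, L', h0, h1, h2⟩ := hz
    cases N with
    | nil => simp [rowc] at h2
    | cons w N =>
      rw [List.cons_append, List.cons.injEq] at h0
      obtain ⟨rfl, rfl⟩ := h0
      rw [rowc_cons_false] at h1 h2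
      have h3 : rowc false z N ≠ [] := by
        intro h3
        rw [h3] at h1
        simp at h1
        omega
      have h4 := key z hzy N _ hhead hne h3
      refine ⟨N, t, L', rfl, ?_, h4⟩
      cases hs : rowc false z N with
      | nil => exact absurd hs h3
      | cons a s =>
        rw [hs] at h1 h4
        simp only [List.head?_cons, Option.some.injEq] at h2 h4
        subst h4
        rw [h2, ch_head_eq] at h1
        exact h1
  · intro hz
    have hzy := hP' z hz
    obtain ⟨N, t, L', rfl, h1, h2⟩ := hz
    refine ⟨(false, x) :: N, t, L', rfl, ?_⟩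
    rw [rowc_cons_false]
    have h5 : Dr e z x := dr_iff.2 ((dr_iff.1 hzy).trans (dr_iff.1 hx))
    have h6 : x ≠ z := by
      rintro rfl
      exact lt_irrefl _ (dr_iff.1 h5)
    rw [(letter_high h6).2 h5]
    cases hs : rowc false z N with
    | nil => rw [hs] at h2; simp at h2
    | cons a s =>
      rw [hs] at h1 h2
      simp only [List.head?_cons, Option.some.injEq] at h2
      subst h2
      rw [ch_head_eq]
      exact ⟨h1, by simp⟩

/-- two nearest high entries -/
theorem lb_mem_ss {e b : Bool} {k : ℕ} (hk : 1 ≤ k) {y : ℝ} : ∀ {L : List (Bool × ℝ)},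
    RkL k b L → (∀ w ∈ L, w.2 ≠ y) → (∀ z, Wt e k L z → Dr e z y) →
    (∃ s, rowc false y L = (!e) :: (!e) :: s) → lb e k L ∈ SS e k y L := by
  intro L
  induction L with
  | nil => rintro _ _ _ ⟨s, hs⟩; simp [rowc] at hs
  | cons w L ih =>
    rintro hR hne hP ⟨s, hs⟩
    obtain ⟨c, x⟩ := w
    have hR' : RkL k b L := hR.sublist (List.sublist_cons_self _ _)
    have hne' : ∀ w ∈ L, w.2 ≠ y := fun w hw => hne w (List.mem_cons_of_mem _ hw)
    have hP' : ∀ z, Wt e k L z → Dr e z y := fun z hz => hP z (hz.cons _ hR)
    cases c with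
    | true =>
      rw [rowc_cons_true] at hs
      rw [lb_cons_true, ss_true]
      exact ih hR' hne' hP' ⟨s, hs⟩
    | false =>
      rw [rowc_cons_false, List.cons.injEq] at hs
      have hx : Dr e y x := (letter_high (hne (false, x) (by simp))).1 hs.1
      rw [ss_high hx, lb_step hk hx (by rw [hs.2]; rfl) hne' hP hP']
      exact Finset.mem_insert_self _ _

/-- **The number of classes with inversions is bounded.** -/
theorem card_ss {e b : Bool} {k : ℕ} (hk : 1 ≤ k) {y : ℝ} : ∀ {L : List (Bool × ℝ)},
    RkL k b L → (∀ w ∈ L, w.2 ≠ y) → (∀ z, Wt e k L z → Dr e z y) →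
    (SS e k y L).card ≤ ch (rowc false y L) + 2 ∧
    ((∃ s, rowc false y L = (!e) :: (!e) :: s) ∨ (SS e k y L).card ≤ ch (rowc false y L) + 1) ∧
    (rowc false y L = [] → (SS e k y L).card = 0) := by
  classical
  intro L
  induction L with
  | nil => intro _ _ _; simp [SS]
  | cons w L ih =>
    intro hR hne hP
    obtain ⟨c, x⟩ := w
    have hR' : RkL k b L := hR.sublist (List.sublist_cons_self _ _)
    have hne' : ∀ w ∈ L, w.2 ≠ y := fun w hw => hne w (List.mem_cons_of_mem _ hw)
    have hP' : ∀ z, Wt e k L z → Dr e z y := fun z hz => hP z (hz.cons _ hR)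
    obtain ⟨i1, i2, i3⟩ := ih hR' hne' hP'
    cases c with
    | true =>
      rw [rowc_cons_true, ss_true]
      exact ⟨i1, i2, i3⟩
    | false =>
      have hxy : x ≠ y := hne (false, x) (by simp)
      rw [rowc_cons_false]
      by_cases hx : Dr e y x
      · rw [ss_high hx, (letter_high hxy).2 hx]
        cases hs : rowc false y L with
        | nil =>
          have h0 := i3 hs
          have h1 := Finset.card_insert_le (lb e k L) (SS e k y L)
          simp
          omega
        | cons a s =>
          rw [hs] at i1 i2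
          by_cases ha : a = !e
          · subst ha
            rw [ch_head_eq]
            refine ⟨?_, Or.inl ⟨s, rfl⟩, by simp⟩
            rcases i2 with ⟨s', hs'⟩ | i2
            · have h1 := lb_mem_ss hk hR' hne' hP' ⟨s', hs.trans hs'⟩
              rw [Finset.insert_eq_of_mem h1]
              exact i1
            · have h1 := Finset.card_insert_le (lb e k L) (SS e k y L)
              omega
          · have h2 : (SS e k y L).card ≤ ch (a :: s) + 1 := by
              rcases i2 with ⟨s', hs'⟩ | i2
              · rw [List.cons.injEq] at hs'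
                exact absurd hs'.1 ha
              · exact i2
            have h1 := Finset.card_insert_le (lb e k L) (SS e k y L)
            rw [ch_head_ne (Ne.symm ha)]
            exact ⟨by omega, Or.inr (by omega), by simp⟩
      · rw [ss_low hx]
        have hl : decide (x < y) = e := by
          by_contra hcon
          apply hx
          rw [← letter_high hxy]
          cases e <;> simp_all
        rw [hl]
        cases hs : rowc false y L with
        | nil =>
          have h0 := i3 hs
          simp [h0]
        | cons a s =>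
          rw [hs] at i1 i2
          by_cases ha : a = e
          · subst ha
            rw [ch_head_eq]
            have h2 : (SS a k y L).card ≤ ch (a :: s) + 1 := by
              rcases i2 with ⟨s', hs'⟩ | i2
              · rw [List.cons.injEq] at hs'
                exact absurd hs'.1 (by cases a <;> simp)
              · exact i2
            exact ⟨by omega, Or.inr h2, by simp⟩
          · rw [ch_head_ne (Ne.symm ha)]
            exact ⟨by omega, Or.inr (by omega), by simp⟩

theorem ss_append {e : Bool} {k : ℕ} {y : ℝ} (L : List (Bool × ℝ)) : ∀ (M : List (Bool × ℝ)),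
    SS e k y L ⊆ SS e k y (M ++ L) := by
  classical
  intro M
  induction M with
  | nil => exact Finset.Subset.refl _
  | cons w M ih =>
    rw [List.cons_append]
    simp only [SS]
    split_ifs
    · exact ih.trans (Finset.subset_insert _ _)
    · exact ih

theorem ss_mono {e : Bool} {k : ℕ} {x y : ℝ} (h : Dr e y x) : ∀ (L : List (Bool × ℝ)),
    SS e k x L ⊆ SS e k y L := by
  classical
  intro L
  induction L with
  | nil => exact Finset.Subset.refl _
  | cons w L ih =>
    simp only [SS]
    by_cases h1 : w.1 = false ∧ Dr e x w.2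
    · have h2 : w.1 = false ∧ Dr e y w.2 := ⟨h1.1, dr_iff.2 ((dr_iff.1 h).trans (dr_iff.1 h1.2))⟩
      rw [if_pos h1, if_pos h2]
      exact Finset.insert_subset_insert _ ih
    · rw [if_neg h1]
      split_ifs
      · exact ih.trans (Finset.subset_insert _ _)
      · exact ih

open scoped Classical in
/-- the number of lower classes with inversions -/
noncomputable def Iv (e : Bool) (k : ℕ) (a : ℝ × List (Bool × ℝ)) : ℕ :=
  ((SS e k a.1 a.2).filter (fun β => β < lb e k a.2)).card

theorem iv_lt {e : Bool} {k : ℕ} {x y : ℝ} {L M : List (Bool × ℝ)}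
    (hxy : Dr e y x) (hl : lb e k L < lb e k (M ++ (false, x) :: L)) :
    Iv e k (x, L) < Iv e k (y, M ++ (false, x) :: L) := by
  classical
  unfold Iv
  apply Finset.card_lt_card
  rw [Finset.ssubset_iff_of_subset]
  · refine ⟨lb e k L, ?_, ?_⟩
    · rw [Finset.mem_filter]
      refine ⟨?_, hl⟩
      apply ss_append
      show _ ∈ SS e k y ((false, x) :: L)
      rw [ss_high hxy]
      exact Finset.mem_insert_self _ _
    · simp
  · intro β hβ
    simp only [Finset.mem_filter] at hβ ⊢
    refine ⟨?_, hβ.2.trans hl⟩
    apply ss_append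
    show _ ∈ SS e k y ((false, x) :: L)
    rw [ss_high hxy]
    exact Finset.mem_insert_of_mem (ss_mono hxy L hβ.1)

end Pool.Agent.H595K.Lb
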