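import Mathlib
import Pool.Agent.H595K.KRk
import Pool.Agent.H595K.JSt

/-!
# Decomposition of a tree into classes
-/

namespace Pool.Agent.H595K

namespace LT

variable {α β : Type}

/-- change the labels -/
def mp (f : α → β) : LT α → LT β
  | leaf i => leaf i
  | node a l r => node (f a) (mp f l) (mp f r)

theorem comp_mp {f : α → β} {t : LT α} : ∀ {n : ℕ}, Comp n t → Comp n (mp f t) := by
  induction t with
  | leaf i =>
    intro n h
    cases n with
    | zero => trivial
    | succ n => exact absurd h (by simp [Comp])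
  | node a l r hl hr =>
    intro n h
    cases n with
    | zero => exact absurd h (by simp [Comp])
    | succ n => exact ⟨hl h.1, hr h.2⟩

theorem comp_of_mp {f : α → β} {t : LT α} : ∀ {n : ℕ}, Comp n (mp f t) → Comp n t := by
  induction t with
  | leaf i =>
    intro n h
    cases n with
    | zero => trivial
    | succ n => exact absurd h (by simp [Comp, mp])
  | node a l r hl hr =>
    intro n h
    cases n with
    | zero => exact absurd h (by simp [Comp, mp])
    | succ n => exact ⟨hl h.1, hr h.2⟩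

theorem Sub.mp {f : α → β} {c : α → LT α → LT α → Prop} {t' t : LT α} (h : Sub c t' t) :
    Sub (fun _ _ _ => True) (LT.mp f t') (LT.mp f t) := by
  induction h with
  | leaf i => exact Sub.leaf i
  | left a r _ ih => exact Sub.left _ _ ih
  | right a l _ ih => exact Sub.right _ _ ih
  | node hc _ _ ihl ihr => exact Sub.node trivial ihl ihr

theorem Sub.of_mp {f : α → β} {t : LT α} : ∀ {Z : LT β}, Sub (fun _ _ _ => True) Z (LT.mp f t) →
    ∃ Z', Sub (fun _ _ _ => True) Z' t ∧ LT.mp f Z' = Z := by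
  induction t with
  | leaf i =>
    intro Z h
    cases h
    exact ⟨LT.leaf i, Sub.leaf i, rfl⟩
  | node a l r hl hr =>
    intro Z h
    cases h with
    | left _ _ h =>
      obtain ⟨Z', h1, h2⟩ := hl h
      exact ⟨Z', Sub.left _ _ h1, h2⟩
    | right _ _ h =>
      obtain ⟨Z', h1, h2⟩ := hr h
      exact ⟨Z', Sub.right _ _ h1, h2⟩
    | node _ h1 h2 =>
      obtain ⟨Z1, k1, rfl⟩ := hl h1
      obtain ⟨Z2, k2, rfl⟩ := hr h2
      exact ⟨LT.node a Z1 Z2, Sub.node trivial k1 k2, rfl⟩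

theorem allL_mp {f : α → β} {P : β → Prop} {t : LT α} :
    AllL P (mp f t) ↔ AllL (fun a => P (f a)) t := by
  induction t with
  | leaf i => exact Iff.rfl
  | node a l r hl hr => simp only [mp, AllL, hl, hr]

theorem mp_mp {γ : Type} {f : α → β} {g : β → γ} {t : LT α} :
    mp g (mp f t) = mp (fun a => g (f a)) t := by
  induction t with
  | leaf i => rfl
  | node a l r hl hr => simp only [mp, hl, hr]

end LT

namespace Lb

open LT

theorem unc_eq (t : LT (ℝ × List (Bool × ℝ))) : unc t = mp Prod.fst t := by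
  induction t with
  | leaf i => rfl
  | node a l r hl hr => simp only [unc, mp, hl, hr]

theorem allL_ctx {P : List (Bool × ℝ) → ℝ → Prop} {t : LT ℝ} : ∀ {L : List (Bool × ℝ)},
    AllC P L t → AllL (fun a => P a.2 a.1) (ctx L t) := by
  induction t with
  | leaf i => intro L _; trivial
  | node x l r hl hr => intro L h; exact ⟨h.1, hl h.2.1, hr h.2.2⟩

theorem allL_sub' {α : Type} {P : α → Prop} {t' t : LT α}
    (h : Sub (fun a _ _ => P a) t' t) : AllL P t' := by
  induction h with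
  | leaf i => trivial
  | left a r _ ih => exact ih
  | right a l _ ih => exact ih
  | node hc _ _ ihl ihr => exact ⟨hc, ihl, ihr⟩

/-- chains of classes -/
def ChE (e : Bool) : LT (ℝ × WithBot ℝ) → Prop :=
  LT.AllN (fun a l r => AllL (fun c => a.2 ≤ c.2 ∧ (a.2 < c.2 → Dr e a.1 c.1)) l ∧
    AllL (fun c => a.2 ≤ c.2 ∧ (a.2 < c.2 → Dr e a.1 c.1)) r)

theorem ChE.sub {e : Bool} {c : ℝ × WithBot ℝ → LT (ℝ × WithBot ℝ) → LT (ℝ × WithBot ℝ) → Prop}
    {t' t : LT (ℝ × WithBot ℝ)} (h : Sub c t' t) (hC : ChE e t) : ChE e t' := by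
  refine h.allN hC ?_
  rintro a l r l' r' _ ⟨h1, h2⟩ hl hr
  exact ⟨hl.allL h1, hr.allL h2⟩

theorem head_of_sub {k : ℕ} {c : Bool} {s' s : List Bool} (h : s'.Sublist s) (hs : ch s ≤ k)
    (hs' : ch s' = k) (hh : s'.head? = some c) : ch s = k ∧ s.head? = some c := by
  have h1 := ch_sublist h
  have h2 : ch s = k := le_antisymm hs (by omega)
  refine ⟨h2, ?_⟩
  cases s' with
  | nil => simp at hh
  | cons a s' =>
    simp only [List.head?_cons, Option.some.injEq] at hh
    subst hh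
    cases s with
    | nil => simp at h
    | cons d s =>
      by_cases hd : d = a
      · rw [hd]; rfl
      · exfalso
        have h3 : (a :: s').Sublist s := by
          rcases List.sublist_cons_iff.1 h with h | ⟨r, hr, _⟩
          · exact h
          · rw [List.cons.injEq] at hr
            exact absurd hr.1.symm hd
        have h4 : (d :: a :: s').Sublist (d :: s) := h3.cons_cons _
        have h5 := ch_sublist h4
        rw [ch_head_ne hd] at h5
        omega

/-- contexts with annotations -/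
def CxL : List (Bool × (ℝ × List (Bool × ℝ))) → List (Bool × ℝ) → Prop
  | [], _ => True
  | w :: W, L => (∃ M, L = M ++ (w.1, w.2.1) :: w.2.2) ∧ CxL W w.2.2

/-- forget the annotations -/
def fa (w : Bool × (ℝ × List (Bool × ℝ))) : Bool × ℝ := (w.1, w.2.1)

theorem cxl_dec {t : Bool} {a : ℝ × List (Bool × ℝ)} {W' : List (Bool × (ℝ × List (Bool × ℝ)))} :
    ∀ {N : List (Bool × (ℝ × List (Bool × ℝ)))} {L : List (Bool × ℝ)},
    CxL (N ++ (t, a) :: W') L → ∃ NT, L = NT ++ (t, a.1) :: a.2 ∧ (N.map fa).Sublist NT := by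
  intro N
  induction N with
  | nil =>
    rintro L ⟨⟨M, hM⟩, _⟩
    exact ⟨M, hM, by simp⟩
  | cons w N ih =>
    rintro L ⟨⟨M, hM⟩, h⟩
    obtain ⟨NT, h1, h2⟩ := ih h
    refine ⟨M ++ (w.1, w.2.1) :: NT, ?_, ?_⟩
    · rw [hM, h1]; simp
    · rw [List.map_cons]
      exact List.Sublist.trans (h2.cons_cons _) (List.sublist_append_right _ _)

/-- the next rank -/
def nk (k : ℕ) (b : Bool) : ℕ := if b = true then k - 1 else k

theorem rk_next {k : ℕ} {b : Bool} (hk : 1 ≤ k) {β : WithBot ℝ}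
    {W : List (Bool × (ℝ × List (Bool × ℝ)))} {L : List (Bool × ℝ)} (hC : CxL W L)
    (hR : RkL k b L) (hl : lb (!b) k L = β)
    (hW : ∀ w ∈ W, (∀ z, Wt (!b) k w.2.2 z → Dr (!b) z w.2.1) ∧ lb (!b) k w.2.2 = β) :
    RkL (nk k b) (!b) (W.map fa) := by
  intro N' t x L' hL'
  rw [List.map_eq_append_iff] at hL'
  obtain ⟨N, W1, rfl, rfl, h1⟩ := hL'
  rw [List.map_eq_cons_iff] at h1
  obtain ⟨w, W', rfl, h2, rfl⟩ := h1
  obtain ⟨t', a⟩ := w
  simp only [fa, Prod.mk.injEq] at h2
  obtain ⟨rfl, rfl⟩ := h2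
  obtain ⟨NT, h3, h4⟩ := cxl_dec hC
  have h5 := hR _ _ _ _ h3
  have h6 := gd2_sublist (rowc_sublist a.1 h4) h5
  obtain ⟨h7, h8⟩ := hW (t', a) (by simp)
  have key : ch (rowc false a.1 (N.map fa)) = k →
      (rowc false a.1 (N.map fa)).head? ≠ some (!!b) := by
    intro hk1 hh
    obtain ⟨k1, k2⟩ := head_of_sub (rowc_sublist a.1 h4) h5.1 hk1 hh
    have h9 : Wt (!b) k L a.1 := ⟨NT, t', a.2, h3, k1, k2⟩
    have h10 := le_lb h9
    rw [hl, ← h8] at h10
    exact absurd h10 (not_le.2 (lb_lt h7))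
  cases b with
  | false => exact ⟨h6.1, fun _ => key⟩
  | true =>
    refine ⟨?_, by simp⟩
    show ch (rowc false a.1 (N.map fa)) ≤ k - 1
    by_contra hcon
    have hk1 : ch (rowc false a.1 (N.map fa)) = k := by
      have := h6.1
      omega
    have h9 := key hk1
    have h10 := h6.2 rfl hk1
    cases hs : rowc false a.1 (N.map fa) with
    | nil => rw [hs] at hk1; simp at hk1; omega
    | cons c s =>
      rw [hs] at h9 h10
      cases c <;> simp_all

theorem rk_block {k : ℕ} {b : Bool} (hk : 1 ≤ k) {β : WithBot ℝ}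
    {Z : LT (ℝ × List (Bool × ℝ))} (hCx : Cx Z)
    (hZ : AllL (fun a => RkL k b a.2 ∧ (∀ z, Wt (!b) k a.2 z → Dr (!b) z a.1) ∧
      lb (!b) k a.2 = β) Z) : ∀ {W : List (Bool × (ℝ × List (Bool × ℝ)))},
    (∀ w ∈ W, (∀ z, Wt (!b) k w.2.2 z → Dr (!b) z w.2.1) ∧ lb (!b) k w.2.2 = β) →
    AllL (fun a => CxL W a.2) Z →
    AllC (fun L _ => RkL (nk k b) (!b) L) (W.map fa) (mp Prod.fst Z) := by
  induction Z with
  | leaf i => intro W _ _; trivial
  | node a l r ihl ihr =>
    intro W hW hA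
    have hW' : ∀ t : Bool, ∀ w ∈ (t, a) :: W,
        (∀ z, Wt (!b) k w.2.2 z → Dr (!b) z w.2.1) ∧ lb (!b) k w.2.2 = β := by
      intro t w hw
      rcases List.mem_cons.1 hw with rfl | hw
      · exact ⟨hZ.1.2.1, hZ.1.2.2⟩
      · exact hW w hw
    refine ⟨rk_next hk hA.1 hZ.1.1 hZ.1.2.2 hW, ?_, ?_⟩
    · refine ihl hCx.2.1 hZ.2.1 (W := (false, a) :: W) (hW' _) ?_
      exact hCx.1.1.imp (fun c hc => ⟨hc, hA.1⟩)
    · refine ihr hCx.2.2 hZ.2.2 (W := (true, a) :: W) (hW' _) ?_
      exact hCx.1.2.imp (fun c hc => ⟨hc, hA.1⟩)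

theorem dr_or {e : Bool} {x y : ℝ} (h : x ≠ y) : Dr e x y ∨ Dr e y x := by
  rw [dr_iff, dr_iff]
  exact lt_or_gt_of_ne (fun h' => h (vl_inj h'))

theorem dr_asymm {e : Bool} {x y : ℝ} (h : Dr e x y) : ¬ Dr e y x := by
  rw [dr_iff] at h ⊢
  exact not_lt.2 h.le

theorem dr_tr {e : Bool} {x y z : ℝ} (h : Dr e x y) (h' : Dr e y z) : Dr e x z := by
  rw [dr_iff] at *
  exact h.trans h'

/-- **The decomposition into classes.** -/
theorem step_c {k M : ℕ} (hk : 1 ≤ k) {b : Bool} {B : LT ℝ} {n : ℕ}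
    (hB : Comp ((M + 3) * (2 * n + 1) + 2) B) (hP : AllC (PM M) [] B)
    (hR : AllC (fun L _ => RkL k b L) [] B) :
    (∃ X, Sub (fun _ _ _ => True) X B ∧ Comp (n + 1) X ∧
      LT.AllN (fun x l _ => AllL (Dr (!b) x) l) X) ∨
    ∃ X : LT (ℝ × WithBot ℝ), Sub (fun _ _ _ => True) (mp Prod.fst X) B ∧ Comp (n + 1) X ∧
      ChE (!b) X ∧ ∀ Z, Sub (fun _ _ _ => True) Z X → (∃ β, AllL (fun a => a.2 = β) Z) →
        AllC (fun L _ => RkL (nk k b) (!b) L) [] (mp Prod.fst Z) := by
  classical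
  obtain ⟨e, he⟩ : ∃ e, e = !b := ⟨_, rfl⟩
  rw [← he]
  have hT0 : Comp ((M + 3) * (2 * n + 1) + 2) (ctx [] B) := comp_ctx [] hB
  have hTP := allL_ctx hP
  have hTR := allL_ctx hR
  have hTC := cx_ctx B []
  -- permanent bounds
  obtain ⟨T1, a1, a2, a3⟩ : ∃ T1, Sub (fun _ _ _ => True) T1 (ctx [] B) ∧
      Comp ((M + 3) * (2 * n + 1) + 1) T1 ∧ AllL (fun a => ∀ z, Wt e k a.2 z → Dr e z a.1) T1 := by
    obtain ⟨c, hc, t', h1, h2⟩ := exists_colorV (m := 2) (t := ctx [] B)
      (fun c a _ _ => (c = 0 ∧ ∀ z, Wt e k a.2 z → Dr e z a.1) ∨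
        (c = 1 ∧ ¬ ∀ z, Wt e k a.2 z → Dr e z a.1))
      (fun c => if c = 0 then (M + 3) * (2 * n + 1) else 1)
      ((AllN.of_forall (P := fun _ _ _ => True) (fun _ _ _ => trivial) _).imp (by
        intro a l r _
        by_cases h : ∀ z, Wt e k a.2 z → Dr e z a.1
        · exact ⟨0, by norm_num, Or.inl ⟨rfl, h⟩⟩
        · exact ⟨1, by norm_num, Or.inr ⟨rfl, h⟩⟩)) hT0 (by
        simp [Finset.sum_range_succ])
    have h3 := allL_sub' h1
    interval_cases c
    · refine ⟨t', h1.top, by simpa using h2, h3.imp ?_⟩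
      rintro a (⟨_, h⟩ | ⟨h, _⟩)
      · exact h
      · exact absurd h (by norm_num)
    · exfalso
      have h2 : Comp 2 t' := by simpa using h2
      cases t' with
      | leaf i => exact absurd h2 (by simp [Comp])
      | node a l r =>
        cases l with
        | leaf i => exact absurd h2.1 (by simp [Comp])
        | node u l1 l2 =>
          have hp := h1.allL hTP
          have hr := h1.allL hTR
          have hc := Cx.sub h1 hTC
          obtain ⟨N, hN⟩ := hc.1.1.1
          have hRu : RkL k b ((false, a.1) :: a.2) := by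
            have h9 : RkL k b u.2 := hr.2.1.1
            rw [hN] at h9
            exact h9.sublist (List.sublist_append_right _ _)
          rcases h3.1 with ⟨h, _⟩ | ⟨_, h⟩
          · exact absurd h (by norm_num)
          · apply h
            intro z hz
            obtain ⟨t, ht⟩ := hz.mem
            exact hz.next hRu (hp.1.2 (t, z) ht)
  have b1 := a1.allL hTP
  have b2 := a1.allL hTR
  -- the number of inversions
  obtain ⟨i, _, T2, c1, c2⟩ := exists_color (fun a _ _ => Iv e k a) (m := M + 3)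
    (D := 2 * n + 1) (LT.allN_of_allL (((b1.and b2).and a3).imp (by
      rintro a ⟨⟨h1, h2⟩, h3⟩
      have h4 := (card_ss (e := e) hk h2 h1.2 h3).1
      have h5 : Iv e k a ≤ (SS e k a.1 a.2).card := Finset.card_filter_le _ _
      have h6 : ch (rowc false a.1 a.2) ≤ M := by
        have := h1.1
        unfold chs at this
        omega
      show Iv e k a < M + 3
      omega))) a2 (by omega)
  have hiv := allL_sub' c1
  have c3 := c1.top
  have hCx2 : Cx T2 := Cx.sub c1 (Cx.sub a1 hTC)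
  have hP2 := c3.allL b1
  have hR2 := c3.allL b2
  have hW2 := c3.allL a3
  -- facts on pairs
  have pairs : ∀ (s : Bool) (a c : ℝ × List (Bool × ℝ)), (∃ N, c.2 = N ++ (s, a.1) :: a.2) →
      RkL k b c.2 → PM M c.2 c.1 → lb e k a.2 ≤ lb e k c.2 ∧ a.1 ≠ c.1 := by
    rintro s a c ⟨N, hN⟩ h1 h2
    constructor
    · have h3 : c.2 = (N ++ [(s, a.1)]) ++ a.2 := by rw [hN]; simp
      rw [h3] at h1 ⊢
      exact lb_mono h1
    · exact h2.2 (s, a.1) (by rw [hN]; simp)
  have hmono : LT.AllN (fun a l r => AllL (fun c => lb e k a.2 ≤ lb e k c.2 ∧ a.1 ≠ c.1) l ∧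
      AllL (fun c => lb e k a.2 ≤ lb e k c.2 ∧ a.1 ≠ c.1) r) T2 := by
    have key : ∀ t : LT (ℝ × List (Bool × ℝ)), Cx t → AllL (fun a => PM M a.2 a.1) t →
        AllL (fun a => RkL k b a.2) t →
        LT.AllN (fun a l r => AllL (fun c => lb e k a.2 ≤ lb e k c.2 ∧ a.1 ≠ c.1) l ∧
          AllL (fun c => lb e k a.2 ≤ lb e k c.2 ∧ a.1 ≠ c.1) r) t := by
      intro t
      induction t with
      | leaf i => intro _ _ _; trivial
      | node a l r hl hr =>
        intro h1 h2 h3
        refine ⟨⟨?_, ?_⟩, hl h1.2.1 h2.2.1 h3.2.1, hr h1.2.2 h2.2.2 h3.2.2⟩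
        · refine ((h1.1.1.and h2.2.1).and h3.2.1).imp ?_
          rintro c ⟨⟨k1, k2⟩, k3⟩
          exact pairs false a c k1 k3 k2
        · refine ((h1.1.2.and h2.2.2).and h3.2.2).imp ?_
          rintro c ⟨⟨k1, k2⟩, k3⟩
          exact pairs true a c k1 k3 k2
    exact key T2 hCx2 hP2 hR2
  have hLinc : LT.AllN (fun a l _ => AllL (fun c => lb e k a.2 < lb e k c.2 → Dr e a.1 c.1) l)
      T2 := by
    have key : ∀ t : LT (ℝ × List (Bool × ℝ)), Cx t → AllL (fun a => PM M a.2 a.1) t →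
        AllL (fun a => Iv e k a = i) t →
        LT.AllN (fun a l _ => AllL (fun c => lb e k a.2 < lb e k c.2 → Dr e a.1 c.1) l) t := by
      intro t
      induction t with
      | leaf i => intro _ _ _; trivial
      | node a l r hl hr =>
        intro h1 h2 h3
        refine ⟨?_, hl h1.2.1 h2.2.1 h3.2.1, hr h1.2.2 h2.2.2 h3.2.2⟩
        refine ((h1.1.1.and h2.2.1).and h3.2.1).imp ?_
        rintro c ⟨⟨⟨N, hN⟩, k2⟩, k3⟩ hlt
        have hne : a.1 ≠ c.1 := k2.2 (false, a.1) (by rw [hN]; simp)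
        rcases dr_or (e := e) hne with h | h
        · exact h
        · exfalso
          rw [hN] at hlt
          have h4 := iv_lt (k := k) h hlt
          have h5 : Iv e k (c.1, c.2) = i := k3
          have h6 : Iv e k (a.1, a.2) = i := h3.1
          rw [hN] at h5
          omega
    exact key T2 hCx2 hP2 hiv
  -- types
  obtain ⟨c, hc, T3, d1, d2⟩ := exists_colorV (m := 2) (t := T2)
    (fun c a _ r => (c = 0 ∧ AllL (fun q => lb e k a.2 < lb e k q.2 → Dr e a.1 q.1) r) ∨
      (c = 1 ∧ ¬ AllL (fun q => lb e k a.2 < lb e k q.2 → Dr e a.1 q.1) r))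
    (fun _ => n)
    ((AllN.of_forall (P := fun _ _ _ => True) (fun _ _ _ => trivial) _).imp (by
      intro a l r _
      by_cases h : AllL (fun q => lb e k a.2 < lb e k q.2 → Dr e a.1 q.1) r
      · exact ⟨0, by norm_num, Or.inl ⟨rfl, h⟩⟩
      · exact ⟨1, by norm_num, Or.inr ⟨rfl, h⟩⟩)) c2 (by
      rw [Finset.sum_const, Finset.card_range, smul_eq_mul]; omega)
  have d3 := d1.top
  have dB : Sub (fun _ _ _ => True) (mp Prod.fst T3) B := by
    have h1 := (a1.trans (c3.trans d3)).mp (f := Prod.fst)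
    rwa [← unc_eq (ctx [] B), unc_ctx] at h1
  interval_cases c
  · -- chains
    right
    refine ⟨mp (fun a => (a.1, lb e k a.2)) T3, by rw [mp_mp]; exact dB, comp_mp d2, ?_, ?_⟩
    · have h1 : LT.AllN (fun a l r => AllL (fun c => lb e k a.2 ≤ lb e k c.2 ∧
          (lb e k a.2 < lb e k c.2 → Dr e a.1 c.1)) l ∧ AllL (fun c => lb e k a.2 ≤ lb e k c.2 ∧
          (lb e k a.2 < lb e k c.2 → Dr e a.1 c.1)) r) T3 := by
        refine d1.allN (hmono.and hLinc) ?_
        rintro a l r l' r' hc ⟨⟨h1, h2⟩, h3⟩ hl hr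
        refine ⟨(hl.allL (h1.and h3)).imp (fun c hc => ⟨hc.1.1, hc.2⟩), ?_⟩
        rcases hc with ⟨_, hc⟩ | ⟨hc, _⟩
        · exact (hr.allL (h2.and hc)).imp (fun c hc => ⟨hc.1.1, hc.2⟩)
        · exact absurd hc (by norm_num)
      have key : ∀ t : LT (ℝ × List (Bool × ℝ)), LT.AllN (fun a l r => AllL (fun c =>
          lb e k a.2 ≤ lb e k c.2 ∧ (lb e k a.2 < lb e k c.2 → Dr e a.1 c.1)) l ∧
          AllL (fun c => lb e k a.2 ≤ lb e k c.2 ∧
          (lb e k a.2 < lb e k c.2 → Dr e a.1 c.1)) r) t →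
          ChE e (mp (fun a => (a.1, lb e k a.2)) t) := by
        intro t
        induction t with
        | leaf i => intro _; trivial
        | node a l r hl hr =>
          intro h
          exact ⟨⟨allL_mp.2 h.1.1, allL_mp.2 h.1.2⟩, hl h.2.1, hr h.2.2⟩
      exact key T3 h1
    · rintro Z hZ ⟨β, hβ⟩
      obtain ⟨Z', z1, rfl⟩ := Sub.of_mp hZ
      rw [mp_mp]
      have z2 := allL_mp.1 hβ
      have z3 := c3.trans (d3.trans z1)
      have h1 := rk_block (Z := Z') (b := b) hk (β := β) (Cx.sub (d3.trans z1) hCx2) (by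
        rw [← he]
        refine (((z3.allL b2).and (z3.allL a3)).and z2).imp ?_
        rintro a ⟨⟨k1, k2⟩, k3⟩
        exact ⟨k1, k2, k3⟩) (W := []) (by simp) (by
        exact (AllL.imp z2 (fun _ _ => trivial)))
      rw [← he] at h1
      exact h1
  · -- left-good trees
    left
    refine ⟨mp Prod.fst T3, dB, comp_mp d2, ?_⟩
    have key : ∀ (a : ℝ × List (Bool × ℝ)) (l' l : LT (ℝ × List (Bool × ℝ))),
        Sub (fun a _ r => ((1 : ℕ) = 0 ∧ AllL (fun q => lb e k a.2 < lb e k q.2 → Dr e a.1 q.1) r) ∨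
          ((1 : ℕ) = 1 ∧ ¬ AllL (fun q => lb e k a.2 < lb e k q.2 → Dr e a.1 q.1) r)) l' l →
        AllL (fun c => (lb e k a.2 < lb e k c.2 → Dr e a.1 c.1) ∧
          (lb e k a.2 ≤ lb e k c.2 ∧ a.1 ≠ c.1)) l →
        AllL (fun c => Dr e a.1 c.1) l' := by
      intro a l' l h
      induction h with
      | leaf i => intro _; trivial
      | left u r _ ih => intro h; exact ih h.2.1
      | right u r _ ih => intro h; exact ih h.2.2
      | @node u l1 r1 l1' r1' hc _ _ ihl ihr =>
        intro h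
        refine ⟨?_, ihl h.2.1, ihr h.2.2⟩
        rcases hc with ⟨hc, _⟩ | ⟨_, hc⟩
        · exact absurd hc (by norm_num)
        · by_contra hcon
          apply hc
          have hua : Dr e u.1 a.1 := by
            rcases dr_or (e := e) h.1.2.2 with h' | h'
            · exact absurd h' hcon
            · exact h'
          refine h.2.2.imp ?_
          rintro q ⟨k1, _, _⟩ hlt
          exact dr_tr hua (k1 (lt_of_le_of_lt h.1.2.1 hlt))
    have h1 : LT.AllN (fun a l _ => AllL (fun c => Dr e a.1 c.1) l) T3 := by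
      refine d1.allN (hmono.and hLinc) ?_
      rintro a l r l' r' _ ⟨⟨h1, _⟩, h3⟩ hl _
      exact key a l' l hl (h3.and h1)
    have key2 : ∀ t : LT (ℝ × List (Bool × ℝ)),
        LT.AllN (fun a l _ => AllL (fun c => Dr e a.1 c.1) l) t →
        LT.AllN (fun x l _ => AllL (Dr e x) l) (mp Prod.fst t) := by
      intro t
      induction t with
      | leaf i => intro _; trivial
      | node a l r hl hr =>
        intro h
        exact ⟨allL_mp.2 h.1, hl h.2.1, hr h.2.2⟩
    exact key2 T3 h1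

end Lb

end Pool.Agent.H595K
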