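import Mathlib
import Pool.Agent.H595K.KStep
import Pool.Agent.H595K.JRec

/-!
# Chains of classes
-/

namespace Pool.Agent.H595K.Lb

open LT

theorem comp_drop' {α : Type} {a : ℕ} : ∀ (b : ℕ) {t : LT α}, Comp (a + b) t →
    ∃ t', Sub (fun _ _ _ => True) t' t ∧ Comp a t' := by
  intro b
  induction b with
  | zero => intro t h; exact ⟨t, Sub.refl _, h⟩
  | succ b ih =>
    intro t h
    cases t with
    | leaf i => exact absurd h (by simp [Comp, ← add_assoc])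
    | node x l r =>
      obtain ⟨t', h1, h2⟩ := ih (t := l) h.1
      exact ⟨t', Sub.left _ _ h1, h2⟩

/-- the exits of the upper part `Z` of `G` -/
def GA (Q : LT (ℝ × WithBot ℝ) → Prop) (β : WithBot ℝ) :
    LT (ℝ × WithBot ℝ) → LT (ℝ × WithBot ℝ) → Prop
  | leaf i, t => Sub (fun _ _ _ => True) (leaf i) t ∧ Q t ∧ AllL (fun a => β < a.2) t
  | node _ _ _, leaf _ => False
  | node a l r, node a' l' r' => a = a' ∧ a.2 = β ∧ GA Q β l l' ∧ GA Q β r r'

theorem GA.sub {Q : LT (ℝ × WithBot ℝ) → Prop} {β : WithBot ℝ} {Z : LT (ℝ × WithBot ℝ)} :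
    ∀ {G : LT (ℝ × WithBot ℝ)}, GA Q β Z G → Sub (fun _ _ _ => True) Z G := by
  induction Z with
  | leaf i => intro G h; exact h.1
  | node a l r hl hr =>
    intro G h
    cases G with
    | leaf i => exact h.elim
    | node a' l' r' =>
      obtain ⟨rfl, _, h1, h2⟩ := h
      exact Sub.node trivial (hl h1) (hr h2)

theorem GA.single {Q : LT (ℝ × WithBot ℝ) → Prop} {β : WithBot ℝ} {Z : LT (ℝ × WithBot ℝ)} :
    ∀ {G : LT (ℝ × WithBot ℝ)}, GA Q β Z G → AllL (fun a => a.2 = β) Z := by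
  induction Z with
  | leaf i => intro G _; trivial
  | node a l r hl hr =>
    intro G h
    cases G with
    | leaf i => exact h.elim
    | node a' l' r' => exact ⟨h.2.1, hl h.2.2.1, hr h.2.2.2⟩

theorem GA.imp {Q Q' : LT (ℝ × WithBot ℝ) → Prop} {β : WithBot ℝ} (hQ : ∀ t, Q t → Q' t)
    {Z : LT (ℝ × WithBot ℝ)} :
    ∀ {G : LT (ℝ × WithBot ℝ)}, GA Q β Z G → GA Q' β Z G := by
  induction Z with
  | leaf i => intro G h; exact ⟨h.1, hQ _ h.2.1, h.2.2⟩
  | node a l r hl hr =>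
    intro G h
    cases G with
    | leaf i => exact h
    | node a' l' r' => exact ⟨h.1, h.2.1, hl h.2.2.1, hr h.2.2.2⟩

theorem GA.bt {Q : LT (ℝ × WithBot ℝ) → Prop} {β : WithBot ℝ} {P : ℝ × WithBot ℝ → Prop}
    {P' : ℝ → Prop} (hP : ∀ c, P c → β < c.2 → P' c.1) {Z : LT (ℝ × WithBot ℝ)} :
    ∀ {G : LT (ℝ × WithBot ℝ)}, GA Q β Z G → AllL P G →
      Bt P' (mp Prod.fst Z) (mp Prod.fst G) := by
  induction Z with
  | leaf i =>
    intro G h hA
    show AllL P' (mp Prod.fst G)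
    rw [allL_mp]
    exact (hA.and h.2.2).imp (fun c hc => hP c hc.1 hc.2)
  | node a l r hl hr =>
    intro G h hA
    cases G with
    | leaf i => exact h.elim
    | node a' l' r' => exact ⟨hl h.2.2.1 hA.2.1, hr h.2.2.2 hA.2.2⟩

theorem GA.gr {Q : LT (ℝ × WithBot ℝ) → Prop} {Q' : LT ℝ → Prop} {β : WithBot ℝ} {e : Bool}
    (hQ : ∀ t, Q t → Q' (mp Prod.fst t)) {Z : LT (ℝ × WithBot ℝ)} :
    ∀ {G : LT (ℝ × WithBot ℝ)}, GA Q β Z G → ChE e G →
      Gr Q' e (mp Prod.fst Z) (mp Prod.fst G) := by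
  induction Z with
  | leaf i => intro G h _; exact hQ _ h.2.1
  | node a l r hl hr =>
    intro G h hC
    cases G with
    | leaf i => exact h.elim
    | node a' l' r' =>
      obtain ⟨rfl, h0, h1, h2⟩ := h
      obtain ⟨⟨c1, c2⟩, c3, c4⟩ := hC
      refine ⟨rfl, ?_, ?_, hl h1 c3, hr h2 c4⟩
      · exact h1.bt (fun c hc hlt => hc.2 (by rw [h0]; exact hlt)) c1
      · exact h2.bt (fun c hc hlt => hc.2 (by rw [h0]; exact hlt)) c2

/-- the upper levels -/
theorem top_levels {e : Bool} {β : WithBot ℝ} {v r : ℕ} {Done : Prop} (j : ℕ) :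
    ∀ (t : LT (ℝ × WithBot ℝ)), Comp (j + r) t → AllL (fun a => β ≤ a.2) t → ChE e t →
    (∀ u, Sub (fun _ _ _ => True) u t → Comp r u → Done ∨
      ∃ u', Sub (fun _ _ _ => True) u' u ∧ Comp v u' ∧ AllL (fun a => β < a.2) u') →
    Done ∨ (1 ≤ j ∧ ∃ u, Sub (fun _ _ _ => True) u t ∧ Comp (r + 1) u ∧
      AllL (fun a => β < a.2) u) ∨
      ∃ Z G, Sub (fun _ _ _ => True) G t ∧ Comp j Z ∧ GA (Comp v) β Z G := by
  induction j with
  | zero =>
    intro t ht _ _ h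
    rw [Nat.zero_add] at ht
    rcases h t (Sub.refl _) ht with h | ⟨u, h1, h2, h3⟩
    · exact Or.inl h
    · obtain ⟨i, hi⟩ := exists_leaf u
      exact Or.inr (Or.inr ⟨leaf i, u, h1, trivial, hi, h2, h3⟩)
  | succ j ih =>
    intro t ht hA hC h
    rw [show j + 1 + r = (j + r) + 1 by ring] at ht
    cases t with
    | leaf i => exact absurd ht (by simp [Comp])
    | node a l r0 =>
      rcases lt_or_eq_of_le hA.1 with h0 | h0
      · right; left
        have h1 : AllL (fun c => β < c.2) (node a l r0) :=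
          ⟨h0, hC.1.1.imp (fun c hc => lt_of_lt_of_le h0 hc.1),
            hC.1.2.imp (fun c hc => lt_of_lt_of_le h0 hc.1)⟩
        have ht' : Comp ((r + 1) + j) (node a l r0) := by
          rw [show r + 1 + j = (j + r) + 1 by ring]; exact ht
        obtain ⟨u, u1, u2⟩ := comp_drop' j ht'
        exact ⟨by omega, u, u1, u2, u1.allL h1⟩
      · rcases ih l ht.1 hA.2.1 hC.2.1 (fun u hu => h u (Sub.left _ _ hu)) with
          k | ⟨_, u, k1, k2, k3⟩ | ⟨Z1, G1, k1, k2, k3⟩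
        · exact Or.inl k
        · exact Or.inr (Or.inl ⟨by omega, u, Sub.left _ _ k1, k2, k3⟩)
        · rcases ih r0 ht.2 hA.2.2 hC.2.2 (fun u hu => h u (Sub.right _ _ hu)) with
            p | ⟨_, u, p1, p2, p3⟩ | ⟨Z2, G2, p1, p2, p3⟩
          · exact Or.inl p
          · exact Or.inr (Or.inl ⟨by omega, u, Sub.right _ _ p1, p2, p3⟩)
          · exact Or.inr (Or.inr ⟨node a Z1 Z2, node a G1 G2, Sub.node trivial k1 p1, ⟨k2, p2⟩,
              rfl, h0.symm, k3, p3⟩)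

/-- blocks with exits -/
def Blk (β : WithBot ℝ) (q n : ℕ) (t : LT (ℝ × WithBot ℝ)) : Prop :=
  ∃ s, 1 ≤ s ∧ s ≤ q ∧ ∃ Z G, Sub (fun _ _ _ => True) G t ∧ Comp s Z ∧
    GA (Comp (n - 4 * s)) β Z G

theorem Blk.mono {β : WithBot ℝ} {q n : ℕ} {t' t : LT (ℝ × WithBot ℝ)} (h : Blk β q n t')
    (hs : Sub (fun _ _ _ => True) t' t) : Blk β q n t := by
  obtain ⟨s, h1, h2, Z, G, h3, h4, h5⟩ := h
  exact ⟨s, h1, h2, Z, G, hs.trans h3, h4, h5⟩

theorem blk_aux {e : Bool} {β : WithBot ℝ} {q n : ℕ} (hq1 : 1 ≤ q) (hqn : 4 * q ≤ n) (N : ℕ) :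
    ∀ (j : ℕ) (t : LT (ℝ × WithBot ℝ)), n ≤ j + N → 1 ≤ j → j ≤ n → Comp (n - j) t →
    AllL (fun a => β ≤ a.2) t → ChE e t →
    (∀ Z, Sub (fun _ _ _ => True) Z t → Comp q Z → ¬ AllL (fun a => a.2 = β) Z) →
    Blk β q n t ∨ ∃ u, Sub (fun _ _ _ => True) u t ∧ Comp (n - 2 * j) u ∧
      AllL (fun a => β < a.2) u := by
  induction N with
  | zero =>
    intro j t hjN hj hjn _ _ _ _
    right
    obtain ⟨i, hi⟩ := exists_leaf t
    refine ⟨leaf i, hi, ?_, trivial⟩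
    rw [show n - 2 * j = 0 by omega]; trivial
  | succ N ih =>
    intro j t hjN hj hjn ht hA hC hq
    by_cases h1 : n ≤ 2 * j
    · right
      obtain ⟨i, hi⟩ := exists_leaf t
      refine ⟨leaf i, hi, ?_, trivial⟩
      rw [show n - 2 * j = 0 by omega]; trivial
    · push Not at h1
      by_cases h2 : q ≤ j
      · -- the upper `q` levels
        have ht' : Comp (q + (n - j - q)) t := by
          rw [show q + (n - j - q) = n - j by omega]; exact ht
        rcases top_levels (v := 0) (Done := False) q t ht' hA hC (by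
          intro u _ _
          right
          obtain ⟨i, hi⟩ := exists_leaf u
          exact ⟨leaf i, hi, trivial, trivial⟩) with k | ⟨_, u, k1, k2, k3⟩ | ⟨Z, G, k1, k2, k3⟩
        · exact k.elim
        · right
          have k2' : Comp ((n - 2 * j) + (n - j - q + 1 - (n - 2 * j))) u := by
            rw [show n - 2 * j + (n - j - q + 1 - (n - 2 * j)) = n - j - q + 1 by omega]
            exact k2
          obtain ⟨u', u1, u2⟩ := comp_drop' _ k2'
          exact ⟨u', k1.trans u1, u2, u1.allL k3⟩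
        · exact absurd k3.single (hq Z (k1.trans k3.sub) k2)
      · push Not at h2
        have ht' : Comp (j + (n - 2 * j)) t := by
          rw [show j + (n - 2 * j) = n - j by omega]; exact ht
        rcases top_levels (v := n - 4 * j) (Done := Blk β q n t) j t ht' hA hC (by
          intro u hu hcu
          rcases ih (2 * j) u (by omega) (by omega) (by omega) hcu (hu.allL hA) (ChE.sub hu hC)
            (fun Z hZ => hq Z (hu.trans hZ)) with h | ⟨u', u1, u2, u3⟩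
          · exact Or.inl (h.mono hu)
          · rw [show n - 2 * (2 * j) = n - 4 * j by omega] at u2
            exact Or.inr ⟨u', u1, u2, u3⟩) with k | ⟨_, u, k1, k2, k3⟩ | ⟨Z, G, k1, k2, k3⟩
        · exact Or.inl k
        · right
          have k2' : Comp ((n - 2 * j) + 1) u := k2
          obtain ⟨u', u1, u2⟩ := comp_drop' _ k2'
          exact ⟨u', k1.trans u1, u2, u1.allL k3⟩
        · exact Or.inl ⟨j, hj, h2.le, Z, G, k1, k2, k3⟩

theorem exists_blk {e : Bool} {q n : ℕ} (hq1 : 1 ≤ q) (hqn : 4 * q ≤ n)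
    {t : LT (ℝ × WithBot ℝ)} (ht : Comp n t) (hC : ChE e t)
    (hq : ∀ Z, Sub (fun _ _ _ => True) Z t → Comp q Z → ∀ β, ¬ AllL (fun a => a.2 = β) Z) :
    ∃ β, Blk β q n t := by
  obtain ⟨n', rfl⟩ : ∃ n', n = n' + 1 := ⟨n - 1, by omega⟩
  cases t with
  | leaf i => exact absurd ht (by simp [Comp])
  | node a l r =>
    refine ⟨a.2, ?_⟩
    have hl := blk_aux (β := a.2) hq1 hqn (n' + 1) 1 l (by omega) le_rfl (by omega)
      (by rw [Nat.add_sub_cancel]; exact ht.1) (hC.1.1.imp (fun c hc => hc.1)) hC.2.1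
      (fun Z hZ hc => hq Z (Sub.left _ _ hZ) hc _)
    have hr := blk_aux (β := a.2) hq1 hqn (n' + 1) 1 r (by omega) le_rfl (by omega)
      (by rw [Nat.add_sub_cancel]; exact ht.2) (hC.1.2.imp (fun c hc => hc.1)) hC.2.2
      (fun Z hZ hc => hq Z (Sub.right _ _ hZ) hc _)
    rcases hl with hl | ⟨u1, p1, p2, p3⟩
    · exact hl.mono (Sub.left _ _ (Sub.refl _))
    rcases hr with hr | ⟨u2, q1, q2, q3⟩
    · exact hr.mono (Sub.right _ _ (Sub.refl _))
    have p2' : Comp ((n' + 1 - 4 * 1) + 2) u1 := by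
      rw [show n' + 1 - 4 * 1 + 2 = n' + 1 - 2 * 1 by omega]; exact p2
    have q2' : Comp ((n' + 1 - 4 * 1) + 2) u2 := by
      rw [show n' + 1 - 4 * 1 + 2 = n' + 1 - 2 * 1 by omega]; exact q2
    obtain ⟨v1, x1, x2⟩ := comp_drop' _ p2'
    obtain ⟨v2, y1, y2⟩ := comp_drop' _ q2'
    obtain ⟨i, hi⟩ := exists_leaf v1
    obtain ⟨i', hi'⟩ := exists_leaf v2
    exact ⟨1, le_rfl, hq1, node a (leaf i) (leaf i'), node a v1 v2,
      Sub.node trivial (p1.trans x1) (q1.trans y1), ⟨trivial, trivial⟩, rfl, rfl,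
      ⟨hi, x2, x1.allL p3⟩, ⟨hi', y2, y1.allL q3⟩⟩

/-- **The block-chain lemma.** -/
theorem block_chain {e : Bool} {X : LT (ℝ × WithBot ℝ)} {kept : Finset ℕ} {w : ℕ → ℝ}
    (hw : ∀ c, 0 ≤ w c) {Kc : ℕ → ℕ} {q R : ℕ} (hq1 : 1 ≤ q) (hC : ChE e X)
    (hq : ∀ Z, Sub (fun _ _ _ => True) Z X → Comp q Z → ∀ β, ¬ AllL (fun a => a.2 = β) Z)
    (hR : 4 * q + 2 ≤ R)
    (hblk : ∀ β s Z G, 1 ≤ s → s ≤ q → Comp s Z → Sub (fun _ _ _ => True) G X →
      GA (fun u => ∃ N, Comp (N + 2) u) β Z G → ∃ c ∈ kept, ∃ Y n0,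
        Sub (fun _ _ _ => True) Y (mp Prod.fst Z) ∧ Comp n0 Y ∧ WB [e] (Kc c) [] Y ∧
        4 * (kept.card : ℝ) * s ≤ w c * n0) :
    ∀ (n : ℕ) (t : LT (ℝ × WithBot ℝ)), Sub (fun _ _ _ => True) t X → Comp n t →
      ∀ nn : ℕ → ℕ, (∀ c ∈ kept, ¬ ∃ Y, Sub (fun _ _ _ => True) Y (mp Prod.fst t) ∧
        Comp (nn c + 1) Y ∧ WB [e] (Kc c) [] Y) →
      (kept.card : ℝ) * ((n : ℝ) - R) ≤ ∑ c ∈ kept, w c * nn c := by
  classical
  intro n
  induction n using Nat.strong_induction_on with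
  | _ n ih =>
  intro t ht hn nn hnn
  have hsum0 : 0 ≤ ∑ c ∈ kept, w c * (nn c : ℝ) :=
    Finset.sum_nonneg (fun c _ => mul_nonneg (hw c) (Nat.cast_nonneg _))
  rcases Nat.lt_or_ge R n with hRn | hRn
  swap
  · have h1 : (n : ℝ) - R ≤ 0 := by
      have : (n : ℝ) ≤ R := by exact_mod_cast hRn
      linarith
    have h2 : (kept.card : ℝ) * ((n : ℝ) - R) ≤ 0 :=
      mul_nonpos_of_nonneg_of_nonpos (Nat.cast_nonneg _) h1
    linarith
  obtain ⟨β, s, hs1, hsq, Z, G, g1, g2, g3⟩ := exists_blk hq1 (by omega) hn (ChE.sub ht hC)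
    (fun Z hZ => hq Z (ht.trans hZ))
  obtain ⟨c0, hc0, Y, n0, y1, y2, y3, y4⟩ := hblk β s Z G hs1 hsq g2 (ht.trans g1)
    (g3.imp (fun u hu => ⟨n - 4 * s - 2, by
      rw [show n - 4 * s - 2 + 2 = n - 4 * s by omega]; exact hu⟩))
  have hGr : Gr (Comp (n - 4 * s)) e (mp Prod.fst Z) (mp Prod.fst G) :=
    g3.gr (fun u hu => comp_mp hu) (ChE.sub (ht.trans g1) hC)
  obtain ⟨Y0, p1, p2, _⟩ := hGr.select (em_of_sub y1)
  have hGt : Sub (fun _ _ _ => True) (mp Prod.fst G) (mp Prod.fst t) := g1.mp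
  -- gluing
  have glue : ∀ v, (∀ B', Comp (n - 4 * s) B' → Sub (fun _ _ _ => True) B' Y0 →
      ∃ Y', Sub (fun _ _ _ => True) Y' B' ∧ (Comp v Y' ∧ WB [e] (Kc c0) [] Y')) →
      ∃ Y1, Sub (fun _ _ _ => True) Y1 (mp Prod.fst t) ∧ Comp (n0 + v) Y1 ∧
        WB [e] (Kc c0) [] Y1 := by
    intro v hb
    obtain ⟨Y1, r1, r2, _⟩ := p2.map hb
    refine ⟨Y1, (hGt.trans p1).trans r1, Gr.comp y2 (r2.imp (fun t h => h.1)), ?_⟩
    exact wb_gr (Q := fun t => Comp v t ∧ WB [e] (Kc c0) [] t)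
      (fun t h => h.2) y3 r2 (bt_of_allL r2 (allL_triv (by simp) Y1))
  have hn0 : n0 ≤ nn c0 := by
    by_contra hcon
    push Not at hcon
    obtain ⟨Y1, z1, z2, z3⟩ := glue 0 (by
      intro B' _ _
      obtain ⟨i, hi⟩ := exists_leaf B'
      exact ⟨leaf i, hi, trivial, trivial⟩)
    obtain ⟨Y2, x1, x2⟩ := comp_le' (a := nn c0 + 1) (by omega) z2
    exact hnn c0 hc0 ⟨Y2, z1.trans x1, x2, z3.sub x1 (List.Sublist.refl _)⟩
  by_cases hb : ∀ B', Comp (n - 4 * s) B' → Sub (fun _ _ _ => True) B' Y0 →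
      ∃ Y', Sub (fun _ _ _ => True) Y' B' ∧ (Comp (nn c0 - n0 + 1) Y' ∧ WB [e] (Kc c0) [] Y')
  · exfalso
    obtain ⟨Y1, z1, z2, z3⟩ := glue _ hb
    rw [show n0 + (nn c0 - n0 + 1) = nn c0 + 1 by omega] at z2
    exact hnn c0 hc0 ⟨Y1, z1, z2, z3⟩
  · push Not at hb
    obtain ⟨B', r1, r2, r3⟩ := hb
    have hB't : Sub (fun _ _ _ => True) B' (mp Prod.fst t) := (hGt.trans p1).trans r2
    obtain ⟨u, u1, rfl⟩ := Sub.of_mp hB't
    have hu := comp_of_mp r1
    have h1 := ih (n - 4 * s) (by omega) u (ht.trans u1) hu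
      (Function.update nn c0 (nn c0 - n0)) (by
        rintro c hc ⟨Y', k1, k2, k3⟩
        by_cases hcc : c = c0
        · subst hcc
          rw [Function.update_self] at k2
          exact r3 Y' k1 k2 k3
        · rw [Function.update_of_ne hcc] at k2
          exact hnn c hc ⟨Y', hB't.trans k1, k2, k3⟩)
    have h2 : ∑ c ∈ kept, w c * (Function.update nn c0 (nn c0 - n0) c : ℕ) =
        ∑ c ∈ kept, w c * (nn c : ℝ) - w c0 * n0 := by
      rw [← Finset.add_sum_erase kept _ hc0, ← Finset.add_sum_erase kept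
        (fun c => w c * (nn c : ℝ)) hc0]
      have h3 : ∑ c ∈ kept.erase c0, w c * (Function.update nn c0 (nn c0 - n0) c : ℕ) =
          ∑ c ∈ kept.erase c0, w c * (nn c : ℝ) := by
        apply Finset.sum_congr rfl
        intro c hc
        rw [Function.update_of_ne (Finset.ne_of_mem_erase hc)]
      rw [h3, Function.update_self, Nat.cast_sub hn0]
      ring
    rw [h2] at h1
    have h3 : ((n - 4 * s : ℕ) : ℝ) = (n : ℝ) - 4 * s := by
      rw [Nat.cast_sub (by omega)]; push_cast; ring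
    rw [h3] at h1
    have h4 : (kept.card : ℝ) * ((n : ℝ) - R) =
        (kept.card : ℝ) * ((n : ℝ) - 4 * s - R) + 4 * (kept.card : ℝ) * s := by ring
    linarith

end Pool.Agent.H595K.Lb
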