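import Mathlib
import Pool.Agent.H595K.KChain

/-!
# The chain step
-/

namespace Pool.Agent.H595K.Lb

open LT

/-- the statement of the recursion for the trees with property `Q` -/
def RecQ (K M H C0 A0 : ℕ) (Q : LT ℝ → Prop) (C : ℝ) : Prop :=
  ∀ (h m : ℕ) (d : Bool) (s : List Bool) (dir : ℕ → Bool) (bud n : ℕ → ℕ) (B : LT ℝ),
    PlanOK C0 A0 h d dir bud → Alt (d :: s) → s.length + h = H → (∀ c < C0, 1 ≤ n c) →
    ∑ c ∈ Finset.range C0, Real.log (n c) + C ≤ A0 * Real.log m → Comp m B →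
    AllC (PM M) [] B → Q B → WB (d :: s) K [] B →
    ∃ c < C0, ∃ X, Sub (fun _ _ _ => True) X B ∧ Comp (n c) X ∧ WB [dir c] (6 * bud c - 1) [] X

theorem no_layer {K H m : ℕ} {d : Bool} {s : List Bool} {B : LT ℝ} (hK : K ≤ 6 * H + 4)
    (hAlt : Alt (d :: s)) (hlen : s.length = H) (hm : 1 ≤ m) (hB : Comp m B)
    (hW : WB (d :: s) K [] B) : False := by
  obtain ⟨m', rfl⟩ : ∃ m', m = m' + 1 := ⟨m - 1, by omega⟩
  cases B with
  | leaf i => exact absurd hB (by simp [Comp])
  | node x l r =>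
    obtain ⟨W1, p1⟩ := exists_pl l
    obtain ⟨W2, p2⟩ := exists_pl r
    have h3 := six_le hAlt (by simp) (hW.1 W1 W2 p1 p2)
    rw [List.length_cons] at h3
    omega

theorem sum_log_nonneg {C0 : ℕ} {n : ℕ → ℕ} (hn : ∀ c < C0, 1 ≤ n c) :
    0 ≤ ∑ c ∈ Finset.range C0, Real.log (n c) := by
  apply Finset.sum_nonneg
  intro c hc
  apply Real.log_nonneg
  exact_mod_cast hn c (Finset.mem_range.1 hc)

theorem cs_core {K M H C0 A0 N q m h1 : ℕ} {Q : LT ℝ → Prop} {C1 : ℝ}
    (hQ : RecQ K M H C0 A0 Q C1) (hK : K ≤ 6 * H + 4) (hA0 : 1 ≤ A0) (hC0 : 1 ≤ C0) {e : Bool}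
    {s1 : List Bool} {dir1 : ℕ → Bool} {bud1 n : ℕ → ℕ} {X : LT (ℝ × WithBot ℝ)} {Goal : Prop}
    (hplan : PlanOK C0 A0 h1 e dir1 bud1) (hAlt : Alt (e :: s1)) (hlen : s1.length + h1 = H)
    (hn : ∀ c < C0, 1 ≤ n c) (hX : Comp N X) (hC : ChE e X) (hq1 : 1 ≤ q)
    (hq : ∀ Z, Sub (fun _ _ _ => True) Z X → Comp q Z → ∀ β, ¬ AllL (fun a => a.2 = β) Z)
    (hNR : 4 * q + 2 < N) (hm : (m : ℝ) / 8 ≤ (N : ℝ) - (4 * q + 2)) (hqm : q ≤ m)
    (hPM : AllC (PM M) [] (mp Prod.fst X))
    (hsingle : ∀ Z, Sub (fun _ _ _ => True) Z X → (∃ β, AllL (fun a => a.2 = β) Z) →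
      Q (mp Prod.fst Z))
    (hWB : ∀ β s Z G, 1 ≤ s → Comp s Z → Sub (fun _ _ _ => True) G X →
      GA (fun u => ∃ N, Comp (N + 2) u) β Z G → WB (e :: s1) K [] (mp Prod.fst Z))
    (hgoal : ∀ c < C0, ∀ Y, Sub (fun _ _ _ => True) Y (mp Prod.fst X) → Comp (n c) Y →
      WB [dir1 c] (6 * bud1 c - 1) [] Y → Goal)
    (hsum : ∑ c ∈ Finset.range C0, Real.log (n c) + (C1 + C0 * Real.log (64 * C0)) ≤
      A0 * Real.log m) : Goal := by
  classical
  by_contra hG
  have hmpos : (0 : ℝ) < m := by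
    have : 1 ≤ m := hq1.trans hqm
    exact_mod_cast this
  have hC0r : (1 : ℝ) ≤ C0 := by exact_mod_cast hC0
  rcases Nat.eq_zero_or_pos h1 with h0 | h0
  · subst h0
    obtain ⟨β, s, k1, k2, Z, G, k3, k4, k5⟩ := exists_blk hq1 (by omega) hX hC hq
    exact no_layer hK hAlt (by omega) k1 (comp_mp k4) (hWB β s Z G k1 k4 k3
      (k5.imp (fun u hu => ⟨N - 4 * s - 2, by
        rw [show N - 4 * s - 2 + 2 = N - 4 * s by omega]; exact hu⟩)))
  obtain ⟨h2, rfl⟩ : ∃ h2, h1 = h2 + 1 := ⟨h1 - 1, by omega⟩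
  obtain ⟨hcard, hbud, _⟩ := id hplan
  set kept := (Finset.range C0).filter (fun c => dir1 c = e) with hkept
  have hkne : kept.Nonempty := by
    rw [← Finset.card_pos]; omega
  have hκ1 : (1 : ℝ) ≤ kept.card := by
    have : 1 ≤ kept.card := hA0.trans hcard
    exact_mod_cast this
  have hκA : (A0 : ℝ) ≤ kept.card := by exact_mod_cast hcard
  have hκC : (kept.card : ℝ) ≤ C0 := by
    have : kept.card ≤ C0 := by
      calc kept.card ≤ (Finset.range C0).card := Finset.card_filter_le _ _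
        _ = C0 := Finset.card_range C0
    exact_mod_cast this
  obtain ⟨W, hW⟩ : ∃ W : ℝ, W = (N : ℝ) - (4 * q + 2) := ⟨_, rfl⟩
  rw [← hW] at hm
  have hWpos : 0 < W := lt_of_lt_of_le (by positivity) hm
  have hnr : ∀ c < C0, (1 : ℝ) ≤ n c := fun c hc => by exact_mod_cast hn c hc
  have hmemC : ∀ c ∈ kept, c < C0 := fun c hc => Finset.mem_range.1 (Finset.mem_filter.1 hc).1
  have hmemE : ∀ c ∈ kept, dir1 c = e := fun c hc => (Finset.mem_filter.1 hc).2
  by_cases hend : ∃ c ∈ kept, ∃ Y, Sub (fun _ _ _ => True) Y (mp Prod.fst X) ∧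
      Comp (n c) Y ∧ WB [e] (6 * bud1 c - 1) [] Y
  · obtain ⟨c, hc, Y, y1, y2, y3⟩ := hend
    exact hG (hgoal c (hmemC c hc) Y y1 y2 (by rw [hmemE c hc]; exact y3))
  push Not at hend
  have key := block_chain (e := e) (X := X) (kept := kept) (w := fun c => W / n c)
    (fun c => div_nonneg hWpos.le (Nat.cast_nonneg _)) (Kc := fun c => 6 * bud1 c - 1) hq1 hC hq
    (R := 4 * q + 2) le_rfl (by
      intro β s Z G hs1 hsq hZ hG' hGA
      have hZX : Sub (fun _ _ _ => True) Z X := hG'.trans hGA.sub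
      have hs : (1 : ℝ) ≤ s := by exact_mod_cast hs1
      by_cases h5 : ∃ c ∈ kept, 4 * (kept.card : ℝ) * s * n c ≤ W
      · obtain ⟨c, hc, h5⟩ := h5
        have hc0 := hmemC c hc
        have h6 := hnr c hc0
        cases Z with
        | leaf i =>
          obtain ⟨s', rfl⟩ : ∃ s', s = s' + 1 := ⟨s - 1, by omega⟩
          exact absurd hZ (by simp [Comp])
        | node a l r =>
          obtain ⟨i, hi⟩ := exists_leaf (mp Prod.fst l)
          obtain ⟨j, hj⟩ := exists_leaf (mp Prod.fst r)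
          refine ⟨c, hc, node a.1 (leaf i) (leaf j), 1, Sub.node trivial hi hj,
            ⟨trivial, trivial⟩, ?_, ?_⟩
          · refine WB.mono ?_ wb_single
            have := hbud c hc0
            omega
          · rw [Nat.cast_one, mul_one, le_div_iff₀ (by linarith)]
            exact h5
      · push Not at h5
        obtain ⟨n1, hn1⟩ : ∃ n1 : ℕ → ℕ, n1 = fun c => if dir1 c = e then
          ⌈4 * (kept.card : ℝ) * s * n c / W⌉₊ else n c := ⟨_, rfl⟩
        have hn1pos : ∀ c < C0, 1 ≤ n1 c := by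
          intro c hc
          rw [hn1]
          dsimp only
          split_ifs with h6
          · have := hnr c hc
            exact Nat.ceil_pos.2 (by positivity)
          · exact hn c hc
        have hkey : ∀ c ∈ Finset.range C0, Real.log (n1 c) ≤ Real.log (n c) +
            (if dir1 c = e then ((Real.log s - Real.log m) + Real.log (64 * C0)) else 0) := by
          intro c hc
          have hc' := Finset.mem_range.1 hc
          by_cases h6 : dir1 c = e
          · rw [if_pos h6]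
            have h7 := hnr c hc'
            have h8 := h5 c (Finset.mem_filter.2 ⟨hc, h6⟩)
            have h9 : (n1 c : ℝ) ≤ 64 * C0 * s * n c / m := by
              have e1 : n1 c = ⌈4 * (kept.card : ℝ) * s * n c / W⌉₊ := by
                rw [hn1]; dsimp only; rw [if_pos h6]
              rw [e1]
              have h10 : (1 : ℝ) < 4 * (kept.card : ℝ) * s * n c / W := by
                rw [lt_div_iff₀ hWpos]; linarith
              have h11 := (Nat.ceil_lt_add_one (show 0 ≤ 4 * (kept.card : ℝ) * s * n c / W by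
                positivity)).le
              have h12 : 8 * (kept.card : ℝ) * s * n c / W ≤ 64 * C0 * s * n c / m := by
                rw [div_le_div_iff₀ hWpos hmpos]
                have h13 : (kept.card : ℝ) * m ≤ C0 * (8 * W) := by
                  apply mul_le_mul hκC _ hmpos.le (by linarith)
                  linarith
                have h14 : 0 ≤ (s : ℝ) * n c := by positivity
                nlinarith [mul_le_mul_of_nonneg_right h13 h14]
              have h15 : 8 * (kept.card : ℝ) * s * n c / W =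
                  4 * (kept.card : ℝ) * s * n c / W + 4 * (kept.card : ℝ) * s * n c / W := by ring
              linarith
            have h10 : (0 : ℝ) < n1 c := by
              have := hn1pos c hc'
              exact_mod_cast this
            have h11 := Real.log_le_log h10 h9
            rw [Real.log_div (by positivity) hmpos.ne', Real.log_mul (by positivity)
              (by linarith), Real.log_mul (by positivity) (by linarith)] at h11
            linarith
          · rw [if_neg h6]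
            have e1 : n1 c = n c := by
              rw [hn1]; dsimp only; rw [if_neg h6]
            rw [e1]; linarith
        have hs' : Real.log s ≤ Real.log m := by
          apply Real.log_le_log (by linarith)
          exact_mod_cast hsq.trans hqm
        have hl64 : 0 ≤ Real.log (64 * C0) := Real.log_nonneg (by linarith)
        have hsum1 : ∑ c ∈ Finset.range C0, Real.log (n1 c) + C1 ≤ A0 * Real.log s := by
          have h6 := Finset.sum_le_sum hkey
          rw [Finset.sum_add_distrib, ← Finset.sum_filter, Finset.sum_const, nsmul_eq_mul] at h6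
          have h7 : (kept.card : ℝ) * (Real.log s - Real.log m) ≤
              A0 * (Real.log s - Real.log m) :=
            mul_le_mul_of_nonpos_right hκA (by linarith)
          have h8 : (kept.card : ℝ) * Real.log (64 * C0) ≤ C0 * Real.log (64 * C0) :=
            mul_le_mul_of_nonneg_right hκC hl64
          have h9 : (kept.card : ℝ) * ((Real.log s - Real.log m) + Real.log (64 * C0)) =
            (kept.card : ℝ) * (Real.log s - Real.log m) +
              (kept.card : ℝ) * Real.log (64 * C0) := by ring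
          rw [h9] at h6
          linarith
        obtain ⟨c, hc, Y, y1, y2, y3⟩ := hQ (h2 + 1) s e s1 dir1 bud1 n1 (mp Prod.fst Z) hplan hAlt
          hlen hn1pos hsum1 (comp_mp hZ)
          (AllC.sub pm_sublist hZX.mp (List.Sublist.refl _) hPM)
          (hsingle Z hZX ⟨β, hGA.single⟩) (hWB β s Z G hs1 hZ hG' hGA)
        by_cases h6 : dir1 c = e
        · have e1 : n1 c = ⌈4 * (kept.card : ℝ) * s * n c / W⌉₊ := by
            rw [hn1]; dsimp only; rw [if_pos h6]
          refine ⟨c, Finset.mem_filter.2 ⟨Finset.mem_range.2 hc, h6⟩, Y, n1 c, y1, y2, ?_, ?_⟩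
          · rw [← h6]; exact y3
          · have h7 := Nat.le_ceil (4 * (kept.card : ℝ) * s * n c / W)
            rw [← e1] at h7
            have h8 := hnr c hc
            have h9 := mul_le_mul_of_nonneg_left h7 (show 0 ≤ W / n c by positivity)
            have h10 : W / (n c : ℝ) * (4 * (kept.card : ℝ) * s * n c / W) =
                4 * (kept.card : ℝ) * s := by
              have : (n c : ℝ) ≠ 0 := by linarith
              field_simp
            rw [h10] at h9
            exact h9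
        · exfalso
          have e1 : n1 c = n c := by
            rw [hn1]; dsimp only; rw [if_neg h6]
          rw [e1] at y2
          exact hG (hgoal c hc Y (hZX.mp.trans y1) y2 y3))
    N X (Sub.refl _) hX (fun c => n c - 1) (by
      rintro c hc ⟨Y, y1, y2, y3⟩
      have := hn c (hmemC c hc)
      rw [show n c - 1 + 1 = n c by omega] at y2
      exact hend c hc Y y1 y2 y3)
  have h3 : ∑ c ∈ kept, W / (n c : ℝ) * ((n c - 1 : ℕ) : ℝ) < ∑ _c ∈ kept, W := by
    apply Finset.sum_lt_sum_of_nonempty hkne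
    intro c hc
    have h4 := hnr c (hmemC c hc)
    rw [Nat.cast_sub (hn c (hmemC c hc)), Nat.cast_one, div_mul_eq_mul_div, div_lt_iff₀ (by linarith)]
    nlinarith
  rw [Finset.sum_const, nsmul_eq_mul] at h3
  have h4 : (N : ℝ) - ((4 * q + 2 : ℕ) : ℝ) = W := by rw [hW]; push_cast; ring
  rw [h4] at key
  linarith

/-- **The chain step.** -/
theorem chain_step {K M H C0 A0 : ℕ} {Q : LT ℝ → Prop} {C1 : ℝ} (hC1 : 0 < C1)
    (hQ : RecQ K M H C0 A0 Q C1) (hK : K ≤ 6 * H + 4) (hA0 : 1 ≤ A0) (hAC : A0 ≤ C0) :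
    ∃ C, 0 < C ∧ RecQ K M H C0 A0 (fun B => ∃ e X, mp Prod.fst X = B ∧ ChE e X ∧
      ∀ Z, Sub (fun _ _ _ => True) Z X → (∃ β, AllL (fun a => a.2 = β) Z) →
        Q (mp Prod.fst Z)) C := by
  classical
  have hC0 : 1 ≤ C0 := hA0.trans hAC
  have hC0r : (1 : ℝ) ≤ C0 := by exact_mod_cast hC0
  have hA0r : (1 : ℝ) ≤ A0 := by exact_mod_cast hA0
  have hl64 : 0 ≤ Real.log (64 * C0) := Real.log_nonneg (by linarith)
  have hl1000 : 0 ≤ Real.log 1000 := Real.log_nonneg (by norm_num)
  refine ⟨C1 + C0 * Real.log (64 * C0) + A0 * Real.log 1000, by positivity, ?_⟩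
  rintro h m d s dir bud n B hplan hAlt hlen hn hsum hB hP ⟨e, X, rfl, hC, hsingle⟩ hW
  have hS0 := sum_log_nonneg hn
  have hm1000 : 1000 ≤ m := by
    have h1 : (A0 : ℝ) * Real.log 1000 ≤ A0 * Real.log m := by
      have : 0 ≤ (C0 : ℝ) * Real.log (64 * C0) := by positivity
      linarith
    have h2 : Real.log 1000 ≤ Real.log m := le_of_mul_le_mul_left h1 (by linarith)
    by_contra hcon
    push Not at hcon
    rcases Nat.eq_zero_or_pos m with h0 | h0
    · rw [h0] at h2
      simp only [Nat.cast_zero, Real.log_zero] at h2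
      have : 0 < Real.log 1000 := Real.log_pos (by norm_num)
      linarith
    · have h3 : Real.log m < Real.log 1000 :=
        Real.log_lt_log (by exact_mod_cast h0) (by exact_mod_cast hcon)
      linarith
  rcases Nat.eq_zero_or_pos h with h0 | h0
  · subst h0
    exact (no_layer hK hAlt (by omega) (by omega) hB hW).elim
  obtain ⟨h', rfl⟩ : ∃ h', h = h' + 1 := ⟨h - 1, by omega⟩
  obtain ⟨hcard, hbud, dir', bud', htr, hplan'⟩ := id hplan
  obtain ⟨hq1, hlq⟩ := floor_log (Z := 16) (m := m) (by norm_num) (by omega)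
  obtain ⟨q, hq⟩ : ∃ q, q = m / 16 := ⟨_, rfl⟩
  rw [← hq] at hq1 hlq
  have hXm : Comp m X := comp_of_mp hB
  by_cases hbig : ∃ Z, Sub (fun _ _ _ => True) Z X ∧ Comp q Z ∧ ∃ β, AllL (fun a => a.2 = β) Z
  · obtain ⟨Z, z1, z2, z3⟩ := hbig
    obtain ⟨c, hc, Y, y1, y2, y3⟩ := hQ (h' + 1) q d s dir bud n (mp Prod.fst Z) hplan hAlt hlen
      hn (by
        have h1 : Real.log (2 * ((16 : ℕ) : ℝ)) ≤ Real.log 1000 := by
          apply Real.log_le_log (by norm_num)
          norm_num
        have h2 : (A0 : ℝ) * Real.log m ≤ A0 * (Real.log q + Real.log 1000) :=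
          mul_le_mul_of_nonneg_left (by linarith) (by linarith)
        have h3 : 0 ≤ (C0 : ℝ) * Real.log (64 * C0) := by positivity
        linarith) (comp_mp z2)
      (AllC.sub pm_sublist z1.mp (List.Sublist.refl _) hP) (hsingle Z z1 z3)
      (hW.sub z1.mp (List.Sublist.refl _))
    exact ⟨c, hc, Y, z1.mp.trans y1, y2, y3⟩
  push Not at hbig
  -- the two upper nodes
  obtain ⟨m2, hm2⟩ : ∃ m2, m = m2 + 2 := ⟨m - 2, by omega⟩
  rw [hm2] at hXm
  cases X with
  | leaf i => exact absurd hXm (by simp [Comp])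
  | node g1 l1 b0 =>
  cases l1 with
  | leaf i => exact absurd hXm.1 (by simp [Comp])
  | node g2 p x0 =>
  have hx0 : Comp m2 x0 := hXm.1.2
  have hx0X : Sub (fun _ _ _ => True) x0 (node g1 (node g2 p x0) b0) :=
    Sub.left _ _ (Sub.right _ _ (Sub.refl _))
  have hcls : AllL (fun c => g2.2 ≤ c.2 ∧ (g2.2 < c.2 → Dr e g2.1 c.1)) x0 := hC.2.1.1.2
  have hcls1 : AllL (fun c => g1.2 ≤ c.2 ∧ (g1.2 < c.2 → Dr e g1.1 c.1)) x0 := hC.1.1.2.2
  have hg12 : g1.2 ≤ g2.2 := hC.1.1.1.1
  obtain ⟨X', hX'0, hX'c, hX'cls⟩ : ∃ X', Sub (fun _ _ _ => True) X' x0 ∧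
      Comp (m / 2 + 1) X' ∧ AllL (fun c => g2.2 < c.2) X' := by
    obtain ⟨c, hc, t', k1, k2⟩ := exists_colorV (m := 2) (t := x0)
      (fun c a _ _ => (c = 0 ∧ a.2 = g2.2) ∨ (c = 1 ∧ g2.2 < a.2))
      (fun c => if c = 0 then q else m / 2)
      ((LT.allN_of_allL hcls).imp (by
        intro a l r ha
        rcases lt_or_eq_of_le ha.1 with h1 | h1
        · exact ⟨1, by norm_num, Or.inr ⟨rfl, h1⟩⟩
        · exact ⟨0, by norm_num, Or.inl ⟨rfl, h1.symm⟩⟩)) hx0 (by
        simp [Finset.sum_range_succ]; omega)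
    have k3 := allL_sub' k1
    interval_cases c
    · exfalso
      have k2 : Comp (q + 1) t' := by simpa using k2
      obtain ⟨t'', j1, j2⟩ := comp_drop' 1 k2
      refine hbig t'' (hx0X.trans (k1.top.trans j1)) j2 g2.2 (j1.allL (k3.imp ?_))
      rintro a (⟨_, h⟩ | ⟨h, _⟩)
      · exact h
      · exact absurd h (by norm_num)
    · refine ⟨t', k1.top, by simpa using k2, k3.imp ?_⟩
      rintro a (⟨h, _⟩ | ⟨_, h⟩)
      · exact absurd h (by norm_num)
      · exact h
  have hX'X : Sub (fun _ _ _ => True) X' (node g1 (node g2 p x0) b0) := hx0X.trans hX'0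
  have hd1 : AllL (fun c => Dr e g1.1 c.1) X' :=
    ((hX'0.allL hcls1).and hX'cls).imp (fun c hc => hc.1.2 (lt_of_le_of_lt hg12 hc.2))
  have hd2 : AllL (fun c => Dr e g2.1 c.1) X' :=
    ((hX'0.allL hcls).and hX'cls).imp (fun c hc => hc.1.2 hc.2)
  have hCX' : ChE e X' := ChE.sub hX'X hC
  have hPX' : AllC (PM M) [] (mp Prod.fst X') :=
    AllC.sub pm_sublist hX'X.mp (List.Sublist.refl _) hP
  have hqX' : ∀ Z, Sub (fun _ _ _ => True) Z X' → Comp q Z → ∀ β, ¬ AllL (fun a => a.2 = β) Z :=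
    fun Z hZ hc β hβ => hbig Z (hX'X.trans hZ) hc β hβ
  have hsX' : ∀ Z, Sub (fun _ _ _ => True) Z X' → (∃ β, AllL (fun a => a.2 = β) Z) →
      Q (mp Prod.fst Z) := fun Z hZ h => hsingle Z (hX'X.trans hZ) h
  have hNR : 4 * q + 2 < m / 2 + 1 := by omega
  have hmr : (m : ℝ) / 8 ≤ ((m / 2 + 1 : ℕ) : ℝ) - (4 * q + 2) := by
    have h1 : m + 8 * (4 * q + 2) ≤ 8 * (m / 2 + 1) := by omega
    have h2 : (m : ℝ) + 8 * (4 * q + 2) ≤ 8 * ((m / 2 + 1 : ℕ) : ℝ) := by exact_mod_cast h1
    linarith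
  have hsum' : ∑ c ∈ Finset.range C0, Real.log (n c) + (C1 + C0 * Real.log (64 * C0)) ≤
      A0 * Real.log m := by
    have : 0 ≤ (A0 : ℝ) * Real.log 1000 := by positivity
    linarith
  by_cases hed : e = d
  · subst hed
    refine cs_core (Goal := ∃ c < C0, ∃ X, Sub (fun _ _ _ => True) X
      (mp Prod.fst (node g1 (node g2 p x0) b0)) ∧ Comp (n c) X ∧
      WB [dir c] (6 * bud c - 1) [] X) hQ hK hA0 hC0 hplan hAlt hlen hn hX'c hCX' hq1 hqX' hNR hmr
      (by omega) hPX' hsX' ?_ ?_ hsum'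
    · intro β s' Z G _ _ hG hGA
      exact hW.sub (hX'X.trans (hG.trans hGA.sub)).mp (List.Sublist.refl _)
    · intro c hc Y y1 y2 y3
      exact ⟨c, hc, Y, hX'X.mp.trans y1, y2, y3⟩
  · have hed' : e = !d := by
      cases e <;> cases d <;> simp_all
    subst hed'
    refine cs_core (Goal := ∃ c < C0, ∃ X, Sub (fun _ _ _ => True) X
      (mp Prod.fst (node g1 (node g2 p x0) b0)) ∧ Comp (n c) X ∧
      WB [dir c] (6 * bud c - 1) [] X) (s1 := d :: s) hQ hK hA0 hC0 hplan' ⟨by simp, hAlt⟩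
      (by simp; omega) hn hX'c hCX' hq1 hqX' hNR hmr
      (by omega) hPX' hsX' ?_ ?_ hsum'
    · intro β s' Z G _ _ hG hGA
      have hGr : Gr (fun t => ∃ N, Comp (N + 2) t) (!d) (mp Prod.fst Z) (mp Prod.fst G) :=
        hGA.gr (fun u ⟨N, hu⟩ => ⟨N, comp_mp hu⟩) (ChE.sub hG hCX')
      refine wb_sandwich (s := d :: s) (v1 := g1.1) (v2 := g2.1) (a := mp Prod.fst p)
        (b := mp Prod.fst b0) (fun t ht => ht) hGr ?_ ?_ ?_
      · rw [allL_mp]; exact hG.allL hd1
      · rw [allL_mp]; exact hG.allL hd2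
      · exact hW.sub (Sub.node trivial (Sub.node trivial (Sub.refl _) (hX'0.trans hG).mp)
          (Sub.refl _)) (List.Sublist.refl _)
    · intro c hc Y y1 y2 y3
      refine ⟨c, hc, Y, hX'X.mp.trans y1, y2, ?_⟩
      obtain ⟨t1, t2⟩ := htr c hc
      rcases t2 with ⟨t2, t3⟩ | t2
      · rw [← t2]
        exact y3.mono (by omega)
      · exact (y3.turn (d' := dir c)).mono (by omega)

end Pool.Agent.H595K.Lb
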