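import Mathlib
import Pool.Agent.H595K.KCs
import Pool.Agent.H595K.LtCore

/-!
# Left-good trees are chains of pure trees
-/

namespace Pool.Agent.H595K.Lb

open LT

theorem an_le (x : ℝ) (L : List ℝ) (hL : ∀ y ∈ L, y ≠ x) :
    an x L ≤ ch (L.map (fun y => decide (y < x))) + 1 ∧
    (an x L % 2 = 1 → (L.map (fun y => decide (y < x))).head? = some true) ∧
    (an x L % 2 = 0 → (L.map (fun y => decide (y < x))).head? ≠ some true) := by
  induction L with
  | nil => rw [an_nil]; simp
  | cons y L ih =>
    obtain ⟨h1, h2, h3⟩ := ih (fun z hz => hL z (List.mem_cons_of_mem _ hz))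
    have hy : y ≠ x := hL y (by simp)
    rw [List.map_cons]
    rcases lt_or_gt_of_ne hy with hlt | hlt
    · have e1 : decide (y < x) = true := by simpa using hlt
      rw [e1]
      rcases Nat.mod_two_eq_zero_or_one (an x L) with h0 | h0
      · rw [(an_cons x y L).1 (Or.inl ⟨hlt, h0⟩)]
        refine ⟨?_, fun _ => rfl, fun h => by omega⟩
        have h4 := h3 h0
        cases hs : L.map (fun y => decide (y < x)) with
        | nil =>
          have : L = [] := by simpa using hs
          subst this
          rw [an_nil]; simp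
        | cons c s =>
          rw [hs] at h1 h4
          have hc : true ≠ c := by
            rintro rfl
            exact h4 rfl
          rw [ch_head_ne hc]
          omega
      · rw [(an_cons x y L).2 (by
          rintro (⟨_, h⟩ | ⟨h, _⟩)
          · omega
          · linarith)]
        refine ⟨?_, fun _ => rfl, fun h => by omega⟩
        have := ch_le_cons true (L.map (fun y => decide (y < x)))
        omega
    · have e1 : decide (y < x) = false := by simpa using hlt.le
      rw [e1]
      rcases Nat.mod_two_eq_zero_or_one (an x L) with h0 | h0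
      · rw [(an_cons x y L).2 (by
          rintro (⟨h, _⟩ | ⟨_, h⟩)
          · linarith
          · omega)]
        refine ⟨?_, fun h => by omega, fun _ => by simp⟩
        have := ch_le_cons false (L.map (fun y => decide (y < x)))
        omega
      · rw [(an_cons x y L).1 (Or.inr ⟨hlt, h0⟩)]
        refine ⟨?_, fun h => by omega, fun _ => by simp⟩
        have h4 := h2 h0
        cases hs : L.map (fun y => decide (y < x)) with
        | nil => rw [hs] at h4; simp at h4
        | cons c s =>
          rw [hs] at h1 h4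
          simp only [List.head?_cons, Option.some.injEq] at h4
          subst h4
          rw [ch_head_ne (by simp)]
          omega

theorem ann_lt_pm {M : ℕ} {t : LT ℝ} : ∀ {W : List (Bool × ℝ)}, AllC (PM M) W t →
    AllL (fun u => u.2 < M + 2) (ann ((W.filter (fun w => w.1 == true)).map Prod.snd) t) := by
  induction t with
  | leaf i => intro W _; trivial
  | node x l r hl hr =>
    intro W h
    refine ⟨?_, ?_, ?_⟩
    · have h1 := (an_le x ((W.filter (fun w => w.1 == true)).map Prod.snd) (by
        intro y hy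
        obtain ⟨w, hw, rfl⟩ := List.mem_map.1 hy
        exact h.1.2 w (List.mem_filter.1 hw).1)).1
      have h2 : ch (((W.filter (fun w => w.1 == true)).map Prod.snd).map
          (fun y => decide (y < x))) ≤ M := by
        rw [List.map_map]
        have := h.1.1
        unfold chs at this
        have h3 : (W.filter (fun w => w.1 == true)).map
            ((fun y => decide (y < x)) ∘ Prod.snd) = rowc true x W := rfl
        rw [h3]
        omega
      show an x _ < M + 2
      omega
    · have := hl h.2.1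
      simpa using this
    · have := hr h.2.2
      simpa using this

theorem dst_of_pm {M : ℕ} {t : LT ℝ} : ∀ {W : List (Bool × ℝ)}, AllC (PM M) W t →
    Dst t ∧ AllL (fun u => ∀ w ∈ W, w.2 ≠ u) t := by
  induction t with
  | leaf i => intro W _; exact ⟨trivial, trivial⟩
  | node x l r hl hr =>
    intro W h
    obtain ⟨l1, l2⟩ := hl h.2.1
    obtain ⟨r1, r2⟩ := hr h.2.2
    refine ⟨⟨⟨l2.imp ?_, r2.imp ?_⟩, l1, r1⟩, h.1.2, l2.imp ?_, r2.imp ?_⟩
    · intro u hu; exact (hu (false, x) (by simp)).symm
    · intro u hu; exact (hu (true, x) (by simp)).symm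
    · intro u hu w hw; exact hu w (List.mem_cons_of_mem _ hw)
    · intro u hu w hw; exact hu w (List.mem_cons_of_mem _ hw)

open scoped Classical in
/-- the largest smaller label -/
noncomputable def btm (L : List ℝ) (x : ℝ) : WithBot ℝ :=
  (L.toFinset.filter (fun z => z < x)).sup (fun z => (z : WithBot ℝ))

theorem le_btm {L : List ℝ} {x z : ℝ} (h : z ∈ L) (hz : z < x) : (z : WithBot ℝ) ≤ btm L x := by
  classical
  unfold btm
  apply Finset.le_sup (f := fun z : ℝ => (z : WithBot ℝ))
  rw [Finset.mem_filter]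
  exact ⟨by simpa using h, hz⟩

theorem btm_le {L : List ℝ} {x : ℝ} {β : WithBot ℝ} (h : ∀ z ∈ L, z < x → (z : WithBot ℝ) ≤ β) :
    btm L x ≤ β := by
  classical
  unfold btm
  apply Finset.sup_le
  intro z hz
  rw [Finset.mem_filter] at hz
  exact h z (by simpa using hz.1) hz.2

theorem btm_lt (L : List ℝ) (x : ℝ) : btm L x < (x : WithBot ℝ) := by
  classical
  unfold btm
  rw [Finset.sup_lt_iff (WithBot.bot_lt_coe _)]
  intro z hz
  exact WithBot.coe_lt_coe.2 (Finset.mem_filter.1 hz).2

/-- the classes of the nodes -/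
noncomputable def cls : List ℝ → LT ℝ → LT (ℝ × WithBot ℝ)
  | _, leaf i => leaf i
  | L, node x l r => node (x, btm L x) (cls L l) (cls (x :: L) r)

theorem mp_cls (t : LT ℝ) : ∀ L, mp Prod.fst (cls L t) = t := by
  induction t with
  | leaf i => intro L; rfl
  | node x l r hl hr => intro L; simp only [cls, mp, hl, hr]

theorem cls_one {x : ℝ} {L : List ℝ} (s : LT ℝ) : ∀ (L' : List ℝ), (∀ z ∈ L, z ∈ L') →
    (∀ z ∈ L, z < x → AllL (fun y => z < y) s) → AllL (fun c => btm L x ≤ c.2) (cls L' s) := by
  induction s with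
  | leaf i => intro L' _ _; trivial
  | node y l r hl hr =>
    intro L' h1 h2
    refine ⟨?_, hl L' h1 (fun z hz hzx => (h2 z hz hzx).2.1),
      hr (y :: L') (fun z hz => List.mem_cons_of_mem _ (h1 z hz))
        (fun z hz hzx => (h2 z hz hzx).2.2)⟩
    show btm L x ≤ btm L' y
    exact btm_le (fun z hz hzx => le_btm (h1 z hz) (h2 z hz hzx).1)

theorem cls_two {x : ℝ} {L : List ℝ} (s : LT ℝ) : ∀ (N : List ℝ), AllL (fun u => u ≠ x) s →
    (∀ w ∈ N, w < x → AllL (fun u => u < w ∨ x < u) s) → Ly x s →
    AllL (fun c => btm L x < c.2 → x < c.1) (cls (N ++ x :: L) s) := by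
  induction s with
  | leaf i => intro N _ _ _; trivial
  | node y l r hl hr =>
    intro N h1 h2 h3
    refine ⟨?_, hl N h1.2.1 (fun w hw hwx => (h2 w hw hwx).2.1) h3.2.1, ?_⟩
    · intro hlt
      by_contra hcon
      have hyx : y < x := lt_of_le_of_ne (not_lt.1 hcon) h1.1
      have h4 : btm (N ++ x :: L) y ≤ btm L x := by
        apply btm_le
        intro z hz hzy
        rcases List.mem_append.1 hz with hz | hz
        · rcases (h2 z hz (hzy.trans hyx)).1 with h | h
          · linarith
          · linarith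
        · rcases List.mem_cons.1 hz with rfl | hz
          · linarith
          · exact le_btm hz (hzy.trans hyx)
      exact absurd hlt (not_lt.2 h4)
    · have := hr (y :: N) h1.2.2 (by
        intro w hw hwx
        rcases List.mem_cons.1 hw with rfl | hw
        · exact h3.1 hwx
        · exact (h2 w hw hwx).2.2) h3.2.2
      exact this

theorem cls_three {x : ℝ} {L : List ℝ} (s : LT ℝ) : ∀ (L' : List ℝ), x ∈ L' →
    AllL (fun c => x < c.1 → btm L x < c.2) (cls L' s) := by
  induction s with
  | leaf i => intro L' _; trivial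
  | node y l r hl hr =>
    intro L' h1
    refine ⟨fun h => lt_of_lt_of_le (btm_lt L x) (le_btm h1 h), hl L' h1,
      hr _ (List.mem_cons_of_mem _ h1)⟩

theorem cls_lab {P : ℝ → Prop} {s : LT ℝ} (h : AllL P s) : ∀ (L' : List ℝ),
    AllL (fun c => P c.1) (cls L' s) := by
  induction s with
  | leaf i => intro L'; trivial
  | node y l r hl hr => intro L'; exact ⟨h.1, hl h.2.1 _, hr h.2.2 _⟩

theorem cls_chain {t : LT ℝ} : ∀ (L : List ℝ), LG t → Lm t → Lay t → Dst t →
    (∀ z ∈ L, Cl z t) → ChE true (cls L t) ∧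
    LT.AllN (fun a l r => AllL (fun c => a.1 < c.1) l ∧
      AllL (fun c => (a.1 < c.1 → a.2 < c.2) ∧ c.1 ≠ a.1) r) (cls L t) := by
  induction t with
  | leaf i => intro L _ _ _ _ _; exact ⟨trivial, trivial⟩
  | node x l r hl hr =>
    intro L h1 h2 h3 h4 h5
    obtain ⟨l1, l2⟩ := hl L h1.2.1 h2.2.1 h3.2.1 h4.2.1 (fun z hz => (h5 z hz).2.1)
    obtain ⟨r1, r2⟩ := hr (x :: L) h1.2.2 h2.2.2 h3.2.2 h4.2.2 (by
      intro z hz
      rcases List.mem_cons.1 hz with rfl | hz
      · exact h2.1
      · exact (h5 z hz).2.2)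
    have hLG : AllL (fun c => x < c.1) (cls L l) := cls_lab h1.1 L
    refine ⟨⟨⟨?_, ?_⟩, l1, r1⟩, ⟨⟨hLG, ?_⟩, l2, r2⟩⟩
    · have k1 := cls_one (x := x) (L := L) l L (fun z hz => hz) (by
        intro z hz hzx
        exact AllL.imp h1.1 (fun y hy => hzx.trans hy))
      exact (k1.and hLG).imp (fun c hc => ⟨hc.1, fun _ => hc.2⟩)
    · have k1 := cls_one (x := x) (L := L) r (x :: L) (fun z hz => List.mem_cons_of_mem _ hz) (by
        intro z hz hzx
        exact ((h5 z hz).1 hzx).2)
      have k2 := cls_two (x := x) (L := L) r [] h4.1.2 (by simp) h3.1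
      exact (k1.and k2).imp (fun c hc => ⟨hc.1, hc.2⟩)
    · have k1 := cls_three (x := x) (L := L) r (x :: L) (by simp)
      have k2 := cls_lab h4.1.2 (x :: L)
      exact (k1.and k2).imp (fun c hc => hc)

theorem pure_of_single {Z : LT (ℝ × WithBot ℝ)} {β : WithBot ℝ} (h : LT.AllN (fun a l r =>
    AllL (fun c => a.1 < c.1) l ∧ AllL (fun c => (a.1 < c.1 → a.2 < c.2) ∧ c.1 ≠ a.1) r) Z)
    (hβ : AllL (fun a => a.2 = β) Z) : PP true (mp Prod.fst Z) := by
  induction Z with
  | leaf i => trivial
  | node a l r hl hr =>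
    refine ⟨⟨?_, ?_⟩, hl h.2.1 hβ.2.1, hr h.2.2 hβ.2.2⟩
    · rw [allL_mp]; exact h.1.1
    · rw [allL_mp]
      refine (h.1.2.and hβ.2.2).imp ?_
      rintro c ⟨⟨k1, k2⟩, k3⟩
      have h0 : a.2 = β := hβ.1
      have : ¬ a.1 < c.1 := fun h' => by
        have := k1 h'
        rw [k3, h0] at this
        exact lt_irrefl _ this
      have h5 : c.1 < a.1 := lt_of_le_of_ne (not_lt.1 this) k2
      simpa [Dr] using h5

/-- **Left-good trees contain large chains of pure trees.** -/
theorem lay_true {M n : ℕ} {t : LT ℝ} (hn : Comp (2 * ((M + 2) * n + 1)) t)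
    (hP : AllC (PM M) [] t) (hLG : LT.AllN (fun x l _ => AllL (Dr true x) l) t) :
    ∃ X : LT (ℝ × WithBot ℝ), Sub (fun _ _ _ => True) (mp Prod.fst X) t ∧ Comp (n + 1) X ∧
      ChE true X ∧ ∀ Z, Sub (fun _ _ _ => True) Z X → (∃ β, AllL (fun a => a.2 = β) Z) →
        PP true (mp Prod.fst Z) := by
  have hLG' : LG t := hLG.imp (fun x l r h => h)
  have hD := (dst_of_pm hP).1
  obtain ⟨t1, a1, a2, a3, _⟩ := lam_exists t (2 * ((M + 2) * n + 1)) ((M + 2) * n + 1) ∅ hLG' hn
    (by simp)
  have hD1 := dst_sub a1 hD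
  have hP1 : AllC (PM M) [] t1 := AllC.sub pm_sublist a1 (List.Sublist.refl _) hP
  have h1 : AllL (fun u => u.2 < M + 2) (ann [] t1) := by
    have := ann_lt_pm hP1
    simpa using this
  have h2 := p3_ann t1 [] a3 hD1 (by simp)
  obtain ⟨c, _, t2, b1, b2⟩ := exists_color (fun (p : ℝ × ℕ) _ _ => p.2) (D := n)
    (LT.allN_of_allL h1) (comp_ann [] a2) (by omega)
  have b3 := sub_strip b1
  rw [strip_ann] at b3
  have hP3 := p3_sub b1 h2
  have hcol : AllL (fun p => p.2 = c) t2 := allL_sub' b1
  have hLG3 := LG.sub (a1.trans b3) hLG'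
  have hLm3 := Lm.sub b3 a3
  have hD3 := dst_sub b3 hD1
  have hLay := lay_strip hP3 hcol hD3
  obtain ⟨c1, c2⟩ := cls_chain [] hLG3 hLm3 hLay hD3 (by simp)
  have hcs : ∀ (t : LT ℝ) (n : ℕ) (L : List ℝ), Comp n t → Comp n (cls L t) := by
    intro t n L h
    apply comp_of_mp (f := Prod.fst)
    rw [mp_cls]; exact h
  refine ⟨cls [] (strip t2), ?_, hcs _ _ _ (comp_strip b2), c1, ?_⟩
  · rw [mp_cls]; exact a1.trans b3
  · rintro Z hZ ⟨β, hβ⟩
    refine pure_of_single (β := β) ?_ hβ
    refine hZ.allN c2 ?_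
    rintro a l r l' r' _ ⟨k1, k2⟩ hl hr
    exact ⟨hl.allL k1, hr.allL k2⟩

theorem neg_eq (t : LT ℝ) : neg t = mp (fun x => -x) t := by
  induction t with
  | leaf i => rfl
  | node x l r hl hr => simp only [neg, mp, hl, hr]

theorem pm_neg {M : ℕ} {x : ℝ} {W : List (Bool × ℝ)} (h : PM M W x) :
    PM M (W.map (fun w => (w.1, -w.2))) (-x) := by
  have key : ∀ b : Bool, rowc b (-x) (W.map (fun w => (w.1, -w.2))) =
      (rowc b x W).map not := by
    intro b
    unfold rowc
    rw [List.filter_map, List.map_map, List.map_map]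
    apply List.map_congr_left
    intro w hw
    have hw' := (List.mem_filter.1 hw).1
    have hne := h.2 w hw'
    simp only [Function.comp, neg_lt_neg_iff]
    rcases lt_or_gt_of_ne hne with h1 | h1
    · simp [h1, h1.le]
    · simp [h1, h1.le]
  constructor
  · unfold chs
    rw [key, key, ch_map_not, ch_map_not]
    exact h.1
  · intro w hw
    obtain ⟨w', hw', rfl⟩ := List.mem_map.1 hw
    simp only [ne_eq, neg_inj]
    exact h.2 w' hw'

theorem allC_neg {M : ℕ} {t : LT ℝ} : ∀ {W : List (Bool × ℝ)}, AllC (PM M) W t →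
    AllC (PM M) (W.map (fun w => (w.1, -w.2))) (neg t) := by
  induction t with
  | leaf i => intro W _; trivial
  | node x l r hl hr =>
    intro W h
    exact ⟨pm_neg h.1, hl h.2.1, hr h.2.2⟩

theorem dr_neg {e : Bool} {x y : ℝ} : Dr e (-x) (-y) ↔ Dr (!e) x y := by
  cases e <;> simp [Dr]

/-- both directions -/
theorem lay_all {M n : ℕ} {t : LT ℝ} (e : Bool) (hn : Comp (2 * ((M + 2) * n + 1)) t)
    (hP : AllC (PM M) [] t) (hLG : LT.AllN (fun x l _ => AllL (Dr e x) l) t) :
    ∃ X : LT (ℝ × WithBot ℝ), Sub (fun _ _ _ => True) (mp Prod.fst X) t ∧ Comp (n + 1) X ∧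
      ChE e X ∧ ∀ Z, Sub (fun _ _ _ => True) Z X → (∃ β, AllL (fun a => a.2 = β) Z) →
        PP e (mp Prod.fst Z) := by
  cases e with
  | true => exact lay_true hn hP hLG
  | false =>
    have hLG' : LT.AllN (fun x l _ => AllL (Dr true x) l) (neg t) := by
      have key : ∀ s : LT ℝ, LT.AllN (fun x l _ => AllL (Dr false x) l) s →
          LT.AllN (fun x l _ => AllL (Dr true x) l) (neg s) := by
        intro s
        induction s with
        | leaf i => intro _; trivial
        | node x l r hl hr =>
          intro h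
          refine ⟨?_, hl h.2.1, hr h.2.2⟩
          show AllL (Dr true (-x)) (neg l)
          rw [neg_eq, allL_mp]
          exact AllL.imp h.1 (fun y hy => dr_neg.2 (by simpa using hy))
      exact key t hLG
    obtain ⟨X, h1, h2, h3, h4⟩ := lay_true (comp_neg hn) (allC_neg hP) hLG'
    have hmm : ∀ Z : LT (ℝ × WithBot ℝ), mp Prod.fst (mp (fun a => (-a.1, a.2)) Z) =
        mp (fun x => -x) (mp Prod.fst Z) := by
      intro Z; rw [mp_mp, mp_mp]
    refine ⟨mp (fun a => (-a.1, a.2)) X, ?_, comp_mp h2, ?_, ?_⟩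
    · rw [hmm]
      have := h1.mp (f := fun x => -x)
      rw [← neg_eq (neg t), neg_neg'] at this
      exact this
    · have key : ∀ s : LT (ℝ × WithBot ℝ), ChE true s →
          ChE false (mp (fun a => (-a.1, a.2)) s) := by
        intro s
        induction s with
        | leaf i => intro _; trivial
        | node a l r hl hr =>
          intro h
          refine ⟨⟨?_, ?_⟩, hl h.2.1, hr h.2.2⟩
          · rw [allL_mp]
            exact h.1.1.imp (fun c hc => ⟨hc.1, fun hlt => dr_neg.2 (hc.2 hlt)⟩)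
          · rw [allL_mp]
            exact h.1.2.imp (fun c hc => ⟨hc.1, fun hlt => dr_neg.2 (hc.2 hlt)⟩)
      exact key X h3
    · rintro Z hZ ⟨β, hβ⟩
      obtain ⟨Z', z1, rfl⟩ := Sub.of_mp hZ
      rw [allL_mp] at hβ
      rw [hmm]
      have h5 := h4 Z' z1 ⟨β, hβ⟩
      have key : ∀ s : LT ℝ, PP true s → PP false (mp (fun x => -x) s) := by
        intro s
        induction s with
        | leaf i => intro _; trivial
        | node a l r hl hr =>
          intro h
          refine ⟨⟨?_, ?_⟩, hl h.2.1, hr h.2.2⟩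
          · rw [allL_mp]
            exact h.1.1.imp (fun c hc => dr_neg.2 hc)
          · rw [allL_mp]
            exact h.1.2.imp (fun c hc => dr_neg.2 hc)
      exact key _ h5

end Pool.Agent.H595K.Lb
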