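import Mathlib
import Pool.Agent.H595K.KLay

/-!
# Trees of rank zero
-/

namespace Pool.Agent.H595K.Lb

open LT

/-- chains of classes with property `Q` -/
def Cc (Q : LT ℝ → Prop) (B : LT ℝ) : Prop :=
  ∃ e X, mp Prod.fst X = B ∧ ChE e X ∧
    ∀ Z, Sub (fun _ _ _ => True) Z X → (∃ β, AllL (fun a => a.2 = β) Z) → Q (mp Prod.fst Z)

theorem PP.sub {c : ℝ → LT ℝ → LT ℝ → Prop} {e : Bool} {t' t : LT ℝ} (h : Sub c t' t)
    (hP : PP e t) : PP e t' := by
  refine h.allN hP ?_
  rintro a l r l' r' _ ⟨h1, h2⟩ hl hr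
  exact ⟨hl.allL h1, hr.allL h2⟩

theorem mp_const {β : WithBot ℝ} (B : LT ℝ) :
    mp Prod.fst (mp (fun x => ((x, β) : ℝ × WithBot ℝ)) B) = B := by
  rw [mp_mp]
  induction B with
  | leaf i => rfl
  | node x l r hl hr => simp only [mp, hl, hr]

/-- a pure tree is a chain with one class -/
theorem cc_of_pure {e : Bool} {B : LT ℝ} (h : PP e B) : Cc (fun B => ∃ e, PP e B) B := by
  refine ⟨e, mp (fun x => ((x, (⊥ : WithBot ℝ)) : ℝ × WithBot ℝ)) B, mp_const B, ?_, ?_⟩
  · have key : ∀ t : LT ℝ, ChE e (mp (fun x => ((x, (⊥ : WithBot ℝ)) : ℝ × WithBot ℝ)) t) := by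
      intro t
      induction t with
      | leaf i => trivial
      | node x l r hl hr =>
        refine ⟨⟨?_, ?_⟩, hl, hr⟩
        · rw [allL_mp]
          exact allL_triv (fun y => ⟨le_rfl, fun h => absurd h (lt_irrefl _)⟩) l
        · rw [allL_mp]
          exact allL_triv (fun y => ⟨le_rfl, fun h => absurd h (lt_irrefl _)⟩) r
    exact key B
  · intro Z hZ _
    have h1 := hZ.mp (f := Prod.fst)
    rw [mp_const] at h1
    exact ⟨e, PP.sub h1 h⟩

theorem mp_vl {e : Bool} (B : LT ℝ) :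
    mp Prod.fst (mp (fun x => ((x, ((vl e x : ℝ) : WithBot ℝ)) : ℝ × WithBot ℝ)) B) = B := by
  rw [mp_mp]
  induction B with
  | leaf i => rfl
  | node x l r hl hr => simp only [mp, hl, hr]

/-- a monotone tree is a chain with classes of one node -/
theorem cc_of_mono {e : Bool} {B : LT ℝ}
    (h : LT.AllN (fun x l r => AllL (Dr e x) l ∧ AllL (Dr e x) r) B) :
    Cc (fun B => ∃ e, PP e B) B := by
  refine ⟨e, mp (fun x => ((x, ((vl e x : ℝ) : WithBot ℝ)) : ℝ × WithBot ℝ)) B, mp_vl B, ?_, ?_⟩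
  · have key : ∀ t : LT ℝ, LT.AllN (fun x l r => AllL (Dr e x) l ∧ AllL (Dr e x) r) t →
        ChE e (mp (fun x => ((x, ((vl e x : ℝ) : WithBot ℝ)) : ℝ × WithBot ℝ)) t) := by
      intro t
      induction t with
      | leaf i => intro _; trivial
      | node x l r hl hr =>
        intro h
        refine ⟨⟨?_, ?_⟩, hl h.2.1, hr h.2.2⟩
        · rw [allL_mp]
          exact h.1.1.imp (fun y hy => ⟨WithBot.coe_le_coe.2 (dr_iff.1 hy).le, fun _ => hy⟩)
        · rw [allL_mp]
          exact h.1.2.imp (fun y hy => ⟨WithBot.coe_le_coe.2 (dr_iff.1 hy).le, fun _ => hy⟩)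
    exact key B h
  · rintro Z hZ ⟨β, hβ⟩
    obtain ⟨Z', z1, rfl⟩ := Sub.of_mp hZ
    rw [mp_vl]
    rw [allL_mp] at hβ
    have h1 : LT.AllN (fun x l r => AllL (Dr e x) l ∧ AllL (Dr e x) r) Z' := by
      refine z1.allN h ?_
      rintro a l r l' r' _ ⟨h1, h2⟩ hl hr
      exact ⟨hl.allL h1, hr.allL h2⟩
    refine ⟨e, ?_⟩
    cases Z' with
    | leaf i => trivial
    | node x l r =>
      have key : ∀ y : ℝ, ((vl e y : ℝ) : WithBot ℝ) = β → ¬ Dr e x y := by
        intro y hy hd
        have h2 : ((vl e x : ℝ) : WithBot ℝ) = β := hβ.1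
        rw [← h2] at hy
        have h3 := WithBot.coe_inj.1 hy
        have h4 := dr_iff.1 hd
        linarith
      cases l with
      | node y _ _ => exact absurd h1.1.1.1 (key y hβ.2.1.1)
      | leaf i =>
        cases r with
        | node y _ _ => exact absurd h1.1.2.1 (key y hβ.2.2.1)
        | leaf j => exact ⟨⟨trivial, trivial⟩, trivial, trivial⟩

theorem two_eq {w u z : ℝ} {L N L' : List (Bool × ℝ)} {t : Bool} (h : RkL 0 false L)
    (hL : L = N ++ (t, z) :: L') (hs : [(false, w), (false, u)].Sublist N) :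
    decide (w < z) = decide (u < z) := by
  have h1 := (h N t z L' hL).1
  have h2 := ch_sublist (rowc_sublist z hs)
  have h3 : rowc false z [(false, w), (false, u)] = [decide (w < z), decide (u < z)] := by
    simp [rowc]
  rw [h3] at h2
  by_contra hne
  rw [ch_cons_cons, if_neg hne] at h2
  omega

/-- every second level -/
theorem second_level {M : ℕ} (m : ℕ) : ∀ {t : LT (ℝ × List (Bool × ℝ))}, Comp (2 * m) t → Cx t →
    AllL (fun a => PM M a.2 a.1) t → AllL (fun a => RkL 0 false ((false, a.1) :: a.2)) t →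
    ∃ t', Sub (fun _ _ _ => True) t' t ∧ Comp m t' ∧
      LT.AllN (fun a l r => (∃ e, AllL (fun c => Dr e a.1 c.1) l) ∧
        ∃ e, AllL (fun c => Dr e a.1 c.1) r) t' := by
  induction m with
  | zero =>
    intro t _ _ _ _
    obtain ⟨i, hi⟩ := LT.exists_leaf t
    exact ⟨leaf i, hi, trivial, trivial⟩
  | succ m ih =>
    intro t ht hC hP hR
    rw [show 2 * (m + 1) = 2 * m + 1 + 1 by ring] at ht
    cases t with
    | leaf i => exact absurd ht (by simp [Comp])
    | node z l r =>
      have main : ∀ (b : Bool) (s : LT (ℝ × List (Bool × ℝ))), Comp (2 * m + 1) s → Cx s →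
          AllL (fun a => PM M a.2 a.1) s → AllL (fun a => RkL 0 false ((false, a.1) :: a.2)) s →
          AllL (fun q => ∃ N, q.2 = N ++ (b, z.1) :: z.2) s →
          ∃ s', Sub (fun _ _ _ => True) s' s ∧ Comp m s' ∧
            LT.AllN (fun a l r => (∃ e, AllL (fun c => Dr e a.1 c.1) l) ∧
              ∃ e, AllL (fun c => Dr e a.1 c.1) r) s' ∧ ∃ e, AllL (fun c => Dr e z.1 c.1) s' := by
        intro b s hs hCs hPs hRs hzs
        cases s with
        | leaf i => exact absurd hs (by simp [Comp])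
        | node u s1 s2 =>
          obtain ⟨s', k1, k2, k3⟩ := ih hs.1 hCs.2.1 hPs.2.1 hRs.2.1
          refine ⟨s', Sub.left _ _ k1, k2, k3, !decide (u.1 < z.1), ?_⟩
          apply k1.allL
          refine (((hCs.1.1.and hPs.2.1).and hRs.2.1)).imp ?_
          rintro w ⟨⟨⟨N, hN⟩, hw⟩, hRw⟩
          obtain ⟨N', hN'⟩ := hzs.1
          have hne : w.1 ≠ z.1 := by
            have := hw.2 (b, z.1) (by rw [hN, hN']; simp)
            exact this.symm
          have h1 : decide (w.1 < z.1) = decide (u.1 < z.1) := by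
            refine two_eq hRw (N := (false, w.1) :: (N ++ (false, u.1) :: N')) (t := b)
              (z := z.1) (L' := z.2) (by rw [hN, hN']; simp) ?_
            refine List.Sublist.cons_cons _ ?_
            rw [List.singleton_sublist]
            simp
          refine (letter_high hne).1 ?_
          rw [h1, Bool.not_not]
      obtain ⟨l', a1, a2, a3, a4⟩ := main false l ht.1 hC.2.1 hP.2.1 hR.2.1 hC.1.1
      obtain ⟨r', b1, b2, b3, b4⟩ := main true r ht.2 hC.2.2 hP.2.2 hR.2.2 hC.1.2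
      exact ⟨node z l' r', Sub.node trivial a1 b1, ⟨a2, b2⟩, ⟨a4, b4⟩, a3, b3⟩

/-- **Trees of rank zero.** -/
theorem rank_zero {M n : ℕ} {B : LT ℝ} (hB : Comp (8 * (n + 1)) B) (hP : AllC (PM M) [] B)
    (hR : AllC (fun L _ => RkL 0 false L) [] B) :
    ∃ X, Sub (fun _ _ _ => True) X B ∧ Comp (n + 1) X ∧ Cc (fun B => ∃ e, PP e B) X := by
  classical
  have hT0 : Comp (8 * (n + 1)) (ctx [] B) := comp_ctx [] hB
  have hTP := allL_ctx hP
  have hTR := allL_ctx hR
  have hTC := cx_ctx B []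
  obtain ⟨T1, a1, a2, a3⟩ : ∃ T1, Sub (fun _ _ _ => True) T1 (ctx [] B) ∧
      Comp (2 * (4 * n + 1)) T1 ∧ AllL (fun a => RkL 0 false ((false, a.1) :: a.2)) T1 := by
    obtain ⟨c, hc, t', h1, h2⟩ := exists_colorV (m := 2) (t := ctx [] B)
      (fun c a _ _ => (c = 0 ∧ RkL 0 false ((false, a.1) :: a.2)) ∨
        (c = 1 ∧ ¬ RkL 0 false ((false, a.1) :: a.2)))
      (fun c => if c = 0 then 8 * n + 1 else 1)
      ((AllN.of_forall (P := fun _ _ _ => True) (fun _ _ _ => trivial) _).imp (by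
        intro a l r _
        by_cases h : RkL 0 false ((false, a.1) :: a.2)
        · exact ⟨0, by norm_num, Or.inl ⟨rfl, h⟩⟩
        · exact ⟨1, by norm_num, Or.inr ⟨rfl, h⟩⟩)) hT0 (by
        simp [Finset.sum_range_succ]; omega)
    have h3 := allL_sub' h1
    interval_cases c
    · refine ⟨t', h1.top, by simpa [show 2 * (4 * n + 1) = 8 * n + 1 + 1 by ring] using h2,
        h3.imp ?_⟩
      rintro a (⟨_, h⟩ | ⟨h, _⟩)
      · exact h
      · exact absurd h (by norm_num)
    · exfalso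
      have h2 : Comp 2 t' := by simpa using h2
      cases t' with
      | leaf i => exact absurd h2 (by simp [Comp])
      | node a l r =>
        cases l with
        | leaf i => exact absurd h2.1 (by simp [Comp])
        | node u l1 l2 =>
          have hr := h1.allL hTR
          have hc := Cx.sub h1 hTC
          obtain ⟨N, hN⟩ := hc.1.1.1
          rcases h3.1 with ⟨h, _⟩ | ⟨_, h⟩
          · exact absurd h (by norm_num)
          · apply h
            have h9 : RkL 0 false u.2 := hr.2.1.1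
            rw [hN] at h9
            exact h9.sublist (List.sublist_append_right _ _)
  obtain ⟨T2, b1, b2, b3⟩ := second_level (M := M) (4 * n + 1) a2 (Cx.sub a1 hTC) (a1.allL hTP) a3
  obtain ⟨c, hc, T3, d1, d2⟩ := exists_colorV (m := 4) (t := T2)
    (fun c a l r => AllL (fun q => Dr (decide (c = 0 ∨ c = 2)) a.1 q.1) l ∧
      AllL (fun q => Dr (decide (c = 1 ∨ c = 2)) a.1 q.1) r)
    (fun _ => n)
    (b3.imp (by
      rintro a l r ⟨⟨e1, h1⟩, e2, h2⟩
      cases e1 <;> cases e2
      · exact ⟨3, by norm_num, by simpa using h1, by simpa using h2⟩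
      · exact ⟨1, by norm_num, by simpa using h1, by simpa using h2⟩
      · exact ⟨0, by norm_num, by simpa using h1, by simpa using h2⟩
      · exact ⟨2, by norm_num, by simpa using h1, by simpa using h2⟩)) b2 (by
      rw [Finset.sum_const, Finset.card_range, smul_eq_mul]; omega)
  have dB : Sub (fun _ _ _ => True) (mp Prod.fst T3) B := by
    have h1 := (a1.trans (b1.trans d1.top)).mp (f := Prod.fst)
    rwa [← unc_eq (ctx [] B), unc_ctx] at h1
  have d3 : LT.AllN (fun a l r => AllL (fun q => Dr (decide (c = 0 ∨ c = 2)) a.1 q.1) l ∧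
      AllL (fun q => Dr (decide (c = 1 ∨ c = 2)) a.1 q.1) r) T3 := by
    refine d1.allN (AllN.of_forall (P := fun _ _ _ => True) (fun _ _ _ => trivial) _) ?_
    rintro a l r l' r' ⟨h1, h2⟩ _ hl hr
    exact ⟨hl.allL h1, hr.allL h2⟩
  have d4 : ∀ t : LT (ℝ × List (Bool × ℝ)),
      LT.AllN (fun a l r => AllL (fun q => Dr (decide (c = 0 ∨ c = 2)) a.1 q.1) l ∧
      AllL (fun q => Dr (decide (c = 1 ∨ c = 2)) a.1 q.1) r) t →
      LT.AllN (fun a l r => AllL (Dr (decide (c = 0 ∨ c = 2)) a) l ∧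
      AllL (Dr (decide (c = 1 ∨ c = 2)) a) r) (mp Prod.fst t) := by
    intro t
    induction t with
    | leaf i => intro _; trivial
    | node a l r hl hr =>
      intro h
      exact ⟨⟨allL_mp.2 h.1.1, allL_mp.2 h.1.2⟩, hl h.2.1, hr h.2.2⟩
  have d5 := d4 T3 d3
  refine ⟨mp Prod.fst T3, dB, comp_mp d2, ?_⟩
  interval_cases c
  · exact cc_of_pure (e := true) (by simpa [PP] using d5)
  · exact cc_of_pure (e := false) (by simpa [PP] using d5)
  · exact cc_of_mono (e := true) (by simpa using d5)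
  · exact cc_of_mono (e := false) (by simpa using d5)

end Pool.Agent.H595K.Lb
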