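import Mathlib
import Pool.Agent.H595K.KBase

/-!
# The recursion on the rank
-/

namespace Pool.Agent.H595K.Lb

open LT

theorem RecQ.imp {K M H C0 A0 : ℕ} {Q Q' : LT ℝ → Prop} {C : ℝ} (h : ∀ B, Q B → Q' B)
    (hQ : RecQ K M H C0 A0 Q' C) : RecQ K M H C0 A0 Q C :=
  fun h' m d s dir bud n B h1 h2 h3 h4 h5 h6 h7 h8 h9 =>
    hQ h' m d s dir bud n B h1 h2 h3 h4 h5 h6 h7 (h B h8) h9

theorem RecQ.mono {K M H C0 A0 : ℕ} {Q : LT ℝ → Prop} {C C' : ℝ} (hC : C ≤ C')
    (hQ : RecQ K M H C0 A0 Q C) : RecQ K M H C0 A0 Q C' :=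
  fun h' m d s dir bud n B h1 h2 h3 h4 h5 h6 h7 h8 h9 =>
    hQ h' m d s dir bud n B h1 h2 h3 h4 (by linarith) h6 h7 h8 h9

theorem RecQ.or {K M H C0 A0 : ℕ} {Q Q' : LT ℝ → Prop}
    (hQ : ∃ C, 0 < C ∧ RecQ K M H C0 A0 Q C) (hQ' : ∃ C, 0 < C ∧ RecQ K M H C0 A0 Q' C) :
    ∃ C, 0 < C ∧ RecQ K M H C0 A0 (fun B => Q B ∨ Q' B) C := by
  obtain ⟨C, hC, hQ⟩ := hQ
  obtain ⟨C', hC', hQ'⟩ := hQ'
  refine ⟨max C C', lt_of_lt_of_le hC (le_max_left _ _), ?_⟩
  intro h' m d s dir bud n B h1 h2 h3 h4 h5 h6 h7 h8 h9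
  rcases h8 with h8 | h8
  · exact (hQ.mono (le_max_left _ _)) h' m d s dir bud n B h1 h2 h3 h4 h5 h6 h7 h8 h9
  · exact (hQ'.mono (le_max_right _ _)) h' m d s dir bud n B h1 h2 h3 h4 h5 h6 h7 h8 h9

/-- pure trees -/
theorem rec_pure {K M H C0 A0 : ℕ} (hK : K ≤ 6 * H + 4) (hA0 : 1 ≤ A0) (hAC : A0 ≤ C0) :
    RecQ K M H C0 A0 (fun B => ∃ e, PP e B) 1 := by
  rintro h m d s dir bud n B hplan hAlt hlen hn hsum hB _ ⟨e, he⟩ hW
  have hS0 := sum_log_nonneg hn
  have hA0r : (1 : ℝ) ≤ A0 := by exact_mod_cast hA0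
  have hACr : (A0 : ℝ) ≤ C0 := by exact_mod_cast hAC
  have hm : 1 ≤ m := by
    by_contra hcon
    have h0 : m = 0 := by omega
    rw [h0] at hsum
    simp only [Nat.cast_zero, Real.log_zero, mul_zero] at hsum
    linarith
  rcases Nat.eq_zero_or_pos h with h0 | h0
  · subst h0
    exact (no_layer hK hAlt (by omega) hm hB hW).elim
  obtain ⟨h', rfl⟩ : ∃ h', h = h' + 1 := ⟨h - 1, by omega⟩
  obtain ⟨_, hbud, _⟩ := hplan
  by_cases hc : ∃ c < C0, n c ≤ m
  · obtain ⟨c, hc, hcm⟩ := hc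
    obtain ⟨X, k1, k2⟩ := comp_le' hcm hB
    refine ⟨c, hc, X, k1, k2, ?_⟩
    refine WB.mono ?_ (WB.sub k1 (List.Sublist.refl _) (wb_pure' (d := dir c) he))
    have := hbud c hc
    omega
  · exfalso
    push Not at hc
    have hlm : 0 ≤ Real.log m := Real.log_nonneg (by exact_mod_cast hm)
    have h3 : ∀ c ∈ Finset.range C0, Real.log m ≤ Real.log (n c) := by
      intro c hc'
      have h4 := hc c (Finset.mem_range.1 hc')
      apply Real.log_le_log
      · exact_mod_cast hm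
      · exact_mod_cast h4.le
    have h4 := Finset.card_nsmul_le_sum (Finset.range C0) (fun c => Real.log (n c)) _ h3
    rw [Finset.card_range, nsmul_eq_mul] at h4
    have h5 : (A0 : ℝ) * Real.log m ≤ C0 * Real.log m := mul_le_mul_of_nonneg_right hACr hlm
    linarith

/-- passing to a subtree of linear size -/
theorem lin_step {K M H C0 A0 D : ℕ} {Q Q' : LT ℝ → Prop} (hA0 : 1 ≤ A0) (hD : 1 ≤ D)
    (hsub : ∀ B B', Sub (fun _ _ _ => True) B' B → Q B → Q B')
    (hstep : ∀ (n : ℕ) (B : LT ℝ), Comp (D * (n + 1)) B → AllC (PM M) [] B → Q B →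
      ∃ X, Sub (fun _ _ _ => True) X B ∧ Comp (n + 1) X ∧ Q' X)
    (hQ' : ∃ C, 0 < C ∧ RecQ K M H C0 A0 Q' C) : ∃ C, 0 < C ∧ RecQ K M H C0 A0 Q C := by
  obtain ⟨C', hC', hQ'⟩ := hQ'
  have hA0r : (1 : ℝ) ≤ A0 := by exact_mod_cast hA0
  have hDr : (1 : ℝ) ≤ D := by exact_mod_cast hD
  have hlD : 0 ≤ Real.log (2 * D) := Real.log_nonneg (by linarith)
  refine ⟨C' + A0 * Real.log (2 * D), by positivity, ?_⟩
  intro h m d s dir bud n B hplan hAlt hlen hn hsum hB hP hQB hW
  have hS0 := sum_log_nonneg hn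
  have hm : D ≤ m := by
    by_contra hcon
    push Not at hcon
    have h1 : Real.log m ≤ Real.log (2 * D) := by
      rcases Nat.eq_zero_or_pos m with h0 | h0
      · rw [h0]; simpa using hlD
      · apply Real.log_le_log (by exact_mod_cast h0)
        have : (m : ℝ) ≤ D := by exact_mod_cast hcon.le
        linarith
    have h2 : (A0 : ℝ) * Real.log m ≤ A0 * Real.log (2 * D) :=
      mul_le_mul_of_nonneg_left h1 (by linarith)
    linarith
  obtain ⟨hq1, hlq⟩ := floor_log hD hm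
  obtain ⟨q, hq⟩ : ∃ q, m / D = q + 1 := ⟨m / D - 1, by omega⟩
  obtain ⟨B', z1, z2⟩ := comp_le' (a := D * (q + 1)) (by
    rw [← hq]; exact Nat.mul_div_le m D) hB
  have hP' : AllC (PM M) [] B' := AllC.sub pm_sublist z1 (List.Sublist.refl _) hP
  obtain ⟨X, x1, x2, x3⟩ := hstep q B' z2 hP' (hsub _ _ z1 hQB)
  have hXB := z1.trans x1
  obtain ⟨c, hc, Y, y1, y2, y3⟩ := hQ' h (q + 1) d s dir bud n X hplan hAlt hlen hn (by
    rw [hq] at hlq
    have h2 : (A0 : ℝ) * Real.log m ≤ A0 * (Real.log ((q + 1 : ℕ) : ℝ) + Real.log (2 * D)) :=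
      mul_le_mul_of_nonneg_left hlq (by linarith)
    linarith) x2 (AllC.sub pm_sublist hXB (List.Sublist.refl _) hP) x3
    (hW.sub hXB (List.Sublist.refl _))
  exact ⟨c, hc, Y, hXB.trans y1, y2, y3⟩

/-- left-good trees -/
theorem rec_lg {K M H C0 A0 : ℕ} (hK : K ≤ 6 * H + 4) (hA0 : 1 ≤ A0) (hAC : A0 ≤ C0) (e : Bool) :
    ∃ C, 0 < C ∧ RecQ K M H C0 A0 (fun B => LT.AllN (fun x l _ => AllL (Dr e x) l) B) C := by
  refine lin_step (D := 2 * (M + 3)) (Q' := Cc (fun B => ∃ e, PP e B)) hA0 (by omega) ?_ ?_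
    (chain_step one_pos (rec_pure hK hA0 hAC) hK hA0 hAC)
  · intro B B' h hB
    exact h.allN hB (fun a l r l' r' _ h1 hl _ => hl.allL h1)
  · intro n B hB hP hQ
    obtain ⟨B', z1, z2⟩ := comp_le' (a := 2 * ((M + 2) * n + 1)) (by nlinarith) hB
    obtain ⟨X, h1, h2, h3, h4⟩ := lay_all e z2
      (AllC.sub pm_sublist z1 (List.Sublist.refl _) hP)
      (z1.allN hQ (fun a l r l' r' _ h1 hl _ => hl.allL h1))
    exact ⟨mp Prod.fst X, z1.trans h1, comp_mp h2, e, X, rfl, h3, fun Z hZ hs => ⟨e, h4 Z hZ hs⟩⟩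

theorem rk_sub (k : ℕ) (b : Bool) (B B' : LT ℝ) (h : Sub (fun _ _ _ => True) B' B)
    (hB : AllC (fun L _ => RkL k b L) [] B) : AllC (fun L _ => RkL k b L) [] B' :=
  AllC.sub (fun _ _ _ h' hL => hL.sublist h') h (List.Sublist.refl _) hB

theorem allC_imp {P P' : List (Bool × ℝ) → ℝ → Prop} (h : ∀ L x, P L x → P' L x) {t : LT ℝ} :
    ∀ {L : List (Bool × ℝ)}, AllC P L t → AllC P' L t := by
  induction t with
  | leaf i => intro L _; trivial
  | node x l r hl hr => intro L h'; exact ⟨h _ _ h'.1, hl h'.2.1, hr h'.2.2⟩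

/-- **The recursion for the trees of rank `k`.** -/
theorem rec_rank {K M H C0 A0 : ℕ} (hK : K ≤ 6 * H + 4) (hA0 : 1 ≤ A0) (hAC : A0 ≤ C0) (k : ℕ) :
    ∀ b, ∃ C, 0 < C ∧ RecQ K M H C0 A0 (fun B => AllC (fun L _ => RkL k b L) [] B) C := by
  have hstep : ∀ (k : ℕ) (b : Bool), 1 ≤ k →
      (∃ C, 0 < C ∧ RecQ K M H C0 A0 (fun B => AllC (fun L _ => RkL (nk k b) (!b) L) [] B) C) →
      ∃ C, 0 < C ∧ RecQ K M H C0 A0 (fun B => AllC (fun L _ => RkL k b L) [] B) C := by
    rintro k b hk ⟨C1, hC1, h1⟩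
    refine lin_step (D := 2 * (M + 3) + 2)
      (Q' := fun B => (LT.AllN (fun x l _ => AllL (Dr (!b) x) l) B) ∨
        Cc (fun B => AllC (fun L _ => RkL (nk k b) (!b) L) [] B) B) hA0 (by omega)
      (rk_sub k b) ?_ (RecQ.or (rec_lg hK hA0 hAC (!b)) (chain_step hC1 h1 hK hA0 hAC))
    intro n B hB hP hQ
    obtain ⟨B', z1, z2⟩ := comp_le' (a := (M + 3) * (2 * n + 1) + 2) (by nlinarith) hB
    rcases step_c hk z2 (AllC.sub pm_sublist z1 (List.Sublist.refl _) hP)
      (rk_sub k b _ _ z1 hQ) with ⟨X, x1, x2, x3⟩ | ⟨X, x1, x2, x3, x4⟩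
    · exact ⟨X, z1.trans x1, x2, Or.inl x3⟩
    · exact ⟨mp Prod.fst X, z1.trans x1, comp_mp x2, Or.inr ⟨!b, X, rfl, x3, x4⟩⟩
  induction k with
  | zero =>
    have h0 : ∃ C, 0 < C ∧ RecQ K M H C0 A0 (fun B => AllC (fun L _ => RkL 0 false L) [] B) C := by
      refine lin_step (D := 8) (Q' := Cc (fun B => ∃ e, PP e B)) hA0 (by omega)
        (rk_sub 0 false) ?_ (chain_step one_pos (rec_pure hK hA0 hAC) hK hA0 hAC)
      intro n B hB hP hQ
      exact rank_zero hB hP hQ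
    intro b
    obtain ⟨C, hC, h⟩ := h0
    refine ⟨C, hC, h.imp ?_⟩
    intro B hB
    refine allC_imp ?_ hB
    intro L _ hL N t z L' e
    exact ⟨(hL N t z L' e).1, by simp⟩
  | succ k ih =>
    have h1 := hstep (k + 1) true (by omega) (ih false)
    have h2 := hstep (k + 1) false (by omega) h1
    intro b
    cases b
    · exact h2
    · exact h1

/-- the contexts with distinct labels and words -/
def Iw (K : ℕ) (L : List (Bool × ℝ)) (t : LT ℝ) : Prop :=
  ∀ N b z L', L = N ++ (b, z) :: L' → (∀ w ∈ N, w.2 ≠ z) ∧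
    ∀ R, Pl t R → ch (rD z (R.reverse ++ N)) ≤ K

theorem rd_rowc {z : ℝ} : ∀ {N : List (Bool × ℝ)}, (∀ w ∈ N, w.2 ≠ z) →
    rowc false z N = (rD z N).map not := by
  intro N
  induction N with
  | nil => intro _; simp [rowc, rD]
  | cons w N ih =>
    intro h
    have h1 := ih (fun w hw => h w (List.mem_cons_of_mem _ hw))
    obtain ⟨b, y⟩ := w
    cases b with
    | true =>
      rw [rowc_cons_true, h1]
      simp [rD]
    | false =>
      rw [rowc_cons_false, h1]
      have h2 : y ≠ z := h (false, y) (by simp)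
      have e : rD z ((false, y) :: N) = decide (z < y) :: rD z N := by
        simp [rD, lt2]
      rw [e, List.map_cons]
      congr 1
      rcases lt_or_gt_of_ne h2 with h3 | h3
      · simp [h3, h3.le]
      · simp [h3, h3.le]

theorem Iw.rk {K : ℕ} {L : List (Bool × ℝ)} {t : LT ℝ} (h : Iw K L t) : RkL K false L := by
  intro N b z L' e
  obtain ⟨h1, h2⟩ := h N b z L' e
  refine ⟨?_, by simp⟩
  obtain ⟨R, hR⟩ := exists_pl t
  rw [rd_rowc h1, ch_map_not]
  have h3 := h2 R hR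
  rw [rD_append] at h3
  exact (ch_sublist (List.sublist_append_right _ _)).trans h3

/-- **The initial rank.** -/
theorem init_rk {K M : ℕ} {t : LT ℝ} : ∀ {L : List (Bool × ℝ)}, WB [] K L t → AllC (PM M) L t →
    Iw K L t → AllC (fun L _ => RkL K false L) L t := by
  induction t with
  | leaf i => intro L _ _ _; trivial
  | node x l r hl hr =>
    intro L hW hP hI
    have bl : ∀ W1, Pl l W1 → ch (rD x W1.reverse) ≤ K := by
      intro W1 p1
      obtain ⟨W2, p2⟩ := exists_pl r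
      have h1 := hW.1 W1 W2 p1 p2 true true
      refine le_trans (ch_sublist ?_) h1
      show (rD x W1.reverse).Sublist (wrd (tup x L W1 W2) true true)
      simp only [wrd, tup]
      refine List.Sublist.trans ?_ (List.sublist_append_left _ _)
      refine List.Sublist.trans ?_ (List.sublist_append_left _ _)
      refine List.Sublist.trans ?_ (List.sublist_append_right _ _)
      exact List.sublist_append_right _ _
    have br : ∀ W2, Pl r W2 → ch (rD x W2.reverse) ≤ K := by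
      intro W2 p2
      obtain ⟨W1, p1⟩ := exists_pl l
      have h1 := hW.1 W1 W2 p1 p2 true true
      refine le_trans (ch_sublist ?_) h1
      show (rD x W2.reverse).Sublist (wrd (tup x L W1 W2) true true)
      simp only [wrd, tup]
      refine List.Sublist.trans ?_ (List.sublist_append_left _ _)
      refine List.Sublist.trans ?_ (List.sublist_append_right _ _)
      exact List.sublist_append_right _ _
    refine ⟨hI.rk, hl hW.2.1 hP.2.1 ?_, hr hW.2.2 hP.2.2 ?_⟩
    · intro N b z L' e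
      cases N with
      | nil =>
        rw [List.nil_append, List.cons.injEq, Prod.mk.injEq] at e
        obtain ⟨⟨rfl, rfl⟩, rfl⟩ := e
        exact ⟨by simp, fun R hR => by simpa using bl R hR⟩
      | cons w N =>
        rw [List.cons_append, List.cons.injEq] at e
        obtain ⟨rfl, e⟩ := e
        obtain ⟨h1, h2⟩ := hI N b z L' e
        refine ⟨?_, ?_⟩
        · intro w hw
          rcases List.mem_cons.1 hw with rfl | hw
          · exact (hP.1.2 (b, z) (by rw [e]; simp)).symm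
          · exact h1 w hw
        · intro R hR
          have := h2 ((false, x) :: R) (Pl.left hR)
          simpa using this
    · intro N b z L' e
      cases N with
      | nil =>
        rw [List.nil_append, List.cons.injEq, Prod.mk.injEq] at e
        obtain ⟨⟨rfl, rfl⟩, rfl⟩ := e
        exact ⟨by simp, fun R hR => by simpa using br R hR⟩
      | cons w N =>
        rw [List.cons_append, List.cons.injEq] at e
        obtain ⟨rfl, e⟩ := e
        obtain ⟨h1, h2⟩ := hI N b z L' e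
        refine ⟨?_, ?_⟩
        · intro w hw
          rcases List.mem_cons.1 hw with rfl | hw
          · exact (hP.1.2 (b, z) (by rw [e]; simp)).symm
          · exact h1 w hw
        · intro R hR
          have := h2 ((true, x) :: R) (Pl.right hR)
          simpa using this

/-- **The recursion without losses.** -/
theorem rec_main {K M H C0 A0 : ℕ} (hK : K ≤ 6 * H + 4) (hA0 : 1 ≤ A0) (hAC : A0 ≤ C0) :
    ∃ C : ℝ, 0 < C ∧ ∀ (m : ℕ) (d : Bool) (dir : ℕ → Bool) (bud n : ℕ → ℕ) (B : LT ℝ),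
    PlanOK C0 A0 H d dir bud → (∀ c < C0, 1 ≤ n c) →
    ∑ c ∈ Finset.range C0, Real.log (n c) + C ≤ A0 * Real.log m → Comp m B →
    AllC (PM M) [] B → WB [d] K [] B →
    ∃ c < C0, ∃ X, Sub (fun _ _ _ => True) X B ∧ Comp (n c) X ∧
      WB [dir c] (6 * bud c - 1) [] X := by
  obtain ⟨C, hC, h⟩ := rec_rank (M := M) (H := H) (C0 := C0) (A0 := A0) hK hA0 hAC K false
  refine ⟨C, hC, ?_⟩
  intro m d dir bud n B hplan hn hsum hB hP hW
  refine h H m d [] dir bud n B hplan trivial (by simp) hn hsum hB hP ?_ hW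
  exact init_rk hW.drop hP (fun N b z L' e => by simp at e)

end Pool.Agent.H595K.Lb
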