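import Mathlib
import Pool.Agent.H595K.KRec
import Pool.Agent.H595K.JMain

/-!
# The lower bound without losses
-/

namespace Pool.Agent.H595K

namespace Lb

open LT

/-- **Subtrees with short words.** -/
theorem exists_short2 {K H C0 A0 a M : ℕ} (hA0 : 1 ≤ A0) (hAC : A0 ≤ C0)
    (ha : 1 ≤ a) (hK : K ≤ 6 * H + 4) (hp : HasPlan a H C0 A0) :
    ∃ (C : ℝ) (c0 : ℕ), 0 < C ∧ 1 ≤ c0 ∧ ∀ (m N : ℕ) (T : LT ℝ), 1 ≤ N →
      C0 * Real.log N + C ≤ A0 * Real.log m → Comp (c0 * (m + 1)) T → AllC (PM M) [] T →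
      WB [] K [] T → ∃ X, Sub (fun _ _ _ => True) X T ∧ Comp N X ∧ WB [] (6 * a - 1) [] X := by
  obtain ⟨C, hC, hrec⟩ := rec_main (M := M) hK hA0 hAC
  obtain ⟨c0, hc0, hst⟩ := exists_start K M
  refine ⟨C, c0, hC, hc0, ?_⟩
  intro m N T hN hlog hT hP hW
  rcases hst m T hT hP hW with ⟨e, X, k1, k2, k3⟩ | ⟨d, B, k1, k2, k3⟩
  · have hNm : N ≤ m := by
      by_contra hcon
      push Not at hcon
      have hN0 : 0 ≤ Real.log N := Real.log_nonneg (by exact_mod_cast hN)
      have hA : (A0 : ℝ) ≤ C0 := by exact_mod_cast hAC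
      rcases Nat.eq_zero_or_pos m with h0 | h0
      · subst h0
        have : 0 ≤ (C0 : ℝ) * Real.log N := by positivity
        simp at hlog
        linarith
      · have h1 : Real.log m ≤ Real.log N := Real.log_le_log (by exact_mod_cast h0)
          (by exact_mod_cast hcon.le)
        have h2 : 0 ≤ Real.log m := Real.log_nonneg (by exact_mod_cast h0)
        have h3 : A0 * Real.log m ≤ C0 * Real.log m := mul_le_mul_of_nonneg_right (by linarith) h2
        have h4 : (C0 : ℝ) * Real.log m ≤ C0 * Real.log N :=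
          mul_le_mul_of_nonneg_left h1 (by positivity)
        linarith
    obtain ⟨X', g1, g2⟩ := comp_le' hNm k2
    refine ⟨X', k1.trans g1, g2, ?_⟩
    exact (WB.sub g1 (List.Sublist.refl _) (wb_pure' (d := true) k3)).drop.mono (by omega)
  · obtain ⟨dir, bud, hb, hplan⟩ := hp d
    obtain ⟨c, hc, X, g1, g2, g3⟩ := hrec m d dir bud (fun _ => N) B hplan
      (fun _ _ => hN) (by
        rw [Finset.sum_const, Finset.card_range, nsmul_eq_mul]
        exact hlog) k2 (AllC.sub pm_sublist k1 (List.Sublist.refl _) hP) k3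
    refine ⟨X, k1.trans g1, g2, g3.drop.mono ?_⟩
    have := hb c hc
    omega

end Lb

open Lb in
/-- **The lower bound.** -/
theorem lower_exp2 {k j a H C0 A0 : ℕ} (hk3 : 3 ≤ k) (ha : 1 ≤ a) (hA0 : 1 ≤ A0)
    (hAC : A0 ≤ C0) (hk : k ≤ 3 * H + 2) (hj : 3 * a ≤ j)
    (hp : HasPlan a H C0 A0) :
    ∃ c : ℝ, 0 < c ∧ ∀ n : ℕ, 3 ≤ n → Real.exp (c * (Real.log n) ^ ((A0 : ℝ) / C0)) ≤ f k j n := by
  obtain ⟨β, hβ⟩ : ∃ β : ℝ, β = A0 := ⟨_, rfl⟩
  have hβ0 : 0 < β := by
    have : (1 : ℝ) ≤ A0 := by exact_mod_cast hA0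
    linarith
  obtain ⟨C, c0, hC, hc0, hshort⟩ := exists_short2 (K := 2 * k) (M := 2 * (2 * k)) hA0 hAC ha
    (by omega) hp
  rw [← hβ] at hshort ⊢
  have hC0 : (1 : ℝ) ≤ C0 := by exact_mod_cast (hA0.trans hAC)
  set γ := β / C0 with hγ
  have hγ0 : 0 < γ := by positivity
  obtain ⟨G, hGdef⟩ : ∃ G : ℕ, G = 320 * (k + 1) := ⟨_, rfl⟩
  have hGr : (1280 : ℝ) ≤ (G : ℝ) := by
    have : 1280 ≤ G := by rw [hGdef]; omega
    exact_mod_cast this
  have hlogG : 0 < Real.log G := Real.log_pos (by linarith)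
  have hc0r : (1 : ℝ) ≤ c0 := by exact_mod_cast hc0
  set C' := Real.exp (C / β) with hC'
  have hC'0 : 0 < C' := Real.exp_pos _
  set D : ℝ := 81 * Real.log G * (c0 * (C' + 2)) with hD
  have hDpos : 0 < D := by positivity
  set c5 : ℝ := (1 / D) ^ γ with hc5
  have hc5pos : 0 < c5 := by positivity
  refine ⟨c5 / 8, by positivity, ?_⟩
  intro n hn
  have hn3 : (3 : ℝ) ≤ n := by exact_mod_cast hn
  have hnpos : (0 : ℝ) < n := by linarith
  set V := Real.log n with hV
  have hV0 : 0 < V := Real.log_pos (by linarith)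
  set N := ⌊c5 * V ^ γ⌋₊ with hN
  have hcV : 0 ≤ c5 * V ^ γ := by positivity
  have hN1 : (N : ℝ) ≤ c5 * V ^ γ := Nat.floor_le hcV
  have hN2 : c5 * V ^ γ < N + 1 := Nat.lt_floor_add_one _
  rcases Nat.lt_or_ge N 4 with h4 | h4
  · have h5 : (N : ℝ) + 1 ≤ 4 := by exact_mod_cast h4
    have h6 : c5 / 8 * V ^ γ ≤ 1 := by
      have : c5 / 8 * V ^ γ = c5 * V ^ γ / 8 := by ring
      rw [this]; linarith
    have h7 : Real.exp (c5 / 8 * V ^ γ) ≤ Real.exp 1 := Real.exp_le_exp.2 h6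
    have h8 := Real.exp_one_lt_d9
    have h9 : (3 : ℝ) ≤ f k j n := by exact_mod_cast three_le_f hk3 (by omega) hn
    linarith
  · have hNr : (4 : ℝ) ≤ N := by exact_mod_cast h4
    have hNpos : (0 : ℝ) < N := by linarith
    -- the depth
    have hpow : (N : ℝ) ^ (1 / γ) ≤ V / D := by
      have h1 : (N : ℝ) ^ (1 / γ) ≤ (c5 * V ^ γ) ^ (1 / γ) :=
        Real.rpow_le_rpow hNpos.le hN1 (by positivity)
      have h2 : (c5 * V ^ γ) ^ (1 / γ) = V / D := by
        rw [hc5, ← Real.mul_rpow (by positivity) hV0.le, ← Real.rpow_mul (by positivity),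
          mul_one_div, div_self hγ0.ne', Real.rpow_one]
        ring
      rw [h2] at h1
      exact h1
    have hNp1 : 1 ≤ (N : ℝ) ^ (1 / γ) := Real.one_le_rpow (by linarith) (by positivity)
    set m := ⌈C' * (N : ℝ) ^ (1 / γ)⌉₊ with hm
    have hm1 : C' * (N : ℝ) ^ (1 / γ) ≤ m := Nat.le_ceil _
    have hm2 : (m : ℝ) < C' * (N : ℝ) ^ (1 / γ) + 1 := Nat.ceil_lt_add_one (by positivity)
    have hlog : C0 * Real.log N + C ≤ β * Real.log m := by
      have h1 : Real.log (C' * (N : ℝ) ^ (1 / γ)) ≤ Real.log m :=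
        Real.log_le_log (by positivity) hm1
      have h2 : Real.log (C' * (N : ℝ) ^ (1 / γ)) = C / β + 1 / γ * Real.log N := by
        rw [Real.log_mul hC'0.ne' (by positivity), hC', Real.log_exp, Real.log_rpow hNpos]
      rw [h2] at h1
      have h3 := mul_le_mul_of_nonneg_left h1 hβ0.le
      have h4 : β * (C / β + 1 / γ * Real.log N) = C0 * Real.log N + C := by
        rw [hγ]
        have : β ≠ 0 := hβ0.ne'
        field_simp
        ring
      linarith
    obtain ⟨σ, hσdef⟩ : ∃ σ : ℕ, σ = c0 * (m + 1) := ⟨_, rfl⟩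
    have hσ1 : 1 ≤ σ := by
      rw [hσdef]
      exact Nat.mul_pos (by omega) (by omega)
    have hσ2 : (σ : ℝ) * (81 * Real.log G) ≤ V := by
      rw [hσdef]
      push_cast
      have h1 : (m : ℝ) + 1 ≤ (C' + 2) * (N : ℝ) ^ (1 / γ) := by nlinarith
      have h2 : ((c0 : ℝ) * (m + 1)) * (81 * Real.log G) ≤
          (c0 * ((C' + 2) * (N : ℝ) ^ (1 / γ))) * (81 * Real.log G) := by
        apply mul_le_mul_of_nonneg_right _ (by positivity)
        exact mul_le_mul_of_nonneg_left h1 (by linarith)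
      have h3 : (c0 * ((C' + 2) * (N : ℝ) ^ (1 / γ))) * (81 * Real.log G) =
          D * (N : ℝ) ^ (1 / γ) := by rw [hD]; ring
      have h4 : D * (N : ℝ) ^ (1 / γ) ≤ D * (V / D) := mul_le_mul_of_nonneg_left hpow hDpos.le
      have h5 : D * (V / D) = V := by field_simp
      linarith
    have hlow : 2 ^ (N / 2) + 1 ≤ f k j n := by
      apply le_f hk3 hn
      intro P hP1 hP2
      have h1 : (320 * (k + 1)) ^ (40 * σ) * (320 * (k + 1)) ^ (40 * σ) < P.card := by
        rw [hP1, ← hGdef]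
        have h2 : Real.log ((G : ℝ) ^ (40 * σ) * (G : ℝ) ^ (40 * σ)) < Real.log n := by
          rw [← pow_add, Real.log_pow]
          push_cast
          have h4 : (1 : ℝ) ≤ σ := by exact_mod_cast hσ1
          nlinarith
        have h3 : (G : ℝ) ^ (40 * σ) * (G : ℝ) ^ (40 * σ) < n :=
          (Real.log_lt_log_iff (by positivity) (by positivity)).1 h2
        exact_mod_cast h3
      obtain ⟨ε, p, T, hpP, hx, hCr, hCp, hT⟩ := exists_T hP2 hσ1 h1
      obtain ⟨T', z1, z2⟩ := comp_le' (a := c0 * (m + 1)) (by rw [← hσdef]; omega) hT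
      have hx' := hx.sublist z1.sublist
      have hCr' := hCr.sub z1.sublist
      have hCp' := hCp.sub z1
      have hPM := init_pm (k := 2 * k) hx' hCr' T' [] (by simp [lf, rR, rL]) (by simp) hCp'
      have hWB := wb_of_cross (k := 2 * k) hx' hCr' T' [] (by simp [lf, rR, rL]) (by simp) hCp'
      obtain ⟨X, g1, g2, g3⟩ := hshort m N T' (by omega) hlog z2 hPM hWB
      obtain ⟨X', g4, g5⟩ := comp_le' (a := 2 * (N / 2 - 1) + 2) (by omega) g2
      have hsub := g1.trans g4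
      obtain ⟨L, q1, q2, q3⟩ := exists_niceK (K := 6 * a - 1) (k := j) (n := N / 2 - 1)
        (by omega) (by omega) (hx'.sublist hsub.sublist) (hCp'.sub hsub) g5
        (g3.sub g4 (List.Sublist.refl _))
      have e1 : N / 2 - 1 + 1 = N / 2 := by omega
      rw [e1] at q1
      have h3 : 3 ≤ L.length := by
        rw [q1]
        have : 2 ^ 1 ≤ 2 ^ (N / 2) := Nat.pow_le_pow_right (by norm_num) (by omega)
        omega
      obtain ⟨Q, r1, r2, r3⟩ := kconvex_of_niceK (k := j) (by omega) hP2.1 ε p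
        (fun i _ => hpP i) h3 q3
      exact ⟨Q, r1, r2, by rw [r3, q1]⟩
    have h2 : ((2 : ℝ) ^ (N / 2) + 1) ≤ f k j n := by exact_mod_cast hlow
    have h3 : Real.exp (c5 / 8 * V ^ γ) ≤ 2 ^ (N / 2) := by
      apply exp_le_two_pow
      have h4 : (N : ℝ) ≤ 2 * ((N / 2 : ℕ) : ℝ) + 1 := by
        have : N ≤ 2 * (N / 2) + 1 := by omega
        exact_mod_cast this
      have : c5 / 8 * V ^ γ = c5 * V ^ γ / 8 := by ring
      rw [this]; linarith
    linarith

/-- **The lower bound for all pairs.** -/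
theorem expo_low2 {k j : ℕ} (hj : 3 ≤ j) (hjk : j ≤ k) :
    ∃ c : ℝ, 0 < c ∧ ∀ n : ℕ, 3 ≤ n →
      Real.exp (c * Real.log n ^ expo k j) ≤ (f k j n : ℝ) := by
  have key : ∀ (C0 A0 : ℕ), 1 ≤ A0 → A0 ≤ C0 → Lb.HasPlan (j / 3) (k / 3) C0 A0 →
      ∃ c : ℝ, 0 < c ∧ ∀ n : ℕ, 3 ≤ n →
      Real.exp (c * Real.log n ^ ((A0 : ℝ) / C0)) ≤ (f k j n : ℝ) := by
    intro C0 A0 hA0 hAC hp
    exact lower_exp2 (k := k) (j := j) (a := j / 3) (H := k / 3) (C0 := C0)
      (A0 := A0) (by omega) (by omega) hA0 hAC (by omega) (by omega) hp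
  unfold expo
  split_ifs with h
  · have h1 := key 1 1 le_rfl le_rfl (by
      intro d
      refine ⟨fun _ => d, fun _ => j / 3, ?_, ?_⟩
      · intro c _
        exact ⟨(by omega : 1 ≤ j / 3), le_rfl⟩
      · exact Lb.plan_one (k / 3) (j / 3) d (by omega) (by omega))
    simpa using h1
  · exact key (j / 3 + 2 * ((k / 3 - j / 3 - 1) / 2) + 1) (j / 3 + (k / 3 - j / 3 - 1) / 2)
      (by omega) (by omega) (fun d => Lb.exists_plan (by omega) (by omega) d)

end Pool.Agent.H595K
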