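import Mathlib

/-!
# Nested caps and cups: one step
-/

namespace Pool.Agent.H595K.Nst

open Finset Filter Topology

/-- height of the point `i` above the line `y = l.1 x + l.2` -/
def ht (X Y : ℕ → ℝ) (l : ℝ × ℝ) (i : ℕ) : ℝ := Y i - l.1 * X i - l.2

/-- orientation of a triple -/
def dt (X Y : ℕ → ℝ) (i j l : ℕ) : ℝ := (X j - X i) * (Y l - Y i) - (X l - X i) * (Y j - Y i)

/-- there is a line and an increasing sequence of `L` points on alternating sides of it -/
def SAlt (X Y : ℕ → ℝ) (N L r : ℕ) : Prop :=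
  ∃ (l : ℝ × ℝ) (g : ℕ → ℕ), (∀ i, i + 1 < L → g i < g (i + 1)) ∧ (∀ i < L, g i < N) ∧
    ∀ i < L, 0 < (-1 : ℝ) ^ (i + r) * ht X Y l (g i)

/-- the nested points -/
def nX (N : ℕ) (X : ℕ → ℝ) (δ : ℝ) (i : ℕ) : ℝ := ((i / N : ℕ) : ℝ) + δ * X (i % N)

def nY (N : ℕ) (X Y : ℕ → ℝ) (δ : ℝ) (i : ℕ) : ℝ :=
  -((i / N : ℕ) : ℝ) ^ 2 - 2 * ((i / N : ℕ) : ℝ) * (δ * X (i % N)) - δ ^ 2 * Y (i % N)

/-- the line of the cluster `a` -/
def nL (δ : ℝ) (a : ℕ) (l : ℝ × ℝ) : ℝ × ℝ :=
  (-2 * (a : ℝ) - δ * l.1, (a : ℝ) ^ 2 + a * (δ * l.1) - δ ^ 2 * l.2)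

theorem ht_same (N : ℕ) (X Y : ℕ → ℝ) (δ : ℝ) (l : ℝ × ℝ) (i : ℕ) :
    ht (nX N X δ) (nY N X Y δ) (nL δ (i / N) l) i = -δ ^ 2 * ht X Y l (i % N) := by
  unfold ht nX nY nL
  ring

theorem dt_ht (X Y : ℕ → ℝ) (l : ℝ × ℝ) (i j k : ℕ) : dt X Y i j k =
    (X j - X i) * ht X Y l k + (X k - X j) * ht X Y l i - (X k - X i) * ht X Y l j := by
  unfold dt ht
  ring

theorem ev_neg {g : ℝ → ℝ} (hg : Continuous g) (h0 : g 0 < 0) :
    ∀ᶠ δ in 𝓝[>] (0 : ℝ), g δ < 0 :=
  ((hg.tendsto 0).eventually (eventually_lt_nhds h0)).filter_mono nhdsWithin_le_nhds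

theorem ev_pos {g : ℝ → ℝ} (hg : Continuous g) (h0 : 0 < g 0) :
    ∀ᶠ δ in 𝓝[>] (0 : ℝ), 0 < g δ :=
  ((hg.tendsto 0).eventually (eventually_gt_nhds h0)).filter_mono nhdsWithin_le_nhds

theorem exists_delta {b N : ℕ} (hN : 0 < N) {X : ℕ → ℝ} (Y : ℕ → ℝ)
    (hX : ∀ i j, i < j → j < N → X i < X j) (LL : Finset (ℝ × ℝ)) :
    ∃ δ : ℝ, 0 < δ ∧
      (∀ i j, i < j → j < b * N → nX N X δ i < nX N X δ j) ∧
      (∀ i j k, i < j → j < k → k < b * N → i / N ≠ k / N →
        dt (nX N X δ) (nY N X Y δ) i j k < 0) ∧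
      (∀ a < b, ∀ l ∈ LL, ∀ i < b * N, i / N ≠ a →
        ht (nX N X δ) (nY N X Y δ) (nL δ a l) i < 0) := by
  have hmod : ∀ i j, i < j → i / N = j / N → i % N < j % N := by
    intro i j hij h
    have h1 := Nat.div_add_mod i N
    have h2 := Nat.div_add_mod j N
    rw [h] at h1
    omega
  have e1 : ∀ᶠ δ in 𝓝[>] (0 : ℝ), ∀ j ∈ range (b * N), ∀ i ∈ range (b * N), i < j →
      nX N X δ i < nX N X δ j := by
    rw [eventually_all_finset]
    intro j hj
    rw [eventually_all_finset]
    intro i hi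
    by_cases hij : i < j
    · rcases eq_or_ne (i / N) (j / N) with h | h
      · filter_upwards [self_mem_nhdsWithin] with δ hδ _
        have h1 := hX _ _ (hmod i j hij h) (Nat.mod_lt _ hN)
        unfold nX
        rw [h]
        have hδ' : (0 : ℝ) < δ := hδ
        have := mul_lt_mul_of_pos_left h1 hδ'
        linarith
      · have h1 : i / N < j / N := lt_of_le_of_ne (Nat.div_le_div_right hij.le) h
        have h2 : ((i / N : ℕ) : ℝ) < ((j / N : ℕ) : ℝ) := by exact_mod_cast h1
        have := ev_neg (g := fun δ => nX N X δ i - nX N X δ j) (by unfold nX; fun_prop) (by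
          simp only [nX]; linarith)
        filter_upwards [this] with δ hδ _
        linarith
    · exact Eventually.of_forall (fun δ h => absurd h hij)
  have e2 : ∀ᶠ δ in 𝓝[>] (0 : ℝ), ∀ i ∈ range (b * N), ∀ j ∈ range (b * N),
      ∀ k ∈ range (b * N), i < j → j < k → i / N ≠ k / N →
        dt (nX N X δ) (nY N X Y δ) i j k < 0 := by
    rw [eventually_all_finset]
    intro i hi
    rw [eventually_all_finset]
    intro j hj
    rw [eventually_all_finset]
    intro k hk
    by_cases hij : i < j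
    swap
    · exact Eventually.of_forall (fun δ h => absurd h hij)
    by_cases hjk : j < k
    swap
    · exact Eventually.of_forall (fun δ _ h => absurd h hjk)
    by_cases hik : i / N = k / N
    · exact Eventually.of_forall (fun δ _ _ h => absurd hik h)
    have h1 : i / N ≤ j / N := Nat.div_le_div_right hij.le
    have h2 : j / N ≤ k / N := Nat.div_le_div_right hjk.le
    obtain ⟨p, hp⟩ : ∃ p : ℝ, p = ((i / N : ℕ) : ℝ) := ⟨_, rfl⟩
    obtain ⟨q, hq⟩ : ∃ q : ℝ, q = ((j / N : ℕ) : ℝ) := ⟨_, rfl⟩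
    obtain ⟨r, hr⟩ : ∃ r : ℝ, r = ((k / N : ℕ) : ℝ) := ⟨_, rfl⟩
    rcases Nat.lt_or_eq_of_le h1 with h3 | h3
    · rcases Nat.lt_or_eq_of_le h2 with h4 | h4
      · have h5 : p < q := by rw [hp, hq]; exact_mod_cast h3
        have h6 : q < r := by rw [hq, hr]; exact_mod_cast h4
        have := ev_neg (g := fun δ => dt (nX N X δ) (nY N X Y δ) i j k)
          (by unfold dt nX nY; fun_prop) (by
            simp only [dt, nX, nY, ← hp, ← hq, ← hr]
            have : 0 < (q - p) * (r - p) * (r - q) :=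
              mul_pos (mul_pos (by linarith) (by linarith)) (by linarith)
            nlinarith)
        filter_upwards [this] with δ hδ _ _ _
        exact hδ
      · have h5 : p < q := by rw [hp, hq]; exact_mod_cast h3
        have h6 : r = q := by rw [hq, hr, h4]
        have h7 := hX _ _ (hmod j k hjk h4) (Nat.mod_lt _ hN)
        have := ev_neg (g := fun δ => (nX N X δ j - nX N X δ i) *
            (-2 * q * (X (k % N) - X (j % N)) - δ * (Y (k % N) - Y (j % N))) -
            (X (k % N) - X (j % N)) * (nY N X Y δ j - nY N X Y δ i))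
          (by unfold nX nY; fun_prop) (by
            simp only [nX, nY, ← hp, ← hq]
            have : 0 < (X (k % N) - X (j % N)) * (q - p) ^ 2 :=
              mul_pos (by linarith) (by have : 0 < q - p := by linarith
                                        positivity)
            nlinarith)
        filter_upwards [this, self_mem_nhdsWithin] with δ hδ hδ0 _ _ _
        have hδ0' : (0 : ℝ) < δ := hδ0
        have e : dt (nX N X δ) (nY N X Y δ) i j k = δ * ((nX N X δ j - nX N X δ i) *
            (-2 * q * (X (k % N) - X (j % N)) - δ * (Y (k % N) - Y (j % N))) -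
            (X (k % N) - X (j % N)) * (nY N X Y δ j - nY N X Y δ i)) := by
          simp only [dt, nX, nY, ← hp, ← hq, ← hr, h6]
          ring
        rw [e]
        exact mul_neg_of_pos_of_neg hδ0' hδ
    · have h4 : j / N < k / N := by
        rcases Nat.lt_or_eq_of_le h2 with h4 | h4
        · exact h4
        · exact absurd (h3.trans h4) hik
      have h5 : q < r := by rw [hq, hr]; exact_mod_cast h4
      have h6 : p = q := by rw [hp, hq, h3]
      have h7 := hX _ _ (hmod i j hij h3) (Nat.mod_lt _ hN)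
      have := ev_neg (g := fun δ => (X (j % N) - X (i % N)) * (nY N X Y δ k - nY N X Y δ i) +
          (nX N X δ k - nX N X δ i) *
            (2 * q * (X (j % N) - X (i % N)) + δ * (Y (j % N) - Y (i % N))))
        (by unfold nX nY; fun_prop) (by
          simp only [nX, nY, ← hp, ← hr, h6]
          have : 0 < (X (j % N) - X (i % N)) * (r - q) ^ 2 :=
            mul_pos (by linarith) (by have : 0 < r - q := by linarith
                                      positivity)
          nlinarith)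
      filter_upwards [this, self_mem_nhdsWithin] with δ hδ hδ0 _ _ _
      have hδ0' : (0 : ℝ) < δ := hδ0
      have e : dt (nX N X δ) (nY N X Y δ) i j k = δ * ((X (j % N) - X (i % N)) *
          (nY N X Y δ k - nY N X Y δ i) + (nX N X δ k - nX N X δ i) *
            (2 * q * (X (j % N) - X (i % N)) + δ * (Y (j % N) - Y (i % N)))) := by
        simp only [dt, nX, nY, ← hp, ← hq, ← hr, h6]
        ring
      rw [e]
      exact mul_neg_of_pos_of_neg hδ0' hδ
  have e3 : ∀ᶠ δ in 𝓝[>] (0 : ℝ), ∀ a ∈ range b, ∀ l ∈ LL, ∀ i ∈ range (b * N), i / N ≠ a →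
      ht (nX N X δ) (nY N X Y δ) (nL δ a l) i < 0 := by
    rw [eventually_all_finset]
    intro a ha
    rw [eventually_all_finset]
    intro l hl
    rw [eventually_all_finset]
    intro i hi
    by_cases h : i / N = a
    · exact Eventually.of_forall (fun δ h' => absurd h h')
    have h1 : ((i / N : ℕ) : ℝ) ≠ a := by exact_mod_cast h
    have := ev_neg (g := fun δ => ht (nX N X δ) (nY N X Y δ) (nL δ a l) i)
      (by unfold ht nX nY nL; fun_prop) (by
        simp only [ht, nX, nY, nL]
        have : 0 < (((i / N : ℕ) : ℝ) - a) ^ 2 := by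
          have : ((i / N : ℕ) : ℝ) - a ≠ 0 := sub_ne_zero.2 h1
          positivity
        nlinarith)
    filter_upwards [this] with δ hδ _
    exact hδ
  obtain ⟨δ, ⟨⟨h1, h2⟩, h3⟩, h4⟩ := (((e1.and e2).and e3).and self_mem_nhdsWithin).exists
  refine ⟨δ, h4, ?_, ?_, ?_⟩
  · intro i j hij hj
    exact h1 j (mem_range.2 hj) i (mem_range.2 (hij.trans hj)) hij
  · intro i j k hij hjk hk hik
    exact h2 i (mem_range.2 (by omega)) j (mem_range.2 (by omega)) k (mem_range.2 hk) hij hjk hik
  · intro a ha l hl i hi hia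
    exact h3 a (mem_range.2 ha) l hl i (mem_range.2 hi) hia

end Pool.Agent.H595K.Nst
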