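import Mathlib
import Pool.Agent.H595K.NStep

/-!
# Nested caps and cups: the invariants
-/

namespace Pool.Agent.H595K.Nst

open Finset Filter Topology

structure Nest (N : ℕ) (X Y : ℕ → ℝ) (K s : ℕ) : Prop where
  pos : 0 < N
  mono : ∀ i j, i < j → j < N → X i < X j
  gen : ∀ i j k, i < j → j < k → k < N → dt X Y i j k ≠ 0
  top : ∀ m, 0 < m → m + 1 < N → dt X Y 0 m (N - 1) < 0
  alt : ¬ SAlt X Y N (2 * K + 1) 0
  rich : ∃ LL : Finset (ℝ × ℝ), ∀ W ⊆ range N, s < W.card → ∀ f : ℕ → ℕ, Set.InjOn f W →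
    ∃ l ∈ LL, (∀ i < N, ht X Y l i ≠ 0) ∧ ∃ z : ℕ → ℕ, (∀ t, t ≤ 2 * K → z t ∈ W) ∧
      (∀ t, t < 2 * K → f (z t) < f (z (t + 1))) ∧
      ∀ t, t ≤ 2 * K → 0 < (-1 : ℝ) ^ (t + 1) * ht X Y l (z t)

structure Base (N : ℕ) (X Y : ℕ → ℝ) (c s : ℕ) : Prop where
  pos : 0 < N
  mono : ∀ i j, i < j → j < N → X i < X j
  gen : ∀ i j k, i < j → j < k → k < N → dt X Y i j k ≠ 0
  alt : ∀ r, ¬ SAlt X Y N (2 * c + 1) r
  rich : ∃ LL : Finset (ℝ × ℝ), ∀ W ⊆ range N, s < W.card → ∀ f : ℕ → ℕ, Set.InjOn f W →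
    ∃ l ∈ LL, (∀ i < N, ht X Y l i ≠ 0) ∧ ∃ (r : ℕ) (z : ℕ → ℕ), (∀ t, t < 2 * c → z t ∈ W) ∧
      (∀ t, t + 1 < 2 * c → f (z t) < f (z (t + 1))) ∧
      ∀ t, t < 2 * c → 0 < (-1 : ℝ) ^ (t + r) * ht X Y l (z t)

theorem fiber_le {N : ℕ} (hN : 0 < N) (W : Finset ℕ) (a : ℕ) :
    (W.filter (fun i => i / N = a)).card ≤ N := by
  have : W.filter (fun i => i / N = a) ⊆ Ico (a * N) (a * N + N) := by
    intro i hi
    rw [mem_filter] at hi
    rw [mem_Ico]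
    have h1 := Nat.div_add_mod i N
    have h2 := Nat.mod_lt i hN
    rw [hi.2, mul_comm] at h1
    omega
  calc _ ≤ _ := card_le_card this
    _ = N := by simp

theorem clusters {b N s : ℕ} (hN : 0 < N) {W : Finset ℕ} (hW : W ⊆ range (b * N))
    (hc : b * s + 2 * N < W.card) :
    3 ≤ ((range b).filter (fun a => s < (W.filter (fun i => i / N = a)).card)).card := by
  by_contra hcon
  push Not at hcon
  set A := (range b).filter (fun a => s < (W.filter (fun i => i / N = a)).card) with hA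
  have h1 : W.card = ∑ a ∈ range b, (W.filter (fun i => i / N = a)).card := by
    apply card_eq_sum_card_fiberwise
    intro i hi
    have := mem_range.1 (hW hi)
    simp only [coe_range, Set.mem_Iio]
    exact Nat.div_lt_of_lt_mul (by rwa [mul_comm])
  have h2 : ∑ a ∈ range b, (W.filter (fun i => i / N = a)).card ≤
      ∑ a ∈ range b, (s + if a ∈ A then N else 0) := by
    apply sum_le_sum
    intro a ha
    by_cases h : a ∈ A
    · rw [if_pos h]
      have := fiber_le hN W a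
      omega
    · rw [if_neg h]
      have h3 : ¬ s < (W.filter (fun i => i / N = a)).card := by
        intro h4
        exact h (mem_filter.2 ⟨ha, h4⟩)
      omega
  rw [sum_add_distrib, sum_const, card_range, smul_eq_mul, ← sum_filter] at h2
  have h3 : (range b).filter (fun a => a ∈ A) = A := by
    ext a
    simp only [mem_filter, hA]
    tauto
  rw [h3, sum_const, smul_eq_mul] at h2
  have h4 : A.card * N ≤ 2 * N := Nat.mul_le_mul_right _ (by omega)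
  omega

theorem three {A : Finset ℕ} (h : 3 ≤ A.card) {P Q : ℕ → ℕ} (hP : Set.InjOn P A)
    (hQ : Set.InjOn Q A) : ∃ a0 ∈ A, ∃ a1 ∈ A, ∃ a2 ∈ A, a0 ≠ a2 ∧ a1 ≠ a2 ∧ P a0 < P a2 ∧
      Q a2 < Q a1 := by
  have hne : A.Nonempty := card_pos.1 (by omega)
  obtain ⟨a0, h0, h0'⟩ := A.exists_min_image P hne
  obtain ⟨a1, h1, h1'⟩ := A.exists_max_image Q hne
  obtain ⟨a2, h2, h2'⟩ : ∃ a2 ∈ A, a2 ∉ ({a0, a1} : Finset ℕ) := by
    apply exists_mem_notMem_of_card_lt_card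
    exact lt_of_le_of_lt card_le_two (by omega)
  rw [mem_insert, mem_singleton, not_or] at h2'
  refine ⟨a0, h0, a1, h1, a2, h2, Ne.symm h2'.1, Ne.symm h2'.2, ?_, ?_⟩
  · exact lt_of_le_of_ne (h0' a2 h2) (fun h => h2'.1 (hP h0 h2 h).symm)
  · exact lt_of_le_of_ne (h1' a2 h2) (fun h => h2'.2 (hQ h2 h1 h))

/-- the part of `W` in the cluster `a` -/
def inn (N : ℕ) (W : Finset ℕ) (a : ℕ) : Finset ℕ := (W.filter (fun i => i / N = a)).image (· % N)

theorem inn_sub {N : ℕ} (hN : 0 < N) (W : Finset ℕ) (a : ℕ) : inn N W a ⊆ range N := by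
  intro v hv
  obtain ⟨i, _, rfl⟩ := mem_image.1 hv
  exact mem_range.2 (Nat.mod_lt _ hN)

theorem inn_mem {N : ℕ} {W : Finset ℕ} {a v : ℕ} (hv : v ∈ inn N W a) : a * N + v ∈ W := by
  obtain ⟨i, hi, rfl⟩ := mem_image.1 hv
  rw [mem_filter] at hi
  have h1 := Nat.div_add_mod i N
  rw [hi.2, mul_comm] at h1
  rw [h1]
  exact hi.1

theorem inn_card {N : ℕ} (W : Finset ℕ) (a : ℕ) :
    (inn N W a).card = (W.filter (fun i => i / N = a)).card := by
  apply card_image_of_injOn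
  intro i hi j hj h
  have hi' := (mem_filter.1 hi).2
  have hj' := (mem_filter.1 hj).2
  have h1 := Nat.div_add_mod i N
  have h2 := Nat.div_add_mod j N
  have h' : i % N = j % N := h
  rw [hi', h'] at h1
  rw [hj'] at h2
  omega

theorem add_div {N a v : ℕ} (hv : v < N) : (a * N + v) / N = a ∧ (a * N + v) % N = v := by
  constructor
  · rw [mul_comm, Nat.mul_add_div (by omega), Nat.div_eq_of_lt hv, add_zero]
  · rw [mul_comm, Nat.mul_add_mod, Nat.mod_eq_of_lt hv]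

theorem inn_inj {N : ℕ} {W : Finset ℕ} {f : ℕ → ℕ} (hf : Set.InjOn f W) (a : ℕ) :
    Set.InjOn (fun v => f (a * N + v)) (inn N W a) := by
  intro v hv w hw h
  have := hf (inn_mem hv) (inn_mem hw) h
  omega

/-- the common part of the two steps -/
theorem exists_parts {b N s : ℕ} (hN : 0 < N) {X Y : ℕ → ℝ} {LL : Finset (ℝ × ℝ)} {m : ℕ}
    {S : ℝ × ℝ → (ℕ → ℕ) → Prop}
    (hrich : ∀ W ⊆ range N, s < W.card → ∀ f : ℕ → ℕ, Set.InjOn f W →
      ∃ l ∈ LL, (∀ i < N, ht X Y l i ≠ 0) ∧ ∃ z : ℕ → ℕ, (∀ t, t ≤ m → z t ∈ W) ∧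
      (∀ t, t < m → f (z t) < f (z (t + 1))) ∧ S l z)
    {δ : ℝ} (hδ : 0 < δ)
    (hline : ∀ a < b, ∀ l ∈ LL, ∀ i < b * N, i / N ≠ a →
        ht (nX N X δ) (nY N X Y δ) (nL δ a l) i < 0)
    {W : Finset ℕ} (hW : W ⊆ range (b * N)) (hc : b * s + 2 * N < W.card) {f : ℕ → ℕ}
    (hf : Set.InjOn f W) : ∃ a < b, ∃ l ∈ LL, (∀ i < b * N,
        ht (nX N X δ) (nY N X Y δ) (nL δ a l) i ≠ 0) ∧ ∃ z : ℕ → ℕ, S l z ∧
        (∀ t, t ≤ m → z t < N ∧ a * N + z t ∈ W) ∧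
        (∀ t, t < m → f (a * N + z t) < f (a * N + z (t + 1))) ∧
        ∃ x ∈ W, ∃ y ∈ W, f x < f (a * N + z 0) ∧ f (a * N + z m) < f y ∧
          ht (nX N X δ) (nY N X Y δ) (nL δ a l) x < 0 ∧
          ht (nX N X δ) (nY N X Y δ) (nL δ a l) y < 0 := by
  classical
  set A := (range b).filter (fun a => s < (W.filter (fun i => i / N = a)).card) with hA
  have h3 := clusters hN hW hc
  rw [← hA] at h3
  have hex : ∀ a : ℕ, ∃ (l : ℝ × ℝ) (z : ℕ → ℕ), a ∈ A → l ∈ LL ∧ (∀ i < N, ht X Y l i ≠ 0) ∧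
      (∀ t, t ≤ m → z t ∈ inn N W a) ∧
      (∀ t, t < m → f (a * N + z t) < f (a * N + z (t + 1))) ∧ S l z := by
    intro a
    by_cases ha : a ∈ A
    · obtain ⟨l, hl, h4, z, h5, h6, h7⟩ := hrich (inn N W a) (inn_sub hN W a)
        (by rw [inn_card]; exact (mem_filter.1 ha).2) _ (inn_inj hf a)
      exact ⟨l, z, fun _ => ⟨hl, h4, h5, h6, h7⟩⟩
    · exact ⟨0, id, fun h => absurd h ha⟩
  choose l z hz using hex
  have hinj : ∀ t, t ≤ m → Set.InjOn (fun a => f (a * N + z a t)) A := by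
    intro t ht' a ha a' ha' h
    have h4 := (hz a ha).2.2.1 t ht'
    have h5 := (hz a' ha').2.2.1 t ht'
    have h6 := hf (inn_mem h4) (inn_mem h5) h
    have h7 := (add_div (a := a) (mem_range.1 (inn_sub hN W a h4))).1
    have h8 := (add_div (a := a') (mem_range.1 (inn_sub hN W a' h5))).1
    rw [h6] at h7
    exact h7.symm.trans h8
  obtain ⟨a0, h0, a1, h1, a2, h2, h02, h12, hP, hQ⟩ := three h3 (hinj 0 (Nat.zero_le _))
    (hinj m le_rfl)
  obtain ⟨b1, b2, b3, b4, b5⟩ := hz a2 h2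
  have ha2 : a2 < b := mem_range.1 (mem_filter.1 h2).1
  have hlt : ∀ t, t ≤ m → z a2 t < N := fun t ht' => mem_range.1 (inn_sub hN W a2 (b3 t ht'))
  have hx := inn_mem ((hz a0 h0).2.2.1 0 (Nat.zero_le _))
  have hx' := mem_range.1 (inn_sub hN W a0 ((hz a0 h0).2.2.1 0 (Nat.zero_le _)))
  have hy := inn_mem ((hz a1 h1).2.2.1 m le_rfl)
  have hy' := mem_range.1 (inn_sub hN W a1 ((hz a1 h1).2.2.1 m le_rfl))
  refine ⟨a2, ha2, l a2, b1, ?_, z a2, b5, fun t ht' => ⟨hlt t ht', inn_mem (b3 t ht')⟩, b4,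
    a0 * N + z a0 0, hx, a1 * N + z a1 m, hy, hP, hQ, ?_, ?_⟩
  · intro i hi
    by_cases h : i / N = a2
    · rw [← h, ht_same]
      have h4 := b2 (i % N) (Nat.mod_lt _ hN)
      rw [h]
      have : (0 : ℝ) < δ ^ 2 := by positivity
      exact mul_ne_zero (by linarith [this] |> fun (h : -δ ^ 2 < 0) => h.ne) h4
    · exact (hline a2 ha2 _ b1 i hi h).ne
  · exact hline a2 ha2 _ b1 _ (mem_range.1 (hW hx)) (by rw [(add_div hx').1]; exact h02)
  · exact hline a2 ha2 _ b1 _ (mem_range.1 (hW hy)) (by rw [(add_div hy').1]; exact h12)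

end Pool.Agent.H595K.Nst
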