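import Mathlib
import Pool.Agent.H595K.NState

/-!
# Nested caps and cups: the two steps
-/

namespace Pool.Agent.H595K.Nst

open Finset Filter Topology

theorem mono_of_step {g : ℕ → ℕ} {L : ℕ} (h : ∀ i, i + 1 < L → g i < g (i + 1)) :
    ∀ i j, i < j → j < L → g i < g j := by
  intro i j hij
  induction j, hij using Nat.le_induction with
  | base => intro hj; exact h i hj
  | succ j _ ih => intro hj; exact (ih (by omega)).trans (h j hj)

theorem exists_inner {δ : ℝ} (hδ : 0 < δ) (a : ℕ) (l' : ℝ × ℝ) : ∃ l, nL δ a l = l' := by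
  refine ⟨(-(l'.1 + 2 * a) / δ, ((a : ℝ) ^ 2 + a * (δ * (-(l'.1 + 2 * a) / δ)) - l'.2) / δ ^ 2), ?_⟩
  unfold nL
  ext
  · simp only
    field_simp
    ring
  · simp only
    field_simp
    ring

theorem dt_same {N : ℕ} (X Y : ℕ → ℝ) (δ : ℝ) {i j k : ℕ} (hij : i / N = j / N)
    (hik : i / N = k / N) : dt (nX N X δ) (nY N X Y δ) i j k =
      -δ ^ 3 * dt X Y (i % N) (j % N) (k % N) := by
  unfold dt nX nY
  rw [← hij, ← hik]
  ring

theorem same_cluster {N B : ℕ} {X Y : ℕ → ℝ} {δ : ℝ}
    (hmono : ∀ i j, i < j → j < B → nX N X δ i < nX N X δ j)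
    (hcap : ∀ i j k, i < j → j < k → k < B → i / N ≠ k / N →
        dt (nX N X δ) (nY N X Y δ) i j k < 0) {M : ℕ} (hM : 1 ≤ M) {l : ℝ × ℝ} {g : ℕ → ℕ}
    (h1 : ∀ i, i + 1 < 2 * M + 1 → g i < g (i + 1)) (h2 : ∀ i < 2 * M + 1, g i < B)
    (h3 : ∀ i < 2 * M + 1, 0 < (-1 : ℝ) ^ (i + 0) * ht (nX N X δ) (nY N X Y δ) l (g i)) :
    ∀ i < 2 * M + 1, g i / N = g 0 / N := by
  have hm := mono_of_step h1
  have h4 : g 0 / N = g (2 * M) / N := by
    by_contra hne
    have h5 := hcap (g 0) (g 1) (g (2 * M)) (hm 0 1 (by omega) (by omega))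
      (hm 1 (2 * M) (by omega) (by omega)) (h2 _ (by omega)) hne
    rw [dt_ht _ _ l] at h5
    have s0 := h3 0 (by omega)
    have s1 := h3 1 (by omega)
    have s2 := h3 (2 * M) (by omega)
    have e : (-1 : ℝ) ^ (2 * M + 0) = 1 := by rw [add_zero, pow_mul]; simp
    rw [e, one_mul] at s2
    simp only [add_zero, pow_zero, one_mul, pow_one] at s0 s1
    have x1 := hmono (g 0) (g 1) (hm 0 1 (by omega) (by omega)) (h2 _ (by omega))
    have x2 := hmono (g 1) (g (2 * M)) (hm 1 (2 * M) (by omega) (by omega)) (h2 _ (by omega))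
    have p1 := mul_pos (sub_pos.2 x1) s2
    have p2 := mul_pos (sub_pos.2 x2) s0
    have p3 := mul_pos (sub_pos.2 (x1.trans x2)) s1
    nlinarith
  intro i hi
  have h5 : g 0 ≤ g i := by
    rcases Nat.eq_zero_or_pos i with h | h
    · rw [h]
    · exact (hm 0 i h hi).le
  have h6 : g i ≤ g (2 * M) := by
    rcases Nat.lt_or_ge i (2 * M) with h | h
    · exact (hm i _ h (by omega)).le
    · have : i = 2 * M := by omega
      rw [this]
  have h7 := Nat.div_le_div_right (c := N) h5
  have h8 := Nat.div_le_div_right (c := N) h6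
  omega

theorem mod_lt_mod {N i j : ℕ} (h : i < j) (hd : i / N = j / N) : i % N < j % N := by
  have h1 := Nat.div_add_mod i N
  have h2 := Nat.div_add_mod j N
  rw [hd] at h1
  omega

theorem sign_flip {δ h : ℝ} (hδ : 0 < δ) (n : ℕ) :
    0 < (-1 : ℝ) ^ (n + 1) * (-δ ^ 2 * h) ↔ 0 < (-1 : ℝ) ^ n * h := by
  have e : (-1 : ℝ) ^ (n + 1) * (-δ ^ 2 * h) = δ ^ 2 * ((-1 : ℝ) ^ n * h) := by
    rw [pow_succ]; ring
  rw [e]
  exact mul_pos_iff_of_pos_left (by positivity)

theorem sign_flip' {δ h : ℝ} (hδ : 0 < δ) (n : ℕ) :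
    0 < (-1 : ℝ) ^ n * (-δ ^ 2 * h) ↔ 0 < (-1 : ℝ) ^ (n + 1) * h := by
  have e : (-1 : ℝ) ^ n * (-δ ^ 2 * h) = δ ^ 2 * ((-1 : ℝ) ^ (n + 1) * h) := by
    rw [pow_succ]; ring
  rw [e]
  exact mul_pos_iff_of_pos_left (by positivity)

theorem gen_step {N B : ℕ} (hN : 0 < N) {X Y : ℕ → ℝ}
    (hgen : ∀ i j k, i < j → j < k → k < N → dt X Y i j k ≠ 0) {δ : ℝ} (hδ : 0 < δ)
    (hcap : ∀ i j k, i < j → j < k → k < B → i / N ≠ k / N →
        dt (nX N X δ) (nY N X Y δ) i j k < 0) :
    ∀ i j k, i < j → j < k → k < B → dt (nX N X δ) (nY N X Y δ) i j k ≠ 0 := by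
  intro i j k hij hjk hk
  by_cases h : i / N = k / N
  · have h1 := Nat.div_le_div_right (c := N) hij.le
    have h2 := Nat.div_le_div_right (c := N) hjk.le
    have h3 : i / N = j / N := by omega
    rw [dt_same X Y δ h3 h]
    have h4 := hgen _ _ _ (mod_lt_mod hij h3) (mod_lt_mod hjk (h3.symm.trans h))
      (Nat.mod_lt _ hN)
    have : (0 : ℝ) < δ ^ 3 := by positivity
    exact mul_ne_zero (neg_ne_zero.2 this.ne') h4
  · exact (hcap i j k hij hjk hk h).ne

theorem top_step {N b : ℕ} (hN : 0 < N) (hb : 2 ≤ b) {X Y : ℕ → ℝ} {δ : ℝ}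
    (hcap : ∀ i j k, i < j → j < k → k < b * N → i / N ≠ k / N →
        dt (nX N X δ) (nY N X Y δ) i j k < 0) :
    ∀ m, 0 < m → m + 1 < b * N → dt (nX N X δ) (nY N X Y δ) 0 m (b * N - 1) < 0 := by
  intro m h0 hm
  apply hcap _ _ _ h0 (by omega) (by omega)
  rw [Nat.zero_div]
  have h1 : N ≤ b * N - 1 := by
    have : 2 * N ≤ b * N := Nat.mul_le_mul_right _ hb
    omega
  have h2 : 0 < (b * N - 1) / N := Nat.div_pos h1 hN
  omega

theorem Nest.step {N K s : ℕ} {X Y : ℕ → ℝ} (h : Nest N X Y K s) {b : ℕ} (hb : 2 ≤ b) :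
    ∃ X' Y', Nest (b * N) X' Y' (K + 1) (b * s + 2 * N) := by
  classical
  have hN := h.pos
  obtain ⟨LL, hLL⟩ := h.rich
  obtain ⟨δ, hδ, hmono, hcap, hline⟩ := exists_delta (b := b) hN Y h.mono LL
  refine ⟨nX N X δ, nY N X Y δ, Nat.mul_pos (by omega) hN, hmono, gen_step hN h.gen hδ hcap,
    top_step hN hb hcap, ?_, ?_⟩
  · rintro ⟨l', g, h1, h2, h3⟩
    have h4 := same_cluster (M := K + 1) hmono hcap (by omega) h1 h2 h3
    obtain ⟨l, hl⟩ := exists_inner hδ (g 0 / N) l'
    apply h.alt
    refine ⟨l, fun i => g (i + 1) % N, ?_, ?_, ?_⟩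
    · intro i hi
      exact mod_lt_mod (h1 (i + 1) (by omega))
        ((h4 (i + 1) (by omega)).trans (h4 (i + 1 + 1) (by omega)).symm)
    · intro i _
      exact Nat.mod_lt _ hN
    · intro i hi
      have h5 := h3 (i + 1) (by omega)
      have h6 := h4 (i + 1) (by omega)
      rw [← hl, ← h6, ht_same, add_zero, sign_flip hδ] at h5
      rwa [add_zero]
  · refine ⟨(range b ×ˢ LL).image (fun p => nL δ p.1 p.2), ?_⟩
    intro W hW hc f hf
    obtain ⟨a, ha, l, hl, h1, z, h2, h3, h4, x, hx, y, hy, h5, h6, h7, h8⟩ :=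
      exists_parts hN (m := 2 * K)
        (S := fun l z => ∀ t, t ≤ 2 * K → 0 < (-1 : ℝ) ^ (t + 1) * ht X Y l (z t))
        hLL hδ hline hW hc hf
    refine ⟨nL δ a l, mem_image.2 ⟨(a, l), mem_product.2 ⟨mem_range.2 ha, hl⟩, rfl⟩, h1, ?_⟩
    have hz1 : ∀ t, t ≤ 2 * K → 0 < (-1 : ℝ) ^ t *
        ht (nX N X δ) (nY N X Y δ) (nL δ a l) (a * N + z t) := by
      intro t ht'
      have h9 := h2 t ht'
      obtain ⟨e1, e2⟩ := add_div (a := a) (h3 t ht').1
      have h10 := ht_same N X Y δ l (a * N + z t)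
      rw [e1, e2] at h10
      rw [h10, sign_flip' hδ]
      exact h9
    refine ⟨fun t => if t = 0 then x else if t ≤ 2 * K + 1 then a * N + z (t - 1) else y, ?_, ?_, ?_⟩
    · intro t ht'
      simp only
      split_ifs with c1 c2
      · exact hx
      · exact (h3 _ (by omega)).2
      · exact hy
    · intro t ht'
      simp only
      rw [if_neg (by omega : ¬ t + 1 = 0)]
      rcases Nat.eq_zero_or_pos t with c1 | c1
      · subst c1
        rw [if_pos rfl, if_pos (by omega)]
        exact h5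
      · rw [if_neg (by omega : ¬ t = 0), if_pos (by omega : t ≤ 2 * K + 1)]
        by_cases c2 : t + 1 ≤ 2 * K + 1
        · rw [if_pos c2]
          have := h4 (t - 1) (by omega)
          rw [show t - 1 + 1 = t by omega] at this
          exact this
        · rw [if_neg c2]
          have : t - 1 = 2 * K := by omega
          rw [this]
          exact h6
    · intro t ht'
      simp only
      split_ifs with c1 c2
      · subst c1
        rw [zero_add, pow_one]
        linarith
      · have := hz1 (t - 1) (by omega)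
        have e : (-1 : ℝ) ^ (t + 1) = (-1 : ℝ) ^ (t - 1) := by
          rw [show t + 1 = t - 1 + 2 by omega, pow_add]
          norm_num
        rw [e]
        exact this
      · have e0 : t = 2 * (K + 1) := by omega
        have e : (-1 : ℝ) ^ (t + 1) = -1 := by
          rw [e0, pow_succ, pow_mul]
          norm_num
        rw [e]
        linarith

theorem Base.step {N c s : ℕ} {X Y : ℕ → ℝ} (h : Base N X Y c s) (hc1 : 1 ≤ c) {b : ℕ}
    (hb : 2 ≤ b) : ∃ X' Y', Nest (b * N) X' Y' c (b * s + 2 * N) := by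
  classical
  have hN := h.pos
  obtain ⟨LL, hLL⟩ := h.rich
  obtain ⟨δ, hδ, hmono, hcap, hline⟩ := exists_delta (b := b) hN Y h.mono LL
  refine ⟨nX N X δ, nY N X Y δ, Nat.mul_pos (by omega) hN, hmono, gen_step hN h.gen hδ hcap,
    top_step hN hb hcap, ?_, ?_⟩
  · rintro ⟨l', g, h1, h2, h3⟩
    have h4 := same_cluster (M := c) hmono hcap hc1 h1 h2 h3
    obtain ⟨l, hl⟩ := exists_inner hδ (g 0 / N) l'
    apply h.alt 1
    refine ⟨l, fun i => g i % N, ?_, ?_, ?_⟩
    · intro i hi
      exact mod_lt_mod (h1 i (by omega))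
        ((h4 i (by omega)).trans (h4 (i + 1) (by omega)).symm)
    · intro i _
      exact Nat.mod_lt _ hN
    · intro i hi
      have h5 := h3 i (by omega)
      have h6 := h4 i (by omega)
      rw [← hl, ← h6, ht_same, add_zero, sign_flip' hδ] at h5
      exact h5
  · refine ⟨(range b ×ˢ LL).image (fun p => nL δ p.1 p.2), ?_⟩
    intro W hW hc f hf
    obtain ⟨a, ha, l, hl, h1, z, ⟨r, h2⟩, h3, h4, x, hx, y, hy, h5, h6, h7, h8⟩ :=
      exists_parts hN (m := 2 * c - 1) (LL := LL)
        (S := fun l z => ∃ r : ℕ, ∀ t, t < 2 * c → 0 < (-1 : ℝ) ^ (t + r) * ht X Y l (z t))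
        (by
          intro W' hW' hc' f' hf'
          obtain ⟨l, hl, h1, r, z, h2, h3, h4⟩ := hLL W' hW' hc' f' hf'
          exact ⟨l, hl, h1, z, fun t ht' => h2 t (by omega), fun t ht' => h3 t (by omega),
            r, h4⟩) hδ hline hW hc hf
    refine ⟨nL δ a l, mem_image.2 ⟨(a, l), mem_product.2 ⟨mem_range.2 ha, hl⟩, rfl⟩, h1, ?_⟩
    have hz1 : ∀ t, t < 2 * c → 0 < (-1 : ℝ) ^ (t + r + 1) *
        ht (nX N X δ) (nY N X Y δ) (nL δ a l) (a * N + z t) := by
      intro t ht'
      have h9 := h2 t ht'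
      obtain ⟨e1, e2⟩ := add_div (a := a) (h3 t (by omega)).1
      have h10 := ht_same N X Y δ l (a * N + z t)
      rw [e1, e2] at h10
      rw [h10, sign_flip hδ]
      exact h9
    rcases Nat.even_or_odd r with hr | hr
    · have hr1 : (-1 : ℝ) ^ r = 1 := hr.neg_one_pow
      refine ⟨fun t => if t < 2 * c then a * N + z t else y, ?_, ?_, ?_⟩
      · intro t ht'
        simp only
        split_ifs with c1
        · exact (h3 _ (by omega)).2
        · exact hy
      · intro t ht'
        simp only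
        rw [if_pos (by omega : t < 2 * c)]
        by_cases c2 : t + 1 < 2 * c
        · rw [if_pos c2]
          exact h4 t (by omega)
        · rw [if_neg c2]
          have : t = 2 * c - 1 := by omega
          rw [this]
          exact h6
      · intro t ht'
        simp only
        split_ifs with c1
        · have := hz1 t c1
          rw [show t + r + 1 = (t + 1) + r by ring, pow_add _ (t + 1) r, hr1, mul_one] at this
          exact this
        · have e0 : t = 2 * c := by omega
          have e : (-1 : ℝ) ^ (t + 1) = -1 := by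
            rw [e0, pow_succ, pow_mul]
            norm_num
          rw [e]
          linarith
    · have hr1 : (-1 : ℝ) ^ (r + 1) = 1 := (hr.add_one).neg_one_pow
      refine ⟨fun t => if t = 0 then x else a * N + z (t - 1), ?_, ?_, ?_⟩
      · intro t ht'
        simp only
        split_ifs with c1
        · exact hx
        · exact (h3 _ (by omega)).2
      · intro t ht'
        simp only
        rw [if_neg (by omega : ¬ t + 1 = 0)]
        rcases Nat.eq_zero_or_pos t with c1 | c1
        · subst c1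
          rw [if_pos rfl]
          exact h5
        · rw [if_neg (by omega : ¬ t = 0)]
          have := h4 (t - 1) (by omega)
          rw [show t - 1 + 1 = t by omega] at this
          exact this
      · intro t ht'
        simp only
        split_ifs with c1
        · subst c1
          rw [zero_add, pow_one]
          linarith
        · have := hz1 (t - 1) (by omega)
          rw [show t - 1 + r + 1 = (t - 1) + (r + 1) by ring, pow_add _ (t - 1), hr1,
            mul_one] at this
          have e : (-1 : ℝ) ^ (t + 1) = (-1 : ℝ) ^ (t - 1) := by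
            rw [show t + 1 = t - 1 + 2 by omega, pow_add]
            norm_num
          rw [e]
          exact this

end Pool.Agent.H595K.Nst
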