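import Mathlib
import Pool.Agent.H595K.KLow

/-!
# Polygons from trees with short words and many leaves
-/

namespace Pool.Agent.H595K

namespace Lb

open LT

section
variable {X Y : ℕ → ℝ}

theorem pairsR_of_rel {g : ℕ → ℕ → ℝ} {v : ℝ} {Z : List ℕ} {t : LT ℝ} (h : Rel g v Z t)
    (hv : AllL (fun b => v < b) t) :
    t.lv.Pairwise (fun i j => ∀ z ∈ Z, g j z < g i j) := by
  induction t with
  | leaf i => simp [lv]
  | node b l r hl hr =>
    simp only [lv]
    rw [List.pairwise_append]
    refine ⟨hl h.2.1 hv.2.1, hr h.2.2 hv.2.2, ?_⟩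
    intro i hi j hj z hz
    exact (h.1.1 hv.1 i hi j hj z hz).2

theorem pairsR_of_rel' {g : ℕ → ℕ → ℝ} {v : ℝ} {Z : List ℕ} {t : LT ℝ} (h : Rel g v Z t)
    (hv : AllL (fun b => b < v) t) :
    t.lv.Pairwise (fun i j => ∀ z ∈ Z, g i j < g j z) := by
  induction t with
  | leaf i => simp [lv]
  | node b l r hl hr =>
    simp only [lv]
    rw [List.pairwise_append]
    refine ⟨hl h.2.1 hv.2.1, hr h.2.2 hv.2.2, ?_⟩
    intro i hi j hj z hz
    have := (h.1.2.1 hv.1 i hi j hj z hz).2
    simp only at this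
    linarith

/-- the bound for the changes -/
theorem ch_of_wb {K k : ℕ} (hK : 1 ≤ K) (hKk : K + 1 ≤ 2 * k) {t : LT ℝ}
    (hx : t.lv.Pairwise (fun i j => X i < X j)) (hC : Compat (slp X Y) t) (hW : WB [] K [] t) :
    (∀ θ β, ch (Wd X Y θ β t.lv) + 1 ≤ 2 * k) ∧
      ∀ θ β, ch (Wd X (fun i => - Y i) θ β t.lv) + 1 ≤ 2 * k := by
  constructor
  · intro θ β
    have h7 : Cons (fun i => decide (0 ≤ Y i - θ * X i - β)) t := by
      refine cons_of_compat (X := X) (Y := Y) (θ := θ) ?_ hx hC
      intro i j hi hj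
      have hi : Y i - θ * X i - β < 0 := by simpa using hi
      have hj : 0 ≤ Y j - θ * X j - β := by simpa using hj
      linarith
    have h8 := shape hK h7 hW
    unfold Wd
    omega
  · intro θ β
    have h7 : Cons (fun i => !decide (0 ≤ -Y i - θ * X i - β)) t := by
      refine cons_of_compat (X := X) (Y := Y) (θ := -θ) ?_ hx hC
      intro i j hi hj
      have hi : 0 ≤ -Y i - θ * X i - β := by simpa using hi
      have hj : -Y j - θ * X j - β < 0 := by simpa using hj
      linarith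
    have h8 := shape hK h7 hW
    have e8 : t.lv.map (fun i => !decide (0 ≤ -Y i - θ * X i - β)) =
        (t.lv.map (fun i => decide (0 ≤ -Y i - θ * X i - β))).map not := by
      rw [List.map_map]; rfl
    rw [e8, ch_map_not] at h8
    show ch (t.lv.map (fun i => decide (0 ≤ -Y i - θ * X i - β))) + 1 ≤ 2 * k
    omega

theorem nice_left {K k : ℕ} (hK : 1 ≤ K) (hKk : K + 1 ≤ 2 * k) {v : ℝ} {t' : LT ℝ} {z : ℕ}
    (hx' : (node v t' (leaf z)).lv.Pairwise (fun i j => X i < X j))
    (hC' : Compat (slp X Y) (node v t' (leaf z))) (hW' : WB [] K [] (node v t' (leaf z)))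
    (h6 : AllL (fun b => v < b) t' ∨ AllL (fun b => b < v) t') :
    NiceK k X Y (node v t' (leaf z)).lv ∨ NiceK k X (fun i => - Y i) (node v t' (leaf z)).lv := by
  obtain ⟨w1, w2⟩ := ch_of_wb hK hKk hx' hC' hW'
  have hlv : (node v t' (leaf z)).lv = t'.lv ++ [z] := rfl
  have hx'' := hx'
  rw [hlv, List.pairwise_append] at hx''
  obtain ⟨hxt, _, hxz⟩ := hx''
  rcases h6 with h6 | h6
  · left
    have h6 := pairs_of_rel hC'.1.1 h6
    refine ⟨hx', ?_, w1⟩
    intro p z' L e i hi
    have e1 : t'.lv ++ [z] = (p :: L) ++ [z'] := e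
    have e2 := List.append_inj' e1 rfl
    obtain ⟨e3, e4⟩ := e2
    have e5 : z = z' := by simpa using e4
    subst e5
    rw [e3] at h6 hxt hxz
    have h7 := (List.pairwise_cons.1 h6).1 i hi z (by simp [lv])
    have h8 := (List.pairwise_cons.1 hxt).1 i hi
    have h9 := hxz p (by simp) z (by simp)
    have h10 : slp X Y p z * (X z - X p) = Y z - Y p := slp_mul h9
    have h11 : slp X Y p i * (X i - X p) = Y i - Y p := slp_mul h8
    rw [← h10, ← h11]
    have h12 : 0 < (X z - X p) * (X i - X p) := mul_pos (by linarith) (by linarith)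
    nlinarith
  · right
    have h6 := pairs_of_rel' hC'.1.1 h6
    refine ⟨hx', ?_, w2⟩
    intro p z' L e i hi
    have e1 : t'.lv ++ [z] = (p :: L) ++ [z'] := e
    have e2 := List.append_inj' e1 rfl
    obtain ⟨e3, e4⟩ := e2
    have e5 : z = z' := by simpa using e4
    subst e5
    rw [e3] at h6 hxt hxz
    have h7 := (List.pairwise_cons.1 h6).1 i hi z (by simp [lv])
    have h8 := (List.pairwise_cons.1 hxt).1 i hi
    have h9 := hxz p (by simp) z (by simp)
    have h10 : slp X Y p z * (X z - X p) = Y z - Y p := slp_mul h9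
    have h11 : slp X Y p i * (X i - X p) = Y i - Y p := slp_mul h8
    have h12 : 0 < (X z - X p) * (X i - X p) := mul_pos (by linarith) (by linarith)
    show (-Y z - -Y p) * (X i - X p) < (-Y i - -Y p) * (X z - X p)
    have e6 : -Y z - -Y p = -(slp X Y p z * (X z - X p)) := by rw [h10]; ring
    have e7 : -Y i - -Y p = -(slp X Y p i * (X i - X p)) := by rw [h11]; ring
    rw [e6, e7]
    nlinarith

theorem nice_right {K k : ℕ} (hK : 1 ≤ K) (hKk : K + 1 ≤ 2 * k) {v : ℝ} {t' : LT ℝ} {z : ℕ}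
    (hx' : (node v (leaf z) t').lv.Pairwise (fun i j => X i < X j))
    (hC' : Compat (slp X Y) (node v (leaf z) t')) (hW' : WB [] K [] (node v (leaf z) t'))
    (h6 : AllL (fun b => v < b) t' ∨ AllL (fun b => b < v) t') :
    NiceK k X Y (node v (leaf z) t').lv ∨ NiceK k X (fun i => - Y i) (node v (leaf z) t').lv := by
  obtain ⟨w1, w2⟩ := ch_of_wb hK hKk hx' hC' hW'
  have hlv : (node v (leaf z) t').lv = z :: t'.lv := rfl
  have hx'' := hx'
  rw [hlv, List.pairwise_cons] at hx''
  obtain ⟨hxz, hxt⟩ := hx''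
  rcases h6 with h6 | h6
  · right
    have h6 := pairsR_of_rel hC'.1.2 h6
    refine ⟨hx', ?_, w2⟩
    intro p z' L e i hi
    have e1 : z :: t'.lv = p :: (L ++ [z']) := e
    rw [List.cons.injEq] at e1
    obtain ⟨rfl, e3⟩ := e1
    rw [e3] at h6 hxt hxz
    rw [List.pairwise_append] at h6 hxt
    have h7 := h6.2.2 i hi z' (by simp) z (by simp [lv])
    have h8 := hxt.2.2 i hi z' (by simp)
    have h9 := hxz z' (by simp)
    have h13 := hxz i (by simp [hi])
    rw [slp_comm] at h7
    have h10 : slp X Y z z' * (X z' - X z) = Y z' - Y z := slp_mul h9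
    have h11 : slp X Y i z' * (X z' - X i) = Y z' - Y i := slp_mul h8
    show (-Y z' - -Y z) * (X i - X z) < (-Y i - -Y z) * (X z' - X z)
    have e6 : -Y z' - -Y z = -(slp X Y z z' * (X z' - X z)) := by rw [h10]; ring
    have e7 : -Y i - -Y z = slp X Y i z' * (X z' - X i) - slp X Y z z' * (X z' - X z) := by
      rw [h10, h11]; ring
    rw [e6, e7]
    have h12 : 0 < (X z' - X z) * (X z' - X i) := mul_pos (by linarith) (by linarith)
    nlinarith
  · left
    have h6 := pairsR_of_rel' hC'.1.2 h6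
    refine ⟨hx', ?_, w1⟩
    intro p z' L e i hi
    have e1 : z :: t'.lv = p :: (L ++ [z']) := e
    rw [List.cons.injEq] at e1
    obtain ⟨rfl, e3⟩ := e1
    rw [e3] at h6 hxt hxz
    rw [List.pairwise_append] at h6 hxt
    have h7 := h6.2.2 i hi z' (by simp) z (by simp [lv])
    have h8 := hxt.2.2 i hi z' (by simp)
    have h9 := hxz z' (by simp)
    have h13 := hxz i (by simp [hi])
    rw [slp_comm (i := z')] at h7
    have h10 : slp X Y z z' * (X z' - X z) = Y z' - Y z := slp_mul h9
    have h11 : slp X Y i z' * (X z' - X i) = Y z' - Y i := slp_mul h8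
    have e7 : Y i - Y z = slp X Y z z' * (X z' - X z) - slp X Y i z' * (X z' - X i) := by
      rw [h10, h11]; ring
    rw [← h10, e7]
    have h12 : 0 < (X z' - X z) * (X z' - X i) := mul_pos (by linarith) (by linarith)
    nlinarith

/-- two colours -/
theorem exists_two {t : LT ℝ} {P0 P1 : ℝ → Prop} (h : AllL (fun x => P0 x ∨ P1 x) t) :
    ∃ t0 t1, Sub (fun _ _ _ => True) t0 t ∧ AllL P0 t0 ∧ Sub (fun _ _ _ => True) t1 t ∧
      AllL P1 t1 ∧ t.lv.length ≤ t0.lv.length * t1.lv.length := by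
  induction t with
  | leaf i => exact ⟨leaf i, leaf i, Sub.refl _, trivial, Sub.refl _, trivial, by simp [lv]⟩
  | node a l r hl hr =>
    obtain ⟨l0, l1, a1, a2, a3, a4, a5⟩ := hl h.2.1
    obtain ⟨r0, r1, b1, b2, b3, b4, b5⟩ := hr h.2.2
    have e : (node a l r).lv.length = l.lv.length + r.lv.length := by simp [lv]
    rcases h.1 with h0 | h0
    · rcases le_total l1.lv.length r1.lv.length with h1 | h1
      · refine ⟨node a l0 r0, r1, Sub.node trivial a1 b1, ⟨h0, a2, b2⟩, Sub.right _ _ b3, b4, ?_⟩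
        rw [e]
        have e2 : (node a l0 r0).lv.length = l0.lv.length + r0.lv.length := by simp [lv]
        rw [e2]
        nlinarith
      · refine ⟨node a l0 r0, l1, Sub.node trivial a1 b1, ⟨h0, a2, b2⟩, Sub.left _ _ a3, a4, ?_⟩
        rw [e]
        have e2 : (node a l0 r0).lv.length = l0.lv.length + r0.lv.length := by simp [lv]
        rw [e2]
        nlinarith
    · rcases le_total l0.lv.length r0.lv.length with h1 | h1
      · refine ⟨r0, node a l1 r1, Sub.right _ _ b1, b2, Sub.node trivial a3 b3, ⟨h0, a4, b4⟩, ?_⟩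
        rw [e]
        have e2 : (node a l1 r1).lv.length = l1.lv.length + r1.lv.length := by simp [lv]
        rw [e2]
        nlinarith
      · refine ⟨l0, node a l1 r1, Sub.left _ _ a1, a2, Sub.node trivial a3 b3, ⟨h0, a4, b4⟩, ?_⟩
        rw [e]
        have e2 : (node a l1 r1).lv.length = l1.lv.length + r1.lv.length := by simp [lv]
        rw [e2]
        nlinarith

theorem exists_mono {n : ℕ} {v : ℝ} {t : LT ℝ} (hne : AllL (fun b => b ≠ v) t)
    (hn : 2 ^ (2 * n) ≤ t.lv.length) :
    ∃ t', Sub (fun _ _ _ => True) t' t ∧ 2 ^ n ≤ t'.lv.length ∧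
      (AllL (fun b => v < b) t' ∨ AllL (fun b => b < v) t') := by
  obtain ⟨t0, t1, a1, a2, a3, a4, a5⟩ := exists_two (P0 := fun b => v < b) (P1 := fun b => b < v)
    (hne.imp (fun b hb => (lt_or_gt_of_ne hb).symm))
  by_contra hcon
  push Not at hcon
  have h0 : t0.lv.length < 2 ^ n := by
    by_contra h
    exact (hcon t0 a1 (not_lt.1 h)).1 a2
  have h1 : t1.lv.length < 2 ^ n := by
    by_contra h
    exact (hcon t1 a3 (not_lt.1 h)).2 a4
  have h2 : (2 : ℕ) ^ (2 * n) = 2 ^ n * 2 ^ n := by rw [two_mul, pow_add]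
  have h3 : t0.lv.length * t1.lv.length < 2 ^ n * 2 ^ n := Nat.mul_lt_mul'' h0 h1
  omega

/-- **Polygons from trees with short words.** -/
theorem exists_niceL {K k n : ℕ} (hK : 1 ≤ K) (hKk : K + 1 ≤ 2 * k) {t : LT ℝ}
    (hx : t.lv.Pairwise (fun i j => X i < X j)) (hC : Compat (slp X Y) t)
    (hn : 2 ^ (2 * n + 1) ≤ t.lv.length) (hW : WB [] K [] t) :
    ∃ Q : List ℕ, 2 ^ n + 1 ≤ Q.length ∧ (∀ i ∈ Q, i ∈ t.lv) ∧
      (NiceK k X Y Q ∨ NiceK k X (fun i => - Y i) Q) := by
  cases t with
  | leaf i =>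
    exfalso
    have h1 : 2 ^ (2 * n + 1) ≤ 1 := hn
    rw [pow_succ] at h1
    have : 1 ≤ 2 ^ (2 * n) := Nat.one_le_two_pow
    omega
  | node v l r =>
    have e : (node v l r).lv.length = l.lv.length + r.lv.length := by simp [lv]
    have h0 : (2 : ℕ) ^ (2 * n + 1) = 2 ^ (2 * n) + 2 ^ (2 * n) := by ring
    by_cases hl : 2 ^ (2 * n) ≤ l.lv.length
    · obtain ⟨t', h1, h2, h3⟩ := exists_mono hC.dst.1.1 hl
      obtain ⟨z, hz⟩ : ∃ z, Sub (fun _ _ _ => True) (leaf z) r := exists_leaf r
      have hsub : Sub (fun _ _ _ => True) (node v t' (leaf z)) (node v l r) :=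
        Sub.node trivial h1 hz
      refine ⟨(node v t' (leaf z)).lv, ?_, fun i hi => hsub.mem hi,
        nice_left hK hKk (hx.sublist hsub.sublist) (hC.sub hsub)
          (hW.sub hsub (List.Sublist.refl _)) h3⟩
      simp only [lv, List.length_append, List.length_singleton]
      omega
    · have hr : 2 ^ (2 * n) ≤ r.lv.length := by omega
      obtain ⟨t', h1, h2, h3⟩ := exists_mono hC.dst.1.2 hr
      obtain ⟨z, hz⟩ : ∃ z, Sub (fun _ _ _ => True) (leaf z) l := exists_leaf l
      have hsub : Sub (fun _ _ _ => True) (node v (leaf z) t') (node v l r) :=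
        Sub.node trivial hz h1
      refine ⟨(node v (leaf z) t').lv, ?_, fun i hi => hsub.mem hi,
        nice_right hK hKk (hx.sublist hsub.sublist) (hC.sub hsub)
          (hW.sub hsub (List.Sublist.refl _)) h3⟩
      simp only [lv, List.length_append, List.length_singleton]
      omega

end

end Lb

end Pool.Agent.H595K
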