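import Mathlib
import Pool.Agent.H595K.SNice
import Pool.Agent.H184R3.ES

/-!
# Trees with many leaves, caterpillars, iterated logarithms
-/

namespace Pool.Agent.H595K.Lb

open LT

/-! ### Iterated logarithms -/

/-- `1 + log x` -/
noncomputable def Lg (x : ℝ) : ℝ := 1 + Real.log x

theorem one_le_Lg {x : ℝ} (h : 1 ≤ x) : 1 ≤ Lg x := by
  have := Real.log_nonneg h
  unfold Lg; linarith

theorem Lg_le {x : ℝ} (h : 1 ≤ x) : Lg x ≤ x := by
  have := Real.log_le_sub_one_of_pos (show 0 < x by linarith)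
  unfold Lg; linarith

theorem Lg_mono {x y : ℝ} (h : 1 ≤ x) (hxy : x ≤ y) : Lg x ≤ Lg y := by
  have := Real.log_le_log (by linarith) hxy
  unfold Lg; linarith

theorem Lg_mul {C x : ℝ} (hC : 1 ≤ C) (h : 1 ≤ x) : Lg (C * x) ≤ C * Lg x := by
  have h1 := Real.log_le_sub_one_of_pos (show 0 < C by linarith)
  have h2 := Real.log_nonneg h
  unfold Lg
  rw [Real.log_mul (by linarith) (by linarith)]
  nlinarith

/-- the iterated logarithm -/
noncomputable def ell (h : ℕ) (x : ℝ) : ℝ := Lg^[h] x

theorem ell_zero (x : ℝ) : ell 0 x = x := rfl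

theorem ell_succ (h : ℕ) (x : ℝ) : ell (h + 1) x = ell h (Lg x) := rfl

theorem one_le_ell (h : ℕ) : ∀ {x : ℝ}, 1 ≤ x → 1 ≤ ell h x := by
  induction h with
  | zero => intro x hx; exact hx
  | succ h ih => intro x hx; exact ih (one_le_Lg hx)

theorem ell_le (h : ℕ) : ∀ {x : ℝ}, 1 ≤ x → ell h x ≤ x := by
  induction h with
  | zero => intro x _; exact le_rfl
  | succ h ih => intro x hx; exact (ih (one_le_Lg hx)).trans (Lg_le hx)

theorem ell_mono (h : ℕ) : ∀ {x y : ℝ}, 1 ≤ x → x ≤ y → ell h x ≤ ell h y := by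
  induction h with
  | zero => intro x y _ hxy; exact hxy
  | succ h ih => intro x y hx hxy; exact ih (one_le_Lg hx) (Lg_mono hx hxy)

theorem ell_mul (h : ℕ) : ∀ {C x : ℝ}, 1 ≤ C → 1 ≤ x → ell h (C * x) ≤ C * ell h x := by
  induction h with
  | zero => intro C x _ _; exact le_rfl
  | succ h ih =>
    intro C x hC hx
    have h1 : 1 ≤ Lg (C * x) := one_le_Lg (by nlinarith)
    exact (ell_mono h h1 (Lg_mul hC hx)).trans (ih hC (one_le_Lg hx))

theorem ell_succ_le (h : ℕ) {x : ℝ} (hx : 1 ≤ x) : ell (h + 1) x ≤ Lg x :=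
  ell_le h (one_le_Lg hx)

/-! ### Trees with many leaves -/

/-- at least `2 ^ n` leaves -/
def Big (n : ℕ) (t : LT ℝ) : Prop := 2 ^ n ≤ t.lv.length

theorem Big.mono {n m : ℕ} {t : LT ℝ} (h : Big n t) (hm : m ≤ n) : Big m t :=
  (Nat.pow_le_pow_right (by norm_num) hm).trans h

theorem Big.zero (t : LT ℝ) : Big 0 t := by
  induction t with
  | leaf i => simp [Big, lv]
  | node a l r hl _ =>
    unfold Big at hl ⊢
    simp only [lv, List.length_append]
    omega

theorem big_of_comp {n : ℕ} {t : LT ℝ} (h : Comp n t) : Big n t := by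
  unfold Big
  rw [h.length]

theorem gr_length {Q : LT ℝ → Prop} {d : Bool} {c : ℕ} (hQ : ∀ t, Q t → c ≤ t.lv.length)
    {X0 : LT ℝ} : ∀ {Y : LT ℝ}, Gr Q d X0 Y → X0.lv.length * c ≤ Y.lv.length := by
  induction X0 with
  | leaf i =>
    intro Y h
    have := hQ Y h
    simpa [lv] using this
  | node x l r hl hr =>
    intro Y h
    cases Y with
    | leaf i => exact h.elim
    | node x' l' r' =>
      have h1 := hl h.2.2.2.1
      have h2 := hr h.2.2.2.2
      simp only [lv, List.length_append]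
      rw [add_mul]
      omega

theorem gr_big {d : Bool} {n m : ℕ} {Q : LT ℝ → Prop} (hQ : ∀ t, Q t → Big m t) {X0 Y : LT ℝ}
    (hX : Big n X0) (h : Gr Q d X0 Y) : Big (n + m) Y := by
  have h1 := gr_length (c := 2 ^ m) hQ h
  unfold Big at hX ⊢
  rw [pow_add]
  exact (Nat.mul_le_mul_right _ hX).trans h1

/-! ### Caterpillars -/

/-- the labels of the left spine -/
def sp : LT ℝ → List ℝ
  | leaf _ => []
  | node a l _ => a :: sp l

theorem sp_length {t : LT ℝ} : ∀ {m : ℕ}, Comp m t → (sp t).length = m := by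
  induction t with
  | leaf i =>
    intro m h
    cases m with
    | zero => rfl
    | succ m => exact absurd h (by simp [Comp])
  | node a l r hl _ =>
    intro m h
    cases m with
    | zero => exact absurd h (by simp [Comp])
    | succ m => simp [sp, hl h.1]

theorem sp_allL {P : ℝ → Prop} {t : LT ℝ} (h : AllL P t) : ∀ x ∈ sp t, P x := by
  induction t with
  | leaf i => simp [sp]
  | node a l r hl _ =>
    intro x hx
    rcases List.mem_cons.1 hx with rfl | hx
    · exact h.1
    · exact hl h.2.1 x hx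

theorem sp_nodup {t : LT ℝ} (h : Dst t) : (sp t).Nodup := by
  induction t with
  | leaf i => simp [sp]
  | node a l r hl _ =>
    refine List.nodup_cons.2 ⟨?_, hl h.2.1⟩
    intro ha
    exact sp_allL h.1.1 a ha rfl

theorem cat_of_sublist {e : Bool} {t : LT ℝ} : ∀ {L : List ℝ}, L.Sublist (sp t) →
    L.Pairwise (Dr e) → ∃ X, Sub (fun _ _ _ => True) X t ∧ PP e X ∧
      X.lv.length = L.length + 1 ∧ AllL (fun y => y ∈ L) X := by
  induction t with
  | leaf i =>
    intro L hL _
    have : L = [] := by simpa [sp] using hL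
    subst this
    exact ⟨leaf i, Sub.refl _, trivial, rfl, trivial⟩
  | node a l r hl _ =>
    intro L hL hp
    cases hL with
    | cons _ h =>
      obtain ⟨X, h1, h2, h3, h4⟩ := hl h hp
      exact ⟨X, Sub.left _ _ h1, h2, h3, h4⟩
    | @cons_cons L' _ _ h =>
      rw [List.pairwise_cons] at hp
      obtain ⟨X, h1, h2, h3, h4⟩ := hl h hp.2
      obtain ⟨z, hz⟩ : ∃ z, Sub (fun _ _ _ => True) (leaf z) r := exists_leaf r
      refine ⟨node a X (leaf z), Sub.node trivial h1 hz, ⟨⟨?_, trivial⟩, h2, trivial⟩, ?_, ?_⟩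
      · exact h4.imp (fun y hy => hp.1 y hy)
      · simp [lv, h3]
      · exact ⟨by simp, h4.imp (fun y hy => List.mem_cons_of_mem _ hy), trivial⟩

/-- **Caterpillars.** -/
theorem exists_cat {t : LT ℝ} {m r : ℕ} (ht : Comp m t) (hD : Dst t) (hr : r * r < m) :
    ∃ e X, Sub (fun _ _ _ => True) X t ∧ PP e X ∧ r + 2 ≤ X.lv.length := by
  classical
  have hlen := sp_length ht
  have hinj : Function.Injective (fun i : Fin (sp t).length => (sp t)[i]) := by
    intro i j hij
    exact List.nodup_iff_injective_get.1 (sp_nodup hD) (by simpa using hij)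
  have hcard : r * r < Fintype.card (Fin (sp t).length) := by
    rw [Fintype.card_fin, hlen]; exact hr
  rcases Pool.Agent.H184R3.ES.erdos_szekeres hcard hinj with ⟨T, h1, h2⟩ | ⟨T, h1, h2⟩
  · have h3 : (T.sort (· ≤ ·)).Pairwise (· < ·) := (Finset.sortedLT_sort T).pairwise
    have h4 := List.map_getElem_sublist h3
    obtain ⟨X, k1, k2, k3, _⟩ := cat_of_sublist (e := true) h4 (by
      rw [List.pairwise_map]
      refine List.Pairwise.imp_of_mem ?_ h3
      intro i j hi hj hij
      exact h2 (by simpa using hi) (by simpa using hj) hij)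
    refine ⟨true, X, k1, k2, ?_⟩
    rw [k3, List.length_map, Finset.length_sort]
    omega
  · have h3 : (T.sort (· ≤ ·)).Pairwise (· < ·) := (Finset.sortedLT_sort T).pairwise
    have h4 := List.map_getElem_sublist h3
    obtain ⟨X, k1, k2, k3, _⟩ := cat_of_sublist (e := false) h4 (by
      rw [List.pairwise_map]
      refine List.Pairwise.imp_of_mem ?_ h3
      intro i j hi hj hij
      have := h2 (by simpa using hi) (by simpa using hj) hij
      show Dr false _ _
      simpa [Dr] using this)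
    refine ⟨false, X, k1, k2, ?_⟩
    rw [k3, List.length_map, Finset.length_sort]
    omega

end Pool.Agent.H595K.Lb
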