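import Mathlib
import Pool.Agent.H595K.SBig

/-!
# The recursion with two strategies
-/

namespace Pool.Agent.H595K.Lb

open LT

/-- the statement of the recursion for the trees with property `Q` -/
def RecA (K M H : ℕ) (Q : LT ℝ → Prop) (C : ℝ) : Prop :=
  ∀ (h m : ℕ) (d : Bool) (s : List Bool) (n1 n2 : ℕ) (B : LT ℝ),
    Alt (d :: s) → s.length + h = H → 1 ≤ n1 → 1 ≤ n2 →
    C * n1 * n2 ≤ m * ell (h - 1) n2 → Comp m B →
    AllC (PM M) [] B → Q B → WB (d :: s) K [] B →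
    (∃ X, Sub (fun _ _ _ => True) X B ∧ Big n1 X ∧ WB [d] 5 [] X) ∨
    ∃ X, Sub (fun _ _ _ => True) X B ∧ Big n2 X ∧ WB [!d] 5 [] X

/-- **The block-chain lemma for one strategy.** -/
theorem chain_one {e : Bool} {X : LT (ℝ × WithBot ℝ)} {w : ℝ} (hw : 0 < w) {K q R : ℕ}
    (hq1 : 1 ≤ q) (hC : ChE e X)
    (hq : ∀ Z, Sub (fun _ _ _ => True) Z X → Comp q Z → ∀ β, ¬ AllL (fun a => a.2 = β) Z)
    (hR : 4 * q + 2 ≤ R)
    (hblk : ∀ β s Z G, 1 ≤ s → s ≤ q → Comp s Z → Sub (fun _ _ _ => True) G X →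
      GA (fun u => ∃ N, Comp (N + 2) u) β Z G → ∃ Y n0,
        Sub (fun _ _ _ => True) Y (mp Prod.fst Z) ∧ Big n0 Y ∧ WB [e] K [] Y ∧
        4 * (s : ℝ) ≤ w * n0) :
    ∀ (n : ℕ) (t : LT (ℝ × WithBot ℝ)), Sub (fun _ _ _ => True) t X → Comp n t →
      ∃ v Y, Sub (fun _ _ _ => True) Y (mp Prod.fst t) ∧ Big v Y ∧ WB [e] K [] Y ∧
        (n : ℝ) - R ≤ w * v := by
  classical
  intro n
  induction n using Nat.strong_induction_on with
  | _ n ih =>
  intro t ht hn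
  rcases Nat.lt_or_ge R n with hRn | hRn
  swap
  · have h1 : (n : ℝ) ≤ R := by exact_mod_cast hRn
    obtain ⟨i, hi⟩ := exists_leaf (mp Prod.fst t)
    exact ⟨0, leaf i, hi, Big.zero _, trivial, by push_cast; linarith⟩
  obtain ⟨β, s, hs1, hsq, Z, G, g1, g2, g3⟩ := exists_blk hq1 (by omega) hn (ChE.sub ht hC)
    (fun Z hZ => hq Z (ht.trans hZ))
  obtain ⟨Y, n0, y1, y2, y3, y4⟩ := hblk β s Z G hs1 hsq g2 (ht.trans g1)
    (g3.imp (fun u hu => ⟨n - 4 * s - 2, by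
      rw [show n - 4 * s - 2 + 2 = n - 4 * s by omega]; exact hu⟩))
  have hGr : Gr (Comp (n - 4 * s)) e (mp Prod.fst Z) (mp Prod.fst G) :=
    g3.gr (fun u hu => comp_mp hu) (ChE.sub (ht.trans g1) hC)
  obtain ⟨Y0, p1, p2, _⟩ := hGr.select (em_of_sub y1)
  have hGt : Sub (fun _ _ _ => True) (mp Prod.fst G) (mp Prod.fst t) := g1.mp
  obtain ⟨v, hv⟩ : ∃ v : ℕ, v = ⌈((n : ℝ) - 4 * s - R) / w⌉₊ := ⟨_, rfl⟩
  obtain ⟨Y1, r1, r2, _⟩ := p2.map (Q' := fun t => Big v t ∧ WB [e] K [] t) (by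
    intro B' hB' hs'
    have hB't : Sub (fun _ _ _ => True) B' (mp Prod.fst t) := (hGt.trans p1).trans hs'
    obtain ⟨u, u1, rfl⟩ := Sub.of_mp hB't
    obtain ⟨v', Y', z1, z2, z3, z4⟩ := ih (n - 4 * s) (by omega) u (ht.trans u1)
      (comp_of_mp hB')
    refine ⟨Y', z1, z2.mono ?_, z3⟩
    rw [hv]
    apply Nat.ceil_le.2
    rw [div_le_iff₀ hw]
    rw [Nat.cast_sub (by omega)] at z4
    push_cast at z4
    linarith)
  refine ⟨n0 + v, Y1, (hGt.trans p1).trans r1, gr_big (fun t h => h.1) y2 r2, ?_, ?_⟩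
  · exact wb_gr (Q := fun t => Big v t ∧ WB [e] K [] t)
      (fun t h => h.2) y3 r2 (bt_of_allL r2 (allL_triv (by simp) Y1))
  · have h1 := Nat.le_ceil (((n : ℝ) - 4 * s - R) / w)
    rw [← hv, div_le_iff₀ hw] at h1
    push_cast
    linarith

theorem cs_one {K M H N q m h1 n1 n2 : ℕ} {Q : LT ℝ → Prop} {C1 : ℝ} (hC1 : 0 < C1)
    (hQ : RecA K M H Q C1) {e : Bool}
    {s1 : List Bool} {X : LT (ℝ × WithBot ℝ)}
    (hAlt : Alt (e :: s1)) (hlen : s1.length + h1 = H)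
    (hn1 : 1 ≤ n1) (hn2 : 1 ≤ n2) (hX : Comp N X) (hC : ChE e X) (hq1 : 1 ≤ q)
    (hq : ∀ Z, Sub (fun _ _ _ => True) Z X → Comp q Z → ∀ β, ¬ AllL (fun a => a.2 = β) Z)
    (hm : (m : ℝ) / 8 ≤ (N : ℝ) - (4 * q + 2)) (hm1 : 1 ≤ m)
    (hPM : AllC (PM M) [] (mp Prod.fst X))
    (hsingle : ∀ Z, Sub (fun _ _ _ => True) Z X → (∃ β, AllL (fun a => a.2 = β) Z) →
      Q (mp Prod.fst Z))
    (hWB : ∀ β s Z G, 1 ≤ s → Comp s Z → Sub (fun _ _ _ => True) G X →
      GA (fun u => ∃ N, Comp (N + 2) u) β Z G → WB (e :: s1) K [] (mp Prod.fst Z))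
    (hcond : 64 * C1 * n1 * n2 ≤ m * ell (h1 - 1) n2) :
    (∃ Y, Sub (fun _ _ _ => True) Y (mp Prod.fst X) ∧ Big n1 Y ∧ WB [e] 5 [] Y) ∨
    ∃ Y, Sub (fun _ _ _ => True) Y (mp Prod.fst X) ∧ Big n2 Y ∧ WB [!e] 5 [] Y := by
  classical
  by_contra hG
  push Not at hG
  obtain ⟨hG1, hG2⟩ := hG
  have hmpos : (0 : ℝ) < m := by exact_mod_cast hm1
  have hn1r : (1 : ℝ) ≤ n1 := by exact_mod_cast hn1
  have hn2r : (1 : ℝ) ≤ n2 := by exact_mod_cast hn2
  obtain ⟨v, Y, y1, y2, y3, y4⟩ := chain_one (e := e) (X := X) (w := m / (8 * n1))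
    (by positivity) (K := 5) hq1 hC hq (R := 4 * q + 2) le_rfl (by
      intro β s Z G hs1 hsq hZ hG' hGA
      have hZX : Sub (fun _ _ _ => True) Z X := hG'.trans hGA.sub
      have hs : (1 : ℝ) ≤ s := by exact_mod_cast hs1
      by_cases h5 : 32 * (s : ℝ) * n1 ≤ m
      · cases Z with
        | leaf i =>
          obtain ⟨s', rfl⟩ : ∃ s', s = s' + 1 := ⟨s - 1, by omega⟩
          exact absurd hZ (by simp [Comp])
        | node a l r =>
          obtain ⟨i, hi⟩ := exists_leaf (mp Prod.fst l)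
          obtain ⟨j, hj⟩ := exists_leaf (mp Prod.fst r)
          refine ⟨node a.1 (leaf i) (leaf j), 1, Sub.node trivial hi hj,
            by simp [Big, lv], wb_single, ?_⟩
          rw [Nat.cast_one, mul_one, le_div_iff₀ (by positivity)]
          linarith
      · push Not at h5
        obtain ⟨n', hn'⟩ : ∃ n' : ℕ, n' = ⌈32 * (s : ℝ) * n1 / m⌉₊ := ⟨_, rfl⟩
        have h6 : 32 * (s : ℝ) * n1 / m ≤ n' := by rw [hn']; exact Nat.le_ceil _
        have h7 : (1 : ℝ) < 32 * (s : ℝ) * n1 / m := by rw [lt_div_iff₀ hmpos]; linarith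
        have h8 : (n' : ℝ) ≤ 64 * s * n1 / m := by
          have := (Nat.ceil_lt_add_one (show 0 ≤ 32 * (s : ℝ) * n1 / m by positivity)).le
          rw [← hn'] at this
          have e1 : 64 * (s : ℝ) * n1 / m = 32 * s * n1 / m + 32 * s * n1 / m := by ring
          rw [e1]; linarith
        have h9 : 1 ≤ n' := by
          have : (1 : ℝ) < n' := lt_of_lt_of_le h7 h6
          have : 1 < n' := by exact_mod_cast this
          omega
        rcases hQ h1 s e s1 n' n2 (mp Prod.fst Z) hAlt hlen h9 hn2 (by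
          have h10 : C1 * n' * n2 ≤ C1 * (64 * s * n1 / m) * n2 := by gcongr
          have h11 : C1 * (64 * s * n1 / m) * n2 = s / m * (64 * C1 * n1 * n2) := by
            field_simp
          have h12 : (s : ℝ) / m * (64 * C1 * n1 * n2) ≤ s / m * (m * ell (h1 - 1) n2) :=
            mul_le_mul_of_nonneg_left hcond (by positivity)
          have h13 : (s : ℝ) / m * (m * ell (h1 - 1) n2) = s * ell (h1 - 1) n2 := by
            field_simp
          linarith) (comp_mp hZ)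
          (AllC.sub pm_sublist hZX.mp (List.Sublist.refl _) hPM)
          (hsingle Z hZX ⟨β, hGA.single⟩) (hWB β s Z G hs1 hZ hG' hGA) with
          ⟨Y, y1, y2, y3⟩ | ⟨Y, y1, y2, y3⟩
        · refine ⟨Y, n', y1, y2, y3, ?_⟩
          rw [div_le_iff₀ hmpos] at h6
          rw [div_mul_eq_mul_div, le_div_iff₀ (by positivity)]
          linarith
        · exact absurd y3 (hG2 Y (hZX.mp.trans y1) y2))
    N X (Sub.refl _) hX
  refine hG1 Y y1 (y2.mono ?_) y3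
  have h3 : (N : ℝ) - ((4 * q + 2 : ℕ) : ℝ) = (N : ℝ) - (4 * q + 2) := by push_cast; ring
  rw [h3] at y4
  have h4 : (m : ℝ) / 8 ≤ m / (8 * n1) * v := hm.trans y4
  rw [div_mul_eq_mul_div, div_le_div_iff₀ (by norm_num) (by positivity)] at h4
  have h5 : (n1 : ℝ) ≤ v := by
    have h6 : (m : ℝ) * 8 * n1 ≤ m * 8 * v := by linarith
    exact le_of_mul_le_mul_left h6 (by positivity)
  exact_mod_cast h5

theorem no_layer_chain {K H N q : ℕ} (hK : K ≤ 6 * H + 4) {e : Bool} {s1 : List Bool}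
    {X : LT (ℝ × WithBot ℝ)} (hAlt : Alt (e :: s1)) (hlen : s1.length = H)
    (hX : Comp N X) (hC : ChE e X) (hq1 : 1 ≤ q) (hNR : 4 * q + 2 < N)
    (hq : ∀ Z, Sub (fun _ _ _ => True) Z X → Comp q Z → ∀ β, ¬ AllL (fun a => a.2 = β) Z)
    (hWB : ∀ β s Z G, 1 ≤ s → Comp s Z → Sub (fun _ _ _ => True) G X →
      GA (fun u => ∃ N, Comp (N + 2) u) β Z G → WB (e :: s1) K [] (mp Prod.fst Z)) : False := by
  obtain ⟨β, s, k1, k2, Z, G, k3, k4, k5⟩ := exists_blk hq1 (by omega) hX hC hq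
  exact no_layer hK hAlt (by omega) k1 (comp_mp k4) (hWB β s Z G k1 k4 k3
    (k5.imp (fun u hu => ⟨N - 4 * s - 2, by
      rw [show N - 4 * s - 2 + 2 = N - 4 * s by omega]; exact hu⟩)))

theorem Lg_le_sqrt {x : ℝ} (hx : 1 ≤ x) : Lg x ≤ 2 * Real.sqrt x := by
  have h0 : 0 < Real.sqrt x := Real.sqrt_pos.2 (by linarith)
  have h1 : Real.log x = 2 * Real.log (Real.sqrt x) := by
    rw [Real.log_sqrt (by linarith)]; ring
  have h2 := Real.log_le_sub_one_of_pos h0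
  unfold Lg
  linarith

/-- the caterpillar has enough leaves -/
theorem cat_num {h m n1 n2 : ℕ} {C : ℝ} (hC : 2 ≤ C) (hn1 : 1 ≤ n1) (hn2 : 1 ≤ n2)
    (hm2 : 2 ≤ m)
    (hcond : C * n1 * n2 ≤ m * ell (h + 1) n2) (hlt : 8 * (n1 : ℝ) < Lg n2) :
    2 ^ n1 * 2 ^ n1 < m := by
  have hn1r : (1 : ℝ) ≤ n1 := by exact_mod_cast hn1
  have hn2r : (1 : ℝ) ≤ n2 := by exact_mod_cast hn2
  have hmr : (2 : ℝ) ≤ m := by exact_mod_cast hm2
  have h0 : 0 < Real.sqrt n2 := Real.sqrt_pos.2 (by linarith)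
  have h1 : ell (h + 1) n2 ≤ 2 * Real.sqrt n2 := (ell_succ_le h hn2r).trans (Lg_le_sqrt hn2r)
  have h2 : 2 * (n2 : ℝ) ≤ C * n1 * n2 := by
    have : (2 : ℝ) ≤ C * n1 := by nlinarith
    nlinarith
  have h3 : 2 * (n2 : ℝ) ≤ m * (2 * Real.sqrt n2) :=
    h2.trans (hcond.trans (mul_le_mul_of_nonneg_left h1 (by linarith)))
  have h4 : Real.sqrt n2 ≤ m := by
    have e : (n2 : ℝ) = Real.sqrt n2 * Real.sqrt n2 := (Real.mul_self_sqrt (by linarith)).symm
    have h5 : 2 * (Real.sqrt n2 * Real.sqrt n2) ≤ m * (2 * Real.sqrt n2) := by rw [← e]; exact h3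
    have h6 : Real.sqrt n2 * (2 * Real.sqrt n2) ≤ m * (2 * Real.sqrt n2) := by linarith
    exact le_of_mul_le_mul_right h6 (by linarith)
  have h5 : Real.log n2 ≤ 2 * Real.log m := by
    have e : Real.log n2 = 2 * Real.log (Real.sqrt n2) := by
      rw [Real.log_sqrt (by linarith)]; ring
    rw [e]
    have := Real.log_le_log h0 h4
    linarith
  have h6 : 8 * (n1 : ℝ) < 1 + 2 * Real.log m := by
    unfold Lg at hlt; linarith
  have hlog2 := Real.log_two_lt_d9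
  have hlog2' := Real.log_two_gt_d9
  have h7 : Real.log 2 ≤ Real.log m := Real.log_le_log (by norm_num) hmr
  have h8 : Real.log ((2 : ℝ) ^ n1 * 2 ^ n1) < Real.log m := by
    rw [← pow_add, Real.log_pow]
    push_cast
    nlinarith
  have h9 : (2 : ℝ) ^ n1 * 2 ^ n1 < m := (Real.log_lt_log_iff (by positivity) (by linarith)).1 h8
  exact_mod_cast h9

/-- **The chain step.** -/
theorem chain_stepA {K M H : ℕ} {Q : LT ℝ → Prop} {C1 : ℝ} (hC1 : 1 ≤ C1)
    (hQ : RecA K M H Q C1) (hK : K ≤ 6 * H + 4) :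
    ∃ C, 1 ≤ C ∧ RecA K M H (Cc Q) C := by
  classical
  refine ⟨1000 * C1, by linarith, ?_⟩
  rintro h m d s n1 n2 B hAlt hlen hn1 hn2 hcond hB hP ⟨e, X, rfl, hC, hsingle⟩ hW
  have hn1r : (1 : ℝ) ≤ n1 := by exact_mod_cast hn1
  have hn2r : (1 : ℝ) ≤ n2 := by exact_mod_cast hn2
  have hell := ell_le (h - 1) hn2r
  have hell1 := one_le_ell (h - 1) hn2r
  have hm1000 : 1000 ≤ m := by
    have h1 : 1000 * C1 * n1 * n2 ≤ m * n2 :=
      hcond.trans (mul_le_mul_of_nonneg_left hell (Nat.cast_nonneg _))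
    have h2 : 1000 * C1 * n1 ≤ m := le_of_mul_le_mul_right h1 (by linarith)
    have h3 : (1000 : ℝ) ≤ 1000 * C1 * n1 := by nlinarith
    have h4 : (1000 : ℝ) ≤ m := h3.trans h2
    exact_mod_cast h4
  have hmr : (1000 : ℝ) ≤ m := by exact_mod_cast hm1000
  rcases Nat.eq_zero_or_pos h with h0 | h0
  · subst h0
    exact (no_layer hK hAlt (by omega) (by omega) hB hW).elim
  obtain ⟨q, hq⟩ : ∃ q, q = m / 16 := ⟨_, rfl⟩
  have hq1 : 1 ≤ q := by omega
  have hqm : (m : ℝ) ≤ 32 * q := by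
    have : m ≤ 32 * q := by omega
    exact_mod_cast this
  have hXm : Comp m X := comp_of_mp hB
  by_cases hbig : ∃ Z, Sub (fun _ _ _ => True) Z X ∧ Comp q Z ∧ ∃ β, AllL (fun a => a.2 = β) Z
  · obtain ⟨Z, z1, z2, z3⟩ := hbig
    have hZ := hQ h q d s n1 n2 (mp Prod.fst Z) hAlt hlen
      hn1 hn2 (by
        have h1 : (m : ℝ) * ell (h - 1) n2 ≤ 32 * q * ell (h - 1) n2 :=
          mul_le_mul_of_nonneg_right hqm (by linarith)
        have h2 : 32 * (C1 * n1 * n2) ≤ 1000 * C1 * n1 * n2 := by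
          have : 0 ≤ C1 * n1 * n2 := by positivity
          linarith
        linarith) (comp_mp z2)
      (AllC.sub pm_sublist z1.mp (List.Sublist.refl _) hP) (hsingle Z z1 z3)
      (hW.sub z1.mp (List.Sublist.refl _))
    rcases hZ with ⟨Y, y1, y2, y3⟩ | ⟨Y, y1, y2, y3⟩
    · exact Or.inl ⟨Y, z1.mp.trans y1, y2, y3⟩
    · exact Or.inr ⟨Y, z1.mp.trans y1, y2, y3⟩
  push Not at hbig
  -- the two upper nodes
  obtain ⟨m2, hm2⟩ : ∃ m2, m = m2 + 2 := ⟨m - 2, by omega⟩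
  rw [hm2] at hXm
  cases X with
  | leaf i => exact absurd hXm (by simp [Comp])
  | node g1 l1 b0 =>
  cases l1 with
  | leaf i => exact absurd hXm.1 (by simp [Comp])
  | node g2 p x0 =>
  have hx0 : Comp m2 x0 := hXm.1.2
  have hx0X : Sub (fun _ _ _ => True) x0 (node g1 (node g2 p x0) b0) :=
    Sub.left _ _ (Sub.right _ _ (Sub.refl _))
  have hcls : AllL (fun c => g2.2 ≤ c.2 ∧ (g2.2 < c.2 → Dr e g2.1 c.1)) x0 := hC.2.1.1.2
  have hcls1 : AllL (fun c => g1.2 ≤ c.2 ∧ (g1.2 < c.2 → Dr e g1.1 c.1)) x0 := hC.1.1.2.2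
  have hg12 : g1.2 ≤ g2.2 := hC.1.1.1.1
  obtain ⟨X', hX'0, hX'c, hX'cls⟩ : ∃ X', Sub (fun _ _ _ => True) X' x0 ∧
      Comp (m / 2 + 1) X' ∧ AllL (fun c => g2.2 < c.2) X' := by
    obtain ⟨c, hc, t', k1, k2⟩ := exists_colorV (m := 2) (t := x0)
      (fun c a _ _ => (c = 0 ∧ a.2 = g2.2) ∨ (c = 1 ∧ g2.2 < a.2))
      (fun c => if c = 0 then q else m / 2)
      ((LT.allN_of_allL hcls).imp (by
        intro a l r ha
        rcases lt_or_eq_of_le ha.1 with h1 | h1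
        · exact ⟨1, by norm_num, Or.inr ⟨rfl, h1⟩⟩
        · exact ⟨0, by norm_num, Or.inl ⟨rfl, h1.symm⟩⟩)) hx0 (by
        simp [Finset.sum_range_succ]; omega)
    have k3 := allL_sub' k1
    interval_cases c
    · exfalso
      have k2 : Comp (q + 1) t' := by simpa using k2
      obtain ⟨t'', j1, j2⟩ := comp_drop' 1 k2
      refine hbig t'' (hx0X.trans (k1.top.trans j1)) j2 g2.2 (j1.allL (k3.imp ?_))
      rintro a (⟨_, h⟩ | ⟨h, _⟩)
      · exact h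
      · exact absurd h (by norm_num)
    · refine ⟨t', k1.top, by simpa using k2, k3.imp ?_⟩
      rintro a (⟨h, _⟩ | ⟨_, h⟩)
      · exact absurd h (by norm_num)
      · exact h
  have hX'X : Sub (fun _ _ _ => True) X' (node g1 (node g2 p x0) b0) := hx0X.trans hX'0
  have hd1 : AllL (fun c => Dr e g1.1 c.1) X' :=
    ((hX'0.allL hcls1).and hX'cls).imp (fun c hc => hc.1.2 (lt_of_le_of_lt hg12 hc.2))
  have hd2 : AllL (fun c => Dr e g2.1 c.1) X' :=
    ((hX'0.allL hcls).and hX'cls).imp (fun c hc => hc.1.2 hc.2)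
  have hCX' : ChE e X' := ChE.sub hX'X hC
  have hPX' : AllC (PM M) [] (mp Prod.fst X') :=
    AllC.sub pm_sublist hX'X.mp (List.Sublist.refl _) hP
  have hqX' : ∀ Z, Sub (fun _ _ _ => True) Z X' → Comp q Z → ∀ β, ¬ AllL (fun a => a.2 = β) Z :=
    fun Z hZ hc β hβ => hbig Z (hX'X.trans hZ) hc β hβ
  have hsX' : ∀ Z, Sub (fun _ _ _ => True) Z X' → (∃ β, AllL (fun a => a.2 = β) Z) →
      Q (mp Prod.fst Z) := fun Z hZ h => hsingle Z (hX'X.trans hZ) h
  have hNR : 4 * q + 2 < m / 2 + 1 := by omega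
  have hmr8 : (m : ℝ) / 8 ≤ ((m / 2 + 1 : ℕ) : ℝ) - (4 * q + 2) := by
    have h1 : m + 8 * (4 * q + 2) ≤ 8 * (m / 2 + 1) := by omega
    have h2 : (m : ℝ) + 8 * (4 * q + 2) ≤ 8 * ((m / 2 + 1 : ℕ) : ℝ) := by exact_mod_cast h1
    linarith
  have hC1n : 0 ≤ C1 * n1 * n2 := by positivity
  by_cases hed : e = d
  · subst hed
    have hfin := cs_one (lt_of_lt_of_le one_pos hC1) hQ hAlt hlen hn1 hn2 hX'c hCX' hq1 hqX' hmr8
      (by omega) hPX' hsX' (by
        intro β s' Z G _ _ hG hGA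
        exact hW.sub (hX'X.trans (hG.trans hGA.sub)).mp (List.Sublist.refl _)) (by linarith)
    rcases hfin with ⟨Y, y1, y2, y3⟩ | ⟨Y, y1, y2, y3⟩
    · exact Or.inl ⟨Y, hX'X.mp.trans y1, y2, y3⟩
    · exact Or.inr ⟨Y, hX'X.mp.trans y1, y2, y3⟩
  · have hed' : e = !d := by
      cases e <;> cases d <;> simp_all
    subst hed'
    have hWB' : ∀ β s' Z G, 1 ≤ s' → Comp s' Z → Sub (fun _ _ _ => True) G X' →
        GA (fun u => ∃ N, Comp (N + 2) u) β Z G → WB ((!d) :: d :: s) K [] (mp Prod.fst Z) := by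
      intro β s' Z G _ _ hG hGA
      have hGr : Gr (fun t => ∃ N, Comp (N + 2) t) (!d) (mp Prod.fst Z) (mp Prod.fst G) :=
        hGA.gr (fun u ⟨N, hu⟩ => ⟨N, comp_mp hu⟩) (ChE.sub hG hCX')
      refine wb_sandwich (s := d :: s) (v1 := g1.1) (v2 := g2.1) (a := mp Prod.fst p)
        (b := mp Prod.fst b0) (fun t ht => ht) hGr ?_ ?_ ?_
      · rw [allL_mp]; exact hG.allL hd1
      · rw [allL_mp]; exact hG.allL hd2
      · exact hW.sub (Sub.node trivial (Sub.node trivial (Sub.refl _) (hX'0.trans hG).mp)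
          (Sub.refl _)) (List.Sublist.refl _)
    obtain ⟨h', rfl⟩ : ∃ h', h = h' + 1 := ⟨h - 1, by omega⟩
    rcases Nat.eq_zero_or_pos h' with h2 | h2
    · subst h2
      exact (no_layer_chain hK (s1 := d :: s) ⟨by simp, hAlt⟩ (by simp; omega) hX'c hCX' hq1 hNR
        hqX' hWB').elim
    obtain ⟨h'', rfl⟩ : ∃ h'', h' = h'' + 1 := ⟨h' - 1, by omega⟩
    have e1 : h'' + 1 + 1 - 1 = h'' + 1 := by omega
    rw [e1] at hcond
    by_cases hLg : Lg n2 ≤ 8 * n1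
    · have hfin := cs_one (n1 := n2) (n2 := n1) (h1 := h'' + 1) (lt_of_lt_of_le one_pos hC1) hQ
        (s1 := d :: s) ⟨by simp, hAlt⟩ (by simp; omega) hn2 hn1 hX'c hCX' hq1 hqX' hmr8
        (by omega) hPX' hsX' hWB' (by
          have e2 : h'' + 1 - 1 = h'' := by omega
          rw [e2]
          have h3 : ell (h'' + 1) n2 ≤ 8 * ell h'' n1 := by
            rw [ell_succ]
            exact (ell_mono h'' (one_le_Lg hn2r) hLg).trans (ell_mul h'' (by norm_num) hn1r)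
          have h4 : (m : ℝ) * ell (h'' + 1) n2 ≤ m * (8 * ell h'' n1) :=
            mul_le_mul_of_nonneg_left h3 (Nat.cast_nonneg _)
          nlinarith)
      rcases hfin with ⟨Y, y1, y2, y3⟩ | ⟨Y, y1, y2, y3⟩
      · exact Or.inr ⟨Y, hX'X.mp.trans y1, y2, y3⟩
      · rw [Bool.not_not] at y3
        exact Or.inl ⟨Y, hX'X.mp.trans y1, y2, y3⟩
    · push Not at hLg
      have hnum := cat_num (C := 1000 * C1) (by linarith) hn1 hn2 (by omega) hcond hLg
      obtain ⟨e', Y, y1, y2, y3⟩ := exists_cat hB (dst_of_pm hP).1 hnum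
      exact Or.inl ⟨Y, y1, (by unfold Big; omega), wb_pure' y2⟩

end Pool.Agent.H595K.Lb
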