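import Mathlib
import Pool.Agent.H595K.SRec

/-!
# The recursion with two strategies on the rank
-/

namespace Pool.Agent.H595K.Lb

open LT

theorem RecA.imp {K M H : ℕ} {Q Q' : LT ℝ → Prop} {C : ℝ} (h : ∀ B, Q B → Q' B)
    (hQ : RecA K M H Q' C) : RecA K M H Q C :=
  fun h' m d s n1 n2 B h1 h2 h3 h4 h5 h6 h7 h8 h9 =>
    hQ h' m d s n1 n2 B h1 h2 h3 h4 h5 h6 h7 (h B h8) h9

theorem RecA.mono {K M H : ℕ} {Q : LT ℝ → Prop} {C C' : ℝ} (hC : C ≤ C')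
    (hQ : RecA K M H Q C) : RecA K M H Q C' := by
  intro h' m d s n1 n2 B h1 h2 h3 h4 h5 h6 h7 h8 h9
  refine hQ h' m d s n1 n2 B h1 h2 h3 h4 ?_ h6 h7 h8 h9
  have : C * n1 * n2 ≤ C' * n1 * n2 := by gcongr
  linarith

theorem RecA.or {K M H : ℕ} {Q Q' : LT ℝ → Prop}
    (hQ : ∃ C, 1 ≤ C ∧ RecA K M H Q C) (hQ' : ∃ C, 1 ≤ C ∧ RecA K M H Q' C) :
    ∃ C, 1 ≤ C ∧ RecA K M H (fun B => Q B ∨ Q' B) C := by
  obtain ⟨C, hC, hQ⟩ := hQ
  obtain ⟨C', hC', hQ'⟩ := hQ'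
  refine ⟨max C C', hC.trans (le_max_left _ _), ?_⟩
  intro h' m d s n1 n2 B h1 h2 h3 h4 h5 h6 h7 h8 h9
  rcases h8 with h8 | h8
  · exact (hQ.mono (le_max_left _ _)) h' m d s n1 n2 B h1 h2 h3 h4 h5 h6 h7 h8 h9
  · exact (hQ'.mono (le_max_right _ _)) h' m d s n1 n2 B h1 h2 h3 h4 h5 h6 h7 h8 h9

theorem le_of_cond {C : ℝ} {h m n1 n2 : ℕ} (hn2 : 1 ≤ n2)
    (hcond : C * n1 * n2 ≤ m * ell h n2) : C * n1 ≤ m := by
  have hn2r : (1 : ℝ) ≤ n2 := by exact_mod_cast hn2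
  have h1 : C * n1 * n2 ≤ m * n2 :=
    hcond.trans (mul_le_mul_of_nonneg_left (ell_le h hn2r) (Nat.cast_nonneg _))
  exact le_of_mul_le_mul_right h1 (by linarith)

/-- pure trees -/
theorem rec_pureA {K M H : ℕ} : RecA K M H (fun B => ∃ e, PP e B) 1 := by
  rintro h m d s n1 n2 B _ _ hn1 hn2 hcond hB _ ⟨e, he⟩ _
  have h1 := le_of_cond hn2 hcond
  have h2 : n1 ≤ m := by
    have : (n1 : ℝ) ≤ m := by linarith
    exact_mod_cast this
  obtain ⟨X, k1, k2⟩ := comp_le' h2 hB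
  exact Or.inl ⟨X, k1, big_of_comp k2, WB.sub k1 (List.Sublist.refl _) (wb_pure' he)⟩

/-- passing to a subtree of linear size -/
theorem lin_stepA {K M H D : ℕ} {Q Q' : LT ℝ → Prop} (hD : 1 ≤ D)
    (hsub : ∀ B B', Sub (fun _ _ _ => True) B' B → Q B → Q B')
    (hstep : ∀ (n : ℕ) (B : LT ℝ), Comp (D * (n + 1)) B → AllC (PM M) [] B → Q B →
      ∃ X, Sub (fun _ _ _ => True) X B ∧ Comp (n + 1) X ∧ Q' X)
    (hQ' : ∃ C, 1 ≤ C ∧ RecA K M H Q' C) : ∃ C, 1 ≤ C ∧ RecA K M H Q C := by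
  obtain ⟨C', hC', hQ'⟩ := hQ'
  have hDr : (1 : ℝ) ≤ D := by exact_mod_cast hD
  refine ⟨2 * D * C', by nlinarith, ?_⟩
  intro h m d s n1 n2 B hAlt hlen hn1 hn2 hcond hB hP hQB hW
  have hn1r : (1 : ℝ) ≤ n1 := by exact_mod_cast hn1
  have hn2r : (1 : ℝ) ≤ n2 := by exact_mod_cast hn2
  have hm : D ≤ m := by
    have h1 := le_of_cond hn2 hcond
    have h2 : (D : ℝ) ≤ 2 * D * C' * n1 := by
      have h3 : (D : ℝ) * 1 ≤ D * (C' * n1) := by
        apply mul_le_mul_of_nonneg_left _ (by linarith)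
        nlinarith
      nlinarith
    have h3 : (D : ℝ) ≤ m := by linarith
    exact_mod_cast h3
  have hq1 : 1 ≤ m / D := Nat.div_pos hm (by omega)
  have hq2 : (m : ℝ) ≤ 2 * D * ((m / D : ℕ) : ℝ) := by
    have h2 : m < (m / D + 1) * D := by
      have := Nat.lt_div_mul_add (a := m) (b := D) (by omega)
      rw [add_mul, one_mul]; exact this
    have h3 : m ≤ 2 * D * (m / D) := by nlinarith
    exact_mod_cast h3
  obtain ⟨q, hq⟩ : ∃ q, m / D = q + 1 := ⟨m / D - 1, by omega⟩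
  obtain ⟨B', z1, z2⟩ := comp_le' (a := D * (q + 1)) (by
    rw [← hq]; exact Nat.mul_div_le m D) hB
  have hP' : AllC (PM M) [] B' := AllC.sub pm_sublist z1 (List.Sublist.refl _) hP
  obtain ⟨X, x1, x2, x3⟩ := hstep q B' z2 hP' (hsub _ _ z1 hQB)
  have hXB := z1.trans x1
  rcases hQ' h (q + 1) d s n1 n2 X hAlt hlen hn1 hn2 (by
    rw [hq] at hq2
    have h1 := one_le_ell (h - 1) hn2r
    have h2 : (m : ℝ) * ell (h - 1) n2 ≤ 2 * D * ((q + 1 : ℕ) : ℝ) * ell (h - 1) n2 :=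
      mul_le_mul_of_nonneg_right hq2 (by linarith)
    have h3 : 2 * (D : ℝ) * (C' * n1 * n2) ≤ 2 * D * (((q + 1 : ℕ) : ℝ) * ell (h - 1) n2) := by
      calc 2 * (D : ℝ) * (C' * n1 * n2) = 2 * D * C' * n1 * n2 := by ring
        _ ≤ m * ell (h - 1) n2 := hcond
        _ ≤ 2 * D * ((q + 1 : ℕ) : ℝ) * ell (h - 1) n2 := h2
        _ = 2 * D * (((q + 1 : ℕ) : ℝ) * ell (h - 1) n2) := by ring
    exact le_of_mul_le_mul_left h3 (by positivity)) x2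
    (AllC.sub pm_sublist hXB (List.Sublist.refl _) hP) x3
    (hW.sub hXB (List.Sublist.refl _)) with ⟨Y, y1, y2, y3⟩ | ⟨Y, y1, y2, y3⟩
  · exact Or.inl ⟨Y, hXB.trans y1, y2, y3⟩
  · exact Or.inr ⟨Y, hXB.trans y1, y2, y3⟩

/-- left-good trees -/
theorem rec_lgA {K M H : ℕ} (hK : K ≤ 6 * H + 4) (e : Bool) :
    ∃ C, 1 ≤ C ∧ RecA K M H (fun B => LT.AllN (fun x l _ => AllL (Dr e x) l) B) C := by
  refine lin_stepA (D := 2 * (M + 3)) (Q' := Cc (fun B => ∃ e, PP e B)) (by omega) ?_ ?_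
    (chain_stepA le_rfl rec_pureA hK)
  · intro B B' h hB
    exact h.allN hB (fun a l r l' r' _ h1 hl _ => hl.allL h1)
  · intro n B hB hP hQ
    obtain ⟨B', z1, z2⟩ := comp_le' (a := 2 * ((M + 2) * n + 1)) (by nlinarith) hB
    obtain ⟨X, h1, h2, h3, h4⟩ := lay_all e z2
      (AllC.sub pm_sublist z1 (List.Sublist.refl _) hP)
      (z1.allN hQ (fun a l r l' r' _ h1 hl _ => hl.allL h1))
    exact ⟨mp Prod.fst X, z1.trans h1, comp_mp h2, e, X, rfl, h3, fun Z hZ hs => ⟨e, h4 Z hZ hs⟩⟩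

/-- **The recursion for the trees of rank `k`.** -/
theorem rec_rankA {K M H : ℕ} (hK : K ≤ 6 * H + 4) (k : ℕ) :
    ∀ b, ∃ C, 1 ≤ C ∧ RecA K M H (fun B => AllC (fun L _ => RkL k b L) [] B) C := by
  have hstep : ∀ (k : ℕ) (b : Bool), 1 ≤ k →
      (∃ C, 1 ≤ C ∧ RecA K M H (fun B => AllC (fun L _ => RkL (nk k b) (!b) L) [] B) C) →
      ∃ C, 1 ≤ C ∧ RecA K M H (fun B => AllC (fun L _ => RkL k b L) [] B) C := by
    rintro k b hk ⟨C1, hC1, h1⟩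
    refine lin_stepA (D := 2 * (M + 3) + 2)
      (Q' := fun B => (LT.AllN (fun x l _ => AllL (Dr (!b) x) l) B) ∨
        Cc (fun B => AllC (fun L _ => RkL (nk k b) (!b) L) [] B) B) (by omega)
      (rk_sub k b) ?_ (RecA.or (rec_lgA hK (!b)) (chain_stepA hC1 h1 hK))
    intro n B hB hP hQ
    obtain ⟨B', z1, z2⟩ := comp_le' (a := (M + 3) * (2 * n + 1) + 2) (by nlinarith) hB
    rcases step_c hk z2 (AllC.sub pm_sublist z1 (List.Sublist.refl _) hP)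
      (rk_sub k b _ _ z1 hQ) with ⟨X, x1, x2, x3⟩ | ⟨X, x1, x2, x3, x4⟩
    · exact ⟨X, z1.trans x1, x2, Or.inl x3⟩
    · exact ⟨mp Prod.fst X, z1.trans x1, comp_mp x2, Or.inr ⟨!b, X, rfl, x3, x4⟩⟩
  induction k with
  | zero =>
    have h0 : ∃ C, 1 ≤ C ∧ RecA K M H (fun B => AllC (fun L _ => RkL 0 false L) [] B) C := by
      refine lin_stepA (D := 8) (Q' := Cc (fun B => ∃ e, PP e B)) (by omega)
        (rk_sub 0 false) ?_ (chain_stepA le_rfl rec_pureA hK)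
      intro n B hB hP hQ
      exact rank_zero hB hP hQ
    intro b
    obtain ⟨C, hC, h⟩ := h0
    refine ⟨C, hC, h.imp ?_⟩
    intro B hB
    refine allC_imp ?_ hB
    intro L _ hL N t z L' e
    exact ⟨(hL N t z L' e).1, by simp⟩
  | succ k ih =>
    have h1 := hstep (k + 1) true (by omega) (ih false)
    have h2 := hstep (k + 1) false (by omega) h1
    intro b
    cases b
    · exact h2
    · exact h1

/-- **Subtrees with short words and many leaves.** -/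
theorem exists_short3 {K H M : ℕ} (hK : K ≤ 6 * H + 4) :
    ∃ (C : ℝ) (c0 : ℕ), 1 ≤ C ∧ 1 ≤ c0 ∧ ∀ (m N : ℕ) (T : LT ℝ), 1 ≤ N →
      C * N * N ≤ m * ell (H - 1) N → Comp (c0 * (m + 1)) T → AllC (PM M) [] T →
      WB [] K [] T → ∃ X, Sub (fun _ _ _ => True) X T ∧ Big N X ∧ WB [] 5 [] X := by
  obtain ⟨C, hC, hrec⟩ := rec_rankA (M := M) hK K false
  obtain ⟨c0, hc0, hst⟩ := exists_start K M
  refine ⟨C, c0, hC, hc0, ?_⟩
  intro m N T hN hcond hT hP hW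
  rcases hst m T hT hP hW with ⟨e, X, k1, k2, k3⟩ | ⟨d, B, k1, k2, k3⟩
  · have h1 := le_of_cond hN hcond
    have hNr : (1 : ℝ) ≤ N := by exact_mod_cast hN
    have hNm : N ≤ m := by
      have : (N : ℝ) ≤ m := by nlinarith
      exact_mod_cast this
    obtain ⟨X', g1, g2⟩ := comp_le' hNm k2
    exact ⟨X', k1.trans g1, big_of_comp g2,
      (WB.sub g1 (List.Sublist.refl _) (wb_pure' (d := true) k3)).drop⟩
  · have hPB : AllC (PM M) [] B := AllC.sub pm_sublist k1 (List.Sublist.refl _) hP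
    rcases hrec H m d [] N N B trivial (by simp) hN hN hcond k2 hPB
      (init_rk k3.drop hPB (fun N b z L' e => by simp at e)) k3 with
      ⟨X, g1, g2, g3⟩ | ⟨X, g1, g2, g3⟩
    · exact ⟨X, k1.trans g1, g2, g3.drop⟩
    · exact ⟨X, k1.trans g1, g2, g3.drop⟩

end Pool.Agent.H595K.Lb
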