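import Mathlib
import Pool.Agent.H595K.SRank

/-!
# The sharp lower bound
-/

namespace Pool.Agent.H595K

open Lb LT

theorem niceK_take {k m : ℕ} {X Y : ℕ → ℝ} {Q : List ℕ} (h : NiceK k X Y Q) (hm : 2 ≤ m)
    (hQ : m ≤ Q.length) : ∃ Q', Q'.Sublist Q ∧ Q'.length = m ∧ NiceK k X Y Q' := by
  have hne : Q ≠ [] := by rintro rfl; simp at hQ; omega
  obtain ⟨p, Q1, rfl⟩ := List.exists_cons_of_ne_nil hne
  have hne' : Q1 ≠ [] := by rintro rfl; simp at hQ; omega
  obtain ⟨L, z, rfl⟩ : ∃ L z, Q1 = L ++ [z] := ⟨Q1.dropLast, Q1.getLast hne',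
    (List.dropLast_append_getLast hne').symm⟩
  have hlen : m ≤ L.length + 2 := by simpa using hQ
  have hsub : (p :: (L.take (m - 2) ++ [z])).Sublist (p :: (L ++ [z])) :=
    ((List.take_sublist _ _).append (List.Sublist.refl _)).cons_cons _
  refine ⟨p :: (L.take (m - 2) ++ [z]), hsub, ?_, h.1.sublist hsub, ?_, ?_⟩
  · simp; omega
  · intro p' z' L' e i hi
    rw [List.cons.injEq] at e
    obtain ⟨rfl, e⟩ := e
    obtain ⟨e3, e4⟩ := List.append_inj' e rfl
    have e5 : z = z' := by simpa using e4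
    subst e5
    subst e3
    exact h.2.1 p z L rfl i (List.take_subset _ _ hi)
  · intro θ β
    have h1 := h.2.2 θ β
    have h2 : ch (Wd X Y θ β (p :: (L.take (m - 2) ++ [z]))) ≤ ch (Wd X Y θ β (p :: (L ++ [z]))) :=
      ch_sublist (hsub.map _)
    omega

/-- comparison of the iterated logarithms -/
theorem ell_compare (h : ℕ) {c V N : ℝ} (hc : 0 < c) (hc1 : c ≤ 1) (hV : 1 ≤ V) (hN : 1 ≤ N)
    (hNV : c / 2 * Real.sqrt (V * ell h V) ≤ N) : ell h V ≤ (2 + 4 / c) * ell h N := by
  have hc4 : (1 : ℝ) ≤ 2 + 4 / c := by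
    have : 0 < 4 / c := by positivity
    linarith
  cases h with
  | zero =>
    have e : Real.sqrt (V * ell 0 V) = V := by
      show Real.sqrt (V * V) = V
      exact Real.sqrt_mul_self (by linarith)
    rw [e] at hNV
    show V ≤ (2 + 4 / c) * N
    have h1 : V ≤ 2 / c * N := by
      have : 2 / c * (c / 2 * V) ≤ 2 / c * N := mul_le_mul_of_nonneg_left hNV (by positivity)
      have e2 : 2 / c * (c / 2 * V) = V := by field_simp
      linarith
    have h2 : 2 / c * N ≤ (2 + 4 / c) * N := by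
      apply mul_le_mul_of_nonneg_right _ (by linarith)
      have : 4 / c = 2 / c + 2 / c := by ring
      have h3 : 0 < 2 / c := by positivity
      linarith
    linarith
  | succ h =>
    have h1 : 1 ≤ ell (h + 1) V := one_le_ell _ hV
    have h2 : c / 2 * Real.sqrt V ≤ N := by
      refine le_trans ?_ hNV
      apply mul_le_mul_of_nonneg_left _ (by positivity)
      apply Real.sqrt_le_sqrt
      nlinarith
    have hs : 0 < Real.sqrt V := Real.sqrt_pos.2 (by linarith)
    have h3 : Lg V ≤ (2 + 4 / c) * Lg N := by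
      have e1 : Real.log V = 2 * Real.log (Real.sqrt V) := by
        rw [Real.log_sqrt (by linarith)]; ring
      have h4 : Real.sqrt V ≤ 2 / c * N := by
        have : 2 / c * (c / 2 * Real.sqrt V) ≤ 2 / c * N :=
          mul_le_mul_of_nonneg_left h2 (by positivity)
        have e2 : 2 / c * (c / 2 * Real.sqrt V) = Real.sqrt V := by field_simp
        linarith
      have h5 : Real.log (Real.sqrt V) ≤ Real.log (2 / c) + Real.log N := by
        have := Real.log_le_log hs h4
        rwa [Real.log_mul (by positivity) (by linarith)] at this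
      have h6 := Real.log_le_sub_one_of_pos (show 0 < 2 / c by positivity)
      have h7 := Real.log_nonneg hN
      have h8 : (4 : ℝ) / c = 2 / c + 2 / c := by ring
      have h9 : 0 < 2 / c := by positivity
      unfold Lg
      rw [e1, h8]
      nlinarith
    rw [ell_succ, ell_succ]
    exact (ell_mono h (one_le_Lg hV) h3).trans (ell_mul h hc4 (one_le_Lg hN))

open Lb in
/-- **The sharp lower bound.** -/
theorem lower_sharp {k j H : ℕ} (hk3 : 3 ≤ k) (hj : 3 ≤ j) (hk : k ≤ 3 * H + 2) :
    ∃ c : ℝ, 0 < c ∧ ∀ n : ℕ, 3 ≤ n →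
      Real.exp (c * Real.sqrt (Real.log n * ell (H - 1) (Real.log n))) ≤ f k j n := by
  obtain ⟨C, c0, hC, hc0, hshort⟩ := exists_short3 (K := 2 * k) (M := 2 * (2 * k)) (H := H)
    (by omega)
  obtain ⟨G, hGdef⟩ : ∃ G : ℕ, G = 320 * (k + 1) := ⟨_, rfl⟩
  have hGr : (1280 : ℝ) ≤ (G : ℝ) := by
    have : 1280 ≤ G := by rw [hGdef]; omega
    exact_mod_cast this
  have hlogG : 1 ≤ Real.log G := by
    rw [Real.le_log_iff_exp_le (by linarith)]
    have := Real.exp_one_lt_d9
    linarith
  have hc0r : (1 : ℝ) ≤ c0 := by exact_mod_cast hc0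
  set D : ℝ := 2 * c0 * (81 * Real.log G) with hD
  have hDpos : 1 ≤ D := by nlinarith
  set c5 : ℝ := 1 / (6 * C * D) with hc5
  have h6CD : 1 ≤ 6 * C * D := by nlinarith
  have hc5pos : 0 < c5 := by positivity
  have hc51 : c5 ≤ 1 := by
    rw [hc5, div_le_one (by linarith)]; exact h6CD
  refine ⟨c5 / 16, by positivity, ?_⟩
  intro n hn
  have hn3 : (3 : ℝ) ≤ n := by exact_mod_cast hn
  have hnpos : (0 : ℝ) < n := by linarith
  set V := Real.log n with hV
  have hV1 : 1 ≤ V := by
    rw [hV, Real.le_log_iff_exp_le hnpos]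
    have := Real.exp_one_lt_d9
    linarith
  have hellV1 := one_le_ell (H - 1) hV1
  have hellV := ell_le (H - 1) hV1
  set S := Real.sqrt (V * ell (H - 1) V) with hS
  have hS0 : 0 ≤ S := Real.sqrt_nonneg _
  have hSV : S ≤ V := by
    rw [hS]
    calc Real.sqrt (V * ell (H - 1) V) ≤ Real.sqrt (V * V) := Real.sqrt_le_sqrt (by nlinarith)
      _ = V := Real.sqrt_mul_self (by linarith)
  have hSS : S * S = V * ell (H - 1) V := Real.mul_self_sqrt (by nlinarith)
  set N := ⌊c5 * S⌋₊ with hN
  have hcV : 0 ≤ c5 * S := by positivity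
  have hN1 : (N : ℝ) ≤ c5 * S := Nat.floor_le hcV
  have hN2 : c5 * S < N + 1 := Nat.lt_floor_add_one _
  rcases Nat.lt_or_ge N 8 with h4 | h4
  · have h5 : (N : ℝ) + 1 ≤ 8 := by exact_mod_cast h4
    have h6 : c5 / 16 * S ≤ 1 := by
      have : c5 / 16 * S = c5 * S / 16 := by ring
      rw [this]; linarith
    have h7 : Real.exp (c5 / 16 * S) ≤ Real.exp 1 := Real.exp_le_exp.2 h6
    have h8 := Real.exp_one_lt_d9
    have h9 : (3 : ℝ) ≤ f k j n := by exact_mod_cast three_le_f hk3 (by omega) hn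
    linarith
  · have hNr : (8 : ℝ) ≤ N := by exact_mod_cast h4
    have hNpos : (0 : ℝ) < N := by linarith
    have hN1r : (1 : ℝ) ≤ N := by linarith
    have hellN1 := one_le_ell (H - 1) hN1r
    -- the depth
    have hcmp : ell (H - 1) V ≤ (2 + 4 / c5) * ell (H - 1) N := by
      apply ell_compare (H - 1) hc5pos hc51 hV1 hN1r
      have : c5 / 2 * S = c5 * S / 2 := by ring
      rw [← hS, this]
      linarith
    have hVD : C * N * N ≤ V / D * ell (H - 1) N := by
      have h1 : C * N * N ≤ C * (c5 * S) * (c5 * S) := by gcongr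
      have h2 : C * (c5 * S) * (c5 * S) = C * c5 * c5 * (V * ell (H - 1) V) := by
        rw [← hSS]; ring
      have h3 : C * c5 * c5 * (V * ell (H - 1) V) ≤
          C * c5 * c5 * (V * ((2 + 4 / c5) * ell (H - 1) N)) := by gcongr
      have h4 : C * c5 * c5 * (V * ((2 + 4 / c5) * ell (H - 1) N)) =
          (C * c5 * (2 * c5 + 4)) * (V * ell (H - 1) N) := by
        field_simp
      have h5 : C * c5 * (2 * c5 + 4) ≤ 1 / D := by
        have h6 : C * c5 * (2 * c5 + 4) ≤ C * c5 * 6 := by
          apply mul_le_mul_of_nonneg_left _ (by positivity)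
          linarith
        have h7 : C * c5 * 6 = 1 / D := by
          rw [hc5]
          field_simp
        linarith
      have h6 : (C * c5 * (2 * c5 + 4)) * (V * ell (H - 1) N) ≤ 1 / D * (V * ell (H - 1) N) :=
        mul_le_mul_of_nonneg_right h5 (by positivity)
      have h7 : 1 / D * (V * ell (H - 1) N) = V / D * ell (H - 1) N := by ring
      linarith
    set m := ⌈C * N * N / ell (H - 1) N⌉₊ with hm
    have hm1 : C * N * N / ell (H - 1) N ≤ m := Nat.le_ceil _
    have hm2 : (m : ℝ) < C * N * N / ell (H - 1) N + 1 := Nat.ceil_lt_add_one (by positivity)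
    have hcond : C * N * N ≤ m * ell (H - 1) N := by
      rwa [div_le_iff₀ (by linarith)] at hm1
    have hmV : (m : ℝ) + 1 ≤ 2 * (V / D) := by
      have h1 : C * N * N / ell (H - 1) N ≤ V / D := by
        rw [div_le_iff₀ (by linarith)]; exact hVD
      have h2 : 2 ≤ V / D := by
        rw [le_div_iff₀ (by linarith)]
        have h3 : 8 ≤ c5 * V := by
          have : c5 * S ≤ c5 * V := mul_le_mul_of_nonneg_left hSV hc5pos.le
          linarith
        have h4 : c5 * V = V / (6 * C * D) := by rw [hc5]; ring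
        rw [h4, le_div_iff₀ (by linarith)] at h3
        nlinarith
      linarith
    obtain ⟨σ, hσdef⟩ : ∃ σ : ℕ, σ = c0 * (m + 1) := ⟨_, rfl⟩
    have hσ1 : 1 ≤ σ := by
      rw [hσdef]
      exact Nat.mul_pos (by omega) (by omega)
    have hσ2 : (σ : ℝ) * (81 * Real.log G) ≤ V := by
      rw [hσdef]
      push_cast
      have h2 : ((c0 : ℝ) * (m + 1)) * (81 * Real.log G) ≤
          (c0 * (2 * (V / D))) * (81 * Real.log G) := by
        apply mul_le_mul_of_nonneg_right _ (by positivity)
        exact mul_le_mul_of_nonneg_left hmV (by linarith)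
      have h3 : (c0 * (2 * (V / D))) * (81 * Real.log G) = V := by
        have : D ≠ 0 := by linarith
        have e : (c0 * (2 * (V / D))) * (81 * Real.log G) = D * (V / D) := by rw [hD]; ring
        rw [e]; field_simp
      linarith
    have hlow : 2 ^ ((N - 1) / 2) + 1 ≤ f k j n := by
      apply le_f hk3 hn
      intro P hP1 hP2
      have h1 : (320 * (k + 1)) ^ (40 * σ) * (320 * (k + 1)) ^ (40 * σ) < P.card := by
        rw [hP1, ← hGdef]
        have h2 : Real.log ((G : ℝ) ^ (40 * σ) * (G : ℝ) ^ (40 * σ)) < Real.log n := by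
          rw [← pow_add, Real.log_pow]
          push_cast
          have h4 : (1 : ℝ) ≤ σ := by exact_mod_cast hσ1
          nlinarith
        have h3 : (G : ℝ) ^ (40 * σ) * (G : ℝ) ^ (40 * σ) < n :=
          (Real.log_lt_log_iff (by positivity) (by positivity)).1 h2
        exact_mod_cast h3
      obtain ⟨ε, p, T, hpP, hx, hCr, hCp, hT⟩ := exists_T hP2 hσ1 h1
      obtain ⟨T', z1, z2⟩ := comp_le' (a := c0 * (m + 1)) (by rw [← hσdef]; omega) hT
      have hx' := hx.sublist z1.sublist
      have hCr' := hCr.sub z1.sublist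
      have hCp' := hCp.sub z1
      have hPM := init_pm (k := 2 * k) hx' hCr' T' [] (by simp [lf, rR, rL]) (by simp) hCp'
      have hWB := wb_of_cross (k := 2 * k) hx' hCr' T' [] (by simp [lf, rR, rL]) (by simp) hCp'
      obtain ⟨X, g1, g2, g3⟩ := hshort m N T' (by omega) hcond z2 hPM hWB
      obtain ⟨L, q1, q2, q3⟩ := exists_niceL (K := 5) (k := j) (n := (N - 1) / 2)
        (by omega) (by omega) (hx'.sublist g1.sublist) (hCp'.sub g1)
        (g2.mono (by omega)) g3
      have h8 : 2 ≤ 2 ^ ((N - 1) / 2) := by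
        calc 2 = 2 ^ 1 := rfl
          _ ≤ 2 ^ ((N - 1) / 2) := Nat.pow_le_pow_right (by norm_num) (by omega)
      obtain ⟨L', hL1, hL2, hL3⟩ : ∃ L' : List ℕ, L'.Sublist L ∧
          L'.length = 2 ^ ((N - 1) / 2) + 1 ∧
          (NiceK j (fun i => (p i).1 + ε * (p i).2) (fun i => (p i).2) L' ∨
            NiceK j (fun i => (p i).1 + ε * (p i).2) (fun i => - (p i).2) L') := by
        rcases q3 with q3 | q3
        · obtain ⟨L', a1, a2, a3⟩ := niceK_take q3 (by omega) q1
          exact ⟨L', a1, a2, Or.inl a3⟩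
        · obtain ⟨L', a1, a2, a3⟩ := niceK_take q3 (by omega) q1
          exact ⟨L', a1, a2, Or.inr a3⟩
      obtain ⟨Q, r1, r2, r3⟩ := kconvex_of_niceK (k := j) (by omega) hP2.1 ε p
        (fun i _ => hpP i) (by omega) hL3
      exact ⟨Q, r1, r2, by rw [r3, hL2]⟩
    have h2 : ((2 : ℝ) ^ ((N - 1) / 2) + 1) ≤ f k j n := by exact_mod_cast hlow
    have h3 : Real.exp (c5 / 16 * S) ≤ 2 ^ ((N - 1) / 2) := by
      apply exp_le_two_pow
      have h4 : (N : ℝ) ≤ 2 * (((N - 1) / 2 : ℕ) : ℝ) + 2 := by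
        have : N ≤ 2 * ((N - 1) / 2) + 2 := by omega
        exact_mod_cast this
      have : c5 / 16 * S = c5 * S / 16 := by ring
      rw [this]; linarith
    linarith

end Pool.Agent.H595K
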