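import Mathlib
import Pool.Agent.H595K.SLow

/-!
# Polygons on the points of a set of binary words
-/

namespace Pool.Agent.H595K

open Finset

/-- first coordinates of the vertices -/
noncomputable def WX (B : ℝ) (t N : ℕ) (w : ℕ → ℕ) (i : ℕ) : ℝ :=
  if i = 0 then -1 else if i ≤ N then PX B t (w (i - 1)) else SS B t + 1

/-- second coordinates of the vertices -/
noncomputable def WY (M : ℕ) (B : ℝ) (t N : ℕ) (w : ℕ → ℕ) (i : ℕ) : ℝ :=
  if i = 0 then -DD B t else if i ≤ N then PY M B t (w (i - 1)) else -DD B t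

section
variable {M t N : ℕ} {B : ℝ} {w : ℕ → ℕ}

theorem WX_zero : WX B t N w 0 = -1 := by simp [WX]
theorem WY_zero : WY M B t N w 0 = -DD B t := by simp [WY]
theorem WX_last : WX B t N w (N + 1) = SS B t + 1 := by simp [WX]
theorem WY_last : WY M B t N w (N + 1) = -DD B t := by simp [WY]
theorem WX_word {i : ℕ} (h0 : 0 < i) (h : i ≤ N) : WX B t N w i = PX B t (w (i - 1)) := by
  simp [WX, h, h0.ne']
theorem WY_word {i : ℕ} (h0 : 0 < i) (h : i ≤ N) : WY M B t N w i = PY M B t (w (i - 1)) := by
  simp [WY, h, h0.ne']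

theorem monoPolyW (hM : 2 ≤ M) (hB : 4 * (t : ℝ) + 3 < B) (hN : 1 ≤ N)
    (hw1 : ∀ i j, i < j → j < N → w i < w j) (hw2 : ∀ i < N, w i < 2 ^ t) :
    MonoPoly (WX B t N w) (WY M B t N w) (N + 1) := by
  have hS := SS_nonneg hB
  have ht0 : (0 : ℝ) ≤ t := Nat.cast_nonneg t
  refine ⟨by omega, ?_, ?_, ?_⟩
  · intro i hi
    rcases Nat.eq_zero_or_pos i with h0 | h0
    · subst h0
      rw [WX_zero, WX_word (by omega) hN]
      have := (PX_bounds hB (w (0 + 1 - 1))).1
      linarith
    · rcases Nat.lt_or_ge i N with h1 | h1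
      · rw [WX_word h0 h1.le, WX_word (by omega) h1]
        have := (slope_le hM hB (hw1 (i - 1) (i + 1 - 1) (by omega) (by omega)) (hw2 _ (by omega))).1
        linarith
      · have h2 : i = N := by omega
        subst h2
        rw [WX_last, WX_word h0 le_rfl]
        have := (PX_bounds hB (w (i - 1))).2
        linarith
  · rw [WY_last, WY_zero]
  · intro i h0 hi
    rw [WY_zero, WY_word h0 (by omega)]
    have := deep hM hB (hw2 (i - 1) (by omega))
    have : 0 ≤ (t + 1) * (SS B t + 1) := by positivity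
    linarith

theorem no_altW {h : ℕ} (hM : 2 ≤ M) (hh : 1 ≤ h) (ht0 : 1 ≤ t) (ht : t ≤ M ^ h)
    (hB : 4 * (t : ℝ) + 3 < B) (hw1 : ∀ i j, i < j → j < N → w i < w j)
    (hw2 : ∀ i < N, w i < 2 ^ t) (θ β : ℝ) :
    ¬ ∃ g : ℕ → ℕ, (∀ i, i < 2 * (3 * h) → g i < g (i + 1)) ∧
      (∀ i, i ≤ 2 * (3 * h) → g i ≤ N + 1) ∧
      ∀ i, i ≤ 2 * (3 * h) →
        (0 ≤ WY M B t N w (g i) - θ * WX B t N w (g i) - β ↔ i % 2 = 0) := by
  rintro ⟨g, hg1, hg2, hg3⟩
  have hS := SS_nonneg hB
  have htr : (0 : ℝ) ≤ t := Nat.cast_nonneg t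
  have hword : ∀ i, 0 < g i → g i ≤ N → i ≤ 2 * (3 * h) →
      (0 ≤ PY M B t (w (g i - 1)) - θ * PX B t (w (g i - 1)) - β ↔ i % 2 = 0) := by
    intro i h1 h2 h3
    have := hg3 i h3
    rwa [WX_word h1 h2, WY_word h1 h2] at this
  have g01 := hg1 0 (by omega)
  have g12 := hg1 1 (by omega)
  have g23 := hg1 2 (by omega)
  have g34 := hg1 3 (by omega)
  have g4 := hg2 4 (by omega)
  norm_num at g01 g12 g23 g34
  by_cases hbase : (0 ≤ -DD B t - θ * (-1) - β) ∨ (0 ≤ -DD B t - θ * (SS B t + 1) - β)
  · rcases le_or_gt (|θ|) (t + 1) with hθ | hθ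
    · obtain ⟨hθ1, hθ2⟩ := abs_le.1 hθ
      have h1 := hword 1 (by omega) (by omega) (by omega)
      have hw : w (g 1 - 1) < 2 ^ t := hw2 _ (by omega)
      obtain ⟨h2, h3⟩ := PX_bounds hB (w (g 1 - 1))
      have h4 := deep hM hB hw
      have h5 : ¬ (0 ≤ PY M B t (w (g 1 - 1)) - θ * PX B t (w (g 1 - 1)) - β) := by
        rw [h1]; omega
      apply h5
      rcases hbase with hb | hb
      · nlinarith
      · nlinarith
    · have h1 := hword 1 (by omega) (by omega) (by omega)
      have h2 := hword 2 (by omega) (by omega) (by omega)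
      have h3 := hword 3 (by omega) (by omega) (by omega)
      obtain ⟨k1, k2⟩ := slope_le (M := M) hM hB (hw1 (g 1 - 1) (g 2 - 1) (by omega) (by omega)) (hw2 _ (by omega))
      obtain ⟨k3, k4⟩ := slope_le (M := M) hM hB (hw1 (g 2 - 1) (g 3 - 1) (by omega) (by omega)) (hw2 _ (by omega))
      have h1' : ¬ (0 ≤ PY M B t (w (g 1 - 1)) - θ * PX B t (w (g 1 - 1)) - β) := by
        rw [h1]; omega
      have h2' : 0 ≤ PY M B t (w (g 2 - 1)) - θ * PX B t (w (g 2 - 1)) - β := h2.2 rfl
      have h3' : ¬ (0 ≤ PY M B t (w (g 3 - 1)) - θ * PX B t (w (g 3 - 1)) - β) := by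
        rw [h3]; omega
      obtain ⟨k5, k6⟩ := abs_lt.1 k2
      obtain ⟨k7, k8⟩ := abs_lt.1 k4
      rcases lt_abs.1 hθ with h4 | h4
      · have h5 : (t : ℝ) * (PX B t (w (g 2 - 1)) - PX B t (w (g 1 - 1))) ≤
            θ * (PX B t (w (g 2 - 1)) - PX B t (w (g 1 - 1))) :=
          mul_le_mul_of_nonneg_right (by linarith) k1.le
        apply h1'
        linarith
      · have h5 : θ * (PX B t (w (g 3 - 1)) - PX B t (w (g 2 - 1))) ≤
            (-t) * (PX B t (w (g 3 - 1)) - PX B t (w (g 2 - 1))) :=
          mul_le_mul_of_nonneg_right (by linarith) k3.le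
        apply h3'
        linarith
  · push Not at hbase
    obtain ⟨hb0, hb1⟩ := hbase
    have hmono : ∀ i j, i < j → j ≤ 2 * (3 * h) → g i < g j := by
      intro i j hij
      induction j, hij using Nat.le_induction with
      | base => intro hj; exact hg1 i (by omega)
      | succ j _ ih => intro hj; exact (ih (by omega)).trans (hg1 j (by omega))
    have hpos : ∀ i, i ≤ 2 * (3 * h) → 0 < g i := by
      intro i hi
      have h0 : 0 < g 0 := by
        by_contra hc
        have h1 : g 0 = 0 := by omega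
        have h2 := (hg3 0 (by omega)).2 rfl
        rw [h1, WX_zero, WY_zero] at h2
        linarith
      rcases Nat.eq_zero_or_pos i with h1 | h1
      · rw [h1]; exact h0
      · exact h0.trans (hmono 0 i h1 hi)
    have hle : ∀ i, i ≤ 2 * (3 * h) → g i ≤ N := by
      intro i hi
      have h0 : g (2 * (3 * h)) ≤ N := by
        by_contra hc
        have h1 : g (2 * (3 * h)) = N + 1 := by
          have := hg2 (2 * (3 * h)) le_rfl
          omega
        have h2 := (hg3 (2 * (3 * h)) le_rfl).2 (by omega)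
        rw [h1, WX_last, WY_last] at h2
        linarith
      rcases Nat.lt_or_eq_of_le hi with h1 | h1
      · exact (hmono i _ h1 le_rfl).le.trans h0
      · rw [h1]; exact h0
    set c : ℕ → ℝ := fun e => ((lab M e : ℝ) - θ) * B ^ e with hc
    have hF : ∀ u, F c t u = PY M B t u - θ * PX B t u := fun u => F_lin _ B θ t u
    set ws : List ℕ := (List.range (6 * h + 1)).map (fun i => w (g i - 1)) with hws
    have hws1 : ws.Pairwise (· < ·) := by
      rw [hws, List.pairwise_map]
      refine List.Pairwise.imp_of_mem ?_ List.pairwise_lt_range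
      intro i j hi hj hij
      have hi' := List.mem_range.1 hi
      have hj' := List.mem_range.1 hj
      have h1 := hmono i j hij (by omega)
      have h2 := hpos i (by omega)
      have h3 := hle j (by omega)
      exact hw1 _ _ (by omega) (by omega)
    have hws2 : ∀ u ∈ ws, u < 2 ^ t := by
      intro u hu
      rw [hws, List.mem_map] at hu
      obtain ⟨i, hi, rfl⟩ := hu
      have hi' := List.mem_range.1 hi
      have h1 := hle i (by omega)
      have h2 := hpos i (by omega)
      exact hw2 _ (by omega)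
    have hsub := (sublist_range hws1 hws2).map (fun u => decide (β ≤ F c t u))
    have e1 : ws.map (fun u => decide (β ≤ F c t u)) = alt (6 * h + 1) true := by
      rw [hws, List.map_map, ← alt_eq_map]
      apply List.map_congr_left
      intro i hi
      have hi' := List.mem_range.1 hi
      have h1 := hword i (hpos i (by omega)) (hle i (by omega)) (by omega)
      simp only [Function.comp]
      rw [hF]
      rcases Nat.mod_two_eq_zero_or_one i with h2 | h2
      · rw [if_pos h2]
        have := h1.2 h2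
        simp only [decide_eq_true_eq]
        linarith
      · rw [if_neg (by omega)]
        have : ¬ (0 ≤ PY M B t (w (g i - 1)) - θ * PX B t (w (g i - 1)) - β) := by
          rw [h1]; omega
        simp only [Bool.not_true, decide_eq_false_iff_not, not_le]
        push Not at this
        linarith
    rw [e1] at hsub
    have hsub2 : (false :: (alt (6 * h + 1) true ++ [false])).Sublist
        (false :: (sg c t β ++ [false])) :=
      List.Sublist.cons_cons _ (hsub.append (List.Sublist.refl _))
    have h1 := ch_sublist hsub2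
    have h2 : ch (false :: (sg c t β ++ [false])) ≤ 6 * h := ch_signs hM hh ht0 ht θ β B hB
    have e2 : (false :: (alt (6 * h + 1) true ++ [false])) = alt (6 * h + 2 + 1) false := by
      have e3 : alt (6 * h + 2 + 1) false = false :: alt (6 * h + 1 + 1) true := rfl
      rw [e3, alt_add (6 * h + 1) 1 true]
      have e4 : 6 * h + 1 = 2 * (3 * h) + 1 := by ring
      rw [e4, fl_odd]
      rfl
    rw [e2, ch_alt] at h1
    omega

/-- twice the signed area of the triangle of three vertices -/
noncomputable def det3W (M : ℕ) (B : ℝ) (t N : ℕ) (w : ℕ → ℕ) (i j k : ℕ) : ℝ :=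
  (WX B t N w j - WX B t N w i) * (WY M B t N w k - WY M B t N w i) -
    (WX B t N w k - WX B t N w i) * (WY M B t N w j - WY M B t N w i)

theorem det3W_ne (hM : 2 ≤ M) (hB : 4 * (t : ℝ) + 3 < B) (hw1 : ∀ i j, i < j → j < N → w i < w j)
    (hw2 : ∀ i < N, w i < 2 ^ t) {i j k : ℕ}
    (hij : i < j) (hjk : j < k) (hk : k ≤ N + 1) : det3W M B t N w i j k ≠ 0 := by
  have hS := SS_nonneg hB
  have htr : (0 : ℝ) ≤ t := Nat.cast_nonneg t
  unfold det3W
  have hj0 : 0 < j := by omega
  have hjN : j ≤ N := by omega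
  rw [WX_word hj0 hjN, WY_word hj0 hjN]
  obtain ⟨hj1, hj2⟩ := PX_bounds hB (w (j - 1))
  have hj3 := deep hM hB (hw2 (j - 1) (by omega))
  rcases Nat.eq_zero_or_pos i with hi | hi
  · subst hi
    rw [WX_zero, WY_zero]
    rcases Nat.lt_or_ge k (N + 1) with hk1 | hk1
    · rw [WX_word (by omega) (by omega), WY_word (by omega) (by omega)]
      obtain ⟨h1, h2⟩ := slope_le (M := M) hM hB (hw1 (j - 1) (k - 1) (by omega) (by omega)) (hw2 _ (by omega))
      obtain ⟨h3, h4⟩ := abs_lt.1 h2
      set a := PX B t (w (j - 1)) with ha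
      set b := PY M B t (w (j - 1)) with hb
      set D := PX B t (w (k - 1)) - a with hD
      set E := PY M B t (w (k - 1)) - b with hE
      have e : (a - -1) * (PY M B t (w (k - 1)) - -DD B t) - (PX B t (w (k - 1)) - -1) * (b - -DD B t) =
          (a + 1) * E - D * (b + DD B t) := by rw [hE, hD]; ring
      rw [e]
      have h5 : (a + 1) * E ≤ (SS B t + 1) * (t * D) := by
        have h6 : (a + 1) * E ≤ (a + 1) * (t * D) := mul_le_mul_of_nonneg_left h4.le (by linarith)
        have h7 : (a + 1) * (t * D) ≤ (SS B t + 1) * (t * D) :=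
          mul_le_mul_of_nonneg_right (by linarith) (mul_nonneg htr h1.le)
        linarith
      have h6 : D * ((t + 1) * (SS B t + 1)) < D * (b + DD B t) := mul_lt_mul_of_pos_left hj3 h1
      have h7 : 0 ≤ D * (SS B t + 1) := mul_nonneg h1.le (by linarith)
      have : (a + 1) * E - D * (b + DD B t) < 0 := by nlinarith
      exact this.ne
    · have hk2 : k = N + 1 := by omega
      subst hk2
      rw [WX_last, WY_last]
      have : 0 ≤ (t + 1) * (SS B t + 1) := by positivity
      have h8 : 0 < (SS B t + 1 - -1) * (PY M B t (w (j - 1)) - -DD B t) := by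
        apply mul_pos
        · linarith
        · linarith
      have e : (PX B t (w (j - 1)) - -1) * (-DD B t - -DD B t) -
          (SS B t + 1 - -1) * (PY M B t (w (j - 1)) - -DD B t) =
          -((SS B t + 1 - -1) * (PY M B t (w (j - 1)) - -DD B t)) := by ring
      rw [e]
      exact (neg_lt_zero.2 h8).ne
  · rw [WX_word hi (by omega), WY_word hi (by omega)]
    obtain ⟨hi1, hi2⟩ := PX_bounds hB (w (i - 1))
    have hi3 := deep hM hB (hw2 (i - 1) (by omega))
    rcases Nat.lt_or_ge k (N + 1) with hk1 | hk1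
    · rw [WX_word (by omega) (by omega), WY_word (by omega) (by omega)]
      obtain ⟨l1, hl1, ht1⟩ := exists_top (t := t) (hw1 (i - 1) (j - 1) (by omega) (by omega)) (hw2 _ (by omega))
      obtain ⟨l2, hl2, ht2⟩ := exists_top (t := t) (hw1 (j - 1) (k - 1) (by omega) (by omega)) (hw2 _ (by omega))
      obtain ⟨a1, a2⟩ := slope hM hB ht1 hl1
      obtain ⟨b1, b2⟩ := slope hM hB ht2 hl2
      have hne : l1 ≠ l2 := by
        intro hl
        have h1 := ht1.2.2
        have h2 := ht2.2.1
        rw [hl, h2] at h1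
        exact absurd h1 (by simp)
      have hlab : lab M l1 ≠ lab M l2 := fun h' => hne (lab_inj hM _ _ h')
      set D1 := PX B t (w (j - 1)) - PX B t (w (i - 1)) with hD1
      set D2 := PX B t (w (k - 1)) - PX B t (w (j - 1)) with hD2
      set N1 := PY M B t (w (j - 1)) - PY M B t (w (i - 1)) with hN1
      set N3 := PY M B t (w (k - 1)) - PY M B t (w (j - 1)) with hN3
      have e : D1 * (PY M B t (w (k - 1)) - PY M B t (w (i - 1))) -
          (PX B t (w (k - 1)) - PX B t (w (i - 1))) * N1 = D1 * N3 - D2 * N1 := by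
        rw [hD1, hD2, hN1, hN3]; ring
      rw [e]
      obtain ⟨a3, a4⟩ := abs_lt.1 a2
      obtain ⟨b3, b4⟩ := abs_lt.1 b2
      rcases lt_or_gt_of_ne hlab with h1 | h1
      · have h2 : (lab M l1 : ℝ) + 1 ≤ lab M l2 := by exact_mod_cast h1
        have h3 : N1 < ((lab M l1 : ℝ) + 1 / 2) * D1 := by linarith
        have h4 : ((lab M l1 : ℝ) + 1 / 2) * D2 < N3 := by
          have : ((lab M l1 : ℝ) + 1) * D2 ≤ (lab M l2 : ℝ) * D2 :=
            mul_le_mul_of_nonneg_right h2 b1.le
          linarith
        have h5 := mul_lt_mul_of_pos_left h3 b1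
        have h6 := mul_lt_mul_of_pos_left h4 a1
        have : 0 < D1 * N3 - D2 * N1 := by linarith
        exact this.ne'
      · have h2 : (lab M l2 : ℝ) + 1 ≤ lab M l1 := by exact_mod_cast h1
        have h3 : ((lab M l2 : ℝ) + 1 / 2) * D1 < N1 := by
          have : ((lab M l2 : ℝ) + 1) * D1 ≤ (lab M l1 : ℝ) * D1 :=
            mul_le_mul_of_nonneg_right h2 a1.le
          linarith
        have h4 : N3 < ((lab M l2 : ℝ) + 1 / 2) * D2 := by linarith
        have h5 := mul_lt_mul_of_pos_left h3 b1
        have h6 := mul_lt_mul_of_pos_left h4 a1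
        have : D1 * N3 - D2 * N1 < 0 := by linarith
        exact this.ne
    · have hk2 : k = N + 1 := by omega
      subst hk2
      rw [WX_last, WY_last]
      obtain ⟨h1, h2⟩ := slope_le (M := M) hM hB (hw1 (i - 1) (j - 1) (by omega) (by omega)) (hw2 _ (by omega))
      obtain ⟨h3, h4⟩ := abs_lt.1 h2
      set a := PX B t (w (i - 1)) with ha
      set b := PY M B t (w (i - 1)) with hb
      set D := PX B t (w (j - 1)) - a with hD
      set E := PY M B t (w (j - 1)) - b with hE
      have h5 : -((SS B t + 1) * (t * D)) ≤ (SS B t + 1 - a) * E := by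
        have h6 : (SS B t + 1 - a) * (-(t * D)) ≤ (SS B t + 1 - a) * E :=
          mul_le_mul_of_nonneg_left h3.le (by linarith)
        have h7 : (SS B t + 1 - a) * (t * D) ≤ (SS B t + 1) * (t * D) :=
          mul_le_mul_of_nonneg_right (by linarith) (mul_nonneg htr h1.le)
        linarith
      have h6 : D * ((t + 1) * (SS B t + 1)) < D * (b + DD B t) := mul_lt_mul_of_pos_left hi3 h1
      have h7 : 0 ≤ D * (SS B t + 1) := mul_nonneg h1.le (by linarith)
      have : D * (-DD B t - b) - (SS B t + 1 - a) * E < 0 := by nlinarith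
      exact this.ne

end

end Pool.Agent.H595K
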