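import Mathlib
import Pool.Agent.H595K.UPoly

/-!
# Polygons on the points of a set of binary words with few components on each line
-/

namespace Pool.Agent.H595K

open Finset Vis124

section
variable {M t N a : ℕ} {B : ℝ}

/-- a set of levels without two alternating patterns -/
def PoorS (M p q : ℕ) (I : Finset ℕ) : Prop :=
  ¬ Rich (lab M) p true I ∧ ¬ Rich (lab M) q false I

theorem card_le_of_convexW (hM : 2 ≤ M) (hB : 4 * (t : ℝ) + 3 < B) {w : ℕ → ℕ} {E : Finset ℕ}
    (hw1 : ∀ i j, i < j → j < N → w i < w j) (hw2 : ∀ i < N, w i < 2 ^ t)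
    (hwE : ∀ i < N, ∀ l, (w i).testBit l = true → l ∈ E) {c : ℕ}
    (hcount : ∀ F : Finset (Finset ℕ), (∀ I ∈ F, I ⊆ E ∧ PoorS M (a + 1) (a + 1) I) → F.card ≤ c)
    {m : ℕ} {v : Fin m → ℝ × ℝ} {S : Set (ℝ × ℝ)} (hv : IsSimplePolygon v S)
    (hk : IsKConvexRegion (3 * a + 2) S)
    (hP : ∀ i, ∃ r, r ≤ N + 1 ∧ v i = (WX B t N w r, WY M B t N w r)) :
    m ≤ c * c + 2 := by
  classical
  by_contra hlt
  push Not at hlt
  have h3 := hv.three_le
  have hinjw : ∀ i < N, ∀ j < N, w i = w j → i = j := by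
    intro i hi j hj hij
    rcases lt_trichotomy i j with h | h | h
    · exact absurd hij (hw1 i j h hj).ne
    · exact h
    · exact absurd hij (hw1 j i h hi).ne'
  set W : Finset ℕ := ((range N).image w).filter
    (fun u => ∃ i, v i = (PX B t u, PY M B t u)) with hW
  have hWlt : ∀ u ∈ W, u < 2 ^ t := by
    intro u hu
    obtain ⟨i, hi, rfl⟩ := mem_image.1 (mem_filter.1 hu).1
    exact hw2 i (mem_range.1 hi)
  have hWE : ∀ u ∈ W, ∀ l, u.testBit l = true → l ∈ E := by
    intro u hu
    obtain ⟨i, hi, rfl⟩ := mem_image.1 (mem_filter.1 hu).1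
    exact hwE i (mem_range.1 hi)
  have hWcard : m ≤ W.card + 2 := by
    choose r hr1 hr2 using hP
    have hrinj : Function.Injective r := by
      intro i j hij
      apply hv.injective
      rw [hr2 i, hr2 j, hij]
    have hsub : (univ : Finset (Fin m)).image r ⊆
        {0, N + 1} ∪ ((range N).filter (fun i => w i ∈ W)).image (fun w => w + 1) := by
      intro x hx
      obtain ⟨i, _, rfl⟩ := mem_image.1 hx
      rw [mem_union]
      by_cases h0 : r i = 0
      · left; simp [h0]
      by_cases h1 : r i = N + 1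
      · left; simp [h1]
      right
      rw [mem_image]
      have h4 := hr1 i
      refine ⟨r i - 1, mem_filter.2 ⟨mem_range.2 (by omega), mem_filter.2
        ⟨mem_image.2 ⟨r i - 1, mem_range.2 (by omega), rfl⟩, i, ?_⟩⟩, by omega⟩
      rw [hr2 i, WX_word (by omega) (by omega), WY_word (by omega) (by omega)]
    have h4 := card_le_card hsub
    rw [card_image_of_injective _ hrinj, card_univ, Fintype.card_fin] at h4
    have h5 := card_union_le ({0, N + 1} : Finset ℕ)
      (((range N).filter (fun i => w i ∈ W)).image (fun w => w + 1))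
    have h6 : ({0, N + 1} : Finset ℕ).card ≤ 2 := card_le_two
    have h7 : (((range N).filter (fun i => w i ∈ W)).image (fun w => w + 1)).card ≤
        ((range N).filter (fun i => w i ∈ W)).card := card_image_le
    have h8 : ((range N).filter (fun i => w i ∈ W)).card ≤ W.card := by
      apply card_le_card_of_injOn w
      · intro i hi
        exact (mem_filter.1 hi).2
      · intro i hi j hj hij
        have hi' := mem_range.1 (mem_filter.1 (mem_coe.1 hi)).1
        have hj' := mem_range.1 (mem_filter.1 (mem_coe.1 hj)).1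
        exact hinjw i hi' j hj' hij
    omega
  have hex : ∀ w : ↥W, ∃ i, v i = (PX B t w, PY M B t w) := fun w => (mem_filter.1 w.2).2
  choose f hf using hex
  have hfinj : Function.Injective f := by
    intro w w' h
    have h4 : (PX B t w, PY M B t w) = (PX B t w', PY M B t w') := by rw [← hf w, ← hf w', h]
    have h5 : PX B t w = PX B t w' := congrArg Prod.fst h4
    exact Subtype.ext (PX_inj hM hB (hWlt _ w.2) (hWlt _ w'.2) h5)
  have hcard : c * c < Fintype.card ↥W := by
    rw [Fintype.card_coe]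
    omega
  -- a set of words on which the order of the polygon is monotone
  have hT : ∃ T : Finset ↥W, c < T.card ∧ (StrictMonoOn f T ∨ StrictAntiOn f T) := by
    rcases Pool.Agent.H184R3.ES.erdos_szekeres hcard hfinj with ⟨T, h1, h2⟩ | ⟨T, h1, h2⟩
    · exact ⟨T, h1, Or.inl h2⟩
    · exact ⟨T, h1, Or.inr h2⟩
  obtain ⟨T, hT1, hT2⟩ := hT
  set T' : Finset ℕ := T.map ⟨Subtype.val, Subtype.val_injective⟩ with hT'
  have hT'W : ∀ w ∈ T', ∃ hw : w ∈ W, ⟨w, hw⟩ ∈ T := by
    intro w hw
    rw [hT', mem_map] at hw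
    obtain ⟨x, hx, rfl⟩ := hw
    exact ⟨x.2, hx⟩
  have hT'lt : ∀ w ∈ T', w < 2 ^ t := fun w hw => hWlt w (hT'W w hw).1
  have hnot : ∀ (I : Finset ℕ) (π : Bool), Emb (I.sort (· ≥ ·)) T' →
      Rich (lab M) (a + 1) π I → False := by
    intro I π hI3 hrich
    obtain ⟨u, hu, p, hp, q, hq, htop, zs, hzs1, hzs2, s0, hzs3⟩ := exists_alternating hrich hI3
    have hpt := hT'lt p hp
    have hqt := hT'lt q hq
    obtain ⟨hD, hsl⟩ := slope hM hB htop (htop.lt_of_lt hqt)
    set θ : ℝ := (PY M B t q - PY M B t p) / (PX B t q - PX B t p) with hθ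
    have hθN : PY M B t q - PY M B t p = θ * (PX B t q - PX B t p) := by
      rw [hθ]; field_simp
    have hθ2 : |θ - (lab M u : ℝ)| < 1 / 2 := by
      have e : (PY M B t q - PY M B t p) - (lab M u : ℝ) * (PX B t q - PX B t p) =
          (θ - (lab M u : ℝ)) * (PX B t q - PX B t p) := by rw [hθN]; ring
      rw [e, abs_mul, abs_of_pos hD] at hsl
      by_contra hc
      push Not at hc
      have := mul_le_mul_of_nonneg_right hc hD.le
      linarith
    -- sides of the words
    set G : ℝ × ℝ → ℝ := fun z => (z.2 - PY M B t p) - θ * (z.1 - PX B t p) with hG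
    have hside : ∀ z s, z ∈ zs → (Rel (lab M) u p z s ∨ Rel (lab M) u q z s) →
        decide (0 < G (PX B t z, PY M B t z)) = s := by
      intro z s hz h
      have hzt := hT'lt z (hzs1 z hz)
      rcases h with h | h
      · exact (side hM hB hpt hzt h hθ2).2
      · have h4 := (side hM hB hqt hzt h hθ2).2
        have e : G (PX B t z, PY M B t z) =
            (PY M B t z - PY M B t q) - θ * (PX B t z - PX B t q) := by
          simp only [hG]; linarith
        rw [e]; exact h4
    obtain ⟨ε, hε0, hε⟩ : ∃ ε : ℝ, 0 < ε ∧ ∀ i, 0 < G (v i) → ε < G (v i) := by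
      have h4 : ∀ᶠ ε : ℝ in nhdsWithin 0 (Set.Ioi 0), ∀ i, 0 < G (v i) → ε < G (v i) := by
        rw [Filter.eventually_all]
        intro i
        by_cases h5 : 0 < G (v i)
        · have : ∀ᶠ ε : ℝ in nhds 0, ε < G (v i) := eventually_lt_nhds h5
          exact (this.filter_mono nhdsWithin_le_nhds).mono (fun ε h _ => h)
        · exact Filter.Eventually.of_forall (fun ε h => absurd h h5)
      obtain ⟨ε, h5, h6⟩ := (h4.and self_mem_nhdsWithin).exists
      exact ⟨ε, h6, h5⟩
    set c1 : ℝ := PY M B t p - θ * PX B t p + ε with hc1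
    have hGc : ∀ z : ℝ × ℝ, (-θ) * z.1 + 1 * z.2 - c1 = G z - ε := by
      intro z; simp only [hG, hc1]; ring
    have hpos : ∀ i, (0 < (-θ) * (v i).1 + 1 * (v i).2 - c1 ↔ 0 < G (v i)) := by
      intro i
      rw [hGc]
      constructor
      · intro h4; linarith
      · intro h4; have := hε i h4; linarith
    have hne : ∀ i, (-θ) * (v i).1 + 1 * (v i).2 - c1 ≠ 0 := by
      intro i h4
      by_cases h5 : 0 < G (v i)
      · have := (hpos i).2 h5; linarith
      · rw [hGc] at h4; push Not at h5; linarith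
    let fz : ℕ → Fin m := fun w => if h : w ∈ W then f ⟨w, h⟩ else ⟨0, by omega⟩
    have hfz : ∀ w (h : w ∈ W), fz w = f ⟨w, h⟩ := fun w h => by simp only [fz, dif_pos h]
    have hzsW : ∀ z ∈ zs, z ∈ W := fun z hz => (hT'W z (hzs1 z hz)).1
    have hsigns : List.Forall₂ (fun i s => decide (0 < (-θ) * (v i).1 + 1 * (v i).2 - c1) = s)
        (zs.map fz) (alt (2 * (3 * (a + 1))) s0) := by
      rw [List.forall₂_map_left_iff, show 2 * (3 * (a + 1)) = 6 * (a + 1) by ring]
      rw [List.forall₂_iff_get] at hzs3 ⊢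
      refine ⟨hzs3.1, ?_⟩
      intro i h1 h2
      have h4 := hzs3.2 i h1 h2
      have h5 : zs.get ⟨i, h1⟩ ∈ zs := List.get_mem _ _
      have h6 := hside _ _ h5 h4
      rw [← h6, hfz _ (hzsW _ h5)]
      rw [decide_eq_decide, hpos, hf]
    have hcomp : ((3 * (a + 1) : ℕ) : ℕ∞) ≤ ENat.card
        (ConnectedComponents ↥({p : ℝ × ℝ | (-θ) * p.1 + 1 * p.2 = c1} ∩ S)) := by
      rcases hT2 with hT2 | hT2
      · refine comps_list hv (-θ) 1 c1 (Or.inr one_ne_zero) hne _ (zs.map fz) ?_ s0 hsigns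
        rw [List.pairwise_map]
        refine List.Pairwise.imp_of_mem ?_ hzs2
        intro z z' hz hz' hzz
        obtain ⟨h4, h5⟩ := hT'W z (hzs1 z hz)
        obtain ⟨h6, h7⟩ := hT'W z' (hzs1 z' hz')
        rw [hfz z h4, hfz z' h6]
        exact hT2 h5 h7 (Subtype.mk_lt_mk.2 hzz)
      · refine comps_list hv (-θ) 1 c1 (Or.inr one_ne_zero) hne _ (zs.map fz).reverse ?_
          (fl (2 * (3 * (a + 1))) (!s0)) ?_
        · rw [List.pairwise_reverse, List.pairwise_map]
          refine List.Pairwise.imp_of_mem ?_ hzs2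
          intro z z' hz hz' hzz
          obtain ⟨h4, h5⟩ := hT'W z (hzs1 z hz)
          obtain ⟨h6, h7⟩ := hT'W z' (hzs1 z' hz')
          rw [hfz z h4, hfz z' h6]
          exact hT2 h5 h7 (Subtype.mk_lt_mk.2 hzz)
        · rw [← alt_reverse]
          exact List.rel_reverse hsigns
    have h4 := hcomp.trans (hk _ ⟨-θ, 1, c1, Or.inr one_ne_zero, rfl⟩)
    have h5 : 3 * (a + 1) ≤ 3 * a + 2 := by exact_mod_cast h4
    omega
  -- the shattered sets of levels
  have hSh := card_le_Sh t 0 T' (fun u hu => Nat.div_eq_of_lt (hT'lt u hu))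
  have hle : (Sh t T').card ≤ c := by
    apply hcount
    intro I hI
    obtain ⟨_, hI2⟩ := mem_Sh.1 hI
    refine ⟨?_, fun h => hnot I true hI2 h, fun h => hnot I false hI2 h⟩
    intro l hl
    have h1 : [l].Sublist (I.sort (· ≥ ·)) := List.singleton_sublist.2 (by simpa using hl)
    obtain ⟨Q0, h0, Q1, h1', ht, e0, e1⟩ := emb_sublist h1 hI2
    obtain ⟨x, hx⟩ := emb_nonempty _ e0
    obtain ⟨y, hy⟩ := emb_nonempty _ e1
    exact hWE y (hT'W y (h1' hy)).1 l (ht x hx y hy).2.2
  have hT'c : T'.card = T.card := by rw [hT', card_map]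
  omega

end

end Pool.Agent.H595K
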