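import Mathlib
import Pool.Agent.H595K.NState
import Pool.Agent.H595K.USmall
import Pool.Agent.H595K.Small

/-!
# The points of binary words as a base of nested caps and cups
-/

namespace Pool.Agent.H595K.Nst

open Finset

section
variable {M t N : ℕ} {B : ℝ}

theorem fl_eq (n : ℕ) : ∀ s, fl n s = if n % 2 = 0 then s else !s := by
  induction n with
  | zero => intro s; rfl
  | succ n ih =>
    intro s
    simp only [fl]
    rw [ih]
    rcases Nat.mod_two_eq_zero_or_one n with h | h
    · rw [if_pos h, if_neg (by omega)]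
    · rw [if_neg (by omega), if_pos (by omega), Bool.not_not]

theorem alt_get (n : ℕ) (s : Bool) {i : ℕ} (hi : i < (alt n s).length) :
    (alt n s)[i] = if i % 2 = 0 then s else !s := by
  simp only [← alt_eq_map, List.getElem_map, List.getElem_range]

/-- the general position of the points of the words -/
theorem words_gen (hM : 2 ≤ M) (hB : 4 * (t : ℝ) + 3 < B) (hN : N ≤ 2 ^ t) :
    ∀ i j k, i < j → j < k → k < N → dt (PX B t) (PY M B t) i j k ≠ 0 := by
  intro i j k hij hjk hk
  have h := det3W_ne (M := M) (t := t) (N := N) (w := fun i => i) hM hB (fun i j h _ => h)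
    (fun i hi => lt_of_lt_of_le hi hN) (i := i + 1) (j := j + 1) (k := k + 1) (by omega)
    (by omega) (by omega)
  unfold det3W at h
  rw [WX_word (by omega) (by omega), WX_word (by omega) (by omega), WX_word (by omega) (by omega),
    WY_word (by omega) (by omega), WY_word (by omega) (by omega),
    WY_word (by omega) (by omega)] at h
  simpa [dt] using h

/-- from alternating signs to alternating lists -/
theorem alt_of_signs {L r : ℕ} {h : ℕ → ℝ} {p : ℕ → Bool} (hp : ∀ i, (0 < h i → p i = true) ∧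
    (h i < 0 → p i = false)) (hs : ∀ i < L, 0 < (-1 : ℝ) ^ (i + r) * h i) :
    (List.range L).map p = alt L (decide (r % 2 = 0)) := by
  rw [← alt_eq_map]
  apply List.map_congr_left
  intro i hi
  have hi' := List.mem_range.1 hi
  have h1 := hs i hi'
  rcases Nat.even_or_odd (i + r) with h2 | h2
  · rw [h2.neg_one_pow, one_mul] at h1
    rw [(hp i).1 h1]
    have h3 := Nat.even_iff.1 h2
    rcases Nat.mod_two_eq_zero_or_one i with h4 | h4
    · rw [if_pos h4, decide_eq_true (by omega)]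
    · rw [if_neg (by omega), decide_eq_false (by omega)]; rfl
  · rw [h2.neg_one_pow, neg_one_mul] at h1
    rw [(hp i).2 (by linarith)]
    have h3 := Nat.odd_iff.1 h2
    rcases Nat.mod_two_eq_zero_or_one i with h4 | h4
    · rw [if_pos h4, decide_eq_false (by omega)]
    · rw [if_neg (by omega), decide_eq_true (by omega)]; rfl

theorem words_alt {h : ℕ} (hM : 2 ≤ M) (hh : 1 ≤ h) (ht0 : 1 ≤ t) (ht : t ≤ M ^ h)
    (hB : 4 * (t : ℝ) + 3 < B) (hN : N ≤ 2 ^ t) (r : ℕ) :
    ¬ SAlt (PX B t) (PY M B t) N (2 * (3 * h) + 1) r := by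
  rintro ⟨l, g, h1, h2, h3⟩
  obtain ⟨K, s, hK, hb⟩ := bd_all hM hh ht0 ht l.1 B hB
  have hmono : ∀ i j, i < j → j < 2 * (3 * h) + 1 → g i < g j := by
    intro i j hij
    induction j, hij using Nat.le_induction with
    | base => intro hj; exact h1 i (by omega)
    | succ j _ ih => intro hj; exact (ih (by omega)).trans (h1 j (by omega))
  set ws : List ℕ := (List.range (2 * (3 * h) + 1)).map g with hws
  have hws1 : ws.Pairwise (· < ·) := by
    rw [hws, List.pairwise_map]
    refine List.Pairwise.imp_of_mem ?_ List.pairwise_lt_range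
    intro i j _ hj hij
    exact hmono i j hij (List.mem_range.1 hj)
  have hws2 : ∀ u ∈ ws, u < 2 ^ t := by
    intro u hu
    rw [hws, List.mem_map] at hu
    obtain ⟨i, hi, rfl⟩ := hu
    exact lt_of_lt_of_le (h2 i (List.mem_range.1 hi)) hN
  have hsub := (sublist_range hws1 hws2).map
    (fun u => decide (l.2 ≤ F (fun e => ((lab M e : ℝ) - l.1) * B ^ e) t u))
  rw [hws, List.map_map] at hsub
  rw [alt_of_signs (h := fun i => Nst.ht (PX B t) (PY M B t) l (g i)) (by
    intro i
    have e : F (fun e => ((lab M e : ℝ) - l.1) * B ^ e) t (g i) =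
      PY M B t (g i) - l.1 * PX B t (g i) := F_lin _ B l.1 t (g i)
    constructor
    · intro h4
      simp only [Function.comp]
      rw [e]
      apply decide_eq_true
      unfold Nst.ht at h4
      linarith
    · intro h4
      simp only [Function.comp]
      rw [e]
      apply decide_eq_false
      unfold Nst.ht at h4
      push Not
      linarith) h3] at hsub
  have h5 := ch_sublist hsub
  rw [ch_alt] at h5
  have h6 := hb l.2 (!s) s
  have h7 : ch (sg (fun e => ((lab M e : ℝ) - l.1) * B ^ e) t l.2) ≤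
      ch ((!s) :: (sg (fun e => ((lab M e : ℝ) - l.1) * B ^ e) t l.2 ++ [s])) := by
    apply ch_sublist
    apply List.Sublist.cons
    exact List.sublist_append_left _ _
  have h8 : (if (!s) = s then 1 else 0) = 0 := by cases s <;> rfl
  rw [h8, if_pos rfl] at h6
  have h9 : ch ((List.range (2 ^ t)).map
    (fun u => decide (l.2 ≤ F (fun e => ((lab M e : ℝ) - l.1) * B ^ e) t u))) =
      ch (sg (fun e => ((lab M e : ℝ) - l.1) * B ^ e) t l.2) := rfl
  omega

/-- the slope through two points -/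
noncomputable def sp (X Y : ℕ → ℝ) (p q : ℕ) : ℝ := (Y q - Y p) / (X q - X p)

/-- a small shift -/
theorem exists_shift (N : ℕ) (G : ℕ → ℝ) : ∃ ε : ℝ, 0 < ε ∧ ∀ i < N, 0 < G i → ε < G i := by
  have h4 : ∀ᶠ ε : ℝ in nhdsWithin 0 (Set.Ioi 0), ∀ i ∈ range N, 0 < G i → ε < G i := by
    rw [Filter.eventually_all_finset]
    intro i _
    by_cases h5 : 0 < G i
    · have : ∀ᶠ ε : ℝ in nhds 0, ε < G i := eventually_lt_nhds h5
      exact (this.filter_mono nhdsWithin_le_nhds).mono (fun ε h _ => h)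
    · exact Filter.Eventually.of_forall (fun ε h => absurd h h5)
  obtain ⟨ε, h5, h6⟩ := (h4.and self_mem_nhdsWithin).exists
  exact ⟨ε, h6, fun i hi => h5 i (mem_range.2 hi)⟩

/-- the lines through two points, slightly shifted -/
theorem exists_lines (X Y : ℕ → ℝ) (N : ℕ) : ∃ LL : Finset (ℝ × ℝ), ∀ p < N, ∀ q < N,
    ∃ l ∈ LL, (∀ i < N, ht X Y l i ≠ 0) ∧
      ∀ i < N, (0 < ht X Y l i ↔ 0 < (Y i - Y p) - sp X Y p q * (X i - X p)) := by
  classical
  choose ε hε0 hε using fun p q => exists_shift N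
    (fun i => (Y i - Y p) - sp X Y p q * (X i - X p))
  refine ⟨(range N ×ˢ range N).image
    (fun pq => (sp X Y pq.1 pq.2, Y pq.1 - sp X Y pq.1 pq.2 * X pq.1 + ε pq.1 pq.2)), ?_⟩
  intro p hp q hq
  refine ⟨_, mem_image.2 ⟨(p, q), mem_product.2 ⟨mem_range.2 hp, mem_range.2 hq⟩, rfl⟩, ?_, ?_⟩
  · intro i hi
    have e : ht X Y (sp X Y p q, Y p - sp X Y p q * X p + ε p q) i =
        (Y i - Y p) - sp X Y p q * (X i - X p) - ε p q := by unfold ht; ring
    simp only
    rw [e]
    by_cases h : 0 < (Y i - Y p) - sp X Y p q * (X i - X p)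
    · have := hε p q i hi h
      intro h'
      linarith
    · have := hε0 p q
      intro h'
      linarith
  · intro i hi
    have e : ht X Y (sp X Y p q, Y p - sp X Y p q * X p + ε p q) i =
        (Y i - Y p) - sp X Y p q * (X i - X p) - ε p q := by unfold ht; ring
    simp only
    rw [e]
    constructor
    · intro h
      have := hε0 p q
      linarith
    · intro h
      have := hε p q i hi h
      linarith

/-- from lists to sequences -/
theorem seq_of_list {W : Finset ℕ} {f : ℕ → ℕ} {H : ℕ → ℝ} {m : ℕ} {zs : List ℕ}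
    (h1 : ∀ z ∈ zs, z ∈ W) (h2 : zs.Pairwise (fun a b => f a < f b)) {s : Bool}
    (h0 : ∀ z ∈ zs, H z ≠ 0)
    (h3 : List.Forall₂ (fun z s => decide (0 < H z) = s) zs (alt m s)) :
    ∃ (r : ℕ) (z : ℕ → ℕ), (∀ t, t < m → z t ∈ W) ∧ (∀ t, t + 1 < m → f (z t) < f (z (t + 1))) ∧
      ∀ t, t < m → 0 < (-1 : ℝ) ^ (t + r) * H (z t) := by
  have hlen : zs.length = m := by rw [h3.length_eq, alt_length]
  rw [List.forall₂_iff_get] at h3
  obtain ⟨_, h3⟩ := h3
  have hget : ∀ i (hi : i < zs.length), zs.getD i 0 = zs[i] := by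
    intro i hi
    rw [List.getD_eq_getElem _ _ hi]
  refine ⟨if s then 0 else 1, fun i => zs.getD i 0, ?_, ?_, ?_⟩
  · intro t ht'
    simp only
    rw [hget t (by omega)]
    exact h1 _ (List.getElem_mem _)
  · intro t ht'
    simp only
    rw [hget t (by omega), hget (t + 1) (by omega)]
    exact List.pairwise_iff_getElem.1 h2 t (t + 1) (by omega) (by omega) (Nat.lt_succ_self t)
  · intro t ht'
    simp only
    rw [hget t (by omega)]
    have h4 : t < zs.length := by omega
    have h5 := h3 t h4 (by rw [alt_length]; exact ht')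
    simp only [List.get_eq_getElem] at h5
    rw [alt_get] at h5
    have h6 := h0 _ (List.getElem_mem h4)
    have h7 : (decide (0 < H zs[t]) = true → 0 < H zs[t]) ∧
        (decide (0 < H zs[t]) = false → H zs[t] < 0) := by
      constructor
      · intro h; exact of_decide_eq_true h
      · intro h
        have := of_decide_eq_false h
        exact lt_of_le_of_ne (not_lt.1 this) h6
    rcases Nat.mod_two_eq_zero_or_one t with h8 | h8
    · rw [if_pos h8] at h5
      have e : (-1 : ℝ) ^ t = 1 := (Nat.even_iff.2 h8).neg_one_pow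
      cases s
      · rw [pow_add, e]
        have := h7.2 h5
        simp
        exact this
      · rw [pow_add, e]
        have := h7.1 h5
        simp
        exact this
    · rw [if_neg (by omega)] at h5
      have e : (-1 : ℝ) ^ t = -1 := (Nat.odd_iff.2 h8).neg_one_pow
      cases s
      · rw [pow_add, e]
        have := h7.1 h5
        simp
        exact this
      · rw [pow_add, e]
        have := h7.2 h5
        simp
        exact this

theorem words_rich {h : ℕ} (hM : 2 ≤ M) (hh : 1 ≤ h) (ht : t ≤ M ^ h)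
    (hB : 4 * (t : ℝ) + 3 < B) (hN : N ≤ 2 ^ t) :
    ∃ LL : Finset (ℝ × ℝ), ∀ W ⊆ range N, (t + 1) ^ (2 * (5 ^ h * M ^ (h - 1))) < W.card →
      ∀ f : ℕ → ℕ, Set.InjOn f W →
      ∃ l ∈ LL, (∀ i < N, Nst.ht (PX B t) (PY M B t) l i ≠ 0) ∧ ∃ (r : ℕ) (z : ℕ → ℕ),
        (∀ t, t < 2 * (3 * h) → z t ∈ W) ∧
        (∀ t, t + 1 < 2 * (3 * h) → f (z t) < f (z (t + 1))) ∧
        ∀ t', t' < 2 * (3 * h) →
          0 < (-1 : ℝ) ^ (t' + r) * Nst.ht (PX B t) (PY M B t) l (z t') := by
  classical
  obtain ⟨LL, hLL⟩ := exists_lines (PX B t) (PY M B t) N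
  refine ⟨LL, ?_⟩
  intro W hW hc f hf
  set s := 5 ^ h * M ^ (h - 1) with hs
  have hfinj : Function.Injective (fun w : ↥W => f w) := by
    intro a b hab
    exact Subtype.ext (hf a.2 b.2 hab)
  have hcard : (t + 1) ^ s * (t + 1) ^ s < Fintype.card ↥W := by
    rw [Fintype.card_coe]
    have : (t + 1) ^ (2 * s) = (t + 1) ^ s * (t + 1) ^ s := by rw [two_mul, pow_add]
    omega
  have hT : ∃ T : Finset ↥W, (t + 1) ^ s < T.card ∧
      (StrictMonoOn (fun w : ↥W => f w) T ∨ StrictAntiOn (fun w : ↥W => f w) T) := by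
    rcases Pool.Agent.H184R3.ES.erdos_szekeres hcard hfinj with ⟨T, h1, h2⟩ | ⟨T, h1, h2⟩
    · exact ⟨T, h1, Or.inl h2⟩
    · exact ⟨T, h1, Or.inr h2⟩
  obtain ⟨T, hT1, hT2⟩ := hT
  set T' : Finset ℕ := T.map ⟨Subtype.val, Subtype.val_injective⟩ with hT'
  have hT'W : ∀ w ∈ T', ∃ hw : w ∈ W, ⟨w, hw⟩ ∈ T := by
    intro w hw
    rw [hT', mem_map] at hw
    obtain ⟨x, hx, rfl⟩ := hw
    exact ⟨x.2, hx⟩
  have hTN : ∀ w ∈ T', w < N := fun w hw => mem_range.1 (hW (hT'W w hw).1)
  have hT'lt : ∀ w ∈ T', w < 2 ^ t := fun w hw => lt_of_lt_of_le (hTN w hw) hN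
  obtain ⟨I, hI1, hI2, hI3⟩ := exists_emb hT'lt (s := s) (by rw [hT', card_map]; exact hT1)
  have hrich : Rich (lab M) (h - 1 + 1) true I := by
    by_contra hcon
    have := (dens hM h).1 (h - 1) I (fun e he => lt_of_lt_of_le (mem_range.1 (hI1 he)) ht) hcon
    rw [show (h + (h - 1)) / 2 = h - 1 by omega] at this
    omega
  rw [show h - 1 + 1 = h by omega] at hrich
  obtain ⟨u, hu, p, hp, q, hq, htop, zs, hzs1, hzs2, s0, hzs3⟩ := exists_alternating hrich hI3
  have hpt := hT'lt p hp
  have hqt := hT'lt q hq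
  obtain ⟨hD, hsl⟩ := slope hM hB htop (htop.lt_of_lt hqt)
  obtain ⟨l, hl, hl1, hl2⟩ := hLL p (hTN p hp) q (hTN q hq)
  obtain ⟨θ, hθ⟩ : ∃ θ, θ = sp (PX B t) (PY M B t) p q := ⟨_, rfl⟩
  rw [← hθ] at hl2
  have hθN : PY M B t q - PY M B t p = θ * (PX B t q - PX B t p) := by
    rw [hθ, sp]; field_simp
  have hθ2 : |θ - (lab M u : ℝ)| < 1 / 2 := by
    have e : (PY M B t q - PY M B t p) - (lab M u : ℝ) * (PX B t q - PX B t p) =
        (θ - (lab M u : ℝ)) * (PX B t q - PX B t p) := by rw [hθN]; ring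
    rw [e, abs_mul, abs_of_pos hD] at hsl
    by_contra hc
    push Not at hc
    have := mul_le_mul_of_nonneg_right hc hD.le
    linarith
  have hside : ∀ z s, z ∈ zs → (Rel (lab M) u p z s ∨ Rel (lab M) u q z s) →
      decide (0 < Nst.ht (PX B t) (PY M B t) l z) = s := by
    intro z s hz h
    have hzT := hzs1 z hz
    have hzt := hT'lt z hzT
    rw [decide_eq_decide.2 (hl2 z (hTN z hzT))]
    rcases h with h | h
    · exact (side hM hB hpt hzt h hθ2).2
    · have h4 := (side hM hB hqt hzt h hθ2).2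
      have e : (PY M B t z - PY M B t p) - θ * (PX B t z - PX B t p) =
          (PY M B t z - PY M B t q) - θ * (PX B t z - PX B t q) := by
        linarith
      rw [e]; exact h4
  have hzW : ∀ z ∈ zs, z ∈ W := fun z hz => (hT'W z (hzs1 z hz)).1
  have hsigns : List.Forall₂ (fun z s => decide (0 < Nst.ht (PX B t) (PY M B t) l z) = s)
      zs (alt (2 * (3 * h)) s0) := by
    rw [show 2 * (3 * h) = 6 * h by ring]
    rw [List.forall₂_iff_get] at hzs3 ⊢
    refine ⟨hzs3.1, ?_⟩
    intro i h1 h2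
    exact hside _ _ (List.get_mem _ _) (hzs3.2 i h1 h2)
  have hne : ∀ z ∈ zs, Nst.ht (PX B t) (PY M B t) l z ≠ 0 := fun z hz =>
    hl1 z (hTN z (hzs1 z hz))
  refine ⟨l, hl, hl1, ?_⟩
  rcases hT2 with hT2 | hT2
  · exact seq_of_list hzW (by
      refine List.Pairwise.imp_of_mem ?_ hzs2
      intro z z' hz hz' hzz
      obtain ⟨h4, h5⟩ := hT'W z (hzs1 z hz)
      obtain ⟨h6, h7⟩ := hT'W z' (hzs1 z' hz')
      exact hT2 h5 h7 (Subtype.mk_lt_mk.2 hzz)) hne hsigns
  · have h8 := seq_of_list (W := W) (f := f) (H := Nst.ht (PX B t) (PY M B t) l)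
      (m := 2 * (3 * h)) (zs := zs.reverse) (s := fl (2 * (3 * h)) (!s0))
      (fun z hz => hzW z (List.mem_reverse.1 hz)) (by
        rw [List.pairwise_reverse]
        refine List.Pairwise.imp_of_mem ?_ hzs2
        intro z z' hz hz' hzz
        obtain ⟨h4, h5⟩ := hT'W z (hzs1 z hz)
        obtain ⟨h6, h7⟩ := hT'W z' (hzs1 z' hz')
        exact hT2 h5 h7 (Subtype.mk_lt_mk.2 hzz)) (fun z hz => hne z (List.mem_reverse.1 hz)) (by
        rw [← alt_reverse]
        exact List.rel_reverse hsigns)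
    exact h8

/-- **the words are a base** -/
theorem base_words {h : ℕ} (hM : 2 ≤ M) (hh : 1 ≤ h) (ht0 : 1 ≤ t) (ht : t ≤ M ^ h)
    (hB : 4 * (t : ℝ) + 3 < B) (hN0 : 0 < N) (hN : N ≤ 2 ^ t) :
    Base N (PX B t) (PY M B t) (3 * h) ((t + 1) ^ (2 * (5 ^ h * M ^ (h - 1)))) where
  pos := hN0
  mono := fun i j hij hj => by
    have := (slope_le (M := M) hM hB hij (lt_of_lt_of_le hj hN)).1
    linarith
  gen := words_gen hM hB hN
  alt := words_alt hM hh ht0 ht hB hN
  rich := words_rich hM hh ht hB hN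

end

end Pool.Agent.H595K.Nst
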