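import Mathlib
import Pool.Agent.H595K.NRec
import Pool.Agent.H595K.NWord
import Pool.Agent.H595K.PolyList
import Pool.Agent.H595K.Main

/-!
# Nested caps and cups: the point sets
-/

namespace Pool.Agent.H595K.Nst

open Finset Vis124

section
variable {N K s : ℕ} {X Y : ℕ → ℝ}

theorem genPos_of {X Y : ℕ → ℝ} {N : ℕ} {idx : ℕ → ℕ} {m : ℕ}
    (hidx : ∀ i j, i < j → j < m → idx i < idx j) (hidxN : ∀ i < m, idx i < N)
    (hgen : ∀ i j k, i < j → j < k → k < N → dt X Y i j k ≠ 0) :
    GenPos ((range m).image (fun i => (X (idx i), Y (idx i)))) := by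
  intro p hp q hq r hr hpq hqr hpr hcol
  obtain ⟨i, hi, rfl⟩ := mem_image.1 hp
  obtain ⟨j, hj, rfl⟩ := mem_image.1 hq
  obtain ⟨k, hk, rfl⟩ := mem_image.1 hr
  have hi' := mem_range.1 hi
  have hj' := mem_range.1 hj
  have hk' := mem_range.1 hk
  have hij : i ≠ j := fun h => hpq (by rw [h])
  have hjk : j ≠ k := fun h => hqr (by rw [h])
  have hik : i ≠ k := fun h => hpr (by rw [h])
  have hd := collinear_det hcol
  simp only at hd
  have key : ∀ x y z : ℕ, x < y → y < z → z < m → dt X Y (idx x) (idx y) (idx z) ≠ 0 :=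
    fun x y z h1 h2 h3 => hgen _ _ _ (hidx x y h1 (by omega)) (hidx y z h2 h3) (hidxN z h3)
  unfold dt at key
  rcases lt_or_gt_of_ne hij with h1 | h1 <;> rcases lt_or_gt_of_ne hjk with h2 | h2 <;>
    rcases lt_or_gt_of_ne hik with h3 | h3
  · exact key i j k h1 h2 hk' hd
  · omega
  · exact key i k j h3 h2 hj' (by linear_combination -hd)
  · exact key k i j h3 h1 hj' (by linear_combination hd)
  · exact key j i k h1 h3 hk' (by linear_combination -hd)
  · exact key j k i h2 h3 hi' (by linear_combination hd)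
  · omega
  · exact key k j i h2 h1 hi' (by linear_combination -hd)

/-- polygons on rich sets have many components on some line -/
theorem card_le_of_rich (hX : ∀ i j, i < j → j < N → X i < X j)
    {LL : Finset (ℝ × ℝ)} {m : ℕ} (hm : 1 ≤ m)
    (hrich : ∀ W ⊆ range N, s < W.card → ∀ f : ℕ → ℕ, Set.InjOn f W →
      ∃ l ∈ LL, (∀ i < N, ht X Y l i ≠ 0) ∧ ∃ (r : ℕ) (z : ℕ → ℕ), (∀ t, t < 2 * m → z t ∈ W) ∧
      (∀ t, t + 1 < 2 * m → f (z t) < f (z (t + 1))) ∧
      ∀ t, t < 2 * m → 0 < (-1 : ℝ) ^ (t + r) * ht X Y l (z t)) {j : ℕ} (hj : j < m)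
    {Q : Finset (ℝ × ℝ)} (hQ : ∀ q ∈ Q, ∃ i < N, q = (X i, Y i)) (hQj : KConvexSet j Q) :
    Q.card ≤ s := by
  classical
  by_contra hcon
  push Not at hcon
  obtain ⟨_, v, S, hv, hr, hk⟩ := hQj
  have h3 := hv.three_le
  set W : Finset ℕ := (range N).filter (fun i => (X i, Y i) ∈ Q) with hW
  have hXi : ∀ i < N, ∀ i' < N, X i = X i' → i = i' := by
    intro i hi i' hi' h
    rcases lt_trichotomy i i' with h1 | h1 | h1
    · exact absurd h (hX i i' h1 hi').ne
    · exact h1
    · exact absurd h (hX i' i h1 hi).ne'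
  have hWc : Q.card ≤ W.card := by
    have : Q ⊆ W.image (fun i => (X i, Y i)) := by
      intro q hq
      obtain ⟨i, hi, rfl⟩ := hQ q hq
      exact mem_image.2 ⟨i, mem_filter.2 ⟨mem_range.2 hi, hq⟩, rfl⟩
    exact (card_le_card this).trans card_image_le
  have hex : ∀ i : ℕ, ∃ a : Fin Q.card, i ∈ W → v a = (X i, Y i) := by
    intro i
    by_cases hi : i ∈ W
    · have h4 : (X i, Y i) ∈ Set.range v := by
        rw [hr]
        exact (mem_filter.1 hi).2
      obtain ⟨a, ha⟩ := h4
      exact ⟨a, fun _ => ha⟩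
    · exact ⟨⟨0, by omega⟩, fun h => absurd h hi⟩
  choose f hf using hex
  have hfinj : Set.InjOn (fun i => ((f i : Fin Q.card) : ℕ)) W := by
    intro i hi i' hi' h
    have h4 : f i = f i' := Fin.ext h
    have h5 := hf i hi
    rw [h4, hf i' hi'] at h5
    exact hXi i (mem_range.1 (mem_filter.1 hi).1) i' (mem_range.1 (mem_filter.1 hi').1)
      (congrArg Prod.fst h5).symm
  obtain ⟨l, _, hl, r, z, hz1, hz2, hz3⟩ := hrich W (filter_subset _ _) (by omega) _ hfinj
  have hval : ∀ i ∈ W, (-l.1) * (v (f i)).1 + 1 * (v (f i)).2 - l.2 = ht X Y l i := by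
    intro i hi
    rw [hf i hi]
    unfold ht
    ring
  have hne : ∀ a : Fin Q.card, (-l.1) * (v a).1 + 1 * (v a).2 - l.2 ≠ 0 := by
    intro a
    have h4 : v a ∈ Q := by
      rw [← Finset.mem_coe, ← hr]; exact Set.mem_range_self a
    obtain ⟨i, hi, h5⟩ := hQ _ h4
    rw [h5]
    have := hl i hi
    intro h6
    apply this
    rw [← h6]
    unfold ht
    ring
  have hmono : ∀ t t', t < t' → t' < 2 * m → f (z t) < f (z t') := by
    intro t t' htt
    induction t', htt using Nat.le_induction with
    | base => intro h; exact hz2 t h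
    | succ t' _ ih => intro h; exact (ih (by omega)).trans (hz2 t' h)
  have h4 := comps_ge hv (-l.1) 1 l.2 (Or.inr one_ne_zero) hne m (fun t => f (z t)) hmono (by
    intro t ht'
    rw [hval _ (hz1 t (by omega)), hval _ (hz1 (t + 1) ht')]
    have a1 := hz3 t (by omega)
    have a2 := hz3 (t + 1) ht'
    rw [show t + 1 + r = (t + r) + 1 by ring, pow_succ] at a2
    constructor
    · intro h5 h6
      rcases Nat.even_or_odd (t + r) with h7 | h7
      · rw [h7.neg_one_pow] at a2
        linarith
      · rw [h7.neg_one_pow] at a1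
        linarith
    · intro h5
      rcases Nat.even_or_odd (t + r) with h6 | h6
      · rw [h6.neg_one_pow] at a1
        linarith
      · rw [h6.neg_one_pow] at a2
        exfalso
        apply h5
        linarith)
  have h5 := h4.trans (hk _ ⟨-l.1, 1, l.2, Or.inr one_ne_zero, rfl⟩)
  have h6 : m ≤ j := by exact_mod_cast h5
  omega

theorem Nest.exists_set (h : Nest N X Y K s) (hK : 1 ≤ K) {n : ℕ} (h3 : 3 ≤ n) (hn : n ≤ N) :
    ∃ P : Finset (ℝ × ℝ), P.card = n ∧ KConvexSet K P ∧
      ∀ j < K, ∀ Q ⊆ P, KConvexSet j Q → Q.card ≤ s := by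
  classical
  set idx : ℕ → ℕ := fun i => if i + 1 < n then i else N - 1 with hidx'
  have hidx : ∀ i j, i < j → j < n → idx i < idx j := by
    intro i j hij hj
    simp only [hidx']
    rw [if_pos (by omega : i + 1 < n)]
    split_ifs <;> omega
  have hidxN : ∀ i < n, idx i < N := by
    intro i hi
    simp only [hidx']
    split_ifs <;> omega
  have hi0 : idx 0 = 0 := by simp only [hidx']; rw [if_pos (by omega)]
  have hil : idx (n - 1) = N - 1 := by simp only [hidx']; rw [if_neg (by omega)]
  obtain ⟨S, hS1, hS2⟩ := poly_of_seq (X := fun i => X (idx i)) (Y := fun i => Y (idx i))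
    (K := n - 1) (k := K) (by omega)
    (fun i hi => h.mono _ _ (hidx i (i + 1) (by omega) (by omega)) (hidxN _ (by omega))) (by
      intro i h0 hi
      simp only [hi0, hil]
      have e : idx i = i := by simp only [hidx']; rw [if_pos (by omega)]
      rw [e]
      have := h.top i h0 (by omega)
      unfold dt at this
      linarith) hK (by
      rintro θ β ⟨g, h1, h2, h4⟩
      obtain ⟨ε, he0, he⟩ := exists_shift (2 * K + 1)
        (fun i => -(Y (idx (g i)) - θ * X (idx (g i)) - β))
      apply h.alt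
      refine ⟨(θ, β - ε), fun i => idx (g i), ?_, ?_, ?_⟩
      · intro i hi
        exact hidx _ _ (h1 i (by omega)) (by have := h2 (i + 1) (by omega); omega)
      · intro i hi
        exact hidxN _ (by have := h2 i (by omega); omega)
      · intro i hi
        have h5 := h4 i (by omega)
        have e : ht X Y (θ, β - ε) (idx (g i)) =
            Y (idx (g i)) - θ * X (idx (g i)) - β + ε := by unfold ht; ring
        simp only
        rw [e, add_zero]
        rcases Nat.mod_two_eq_zero_or_one i with h6 | h6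
        · rw [(Nat.even_iff.2 h6).neg_one_pow, one_mul]
          have := h5.2 h6
          linarith
        · rw [(Nat.odd_iff.2 h6).neg_one_pow]
          have h7 : ¬ (0 ≤ Y (idx (g i)) - θ * X (idx (g i)) - β) := by
            intro h8; have := h5.1 h8; omega
          push Not at h7
          have := he i hi (by linarith)
          linarith)
  refine ⟨(range n).image (fun i => (X (idx i), Y (idx i))), ?_, ?_, ?_⟩
  · rw [card_image_of_injOn, card_range]
    intro i hi j hj hij
    have hi' : i < n := by simpa using hi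
    have hj' : j < n := by simpa using hj
    have h1 : X (idx i) = X (idx j) := congrArg Prod.fst hij
    rcases lt_trichotomy i j with h2 | h2 | h2
    · exact absurd h1 (h.mono _ _ (hidx i j h2 hj') (hidxN j hj')).ne
    · exact h2
    · exact absurd h1 (h.mono _ _ (hidx j i h2 hi') (hidxN i hi')).ne'
  · apply kConvex_of (genPos_of hidx hidxN h.gen) hS1 _ hS2
    ext p
    simp only [Set.mem_range, coe_image, coe_range, Set.mem_image, Set.mem_Iio, pv]
    constructor
    · rintro ⟨i, rfl⟩
      exact ⟨i, by omega, rfl⟩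
    · rintro ⟨i, hi, rfl⟩
      exact ⟨⟨i, by omega⟩, rfl⟩
  · intro j hj Q hQ hQj
    obtain ⟨LL, hLL⟩ := h.rich
    refine card_le_of_rich (Y := Y) (LL := LL) h.mono hK ?_ hj (fun q hq => ?_) hQj
    · intro W hW hc f hf
      obtain ⟨l, hl, h1, z, h2, h4, h5⟩ := hLL W hW hc f hf
      exact ⟨l, hl, h1, 1, z, fun t ht' => h2 t (by omega), fun t ht' => h4 t (by omega),
        fun t ht' => h5 t (by omega)⟩
    · obtain ⟨i, hi, rfl⟩ := mem_image.1 (hQ hq)
      exact ⟨idx i, hidxN i (mem_range.1 hi), rfl⟩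

end

end Pool.Agent.H595K.Nst
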