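import Mathlib
import Pool.Agent.H595K.NSet

/-!
# Nested caps and cups: the bound
-/

namespace Pool.Agent.H595K.Nst

open Finset Vis124

theorem f_le_of_set {K k j n s : ℕ} (hKk : K ≤ k) {P : Finset (ℝ × ℝ)} (hP : P.card = n)
    (hPK : KConvexSet K P) (hPj : ∀ Q ⊆ P, KConvexSet j Q → Q.card ≤ s) : f k j n ≤ s := by
  unfold f
  set A := {m | ∀ P : Finset (ℝ × ℝ), P.card = n → KConvexSet k P →
      ∃ Q ⊆ P, KConvexSet j Q ∧ Q.card = m} with hA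
  have h1 : ∀ m ∈ A, m ≤ s := by
    intro m hm
    obtain ⟨Q, hQ1, hQ2, hQ3⟩ := hm P hP (hPK.mono hKk)
    rw [← hQ3]
    exact hPj Q hQ1 hQ2
  rcases Set.eq_empty_or_nonempty A with hA0 | hA0
  · rw [hA0]; simp
  · exact h1 _ (Nat.sSup_mem hA0 ⟨s, h1⟩)

/-- the choice of `b` -/
theorem exists_b {n p : ℕ} (hn : 16 ≤ n) (hp : 1 ≤ p) (hp4 : p + 1 ≤ 4) :
    ∃ b : ℕ, 2 ≤ b ∧ b ≤ n ∧ n ≤ b ^ (p + 1) ∧
      ((b ^ p : ℕ) : ℝ) ≤ 2 ^ p * (n : ℝ) ^ ((p : ℝ) / (p + 1)) := by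
  have hnr : (16 : ℝ) ≤ n := by exact_mod_cast hn
  have hp0 : (0 : ℝ) < (p : ℝ) + 1 := by positivity
  obtain ⟨x, hx⟩ : ∃ x : ℝ, x = (n : ℝ) ^ ((1 : ℝ) / (p + 1)) := ⟨_, rfl⟩
  have hx1 : x ^ (p + 1) = n := by
    rw [hx, ← Real.rpow_natCast, ← Real.rpow_mul (by linarith)]
    push_cast
    rw [one_div, inv_mul_cancel₀ hp0.ne', Real.rpow_one]
  have hx0 : 0 ≤ x := by rw [hx]; positivity
  have hx2 : 2 ≤ x := by
    by_contra hc
    push Not at hc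
    have h1 : x ^ (p + 1) < 2 ^ (p + 1) := pow_lt_pow_left₀ hc hx0 (by omega)
    have h2 : (2 : ℝ) ^ (p + 1) ≤ 2 ^ 4 := pow_le_pow_right₀ (by norm_num) hp4
    rw [hx1] at h1
    norm_num at h2
    linarith
  have hxn : x ≤ n := by
    rw [← hx1]
    exact le_self_pow₀ (by linarith) (by omega)
  refine ⟨⌈x⌉₊, ?_, ?_, ?_, ?_⟩
  · have : (2 : ℝ) ≤ (⌈x⌉₊ : ℝ) := hx2.trans (Nat.le_ceil x)
    exact_mod_cast this
  · exact Nat.ceil_le.2 hxn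
  · have : (n : ℝ) ≤ (⌈x⌉₊ : ℝ) ^ (p + 1) := by
      rw [← hx1]
      exact pow_le_pow_left₀ hx0 (Nat.le_ceil x) _
    exact_mod_cast this
  · have h1 : (⌈x⌉₊ : ℝ) ≤ 2 * x := by
      have := Nat.ceil_lt_add_one hx0
      linarith
    push_cast
    calc (⌈x⌉₊ : ℝ) ^ p ≤ (2 * x) ^ p := pow_le_pow_left₀ (by positivity) h1 p
      _ = 2 ^ p * x ^ p := mul_pow _ _ _
      _ = 2 ^ p * (n : ℝ) ^ ((p : ℝ) / (p + 1)) := by
          congr 1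
          rw [hx, ← Real.rpow_natCast, ← Real.rpow_mul (by linarith)]
          congr 1
          field_simp

/-- the bound for one and two further levels -/
theorem nest_bound {h n : ℕ} (hh : 1 ≤ h) (hn : 16 ≤ n) :
    (∀ k, 3 * h + 1 ≤ k → (f k (3 * h) n : ℝ) ≤ 24 * (n : ℝ) ^ ((2 : ℝ) / 3) *
      bd (12 * 5 ^ h * 3 ^ (h - 1) + 2) (((h - 1 : ℕ) : ℝ) / h) n) ∧
    (∀ k, 3 * h + 2 ≤ k → (f k (3 * h + 1) n : ℝ) ≤ 24 * (n : ℝ) ^ ((3 : ℝ) / 4) *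
      bd (12 * 5 ^ h * 3 ^ (h - 1) + 2) (((h - 1 : ℕ) : ℝ) / h) n) := by
  obtain ⟨M, t, hM, ht0, ht, hn2, hb⟩ := numeric (H := h) (e := h - 1) hh (by omega) hn
  set s := (t + 1) ^ (2 * (5 ^ h * M ^ (h - 1))) with hs
  set E := bd (12 * 5 ^ h * 3 ^ (h - 1) + 2) (((h - 1 : ℕ) : ℝ) / h) n with hE
  have hE0 : 0 < E := Real.exp_pos _
  have hsE : (s : ℝ) + 2 ≤ E := by
    have : ((s + 2 : ℕ) : ℝ) ≤ E := hb
    push_cast at this
    linarith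
  have hs0 : (0 : ℝ) ≤ s := Nat.cast_nonneg s
  have hB : 4 * (t : ℝ) + 3 < 4 * (t : ℝ) + 4 := by linarith
  constructor
  · intro k hk
    obtain ⟨b, hb2, hbn, hnb, hbp⟩ := exists_b (p := 2) hn (by norm_num) (by norm_num)
    have h0 := base_words (N := b) hM hh ht0 ht hB (by omega) (hbn.trans hn2)
    rw [← hs] at h0
    obtain ⟨X1, Y1, h1⟩ := h0.step (by omega) hb2
    obtain ⟨X2, Y2, h2⟩ := h1.step hb2
    obtain ⟨P, hP1, hP2, hP3⟩ := h2.exists_set (n := n) (by omega) (by omega) (by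
      calc n ≤ b ^ (2 + 1) := hnb
        _ = b * (b * b) := by ring)
    have h3 := f_le_of_set hk hP1 hP2 (fun Q hQ hQj => hP3 (3 * h) (by omega) Q hQ hQj)
    have h4 : ((b * (b * s + 2 * b) + 2 * (b * b) : ℕ) : ℝ) = ((b ^ 2 : ℕ) : ℝ) * (s + 4) := by
      push_cast; ring
    have h5 : (f k (3 * h) n : ℝ) ≤ ((b ^ 2 : ℕ) : ℝ) * (s + 4) := by
      rw [← h4]; exact_mod_cast h3
    refine h5.trans ?_
    have e : (((2 : ℕ) : ℝ) / (((2 : ℕ) : ℝ) + 1)) = (2 : ℝ) / 3 := by norm_num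
    rw [e] at hbp
    have hn0 : 0 ≤ (n : ℝ) ^ ((2 : ℝ) / 3) := by positivity
    calc ((b ^ 2 : ℕ) : ℝ) * (s + 4) ≤ (2 ^ 2 * (n : ℝ) ^ ((2 : ℝ) / 3)) * (2 * E) := by
          apply mul_le_mul hbp (by linarith) (by positivity) (by positivity)
      _ ≤ 24 * (n : ℝ) ^ ((2 : ℝ) / 3) * E := by
          have := mul_nonneg hn0 hE0.le
          nlinarith
  · intro k hk
    obtain ⟨b, hb2, hbn, hnb, hbp⟩ := exists_b (p := 3) hn (by norm_num) (by norm_num)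
    have h0 := base_words (N := b) hM hh ht0 ht hB (by omega) (hbn.trans hn2)
    rw [← hs] at h0
    obtain ⟨X1, Y1, h1⟩ := h0.step (by omega) hb2
    obtain ⟨X2, Y2, h2⟩ := h1.step hb2
    obtain ⟨X3, Y3, h3⟩ := h2.step hb2
    obtain ⟨P, hP1, hP2, hP3⟩ := h3.exists_set (n := n) (by omega) (by omega) (by
      calc n ≤ b ^ (3 + 1) := hnb
        _ = b * (b * (b * b)) := by ring)
    have h3 := f_le_of_set (k := k) (by omega) hP1 hP2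
      (fun Q hQ hQj => hP3 (3 * h + 1) (by omega) Q hQ hQj)
    have h4 : ((b * (b * (b * s + 2 * b) + 2 * (b * b)) + 2 * (b * (b * b)) : ℕ) : ℝ) =
        ((b ^ 3 : ℕ) : ℝ) * (s + 6) := by
      push_cast; ring
    have h5 : (f k (3 * h + 1) n : ℝ) ≤ ((b ^ 3 : ℕ) : ℝ) * (s + 6) := by
      rw [← h4]; exact_mod_cast h3
    refine h5.trans ?_
    have e : (((3 : ℕ) : ℝ) / (((3 : ℕ) : ℝ) + 1)) = (3 : ℝ) / 4 := by norm_num
    rw [e] at hbp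
    have hn0 : 0 ≤ (n : ℝ) ^ ((3 : ℝ) / 4) := by positivity
    calc ((b ^ 3 : ℕ) : ℝ) * (s + 6) ≤ (2 ^ 3 * (n : ℝ) ^ ((3 : ℝ) / 4)) * (3 * E) := by
          apply mul_le_mul hbp (by linarith) (by positivity) (by positivity)
      _ = 24 * (n : ℝ) ^ ((3 : ℝ) / 4) * E := by ring

end Pool.Agent.H595K.Nst
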