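import Mathlib
import Pool.Agent.H595K.Geo
import Pool.Agent.H595K.NStep

/-!
# The points of binary words with general labels
-/

namespace Pool.Agent.H595K.Grp

open Finset Nst

/-- distinct bounded labels -/
structure LabOK (x : ℕ → ℤ) (t R : ℕ) : Prop where
  inj : ∀ e f, e < t → f < t → x e = x f → e = f
  bound : ∀ e < t, |x e| ≤ R

/-- second coordinate of the point of the word `w` -/
noncomputable def QY (x : ℕ → ℤ) (B : ℝ) (t w : ℕ) : ℝ := F (fun e => (x e : ℝ) * B ^ e) t w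

section
variable {x : ℕ → ℤ} {t R : ℕ} {B : ℝ}

theorem slopeQ (hx : LabOK x t R) (hB : 4 * (R : ℝ) + 3 < B) {l w w' : ℕ} (h : Top l w w')
    (hl : l < t) : 0 < PX B t w' - PX B t w ∧
    |(QY x B t w' - QY x B t w) - (x l : ℝ) * (PX B t w' - PX B t w)| <
      (PX B t w' - PX B t w) / 2 := by
  have hR0 : (0 : ℝ) ≤ R := Nat.cast_nonneg R
  have hB0 : 0 < B := by linarith
  set G := ∑ e ∈ range l, B ^ e with hG
  have hG0 : 0 ≤ G := Finset.sum_nonneg (fun e _ => (pow_pos hB0 e).le)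
  have hGB : (B - 1) * G = B ^ l - 1 := by
    rw [hG, mul_comm]; exact geom_sum_mul B l
  have h1 := F_top (fun e => B ^ e) h hl
  have h1' : ∑ e ∈ range l, |B ^ e| = G := by
    rw [hG]
    apply Finset.sum_congr rfl
    intro e _
    rw [abs_of_pos (pow_pos hB0 e)]
  rw [h1'] at h1
  set D := PX B t w' - PX B t w with hD
  have hD1 : |D - B ^ l| ≤ G := h1
  have hD2 : B ^ l - G ≤ D := by
    have := (abs_le.1 hD1).1; linarith
  have hD3 : (4 * R) * G < D := by
    have h3 : (4 * (R : ℝ)) * G ≤ (B - 2) * G := mul_le_mul_of_nonneg_right (by linarith) hG0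
    have h4 : (B - 2) * G = B ^ l - 1 - G := by linarith
    linarith
  have h2 := F_top (fun e => ((x e : ℝ) - (x l : ℝ)) * B ^ e) h hl
  rw [F_lin (fun e => (x e : ℝ)), F_lin (fun e => (x e : ℝ))] at h2
  have h3 : ∑ e ∈ range l, |((x e : ℝ) - (x l : ℝ)) * B ^ e| ≤ (2 * R) * G := by
    rw [hG, Finset.mul_sum]
    apply Finset.sum_le_sum
    intro e he
    have he' := Finset.mem_range.1 he
    rw [abs_mul, abs_of_pos (pow_pos hB0 e)]
    apply mul_le_mul_of_nonneg_right _ (pow_pos hB0 e).le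
    have h4 : |(x e : ℝ)| ≤ R := by exact_mod_cast hx.bound e (by omega)
    have h5 : |(x l : ℝ)| ≤ R := by exact_mod_cast hx.bound l hl
    calc |(x e : ℝ) - (x l : ℝ)| ≤ |(x e : ℝ)| + |(x l : ℝ)| := abs_sub _ _
      _ ≤ 2 * R := by linarith
  have h4 := h2.trans h3
  have e1 : F (fun e => (x e : ℝ) * B ^ e) t w' - (x l : ℝ) * F (fun e => B ^ e) t w' -
      (F (fun e => (x e : ℝ) * B ^ e) t w - (x l : ℝ) * F (fun e => B ^ e) t w) -
      ((x l : ℝ) - (x l : ℝ)) * B ^ l =
      (QY x B t w' - QY x B t w) - (x l : ℝ) * D := by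
    rw [hD]; unfold PX QY; ring
  rw [e1] at h4
  refine ⟨?_, ?_⟩
  · have : 0 ≤ (4 * R) * G := by positivity
    linarith
  · refine lt_of_le_of_lt h4 ?_
    linarith

theorem monoQ (hx : LabOK x t R) (hB : 4 * (R : ℝ) + 3 < B) {w w' : ℕ} (h : w < w')
    (hw : w' < 2 ^ t) : PX B t w < PX B t w' := by
  obtain ⟨l, hl, htop⟩ := exists_top h hw
  have := (slopeQ hx hB htop hl).1
  linarith

theorem sideQ (hx : LabOK x t R) (hB : 4 * (R : ℝ) + 3 < B) {u w z : ℕ} {s : Bool} (hu : u < t)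
    (hw : w < 2 ^ t) (hz : z < 2 ^ t) (h : Rel x u w z s) {θ : ℝ}
    (hθ : |θ - (x u : ℝ)| < 1 / 2) :
    (QY x B t z - QY x B t w) - θ * (PX B t z - PX B t w) ≠ 0 ∧
      decide (0 < (QY x B t z - QY x B t w) - θ * (PX B t z - PX B t w)) = s := by
  obtain ⟨l, hlu, h⟩ := h
  have hlt : l < t := by
    rcases h with ⟨h1, _⟩ | ⟨h1, _⟩
    · exact h1.lt_of_lt hw
    · exact h1.lt_of_lt hz
  have hne : x u ≠ x l := fun h' => hlu (hx.inj _ _ hu hlt h').symm
  obtain ⟨hθ1, hθ2⟩ := abs_lt.1 hθ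
  have key : ∀ (D N : ℝ), 0 < D → |N - (x l : ℝ) * D| < D / 2 →
      (x u < x l → 0 < N - θ * D) ∧ (¬ x u < x l → N - θ * D < 0) := by
    intro D N hD hN
    obtain ⟨h1, h2⟩ := abs_lt.1 hN
    constructor
    · intro h3
      have h4 : (x u : ℝ) + 1 ≤ x l := by exact_mod_cast h3
      have h5 : θ * D ≤ ((x u : ℝ) + 1 / 2) * D := mul_le_mul_of_nonneg_right (by linarith) hD.le
      have h6 : ((x u : ℝ) + 1) * D ≤ (x l : ℝ) * D := mul_le_mul_of_nonneg_right h4 hD.le
      have h7 : ((x u : ℝ) + 1) * D = ((x u : ℝ) + 1 / 2) * D + D / 2 := by ring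
      linarith
    · intro h3
      have h4' : x l < x u := lt_of_le_of_ne (not_lt.1 h3) hne.symm
      have h4 : (x l : ℝ) + 1 ≤ x u := by exact_mod_cast h4'
      have h5 : ((x u : ℝ) - 1 / 2) * D ≤ θ * D := mul_le_mul_of_nonneg_right (by linarith) hD.le
      have h6 : (x l : ℝ) * D ≤ ((x u : ℝ) - 1) * D :=
        mul_le_mul_of_nonneg_right (by linarith) hD.le
      have h7 : ((x u : ℝ) - 1) * D = ((x u : ℝ) - 1 / 2) * D - D / 2 := by ring
      linarith
  rcases h with ⟨h1, h2⟩ | ⟨h1, h2⟩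
  · obtain ⟨h3, h4⟩ := slopeQ hx hB h1 (h1.lt_of_lt hw)
    obtain ⟨k1, k2⟩ := key _ _ h3 h4
    have e : (QY x B t z - QY x B t w) - θ * (PX B t z - PX B t w) =
        -((QY x B t w - QY x B t z) - θ * (PX B t w - PX B t z)) := by ring
    rw [e]
    by_cases h5 : x u < x l
    · have h6 := k1 h5
      rw [decide_eq_true h5] at h2
      have hs : s = false := by cases s <;> simp_all
      refine ⟨by linarith [neg_lt_zero.2 h6] |> fun (h : _ < (0:ℝ)) => h.ne, ?_⟩
      rw [hs]
      simp only [decide_eq_false_iff_not, not_lt]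
      linarith
    · have h6 := k2 h5
      rw [decide_eq_false h5] at h2
      have hs : s = true := by cases s <;> simp_all
      have h7 : 0 < -((QY x B t w - QY x B t z) - θ * (PX B t w - PX B t z)) := by linarith
      refine ⟨h7.ne', ?_⟩
      rw [hs]
      simp only [decide_eq_true_eq]
      exact h7
  · obtain ⟨h3, h4⟩ := slopeQ hx hB h1 (h1.lt_of_lt hz)
    obtain ⟨k1, k2⟩ := key _ _ h3 h4
    by_cases h5 : x u < x l
    · have h6 := k1 h5
      rw [decide_eq_true h5] at h2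
      refine ⟨h6.ne', ?_⟩
      rw [← h2]
      simp only [decide_eq_true_eq]
      exact h6
    · have h6 := k2 h5
      rw [decide_eq_false h5] at h2
      refine ⟨h6.ne, ?_⟩
      rw [← h2]
      simp only [decide_eq_false_iff_not, not_lt]
      exact h6.le

theorem genQ (hx : LabOK x t R) (hB : 4 * (R : ℝ) + 3 < B) {i j k : ℕ} (hij : i < j)
    (hjk : j < k) (hk : k < 2 ^ t) : dt (PX B t) (QY x B t) i j k ≠ 0 := by
  unfold dt
  obtain ⟨l1, hl1, ht1⟩ := exists_top hij (hjk.trans hk)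
  obtain ⟨l2, hl2, ht2⟩ := exists_top hjk hk
  obtain ⟨a1, a2⟩ := slopeQ hx hB ht1 hl1
  obtain ⟨b1, b2⟩ := slopeQ hx hB ht2 hl2
  have hne : l1 ≠ l2 := by
    intro hl
    have h1 := ht1.2.2
    have h2 := ht2.2.1
    rw [hl, h2] at h1
    exact absurd h1 (by simp)
  have hlab : x l1 ≠ x l2 := fun h' => hne (hx.inj _ _ hl1 hl2 h')
  set D1 := PX B t j - PX B t i with hD1
  set D2 := PX B t k - PX B t j with hD2
  set N1 := QY x B t j - QY x B t i with hN1
  set N3 := QY x B t k - QY x B t j with hN3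
  have e : D1 * (QY x B t k - QY x B t i) - (PX B t k - PX B t i) * N1 =
      D1 * N3 - D2 * N1 := by
    rw [hD1, hD2, hN1, hN3]; ring
  rw [e]
  obtain ⟨a3, a4⟩ := abs_lt.1 a2
  obtain ⟨b3, b4⟩ := abs_lt.1 b2
  rcases lt_or_gt_of_ne hlab with h1 | h1
  · have h2 : (x l1 : ℝ) + 1 ≤ x l2 := by exact_mod_cast h1
    have h3 : N1 < ((x l1 : ℝ) + 1 / 2) * D1 := by linarith
    have h4 : ((x l1 : ℝ) + 1 / 2) * D2 < N3 := by
      have : ((x l1 : ℝ) + 1) * D2 ≤ (x l2 : ℝ) * D2 :=
        mul_le_mul_of_nonneg_right h2 b1.le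
      linarith
    have h5 := mul_lt_mul_of_pos_left h3 b1
    have h6 := mul_lt_mul_of_pos_left h4 a1
    have : 0 < D1 * N3 - D2 * N1 := by linarith
    exact this.ne'
  · have h2 : (x l2 : ℝ) + 1 ≤ x l1 := by exact_mod_cast h1
    have h3 : ((x l2 : ℝ) + 1 / 2) * D1 < N1 := by
      have : ((x l2 : ℝ) + 1) * D1 ≤ (x l1 : ℝ) * D1 :=
        mul_le_mul_of_nonneg_right h2 a1.le
      linarith
    have h4 : N3 < ((x l2 : ℝ) + 1 / 2) * D2 := by linarith
    have h5 := mul_lt_mul_of_pos_left h3 b1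
    have h6 := mul_lt_mul_of_pos_left h4 a1
    have : D1 * N3 - D2 * N1 < 0 := by linarith
    exact this.ne

end

/-- runs of the labels around the level `m` -/
structure Runs (x : ℕ → ℤ) (t m n1 n2 : ℕ) (ρ : ℕ → ℕ) : Prop where
  one : 1 ≤ n2
  lo_lt : ∀ e < m, ρ e < n2
  lo_mono : ∀ e e', e ≤ e' → e' < m → ρ e' ≤ ρ e
  lo_sign : ∀ e e', e < m → e' < m → ρ e = ρ e' → (x m < x e ↔ x m < x e')
  hi_lt : ∀ e, m < e → e < t → ρ e < n1
  hi_mono : ∀ e e', m < e → e ≤ e' → e' < t → ρ e ≤ ρ e'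
  hi_sign : ∀ e e', m < e → e < t → m < e' → e' < t → ρ e = ρ e' → (x m < x e ↔ x m < x e')

/-- the bound for the number of sign changes of one functional -/
theorem bdQ {x : ℕ → ℤ} {t R : ℕ} (hx : LabOK x t R) (ht0 : 1 ≤ t) {c : ℕ}
    (hr : ∀ m < t, ∃ (n1 n2 : ℕ) (ρ : ℕ → ℕ), n1 + 2 * n2 ≤ c ∧ Runs x t m n1 n2 ρ)
    (θ : ℝ) (B : ℝ) (hB : 4 * (R : ℝ) + 3 < B) :
    ∃ K s, K + 1 ≤ 2 * c ∧ Bd (fun e => ((x e : ℝ) - θ) * B ^ e) t K s := by
  set cc : ℕ → ℝ := fun e => ((x e : ℝ) - θ) * B ^ e with hc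
  have hR0 : (0 : ℝ) ≤ R := Nat.cast_nonneg R
  have hBpos : 0 < B := by linarith
  -- the nearest label
  obtain ⟨m, hm, hmin⟩ := Finset.exists_min_image (range t) (fun e => |(x e : ℝ) - θ|)
    ⟨0, by rw [mem_range]; omega⟩
  rw [mem_range] at hm
  obtain ⟨n1, n2, ρ, hn, hρ⟩ := hr m hm
  have hmin' : ∀ e < t, |(x m : ℝ) - θ| ≤ |(x e : ℝ) - θ| :=
    fun e he => hmin e (mem_range.2 he)
  have hgap : ∀ e, e < t → e ≠ m → 1 ≤ 2 * |(x e : ℝ) - θ| := by
    intro e he hne
    have h1 : x e ≠ x m := fun h' => hne (hx.inj _ _ he hm h')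
    have h2 : (1 : ℤ) ≤ |x e - x m| := Int.one_le_abs (sub_ne_zero.2 h1)
    have h3 : (1 : ℝ) ≤ |(x e : ℝ) - x m| := by exact_mod_cast h2
    have h4 := hmin' e he
    have h5 : |(x e : ℝ) - x m| ≤ |(x e : ℝ) - θ| + |(x m : ℝ) - θ| := by
      have := abs_sub_le (x e : ℝ) θ (x m : ℝ)
      rwa [abs_sub_comm θ] at this
    linarith
  have hsgn : ∀ e, e < t → e ≠ m → decide (0 < cc e) = decide (x m < x e) := by
    intro e he hne
    have h1 : x e ≠ x m := fun h' => hne (hx.inj _ _ he hm h')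
    have hBe : 0 < B ^ e := pow_pos hBpos e
    have h4 := hmin' e he
    rcases lt_or_gt_of_ne h1 with h2 | h2
    · rw [decide_eq_false, decide_eq_false]
      · exact not_lt.2 h2.le
      · have h3 : (x e : ℝ) < x m := by exact_mod_cast h2
        have h5 : (x e : ℝ) - θ < 0 := by
          by_contra hcon
          push Not at hcon
          rw [abs_of_nonneg hcon] at h4
          have := le_abs_self ((x m : ℝ) - θ)
          linarith
        exact not_lt.2 (mul_nonpos_of_nonpos_of_nonneg h5.le hBe.le)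
    · rw [decide_eq_true, decide_eq_true]
      · exact h2
      · have h3 : (x m : ℝ) < x e := by exact_mod_cast h2
        have h5 : 0 < (x e : ℝ) - θ := by
          by_contra hcon
          push Not at hcon
          rw [abs_of_nonpos hcon] at h4
          have := neg_abs_le ((x m : ℝ) - θ)
          linarith
        exact mul_pos h5 hBe
  have hdom : ∀ e, e < t → e ≠ m → ∑ e' ∈ range e, |cc e'| < |cc e| := by
    intro e he hne
    have h1 := hgap e he hne
    have h2 : ∀ e' ∈ range e, |cc e'| ≤ (4 * R + 1) * |(x e : ℝ) - θ| * B ^ e' := by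
      intro e' he'
      rw [mem_range] at he'
      rw [hc]
      simp only
      rw [abs_mul, abs_of_pos (pow_pos hBpos e')]
      apply mul_le_mul_of_nonneg_right _ (pow_pos hBpos e').le
      have h5 : |(x e : ℝ)| ≤ R := by exact_mod_cast hx.bound e he
      have h6 : |(x e' : ℝ)| ≤ R := by exact_mod_cast hx.bound e' (he'.trans he)
      have h7 : |(x e' : ℝ) - θ| ≤ |(x e' : ℝ) - x e| + |(x e : ℝ) - θ| :=
        abs_sub_le _ _ _
      have h8 : |(x e' : ℝ) - x e| ≤ |(x e' : ℝ)| + |(x e : ℝ)| := abs_sub _ _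
      nlinarith
    calc ∑ e' ∈ range e, |cc e'| ≤ ∑ e' ∈ range e, (4 * R + 1) * |(x e : ℝ) - θ| * B ^ e' :=
          sum_le_sum h2
      _ = (4 * R + 1) * |(x e : ℝ) - θ| * ∑ e' ∈ range e, B ^ e' := by rw [mul_sum]
      _ < |cc e| := by
          rw [hc]
          simp only
          rw [abs_mul, abs_of_pos (pow_pos hBpos e)]
          have hg : (∑ e' ∈ range e, B ^ e') * (B - 1) = B ^ e - 1 := geom_sum_mul B e
          have hpos : 0 < |(x e : ℝ) - θ| := by linarith
          have hge : 0 ≤ ∑ e' ∈ range e, B ^ e' := sum_nonneg (fun e' _ => (pow_pos hBpos e').le)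
          have h9 : (4 * R + 1) * ∑ e' ∈ range e, B ^ e' ≤ B ^ e - 1 := by
            rw [← hg, mul_comm]
            apply mul_le_mul_of_nonneg_left _ hge
            linarith
          calc (4 * R + 1) * |(x e : ℝ) - θ| * ∑ e' ∈ range e, B ^ e'
              = |(x e : ℝ) - θ| * ((4 * R + 1) * ∑ e' ∈ range e, B ^ e') := by ring
            _ ≤ |(x e : ℝ) - θ| * (B ^ e - 1) := mul_le_mul_of_nonneg_left h9 hpos.le
            _ < |(x e : ℝ) - θ| * B ^ e := by
                apply mul_lt_mul_of_pos_left _ hpos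
                linarith
  have h1n := hρ.one
  -- lower part
  have low : ∀ e, e < m → Bd cc (e + 1) (1 + 2 * (n2 - 1 - ρ e)) (decide (0 < cc e)) := by
    intro e
    induction e with
    | zero =>
      intro he
      have h1 := bd_dom (bd_zero cc (decide (0 < cc 0))) (hdom 0 (by omega) (by omega)) rfl
      simp only [if_true] at h1
      exact h1.mono (by omega)
    | succ e ih =>
      intro he
      have h1 := bd_dom (ih (by omega)) (hdom (e + 1) (by omega) (by omega)) rfl
      apply h1.mono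
      have l1 := hρ.lo_mono e (e + 1) (by omega) he
      have l2 := hρ.lo_lt e (by omega)
      rw [hsgn e (by omega) (by omega), hsgn (e + 1) (by omega) (by omega)]
      by_cases hs : decide (x m < x e) = decide (x m < x (e + 1))
      · rw [if_pos hs]; omega
      · rw [if_neg hs]
        have hne : ρ e ≠ ρ (e + 1) := by
          intro h'
          exact hs (decide_eq_decide.2 (hρ.lo_sign e (e + 1) (by omega) he h'))
        omega
  have low' : ∃ s, Bd cc m (2 * n2 - 1) s := by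
    rcases Nat.eq_zero_or_pos m with h0 | h0
    · rw [h0]
      exact ⟨true, (bd_zero cc true).mono (by omega)⟩
    · have := low (m - 1) (by omega)
      rw [Nat.sub_add_cancel h0] at this
      exact ⟨_, this.mono (by omega)⟩
  obtain ⟨s0, hs0⟩ := low'
  have mid : Bd cc (m + 1) (4 * n2 - 1) s0 := (bd_exc hs0).mono (by omega)
  -- upper part
  have up : ∀ k, m + 1 + k < t →
      Bd cc (m + 1 + k + 1) (4 * n2 - 1 + 2 * (ρ (m + 1 + k) + 1))
        (decide (0 < cc (m + 1 + k))) := by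
    intro k
    induction k with
    | zero =>
      intro he
      have h1 := bd_dom mid (hdom (m + 1) he (by omega)) rfl
      apply h1.mono
      split_ifs <;> omega
    | succ k ih =>
      intro he
      have h1 := bd_dom (ih (by omega)) (hdom (m + 1 + k + 1) (by omega) (by omega)) rfl
      apply h1.mono
      have l1 := hρ.hi_mono (m + 1 + k) (m + 1 + k + 1) (by omega) (by omega) (by omega)
      rw [hsgn (m + 1 + k) (by omega) (by omega), hsgn (m + 1 + k + 1) (by omega) (by omega)]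
      have e1 : m + 1 + (k + 1) = m + 1 + k + 1 := by ring
      rw [e1]
      by_cases hs : decide (x m < x (m + 1 + k)) = decide (x m < x (m + 1 + k + 1))
      · rw [if_pos hs]; omega
      · rw [if_neg hs]
        have hne : ρ (m + 1 + k) ≠ ρ (m + 1 + k + 1) := by
          intro h'
          exact hs (decide_eq_decide.2 (hρ.hi_sign _ _ (by omega) (by omega) (by omega)
            (by omega) h'))
        omega
  rcases Nat.lt_or_ge (m + 1) t with h1 | h1
  · have h2 := up (t - 1 - (m + 1)) (by omega)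
    have e1 : m + 1 + (t - 1 - (m + 1)) + 1 = t := by omega
    rw [e1] at h2
    have l2 := hρ.hi_lt (m + 1 + (t - 1 - (m + 1))) (by omega) (by omega)
    exact ⟨_, _, by omega, h2⟩
  · have e1 : m + 1 = t := by omega
    rw [e1] at mid
    exact ⟨_, _, by omega, mid⟩

end Pool.Agent.H595K.Grp
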