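import Mathlib
import Pool.Agent.H595K.QGeo
import Pool.Agent.H595K.NWord

/-!
# Systems of groups of levels
-/

namespace Pool.Agent.H595K.Grp

open Finset Nst

/-- letters of a group `c.1` with direction `c.2` seen from the group `G` -/
def lt' (rk : ℕ → ℕ) (G : ℕ) (c : ℕ × Bool) : Bool :=
  if c.2 then decide (rk G < rk c.1) else !decide (rk G < rk c.1)

/-- the word of a line in the group `c.1` -/
def wrd (rk : ℕ → ℕ) (y : ℕ → Bool) (m : ℕ) (tu : List (ℕ × Bool)) (c : ℕ × Bool)
    (tl : List (ℕ × Bool)) : List Bool :=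
  tu.map (fun a => !lt' rk c.1 a) ++
    (alt m (if c.2 then y c.1 else !y c.1) ++
      (tl.map (fun a => !lt' rk c.1 a) ++ (tl.map (lt' rk c.1)).reverse) ++
      alt m (if c.2 then y c.1 else !y c.1) ++
      (tl.map (fun a => !lt' rk c.1 a) ++ (tl.map (lt' rk c.1)).reverse) ++
      alt m (if c.2 then y c.1 else !y c.1)) ++
    (tu.map (lt' rk c.1)).reverse

/-- a system of groups -/
structure GSys where
  g : ℕ
  ex : ℕ
  rb : ℕ
  q : ℕ
  y : ℕ → Bool
  rk : ℕ → ℕ
  up : ℕ → ℕ → ℕ
  dn : ℕ → ℕ → ℕ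
  g1 : 1 ≤ g
  q1 : 1 ≤ q
  rk_lt : ∀ i < g, rk i < g
  rk_inj : ∀ i < g, ∀ j < g, rk i = rk j → i = j
  up_mono : ∀ G i i', G < i → i ≤ i' → i' < g → up G i ≤ up G i'
  up_par : ∀ G i, G < i → i < g → (rk G < rk i ↔ (up G i % 2 = 1 ↔ y G = true))
  dn_mono : ∀ G i i', i ≤ i' → i' < G → G < g → dn G i' ≤ dn G i
  dn_par : ∀ G i, i < G → G < g → (rk G < rk i ↔ (dn G i % 2 = 0 ↔ y G = true))
  bound : ∀ G < g, ∃ a b, (∀ i, G < i → i < g → up G i ≤ a) ∧ (∀ i < G, dn G i ≤ b) ∧
    a + 2 * b ≤ ex
  rob : ∀ τ : List (ℕ × Bool), τ.length = q → (∀ c ∈ τ, c.1 < g) →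
    τ.Pairwise (fun a b => b.1 < a.1) → ∃ tu c tl, τ = tu ++ c :: tl ∧
      6 + 2 * rb ≤ ch (wrd rk y 2 tu c tl) + 1

/-- the labels -/
def gx (S : GSys) (M h T : ℕ) (e : ℕ) : ℤ :=
  (S.rk (e / T) : ℤ) * (3 * T) +
    if fl h (S.y (e / T)) then lab M (e % T) else -lab M (e % T)

section
variable {S : GSys} {M h T : ℕ}

theorem lab_lt (hM : 2 ≤ M) {e : ℕ} (hT : 0 < T) : |lab M (e % T)| ≤ (T : ℤ) - 1 := by
  have h1 := lab_abs_le hM (e % T)
  have h2 := Nat.mod_lt e hT
  have : ((e % T : ℕ) : ℤ) ≤ (T : ℤ) - 1 := by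
    have : ((e % T : ℕ) : ℤ) < T := by exact_mod_cast h2
    linarith
  linarith

theorem gx_diff (hM : 2 ≤ M) (hT : 0 < T) {e m : ℕ} (he : e < S.g * T) (hm : m < S.g * T)
    (hne : e / T ≠ m / T) : gx S M h T m < gx S M h T e ↔ S.rk (m / T) < S.rk (e / T) := by
  have he' : e / T < S.g := Nat.div_lt_of_lt_mul (by rwa [mul_comm])
  have hm' : m / T < S.g := Nat.div_lt_of_lt_mul (by rwa [mul_comm])
  have h1 := abs_le.1 (lab_lt hM (e := e) hT)
  have h2 := abs_le.1 (lab_lt hM (e := m) hT)
  have h3 : S.rk (m / T) ≠ S.rk (e / T) := fun h => hne (S.rk_inj _ hm' _ he' h).symm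
  have hT' : (0 : ℤ) < T := by exact_mod_cast hT
  unfold gx
  constructor
  · intro h4
    by_contra h5
    have h6 : (S.rk (e / T) : ℤ) + 1 ≤ S.rk (m / T) := by
      have : S.rk (e / T) + 1 ≤ S.rk (m / T) := by omega
      exact_mod_cast this
    have h7 : ((S.rk (e / T) : ℤ) + 1) * (3 * T) ≤ S.rk (m / T) * (3 * T) :=
      mul_le_mul_of_nonneg_right h6 (by linarith)
    have h8 : ((S.rk (e / T) : ℤ) + 1) * (3 * T) = S.rk (e / T) * (3 * T) + 3 * T := by ring
    split_ifs at h4 <;> linarith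
  · intro h4
    have h6 : (S.rk (m / T) : ℤ) + 1 ≤ S.rk (e / T) := by exact_mod_cast h4
    have h7 : ((S.rk (m / T) : ℤ) + 1) * (3 * T) ≤ S.rk (e / T) * (3 * T) :=
      mul_le_mul_of_nonneg_right h6 (by linarith)
    have h8 : ((S.rk (m / T) : ℤ) + 1) * (3 * T) = S.rk (m / T) * (3 * T) + 3 * T := by ring
    split_ifs <;> linarith

theorem gx_same {e m : ℕ} (hd : e / T = m / T) : gx S M h T m < gx S M h T e ↔
    (if fl h (S.y (m / T)) then lab M (m % T) < lab M (e % T)
      else lab M (e % T) < lab M (m % T)) := by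
  unfold gx
  rw [hd]
  split_ifs
  · constructor <;> intro h <;> linarith
  · constructor <;> intro h <;> linarith

theorem gx_ok (hM : 2 ≤ M) (hT : 0 < T) : LabOK (gx S M h T) (S.g * T) (3 * S.g * T + T) := by
  have hT' : (0 : ℤ) < T := by exact_mod_cast hT
  refine ⟨?_, ?_⟩
  · intro e f he hf hef
    by_cases hd : e / T = f / T
    · have h1 : lab M (e % T) = lab M (f % T) := by
        unfold gx at hef
        rw [hd] at hef
        split_ifs at hef <;> linarith
      have h2 := lab_inj hM _ _ h1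
      have h3 := Nat.div_add_mod e T
      have h4 := Nat.div_add_mod f T
      rw [hd, h2] at h3
      omega
    · exfalso
      have h1 := gx_diff (h := h) hM hT he hf hd
      have h2 := gx_diff (h := h) hM hT hf he (Ne.symm hd)
      have he' : e / T < S.g := Nat.div_lt_of_lt_mul (by rwa [mul_comm])
      have hf' : f / T < S.g := Nat.div_lt_of_lt_mul (by rwa [mul_comm])
      have h3 : S.rk (e / T) ≠ S.rk (f / T) := fun h => hd (S.rk_inj _ he' _ hf' h)
      rw [hef] at h1 h2
      rcases lt_or_gt_of_ne h3 with h4 | h4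
      · exact lt_irrefl _ (h2.2 h4)
      · exact lt_irrefl _ (h1.2 h4)
  · intro e he
    have he' : e / T < S.g := Nat.div_lt_of_lt_mul (by rwa [mul_comm])
    have h1 := abs_le.1 (lab_lt hM (e := e) hT)
    have h2 : (S.rk (e / T) : ℤ) ≤ S.g := by exact_mod_cast (S.rk_lt _ he').le
    have h3 : (0 : ℤ) ≤ S.rk (e / T) := Int.natCast_nonneg _
    have h4 : (S.rk (e / T) : ℤ) * (3 * T) ≤ S.g * (3 * T) :=
      mul_le_mul_of_nonneg_right h2 (by linarith)
    have h5 : 0 ≤ (S.rk (e / T) : ℤ) * (3 * T) := mul_nonneg h3 (by linarith)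
    unfold gx
    rw [abs_le]
    push_cast
    split_ifs <;> constructor <;> linarith

/-- the runs -/
def grho (S : GSys) (M h T m e : ℕ) : ℕ :=
  if e / T = m / T then lev M h (e % T) (m % T)
  else if e / T < m / T then h - 1 + S.dn (m / T) (e / T)
  else h - 1 + S.up (m / T) (e / T)

theorem fl_par (h : ℕ) (b : Bool) : fl h b = true ↔ (h % 2 = 0 ↔ b = true) := by
  rw [fl_eq]
  rcases Nat.mod_two_eq_zero_or_one h with h1 | h1
  · rw [if_pos h1]; simp [h1]
  · rw [if_neg (by omega)]; cases b <;> simp [h1]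

theorem gx_runs (hM : 2 ≤ M) (hh : 1 ≤ h) (hT : 0 < T) (hTM : T ≤ M ^ h) {m : ℕ}
    (hm : m < S.g * T) : ∃ (n1 n2 : ℕ) (ρ : ℕ → ℕ), n1 + 2 * n2 ≤ 3 * h + S.ex ∧
      Runs (gx S M h T) (S.g * T) m n1 n2 ρ := by
  have hG : m / T < S.g := Nat.div_lt_of_lt_mul (by rwa [mul_comm])
  obtain ⟨a, b, ha, hb, hab⟩ := S.bound (m / T) hG
  have hmT : m % T < M ^ h := lt_of_lt_of_le (Nat.mod_lt _ hT) hTM
  have heT : ∀ e, e % T < M ^ h := fun e => lt_of_lt_of_le (Nat.mod_lt _ hT) hTM
  have hlev : ∀ e, lev M h (e % T) (m % T) ≤ h - 1 := fun e => lev_le hM h _ _ (heT e) hmT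
  have hdiv : ∀ e e', e ≤ e' → e / T ≤ e' / T := fun e e' h => Nat.div_le_div_right h
  have hlt : ∀ e e', e < e' → e / T = e' / T → e % T < e' % T := by
    intro e e' h hd
    have h1 := Nat.div_add_mod e T
    have h2 := Nat.div_add_mod e' T
    rw [hd] at h1
    omega
  have hle : ∀ e e', e ≤ e' → e / T = e' / T → e % T ≤ e' % T := by
    intro e e' h hd
    have h1 := Nat.div_add_mod e T
    have h2 := Nat.div_add_mod e' T
    rw [hd] at h1
    omega
  have hlo : ∀ e < m, (gx S M h T m < gx S M h T e ↔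
      (grho S M h T m e % 2 = 1 ↔ fl h (S.y (m / T)) = true)) := by
    intro e he
    unfold grho
    by_cases hd : e / T = m / T
    · rw [if_pos hd, gx_same hd]
      have h1 := lev_sign_low hM h (e % T) (m % T) (hlt e m he hd) hmT
      have h2 : lab M (e % T) ≠ lab M (m % T) := fun h' =>
        (hlt e m he hd).ne (lab_inj hM _ _ h')
      by_cases hf : fl h (S.y (m / T)) = true
      · rw [if_pos hf, h1]; simp [hf]
      · rw [if_neg hf]
        have h3 : lab M (e % T) < lab M (m % T) ↔ ¬ (lab M (m % T) < lab M (e % T)) := by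
          constructor
          · intro h'; exact not_lt.2 h'.le
          · intro h'; exact lt_of_le_of_ne (not_lt.1 h') h2
        rw [h3, h1]; simp [hf]
    · have h1 : e / T < m / T := lt_of_le_of_ne (hdiv e m he.le) hd
      rw [if_neg hd, if_pos h1, gx_diff hM hT (he.trans hm) hm hd, S.dn_par _ _ h1 hG, fl_par]
      cases hy : S.y (m / T)
      · simp only [Bool.false_eq_true, iff_false]
        rcases Nat.mod_two_eq_zero_or_one h with h7 | h7
        · simp only [h7, not_true_eq_false, iff_false]; omega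
        · simp only [h7, one_ne_zero, not_false_eq_true, iff_true]; omega
      · simp only [iff_true]; omega
  have hhi : ∀ e, m < e → e < S.g * T → (gx S M h T m < gx S M h T e ↔
      (grho S M h T m e % 2 = 0 ↔ fl h (S.y (m / T)) = true)) := by
    intro e he het
    unfold grho
    by_cases hd : e / T = m / T
    · rw [if_pos hd, gx_same hd]
      have h1 := lev_sign_high hM h (e % T) (m % T) (hlt m e he hd.symm) (heT e)
      have h2 : lab M (e % T) ≠ lab M (m % T) := fun h' =>
        (hlt m e he hd.symm).ne (lab_inj hM _ _ h'.symm)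
      by_cases hf : fl h (S.y (m / T)) = true
      · rw [if_pos hf, h1]; simp [hf]
      · rw [if_neg hf]
        have h3 : lab M (e % T) < lab M (m % T) ↔ ¬ (lab M (m % T) < lab M (e % T)) := by
          constructor
          · intro h'; exact not_lt.2 h'.le
          · intro h'; exact lt_of_le_of_ne (not_lt.1 h') h2
        rw [h3, h1]; simp [hf]
    · have h1 : m / T < e / T := lt_of_le_of_ne (hdiv m e he.le) (Ne.symm hd)
      have h2 : e / T < S.g := Nat.div_lt_of_lt_mul (by rwa [mul_comm])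
      rw [if_neg hd, if_neg (by omega), gx_diff hM hT het hm hd, S.up_par _ _ h1 h2, fl_par]
      cases hy : S.y (m / T)
      · simp only [Bool.false_eq_true, iff_false]
        rcases Nat.mod_two_eq_zero_or_one h with h7 | h7
        · simp only [h7, not_true_eq_false, iff_false]; omega
        · simp only [h7, one_ne_zero, not_false_eq_true, iff_true]; omega
      · simp only [iff_true]; omega
  refine ⟨h + a, h + b, grho S M h T m, by omega, ⟨by omega, ?_, ?_, ?_, ?_, ?_, ?_⟩⟩
  · intro e he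
    unfold grho
    have h0 := hlev e
    by_cases hd : e / T = m / T
    · rw [if_pos hd]; omega
    · have h1 : e / T < m / T := lt_of_le_of_ne (hdiv e m he.le) hd
      rw [if_neg hd, if_pos h1]
      have := hb _ h1
      omega
  · intro e e' hee he'
    unfold grho
    have h0 := hlev e'
    by_cases hd' : e' / T = m / T
    · rw [if_pos hd']
      by_cases hd : e / T = m / T
      · rw [if_pos hd]
        exact lev_mono_low h _ _ _ (hle e e' hee (hd.trans hd'.symm)) (hle e' m he'.le hd')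
      · have h1 : e / T < m / T := lt_of_le_of_ne (hdiv e m (hee.trans he'.le)) hd
        rw [if_neg hd, if_pos h1]
        omega
    · have h1 : e' / T < m / T := lt_of_le_of_ne (hdiv e' m he'.le) hd'
      have h2 : e / T < m / T := lt_of_le_of_lt (hdiv e e' hee) h1
      rw [if_neg hd', if_pos h1, if_neg (by omega), if_pos h2]
      have := S.dn_mono (m / T) (e / T) (e' / T) (hdiv e e' hee) h1 hG
      omega
  · intro e e' he he' hee
    rw [hlo e he, hlo e' he', hee]
  · intro e he het
    unfold grho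
    have h0 := hlev e
    by_cases hd : e / T = m / T
    · rw [if_pos hd]; omega
    · have h1 : m / T < e / T := lt_of_le_of_ne (hdiv m e he.le) (Ne.symm hd)
      have h2 : e / T < S.g := Nat.div_lt_of_lt_mul (by rwa [mul_comm])
      rw [if_neg hd, if_neg (by omega)]
      have := ha _ h1 h2
      omega
  · intro e e' he hee he't
    unfold grho
    have h0 := hlev e
    by_cases hd : e / T = m / T
    · rw [if_pos hd]
      by_cases hd' : e' / T = m / T
      · rw [if_pos hd']
        exact lev_mono_high h _ _ _ (hle m e he.le hd.symm) (hle e e' hee (hd.trans hd'.symm))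
      · have h1 : m / T < e' / T := lt_of_le_of_ne (hdiv m e' (he.le.trans hee)) (Ne.symm hd')
        rw [if_neg hd', if_neg (by omega)]
        omega
    · have h1 : m / T < e / T := lt_of_le_of_ne (hdiv m e he.le) (Ne.symm hd)
      have h2 : e' / T < S.g := Nat.div_lt_of_lt_mul (by rwa [mul_comm])
      have h3 := hdiv e e' hee
      rw [if_neg hd, if_neg (by omega), if_neg (by omega), if_neg (by omega)]
      have := S.up_mono (m / T) (e / T) (e' / T) h1 h3 h2
      omega
  · intro e e' he het he' he't hee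
    rw [hhi e he het, hhi e' he' he't, hee]

/-- no long alternating sequence -/
theorem gx_alt (hM : 2 ≤ M) (hh : 1 ≤ h) (hT : 0 < T) (hTM : T ≤ M ^ h) {B : ℝ}
    (hB : 4 * ((3 * S.g * T + T : ℕ) : ℝ) + 3 < B) {N : ℕ} (hN : N ≤ 2 ^ (S.g * T)) (r : ℕ) :
    ¬ SAlt (PX B (S.g * T)) (QY (gx S M h T) B (S.g * T)) N (2 * (3 * h + S.ex) + 1) r := by
  rintro ⟨l, g, h1, h2, h3⟩
  have ht0 : 1 ≤ S.g * T := Nat.mul_pos (by have := S.g1; omega) hT
  obtain ⟨K, s, hK, hb⟩ := bdQ (gx_ok (S := S) (h := h) hM hT) ht0 (c := 3 * h + S.ex)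
    (fun m hm => gx_runs hM hh hT hTM hm) l.1 B hB
  have hmono : ∀ i j, i < j → j < 2 * (3 * h + S.ex) + 1 → g i < g j := by
    intro i j hij
    induction j, hij using Nat.le_induction with
    | base => intro hj; exact h1 i (by omega)
    | succ j _ ih => intro hj; exact (ih (by omega)).trans (h1 j (by omega))
  set ws : List ℕ := (List.range (2 * (3 * h + S.ex) + 1)).map g with hws
  have hws1 : ws.Pairwise (· < ·) := by
    rw [hws, List.pairwise_map]
    refine List.Pairwise.imp_of_mem ?_ List.pairwise_lt_range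
    intro i j _ hj hij
    exact hmono i j hij (List.mem_range.1 hj)
  have hws2 : ∀ u ∈ ws, u < 2 ^ (S.g * T) := by
    intro u hu
    rw [hws, List.mem_map] at hu
    obtain ⟨i, hi, rfl⟩ := hu
    exact lt_of_lt_of_le (h2 i (List.mem_range.1 hi)) hN
  have hsub := (sublist_range hws1 hws2).map
    (fun u => decide (l.2 ≤ F (fun e => ((gx S M h T e : ℝ) - l.1) * B ^ e) (S.g * T) u))
  rw [hws, List.map_map] at hsub
  rw [alt_of_signs (h := fun i => Nst.ht (PX B (S.g * T)) (QY (gx S M h T) B (S.g * T)) l (g i))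
    (by
    intro i
    have e : F (fun e => ((gx S M h T e : ℝ) - l.1) * B ^ e) (S.g * T) (g i) =
      QY (gx S M h T) B (S.g * T) (g i) - l.1 * PX B (S.g * T) (g i) :=
        F_lin _ B l.1 (S.g * T) (g i)
    constructor
    · intro h4
      simp only [Function.comp]
      rw [e]
      apply decide_eq_true
      unfold Nst.ht at h4
      linarith
    · intro h4
      simp only [Function.comp]
      rw [e]
      apply decide_eq_false
      unfold Nst.ht at h4
      push Not
      linarith) h3] at hsub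
  have h5 := ch_sublist hsub
  rw [ch_alt] at h5
  have h6 := hb l.2 (!s) s
  have h7 : ch (sg (fun e => ((gx S M h T e : ℝ) - l.1) * B ^ e) (S.g * T) l.2) ≤
      ch ((!s) :: (sg (fun e => ((gx S M h T e : ℝ) - l.1) * B ^ e) (S.g * T) l.2 ++ [s])) := by
    apply ch_sublist
    apply List.Sublist.cons
    exact List.sublist_append_left _ _
  have h8 : (if (!s) = s then 1 else 0) = 0 := by cases s <;> rfl
  rw [h8, if_pos rfl] at h6
  have h9 : ch ((List.range (2 ^ (S.g * T))).map
    (fun u => decide (l.2 ≤ F (fun e => ((gx S M h T e : ℝ) - l.1) * B ^ e) (S.g * T) u))) =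
      ch (sg (fun e => ((gx S M h T e : ℝ) - l.1) * B ^ e) (S.g * T) l.2) := rfl
  omega

end

end Pool.Agent.H595K.Grp
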