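import Mathlib
import Pool.Agent.H595K.QSys

/-!
# Canonical substructures of sets of words
-/

namespace Pool.Agent.H595K.Grp

open Finset Nst

/-- sets separated by the values of `f` -/
theorem disj (f : ℕ → ℕ) {m : ℕ} (hm : 1 ≤ m) : ∀ (k : ℕ) (U : Finset ℕ) (S : ℕ → Finset ℕ),
    U.card = k → (∀ u ∈ U, Set.InjOn f (S u)) → (∀ u ∈ U, k * m ≤ (S u).card) →
    ∃ V : ℕ → Finset ℕ, (∀ u ∈ U, V u ⊆ S u ∧ m ≤ (V u).card) ∧ ∀ u ∈ U, ∀ v ∈ U, u ≠ v →
      (∀ z ∈ V u, ∀ w ∈ V v, f z < f w) ∨ (∀ z ∈ V u, ∀ w ∈ V v, f w < f z) := by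
  classical
  intro k
  induction k with
  | zero =>
    intro U S hU _ _
    rw [card_eq_zero] at hU
    subst hU
    exact ⟨S, by simp, by simp⟩
  | succ k ih =>
    intro U S hU hf hS
    have hne : ∃ y, ∃ u ∈ U, m ≤ ((S u).filter (fun z => f z < y)).card := by
      obtain ⟨u, hu⟩ := card_pos.1 (show 0 < U.card by omega)
      refine ⟨(S u).sup f + 1, u, hu, ?_⟩
      have : (S u).filter (fun z => f z < (S u).sup f + 1) = S u := by
        apply filter_true_of_mem
        intro z hz
        have := le_sup (f := f) hz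
        omega
      rw [this]
      have := hS u hu
      nlinarith
    obtain ⟨y, ⟨u0, hu0, hy⟩, hmin⟩ : ∃ y, (∃ u ∈ U, m ≤ ((S u).filter (fun z => f z < y)).card) ∧
        ∀ y' < y, ¬ ∃ u ∈ U, m ≤ ((S u).filter (fun z => f z < y')).card :=
      ⟨Nat.find hne, Nat.find_spec hne, fun y' hy' => Nat.find_min hne hy'⟩
    have hle : ∀ u ∈ U, ((S u).filter (fun z => f z < y)).card ≤ m := by
      intro u hu
      rcases Nat.eq_zero_or_pos y with h0 | h0
      · rw [h0]; simp
      · have h1 := hmin (y - 1) (by omega)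
        push Not at h1
        have h2 := h1 u hu
        have h3 : (S u).filter (fun z => f z < y) ⊆
            (S u).filter (fun z => f z < y - 1) ∪ (S u).filter (fun z => f z = y - 1) := by
          intro z hz
          rw [mem_filter] at hz
          rw [mem_union, mem_filter, mem_filter]
          by_cases h4 : f z < y - 1
          · exact Or.inl ⟨hz.1, h4⟩
          · exact Or.inr ⟨hz.1, by omega⟩
        have h4 : ((S u).filter (fun z => f z = y - 1)).card ≤ 1 := by
          rw [card_le_one]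
          intro a ha b hb
          rw [mem_filter] at ha hb
          exact hf u hu ha.1 hb.1 (ha.2.trans hb.2.symm)
        have h5 := card_le_card h3
        have h6 := card_union_le ((S u).filter (fun z => f z < y - 1))
          ((S u).filter (fun z => f z = y - 1))
        omega
    obtain ⟨V, hV1, hV2⟩ := ih (U.erase u0) (fun u => (S u).filter (fun z => ¬ f z < y))
      (by rw [card_erase_of_mem hu0]; omega)
      (fun u hu => (hf u (mem_of_mem_erase hu)).mono (by
        intro z hz
        exact (mem_filter.1 hz).1)) (by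
        intro u hu
        have h1 := hS u (mem_of_mem_erase hu)
        have h2 := hle u (mem_of_mem_erase hu)
        have h3 := card_filter_add_card_filter_not (s := S u) (fun z => f z < y)
        have : (k + 1) * m = k * m + m := by ring
        omega)
    refine ⟨fun u => if u = u0 then (S u0).filter (fun z => f z < y) else V u, ?_, ?_⟩
    · intro u hu
      simp only
      by_cases h : u = u0
      · subst h
        rw [if_pos rfl]
        exact ⟨filter_subset _ _, hy⟩
      · rw [if_neg h]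
        obtain ⟨h1, h2⟩ := hV1 u (mem_erase.2 ⟨h, hu⟩)
        exact ⟨h1.trans (filter_subset _ _), h2⟩
    · have key : ∀ u ∈ U, u ≠ u0 → ∀ z ∈ (S u0).filter (fun z => f z < y), ∀ w ∈ V u,
          f z < f w := by
        intro u hu hne z hz w hw
        have h1 := (mem_filter.1 hz).2
        have h2 := (mem_filter.1 ((hV1 u (mem_erase.2 ⟨hne, hu⟩)).1 hw)).2
        omega
      intro u hu v hv huv
      simp only
      by_cases h1 : u = u0
      · rw [if_pos h1, if_neg (fun h => huv (h1.trans h.symm))]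
        left
        exact key v hv (fun h => huv (h1.trans h.symm))
      · by_cases h2 : v = u0
        · rw [if_neg h1, if_pos h2]
          right
          intro z hz w hw
          exact key u hu h1 w hw z hz
        · rw [if_neg h1, if_neg h2]
          exact hV2 u (mem_erase.2 ⟨h1, hu⟩) v (mem_erase.2 ⟨h2, hv⟩) huv

/-- canonical structures -/
def Can (f : ℕ → ℕ) (T A : ℕ) : List (ℕ × Bool) → Finset ℕ → Prop
  | [], W => W.Nonempty
  | c :: τ, W => ∃ (U : Finset ℕ) (V : ℕ → Finset ℕ), A < U.card ∧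
      (∀ a ∈ U, V a ⊆ W ∧ Can f T A τ (V a) ∧ ∀ z ∈ V a, z / 2 ^ (c.1 * T) = a) ∧
      (∀ a ∈ U, ∀ b ∈ U, a / 2 ^ T = b / 2 ^ T) ∧
      (∀ a ∈ U, ∀ b ∈ U, a < b → ∀ z ∈ V a, ∀ w ∈ V b,
        (c.2 = true → f z < f w) ∧ (c.2 = false → f w < f z))

theorem can_mono {f : ℕ → ℕ} {T A : ℕ} {τ : List (ℕ × Bool)} {W W' : Finset ℕ} (h : W ⊆ W')
    (hc : Can f T A τ W) : Can f T A τ W' := by
  cases τ with
  | nil => exact Finset.Nonempty.mono h hc
  | cons c τ =>
    obtain ⟨U, V, h1, h2, h3, h4⟩ := hc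
    exact ⟨U, V, h1, fun a ha => ⟨(h2 a ha).1.trans h, (h2 a ha).2⟩, h3, h4⟩

/-- the types -/
def tyl : ℕ → List (List (ℕ × Bool))
  | 0 => [[]]
  | g + 1 => tyl g ++ ((tyl g).map (fun τ => (g, true) :: τ) ++
      (tyl g).map (fun τ => (g, false) :: τ))

theorem tyl_length : ∀ g, (tyl g).length = 3 ^ g := by
  intro g
  induction g with
  | zero => rfl
  | succ g ih =>
    simp only [tyl, List.length_append, List.length_map, ih, pow_succ]
    ring

theorem mem_tyl : ∀ (g : ℕ) (τ : List (ℕ × Bool)), (∀ c ∈ τ, c.1 < g) →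
    τ.Pairwise (fun a b => b.1 < a.1) → τ ∈ tyl g := by
  intro g
  induction g with
  | zero =>
    intro τ h _
    cases τ with
    | nil => simp [tyl]
    | cons c τ => exact absurd (h c (by simp)) (by omega)
  | succ g ih =>
    intro τ h hp
    simp only [tyl, List.mem_append, List.mem_map]
    cases τ with
    | nil => exact Or.inl (ih [] (by simp) List.Pairwise.nil)
    | cons c τ =>
      rw [List.pairwise_cons] at hp
      have hc := h c (by simp)
      rcases Nat.lt_or_eq_of_le (Nat.lt_succ_iff.1 hc) with h1 | h1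
      · refine Or.inl (ih (c :: τ) ?_ (List.pairwise_cons.2 hp))
        intro c' hc'
        rcases List.mem_cons.1 hc' with rfl | h2
        · exact h1
        · have := hp.1 c' h2
          omega
      · have h2 : τ ∈ tyl g := ih τ (fun c' hc' => by have := hp.1 c' hc'; omega) hp.2
        right
        obtain ⟨i, ε⟩ := c
        simp only at h1
        subst h1
        cases ε
        · exact Or.inr ⟨τ, h2, rfl⟩
        · exact Or.inl ⟨τ, h2, rfl⟩

/-- the thresholds -/
def thr (T r : ℕ) : ℕ → ℕ → ℕ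
  | 0, q => if q = 0 then 0 else 1
  | i + 1, q => if q = 0 then 0 else
      r * thr T r i q + if q = 1 then 0 else 2 ^ T * (r * (thr T r i (q - 1) + 1))

theorem thr_zero (T r : ℕ) (i : ℕ) : thr T r i 0 = 0 := by
  cases i <;> simp [thr]

theorem thr_le {T r : ℕ} (hr : 1 ≤ r) : ∀ i q, thr T r i (q + 1) ≤ (4 * r) ^ i * 2 ^ (T * q) := by
  intro i
  induction i with
  | zero =>
    intro q
    simp only [thr]
    simp
    exact Nat.one_le_two_pow
  | succ i ih =>
    intro q
    simp only [thr]
    rw [if_neg (by omega)]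
    have h1 := ih q
    have hp : 1 ≤ (4 * r) ^ i := Nat.one_le_pow _ _ (by omega)
    have hq : 1 ≤ 2 ^ (T * q) := Nat.one_le_two_pow
    rcases Nat.eq_zero_or_pos q with h0 | h0
    · subst h0
      simp only [zero_add, if_true, mul_zero, pow_zero, mul_one, add_zero] at h1 ⊢
      calc r * thr T r i 1 ≤ r * (4 * r) ^ i := Nat.mul_le_mul_left _ h1
        _ ≤ (4 * r) ^ (i + 1) := by rw [pow_succ]; nlinarith
    · obtain ⟨q', rfl⟩ : ∃ q', q = q' + 1 := ⟨q - 1, by omega⟩
      rw [if_neg (by omega)]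
      have h2 := ih q'
      have h3 : 2 ^ (T * (q' + 1)) = 2 ^ T * 2 ^ (T * q') := by rw [← pow_add]; ring_nf
      have e : q' + 1 + 1 - 1 = q' + 1 := by omega
      rw [e]
      have hq' : 1 ≤ 2 ^ (T * q') := Nat.one_le_two_pow
      calc r * thr T r i (q' + 1 + 1) + 2 ^ T * (r * (thr T r i (q' + 1) + 1))
          ≤ r * ((4 * r) ^ i * 2 ^ (T * (q' + 1))) +
            2 ^ T * (r * ((4 * r) ^ i * 2 ^ (T * q') + (4 * r) ^ i * 2 ^ (T * q'))) := by
            apply Nat.add_le_add (Nat.mul_le_mul_left _ h1)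
            apply Nat.mul_le_mul_left
            apply Nat.mul_le_mul_left
            apply Nat.add_le_add h2
            exact Nat.mul_pos hp hq'
        _ = 3 * (r * (4 * r) ^ i * 2 ^ (T * (q' + 1))) := by rw [h3]; ring
        _ ≤ 4 * (r * (4 * r) ^ i * 2 ^ (T * (q' + 1))) := Nat.mul_le_mul_right _ (by norm_num)
        _ = (4 * r) ^ (i + 1) * 2 ^ (T * (q' + 1)) := by ring

/-- **canonical structures exist** -/
theorem canon {f : ℕ → ℕ} {T A r g : ℕ} (hr : 3 ^ g * (A * A) < r) : ∀ i ≤ g,
    ∀ (q : ℕ) (W : Finset ℕ) (pr : ℕ), (∀ z ∈ W, z / 2 ^ (i * T) = pr) → Set.InjOn f W →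
      thr T r i q < W.card → ∃ τ : List (ℕ × Bool), τ.length = q ∧ (∀ c ∈ τ, c.1 < i) ∧
        τ.Pairwise (fun a b => b.1 < a.1) ∧ Can f T A τ W := by
  classical
  have hzero : ∀ (i : ℕ) (W : Finset ℕ), thr T r i 0 < W.card → ∃ τ : List (ℕ × Bool),
      τ.length = 0 ∧ (∀ c ∈ τ, c.1 < i) ∧ τ.Pairwise (fun a b => b.1 < a.1) ∧ Can f T A τ W := by
    intro i W h
    rw [thr_zero] at h
    exact ⟨[], rfl, by simp, List.Pairwise.nil, card_pos.1 h⟩
  intro i
  induction i with
  | zero =>
    intro _ q W pr hW _ hc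
    rcases Nat.eq_zero_or_pos q with h0 | h0
    · subst h0
      exact hzero 0 W hc
    · exfalso
      have h1 : thr T r 0 q = 1 := by simp only [thr]; rw [if_neg (by omega)]
      rw [h1] at hc
      have h2 : W.card ≤ 1 := by
        rw [card_le_one]
        intro a ha b hb
        have h3 := hW a ha
        have h4 := hW b hb
        simp at h3 h4
        rw [h3, h4]
      omega
  | succ i ih =>
    intro hi q W pr hW hf hc
    rcases Nat.eq_zero_or_pos q with h0 | h0
    · subst h0
      exact hzero (i + 1) W hc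
    obtain ⟨q', rfl⟩ : ∃ q', q = q' + 1 := ⟨q - 1, by omega⟩
    set Wa : ℕ → Finset ℕ := fun a => W.filter (fun z => z / 2 ^ (i * T) = a) with hWa
    have hWaW : ∀ a, Wa a ⊆ W := fun a => filter_subset _ _
    have hWaq : ∀ a, ∀ z ∈ Wa a, z / 2 ^ (i * T) = a := fun a z hz => (mem_filter.1 hz).2
    set C := W.image (fun z => z / 2 ^ (i * T)) with hC
    have hCT : ∀ a ∈ C, a / 2 ^ T = pr := by
      intro a ha
      obtain ⟨z, hz, rfl⟩ := mem_image.1 ha
      rw [Nat.div_div_eq_div_mul, ← pow_add, ← hW z hz]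
      congr 2
      ring
    have hCc : C.card ≤ 2 ^ T := by
      have : C ⊆ Ico (pr * 2 ^ T) (pr * 2 ^ T + 2 ^ T) := by
        intro a ha
        have h1 := hCT a ha
        have h2 := Nat.div_add_mod a (2 ^ T)
        have h3 := Nat.mod_lt a (show 0 < 2 ^ T from Nat.two_pow_pos T)
        rw [h1, mul_comm] at h2
        rw [mem_Ico]
        omega
      calc C.card ≤ _ := card_le_card this
        _ = 2 ^ T := by simp
    by_cases hheavy : ∃ a ∈ C, thr T r i (q' + 1) < (Wa a).card
    · obtain ⟨a, _, ha⟩ := hheavy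
      obtain ⟨τ, h1, h2, h3, h4⟩ := ih (by omega) (q' + 1) (Wa a) a (hWaq a)
        (hf.mono (hWaW a)) ha
      exact ⟨τ, h1, fun c hc => (h2 c hc).trans (Nat.lt_succ_self i), h3, can_mono (hWaW a) h4⟩
    push Not at hheavy
    set s' := if q' = 0 then 1 else r * (thr T r i q' + 1) with hs'
    set C' := C.filter (fun a => s' ≤ (Wa a).card) with hC'
    have hr1 : 1 ≤ r := by omega
    have hs1 : 1 ≤ s' := by
      rw [hs']
      split_ifs
      · exact le_rfl
      · exact Nat.mul_pos hr1 (by omega)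
    have hC'c : r ≤ C'.card := by
      by_contra hcon
      push Not at hcon
      have h1 : W.card = ∑ a ∈ C, (Wa a).card :=
        card_eq_sum_card_fiberwise (fun z hz => mem_image_of_mem _ hz)
      have h2 : ∑ a ∈ C, (Wa a).card ≤
          ∑ a ∈ C, ((s' - 1) + if a ∈ C' then thr T r i (q' + 1) else 0) := by
        apply sum_le_sum
        intro a ha
        by_cases h3 : a ∈ C'
        · rw [if_pos h3]
          have := hheavy a ha
          omega
        · rw [if_neg h3]
          have : ¬ s' ≤ (Wa a).card := fun h => h3 (mem_filter.2 ⟨ha, h⟩)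
          omega
      rw [sum_add_distrib, ← sum_filter, sum_const, sum_const, smul_eq_mul, smul_eq_mul] at h2
      have h3 : C.filter (fun a => a ∈ C') = C' := by
        ext a
        rw [mem_filter]
        exact ⟨fun h => h.2, fun h => ⟨(mem_filter.1 h).1, h⟩⟩
      rw [h3] at h2
      have h4 : C'.card * thr T r i (q' + 1) ≤ r * thr T r i (q' + 1) :=
        Nat.mul_le_mul_right _ hcon.le
      have h5 : C.card * (s' - 1) ≤ 2 ^ T * (s' - 1) := Nat.mul_le_mul_right _ hCc
      have h6 : thr T r (i + 1) (q' + 1) = r * thr T r i (q' + 1) +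
          if q' = 0 then 0 else 2 ^ T * (r * (thr T r i q' + 1)) := by
        simp only [thr]
        rw [if_neg (by omega)]
        congr 1
        by_cases h7 : q' = 0
        · rw [if_pos (by omega), if_pos h7]
        · rw [if_neg (by omega), if_neg h7]
          rfl
      have h7 : 2 ^ T * (s' - 1) ≤ if q' = 0 then 0 else 2 ^ T * (r * (thr T r i q' + 1)) := by
        rw [hs']
        split_ifs
        · simp
        · exact Nat.mul_le_mul_left _ (Nat.sub_le _ _)
      rw [h6, h1] at hc
      omega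
    obtain ⟨U0, hU0, hU0c⟩ := exists_subset_card_eq hC'c
    have hU0C : ∀ a ∈ U0, a ∈ C := fun a ha => (mem_filter.1 (hU0 ha)).1
    have hU0s : ∀ a ∈ U0, s' ≤ (Wa a).card := fun a ha => (mem_filter.1 (hU0 ha)).2
    -- separated sets
    have hV : ∃ V : ℕ → Finset ℕ, (∀ u ∈ U0, V u ⊆ Wa u ∧ thr T r i q' < (V u).card) ∧
        ∀ u ∈ U0, ∀ v ∈ U0, u ≠ v →
          (∀ z ∈ V u, ∀ w ∈ V v, f z < f w) ∨ (∀ z ∈ V u, ∀ w ∈ V v, f w < f z) := by
      by_cases h1 : q' = 0
      · have h2 : ∀ u : ℕ, ∃ z : ℕ, u ∈ U0 → z ∈ Wa u := by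
          intro u
          by_cases hu : u ∈ U0
          · have := hU0s u hu
            obtain ⟨z, hz⟩ := card_pos.1 (show 0 < (Wa u).card by omega)
            exact ⟨z, fun _ => hz⟩
          · exact ⟨0, fun h => absurd h hu⟩
        choose pt hpt using h2
        refine ⟨fun u => {pt u}, ?_, ?_⟩
        · intro u hu
          refine ⟨singleton_subset_iff.2 (hpt u hu), ?_⟩
          rw [h1, thr_zero]
          simp
        · intro u hu v hv huv
          have h3 : f (pt u) ≠ f (pt v) := by
            intro h4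
            have h5 := hf (hWaW u (hpt u hu)) (hWaW v (hpt v hv)) h4
            have h6 := hWaq u _ (hpt u hu)
            have h7 := hWaq v _ (hpt v hv)
            rw [h5] at h6
            exact huv (h6.symm.trans h7)
          rcases lt_or_gt_of_ne h3 with h4 | h4
          · left
            intro z hz w hw
            rw [mem_singleton] at hz hw
            rw [hz, hw]; exact h4
          · right
            intro z hz w hw
            rw [mem_singleton] at hz hw
            rw [hz, hw]; exact h4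
      · obtain ⟨V, hV1, hV2⟩ := disj f (m := thr T r i q' + 1) (by omega) r U0 Wa hU0c
          (fun u _ => hf.mono (hWaW u)) (fun u hu => by
            have := hU0s u hu
            rw [hs', if_neg h1] at this
            exact this)
        exact ⟨V, fun u hu => ⟨(hV1 u hu).1, by have := (hV1 u hu).2; omega⟩, hV2⟩
    obtain ⟨V, hV1, hV2⟩ := hV
    have hτ : ∀ a : ℕ, ∃ τ : List (ℕ × Bool), a ∈ U0 → τ.length = q' ∧ (∀ c ∈ τ, c.1 < i) ∧
        τ.Pairwise (fun a b => b.1 < a.1) ∧ Can f T A τ (V a) := by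
      intro a
      by_cases ha : a ∈ U0
      · obtain ⟨τ, h1⟩ := ih (by omega) q' (V a) a (fun z hz => hWaq a z ((hV1 a ha).1 hz))
          (hf.mono (fun z hz => hWaW a ((hV1 a ha).1 hz))) (hV1 a ha).2
        exact ⟨τ, fun _ => h1⟩
      · exact ⟨[], fun h => absurd h ha⟩
    choose τ hτ using hτ
    have hpig : ∃ τ0 ∈ (tyl i).toFinset, A * A < (U0.filter (fun a => τ a = τ0)).card := by
      apply exists_lt_card_fiber_of_mul_lt_card_of_maps_to
      · intro a ha
        obtain ⟨_, h2, h3, _⟩ := hτ a ha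
        rw [List.mem_toFinset]
        exact mem_tyl i _ h2 h3
      · rw [hU0c]
        refine lt_of_le_of_lt ?_ hr
        apply Nat.mul_le_mul_right
        calc (tyl i).toFinset.card ≤ (tyl i).length := List.toFinset_card_le _
          _ = 3 ^ i := tyl_length i
          _ ≤ 3 ^ g := Nat.pow_le_pow_right (by norm_num) (by omega)
    obtain ⟨τ0, _, hU1c⟩ := hpig
    set U1 := U0.filter (fun a => τ a = τ0) with hU1
    have hU1U0 : ∀ a ∈ U1, a ∈ U0 := fun a ha => (mem_filter.1 ha).1
    have hU1τ : ∀ a ∈ U1, τ a = τ0 := fun a ha => (mem_filter.1 ha).2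
    have hrep : ∀ a : ↥U1, ∃ z, z ∈ V a := by
      intro a
      have := (hV1 a (hU1U0 a a.2)).2
      exact card_pos.1 (by omega)
    choose rep hrep using hrep
    have hord : ∀ a b : ↥U1, f (rep a) < f (rep b) → ∀ z ∈ V a, ∀ w ∈ V b, f z < f w := by
      intro a b hab
      have hne : (a : ℕ) ≠ b := by
        intro h
        have : a = b := Subtype.ext h
        rw [this] at hab
        exact lt_irrefl _ hab
      rcases hV2 a (hU1U0 a a.2) b (hU1U0 b b.2) hne with h | h
      · exact h
      · exfalso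
        have := h _ (hrep a) _ (hrep b)
        omega
    have hinj : Function.Injective (fun a : ↥U1 => f (rep a)) := by
      intro a b hab
      by_contra hne
      have hne' : (a : ℕ) ≠ b := fun h => hne (Subtype.ext h)
      simp only at hab
      rcases hV2 a (hU1U0 a a.2) b (hU1U0 b b.2) hne' with h | h
      · have := h _ (hrep a) _ (hrep b); omega
      · have := h _ (hrep a) _ (hrep b); omega
    have hES : ∃ (ε : Bool) (t : Finset ↥U1), A < t.card ∧ ∀ a ∈ t, ∀ b ∈ t, a < b →
        (ε = true → f (rep a) < f (rep b)) ∧ (ε = false → f (rep b) < f (rep a)) := by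
      rcases Pool.Agent.H184R3.ES.erdos_szekeres (r := A) (s := A)
        (by rw [Fintype.card_coe]; exact hU1c) hinj with ⟨t, h1, h2⟩ | ⟨t, h1, h2⟩
      · exact ⟨true, t, h1, fun a ha b hb hab => ⟨fun _ => h2 ha hb hab, by simp⟩⟩
      · exact ⟨false, t, h1, fun a ha b hb hab => ⟨by simp, fun _ => h2 ha hb hab⟩⟩
    obtain ⟨ε, t, ht1, ht2⟩ := hES
    set U := t.map ⟨Subtype.val, Subtype.val_injective⟩ with hU
    have hUt : ∀ a ∈ U, ∃ h : a ∈ U1, ⟨a, h⟩ ∈ t := by
      intro a ha
      rw [hU, mem_map] at ha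
      obtain ⟨x, hx, rfl⟩ := ha
      exact ⟨x.2, hx⟩
    have hUU0 : ∀ a ∈ U, a ∈ U0 := fun a ha => hU1U0 a (hUt a ha).1
    have hne : U.Nonempty := by
      rw [hU, map_nonempty]
      exact card_pos.1 (by omega)
    obtain ⟨a0, ha0⟩ := hne
    obtain ⟨k1, k2, k3, _⟩ := hτ a0 (hUU0 a0 ha0)
    rw [hU1τ a0 (hUt a0 ha0).1] at k1 k2 k3
    refine ⟨(i, ε) :: τ0, by simp [k1], ?_, ?_, ?_⟩
    · intro c hc
      rcases List.mem_cons.1 hc with rfl | h
      · exact Nat.lt_succ_self i
      · exact (k2 c h).trans (Nat.lt_succ_self i)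
    · rw [List.pairwise_cons]
      exact ⟨fun c hc => k2 c hc, k3⟩
    · refine ⟨U, V, by rw [hU, card_map]; exact ht1, ?_, ?_, ?_⟩
      · intro a ha
        obtain ⟨_, _, _, h4⟩ := hτ a (hUU0 a ha)
        rw [hU1τ a (hUt a ha).1] at h4
        have h5 := (hV1 a (hUU0 a ha)).1
        exact ⟨h5.trans (hWaW a), h4, fun z hz => hWaq a z (h5 hz)⟩
      · intro a ha b hb
        rw [hCT a (hU0C a (hUU0 a ha)), hCT b (hU0C b (hUU0 b hb))]
      · intro a ha b hb hab z hz w hw
        obtain ⟨ha1, ha2⟩ := hUt a ha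
        obtain ⟨hb1, hb2⟩ := hUt b hb
        obtain ⟨h1, h2⟩ := ht2 ⟨a, ha1⟩ ha2 ⟨b, hb1⟩ hb2 (Subtype.mk_lt_mk.2 hab)
        refine ⟨fun h => hord ⟨a, ha1⟩ ⟨b, hb1⟩ (h1 h) z hz w hw, fun h =>
          hord ⟨b, hb1⟩ ⟨a, ha1⟩ (h2 h) w hw z hz⟩

end Pool.Agent.H595K.Grp
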