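import Mathlib
import Pool.Agent.H595K.NSet

/-!
# Point sets from sequences of points: two further points far below
-/

namespace Pool.Agent.H595K.Grp

open Finset Vis124 Nst

/-- first coordinates -/
noncomputable def BX (X : ℕ → ℝ) (N : ℕ) (i : ℕ) : ℝ :=
  if i = 0 then X 0 - 1 else if i ≤ N then X (i - 1) else X (N - 1) + 1

/-- second coordinates -/
noncomputable def BY (Y : ℕ → ℝ) (N : ℕ) (D : ℝ) (i : ℕ) : ℝ :=
  if i = 0 then Y 0 - D else if i ≤ N then Y (i - 1) else Y 0 - D

section
variable {X Y : ℕ → ℝ} {N : ℕ} {D m : ℝ}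

theorem BX_zero : BX X N 0 = X 0 - 1 := by simp [BX]
theorem BY_zero : BY Y N D 0 = Y 0 - D := by simp [BY]
theorem BX_last : BX X N (N + 1) = X (N - 1) + 1 := by simp [BX]
theorem BY_last : BY Y N D (N + 1) = Y 0 - D := by simp [BY]
theorem BX_word {i : ℕ} (h0 : 0 < i) (h : i ≤ N) : BX X N i = X (i - 1) := by
  simp [BX, h, h0.ne']
theorem BY_word {i : ℕ} (h0 : 0 < i) (h : i ≤ N) : BY Y N D i = Y (i - 1) := by
  simp [BY, h, h0.ne']

structure Far (X Y : ℕ → ℝ) (N : ℕ) (m D : ℝ) : Prop where
  pos : 1 ≤ N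
  m0 : 0 ≤ m
  mono : ∀ i j, i < j → j < N → X i < X j
  lip : ∀ i j, i < j → j < N → |Y j - Y i| ≤ m * (X j - X i)
  gen : ∀ i j k, i < j → j < k → k < N → dt X Y i j k ≠ 0
  far : 2 * (m + 1) * (X (N - 1) - X 0 + 2) ≤ D

theorem Far.bounds (h : Far X Y N m D) {i : ℕ} (hi : i < N) : X 0 ≤ X i ∧ X i ≤ X (N - 1) := by
  constructor
  · rcases Nat.eq_zero_or_pos i with h0 | h0
    · rw [h0]
    · exact (h.mono 0 i h0 hi).le
  · rcases Nat.lt_or_ge i (N - 1) with h0 | h0
    · exact (h.mono i (N - 1) h0 (by omega)).le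
    · rw [show i = N - 1 by omega]

theorem Far.deep (h : Far X Y N m D) {i : ℕ} (hi : i < N) :
    (m + 1) * (X (N - 1) - X 0 + 2) < Y i - (Y 0 - D) := by
  obtain ⟨h1, h2⟩ := h.bounds hi
  have h3 := h.far
  have h4 := h.m0
  have h5 : -(m * (X i - X 0)) ≤ Y i - Y 0 := by
    rcases Nat.eq_zero_or_pos i with h0 | h0
    · rw [h0]; simp
    · exact (abs_le.1 (h.lip 0 i h0 hi)).1
  have h6 : m * (X i - X 0) ≤ m * (X (N - 1) - X 0) := mul_le_mul_of_nonneg_left (by linarith) h4
  nlinarith

theorem Far.bmono (h : Far X Y N m D) : ∀ i, i < N + 1 → BX X N i < BX X N (i + 1) := by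
  have hN := h.pos
  intro i hi
  rcases Nat.eq_zero_or_pos i with h0 | h0
  · subst h0
    rw [BX_zero, BX_word (by omega) hN]
    simp
  · rcases Nat.lt_or_ge i N with h1 | h1
    · rw [BX_word h0 h1.le, BX_word (by omega) h1]
      exact h.mono _ _ (by omega) (by omega)
    · have h2 : i = N := by omega
      subst h2
      rw [BX_last, BX_word h0 le_rfl]
      linarith

theorem Far.bmono' (h : Far X Y N m D) : ∀ i j, i < j → j < N + 2 → BX X N i < BX X N j := by
  intro i j hij
  induction j, hij using Nat.le_induction with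
  | base => intro hj; exact h.bmono i (by omega)
  | succ j _ ih => intro hj; exact (ih (by omega)).trans (h.bmono j (by omega))

theorem Far.bgen (h : Far X Y N m D) : ∀ i j k, i < j → j < k → k < N + 2 →
    dt (BX X N) (BY Y N D) i j k ≠ 0 := by
  have hN := h.pos
  have hm := h.m0
  intro i j k hij hjk hk
  have hb0 := h.bounds (show 0 < N by omega)
  unfold dt
  rw [BX_word (show 0 < j by omega) (by omega), BY_word (show 0 < j by omega) (by omega)]
  obtain ⟨hj1, hj2⟩ := h.bounds (show j - 1 < N by omega)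
  have hj3 := h.deep (show j - 1 < N by omega)
  set L := X (N - 1) - X 0 + 2 with hL
  have hL2 : 2 ≤ L := by rw [hL]; linarith
  have hmL : 0 < (m + 1) * L := mul_pos (by linarith) (by linarith)
  rcases Nat.eq_zero_or_pos i with hi | hi
  · subst hi
    rw [BX_zero, BY_zero]
    rcases Nat.lt_or_ge k (N + 1) with hk1 | hk1
    · rw [BX_word (by omega) (by omega), BY_word (by omega) (by omega)]
      have h1 := h.mono (j - 1) (k - 1) (by omega) (by omega)
      have h2 := abs_le.1 (h.lip (j - 1) (k - 1) (by omega) (by omega))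
      set a := X (j - 1) with ha
      set b := Y (j - 1) with hb
      obtain ⟨E, hE⟩ : ∃ E, E = X (k - 1) - a := ⟨_, rfl⟩
      obtain ⟨G, hG⟩ : ∃ G, G = Y (k - 1) - b := ⟨_, rfl⟩
      have e : (a - (X 0 - 1)) * (Y (k - 1) - (Y 0 - D)) - (X (k - 1) - (X 0 - 1)) *
          (b - (Y 0 - D)) = (a - X 0 + 1) * G - E * (b - (Y 0 - D)) := by rw [hE, hG]; ring
      rw [e]
      rw [← hE, ← hG] at h2
      have hE0 : 0 < E := by rw [hE]; linarith
      have h5 : (a - X 0 + 1) * G ≤ L * (m * E) := by
        have h6 : (a - X 0 + 1) * G ≤ (a - X 0 + 1) * (m * E) :=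
          mul_le_mul_of_nonneg_left h2.2 (by linarith)
        have h7 : (a - X 0 + 1) * (m * E) ≤ L * (m * E) :=
          mul_le_mul_of_nonneg_right (by rw [hL]; linarith) (mul_nonneg hm hE0.le)
        linarith
      have h6 : E * ((m + 1) * L) < E * (b - (Y 0 - D)) := mul_lt_mul_of_pos_left hj3 hE0
      have h7 : 0 < E * L := mul_pos hE0 (by linarith)
      have : (a - X 0 + 1) * G - E * (b - (Y 0 - D)) < 0 := by nlinarith
      exact this.ne
    · have hk2 : k = N + 1 := by omega
      subst hk2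
      rw [BX_last, BY_last]
      have h8 : 0 < (X (N - 1) + 1 - (X 0 - 1)) * (Y (j - 1) - (Y 0 - D)) := by
        apply mul_pos
        · linarith
        · linarith
      have e : (X (j - 1) - (X 0 - 1)) * (Y 0 - D - (Y 0 - D)) -
          (X (N - 1) + 1 - (X 0 - 1)) * (Y (j - 1) - (Y 0 - D)) =
          -((X (N - 1) + 1 - (X 0 - 1)) * (Y (j - 1) - (Y 0 - D))) := by ring
      rw [e]
      exact (neg_lt_zero.2 h8).ne
  · rw [BX_word hi (by omega), BY_word hi (by omega)]
    obtain ⟨hi1, hi2⟩ := h.bounds (show i - 1 < N by omega)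
    have hi3 := h.deep (show i - 1 < N by omega)
    rcases Nat.lt_or_ge k (N + 1) with hk1 | hk1
    · rw [BX_word (by omega) (by omega), BY_word (by omega) (by omega)]
      exact h.gen (i - 1) (j - 1) (k - 1) (by omega) (by omega) (by omega)
    · have hk2 : k = N + 1 := by omega
      subst hk2
      rw [BX_last, BY_last]
      have h1 := h.mono (i - 1) (j - 1) (by omega) (by omega)
      have h2 := abs_le.1 (h.lip (i - 1) (j - 1) (by omega) (by omega))
      set a := X (i - 1) with ha
      set b := Y (i - 1) with hb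
      obtain ⟨E, hE⟩ : ∃ E, E = X (j - 1) - a := ⟨_, rfl⟩
      obtain ⟨G, hG⟩ : ∃ G, G = Y (j - 1) - b := ⟨_, rfl⟩
      rw [← hE, ← hG] at h2 ⊢
      have hE0 : 0 < E := by rw [hE]; linarith
      rw [← hL] at hi3
      have h5 : -(L * (m * E)) ≤ (X (N - 1) + 1 - a) * G := by
        have h6 : (X (N - 1) + 1 - a) * (-(m * E)) ≤ (X (N - 1) + 1 - a) * G :=
          mul_le_mul_of_nonneg_left h2.1 (by linarith)
        have h7 : (X (N - 1) + 1 - a) * (m * E) ≤ L * (m * E) :=
          mul_le_mul_of_nonneg_right (by rw [hL]; linarith) (mul_nonneg hm hE0.le)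
        linarith
      have h6 : E * ((m + 1) * L) < E * (b - (Y 0 - D)) := mul_lt_mul_of_pos_left hi3 hE0
      have h7 : 0 < E * L := mul_pos hE0 (by linarith)
      have : E * (Y 0 - D - b) - (X (N - 1) + 1 - a) * G < 0 := by nlinarith
      exact this.ne

theorem Far.no_alt (h : Far X Y N m D) {c : ℕ} (hc : 2 ≤ c) (halt : ¬ SAlt X Y N (2 * c + 1) 0)
    (θ β : ℝ) :
    ¬ ∃ g : ℕ → ℕ, (∀ i, i < 2 * c → g i < g (i + 1)) ∧ (∀ i, i ≤ 2 * c → g i ≤ N + 1) ∧
      ∀ i, i ≤ 2 * c → (0 ≤ BY Y N D (g i) - θ * BX X N (g i) - β ↔ i % 2 = 0) := by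
  rintro ⟨g, hg1, hg2, hg3⟩
  have hN := h.pos
  have hm := h.m0
  have hword : ∀ i, 0 < g i → g i ≤ N → i ≤ 2 * c →
      (0 ≤ Y (g i - 1) - θ * X (g i - 1) - β ↔ i % 2 = 0) := by
    intro i h1 h2 h3
    have := hg3 i h3
    rwa [BX_word h1 h2, BY_word h1 h2] at this
  have g01 := hg1 0 (by omega)
  have g12 := hg1 1 (by omega)
  have g23 := hg1 2 (by omega)
  have g34 := hg1 3 (by omega)
  have g4 := hg2 4 (by omega)
  norm_num at g01 g12 g23 g34
  by_cases hbase : (0 ≤ Y 0 - D - θ * (X 0 - 1) - β) ∨ (0 ≤ Y 0 - D - θ * (X (N - 1) + 1) - β)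
  · rcases le_or_gt (|θ|) (m + 1) with hθ | hθ
    · obtain ⟨hθ1, hθ2⟩ := abs_le.1 hθ
      have h1 := hword 1 (by omega) (by omega) (by omega)
      obtain ⟨h2, h3⟩ := h.bounds (show g 1 - 1 < N by omega)
      have h4 := h.deep (show g 1 - 1 < N by omega)
      have h5 : ¬ (0 ≤ Y (g 1 - 1) - θ * X (g 1 - 1) - β) := by
        rw [h1]; omega
      apply h5
      rcases hbase with hb | hb
      · have h6 : θ * (X (g 1 - 1) - (X 0 - 1)) ≤ (m + 1) * (X (g 1 - 1) - (X 0 - 1)) :=
          mul_le_mul_of_nonneg_right hθ2 (by linarith)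
        have h7 : (m + 1) * (X (g 1 - 1) - (X 0 - 1)) ≤ (m + 1) * (X (N - 1) - X 0 + 2) :=
          mul_le_mul_of_nonneg_left (by linarith) (by linarith)
        linarith
      · have h6 : -θ * (X (N - 1) + 1 - X (g 1 - 1)) ≤ (m + 1) * (X (N - 1) + 1 - X (g 1 - 1)) :=
          mul_le_mul_of_nonneg_right (by linarith) (by linarith)
        have h7 : (m + 1) * (X (N - 1) + 1 - X (g 1 - 1)) ≤ (m + 1) * (X (N - 1) - X 0 + 2) :=
          mul_le_mul_of_nonneg_left (by linarith) (by linarith)
        linarith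
    · have h1 := hword 1 (by omega) (by omega) (by omega)
      have h2 := hword 2 (by omega) (by omega) (by omega)
      have h3 := hword 3 (by omega) (by omega) (by omega)
      have k1 := h.mono (g 1 - 1) (g 2 - 1) (by omega) (by omega)
      have k2 := abs_le.1 (h.lip (g 1 - 1) (g 2 - 1) (by omega) (by omega))
      have k3 := h.mono (g 2 - 1) (g 3 - 1) (by omega) (by omega)
      have k4 := abs_le.1 (h.lip (g 2 - 1) (g 3 - 1) (by omega) (by omega))
      have h1' : ¬ (0 ≤ Y (g 1 - 1) - θ * X (g 1 - 1) - β) := by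
        rw [h1]; omega
      have h2' : 0 ≤ Y (g 2 - 1) - θ * X (g 2 - 1) - β := h2.2 rfl
      have h3' : ¬ (0 ≤ Y (g 3 - 1) - θ * X (g 3 - 1) - β) := by
        rw [h3]; omega
      rcases lt_abs.1 hθ with h4 | h4
      · have h5 : m * (X (g 2 - 1) - X (g 1 - 1)) ≤ θ * (X (g 2 - 1) - X (g 1 - 1)) :=
          mul_le_mul_of_nonneg_right (by linarith) (by linarith)
        apply h1'
        linarith [k2.2]
      · have h5 : θ * (X (g 3 - 1) - X (g 2 - 1)) ≤ (-m) * (X (g 3 - 1) - X (g 2 - 1)) :=
          mul_le_mul_of_nonneg_right (by linarith) (by linarith)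
        apply h3'
        linarith [k4.1]
  · push Not at hbase
    obtain ⟨hb0, hb1⟩ := hbase
    have hmono : ∀ i j, i < j → j ≤ 2 * c → g i < g j := by
      intro i j hij
      induction j, hij using Nat.le_induction with
      | base => intro hj; exact hg1 i (by omega)
      | succ j _ ih => intro hj; exact (ih (by omega)).trans (hg1 j (by omega))
    have hpos : ∀ i, i ≤ 2 * c → 0 < g i := by
      intro i hi
      have h0 : 0 < g 0 := by
        by_contra hcc
        have h1 : g 0 = 0 := by omega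
        have h2 := (hg3 0 (by omega)).2 rfl
        rw [h1, BX_zero, BY_zero] at h2
        linarith
      rcases Nat.eq_zero_or_pos i with h1 | h1
      · rw [h1]; exact h0
      · exact h0.trans (hmono 0 i h1 hi)
    have hle : ∀ i, i ≤ 2 * c → g i ≤ N := by
      intro i hi
      have h0 : g (2 * c) ≤ N := by
        by_contra hcc
        have h1 : g (2 * c) = N + 1 := by
          have := hg2 (2 * c) le_rfl
          omega
        have h2 := (hg3 (2 * c) le_rfl).2 (by omega)
        rw [h1, BX_last, BY_last] at h2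
        linarith
      rcases Nat.lt_or_eq_of_le hi with h1 | h1
      · exact (hmono i _ h1 le_rfl).le.trans h0
      · rw [h1]; exact h0
    obtain ⟨ε, he0, he⟩ := exists_shift (2 * c + 1)
      (fun i => -(Y (g i - 1) - θ * X (g i - 1) - β))
    apply halt
    refine ⟨(θ, β - ε), fun i => g i - 1, ?_, ?_, ?_⟩
    · intro i hi
      have := hg1 i (by omega)
      have := hpos i (by omega)
      simp only
      omega
    · intro i hi
      have := hle i (by omega)
      have := hpos i (by omega)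
      simp only
      omega
    · intro i hi
      have h5 := hword i (hpos i (by omega)) (hle i (by omega)) (by omega)
      have e : Nst.ht X Y (θ, β - ε) (g i - 1) =
          Y (g i - 1) - θ * X (g i - 1) - β + ε := by unfold Nst.ht; ring
      simp only
      rw [e, add_zero]
      rcases Nat.mod_two_eq_zero_or_one i with h6 | h6
      · rw [(Nat.even_iff.2 h6).neg_one_pow, one_mul]
        have := h5.2 h6
        linarith
      · rw [(Nat.odd_iff.2 h6).neg_one_pow]
        have h7 : ¬ (0 ≤ Y (g i - 1) - θ * X (g i - 1) - β) := by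
          intro h8; have := h5.1 h8; omega
        push Not at h7
        have := he i hi (by linarith)
        linarith

end

/-- **the point set** -/
theorem base_set {N c s m' : ℕ} {X Y : ℕ → ℝ} {m : ℝ} (hN : 1 ≤ N) (hm : 0 ≤ m)
    (hX : ∀ i j, i < j → j < N → X i < X j)
    (hY : ∀ i j, i < j → j < N → |Y j - Y i| ≤ m * (X j - X i))
    (hgen : ∀ i j k, i < j → j < k → k < N → dt X Y i j k ≠ 0) (hc : 2 ≤ c)
    (halt : ¬ SAlt X Y N (2 * c + 1) 0) (hm' : 1 ≤ m')
    (hrich : ∃ LL : Finset (ℝ × ℝ), ∀ W ⊆ range N, s < W.card → ∀ f : ℕ → ℕ, Set.InjOn f W →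
      ∃ l ∈ LL, (∀ i < N, Nst.ht X Y l i ≠ 0) ∧ ∃ (r : ℕ) (z : ℕ → ℕ),
        (∀ t, t < 2 * m' → z t ∈ W) ∧ (∀ t, t + 1 < 2 * m' → f (z t) < f (z (t + 1))) ∧
        ∀ t, t < 2 * m' → 0 < (-1 : ℝ) ^ (t + r) * Nst.ht X Y l (z t)) :
    ∃ P : Finset (ℝ × ℝ), P.card = N + 2 ∧ KConvexSet c P ∧
      ∀ j < m', ∀ Q ⊆ P, KConvexSet j Q → Q.card ≤ s + 2 := by
  classical
  obtain ⟨LL, hLL⟩ := hrich
  set F0 : ℝ := ∑ l ∈ LL, (|Y 0 - l.1 * (X 0 - 1) - l.2| + |Y 0 - l.1 * (X (N - 1) + 1) - l.2|)
    with hF0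
  have hF1 : ∀ l ∈ LL, |Y 0 - l.1 * (X 0 - 1) - l.2| + |Y 0 - l.1 * (X (N - 1) + 1) - l.2| ≤ F0 :=
    fun l hl => single_le_sum
      (f := fun l => |Y 0 - l.1 * (X 0 - 1) - l.2| + |Y 0 - l.1 * (X (N - 1) + 1) - l.2|)
      (fun l _ => add_nonneg (abs_nonneg _) (abs_nonneg _)) hl
  have hF00 : 0 ≤ F0 := sum_nonneg (fun l _ => add_nonneg (abs_nonneg _) (abs_nonneg _))
  set D : ℝ := 2 * (m + 1) * (X (N - 1) - X 0 + 2) + F0 + 1 with hD
  have h : Far X Y N m D := ⟨hN, hm, hX, hY, hgen, by rw [hD]; linarith⟩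
  have hb := h.bounds (show 0 < N by omega)
  have hD1 : F0 < D := by
    rw [hD]
    have : 0 < 2 * (m + 1) * (X (N - 1) - X 0 + 2) := by
      apply mul_pos
      · linarith
      · linarith
    linarith
  have hl0 : ∀ l ∈ LL, Y 0 - D - l.1 * (X 0 - 1) - l.2 < 0 := by
    intro l hl
    have h1 := hF1 l hl
    have h2 := le_abs_self (Y 0 - l.1 * (X 0 - 1) - l.2)
    have h3 := abs_nonneg (Y 0 - l.1 * (X (N - 1) + 1) - l.2)
    linarith
  have hl1 : ∀ l ∈ LL, Y 0 - D - l.1 * (X (N - 1) + 1) - l.2 < 0 := by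
    intro l hl
    have h1 := hF1 l hl
    have h2 := abs_nonneg (Y 0 - l.1 * (X 0 - 1) - l.2)
    have h3 := le_abs_self (Y 0 - l.1 * (X (N - 1) + 1) - l.2)
    linarith
  obtain ⟨S, hS1, hS2⟩ := poly_of_seq (X := BX X N) (Y := BY Y N D) (K := N + 1) (k := c)
    (by omega) h.bmono (by
      intro i h0 hi
      rw [BY_last, BY_zero, BX_last, BX_zero, BY_word h0 (by omega)]
      have h1 := h.deep (show i - 1 < N by omega)
      have h2 : 0 < (m + 1) * (X (N - 1) - X 0 + 2) := mul_pos (by linarith) (by linarith)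
      have h3 : 0 < (Y (i - 1) - (Y 0 - D)) * (X (N - 1) + 1 - (X 0 - 1)) :=
        mul_pos (by linarith) (by linarith)
      have e : (Y 0 - D - (Y 0 - D)) * (BX X N i - (X 0 - 1)) = 0 := by ring
      rw [e]
      exact h3) (by omega) (fun θ β => h.no_alt hc halt θ β)
  refine ⟨(range (N + 2)).image (fun i => (BX X N i, BY Y N D i)), ?_, ?_, ?_⟩
  · rw [card_image_of_injOn, card_range]
    intro i hi j hj hij
    have hi' : i < N + 2 := by simpa using hi
    have hj' : j < N + 2 := by simpa using hj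
    have h1 : BX X N i = BX X N j := congrArg Prod.fst hij
    rcases lt_trichotomy i j with h2 | h2 | h2
    · exact absurd h1 (h.bmono' i j h2 hj').ne
    · exact h2
    · exact absurd h1 (h.bmono' j i h2 hi').ne'
  · apply kConvex_of (genPos_of (idx := fun i => i) (fun i j hij _ => hij) (fun i hi => hi)
      h.bgen) hS1 _ hS2
    ext p
    simp only [Set.mem_range, coe_image, coe_range, Set.mem_image, Set.mem_Iio, pv]
    constructor
    · rintro ⟨i, rfl⟩
      exact ⟨i, by omega, rfl⟩
    · rintro ⟨i, hi, rfl⟩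
      exact ⟨⟨i, by omega⟩, rfl⟩
  · intro j hj Q hQ hQj
    refine card_le_of_rich (N := N + 2) (X := BX X N) (Y := BY Y N D) (LL := LL) h.bmono' hm' ?_
      hj (fun q hq => ?_) hQj
    · intro W hW hWc f hf
      set W' := (range N).filter (fun i => i + 1 ∈ W) with hW'
      have hcard : W.card ≤ W'.card + 2 := by
        have h1 : W ⊆ (W'.image (fun i => i + 1) ∪ {0}) ∪ {N + 1} := by
          intro w hw
          have h2 := mem_range.1 (hW hw)
          rw [mem_union, mem_union, mem_singleton, mem_singleton, mem_image]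
          by_cases h3 : w = 0
          · exact Or.inl (Or.inr h3)
          · by_cases h4 : w = N + 1
            · exact Or.inr h4
            · left; left
              refine ⟨w - 1, mem_filter.2 ⟨mem_range.2 (by omega), ?_⟩, by omega⟩
              rw [show w - 1 + 1 = w by omega]
              exact hw
        have h2 := card_le_card h1
        have h3 := card_union_le (W'.image (fun i => i + 1) ∪ {0}) {N + 1}
        have h4 := card_union_le (W'.image (fun i => i + 1)) {0}
        have h5 : (W'.image (fun i => i + 1)).card ≤ W'.card := card_image_le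
        simp only [card_singleton] at h3 h4
        omega
      obtain ⟨l, hl, h1, r, z, h2, h3, h4⟩ := hLL W' (filter_subset _ _) (by omega)
        (fun i => f (i + 1)) (by
          intro a ha b hb hab
          have ha' := (mem_filter.1 ha).2
          have hb' := (mem_filter.1 hb).2
          have := hf ha' hb' hab
          omega)
      have hz : ∀ t, t < 2 * m' → z t < N := fun t ht' =>
        mem_range.1 (mem_filter.1 (h2 t ht')).1
      have hbw : ∀ i < N, Nst.ht (BX X N) (BY Y N D) l (i + 1) = Nst.ht X Y l i := by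
        intro i hi
        unfold Nst.ht
        rw [BX_word (by omega) (by omega), BY_word (by omega) (by omega)]
        rfl
      refine ⟨l, hl, ?_, r, fun t => z t + 1, ?_, ?_, ?_⟩
      · intro i hi
        rcases Nat.eq_zero_or_pos i with h0 | h0
        · subst h0
          unfold Nst.ht
          rw [BX_zero, BY_zero]
          exact (hl0 l hl).ne
        · rcases Nat.lt_or_ge i (N + 1) with h5 | h5
          · have := hbw (i - 1) (by omega)
            rw [show i - 1 + 1 = i by omega] at this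
            rw [this]
            exact h1 (i - 1) (by omega)
          · rw [show i = N + 1 by omega]
            unfold Nst.ht
            rw [BX_last, BY_last]
            exact (hl1 l hl).ne
      · intro t ht'
        exact (mem_filter.1 (h2 t ht')).2
      · intro t ht'
        exact h3 t ht'
      · intro t ht'
        simp only
        rw [hbw _ (hz t ht')]
        exact h4 t ht'
    · obtain ⟨i, hi, rfl⟩ := mem_image.1 (hQ hq)
      exact ⟨i, mem_range.1 hi, rfl⟩

end Pool.Agent.H595K.Grp
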