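import Mathlib
import Pool.Agent.H595K.QCanon

/-!
# Alternating words in canonical structures
-/

namespace Pool.Agent.H595K.Grp

open Finset Nst

theorem top_lift {l a b z w i T : ℕ} (h : Top l a b) (hz : z / 2 ^ (i * T) = a)
    (hw : w / 2 ^ (i * T) = b) : Top (i * T + l) z w := by
  obtain ⟨h1, h2, h3⟩ := h
  have e : i * T + l + 1 = i * T + (l + 1) := by ring
  refine ⟨?_, ?_, ?_⟩
  · rw [e, pow_add, ← Nat.div_div_eq_div_mul, ← Nat.div_div_eq_div_mul, hz, hw, h1]
  · rw [← hz, Nat.testBit_div_two_pow] at h2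
    rwa [add_comm] at h2
  · rw [← hw, Nat.testBit_div_two_pow] at h3
    rwa [add_comm] at h3

theorem exists_top' {T a b : ℕ} (h : a < b) (hT : a / 2 ^ T = b / 2 ^ T) :
    ∃ l < T, Top l a b := by
  obtain ⟨l, hl, h1⟩ := exists_top h (show b < 2 ^ (b + 1) from
    Nat.lt_trans (Nat.lt_succ_self b) Nat.lt_two_pow_self)
  refine ⟨l, ?_, h1⟩
  by_contra hc
  have h2 := h1.div
  obtain ⟨d, rfl⟩ : ∃ d, l = T + d := ⟨l - T, by omega⟩
  rw [pow_add, ← Nat.div_div_eq_div_mul, ← Nat.div_div_eq_div_mul, hT] at h2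
  omega

theorem rel_lift {x : ℕ → ℤ} {u a b z w i T : ℕ} {s : Bool}
    (h : Rel (fun l => x (i * T + l)) u a b s) (hz : z / 2 ^ (i * T) = a)
    (hw : w / 2 ^ (i * T) = b) : Rel x (i * T + u) z w s := by
  obtain ⟨l, h1, h2⟩ := h
  refine ⟨i * T + l, by omega, ?_⟩
  rcases h2 with ⟨h2, h3⟩ | ⟨h2, h3⟩
  · exact Or.inl ⟨top_lift h2 hw hz, h3⟩
  · exact Or.inr ⟨top_lift h2 hz hw, h3⟩

theorem can_nonempty {f : ℕ → ℕ} {T A : ℕ} : ∀ {τ : List (ℕ × Bool)} {W : Finset ℕ},
    Can f T A τ W → W.Nonempty := by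
  intro τ
  induction τ with
  | nil => intro W h; exact h
  | cons c τ ih =>
    rintro W ⟨U, V, h1, h2, _, _⟩
    obtain ⟨a, ha⟩ := card_pos.1 (show 0 < U.card by omega)
    exact (ih (h2 a ha).2.1).mono (h2 a ha).1

theorem three_of_card {U : Finset ℕ} (h : 2 < U.card) :
    ∃ a ∈ U, ∃ b ∈ U, ∃ c ∈ U, a < b ∧ b < c := by
  classical
  have hne : U.Nonempty := card_pos.1 (by omega)
  have h2 : (U.erase (U.min' hne)).card = U.card - 1 := card_erase_of_mem (min'_mem _ _)
  have hne2 : (U.erase (U.min' hne)).Nonempty := card_pos.1 (by omega)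
  set b := (U.erase (U.min' hne)).min' hne2 with hb
  have hbm := min'_mem _ hne2
  rw [← hb] at hbm
  have h3 : ((U.erase (U.min' hne)).erase b).card = U.card - 2 := by
    rw [card_erase_of_mem hbm, h2]; omega
  obtain ⟨c, hc⟩ := card_pos.1 (show 0 < ((U.erase (U.min' hne)).erase b).card by omega)
  have hc1 := mem_of_mem_erase hc
  refine ⟨U.min' hne, min'_mem _ _, b, mem_of_mem_erase hbm, c, mem_of_mem_erase hc1, ?_, ?_⟩
  · exact lt_of_le_of_ne (min'_le _ _ (mem_of_mem_erase hbm)) (ne_of_mem_erase hbm).symm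
  · exact lt_of_le_of_ne (min'_le _ _ hc1) (ne_of_mem_erase hc).symm

/-- the two-sided wrapping by the groups of `τ` -/
theorem wrap {f : ℕ → ℕ} {T A g G : ℕ} (hA : 2 ≤ A) {x : ℕ → ℤ} {rk : ℕ → ℕ}
    (hx : ∀ u l, u < g * T → l < g * T → u / T = G → l / T ≠ G →
      (x u < x l ↔ rk G < rk (l / T))) :
    ∀ (τ ρ : List (ℕ × Bool)) (W : Finset ℕ), (∀ c ∈ τ, c.1 < g ∧ c.1 ≠ G) →
      Can f T A (τ ++ ρ) W → ∃ (P Q : List ℕ) (Q' : Finset ℕ), Q' ⊆ W ∧ Can f T A ρ Q' ∧
        (∀ z ∈ P, z ∈ W) ∧ (∀ z ∈ Q, z ∈ W) ∧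
        P.Pairwise (fun a b => f a < f b) ∧ Q.Pairwise (fun a b => f a < f b) ∧
        (∀ z ∈ P, ∀ w ∈ Q', f z < f w) ∧ (∀ z ∈ Q, ∀ w ∈ Q', f w < f z) ∧
        (∀ u, u < g * T → u / T = G → ∀ w ∈ Q',
          List.Forall₂ (Rel x u w) P (τ.map (fun a => !lt' rk G a))) ∧
        (∀ u, u < g * T → u / T = G → ∀ w ∈ Q',
          List.Forall₂ (Rel x u w) Q ((τ.map (lt' rk G)).reverse)) := by
  intro τ
  induction τ with
  | nil =>
    intro ρ W _ h
    exact ⟨[], [], W, Finset.Subset.refl _, h, by simp, by simp, List.Pairwise.nil,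
      List.Pairwise.nil, by simp, by simp, fun u _ _ w _ => by simp, fun u _ _ w _ => by simp⟩
  | cons c τ ih =>
    intro ρ W hτ h
    obtain ⟨U, V, h1, h2, h3, h4⟩ := h
    obtain ⟨a1, ha1, a2, ha2, a3, ha3, h12, h23⟩ := three_of_card (show 2 < U.card by omega)
    obtain ⟨b1, b2, b3⟩ := h2 a1 ha1
    obtain ⟨c1, c2, c3⟩ := h2 a2 ha2
    obtain ⟨d1, d2, d3⟩ := h2 a3 ha3
    obtain ⟨P, Q, Q', q1, q2, q3, q4, q5, q6, q7, q8, q9, q10⟩ :=
      ih ρ (V a2) (fun c' hc' => hτ c' (List.mem_cons_of_mem _ hc')) c2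
    obtain ⟨z1, hz1⟩ := can_nonempty b2
    obtain ⟨z3, hz3⟩ := can_nonempty d2
    obtain ⟨hcg, hcG⟩ := hτ c (List.mem_cons_self)
    obtain ⟨l1, hl1, ht1⟩ := exists_top' h12 (h3 a1 ha1 a2 ha2)
    obtain ⟨l3, hl3, ht3⟩ := exists_top' h23 (h3 a2 ha2 a3 ha3)
    have hlev : ∀ l < T, c.1 * T + l < g * T ∧ (c.1 * T + l) / T = c.1 := by
      intro l hl
      constructor
      · have : (c.1 + 1) * T ≤ g * T := Nat.mul_le_mul_right _ hcg
        have e : (c.1 + 1) * T = c.1 * T + T := by ring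
        omega
      · rw [mul_comm, Nat.mul_add_div (by omega), Nat.div_eq_of_lt hl, add_zero]
    have hxl : ∀ u, u < g * T → u / T = G → ∀ l < T,
        (x u < x (c.1 * T + l) ↔ rk G < rk c.1) := by
      intro u hug hu l hl
      obtain ⟨k1, k2⟩ := hlev l hl
      have := hx u _ hug k1 hu (by rw [k2]; exact hcG)
      rwa [k2] at this
    have hne : ∀ u, u / T = G → ∀ l < T, c.1 * T + l ≠ u := by
      intro u hu l hl h
      have := (hlev l hl).2
      rw [h, hu] at this
      exact hcG this.symm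
    have r1 : ∀ u, u < g * T → u / T = G → ∀ w ∈ Q',
        Rel x u w z1 (!decide (rk G < rk c.1)) := by
      intro u hug hu w hw
      refine ⟨c.1 * T + l1, hne u hu l1 hl1, Or.inl ⟨top_lift ht1 (b3 z1 hz1) (c3 w (q1 hw)), ?_⟩⟩
      rw [Bool.not_not]
      exact decide_eq_decide.2 (hxl u hug hu l1 hl1)
    have r3 : ∀ u, u < g * T → u / T = G → ∀ w ∈ Q',
        Rel x u w z3 (decide (rk G < rk c.1)) := by
      intro u hug hu w hw
      refine ⟨c.1 * T + l3, hne u hu l3 hl3, Or.inr ⟨top_lift ht3 (c3 w (q1 hw)) (d3 z3 hz3), ?_⟩⟩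
      exact decide_eq_decide.2 (hxl u hug hu l3 hl3)
    have hs12 := h4 a1 ha1 a2 ha2 h12
    have hs23 := h4 a2 ha2 a3 ha3 h23
    obtain ⟨w0, hw0⟩ := can_nonempty q2
    by_cases hε : c.2 = true
    · have hlt : lt' rk G c = decide (rk G < rk c.1) := by unfold lt'; rw [if_pos hε]
      refine ⟨z1 :: P, Q ++ [z3], Q', q1.trans c1, q2, ?_, ?_, ?_, ?_, ?_, ?_, ?_, ?_⟩
      · intro z hz
        rcases List.mem_cons.1 hz with rfl | hz
        · exact b1 hz1
        · exact c1 (q3 z hz)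
      · intro z hz
        rcases List.mem_append.1 hz with hz | hz
        · exact c1 (q4 z hz)
        · rw [List.mem_singleton] at hz
          rw [hz]; exact d1 hz3
      · rw [List.pairwise_cons]
        exact ⟨fun z hz => (hs12 z1 hz1 z (q3 z hz)).1 hε, q5⟩
      · rw [List.pairwise_append]
        refine ⟨q6, List.pairwise_singleton _ _, ?_⟩
        intro z hz w hw
        rw [List.mem_singleton] at hw
        rw [hw]
        exact (hs23 z (q4 z hz) z3 hz3).1 hε
      · intro z hz w hw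
        rcases List.mem_cons.1 hz with rfl | hz
        · exact (hs12 z hz1 w (q1 hw)).1 hε
        · exact q7 z hz w hw
      · intro z hz w hw
        rcases List.mem_append.1 hz with hz | hz
        · exact q8 z hz w hw
        · rw [List.mem_singleton] at hz
          rw [hz]
          exact (hs23 w (q1 hw) z3 hz3).1 hε
      · intro u hug hu w hw
        rw [List.map_cons, hlt]
        exact List.Forall₂.cons (r1 u hug hu w hw) (q9 u hug hu w hw)
      · intro u hug hu w hw
        rw [List.map_cons, List.reverse_cons, hlt]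
        exact List.rel_append (q10 u hug hu w hw)
          (List.Forall₂.cons (r3 u hug hu w hw) List.Forall₂.nil)
    · have hε' : c.2 = false := by simpa using hε
      have hlt : lt' rk G c = !decide (rk G < rk c.1) := by unfold lt'; rw [if_neg hε]
      refine ⟨z3 :: P, Q ++ [z1], Q', q1.trans c1, q2, ?_, ?_, ?_, ?_, ?_, ?_, ?_, ?_⟩
      · intro z hz
        rcases List.mem_cons.1 hz with rfl | hz
        · exact d1 hz3
        · exact c1 (q3 z hz)
      · intro z hz
        rcases List.mem_append.1 hz with hz | hz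
        · exact c1 (q4 z hz)
        · rw [List.mem_singleton] at hz
          rw [hz]; exact b1 hz1
      · rw [List.pairwise_cons]
        exact ⟨fun z hz => (hs23 z (q3 z hz) z3 hz3).2 hε', q5⟩
      · rw [List.pairwise_append]
        refine ⟨q6, List.pairwise_singleton _ _, ?_⟩
        intro z hz w hw
        rw [List.mem_singleton] at hw
        rw [hw]
        exact (hs12 z1 hz1 z (q4 z hz)).2 hε'
      · intro z hz w hw
        rcases List.mem_cons.1 hz with rfl | hz
        · exact (hs23 w (q1 hw) z hz3).2 hε'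
        · exact q7 z hz w hw
      · intro z hz w hw
        rcases List.mem_append.1 hz with hz | hz
        · exact q8 z hz w hw
        · rw [List.mem_singleton] at hz
          rw [hz]
          exact (hs12 z1 hz1 w (q1 hw)).2 hε'
      · intro u hug hu w hw
        rw [List.map_cons, hlt, Bool.not_not]
        exact List.Forall₂.cons (r3 u hug hu w hw) (q9 u hug hu w hw)
      · intro u hug hu w hw
        rw [List.map_cons, List.reverse_cons, hlt]
        exact List.rel_append (q10 u hug hu w hw)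
          (List.Forall₂.cons (r1 u hug hu w hw) List.Forall₂.nil)

theorem exists_emb' {t s pr : ℕ} {Q : Finset ℕ} (hQ : ∀ w ∈ Q, w / 2 ^ t = pr)
    (hc : (t + 1) ^ s < Q.card) :
    ∃ I : Finset ℕ, I ⊆ range t ∧ s < I.card ∧ Emb (I.sort (· ≥ ·)) Q := by
  by_contra hcon
  push Not at hcon
  have h1 := card_le_Sh t pr Q hQ
  have h2 : Sh t Q ⊆ (range (s + 1)).biUnion (fun i => powersetCard i (range t)) := by
    intro I hI
    rw [mem_Sh] at hI
    rw [mem_biUnion]
    refine ⟨I.card, ?_, ?_⟩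
    · rw [mem_range]
      by_contra hlt
      exact hcon I hI.1 (by omega) hI.2
    · rw [mem_powersetCard]
      exact ⟨hI.1, rfl⟩
  have h3 : (Sh t Q).card ≤ ∑ i ∈ range (s + 1), t.choose i := by
    calc (Sh t Q).card ≤ _ := Finset.card_le_card h2
      _ ≤ ∑ i ∈ range (s + 1), (powersetCard i (range t)).card := card_biUnion_le
      _ = _ := by simp
  have h4 := sum_choose_le t s
  omega

/-- the lower part, with the place of the base point -/
theorem lower_part' (x : ℕ → ℤ) (I : Finset ℕ) (u : ℕ) : ∀ (c : ℕ) (π : Bool) (a b : ℕ), b ≤ u →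
    Ch x I u c π a b → ∃ Dl : List ℕ, Dl.Pairwise (· > ·) ∧ (∀ l ∈ Dl, l ∈ I ∧ l < b) ∧
      ∀ (Q : Finset ℕ), Emb Dl Q →
        ∃ p ∈ Q, ∃ N1 N2 : List ℕ, (∀ z ∈ N1, z ∈ Q) ∧ (∀ z ∈ N2, z ∈ Q) ∧
          N1.Pairwise (· < ·) ∧ N2.Pairwise (· < ·) ∧ (∀ z ∈ N1, z < p) ∧ (∀ z ∈ N2, p < z) ∧
          List.Forall₂ (Rel x u p) N1 (alt c π) ∧
          List.Forall₂ (Rel x u p) N2 (alt c (!π)).reverse := by
  intro c
  induction c with
  | zero =>
    intro π a b _ _
    refine ⟨[], List.Pairwise.nil, by simp, ?_⟩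
    intro Q h
    obtain ⟨p, hp⟩ := h
    exact ⟨p, hp, [], [], by simp, by simp, List.Pairwise.nil, List.Pairwise.nil, by simp,
      by simp, by simp [alt], by simp [alt]⟩
  | succ c ih =>
    intro π a b hub h
    obtain ⟨g1, hg1, g2, hg2, d1, hd1, d2, hd2, h1, h2, h3, h4, s1, s2, s3, s4, hr⟩ := h
    obtain ⟨Dl, hU1, hU2, hU3⟩ := ih (!π) g2 d2 (by omega) hr
    refine ⟨d1 :: d2 :: Dl, ?_, ?_, ?_⟩
    · rw [List.pairwise_cons, List.pairwise_cons]
      refine ⟨?_, ?_, hU1⟩
      · intro l hl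
        simp only [List.mem_cons] at hl
        rcases hl with rfl | hl
        · exact h4
        · have := (hU2 l hl).2
          omega
      · intro l hl
        exact (hU2 l hl).2
    · intro l hl
      simp only [List.mem_cons] at hl
      rcases hl with rfl | rfl | hl
      · exact ⟨hd1, h3⟩
      · exact ⟨hd2, by omega⟩
      · exact ⟨(hU2 l hl).1, by have := (hU2 l hl).2; omega⟩
    · intro Q hE
      obtain ⟨a', ha', b', hb', Q', hQ', hE', hw⟩ := peel hE
      obtain ⟨p, hp, N1, N2, hN1, hN2, pN1, pN2, lN1, lN2, fN1, fN2⟩ := hU3 Q' hE'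
      refine ⟨p, hQ' hp, a' :: N1, N2 ++ [b'], ?_, ?_, ?_, ?_, ?_, ?_, ?_, ?_⟩
      · intro z hz
        rcases List.mem_cons.1 hz with rfl | hz
        · exact ha'
        · exact hQ' (hN1 z hz)
      · intro z hz
        rcases List.mem_append.1 hz with hz | hz
        · exact hQ' (hN2 z hz)
        · rw [List.mem_singleton] at hz
          rw [hz]; exact hb'
      · rw [List.pairwise_cons]
        exact ⟨fun z hz => (hw z (hN1 z hz)).1.lt, pN1⟩
      · rw [List.pairwise_append]
        refine ⟨pN2, List.pairwise_singleton _ _, ?_⟩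
        intro z hz w hw'
        rw [List.mem_singleton] at hw'
        rw [hw']
        exact (hw z (hN2 z hz)).2.lt
      · intro z hz
        rcases List.mem_cons.1 hz with rfl | hz
        · exact (hw p hp).1.lt
        · exact lN1 z hz
      · intro z hz
        rcases List.mem_append.1 hz with hz | hz
        · exact lN2 z hz
        · rw [List.mem_singleton] at hz
          rw [hz]; exact (hw p hp).2.lt
      · simp only [alt]
        exact List.Forall₂.cons ⟨d1, by omega, Or.inl ⟨(hw p hp).1, s3⟩⟩ fN1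
      · simp only [alt, List.reverse_cons]
        apply List.rel_append fN2
        exact List.Forall₂.cons ⟨d2, by omega, Or.inr ⟨(hw p hp).2, s4⟩⟩ List.Forall₂.nil

theorem ch_congr {x x' : ℕ → ℤ} {I : Finset ℕ} {u : ℕ} (b0 : Bool)
    (hx : ∀ l ∈ I, l ≠ u → decide (x' u < x' l) =
      if b0 then decide (x u < x l) else !decide (x u < x l)) :
    ∀ (c : ℕ) (π : Bool) (a b : ℕ), u ≤ a → b ≤ u → Ch x I u c π a b →
      Ch x' I u c (if b0 then π else !π) a b := by
  intro c
  induction c with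
  | zero => intro π a b _ _ _; trivial
  | succ c ih =>
    intro π a b hua hub h
    obtain ⟨g1, hg1, g2, hg2, d1, hd1, d2, hd2, h1, h2, h3, h4, s1, s2, s3, s4, hr⟩ := h
    have h5 := ih (!π) g2 d2 (by omega) (by omega) hr
    refine ⟨g1, hg1, g2, hg2, d1, hd1, d2, hd2, h1, h2, h3, h4, ?_, ?_, ?_, ?_, ?_⟩
    · rw [hx g1 hg1 (by omega), s1]
    · rw [hx g2 hg2 (by omega), s2]
    · rw [hx d1 hd1 (by omega), s3]; cases b0 <;> simp
    · rw [hx d2 hd2 (by omega), s4]; cases b0 <;> simp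
    · have e : (!(if b0 then π else !π)) = if b0 then !π else !(!π) := by cases b0 <;> simp
      rw [e]
      exact h5

theorem flat_sorted {f : ℕ → ℕ} {V : ℕ → Finset ℕ} {U : Finset ℕ} {ε : Bool}
    (hsep : ∀ a ∈ U, ∀ b ∈ U, a < b → ∀ z ∈ V a, ∀ w ∈ V b,
      (ε = true → f z < f w) ∧ (ε = false → f w < f z))
    {K : List (ℕ × List ℕ)} (hK : K.Pairwise (fun a b => a.1 < b.1))
    (hKU : ∀ k ∈ K, k.1 ∈ U ∧ (∀ z ∈ k.2, z ∈ V k.1) ∧ k.2.Pairwise (fun a b => f a < f b)) :
    ((if ε then K else K.reverse).flatMap Prod.snd).Pairwise (fun a b => f a < f b) := by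
  rw [List.pairwise_flatMap]
  constructor
  · intro k hk
    have : k ∈ K := by
      split_ifs at hk
      · exact hk
      · exact List.mem_reverse.1 hk
    exact (hKU k this).2.2
  · cases ε
    · simp only [Bool.false_eq_true, if_false]
      rw [List.pairwise_reverse]
      refine List.Pairwise.imp_of_mem ?_ hK
      intro a b ha hb hab z hz w hw
      exact (hsep a.1 (hKU a ha).1 b.1 (hKU b hb).1 hab w ((hKU a ha).2.1 w hw) z
        ((hKU b hb).2.1 z hz)).2 rfl
    · simp only [if_true]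
      refine List.Pairwise.imp_of_mem ?_ hK
      intro a b ha hb hab z hz w hw
      exact (hsep a.1 (hKU a ha).1 b.1 (hKU b hb).1 hab z ((hKU a ha).2.1 z hz) w
        ((hKU b hb).2.1 w hw)).1 rfl

theorem f2_flat {R : ℕ → Bool → Prop} {K : List (ℕ × List ℕ)} {L : List (List Bool)}
    (h : List.Forall₂ (fun k ls => List.Forall₂ R k.2 ls) K L) :
    List.Forall₂ R (K.flatMap Prod.snd) L.flatten := by
  induction h with
  | nil => simp
  | cons h1 _ ih =>
    rw [List.flatMap_cons, List.flatten_cons]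
    exact List.rel_append h1 ih

theorem flatten_sing (l : List Bool) : (l.map (fun s => [s])).flatten = l := by
  induction l with
  | nil => rfl
  | cons a l ih => simp [ih]

end Pool.Agent.H595K.Grp
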