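import Mathlib
import Pool.Agent.H595K.QPat

/-!
# Alternating words in canonical structures: the line
-/

namespace Pool.Agent.H595K.Grp

open Finset Nst

theorem alt_two (h : ℕ) (π : Bool) : (alt h (!π)).reverse ++ alt h π = alt (2 * h) (fl h π) := by
  rw [alt_reverse, Bool.not_not, two_mul, alt_add, fl_fl]

theorem alt_two_rev (h : ℕ) (y : Bool) : (alt (2 * h) y).reverse = alt (2 * h) (!y) := by
  rw [alt_reverse, fl_eq, if_pos (by omega)]

theorem f2_sing {R : ℕ → Bool → Prop} {rep : ℕ → ℕ} {N : List ℕ} {l : List Bool}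
    (h : List.Forall₂ (fun a s => R (rep a) s) N l) :
    List.Forall₂ (fun (k : ℕ × List ℕ) ls => List.Forall₂ R k.2 ls)
      (N.map (fun a => (a, [rep a]))) (l.map (fun s => [s])) := by
  rw [List.forall₂_map_left_iff, List.forall₂_map_right_iff]
  refine h.imp ?_
  intro a s h
  exact List.Forall₂.cons h List.Forall₂.nil

theorem pattern {S : GSys} {M h T A : ℕ} (hM : 2 ≤ M) (hh : 1 ≤ h) (hT : 0 < T)
    (hTM : T ≤ M ^ h) (hA2 : 2 ≤ A) (hA : (T + 1) ^ (5 ^ h * M ^ (h - 1)) ≤ A) {f : ℕ → ℕ}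
    {τ tu tl : List (ℕ × Bool)} {c : ℕ × Bool} (hτ : τ = tu ++ c :: tl)
    (hg : ∀ c' ∈ τ, c'.1 < S.g) (hp : τ.Pairwise (fun a b => b.1 < a.1)) {W : Finset ℕ}
    (hW : Can f T A τ W) :
    ∃ u < S.g * T, ∃ p ∈ W, ∃ q ∈ W, Top u p q ∧ ∃ zs : List ℕ, (∀ z ∈ zs, z ∈ W) ∧
      zs.Pairwise (fun a b => f a < f b) ∧
      List.Forall₂ (fun z s => Rel (gx S M h T) u p z s ∨ Rel (gx S M h T) u q z s) zs
        (wrd S.rk S.y (2 * h) tu c tl) := by
  classical
  subst hτ
  obtain ⟨G, ε⟩ := c
  rw [List.pairwise_append, List.pairwise_cons] at hp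
  obtain ⟨_, ⟨hp1, _⟩, hp2⟩ := hp
  have hG : G < S.g := hg (G, ε) (by simp)
  have htu : ∀ c ∈ tu, c.1 < S.g ∧ c.1 ≠ G := by
    intro c hc
    have h1 := hp2 c hc (G, ε) (by simp)
    simp only at h1
    exact ⟨hg c (by simp [hc]), by omega⟩
  have htl : ∀ c ∈ tl, c.1 < S.g ∧ c.1 ≠ G := by
    intro c hc
    have h1 := hp1 c hc
    simp only at h1
    exact ⟨hg c (by simp [hc]), by omega⟩
  have hx : ∀ u l, u < S.g * T → l < S.g * T → u / T = G → l / T ≠ G →
      (gx S M h T u < gx S M h T l ↔ S.rk G < S.rk (l / T)) := by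
    intro u l hu hl hu1 hl1
    have := gx_diff (h := h) hM hT hl hu (by rw [hu1]; exact hl1)
    rwa [hu1] at this
  obtain ⟨Pu, Qu, Q', q1, q2, q3, q4, q5, q6, q7, q8, q9, q10⟩ :=
    wrap hA2 hx tu ((G, ε) :: tl) W htu hW
  obtain ⟨U, V, h1, h2, h3, h4⟩ := q2
  obtain ⟨a0, ha0⟩ := card_pos.1 (show 0 < U.card by omega)
  obtain ⟨I, hI1, hI2, hI3⟩ := exists_emb' (t := T) (s := 5 ^ h * M ^ (h - 1))
    (pr := a0 / 2 ^ T) (fun w hw => h3 w hw a0 ha0) (lt_of_le_of_lt hA h1)
  have hrich : Rich (lab M) (h - 1 + 1) true I := by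
    by_contra hcon
    have := (dens hM h).1 (h - 1) I (fun e he => lt_of_lt_of_le (mem_range.1 (hI1 he)) hTM) hcon
    rw [show (h + (h - 1)) / 2 = h - 1 by omega] at this
    omega
  rw [show h - 1 + 1 = h by omega] at hrich
  obtain ⟨v, hv, hc⟩ := hrich
  have hvT : v < T := mem_range.1 (hI1 hv)
  obtain ⟨π, hπ⟩ : ∃ π, π = fl h (S.y G) := ⟨_, rfl⟩
  set x' : ℕ → ℤ := fun l => gx S M h T (G * T + l) with hx'
  have hdm : ∀ l < T, (G * T + l) / T = G ∧ (G * T + l) % T = l := by
    intro l hl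
    constructor
    · rw [mul_comm, Nat.mul_add_div hT, Nat.div_eq_of_lt hl, add_zero]
    · rw [mul_comm, Nat.mul_add_mod, Nat.mod_eq_of_lt hl]
  have hc' : Ch x' I v h π v v := by
    have h5 := ch_congr (x := lab M) (x' := x') (I := I) (u := v) π (by
      intro l hl hlv
      have hlT := mem_range.1 (hI1 hl)
      obtain ⟨e1, e2⟩ := hdm v hvT
      obtain ⟨e3, e4⟩ := hdm l hlT
      have h6 := gx_same (S := S) (M := M) (h := h) (T := T) (e := G * T + l) (m := G * T + v)
        (e3.trans e1.symm)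
      rw [e1, e2, e4, ← hπ] at h6
      have h7 : lab M l ≠ lab M v := fun h => hlv (lab_inj hM _ _ h)
      have h8 : (x' v < x' l) ↔ (if π = true then lab M v < lab M l else lab M l < lab M v) := h6
      clear hπ
      cases π
      · simp only [Bool.false_eq_true, if_false] at h8 ⊢
        by_cases h9 : lab M l < lab M v
        · rw [decide_eq_true (h8.2 h9), decide_eq_false (not_lt.2 h9.le)]; rfl
        · rw [decide_eq_false (fun h => h9 (h8.1 h)),
            decide_eq_true (lt_of_le_of_ne (not_lt.1 h9) h7.symm)]; rfl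
      · simp only [if_true] at h8 ⊢
        exact decide_eq_decide.2 h8) h true v v le_rfl le_rfl hc
    cases π <;> simpa using h5
  obtain ⟨Ul, hU1, hU2, hU3⟩ := upper_part x' I v h π v v le_rfl hc'
  obtain ⟨Dl, hD1, hD2, hD3⟩ := lower_part' x' I v h π v v le_rfl hc'
  have hsub : (Ul ++ (v :: Dl)).Sublist (I.sort (· ≥ ·)) := by
    apply sublist_sort
    · rw [List.pairwise_append, List.pairwise_cons]
      refine ⟨hU1, ⟨fun l hl => (hD2 l hl).2, hD1⟩, ?_⟩
      intro l hl m hm
      have h1 := (hU2 l hl).2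
      simp only [List.mem_cons] at hm
      rcases hm with rfl | hm
      · exact h1
      · have := (hD2 m hm).2
        omega
    · intro l hl
      simp only [List.mem_append, List.mem_cons] at hl
      rcases hl with hl | rfl | hl
      · exact (hU2 l hl).1
      · exact hv
      · exact (hD2 l hl).1
  have hE' := emb_sublist hsub hI3
  obtain ⟨LA, LB, R', hR', hE2, hLA, hLB, pA, pB, lA, lB, fA, fB⟩ := hU3 _ _ hE'
  obtain ⟨R0, h0, R1, h01, ht, e0, e1⟩ := hE2
  obtain ⟨b0, hb0, N10, N20, hN10, hN20, pN10, pN20, lN10, lN20, fN10, fN20⟩ := hD3 R0 e0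
  obtain ⟨b1, hb1, N11, N21, hN11, hN21, pN11, pN21, lN11, lN21, fN11, fN21⟩ := hD3 R1 e1
  have hb0U : b0 ∈ U := hR' (h0 hb0)
  have hb1U : b1 ∈ U := hR' (h01 hb1)
  have htb : Top v b0 b1 := ht b0 hb0 b1 hb1
  -- the level
  have hu : G * T + v < S.g * T := by
    have : (G + 1) * T ≤ S.g * T := Nat.mul_le_mul_right _ hG
    have e : (G + 1) * T = G * T + T := by ring
    omega
  have huG := (hdm v hvT).1
  -- the lower groups
  obtain ⟨P0, S0, Z0, z01, z02, z03, z04, z05, z06, z07, z08, z09, z010⟩ :=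
    wrap hA2 hx tl [] (V b0) htl (by rw [List.append_nil]; exact (h2 b0 hb0U).2.1)
  obtain ⟨P1, S1, Z1, z11, z12, z13, z14, z15, z16, z17, z18, z19, z110⟩ :=
    wrap hA2 hx tl [] (V b1) htl (by rw [List.append_nil]; exact (h2 b1 hb1U).2.1)
  obtain ⟨p, hpZ⟩ := can_nonempty z02
  obtain ⟨q, hqZ⟩ := can_nonempty z12
  have hpV : p ∈ V b0 := z01 hpZ
  have hqV : q ∈ V b1 := z11 hqZ
  have hpQ : p ∈ Q' := (h2 b0 hb0U).1 hpV
  have hqQ : q ∈ Q' := (h2 b1 hb1U).1 hqV
  have hpb : p / 2 ^ (G * T) = b0 := (h2 b0 hb0U).2.2 p hpV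
  have hqb : q / 2 ^ (G * T) = b1 := (h2 b1 hb1U).2.2 q hqV
  -- representatives
  have hrep : ∀ a : ℕ, ∃ z, a ∈ U → z ∈ V a := by
    intro a
    by_cases ha : a ∈ U
    · obtain ⟨z, hz⟩ := can_nonempty (h2 a ha).2.1
      exact ⟨z, fun _ => hz⟩
    · exact ⟨0, fun h => absurd h ha⟩
  choose rep hrep using hrep
  have hrepb : ∀ a ∈ U, rep a / 2 ^ (G * T) = a := fun a ha => (h2 a ha).2.2 _ (hrep a ha)
  obtain ⟨R, hRdef⟩ : ∃ R : ℕ → Bool → Prop, R = fun z s =>
    Rel (gx S M h T) (G * T + v) p z s ∨ Rel (gx S M h T) (G * T + v) q z s := ⟨_, rfl⟩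
  have hRp : ∀ (N : List ℕ) (l : List Bool), (∀ a ∈ N, a ∈ U) →
      List.Forall₂ (Rel x' v b0) N l → List.Forall₂ (fun a s => R (rep a) s) N l := by
    intro N l hN hNl
    have := (List.forall₂_and_left (p := fun a => a ∈ U) N l).2 ⟨hN, hNl⟩
    refine this.imp ?_
    rintro a s ⟨ha, h5⟩
    rw [hRdef]
    exact Or.inl (rel_lift h5 hpb (hrepb a ha))
  have hRq : ∀ (N : List ℕ) (l : List Bool), (∀ a ∈ N, a ∈ U) →
      List.Forall₂ (Rel x' v b1) N l → List.Forall₂ (fun a s => R (rep a) s) N l := by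
    intro N l hN hNl
    have := (List.forall₂_and_left (p := fun a => a ∈ U) N l).2 ⟨hN, hNl⟩
    refine this.imp ?_
    rintro a s ⟨ha, h5⟩
    rw [hRdef]
    exact Or.inr (rel_lift h5 hqb (hrepb a ha))
  have mLA : ∀ a ∈ LA, a ∈ U := hLA
  have mLB : ∀ a ∈ LB, a ∈ U := hLB
  have mN10 : ∀ a ∈ N10, a ∈ U := fun a ha => hR' (h0 (hN10 a ha))
  have mN20 : ∀ a ∈ N20, a ∈ U := fun a ha => hR' (h0 (hN20 a ha))
  have mN11 : ∀ a ∈ N11, a ∈ U := fun a ha => hR' (h01 (hN11 a ha))
  have mN21 : ∀ a ∈ N21, a ∈ U := fun a ha => hR' (h01 (hN21 a ha))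
  set sg' : ℕ → ℕ × List ℕ := fun a => (a, [rep a]) with hsg'
  set K : List (ℕ × List ℕ) := ((((LA.map sg' ++ N10.map sg') ++ [(b0, P0 ++ S0)]) ++
    (N20.map sg' ++ N11.map sg')) ++ [(b1, P1 ++ S1)]) ++ (N21.map sg' ++ LB.map sg') with hK
  obtain ⟨tw, htw⟩ : ∃ tw : List Bool, tw = tl.map (fun a => !lt' S.rk G a) ++
    (tl.map (lt' S.rk G)).reverse := ⟨_, rfl⟩
  obtain ⟨Y1, hY1⟩ : ∃ Y1 : List (List Bool), Y1 = (alt (2 * h) (S.y G)).map (fun s => [s]) :=
    ⟨_, rfl⟩
  have hY1' : Y1 = ((alt h (!π)).reverse.map (fun s => [s])) ++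
      ((alt h π).map (fun s => [s])) := by
    rw [hY1, ← List.map_append, alt_two, hπ, fl_fl]
  have hKL : List.Forall₂ (fun k ls => List.Forall₂ R k.2 ls) K
      ((((Y1 ++ [tw]) ++ Y1) ++ [tw]) ++ Y1) := by
    rw [hK, hY1']
    apply List.rel_append
    · apply List.rel_append
      · apply List.rel_append
        · apply List.rel_append
          · apply List.rel_append
            · exact f2_sing (hRp _ _ mLA (fA b0 (h0 hb0)))
            · exact f2_sing (hRp _ _ mN10 fN10)
          · refine List.Forall₂.cons ?_ List.Forall₂.nil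
            rw [htw]
            apply List.rel_append
            · exact (z09 _ hu huG p hpZ).imp (fun _ _ h => by rw [hRdef]; exact Or.inl h)
            · exact (z010 _ hu huG p hpZ).imp (fun _ _ h => by rw [hRdef]; exact Or.inl h)
        · apply List.rel_append
          · exact f2_sing (hRp _ _ mN20 fN20)
          · exact f2_sing (hRq _ _ mN11 fN11)
      · refine List.Forall₂.cons ?_ List.Forall₂.nil
        rw [htw]
        apply List.rel_append
        · exact (z19 _ hu huG q hqZ).imp (fun _ _ h => by rw [hRdef]; exact Or.inr h)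
        · exact (z110 _ hu huG q hqZ).imp (fun _ _ h => by rw [hRdef]; exact Or.inr h)
    · apply List.rel_append
      · exact f2_sing (hRq _ _ mN21 fN21)
      · exact f2_sing (hRp _ _ mLB (fB b0 (h0 hb0)))
  -- sortedness of K
  have hsing : ∀ N : List ℕ, (∀ a ∈ N, a ∈ U) → ∀ k ∈ N.map sg', k.1 ∈ U ∧
      (∀ z ∈ k.2, z ∈ V k.1) ∧ k.2.Pairwise (fun a b => f a < f b) := by
    intro N hN k hk
    rw [List.mem_map] at hk
    obtain ⟨a, ha, rfl⟩ := hk
    refine ⟨hN a ha, ?_, List.pairwise_singleton _ _⟩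
    intro z hz
    simp only [hsg', List.mem_singleton] at hz
    rw [hz]
    exact hrep a (hN a ha)
  have hKU : ∀ k ∈ K, k.1 ∈ U ∧ (∀ z ∈ k.2, z ∈ V k.1) ∧
      k.2.Pairwise (fun a b => f a < f b) := by
    intro k hk
    rw [hK] at hk
    simp only [List.mem_append, List.mem_singleton] at hk
    rcases hk with (((((hk | hk) | hk) | (hk | hk)) | hk) | (hk | hk))
    · exact hsing _ mLA k hk
    · exact hsing _ mN10 k hk
    · subst hk
      refine ⟨hb0U, ?_, ?_⟩
      · intro z hz
        rcases List.mem_append.1 hz with hz | hz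
        · exact z03 z hz
        · exact z04 z hz
      · simp only
        rw [List.pairwise_append]
        exact ⟨z05, z06, fun z hz w hw => (z07 z hz p hpZ).trans (z08 w hw p hpZ)⟩
    · exact hsing _ mN20 k hk
    · exact hsing _ mN11 k hk
    · subst hk
      refine ⟨hb1U, ?_, ?_⟩
      · intro z hz
        rcases List.mem_append.1 hz with hz | hz
        · exact z13 z hz
        · exact z14 z hz
      · simp only
        rw [List.pairwise_append]
        exact ⟨z15, z16, fun z hz w hw => (z17 z hz q hqZ).trans (z18 w hw q hqZ)⟩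
    · exact hsing _ mN21 k hk
    · exact hsing _ mLB k hk
  have hKp : K.Pairwise (fun a b => a.1 < b.1) := by
    have e : K.Pairwise (fun a b => a.1 < b.1) ↔ (K.map Prod.fst).Pairwise (· < ·) := by
      rw [List.pairwise_map]
    rw [e]
    have e2 : K.map Prod.fst = LA ++ (N10 ++ (b0 :: (N20 ++ (N11 ++ (b1 :: (N21 ++ LB)))))) := by
      have e3 : ∀ N : List ℕ, (N.map sg').map Prod.fst = N := by
        intro N
        rw [List.map_map]
        exact List.map_id N
      rw [hK]
      simp only [List.map_append, e3, List.map_cons, List.map_nil]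
      simp
    rw [e2]
    have w0 : ∀ a ∈ LA, ∀ w ∈ R', a < w := lA
    have w1 : ∀ a ∈ LB, ∀ w ∈ R', w < a := lB
    have w2 : ∀ a ∈ R0, ∀ b ∈ R1, a < b := fun a ha b hb => (ht a ha b hb).lt
    rw [List.pairwise_append, List.pairwise_append, List.pairwise_cons, List.pairwise_append,
      List.pairwise_append, List.pairwise_cons, List.pairwise_append]
    refine ⟨pA, ⟨pN10, ⟨?_, pN20, ⟨pN11, ⟨?_, pN21, pB, ?_⟩, ?_⟩, ?_⟩, ?_⟩, ?_⟩
    · intro a ha
      simp only [List.mem_append, List.mem_cons] at ha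
      rcases ha with ha | ha | rfl | ha | ha
      · exact lN20 a ha
      · exact w2 _ hb0 _ (hN11 a ha)
      · exact w2 _ hb0 _ hb1
      · exact w2 _ hb0 _ (hN21 a ha)
      · exact w1 a ha _ (h0 hb0)
    · intro a ha
      simp only [List.mem_append] at ha
      rcases ha with ha | ha
      · exact lN21 a ha
      · exact w1 a ha _ (h01 hb1)
    · intro a ha b hb
      exact w1 b hb _ (h01 (hN21 a ha))
    · intro a ha b hb
      simp only [List.mem_append, List.mem_cons] at hb
      rcases hb with rfl | hb | hb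
      · exact lN11 a ha
      · exact (lN11 a ha).trans (lN21 b hb)
      · exact w1 b hb _ (h01 (hN11 a ha))
    · intro a ha b hb
      simp only [List.mem_append, List.mem_cons] at hb
      rcases hb with hb | rfl | hb | hb
      · exact w2 _ (hN20 a ha) _ (hN11 b hb)
      · exact w2 _ (hN20 a ha) _ hb1
      · exact w2 _ (hN20 a ha) _ (hN21 b hb)
      · exact w1 b hb _ (h0 (hN20 a ha))
    · intro a ha b hb
      simp only [List.mem_append, List.mem_cons] at hb
      rcases hb with rfl | hb | hb | rfl | hb | hb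
      · exact lN10 a ha
      · exact (lN10 a ha).trans (lN20 b hb)
      · exact w2 _ (hN10 a ha) _ (hN11 b hb)
      · exact w2 _ (hN10 a ha) _ hb1
      · exact w2 _ (hN10 a ha) _ (hN21 b hb)
      · exact w1 b hb _ (h0 (hN10 a ha))
    · intro a ha b hb
      simp only [List.mem_append, List.mem_cons] at hb
      rcases hb with hb | rfl | hb | hb | rfl | hb | hb
      · exact w0 a ha _ (h0 (hN10 b hb))
      · exact w0 a ha _ (h0 hb0)
      · exact w0 a ha _ (h0 (hN20 b hb))
      · exact w0 a ha _ (h01 (hN11 b hb))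
      · exact w0 a ha _ (h01 hb1)
      · exact w0 a ha _ (h01 (hN21 b hb))
      · exact (w0 a ha _ (h0 hb0)).trans (w1 b hb _ (h0 hb0))
  -- the flattened list
  have hflat := flat_sorted (ε := ε) (f := f) (V := V) (U := U) h4 hKp hKU
  set Z := (if ε then K else K.reverse).flatMap Prod.snd with hZ
  have hZQ : ∀ z ∈ Z, z ∈ Q' := by
    intro z hz
    rw [hZ, List.mem_flatMap] at hz
    obtain ⟨k, hk, hz⟩ := hz
    have hkK : k ∈ K := by
      split_ifs at hk
      · exact hk
      · exact List.mem_reverse.1 hk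
    exact (h2 k.1 (hKU k hkK).1).1 ((hKU k hkK).2.1 z hz)
  have hZR : List.Forall₂ R Z ((((alt (2 * h) (if ε then S.y G else !S.y G) ++ tw) ++
      alt (2 * h) (if ε then S.y G else !S.y G)) ++ tw) ++
      alt (2 * h) (if ε then S.y G else !S.y G)) := by
    cases ε
    · simp only [Bool.false_eq_true, if_false] at hZ ⊢
      have h5 := f2_flat (List.rel_reverse hKL)
      rw [← hZ] at h5
      have e : ((((Y1 ++ [tw]) ++ Y1) ++ [tw]) ++ Y1).reverse.flatten =
          ((((alt (2 * h) (!S.y G) ++ tw) ++ alt (2 * h) (!S.y G)) ++ tw) ++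
            alt (2 * h) (!S.y G)) := by
        have e1 : Y1.reverse.flatten = alt (2 * h) (!S.y G) := by
          rw [hY1, ← List.map_reverse, flatten_sing, alt_two_rev]
        simp only [List.reverse_append, List.flatten_append, e1, List.reverse_singleton,
          List.flatten_singleton, List.append_assoc]
      rwa [e] at h5
    · simp only [if_true] at hZ ⊢
      have h5 := f2_flat hKL
      rw [← hZ] at h5
      have e : ((((Y1 ++ [tw]) ++ Y1) ++ [tw]) ++ Y1).flatten =
          ((((alt (2 * h) (S.y G) ++ tw) ++ alt (2 * h) (S.y G)) ++ tw) ++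
            alt (2 * h) (S.y G)) := by
        have e1 : Y1.flatten = alt (2 * h) (S.y G) := by
          rw [hY1, flatten_sing]
        simp only [List.flatten_append, e1, List.flatten_singleton]
      rwa [e] at h5
  refine ⟨G * T + v, hu, p, q1 hpQ, q, q1 hqQ, top_lift htb hpb hqb, Pu ++ Z ++ Qu, ?_, ?_, ?_⟩
  · intro z hz
    rcases List.mem_append.1 hz with hz | hz
    · rcases List.mem_append.1 hz with hz | hz
      · exact q3 z hz
      · exact q1 (hZQ z hz)
    · exact q4 z hz
  · rw [List.pairwise_append, List.pairwise_append]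
    refine ⟨⟨q5, hflat, fun z hz w hw => q7 z hz w (hZQ w hw)⟩, q6, ?_⟩
    intro z hz w hw
    rcases List.mem_append.1 hz with hz | hz
    · exact (q7 z hz p hpQ).trans (q8 w hw p hpQ)
    · exact q8 w hw z (hZQ z hz)
  · unfold wrd
    simp only
    rw [← htw]
    rw [← hRdef]
    apply List.rel_append
    · apply List.rel_append
      · exact (q9 _ hu huG p hpQ).imp (fun _ _ h => by rw [hRdef]; exact Or.inl h)
      · exact hZR
    · exact (q10 _ hu huG p hpQ).imp (fun _ _ h => by rw [hRdef]; exact Or.inl h)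

end Pool.Agent.H595K.Grp
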