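import Mathlib
import Pool.Agent.H595K.QPatB

/-!
# Large sets of words have many alternations
-/

namespace Pool.Agent.H595K.Grp

open Finset Nst

theorem alt_sub (l : List Bool) : ∀ a, (alt (ch (a :: l) + 1) a).Sublist (a :: l) := by
  induction l with
  | nil => intro a; simp [alt]
  | cons b l ih =>
    intro a
    rw [ch_cons_cons]
    by_cases h : a = b
    · subst h
      rw [if_pos rfl, zero_add]
      exact (ih a).cons a
    · rw [if_neg h]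
      have hb : b = !a := by cases a <;> cases b <;> simp_all
      have := ih b
      rw [show 1 + ch (b :: l) + 1 = (ch (b :: l) + 1) + 1 by ring]
      simp only [alt]
      rw [← hb]
      exact this.cons_cons a

theorem exists_alt_sub {L : List Bool} {m : ℕ} (hm : m ≤ ch L + 1) (hL : L ≠ []) :
    ∃ s, (alt m s).Sublist L := by
  obtain ⟨a, l, rfl⟩ := List.exists_cons_of_ne_nil hL
  refine ⟨a, List.Sublist.trans ?_ (alt_sub l a)⟩
  obtain ⟨d, hd⟩ : ∃ d, ch (a :: l) + 1 = m + d := ⟨_, (Nat.add_sub_of_le hm).symm⟩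
  rw [hd, alt_add]
  exact List.sublist_append_left _ _

theorem f2_sub {R : ℕ → Bool → Prop} {L' L : List Bool} (h : L'.Sublist L) :
    ∀ {zs : List ℕ}, List.Forall₂ R zs L → ∃ zs' : List ℕ, zs'.Sublist zs ∧
      List.Forall₂ R zs' L' := by
  induction h with
  | slnil =>
    intro zs hz
    exact ⟨zs, List.Sublist.refl _, hz⟩
  | cons a _ ih =>
    intro zs hz
    cases hz with
    | cons h1 h2 =>
      obtain ⟨zs', h3, h4⟩ := ih h2
      exact ⟨zs', h3.cons _, h4⟩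
  | cons_cons a _ ih =>
    intro zs hz
    cases hz with
    | cons h1 h2 =>
      obtain ⟨zs', h3, h4⟩ := ih h2
      exact ⟨_, h3.cons_cons _, List.Forall₂.cons h1 h4⟩

theorem ch_mid (P Q : List Bool) (y : Bool) : ∀ h : ℕ,
    ch (P ++ (alt (2 * (h + 1)) y ++ Q)) = ch (P ++ (alt 2 y ++ Q)) + 2 * h := by
  intro h
  induction h with
  | zero => rfl
  | succ h ih =>
    have e1 : alt (2 * (h + 1 + 1)) y = y :: (!y) :: alt (2 * (h + 1)) y := by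
      rw [show 2 * (h + 1 + 1) = 2 * (h + 1) + 1 + 1 by ring]
      simp only [alt, Bool.not_not]
    obtain ⟨R, hR⟩ : ∃ R, alt (2 * (h + 1)) y = y :: R := by
      rw [show 2 * (h + 1) = (2 * h + 1) + 1 by ring]
      exact ⟨_, rfl⟩
    rw [e1, hR]
    rw [hR] at ih
    simp only [List.cons_append] at ih ⊢
    rw [ch_split] at ih ⊢
    rw [ch_cons_cons, ch_cons_cons]
    have e2 : (if y = !y then 0 else 1) = 1 := by cases y <;> rfl
    have e3 : (if (!y) = y then 0 else 1) = 1 := by cases y <;> rfl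
    rw [e2, e3]
    omega

theorem ch_wrd {rk : ℕ → ℕ} {y : ℕ → Bool} (h : ℕ) (tu tl : List (ℕ × Bool)) (c : ℕ × Bool) :
    ch (wrd rk y (2 * (h + 1)) tu c tl) = ch (wrd rk y 2 tu c tl) + 6 * h := by
  unfold wrd
  obtain ⟨P, hP⟩ : ∃ P, P = tu.map (fun a => !lt' rk c.1 a) := ⟨_, rfl⟩
  obtain ⟨Q, hQ⟩ : ∃ Q, Q = (tu.map (lt' rk c.1)).reverse := ⟨_, rfl⟩
  obtain ⟨tw, htw⟩ : ∃ tw, tw = tl.map (fun a => !lt' rk c.1 a) ++ (tl.map (lt' rk c.1)).reverse :=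
    ⟨_, rfl⟩
  obtain ⟨s, hs⟩ : ∃ s, s = if c.2 then y c.1 else !y c.1 := ⟨_, rfl⟩
  rw [← hP, ← hQ, ← htw, ← hs]
  have k1 := ch_mid P (tw ++ (alt (2 * (h + 1)) s ++ (tw ++ (alt (2 * (h + 1)) s ++ Q)))) s h
  have k2 := ch_mid (P ++ (alt 2 s ++ tw)) (tw ++ (alt (2 * (h + 1)) s ++ Q)) s h
  have k3 := ch_mid (P ++ (alt 2 s ++ (tw ++ (alt 2 s ++ tw)))) Q s h
  simp only [List.append_assoc] at k1 k2 k3 ⊢
  omega

theorem gx_rich {S : GSys} {M h T N r : ℕ} {B : ℝ} (hM : 2 ≤ M) (hh : 1 ≤ h) (hT : 0 < T)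
    (hTM : T ≤ M ^ h) (hB : 4 * ((3 * S.g * T + T : ℕ) : ℝ) + 3 < B) (hN : N ≤ 2 ^ (S.g * T))
    (hr : 3 ^ S.g * ((T + 1) ^ (5 ^ h * M ^ (h - 1)) * (T + 1) ^ (5 ^ h * M ^ (h - 1))) < r) :
    ∃ LL : Finset (ℝ × ℝ), ∀ W ⊆ range N, thr T r S.g S.q < W.card →
      ∀ f : ℕ → ℕ, Set.InjOn f W →
      ∃ l ∈ LL, (∀ i < N, Nst.ht (PX B (S.g * T)) (QY (gx S M h T) B (S.g * T)) l i ≠ 0) ∧
        ∃ (r : ℕ) (z : ℕ → ℕ), (∀ t, t < 2 * (3 * h + S.rb) → z t ∈ W) ∧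
        (∀ t, t + 1 < 2 * (3 * h + S.rb) → f (z t) < f (z (t + 1))) ∧
        ∀ t', t' < 2 * (3 * h + S.rb) →
          0 < (-1 : ℝ) ^ (t' + r) *
            Nst.ht (PX B (S.g * T)) (QY (gx S M h T) B (S.g * T)) l (z t') := by
  classical
  obtain ⟨LL, hLL⟩ := exists_lines (PX B (S.g * T)) (QY (gx S M h T) B (S.g * T)) N
  refine ⟨LL, ?_⟩
  intro W hW hc f hf
  obtain ⟨x, hx⟩ : ∃ x, x = gx S M h T := ⟨_, rfl⟩
  obtain ⟨t, ht⟩ : ∃ t, t = S.g * T := ⟨_, rfl⟩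
  obtain ⟨A, hA⟩ : ∃ A, A = (T + 1) ^ (5 ^ h * M ^ (h - 1)) := ⟨_, rfl⟩
  rw [← hA] at hr
  have hA2 : 2 ≤ A := by
    have h1 : 1 ≤ 5 ^ h * M ^ (h - 1) :=
      Nat.mul_pos (Nat.pow_pos (by norm_num)) (Nat.pow_pos (by omega))
    calc 2 ≤ T + 1 := by omega
      _ = (T + 1) ^ 1 := (pow_one _).symm
      _ ≤ A := by rw [hA]; exact Nat.pow_le_pow_right (by omega) h1
  have hWt : ∀ z ∈ W, z < 2 ^ t := fun z hz => by
    rw [ht]; exact lt_of_lt_of_le (mem_range.1 (hW hz)) hN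
  obtain ⟨τ, k1, k2, k3, k4⟩ := canon (f := f) hr S.g le_rfl S.q W 0
    (fun z hz => Nat.div_eq_of_lt (by rw [← ht]; exact hWt z hz)) hf hc
  obtain ⟨tu, c, tl, k5, k6⟩ := S.rob τ k1 k2 k3
  obtain ⟨u, hu, p, hp, q, hq, htop, zs, hzs1, hzs2, hzs3⟩ :=
    pattern hM hh hT hTM hA2 hA.ge k5 k2 k3 k4
  have hOK : LabOK x t (3 * S.g * T + T) := by rw [hx, ht]; exact gx_ok hM hT
  have hpt := hWt p hp
  have hqt := hWt q hq
  have hWN : ∀ z ∈ W, z < N := fun z hz => mem_range.1 (hW hz)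
  rw [← hx, ← ht] at hLL ⊢
  rw [← hx] at hzs3
  rw [← ht] at hu
  obtain ⟨hD, hsl⟩ := slopeQ hOK hB htop hu
  obtain ⟨l, hl, hl1, hl2⟩ := hLL p (hWN p hp) q (hWN q hq)
  obtain ⟨θ, hθ⟩ : ∃ θ, θ = sp (PX B t) (QY x B t) p q := ⟨_, rfl⟩
  rw [← hθ] at hl2
  have hθN : QY x B t q - QY x B t p = θ * (PX B t q - PX B t p) := by
    rw [hθ, sp]; field_simp
  have hθ2 : |θ - (x u : ℝ)| < 1 / 2 := by
    have e : (QY x B t q - QY x B t p) - (x u : ℝ) * (PX B t q - PX B t p) =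
        (θ - (x u : ℝ)) * (PX B t q - PX B t p) := by rw [hθN]; ring
    rw [e, abs_mul, abs_of_pos hD] at hsl
    by_contra hc
    push Not at hc
    have := mul_le_mul_of_nonneg_right hc hD.le
    linarith
  have hside : ∀ z s, z ∈ zs → (Rel x u p z s ∨ Rel x u q z s) →
      decide (0 < Nst.ht (PX B t) (QY x B t) l z) = s := by
    intro z s hz h
    have hzT := hzs1 z hz
    have hzt := hWt z hzT
    rw [decide_eq_decide.2 (hl2 z (hWN z hzT))]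
    rcases h with h | h
    · exact (sideQ hOK hB hu hpt hzt h hθ2).2
    · have h4 := (sideQ hOK hB hu hqt hzt h hθ2).2
      have e : (QY x B t z - QY x B t p) - θ * (PX B t z - PX B t p) =
          (QY x B t z - QY x B t q) - θ * (PX B t z - PX B t q) := by
        linarith
      rw [e]; exact h4
  obtain ⟨h', rfl⟩ : ∃ h', h = h' + 1 := ⟨h - 1, by omega⟩
  have hchw : 2 * (3 * (h' + 1) + S.rb) ≤ ch (wrd S.rk S.y (2 * (h' + 1)) tu c tl) + 1 := by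
    rw [ch_wrd]; omega
  have hwne : wrd S.rk S.y (2 * (h' + 1)) tu c tl ≠ [] := by
    intro h0
    rw [h0] at hchw
    simp at hchw
    omega
  obtain ⟨s0, hs0⟩ := exists_alt_sub hchw hwne
  have hzs3' : List.Forall₂ (fun z s => z ∈ zs ∧ (Rel x u p z s ∨ Rel x u q z s)) zs
      (wrd S.rk S.y (2 * (h' + 1)) tu c tl) :=
    (List.forall₂_and_left (p := fun z => z ∈ zs) _ _).2 ⟨fun z hz => hz, hzs3⟩
  obtain ⟨ys, hys1, hys2⟩ := f2_sub hs0 hzs3'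
  have hysW : ∀ z ∈ ys, z ∈ W := fun z hz => hzs1 z (hys1.subset hz)
  refine ⟨l, hl, hl1, ?_⟩
  exact seq_of_list (s := s0) hysW (hzs2.sublist hys1) (fun z hz => hl1 z (hWN z (hysW z hz)))
    (hys2.imp (fun z s h => hside z s h.1 h.2))

end Pool.Agent.H595K.Grp
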