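import Mathlib
import Pool.Agent.H595K.QRich
import Pool.Agent.H595K.QPoly
import Pool.Agent.H595K.NMain

/-!
# The bound from a system of groups
-/

namespace Pool.Agent.H595K.Grp

open Finset Vis124 Nst

theorem lipQ {x : ℕ → ℤ} {t R : ℕ} {B : ℝ} (hx : LabOK x t R) (hB : 4 * (R : ℝ) + 3 < B)
    {w w' : ℕ} (h : w < w') (hw : w' < 2 ^ t) :
    |QY x B t w' - QY x B t w| ≤ ((R : ℝ) + 1) * (PX B t w' - PX B t w) := by
  obtain ⟨l, hl, htop⟩ := exists_top h hw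
  obtain ⟨h1, h2⟩ := slopeQ hx hB htop hl
  obtain ⟨h3, h4⟩ := abs_lt.1 h2
  have h5 : |(x l : ℝ)| ≤ R := by exact_mod_cast hx.bound l hl
  obtain ⟨h6, h7⟩ := abs_le.1 h5
  have h8 : (x l : ℝ) * (PX B t w' - PX B t w) ≤ R * (PX B t w' - PX B t w) :=
    mul_le_mul_of_nonneg_right h7 h1.le
  have h9 : -(R : ℝ) * (PX B t w' - PX B t w) ≤ (x l : ℝ) * (PX B t w' - PX B t w) :=
    mul_le_mul_of_nonneg_right h6 h1.le
  rw [abs_le]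
  constructor
  · nlinarith
  · nlinarith

theorem sys_set (S : GSys) {M h T n r : ℕ} (hM : 2 ≤ M) (hh : 1 ≤ h) (hT : 0 < T)
    (hTM : T ≤ M ^ h) (hn3 : 3 ≤ n) (hN : n ≤ 2 ^ (S.g * T))
    (hr : 3 ^ S.g * ((T + 1) ^ (5 ^ h * M ^ (h - 1)) * (T + 1) ^ (5 ^ h * M ^ (h - 1))) < r) :
    ∃ P : Finset (ℝ × ℝ), P.card = n ∧ KConvexSet (3 * h + S.ex) P ∧
      ∀ j < 3 * h + S.rb, ∀ Q ⊆ P, KConvexSet j Q → Q.card ≤ thr T r S.g S.q + 2 := by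
  obtain ⟨R, hR⟩ : ∃ R, R = 3 * S.g * T + T := ⟨_, rfl⟩
  obtain ⟨B, hBd⟩ : ∃ B : ℝ, B = 4 * (R : ℝ) + 4 := ⟨_, rfl⟩
  have hB : 4 * (R : ℝ) + 3 < B := by rw [hBd]; linarith
  have hOK : LabOK (gx S M h T) (S.g * T) R := by rw [hR]; exact gx_ok hM hT
  obtain ⟨N, rfl⟩ : ∃ N, n = N + 2 := ⟨n - 2, by omega⟩
  have hN' : N ≤ 2 ^ (S.g * T) := by omega
  have hB' : 4 * ((3 * S.g * T + T : ℕ) : ℝ) + 3 < B := by rw [← hR]; exact hB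
  exact base_set (m := (R : ℝ) + 1) (X := PX B (S.g * T)) (Y := QY (gx S M h T) B (S.g * T))
    (c := 3 * h + S.ex) (m' := 3 * h + S.rb) (s := thr T r S.g S.q) (by omega) (by positivity)
    (fun i j hij hj => monoQ hOK hB hij (lt_of_lt_of_le hj hN'))
    (fun i j hij hj => lipQ hOK hB hij (lt_of_lt_of_le hj hN'))
    (fun i j k hij hjk hk => genQ hOK hB hij hjk (lt_of_lt_of_le hk hN'))
    (by omega) (gx_alt hM hh hT hTM hB' hN' 0) (by omega) (gx_rich hM hh hT hTM hB' hN' hr)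

theorem sys_bound (S : GSys) (hg : 2 ≤ S.g) {h n : ℕ} (hh : 1 ≤ h) (hn : 16 ≤ n) :
    ∀ j k, j < 3 * h + S.rb → 3 * h + S.ex ≤ k →
      (f k j n : ℝ) ≤ (3 * (4 * 3 ^ S.g) ^ S.g * 2 ^ (S.q - 1)) *
        (n : ℝ) ^ (((S.q - 1 : ℕ) : ℝ) / S.g) *
        bd (S.g * (12 * 5 ^ h * 3 ^ (h - 1) + 2)) (((h - 1 : ℕ) : ℝ) / h) n := by
  intro j k hj hk
  obtain ⟨M, t, hM, ht0, ht, hn2, hb⟩ := numeric (H := h) (e := h - 1) hh (by omega) hn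
  obtain ⟨E, hE⟩ : ∃ E, E = bd (12 * 5 ^ h * 3 ^ (h - 1) + 2) (((h - 1 : ℕ) : ℝ) / h) n :=
    ⟨_, rfl⟩
  rw [← hE] at hb
  obtain ⟨s, hs⟩ : ∃ s, s = 5 ^ h * M ^ (h - 1) := ⟨_, rfl⟩
  rw [← hs] at hb
  set T := Nat.log 2 n / S.g + 1 with hT
  have hn0 : n ≠ 0 := by omega
  have hlogt : Nat.log 2 n ≤ t := by
    by_contra hc
    have h1 : 2 ^ Nat.log 2 n ≤ n := Nat.pow_log_le_self 2 hn0
    have h2 : 2 ^ (t + 1) ≤ 2 ^ Nat.log 2 n := Nat.pow_le_pow_right (by norm_num) (by omega)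
    have h3 : 2 ^ (t + 1) = 2 * 2 ^ t := by ring
    have h4 := Nat.two_pow_pos t
    omega
  have hlog4 : 4 ≤ Nat.log 2 n := Nat.le_log_of_pow_le (by norm_num) (by omega)
  have hTt : T ≤ t := by
    have h1 : Nat.log 2 n / S.g ≤ Nat.log 2 n / 2 := Nat.div_le_div_left hg (by norm_num)
    omega
  have hgT : n ≤ 2 ^ (S.g * T) := by
    have h1 : Nat.log 2 n < S.g * T := Nat.lt_mul_div_succ _ (by omega)
    have h2 : n < 2 ^ (Nat.log 2 n + 1) := Nat.lt_pow_succ_log_self (by norm_num) n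
    exact h2.le.trans (Nat.pow_le_pow_right (by norm_num) h1)
  obtain ⟨A2, hA2⟩ : ∃ A2, A2 = (T + 1) ^ s * (T + 1) ^ s := ⟨_, rfl⟩
  have hA2E : (A2 : ℝ) + 2 ≤ E := by
    have h1 : A2 ≤ (t + 1) ^ (2 * s) := by
      rw [hA2, ← pow_add, ← two_mul]
      exact Nat.pow_le_pow_left (by omega) _
    have h2 : ((A2 + 2 : ℕ) : ℝ) ≤ (((t + 1) ^ (2 * s) + 2 : ℕ) : ℝ) := by
      exact_mod_cast Nat.add_le_add_right h1 2
    have h3 := h2.trans hb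
    push_cast at h3
    linarith
  have hA20 : (0 : ℝ) ≤ A2 := Nat.cast_nonneg _
  have hE2 : 2 ≤ E := by linarith
  obtain ⟨r, hr⟩ : ∃ r, r = 3 ^ S.g * A2 + 1 := ⟨_, rfl⟩
  have hT0 : 0 < T := Nat.succ_pos _
  obtain ⟨P, hP1, hP2, hP3⟩ := sys_set S (n := n) (r := r) hM hh hT0 (hTt.trans ht)
    (by omega) hgT (by rw [← hs, ← hA2, hr]; exact Nat.lt_succ_self _)
  have h1 := f_le_of_set hk hP1 hP2 (fun Q hQ hQj => hP3 j hj Q hQ hQj)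
  have h2 : thr T r S.g S.q ≤ (4 * r) ^ S.g * 2 ^ (T * (S.q - 1)) := by
    have hq := S.q1
    have := thr_le (T := T) (r := r) (by rw [hr]; exact Nat.succ_pos _) S.g (S.q - 1)
    rwa [show S.q - 1 + 1 = S.q by omega] at this
  have h3 : (r : ℝ) ≤ 3 ^ S.g * E := by
    have h4 : (1 : ℝ) ≤ 3 ^ S.g := one_le_pow₀ (by norm_num)
    rw [hr]; push_cast
    nlinarith
  have h4 : ((4 * r : ℕ) : ℝ) ^ S.g ≤ (4 * 3 ^ S.g) ^ S.g * E ^ S.g := by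
    rw [← mul_pow]
    apply pow_le_pow_left₀ (by positivity)
    push_cast
    linarith
  have hnr : (0 : ℝ) ≤ n := Nat.cast_nonneg n
  have hn1 : (1 : ℝ) ≤ n := by exact_mod_cast (by omega : 1 ≤ n)
  have hgr : (0 : ℝ) < S.g := by exact_mod_cast (by omega : 0 < S.g)
  have h5 : (2 : ℝ) ^ T ≤ 2 * (n : ℝ) ^ ((1 : ℝ) / S.g) := by
    have h6 : ((2 : ℝ) ^ (Nat.log 2 n / S.g)) ^ S.g ≤ n := by
      rw [← pow_mul]
      have h7 : (2 : ℕ) ^ (Nat.log 2 n / S.g * S.g) ≤ n :=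
        (Nat.pow_le_pow_right (by norm_num) (Nat.div_mul_le_self _ _)).trans
          (Nat.pow_log_le_self 2 hn0)
      exact_mod_cast h7
    have h8 : (2 : ℝ) ^ (Nat.log 2 n / S.g) ≤ (n : ℝ) ^ ((1 : ℝ) / S.g) := by
      have h9 := Real.rpow_le_rpow (z := (1 : ℝ) / S.g) (by positivity) h6 (by positivity)
      rwa [one_div, Real.pow_rpow_inv_natCast (by positivity) (by omega), ← one_div] at h9
    rw [hT, pow_succ]
    linarith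
  have h6 : (2 : ℝ) ^ (T * (S.q - 1)) ≤
      2 ^ (S.q - 1) * (n : ℝ) ^ (((S.q - 1 : ℕ) : ℝ) / S.g) := by
    rw [pow_mul]
    calc ((2 : ℝ) ^ T) ^ (S.q - 1) ≤ (2 * (n : ℝ) ^ ((1 : ℝ) / S.g)) ^ (S.q - 1) :=
          pow_le_pow_left₀ (by positivity) h5 _
      _ = 2 ^ (S.q - 1) * ((n : ℝ) ^ ((1 : ℝ) / S.g)) ^ (S.q - 1) := mul_pow _ _ _
      _ = 2 ^ (S.q - 1) * (n : ℝ) ^ (((S.q - 1 : ℕ) : ℝ) / S.g) := by
          congr 1
          rw [← Real.rpow_natCast, ← Real.rpow_mul hnr]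
          congr 1
          field_simp
  have hEg : E ^ S.g = bd (S.g * (12 * 5 ^ h * 3 ^ (h - 1) + 2)) (((h - 1 : ℕ) : ℝ) / h) n := by
    rw [hE]
    unfold bd
    rw [← Real.exp_nat_mul]
    congr 1
    ring
  rw [← hEg]
  have h7 : (thr T r S.g S.q : ℝ) ≤ ((4 * 3 ^ S.g) ^ S.g * E ^ S.g) *
      (2 ^ (S.q - 1) * (n : ℝ) ^ (((S.q - 1 : ℕ) : ℝ) / S.g)) := by
    have h8 : (thr T r S.g S.q : ℝ) ≤ ((4 * r : ℕ) : ℝ) ^ S.g * (2 : ℝ) ^ (T * (S.q - 1)) := by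
      exact_mod_cast h2
    exact h8.trans (mul_le_mul h4 h6 (by positivity) (by positivity))
  have h8 : (1 : ℝ) ≤ ((4 * 3 ^ S.g) ^ S.g * E ^ S.g) *
      (2 ^ (S.q - 1) * (n : ℝ) ^ (((S.q - 1 : ℕ) : ℝ) / S.g)) := by
    have a1 : (1 : ℝ) ≤ (4 * 3 ^ S.g) ^ S.g := by
      apply one_le_pow₀
      have : (1 : ℝ) ≤ 3 ^ S.g := one_le_pow₀ (by norm_num)
      linarith
    have a2 : (1 : ℝ) ≤ E ^ S.g := one_le_pow₀ (by linarith)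
    have a3 : (1 : ℝ) ≤ 2 ^ (S.q - 1) := one_le_pow₀ (by norm_num)
    have a4 : (1 : ℝ) ≤ (n : ℝ) ^ (((S.q - 1 : ℕ) : ℝ) / S.g) :=
      Real.one_le_rpow hn1 (by positivity)
    exact one_le_mul_of_one_le_of_one_le (one_le_mul_of_one_le_of_one_le a1 a2)
      (one_le_mul_of_one_le_of_one_le a3 a4)
  have h9 : (f k j n : ℝ) ≤ thr T r S.g S.q + 2 := by exact_mod_cast h1
  calc (f k j n : ℝ) ≤ thr T r S.g S.q + 2 := h9
    _ ≤ 3 * (((4 * 3 ^ S.g) ^ S.g * E ^ S.g) *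
      (2 ^ (S.q - 1) * (n : ℝ) ^ (((S.q - 1 : ℕ) : ℝ) / S.g))) := by linarith
    _ = _ := by ring

end Pool.Agent.H595K.Grp
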