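import Mathlib
import Pool.Agent.H595K.QMain

/-!
# Three systems of groups
-/

namespace Pool.Agent.H595K.Grp

open Finset Nst

/-- some line of a canonical structure has many letters -/
def good (rk : ℕ → ℕ) (y : ℕ → Bool) (rb : ℕ) (τ : List (ℕ × Bool)) : Bool :=
  (List.range τ.length).any (fun i =>
    decide (6 + 2 * rb ≤ ch (wrd rk y 2 (τ.take i) (τ.getD i (0, true)) (τ.drop (i + 1))) + 1))

/-- building a system from finite checks -/
def mkS (g ex rb q : ℕ) (y : ℕ → Bool) (rk : ℕ → ℕ) (up dn : ℕ → ℕ → ℕ) (a b : ℕ → ℕ)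
    (h1 : 1 ≤ g) (h2 : 1 ≤ q) (h3 : ∀ i < g, rk i < g)
    (h4 : ∀ i < g, ∀ j < g, rk i = rk j → i = j)
    (h5 : ∀ i' < g, ∀ i < i' + 1, ∀ G < i, up G i ≤ up G i')
    (h6 : ∀ i < g, ∀ G < i, (rk G < rk i ↔ (up G i % 2 = 1 ↔ y G = true)))
    (h7 : ∀ G < g, ∀ i' < G, ∀ i < i' + 1, dn G i' ≤ dn G i)
    (h8 : ∀ G < g, ∀ i < G, (rk G < rk i ↔ (dn G i % 2 = 0 ↔ y G = true)))
    (h9 : ∀ G < g, (∀ i < g, G < i → up G i ≤ a G) ∧ (∀ i < G, dn G i ≤ b G) ∧
      a G + 2 * b G ≤ ex)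
    (h10 : (tyl g).all (fun τ => (τ.length != q) || good rk y rb τ) = true) : GSys where
  g := g
  ex := ex
  rb := rb
  q := q
  y := y
  rk := rk
  up := up
  dn := dn
  g1 := h1
  q1 := h2
  rk_lt := h3
  rk_inj := h4
  up_mono := fun G i i' k1 k2 k3 => h5 i' k3 i (by omega) G k1
  up_par := fun G i k1 k2 => h6 i k2 G k1
  dn_mono := fun G i i' k1 k2 k3 => h7 G k3 i' k2 i (by omega)
  dn_par := fun G i k1 k2 => h8 G k2 i k1
  bound := fun G hG => ⟨a G, b G, fun i k1 k2 => (h9 G hG).1 i k2 k1, (h9 G hG).2.1,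
    (h9 G hG).2.2⟩
  rob := by
    intro τ k1 k2 k3
    have k4 := mem_tyl g τ k2 k3
    rw [List.all_eq_true] at h10
    have k5 := h10 τ k4
    rw [k1] at k5
    simp only [bne_self_eq_false, Bool.false_or] at k5
    unfold good at k5
    rw [List.any_eq_true] at k5
    obtain ⟨i, hi, k6⟩ := k5
    have hi' := List.mem_range.1 hi
    have k7 := of_decide_eq_true k6
    rw [List.getD_eq_getElem _ _ hi'] at k7
    refine ⟨τ.take i, τ[i], τ.drop (i + 1), ?_, k7⟩
    rw [← List.drop_eq_getElem_cons hi', List.take_append_drop]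

/-- tables -/
def tb (l : List (List ℕ)) (G i : ℕ) : ℕ := (l.getD G []).getD i 0

/-- two groups -/
def sysA : GSys := mkS 2 1 1 2 (fun i => [true, false].getD i true) (fun i => [0, 1].getD i 0)
  (tb [[0, 1], [0, 0]]) (tb [[0, 0], [0, 0]]) (fun i => [1, 0].getD i 0) (fun i => [0, 0].getD i 0)
  (by decide) (by decide) (by decide) (by decide) (by decide) (by decide) (by decide)
  (by decide) (by decide) (by decide)

set_option maxRecDepth 100000 in
/-- four groups -/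
def sysB : GSys := mkS 4 2 2 3 (fun i => [true, false, false, true].getD i true)
  (fun i => [1, 0, 3, 2].getD i 0)
  (tb [[0, 0, 1, 1], [0, 0, 0, 0], [0, 0, 0, 1], [0, 0, 0, 0]])
  (tb [[0, 0, 0, 0], [1, 0, 0, 0], [0, 0, 0, 0], [1, 1, 0, 0]])
  (fun i => [1, 0, 1, 0].getD i 0) (fun i => [0, 1, 0, 1].getD i 0)
  (by decide) (by decide) (by decide) (by decide) (by decide) (by decide) (by decide)
  (by decide) (by decide) (by decide)

set_option maxRecDepth 100000 in
/-- five groups -/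
def sysC : GSys := mkS 5 2 1 3 (fun i => [true, true, true, false, false].getD i true)
  (fun i => [3, 4, 0, 1, 2].getD i 0)
  (tb [[0, 1, 2, 2, 2], [0, 0, 0, 0, 0], [0, 0, 0, 1, 1], [0, 0, 0, 0, 0], [0, 0, 0, 0, 0]])
  (tb [[0, 0, 0, 0, 0], [1, 0, 0, 0, 0], [0, 0, 0, 0, 0], [1, 1, 0, 0, 0], [1, 1, 0, 0, 0]])
  (fun i => [2, 0, 1, 0, 0].getD i 0) (fun i => [0, 1, 0, 1, 1].getD i 0)
  (by decide) (by decide) (by decide) (by decide) (by decide) (by decide) (by decide)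
  (by decide) (by decide) (by decide)

end Pool.Agent.H595K.Grp
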