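import Mathlib
import Pool.Agent.H595K.QInst

/-!
# The exponents `1 / 2` and `2 / 5`
-/

namespace Pool.Agent.H595K.Grp

open Finset Nst

theorem sys_bound' (S : GSys) (hg : 2 ≤ S.g) {h n : ℕ} (hh : 1 ≤ h) (hn : 16 ≤ n) {C e : ℝ}
    (hC1 : 3 * (4 * 3 ^ S.g) ^ S.g * 2 ^ (S.q - 1) ≤ C)
    (hC2 : S.g * (12 * 5 ^ h * 3 ^ (h - 1) + 2) ≤ C) (he : ((S.q - 1 : ℕ) : ℝ) / S.g = e) :
    ∀ j k, j < 3 * h + S.rb → 3 * h + S.ex ≤ k →
      (f k j n : ℝ) ≤ C * (n : ℝ) ^ e *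
        Real.exp (C * Real.log n ^ (((h : ℝ) - 1) / h) * Real.log (Real.log n)) := by
  intro j k hj hk
  have h1 := sys_bound S hg hh hn j k hj hk
  rw [he] at h1
  refine h1.trans ?_
  have hL := log16 hn
  have hLL : 0 ≤ Real.log (Real.log n) := Real.log_nonneg (by linarith)
  have hn0 : (0 : ℝ) ≤ (n : ℝ) ^ e := by positivity
  have e1 : (((h - 1 : ℕ) : ℝ) / h) = ((h : ℝ) - 1) / h := by
    rw [Nat.cast_sub hh, Nat.cast_one]
  have h2 : bd (S.g * (12 * 5 ^ h * 3 ^ (h - 1) + 2)) (((h - 1 : ℕ) : ℝ) / h) n ≤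
      Real.exp (C * Real.log n ^ (((h : ℝ) - 1) / h) * Real.log (Real.log n)) := by
    unfold bd
    rw [e1]
    apply Real.exp_le_exp.2
    apply mul_le_mul_of_nonneg_right _ hLL
    apply mul_le_mul_of_nonneg_right hC2
    exact Real.rpow_nonneg (by linarith) _
  apply mul_le_mul _ h2 (Real.exp_pos _).le
  · apply mul_nonneg _ hn0
    refine le_trans ?_ hC1
    positivity
  · exact mul_le_mul_of_nonneg_right hC1 hn0

theorem three_bounds (h : ℕ) (hh : 1 ≤ h) : ∃ C : ℝ, ∀ n : ℕ, 16 ≤ n →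
    (∀ k, 3 * h < k → (f k (3 * h) n : ℝ) ≤ C * (n : ℝ) ^ ((1 : ℝ) / 2) *
      Real.exp (C * Real.log n ^ (((h : ℝ) - 1) / h) * Real.log (Real.log n))) ∧
    (∀ k, 3 * h + 1 < k → (f k (3 * h + 1) n : ℝ) ≤ C * (n : ℝ) ^ ((1 : ℝ) / 2) *
      Real.exp (C * Real.log n ^ (((h : ℝ) - 1) / h) * Real.log (Real.log n))) ∧
    (∀ k, 3 * h + 1 < k → (f k (3 * h) n : ℝ) ≤ C * (n : ℝ) ^ ((2 : ℝ) / 5) *
      Real.exp (C * Real.log n ^ (((h : ℝ) - 1) / h) * Real.log (Real.log n))) := by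
  obtain ⟨c, hc⟩ : ∃ c : ℝ, c = 12 * 5 ^ h * 3 ^ (h - 1) + 2 := ⟨_, rfl⟩
  have hc1 : 1 ≤ c := by
    rw [hc]
    have : (0 : ℝ) ≤ 12 * 5 ^ h * 3 ^ (h - 1) := by positivity
    linarith
  refine ⟨12 * 972 ^ 5 * c, ?_⟩
  intro n hn
  have hbig : (12 * 972 ^ 5 : ℝ) ≤ 12 * 972 ^ 5 * c := le_mul_of_one_le_right (by norm_num) hc1
  refine ⟨?_, ?_, ?_⟩
  · intro k hk
    refine sys_bound' sysA (by decide) hh hn ?_ ?_ ?_ (3 * h) k ?_ ?_
    · refine le_trans ?_ hbig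
      change (3 * (4 * 3 ^ 2) ^ 2 * 2 ^ (2 - 1) : ℝ) ≤ _
      norm_num
    · rw [← hc]
      change (((2 : ℕ) : ℝ)) * c ≤ _
      apply mul_le_mul_of_nonneg_right _ (by linarith)
      norm_num
    · change (((2 - 1 : ℕ) : ℝ)) / ((2 : ℕ) : ℝ) = 1 / 2
      norm_num
    · change 3 * h < 3 * h + 1
      omega
    · change 3 * h + 1 ≤ k
      omega
  · intro k hk
    refine sys_bound' sysB (by decide) hh hn ?_ ?_ ?_ (3 * h + 1) k ?_ ?_
    · refine le_trans ?_ hbig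
      change (3 * (4 * 3 ^ 4) ^ 4 * 2 ^ (3 - 1) : ℝ) ≤ _
      norm_num
    · rw [← hc]
      change (((4 : ℕ) : ℝ)) * c ≤ _
      apply mul_le_mul_of_nonneg_right _ (by linarith)
      norm_num
    · change (((3 - 1 : ℕ) : ℝ)) / ((4 : ℕ) : ℝ) = 1 / 2
      norm_num
    · change 3 * h + 1 < 3 * h + 2
      omega
    · change 3 * h + 2 ≤ k
      omega
  · intro k hk
    refine sys_bound' sysC (by decide) hh hn ?_ ?_ ?_ (3 * h) k ?_ ?_
    · refine le_trans ?_ hbig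
      change (3 * (4 * 3 ^ 5) ^ 5 * 2 ^ (3 - 1) : ℝ) ≤ _
      norm_num
    · rw [← hc]
      change (((5 : ℕ) : ℝ)) * c ≤ _
      apply mul_le_mul_of_nonneg_right _ (by linarith)
      norm_num
    · change (((3 - 1 : ℕ) : ℝ)) / ((5 : ℕ) : ℝ) = 2 / 5
      norm_num
    · change 3 * h < 3 * h + 1
      omega
    · change 3 * h + 2 ≤ k
      omega

end Pool.Agent.H595K.Grp
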