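import Mathlib
import Pool.Agent.H595K.Ann
import Pool.Agent.H595K.LtCore

/-!
# Cleaning of labelled trees: the scale of the exit times
-/

namespace Pool.Agent.H595K.Lb.R

open LT

open Classical in
/-- number of nodes with a label below `x` above the leaf `i` -/
noncomputable def cn (x : ℝ) (i : ℕ) : LT ℝ → ℕ
  | leaf _ => 0
  | node w a b => (if w < x then 1 else 0) + (if i ∈ a.lv then cn x i a else cn x i b)

theorem cn_mono {x x' : ℝ} (h : x ≤ x') (i : ℕ) (t : LT ℝ) : cn x i t ≤ cn x' i t := by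
  induction t with
  | leaf j => exact le_rfl
  | node w a b iha ihb =>
    simp only [cn]
    have h1 : (if w < x then 1 else 0) ≤ (if w < x' then 1 else 0) := by
      by_cases h2 : w < x
      · rw [if_pos h2, if_pos (h2.trans_le h)]
      · rw [if_neg h2]; exact Nat.zero_le _
    split_ifs at h1 ⊢ <;> omega

theorem cn_le_ht (x : ℝ) (i : ℕ) (t : LT ℝ) : cn x i t ≤ t.ht := by
  induction t with
  | leaf j => exact le_rfl
  | node w a b iha ihb =>
    simp only [cn, LT.ht]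
    split_ifs <;> omega

theorem cn_zero {v : ℝ} (i : ℕ) {t : LT ℝ} (h : AllL (fun u => v < u) t) : cn v i t = 0 := by
  induction t with
  | leaf j => rfl
  | node w a b iha ihb =>
    simp only [cn]
    rw [if_neg (not_lt.2 h.1.le), iha h.2.1, ihb h.2.2]
    split_ifs <;> rfl

/-- subtrees with annotated scales of the exit times -/
inductive Gd : LT (ℝ × ℕ) → LT ℝ → Prop
  | leaf (i : ℕ) : Gd (leaf i) (leaf i)
  | left {t' : LT (ℝ × ℕ)} {l : LT ℝ} (x : ℝ) (r : LT ℝ) (h : Gd t' l) : Gd t' (node x l r)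
  | right {t' : LT (ℝ × ℕ)} {r : LT ℝ} (x : ℝ) (l : LT ℝ) (h : Gd t' r) : Gd t' (node x l r)
  | node {x : ℝ} {s : ℕ} {l' r' : LT (ℝ × ℕ)} {l r : LT ℝ} (hl : Gd l' l) (hr : Gd r' r)
      (hs : ∀ i ∈ r'.lv, Nat.log 2 (cn x i r + 1) = s) : Gd (node (x, s) l' r') (node x l r)

theorem Gd.sublist {t' : LT (ℝ × ℕ)} {t : LT ℝ} (h : Gd t' t) : t'.lv.Sublist t.lv := by
  induction h with
  | leaf i => exact List.Sublist.refl _
  | left x r _ ih => exact ih.trans (List.sublist_append_left _ _)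
  | right x l _ ih => exact ih.trans (List.sublist_append_right _ _)
  | node _ _ _ ihl ihr => exact ihl.append ihr

theorem Gd.mem {t' : LT (ℝ × ℕ)} {t : LT ℝ} (h : Gd t' t) {i : ℕ} (hi : i ∈ t'.lv) : i ∈ t.lv :=
  h.sublist.subset hi

theorem Gd.ht_le {t' : LT (ℝ × ℕ)} {t : LT ℝ} (h : Gd t' t) : t'.ht ≤ t.ht := by
  induction h with
  | leaf i => exact le_rfl
  | left x r _ ih => simp only [LT.ht]; omega
  | right x l _ ih => simp only [LT.ht]; omega
  | node _ _ _ ihl ihr => simp only [LT.ht]; omega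

theorem Gd.sub {t' : LT (ℝ × ℕ)} {t : LT ℝ} (h : Gd t' t) :
    Sub (fun _ _ _ => True) (strip t') t := by
  induction h with
  | leaf i => exact Sub.leaf i
  | left x r _ ih => exact Sub.left _ _ ih
  | right x l _ ih => exact Sub.right _ _ ih
  | node _ _ _ ihl ihr => exact Sub.node trivial ihl ihr

theorem Gd.trans {c : ℝ × ℕ → LT (ℝ × ℕ) → LT (ℝ × ℕ) → Prop} {t' : LT (ℝ × ℕ)} {t : LT ℝ}
    (h : Gd t' t) : ∀ {t'' : LT (ℝ × ℕ)}, Sub c t'' t' → Gd t'' t := by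
  induction h with
  | leaf i =>
    intro t'' hs
    cases hs with
    | leaf => exact Gd.leaf i
  | left x r _ ih => intro t'' hs; exact Gd.left _ _ (ih hs)
  | right x l _ ih => intro t'' hs; exact Gd.right _ _ (ih hs)
  | node _ _ hs' ihl ihr =>
    intro t'' hs
    cases hs with
    | left a r h1 => exact Gd.left _ _ (ihl h1)
    | right a l h1 => exact Gd.right _ _ (ihr h1)
    | node hc h1 h2 => exact Gd.node (ihl h1) (ihr h2) (fun i hi => hs' i (h2.mem hi))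

theorem lv_strip (t : LT (ℝ × ℕ)) : (strip t).lv = t.lv := by
  induction t with
  | leaf i => rfl
  | node x l r hl hr => simp only [strip, lv, hl, hr]

theorem allN_mem {α : Type} (t : LT α) : AllN (fun _ _ r => ∀ i ∈ r.lv, i ∈ t.lv) t := by
  induction t with
  | leaf i => trivial
  | node x l r hl hr =>
    refine ⟨fun i hi => by simp only [lv, List.mem_append]; exact Or.inr hi, ?_, ?_⟩
    · exact hl.imp (fun _ _ _ h i hi => by
        simp only [lv, List.mem_append]; exact Or.inl (h i hi))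
    · exact hr.imp (fun _ _ _ h i hi => by
        simp only [lv, List.mem_append]; exact Or.inr (h i hi))

theorem cn_left {x w : ℝ} {i : ℕ} {l r : LT ℝ} (hi : i ∈ l.lv) :
    ∃ e, cn x i (node w l r) = e + cn x i l ∧ e ≤ 1 ∧ (w < x → e = 1) ∧ (¬ w < x → e = 0) := by
  classical
  refine ⟨if w < x then 1 else 0, ?_, ?_, fun h => if_pos h, fun h => if_neg h⟩
  · simp only [cn]
    rw [if_pos hi]
  · split_ifs <;> omega

theorem cn_right {x w : ℝ} {i : ℕ} {l r : LT ℝ} (hi : i ∉ l.lv) :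
    ∃ e, cn x i (node w l r) = e + cn x i r ∧ e ≤ 1 ∧ (w < x → e = 1) ∧ (¬ w < x → e = 0) := by
  classical
  refine ⟨if w < x then 1 else 0, ?_, ?_, fun h => if_pos h, fun h => if_neg h⟩
  · simp only [cn]
    rw [if_neg hi]
  · split_ifs <;> omega

theorem nodup_parts {w : ℝ} {l r : LT ℝ} (h : (node w l r).lv.Nodup) :
    l.lv.Nodup ∧ r.lv.Nodup ∧ ∀ i ∈ r.lv, i ∉ l.lv := by
  simp only [lv] at h
  rw [List.nodup_append] at h
  exact ⟨h.1, h.2.1, fun i hi hi' => h.2.2 i hi' i hi rfl⟩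

/-- inner comparison -/
theorem gd_inner {v x : ℝ} {b' : LT (ℝ × ℕ)} {b : LT ℝ} (h : Gd b' b) (hC : Cl v b)
    (hn : b.lv.Nodup) : AllN (fun p _ r' => v < p.1 → p.1 < x → ∀ i ∈ r'.lv, ∃ m,
      Nat.log 2 (m + 1) = p.2 ∧ cn v i b + 1 + m ≤ cn x i b) b' := by
  have step : ∀ (w : ℝ) (l r t0 : LT ℝ) (t' : LT (ℝ × ℕ)), v < x →
      (∀ i ∈ t'.lv, (∃ e e', cn v i (node w l r) = e + cn v i t0 ∧
        cn x i (node w l r) = e' + cn x i t0 ∧ e ≤ e')) →
      AllN (fun p _ r' => v < p.1 → p.1 < x → ∀ i ∈ r'.lv, ∃ m,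
        Nat.log 2 (m + 1) = p.2 ∧ cn v i t0 + 1 + m ≤ cn x i t0) t' →
      AllN (fun p _ r' => v < p.1 → p.1 < x → ∀ i ∈ r'.lv, ∃ m,
        Nat.log 2 (m + 1) = p.2 ∧ cn v i (node w l r) + 1 + m ≤ cn x i (node w l r)) t' := by
    intro w l r t0 t' _ h1 h2
    refine (h2.and (allN_mem t')).imp ?_
    rintro p l' r' ⟨h3, h4⟩ hp1 hp2 i hi
    obtain ⟨m, k1, k2⟩ := h3 hp1 hp2 i hi
    obtain ⟨e, e', k3, k4, k5⟩ := h1 i (h4 i hi)
    exact ⟨m, k1, by omega⟩
  by_cases hvx : v < x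
  swap
  · refine AllN.of_forall (fun p _ _ hp1 hp2 => absurd (hp1.trans hp2) hvx) _
  have hle : ∀ (w : ℝ) (l r : LT ℝ) (i : ℕ), i ∈ l.lv →
      ∃ e e', cn v i (node w l r) = e + cn v i l ∧ cn x i (node w l r) = e' + cn x i l ∧
        e ≤ e' := by
    intro w l r i hi
    obtain ⟨e, k1, k2, k3, k4⟩ := cn_left (x := v) (w := w) (r := r) hi
    obtain ⟨e', k1', k2', k3', k4'⟩ := cn_left (x := x) (w := w) (r := r) hi
    refine ⟨e, e', k1, k1', ?_⟩
    by_cases hw : w < v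
    · rw [k3' (hw.trans hvx)]; exact k2
    · rw [k4 hw]; exact Nat.zero_le _
  have hri : ∀ (w : ℝ) (l r : LT ℝ) (i : ℕ), i ∉ l.lv →
      ∃ e e', cn v i (node w l r) = e + cn v i r ∧ cn x i (node w l r) = e' + cn x i r ∧
        e ≤ e' := by
    intro w l r i hi
    obtain ⟨e, k1, k2, k3, k4⟩ := cn_right (x := v) (w := w) (r := r) hi
    obtain ⟨e', k1', k2', k3', k4'⟩ := cn_right (x := x) (w := w) (r := r) hi
    refine ⟨e, e', k1, k1', ?_⟩
    by_cases hw : w < v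
    · rw [k3' (hw.trans hvx)]; exact k2
    · rw [k4 hw]; exact Nat.zero_le _
  induction h with
  | leaf i => trivial
  | @left t' l w r h1 ih =>
    obtain ⟨n1, n2, n3⟩ := nodup_parts hn
    exact step w l r l t' hvx (fun i hi => hle w l r i (h1.mem hi)) (ih hC.2.1 n1)
  | @right t' r w l h1 ih =>
    obtain ⟨n1, n2, n3⟩ := nodup_parts hn
    exact step w l r r t' hvx (fun i hi => hri w l r i (n3 i (h1.mem hi))) (ih hC.2.2 n2)
  | @node y s l' r' l r hl hr hs ihl ihr =>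
    obtain ⟨n1, n2, n3⟩ := nodup_parts hn
    refine ⟨?_, step y l r l l' hvx (fun i hi => hle y l r i (hl.mem hi)) (ihl hC.2.1 n1),
      step y l r r r' hvx (fun i hi => hri y l r i (n3 i (hr.mem hi))) (ihr hC.2.2 n2)⟩
    intro hp1 hp2 i hi
    simp only at hp1 hp2
    have hir := hr.mem hi
    obtain ⟨e, k1, k2, k3, k4⟩ := cn_right (x := v) (w := y) (r := r) (n3 i hir)
    obtain ⟨e', k1', k2', k3', k4'⟩ := cn_right (x := x) (w := y) (r := r) (n3 i hir)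
    refine ⟨cn y i r, hs i hi, ?_⟩
    rw [k1, k1', k4 (not_lt.2 hp1.le), k3' hp2, cn_zero i (hC.1 hp1).2]
    have := cn_mono hp2.le i r
    omega

/-- outer comparison -/
theorem gd_outer {x : ℝ} {b' : LT (ℝ × ℕ)} {b : LT ℝ} (h : Gd b' b) (hL : Lm b)
    (hn : b.lv.Nodup) : AllN (fun p _ r' => p.1 < x → AllN (fun q _ r'' => p.1 < q.1 → q.1 < x →
      ∀ i ∈ r''.lv, ∃ m1 m2, Nat.log 2 (m1 + 1) = p.2 ∧ Nat.log 2 (m2 + 1) = q.2 ∧
        m1 + m2 + 2 ≤ cn x i b) r') b' := by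
  have step : ∀ (w : ℝ) (l r t0 : LT ℝ) (t' : LT (ℝ × ℕ)),
      (∀ i ∈ t'.lv, cn x i t0 ≤ cn x i (node w l r)) →
      AllN (fun p _ r' => p.1 < x → AllN (fun q _ r'' => p.1 < q.1 → q.1 < x →
        ∀ i ∈ r''.lv, ∃ m1 m2, Nat.log 2 (m1 + 1) = p.2 ∧ Nat.log 2 (m2 + 1) = q.2 ∧
          m1 + m2 + 2 ≤ cn x i t0) r') t' →
      AllN (fun p _ r' => p.1 < x → AllN (fun q _ r'' => p.1 < q.1 → q.1 < x →
        ∀ i ∈ r''.lv, ∃ m1 m2, Nat.log 2 (m1 + 1) = p.2 ∧ Nat.log 2 (m2 + 1) = q.2 ∧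
          m1 + m2 + 2 ≤ cn x i (node w l r)) r') t' := by
    intro w l r t0 t' h1 h2
    refine (h2.and (allN_mem t')).imp ?_
    rintro p l' r' ⟨h3, h4⟩ hp
    refine ((h3 hp).and (allN_mem r')).imp ?_
    rintro q l'' r'' ⟨h5, h6⟩ hq1 hq2 i hi
    obtain ⟨m1, m2, k1, k2, k3⟩ := h5 hq1 hq2 i hi
    exact ⟨m1, m2, k1, k2, k3.trans (h1 i (h4 i (h6 i hi)))⟩
  have hle : ∀ (w : ℝ) (l r : LT ℝ) (i : ℕ), i ∈ l.lv → cn x i l ≤ cn x i (node w l r) := by
    intro w l r i hi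
    obtain ⟨e, k1, _⟩ := cn_left (x := x) (w := w) (r := r) hi
    omega
  have hri : ∀ (w : ℝ) (l r : LT ℝ) (i : ℕ), i ∉ l.lv → cn x i r ≤ cn x i (node w l r) := by
    intro w l r i hi
    obtain ⟨e, k1, _⟩ := cn_right (x := x) (w := w) (r := r) hi
    omega
  induction h with
  | leaf i => trivial
  | @left t' l w r h1 ih =>
    obtain ⟨n1, n2, n3⟩ := nodup_parts hn
    exact step w l r l t' (fun i hi => hle w l r i (h1.mem hi)) (ih hL.2.1 n1)
  | @right t' r w l h1 ih =>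
    obtain ⟨n1, n2, n3⟩ := nodup_parts hn
    exact step w l r r t' (fun i hi => hri w l r i (n3 i (h1.mem hi))) (ih hL.2.2 n2)
  | @node y s l' r' l r hl hr hs ihl ihr =>
    obtain ⟨n1, n2, n3⟩ := nodup_parts hn
    refine ⟨?_, step y l r l l' (fun i hi => hle y l r i (hl.mem hi)) (ihl hL.2.1 n1),
      step y l r r r' (fun i hi => hri y l r i (n3 i (hr.mem hi))) (ihr hL.2.2 n2)⟩
    intro hp
    simp only at hp
    have h1 := gd_inner (v := y) (x := x) hr hL.1 n2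
    refine (h1.and (allN_mem r')).imp ?_
    rintro q l'' r'' ⟨h3, h4⟩ hq1 hq2 i hi
    simp only at hq1
    obtain ⟨m, k1, k2⟩ := h3 hq1 hq2 i hi
    have hir' := h4 i hi
    obtain ⟨e, k3, _, k4, _⟩ := cn_right (x := x) (w := y) (r := r) (n3 i (hr.mem hir'))
    refine ⟨cn y i r, m, hs i hir', k1, ?_⟩
    rw [k3, k4 hp]
    omega

theorem log_add {a b c s : ℕ} (ha : Nat.log 2 (a + 1) = s) (hb : Nat.log 2 (b + 1) = s)
    (hc : Nat.log 2 (c + 1) = s) (h : a + b + 2 ≤ c) : False := by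
  have h1 : 2 ^ s ≤ a + 1 := by rw [← ha]; exact Nat.pow_log_le_self 2 (by omega)
  have h2 : 2 ^ s ≤ b + 1 := by rw [← hb]; exact Nat.pow_log_le_self 2 (by omega)
  have h3 : c + 1 < 2 ^ (s + 1) := by
    rw [← hc]; exact Nat.lt_pow_succ_log_self (by norm_num) _
  rw [pow_succ] at h3
  omega

/-- monochromatic cleaned trees are layered -/
theorem p3_of_gd {t' : LT (ℝ × ℕ)} {t : LT ℝ} {c : ℕ} (h : Gd t' t) (hL : Lm t)
    (hn : t.lv.Nodup) (hc : AllL (fun p => p.2 = c) t') : P3 t' := by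
  induction h with
  | leaf i => trivial
  | left x r _ ih => exact ih hL.2.1 (nodup_parts hn).1 hc
  | right x l _ ih => exact ih hL.2.2 (nodup_parts hn).2.1 hc
  | @node y s l' r' l r hl hr hs ihl ihr =>
    obtain ⟨n1, n2, n3⟩ := nodup_parts hn
    refine ⟨?_, ihl hL.2.1 n1 hc.2.1, ihr hL.2.2 n2 hc.2.2⟩
    have h1 := gd_outer (x := y) hr hL.2.2 n2
    have hcr := hc.2.2
    refine ((h1.and (allN_mem r')).and (allN_of_allL hcr).deep).imp ?_
    rintro p l1 r1 ⟨⟨h2, h3⟩, h4, _, h5⟩ hp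
    apply allL_of_allN
    refine (((h2 hp).and (allN_mem r1)).and h5).imp ?_
    rintro q l2 r2 ⟨⟨h6, h7⟩, h8⟩ hq1 hq2
    exfalso
    obtain ⟨i, hi⟩ := exists_mem r2
    obtain ⟨m1, m2, k1, k2, k3⟩ := h6 hq1 hq2 i hi
    have hs' := hs i (h3 i (h7 i hi))
    have hsc : s = c := hc.1
    rw [h4] at k1
    rw [h8] at k2
    exact log_add k1 k2 (hs'.trans hsc) k3

end Pool.Agent.H595K.Lb.R
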