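import Mathlib
import Pool.Agent.H595K.RClean
import Pool.Agent.H595K.Core2

/-!
# Large `3`-convex subsets of `k`-convex sets, third version
-/

namespace Pool.Agent.H595K.Lb.R

open LT

theorem restrict {α : Type} (p : ℕ → Bool) : ∀ (t : LT α), (∃ i ∈ t.lv, p i = true) →
    ∃ t', Sub (fun _ _ _ => True) t' t ∧ t'.lv = t.lv.filter p := by
  intro t
  induction t with
  | leaf i =>
    rintro ⟨j, hj, hp⟩
    simp only [lv, List.mem_singleton] at hj
    subst hj
    exact ⟨leaf j, Sub.leaf j, by simp [lv, hp]⟩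
  | node a l r hl hr =>
    intro h
    simp only [lv, List.filter_append]
    by_cases h1 : ∃ i ∈ l.lv, p i = true
    · obtain ⟨l', k1, k2⟩ := hl h1
      by_cases h2 : ∃ i ∈ r.lv, p i = true
      · obtain ⟨r', k3, k4⟩ := hr h2
        exact ⟨node a l' r', Sub.node trivial k1 k3, by simp only [lv, k2, k4]⟩
      · refine ⟨l', Sub.left _ _ k1, ?_⟩
        push Not at h2
        have : r.lv.filter p = [] := by
          rw [List.filter_eq_nil_iff]
          intro i hi
          exact h2 i hi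
        rw [this, List.append_nil, k2]
    · push Not at h1
      have e1 : l.lv.filter p = [] := by
        rw [List.filter_eq_nil_iff]
        intro i hi
        exact h1 i hi
      obtain ⟨i, hi, hp⟩ := h
      simp only [lv, List.mem_append] at hi
      have h2 : ∃ i ∈ r.lv, p i = true := by
        rcases hi with hi | hi
        · exact absurd hp (h1 i hi)
        · exact ⟨i, hi, hp⟩
      obtain ⟨r', k3, k4⟩ := hr h2
      exact ⟨r', Sub.right _ _ k3, by rw [e1, List.nil_append, k4]⟩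

theorem sum_filter (sc : ℕ → ℕ) (q : ℕ) : ∀ (l : List ℕ), (∀ i ∈ l, sc i < q) →
    l.length = ∑ s ∈ Finset.range q, (l.filter (fun i => sc i == s)).length := by
  intro l
  induction l with
  | nil => intro _; simp
  | cons a l ih =>
    intro h
    have h1 := ih (fun i hi => h i (List.mem_cons_of_mem _ hi))
    have h2 : ∀ s, ((a :: l).filter (fun i => sc i == s)).length =
        (if sc a = s then 1 else 0) + (l.filter (fun i => sc i == s)).length := by
      intro s
      rw [List.filter_cons]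
      by_cases h3 : sc a = s
      · have e : (sc a == s) = true := by rw [beq_iff_eq]; exact h3
        rw [e, if_pos h3]
        simp only [if_true, List.length_cons]
        omega
      · have e : (sc a == s) = false := by rw [beq_eq_false_iff_ne]; exact h3
        rw [e, if_neg h3]
        simp
    rw [Finset.sum_congr rfl (fun s _ => h2 s), Finset.sum_add_distrib, ← h1,
      Finset.sum_ite_eq, if_pos (Finset.mem_range.2 (h a (List.mem_cons_self))),
      List.length_cons]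
    omega

theorem popular (sc : ℕ → ℕ) {q : ℕ} {l : List ℕ} (h : ∀ i ∈ l, sc i < q)
    (hl : 0 < l.length) : ∃ s < q, l.length ≤ q * (l.filter (fun i => sc i == s)).length := by
  by_contra hcon
  push Not at hcon
  have h1 := sum_filter sc q l h
  have hq : 0 < q := by
    obtain ⟨i, hi⟩ := List.exists_mem_of_length_pos hl
    have := h i hi
    omega
  have h2 : ∑ s ∈ Finset.range q, q * (l.filter (fun i => sc i == s)).length <
      ∑ _s ∈ Finset.range q, l.length :=
    Finset.sum_lt_sum_of_nonempty ⟨0, Finset.mem_range.2 hq⟩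
      (fun s hs => hcon s (Finset.mem_range.1 hs))
  rw [← Finset.mul_sum, ← h1] at h2
  simp at h2

/-- the cleaning -/
theorem clean {D q : ℕ} (hq : Nat.log 2 (D + 1) < q) : ∀ (t : LT ℝ) (n : ℕ), Comp n t →
    t.ht ≤ D → ∃ t', Gd t' t ∧ (q + 1) ^ n ≤ t'.lv.length * q ^ n ∧
      AllL (fun p => p.2 < q) t' := by
  intro t
  induction t with
  | leaf i =>
    intro n hn _
    cases n with
    | zero => exact ⟨leaf i, Gd.leaf i, by simp [lv], trivial⟩
    | succ n => exact absurd hn (by simp [Comp])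
  | node x l r ihl ihr =>
    intro n hn hD
    cases n with
    | zero => exact absurd hn (by simp [Comp])
    | succ n =>
      simp only [LT.ht] at hD
      obtain ⟨l', a1, a2, a3⟩ := ihl n hn.1 (by omega)
      obtain ⟨r', b1, b2, b3⟩ := ihr n hn.2 (by omega)
      have hsc : ∀ i ∈ r'.lv, Nat.log 2 (cn x i r + 1) < q := by
        intro i _
        have h1 := cn_le_ht x i r
        exact lt_of_le_of_lt (Nat.log_mono_right (by omega)) hq
      obtain ⟨s, hs, k1⟩ := popular (fun i => Nat.log 2 (cn x i r + 1)) hsc (lv_pos r')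
      have hne : ∃ i ∈ r'.lv, (fun i => Nat.log 2 (cn x i r + 1) == s) i = true := by
        have h1 : 0 < (r'.lv.filter (fun i => Nat.log 2 (cn x i r + 1) == s)).length := by
          by_contra hc
          have h0 : (r'.lv.filter (fun i => Nat.log 2 (cn x i r + 1) == s)).length = 0 := by
            omega
          rw [h0, mul_zero] at k1
          have := lv_pos r'
          omega
        obtain ⟨i, hi⟩ := List.exists_mem_of_length_pos h1
        rw [List.mem_filter] at hi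
        exact ⟨i, hi.1, hi.2⟩
      obtain ⟨r'', c1, c2⟩ := restrict _ r' hne
      refine ⟨node (x, s) l' r'', Gd.node a1 (b1.trans c1) ?_, ?_, ⟨hs, a3, c1.allL b3⟩⟩
      · intro i hi
        rw [c2, List.mem_filter] at hi
        simpa using hi.2
      · simp only [lv, List.length_append]
        rw [← c2] at k1
        have h1 : (q + 1) ^ n ≤ q * r''.lv.length * q ^ n :=
          b2.trans (Nat.mul_le_mul_right _ k1)
        calc (q + 1) ^ (n + 1) = q * (q + 1) ^ n + (q + 1) ^ n := by ring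
          _ ≤ q * (l'.lv.length * q ^ n) + q * r''.lv.length * q ^ n :=
            Nat.add_le_add (Nat.mul_le_mul_left _ a2) h1
          _ = (l'.lv.length + r''.lv.length) * q ^ (n + 1) := by ring

theorem length_le {α : Type} : ∀ (t : LT α) (h : ℕ), t.ht ≤ h →
    t.lv.length ≤ (h + 1) ^ (rk (fun _ _ _ => 0) 0 t) := by
  intro t
  induction t with
  | leaf i => intro h _; simp [lv, rk]
  | node a l r hl hr =>
    intro h hh
    simp only [LT.ht] at hh
    obtain ⟨h', rfl⟩ : ∃ h', h = h' + 1 := ⟨h - 1, by omega⟩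
    have h1 := hl h' (by omega)
    have h2 := hr h' (by omega)
    simp only [lv, List.length_append]
    set p := rk (fun (_ : α) _ _ => 0) 0 l with hp
    set q := rk (fun (_ : α) _ _ => 0) 0 r with hq
    have h3 : rk (fun (_ : α) _ _ => 0) 0 (node a l r) = max (max p q) (min p q + 1) := by
      simp only [rk, if_true]; rfl
    rw [h3]
    have key : ∀ p q : ℕ, p < q → (h' + 1) ^ p + (h' + 1) ^ q ≤ (h' + 1 + 1) ^ q := by
      intro p q hpq
      obtain ⟨q', rfl⟩ : ∃ q', q = q' + 1 := ⟨q - 1, by omega⟩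
      have e1 : (h' + 1) ^ p ≤ (h' + 1) ^ q' := Nat.pow_le_pow_right (by omega) (by omega)
      have e2 : (h' + 1) ^ q' ≤ (h' + 1 + 1) ^ q' := Nat.pow_le_pow_left (by omega) _
      calc (h' + 1) ^ p + (h' + 1) ^ (q' + 1) ≤ (h' + 1) ^ q' + (h' + 1) ^ (q' + 1) :=
            Nat.add_le_add_right e1 _
        _ = (h' + 1) ^ q' * (h' + 1 + 1) := by ring
        _ ≤ (h' + 1 + 1) ^ q' * (h' + 1 + 1) := Nat.mul_le_mul_right _ e2
        _ = (h' + 1 + 1) ^ (q' + 1) := by ring
    rcases lt_trichotomy p q with h5 | h5 | h5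
    · have e1 : max (max p q) (min p q + 1) = q := by omega
      rw [e1]
      have := key p q h5
      omega
    · have e1 : max (max p q) (min p q + 1) = p + 1 := by omega
      rw [e1]
      rw [← h5] at h2
      have e2 : (h' + 1) ^ p ≤ (h' + 1 + 1) ^ p := Nat.pow_le_pow_left (by omega) _
      calc l.lv.length + r.lv.length ≤ (h' + 1) ^ p + (h' + 1) ^ p := Nat.add_le_add h1 h2
        _ ≤ (h' + 1 + 1) ^ p + (h' + 1 + 1) ^ p := Nat.add_le_add e2 e2
        _ = (h' + 1 + 1) ^ p * 2 := by ring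
        _ ≤ (h' + 1 + 1) ^ p * (h' + 1 + 1) := Nat.mul_le_mul_left _ (by omega)
        _ = (h' + 1 + 1) ^ (p + 1) := by ring
    · have e1 : max (max p q) (min p q + 1) = p := by omega
      rw [e1]
      have := key q p h5
      omega

theorem bern (q : ℕ) : ∀ m, q ^ m * (q + m) ≤ (q + 1) ^ m * q := by
  intro m
  induction m with
  | zero => simp
  | succ m ih =>
    calc q ^ (m + 1) * (q + (m + 1)) = q ^ m * (q * q + q * m + q) := by ring
      _ ≤ q ^ m * ((q + 1) * (q + m)) := Nat.mul_le_mul_left _ (by nlinarith)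
      _ = (q + 1) * (q ^ m * (q + m)) := by ring
      _ ≤ (q + 1) * ((q + 1) ^ m * q) := Nat.mul_le_mul_left _ ih
      _ = (q + 1) ^ (m + 1) * q := by ring

theorem two_pow_mul {q : ℕ} (hq : 0 < q) (e : ℕ) : 2 ^ e * q ^ (q * e) ≤ (q + 1) ^ (q * e) := by
  have h1 : 2 * q ^ q ≤ (q + 1) ^ q := by
    have h2 := bern q q
    have h3 : q ^ q * (q + q) = (2 * q ^ q) * q := by ring
    rw [h3] at h2
    exact Nat.le_of_mul_le_mul_right h2 hq
  calc 2 ^ e * q ^ (q * e) = (2 * q ^ q) ^ e := by rw [mul_pow, pow_mul]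
    _ ≤ ((q + 1) ^ q) ^ e := Nat.pow_le_pow_left h1 e
    _ = (q + 1) ^ (q * e) := by rw [pow_mul]

theorem arith3 {D q Y : ℕ} (hq : Nat.log 2 (D + 1) < q) (hD : (q * q * Y + 1) * q ≤ D) :
    (D + 1) ^ (q * Y) * q ^ D < (q + 1) ^ D := by
  have hq0 : 0 < q := by omega
  obtain ⟨e, he⟩ : ∃ e, e = q * q * Y + 1 := ⟨_, rfl⟩
  rw [← he] at hD
  obtain ⟨d, hd⟩ : ∃ d, D = q * e + d := ⟨D - q * e, by rw [mul_comm] at hD; omega⟩
  have h1 : D + 1 ≤ 2 ^ q := by
    have h2 : D + 1 < 2 ^ (Nat.log 2 (D + 1) + 1) := Nat.lt_pow_succ_log_self (by norm_num) _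
    exact h2.le.trans (Nat.pow_le_pow_right (by norm_num) hq)
  have h2 : (D + 1) ^ (q * Y) < 2 ^ e := by
    calc (D + 1) ^ (q * Y) ≤ (2 ^ q) ^ (q * Y) := Nat.pow_le_pow_left h1 _
      _ = 2 ^ (q * q * Y) := by rw [← pow_mul]; ring_nf
      _ < 2 ^ e := Nat.pow_lt_pow_right (by norm_num) (by omega)
  have hqD : 0 < q ^ D := Nat.pow_pos hq0
  calc (D + 1) ^ (q * Y) * q ^ D < 2 ^ e * q ^ D := Nat.mul_lt_mul_of_pos_right h2 hqD
    _ = (2 ^ e * q ^ (q * e)) * q ^ d := by rw [hd, pow_add]; ring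
    _ ≤ (q + 1) ^ (q * e) * (q + 1) ^ d :=
        Nat.mul_le_mul (two_pow_mul hq0 e) (Nat.pow_le_pow_left (by omega) _)
    _ = (q + 1) ^ D := by rw [hd, pow_add]

theorem comp_ht {α : Type} : ∀ (t : LT α) (n : ℕ), Comp n t → t.ht = n := by
  intro t
  induction t with
  | leaf i =>
    intro n h
    cases n with
    | zero => rfl
    | succ n => exact absurd h (by simp [Comp])
  | node a l r hl hr =>
    intro n h
    cases n with
    | zero => exact absurd h (by simp [Comp])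
    | succ n =>
      simp only [LT.ht]
      rw [hl n h.1, hr n h.2]
      simp

theorem lg_core3 {x y : ℕ → ℝ} {t : LT ℝ} {D q Y n : ℕ}
    (hx : t.lv.Pairwise (fun i j => x i < x j))
    (hCp : Compat (slp x y) t) (hLG : LG t) (hn : Comp n t) (hDn : 2 * D ≤ n)
    (hq : Nat.log 2 (D + 1) < q) (hD : (q * q * Y + 1) * q ≤ D) :
    ∃ Q : List ℕ, Q.length = 2 ^ Y + 1 ∧ (∀ i ∈ Q, i ∈ t.lv) ∧ Nice x y Q := by
  obtain ⟨t1, a1, a2, a3, _⟩ := lam_exists t n D ∅ hLG hn (by simp; omega)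
  have hx1 := hx.sublist a1.sublist
  have hCp1 := hCp.sub a1
  have hLG1 := LG.sub a1 hLG
  have hnd1 : t1.lv.Nodup := hx1.imp (fun h => by rintro rfl; exact lt_irrefl _ h)
  have hht1 : t1.ht ≤ D := (comp_ht t1 D a2).le
  obtain ⟨t2, b1, b2, b3⟩ := clean hq t1 D a2 hht1
  have hrk : q * Y < rk (fun _ _ _ => 0) 0 t2 := by
    by_contra hc
    push Not at hc
    have h1 := length_le t2 D (b1.ht_le.trans hht1)
    have h2 : t2.lv.length ≤ (D + 1) ^ (q * Y) := h1.trans (Nat.pow_le_pow_right (by omega) hc)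
    have h3 := arith3 hq hD
    have h4 : t2.lv.length * q ^ D ≤ (D + 1) ^ (q * Y) * q ^ D := Nat.mul_le_mul_right _ h2
    omega
  obtain ⟨t3, c1, c2⟩ := rk_spec (fun _ _ _ => 0) 0 t2 _ le_rfl
  have b4 : AllL (fun p => p.2 < q) t3 := c1.allL b3
  obtain ⟨c, _, t4, d1, d2⟩ := exists_color (fun (p : ℝ × ℕ) _ _ => p.2) (D := Y)
    (allN_of_allL b4) c2 hrk
  have hG4 : Gd t4 t1 := (b1.trans c1).trans d1
  have hcol : AllL (fun p => p.2 = c) t4 := by
    apply allL_of_allN
    refine d1.allN (AllN.of_forall (P := fun _ _ _ => True) (fun _ _ _ => trivial) _) ?_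
    intro a l r l' r' hc _ _ _
    exact hc
  have hP3 := p3_of_gd hG4 a3 hnd1 hcol
  have b5 := hG4.sub
  have hCp3 := hCp1.sub b5
  have hLay := lay_strip hP3 hcol hCp3.dst
  have hLG3 := LG.sub b5 hLG1
  have hLm3 := Lm.sub b5 a3
  have hx3 := hx1.sublist b5.sublist
  have b6 := comp_strip d2
  revert b6 hLay hLG3 hLm3 hx3 hCp3 b5
  generalize strip t4 = t5
  intro b5 hCp3 hLay hLG3 hLm3 hx3 b6
  cases t5 with
  | leaf i => exact absurd b6 (by simp [Comp])
  | node u l r =>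
    obtain ⟨z, hz⟩ := exists_mem r
    refine ⟨l.lv ++ [z], ?_, ?_, nice_of_lay hCp3 hLG3 hLm3 hLay hx3 hz⟩
    · rw [List.length_append, b6.1.length]; rfl
    · intro i hi
      apply a1.mem
      apply b5.mem
      simp only [lv, List.mem_append]
      rcases List.mem_append.1 hi with h | h
      · exact Or.inl h
      · right; rw [List.mem_singleton.1 h]; exact hz

theorem lt_core3 {x y : ℕ → ℝ} {t : LT ℝ} {D q Y n : ℕ}
    (hx : t.lv.Pairwise (fun i j => x i < x j))
    (hCp : Compat (slp x y) t) (hn : Comp n t) (hDn : 2 * (2 * D) * (2 * D) < n)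
    (hq : Nat.log 2 (D + 1) < q) (hD : (q * q * Y + 1) * q ≤ D) :
    ∃ Q : List ℕ, Q.length = 2 ^ Y + 1 ∧ (∀ i ∈ Q, i ∈ t.lv) ∧
      (Nice x y Q ∨ Nice x (fun n => - y n) Q ∨ Nice (fun n => - x n) (fun n => - y n) Q) := by
  rcases exists_good_sub hCp.dst hn hDn with ⟨t', h1, h2, h3⟩ | ⟨t', h1, h2, h3⟩ | ⟨t', h1, h2, h3⟩
  · -- left-bad
    have e1 : (fun i j => - slp x y i j) = slp x (fun n => - y n) := by
      funext i j; rw [slp_negY]
    have k1 : Compat (slp x (fun n => - y n)) (neg t') := by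
      rw [← e1]; exact compat_neg (hCp.sub h1)
    obtain ⟨Q, q1, q2, q3⟩ := lg_core3 (t := neg t') (by rw [lv_neg]; exact hx.sublist h1.sublist)
      k1 (lg_neg h3) (comp_neg h2) (by omega) hq hD
    exact ⟨Q, q1, fun i hi => h1.mem (by have := q2 i hi; rwa [lv_neg] at this), Or.inr (Or.inl q3)⟩
  · obtain ⟨Q, q1, q2, q3⟩ := lg_core3 (hx.sublist h1.sublist) (hCp.sub h1) h3 h2 (by omega) hq hD
    exact ⟨Q, q1, fun i hi => h1.mem (q2 i hi), Or.inl q3⟩
  · have e1 : slp (fun n => - x n) (fun n => - y n) = slp x y := by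
      funext i j; rw [slp_neg2]
    have k1 : Compat (slp (fun n => - x n) (fun n => - y n)) (mir t') := by
      rw [e1]; exact compat_mir (slp_comm x y) (hCp.sub h1)
    obtain ⟨Q, q1, q2, q3⟩ := lg_core3 (t := mir t') (by
        rw [lv_mir, List.pairwise_reverse]
        refine (hx.sublist h1.sublist).imp ?_
        intro i j hij
        linarith)
      k1 (lg_mir h3) (comp_mir h2) (by omega) hq hD
    exact ⟨Q, q1, fun i hi => h1.mem (by have := q2 i hi; rw [lv_mir] at this; simpa using this),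
      Or.inr (Or.inr q3)⟩

end Pool.Agent.H595K.Lb.R

namespace Pool.Agent.H595K

open Finset Vis124

open Tr in
theorem rcore_seq3 {x y : ℕ → ℝ} {N m σ G Y D q : ℕ} (hx : ∀ i j, i < j → j < N → x i < x j)
    (hA : NoAlt x y N (m + 1))
    (hgen : ∀ i j z, i < N → j < N → z < N → i ≠ j → j ≠ z → i ≠ z → slp x y i j ≠ slp x y i z)
    (hGN : G ^ (40 * σ) ≤ N) (hσ : 1 ≤ σ) (hG : G = 2 * (m + 1) * 80)
    (hDn : 2 * (2 * D) * (2 * D) < 7 * σ)
    (hq : Nat.log 2 (D + 1) < q) (hD : (q * q * Y + 1) * q ≤ D) :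
    ∃ Q : List ℕ, Q.length = 2 ^ Y + 1 ∧ (∀ i ∈ Q, i < N) ∧
      (Nice x y Q ∨ Nice x (fun n => - y n) Q ∨ Nice (fun n => - x n) (fun n => - y n) Q) := by
  obtain ⟨t, h1, h2, h3, h4, h5, h6⟩ := exists_tree2 hx hA hgen hGN hσ hG (by rw [hG]; positivity)
  obtain ⟨hf1, hf2⟩ := pow_facts σ hσ h1
  obtain ⟨T, t1, t2, t3⟩ := Lb.exists_compat (slp_comm x y) h6
  obtain ⟨t', k1, k2⟩ := LT.exists_comp (t := T) (h := 40 * σ) (n := t.lv.length) (d := 7 * σ - 1)
    (by rw [t2]; exact h5) (by rw [t1]) hf1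
  have e : 7 * σ - 1 + 1 = 7 * σ := by omega
  rw [e] at k2
  obtain ⟨Q, q1, q2, q3⟩ := Lb.R.lt_core3 (t := t') (Y := Y) (n := 7 * σ)
    (by rw [← t1] at h4; exact h4.sublist k1.sublist) (t3.sub k1) k2 hDn hq hD
  exact ⟨Q, q1, fun i hi => h2 i (by rw [← t1]; exact k1.mem (q2 i hi)), q3⟩

theorem rcore3 {k σ Y D q : ℕ} {P : Finset (ℝ × ℝ)} (hP : KConvexSet k P) (hσ : 1 ≤ σ)
    (hY1 : 1 ≤ Y)
    (hn : (320 * (k + 1)) ^ (40 * σ) * (320 * (k + 1)) ^ (40 * σ) < P.card)
    (hDn : 2 * (2 * D) * (2 * D) < 7 * σ)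
    (hq : Nat.log 2 (D + 1) < q) (hD : (q * q * Y + 1) * q ≤ D) :
    ∃ Q ⊆ P, KConvexSet 3 Q ∧ Q.card = 2 ^ Y + 1 := by
  obtain ⟨N, ε, p, hN, hpP, hx, hA, hgen⟩ := extract hP hn
  obtain ⟨L, hL1, hL2, hL3⟩ := rcore_seq3 (m := 2 * k + 1) hx hA hgen hN hσ (by ring) hDn hq hD
  have h3 : 3 ≤ L.length := by
    rw [hL1]
    have : 2 ^ 1 ≤ 2 ^ Y := Nat.pow_le_pow_right (by norm_num) hY1
    omega
  have hgp := hP.1
  rcases hL3 with h | h | h
  · obtain ⟨Q, q1, q2, q3⟩ := kconvex_of_nice hgp ε p (fun i _ => hpP i) h3 (Or.inl h)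
    exact ⟨Q, q1, q2, by rw [q3, hL1]⟩
  · obtain ⟨Q, q1, q2, q3⟩ := kconvex_of_nice hgp ε p (fun i _ => hpP i) h3 (Or.inr h)
    exact ⟨Q, q1, q2, by rw [q3, hL1]⟩
  · obtain ⟨Q, q1, q2, q3⟩ := kconvex_of_nice3 hgp ε p (fun i _ => hpP i) h3 h
    exact ⟨Q, q1, q2, by rw [q3, hL1]⟩

end Pool.Agent.H595K
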