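import Mathlib
import Pool.Agent.H595K.RCore
import Pool.Agent.H595K.Lower2

/-!
# The uniform lower bound
-/

namespace Pool.Agent.H595K

open Finset

theorem lower_aux3 {k n σ Y D q : ℕ} (hk : 3 ≤ k) (hn : 3 ≤ n) (hσ : 1 ≤ σ) (hY1 : 1 ≤ Y)
    (hσ2 : (σ : ℝ) ≤ Real.log n / Real.log k / 600)
    (hDn : 2 * (2 * D) * (2 * D) < 7 * σ) (hq : Nat.log 2 (D + 1) < q)
    (hD : (q * q * Y + 1) * q ≤ D) {j : ℕ} (hj : 3 ≤ j) :
    2 ^ Y + 1 ≤ f k j n := by
  apply le_f hk hn
  intro P hP1 hP2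
  have hk3 : (3 : ℝ) ≤ k := by exact_mod_cast hk
  have hn3 : (3 : ℝ) ≤ n := by exact_mod_cast hn
  have hlogk : 1 ≤ Real.log k := by
    have h1 : Real.exp 1 ≤ k := by have := Real.exp_one_lt_d9; linarith
    have h2 := Real.log_le_log (Real.exp_pos 1) h1
    rwa [Real.log_exp] at h2
  have hlogn : 1 ≤ Real.log n := by
    have h1 : Real.exp 1 ≤ n := by have := Real.exp_one_lt_d9; linarith
    have h2 := Real.log_le_log (Real.exp_pos 1) h1
    rwa [Real.log_exp] at h2
  have h1 : (320 * (k + 1)) ^ (40 * σ) * (320 * (k + 1)) ^ (40 * σ) < P.card := by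
    rw [hP1]
    have h2 : Real.log ((((320 * (k + 1) : ℕ) : ℝ)) ^ (40 * σ) *
        (((320 * (k + 1) : ℕ) : ℝ)) ^ (40 * σ)) < Real.log n := by
      rw [← pow_add, Real.log_pow]
      push_cast
      have h3 := log_le_mul hk
      push_cast at h3
      have h4 : (40 * (σ : ℝ) + 40 * σ) * Real.log (320 * ((k : ℝ) + 1)) ≤
          (40 * (σ : ℝ) + 40 * σ) * (7 * Real.log k) :=
        mul_le_mul_of_nonneg_left h3 (by positivity)
      have h5 : (σ : ℝ) * Real.log k ≤ Real.log n / 600 := by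
        calc (σ : ℝ) * Real.log k ≤ Real.log n / Real.log k / 600 * Real.log k :=
              mul_le_mul_of_nonneg_right hσ2 (by linarith)
          _ = Real.log n / 600 := by
            have : Real.log k ≠ 0 := by linarith
            field_simp
      have h6 : (40 * (σ : ℝ) + 40 * σ) * (7 * Real.log k) = 560 * ((σ : ℝ) * Real.log k) := by ring
      linarith
    have h3 : (((320 * (k + 1) : ℕ) : ℝ)) ^ (40 * σ) * (((320 * (k + 1) : ℕ) : ℝ)) ^ (40 * σ) < n :=
      (Real.log_lt_log_iff (by positivity) (by positivity)).1 h2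
    exact_mod_cast h3
  obtain ⟨Q, q1, q2, q3⟩ := rcore3 hP2 hσ hY1 h1 hDn hq hD
  exact ⟨Q, q1, q2.mono hj, q3⟩

/-- the uniform bound, third version -/
theorem lower_log {k j n : ℕ} (hk : 3 ≤ k) (hj : 3 ≤ j) (hn : 3 ≤ n) {V : ℝ}
    (hV : V = Real.log n / Real.log k) (hV0 : 0 ≤ V) :
    Real.exp (1 / 10000 * (√V / Real.log (3 + V) ^ 3)) ≤ f k j n := by
  set l := Real.log (3 + V) with hl
  set s := √V with hs
  set u := s / l ^ 3 with hu
  have hl1 : 1 ≤ l := by
    have h1 : Real.exp 1 ≤ 3 + V := by have := Real.exp_one_lt_d9; linarith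
    have h2 := Real.log_le_log (Real.exp_pos 1) h1
    rwa [Real.log_exp] at h2
  have hl3 : 1 ≤ l ^ 3 := one_le_pow₀ hl1
  have hs0 : 0 ≤ s := Real.sqrt_nonneg _
  have hs2 : s ^ 2 = V := Real.sq_sqrt hV0
  have hu0 : 0 ≤ u := by positivity
  rcases le_or_gt u 10000 with h | h
  · have h2 : Real.exp (1 / 10000 * u) ≤ Real.exp 1 := Real.exp_le_exp.2 (by linarith)
    have h3 := Real.exp_one_lt_d9
    have h4 : (3 : ℝ) ≤ f k j n := by exact_mod_cast three_le_f hk hj hn
    linarith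
  · have hsu : s = u * l ^ 3 := by
      rw [hu]; field_simp
    have hll : l ≤ l ^ 3 := by
      have : l ^ 3 = l * l ^ 2 := by ring
      rw [this]
      have h2 : 1 ≤ l ^ 2 := one_le_pow₀ hl1
      nlinarith
    have hsl : 10000 * l ≤ s := by
      rw [hsu]
      have h1 : 10000 * l ≤ 10000 * l ^ 3 := by linarith
      have h2 : 10000 * l ^ 3 ≤ u * l ^ 3 := mul_le_mul_of_nonneg_right h.le (by linarith)
      linarith
    have hs4 : 10000 ≤ s := by linarith
    have hVs : V = s * s := by rw [← hs2]; ring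
    have hV8 : 100000000 ≤ V := by
      rw [hVs]; nlinarith
    set σ := ⌊V / 600⌋₊ with hσ
    set D := ⌊s / 30⌋₊ with hD
    set Y := ⌊u / 1000⌋₊ with hY
    set q := Nat.log 2 (D + 1) + 1 with hq
    have s1 : (σ : ℝ) ≤ V / 600 := Nat.floor_le (by linarith)
    have s2 : V / 600 < σ + 1 := Nat.lt_floor_add_one _
    have d1 : (D : ℝ) ≤ s / 30 := Nat.floor_le (by linarith)
    have d2 : s / 30 < D + 1 := Nat.lt_floor_add_one _
    have y1 : (Y : ℝ) ≤ u / 1000 := Nat.floor_le (by linarith)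
    have y2 : u / 1000 < Y + 1 := Nat.lt_floor_add_one _
    have hY1 : 1 ≤ Y := by
      apply Nat.le_floor
      push_cast
      linarith
    have hσ1 : 1 ≤ σ := by
      apply Nat.le_floor
      push_cast
      linarith
    have hDn : 2 * (2 * D) * (2 * D) < 7 * σ := by
      have h1 : (2 * (2 * (D : ℝ)) * (2 * D)) < 7 * σ := by
        have h2 : (D : ℝ) * D ≤ (s / 30) * (s / 30) := mul_self_le_mul_self (by positivity) d1
        have h3 : (s / 30) * (s / 30) = V / 900 := by rw [hVs]; ring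
        nlinarith
      exact_mod_cast h1
    have hq1 : (q : ℝ) ≤ 5 / 2 * l := by
      have h1 : 2 ^ (Nat.log 2 (D + 1)) ≤ D + 1 := Nat.pow_log_le_self 2 (by omega)
      have h2 : (2 : ℝ) ^ (Nat.log 2 (D + 1)) ≤ D + 1 := by exact_mod_cast h1
      have h3 : (D : ℝ) + 1 ≤ 3 + V := by
        have : s / 30 ≤ V := by rw [hVs]; nlinarith
        linarith
      have h4 : Real.log ((2 : ℝ) ^ (Nat.log 2 (D + 1))) ≤ l :=
        Real.log_le_log (by positivity) (h2.trans h3)
      rw [Real.log_pow] at h4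
      have h5 := Real.log_two_gt_d9
      have h6 : (Nat.log 2 (D + 1) : ℝ) * 0.69 ≤ (Nat.log 2 (D + 1) : ℝ) * Real.log 2 :=
        mul_le_mul_of_nonneg_left (by linarith) (Nat.cast_nonneg _)
      have h7 : (q : ℝ) = Nat.log 2 (D + 1) + 1 := by rw [hq]; push_cast; ring
      rw [h7]
      linarith
    have hDq : (q * q * Y + 1) * q ≤ D := by
      have h1 : (((q : ℝ) * q * Y + 1) * q) ≤ D := by
        have h2 : (q : ℝ) ^ 3 ≤ (5 / 2 * l) ^ 3 := pow_le_pow_left₀ (by positivity) hq1 3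
        have h3 : (q : ℝ) ^ 3 * Y ≤ (5 / 2 * l) ^ 3 * (u / 1000) :=
          mul_le_mul h2 y1 (by positivity) (by positivity)
        have h4 : (5 / 2 * l) ^ 3 * (u / 1000) = 125 / 8000 * s := by
          rw [hsu]; ring
        have h5 : (((q : ℝ) * q * Y + 1) * q) = (q : ℝ) ^ 3 * Y + q := by ring
        rw [h5]
        linarith
      exact_mod_cast h1
    have h1 := lower_aux3 hk hn hσ1 hY1 (by rw [← hV]; exact s1) hDn (Nat.lt_succ_self _) hDq hj
    have h2 : ((2 : ℝ) ^ Y + 1) ≤ f k j n := by exact_mod_cast h1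
    have h3 : Real.exp (1 / 10000 * u) ≤ 2 ^ Y := exp_le_two_pow (by linarith)
    linarith

/-- **The uniform lower bound.** -/
theorem lower_bound3 (k j n : ℕ) (hk : 3 ≤ k) (hj : 3 ≤ j) (hn : 3 ≤ n) :
    Real.exp (1 / 10000 * max (√(Real.log n / Real.log k) /
        Real.log (3 + Real.log n / Real.log k) ^ 3)
      (√(Real.log n / Real.log k) / k)) ≤ f k j n := by
  have hn3 : (3 : ℝ) ≤ n := by exact_mod_cast hn
  have hk3 : (3 : ℝ) ≤ k := by exact_mod_cast hk
  have hV0 : 0 ≤ Real.log n / Real.log k :=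
    div_nonneg (Real.log_nonneg (by linarith)) (Real.log_nonneg (by linarith))
  rcases max_cases (√(Real.log n / Real.log k) / Real.log (3 + Real.log n / Real.log k) ^ 3)
    (√(Real.log n / Real.log k) / k) with ⟨h, _⟩ | ⟨h, _⟩
  · rw [h]
    exact lower_log hk hj hn rfl hV0
  · rw [h]
    have h1 : Real.exp (1 / 300 * (√(Real.log n / Real.log k) / k)) ≤ f k j n := by
      apply lower_sqrt hk hj hn rfl (by positivity)
      rw [div_pow, Real.sq_sqrt hV0]
      have : (k : ℝ) ≠ 0 := by linarith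
      field_simp
    have h2 : 0 ≤ √(Real.log n / Real.log k) / k := by positivity
    exact (Real.exp_le_exp.2 (by linarith)).trans h1

end Pool.Agent.H595K
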