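import Mathlib
import Pool.Agent.H595K.USmall

/-!
# The point sets of sets of levels
-/

namespace Pool.Agent.H595K

open Finset Vis124

/-- the words supported on `E` in increasing order -/
theorem exists_words {t N : ℕ} {E : Finset ℕ} (hE : E ⊆ range t) (hN : N ≤ 2 ^ E.card) :
    ∃ w : ℕ → ℕ, (∀ i j, i < j → j < N → w i < w j) ∧ (∀ i < N, w i < 2 ^ t) ∧
      ∀ i < N, ∀ l, (w i).testBit l = true → l ∈ E := by
  classical
  have hbit : ∀ (S : Finset ℕ) (l : ℕ), (∑ i ∈ S, 2 ^ i : ℕ).testBit l = true ↔ l ∈ S := by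
    intro S l
    rw [← Nat.mem_bitIndices, ← List.mem_toFinset, Finset.toFinset_bitIndices_sum_two_pow]
  obtain ⟨W0, hW0⟩ : ∃ W0 : Finset ℕ, W0 = E.powerset.image (fun S => ∑ i ∈ S, 2 ^ i) := ⟨_, rfl⟩
  have hcard : W0.card = 2 ^ E.card := by
    rw [hW0, card_image_of_injective, card_powerset]
    intro S T h
    have h' : (∑ i ∈ S, 2 ^ i : ℕ) = ∑ i ∈ T, 2 ^ i := h
    ext l
    rw [← hbit S l, ← hbit T l, h']
  have hmem : ∀ u ∈ W0, u < 2 ^ t ∧ ∀ l, u.testBit l = true → l ∈ E := by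
    intro u hu
    rw [hW0, mem_image] at hu
    obtain ⟨S, hS, rfl⟩ := hu
    rw [mem_powerset] at hS
    refine ⟨?_, fun l hl => hS ((hbit S l).1 hl)⟩
    apply Nat.lt_pow_two_of_testBit
    intro l hl
    by_contra hc
    have h1 : (∑ i ∈ S, 2 ^ i : ℕ).testBit l = true := by simpa using hc
    have := mem_range.1 (hE (hS ((hbit S l).1 h1)))
    omega
  have hlt : ∀ i, i < N → i < W0.card := fun i hi => by rw [hcard]; omega
  refine ⟨fun i => if h : i < W0.card then W0.orderEmbOfFin rfl ⟨i, h⟩ else 0, ?_, ?_, ?_⟩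
  · intro i j hij hj
    have h1 := hlt j hj
    have h2 : i < W0.card := by omega
    simp only [dif_pos h1, dif_pos h2]
    exact (W0.orderEmbOfFin rfl).strictMono (Fin.mk_lt_mk.2 hij)
  · intro i hi
    simp only [dif_pos (hlt i hi)]
    exact (hmem _ (W0.orderEmbOfFin_mem rfl _)).1
  · intro i hi
    simp only [dif_pos (hlt i hi)]
    exact (hmem _ (W0.orderEmbOfFin_mem rfl _)).2

theorem exists_setW {M H t N : ℕ} (hM : 2 ≤ M) (hH : 1 ≤ H) (ht0 : 1 ≤ t) (ht : t ≤ M ^ H)
    {E : Finset ℕ} (hE : E ⊆ range t) (hN : 1 ≤ N) (hN2 : N ≤ 2 ^ E.card) :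
    ∃ P : Finset (ℝ × ℝ), P.card = N + 2 ∧ KConvexSet (3 * H) P ∧
      ∀ a c : ℕ, (∀ F : Finset (Finset ℕ), (∀ I ∈ F, I ⊆ E ∧ PoorS M (a + 1) (a + 1) I) →
        F.card ≤ c) → ∀ Q ⊆ P, KConvexSet (3 * a + 2) Q → Q.card ≤ c * c + 2 := by
  classical
  obtain ⟨w, hw1, hw2, hwE⟩ := exists_words hE hN2
  set B : ℝ := 4 * t + 4 with hB'
  have hB : 4 * (t : ℝ) + 3 < B := by rw [hB']; linarith
  have hmp := monoPolyW (B := B) (w := w) hM hB hN hw1 hw2
  set pt : ℕ → ℝ × ℝ := fun i => (WX B t N w i, WY M B t N w i) with hpt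
  set P : Finset (ℝ × ℝ) := (range (N + 2)).image pt with hP
  have hmem : ∀ p, p ∈ P ↔ ∃ i, i ≤ N + 1 ∧ pt i = p := by
    intro p
    rw [hP, mem_image]
    constructor
    · rintro ⟨i, hi, h⟩
      exact ⟨i, by have := mem_range.1 hi; omega, h⟩
    · rintro ⟨i, hi, h⟩
      exact ⟨i, mem_range.2 (by omega), h⟩
  have hcard : P.card = N + 2 := by
    rw [hP, card_image_of_injOn, card_range]
    intro i hi j hj hij
    have hi' : i < N + 2 := by simpa using hi
    have hj' : j < N + 2 := by simpa using hj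
    have h1 : WX B t N w i = WX B t N w j := congrArg Prod.fst hij
    rcases lt_trichotomy i j with h2 | h2 | h2
    · exact absurd h1 (hmp.lt h2 (by omega)).ne
    · exact h2
    · exact absurd h1 (hmp.lt h2 (by omega)).ne'
  have hgen : GenPos P := by
    intro p hp q hq r hr hpq hqr hpr hcol
    obtain ⟨i, hi, rfl⟩ := (hmem p).1 hp
    obtain ⟨j, hj, rfl⟩ := (hmem q).1 hq
    obtain ⟨k, hk, rfl⟩ := (hmem r).1 hr
    have hij : i ≠ j := fun h => hpq (by rw [h])
    have hjk : j ≠ k := fun h => hqr (by rw [h])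
    have hik : i ≠ k := fun h => hpr (by rw [h])
    have hd := collinear_det hcol
    simp only [hpt] at hd
    have key : ∀ x y z : ℕ, x < y → y < z → z ≤ N + 1 → det3W M B t N w x y z ≠ 0 :=
      fun x y z h1 h2 h3 => det3W_ne hM hB hw1 hw2 h1 h2 h3
    unfold det3W at key
    rcases lt_or_gt_of_ne hij with h1 | h1 <;> rcases lt_or_gt_of_ne hjk with h2 | h2 <;>
      rcases lt_or_gt_of_ne hik with h3 | h3
    · exact key i j k h1 h2 hk hd
    · omega
    · exact key i k j h3 h2 hj (by linear_combination -hd)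
    · exact key k i j h3 h1 hj (by linear_combination hd)
    · exact key j i k h1 h3 hk (by linear_combination -hd)
    · exact key j k i h2 h3 hi (by linear_combination hd)
    · omega
    · exact key k j i h2 h1 hi (by linear_combination -hd)
  refine ⟨P, hcard, ?_, ?_⟩
  · apply kConvex_of hgen hmp.isSimplePolygon
    · ext p
      rw [Finset.mem_coe, hmem]
      constructor
      · rintro ⟨i, rfl⟩
        exact ⟨i, by omega, rfl⟩
      · rintro ⟨i, hi, rfl⟩
        exact ⟨⟨i, by omega⟩, rfl⟩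
    · exact hmp.comps_le (by omega) (fun θ β => no_altW hM hH ht0 ht hB hw1 hw2 θ β)
  · rintro a c hcount Q hQ ⟨_, v, S, hv, hr, hk⟩
    apply card_le_of_convexW hM hB hw1 hw2 hwE hcount hv hk
    intro i
    have h1 : v i ∈ Q := by
      rw [← Finset.mem_coe, ← hr]; exact Set.mem_range_self i
    obtain ⟨r, hr1, hr2⟩ := (hmem _).1 (hQ h1)
    exact ⟨r, hr1, hr2.symm⟩

end Pool.Agent.H595K
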