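import Mathlib
import Pool.Agent.H595K.UMain

/-!
# Counting the poor sets of levels
-/

namespace Pool.Agent.H595K

open Finset

theorem ch_mono {x : ℕ → ℤ} {K I : Finset ℕ} (h : K ⊆ I) {u : ℕ} : ∀ (c : ℕ) (π : Bool) (a b : ℕ),
    Ch x K u c π a b → Ch x I u c π a b := by
  intro c
  induction c with
  | zero => intro π a b _; trivial
  | succ c ih =>
    rintro π a b ⟨g1, h1, g2, h2, d1, h3, d2, h4, k1, k2, k3, k4, k5, k6, k7, k8, k9⟩
    exact ⟨g1, h h1, g2, h h2, d1, h h3, d2, h h4, k1, k2, k3, k4, k5, k6, k7, k8, ih _ _ _ k9⟩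

theorem rich_mono {x : ℕ → ℤ} {K I : Finset ℕ} (h : K ⊆ I) {c : ℕ} {π : Bool}
    (hR : Rich x c π K) : Rich x c π I := by
  obtain ⟨u, hu, hc⟩ := hR
  exact ⟨u, h hu, ch_mono h _ _ _ _ hc⟩

theorem rich_zero {x : ℕ → ℤ} {I : Finset ℕ} {π : Bool} (h : ¬ Rich x 0 π I) : I = ∅ := by
  by_contra hne
  obtain ⟨u, hu⟩ := nonempty_iff_ne_empty.2 hne
  exact h ⟨u, hu, trivial⟩

/-- the levels with small digits; the first size belongs to the lowest digit -/
def Ev (M : ℕ) : List ℕ → Finset ℕ
  | [] => {0}
  | b :: bs => (Ev M bs).biUnion (fun g => (range b).image (fun d => g * M + d))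

theorem mem_Ev {M b : ℕ} {bs : List ℕ} (hb : b ≤ M) {e : ℕ} :
    e ∈ Ev M (b :: bs) ↔ e % M < b ∧ e / M ∈ Ev M bs := by
  simp only [Ev, mem_biUnion, mem_image, mem_range]
  constructor
  · rintro ⟨g, hg, d, hd, rfl⟩
    have hM : 0 < M := by omega
    have h1 : (g * M + d) % M = d := by
      rw [add_comm, Nat.add_mul_mod_self_right]
      exact Nat.mod_eq_of_lt (by omega)
    have h2 : (g * M + d) / M = g := by
      rw [add_comm, Nat.add_mul_div_right _ _ hM, Nat.div_eq_of_lt (by omega), Nat.zero_add]
    rw [h1, h2]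
    exact ⟨hd, hg⟩
  · rintro ⟨h1, h2⟩
    refine ⟨e / M, h2, e % M, h1, ?_⟩
    have := Nat.div_add_mod e M
    rw [mul_comm]; exact this

theorem Ev_lt {M : ℕ} (hM : 1 ≤ M) : ∀ {bs : List ℕ}, (∀ b ∈ bs, b ≤ M) →
    ∀ e ∈ Ev M bs, e < M ^ bs.length := by
  intro bs
  induction bs with
  | nil => intro _ e he; simp [Ev] at he; simp [he]
  | cons b bs ih =>
    intro hb e he
    rw [mem_Ev (hb b (by simp))] at he
    have h1 := ih (fun b' hb' => hb b' (by simp [hb'])) _ he.2
    rw [List.length_cons, pow_succ, mul_comm]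
    exact (Nat.div_lt_iff_lt_mul (by omega)).1 h1 |>.trans_le (by rw [mul_comm])

theorem card_Ev {M : ℕ} : ∀ {bs : List ℕ}, (∀ b ∈ bs, b ≤ M) → (Ev M bs).card = bs.prod := by
  intro bs
  induction bs with
  | nil => intro _; simp [Ev]
  | cons b bs ih =>
    intro hb
    have h1 := ih (fun b' hb' => hb b' (by simp [hb']))
    have hbM := hb b (by simp)
    rw [List.prod_cons, ← h1]
    show ((Ev M bs).biUnion (fun g => (range b).image (fun d => g * M + d))).card = _
    rw [card_biUnion]
    · have : ∀ g ∈ Ev M bs, ((range b).image (fun d => g * M + d)).card = b := by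
        intro g _
        rw [card_image_of_injective _ (fun x y h => by simpa using h), card_range]
      rw [sum_congr rfl this, sum_const, smul_eq_mul, mul_comm]
    · intro g _ g' _ hne
      rw [Function.onFun, disjoint_left]
      intro e he he'
      rw [mem_image] at he he'
      obtain ⟨d, hd, rfl⟩ := he
      obtain ⟨d', hd', h⟩ := he'
      rw [mem_range] at hd hd'
      apply hne
      have hM : 0 < M := by omega
      have e1 : (g * M + d) / M = g := by
        rw [add_comm, Nat.add_mul_div_right _ _ hM, Nat.div_eq_of_lt (by omega), Nat.zero_add]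
      have e2 : (g' * M + d') / M = g' := by
        rw [add_comm, Nat.add_mul_div_right _ _ hM, Nat.div_eq_of_lt (by omega), Nat.zero_add]
      rw [← e1, ← e2, h]

/-- bounds for the sizes of the poor sets -/
def yz : List ℕ → ℕ → ℕ × ℕ
  | _, 0 => (0, 0)
  | [], _ + 1 => (1, 1)
  | b :: bs, p + 1 => (4 * (yz bs (p + 1)).2 + b * (yz bs p).1, b * (yz bs (p + 1)).1)

/-- bound for the sizes of the sets without patterns of both types -/
def xc (p : ℕ) : List ℕ → ℕ
  | [] => 1
  | b :: bs => 4 * xc p bs + b * (yz bs p).1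

section
variable {M : ℕ}

theorem image_Ev {b : ℕ} {bs : List ℕ} (hb : b ≤ M) {I : Finset ℕ} (hI : I ⊆ Ev M (b :: bs)) :
    I.image (· / M) ⊆ Ev M bs := by
  intro g hg
  obtain ⟨e, he, rfl⟩ := mem_image.1 hg
  exact ((mem_Ev hb).1 (hI he)).2

/-- the block of `g` -/
def blk (M b g : ℕ) : Finset ℕ := (range b).image (fun d => g * M + d)

theorem card_blk (M b g : ℕ) : (blk M b g).card = b := by
  rw [blk, card_image_of_injective _ (fun x y h => by simpa using h), card_range]

theorem filter_blk {b : ℕ} {bs : List ℕ} (hb : b ≤ M) {I : Finset ℕ} (hI : I ⊆ Ev M (b :: bs))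
    (g : ℕ) : I.filter (fun e => e / M = g) ⊆ blk M b g := by
  intro e he
  rw [mem_filter] at he
  have h1 := ((mem_Ev hb).1 (hI he.1)).1
  rw [blk, mem_image]
  refine ⟨e % M, mem_range.2 h1, ?_⟩
  have := Nat.div_add_mod e M
  rw [← he.2, mul_comm]; exact this

theorem filter_le {b : ℕ} {bs : List ℕ} (hb : b ≤ M) {I : Finset ℕ} (hI : I ⊆ Ev M (b :: bs))
    (g : ℕ) : (I.filter (fun e => e / M = g)).card ≤ b := by
  have := card_le_card (filter_blk hb hI g)
  rwa [card_blk] at this

theorem poor_image (hM : 2 ≤ M) {p q : ℕ} {I : Finset ℕ} (h : PoorS M p q I) :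
    PoorS M q p (I.image (· / M)) := by
  have hJ : ∀ g ∈ I.image (· / M), ∃ e ∈ I, e / M = g := fun g hg => mem_image.1 hg
  constructor
  · intro hr
    exact h.2 (rich_lift hM hJ hr)
  · intro hr
    exact h.1 (rich_lift hM hJ hr)

/-- the blocks with many levels -/
def KK (M : ℕ) (I : Finset ℕ) : Finset ℕ :=
  (I.image (· / M)).filter (fun g => 5 ≤ (I.filter (fun e => e / M = g)).card)

theorem poor_KK (hM : 2 ≤ M) {p q r : ℕ} {I : Finset ℕ} (h : PoorS M (p + 1) q I)
    (hr : PoorS M r r (I.image (· / M)) ∨ ¬ Rich (lab M) r false (I.image (· / M))) :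
    PoorS M p r (KK M I) := by
  constructor
  · intro h1
    exact h.1 (rich_five hM (fun g hg => (mem_filter.1 hg).2) h1)
  · intro h1
    have h2 := rich_mono (filter_subset _ _) h1
    rcases hr with hr | hr
    · exact hr.2 h2
    · exact hr h2

theorem card_split {b : ℕ} {bs : List ℕ} (hb : b ≤ M) {I : Finset ℕ} (hI : I ⊆ Ev M (b :: bs)) :
    I.card ≤ 4 * (I.image (· / M)).card + b * (KK M I).card := by
  have h2 : I.card ≤ ∑ g ∈ I.image (· / M), (4 + if g ∈ KK M I then b else 0) := by
    apply card_groups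
    intro g hg
    by_cases hgK : g ∈ KK M I
    · simp only [hgK, if_true]
      have := filter_le hb hI g
      omega
    · simp only [hgK, if_false]
      have : ¬ 5 ≤ (I.filter (fun e => e / M = g)).card := by
        intro h5
        exact hgK (mem_filter.2 ⟨hg, h5⟩)
      omega
  have h3 : ∑ g ∈ I.image (· / M), (4 + if g ∈ KK M I then b else 0) =
      4 * (I.image (· / M)).card + b * (KK M I).card := by
    rw [sum_add_distrib, ← sum_filter]
    have : (I.image (· / M)).filter (fun g => g ∈ KK M I) = KK M I := by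
      ext g; simp only [mem_filter, KK]; tauto
    rw [this]
    simp [mul_comm]
  omega

theorem card_yz (hM : 2 ≤ M) : ∀ {bs : List ℕ}, (∀ b ∈ bs, b ≤ M) → ∀ (p : ℕ) (I : Finset ℕ),
    I ⊆ Ev M bs → (PoorS M p (p + 1) I → I.card ≤ (yz bs p).1) ∧
      (PoorS M (p + 1) p I → I.card ≤ (yz bs p).2) := by
  intro bs
  induction bs with
  | nil =>
    intro _ p I hI
    cases p with
    | zero =>
      constructor
      · intro h; rw [rich_zero h.1]; simp
      · intro h; rw [rich_zero h.2]; simp
    | succ p =>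
      have h1 : I.card ≤ 1 := by
        have := card_le_card hI
        simpa [Ev] using this
      exact ⟨fun _ => h1, fun _ => h1⟩
  | cons b bs ih =>
    intro hb p I hI
    have hbM := hb b (by simp)
    have hbs : ∀ b' ∈ bs, b' ≤ M := fun b' hb' => hb b' (by simp [hb'])
    have hJ := image_Ev hbM hI
    cases p with
    | zero =>
      constructor
      · intro h; rw [rich_zero h.1]; simp
      · intro h; rw [rich_zero h.2]; simp
    | succ p =>
      constructor
      · intro h
        have h1 := (ih hbs (p + 1) _ hJ).2 (poor_image hM h)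
        have h2 := (ih hbs p (KK M I) ((filter_subset _ _).trans hJ)).1
          (poor_KK hM h (Or.inr (poor_image hM h).2))
        have h3 := card_split hbM hI
        have h4 := Nat.mul_le_mul_left b h2
        show I.card ≤ 4 * (yz bs (p + 1)).2 + b * (yz bs p).1
        omega
      · intro h
        have h1 := (ih hbs (p + 1) _ hJ).1 (poor_image hM h)
        have h2 : I.card ≤ ∑ g ∈ I.image (· / M), b := by
          apply card_groups
          intro g hg
          exact filter_le hbM hI g
        rw [sum_const, smul_eq_mul] at h2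
        show I.card ≤ b * (yz bs (p + 1)).1
        rw [mul_comm]
        exact h2.trans (Nat.mul_le_mul_right _ h1)

theorem card_xc (hM : 2 ≤ M) {p : ℕ} : ∀ {bs : List ℕ}, (∀ b ∈ bs, b ≤ M) → ∀ I : Finset ℕ,
    I ⊆ Ev M bs → PoorS M (p + 1) (p + 1) I → I.card ≤ xc p bs := by
  intro bs
  induction bs with
  | nil =>
    intro _ I hI _
    have := card_le_card hI
    simpa [Ev, xc] using this
  | cons b bs ih =>
    intro hb I hI h
    have hbM := hb b (by simp)
    have hbs : ∀ b' ∈ bs, b' ≤ M := fun b' hb' => hb b' (by simp [hb'])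
    have hJ := image_Ev hbM hI
    have h1 := ih hbs _ hJ (poor_image hM h)
    have h2 := (card_yz hM hbs p (KK M I) ((filter_subset _ _).trans hJ)).1
      (poor_KK hM h (Or.inl (poor_image hM h)))
    have h3 := card_split hbM hI
    have h4 := Nat.mul_le_mul_left b h2
    show I.card ≤ 4 * xc p bs + b * (yz bs p).1
    omega

/-- logarithm -/
def lgn (b : ℕ) : ℕ := Nat.log 2 (b + 1) + 1

theorem lt_lgn (b : ℕ) : b + 1 < 2 ^ lgn b := Nat.lt_pow_succ_log_self (by norm_num) _

/-- bound for the number of the poor sets -/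
def LX (p : ℕ) : List ℕ → ℕ
  | [] => 1
  | b :: bs => LX p bs + (xc p bs * (1 + 4 * lgn b) + b * (yz bs p).1)

/-- families with given blocks -/
theorem card_pi_le {J : Finset ℕ} {F : Finset (Finset ℕ)} {A : ℕ → Finset (Finset ℕ)}
    (h1 : ∀ I ∈ F, ∀ e ∈ I, e / M ∈ J)
    (h2 : ∀ I ∈ F, ∀ g ∈ J, I.filter (fun e => e / M = g) ∈ A g) :
    F.card ≤ ∏ g ∈ J, (A g).card := by
  classical
  rw [← card_pi]
  apply card_le_card_of_injOn (fun I => fun g _ => I.filter (fun e => e / M = g))
  · intro I hI
    rw [mem_coe, mem_pi]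
    exact fun g hg => h2 I hI g hg
  · intro I hI I' hI' h
    have hI := mem_coe.1 hI
    have hI' := mem_coe.1 hI'
    ext e
    constructor
    · intro he
      have h3 := congrFun (congrFun h (e / M)) (h1 I hI e he)
      have h4 : e ∈ I.filter (fun x => x / M = e / M) := mem_filter.2 ⟨he, rfl⟩
      have h5 : e ∈ I'.filter (fun x => x / M = e / M) := by
        have h3' : I.filter (fun x => x / M = e / M) = I'.filter (fun x => x / M = e / M) := h3
        rwa [h3'] at h4
      exact (mem_filter.1 h5).1
    · intro he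
      have h3 := congrFun (congrFun h (e / M)) (h1 I' hI' e he)
      have h4 : e ∈ I'.filter (fun x => x / M = e / M) := mem_filter.2 ⟨he, rfl⟩
      have h5 : e ∈ I.filter (fun x => x / M = e / M) := by
        have h3' : I.filter (fun x => x / M = e / M) = I'.filter (fun x => x / M = e / M) := h3
        rwa [← h3'] at h4
      exact (mem_filter.1 h5).1

theorem card_small (M b g : ℕ) :
    ((blk M b g).powerset.filter (fun S => S.card ≤ 4)).card ≤ 2 ^ (4 * lgn b) := by
  classical
  have h1 : (blk M b g).powerset.filter (fun S => S.card ≤ 4) ⊆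
      (range 5).biUnion (fun i => powersetCard i (blk M b g)) := by
    intro S hS
    rw [mem_filter, mem_powerset] at hS
    rw [mem_biUnion]
    exact ⟨S.card, mem_range.2 (by omega), mem_powersetCard.2 ⟨hS.1, rfl⟩⟩
  have h2 := card_le_card h1
  have h3 : ((range 5).biUnion (fun i => powersetCard i (blk M b g))).card ≤
      ∑ i ∈ range 5, b.choose i := by
    refine card_biUnion_le.trans (le_of_eq ?_)
    apply sum_congr rfl
    intro i _
    rw [card_powersetCard, card_blk]
  have h4 : ∑ i ∈ range 5, b.choose i ≤ (b + 1) ^ 4 := sum_choose_le b 4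
  have h5 : (b + 1) ^ 4 ≤ (2 ^ lgn b) ^ 4 := Nat.pow_le_pow_left (lt_lgn b).le 4
  have h6 : (2 ^ lgn b) ^ 4 = 2 ^ (4 * lgn b) := by rw [← pow_mul, mul_comm]
  omega

/-- **The number of the poor sets.** -/
theorem count_poor (hM : 2 ≤ M) {p : ℕ} : ∀ {bs : List ℕ}, (∀ b ∈ bs, b ≤ M) →
    ∀ F : Finset (Finset ℕ), (∀ I ∈ F, I ⊆ Ev M bs ∧ PoorS M (p + 1) (p + 1) I) →
      F.card ≤ 2 ^ LX p bs := by
  classical
  intro bs
  induction bs with
  | nil =>
    intro _ F hF
    have h1 : F ⊆ ({0} : Finset ℕ).powerset := by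
      intro I hI
      rw [mem_powerset]
      exact (hF I hI).1
    have := card_le_card h1
    simpa [LX] using this
  | cons b bs ih =>
    intro hb F hF
    have hbM := hb b (by simp)
    have hbs : ∀ b' ∈ bs, b' ≤ M := fun b' hb' => hb b' (by simp [hb'])
    obtain ⟨X, hX⟩ : ∃ X, X = xc p bs := ⟨_, rfl⟩
    obtain ⟨Y, hY⟩ : ∃ Y, Y = (yz bs p).1 := ⟨_, rfl⟩
    -- the fibres
    have hfib : ∀ J ∈ F.image (fun I => I.image (· / M)),
        (F.filter (fun I => I.image (· / M) = J)).card ≤ 2 ^ (X * (1 + 4 * lgn b) + b * Y) := by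
      intro J hJ
      obtain ⟨I0, hI0, rfl⟩ := mem_image.1 hJ
      obtain ⟨hI01, hI02⟩ := hF I0 hI0
      have hJX : (I0.image (· / M)).card ≤ X := by
        rw [hX]
        exact card_xc hM hbs _ (image_Ev hbM hI01) (poor_image hM hI02)
      set J := I0.image (· / M) with hJdef
      have hcov : F.filter (fun I => I.image (· / M) = J) ⊆
          (J.powerset).biUnion (fun K => F.filter (fun I => I.image (· / M) = J ∧ KK M I = K)) := by
        intro I hI
        rw [mem_filter] at hI
        rw [mem_biUnion]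
        refine ⟨KK M I, ?_, mem_filter.2 ⟨hI.1, hI.2, rfl⟩⟩
        rw [mem_powerset, ← hI.2]
        exact filter_subset _ _
      have hK : ∀ K ∈ J.powerset,
          (F.filter (fun I => I.image (· / M) = J ∧ KK M I = K)).card ≤
            2 ^ (X * (4 * lgn b) + b * Y) := by
        intro K hK
        rw [mem_powerset] at hK
        by_cases hemp : F.filter (fun I => I.image (· / M) = J ∧ KK M I = K) = ∅
        · rw [hemp]; simp
        obtain ⟨I1, hI1⟩ := nonempty_iff_ne_empty.2 hemp
        rw [mem_filter] at hI1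
        obtain ⟨hI1F, hI1J, hI1K⟩ := hI1
        have hKY : K.card ≤ Y := by
          rw [hY, ← hI1K]
          obtain ⟨k1, k2⟩ := hF I1 hI1F
          exact (card_yz hM hbs p (KK M I1) ((filter_subset _ _).trans (image_Ev hbM k1))).1
            (poor_KK hM k2 (Or.inl (poor_image hM k2)))
        have h1 := card_pi_le (M := M) (J := J)
          (F := F.filter (fun I => I.image (· / M) = J ∧ KK M I = K))
          (A := fun g => if g ∈ K then (blk M b g).powerset else
            (blk M b g).powerset.filter (fun S => S.card ≤ 4)) (by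
            intro I hI e he
            rw [mem_filter] at hI
            rw [← hI.2.1]
            exact mem_image_of_mem _ he) (by
            intro I hI g hg
            rw [mem_filter] at hI
            have h2 := filter_blk hbM (hF I hI.1).1 g
            by_cases hgK : g ∈ K
            · rw [if_pos hgK, mem_powerset]; exact h2
            · rw [if_neg hgK, mem_filter, mem_powerset]
              refine ⟨h2, ?_⟩
              by_contra h5
              apply hgK
              rw [← hI.2.2]
              refine mem_filter.2 ⟨?_, by omega⟩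
              rw [hI.2.1]; exact hg)
        refine h1.trans ?_
        have h2 : ∀ g ∈ J, (if g ∈ K then (blk M b g).powerset else
            (blk M b g).powerset.filter (fun S => S.card ≤ 4)).card ≤
            (if g ∈ K then 2 ^ b else 1) * 2 ^ (4 * lgn b) := by
          intro g _
          by_cases hgK : g ∈ K
          · rw [if_pos hgK, if_pos hgK, card_powerset, card_blk]
            exact Nat.le_mul_of_pos_right _ (by positivity)
          · rw [if_neg hgK, if_neg hgK, one_mul]
            exact card_small M b g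
        refine (prod_le_prod' h2).trans ?_
        rw [prod_mul_distrib, prod_const, ← prod_filter, prod_const]
        have h3 : (J.filter (fun g => g ∈ K)).card ≤ Y := by
          refine (card_le_card ?_).trans hKY
          intro g hg
          exact (mem_filter.1 hg).2
        rw [← pow_mul, ← pow_mul, ← pow_add]
        apply Nat.pow_le_pow_right (by norm_num)
        have h4 : b * (J.filter (fun g => g ∈ K)).card ≤ b * Y := Nat.mul_le_mul_left _ h3
        have h5 : 4 * lgn b * J.card ≤ 4 * lgn b * X := Nat.mul_le_mul_left _ hJX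
        have h6 : X * (4 * lgn b) = 4 * lgn b * X := by ring
        omega
      refine (card_le_card hcov).trans (card_biUnion_le.trans ((sum_le_sum hK).trans ?_))
      rw [sum_const, card_powerset, smul_eq_mul, ← pow_add]
      apply Nat.pow_le_pow_right (by norm_num)
      have : X * (1 + 4 * lgn b) = X + X * (4 * lgn b) := by ring
      omega
    have hJs : (F.image (fun I => I.image (· / M))).card ≤ 2 ^ LX p bs := by
      apply ih hbs
      intro J hJ
      obtain ⟨I, hI, rfl⟩ := mem_image.1 hJ
      exact ⟨image_Ev hbM (hF I hI).1, poor_image hM (hF I hI).2⟩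
    have h1 := card_eq_sum_card_image (fun I => I.image (· / M)) F
    have h2 := sum_le_sum hfib
    rw [sum_const, smul_eq_mul, ← h1] at h2
    refine h2.trans ((Nat.mul_le_mul_right _ hJs).trans ?_)
    rw [← pow_add]
    apply Nat.pow_le_pow_right (by norm_num)
    rw [hX, hY]
    exact le_rfl

end

/-- **The general upper bound.** -/
theorem f_le_LX {j a k n : ℕ} {bs : List ℕ} (hj : j ≤ 3 * a + 2)
    (hbs : 1 ≤ bs.length) (hpos : ∀ b ∈ bs, 1 ≤ b) (hk : 3 * bs.length ≤ k) (hn : 3 ≤ n)
    (hprod : n ≤ 2 ^ bs.prod) : f k j n ≤ 2 ^ LX a bs * 2 ^ LX a bs + 2 := by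
  classical
  obtain ⟨M, hM2, hM⟩ : ∃ M, 2 ≤ M ∧ ∀ b ∈ bs, b ≤ M :=
    ⟨bs.sum + 2, by omega, fun b hb => (List.single_le_sum (by simp) b hb).trans (by omega)⟩
  obtain ⟨P, hP1, hP2, hP3⟩ := exists_setW (N := n - 2) (H := bs.length) (t := M ^ bs.length)
    hM2 hbs (Nat.one_le_pow _ _ (by omega)) le_rfl (E := Ev M bs) (by
      intro e he
      exact mem_range.2 (Ev_lt (by omega) hM e he)) (by omega) (by rw [card_Ev hM]; omega)
  have hPc : P.card = n := by omega
  have h1 : ∀ m ∈ {m | ∀ P : Finset (ℝ × ℝ), P.card = n → KConvexSet k P →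
      ∃ Q ⊆ P, KConvexSet j Q ∧ Q.card = m}, m ≤ 2 ^ LX a bs * 2 ^ LX a bs + 2 := by
    intro m hm
    obtain ⟨Q, hQ1, hQ2, hQ3⟩ := hm P hPc (hP2.mono hk)
    rw [← hQ3]
    exact hP3 a _ (count_poor hM2 hM) Q hQ1 (hQ2.mono hj)
  unfold f
  set A := {m | ∀ P : Finset (ℝ × ℝ), P.card = n → KConvexSet k P →
      ∃ Q ⊆ P, KConvexSet j Q ∧ Q.card = m} with hA
  rcases Set.eq_empty_or_nonempty A with hA0 | hA0
  · rw [hA0]
    simp
  · exact h1 _ (Nat.sSup_mem hA0 ⟨_, h1⟩)

end Pool.Agent.H595K
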