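import Mathlib
import Pool.Agent.H595K.UCount

/-!
# The sizes for `a = 1`
-/

namespace Pool.Agent.H595K

open Lb

theorem two_le_lgn {x : ℕ} (hx : 1 ≤ x) : 2 ≤ lgn x := by
  have : 1 ≤ Nat.log 2 (x + 1) := Nat.log_pos (by norm_num) (by omega)
  unfold lgn; omega

theorem lgn_le {x : ℕ} (hx : 2 ≤ x) : lgn x ≤ x := by
  have h1 : x + 1 < 2 ^ x := by
    obtain ⟨y, rfl⟩ : ∃ y, x = y + 2 := ⟨x - 2, by omega⟩
    induction y with
    | zero => norm_num
    | succ y ih =>
      have := ih (by omega)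
      rw [show y + 1 + 2 = (y + 2) + 1 by ring, pow_succ]
      omega
  have h2 : Nat.log 2 (x + 1) < x := Nat.log_lt_of_lt_pow (by omega) h1
  unfold lgn; omega

theorem lgn_mono {x y : ℕ} (h : x ≤ y) : lgn x ≤ lgn y := by
  have := Nat.log_mono_right (b := 2) (show x + 1 ≤ y + 1 by omega)
  unfold lgn; omega

theorem lgn_succ (x : ℕ) : lgn (x + 1) ≤ lgn x + 1 := by
  have h1 : Nat.log 2 (x + 1 + 1) ≤ Nat.log 2 (2 * (x + 1)) := Nat.log_mono_right (by omega)
  have h2 : Nat.log 2 (2 * (x + 1)) = Nat.log 2 (x + 1) + 1 := by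
    rw [mul_comm]
    exact Nat.log_mul_base (by norm_num) (by omega)
  unfold lgn; omega

theorem lgn_le_Lg {x : ℕ} (hx : 1 ≤ x) : (lgn x : ℝ) ≤ 2 * Lg x := by
  have hxr : (1 : ℝ) ≤ x := by exact_mod_cast hx
  have h1 : (2 : ℕ) ^ Nat.log 2 (x + 1) ≤ x + 1 := Nat.pow_log_le_self 2 (by omega)
  have h2 : (2 : ℝ) ^ Nat.log 2 (x + 1) ≤ 2 * x := by
    have : (2 : ℝ) ^ Nat.log 2 (x + 1) ≤ x + 1 := by exact_mod_cast h1
    linarith
  have h3 := Real.log_le_log (by positivity) h2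
  rw [Real.log_pow, Real.log_mul (by norm_num) (by linarith)] at h3
  have h4 := Real.log_two_gt_d9
  have h5 := Real.log_nonneg hxr
  have h6 : (0 : ℝ) ≤ (Nat.log 2 (x + 1) : ℕ) := Nat.cast_nonneg _
  have h7 : ((Nat.log 2 (x + 1) : ℕ) : ℝ) ≤ 1 + 2 * Real.log x := by
    by_contra hcon
    push Not at hcon
    nlinarith
  unfold lgn Lg
  push_cast
  linarith

section
variable (G : ℕ)

/-- the iterated logarithms of `G` -/
def gg (i : ℕ) : ℕ := lgn^[i] G

theorem gg_zero : gg G 0 = G := rfl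

theorem gg_succ (i : ℕ) : gg G (i + 1) = lgn (gg G i) := Function.iterate_succ_apply' _ _ _

variable {G}

theorem two_le_gg (hG : 2 ≤ G) (i : ℕ) : 2 ≤ gg G i := by
  induction i with
  | zero => exact hG
  | succ i ih => rw [gg_succ]; exact two_le_lgn (by omega)

theorem gg_le (hG : 2 ≤ G) (i : ℕ) : gg G (i + 1) ≤ gg G i := by
  rw [gg_succ]; exact lgn_le (two_le_gg hG i)

theorem gg_pred_le (hG : 2 ≤ G) (i : ℕ) : gg G i ≤ gg G (i - 1) := by
  cases i with
  | zero => exact le_rfl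
  | succ i => exact gg_le hG i

theorem gg_le_ell (hG : 2 ≤ G) (i : ℕ) : (gg G i : ℝ) ≤ 2 ^ i * ell i G := by
  have hGr : (1 : ℝ) ≤ G := by
    have : 1 ≤ G := by omega
    exact_mod_cast this
  induction i with
  | zero => simp [gg_zero, ell_zero]
  | succ i ih =>
    rw [gg_succ]
    have h2 := two_le_gg hG i
    have h1 : (1 : ℝ) ≤ gg G i := by
      have : 1 ≤ gg G i := by omega
      exact_mod_cast this
    have h3 := one_le_ell i hGr
    have h4 : (1 : ℝ) ≤ 2 ^ i := one_le_pow₀ (by norm_num)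
    calc (lgn (gg G i) : ℝ) ≤ 2 * Lg (gg G i) := lgn_le_Lg (by omega)
      _ ≤ 2 * Lg (2 ^ i * ell i G) := by
          have := Lg_mono h1 ih
          linarith
      _ ≤ 2 * (2 ^ i * Lg (ell i G)) := by
          have := Lg_mul h4 h3
          linarith
      _ = 2 ^ (i + 1) * ell (i + 1) G := by
          have : ell (i + 1) (G : ℝ) = Lg (ell i G) := Function.iterate_succ_apply' _ _ _
          rw [this]; ring

variable (G)

/-- the sizes, the outermost one first -/
def BB (i : ℕ) : ℕ := gg G (i - 1) / gg G (i + 1) + 1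

/-- the outer sizes -/
def TT : ℕ → List ℕ
  | 0 => []
  | i + 1 => BB G i :: TT i

theorem TT_length (i : ℕ) : (TT G i).length = i := by
  induction i with
  | zero => rfl
  | succ i ih => simp [TT, ih]

theorem TT_pos (i : ℕ) : ∀ b ∈ TT G i, 1 ≤ b := by
  induction i with
  | zero => simp [TT]
  | succ i ih =>
    intro b hb
    rcases List.mem_cons.1 hb with rfl | hb
    · unfold BB; exact Nat.le_add_left 1 _
    · exact ih b hb

variable {G}

theorem BB_mul_le (hG : 2 ≤ G) (i : ℕ) : BB G i * gg G (i + 1) ≤ 2 * gg G (i - 1) := by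
  unfold BB
  have h1 := Nat.div_mul_le_self (gg G (i - 1)) (gg G (i + 1))
  have h2 := gg_le hG i
  have h3 := gg_pred_le hG i
  rw [add_mul, one_mul]
  omega

theorem le_BB_mul (hG : 2 ≤ G) (i : ℕ) : gg G (i - 1) ≤ BB G i * gg G (i + 1) := by
  unfold BB
  have h2 := two_le_gg hG (i + 1)
  have := Nat.lt_div_mul_add (a := gg G (i - 1)) (b := gg G (i + 1)) (by omega)
  rw [add_mul, one_mul]
  omega

theorem lgn_BB_le (hG : 2 ≤ G) (i : ℕ) : lgn (BB G i) ≤ 3 * gg G i := by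
  have h1 : BB G i ≤ gg G (i - 1) + 1 := by
    unfold BB
    have := Nat.div_le_self (gg G (i - 1)) (gg G (i + 1))
    omega
  have h2 := (lgn_mono h1).trans (lgn_succ _)
  have h3 := two_le_gg hG i
  cases i with
  | zero =>
    have h4 : lgn (gg G (0 - 1)) ≤ gg G 0 := lgn_le hG
    omega
  | succ i =>
    have h4 : lgn (gg G (i + 1 - 1)) = gg G (i + 1) := by
      rw [Nat.add_sub_cancel, gg_succ]
    omega

theorem yz_one (b : ℕ) (bs : List ℕ) : yz (b :: bs) 1 = (4 * (yz bs 1).2, b * (yz bs 1).1) := by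
  have h0 : yz bs 0 = (0, 0) := by cases bs <;> rfl
  show (4 * (yz bs 1).2 + b * (yz bs 0).1, b * (yz bs 1).1) = _
  rw [h0]
  simp

theorem TT_bounds (hG : 2 ≤ G) (i : ℕ) :
    (yz (TT G i) 1).1 * gg G (i - 1) ≤ 6 ^ i * G ∧ (yz (TT G i) 1).2 * gg G i ≤ 6 ^ i * G ∧
      xc 1 (TT G i) * gg G i ≤ 6 ^ i * G ∧ LX 1 (TT G i) ≤ 18 * 6 ^ i * G := by
  induction i with
  | zero =>
    simp only [TT, yz, xc, LX, gg_zero, pow_zero, one_mul, Nat.zero_sub]
    omega
  | succ i ih =>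
    obtain ⟨h1, h2, h3, h4⟩ := ih
    have hB := BB_mul_le hG i
    have hl := lgn_BB_le hG i
    have hg := gg_le hG i
    have hg2 := two_le_gg hG (i + 1)
    have hg3 := two_le_gg hG i
    have e6 : 6 ^ (i + 1) * G = 6 * (6 ^ i * G) := by ring
    have hBy : BB G i * (yz (TT G i) 1).1 * gg G (i + 1) ≤ 2 * (6 ^ i * G) := by
      calc BB G i * (yz (TT G i) 1).1 * gg G (i + 1)
          = (BB G i * gg G (i + 1)) * (yz (TT G i) 1).1 := by ring
        _ ≤ (2 * gg G (i - 1)) * (yz (TT G i) 1).1 := Nat.mul_le_mul_right _ hB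
        _ = 2 * ((yz (TT G i) 1).1 * gg G (i - 1)) := by ring
        _ ≤ 2 * (6 ^ i * G) := Nat.mul_le_mul_left _ h1
    have hBy' : BB G i * (yz (TT G i) 1).1 ≤ 2 * (6 ^ i * G) :=
      (Nat.le_mul_of_pos_right _ (by omega)).trans hBy
    refine ⟨?_, ?_, ?_, ?_⟩
    · show (yz (BB G i :: TT G i) 1).1 * gg G (i + 1 - 1) ≤ _
      rw [yz_one, Nat.add_sub_cancel, e6]
      simp only
      have : 4 * (yz (TT G i) 1).2 * gg G i = 4 * ((yz (TT G i) 1).2 * gg G i) := by ring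
      omega
    · show (yz (BB G i :: TT G i) 1).2 * gg G (i + 1) ≤ _
      rw [yz_one, e6]
      simp only
      omega
    · show (4 * xc 1 (TT G i) + BB G i * (yz (TT G i) 1).1) * gg G (i + 1) ≤ _
      rw [e6, add_mul]
      have : 4 * xc 1 (TT G i) * gg G (i + 1) ≤ 4 * (xc 1 (TT G i) * gg G i) := by
        rw [mul_assoc]
        exact Nat.mul_le_mul_left _ (Nat.mul_le_mul_left _ hg)
      omega
    · show LX 1 (TT G i) + (xc 1 (TT G i) * (1 + 4 * lgn (BB G i)) +
        BB G i * (yz (TT G i) 1).1) ≤ _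
      have h5 : xc 1 (TT G i) * (1 + 4 * lgn (BB G i)) ≤ 13 * (6 ^ i * G) := by
        calc xc 1 (TT G i) * (1 + 4 * lgn (BB G i)) ≤ xc 1 (TT G i) * (13 * gg G i) :=
              Nat.mul_le_mul_left _ (by omega)
          _ = 13 * (xc 1 (TT G i) * gg G i) := by ring
          _ ≤ 13 * (6 ^ i * G) := Nat.mul_le_mul_left _ h3
      have e7 : 18 * 6 ^ (i + 1) * G = 108 * (6 ^ i * G) := by ring
      have e8 : 18 * 6 ^ i * G = 18 * (6 ^ i * G) := by ring
      omega

theorem TT_prod (hG : 2 ≤ G) (i : ℕ) : G * G ≤ (TT G i).prod * (gg G (i - 1) * gg G i) := by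
  induction i with
  | zero => simp [TT, gg_zero]
  | succ i ih =>
    have h1 := le_BB_mul hG i
    show G * G ≤ (BB G i :: TT G i).prod * (gg G (i + 1 - 1) * gg G (i + 1))
    rw [List.prod_cons, Nat.add_sub_cancel]
    calc G * G ≤ (TT G i).prod * (gg G (i - 1) * gg G i) := ih
      _ ≤ (TT G i).prod * ((BB G i * gg G (i + 1)) * gg G i) :=
          Nat.mul_le_mul_left _ (Nat.mul_le_mul_right _ h1)
      _ = BB G i * (TT G i).prod * (gg G i * gg G (i + 1)) := by ring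

/-- **The upper bound in terms of `G`.** -/
theorem f_le_G {j k n h : ℕ} (hG : 2 ≤ G) (hj : j ≤ 5) (hk : 3 * (h + 1) ≤ k) (hn : 3 ≤ n)
    {D : ℕ} (hD : n ≤ 2 ^ D) (hDG : D * gg G h ≤ G * G) :
    f k j n ≤ 2 ^ (36 * 6 ^ (h + 1) * G) + 2 := by
  obtain ⟨h1, h2, h3, h4⟩ := TT_bounds hG h
  have hg := two_le_gg hG h
  have hg1 := two_le_gg hG (h - 1)
  have hprod : D ≤ (gg G (h - 1) :: TT G h).prod := by
    rw [List.prod_cons]
    have h5 := TT_prod hG h
    have h6 : D * gg G h ≤ (gg G (h - 1) * (TT G h).prod) * gg G h := by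
      calc D * gg G h ≤ G * G := hDG
        _ ≤ (TT G h).prod * (gg G (h - 1) * gg G h) := h5
        _ = (gg G (h - 1) * (TT G h).prod) * gg G h := by ring
    exact Nat.le_of_mul_le_mul_right h6 (by omega)
  have hf := f_le_LX (j := j) (a := 1) (k := k) (n := n) (bs := gg G (h - 1) :: TT G h) (by omega)
    (by simp) (by
      intro b hb
      rcases List.mem_cons.1 hb with rfl | hb
      · omega
      · exact TT_pos G h b hb) (by rw [List.length_cons, TT_length]; exact hk) hn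
    (hD.trans (Nat.pow_le_pow_right (by norm_num) hprod))
  have hLX : LX 1 (gg G (h - 1) :: TT G h) ≤ 18 * 6 ^ (h + 1) * G := by
    show LX 1 (TT G h) + (xc 1 (TT G h) * (1 + 4 * lgn (gg G (h - 1))) +
      gg G (h - 1) * (yz (TT G h) 1).1) ≤ _
    have hl : lgn (gg G (h - 1)) ≤ 3 * gg G h := by
      cases h with
      | zero =>
        have h4 : lgn (gg G (0 - 1)) ≤ gg G 0 := lgn_le hG
        omega
      | succ h =>
        have h4 : lgn (gg G (h + 1 - 1)) = gg G (h + 1) := by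
          rw [Nat.add_sub_cancel, gg_succ]
        omega
    have h5 : xc 1 (TT G h) * (1 + 4 * lgn (gg G (h - 1))) ≤ 13 * (6 ^ h * G) := by
      calc xc 1 (TT G h) * (1 + 4 * lgn (gg G (h - 1))) ≤ xc 1 (TT G h) * (13 * gg G h) :=
            Nat.mul_le_mul_left _ (by omega)
        _ = 13 * (xc 1 (TT G h) * gg G h) := by ring
        _ ≤ 13 * (6 ^ h * G) := Nat.mul_le_mul_left _ h3
    have e7 : 18 * 6 ^ (h + 1) * G = 108 * (6 ^ h * G) := by ring
    have e8 : 18 * 6 ^ h * G = 18 * (6 ^ h * G) := by ring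
    have e9 : gg G (h - 1) * (yz (TT G h) 1).1 = (yz (TT G h) 1).1 * gg G (h - 1) := by ring
    omega
  refine hf.trans ?_
  rw [← pow_add]
  have : 2 ^ (LX 1 (gg G (h - 1) :: TT G h) + LX 1 (gg G (h - 1) :: TT G h)) ≤
      2 ^ (36 * 6 ^ (h + 1) * G) := by
    apply Nat.pow_le_pow_right (by norm_num)
    have e : 36 * 6 ^ (h + 1) * G = 18 * 6 ^ (h + 1) * G + 18 * 6 ^ (h + 1) * G := by ring
    omega
  omega

end

/-- **The sharp upper bound.** -/
theorem upper_sharp {k j h : ℕ} (hj : j ≤ 5) (hk : 3 * (h + 1) ≤ k) :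
    ∃ C : ℝ, 0 < C ∧ ∀ n : ℕ, 3 ≤ n →
      (f k j n : ℝ) ≤ Real.exp (C * Real.sqrt (Real.log n * ell h (Real.log n))) := by
  obtain ⟨C', hC'⟩ : ∃ C' : ℝ, C' = 8 * 2 ^ h := ⟨_, rfl⟩
  have h2h : (1 : ℝ) ≤ 2 ^ h := one_le_pow₀ (by norm_num)
  have hC'8 : 8 ≤ C' := by linarith
  refine ⟨36 * 6 ^ (h + 1) * (C' + 1) + 2, by positivity, ?_⟩
  intro n hn
  have hn3 : (3 : ℝ) ≤ n := by exact_mod_cast hn
  have hnpos : (0 : ℝ) < n := by linarith
  set V := Real.log n with hV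
  have hV1 : 1 ≤ V := by
    rw [hV, Real.le_log_iff_exp_le hnpos]
    have := Real.exp_one_lt_d9
    linarith
  have hellV1 := one_le_ell h hV1
  have hellV := ell_le h hV1
  set S := Real.sqrt (V * ell h V) with hS
  have hS1 : 1 ≤ S := by
    rw [hS]; apply Real.one_le_sqrt.2; nlinarith
  have hSV : S ≤ V := by
    rw [hS]
    calc Real.sqrt (V * ell h V) ≤ Real.sqrt (V * V) := Real.sqrt_le_sqrt (by nlinarith)
      _ = V := Real.sqrt_mul_self (by linarith)
  have hSS : S * S = V * ell h V := Real.mul_self_sqrt (by nlinarith)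
  set G := ⌈C' * S⌉₊ with hG
  have hG1 : C' * S ≤ G := Nat.le_ceil _
  have hG2 : (G : ℝ) ≤ (C' + 1) * S := by
    have := (Nat.ceil_lt_add_one (show 0 ≤ C' * S by positivity)).le
    rw [← hG] at this
    linarith
  have hGr : 2 ≤ G := by
    have : (2 : ℝ) ≤ G := by nlinarith
    exact_mod_cast this
  set D := Nat.log 2 n + 1 with hD
  have hDn : n ≤ 2 ^ D := (Nat.lt_pow_succ_log_self (by norm_num) n).le
  have hDV : (D : ℝ) ≤ 3 * V := by
    have h1 : (2 : ℕ) ^ Nat.log 2 n ≤ n := Nat.pow_log_le_self 2 (by omega)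
    have h2 : Real.log ((2 : ℝ) ^ Nat.log 2 n) ≤ V :=
      Real.log_le_log (by positivity) (by exact_mod_cast h1)
    rw [Real.log_pow] at h2
    have h3 := Real.log_two_gt_d9
    have h4 : (0 : ℝ) ≤ (Nat.log 2 n : ℕ) := Nat.cast_nonneg _
    rw [hD]; push_cast
    nlinarith
  have hDG : D * gg G h ≤ G * G := by
    have h1 := gg_le_ell hGr h
    have h2 : ell h (G : ℝ) ≤ (C' + 1) * ell h V := by
      have hG0 : (1 : ℝ) ≤ G := by
        have : 1 ≤ G := by omega
        exact_mod_cast this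
      calc ell h (G : ℝ) ≤ ell h ((C' + 1) * V) := by
            apply ell_mono h hG0
            have : (C' + 1) * S ≤ (C' + 1) * V := mul_le_mul_of_nonneg_left hSV (by linarith)
            linarith
        _ ≤ (C' + 1) * ell h V := ell_mul h (by linarith) hV1
    have h3 : (D : ℝ) * gg G h ≤ (3 * V) * (2 ^ h * ((C' + 1) * ell h V)) := by
      apply mul_le_mul hDV _ (Nat.cast_nonneg _) (by linarith)
      exact h1.trans (mul_le_mul_of_nonneg_left h2 (by linarith))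
    have h4 : (3 * V) * (2 ^ h * ((C' + 1) * ell h V)) = 3 * 2 ^ h * (C' + 1) * (S * S) := by
      rw [hSS]; ring
    have h5 : 3 * 2 ^ h * (C' + 1) * (S * S) ≤ C' * C' * (S * S) := by
      apply mul_le_mul_of_nonneg_right _ (by positivity)
      have e : 2 ^ h = C' / 8 := by rw [hC']; ring
      rw [e]
      nlinarith
    have h6 : C' * C' * (S * S) ≤ (G : ℝ) * G := by
      have : C' * S * (C' * S) ≤ (G : ℝ) * G := by
        apply mul_le_mul hG1 hG1 (by positivity) (Nat.cast_nonneg _)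
      linarith
    have h7 : (D : ℝ) * gg G h ≤ (G : ℝ) * G := by linarith
    exact_mod_cast h7
  have hf := f_le_G (j := j) (k := k) (n := n) (h := h) hGr hj hk hn hDn hDG
  have hf' : (f k j n : ℝ) ≤ 2 ^ (36 * 6 ^ (h + 1) * G) + 2 := by exact_mod_cast hf
  have h8 : (2 : ℝ) ^ (36 * 6 ^ (h + 1) * G) = Real.exp ((36 * 6 ^ (h + 1) * G) * Real.log 2) := by
    rw [← Real.exp_log (show (0 : ℝ) < 2 ^ (36 * 6 ^ (h + 1) * G) by positivity), Real.log_pow]
    push_cast
    rfl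
  have h9 : (1 : ℝ) ≤ 2 ^ (36 * 6 ^ (h + 1) * G) := one_le_pow₀ (by norm_num)
  have h10 : (3 : ℝ) ≤ Real.exp 2 := by
    have := Real.add_one_le_exp (2 : ℝ); linarith
  have h11 := Real.log_two_lt_d9
  calc (f k j n : ℝ) ≤ 2 ^ (36 * 6 ^ (h + 1) * G) + 2 := hf'
    _ ≤ 2 ^ (36 * 6 ^ (h + 1) * G) * 3 := by linarith
    _ ≤ 2 ^ (36 * 6 ^ (h + 1) * G) * Real.exp 2 :=
        mul_le_mul_of_nonneg_left h10 (by positivity)
    _ = Real.exp ((36 * 6 ^ (h + 1) * G) * Real.log 2 + 2) := by rw [h8, Real.exp_add]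
    _ ≤ Real.exp ((36 * 6 ^ (h + 1) * (C' + 1) + 2) * S) := by
        apply Real.exp_le_exp.2
        have h12 : (36 * 6 ^ (h + 1) * (G : ℝ)) * Real.log 2 ≤ 36 * 6 ^ (h + 1) * G := by
          have : (0 : ℝ) ≤ 36 * 6 ^ (h + 1) * G := by positivity
          nlinarith
        have h13 : 36 * 6 ^ (h + 1) * (G : ℝ) ≤ 36 * 6 ^ (h + 1) * ((C' + 1) * S) :=
          mul_le_mul_of_nonneg_left hG2 (by positivity)
        nlinarith

end Pool.Agent.H595K
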