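import Mathlib
import Pool.Agent.H595K.UNum

/-!
# The order of `log f` for `j = 3, 4, 5`
-/

namespace Pool.Agent.H595K

open Lb Filter Topology

theorem tendsto_iter (h : ℕ) : Tendsto (Real.log^[h]) atTop atTop := by
  induction h with
  | zero => exact tendsto_id
  | succ h ih =>
    rw [Function.iterate_succ']
    exact Real.tendsto_log_atTop.comp ih

theorem ell_eventually (h : ℕ) : ∀ᶠ x : ℝ in atTop,
    Real.log^[h] x ≤ ell h x ∧ ell h x ≤ 2 ^ h * Real.log^[h] x := by
  induction h with
  | zero =>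
    refine Eventually.of_forall (fun x => ?_)
    simp [ell]
  | succ h ih =>
    have h1 := (tendsto_iter h).eventually_ge_atTop 1
    have h2 := (tendsto_iter (h + 1)).eventually_ge_atTop (1 + h * Real.log 2)
    filter_upwards [ih, h1, h2] with x hx h1 h2
    have e1 : Real.log^[h + 1] x = Real.log (Real.log^[h] x) := Function.iterate_succ_apply' _ _ _
    have e2 : ell (h + 1) x = Lg (ell h x) := Function.iterate_succ_apply' _ _ _
    rw [e1] at h2 ⊢
    rw [e2]
    have h3 : 1 ≤ ell h x := h1.trans hx.1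
    constructor
    · have := Real.log_le_log (by linarith) hx.1
      unfold Lg; linarith
    · have h4 := Real.log_le_log (by linarith) hx.2
      rw [Real.log_mul (by positivity) (by linarith), Real.log_pow] at h4
      have h5 : (2 : ℝ) ≤ 2 ^ (h + 1) := by
        have : (1 : ℝ) ≤ 2 ^ h := one_le_pow₀ (by norm_num)
        rw [pow_succ]; linarith
      have h6 : 0 ≤ Real.log (Real.log^[h] x) := Real.log_nonneg h1
      unfold Lg
      nlinarith

/-- **The order of `log f` for `j = 3, 4, 5`.** -/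
theorem sharp_one {k j : ℕ} (hj3 : 3 ≤ j) (hj5 : j ≤ 5) (hjk : j < k) :
    ∃ c C : ℝ, 0 < c ∧ 0 < C ∧ ∀ᶠ n : ℕ in atTop,
      Real.exp (c * Real.sqrt (Real.log n * Real.log^[k / 3] n)) ≤ f k j n ∧
      (f k j n : ℝ) ≤ Real.exp (C * Real.sqrt (Real.log n * Real.log^[k / 3] n)) := by
  obtain ⟨h, hh⟩ : ∃ h, k / 3 = h + 1 := ⟨k / 3 - 1, by omega⟩
  obtain ⟨c, hc, hlow⟩ := lower_sharp (k := k) (j := j) (H := h + 1) (by omega) hj3 (by omega)
  obtain ⟨C, hC, hup⟩ := upper_sharp (k := k) (j := j) (h := h) hj5 (by omega)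
  have h2h : (0 : ℝ) < 2 ^ h := by positivity
  refine ⟨c, C * Real.sqrt (2 ^ h), hc, by positivity, ?_⟩
  have hlogn : Tendsto (fun n : ℕ => Real.log n) atTop atTop :=
    Real.tendsto_log_atTop.comp tendsto_natCast_atTop_atTop
  filter_upwards [hlogn.eventually (ell_eventually h), eventually_ge_atTop 3,
    hlogn.eventually_ge_atTop 1] with n hn hn3 hn1
  rw [hh]
  have e : Real.log^[h + 1] (n : ℝ) = Real.log^[h] (Real.log n) := Function.iterate_succ_apply _ _ _
  rw [e]
  constructor
  · refine le_trans (Real.exp_le_exp.2 ?_) (hlow n hn3)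
    apply mul_le_mul_of_nonneg_left _ hc.le
    apply Real.sqrt_le_sqrt
    exact mul_le_mul_of_nonneg_left hn.1 (by linarith)
  · refine (hup n hn3).trans (Real.exp_le_exp.2 ?_)
    rw [mul_assoc]
    apply mul_le_mul_of_nonneg_left _ hC.le
    rw [← Real.sqrt_mul h2h.le]
    apply Real.sqrt_le_sqrt
    calc Real.log n * ell h (Real.log n)
        ≤ Real.log n * (2 ^ h * Real.log^[h] (Real.log n)) :=
          mul_le_mul_of_nonneg_left hn.2 (by linarith)
      _ = 2 ^ h * (Real.log n * Real.log^[h] (Real.log n)) := by ring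

end Pool.Agent.H595K
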