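import Mathlib
import Pool.Agent.H595K.SRank

/-!
# Chains of blocks and the induction on the rank
-/

namespace Pool.Agent.H595K.Lb

open LT

/-- **The induction on the rank.** -/
theorem rank_ind {M : ℕ} (R : (LT ℝ → Prop) → Prop)
    (himp : ∀ Q Q' : LT ℝ → Prop, (∀ B, Q B → Q' B) → R Q' → R Q)
    (hor : ∀ Q Q' : LT ℝ → Prop, R Q → R Q' → R (fun B => Q B ∨ Q' B))
    (hpure : R (fun B => ∃ e, PP e B))
    (hlin : ∀ (D : ℕ) (Q Q' : LT ℝ → Prop), 1 ≤ D →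
      (∀ B B', Sub (fun _ _ _ => True) B' B → Q B → Q B') →
      (∀ (n : ℕ) (B : LT ℝ), Comp (D * (n + 1)) B → AllC (PM M) [] B → Q B →
        ∃ X, Sub (fun _ _ _ => True) X B ∧ Comp (n + 1) X ∧ Q' X) → R Q' → R Q)
    (hchain : ∀ Q : LT ℝ → Prop, R Q → R (Cc Q)) (k : ℕ) :
    ∀ b, R (fun B => AllC (fun L _ => RkL k b L) [] B) := by
  have hlg : ∀ e : Bool, R (fun B => LT.AllN (fun x l _ => AllL (Dr e x) l) B) := by
    intro e
    refine hlin (2 * (M + 3)) _ (Cc (fun B => ∃ e, PP e B)) (by omega) ?_ ?_ (hchain _ hpure)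
    · intro B B' h hB
      exact h.allN hB (fun a l r l' r' _ h1 hl _ => hl.allL h1)
    · intro n B hB hP hQ
      obtain ⟨B', z1, z2⟩ := comp_le' (a := 2 * ((M + 2) * n + 1)) (by nlinarith) hB
      obtain ⟨X, h1, h2, h3, h4⟩ := lay_all e z2
        (AllC.sub pm_sublist z1 (List.Sublist.refl _) hP)
        (z1.allN hQ (fun a l r l' r' _ h1 hl _ => hl.allL h1))
      exact ⟨mp Prod.fst X, z1.trans h1, comp_mp h2, e, X, rfl, h3,
        fun Z hZ hs => ⟨e, h4 Z hZ hs⟩⟩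
  have hstep : ∀ (k : ℕ) (b : Bool), 1 ≤ k →
      R (fun B => AllC (fun L _ => RkL (nk k b) (!b) L) [] B) →
      R (fun B => AllC (fun L _ => RkL k b L) [] B) := by
    intro k b hk h1
    refine hlin (2 * (M + 3) + 2) _
      (fun B => (LT.AllN (fun x l _ => AllL (Dr (!b) x) l) B) ∨
        Cc (fun B => AllC (fun L _ => RkL (nk k b) (!b) L) [] B) B) (by omega)
      (rk_sub k b) ?_ (hor _ _ (hlg (!b)) (hchain _ h1))
    intro n B hB hP hQ
    obtain ⟨B', z1, z2⟩ := comp_le' (a := (M + 3) * (2 * n + 1) + 2) (by nlinarith) hB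
    rcases step_c hk z2 (AllC.sub pm_sublist z1 (List.Sublist.refl _) hP)
      (rk_sub k b _ _ z1 hQ) with ⟨X, x1, x2, x3⟩ | ⟨X, x1, x2, x3, x4⟩
    · exact ⟨X, z1.trans x1, x2, Or.inl x3⟩
    · exact ⟨mp Prod.fst X, z1.trans x1, comp_mp x2, Or.inr ⟨!b, X, rfl, x3, x4⟩⟩
  induction k with
  | zero =>
    have h0 : R (fun B => AllC (fun L _ => RkL 0 false L) [] B) := by
      refine hlin 8 _ (Cc (fun B => ∃ e, PP e B)) (by omega) (rk_sub 0 false) ?_
        (hchain _ hpure)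
      intro n B hB hP hQ
      exact rank_zero hB hP hQ
    intro b
    refine himp _ _ ?_ h0
    intro B hB
    refine allC_imp ?_ hB
    intro L _ hL N t z L' e
    exact ⟨(hL N t z L' e).1, by simp⟩
  | succ k ih =>
    have h1 := hstep (k + 1) true (by omega) (ih false)
    have h2 := hstep (k + 1) false (by omega) h1
    intro b
    cases b
    · exact h2
    · exact h1

/-- **The block-chain lemma for trees with many leaves.** -/
theorem block_big {e : Bool} {X : LT (ℝ × WithBot ℝ)} {kept : Finset ℕ} {w : ℕ → ℝ}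
    (hw : ∀ c, 0 ≤ w c) {Kc : ℕ → ℕ} {q R : ℕ} (hq1 : 1 ≤ q) (hC : ChE e X)
    (hq : ∀ Z, Sub (fun _ _ _ => True) Z X → Comp q Z → ∀ β, ¬ AllL (fun a => a.2 = β) Z)
    (hR : 4 * q + 2 ≤ R)
    (hblk : ∀ β s Z G, 1 ≤ s → s ≤ q → Comp s Z → Sub (fun _ _ _ => True) G X →
      GA (fun u => ∃ N, Comp (N + 2) u) β Z G → ∃ c ∈ kept, ∃ Y n0,
        Sub (fun _ _ _ => True) Y (mp Prod.fst Z) ∧ Big n0 Y ∧ WB [e] (Kc c) [] Y ∧
        4 * (kept.card : ℝ) * s ≤ w c * n0) :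
    ∀ (n : ℕ) (t : LT (ℝ × WithBot ℝ)), Sub (fun _ _ _ => True) t X → Comp n t →
      ∀ nn : ℕ → ℕ, (∀ c ∈ kept, ¬ ∃ Y, Sub (fun _ _ _ => True) Y (mp Prod.fst t) ∧
        Big (nn c + 1) Y ∧ WB [e] (Kc c) [] Y) →
      (kept.card : ℝ) * ((n : ℝ) - R) ≤ ∑ c ∈ kept, w c * nn c := by
  classical
  intro n
  induction n using Nat.strong_induction_on with
  | _ n ih =>
  intro t ht hn nn hnn
  have hsum0 : 0 ≤ ∑ c ∈ kept, w c * (nn c : ℝ) :=
    Finset.sum_nonneg (fun c _ => mul_nonneg (hw c) (Nat.cast_nonneg _))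
  rcases Nat.lt_or_ge R n with hRn | hRn
  swap
  · have h1 : (n : ℝ) - R ≤ 0 := by
      have : (n : ℝ) ≤ R := by exact_mod_cast hRn
      linarith
    have h2 : (kept.card : ℝ) * ((n : ℝ) - R) ≤ 0 :=
      mul_nonpos_of_nonneg_of_nonpos (Nat.cast_nonneg _) h1
    linarith
  obtain ⟨β, s, hs1, hsq, Z, G, g1, g2, g3⟩ := exists_blk hq1 (by omega) hn (ChE.sub ht hC)
    (fun Z hZ => hq Z (ht.trans hZ))
  obtain ⟨c0, hc0, Y, n0, y1, y2, y3, y4⟩ := hblk β s Z G hs1 hsq g2 (ht.trans g1)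
    (g3.imp (fun u hu => ⟨n - 4 * s - 2, by
      rw [show n - 4 * s - 2 + 2 = n - 4 * s by omega]; exact hu⟩))
  have hGr : Gr (Comp (n - 4 * s)) e (mp Prod.fst Z) (mp Prod.fst G) :=
    g3.gr (fun u hu => comp_mp hu) (ChE.sub (ht.trans g1) hC)
  obtain ⟨Y0, p1, p2, _⟩ := hGr.select (em_of_sub y1)
  have hGt : Sub (fun _ _ _ => True) (mp Prod.fst G) (mp Prod.fst t) := g1.mp
  -- gluing
  have glue : ∀ v, (∀ B', Comp (n - 4 * s) B' → Sub (fun _ _ _ => True) B' Y0 →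
      ∃ Y', Sub (fun _ _ _ => True) Y' B' ∧ (Big v Y' ∧ WB [e] (Kc c0) [] Y')) →
      ∃ Y1, Sub (fun _ _ _ => True) Y1 (mp Prod.fst t) ∧ Big (n0 + v) Y1 ∧
        WB [e] (Kc c0) [] Y1 := by
    intro v hb
    obtain ⟨Y1, r1, r2, _⟩ := p2.map hb
    refine ⟨Y1, (hGt.trans p1).trans r1, gr_big (fun t h => h.1) y2 r2, ?_⟩
    exact wb_gr (Q := fun t => Big v t ∧ WB [e] (Kc c0) [] t)
      (fun t h => h.2) y3 r2 (bt_of_allL r2 (allL_triv (by simp) Y1))
  have hn0 : n0 ≤ nn c0 := by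
    by_contra hcon
    push Not at hcon
    obtain ⟨Y1, z1, z2, z3⟩ := glue 0 (by
      intro B' _ _
      obtain ⟨i, hi⟩ := exists_leaf B'
      exact ⟨leaf i, hi, Big.zero _, trivial⟩)
    exact hnn c0 hc0 ⟨Y1, z1, z2.mono (by omega), z3⟩
  by_cases hb : ∀ B', Comp (n - 4 * s) B' → Sub (fun _ _ _ => True) B' Y0 →
      ∃ Y', Sub (fun _ _ _ => True) Y' B' ∧ (Big (nn c0 - n0 + 1) Y' ∧ WB [e] (Kc c0) [] Y')
  · exfalso
    obtain ⟨Y1, z1, z2, z3⟩ := glue _ hb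
    rw [show n0 + (nn c0 - n0 + 1) = nn c0 + 1 by omega] at z2
    exact hnn c0 hc0 ⟨Y1, z1, z2, z3⟩
  · push Not at hb
    obtain ⟨B', r1, r2, r3⟩ := hb
    have hB't : Sub (fun _ _ _ => True) B' (mp Prod.fst t) := (hGt.trans p1).trans r2
    obtain ⟨u, u1, rfl⟩ := Sub.of_mp hB't
    have hu := comp_of_mp r1
    have h1 := ih (n - 4 * s) (by omega) u (ht.trans u1) hu
      (Function.update nn c0 (nn c0 - n0)) (by
        rintro c hc ⟨Y', k1, k2, k3⟩
        by_cases hcc : c = c0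
        · subst hcc
          rw [Function.update_self] at k2
          exact r3 Y' k1 k2 k3
        · rw [Function.update_of_ne hcc] at k2
          exact hnn c hc ⟨Y', hB't.trans k1, k2, k3⟩)
    have h2 : ∑ c ∈ kept, w c * (Function.update nn c0 (nn c0 - n0) c : ℕ) =
        ∑ c ∈ kept, w c * (nn c : ℝ) - w c0 * n0 := by
      rw [← Finset.add_sum_erase kept _ hc0, ← Finset.add_sum_erase kept
        (fun c => w c * (nn c : ℝ)) hc0]
      have h3 : ∑ c ∈ kept.erase c0, w c * (Function.update nn c0 (nn c0 - n0) c : ℕ) =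
          ∑ c ∈ kept.erase c0, w c * (nn c : ℝ) := by
        apply Finset.sum_congr rfl
        intro c hc
        rw [Function.update_of_ne (Finset.ne_of_mem_erase hc)]
      rw [h3, Function.update_self, Nat.cast_sub hn0]
      ring
    rw [h2] at h1
    have h3 : ((n - 4 * s : ℕ) : ℝ) = (n : ℝ) - 4 * s := by
      rw [Nat.cast_sub (by omega)]; push_cast; ring
    rw [h3] at h1
    have h4 : (kept.card : ℝ) * ((n : ℝ) - R) =
        (kept.card : ℝ) * ((n : ℝ) - 4 * s - R) + 4 * (kept.card : ℝ) * s := by ring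
    linarith

end Pool.Agent.H595K.Lb
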