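import Mathlib

/-!
# The number of iterated logarithms
-/

namespace Pool.Agent.H595K

/-- The number `nlog k j` of iterated logarithms in the order of `log f`. With `a = ⌊j / 3⌋` and
`H = ⌊k / 3⌋` it is `H` if `a = 1`; for `a ≥ 2` it is `2` if `H - a` is odd and `3` if `H - a` is
even. -/
def nlog (k j : ℕ) : ℕ :=
  if j / 3 = 1 then k / 3 else if (k / 3 - j / 3) % 2 = 1 then 2 else 3

end Pool.Agent.H595K
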