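import Mathlib
import Pool.Agent.H595K.WBig

/-!
# Systems of strategies
-/

namespace Pool.Agent.H595K.Lb

open LT

/-- Systems of strategies. There are `N h` strategies if `h` layers remain, `P` says which
directions and budgets are allowed, and `T` is the condition on the targets. -/
structure Sys where
  /-- the number of strategies -/
  N : ℕ → ℕ
  /-- a bound for the number of strategies -/
  N0 : ℕ
  /-- a constant -/
  E : ℝ
  /-- the allowed directions and budgets -/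
  P : ℕ → Bool → (ℕ → Bool) → (ℕ → ℕ) → Prop
  /-- the allowed parameters -/
  ok : ℝ → Prop
  /-- the condition on the targets -/
  T : ℝ → ℕ → Bool → (ℕ → Bool) → (ℕ → ℕ) → ℕ → ℝ → Prop
  hE : 1 ≤ E
  hN : ∀ h, N h ≤ N0
  hN1 : 1 ≤ N0
  hone : ∀ {θ h d dir n m C}, T θ h d dir n m C → ∀ c < N h, 1 ≤ n c
  hmono : ∀ {θ h d dir n m C C'}, T θ h d dir n m C' → C ≤ C' → T θ h d dir n m C
  hbud : ∀ {h d dir bud}, P h d dir bud → ∀ c < N h, 1 ≤ bud c
  hkept : ∀ {h d dir bud}, P h d dir bud → 2 ≤ h → ∃ c < N h, dir c = d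
  hlarge : ∀ {θ h d dir bud n m} {D : ℝ}, ok θ → P h d dir bud → 2 ≤ h → 1 ≤ D →
    T θ h d dir n m (E * Real.log D) → D ≤ (m : ℝ)
  hpure : ∀ {θ h d dir bud n m}, ok θ → P h d dir bud → 2 ≤ h → T θ h d dir n m 0 →
    ∃ c < N h, n c ≤ m
  hscale : ∀ {θ h d dir bud n n1} {m s : ℕ} {C D : ℝ}, ok θ → P h d dir bud → 2 ≤ h → 1 ≤ D →
    1 ≤ s → s ≤ m → T θ h d dir n m (C + E * Real.log D) → (∀ c < N h, 1 ≤ n1 c) →
    (∀ c < N h, dir c = d → (n1 c : ℝ) * m ≤ D * s * n c) →
    (∀ c < N h, dir c ≠ d → n1 c = n c) → T θ h d dir n1 s C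
  hdown : ∀ {θ h d dir bud n m C}, ok θ → P h d dir bud → 3 ≤ h → 1 ≤ m → 0 ≤ C →
    T θ h d dir n m C → (∃ c < N h, 2 ^ n c * 2 ^ n c < m) ∨
      ∃ (dir' : ℕ → Bool) (bud' : ℕ → ℕ), (∀ c < N (h - 1), c < N h ∧ 1 ≤ bud' c ∧
        ((dir' c = dir c ∧ bud' c ≤ bud c) ∨ bud' c + 1 ≤ bud c)) ∧
        P (h - 1) (!d) dir' bud' ∧ T θ (h - 1) (!d) dir' n m C
  hlast : ∀ {θ d dir bud n m} {D : ℝ}, ok θ → P 2 d dir bud → 1 ≤ m → 1 ≤ D →
    T θ 2 d dir n m (E * Real.log D) → (∃ c < N 2, 2 ^ n c * 2 ^ n c < m) ∨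
      ∃ c < N 2, (dir c = (!d) ∨ 2 ≤ bud c) ∧ D * n c ≤ m

/-- the statement of the recursion for the trees with property `Q` -/
def RecG (S : Sys) (K M H : ℕ) (Q : LT ℝ → Prop) (C : ℝ) : Prop :=
  ∀ (θ : ℝ) (h m : ℕ) (d : Bool) (s : List Bool) (dir : ℕ → Bool) (bud n : ℕ → ℕ) (B : LT ℝ),
    S.ok θ → 2 ≤ h → S.P h d dir bud → Alt (d :: s) → s.length + h = H →
    S.T θ h d dir n m C → Comp m B → AllC (PM M) [] B → Q B → WB (d :: s) K [] B →
    ∃ c < S.N h, ∃ X, Sub (fun _ _ _ => True) X B ∧ Big (n c) X ∧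
      WB [dir c] (6 * bud c - 1) [] X

theorem cs_big {S : Sys} {K M H N q m h1 : ℕ} {Q : LT ℝ → Prop} {C1 θ : ℝ}
    (hQ : RecG S K M H Q C1) (hθ : S.ok θ) (h12 : 2 ≤ h1) {e : Bool}
    {s1 : List Bool} {dir1 : ℕ → Bool} {bud1 n : ℕ → ℕ} {X : LT (ℝ × WithBot ℝ)} {Goal : Prop}
    (hplan : S.P h1 e dir1 bud1) (hAlt : Alt (e :: s1)) (hlen : s1.length + h1 = H)
    (hX : Comp N X) (hC : ChE e X) (hq1 : 1 ≤ q)
    (hq : ∀ Z, Sub (fun _ _ _ => True) Z X → Comp q Z → ∀ β, ¬ AllL (fun a => a.2 = β) Z)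
    (hm : (m : ℝ) / 8 ≤ (N : ℝ) - (4 * q + 2)) (hqm : q ≤ m)
    (hPM : AllC (PM M) [] (mp Prod.fst X))
    (hsingle : ∀ Z, Sub (fun _ _ _ => True) Z X → (∃ β, AllL (fun a => a.2 = β) Z) →
      Q (mp Prod.fst Z))
    (hWB : ∀ β s Z G, 1 ≤ s → Comp s Z → Sub (fun _ _ _ => True) G X →
      GA (fun u => ∃ N, Comp (N + 2) u) β Z G → WB (e :: s1) K [] (mp Prod.fst Z))
    (hgoal : ∀ c < S.N h1, ∀ Y, Sub (fun _ _ _ => True) Y (mp Prod.fst X) → Big (n c) Y →
      WB [dir1 c] (6 * bud1 c - 1) [] Y → Goal)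
    (hT : S.T θ h1 e dir1 n m (C1 + S.E * Real.log (64 * S.N0))) : Goal := by
  classical
  by_contra hG
  have hmpos : (0 : ℝ) < m := by
    have : 1 ≤ m := hq1.trans hqm
    exact_mod_cast this
  have hC0r : (1 : ℝ) ≤ S.N0 := by exact_mod_cast S.hN1
  have hn := S.hone hT
  have hbud := S.hbud hplan
  set kept := (Finset.range (S.N h1)).filter (fun c => dir1 c = e) with hkept
  have hkne : kept.Nonempty := by
    obtain ⟨c, hc, hc'⟩ := S.hkept hplan h12
    exact ⟨c, Finset.mem_filter.2 ⟨Finset.mem_range.2 hc, hc'⟩⟩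
  have hκ1 : (1 : ℝ) ≤ kept.card := by
    have : 1 ≤ kept.card := Finset.card_pos.2 hkne
    exact_mod_cast this
  have hκC : (kept.card : ℝ) ≤ S.N0 := by
    have : kept.card ≤ S.N0 := by
      calc kept.card ≤ (Finset.range (S.N h1)).card := Finset.card_filter_le _ _
        _ = S.N h1 := Finset.card_range _
        _ ≤ S.N0 := S.hN h1
    exact_mod_cast this
  obtain ⟨W, hW⟩ : ∃ W : ℝ, W = (N : ℝ) - (4 * q + 2) := ⟨_, rfl⟩
  rw [← hW] at hm
  have hWpos : 0 < W := lt_of_lt_of_le (by positivity) hm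
  have hnr : ∀ c < S.N h1, (1 : ℝ) ≤ n c := fun c hc => by exact_mod_cast hn c hc
  have hmemC : ∀ c ∈ kept, c < S.N h1 :=
    fun c hc => Finset.mem_range.1 (Finset.mem_filter.1 hc).1
  have hmemE : ∀ c ∈ kept, dir1 c = e := fun c hc => (Finset.mem_filter.1 hc).2
  by_cases hend : ∃ c ∈ kept, ∃ Y, Sub (fun _ _ _ => True) Y (mp Prod.fst X) ∧
      Big (n c) Y ∧ WB [e] (6 * bud1 c - 1) [] Y
  · obtain ⟨c, hc, Y, y1, y2, y3⟩ := hend
    exact hG (hgoal c (hmemC c hc) Y y1 y2 (by rw [hmemE c hc]; exact y3))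
  push Not at hend
  have key := block_big (e := e) (X := X) (kept := kept) (w := fun c => W / n c)
    (fun c => div_nonneg hWpos.le (Nat.cast_nonneg _)) (Kc := fun c => 6 * bud1 c - 1) hq1 hC hq
    (R := 4 * q + 2) le_rfl (by
      intro β s Z G hs1 hsq hZ hG' hGA
      have hZX : Sub (fun _ _ _ => True) Z X := hG'.trans hGA.sub
      have hs : (1 : ℝ) ≤ s := by exact_mod_cast hs1
      by_cases h5 : ∃ c ∈ kept, 4 * (kept.card : ℝ) * s * n c ≤ W
      · obtain ⟨c, hc, h5⟩ := h5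
        have hc0 := hmemC c hc
        have h6 := hnr c hc0
        cases Z with
        | leaf i =>
          obtain ⟨s', rfl⟩ : ∃ s', s = s' + 1 := ⟨s - 1, by omega⟩
          exact absurd hZ (by simp [Comp])
        | node a l r =>
          obtain ⟨i, hi⟩ := exists_leaf (mp Prod.fst l)
          obtain ⟨j, hj⟩ := exists_leaf (mp Prod.fst r)
          refine ⟨c, hc, node a.1 (leaf i) (leaf j), 1, Sub.node trivial hi hj,
            by simp [Big, lv], ?_, ?_⟩
          · refine WB.mono ?_ wb_single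
            have := hbud c hc0
            omega
          · rw [Nat.cast_one, mul_one, le_div_iff₀ (by linarith)]
            exact h5
      · push Not at h5
        obtain ⟨n1, hn1⟩ : ∃ n1 : ℕ → ℕ, n1 = fun c => if dir1 c = e then
          ⌈4 * (kept.card : ℝ) * s * n c / W⌉₊ else n c := ⟨_, rfl⟩
        have hn1pos : ∀ c < S.N h1, 1 ≤ n1 c := by
          intro c hc
          rw [hn1]
          dsimp only
          split_ifs with h6
          · have := hnr c hc
            exact Nat.ceil_pos.2 (by positivity)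
          · exact hn c hc
        have hT1 : S.T θ h1 e dir1 n1 s C1 := by
          refine S.hscale hθ hplan h12 (D := 64 * S.N0) (by linarith) hs1 (hsq.trans hqm) hT
            hn1pos ?_ ?_
          · intro c hc h6
            have h7 := hnr c hc
            have h8 := h5 c (Finset.mem_filter.2 ⟨Finset.mem_range.2 hc, h6⟩)
            have e1 : n1 c = ⌈4 * (kept.card : ℝ) * s * n c / W⌉₊ := by
              rw [hn1]; dsimp only; rw [if_pos h6]
            rw [e1]
            have h10 : (1 : ℝ) < 4 * (kept.card : ℝ) * s * n c / W := by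
              rw [lt_div_iff₀ hWpos]; linarith
            have h11 := (Nat.ceil_lt_add_one (show 0 ≤ 4 * (kept.card : ℝ) * s * n c / W by
              positivity)).le
            have h12' : 8 * (kept.card : ℝ) * s * n c / W * m ≤ 64 * S.N0 * s * n c := by
              rw [div_mul_eq_mul_div, div_le_iff₀ hWpos]
              have h13 : (kept.card : ℝ) * m ≤ S.N0 * (8 * W) := by
                apply mul_le_mul hκC _ hmpos.le (by linarith)
                linarith
              have h14 : 0 ≤ (s : ℝ) * n c := by positivity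
              nlinarith [mul_le_mul_of_nonneg_right h13 h14]
            have h15 : 8 * (kept.card : ℝ) * s * n c / W =
                4 * (kept.card : ℝ) * s * n c / W + 4 * (kept.card : ℝ) * s * n c / W := by ring
            have h16 : ((⌈4 * (kept.card : ℝ) * s * n c / W⌉₊ : ℕ) : ℝ) ≤
                8 * (kept.card : ℝ) * s * n c / W := by linarith
            exact (mul_le_mul_of_nonneg_right h16 hmpos.le).trans h12'
          · intro c _ h6
            rw [hn1]; dsimp only; rw [if_neg h6]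
        obtain ⟨c, hc, Y, y1, y2, y3⟩ := hQ θ h1 s e s1 dir1 bud1 n1 (mp Prod.fst Z) hθ h12 hplan
          hAlt hlen hT1 (comp_mp hZ)
          (AllC.sub pm_sublist hZX.mp (List.Sublist.refl _) hPM)
          (hsingle Z hZX ⟨β, hGA.single⟩) (hWB β s Z G hs1 hZ hG' hGA)
        by_cases h6 : dir1 c = e
        · have e1 : n1 c = ⌈4 * (kept.card : ℝ) * s * n c / W⌉₊ := by
            rw [hn1]; dsimp only; rw [if_pos h6]
          refine ⟨c, Finset.mem_filter.2 ⟨Finset.mem_range.2 hc, h6⟩, Y, n1 c, y1, y2, ?_, ?_⟩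
          · rw [← h6]; exact y3
          · have h7 := Nat.le_ceil (4 * (kept.card : ℝ) * s * n c / W)
            rw [← e1] at h7
            have h8 := hnr c hc
            have h9 := mul_le_mul_of_nonneg_left h7 (show 0 ≤ W / n c by positivity)
            have h10 : W / (n c : ℝ) * (4 * (kept.card : ℝ) * s * n c / W) =
                4 * (kept.card : ℝ) * s := by
              have : (n c : ℝ) ≠ 0 := by linarith
              field_simp
            rw [h10] at h9
            exact h9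
        · exfalso
          have e1 : n1 c = n c := by
            rw [hn1]; dsimp only; rw [if_neg h6]
          rw [e1] at y2
          exact hG (hgoal c hc Y (hZX.mp.trans y1) y2 y3))
    N X (Sub.refl _) hX (fun c => n c - 1) (by
      rintro c hc ⟨Y, y1, y2, y3⟩
      have := hn c (hmemC c hc)
      rw [show n c - 1 + 1 = n c by omega] at y2
      exact hend c hc Y y1 y2 y3)
  have h3 : ∑ c ∈ kept, W / (n c : ℝ) * ((n c - 1 : ℕ) : ℝ) < ∑ _c ∈ kept, W := by
    apply Finset.sum_lt_sum_of_nonempty hkne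
    intro c hc
    have h4 := hnr c (hmemC c hc)
    rw [Nat.cast_sub (hn c (hmemC c hc)), Nat.cast_one, div_mul_eq_mul_div,
      div_lt_iff₀ (by linarith)]
    nlinarith
  rw [Finset.sum_const, nsmul_eq_mul] at h3
  have h4 : (N : ℝ) - ((4 * q + 2 : ℕ) : ℝ) = W := by rw [hW]; push_cast; ring
  rw [h4] at key
  linarith

/-- **The chain step.** -/
theorem chain_stepG {S : Sys} {K M H : ℕ} {Q : LT ℝ → Prop} {C1 C2 : ℝ} (hC1 : 0 ≤ C1)
    (hQ : RecG S K M H Q C1) (hC2 : 1 ≤ C2) (hQ2 : RecA K M H Q C2) :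
    ∃ C, 0 ≤ C ∧ RecG S K M H (Cc Q) C := by
  classical
  have hE := S.hE
  have hN0 : (1 : ℝ) ≤ S.N0 := by exact_mod_cast S.hN1
  have hl64 : 0 ≤ Real.log (64 * S.N0) := Real.log_nonneg (by linarith)
  have hl1000 : 0 ≤ Real.log 1000 := Real.log_nonneg (by norm_num)
  have hl2 : 0 ≤ Real.log (64 * C2) := Real.log_nonneg (by linarith)
  have hl32 : Real.log 32 ≤ Real.log 1000 := Real.log_le_log (by norm_num) (by norm_num)
  have hE1 : 0 ≤ S.E * Real.log (64 * S.N0) := by positivity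
  have hE2 : 0 ≤ S.E * Real.log 1000 := by positivity
  have hE3 : 0 ≤ S.E * Real.log (64 * C2) := by positivity
  have hE4 : S.E * Real.log 32 ≤ S.E * Real.log 1000 :=
    mul_le_mul_of_nonneg_left hl32 (by linarith)
  refine ⟨C1 + S.E * Real.log (64 * S.N0) + S.E * Real.log 1000 + S.E * Real.log (64 * C2),
    by positivity, ?_⟩
  rintro θ h m d s dir bud n B hθ h2 hplan hAlt hlen hT hB hP ⟨e, X, rfl, hC, hsingle⟩ hW
  have hm1000 : 1000 ≤ m := by
    have h1 := S.hlarge (D := 1000) hθ hplan h2 (by norm_num) (S.hmono hT (by linarith))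
    exact_mod_cast h1
  have hone := S.hone hT
  obtain ⟨q, hq⟩ : ∃ q, q = m / 16 := ⟨_, rfl⟩
  have hq1 : 1 ≤ q := by omega
  have hqm : (m : ℝ) ≤ 32 * q := by
    have : m ≤ 32 * q := by omega
    exact_mod_cast this
  have hXm : Comp m X := comp_of_mp hB
  by_cases hbig : ∃ Z, Sub (fun _ _ _ => True) Z X ∧ Comp q Z ∧ ∃ β, AllL (fun a => a.2 = β) Z
  · obtain ⟨Z, z1, z2, z3⟩ := hbig
    obtain ⟨c, hc, Y, y1, y2, y3⟩ := hQ θ h q d s dir bud n (mp Prod.fst Z) hθ h2 hplan hAlt hlen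
      (S.hscale (C := C1) (D := 32) (m := m) (n := n) hθ hplan h2 (by norm_num) hq1 (by omega)
        (S.hmono hT (by linarith)) hone (by
          intro c _ _
          have : (0 : ℝ) ≤ n c := Nat.cast_nonneg _
          nlinarith) (fun _ _ _ => rfl)) (comp_mp z2)
      (AllC.sub pm_sublist z1.mp (List.Sublist.refl _) hP) (hsingle Z z1 z3)
      (hW.sub z1.mp (List.Sublist.refl _))
    exact ⟨c, hc, Y, z1.mp.trans y1, y2, y3⟩
  push Not at hbig
  -- the two upper nodes
  obtain ⟨m2, hm2⟩ : ∃ m2, m = m2 + 2 := ⟨m - 2, by omega⟩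
  rw [hm2] at hXm
  cases X with
  | leaf i => exact absurd hXm (by simp [Comp])
  | node g1 l1 b0 =>
  cases l1 with
  | leaf i => exact absurd hXm.1 (by simp [Comp])
  | node g2 p x0 =>
  have hx0 : Comp m2 x0 := hXm.1.2
  have hx0X : Sub (fun _ _ _ => True) x0 (node g1 (node g2 p x0) b0) :=
    Sub.left _ _ (Sub.right _ _ (Sub.refl _))
  have hcls : AllL (fun c => g2.2 ≤ c.2 ∧ (g2.2 < c.2 → Dr e g2.1 c.1)) x0 := hC.2.1.1.2
  have hcls1 : AllL (fun c => g1.2 ≤ c.2 ∧ (g1.2 < c.2 → Dr e g1.1 c.1)) x0 := hC.1.1.2.2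
  have hg12 : g1.2 ≤ g2.2 := hC.1.1.1.1
  obtain ⟨X', hX'0, hX'c, hX'cls⟩ : ∃ X', Sub (fun _ _ _ => True) X' x0 ∧
      Comp (m / 2 + 1) X' ∧ AllL (fun c => g2.2 < c.2) X' := by
    obtain ⟨c, hc, t', k1, k2⟩ := exists_colorV (m := 2) (t := x0)
      (fun c a _ _ => (c = 0 ∧ a.2 = g2.2) ∨ (c = 1 ∧ g2.2 < a.2))
      (fun c => if c = 0 then q else m / 2)
      ((LT.allN_of_allL hcls).imp (by
        intro a l r ha
        rcases lt_or_eq_of_le ha.1 with h1 | h1
        · exact ⟨1, by norm_num, Or.inr ⟨rfl, h1⟩⟩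
        · exact ⟨0, by norm_num, Or.inl ⟨rfl, h1.symm⟩⟩)) hx0 (by
        simp [Finset.sum_range_succ]; omega)
    have k3 := allL_sub' k1
    interval_cases c
    · exfalso
      have k2 : Comp (q + 1) t' := by simpa using k2
      obtain ⟨t'', j1, j2⟩ := comp_drop' 1 k2
      refine hbig t'' (hx0X.trans (k1.top.trans j1)) j2 g2.2 (j1.allL (k3.imp ?_))
      rintro a (⟨_, h⟩ | ⟨h, _⟩)
      · exact h
      · exact absurd h (by norm_num)
    · refine ⟨t', k1.top, by simpa using k2, k3.imp ?_⟩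
      rintro a (⟨h, _⟩ | ⟨_, h⟩)
      · exact absurd h (by norm_num)
      · exact h
  have hX'X : Sub (fun _ _ _ => True) X' (node g1 (node g2 p x0) b0) := hx0X.trans hX'0
  have hd1 : AllL (fun c => Dr e g1.1 c.1) X' :=
    ((hX'0.allL hcls1).and hX'cls).imp (fun c hc => hc.1.2 (lt_of_le_of_lt hg12 hc.2))
  have hd2 : AllL (fun c => Dr e g2.1 c.1) X' :=
    ((hX'0.allL hcls).and hX'cls).imp (fun c hc => hc.1.2 hc.2)
  have hCX' : ChE e X' := ChE.sub hX'X hC
  have hPX' : AllC (PM M) [] (mp Prod.fst X') :=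
    AllC.sub pm_sublist hX'X.mp (List.Sublist.refl _) hP
  have hqX' : ∀ Z, Sub (fun _ _ _ => True) Z X' → Comp q Z → ∀ β, ¬ AllL (fun a => a.2 = β) Z :=
    fun Z hZ hc β hβ => hbig Z (hX'X.trans hZ) hc β hβ
  have hsX' : ∀ Z, Sub (fun _ _ _ => True) Z X' → (∃ β, AllL (fun a => a.2 = β) Z) →
      Q (mp Prod.fst Z) := fun Z hZ h => hsingle Z (hX'X.trans hZ) h
  have hmr : (m : ℝ) / 8 ≤ ((m / 2 + 1 : ℕ) : ℝ) - (4 * q + 2) := by
    have h1 : m + 8 * (4 * q + 2) ≤ 8 * (m / 2 + 1) := by omega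
    have h2 : (m : ℝ) + 8 * (4 * q + 2) ≤ 8 * ((m / 2 + 1 : ℕ) : ℝ) := by exact_mod_cast h1
    linarith
  -- caterpillars
  have hcat : ∀ c < S.N h, 2 ^ n c * 2 ^ n c < m → ∃ c < S.N h, ∃ Y,
      Sub (fun _ _ _ => True) Y (mp Prod.fst (node g1 (node g2 p x0) b0)) ∧ Big (n c) Y ∧
        WB [dir c] (6 * bud c - 1) [] Y := by
    intro c hc hnum
    obtain ⟨e', Y, y1, y2, y3⟩ := exists_cat hB (dst_of_pm hP).1 hnum
    refine ⟨c, hc, Y, y1, (by unfold Big; omega), (wb_pure' y2).mono ?_⟩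
    have := S.hbud hplan c hc
    omega
  by_cases hed : e = d
  · subst hed
    refine cs_big (Goal := ∃ c < S.N h, ∃ X, Sub (fun _ _ _ => True) X
      (mp Prod.fst (node g1 (node g2 p x0) b0)) ∧ Big (n c) X ∧
      WB [dir c] (6 * bud c - 1) [] X) hQ hθ h2 hplan hAlt hlen hX'c hCX' hq1 hqX' hmr
      (by omega) hPX' hsX' ?_ ?_ (S.hmono hT (by linarith))
    · intro β s' Z G _ _ hG hGA
      exact hW.sub (hX'X.trans (hG.trans hGA.sub)).mp (List.Sublist.refl _)
    · intro c hc Y y1 y2 y3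
      exact ⟨c, hc, Y, hX'X.mp.trans y1, y2, y3⟩
  · have hed' : e = !d := by
      cases e <;> cases d <;> simp_all
    subst hed'
    have hWB' : ∀ β s' Z G, 1 ≤ s' → Comp s' Z → Sub (fun _ _ _ => True) G X' →
        GA (fun u => ∃ N, Comp (N + 2) u) β Z G → WB ((!d) :: d :: s) K [] (mp Prod.fst Z) := by
      intro β s' Z G _ _ hG hGA
      have hGr : Gr (fun t => ∃ N, Comp (N + 2) t) (!d) (mp Prod.fst Z) (mp Prod.fst G) :=
        hGA.gr (fun u ⟨N, hu⟩ => ⟨N, comp_mp hu⟩) (ChE.sub hG hCX')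
      refine wb_sandwich (s := d :: s) (v1 := g1.1) (v2 := g2.1) (a := mp Prod.fst p)
        (b := mp Prod.fst b0) (fun t ht => ht) hGr ?_ ?_ ?_
      · rw [allL_mp]; exact hG.allL hd1
      · rw [allL_mp]; exact hG.allL hd2
      · exact hW.sub (Sub.node trivial (Sub.node trivial (Sub.refl _) (hX'0.trans hG).mp)
          (Sub.refl _)) (List.Sublist.refl _)
    rcases Nat.lt_or_ge h 3 with h3 | h3
    · -- the last layer
      have h22 : h = 2 := by omega
      subst h22
      rcases S.hlast (D := 64 * C2) hθ hplan (by omega) (by linarith)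
        (S.hmono hT (by linarith)) with ⟨c, hc, hnum⟩ | ⟨c, hc, hdir, hnum⟩
      · exact hcat c hc hnum
      · obtain ⟨n2, hn2⟩ : ∃ n2, n2 = (mp Prod.fst X').lv.length + 1 := ⟨_, rfl⟩
        have hfin := cs_one (n1 := n c) (n2 := n2) (h1 := 1) (lt_of_lt_of_le one_pos hC2) hQ2
          (s1 := d :: s) ⟨by simp, hAlt⟩ (by simp; omega) (hone c hc) (by omega) hX'c hCX' hq1
          hqX' hmr (by omega) hPX' hsX' hWB' (by
            have e2 : ell (1 - 1) (n2 : ℝ) = n2 := rfl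
            rw [e2]
            exact mul_le_mul_of_nonneg_right hnum (Nat.cast_nonneg _))
        rcases hfin with ⟨Y, y1, y2, y3⟩ | ⟨Y, y1, y2, y3⟩
        · refine ⟨c, hc, Y, hX'X.mp.trans y1, y2, ?_⟩
          rcases hdir with hdir | hdir
          · rw [hdir]
            refine y3.mono ?_
            have := S.hbud hplan c hc
            omega
          · exact (y3.turn (d' := dir c)).mono (by omega)
        · exfalso
          have h5 : 2 ^ n2 ≤ Y.lv.length := y2
          have h6 : Y.lv.length ≤ (mp Prod.fst X').lv.length := y1.sublist.length_le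
          have h7 : n2 < 2 ^ n2 := Nat.lt_two_pow_self
          omega
    · rcases S.hdown hθ hplan h3 (by omega) (by positivity) hT with
        ⟨c, hc, hnum⟩ | ⟨dir', bud', htr, hplan', hT'⟩
      · exact hcat c hc hnum
      refine cs_big (Goal := ∃ c < S.N h, ∃ X, Sub (fun _ _ _ => True) X
        (mp Prod.fst (node g1 (node g2 p x0) b0)) ∧ Big (n c) X ∧
        WB [dir c] (6 * bud c - 1) [] X) (s1 := d :: s) hQ hθ (by omega) hplan' ⟨by simp, hAlt⟩
        (by simp; omega) hX'c hCX' hq1 hqX' hmr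
        (by omega) hPX' hsX' hWB' ?_ (S.hmono hT' (by linarith))
      intro c hc Y y1 y2 y3
      obtain ⟨t0, t1, t2⟩ := htr c hc
      refine ⟨c, t0, Y, hX'X.mp.trans y1, y2, ?_⟩
      rcases t2 with ⟨t2, t3⟩ | t2
      · rw [← t2]
        exact y3.mono (by omega)
      · exact (y3.turn (d' := dir c)).mono (by omega)

end Pool.Agent.H595K.Lb
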