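import Mathlib
import Pool.Agent.H595K.WSys

/-!
# The recursion with a system of strategies
-/

namespace Pool.Agent.H595K.Lb

open LT

theorem RecG.imp {S : Sys} {K M H : ℕ} {Q Q' : LT ℝ → Prop} {C : ℝ} (h : ∀ B, Q B → Q' B)
    (hQ : RecG S K M H Q' C) : RecG S K M H Q C :=
  fun θ h' m d s dir bud n B h1 h2 h3 h4 h5 h6 h7 h8 h9 h10 =>
    hQ θ h' m d s dir bud n B h1 h2 h3 h4 h5 h6 h7 h8 (h B h9) h10

theorem RecG.mono {S : Sys} {K M H : ℕ} {Q : LT ℝ → Prop} {C C' : ℝ} (hC : C ≤ C')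
    (hQ : RecG S K M H Q C) : RecG S K M H Q C' :=
  fun θ h' m d s dir bud n B h1 h2 h3 h4 h5 h6 h7 h8 h9 h10 =>
    hQ θ h' m d s dir bud n B h1 h2 h3 h4 h5 (S.hmono h6 hC) h7 h8 h9 h10

theorem RecG.or {S : Sys} {K M H : ℕ} {Q Q' : LT ℝ → Prop}
    (hQ : ∃ C, 0 ≤ C ∧ RecG S K M H Q C) (hQ' : ∃ C, 0 ≤ C ∧ RecG S K M H Q' C) :
    ∃ C, 0 ≤ C ∧ RecG S K M H (fun B => Q B ∨ Q' B) C := by
  obtain ⟨C, hC, hQ⟩ := hQ
  obtain ⟨C', hC', hQ'⟩ := hQ'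
  refine ⟨max C C', hC.trans (le_max_left _ _), ?_⟩
  intro θ h' m d s dir bud n B h1 h2 h3 h4 h5 h6 h7 h8 h9 h10
  rcases h9 with h9 | h9
  · exact (hQ.mono (le_max_left _ _)) θ h' m d s dir bud n B h1 h2 h3 h4 h5 h6 h7 h8 h9 h10
  · exact (hQ'.mono (le_max_right _ _)) θ h' m d s dir bud n B h1 h2 h3 h4 h5 h6 h7 h8 h9 h10

/-- pure trees -/
theorem rec_pureG {S : Sys} {K M H : ℕ} : RecG S K M H (fun B => ∃ e, PP e B) 0 := by
  rintro θ h m d s dir bud n B hθ h2 hplan _ _ hT hB _ ⟨e, he⟩ _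
  obtain ⟨c, hc, hcm⟩ := S.hpure hθ hplan h2 hT
  obtain ⟨X, k1, k2⟩ := comp_le' hcm hB
  refine ⟨c, hc, X, k1, big_of_comp k2, ?_⟩
  refine WB.mono ?_ (WB.sub k1 (List.Sublist.refl _) (wb_pure' (d := dir c) he))
  have := S.hbud hplan c hc
  omega

/-- passing to a subtree of linear size -/
theorem lin_stepG {S : Sys} {K M H D : ℕ} {Q Q' : LT ℝ → Prop} (hD : 1 ≤ D)
    (hsub : ∀ B B', Sub (fun _ _ _ => True) B' B → Q B → Q B')
    (hstep : ∀ (n : ℕ) (B : LT ℝ), Comp (D * (n + 1)) B → AllC (PM M) [] B → Q B →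
      ∃ X, Sub (fun _ _ _ => True) X B ∧ Comp (n + 1) X ∧ Q' X)
    (hQ' : ∃ C, 0 ≤ C ∧ RecG S K M H Q' C) : ∃ C, 0 ≤ C ∧ RecG S K M H Q C := by
  obtain ⟨C', hC', hQ'⟩ := hQ'
  have hDr : (1 : ℝ) ≤ D := by exact_mod_cast hD
  have hE := S.hE
  have hlD : 0 ≤ Real.log (2 * D) := Real.log_nonneg (by linarith)
  have hED : 0 ≤ S.E * Real.log (2 * D) := by positivity
  refine ⟨C' + S.E * Real.log (2 * D), by positivity, ?_⟩
  intro θ h m d s dir bud n B hθ h2 hplan hAlt hlen hT hB hP hQB hW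
  have hm : D ≤ m := by
    have h1 := S.hlarge (D := 2 * D) hθ hplan h2 (by linarith) (S.hmono hT (by linarith))
    have h3 : (D : ℝ) ≤ m := by linarith
    exact_mod_cast h3
  have hq1 : 1 ≤ m / D := Nat.div_pos hm (by omega)
  have hq2 : (m : ℝ) ≤ 2 * D * ((m / D : ℕ) : ℝ) := by
    have h2 : m < (m / D + 1) * D := by
      have := Nat.lt_div_mul_add (a := m) (b := D) (by omega)
      rw [add_mul, one_mul]; exact this
    have h3 : m ≤ 2 * D * (m / D) := by nlinarith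
    exact_mod_cast h3
  obtain ⟨q, hq⟩ : ∃ q, m / D = q + 1 := ⟨m / D - 1, by omega⟩
  have hqm : q + 1 ≤ m := by
    rw [← hq]; exact Nat.div_le_self _ _
  obtain ⟨B', z1, z2⟩ := comp_le' (a := D * (q + 1)) (by
    rw [← hq]; exact Nat.mul_div_le m D) hB
  have hP' : AllC (PM M) [] B' := AllC.sub pm_sublist z1 (List.Sublist.refl _) hP
  obtain ⟨X, x1, x2, x3⟩ := hstep q B' z2 hP' (hsub _ _ z1 hQB)
  have hXB := z1.trans x1
  obtain ⟨c, hc, Y, y1, y2, y3⟩ := hQ' θ h (q + 1) d s dir bud n X hθ h2 hplan hAlt hlen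
    (S.hscale (D := 2 * D) (m := m) (n := n) hθ hplan h2 (by linarith) (by omega) hqm hT
      (S.hone hT) (by
        intro c _ _
        rw [hq] at hq2
        have : (0 : ℝ) ≤ n c := Nat.cast_nonneg _
        nlinarith) (fun _ _ _ => rfl)) x2
    (AllC.sub pm_sublist hXB (List.Sublist.refl _) hP) x3
    (hW.sub hXB (List.Sublist.refl _))
  exact ⟨c, hc, Y, hXB.trans y1, y2, y3⟩

/-- **The recursion for the trees of rank `k`.** -/
theorem rec_rankG {S : Sys} {K M H : ℕ} (hK : K ≤ 6 * H + 4) (k : ℕ) (b : Bool) :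
    ∃ C, 0 ≤ C ∧ RecG S K M H (fun B => AllC (fun L _ => RkL k b L) [] B) C := by
  have key := rank_ind (M := M) (fun Q => (∃ C, 0 ≤ C ∧ RecG S K M H Q C) ∧
    ∃ C, 1 ≤ C ∧ RecA K M H Q C) (by
      rintro Q Q' h ⟨⟨C1, h1, h2⟩, C2, h3, h4⟩
      exact ⟨⟨C1, h1, h2.imp h⟩, C2, h3, h4.imp h⟩) (by
      rintro Q Q' ⟨h1, h2⟩ ⟨h3, h4⟩
      exact ⟨RecG.or h1 h3, RecA.or h2 h4⟩) ⟨⟨0, le_rfl, rec_pureG⟩, 1, le_rfl, rec_pureA⟩ (by
      rintro D Q Q' hD hsub hstep ⟨h1, h2⟩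
      exact ⟨lin_stepG hD hsub hstep h1, lin_stepA hD hsub hstep h2⟩) (by
      rintro Q ⟨⟨C1, h1, h2⟩, C2, h3, h4⟩
      exact ⟨chain_stepG h1 h2 h3 h4, chain_stepA h3 h4 hK⟩) k b
  exact key.1

/-- **Subtrees with short words and many leaves.** -/
theorem exists_short4 (S : Sys) {K H M a : ℕ} (hH : 2 ≤ H) (hK : K ≤ 6 * H + 4) (ha : 1 ≤ a)
    (hp : ∀ d, ∃ (dir : ℕ → Bool) (bud : ℕ → ℕ), S.P H d dir bud ∧ ∀ c < S.N H, bud c ≤ a) :
    ∃ (C : ℝ) (c0 : ℕ), 0 ≤ C ∧ 1 ≤ c0 ∧ ∀ (θ : ℝ) (m N : ℕ) (T : LT ℝ), S.ok θ → N ≤ m →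
      (∀ d dir bud, S.P H d dir bud → S.T θ H d dir (fun _ => N) m C) →
      Comp (c0 * (m + 1)) T → AllC (PM M) [] T → WB [] K [] T →
      ∃ X, Sub (fun _ _ _ => True) X T ∧ Big N X ∧ WB [] (6 * a - 1) [] X := by
  obtain ⟨C, hC, hrec⟩ := rec_rankG (S := S) (M := M) hK K false
  obtain ⟨c0, hc0, hst⟩ := exists_start K M
  refine ⟨C, c0, hC, hc0, ?_⟩
  intro θ m N T hθ hNm hcond hT hP hW
  rcases hst m T hT hP hW with ⟨e, X, k1, k2, k3⟩ | ⟨d, B, k1, k2, k3⟩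
  · obtain ⟨X', g1, g2⟩ := comp_le' hNm k2
    refine ⟨X', k1.trans g1, big_of_comp g2, ?_⟩
    exact (WB.sub g1 (List.Sublist.refl _) (wb_pure' (d := true) k3)).drop.mono (by omega)
  · have hPB : AllC (PM M) [] B := AllC.sub pm_sublist k1 (List.Sublist.refl _) hP
    obtain ⟨dir, bud, hplan, hbud⟩ := hp d
    obtain ⟨c, hc, X, g1, g2, g3⟩ := hrec θ H m d [] dir bud (fun _ => N) B hθ hH hplan trivial
      (by simp) (hcond d dir bud hplan) k2 hPB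
      (init_rk k3.drop hPB (fun N b z L' e => by simp at e)) k3
    refine ⟨X, k1.trans g1, g2, g3.drop.mono ?_⟩
    have := hbud c hc
    omega

end Pool.Agent.H595K.Lb
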