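import Mathlib
import Pool.Agent.H595K.WRank
import Pool.Agent.H595K.JPlan

/-!
# The two systems of strategies
-/

namespace Pool.Agent.H595K.Lb

open Finset

theorem card_dirS_le {a t i : ℕ} {d : Bool} (ha : 1 ≤ a) (hi : i ≤ a + 2 * t + 1) :
    ((range (a + 2 * t + 1)).filter (fun c => dirS a t i d c = d)).card ≤ a + t := by
  classical
  have h1 := card_filter_add_card_filter_not (s := range (a + 2 * t + 1))
    (fun c => dirS a t i d c = d)
  rw [card_range] at h1
  have h2 : (range (t + 1)).card ≤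
      ((range (a + 2 * t + 1)).filter (fun c => ¬ dirS a t i d c = d)).card := by
    apply card_le_card_of_injOn (fun j => if i ≤ 2 * j then 2 * j - i else 2 * j + (a + 2 * t + 1) - i)
    · intro j hj
      simp only [coe_range, Set.mem_Iio] at hj
      simp only [coe_filter, mem_range, Set.mem_setOf_eq]
      have h3 : uu (a + 2 * t + 1) i
          (if i ≤ 2 * j then 2 * j - i else 2 * j + (a + 2 * t + 1) - i) = 2 * j := by
        unfold uu
        split_ifs <;> omega
      refine ⟨by split_ifs <;> omega, ?_⟩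
      unfold dirS
      rw [h3, if_pos ⟨by omega, by omega⟩]
      cases d <;> simp
    · intro j hj j' hj' he
      simp only [coe_range, Set.mem_Iio] at hj hj'
      simp only at he
      split_ifs at he <;> omega
  rw [card_range] at h2
  omega

theorem card_dirS_eq {a t i : ℕ} {d : Bool} (ha : 1 ≤ a) (hi : i ≤ a + 2 * t + 1) :
    ((range (a + 2 * t + 1)).filter (fun c => dirS a t i d c = d)).card = a + t :=
  le_antisymm (card_dirS_le ha hi) (card_dirS hi)

/-- a strategy which is not kept is kept in the next phase -/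
theorem dirS_next {a t i c : ℕ} {d : Bool} (ha : 1 ≤ a) (hi : i + 1 ≤ a + 2 * t + 1)
    (hc : c < a + 2 * t + 1) (h : dirS a t i d c ≠ d) : dirS a t (i + 1) (!d) c = !d := by
  unfold dirS at h ⊢
  split_ifs at h with h1
  · rw [if_neg]
    unfold uu at h1 ⊢
    split_ifs at h1 ⊢ <;> omega
  · exact absurd rfl h

theorem sum_ge {C0 A0 B0 : ℕ} {K : ℕ → Prop} [DecidablePred K] {F : ℕ → ℝ} {x y : ℝ}
    (hK : ((range C0).filter K).card = A0) (hAB : A0 + B0 = C0)
    (h1 : ∀ c < C0, K c → x ≤ F c) (h2 : ∀ c < C0, ¬ K c → y ≤ F c) :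
    A0 * x + B0 * y ≤ ∑ c ∈ range C0, F c := by
  have h3 : ∑ c ∈ range C0, (if K c then x else y) ≤ ∑ c ∈ range C0, F c := by
    apply sum_le_sum
    intro c hc
    rw [mem_range] at hc
    split_ifs with h
    · exact h1 c hc h
    · exact h2 c hc h
  have h4 := card_filter_add_card_filter_not (s := range C0) K
  rw [card_range, hK] at h4
  have h5 : ((range C0).filter (fun c => ¬ K c)).card = B0 := by omega
  rw [sum_ite, sum_const, sum_const, hK, h5, nsmul_eq_mul, nsmul_eq_mul] at h3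
  exact h3

theorem scale_sum {C0 A0 : ℕ} {dir : ℕ → Bool} {d : Bool} {n n1 : ℕ → ℕ} {m s : ℕ} {D : ℝ}
    (hcard : A0 ≤ ((range C0).filter (fun c => dir c = d)).card) (hD : 1 ≤ D) (hs : 1 ≤ s)
    (hsm : s ≤ m) (hn : ∀ c < C0, 1 ≤ n c) (hn1 : ∀ c < C0, 1 ≤ n1 c)
    (hk : ∀ c < C0, dir c = d → (n1 c : ℝ) * m ≤ D * s * n c)
    (hnk : ∀ c < C0, dir c ≠ d → n1 c = n c) :
    ∑ c ∈ range C0, Real.log (n1 c) ≤ ∑ c ∈ range C0, Real.log (n c) + C0 * Real.log D +
      A0 * (Real.log s - Real.log m) := by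
  have hlD : 0 ≤ Real.log D := Real.log_nonneg hD
  have hsr : (1 : ℝ) ≤ s := by exact_mod_cast hs
  have hmr : (s : ℝ) ≤ m := by exact_mod_cast hsm
  have hlsm : Real.log s - Real.log m ≤ 0 := by
    have := Real.log_le_log (by linarith) hmr
    linarith
  have key : ∀ c ∈ range C0, Real.log (n1 c) ≤ Real.log (n c) + Real.log D +
      (if dir c = d then (Real.log s - Real.log m) else 0) := by
    intro c hc
    rw [mem_range] at hc
    by_cases h : dir c = d
    · rw [if_pos h]
      have h1 : (1 : ℝ) ≤ n1 c := by exact_mod_cast hn1 c hc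
      have h2 : (1 : ℝ) ≤ n c := by exact_mod_cast hn c hc
      have h3 := Real.log_le_log (mul_pos (by linarith) (by linarith)) (hk c hc h)
      rw [Real.log_mul (by linarith) (by linarith), Real.log_mul (by positivity) (by linarith),
        Real.log_mul (by linarith) (by linarith)] at h3
      linarith
    · rw [if_neg h, hnk c hc h]
      linarith
  have h1 := sum_le_sum key
  rw [sum_add_distrib, sum_add_distrib, sum_const, card_range, nsmul_eq_mul, ← sum_filter,
    sum_const, nsmul_eq_mul] at h1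
  have h2 : (((range C0).filter (fun c => dir c = d)).card : ℝ) * (Real.log s - Real.log m) ≤
      A0 * (Real.log s - Real.log m) :=
    mul_le_mul_of_nonpos_right (by exact_mod_cast hcard) hlsm
  linarith

theorem sum_log_nonneg' {C0 : ℕ} {n : ℕ → ℕ} (hn : ∀ c < C0, 1 ≤ n c) :
    0 ≤ ∑ c ∈ range C0, Real.log (n c) := by
  apply sum_nonneg
  intro c hc
  apply Real.log_nonneg
  exact_mod_cast hn c (mem_range.1 hc)

section
variable (a t g C1 A1 : ℕ)

/-- the number of the strategies -/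
def nW (h : ℕ) : ℕ := if g < h then a + 2 * t + 1 + C1 else a + 2 * t + 1

/-- the floor -/
noncomputable def LW (θ : ℝ) : ℝ := θ / (A1 * Real.log 4)

/-- the gain -/
noncomputable def gW (θ : ℝ) : ℝ :=
  if g = 1 then Real.log (θ / (4 * A1)) else Real.log (Real.log (LW A1 θ) / 4)

/-- the allowed directions and budgets -/
def PW (h : ℕ) (d : Bool) (dir : ℕ → Bool) (bud : ℕ → ℕ) : Prop :=
  ∃ i, (i + h ≤ a + 2 * t + 2 ∧ i ≤ a + 2 * t + 1) ∧
    (∀ c < a + 2 * t + 1, dir c = dirS a t i d c ∧ bud c = budS a t i c) ∧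
    (g < h → PlanOK C1 A1 (h - g) d (fun c => dir (a + 2 * t + 1 + c))
      (fun c => bud (a + 2 * t + 1 + c)))

/-- the condition on the targets -/
def TW (θ : ℝ) (h : ℕ) (d : Bool) (dir : ℕ → Bool) (n : ℕ → ℕ) (m : ℕ) (C : ℝ) : Prop :=
  (∀ c < nW a t g C1 h, 1 ≤ n c) ∧
  ∑ c ∈ range (a + 2 * t + 1), Real.log (n c) + C ≤
    ((a + t : ℕ) : ℝ) * Real.log m + ((t + 1 : ℕ) : ℝ) * gW g A1 θ ∧
  (g < h → ∑ c ∈ range C1, Real.log (n (a + 2 * t + 1 + c)) + θ + C ≤ A1 * Real.log m) ∧
  (h ≤ g → ∀ c < a + 2 * t + 1, dir c ≠ d → LW A1 θ ≤ n c)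

/-- the allowed parameters -/
def okW (θ : ℝ) : Prop := 0 < θ ∧ 4 ≤ Real.log (LW A1 θ)

variable {a t g C1 A1}

theorem log4_pos : 0 < Real.log 4 := Real.log_pos (by norm_num)

theorem log4_lt : Real.log 4 < 1.4 := by
  have e : (4 : ℝ) = 2 ^ 2 := by norm_num
  rw [e, Real.log_pow]
  have := Real.log_two_lt_d9
  push_cast
  linarith

theorem le_nW (h : ℕ) : a + 2 * t + 1 ≤ nW a t g C1 h := by
  unfold nW; split_ifs <;> omega

theorem card_kept {h : ℕ} {d : Bool} {dir : ℕ → Bool} {bud : ℕ → ℕ} (ha : 1 ≤ a) (h2 : 1 ≤ h)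
    (hP : PW a t g C1 A1 h d dir bud) :
    ((range (a + 2 * t + 1)).filter (fun c => dir c = d)).card = a + t := by
  obtain ⟨i, hi, h1, _⟩ := hP
  have h3 := card_dirS_eq (t := t) (i := i) (d := d) ha (by omega)
  have h4 : (range (a + 2 * t + 1)).filter (fun c => dir c = d) =
      (range (a + 2 * t + 1)).filter (fun c => dirS a t i d c = d) := by
    apply filter_congr
    intro c hc
    rw [(h1 c (mem_range.1 hc)).1]
  rw [h4, h3]

theorem ltlog (θ : ℝ) (hA1 : 1 ≤ A1) {m : ℕ} (hθ : 0 < θ) (h : θ ≤ A1 * Real.log m) :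
    LW A1 θ ≤ Real.log m / Real.log 4 := by
  have hA : (1 : ℝ) ≤ A1 := by exact_mod_cast hA1
  have := log4_pos
  unfold LW
  rw [div_le_div_iff₀ (by positivity) this]
  nlinarith

/-- no caterpillars -/
theorem no_cat {n m : ℕ} (hm : 1 ≤ m) (h : ¬ 2 ^ n * 2 ^ n < m) :
    Real.log m / Real.log 4 ≤ n := by
  push Not at h
  have h1 : (m : ℝ) ≤ 4 ^ n := by
    have e : 2 ^ n * 2 ^ n = 4 ^ n := by rw [← mul_pow]; norm_num
    rw [e] at h
    exact_mod_cast h
  have hm0 : (0 : ℝ) < m := by exact_mod_cast hm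
  have h2 := Real.log_le_log hm0 h1
  rw [Real.log_pow] at h2
  rw [div_le_iff₀ log4_pos]
  exact h2

theorem gW_le {θ : ℝ} (hg : g = 2) (hθ : okW A1 θ) : gW g A1 θ < Real.log (LW A1 θ) := by
  obtain ⟨_, h2⟩ := hθ
  unfold gW
  rw [if_neg (by omega)]
  have h3 := Real.log_le_sub_one_of_pos (show 0 < Real.log (LW A1 θ) / 4 by linarith)
  linarith

theorem large_W {h : ℕ} {d : Bool} {dir : ℕ → Bool} {bud : ℕ → ℕ} {θ : ℝ} {n : ℕ → ℕ} {m : ℕ}
    {D E : ℝ} (ha : 1 ≤ a) (hg : g = 1 ∨ g = 2) (hA1 : 1 ≤ A1)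
    (hE : ((a + t : ℕ) : ℝ) ≤ E) (hE1 : (A1 : ℝ) ≤ E) (hθ : okW A1 θ)
    (hP : PW a t g C1 A1 h d dir bud) (h2 : 2 ≤ h) (hD : 1 ≤ D)
    (hT : TW a t g C1 A1 θ h d dir n m (E * Real.log D)) : D ≤ m := by
  obtain ⟨k1, k2, k3, k4⟩ := hT
  have hlD := Real.log_nonneg hD
  have hA1r : (1 : ℝ) ≤ A1 := by exact_mod_cast hA1
  -- it suffices to have a bound for the logarithm
  have key : ∀ A : ℝ, 1 ≤ A → A ≤ E → E * Real.log D < A * Real.log m → D ≤ m := by
    intro A hA1 hAE h
    have h3 : A * Real.log D < A * Real.log m :=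
      lt_of_le_of_lt (mul_le_mul_of_nonneg_right hAE hlD) h
    have h4 : Real.log D < Real.log m := lt_of_mul_lt_mul_left h3 (by linarith)
    rcases Nat.eq_zero_or_pos m with h0 | h0
    · rw [h0] at h4
      simp at h4
      linarith
    · exact ((Real.log_lt_log_iff (by linarith) (by exact_mod_cast h0)).1 h4).le
  by_cases hgh : g < h
  · have h3 := k3 hgh
    have h4 : 0 ≤ ∑ c ∈ range C1, Real.log (n (a + 2 * t + 1 + c)) := by
      apply sum_log_nonneg' (n := fun c => n (a + 2 * t + 1 + c))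
      intro c hc
      apply k1
      unfold nW; rw [if_pos hgh]; omega
    exact key A1 hA1r hE1 (by have := hθ.1; linarith)
  · have hh : h ≤ g := by omega
    have hg2 : g = 2 := by omega
    have h3 := k4 hh
    have h4 := card_kept ha (by omega) hP
    have h5 := sum_ge (F := fun c => Real.log (n c)) (x := 0) (y := Real.log (LW A1 θ))
      (B0 := t + 1) h4 (by omega) (by
        intro c hc _
        apply Real.log_nonneg
        exact_mod_cast k1 c (lt_of_lt_of_le hc (le_nW h))) (by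
        intro c hc hcd
        apply Real.log_le_log
        · by_contra hcon
          have h6 := hθ.2
          have : LW A1 θ ≤ 0 := not_lt.1 hcon
          have hLp : 0 < LW A1 θ := by
            unfold LW
            have := hθ.1
            have := log4_pos
            positivity
          linarith
        · exact h3 c hc hcd)
    have h6 := gW_le hg2 hθ
    have h7 : (1 : ℝ) ≤ ((a + t : ℕ) : ℝ) := by
      have : 1 ≤ a + t := by omega
      exact_mod_cast this
    refine key ((a + t : ℕ) : ℝ) h7 hE ?_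
    have h8 : (0 : ℝ) < ((t + 1 : ℕ) : ℝ) := by positivity
    have h9 := mul_lt_mul_of_pos_left h6 h8
    linarith

theorem LW_pos {θ : ℝ} (hA1 : 1 ≤ A1) (hθ : 0 < θ) : 0 < LW A1 θ := by
  have hA1r : (1 : ℝ) ≤ A1 := by exact_mod_cast hA1
  have := log4_pos
  unfold LW
  positivity

theorem pure_W {h : ℕ} {d : Bool} {dir : ℕ → Bool} {bud : ℕ → ℕ} {θ : ℝ} {n : ℕ → ℕ} {m : ℕ}
    (ha : 1 ≤ a) (hg : g = 1 ∨ g = 2) (hA1 : 1 ≤ A1) (hAC : A1 ≤ C1) (hθ : okW A1 θ)
    (hP : PW a t g C1 A1 h d dir bud) (h2 : 2 ≤ h)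
    (hT : TW a t g C1 A1 θ h d dir n m 0) : ∃ c < nW a t g C1 h, n c ≤ m := by
  obtain ⟨k1, k2, k3, k4⟩ := hT
  by_contra hcon
  push Not at hcon
  have hlm : 0 ≤ Real.log m := Real.log_natCast_nonneg m
  have hlog : ∀ c < nW a t g C1 h, Real.log m ≤ Real.log (n c) := by
    intro c hc
    rcases Nat.eq_zero_or_pos m with h0 | h0
    · rw [h0]; simp
      exact Real.log_natCast_nonneg _
    · apply Real.log_le_log (by exact_mod_cast h0)
      exact_mod_cast (hcon c hc).le
  by_cases hgh : g < h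
  · have h3 := k3 hgh
    have h4 : C1 * Real.log m ≤ ∑ c ∈ range C1, Real.log (n (a + 2 * t + 1 + c)) := by
      have h5 := card_nsmul_le_sum (range C1) (fun c => Real.log (n (a + 2 * t + 1 + c)))
        (Real.log m) (by
          intro c hc
          rw [mem_range] at hc
          apply hlog
          unfold nW; rw [if_pos hgh]; omega)
      rwa [card_range, nsmul_eq_mul] at h5
    have h5 : (A1 : ℝ) * Real.log m ≤ C1 * Real.log m :=
      mul_le_mul_of_nonneg_right (by exact_mod_cast hAC) hlm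
    have := hθ.1
    linarith
  · have hh : h ≤ g := by omega
    have hg2 : g = 2 := by omega
    have h3 := k4 hh
    have h4 := card_kept ha (by omega) hP
    have h5 := sum_ge (F := fun c => Real.log (n c)) (x := Real.log m)
      (y := Real.log (LW A1 θ)) (B0 := t + 1) h4 (by omega) (by
        intro c hc _
        exact hlog c (lt_of_lt_of_le hc (le_nW h))) (by
        intro c hc hcd
        exact Real.log_le_log (LW_pos hA1 hθ.1) (h3 c hc hcd))
    have h6 := gW_le hg2 hθ
    have h8 : (0 : ℝ) < ((t + 1 : ℕ) : ℝ) := by positivity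
    have h9 := mul_lt_mul_of_pos_left h6 h8
    linarith

theorem scale_W {h : ℕ} {d : Bool} {dir : ℕ → Bool} {bud : ℕ → ℕ} {θ : ℝ} {n n1 : ℕ → ℕ}
    {m s : ℕ} {C D E : ℝ} (ha : 1 ≤ a)
    (hE : ((a + 2 * t + 1 : ℕ) : ℝ) ≤ E) (hE1 : (C1 : ℝ) ≤ E)
    (hP : PW a t g C1 A1 h d dir bud) (h2 : 2 ≤ h) (hD : 1 ≤ D) (hs : 1 ≤ s) (hsm : s ≤ m)
    (hT : TW a t g C1 A1 θ h d dir n m (C + E * Real.log D))
    (hn1 : ∀ c < nW a t g C1 h, 1 ≤ n1 c)
    (hk : ∀ c < nW a t g C1 h, dir c = d → (n1 c : ℝ) * m ≤ D * s * n c)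
    (hnk : ∀ c < nW a t g C1 h, dir c ≠ d → n1 c = n c) :
    TW a t g C1 A1 θ h d dir n1 s C := by
  obtain ⟨k1, k2, k3, k4⟩ := hT
  have hlD := Real.log_nonneg hD
  have hle := le_nW (a := a) (t := t) (g := g) (C1 := C1) h
  refine ⟨hn1, ?_, ?_, ?_⟩
  · have h1 := scale_sum (C0 := a + 2 * t + 1) (A0 := a + t) (dir := dir) (d := d) (n := n)
      (n1 := n1) (m := m) (s := s) (card_kept ha (by omega) hP).ge hD hs hsm
      (fun c hc => k1 c (by omega)) (fun c hc => hn1 c (by omega))
      (fun c hc => hk c (by omega)) (fun c hc => hnk c (by omega))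
    have h2 : ((a + 2 * t + 1 : ℕ) : ℝ) * Real.log D ≤ E * Real.log D :=
      mul_le_mul_of_nonneg_right hE hlD
    linarith
  · intro hgh
    have h3 := k3 hgh
    have hnW : nW a t g C1 h = a + 2 * t + 1 + C1 := by unfold nW; rw [if_pos hgh]
    have hcard : A1 ≤ ((range C1).filter (fun c => dir (a + 2 * t + 1 + c) = d)).card := by
      obtain ⟨i, _, _, hpl⟩ := hP
      have h4 := hpl hgh
      obtain ⟨h', hh'⟩ : ∃ h', h - g = h' + 1 := ⟨h - g - 1, by omega⟩
      rw [hh'] at h4
      exact h4.1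
    have h1 := scale_sum (C0 := C1) (A0 := A1) (dir := fun c => dir (a + 2 * t + 1 + c)) (d := d)
      (n := fun c => n (a + 2 * t + 1 + c))
      (n1 := fun c => n1 (a + 2 * t + 1 + c)) (m := m) (s := s) hcard hD hs hsm
      (fun c hc => k1 _ (by omega)) (fun c hc => hn1 _ (by omega))
      (fun c hc => hk _ (by omega)) (fun c hc => hnk _ (by omega))
    have h2 : (C1 : ℝ) * Real.log D ≤ E * Real.log D := mul_le_mul_of_nonneg_right hE1 hlD
    linarith
  · intro hh c hc hcd
    rw [hnk c (by omega) hcd]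
    exact k4 hh c hc hcd

theorem down_W {h : ℕ} {d : Bool} {dir : ℕ → Bool} {bud : ℕ → ℕ} {θ : ℝ} {n : ℕ → ℕ} {m : ℕ}
    {C : ℝ} (ha : 1 ≤ a) (hg : g = 1 ∨ g = 2) (hA1 : 1 ≤ A1) (hθ : okW A1 θ)
    (hP : PW a t g C1 A1 h d dir bud) (h3 : 3 ≤ h) (hm : 1 ≤ m) (hC : 0 ≤ C)
    (hT : TW a t g C1 A1 θ h d dir n m C) :
    (∃ c < nW a t g C1 h, 2 ^ n c * 2 ^ n c < m) ∨
      ∃ (dir' : ℕ → Bool) (bud' : ℕ → ℕ), (∀ c < nW a t g C1 (h - 1), c < nW a t g C1 h ∧
        1 ≤ bud' c ∧ ((dir' c = dir c ∧ bud' c ≤ bud c) ∨ bud' c + 1 ≤ bud c)) ∧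
        PW a t g C1 A1 (h - 1) (!d) dir' bud' ∧ TW a t g C1 A1 θ (h - 1) (!d) dir' n m C := by
  obtain ⟨k1, k2, k3, k4⟩ := hT
  by_cases hcat : ∃ c < nW a t g C1 h, 2 ^ n c * 2 ^ n c < m
  · exact Or.inl hcat
  right
  push Not at hcat
  have hgh : g < h := by omega
  obtain ⟨i, hi, hd, hpl⟩ := hP
  have hpl := hpl hgh
  obtain ⟨h', hh'⟩ : ∃ h', h - g = h' + 1 := ⟨h - g - 1, by omega⟩
  rw [hh'] at hpl
  obtain ⟨_, _, dir2, bud2, htr, hpl'⟩ := hpl
  have hnW : nW a t g C1 h = a + 2 * t + 1 + C1 := by unfold nW; rw [if_pos hgh]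
  have hnW' : nW a t g C1 (h - 1) ≤ a + 2 * t + 1 + C1 := by
    unfold nW; split_ifs <;> omega
  refine ⟨fun c => if c < a + 2 * t + 1 then dirS a t (i + 1) (!d) c else
    dir2 (c - (a + 2 * t + 1)), fun c => if c < a + 2 * t + 1 then budS a t (i + 1) c else
    bud2 (c - (a + 2 * t + 1)), ?_, ⟨i + 1, by omega, ?_, ?_⟩, ?_, k2, ?_, ?_⟩
  · intro c hc
    refine ⟨by omega, ?_⟩
    by_cases hcc : c < a + 2 * t + 1
    · simp only [if_pos hcc]
      obtain ⟨h4, h5⟩ := hd c hcc
      rw [h4, h5]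
      exact ⟨budS_pos ha (by omega) hcc, trans_plan d ha (by omega) hcc⟩
    · simp only [if_neg hcc]
      have h4 := htr (c - (a + 2 * t + 1)) (by omega)
      simp only at h4
      rw [show a + 2 * t + 1 + (c - (a + 2 * t + 1)) = c by omega] at h4
      exact h4
  · intro c hc
    simp only [if_pos hc, and_self]
  · intro hgh1
    have e : h - 1 - g = h' := by omega
    rw [e]
    have e1 : (fun c => if a + 2 * t + 1 + c < a + 2 * t + 1 then
        dirS a t (i + 1) (!d) (a + 2 * t + 1 + c) else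
        dir2 (a + 2 * t + 1 + c - (a + 2 * t + 1))) = dir2 := by
      funext c
      rw [if_neg (by omega), Nat.add_sub_cancel_left]
    have e2 : (fun c => if a + 2 * t + 1 + c < a + 2 * t + 1 then
        budS a t (i + 1) (a + 2 * t + 1 + c) else
        bud2 (a + 2 * t + 1 + c - (a + 2 * t + 1))) = bud2 := by
      funext c
      rw [if_neg (by omega), Nat.add_sub_cancel_left]
    rw [e1, e2]
    exact hpl'
  · intro c hc
    exact k1 c (by omega)
  · intro _
    exact k3 hgh
  · intro _ c hc _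
    have h4 := no_cat hm (not_lt.2 (hcat c (by omega)))
    have h5 : 0 ≤ ∑ c ∈ range C1, Real.log (n (a + 2 * t + 1 + c)) := by
      apply sum_log_nonneg' (n := fun c => n (a + 2 * t + 1 + c))
      intro c hc
      exact k1 _ (by omega)
    exact (ltlog θ hA1 hθ.1 (by have := k3 hgh; linarith)).trans h4

theorem last_W {d : Bool} {dir : ℕ → Bool} {bud : ℕ → ℕ} {θ : ℝ} {n : ℕ → ℕ} {m : ℕ}
    {D E : ℝ} (ha : 1 ≤ a) (hg : g = 1 ∨ g = 2) (hA1 : 1 ≤ A1)
    (hE : ((a + t : ℕ) : ℝ) ≤ E) (hE0 : 0 ≤ E) (hθ : okW A1 θ)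
    (hP : PW a t g C1 A1 2 d dir bud) (hm : 1 ≤ m) (hD : 1 ≤ D)
    (hT : TW a t g C1 A1 θ 2 d dir n m (E * Real.log D)) :
    (∃ c < nW a t g C1 2, 2 ^ n c * 2 ^ n c < m) ∨
      ∃ c < nW a t g C1 2, (dir c = (!d) ∨ 2 ≤ bud c) ∧ D * n c ≤ m := by
  obtain ⟨k1, k2, k3, k4⟩ := hT
  by_contra hcon
  push Not at hcon
  obtain ⟨hc1, hc2⟩ := hcon
  have hlD := Real.log_nonneg hD
  have hmr : (1 : ℝ) ≤ m := by exact_mod_cast hm
  have hlm := Real.log_nonneg hmr
  have hle := le_nW (a := a) (t := t) (g := g) (C1 := C1) 2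
  have hcard2 := card_kept ha (by omega) hP
  obtain ⟨i, hi, hd, _⟩ := hP
  have hcard1 := card_dirS_eq (a := a) (t := t) (i := i + 1) (d := !d) ha (by omega)
  -- the targets of the last layer
  have hx : ∀ c < a + 2 * t + 1, dirS a t (i + 1) (!d) c = (!d) →
      Real.log m - Real.log D ≤ Real.log (n c) := by
    intro c hc h1
    have h2 := hc2 c (by omega) (by
      obtain ⟨h4, h5⟩ := hd c hc
      rcases trans_plan d ha (show i + 1 ≤ a + 2 * t + 1 by omega) hc with ⟨h6, _⟩ | h6
      · left; rw [h4, ← h6, h1]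
      · right
        have := budS_pos (a := a) (t := t) (i := i + 1) ha (by omega) hc
        omega)
    have hnc : (1 : ℝ) ≤ n c := by exact_mod_cast k1 c (by omega)
    have h3 := Real.log_le_log (by linarith) h2.le
    rw [Real.log_mul (by linarith) (by linarith)] at h3
    linarith
  have hy : ∀ c < a + 2 * t + 1, Real.log m / Real.log 4 ≤ n c := fun c hc =>
    no_cat hm (not_lt.2 (hc1 c (by omega)))
  have hlog4 := log4_pos
  have hlog4' := log4_lt
  have ht1 : (0 : ℝ) < ((t + 1 : ℕ) : ℝ) := by positivity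
  have hEA : 0 ≤ (E - ((a + t : ℕ) : ℝ)) * Real.log D := mul_nonneg (by linarith) hlD
  have hA1r : (1 : ℝ) ≤ A1 := by exact_mod_cast hA1
  -- the second estimate
  have est2 : 0 < Real.log m → Real.log (Real.log m / Real.log 4) ≤ gW g A1 θ := by
    intro hpos
    have h5 := sum_ge (F := fun c => Real.log (n c)) (x := Real.log m - Real.log D)
      (y := Real.log (Real.log m / Real.log 4)) (B0 := t + 1) hcard1 (by omega) hx (by
        intro c hc _
        exact Real.log_le_log (by positivity) (hy c hc))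
    have h6 : ((t + 1 : ℕ) : ℝ) * Real.log (Real.log m / Real.log 4) ≤
        ((t + 1 : ℕ) : ℝ) * gW g A1 θ := by
      have e : ((a + t : ℕ) : ℝ) * (Real.log m - Real.log D) =
        ((a + t : ℕ) : ℝ) * Real.log m - ((a + t : ℕ) : ℝ) * Real.log D := by ring
      rw [e] at h5
      have e2 : (E - ((a + t : ℕ) : ℝ)) * Real.log D = E * Real.log D -
        ((a + t : ℕ) : ℝ) * Real.log D := by ring
      rw [e2] at hEA
      linarith
    exact le_of_mul_le_mul_left h6 ht1
  rcases hg with hg1 | hg2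
  · -- one group
    have h3 := k3 (by omega)
    have h4 : 0 ≤ ∑ c ∈ range C1, Real.log (n (a + 2 * t + 1 + c)) := by
      apply sum_log_nonneg' (n := fun c => n (a + 2 * t + 1 + c))
      intro c hc
      apply k1
      unfold nW; rw [if_pos (by omega)]; omega
    have h5 : θ ≤ A1 * Real.log m := by
      have : 0 ≤ E * Real.log D := by positivity
      linarith
    have h6 : 0 < Real.log m := by
      by_contra hcon
      have : Real.log m = 0 := le_antisymm (not_lt.1 hcon) hlm
      rw [this] at h5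
      have := hθ.1
      linarith
    have h7 := est2 h6
    unfold gW at h7
    rw [if_pos hg1] at h7
    have h8 : Real.log m / Real.log 4 ≤ θ / (4 * A1) :=
      (Real.log_le_log_iff (by positivity) (by have := hθ.1; positivity)).1 h7
    rw [div_le_div_iff₀ hlog4 (by positivity)] at h8
    have h9 : θ * Real.log 4 < θ * 4 := by
      apply mul_lt_mul_of_pos_left _ hθ.1
      linarith
    nlinarith
  · -- two groups
    subst hg2
    have h3 := k4 (by omega)
    obtain ⟨x, hxdef⟩ : ∃ x, x = Real.log (LW A1 θ) := ⟨_, rfl⟩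
    have hx4 : 4 ≤ x := by rw [hxdef]; exact hθ.2
    have hgW : gW 2 A1 θ = Real.log (x / 4) := by
      unfold gW; rw [if_neg (by omega), hxdef]
    rw [hgW] at k2 est2
    -- the first estimate
    have h5 := sum_ge (F := fun c => Real.log (n c) -
        (if dir c = d then 0 else (x - (Real.log m - Real.log D))))
      (x := Real.log m - Real.log D)
      (y := 0) (B0 := t + 1) hcard1 (by omega) (by
        intro c hc h6
        by_cases h7 : dir c = d
        · rw [if_pos h7, sub_zero]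
          exact hx c hc h6
        · rw [if_neg h7]
          have h8 := Real.log_le_log (LW_pos hA1 hθ.1) (h3 c hc h7)
          rw [← hxdef] at h8
          linarith) (by
        intro c hc h6
        have h7 : dir c = d := by
          by_contra h7
          apply h6
          rw [(hd c hc).1] at h7
          exact dirS_next ha (by omega) hc h7
        rw [if_pos h7, sub_zero]
        apply Real.log_nonneg
        exact_mod_cast k1 c (by omega))
    rw [sum_sub_distrib] at h5
    have h6 : ∑ c ∈ range (a + 2 * t + 1), (if dir c = d then (0 : ℝ) else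
        (x - (Real.log m - Real.log D))) = ((t + 1 : ℕ) : ℝ) * (x - (Real.log m - Real.log D)) := by
      have h7 := card_filter_add_card_filter_not (s := range (a + 2 * t + 1))
        (fun c => dir c = d)
      rw [card_range, hcard2] at h7
      have h8 : ((range (a + 2 * t + 1)).filter (fun c => ¬ dir c = d)).card = t + 1 := by omega
      rw [sum_ite, sum_const, sum_const, h8, nsmul_eq_mul, nsmul_eq_mul]
      ring
    rw [h6] at h5
    have h7 : ((t + 1 : ℕ) : ℝ) * (x - Real.log (x / 4)) ≤ ((t + 1 : ℕ) : ℝ) * Real.log m := by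
      have e : ((a + t : ℕ) : ℝ) * (Real.log m - Real.log D) =
        ((a + t : ℕ) : ℝ) * Real.log m - ((a + t : ℕ) : ℝ) * Real.log D := by ring
      have e2 : (E - ((a + t : ℕ) : ℝ)) * Real.log D = E * Real.log D -
        ((a + t : ℕ) : ℝ) * Real.log D := by ring
      have e3 : ((t + 1 : ℕ) : ℝ) * (x - (Real.log m - Real.log D)) = ((t + 1 : ℕ) : ℝ) * x -
        ((t + 1 : ℕ) : ℝ) * Real.log m + ((t + 1 : ℕ) : ℝ) * Real.log D := by ring
      have e4 : ((t + 1 : ℕ) : ℝ) * (x - Real.log (x / 4)) = ((t + 1 : ℕ) : ℝ) * x -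
        ((t + 1 : ℕ) : ℝ) * Real.log (x / 4) := by ring
      rw [e, e3] at h5
      rw [e2] at hEA
      rw [e4]
      have : 0 ≤ ((t + 1 : ℕ) : ℝ) * Real.log D := by positivity
      linarith
    have h8 : x - Real.log (x / 4) ≤ Real.log m := le_of_mul_le_mul_left h7 ht1
    have h9 := Real.log_le_sub_one_of_pos (show 0 < x / 4 by linarith)
    have h10 : 0 < Real.log m := by linarith
    have h11 := est2 h10
    have h12 : Real.log m / Real.log 4 ≤ x / 4 :=
      (Real.log_le_log_iff (by positivity) (by linarith)).1 h11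
    rw [div_le_div_iff₀ hlog4 (by norm_num)] at h12
    nlinarith

end

/-- **The systems.** -/
noncomputable def sysW (a t g C1 A1 : ℕ) (ha : 1 ≤ a) (hg : g = 1 ∨ g = 2) (hA1 : 1 ≤ A1)
    (hAC : A1 ≤ C1) : Sys where
  N := nW a t g C1
  N0 := a + 2 * t + 1 + C1
  E := (a + 2 * t + 1 + C1 : ℕ)
  P := PW a t g C1 A1
  ok := okW A1
  T := TW a t g C1 A1
  hE := by
    have : 1 ≤ a + 2 * t + 1 + C1 := by omega
    exact_mod_cast this
  hN := by
    intro h; unfold nW; split_ifs <;> omega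
  hN1 := by omega
  hone := fun hT => hT.1
  hmono := by
    rintro θ h d dir n m C C' ⟨k1, k2, k3, k4⟩ hC
    exact ⟨k1, by linarith, fun hh => by have := k3 hh; linarith, k4⟩
  hbud := by
    rintro h d dir bud ⟨i, hi, h1, h2⟩ c hc
    by_cases hcc : c < a + 2 * t + 1
    · rw [(h1 c hcc).2]
      exact budS_pos ha hi.2 hcc
    · have hgh : g < h := by
        by_contra hcon
        unfold nW at hc
        rw [if_neg hcon] at hc
        omega
      have h3 := h2 hgh
      obtain ⟨h', hh'⟩ : ∃ h', h - g = h' + 1 := ⟨h - g - 1, by omega⟩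
      rw [hh'] at h3
      unfold nW at hc
      rw [if_pos hgh] at hc
      have h4 := h3.2.1 (c - (a + 2 * t + 1)) (by omega)
      simp only at h4
      rwa [show a + 2 * t + 1 + (c - (a + 2 * t + 1)) = c by omega] at h4
  hkept := by
    intro h d dir bud hP h2
    have h3 := card_kept ha (by omega) hP
    have h4 : ((range (a + 2 * t + 1)).filter (fun c => dir c = d)).Nonempty := by
      rw [← card_pos, h3]; omega
    obtain ⟨c, hc⟩ := h4
    rw [mem_filter, mem_range] at hc
    exact ⟨c, lt_of_lt_of_le hc.1 (le_nW h), hc.2⟩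
  hlarge := by
    intro θ h d dir bud n m D hθ hP h2 hD hT
    refine large_W (E := (a + 2 * t + 1 + C1 : ℕ)) ha hg hA1 ?_ ?_ hθ hP h2 hD hT
    · exact_mod_cast (by omega : a + t ≤ a + 2 * t + 1 + C1)
    · exact_mod_cast (by omega : A1 ≤ a + 2 * t + 1 + C1)
  hpure := by
    intro θ h d dir bud n m hθ hP h2 hT
    exact pure_W ha hg hA1 hAC hθ hP h2 hT
  hscale := by
    intro θ h d dir bud n n1 m s C D hθ hP h2 hD hs hsm hT hn1 hk hnk
    refine scale_W (E := (a + 2 * t + 1 + C1 : ℕ)) ha ?_ ?_ hP h2 hD hs hsm hT hn1 hk hnk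
    · exact_mod_cast (by omega : a + 2 * t + 1 ≤ a + 2 * t + 1 + C1)
    · exact_mod_cast (by omega : C1 ≤ a + 2 * t + 1 + C1)
  hdown := by
    intro θ h d dir bud n m C hθ hP h3 hm hC hT
    exact down_W ha hg hA1 hθ hP h3 hm hC hT
  hlast := by
    intro θ d dir bud n m D hθ hP hm hD hT
    refine last_W (E := (a + 2 * t + 1 + C1 : ℕ)) ha hg hA1 ?_ (by positivity) hθ hP hm hD hT
    exact_mod_cast (by omega : a + t ≤ a + 2 * t + 1 + C1)

end Pool.Agent.H595K.Lb
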