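import Mathlib
import Pool.Agent.H595K.WPlan
import Pool.Agent.H595K.SLow

/-!
# Polygons from subtrees with short words
-/

namespace Pool.Agent.H595K

open Lb LT

theorem f_ge_of_short {k j a c0 m N n : ℕ} (hk3 : 3 ≤ k) (ha : 1 ≤ a) (hj : 3 * a ≤ j)
    (hn : 3 ≤ n) (hN : 4 ≤ N) (hc0 : 1 ≤ c0)
    (hσ : (c0 : ℝ) * (m + 1) * (81 * Real.log (320 * (k + 1))) ≤ Real.log n)
    (hshort : ∀ T : LT ℝ, Comp (c0 * (m + 1)) T → AllC (PM (2 * (2 * k))) [] T →
      WB [] (2 * k) [] T →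
      ∃ X, Sub (fun _ _ _ => True) X T ∧ Big N X ∧ WB [] (6 * a - 1) [] X) :
    2 ^ ((N - 1) / 2) + 1 ≤ f k j n := by
  obtain ⟨G, hGdef⟩ : ∃ G : ℕ, G = 320 * (k + 1) := ⟨_, rfl⟩
  have hGr : (1280 : ℝ) ≤ (G : ℝ) := by
    have : 1280 ≤ G := by rw [hGdef]; omega
    exact_mod_cast this
  have hlogG : 1 ≤ Real.log G := by
    rw [Real.le_log_iff_exp_le (by linarith)]
    have := Real.exp_one_lt_d9
    linarith
  have eG : (320 * ((k : ℝ) + 1)) = (G : ℝ) := by rw [hGdef]; push_cast; ring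
  rw [eG] at hσ
  obtain ⟨σ, hσdef⟩ : ∃ σ : ℕ, σ = c0 * (m + 1) := ⟨_, rfl⟩
  have hσ1 : 1 ≤ σ := by
    rw [hσdef]
    exact Nat.mul_pos (by omega) (by omega)
  have hσ2 : (σ : ℝ) * (81 * Real.log G) ≤ Real.log n := by
    rw [hσdef]; push_cast; exact hσ
  have hn3 : (3 : ℝ) ≤ n := by exact_mod_cast hn
  apply le_f hk3 hn
  intro P hP1 hP2
  have h1 : (320 * (k + 1)) ^ (40 * σ) * (320 * (k + 1)) ^ (40 * σ) < P.card := by
    rw [hP1, ← hGdef]
    have h2 : Real.log ((G : ℝ) ^ (40 * σ) * (G : ℝ) ^ (40 * σ)) < Real.log n := by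
      rw [← pow_add, Real.log_pow]
      push_cast
      have h4 : (1 : ℝ) ≤ σ := by exact_mod_cast hσ1
      nlinarith
    have h3 : (G : ℝ) ^ (40 * σ) * (G : ℝ) ^ (40 * σ) < n :=
      (Real.log_lt_log_iff (by positivity) (by linarith)).1 h2
    exact_mod_cast h3
  obtain ⟨ε, p, T, hpP, hx, hCr, hCp, hT⟩ := exists_T hP2 hσ1 h1
  obtain ⟨T', z1, z2⟩ := comp_le' (a := c0 * (m + 1)) (by rw [← hσdef]; omega) hT
  have hx' := hx.sublist z1.sublist
  have hCr' := hCr.sub z1.sublist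
  have hCp' := hCp.sub z1
  have hPM := init_pm (k := 2 * k) hx' hCr' T' [] (by simp [lf, rR, rL]) (by simp) hCp'
  have hWB := wb_of_cross (k := 2 * k) hx' hCr' T' [] (by simp [lf, rR, rL]) (by simp) hCp'
  obtain ⟨X, g1, g2, g3⟩ := hshort T' z2 hPM hWB
  obtain ⟨L, q1, q2, q3⟩ := exists_niceL (K := 6 * a - 1) (k := j) (n := (N - 1) / 2)
    (by omega) (by omega) (hx'.sublist g1.sublist) (hCp'.sub g1)
    (g2.mono (by omega)) g3
  have h8 : 2 ≤ 2 ^ ((N - 1) / 2) := by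
    calc 2 = 2 ^ 1 := rfl
      _ ≤ 2 ^ ((N - 1) / 2) := Nat.pow_le_pow_right (by norm_num) (by omega)
  obtain ⟨L', hL1, hL2, hL3⟩ : ∃ L' : List ℕ, L'.Sublist L ∧
      L'.length = 2 ^ ((N - 1) / 2) + 1 ∧
      (NiceK j (fun i => (p i).1 + ε * (p i).2) (fun i => (p i).2) L' ∨
        NiceK j (fun i => (p i).1 + ε * (p i).2) (fun i => - (p i).2) L') := by
    rcases q3 with q3 | q3
    · obtain ⟨L', a1, a2, a3⟩ := niceK_take q3 (by omega) q1
      exact ⟨L', a1, a2, Or.inl a3⟩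
    · obtain ⟨L', a1, a2, a3⟩ := niceK_take q3 (by omega) q1
      exact ⟨L', a1, a2, Or.inr a3⟩
  obtain ⟨Q, r1, r2, r3⟩ := kconvex_of_niceK (k := j) (by omega) hP2.1 ε p
    (fun i _ => hpP i) (by omega) hL3
  exact ⟨Q, r1, r2, by rw [r3, hL2]⟩

theorem start_W {a t g C1 A1 : ℕ} (ha : 1 ≤ a) (hg : g = 1 ∨ g = 2) (hA1 : 1 ≤ A1)
    (hAC : A1 ≤ C1) (hp : HasPlan a (a + 2 * t) C1 A1) (d : Bool) :
    ∃ (dir : ℕ → Bool) (bud : ℕ → ℕ), (sysW a t g C1 A1 ha hg hA1 hAC).P (a + 2 * t + g) d dir bud ∧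
      ∀ c < (sysW a t g C1 A1 ha hg hA1 hAC).N (a + 2 * t + g), bud c ≤ a := by
  obtain ⟨dir2, bud2, hb, hpl⟩ := hp d
  refine ⟨fun c => if c < a + 2 * t + 1 then dirS a t 0 d c else dir2 (c - (a + 2 * t + 1)),
    fun c => if c < a + 2 * t + 1 then budS a t 0 c else bud2 (c - (a + 2 * t + 1)),
    ⟨0, ⟨by omega, by omega⟩, ?_, ?_⟩, ?_⟩
  · intro c hc
    simp only [if_pos hc, and_self]
  · intro _
    have e : a + 2 * t + g - g = a + 2 * t := by omega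
    rw [e]
    have e1 : (fun c => if a + 2 * t + 1 + c < a + 2 * t + 1 then
        dirS a t 0 d (a + 2 * t + 1 + c) else
        dir2 (a + 2 * t + 1 + c - (a + 2 * t + 1))) = dir2 := by
      funext c
      rw [if_neg (by omega), Nat.add_sub_cancel_left]
    have e2 : (fun c => if a + 2 * t + 1 + c < a + 2 * t + 1 then
        budS a t 0 (a + 2 * t + 1 + c) else
        bud2 (a + 2 * t + 1 + c - (a + 2 * t + 1))) = bud2 := by
      funext c
      rw [if_neg (by omega), Nat.add_sub_cancel_left]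
    rw [e1, e2]
    exact hpl
  · intro c hc
    have hc' : c < nW a t g C1 (a + 2 * t + g) := hc
    unfold nW at hc'
    rw [if_pos (by omega)] at hc'
    by_cases hcc : c < a + 2 * t + 1
    · simp only [if_pos hcc]
      unfold budS
      rw [if_pos (by omega)]
      omega
    · simp only [if_neg hcc]
      exact (hb _ (by omega)).2

/-- the short plan -/
theorem plan_two {a t : ℕ} (ha : 2 ≤ a) : ∃ C1 A1 : ℕ, 1 ≤ A1 ∧ A1 ≤ C1 ∧
    (a + t) * C1 < A1 * (a + 2 * t + 1) ∧ HasPlan a (a + 2 * t) C1 A1 := by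
  rcases Nat.eq_zero_or_pos t with h0 | h0
  · subst h0
    refine ⟨1, 1, le_rfl, le_rfl, by omega, ?_⟩
    intro d
    refine ⟨fun _ => d, fun _ => a, ?_, ?_⟩
    · intro c _
      exact ⟨(by omega : 1 ≤ a), le_rfl⟩
    · exact Lb.plan_one (a + 2 * 0) a d (by omega) (by omega)
  · obtain ⟨t', rfl⟩ : ∃ t', t = t' + 1 := ⟨t - 1, by omega⟩
    refine ⟨a + 2 * t' + 1, a + t', by omega, by omega, ?_, ?_⟩
    · nlinarith
    · intro d
      exact Lb.exists_plan (by omega) (by omega) d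

end Pool.Agent.H595K
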