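import Mathlib
import Pool.Agent.H595K.WPoly

/-!
# The sharp lower bound for all pairs
-/

namespace Pool.Agent.H595K

open Lb LT Filter Topology

theorem log_small {c : ℝ} (hc : 0 < c) : ∀ᶠ x : ℝ in atTop, Real.log x ≤ c * x := by
  have h := Real.isLittleO_log_id_atTop.bound hc
  filter_upwards [h, eventually_ge_atTop 1] with x hx hx1
  simp only [id, Real.norm_eq_abs] at hx
  rw [abs_of_nonneg (Real.log_nonneg hx1), abs_of_nonneg (by linarith)] at hx
  exact hx

theorem ell_one (V : ℝ) : ell 1 V = Lg V := rfl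

theorem ell_two (V : ℝ) : ell 2 V = Lg (Lg V) := rfl

theorem gain_W {g A1 : ℕ} (hg : g = 1 ∨ g = 2) (hA1 : 1 ≤ A1) {ε b : ℝ} (hε : 0 < ε) :
    ∃ κ : ℝ, 0 < κ ∧ ∀ᶠ V : ℝ in atTop, ∀ θ, ε * (Real.log V - b) ≤ θ →
      okW A1 θ ∧ Real.log κ + Real.log (ell g V) ≤ gW g A1 θ := by
  have hA : (1 : ℝ) ≤ A1 := by exact_mod_cast hA1
  have h4 := log4_pos
  obtain ⟨c1, hc1⟩ : ∃ c1 : ℝ, c1 = ε / (4 * (A1 * Real.log 4)) := ⟨_, rfl⟩
  have hc1p : 0 < c1 := by rw [hc1]; positivity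
  have hu : Tendsto Real.log atTop atTop := Real.tendsto_log_atTop
  have hLg : Tendsto Lg atTop atTop := by
    unfold Lg
    exact tendsto_atTop_add_const_left _ _ hu
  have huu : Tendsto (fun V => Real.log (Lg V)) atTop atTop := hu.comp hLg
  have base : ∀ᶠ V : ℝ in atTop, ∀ θ, ε * (Real.log V - b) ≤ θ →
      okW A1 θ ∧ (ε / 4) * Lg V ≤ θ ∧ 1 ≤ Lg V ∧
        (1 + Real.log (Lg V)) / 2 ≤ Real.log (LW A1 θ) := by
    filter_upwards [hu.eventually_ge_atTop (4 / 3 * (b + 1 / 4)), hu.eventually_ge_atTop 0,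
      huu.eventually_ge_atTop (4 - Real.log c1), huu.eventually_ge_atTop (1 - 2 * Real.log c1)]
      with V h1 h2 h3 h3' θ hθ
    have hLg1 : 1 ≤ Lg V := by unfold Lg; linarith
    have h5 : (ε / 4) * Lg V ≤ θ := by
      refine le_trans ?_ hθ
      have : (1 / 4) * Lg V ≤ Real.log V - b := by unfold Lg; linarith
      calc (ε / 4) * Lg V = ε * ((1 / 4) * Lg V) := by ring
        _ ≤ ε * (Real.log V - b) := mul_le_mul_of_nonneg_left this hε.le
    have hθp : 0 < θ := lt_of_lt_of_le (by positivity) h5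
    have h6 : c1 * Lg V ≤ LW A1 θ := by
      rw [hc1]; unfold LW
      rw [div_mul_eq_mul_div, div_le_div_iff₀ (by positivity) (by positivity)]
      nlinarith [mul_le_mul_of_nonneg_right h5 (show 0 ≤ (A1 : ℝ) * Real.log 4 by positivity)]
    have h7 := Real.log_le_log (by positivity) h6
    rw [Real.log_mul hc1p.ne' (by linarith)] at h7
    exact ⟨⟨hθp, by linarith⟩, h5, hLg1, by linarith⟩
  rcases hg with rfl | rfl
  · refine ⟨ε / (16 * A1), by positivity, ?_⟩
    filter_upwards [base] with V hV θ hθ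
    obtain ⟨k1, k2, k3, k4⟩ := hV θ hθ
    refine ⟨k1, ?_⟩
    unfold gW
    rw [if_pos rfl, ell_one, ← Real.log_mul (by positivity) (by linarith)]
    apply Real.log_le_log (by positivity)
    rw [div_mul_eq_mul_div, div_le_div_iff₀ (by positivity) (by positivity)]
    nlinarith [mul_le_mul_of_nonneg_right k2 (show 0 ≤ (A1 : ℝ) by linarith)]
  · refine ⟨1 / 8, by positivity, ?_⟩
    filter_upwards [base] with V hV θ hθ
    obtain ⟨k1, k2, k3, k4⟩ := hV θ hθ
    refine ⟨k1, ?_⟩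
    have h8 : 0 ≤ Real.log (Lg V) := Real.log_nonneg k3
    unfold gW
    rw [if_neg (by norm_num), ell_two]
    have e : Lg (Lg V) = 1 + Real.log (Lg V) := rfl
    rw [e, ← Real.log_mul (by positivity) (by linarith)]
    apply Real.log_le_log (by positivity)
    linarith

/-- **The sharp lower bound.** -/
theorem lower_full {k j a t g : ℕ} (hk3 : 3 ≤ k) (ha : 2 ≤ a) (hg : g = 1 ∨ g = 2)
    (hj : 3 * a ≤ j) (hk : k ≤ 3 * (a + 2 * t + g) + 2) :
    ∃ c : ℝ, 0 < c ∧ ∀ᶠ n : ℕ in atTop,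
      Real.exp (c * (Real.log n ^ (((a + t : ℕ) : ℝ) / ((a + 2 * t + 1 : ℕ) : ℝ)) *
        ell g (Real.log n) ^ (((t + 1 : ℕ) : ℝ) / ((a + 2 * t + 1 : ℕ) : ℝ)))) ≤ f k j n := by
  obtain ⟨C1, A1, hA1, hAC, hgap, hp⟩ := plan_two (t := t) ha
  obtain ⟨C, c0, hC, hc0, hshort⟩ := exists_short4 (sysW a t g C1 A1 (by omega) hg hA1 hAC)
    (K := 2 * k) (M := 2 * (2 * k)) (H := a + 2 * t + g) (a := a) (by omega) (by omega) (by omega)
    (start_W (by omega) hg hA1 hAC hp)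
  obtain ⟨C0, hC0⟩ : ∃ C0 : ℝ, C0 = ((a + 2 * t + 1 : ℕ) : ℝ) := ⟨_, rfl⟩
  obtain ⟨A0, hA0⟩ : ∃ A0 : ℝ, A0 = ((a + t : ℕ) : ℝ) := ⟨_, rfl⟩
  obtain ⟨B0, hB0⟩ : ∃ B0 : ℝ, B0 = ((t + 1 : ℕ) : ℝ) := ⟨_, rfl⟩
  rw [← hC0, ← hA0, ← hB0]
  have hABC : A0 + B0 = C0 := by rw [hA0, hB0, hC0]; push_cast; ring
  have hB0p : 1 ≤ B0 := by rw [hB0]; push_cast; linarith [Nat.cast_nonneg (α := ℝ) t]
  have hA0p : 1 ≤ A0 := by
    rw [hA0]
    exact_mod_cast (by omega : 1 ≤ a + t)
  have hC0p : 0 < C0 := by linarith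
  have hA1r : (1 : ℝ) ≤ A1 := by exact_mod_cast hA1
  have hACr : (A1 : ℝ) ≤ C1 := by exact_mod_cast hAC
  -- the gap
  obtain ⟨δ, hδ⟩ : ∃ δ : ℝ, δ = A1 - C1 * (A0 / C0) := ⟨_, rfl⟩
  have hδp : 0 < δ := by
    rw [hδ, sub_pos, ← mul_div_assoc, div_lt_iff₀ hC0p]
    have : ((a + t : ℕ) : ℝ) * C1 < A1 * ((a + 2 * t + 1 : ℕ) : ℝ) := by exact_mod_cast hgap
    rw [hA0, hC0]
    linarith
  obtain ⟨ε, hε⟩ : ∃ ε : ℝ, ε = δ / 2 := ⟨_, rfl⟩
  have hεp : 0 < ε := by rw [hε]; linarith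
  have hεA : ε ≤ A1 := by
    have : 0 ≤ (C1 : ℝ) * (A0 / C0) := by positivity
    rw [hε]; linarith
  -- the constants
  obtain ⟨D, hD⟩ : ∃ D : ℝ, D = 2 * c0 * (81 * Real.log (320 * (k + 1))) := ⟨_, rfl⟩
  have hc0r : (1 : ℝ) ≤ c0 := by exact_mod_cast hc0
  have hlogG : 1 ≤ Real.log (320 * ((k : ℝ) + 1)) := by
    rw [Real.le_log_iff_exp_le (by positivity)]
    have := Real.exp_one_lt_d9
    have : (0 : ℝ) ≤ k := Nat.cast_nonneg _
    linarith
  have hD1 : 1 ≤ D := by rw [hD]; nlinarith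
  obtain ⟨b, hb⟩ : ∃ b : ℝ, b = Real.log (2 * D) := ⟨_, rfl⟩
  have hb0 : 0 ≤ b := by rw [hb]; exact Real.log_nonneg (by linarith)
  obtain ⟨κ, hκ, hgain⟩ := gain_W (g := g) (A1 := A1) hg hA1 (b := b) hεp
  obtain ⟨z, hz⟩ : ∃ z : ℝ, z = (B0 * Real.log κ - C - A0 * b) / C0 := ⟨_, rfl⟩
  obtain ⟨c5, hc5⟩ : ∃ c5 : ℝ, c5 = min 1 (Real.exp z) := ⟨_, rfl⟩
  have hc5p : 0 < c5 := by rw [hc5]; exact lt_min one_pos (Real.exp_pos _)
  have hc51 : c5 ≤ 1 := by rw [hc5]; exact min_le_left _ _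
  have hc5z : Real.log c5 ≤ z := by
    rw [Real.log_le_iff_le_exp hc5p, hc5]; exact min_le_right _ _
  refine ⟨c5 / 16, by positivity, ?_⟩
  have hlogn : Tendsto (fun n : ℕ => Real.log n) atTop atTop :=
    Real.tendsto_log_atTop.comp tendsto_natCast_atTop_atTop
  have hu : Tendsto Real.log atTop atTop := Real.tendsto_log_atTop
  have hLg : Tendsto Lg atTop atTop := by
    unfold Lg
    exact tendsto_atTop_add_const_left _ _ hu
  have hC1p : (0 : ℝ) < C1 := by linarith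
  have ev1 : ∀ᶠ V : ℝ in atTop, Real.log (Lg V) ≤ ε / (4 * C1) * Lg V :=
    hLg.eventually (log_small (by positivity))
  have ev2 : ∀ᶠ V : ℝ in atTop, 9 / c5 ≤ V ^ (A0 / C0) :=
    (tendsto_rpow_atTop (by positivity)).eventually_ge_atTop _
  have hall : ∀ᶠ V : ℝ in atTop, (∀ θ, ε * (Real.log V - b) ≤ θ →
      okW A1 θ ∧ Real.log κ + Real.log (ell g V) ≤ gW g A1 θ) ∧
      Real.log (Lg V) ≤ ε / (4 * C1) * Lg V ∧ 9 / c5 ≤ V ^ (A0 / C0) ∧ 4 * D ≤ V ∧
      1 ≤ Real.log V ∧ 2 * (C + A1 * b) / ε + b + 1 ≤ Real.log V := by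
    filter_upwards [hgain, ev1, ev2, eventually_ge_atTop (4 * D), hu.eventually_ge_atTop 1,
      hu.eventually_ge_atTop (2 * (C + A1 * b) / ε + b + 1)] with V h1 h2 h3 h4 h5 h6
    exact ⟨h1, h2, h3, h4, h5, h6⟩
  filter_upwards [hlogn.eventually hall, eventually_ge_atTop 3] with n hn hn3
  obtain ⟨h1, h2, h3, h4, h5, h6⟩ := hn
  obtain ⟨V, hV⟩ : ∃ V : ℝ, V = Real.log n := ⟨_, rfl⟩
  rw [← hV] at h1 h2 h3 h4 h5 h6 ⊢
  have hV1 : 1 ≤ V := by linarith
  have hVp : 0 < V := by linarith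
  have hell1 : 1 ≤ ell g V := one_le_ell g hV1
  have hellLg : ell g V ≤ Lg V := by
    rcases hg with rfl | rfl
    · exact le_rfl
    · exact ell_succ_le 1 hV1
  obtain ⟨S, hS⟩ : ∃ S : ℝ, S = V ^ (A0 / C0) * ell g V ^ (B0 / C0) := ⟨_, rfl⟩
  rw [← hS]
  have hS9 : 9 / c5 ≤ S := by
    rw [hS]
    have : 1 ≤ ell g V ^ (B0 / C0) := Real.one_le_rpow hell1 (by positivity)
    have h7 : 0 < V ^ (A0 / C0) := by positivity
    nlinarith
  have hSp : 0 < S := lt_of_lt_of_le (by positivity) hS9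
  have hlogS : Real.log S = A0 / C0 * Real.log V + B0 / C0 * Real.log (ell g V) := by
    rw [hS, Real.log_mul (by positivity) (by positivity), Real.log_rpow hVp,
      Real.log_rpow (by linarith)]
  obtain ⟨N, hN⟩ : ∃ N : ℕ, N = ⌊c5 * S⌋₊ := ⟨_, rfl⟩
  have hN1 : (N : ℝ) ≤ c5 * S := by rw [hN]; exact Nat.floor_le (by positivity)
  have hN2 : c5 * S < N + 1 := by rw [hN]; exact Nat.lt_floor_add_one _
  have hcS : 9 ≤ c5 * S := by
    rw [div_le_iff₀ hc5p] at hS9
    linarith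
  have hN8 : 8 ≤ N := by
    have : (8 : ℝ) < N + 1 := by linarith
    have : 8 < N + 1 := by exact_mod_cast this
    omega
  have hNp : (0 : ℝ) < N := by
    have : 0 < N := by omega
    exact_mod_cast this
  -- the logarithm of `N`
  have hlogN : Real.log N ≤ Real.log c5 + Real.log S := by
    rw [← Real.log_mul hc5p.ne' hSp.ne']
    exact Real.log_le_log hNp hN1
  -- the depth
  obtain ⟨m, hm⟩ : ∃ m : ℕ, m = ⌊V / D⌋₊ := ⟨_, rfl⟩
  have hDp : 0 < D := by linarith
  have hVD4 : 4 ≤ V / D := by rw [le_div_iff₀ hDp]; linarith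
  have hm1 : (m : ℝ) ≤ V / D := by rw [hm]; exact Nat.floor_le (by positivity)
  have hm2 : V / D < m + 1 := by rw [hm]; exact Nat.lt_floor_add_one _
  have hm3 : V / (2 * D) ≤ m := by
    have e : V / (2 * D) = V / D / 2 := by field_simp
    rw [e]; linarith
  have hmp : (0 : ℝ) < m := by linarith
  have hlm1 : Real.log V - b ≤ Real.log m := by
    have h7 := Real.log_le_log (by positivity) hm3
    rw [Real.log_div hVp.ne' (by positivity), ← hb] at h7
    exact h7
  have hlm2 : Real.log m ≤ Real.log V := by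
    apply Real.log_le_log hmp
    have : V / D ≤ V := div_le_self hVp.le hD1
    linarith
  obtain ⟨θ, hθ⟩ : ∃ θ : ℝ, θ = ε * Real.log m := ⟨_, rfl⟩
  obtain ⟨hok, hgW⟩ := h1 θ (by rw [hθ]; exact mul_le_mul_of_nonneg_left hlm1 hεp.le)
  -- the first condition
  have cond1 : C0 * Real.log N + C ≤ A0 * Real.log m + B0 * gW g A1 θ := by
    have e1 : C0 * (Real.log c5 + Real.log S) = C0 * Real.log c5 + A0 * Real.log V +
        B0 * Real.log (ell g V) := by
      rw [hlogS]; field_simp; ring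
    have e2 : C0 * Real.log N ≤ C0 * (Real.log c5 + Real.log S) :=
      mul_le_mul_of_nonneg_left hlogN hC0p.le
    have e3 : C0 * Real.log c5 ≤ B0 * Real.log κ - C - A0 * b := by
      have := mul_le_mul_of_nonneg_left hc5z hC0p.le
      rw [hz, mul_div_cancel₀ _ hC0p.ne'] at this
      exact this
    have e4 : A0 * (Real.log V - b) ≤ A0 * Real.log m :=
      mul_le_mul_of_nonneg_left hlm1 (by linarith)
    have e5 : B0 * (Real.log κ + Real.log (ell g V)) ≤ B0 * gW g A1 θ :=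
      mul_le_mul_of_nonneg_left hgW (by linarith)
    linarith
  -- the second condition
  have cond2 : C1 * Real.log N + θ + C ≤ A1 * Real.log m := by
    have hlc5 : Real.log c5 ≤ 0 := Real.log_nonpos hc5p.le hc51
    have hle : Real.log (ell g V) ≤ Real.log (Lg V) := Real.log_le_log (by linarith) hellLg
    have hle0 : 0 ≤ Real.log (ell g V) := Real.log_nonneg hell1
    have e1 : (C1 : ℝ) * Real.log N ≤ C1 * (A0 / C0 * Real.log V + B0 / C0 * Real.log (ell g V)) := by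
      apply mul_le_mul_of_nonneg_left _ hC1p.le
      linarith
    have e2 : B0 / C0 * Real.log (ell g V) ≤ Real.log (Lg V) := by
      have : B0 / C0 ≤ 1 := by rw [div_le_one hC0p]; linarith
      calc B0 / C0 * Real.log (ell g V) ≤ 1 * Real.log (ell g V) :=
            mul_le_mul_of_nonneg_right this hle0
        _ ≤ Real.log (Lg V) := by linarith
    have e3 : C1 * Real.log (Lg V) ≤ ε / 4 * (1 + Real.log V) := by
      calc C1 * Real.log (Lg V) ≤ C1 * (ε / (4 * C1) * Lg V) :=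
            mul_le_mul_of_nonneg_left h2 hC1p.le
        _ = ε / 4 * (1 + Real.log V) := by unfold Lg; field_simp
    have e4 : C1 * (A0 / C0) = A1 - 2 * ε := by rw [hε, hδ]; ring
    have e5 : C1 * (A0 / C0 * Real.log V + B0 / C0 * Real.log (ell g V)) ≤
        (A1 - 2 * ε) * Real.log V + ε / 4 * (1 + Real.log V) := by
      have e6 : C1 * (A0 / C0 * Real.log V + B0 / C0 * Real.log (ell g V)) =
        C1 * (A0 / C0) * Real.log V + C1 * (B0 / C0 * Real.log (ell g V)) := by ring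
      rw [e6, e4]
      have e7 : C1 * (B0 / C0 * Real.log (ell g V)) ≤ C1 * Real.log (Lg V) :=
        mul_le_mul_of_nonneg_left e2 hC1p.le
      linarith
    have e8 : (A1 - ε) * (Real.log V - b) ≤ (A1 - ε) * Real.log m :=
      mul_le_mul_of_nonneg_left hlm1 (by linarith)
    have e9 : 2 * (C + A1 * b) + ε * (b + 1) ≤ ε * Real.log V := by
      have := mul_le_mul_of_nonneg_left h6 hεp.le
      have e10 : ε * (2 * (C + A1 * b) / ε + b + 1) = 2 * (C + A1 * b) + ε * (b + 1) := by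
        field_simp; ring
      rw [e10] at this
      exact this
    rw [hθ]
    have e11 : 0 ≤ (A1 : ℝ) * b := by positivity
    have e12 : 0 ≤ ε * b := by positivity
    nlinarith
  have hNm : N ≤ m := by
    have h7 : (C1 : ℝ) * Real.log N < C1 * Real.log m := by
      have h8 : (A1 : ℝ) * Real.log m ≤ C1 * Real.log m :=
        mul_le_mul_of_nonneg_right hACr (Real.log_natCast_nonneg m)
      have := hok.1
      linarith
    have h8 : Real.log N < Real.log m := lt_of_mul_lt_mul_left h7 hC1p.le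
    have h9 : (N : ℝ) < m := (Real.log_lt_log_iff hNp hmp).1 h8
    exact_mod_cast h9.le
  have hlow := f_ge_of_short (k := k) (j := j) (a := a) (c0 := c0) (m := m) (N := N) (n := n)
    hk3 (by omega) hj hn3 (by omega) hc0 (by
      rw [← hV]
      have h7 : (m : ℝ) + 1 ≤ 2 * (V / D) := by linarith
      calc (c0 : ℝ) * (m + 1) * (81 * Real.log (320 * (k + 1)))
          ≤ c0 * (2 * (V / D)) * (81 * Real.log (320 * (k + 1))) := by
            apply mul_le_mul_of_nonneg_right _ (by positivity)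
            exact mul_le_mul_of_nonneg_left h7 (by linarith)
        _ = D * (V / D) := by rw [hD]; ring
        _ = V := by field_simp) (by
      intro T hT hP hW
      refine hshort θ m N T hok hNm ?_ hT hP hW
      intro d dir bud _
      refine ⟨fun c _ => (by omega : 1 ≤ N), ?_, ?_, ?_⟩
      · rw [Finset.sum_const, Finset.card_range, nsmul_eq_mul, ← hC0, ← hA0, ← hB0]
        exact cond1
      · intro _
        rw [Finset.sum_const, Finset.card_range, nsmul_eq_mul]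
        exact cond2
      · intro h; omega)
  have h7 : ((2 : ℝ) ^ ((N - 1) / 2) + 1) ≤ f k j n := by exact_mod_cast hlow
  have h8 : Real.exp (c5 / 16 * S) ≤ 2 ^ ((N - 1) / 2) := by
    apply exp_le_two_pow
    have h9 : (N : ℝ) ≤ 2 * (((N - 1) / 2 : ℕ) : ℝ) + 2 := by
      have : N ≤ 2 * ((N - 1) / 2) + 2 := by omega
      exact_mod_cast this
    have : c5 / 16 * S = c5 * S / 16 := by ring
    rw [this]; linarith
  linarith

end Pool.Agent.H595K
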