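import Mathlib
import Pool.Agent.H595K.WLow
import Pool.Agent.H595K.JUp

/-!
# Growing `k`
-/

namespace Pool.Agent.H595K

open Filter Topology

theorem large_up {j : ℕ} {ε : ℝ} (hε : 0 < ε) : ∃ k0 : ℕ, ∀ᶠ n : ℕ in atTop, ∀ k, k0 ≤ k →
    (f k j n : ℝ) ≤ Real.exp (Real.log n ^ (1 / 2 + ε)) := by
  obtain ⟨H, hH⟩ := exists_nat_ge (((j : ℝ) + 1) / ε + j + 1)
  have hHp : 0 < ((j : ℝ) + 1) / ε := by positivity
  have hHj : (j : ℝ) + 1 ≤ H := by linarith
  have hHj' : j + 1 ≤ H := by exact_mod_cast hHj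
  have hHr : (0 : ℝ) < H := by linarith [Nat.cast_nonneg (α := ℝ) j]
  obtain ⟨C, hC, hup⟩ := upper_bound j H (by omega)
  obtain ⟨α, hα⟩ : ∃ α : ℝ, α = (((H + j / 3) / 2 : ℕ) : ℝ) / H := ⟨_, rfl⟩
  rw [← hα] at hup
  have hα1 : α ≤ 1 / 2 + ε / 2 := by
    rw [hα, div_le_iff₀ hHr]
    have h1 : ((((H + j / 3) / 2 : ℕ) : ℝ)) ≤ ((H + j : ℕ) : ℝ) / 2 := by
      rw [le_div_iff₀ (by norm_num)]
      have : (H + j / 3) / 2 * 2 ≤ H + j := by omega
      exact_mod_cast this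
    have h2 : (j : ℝ) ≤ ε * H := by
      have h3 : ((j : ℝ) + 1) / ε ≤ H := by linarith [Nat.cast_nonneg (α := ℝ) j]
      rw [div_le_iff₀ hε] at h3
      linarith
    push_cast at h1
    linarith
  refine ⟨3 * H, ?_⟩
  have hlogn : Tendsto (fun n : ℕ => Real.log n) atTop atTop :=
    Real.tendsto_log_atTop.comp tendsto_natCast_atTop_atTop
  -- the logarithm is small
  have h1 : ∀ᶠ V : ℝ in atTop, C * Real.log V ≤ V ^ (ε / 2) := by
    have h2 := (isLittleO_log_rpow_atTop (show 0 < ε / 2 by positivity)).bound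
      (show 0 < 1 / C by positivity)
    filter_upwards [h2, eventually_ge_atTop 1] with V hV hV1
    rw [Real.norm_eq_abs, Real.norm_eq_abs, abs_of_nonneg (Real.log_nonneg hV1),
      abs_of_nonneg (Real.rpow_nonneg (by linarith) _)] at hV
    calc C * Real.log V ≤ C * (1 / C * V ^ (ε / 2)) := mul_le_mul_of_nonneg_left hV hC.le
      _ = V ^ (ε / 2) := by field_simp
  filter_upwards [hlogn.eventually h1, hlogn.eventually_ge_atTop 1, eventually_ge_atTop 16]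
    with n hn hn1 hn16 k hk
  refine (hup k n hk hn16).trans (Real.exp_le_exp.2 ?_)
  obtain ⟨V, hV⟩ : ∃ V : ℝ, V = Real.log n := ⟨_, rfl⟩
  rw [← hV] at hn hn1 ⊢
  have h2 : V ^ α ≤ V ^ (1 / 2 + ε / 2) := Real.rpow_le_rpow_of_exponent_le hn1 hα1
  calc C * V ^ α * Real.log V = V ^ α * (C * Real.log V) := by ring
    _ ≤ V ^ (1 / 2 + ε / 2) * V ^ (ε / 2) := by
        apply mul_le_mul h2 hn _ (Real.rpow_nonneg (by linarith) _)
        have := Real.log_nonneg hn1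
        positivity
    _ = V ^ (1 / 2 + ε) := by
        rw [← Real.rpow_add (by linarith)]
        congr 1; ring

theorem large_low {ε : ℝ} (hε : 0 < ε) : ∀ᶠ n : ℕ in atTop, ∀ k j : ℕ, 3 ≤ k → 3 ≤ j →
    (k : ℝ) ≤ Real.log n ^ (ε / 2) → Real.exp (Real.log n ^ (1 / 2 - ε)) ≤ f k j n := by
  have hlogn : Tendsto (fun n : ℕ => Real.log n) atTop atTop :=
    Real.tendsto_log_atTop.comp tendsto_natCast_atTop_atTop
  have h1 : ∀ᶠ V : ℝ in atTop, 300 ≤ V ^ (ε / 4) :=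
    (tendsto_rpow_atTop (by positivity)).eventually_ge_atTop _
  filter_upwards [hlogn.eventually h1, hlogn.eventually_ge_atTop 1, eventually_ge_atTop 3]
    with n hn hn1 hn3 k j hk hj hkn
  refine le_trans (Real.exp_le_exp.2 ?_) (lower_bound2 k j n hk hj hn3)
  obtain ⟨V, hV⟩ : ∃ V : ℝ, V = Real.log n := ⟨_, rfl⟩
  rw [← hV] at hn hn1 hkn ⊢
  have hVp : 0 < V := by linarith
  have hk3 : (3 : ℝ) ≤ k := by exact_mod_cast hk
  have hkp : (0 : ℝ) < k := by linarith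
  have hlogk : 0 < Real.log k := Real.log_pos (by linarith)
  refine le_trans ?_ (mul_le_mul_of_nonneg_left (le_max_right _ _) (by norm_num))
  -- the square root
  have h2 : Real.log k ≤ k := by
    have := Real.log_le_sub_one_of_pos hkp; linarith
  have h3 : Real.sqrt V / Real.sqrt k ≤ Real.sqrt (V / Real.log k) := by
    rw [← Real.sqrt_div hVp.le]
    apply Real.sqrt_le_sqrt
    exact div_le_div_of_nonneg_left hVp.le hlogk h2
  have hsk : 0 < Real.sqrt k := Real.sqrt_pos.2 hkp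
  have h4 : Real.sqrt k * k ≤ V ^ (3 * ε / 4) := by
    have h5 : Real.sqrt k ≤ V ^ (ε / 4) := by
      rw [Real.sqrt_le_left (Real.rpow_nonneg hVp.le _), ← Real.rpow_natCast, ← Real.rpow_mul hVp.le]
      refine hkn.trans (le_of_eq ?_)
      congr 1; push_cast; ring
    calc Real.sqrt k * k ≤ V ^ (ε / 4) * V ^ (ε / 2) :=
          mul_le_mul h5 hkn hkp.le (Real.rpow_nonneg hVp.le _)
      _ = V ^ (3 * ε / 4) := by
          rw [← Real.rpow_add hVp]
          congr 1; ring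
  have hs : Real.sqrt V = V ^ ((1 : ℝ) / 2) := Real.sqrt_eq_rpow V
  have h6 : V ^ ((1 : ℝ) / 2 - 3 * ε / 4) ≤ Real.sqrt V / Real.sqrt k / k := by
    rw [div_div, le_div_iff₀ (by positivity), hs]
    calc V ^ ((1 : ℝ) / 2 - 3 * ε / 4) * (Real.sqrt k * k)
        ≤ V ^ ((1 : ℝ) / 2 - 3 * ε / 4) * V ^ (3 * ε / 4) :=
          mul_le_mul_of_nonneg_left h4 (Real.rpow_nonneg hVp.le _)
      _ = V ^ ((1 : ℝ) / 2) := by
          rw [← Real.rpow_add hVp]
          congr 1; ring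
  have h7 : 300 * V ^ ((1 : ℝ) / 2 - ε) ≤ V ^ ((1 : ℝ) / 2 - 3 * ε / 4) := by
    calc 300 * V ^ ((1 : ℝ) / 2 - ε) ≤ V ^ (ε / 4) * V ^ ((1 : ℝ) / 2 - ε) :=
          mul_le_mul_of_nonneg_right hn (Real.rpow_nonneg hVp.le _)
      _ = V ^ ((1 : ℝ) / 2 - 3 * ε / 4) := by
          rw [← Real.rpow_add hVp]
          congr 1; ring
  have h8 : Real.sqrt V / Real.sqrt k / k ≤ Real.sqrt (V / Real.log k) / k :=
    div_le_div_of_nonneg_right h3 hkp.le
  linarith

end Pool.Agent.H595K
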