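import Mathlib
import Pool.Agent.H595K.UNum

/-!
# The sizes for `a ≥ 2`
-/

namespace Pool.Agent.H595K

open List

theorem yz_zero (bs : List ℕ) : yz bs 0 = (0, 0) := by cases bs <;> rfl

theorem pw {y : ℕ} (hy : 1 ≤ y) {i j : ℕ} (h : i ≤ j) : y ^ i ≤ y ^ j :=
  Nat.pow_le_pow_right hy h

section
variable {y : ℕ} (hy : 1 ≤ y)
include hy

theorem yz_rep (i : ℕ) : ∀ p, (yz (replicate i y) (p + 1)).1 ≤ 5 ^ i * y ^ ((i + p) / 2) ∧
    (yz (replicate i y) (p + 1)).2 ≤ 5 ^ i * y ^ ((i + p + 1) / 2) := by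
  induction i with
  | zero =>
    intro p
    have h1 : 1 ≤ y ^ ((0 + p) / 2) := Nat.one_le_pow _ _ hy
    have h2 : 1 ≤ y ^ ((0 + p + 1) / 2) := Nat.one_le_pow _ _ hy
    simp only [replicate_zero, yz, pow_zero, one_mul]
    exact ⟨h1, h2⟩
  | succ i ih =>
    intro p
    rw [replicate_succ]
    obtain ⟨h1, h2⟩ := ih p
    constructor
    · show 4 * (yz (replicate i y) (p + 1)).2 + y * (yz (replicate i y) p).1 ≤ _
      have e : i + 1 + p = i + p + 1 := by ring
      rw [e, pow_succ]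
      cases p with
      | zero =>
        rw [yz_zero]
        nlinarith
      | succ p =>
        obtain ⟨h3, _⟩ := ih p
        have h4 : y * (yz (replicate i y) (p + 1)).1 ≤ 5 ^ i * y ^ ((i + (p + 1) + 1) / 2) := by
          calc y * (yz (replicate i y) (p + 1)).1 ≤ y * (5 ^ i * y ^ ((i + p) / 2)) :=
                Nat.mul_le_mul_left _ h3
            _ = 5 ^ i * y ^ ((i + p) / 2 + 1) := by ring
            _ = 5 ^ i * y ^ ((i + (p + 1) + 1) / 2) := by
                congr 2; omega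
        nlinarith
    · show y * (yz (replicate i y) (p + 1)).1 ≤ _
      calc y * (yz (replicate i y) (p + 1)).1 ≤ y * (5 ^ i * y ^ ((i + p) / 2)) :=
            Nat.mul_le_mul_left _ h1
        _ = 5 ^ i * y ^ ((i + p) / 2 + 1) := by ring
        _ ≤ 5 ^ (i + 1) * y ^ ((i + 1 + p + 1) / 2) := by
            apply Nat.mul_le_mul
            · exact Nat.pow_le_pow_right (by norm_num) (by omega)
            · exact pw hy (by omega)

theorem xc_rep (p i : ℕ) : xc (p + 1) (replicate i y) ≤ 5 ^ i * y ^ ((i + p + 1) / 2) := by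
  induction i with
  | zero =>
    have h2 : 1 ≤ y ^ ((0 + p + 1) / 2) := Nat.one_le_pow _ _ hy
    simpa [xc] using h2
  | succ i ih =>
    rw [replicate_succ]
    show 4 * xc (p + 1) (replicate i y) + y * (yz (replicate i y) (p + 1)).1 ≤ _
    obtain ⟨h1, _⟩ := yz_rep hy i p
    have h2 : y * (yz (replicate i y) (p + 1)).1 ≤ 5 ^ i * y ^ ((i + 1 + p + 1) / 2) := by
      calc y * (yz (replicate i y) (p + 1)).1 ≤ y * (5 ^ i * y ^ ((i + p) / 2)) :=
            Nat.mul_le_mul_left _ h1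
        _ = 5 ^ i * y ^ ((i + p) / 2 + 1) := by ring
        _ = 5 ^ i * y ^ ((i + 1 + p + 1) / 2) := by congr 2; omega
    have h3 : 5 ^ i * y ^ ((i + p + 1) / 2) ≤ 5 ^ i * y ^ ((i + 1 + p + 1) / 2) :=
      Nat.mul_le_mul_left _ (pw hy (by omega))
    rw [pow_succ]
    nlinarith

theorem LX_rep (p i : ℕ) : LX (p + 1) (replicate i y) ≤
    7 ^ (i + 1) * (lgn y * y ^ ((i + p + 1) / 2)) := by
  have hL : 2 ≤ lgn y := two_le_lgn hy
  induction i with
  | zero =>
    have h2 : 1 ≤ y ^ ((0 + p + 1) / 2) := Nat.one_le_pow _ _ hy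
    simp only [replicate_zero, LX]
    exact Nat.mul_pos (by norm_num) (Nat.mul_pos (by omega) h2)
  | succ i ih =>
    rw [replicate_succ]
    show LX (p + 1) (replicate i y) + (xc (p + 1) (replicate i y) * (1 + 4 * lgn y) +
      y * (yz (replicate i y) (p + 1)).1) ≤ _
    obtain ⟨h1, _⟩ := yz_rep hy i p
    obtain ⟨W, hW⟩ : ∃ W, W = lgn y * y ^ ((i + 1 + p + 1) / 2) := ⟨_, rfl⟩
    have h2 : y * (yz (replicate i y) (p + 1)).1 ≤ 7 ^ i * W := by
      calc y * (yz (replicate i y) (p + 1)).1 ≤ y * (5 ^ i * y ^ ((i + p) / 2)) :=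
            Nat.mul_le_mul_left _ h1
        _ = 5 ^ i * (1 * y ^ ((i + p) / 2 + 1)) := by ring
        _ ≤ 7 ^ i * W := by
            rw [hW]
            apply Nat.mul_le_mul (Nat.pow_le_pow_left (by norm_num) _)
            exact Nat.mul_le_mul (by omega) (pw hy (by omega))
    have h3 : xc (p + 1) (replicate i y) * (1 + 4 * lgn y) ≤ 5 * (7 ^ i * W) := by
      calc xc (p + 1) (replicate i y) * (1 + 4 * lgn y)
          ≤ (5 ^ i * y ^ ((i + p + 1) / 2)) * (5 * lgn y) :=
            Nat.mul_le_mul (xc_rep hy p i) (by omega)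
        _ = 5 * (5 ^ i * (lgn y * y ^ ((i + p + 1) / 2))) := by ring
        _ ≤ 5 * (7 ^ i * W) := by
            rw [hW]
            apply Nat.mul_le_mul_left
            apply Nat.mul_le_mul (Nat.pow_le_pow_left (by norm_num) _)
            exact Nat.mul_le_mul_left _ (pw hy (by omega))
    have h4 : LX (p + 1) (replicate i y) ≤ 7 ^ (i + 1) * W := by
      refine ih.trans ?_
      rw [hW]
      exact Nat.mul_le_mul_left _ (Nat.mul_le_mul_left _ (pw hy (by omega)))
    rw [← hW]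
    have e : 7 ^ (i + 1 + 1) * W = 49 * (7 ^ i * W) := by ring
    have e' : 7 ^ (i + 1) * W = 7 * (7 ^ i * W) := by ring
    rw [e]
    rw [e'] at h4
    omega

/-- **The sizes, one group.** -/
theorem sizes_one (p t : ℕ) (hy2 : 2 ≤ y) :
    LX (p + 1) (y * lgn y :: replicate (p + 1 + 2 * t) y) ≤
      7 ^ (p + 2 * t + 4) * (lgn y * y ^ (p + 1 + t)) := by
  have hL : 2 ≤ lgn y := two_le_lgn hy
  have hLy : lgn y ≤ y := lgn_le hy2
  obtain ⟨I, hI⟩ : ∃ I, I = p + 1 + 2 * t := ⟨_, rfl⟩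
  rw [← hI]
  obtain ⟨W, hW⟩ : ∃ W, W = lgn y * y ^ (p + 1 + t) := ⟨_, rfl⟩
  show LX (p + 1) (replicate I y) + (xc (p + 1) (replicate I y) * (1 + 4 * lgn (y * lgn y)) +
    y * lgn y * (yz (replicate I y) (p + 1)).1) ≤ _
  have e1 : (I + p + 1) / 2 = p + 1 + t := by omega
  have e2 : (I + p) / 2 + 1 = p + 1 + t := by omega
  have h1 := LX_rep hy p I
  have h2 := xc_rep hy p I
  obtain ⟨h3, _⟩ := yz_rep hy I p
  rw [e1, ← hW] at h1
  rw [e1] at h2
  have h4 : lgn (y * lgn y) ≤ 2 * lgn y := by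
    have h5 : y * lgn y + 1 < 2 ^ (2 * lgn y) := by
      have h6 := lt_lgn y
      have h7 : y * lgn y + 1 ≤ (y + 1) * (y + 1) := by nlinarith
      have h8 : (y + 1) * (y + 1) < 2 ^ lgn y * 2 ^ lgn y := Nat.mul_lt_mul'' h6 h6
      rw [two_mul, pow_add]
      omega
    have h6 : Nat.log 2 (y * lgn y + 1) < 2 * lgn y := Nat.log_lt_of_lt_pow (by omega) h5
    show Nat.log 2 (y * lgn y + 1) + 1 ≤ 2 * lgn y
    omega
  have h5 : xc (p + 1) (replicate I y) * (1 + 4 * lgn (y * lgn y)) ≤ 9 * (7 ^ I * W) := by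
    calc xc (p + 1) (replicate I y) * (1 + 4 * lgn (y * lgn y))
        ≤ (5 ^ I * y ^ (p + 1 + t)) * (9 * lgn y) := Nat.mul_le_mul h2 (by omega)
      _ = 9 * (5 ^ I * (lgn y * y ^ (p + 1 + t))) := by ring
      _ ≤ 9 * (7 ^ I * W) := by
          rw [hW]
          apply Nat.mul_le_mul_left
          exact Nat.mul_le_mul_right _ (Nat.pow_le_pow_left (by norm_num) _)
  have h6 : y * lgn y * (yz (replicate I y) (p + 1)).1 ≤ 7 ^ I * W := by
    calc y * lgn y * (yz (replicate I y) (p + 1)).1 ≤ y * lgn y * (5 ^ I * y ^ ((I + p) / 2)) :=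
          Nat.mul_le_mul_left _ h3
      _ = 5 ^ I * (lgn y * y ^ ((I + p) / 2 + 1)) := by ring
      _ ≤ 7 ^ I * W := by
          rw [hW, e2]
          exact Nat.mul_le_mul_right _ (Nat.pow_le_pow_left (by norm_num) _)
  rw [← hW]
  have e3 : 7 ^ (p + 2 * t + 4) * W = 343 * (7 ^ I * W) := by
    rw [hI]; ring
  have e4 : 7 ^ (I + 1) * W = 7 * (7 ^ I * W) := by ring
  rw [e4] at h1
  rw [e3]
  omega

/-! ### Two groups -/

theorem yz_rep2 (b i : ℕ) : ∀ p,
    y * (yz (replicate i y ++ [b]) (p + 1)).1 ≤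
      5 ^ (i + 1) * (y ^ ((i + p + 2) / 2) + b * y ^ ((i + p + 1) / 2)) ∧
    y * (yz (replicate i y ++ [b]) (p + 1)).2 ≤
      5 ^ (i + 1) * (y ^ ((i + p + 3) / 2) + b * y ^ ((i + p + 2) / 2)) := by
  induction i with
  | zero =>
    intro p
    simp only [replicate_zero, nil_append, yz]
    constructor
    · cases p with
      | zero =>
        show y * (4 * 1 + b * 0) ≤ 5 ^ (0 + 1) * (y ^ 1 + b * y ^ 0)
        rw [pow_one, pow_zero]
        nlinarith
      | succ p =>
        show y * (4 * 1 + b * 1) ≤ _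
        have h1 : y ^ 1 ≤ y ^ ((0 + (p + 1) + 2) / 2) := pw hy (by omega)
        have h2 : y ^ 1 ≤ y ^ ((0 + (p + 1) + 1) / 2) := pw hy (by omega)
        rw [pow_one] at h1 h2
        have h3 : b * y ≤ b * y ^ ((0 + (p + 1) + 1) / 2) := Nat.mul_le_mul_left _ h2
        rw [zero_add, pow_one]
        nlinarith
    · have h2 : y ^ 1 ≤ y ^ ((0 + p + 2) / 2) := pw hy (by omega)
      rw [pow_one] at h2
      have h3 : b * y ≤ b * y ^ ((0 + p + 2) / 2) := Nat.mul_le_mul_left _ h2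
      rw [zero_add, pow_one]
      nlinarith [Nat.zero_le (y ^ ((0 + p + 3) / 2))]
  | succ i ih =>
    intro p
    rw [replicate_succ, cons_append]
    obtain ⟨h1, h2⟩ := ih p
    constructor
    · show y * (4 * (yz (replicate i y ++ [b]) (p + 1)).2 + y * (yz (replicate i y ++ [b]) p).1) ≤ _
      have e1 : (i + 1 + p + 2) / 2 = (i + p + 3) / 2 := by congr 1; ring
      have e2 : (i + 1 + p + 1) / 2 = (i + p + 2) / 2 := by congr 1; ring
      rw [e1, e2]
      cases p with
      | zero =>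
        rw [yz_zero]
        have e3 : 5 ^ (i + 1 + 1) * (y ^ ((i + 0 + 3) / 2) + b * y ^ ((i + 0 + 2) / 2)) =
          5 * (5 ^ (i + 1) * (y ^ ((i + 0 + 3) / 2) + b * y ^ ((i + 0 + 2) / 2))) := by ring
        rw [e3]
        nlinarith
      | succ p =>
        obtain ⟨h3, _⟩ := ih p
        have h4 : y * (y * (yz (replicate i y ++ [b]) (p + 1)).1) ≤
            5 ^ (i + 1) * (y ^ ((i + (p + 1) + 3) / 2) + b * y ^ ((i + (p + 1) + 2) / 2)) := by
          calc y * (y * (yz (replicate i y ++ [b]) (p + 1)).1)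
              ≤ y * (5 ^ (i + 1) * (y ^ ((i + p + 2) / 2) + b * y ^ ((i + p + 1) / 2))) :=
                Nat.mul_le_mul_left _ h3
            _ = 5 ^ (i + 1) * (y ^ ((i + p + 2) / 2 + 1) + b * y ^ ((i + p + 1) / 2 + 1)) := by
                ring
            _ = _ := by
                have e3 : (i + p + 2) / 2 + 1 = (i + (p + 1) + 3) / 2 := by omega
                have e4 : (i + p + 1) / 2 + 1 = (i + (p + 1) + 2) / 2 := by omega
                rw [e3, e4]
        have e3 : 5 ^ (i + 1 + 1) *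
            (y ^ ((i + (p + 1) + 3) / 2) + b * y ^ ((i + (p + 1) + 2) / 2)) =
          5 * (5 ^ (i + 1) *
            (y ^ ((i + (p + 1) + 3) / 2) + b * y ^ ((i + (p + 1) + 2) / 2))) := by ring
        rw [e3]
        nlinarith
    · show y * (y * (yz (replicate i y ++ [b]) (p + 1)).1) ≤ _
      calc y * (y * (yz (replicate i y ++ [b]) (p + 1)).1)
          ≤ y * (5 ^ (i + 1) * (y ^ ((i + p + 2) / 2) + b * y ^ ((i + p + 1) / 2))) :=
            Nat.mul_le_mul_left _ h1
        _ = 5 ^ (i + 1) * (y ^ ((i + p + 2) / 2 + 1) + b * y ^ ((i + p + 1) / 2 + 1)) := by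
            ring
        _ ≤ _ := by
            have e3 : (i + p + 2) / 2 + 1 = (i + 1 + p + 3) / 2 := by omega
            have e4 : (i + p + 1) / 2 + 1 = (i + 1 + p + 2) / 2 := by omega
            rw [e3, e4]
            exact Nat.mul_le_mul_right _ (Nat.pow_le_pow_right (by norm_num) (by omega))

theorem xc_rep2 (p b i : ℕ) : y * xc (p + 1) (replicate i y ++ [b]) ≤
    5 ^ (i + 1) * (y ^ ((i + p + 3) / 2) + b * y ^ ((i + p + 2) / 2)) := by
  induction i with
  | zero =>
    show y * (4 * 1 + b * 1) ≤ _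
    have h1 : y ^ 1 ≤ y ^ ((0 + p + 3) / 2) := pw hy (by omega)
    have h2 : y ^ 1 ≤ y ^ ((0 + p + 2) / 2) := pw hy (by omega)
    rw [pow_one] at h1 h2
    have h3 : b * y ≤ b * y ^ ((0 + p + 2) / 2) := Nat.mul_le_mul_left _ h2
    rw [zero_add, pow_one]
    nlinarith
  | succ i ih =>
    rw [replicate_succ, cons_append]
    show y * (4 * xc (p + 1) (replicate i y ++ [b]) +
      y * (yz (replicate i y ++ [b]) (p + 1)).1) ≤ _
    obtain ⟨h1, _⟩ := yz_rep2 hy b i p
    have e3 : (i + p + 2) / 2 + 1 = (i + 1 + p + 3) / 2 := by omega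
    have e4 : (i + p + 1) / 2 + 1 = (i + 1 + p + 2) / 2 := by omega
    have h2 : y * (y * (yz (replicate i y ++ [b]) (p + 1)).1) ≤
        5 ^ (i + 1) * (y ^ ((i + 1 + p + 3) / 2) + b * y ^ ((i + 1 + p + 2) / 2)) := by
      calc y * (y * (yz (replicate i y ++ [b]) (p + 1)).1)
          ≤ y * (5 ^ (i + 1) * (y ^ ((i + p + 2) / 2) + b * y ^ ((i + p + 1) / 2))) :=
            Nat.mul_le_mul_left _ h1
        _ = 5 ^ (i + 1) * (y ^ ((i + p + 2) / 2 + 1) + b * y ^ ((i + p + 1) / 2 + 1)) := by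
            ring
        _ = _ := by rw [e3, e4]
    have h3 : 5 ^ (i + 1) * (y ^ ((i + p + 3) / 2) + b * y ^ ((i + p + 2) / 2)) ≤
        5 ^ (i + 1) * (y ^ ((i + 1 + p + 3) / 2) + b * y ^ ((i + 1 + p + 2) / 2)) := by
      apply Nat.mul_le_mul_left
      exact Nat.add_le_add (pw hy (by omega)) (Nat.mul_le_mul_left _ (pw hy (by omega)))
    have e5 : 5 ^ (i + 1 + 1) * (y ^ ((i + 1 + p + 3) / 2) + b * y ^ ((i + 1 + p + 2) / 2)) =
      5 * (5 ^ (i + 1) * (y ^ ((i + 1 + p + 3) / 2) + b * y ^ ((i + 1 + p + 2) / 2))) := by ring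
    rw [e5]
    nlinarith

theorem LX_rep2 (p t b L L' : ℕ) (hL : L = lgn y) (hL' : 1 ≤ L') (hLy : L ≤ y) (hb : b ≤ 2 * y)
    (hLb : L * b ≤ 2 * (y * L')) (i : ℕ) : i ≤ p + 1 + 2 * t →
    y * LX (p + 1) (replicate i y ++ [b]) ≤ 5 ^ (i + 3) * (L' * y ^ (p + 2 + t)) := by
  have hL2 : 2 ≤ L := by rw [hL]; exact two_le_lgn hy
  obtain ⟨U, hU⟩ : ∃ U, U = y ^ (p + 1 + t) := ⟨_, rfl⟩
  have e0 : y ^ (p + 2 + t) = y * U := by rw [hU]; ring
  rw [e0]
  induction i with
  | zero =>
    intro _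
    show y * (1 + (1 * (1 + 4 * lgn b) + b * 1)) ≤ _
    have h1 : lgn b ≤ b + 1 := by
      have h2 : Nat.log 2 (b + 1) < b + 1 := Nat.log_lt_self 2 (by omega)
      unfold lgn; omega
    have h2 : y ^ 1 ≤ U := by rw [hU]; exact pw hy (by omega)
    rw [pow_one] at h2
    have h3 : 1 + (1 * (1 + 4 * lgn b) + b * 1) ≤ 16 * y := by omega
    calc y * (1 + (1 * (1 + 4 * lgn b) + b * 1)) ≤ y * (16 * y) := Nat.mul_le_mul_left _ h3
      _ ≤ y * (16 * U) := Nat.mul_le_mul_left _ (Nat.mul_le_mul_left _ h2)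
      _ = 16 * (1 * (y * U)) := by ring
      _ ≤ 5 ^ (0 + 3) * (L' * (y * U)) := by
          apply Nat.mul_le_mul (by norm_num)
          exact Nat.mul_le_mul_right _ hL'
  | succ i ih =>
    intro hi
    have ih := ih (by omega)
    rw [replicate_succ, cons_append]
    show y * (LX (p + 1) (replicate i y ++ [b]) + (xc (p + 1) (replicate i y ++ [b]) *
      (1 + 4 * lgn y) + y * (yz (replicate i y ++ [b]) (p + 1)).1)) ≤ _
    rw [← hL]
    obtain ⟨h1, _⟩ := yz_rep2 hy b i p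
    have h2 := xc_rep2 hy p b i
    have h3 : y ^ ((i + p + 3) / 2) ≤ U := by rw [hU]; exact pw hy (by omega)
    have h4 : y ^ ((i + p + 2) / 2) ≤ U := by rw [hU]; exact pw hy (by omega)
    have h5 : y ^ ((i + p + 1) / 2 + 1) ≤ U := by rw [hU]; exact pw hy (by omega)
    have h6 : y ^ ((i + p + 2) / 2 + 1) ≤ y * U := by
      rw [pow_succ, mul_comm y U]
      exact Nat.mul_le_mul_right _ h4
    have hx : y * xc (p + 1) (replicate i y ++ [b]) ≤ 5 ^ (i + 1) * (U + b * U) := by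
      refine h2.trans (Nat.mul_le_mul_left _ ?_)
      exact Nat.add_le_add h3 (Nat.mul_le_mul_left _ h4)
    have hx2 : y * xc (p + 1) (replicate i y ++ [b]) * (1 + 4 * L) ≤
        15 * (5 ^ (i + 1) * (L' * (y * U))) := by
      calc y * xc (p + 1) (replicate i y ++ [b]) * (1 + 4 * L)
          ≤ (5 ^ (i + 1) * (U + b * U)) * (5 * L) := Nat.mul_le_mul hx (by omega)
        _ = 5 * (5 ^ (i + 1) * (L * U + (L * b) * U)) := by ring
        _ ≤ 5 * (5 ^ (i + 1) * (L' * (y * U) + (2 * (y * L')) * U)) := by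
            apply Nat.mul_le_mul_left
            apply Nat.mul_le_mul_left
            apply Nat.add_le_add
            · calc L * U ≤ y * U := Nat.mul_le_mul_right _ hLy
                _ = 1 * (y * U) := by ring
                _ ≤ L' * (y * U) := Nat.mul_le_mul_right _ hL'
            · exact Nat.mul_le_mul_right _ hLb
        _ = 15 * (5 ^ (i + 1) * (L' * (y * U))) := by ring
    have hy2 : y * (y * (yz (replicate i y ++ [b]) (p + 1)).1) ≤
        3 * (5 ^ (i + 1) * (L' * (y * U))) := by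
      calc y * (y * (yz (replicate i y ++ [b]) (p + 1)).1)
          ≤ y * (5 ^ (i + 1) * (y ^ ((i + p + 2) / 2) + b * y ^ ((i + p + 1) / 2))) :=
            Nat.mul_le_mul_left _ h1
        _ = 5 ^ (i + 1) * (y ^ ((i + p + 2) / 2 + 1) + b * y ^ ((i + p + 1) / 2 + 1)) := by
            ring
        _ ≤ 5 ^ (i + 1) * (y * U + (2 * y) * U) := by
            apply Nat.mul_le_mul_left
            exact Nat.add_le_add h6 (Nat.mul_le_mul hb h5)
        _ = 3 * (5 ^ (i + 1) * (1 * (y * U))) := by ring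
        _ ≤ 3 * (5 ^ (i + 1) * (L' * (y * U))) := by
            apply Nat.mul_le_mul_left
            apply Nat.mul_le_mul_left
            exact Nat.mul_le_mul_right _ hL'
    have e1 : y * (LX (p + 1) (replicate i y ++ [b]) + (xc (p + 1) (replicate i y ++ [b]) *
      (1 + 4 * L) + y * (yz (replicate i y ++ [b]) (p + 1)).1)) =
      y * LX (p + 1) (replicate i y ++ [b]) + (y * xc (p + 1) (replicate i y ++ [b]) *
      (1 + 4 * L) + y * (y * (yz (replicate i y ++ [b]) (p + 1)).1)) := by ring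
    rw [e1]
    have e2 : 5 ^ (i + 1 + 3) * (L' * (y * U)) = 125 * (5 ^ (i + 1) * (L' * (y * U))) := by ring
    have e3 : 5 ^ (i + 3) * (L' * (y * U)) = 25 * (5 ^ (i + 1) * (L' * (y * U))) := by ring
    rw [e2]
    rw [e3] at ih
    omega

/-- **The sizes, two groups.** -/
theorem sizes_two (p t b L L' : ℕ) (hL : L = lgn y) (hL' : L' = lgn L) (hLy : L ≤ y)
    (hb : b ≤ 2 * y) (hLb : L * b ≤ 2 * (y * L')) :
    LX (p + 1) (L :: (replicate (p + 1 + 2 * t) y ++ [b])) ≤
      7 ^ (p + 2 * t + 5) * (L' * y ^ (p + 1 + t)) := by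
  have hL2 : 2 ≤ L := by rw [hL]; exact two_le_lgn hy
  have hL'2 : 2 ≤ L' := by rw [hL']; exact two_le_lgn (by omega)
  obtain ⟨I, hI⟩ : ∃ I, I = p + 1 + 2 * t := ⟨_, rfl⟩
  rw [← hI]
  obtain ⟨U, hU⟩ : ∃ U, U = y ^ (p + 1 + t) := ⟨_, rfl⟩
  have h0 := LX_rep2 hy p t b L L' hL (by omega) hLy hb hLb I (by omega)
  have e0 : y ^ (p + 2 + t) = y * U := by rw [hU]; ring
  rw [e0] at h0
  obtain ⟨h1, _⟩ := yz_rep2 hy b I p
  have h2 := xc_rep2 hy p b I
  have e1 : (I + p + 3) / 2 = p + 1 + t + 1 := by omega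
  have e2 : (I + p + 2) / 2 = p + 1 + t := by omega
  have e3 : (I + p + 1) / 2 = p + 1 + t := by omega
  have e7 : y ^ (p + 1 + t + 1) = U * y := by rw [hU]; ring
  rw [e1, e2, e7, ← hU] at h2
  rw [e2, e3, ← hU] at h1
  rw [← hU]
  have key : y * LX (p + 1) (L :: (replicate I y ++ [b])) ≤
      y * (7 ^ (p + 2 * t + 5) * (L' * U)) := by
    show y * (LX (p + 1) (replicate I y ++ [b]) + (xc (p + 1) (replicate I y ++ [b]) *
      (1 + 4 * lgn L) + L * (yz (replicate I y ++ [b]) (p + 1)).1)) ≤ _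
    rw [← hL']
    have hx2 : y * xc (p + 1) (replicate I y ++ [b]) * (1 + 4 * L') ≤
        15 * (5 ^ (I + 1) * (L' * (y * U))) := by
      calc y * xc (p + 1) (replicate I y ++ [b]) * (1 + 4 * L')
          ≤ (5 ^ (I + 1) * (U * y + b * U)) * (5 * L') := Nat.mul_le_mul h2 (by omega)
        _ ≤ (5 ^ (I + 1) * (U * y + (2 * y) * U)) * (5 * L') := by
            apply Nat.mul_le_mul_right
            apply Nat.mul_le_mul_left
            exact Nat.add_le_add_left (Nat.mul_le_mul_right _ hb) _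
        _ = 15 * (5 ^ (I + 1) * (L' * (y * U))) := by ring
    have hy2 : L * (y * (yz (replicate I y ++ [b]) (p + 1)).1) ≤
        3 * (5 ^ (I + 1) * (L' * (y * U))) := by
      calc L * (y * (yz (replicate I y ++ [b]) (p + 1)).1)
          ≤ L * (5 ^ (I + 1) * (U + b * U)) := Nat.mul_le_mul_left _ h1
        _ = 5 ^ (I + 1) * (L * U + (L * b) * U) := by ring
        _ ≤ 5 ^ (I + 1) * (L' * (y * U) + (2 * (y * L')) * U) := by
            apply Nat.mul_le_mul_left
            apply Nat.add_le_add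
            · calc L * U ≤ y * U := Nat.mul_le_mul_right _ hLy
                _ = 1 * (y * U) := by ring
                _ ≤ L' * (y * U) := Nat.mul_le_mul_right _ (by omega)
            · exact Nat.mul_le_mul_right _ hLb
        _ = 3 * (5 ^ (I + 1) * (L' * (y * U))) := by ring
    have e4 : y * (LX (p + 1) (replicate I y ++ [b]) + (xc (p + 1) (replicate I y ++ [b]) *
      (1 + 4 * L') + L * (yz (replicate I y ++ [b]) (p + 1)).1)) =
      y * LX (p + 1) (replicate I y ++ [b]) + (y * xc (p + 1) (replicate I y ++ [b]) *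
      (1 + 4 * L') + L * (y * (yz (replicate I y ++ [b]) (p + 1)).1)) := by ring
    rw [e4]
    have e5 : 5 ^ (I + 3) * (L' * (y * U)) = 25 * (5 ^ (I + 1) * (L' * (y * U))) := by ring
    rw [e5] at h0
    have h6 : 43 * (5 ^ (I + 1) * (L' * (y * U))) ≤ y * (7 ^ (p + 2 * t + 5) * (L' * U)) := by
      have e6 : y * (7 ^ (p + 2 * t + 5) * (L' * U)) = 343 * (7 ^ (I + 1) * (L' * (y * U))) := by
        rw [hI]; ring
      rw [e6]
      apply Nat.mul_le_mul (by norm_num)
      exact Nat.mul_le_mul_right _ (Nat.pow_le_pow_left (by norm_num) _)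
    omega
  exact Nat.le_of_mul_le_mul_left key (by omega)

end

/-- **The sizes.** -/
theorem exists_sizes {a t g : ℕ} (ha : 1 ≤ a) (hg : g = 1 ∨ g = 2) {y : ℕ} (hy : 2 ≤ y) :
    ∃ bs : List ℕ, bs.length = a + 2 * t + g ∧ (∀ b ∈ bs, 1 ≤ b) ∧
      gg y g * y ^ (a + 2 * t + 1) ≤ bs.prod ∧
      LX a bs ≤ 7 ^ (a + 2 * t + 4) * (gg y g * y ^ (a + t)) := by
  obtain ⟨p, rfl⟩ : ∃ p, a = p + 1 := ⟨a - 1, by omega⟩
  have hL2 : 2 ≤ lgn y := two_le_lgn (by omega)
  have hLy : lgn y ≤ y := lgn_le hy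
  rcases hg with rfl | rfl
  · refine ⟨y * lgn y :: replicate (p + 1 + 2 * t) y, by simp, ?_, ?_, ?_⟩
    · intro b hb
      rcases List.mem_cons.1 hb with rfl | hb
      · nlinarith
      · rw [List.eq_of_mem_replicate hb]; omega
    · rw [List.prod_cons, List.prod_replicate]
      have e : gg y 1 = lgn y := rfl
      rw [e]
      exact le_of_eq (by ring)
    · refine (sizes_one (by omega) p t hy).trans ?_
      have e : gg y 1 = lgn y := rfl
      rw [e]
      exact Nat.mul_le_mul_right _ (Nat.pow_le_pow_right (by norm_num) (by omega))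
  · obtain ⟨L, hL⟩ : ∃ L, L = lgn y := ⟨_, rfl⟩
    obtain ⟨L', hL'⟩ : ∃ L', L' = lgn L := ⟨_, rfl⟩
    have hL'2 : 2 ≤ L' := by rw [hL']; exact two_le_lgn (by omega)
    have hL'L : L' ≤ L := by rw [hL']; exact lgn_le (by omega)
    have eg : gg y 2 = L' := by rw [hL', hL]; rfl
    obtain ⟨b, hb⟩ : ∃ b, b = y * L' / L + 1 := ⟨_, rfl⟩
    have hb1 : y * L' ≤ L * b := by
      rw [hb]
      have := Nat.lt_div_mul_add (a := y * L') (b := L) (by omega)
      nlinarith
    have hb2 : L * b ≤ 2 * (y * L') := by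
      rw [hb]
      have h1 := Nat.div_mul_le_self (y * L') L
      have h2 : L ≤ y * L' := by nlinarith
      nlinarith
    have hb3 : b ≤ 2 * y := by
      have h1 : L * b ≤ L * (2 * y) := by nlinarith
      exact Nat.le_of_mul_le_mul_left h1 (by omega)
    refine ⟨L :: (replicate (p + 1 + 2 * t) y ++ [b]), by simp, ?_, ?_, ?_⟩
    · intro c hc
      rcases List.mem_cons.1 hc with rfl | hc
      · omega
      · rcases List.mem_append.1 hc with hc | hc
        · rw [List.eq_of_mem_replicate hc]; omega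
        · rw [List.mem_singleton] at hc
          rw [hc, hb]; exact Nat.le_add_left 1 _
    · rw [List.prod_cons, List.prod_append, List.prod_replicate, List.prod_singleton, eg]
      calc L' * y ^ (p + 1 + 2 * t + 1) = (y * L') * y ^ (p + 1 + 2 * t) := by ring
        _ ≤ (L * b) * y ^ (p + 1 + 2 * t) := Nat.mul_le_mul_right _ hb1
        _ = L * (y ^ (p + 1 + 2 * t) * b) := by ring
    · rw [eg]
      refine (sizes_two (by omega) p t b L L' hL hL' (by omega) hb3 hb2).trans ?_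
      exact Nat.mul_le_mul_right _ (Nat.pow_le_pow_right (by norm_num) (by omega))

end Pool.Agent.H595K
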