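import Mathlib
import Pool.Agent.H595K.WUp

/-!
# The sharp upper bound for all pairs
-/

namespace Pool.Agent.H595K

open Lb

theorem Lg_le_lgn {x : ℕ} (hx : 1 ≤ x) : Lg x ≤ 2 * (lgn x : ℝ) := by
  have hxr : (1 : ℝ) ≤ x := by exact_mod_cast hx
  have h1 := lt_lgn x
  have h2 : (x : ℝ) ≤ 2 ^ lgn x := by
    have : (x : ℝ) + 1 < 2 ^ lgn x := by exact_mod_cast h1
    linarith
  have h3 := Real.log_le_log (by linarith) h2
  rw [Real.log_pow] at h3
  have h4 := Real.log_two_lt_d9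
  have h5 : (2 : ℝ) ≤ lgn x := by exact_mod_cast two_le_lgn hx
  have h6 : (lgn x : ℝ) * Real.log 2 ≤ lgn x := by nlinarith
  unfold Lg
  linarith

theorem ell_le_gg {y : ℕ} (hy : 2 ≤ y) (i : ℕ) : ell i y ≤ 2 ^ i * (gg y i : ℝ) := by
  have hyr : (1 : ℝ) ≤ y := by
    have : 1 ≤ y := by omega
    exact_mod_cast this
  induction i with
  | zero => simp [gg_zero, ell_zero]
  | succ i ih =>
    have h1 : (1 : ℝ) ≤ gg y i := by
      have := two_le_gg hy i
      have : 1 ≤ gg y i := by omega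
      exact_mod_cast this
    have e : ell (i + 1) (y : ℝ) = Lg (ell i y) := Function.iterate_succ_apply' _ _ _
    rw [e, gg_succ]
    have h4 : (1 : ℝ) ≤ 2 ^ i := one_le_pow₀ (by norm_num)
    calc Lg (ell i y) ≤ Lg (2 ^ i * (gg y i : ℝ)) := Lg_mono (one_le_ell i hyr) ih
      _ ≤ 2 ^ i * Lg (gg y i) := Lg_mul h4 h1
      _ ≤ 2 ^ i * (2 * (lgn (gg y i) : ℝ)) := by
          apply mul_le_mul_of_nonneg_left _ (by positivity)
          exact Lg_le_lgn (by have := two_le_gg hy i; omega)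
      _ = 2 ^ (i + 1) * (lgn (gg y i) : ℝ) := by ring

/-- **The sharp upper bound.** -/
theorem upper_full {k j a t g : ℕ} (ha : 1 ≤ a) (hg : g = 1 ∨ g = 2)
    (hj : j ≤ 3 * a + 2) (hk : 3 * (a + 2 * t + g) ≤ k) :
    ∃ C : ℝ, 0 < C ∧ ∀ n : ℕ, 3 ≤ n → (f k j n : ℝ) ≤
      Real.exp (C * (Real.log n ^ (((a + t : ℕ) : ℝ) / ((a + 2 * t + 1 : ℕ) : ℝ)) *
        ell g (Real.log n) ^ (((t + 1 : ℕ) : ℝ) / ((a + 2 * t + 1 : ℕ) : ℝ)))) := by
  obtain ⟨c0, hc0⟩ : ∃ c0 : ℕ, c0 = a + 2 * t + 1 := ⟨_, rfl⟩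
  obtain ⟨a0, ha0⟩ : ∃ a0 : ℕ, a0 = a + t := ⟨_, rfl⟩
  obtain ⟨b0, hb0⟩ : ∃ b0 : ℕ, b0 = t + 1 := ⟨_, rfl⟩
  rw [← hc0, ← ha0, ← hb0]
  have habc : a0 + b0 = c0 := by omega
  have hc1 : 1 ≤ c0 := by omega
  have hc1r : (1 : ℝ) ≤ c0 := by exact_mod_cast hc1
  have hcp : (0 : ℝ) < c0 := by linarith
  have hg2 : g ≤ 2 := by omega
  obtain ⟨K, hK⟩ : ∃ K : ℝ, K = 24 * c0 := ⟨_, rfl⟩
  have hK24 : 24 ≤ K := by rw [hK]; linarith
  obtain ⟨Q, hQ⟩ : ∃ Q : ℝ, Q = 7 ^ (a + 2 * t + 4) * 2 ^ g * (K + 1) ^ (a0 + 1) := ⟨_, rfl⟩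
  have hQp : 0 < Q := by rw [hQ]; positivity
  refine ⟨2 * Q + 2, by positivity, ?_⟩
  intro n hn
  have hn3 : (3 : ℝ) ≤ n := by exact_mod_cast hn
  have hnpos : (0 : ℝ) < n := by linarith
  obtain ⟨V, hV⟩ : ∃ V : ℝ, V = Real.log n := ⟨_, rfl⟩
  rw [← hV]
  have hV1 : 1 ≤ V := by
    rw [hV, Real.le_log_iff_exp_le hnpos]
    have := Real.exp_one_lt_d9
    linarith
  have hVp : 0 < V := by linarith
  have hell1 : 1 ≤ ell g V := one_le_ell g hV1
  have hellp : 0 < ell g V := by linarith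
  have hellV : ell g V ≤ V := ell_le g hV1
  have hellLg : ell g V ≤ Lg V := by
    rcases hg with rfl | rfl
    · exact le_rfl
    · exact ell_succ_le 1 hV1
  obtain ⟨x, hx⟩ : ∃ x : ℝ, x = V / ell g V := ⟨_, rfl⟩
  have hx1 : 1 ≤ x := by rw [hx, le_div_iff₀ hellp]; linarith
  have hxp : 0 < x := by linarith
  have hxV : x ≤ V := by rw [hx]; exact div_le_self hVp.le hell1
  obtain ⟨r, hr⟩ : ∃ r : ℝ, r = x ^ ((1 : ℝ) / c0) := ⟨_, rfl⟩
  have hr1 : 1 ≤ r := by rw [hr]; exact Real.one_le_rpow hx1 (by positivity)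
  have hrp : 0 < r := by linarith
  have hrx : r ≤ x := by
    rw [hr]
    calc x ^ ((1 : ℝ) / c0) ≤ x ^ (1 : ℝ) := by
          apply Real.rpow_le_rpow_of_exponent_le hx1
          rw [div_le_one hcp]; exact hc1r
      _ = x := Real.rpow_one x
  have hrc : r ^ c0 = x := by
    rw [hr, ← Real.rpow_natCast, ← Real.rpow_mul hxp.le, one_div, inv_mul_cancel₀ hcp.ne',
      Real.rpow_one]
  obtain ⟨y, hy⟩ : ∃ y : ℕ, y = ⌈K * r⌉₊ := ⟨_, rfl⟩
  have hy1 : K * r ≤ y := by rw [hy]; exact Nat.le_ceil _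
  have hy2 : (y : ℝ) ≤ (K + 1) * r := by
    have := (Nat.ceil_lt_add_one (show 0 ≤ K * r by positivity)).le
    rw [← hy] at this
    linarith
  have hy24 : (24 : ℝ) ≤ y := by nlinarith
  have hyN : 2 ≤ y := by
    have : (2 : ℝ) ≤ y := by linarith
    exact_mod_cast this
  have hyr : (1 : ℝ) ≤ y := by linarith
  have hyp : (0 : ℝ) < y := by linarith
  -- comparison of the iterated logarithms
  have hcmp : ell g V ≤ 2 * c0 * ell g y := by
    have h1 : Real.sqrt V / 2 ≤ x := by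
      have h2 := hellLg.trans (Lg_le_sqrt hV1)
      have h3 : 0 < Real.sqrt V := Real.sqrt_pos.2 hVp
      rw [hx, div_le_div_iff₀ (by norm_num) hellp]
      have e : Real.sqrt V * Real.sqrt V = V := Real.mul_self_sqrt hVp.le
      nlinarith
    have h2 : Real.log V / 2 - Real.log 2 ≤ Real.log x := by
      have h3 : 0 < Real.sqrt V := Real.sqrt_pos.2 hVp
      have h4 := Real.log_le_log (by positivity) h1
      rw [Real.log_div h3.ne' (by norm_num), Real.log_sqrt hVp.le] at h4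
      exact h4
    have h3 : Real.log K + 1 / c0 * Real.log x ≤ Real.log y := by
      have h4 := Real.log_le_log (by positivity) hy1
      rw [Real.log_mul (by linarith) hrp.ne', hr, Real.log_rpow hxp] at h4
      exact h4
    have h4 : Real.log 2 ≤ Real.log K := Real.log_le_log (by norm_num) (by linarith)
    have h5 : Real.log V ≤ 2 * c0 * Real.log y := by
      have h6 := mul_le_mul_of_nonneg_left h3 (show 0 ≤ 2 * (c0 : ℝ) by positivity)
      have e : 2 * (c0 : ℝ) * (Real.log K + 1 / c0 * Real.log x) =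
          2 * c0 * Real.log K + 2 * Real.log x := by field_simp
      rw [e] at h6
      have h7 : 2 * Real.log 2 ≤ 2 * c0 * Real.log K := by
        have h8 : 0 < Real.log 2 := Real.log_pos (by norm_num)
        nlinarith
      linarith
    have h6 : Lg V ≤ 2 * c0 * Lg y := by unfold Lg; nlinarith
    obtain ⟨g', rfl⟩ : ∃ g', g = g' + 1 := ⟨g - 1, by omega⟩
    rw [ell_succ, ell_succ]
    exact (ell_mono g' (one_le_Lg hV1) h6).trans (ell_mul g' (by linarith) (one_le_Lg hyr))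
  have h2g : (2 : ℝ) ^ g ≤ 4 := by
    have : (2 : ℝ) ^ g ≤ 2 ^ 2 := pow_le_pow_right₀ (by norm_num) hg2
    linarith
  have h2gp : (0 : ℝ) < 2 ^ g := by positivity
  -- the product
  obtain ⟨D, hD⟩ : ∃ D : ℕ, D = Nat.log 2 n + 1 := ⟨_, rfl⟩
  have hDn : n ≤ 2 ^ D := by rw [hD]; exact (Nat.lt_pow_succ_log_self (by norm_num) n).le
  have hDV : (D : ℝ) ≤ 3 * V := by
    have h1 : (2 : ℕ) ^ Nat.log 2 n ≤ n := Nat.pow_log_le_self 2 (by omega)
    have h2 : Real.log ((2 : ℝ) ^ Nat.log 2 n) ≤ V := by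
      rw [hV]
      exact Real.log_le_log (by positivity) (by exact_mod_cast h1)
    rw [Real.log_pow] at h2
    have h3 := Real.log_two_gt_d9
    have h4 : (0 : ℝ) ≤ (Nat.log 2 n : ℕ) := Nat.cast_nonneg _
    rw [hD]; push_cast
    nlinarith
  have hprod : D ≤ gg y g * y ^ c0 := by
    have h1 := ell_le_gg hyN g
    have h2 : K ^ c0 * x ≤ (y : ℝ) ^ c0 := by
      rw [← hrc, ← mul_pow]
      exact pow_le_pow_left₀ (by positivity) hy1 _
    have h3 : K ≤ K ^ c0 := le_self_pow₀ (by linarith) (by omega)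
    have h4 : K * x ≤ (y : ℝ) ^ c0 := le_trans (mul_le_mul_of_nonneg_right h3 hxp.le) h2
    have h5 : ell g V ≤ 2 * c0 * (4 * (gg y g : ℝ)) := by
      refine hcmp.trans ?_
      apply mul_le_mul_of_nonneg_left _ (by positivity)
      exact h1.trans (mul_le_mul_of_nonneg_right h2g (Nat.cast_nonneg _))
    have h6 : 3 * V ≤ (gg y g : ℝ) * y ^ c0 := by
      have e : V = x * ell g V := by rw [hx]; field_simp
      have h7 : (gg y g : ℝ) * (K * x) ≤ (gg y g : ℝ) * y ^ c0 :=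
        mul_le_mul_of_nonneg_left h4 (Nat.cast_nonneg _)
      have h8 : 3 * (x * ell g V) ≤ 3 * (x * (2 * c0 * (4 * (gg y g : ℝ)))) := by
        apply mul_le_mul_of_nonneg_left _ (by norm_num)
        exact mul_le_mul_of_nonneg_left h5 hxp.le
      have e2 : (gg y g : ℝ) * (K * x) = 3 * (x * (2 * c0 * (4 * (gg y g : ℝ)))) := by
        rw [hK]; ring
      rw [e2] at h7
      calc 3 * V = 3 * (x * ell g V) := by rw [← e]
        _ ≤ _ := h8
        _ ≤ _ := h7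
    have h7 : (D : ℝ) ≤ (gg y g : ℝ) * y ^ c0 := hDV.trans h6
    exact_mod_cast h7
  obtain ⟨bs, q1, q2, q3, q4⟩ := exists_sizes (a := a) (t := t) (g := g) ha hg hyN
  rw [← hc0] at q3
  rw [← ha0] at q4
  have hf := f_le_LX (j := j) (a := a) (k := k) (n := n) (bs := bs) hj (by rw [q1]; omega) q2
    (by rw [q1]; exact hk) hn
    (hDn.trans (Nat.pow_le_pow_right (by norm_num) (hprod.trans q3)))
  -- the bound
  obtain ⟨S, hS⟩ : ∃ S : ℝ, S = V ^ ((a0 : ℝ) / c0) * ell g V ^ ((b0 : ℝ) / c0) := ⟨_, rfl⟩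
  rw [← hS]
  have hS1 : 1 ≤ S := by
    rw [hS]
    have h1 : 1 ≤ V ^ ((a0 : ℝ) / c0) := Real.one_le_rpow hV1 (by positivity)
    have h2 : 1 ≤ ell g V ^ ((b0 : ℝ) / c0) := Real.one_le_rpow hell1 (by positivity)
    nlinarith
  have hSr : ell g V * r ^ a0 = S := by
    have e1 : r ^ a0 = V ^ ((a0 : ℝ) / c0) / ell g V ^ ((a0 : ℝ) / c0) := by
      rw [hr, ← Real.rpow_natCast, ← Real.rpow_mul hxp.le, hx,
        ← Real.div_rpow hVp.le hellp.le]
      congr 1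
      ring
    have e2 : ell g V ^ ((b0 : ℝ) / c0) * ell g V ^ ((a0 : ℝ) / c0) = ell g V := by
      rw [← Real.rpow_add hellp]
      have : (b0 : ℝ) / c0 + (a0 : ℝ) / c0 = 1 := by
        rw [← add_div, div_eq_one_iff_eq hcp.ne']
        rw [← habc]; push_cast; ring
      rw [this, Real.rpow_one]
    have h3 : 0 < ell g V ^ ((a0 : ℝ) / c0) := by positivity
    rw [e1, hS]
    calc ell g V * (V ^ ((a0 : ℝ) / c0) / ell g V ^ ((a0 : ℝ) / c0))
        = (ell g V ^ ((b0 : ℝ) / c0) * ell g V ^ ((a0 : ℝ) / c0)) *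
          (V ^ ((a0 : ℝ) / c0) / ell g V ^ ((a0 : ℝ) / c0)) := by rw [e2]
      _ = V ^ ((a0 : ℝ) / c0) * ell g V ^ ((b0 : ℝ) / c0) := by field_simp
  have hLX : (LX a bs : ℝ) ≤ Q * S := by
    have h1 : (LX a bs : ℝ) ≤ 7 ^ (a + 2 * t + 4) * ((gg y g : ℝ) * y ^ a0) := by
      exact_mod_cast q4
    have h2 := gg_le_ell hyN g
    have h3 : ell g (y : ℝ) ≤ (K + 1) * ell g V := by
      calc ell g (y : ℝ) ≤ ell g ((K + 1) * V) := by
            apply ell_mono g hyr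
            have : (K + 1) * r ≤ (K + 1) * V :=
              mul_le_mul_of_nonneg_left (hrx.trans hxV) (by linarith)
            linarith
        _ ≤ (K + 1) * ell g V := ell_mul g (by linarith) hV1
    have h4 : (gg y g : ℝ) ≤ 2 ^ g * ((K + 1) * ell g V) :=
      h2.trans (mul_le_mul_of_nonneg_left h3 h2gp.le)
    have h5 : (y : ℝ) ^ a0 ≤ (K + 1) ^ a0 * r ^ a0 := by
      rw [← mul_pow]
      exact pow_le_pow_left₀ hyp.le hy2 _
    have h6 : (gg y g : ℝ) * y ^ a0 ≤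
        (2 ^ g * ((K + 1) * ell g V)) * ((K + 1) ^ a0 * r ^ a0) := by
      apply mul_le_mul h4 h5 (by positivity) (by positivity)
    calc (LX a bs : ℝ) ≤ 7 ^ (a + 2 * t + 4) * ((gg y g : ℝ) * y ^ a0) := h1
      _ ≤ 7 ^ (a + 2 * t + 4) * ((2 ^ g * ((K + 1) * ell g V)) * ((K + 1) ^ a0 * r ^ a0)) :=
          mul_le_mul_of_nonneg_left h6 (by positivity)
      _ = Q * (ell g V * r ^ a0) := by rw [hQ]; ring
      _ = Q * S := by rw [hSr]
  have hf' : (f k j n : ℝ) ≤ 2 ^ (LX a bs) * 2 ^ (LX a bs) + 2 := by exact_mod_cast hf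
  have h8 : (2 : ℝ) ^ (LX a bs) = Real.exp ((LX a bs) * Real.log 2) := by
    rw [← Real.exp_log (show (0 : ℝ) < 2 ^ (LX a bs) by positivity), Real.log_pow]
  have h9 : (1 : ℝ) ≤ 2 ^ (LX a bs) := one_le_pow₀ (by norm_num)
  have h10 : (3 : ℝ) ≤ Real.exp 2 := by
    have := Real.add_one_le_exp (2 : ℝ); linarith
  have h11 := Real.log_two_lt_d9
  calc (f k j n : ℝ) ≤ 2 ^ (LX a bs) * 2 ^ (LX a bs) + 2 := hf'
    _ ≤ 2 ^ (LX a bs) * 2 ^ (LX a bs) * 3 := by nlinarith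
    _ ≤ 2 ^ (LX a bs) * 2 ^ (LX a bs) * Real.exp 2 :=
        mul_le_mul_of_nonneg_left h10 (by positivity)
    _ = Real.exp ((LX a bs) * Real.log 2 + (LX a bs) * Real.log 2 + 2) := by
        rw [h8, Real.exp_add, Real.exp_add]
    _ ≤ Real.exp ((2 * Q + 2) * S) := by
        apply Real.exp_le_exp.2
        have h12 : ((LX a bs : ℕ) : ℝ) * Real.log 2 ≤ (LX a bs : ℕ) := by
          have : (0 : ℝ) ≤ (LX a bs : ℕ) := Nat.cast_nonneg _
          nlinarith
        nlinarith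

end Pool.Agent.H595K
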