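import Mathlib
import Pool.Agent.H595K.WNum
import Pool.Agent.H595K.WDefs
import Pool.Agent.H595K.WLow
import Pool.Agent.H595K.SMain
import Pool.Agent.H595K.JUp

/-!
# The order of `log f` for all pairs
-/

namespace Pool.Agent.H595K

open Lb Filter Topology

/-- The order `growth k j x = (log x) ^ A · (log^[r] x) ^ (1 - A)` with `A = expo k j` and
`r = nlog k j`. -/
noncomputable def growth (k j : ℕ) (x : ℝ) : ℝ :=
  Real.log x ^ expo k j * (Real.log^[nlog k j] x) ^ (1 - expo k j)

/-- **The order of `log f` for all pairs.** -/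
theorem full_order {k j : ℕ} (hj : 3 ≤ j) (hjk : j < k) :
    ∃ c C : ℝ, 0 < c ∧ 0 < C ∧ ∀ᶠ n : ℕ in atTop,
      Real.exp (c * growth k j n) ≤ f k j n ∧ (f k j n : ℝ) ≤ Real.exp (C * growth k j n) := by
  have hlogn : Tendsto (fun n : ℕ => Real.log n) atTop atTop :=
    Real.tendsto_log_atTop.comp tendsto_natCast_atTop_atTop
  obtain ⟨a, ha⟩ : ∃ a, a = j / 3 := ⟨_, rfl⟩
  obtain ⟨H, hH⟩ : ∃ H, H = k / 3 := ⟨_, rfl⟩
  by_cases h1 : H = a
  · -- one block
    have hexpo : expo k j = 1 := by
      unfold expo; rw [if_pos (by omega)]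
    obtain ⟨c, hc, hlow⟩ := expo_low2 (k := k) (j := j) hj hjk.le
    refine ⟨c, 1, hc, one_pos, ?_⟩
    filter_upwards [eventually_ge_atTop 3] with n hn
    have hlow := hlow n hn
    have e : growth k j n = Real.log n := by
      unfold growth
      rw [hexpo, sub_self, Real.rpow_zero, Real.rpow_one, mul_one]
    rw [hexpo, Real.rpow_one] at hlow
    rw [e]
    refine ⟨hlow, ?_⟩
    have hnp : (0 : ℝ) < n := by
      have : 0 < n := by omega
      exact_mod_cast this
    rw [one_mul, Real.exp_log hnp]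
    exact_mod_cast f_le (k := k) (j := j) (by omega) hn
  obtain ⟨t, ht⟩ : ∃ t, t = (H - a - 1) / 2 := ⟨_, rfl⟩
  have hexpo : expo k j = ((a + t : ℕ) : ℝ) / ((a + 2 * t + 1 : ℕ) : ℝ) := by
    unfold expo
    rw [if_neg (by omega), ← ha, ← hH, ← ht]
  by_cases h2 : a = 1
  · -- the pairs with `j ≤ 5`
    have hexpo2 : expo k j = 1 / 2 := by
      rw [hexpo, h2]
      have : (0 : ℝ) < ((1 + 2 * t + 1 : ℕ) : ℝ) := by positivity
      rw [div_eq_div_iff this.ne' (by norm_num)]
      push_cast; ring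
    obtain ⟨c, C, hc, hC, hsh⟩ := sharp_one (k := k) (j := j) hj (by omega) hjk
    refine ⟨c, C, hc, hC, ?_⟩
    have h3 := ((tendsto_iter (k / 3)).comp tendsto_natCast_atTop_atTop).eventually_ge_atTop 0
    filter_upwards [hsh, h3, hlogn.eventually_ge_atTop 0] with n hn hn3 hn4
    simp only [Function.comp] at hn3
    have e : growth k j n = Real.sqrt (Real.log n * Real.log^[k / 3] n) := by
      have hlev : nlog k j = k / 3 := by unfold nlog; rw [if_pos (by omega)]
      unfold growth
      rw [hexpo2, hlev, Real.sqrt_eq_rpow, Real.mul_rpow hn4 hn3]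
      norm_num
    rw [e]
    exact hn
  -- the other pairs
  obtain ⟨g, hg⟩ : ∃ g, g = if (H - a) % 2 = 1 then 1 else 2 := ⟨_, rfl⟩
  have hg12 : g = 1 ∨ g = 2 := by
    rw [hg]; split_ifs
    · exact Or.inl rfl
    · exact Or.inr rfl
  have hHg : H = a + 2 * t + g := by
    rw [hg]; split_ifs <;> omega
  have hlev : nlog k j = g + 1 := by
    unfold nlog
    rw [if_neg (by omega), hg, ← hH, ← ha]
    split_ifs <;> rfl
  obtain ⟨c, hc, hlow⟩ := lower_full (k := k) (j := j) (a := a) (t := t) (g := g) (by omega)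
    (by omega) hg12 (by omega) (by omega)
  obtain ⟨C, hC, hup⟩ := upper_full (k := k) (j := j) (a := a) (t := t) (g := g) (by omega)
    hg12 (by omega) (by omega)
  have h2g : (0 : ℝ) < 2 ^ g := by positivity
  have hC0 : (0 : ℝ) < ((a + 2 * t + 1 : ℕ) : ℝ) := by positivity
  have hB : 1 - expo k j = ((t + 1 : ℕ) : ℝ) / ((a + 2 * t + 1 : ℕ) : ℝ) := by
    rw [hexpo, eq_div_iff hC0.ne', sub_mul, one_mul, div_mul_cancel₀ _ hC0.ne']
    push_cast; ring
  have hB0 : 0 ≤ 1 - expo k j := by rw [hB]; positivity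
  have hB1 : 1 - expo k j ≤ 1 := by
    rw [hB, div_le_one hC0]
    exact_mod_cast (by omega : t + 1 ≤ a + 2 * t + 1)
  refine ⟨c, C * 2 ^ g, hc, by positivity, ?_⟩
  filter_upwards [hlow, hlogn.eventually (ell_eventually g), eventually_ge_atTop 3,
    hlogn.eventually_ge_atTop 1,
    hlogn.eventually ((tendsto_iter g).eventually_ge_atTop 1)] with n hn1 hn2 hn3 hn4 hn5
  have hup := hup n hn3
  have e : Real.log^[g + 1] (n : ℝ) = Real.log^[g] (Real.log n) := Function.iterate_succ_apply _ _ _
  rw [← hexpo, ← hB] at hn1 hup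
  unfold growth
  rw [hlev, e]
  have hV : 0 ≤ Real.log n ^ expo k j := Real.rpow_nonneg (by linarith) _
  constructor
  · refine le_trans (Real.exp_le_exp.2 ?_) hn1
    apply mul_le_mul_of_nonneg_left _ hc.le
    apply mul_le_mul_of_nonneg_left _ hV
    exact Real.rpow_le_rpow (by linarith) hn2.1 hB0
  · refine hup.trans (Real.exp_le_exp.2 ?_)
    have h3 : ell g (Real.log n) ^ (1 - expo k j) ≤
        2 ^ g * Real.log^[g] (Real.log n) ^ (1 - expo k j) := by
      calc ell g (Real.log n) ^ (1 - expo k j)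
          ≤ (2 ^ g * Real.log^[g] (Real.log n)) ^ (1 - expo k j) :=
            Real.rpow_le_rpow (by have := hn2.1; linarith) hn2.2 hB0
        _ = (2 ^ g) ^ (1 - expo k j) * Real.log^[g] (Real.log n) ^ (1 - expo k j) :=
            Real.mul_rpow (by positivity) (by linarith)
        _ ≤ 2 ^ g * Real.log^[g] (Real.log n) ^ (1 - expo k j) := by
            apply mul_le_mul_of_nonneg_right _ (Real.rpow_nonneg (by linarith) _)
            calc ((2 : ℝ) ^ g) ^ (1 - expo k j) ≤ ((2 : ℝ) ^ g) ^ (1 : ℝ) := by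
                  apply Real.rpow_le_rpow_of_exponent_le _ hB1
                  exact one_le_pow₀ (by norm_num)
              _ = 2 ^ g := Real.rpow_one _
    calc C * (Real.log n ^ expo k j * ell g (Real.log n) ^ (1 - expo k j))
        ≤ C * (Real.log n ^ expo k j *
          (2 ^ g * Real.log^[g] (Real.log n) ^ (1 - expo k j))) := by
          apply mul_le_mul_of_nonneg_left _ hC.le
          exact mul_le_mul_of_nonneg_left h3 hV
      _ = C * 2 ^ g * (Real.log n ^ expo k j *
          Real.log^[g] (Real.log n) ^ (1 - expo k j)) := by ring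

end Pool.Agent.H595K
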