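import Mathlib
import Pool.Agent.H595K.TreeGeo

/-!
# Arbitrary point sets: three parts without a common transversal
-/

namespace Pool.Agent.H595K.Z

/-- orientation -/
def orr (x y : ℕ → ℝ) (i j a : ℕ) : ℝ := (x j - x i) * (y a - y i) - (y j - y i) * (x a - x i)

theorem orr_cyc (x y : ℕ → ℝ) (i j a : ℕ) : orr x y i j a = orr x y j a i := by
  unfold orr; ring

/-- the line through the points `i` and `j` separates two points of `A` -/
def Cutp (x y : ℕ → ℝ) (i j : ℕ) (A : Finset ℕ) : Prop :=
  (∃ a ∈ A, orr x y i j a < 0) ∧ ∃ a ∈ A, 0 < orr x y i j a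

theorem Cutp.mono {x y : ℕ → ℝ} {i j : ℕ} {A B : Finset ℕ} (h : Cutp x y i j A) (hAB : A ⊆ B) :
    Cutp x y i j B := by
  obtain ⟨⟨a, ha, h1⟩, b, hb, h2⟩ := h
  exact ⟨⟨a, hAB ha, h1⟩, b, hAB hb, h2⟩

/-- configurations -/
structure Cfg (x y : ℕ → ℝ) (N : ℕ) : Prop where
  mono : ∀ i j, i < j → j < N → x i < x j
  gen : ∀ i j z, i < N → j < N → z < N → i ≠ j → j ≠ z → i ≠ z → orr x y i j z ≠ 0

theorem median (Z : Finset ℕ) (hZ : Z.Nonempty) (g : ℕ → ℝ) :
    ∃ z ∈ Z, 2 * (Z.filter (fun w => g w < g z)).card ≤ Z.card ∧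
      2 * (Z.filter (fun w => g z < g w)).card ≤ Z.card := by
  classical
  obtain ⟨z0, hz0, hmin⟩ := Finset.exists_min_image Z g hZ
  have hT : (Z.filter (fun z => 2 * (Z.filter (fun w => g w < g z)).card ≤ Z.card)).Nonempty := by
    refine ⟨z0, Finset.mem_filter.2 ⟨hz0, ?_⟩⟩
    have : Z.filter (fun w => g w < g z0) = ∅ := by
      rw [Finset.filter_eq_empty_iff]
      intro w hw
      exact not_lt.2 (hmin w hw)
    rw [this]; simp
  obtain ⟨z, hz, hmax⟩ := Finset.exists_max_image _ g hT
  rw [Finset.mem_filter] at hz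
  refine ⟨z, hz.1, hz.2, ?_⟩
  rcases Finset.eq_empty_or_nonempty (Z.filter (fun w => g z < g w)) with hW | hW
  · rw [hW]; simp
  · obtain ⟨w, hw, hwmin⟩ := Finset.exists_min_image _ g hW
    rw [Finset.mem_filter] at hw
    have h1 : ¬ 2 * (Z.filter (fun u => g u < g w)).card ≤ Z.card := by
      intro hc
      have := hmax w (Finset.mem_filter.2 ⟨hw.1, hc⟩)
      linarith [hw.2]
    have h2 : (Z.filter (fun u => g u < g w)).card + (Z.filter (fun w => g z < g w)).card ≤
        Z.card := by
      rw [← Finset.card_union_of_disjoint]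
      · apply Finset.card_le_card
        intro u hu
        rcases Finset.mem_union.1 hu with h | h
        · exact (Finset.mem_filter.1 h).1
        · exact (Finset.mem_filter.1 h).1
      · rw [Finset.disjoint_left]
        intro u hu hu'
        have h3 := hwmin u hu'
        have h4 := (Finset.mem_filter.1 hu).2
        linarith
    omega

theorem orr_slp {x y : ℕ → ℝ} {a b w : ℕ} (hb : x a < x b) (hw : x a < x w) :
    orr x y a b w = (x b - x a) * (x w - x a) * (slp x y a w - slp x y a b) := by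
  unfold orr slp
  have h1 : x b - x a ≠ 0 := by linarith
  have h2 : x w - x a ≠ 0 := by linarith
  field_simp

theorem orr_pos_iff {x y : ℕ → ℝ} {a b w : ℕ} (hb : x a < x b) (hw : x a < x w) :
    0 < orr x y a b w ↔ slp x y a b < slp x y a w := by
  rw [orr_slp hb hw]
  have h1 : 0 < (x b - x a) * (x w - x a) := mul_pos (by linarith) (by linarith)
  constructor
  · intro h
    have := (mul_pos_iff_of_pos_left h1).1 h
    linarith
  · intro h
    exact mul_pos h1 (by linarith)

theorem orr_neg_iff {x y : ℕ → ℝ} {a b w : ℕ} (hb : x a < x b) (hw : x a < x w) :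
    orr x y a b w < 0 ↔ slp x y a w < slp x y a b := by
  rw [orr_slp hb hw]
  have h1 : 0 < (x b - x a) * (x w - x a) := mul_pos (by linarith) (by linarith)
  constructor
  · intro h
    by_contra hc
    push Not at hc
    have := mul_nonneg h1.le (sub_nonneg.2 hc)
    linarith
  · intro h
    exact mul_neg_of_pos_of_neg h1 (by linarith)

theorem slp_eq {x y : ℕ → ℝ} {a w : ℕ} (hw : x a < x w) :
    y w = y a + slp x y a w * (x w - x a) := by
  unfold slp
  have h2 : x w - x a ≠ 0 := by linarith
  field_simp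
  ring

/-- comparison of the bisecting lines -/
theorem claim {x y : ℕ → ℝ} {X Z : Finset ℕ} {m : ℕ} {c : ℝ} {z : ℕ → ℕ}
    (hZ : Z.card = 2 * m + 1) (hXc : ∀ a ∈ X, x a ≤ c) (hZc : ∀ b ∈ Z, c < x b)
    (hz : ∀ a ∈ X, z a ∈ Z ∧ (Z.filter (fun w => slp x y a w < slp x y a (z a))).card ≤ m ∧
      (Z.filter (fun w => slp x y a (z a) < slp x y a w)).card ≤ m)
    {i n : ℕ} (hi : i ∈ X) (hn : n ∈ X) (h : 0 < orr x y n (z n) i) :
    y n + slp x y n (z n) * (c - x n) < y i + slp x y i (z i) * (c - x i) := by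
  by_contra hc
  push Not at hc
  obtain ⟨a1, a2, a3⟩ := hz i hi
  obtain ⟨b1, b2, b3⟩ := hz n hn
  have hxi := hXc i hi
  have hxn := hXc n hn
  have hxz : x n < x (z n) := lt_of_le_of_lt hxn (hZc _ b1)
  -- `i` is above the line of `n`
  have h1 : y n + slp x y n (z n) * (x i - x n) < y i := by
    have e : orr x y n (z n) i = (x (z n) - x n) * (y i - (y n + slp x y n (z n) * (x i - x n))) := by
      have := slp_eq (y := y) hxz
      unfold orr
      rw [this]; ring
    rw [e] at h
    have := (mul_pos_iff_of_pos_left (by linarith : 0 < x (z n) - x n)).1 h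
    linarith
  -- slopes
  have h2 : slp x y i (z i) < slp x y n (z n) := by
    by_contra h3
    push Not at h3
    have := mul_nonneg (sub_nonneg.2 h3) (sub_nonneg.2 hxi)
    nlinarith
  have h3 : Z.card ≤ (Z.filter (fun w => slp x y i (z i) < slp x y i w)).card +
      (Z.filter (fun w => slp x y n w < slp x y n (z n))).card := by
    refine le_trans (Finset.card_le_card ?_) (Finset.card_union_le _ _)
    intro w hw
    rw [Finset.mem_union, Finset.mem_filter, Finset.mem_filter]
    by_cases h4 : slp x y i (z i) < slp x y i w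
    · exact Or.inl ⟨hw, h4⟩
    · right
      refine ⟨hw, ?_⟩
      push Not at h4
      have hcw := hZc w hw
      have hiw : x i < x w := lt_of_le_of_lt hxi hcw
      have hnw : x n < x w := lt_of_le_of_lt hxn hcw
      have e1 := slp_eq (y := y) hiw
      have e2 := slp_eq (y := y) hnw
      by_contra h5
      push Not at h5
      have k1 : slp x y i w * (x w - x i) ≤ slp x y i (z i) * (x w - x i) :=
        mul_le_mul_of_nonneg_right h4 (by linarith)
      have k2 : slp x y n (z n) * (x w - x n) ≤ slp x y n w * (x w - x n) :=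
        mul_le_mul_of_nonneg_right h5 (by linarith)
      have k3 : 0 < (slp x y n (z n) - slp x y i (z i)) * (x w - c) :=
        mul_pos (by linarith) (by linarith)
      nlinarith
  omega

theorem slp_negy {x y : ℕ → ℝ} (a b : ℕ) : slp x (fun n => - y n) a b = - slp x y a b := by
  unfold slp; ring

theorem orr_negy {x y : ℕ → ℝ} (a b w : ℕ) : orr x (fun n => - y n) a b w = - orr x y a b w := by
  unfold orr; ring

theorem ham {x y : ℕ → ℝ} {X Z : Finset ℕ} {m : ℕ} {c : ℝ}
    (hX : X.card = 2 * m + 1) (hZ : Z.card = 2 * m + 1) (hXc : ∀ a ∈ X, x a ≤ c)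
    (hZc : ∀ b ∈ Z, c < x b) :
    ∃ a ∈ X, ∃ b ∈ Z, (X.filter (fun i => 0 < orr x y a b i)).card ≤ m ∧
      (X.filter (fun i => orr x y a b i < 0)).card ≤ m ∧
      (Z.filter (fun i => 0 < orr x y a b i)).card ≤ m ∧
      (Z.filter (fun i => orr x y a b i < 0)).card ≤ m := by
  classical
  have hZne : Z.Nonempty := by rw [← Finset.card_pos]; omega
  have hXne : X.Nonempty := by rw [← Finset.card_pos]; omega
  have h1 : ∀ a, ∃ b, b ∈ Z ∧ (Z.filter (fun w => slp x y a w < slp x y a b)).card ≤ m ∧
      (Z.filter (fun w => slp x y a b < slp x y a w)).card ≤ m := by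
    intro a
    obtain ⟨b, hb, k1, k2⟩ := median Z hZne (fun w => slp x y a w)
    exact ⟨b, hb, by omega, by omega⟩
  choose z hz using h1
  obtain ⟨n, hn, k1, k2⟩ := median X hXne (fun a => y a + slp x y a (z a) * (c - x a))
  refine ⟨n, hn, z n, (hz n).1, ?_, ?_, ?_, ?_⟩
  · have h2 : (X.filter (fun i => 0 < orr x y n (z n) i)).card ≤
        (X.filter (fun a => y n + slp x y n (z n) * (c - x n) <
          y a + slp x y a (z a) * (c - x a))).card := by
      apply Finset.card_le_card
      intro i hi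
      rw [Finset.mem_filter] at hi ⊢
      exact ⟨hi.1, claim hZ hXc hZc (fun a _ => hz a) hi.1 hn hi.2⟩
    omega
  · have h2 : (X.filter (fun i => orr x y n (z n) i < 0)).card ≤
        (X.filter (fun a => y a + slp x y a (z a) * (c - x a) <
          y n + slp x y n (z n) * (c - x n))).card := by
      apply Finset.card_le_card
      intro i hi
      rw [Finset.mem_filter] at hi ⊢
      refine ⟨hi.1, ?_⟩
      have h3 := claim (y := fun n => - y n) (z := z) hZ hXc hZc (fun a _ => by
        simp only [slp_negy, neg_lt_neg_iff]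
        exact ⟨(hz a).1, (hz a).2.2, (hz a).2.1⟩) hi.1 hn (by rw [orr_negy]; linarith [hi.2])
      simp only [slp_negy] at h3
      linarith
    omega
  · refine le_trans (Finset.card_le_card ?_) (hz n).2.2
    intro i hi
    rw [Finset.mem_filter] at hi ⊢
    have hc1 := hXc n hn
    have hc2 := hZc i hi.1
    have hc3 := hZc _ (hz n).1
    exact ⟨hi.1, (orr_pos_iff (by linarith) (by linarith)).1 hi.2⟩
  · refine le_trans (Finset.card_le_card ?_) (hz n).2.1
    intro i hi
    rw [Finset.mem_filter] at hi ⊢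
    have hc1 := hXc n hn
    have hc2 := hZc i hi.1
    have hc3 := hZc _ (hz n).1
    exact ⟨hi.1, (orr_neg_iff (by linarith) (by linarith)).1 hi.2⟩

/-- the three parts are not cut by one line -/
theorem no3 {x y : ℕ → ℝ} {f1 f2 f3 g1 g2 g3 : ℝ} {a b c : ℕ} (hf : 0 < f2)
    (hab : x a < x b) (hbc : x b < x c)
    (ha : g1 * x a + g2 * y a + g3 < 0) (hc : g1 * x c + g2 * y c + g3 < 0)
    (hb : 0 < g1 * x b + g2 * y b + g3)
    (hFa : 0 ≤ g2 * (f1 * x a + f2 * y a + f3)) (hFc : 0 ≤ g2 * (f1 * x c + f2 * y c + f3))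
    (hFb : g2 * (f1 * x b + f2 * y b + f3) ≤ 0) : False := by
  have e1 : (f2 * g1 - g2 * f1) * x a + (f2 * g3 - g2 * f3) < 0 := by
    have := mul_neg_of_pos_of_neg hf ha
    nlinarith
  have e2 : (f2 * g1 - g2 * f1) * x c + (f2 * g3 - g2 * f3) < 0 := by
    have := mul_neg_of_pos_of_neg hf hc
    nlinarith
  have e3 : 0 < (f2 * g1 - g2 * f1) * x b + (f2 * g3 - g2 * f3) := by
    have := mul_pos hf hb
    nlinarith
  rcases le_or_gt (f2 * g1 - g2 * f1) 0 with h | h
  · have := mul_nonneg_of_nonpos_of_nonpos h (by linarith : x a - x b ≤ 0)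
    nlinarith
  · have := mul_pos h (by linarith : 0 < x c - x b)
    nlinarith

end Pool.Agent.H595K.Z
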