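import Mathlib
import Pool.Agent.H595K.ZHam

/-!
# Arbitrary point sets: the ternary refinement
-/

namespace Pool.Agent.H595K.Z

theorem split (S : Finset ℕ) : ∀ p, p ≤ S.card → ∃ X ⊆ S, X.card = p ∧
    ∀ a ∈ X, ∀ b ∈ S, b ∉ X → a < b := by
  classical
  intro p
  induction p with
  | zero => intro _; exact ⟨∅, by simp, rfl, by simp⟩
  | succ p ih =>
    intro hp
    obtain ⟨X, h1, h2, h3⟩ := ih (by omega)
    have hne : (S \ X).Nonempty := by
      rw [← Finset.card_pos, Finset.card_sdiff_of_subset h1]; omega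
    obtain ⟨b, hb, hmin⟩ := Finset.exists_min_image (S \ X) (fun i => i) hne
    rw [Finset.mem_sdiff] at hb
    refine ⟨insert b X, ?_, ?_, ?_⟩
    · intro a ha
      rcases Finset.mem_insert.1 ha with rfl | ha
      · exact hb.1
      · exact h1 ha
    · rw [Finset.card_insert_of_notMem hb.2, h2]
    · intro a ha c hc hcX
      rw [Finset.mem_insert, not_or] at hcX
      rcases Finset.mem_insert.1 ha with rfl | ha
      · have h4 : a ≤ c := hmin c (Finset.mem_sdiff.2 ⟨hc, hcX.2⟩)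
        have h5 := hcX.1
        omega
      · exact h3 a ha c hc hcX.2

theorem halves {x y : ℕ → ℝ} {N : ℕ} (hC : Cfg x y N) {W : Finset ℕ} (hW : ∀ a ∈ W, a < N)
    {a b : ℕ} (ha : a < N) (hb : b < N) (hab : a ≠ b) :
    W.card ≤ (W.filter (fun i => 0 < orr x y a b i)).card +
      (W.filter (fun i => orr x y a b i < 0)).card + (W.filter (fun i => i = a ∨ i = b)).card := by
  classical
  refine le_trans (Finset.card_le_card (t := W.filter (fun i => 0 < orr x y a b i) ∪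
    W.filter (fun i => orr x y a b i < 0) ∪ W.filter (fun i => i = a ∨ i = b)) ?_) ?_
  · intro i hi
    simp only [Finset.mem_union, Finset.mem_filter]
    by_cases h1 : i = a
    · right; exact ⟨hi, Or.inl h1⟩
    by_cases h2 : i = b
    · right; exact ⟨hi, Or.inr h2⟩
    have h3 := hC.gen a b i ha hb (hW i hi) hab (Ne.symm h2) (Ne.symm h1)
    rcases lt_or_gt_of_ne h3 with h4 | h4
    · left; right; exact ⟨hi, h4⟩
    · left; left; exact ⟨hi, h4⟩
  · refine (Finset.card_union_le _ _).trans ?_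
    exact Nat.add_le_add_right (Finset.card_union_le _ _) _

theorem nocut {x y : ℕ → ℝ} {N : ℕ} (hC : Cfg x y N) {X Y Z : Finset ℕ} {a b : ℕ}
    (hX : ∀ i ∈ X, i < N) (hY : ∀ i ∈ Y, i < N) (hZ : ∀ i ∈ Z, i < N)
    (hab : x a < x b)
    (hXY : ∀ i ∈ X, ∀ j ∈ Y, i < j) (hYZ : ∀ i ∈ Y, ∀ j ∈ Z, i < j)
    (h : (∀ i ∈ X, orr x y a b i < 0) ∧ (∀ i ∈ Y, 0 < orr x y a b i) ∧
        (∀ i ∈ Z, orr x y a b i < 0) ∨
      (∀ i ∈ X, 0 < orr x y a b i) ∧ (∀ i ∈ Y, orr x y a b i < 0) ∧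
        (∀ i ∈ Z, 0 < orr x y a b i)) {i j : ℕ} (hi : i < N) (hj : j < N) (hij : i ≠ j) :
    ¬ (Cutp x y i j X ∧ Cutp x y i j Y ∧ Cutp x y i j Z) := by
  -- symmetric version
  have key : ∀ y : ℕ → ℝ, ∀ i j : ℕ, x i < x j →
      ((∀ i ∈ X, orr x y a b i < 0) ∧ (∀ i ∈ Y, 0 < orr x y a b i) ∧
        (∀ i ∈ Z, orr x y a b i < 0)) →
      (Cutp x y i j X ∧ Cutp x y i j Y ∧ Cutp x y i j Z) → False := by
    intro y i j hij ⟨k1, k2, k3⟩ ⟨⟨_, p, hp, p1⟩, ⟨⟨q, hq, q1⟩, _⟩, ⟨_, r, hr, r1⟩⟩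
    refine no3 (x := x) (y := y) (f1 := -(y j - y i)) (f2 := x j - x i)
      (f3 := -((x j - x i) * y i) + (y j - y i) * x i) (g1 := -(y b - y a)) (g2 := x b - x a)
      (g3 := -((x b - x a) * y a) + (y b - y a) * x a) (a := p) (b := q) (c := r)
      (by linarith) (hC.mono _ _ (hXY p hp q hq) (hY q hq)) (hC.mono _ _ (hYZ q hq r hr) (hZ r hr))
      ?_ ?_ ?_ ?_ ?_ ?_
    · have := k1 p hp; unfold orr at this; nlinarith
    · have := k3 r hr; unfold orr at this; nlinarith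
    · have := k2 q hq; unfold orr at this; nlinarith
    · apply mul_nonneg (by linarith)
      unfold orr at p1; nlinarith
    · apply mul_nonneg (by linarith)
      unfold orr at r1; nlinarith
    · apply mul_nonpos_of_nonneg_of_nonpos (by linarith)
      unfold orr at q1; nlinarith
  have flip : ∀ (y : ℕ → ℝ) (i j : ℕ) (A : Finset ℕ), Cutp x y i j A → Cutp x y j i A := by
    rintro y i j A ⟨⟨p, hp, p1⟩, q, hq, q1⟩
    have e : ∀ w, orr x y j i w = - orr x y i j w := by intro w; unfold orr; ring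
    exact ⟨⟨q, hq, by rw [e]; linarith⟩, p, hp, by rw [e]; linarith⟩
  have neg : ∀ (i j : ℕ) (A : Finset ℕ), Cutp x y i j A → Cutp x (fun n => - y n) i j A := by
    rintro i j A ⟨⟨p, hp, p1⟩, q, hq, q1⟩
    exact ⟨⟨q, hq, by rw [orr_negy]; linarith⟩, p, hp, by rw [orr_negy]; linarith⟩
  rintro ⟨c1, c2, c3⟩
  rcases lt_or_gt_of_ne hij with hlt | hlt
  · have hx := hC.mono i j hlt hj
    rcases h with h | ⟨h1, h2, h3⟩
    · exact key y i j hx h ⟨c1, c2, c3⟩
    · refine key (fun n => - y n) i j hx ⟨?_, ?_, ?_⟩ ⟨neg _ _ _ c1, neg _ _ _ c2, neg _ _ _ c3⟩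
      · intro w hw; rw [orr_negy]; linarith [h1 w hw]
      · intro w hw; rw [orr_negy]; linarith [h2 w hw]
      · intro w hw; rw [orr_negy]; linarith [h3 w hw]
  · have hx := hC.mono j i hlt hi
    rcases h with h | ⟨h1, h2, h3⟩
    · exact key y j i hx h ⟨flip _ _ _ _ c1, flip _ _ _ _ c2, flip _ _ _ _ c3⟩
    · refine key (fun n => - y n) j i hx ⟨?_, ?_, ?_⟩
        ⟨neg _ _ _ (flip _ _ _ _ c1), neg _ _ _ (flip _ _ _ _ c2), neg _ _ _ (flip _ _ _ _ c3)⟩
      · intro w hw; rw [orr_negy]; linarith [h1 w hw]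
      · intro w hw; rw [orr_negy]; linarith [h2 w hw]
      · intro w hw; rw [orr_negy]; linarith [h3 w hw]

theorem tri_exists {x y : ℕ → ℝ} {N : ℕ} (hC : Cfg x y N) {S : Finset ℕ}
    (hS : ∀ a ∈ S, a < N) {m : ℕ} (hm : 6 * m + 3 ≤ S.card) :
    ∃ T : Fin 3 → Finset ℕ, (∀ c, T c ⊆ S) ∧ (∀ c, m ≤ (T c).card) ∧
      (∀ a ∈ T 0, ∀ b ∈ T 2, a < b) ∧
      ∀ i j, i < N → j < N → i ≠ j →
        ¬ (Cutp x y i j (T 0) ∧ Cutp x y i j (T 1) ∧ Cutp x y i j (T 2)) := by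
  classical
  obtain ⟨X, x1, x2, x3⟩ := split S (2 * m + 1) (by omega)
  have hS1 : (S \ X).card = S.card - (2 * m + 1) := by
    rw [Finset.card_sdiff_of_subset x1, x2]
  obtain ⟨Y, y1, y2, y3⟩ := split (S \ X) (2 * m + 1) (by omega)
  have hS2 : ((S \ X) \ Y).card = S.card - (2 * m + 1) - (2 * m + 1) := by
    rw [Finset.card_sdiff_of_subset y1, y2, hS1]
  obtain ⟨Z, z1, z2, z3⟩ := split ((S \ X) \ Y) (2 * m + 1) (by omega)
  have hXY : ∀ i ∈ X, ∀ j ∈ Y, i < j := by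
    intro i hi j hj
    have := y1 hj
    rw [Finset.mem_sdiff] at this
    exact x3 i hi j this.1 this.2
  have hYZ : ∀ i ∈ Y, ∀ j ∈ Z, i < j := by
    intro i hi j hj
    have := z1 hj
    rw [Finset.mem_sdiff] at this
    exact y3 i hi j this.1 this.2
  have hXZ : ∀ i ∈ X, ∀ j ∈ Z, i < j := by
    intro i hi j hj
    have := z1 hj
    rw [Finset.mem_sdiff, Finset.mem_sdiff] at this
    exact x3 i hi j this.1.1 this.1.2
  have hXN : ∀ i ∈ X, i < N := fun i hi => hS i (x1 hi)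
  have hYS : ∀ i ∈ Y, i ∈ S := fun i hi => (Finset.mem_sdiff.1 (y1 hi)).1
  have hZS : ∀ i ∈ Z, i ∈ S := fun i hi =>
    (Finset.mem_sdiff.1 (Finset.mem_sdiff.1 (z1 hi)).1).1
  have hYN : ∀ i ∈ Y, i < N := fun i hi => hS i (hYS i hi)
  have hZN : ∀ i ∈ Z, i < N := fun i hi => hS i (hZS i hi)
  -- the largest element of `X`
  obtain ⟨e, he, hemax⟩ := Finset.exists_max_image X (fun i => i)
    (by rw [← Finset.card_pos]; omega)
  have hXc : ∀ a ∈ X, x a ≤ x e := by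
    intro a ha
    rcases Nat.lt_or_ge a e with h | h
    · exact (hC.mono a e h (hXN e he)).le
    · have : a = e := le_antisymm (hemax a ha) h
      rw [this]
  have hZc : ∀ b ∈ Z, x e < x b := fun b hb => hC.mono e b (hXZ e he b hb) (hZN b hb)
  obtain ⟨a, ha, b, hb, k1, k2, k3, k4⟩ := ham (y := y) x2 z2 hXc hZc
  have hab := hXZ a ha b hb
  have hne : a ≠ b := hab.ne
  have hxab := hC.mono a b hab (hZN b hb)
  have w1 := halves hC hXN (hXN a ha) (hZN b hb) hne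
  have w2 := halves hC hYN (hXN a ha) (hZN b hb) hne
  have w3 := halves hC hZN (hXN a ha) (hZN b hb) hne
  have v1 : (X.filter (fun i => i = a ∨ i = b)).card ≤ 1 := by
    rw [Finset.card_le_one]
    intro p hp q hq
    rw [Finset.mem_filter] at hp hq
    have : ∀ p ∈ X, (p = a ∨ p = b) → p = a := by
      rintro p hp (h | h)
      · exact h
      · exact absurd (hXZ p hp b hb) (by omega)
    rw [this p hp.1 hp.2, this q hq.1 hq.2]
  have v2 : (Y.filter (fun i => i = a ∨ i = b)).card = 0 := by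
    rw [Finset.card_eq_zero, Finset.filter_eq_empty_iff]
    rintro p hp (h | h)
    · exact absurd (hXY a ha p hp) (by omega)
    · exact absurd (hYZ p hp b hb) (by omega)
  have v3 : (Z.filter (fun i => i = a ∨ i = b)).card ≤ 1 := by
    rw [Finset.card_le_one]
    intro p hp q hq
    rw [Finset.mem_filter] at hp hq
    have : ∀ p ∈ Z, (p = a ∨ p = b) → p = b := by
      rintro p hp (h | h)
      · exact absurd (hXZ a ha p hp) (by omega)
      · exact h
    rw [this p hp.1 hp.2, this q hq.1 hq.2]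
  have fin : ∀ X' Y' Z' : Finset ℕ, X' ⊆ X → Y' ⊆ Y → Z' ⊆ Z → m ≤ X'.card → m ≤ Y'.card →
      m ≤ Z'.card → ((∀ i ∈ X', orr x y a b i < 0) ∧ (∀ i ∈ Y', 0 < orr x y a b i) ∧
        (∀ i ∈ Z', orr x y a b i < 0) ∨
      (∀ i ∈ X', 0 < orr x y a b i) ∧ (∀ i ∈ Y', orr x y a b i < 0) ∧
        (∀ i ∈ Z', 0 < orr x y a b i)) →
      ∃ T : Fin 3 → Finset ℕ, (∀ c, T c ⊆ S) ∧ (∀ c, m ≤ (T c).card) ∧
      (∀ a ∈ T 0, ∀ b ∈ T 2, a < b) ∧
      ∀ i j, i < N → j < N → i ≠ j →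
        ¬ (Cutp x y i j (T 0) ∧ Cutp x y i j (T 1) ∧ Cutp x y i j (T 2)) := by
    intro X' Y' Z' s1 s2 s3 t1 t2 t3 hs
    refine ⟨![X', Y', Z'], ?_, ?_, ?_, ?_⟩
    · intro c
      fin_cases c
      · exact s1.trans x1
      · exact fun i hi => hYS i (s2 hi)
      · exact fun i hi => hZS i (s3 hi)
    · intro c
      fin_cases c
      · exact t1
      · exact t2
      · exact t3
    · intro p hp q hq
      exact hXZ p (s1 hp) q (s3 hq)
    · intro i j hi hj hij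
      exact nocut hC (fun i hi => hXN i (s1 hi)) (fun i hi => hYN i (s2 hi))
        (fun i hi => hZN i (s3 hi)) hxab (fun i hi j hj => hXY i (s1 hi) j (s2 hj))
        (fun i hi j hj => hYZ i (s2 hi) j (s3 hj)) hs hi hj hij
  rcases Nat.lt_or_ge m (Y.filter (fun i => 0 < orr x y a b i)).card with hY | hY
  · exact fin _ _ _ (Finset.filter_subset (fun i => orr x y a b i < 0) X)
      (Finset.filter_subset (fun i => 0 < orr x y a b i) Y)
      (Finset.filter_subset (fun i => orr x y a b i < 0) Z) (by omega) (by omega) (by omega)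
      (Or.inl ⟨fun i hi => (Finset.mem_filter.1 hi).2, fun i hi => (Finset.mem_filter.1 hi).2,
        fun i hi => (Finset.mem_filter.1 hi).2⟩)
  · exact fin _ _ _ (Finset.filter_subset (fun i => 0 < orr x y a b i) X)
      (Finset.filter_subset (fun i => orr x y a b i < 0) Y)
      (Finset.filter_subset (fun i => 0 < orr x y a b i) Z) (by omega) (by omega) (by omega)
      (Or.inr ⟨fun i hi => (Finset.mem_filter.1 hi).2, fun i hi => (Finset.mem_filter.1 hi).2,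
        fun i hi => (Finset.mem_filter.1 hi).2⟩)

/-- the refinement as a function -/
theorem tri_fun {x y : ℕ → ℝ} {N : ℕ} (hC : Cfg x y N) :
    ∃ tri : Finset ℕ → Fin 3 → Finset ℕ, ∀ S : Finset ℕ, (∀ a ∈ S, a < N) →
      ∀ e, 9 ^ (e + 1) ≤ S.card → (∀ c, tri S c ⊆ S) ∧ (∀ c, 9 ^ e ≤ (tri S c).card) ∧
      (∀ a ∈ tri S 0, ∀ b ∈ tri S 2, a < b) ∧
      ∀ i j, i < N → j < N → i ≠ j →
        ¬ (Cutp x y i j (tri S 0) ∧ Cutp x y i j (tri S 1) ∧ Cutp x y i j (tri S 2)) := by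
  classical
  have h : ∀ S : Finset ℕ, ∃ T : Fin 3 → Finset ℕ, (∀ a ∈ S, a < N) → 9 ≤ S.card →
      (∀ c, T c ⊆ S) ∧ (∀ c, S.card / 9 ≤ (T c).card) ∧
      (∀ a ∈ T 0, ∀ b ∈ T 2, a < b) ∧
      ∀ i j, i < N → j < N → i ≠ j →
        ¬ (Cutp x y i j (T 0) ∧ Cutp x y i j (T 1) ∧ Cutp x y i j (T 2)) := by
    intro S
    by_cases h1 : (∀ a ∈ S, a < N) ∧ 9 ≤ S.card
    · obtain ⟨T, hT⟩ := tri_exists hC h1.1 (m := S.card / 9) (by omega)
      exact ⟨T, fun _ _ => hT⟩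
    · exact ⟨fun _ => S, fun a b => absurd ⟨a, b⟩ h1⟩
  choose tri htri using h
  refine ⟨tri, fun S hS e he => ?_⟩
  have hpos : 0 < 9 ^ e := by positivity
  rw [pow_succ] at he
  obtain ⟨h1, h2, h3, h4⟩ := htri S hS (by omega)
  refine ⟨h1, fun c => ?_, h3, h4⟩
  have := h2 c
  have h5 : 9 ^ e ≤ S.card / 9 := by
    rw [Nat.le_div_iff_mul_le (by norm_num)]; exact he
  omega

end Pool.Agent.H595K.Z
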