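import Mathlib
import Pool.Agent.H595K.ZTri
import Pool.Agent.H595K.Tree

/-!
# Arbitrary point sets: random binary trees of clusters
-/

namespace Pool.Agent.H595K.Z

/-- the clusters at relative depth `h` -/
def cl (tri : Finset ℕ → Fin 3 → Finset ℕ) : ℕ → Finset ℕ → Multiset (Finset ℕ)
  | 0, S => {S}
  | h + 1, S => cl tri h (tri S 0) + cl tri h (tri S 1) + cl tri h (tri S 2)

/-- the property of the refinement -/
def TriP (x y : ℕ → ℝ) (N : ℕ) (tri : Finset ℕ → Fin 3 → Finset ℕ) : Prop :=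
  ∀ S : Finset ℕ, (∀ a ∈ S, a < N) →
    ∀ e, 9 ^ (e + 1) ≤ S.card → (∀ c, tri S c ⊆ S) ∧ (∀ c, 9 ^ e ≤ (tri S c).card) ∧
      (∀ a ∈ tri S 0, ∀ b ∈ tri S 2, a < b) ∧
      ∀ i j, i < N → j < N → i ≠ j →
        ¬ (Cutp x y i j (tri S 0) ∧ Cutp x y i j (tri S 1) ∧ Cutp x y i j (tri S 2))

variable {x y : ℕ → ℝ} {N : ℕ} {tri : Finset ℕ → Fin 3 → Finset ℕ}

theorem cl_card (h : ℕ) : ∀ S, Multiset.card (cl tri h S) = 3 ^ h := by
  induction h with
  | zero => intro S; simp [cl]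
  | succ h ih =>
    intro S
    simp only [cl, Multiset.card_add, ih]
    ring

theorem cl_mem (hT : TriP x y N tri) (h : ℕ) : ∀ S : Finset ℕ, (∀ a ∈ S, a < N) →
    ∀ e, 9 ^ (e + h) ≤ S.card → ∀ A ∈ cl tri h S, A ⊆ S ∧ 9 ^ e ≤ A.card := by
  induction h with
  | zero =>
    intro S _ e he A hA
    simp only [cl, Multiset.mem_singleton] at hA
    subst hA
    exact ⟨subset_rfl, he⟩
  | succ h ih =>
    intro S hS e he A hA
    obtain ⟨h1, h2, _, _⟩ := hT S hS (e + h) he
    simp only [cl, Multiset.mem_add] at hA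
    have key : ∀ c, A ∈ cl tri h (tri S c) → A ⊆ S ∧ 9 ^ e ≤ A.card := by
      intro c hc
      obtain ⟨k1, k2⟩ := ih (tri S c) (fun a ha => hS a (h1 c ha)) e (h2 c) A hc
      exact ⟨k1.trans (h1 c), k2⟩
    rcases hA with (hA | hA) | hA
    · exact key 0 hA
    · exact key 1 hA
    · exact key 2 hA

open Classical in
/-- indicator of a cut -/
noncomputable def ct (x y : ℕ → ℝ) (i j : ℕ) (A : Finset ℕ) : ℕ := if Cutp x y i j A then 1 else 0

theorem cutp_self (i : ℕ) (A : Finset ℕ) : ¬ Cutp x y i i A := by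
  rintro ⟨⟨a, _, h⟩, _⟩
  unfold orr at h
  simp at h

theorem cl_cut (hT : TriP x y N tri) {i j : ℕ} (hi : i < N) (hj : j < N) (h : ℕ) :
    ∀ S : Finset ℕ, (∀ a ∈ S, a < N) → 9 ^ h ≤ S.card →
      ((cl tri h S).map (ct x y i j)).sum ≤ 2 ^ h * ct x y i j S := by
  induction h with
  | zero => intro S _ _; simp [cl]
  | succ h ih =>
    intro S hS he
    obtain ⟨h1, h2, _, h4⟩ := hT S hS h he
    simp only [cl, Multiset.map_add, Multiset.sum_add]
    have k0 := ih (tri S 0) (fun a ha => hS a (h1 0 ha)) (h2 0)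
    have k1 := ih (tri S 1) (fun a ha => hS a (h1 1 ha)) (h2 1)
    have k2 := ih (tri S 2) (fun a ha => hS a (h1 2 ha)) (h2 2)
    have key : ct x y i j (tri S 0) + ct x y i j (tri S 1) + ct x y i j (tri S 2) ≤
        2 * ct x y i j S := by
      by_cases hS : Cutp x y i j S
      · have hij : i ≠ j := by
          rintro rfl
          exact cutp_self i S hS
        have h5 := h4 i j hi hj hij
        unfold ct
        rw [if_pos hS]
        by_cases c0 : Cutp x y i j (tri S 0)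
        · by_cases c1 : Cutp x y i j (tri S 1)
          · have c2 : ¬ Cutp x y i j (tri S 2) := fun c2 => h5 ⟨c0, c1, c2⟩
            rw [if_pos c0, if_pos c1, if_neg c2]
          · rw [if_pos c0, if_neg c1]
            split_ifs <;> omega
        · rw [if_neg c0]
          split_ifs <;> omega
      · have c : ∀ c, ¬ Cutp x y i j (tri S c) := fun c hc => hS (hc.mono (h1 c))
        unfold ct
        rw [if_neg hS, if_neg (c 0), if_neg (c 1), if_neg (c 2)]
    calc _ ≤ 2 ^ h * ct x y i j (tri S 0) + 2 ^ h * ct x y i j (tri S 1) +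
          2 ^ h * ct x y i j (tri S 2) := by omega
      _ = 2 ^ h * (ct x y i j (tri S 0) + ct x y i j (tri S 1) + ct x y i j (tri S 2)) := by ring
      _ ≤ 2 ^ h * (2 * ct x y i j S) := Nat.mul_le_mul_left _ key
      _ = 2 ^ (h + 1) * ct x y i j S := by ring

open Classical in
/-- a point of the cluster -/
noncomputable def pick (S : Finset ℕ) : ℕ := if h : S.Nonempty then h.choose else 0

theorem pick_mem {S : Finset ℕ} (h : S.Nonempty) : pick S ∈ S := by
  unfold pick
  rw [dif_pos h]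
  exact h.choose_spec

/-- the trees of all choices -/
noncomputable def trees (tri : Finset ℕ → Fin 3 → Finset ℕ) (h : ℕ) :
    ℕ → Finset ℕ → Multiset Tr
  | 0, S => {Tr.leaf (pick S)}
  | d + 1, S => ((cl tri h (tri S 0)).bind (trees tri h d)).bind
      (fun t0 => ((cl tri h (tri S 2)).bind (trees tri h d)).map (fun t1 => Tr.node t0 t1))

/-- the number of choices -/
def Nd (h : ℕ) : ℕ → ℕ
  | 0 => 1
  | d + 1 => (3 ^ h * Nd h d) * (3 ^ h * Nd h d)

theorem bind_card {α β : Type} (M : Multiset α) (f : α → Multiset β) (c : ℕ)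
    (hf : ∀ a ∈ M, Multiset.card (f a) = c) : Multiset.card (M.bind f) = Multiset.card M * c := by
  rw [Multiset.card_bind]
  have : M.map (Multiset.card ∘ f) = M.map (fun _ => c) := Multiset.map_congr rfl hf
  rw [this, Multiset.map_const', Multiset.sum_replicate, smul_eq_mul]

theorem trees_card (h d : ℕ) : ∀ S, Multiset.card (trees tri h d S) = Nd h d := by
  induction d with
  | zero => intro S; simp [trees, Nd]
  | succ d ih =>
    intro S
    simp only [trees, Nd]
    rw [bind_card _ _ (3 ^ h * Nd h d)]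
    · rw [bind_card _ _ (Nd h d) (fun a _ => ih a), cl_card]
    · intro t0 _
      rw [Multiset.card_map, bind_card _ _ (Nd h d) (fun a _ => ih a), cl_card]

theorem trees_mem (hT : TriP x y N tri) (h d : ℕ) : ∀ S : Finset ℕ, (∀ a ∈ S, a < N) →
    9 ^ (d * (h + 1)) ≤ S.card → ∀ t ∈ trees tri h d S,
      (∀ a ∈ t.lv, a ∈ S) ∧ Tr.Comp d t ∧ t.lv.Pairwise (fun i j => i < j) ∧
      t.lv.length = 2 ^ d ∧ t.ht = d := by
  induction d with
  | zero =>
    intro S _ hc t ht
    simp only [trees, Multiset.mem_singleton] at ht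
    subst ht
    have hne : S.Nonempty := by
      rw [← Finset.card_pos]
      simp at hc
      exact Finset.card_pos.2 hc
    refine ⟨?_, trivial, by simp [Tr.lv], by simp [Tr.lv], rfl⟩
    intro a ha
    simp only [Tr.lv, List.mem_singleton] at ha
    rw [ha]; exact pick_mem hne
  | succ d ih =>
    intro S hS hc t ht
    simp only [trees, Multiset.mem_bind, Multiset.mem_map] at ht
    obtain ⟨t0, ⟨A, hA, ht0⟩, t1, ⟨B, hB, ht1⟩, rfl⟩ := ht
    have e1 : (d + 1) * (h + 1) = d * (h + 1) + h + 1 := by ring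
    rw [e1] at hc
    obtain ⟨h1, h2, h3, _⟩ := hT S hS _ hc
    obtain ⟨a1, a2⟩ := cl_mem hT h _ (fun a ha => hS a (h1 0 ha)) _ (h2 0) A hA
    obtain ⟨b1, b2⟩ := cl_mem hT h _ (fun a ha => hS a (h1 2 ha)) _ (h2 2) B hB
    obtain ⟨p1, p2, p3, p4, p5⟩ := ih A (fun a ha => hS a (h1 0 (a1 ha))) a2 t0 ht0
    obtain ⟨q1, q2, q3, q4, q5⟩ := ih B (fun a ha => hS a (h1 2 (b1 ha))) b2 t1 ht1
    refine ⟨?_, ⟨p2, q2⟩, ?_, ?_, ?_⟩
    · intro a ha
      simp only [Tr.lv, List.mem_append] at ha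
      rcases ha with ha | ha
      · exact h1 0 (a1 (p1 a ha))
      · exact h1 2 (b1 (q1 a ha))
    · simp only [Tr.lv]
      rw [List.pairwise_append]
      exact ⟨p3, q3, fun a ha b hb => h3 a (a1 (p1 a ha)) b (b1 (q1 b hb))⟩
    · simp only [Tr.lv, List.length_append, p4, q4]
      ring
    · simp only [Tr.ht, p5, q5, max_self]

open Classical in
/-- indicator of a cluster cut by a line spanned by `O` -/
noncomputable def rr (x y : ℕ → ℝ) (A O : Finset ℕ) : ℕ :=
  if ∃ i ∈ O, ∃ j ∈ O, Cutp x y i j A then 1 else 0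

/-- the number of bad clusters -/
noncomputable def bb (x y : ℕ → ℝ) : Tr → Finset ℕ → ℕ
  | Tr.leaf _, _ => 0
  | Tr.node l r, O => rr x y l.lv.toFinset (O ∪ r.lv.toFinset) +
      rr x y r.lv.toFinset (O ∪ l.lv.toFinset) +
      bb x y l (O ∪ r.lv.toFinset) + bb x y r (O ∪ l.lv.toFinset)

/-- the bound -/
def bet (h : ℕ) : ℕ → ℕ → ℕ
  | 0, _ => 0
  | d + 1, m => 2 * ((m + 2 ^ d) * (m + 2 ^ d) * 2 ^ h) + 2 * bet h d (m + 2 ^ d)

theorem rr_mono {A B O : Finset ℕ} (h : A ⊆ B) : rr x y A O ≤ rr x y B O := by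
  unfold rr
  by_cases h1 : ∃ i ∈ O, ∃ j ∈ O, Cutp x y i j A
  · have h2 : ∃ i ∈ O, ∃ j ∈ O, Cutp x y i j B := by
      obtain ⟨i, hi, j, hj, h3⟩ := h1
      exact ⟨i, hi, j, hj, h3.mono h⟩
    rw [if_pos h1, if_pos h2]
  · rw [if_neg h1]; exact Nat.zero_le _

theorem rr_le (A O : Finset ℕ) :
    rr x y A O ≤ ((O ×ˢ O).val.map (fun p => ct x y p.1 p.2 A)).sum := by
  classical
  unfold rr
  by_cases h1 : ∃ i ∈ O, ∃ j ∈ O, Cutp x y i j A
  · rw [if_pos h1]
    obtain ⟨i, hi, j, hj, h⟩ := h1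
    have h2 : ct x y i j A ≤ ∑ p ∈ O ×ˢ O, ct x y p.1 p.2 A :=
      Finset.single_le_sum (f := fun p : ℕ × ℕ => ct x y p.1 p.2 A) (fun _ _ => Nat.zero_le _)
        (Finset.mk_mem_product hi hj)
    have h3 : ct x y i j A = 1 := by unfold ct; rw [if_pos h]
    rw [h3] at h2
    exact h2
  · rw [if_neg h1]; exact Nat.zero_le _

theorem sum_le_mul {α : Type} (M : Multiset α) (F : α → ℕ) (c : ℕ) (h : ∀ a ∈ M, F a ≤ c) :
    (M.map F).sum ≤ Multiset.card M * c := by
  have h1 : (M.map F).sum ≤ (M.map (fun _ => c)).sum := Multiset.sum_map_le_sum_map _ _ h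
  rw [Multiset.map_const', Multiset.sum_replicate, smul_eq_mul] at h1
  exact h1

theorem sum_rr (hT : TriP x y N tri) {h : ℕ} {S O : Finset ℕ} {m : ℕ}
    (hS : ∀ a ∈ S, a < N) (hc : 9 ^ h ≤ S.card) (hO : ∀ a ∈ O, a < N) (hm : O.card ≤ m) :
    ((cl tri h S).map (fun A => rr x y A O)).sum ≤ m * m * 2 ^ h := by
  classical
  calc ((cl tri h S).map (fun A => rr x y A O)).sum ≤
      ((cl tri h S).map (fun A => ((O ×ˢ O).val.map (fun p => ct x y p.1 p.2 A)).sum)).sum :=
        Multiset.sum_map_le_sum_map _ _ (fun A _ => rr_le A O)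
    _ = ((O ×ˢ O).val.map (fun p => ((cl tri h S).map (fun A => ct x y p.1 p.2 A)).sum)).sum :=
        Multiset.sum_map_sum_map _ _
    _ ≤ Multiset.card (O ×ˢ O).val * 2 ^ h := by
        apply sum_le_mul
        intro p hp
        have hp' : p ∈ O ×ˢ O := hp
        rw [Finset.mem_product] at hp'
        have h1 := cl_cut hT (hO _ hp'.1) (hO _ hp'.2) h S hS hc
        have h2 : ct x y p.1 p.2 S ≤ 1 := by unfold ct; split_ifs <;> omega
        calc _ ≤ 2 ^ h * ct x y p.1 p.2 S := h1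
          _ ≤ 2 ^ h * 1 := Nat.mul_le_mul_left _ h2
          _ = 2 ^ h := by ring
    _ ≤ m * m * 2 ^ h := by
        apply Nat.mul_le_mul_right
        rw [Finset.card_val, Finset.card_product]
        exact Nat.mul_le_mul hm hm

theorem expect (hT : TriP x y N tri) (h d : ℕ) : ∀ S : Finset ℕ, (∀ a ∈ S, a < N) →
    9 ^ (d * (h + 1)) ≤ S.card → ∀ (O : Finset ℕ) (m : ℕ), (∀ a ∈ O, a < N) → O.card ≤ m →
      3 ^ h * ((trees tri h d S).map (fun t => bb x y t O)).sum ≤ bet h d m * Nd h d := by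
  classical
  induction d with
  | zero => intro S _ _ O m _ _; simp [trees, bb, bet]
  | succ d ih =>
    intro S hS hc O m hO hm
    have e1 : (d + 1) * (h + 1) = d * (h + 1) + h + 1 := by ring
    rw [e1] at hc
    obtain ⟨h1, h2, h3, _⟩ := hT S hS _ hc
    have hN : ∀ c, ∀ a ∈ tri S c, a < N := fun c a ha => hS a (h1 c ha)
    have h9 : ∀ c, 9 ^ h ≤ (tri S c).card := fun c =>
      (Nat.pow_le_pow_right (by norm_num) (Nat.le_add_left _ _)).trans (h2 c)
    obtain ⟨M, hM⟩ : ∃ M : Fin 3 → Multiset Tr, ∀ c, M c = (cl tri h (tri S c)).bind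
      (trees tri h d) := ⟨_, fun _ => rfl⟩
    have hMc : ∀ c, Multiset.card (M c) = 3 ^ h * Nd h d := by
      intro c
      rw [hM, bind_card _ _ (Nd h d) (fun a _ => trees_card h d a), cl_card]
    have hMm : ∀ c, ∀ t ∈ M c, (∀ a ∈ t.lv.toFinset, a < N) ∧ t.lv.toFinset.card ≤ 2 ^ d := by
      intro c t ht
      rw [hM, Multiset.mem_bind] at ht
      obtain ⟨A, hA, ht⟩ := ht
      obtain ⟨a1, a2⟩ := cl_mem hT h _ (hN c) _ (h2 c) A hA
      obtain ⟨p1, p2, p3, p4, p5⟩ := trees_mem hT h d A (fun a ha => hN c a (a1 ha)) a2 t ht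
      refine ⟨?_, (List.toFinset_card_le _).trans p4.le⟩
      intro a ha
      exact hN c a (a1 (p1 a (List.mem_toFinset.1 ha)))
    -- bounds for fixed outer sets
    have bA : ∀ c, ∀ O' : Finset ℕ, ∀ m', (∀ a ∈ O', a < N) → O'.card ≤ m' →
        ((M c).map (fun t => rr x y t.lv.toFinset O')).sum ≤ m' * m' * 2 ^ h * Nd h d := by
      intro c O' m' hO' hm'
      rw [hM, Multiset.map_bind, Multiset.sum_bind]
      have k1 : ((cl tri h (tri S c)).map (fun A =>
          ((trees tri h d A).map (fun t => rr x y t.lv.toFinset O')).sum)).sum ≤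
          ((cl tri h (tri S c)).map (fun A => Nd h d * rr x y A O')).sum := by
        apply Multiset.sum_map_le_sum_map
        intro A hA
        obtain ⟨a1, a2⟩ := cl_mem hT h _ (hN c) _ (h2 c) A hA
        rw [← trees_card (tri := tri) h d A]
        apply sum_le_mul
        intro t ht
        obtain ⟨p1, _⟩ := trees_mem hT h d A (fun a ha => hN c a (a1 ha)) a2 t ht
        exact rr_mono (fun a ha => p1 a (List.mem_toFinset.1 ha))
      refine k1.trans ?_
      rw [Multiset.sum_map_mul_left]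
      have k2 := sum_rr hT (hN c) (h9 c) hO' hm'
      calc Nd h d * _ ≤ Nd h d * (m' * m' * 2 ^ h) := Nat.mul_le_mul_left _ k2
        _ = m' * m' * 2 ^ h * Nd h d := by ring
    have bB : ∀ c, ∀ O' : Finset ℕ, ∀ m', (∀ a ∈ O', a < N) → O'.card ≤ m' →
        3 ^ h * ((M c).map (fun t => bb x y t O')).sum ≤ 3 ^ h * (bet h d m' * Nd h d) := by
      intro c O' m' hO' hm'
      rw [hM, Multiset.map_bind, Multiset.sum_bind, ← Multiset.sum_map_mul_left]
      rw [← cl_card (tri := tri) h (tri S c)]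
      apply sum_le_mul
      intro A hA
      obtain ⟨a1, a2⟩ := cl_mem hT h _ (hN c) _ (h2 c) A hA
      have := ih A (fun a ha => hN c a (a1 ha)) a2 O' m' hO' hm'
      rw [cl_card]
      exact this
    have hU : ∀ c, ∀ t ∈ M c, (∀ a ∈ O ∪ t.lv.toFinset, a < N) ∧
        (O ∪ t.lv.toFinset).card ≤ m + 2 ^ d := by
      intro c t ht
      obtain ⟨k1, k2⟩ := hMm c t ht
      refine ⟨?_, (Finset.card_union_le _ _).trans (Nat.add_le_add hm k2)⟩
      intro a ha
      rcases Finset.mem_union.1 ha with h | h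
      · exact hO a h
      · exact k1 a h
    -- the sum
    have e2 : ((trees tri h (d + 1) S).map (fun t => bb x y t O)).sum =
        ((M 0).map (fun t0 => ((M 2).map (fun t1 =>
          rr x y t0.lv.toFinset (O ∪ t1.lv.toFinset) + rr x y t1.lv.toFinset (O ∪ t0.lv.toFinset) +
          bb x y t0 (O ∪ t1.lv.toFinset) + bb x y t1 (O ∪ t0.lv.toFinset))).sum)).sum := by
      rw [hM, hM]
      simp only [trees]
      rw [Multiset.map_bind, Multiset.sum_bind]
      simp only [Multiset.map_map, Function.comp_def, bb]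
    rw [e2]
    simp only [Multiset.sum_map_add]
    have s1 : ((M 0).map (fun t0 => ((M 2).map (fun t1 =>
        rr x y t0.lv.toFinset (O ∪ t1.lv.toFinset))).sum)).sum ≤
        (3 ^ h * Nd h d) * ((m + 2 ^ d) * (m + 2 ^ d) * 2 ^ h * Nd h d) := by
      rw [Multiset.sum_map_sum_map, ← hMc 2]
      apply sum_le_mul
      intro t1 ht1
      exact bA 0 _ _ (hU 2 t1 ht1).1 (hU 2 t1 ht1).2
    have s2 : ((M 0).map (fun t0 => ((M 2).map (fun t1 =>
        rr x y t1.lv.toFinset (O ∪ t0.lv.toFinset))).sum)).sum ≤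
        (3 ^ h * Nd h d) * ((m + 2 ^ d) * (m + 2 ^ d) * 2 ^ h * Nd h d) := by
      rw [← hMc 0]
      apply sum_le_mul
      intro t0 ht0
      exact bA 2 _ _ (hU 0 t0 ht0).1 (hU 0 t0 ht0).2
    have s3 : 3 ^ h * ((M 0).map (fun t0 => ((M 2).map (fun t1 =>
        bb x y t0 (O ∪ t1.lv.toFinset))).sum)).sum ≤
        (3 ^ h * Nd h d) * (3 ^ h * (bet h d (m + 2 ^ d) * Nd h d)) := by
      rw [Multiset.sum_map_sum_map, ← Multiset.sum_map_mul_left]
      rw [show (3 ^ h * Nd h d) * (3 ^ h * (bet h d (m + 2 ^ d) * Nd h d)) =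
        Multiset.card (M 2) * (3 ^ h * (bet h d (m + 2 ^ d) * Nd h d)) by rw [hMc 2]]
      apply sum_le_mul
      intro t1 ht1
      exact bB 0 _ _ (hU 2 t1 ht1).1 (hU 2 t1 ht1).2
    have s4 : 3 ^ h * ((M 0).map (fun t0 => ((M 2).map (fun t1 =>
        bb x y t1 (O ∪ t0.lv.toFinset))).sum)).sum ≤
        (3 ^ h * Nd h d) * (3 ^ h * (bet h d (m + 2 ^ d) * Nd h d)) := by
      rw [← Multiset.sum_map_mul_left]
      rw [show (3 ^ h * Nd h d) * (3 ^ h * (bet h d (m + 2 ^ d) * Nd h d)) =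
        Multiset.card (M 0) * (3 ^ h * (bet h d (m + 2 ^ d) * Nd h d)) by rw [hMc 0]]
      apply sum_le_mul
      intro t0 ht0
      exact bB 2 _ _ (hU 0 t0 ht0).1 (hU 0 t0 ht0).2
    simp only [bet, Nd]
    have s1' := Nat.mul_le_mul_left (3 ^ h) s1
    have s2' := Nat.mul_le_mul_left (3 ^ h) s2
    calc _ = 3 ^ h * ((M 0).map (fun t0 => ((M 2).map (fun t1 =>
        rr x y t0.lv.toFinset (O ∪ t1.lv.toFinset))).sum)).sum +
        3 ^ h * ((M 0).map (fun t0 => ((M 2).map (fun t1 =>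
        rr x y t1.lv.toFinset (O ∪ t0.lv.toFinset))).sum)).sum +
        3 ^ h * ((M 0).map (fun t0 => ((M 2).map (fun t1 =>
        bb x y t0 (O ∪ t1.lv.toFinset))).sum)).sum +
        3 ^ h * ((M 0).map (fun t0 => ((M 2).map (fun t1 =>
        bb x y t1 (O ∪ t0.lv.toFinset))).sum)).sum := by ring
      _ ≤ _ := Nat.add_le_add (Nat.add_le_add (Nat.add_le_add s1' s2') s3) s4
      _ = _ := by ring

end Pool.Agent.H595K.Z
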