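import Mathlib
import Pool.Agent.H595K.ZExp

/-!
# Arbitrary point sets: homogeneous trees
-/

namespace Pool.Agent.H595K.Z

open Tr

variable {x y : ℕ → ℝ} {N : ℕ} {tri : Finset ℕ → Fin 3 → Finset ℕ}

theorem bet_le (h d : ℕ) : ∀ m, bet h d m + 2 * ((m + 2 ^ d) * (m + 2 ^ d) * 2 ^ h) ≤
    2 ^ (d + 1) * ((m + 2 ^ d) * (m + 2 ^ d) * 2 ^ h) := by
  induction d with
  | zero => intro m; simp [bet]
  | succ d ih =>
    intro m
    have h1 := ih (m + 2 ^ d)
    have e1 : m + 2 ^ (d + 1) = m + 2 ^ d + 2 ^ d := by ring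
    rw [e1]
    have h2 : (m + 2 ^ d) * (m + 2 ^ d) * 2 ^ h ≤
        (m + 2 ^ d + 2 ^ d) * (m + 2 ^ d + 2 ^ d) * 2 ^ h :=
      Nat.mul_le_mul_right _ (Nat.mul_le_mul (Nat.le_add_right _ _) (Nat.le_add_right _ _))
    have e2 : 2 ^ (d + 1 + 1) * ((m + 2 ^ d + 2 ^ d) * (m + 2 ^ d + 2 ^ d) * 2 ^ h) =
        2 * (2 ^ (d + 1) * ((m + 2 ^ d + 2 ^ d) * (m + 2 ^ d + 2 ^ d) * 2 ^ h)) := by ring
    rw [e2]
    simp only [bet]
    omega

theorem bet_lt {d : ℕ} (hd : 1 ≤ d) : bet (7 * d) d 0 < 3 ^ (7 * d) := by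
  have h1 := bet_le (7 * d) d 0
  have h2 : 2 ^ (d + 1) * ((0 + 2 ^ d) * (0 + 2 ^ d) * 2 ^ (7 * d)) = 2 * 1024 ^ d := by
    have : (1024 : ℕ) ^ d = 2 ^ (10 * d) := by
      rw [show (1024 : ℕ) = 2 ^ 10 by norm_num, ← pow_mul]
    rw [this, zero_add, ← pow_add, ← pow_add, ← pow_add, ← pow_succ']
    congr 1; ring
  have h3 : (3 : ℕ) ^ (7 * d) = 2187 ^ d := by
    rw [show (2187 : ℕ) = 3 ^ 7 by norm_num, ← pow_mul]
  have h4 : 2 * 1024 ^ d ≤ 2048 ^ d := by
    rw [show (2048 : ℕ) = 2 * 1024 by norm_num, mul_pow]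
    apply Nat.mul_le_mul_right
    calc 2 = 2 ^ 1 := by norm_num
      _ ≤ 2 ^ d := Nat.pow_le_pow_right (by norm_num) hd
  have h5 : 2048 ^ d < 2187 ^ d := Nat.pow_lt_pow_left (by norm_num) (by omega)
  rw [h3]
  omega

/-- a good choice exists -/
theorem exists_good (hT : TriP x y N tri) {d : ℕ} (hd : 1 ≤ d) {S : Finset ℕ}
    (hS : ∀ a ∈ S, a < N) (hc : 9 ^ (d * (7 * d + 1)) ≤ S.card) :
    ∃ t ∈ trees tri (7 * d) d S, bb x y t ∅ = 0 := by
  by_contra hcon
  push Not at hcon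
  have h1 := expect hT (7 * d) d S hS hc ∅ 0 (by simp) (by simp)
  have h2 : Nd (7 * d) d ≤ ((trees tri (7 * d) d S).map (fun t => bb x y t ∅)).sum := by
    have h3 : ((trees tri (7 * d) d S).map (fun _ => 1)).sum ≤
        ((trees tri (7 * d) d S).map (fun t => bb x y t ∅)).sum := by
      apply Multiset.sum_map_le_sum_map
      intro t ht
      have := hcon t ht
      omega
    rw [Multiset.map_const', Multiset.sum_replicate, smul_eq_mul, mul_one, trees_card] at h3
    exact h3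
  have h3 := bet_lt hd
  have h4 : 0 < Nd (7 * d) d := by
    rcases Nat.eq_zero_or_pos (Nd (7 * d) d) with h | h
    · exfalso
      have h5 := trees_card (tri := tri) (7 * d) d S
      have key : ∀ e, 0 < Nd (7 * d) e := by
        intro e
        induction e with
        | zero => simp [Nd]
        | succ e ih => simp only [Nd]; positivity
      have := key d
      omega
    · exact h
  have h5 : 3 ^ (7 * d) * Nd (7 * d) d ≤ bet (7 * d) d 0 * Nd (7 * d) d :=
    (Nat.mul_le_mul_left _ h2).trans h1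
  have h6 := Nat.le_of_mul_le_mul_right h5 h4
  omega

theorem gtR_right {i j z : ℕ} (hij : x i < x j) (hjz : x j < x z) (h : orr x y i j z < 0) :
    slp x y i z < slp x y i j ∧ slp x y j z < slp x y i j := by
  refine ⟨(orr_neg_iff hij (hij.trans hjz)).1 h, ?_⟩
  unfold slp
  rw [div_lt_div_iff₀ (by linarith) (by linarith)]
  unfold orr at h
  nlinarith

theorem gtR_left {i j z : ℕ} (hzi : x z < x i) (hij : x i < x j) (h : 0 < orr x y i j z) :
    slp x y i z < slp x y i j ∧ slp x y j z < slp x y i j := by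
  rw [slp_comm x y i z, slp_comm x y j z]
  unfold slp
  unfold orr at h
  constructor
  · rw [div_lt_div_iff₀ (by linarith) (by linarith)]
    nlinarith
  · rw [div_lt_div_iff₀ (by linarith) (by linarith)]
    nlinarith

theorem const_sign (hC : Cfg x y N) {A B Z : List ℕ} (hA : ∀ a ∈ A, a < N) (hB : ∀ a ∈ B, a < N)
    (hZ : ∀ a ∈ Z, a < N) (hA0 : A ≠ []) (hB0 : B ≠ []) (hZ0 : Z ≠ [])
    (hAB : ∀ i ∈ A, ∀ j ∈ B, i ≠ j) (hBZ : ∀ i ∈ B, ∀ j ∈ Z, i ≠ j) (hAZ : ∀ i ∈ A, ∀ j ∈ Z, i ≠ j)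
    (cA : ∀ j ∈ B, ∀ z ∈ Z, ¬ Cutp x y j z A.toFinset)
    (cB : ∀ z ∈ Z, ∀ i ∈ A, ¬ Cutp x y z i B.toFinset)
    (cZ : ∀ i ∈ A, ∀ j ∈ B, ¬ Cutp x y i j Z.toFinset) :
    (∀ i ∈ A, ∀ j ∈ B, ∀ z ∈ Z, orr x y i j z < 0) ∨
    (∀ i ∈ A, ∀ j ∈ B, ∀ z ∈ Z, 0 < orr x y i j z) := by
  obtain ⟨i0, hi0⟩ := List.exists_mem_of_ne_nil _ hA0
  obtain ⟨j0, hj0⟩ := List.exists_mem_of_ne_nil _ hB0
  obtain ⟨z0, hz0⟩ := List.exists_mem_of_ne_nil _ hZ0
  have ne : ∀ i ∈ A, ∀ j ∈ B, ∀ z ∈ Z, orr x y i j z ≠ 0 := fun i hi j hj z hz =>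
    hC.gen i j z (hA i hi) (hB j hj) (hZ z hz) (hAB i hi j hj) (hBZ j hj z hz) (hAZ i hi z hz)
  rcases lt_or_gt_of_ne (ne i0 hi0 j0 hj0 z0 hz0) with h0 | h0
  · left
    intro i hi j hj z hz
    have h1 : orr x y i0 j0 z < 0 := by
      by_contra hc
      have h2 : 0 < orr x y i0 j0 z :=
        lt_of_le_of_ne (not_lt.1 hc) (Ne.symm (ne i0 hi0 j0 hj0 z hz))
      exact cZ i0 hi0 j0 hj0 ⟨⟨z0, List.mem_toFinset.2 hz0, h0⟩, z, List.mem_toFinset.2 hz, h2⟩
    have h2 : orr x y i0 j z < 0 := by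
      by_contra hc
      have h2 : 0 < orr x y i0 j z :=
        lt_of_le_of_ne (not_lt.1 hc) (Ne.symm (ne i0 hi0 j hj z hz))
      rw [orr_cyc, orr_cyc] at h1 h2
      exact cB z hz i0 hi0 ⟨⟨j0, List.mem_toFinset.2 hj0, h1⟩, j, List.mem_toFinset.2 hj, h2⟩
    by_contra hc
    have h3 : 0 < orr x y i j z :=
      lt_of_le_of_ne (not_lt.1 hc) (Ne.symm (ne i hi j hj z hz))
    rw [orr_cyc] at h2 h3
    exact cA j hj z hz ⟨⟨i0, List.mem_toFinset.2 hi0, h2⟩, i, List.mem_toFinset.2 hi, h3⟩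
  · right
    intro i hi j hj z hz
    have h1 : 0 < orr x y i0 j0 z := by
      by_contra hc
      have h2 : orr x y i0 j0 z < 0 :=
        lt_of_le_of_ne (not_lt.1 hc) (ne i0 hi0 j0 hj0 z hz)
      exact cZ i0 hi0 j0 hj0 ⟨⟨z, List.mem_toFinset.2 hz, h2⟩, z0, List.mem_toFinset.2 hz0, h0⟩
    have h2 : 0 < orr x y i0 j z := by
      by_contra hc
      have h2 : orr x y i0 j z < 0 :=
        lt_of_le_of_ne (not_lt.1 hc) (ne i0 hi0 j hj z hz)
      rw [orr_cyc, orr_cyc] at h1 h2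
      exact cB z hz i0 hi0 ⟨⟨j, List.mem_toFinset.2 hj, h2⟩, j0, List.mem_toFinset.2 hj0, h1⟩
    by_contra hc
    have h3 : orr x y i j z < 0 :=
      lt_of_le_of_ne (not_lt.1 hc) (ne i hi j hj z hz)
    rw [orr_cyc] at h2 h3
    exact cA j hj z hz ⟨⟨i, List.mem_toFinset.2 hi, h3⟩, i0, List.mem_toFinset.2 hi0, h2⟩

theorem rr_zero {A O : Finset ℕ} (h : rr x y A O = 0) : ∀ i ∈ O, ∀ j ∈ O, ¬ Cutp x y i j A := by
  intro i hi j hj hc
  unfold rr at h
  rw [if_pos ⟨i, hi, j, hj, hc⟩] at h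
  exact absurd h one_ne_zero

theorem lv_ne (t : Tr) : t.lv ≠ [] := by
  cases t with
  | leaf i => simp [lv]
  | node l r =>
    simp only [lv]
    intro h
    rw [List.append_eq_nil_iff] at h
    have : ∀ t : Tr, t.lv ≠ [] := by
      intro t
      induction t with
      | leaf i => simp [lv]
      | node l r ih _ =>
        simp only [lv]
        intro h
        exact ih (List.append_eq_nil_iff.1 h).1
    exact this l h.1

theorem all_gtR (hC : Cfg x y N) (Z : List ℕ) (hZ0 : Z ≠ []) (hZN : ∀ z ∈ Z, z < N) :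
    ∀ (t : Tr) (O : Finset ℕ), bb x y t O = 0 → (∀ a ∈ t.lv, a < N) → (∀ z ∈ Z, z ∈ O) →
      t.lv.Pairwise (fun i j => i < j) →
      ((∀ a ∈ t.lv, ∀ z ∈ Z, a < z) ∨ (∀ a ∈ t.lv, ∀ z ∈ Z, z < a)) →
      (∀ i ∈ t.lv, ∀ j ∈ t.lv, ¬ Cutp x y i j Z.toFinset) →
      All (fun a b => GtR (slp x y) a.lv b.lv Z ∨ GtR (fun i j => - slp x y i j) a.lv b.lv Z) t := by
  intro t
  induction t with
  | leaf i => intros; trivial
  | node a b iha ihb =>
    intro O hb hN hZO hp hside hcut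
    simp only [bb] at hb
    have r1 := rr_zero (x := x) (y := y) (A := a.lv.toFinset) (O := O ∪ b.lv.toFinset) (by omega)
    have r2 := rr_zero (x := x) (y := y) (A := b.lv.toFinset) (O := O ∪ a.lv.toFinset) (by omega)
    have r3 : bb x y a (O ∪ b.lv.toFinset) = 0 := by omega
    have r4 : bb x y b (O ∪ a.lv.toFinset) = 0 := by omega
    simp only [lv, List.mem_append] at hN hcut hside
    simp only [lv] at hp
    rw [List.pairwise_append] at hp
    obtain ⟨p1, p2, p3⟩ := hp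
    have iA := iha (O ∪ b.lv.toFinset) r3 (fun i hi => hN i (Or.inl hi))
      (fun z hz => Finset.mem_union_left _ (hZO z hz)) p1
      (hside.imp (fun h i hi => h i (Or.inl hi)) (fun h i hi => h i (Or.inl hi)))
      (fun i hi j hj => hcut i (Or.inl hi) j (Or.inl hj))
    have iB := ihb (O ∪ a.lv.toFinset) r4 (fun i hi => hN i (Or.inr hi))
      (fun z hz => Finset.mem_union_left _ (hZO z hz)) p2
      (hside.imp (fun h i hi => h i (Or.inr hi)) (fun h i hi => h i (Or.inr hi)))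
      (fun i hi j hj => hcut i (Or.inr hi) j (Or.inr hj))
    refine ⟨?_, iA, iB⟩
    have hs : ∀ i ∈ a.lv, ∀ j ∈ b.lv, i < j := p3
    have hne1 : ∀ i, (i ∈ a.lv ∨ i ∈ b.lv) → ∀ z ∈ Z, i ≠ z := by
      intro i hi z hz
      rcases hside with h | h
      · exact (h i hi z hz).ne
      · exact (h i hi z hz).ne'
    have cs := const_sign hC (A := a.lv) (B := b.lv) (Z := Z) (fun i hi => hN i (Or.inl hi))
      (fun i hi => hN i (Or.inr hi)) hZN (lv_ne a) (lv_ne b) hZ0
      (fun i hi j hj => (hs i hi j hj).ne) (fun i hi => hne1 i (Or.inr hi))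
      (fun i hi => hne1 i (Or.inl hi))
      (fun j hj z hz => r1 j (Finset.mem_union_right _ (List.mem_toFinset.2 hj)) z
        (Finset.mem_union_left _ (hZO z hz)))
      (fun z hz i hi => r2 z (Finset.mem_union_left _ (hZO z hz)) i
        (Finset.mem_union_right _ (List.mem_toFinset.2 hi)))
      (fun i hi j hj => hcut i (Or.inl hi) j (Or.inr hj))
    rcases hside with hr | hl
    · rcases cs with h | h
      · left
        intro i hi j hj z hz
        exact gtR_right (hC.mono i j (hs i hi j hj) (hN j (Or.inr hj)))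
          (hC.mono j z (hr j (Or.inr hj) z hz) (hZN z hz)) (h i hi j hj z hz)
      · right
        intro i hi j hj z hz
        have := gtR_right (y := fun n => - y n) (hC.mono i j (hs i hi j hj) (hN j (Or.inr hj)))
          (hC.mono j z (hr j (Or.inr hj) z hz) (hZN z hz))
          (by rw [orr_negy]; linarith [h i hi j hj z hz])
        simp only [slp_negy] at this
        exact this
    · rcases cs with h | h
      · right
        intro i hi j hj z hz
        have := gtR_left (y := fun n => - y n)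
          (hC.mono z i (hl i (Or.inl hi) z hz) (hN i (Or.inl hi)))
          (hC.mono i j (hs i hi j hj) (hN j (Or.inr hj)))
          (by rw [orr_negy]; linarith [h i hi j hj z hz])
        simp only [slp_negy] at this
        exact this
      · left
        intro i hi j hj z hz
        exact gtR_left (hC.mono z i (hl i (Or.inl hi) z hz) (hN i (Or.inl hi)))
          (hC.mono i j (hs i hi j hj) (hN j (Or.inr hj))) (h i hi j hj z hz)

theorem homog_of (hC : Cfg x y N) : ∀ (t : Tr) (O : Finset ℕ), bb x y t O = 0 →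
    (∀ a ∈ t.lv, a < N) → t.lv.Pairwise (fun i j => i < j) → Homog (slp x y) t := by
  intro t
  induction t with
  | leaf i => intros; trivial
  | node a b iha ihb =>
    intro O hb hN hp
    simp only [bb] at hb
    have r1 := rr_zero (x := x) (y := y) (A := a.lv.toFinset) (O := O ∪ b.lv.toFinset) (by omega)
    have r2 := rr_zero (x := x) (y := y) (A := b.lv.toFinset) (O := O ∪ a.lv.toFinset) (by omega)
    have r3 : bb x y a (O ∪ b.lv.toFinset) = 0 := by omega
    have r4 : bb x y b (O ∪ a.lv.toFinset) = 0 := by omega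
    simp only [lv, List.mem_append] at hN
    simp only [lv] at hp
    rw [List.pairwise_append] at hp
    obtain ⟨p1, p2, p3⟩ := hp
    refine ⟨⟨?_, ?_⟩, iha _ r3 (fun i hi => hN i (Or.inl hi)) p1,
      ihb _ r4 (fun i hi => hN i (Or.inr hi)) p2⟩
    · refine all_gtR hC b.lv (lv_ne b) (fun i hi => hN i (Or.inr hi)) a _ r3
        (fun i hi => hN i (Or.inl hi))
        (fun z hz => Finset.mem_union_right _ (List.mem_toFinset.2 hz)) p1 (Or.inl p3) ?_
      intro i hi j hj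
      exact r2 i (Finset.mem_union_right _ (List.mem_toFinset.2 hi)) j
        (Finset.mem_union_right _ (List.mem_toFinset.2 hj))
    · refine all_gtR hC a.lv (lv_ne a) (fun i hi => hN i (Or.inl hi)) b _ r4
        (fun i hi => hN i (Or.inr hi))
        (fun z hz => Finset.mem_union_right _ (List.mem_toFinset.2 hz)) p2
        (Or.inr (fun i hi z hz => p3 z hz i hi)) ?_
      intro i hi j hj
      exact r1 i (Finset.mem_union_right _ (List.mem_toFinset.2 hi)) j
        (Finset.mem_union_right _ (List.mem_toFinset.2 hj))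

end Pool.Agent.H595K.Z
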