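import Mathlib
import Pool.Agent.H595K.ZHom
import Pool.Agent.H595K.RLow

/-!
# Arbitrary point sets: a large `3`-convex subset
-/

namespace Pool.Agent.H595K.Z

open Finset

theorem sorted {P : Finset (ℝ × ℝ)} (hgp : GenPos P) :
    ∃ (ε : ℝ) (p : ℕ → ℝ × ℝ), (∀ i, i < P.card → p i ∈ P) ∧
      Cfg (fun i => (p i).1 + ε * (p i).2) (fun i => (p i).2) P.card := by
  classical
  obtain ⟨ε, hε⟩ := exists_shear P
  obtain ⟨g, hg1, hg2⟩ : ∃ g : Fin P.card → ℝ, StrictMono g ∧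
      ∀ i, ∃ q ∈ P, q.1 + ε * q.2 = g i := by
    obtain ⟨T, hT1, hT2⟩ : ∃ T : Finset ℝ, T.card = P.card ∧
        ∀ a ∈ T, ∃ q ∈ P, q.1 + ε * q.2 = a := by
      refine ⟨P.image (fun p => p.1 + ε * p.2), ?_, ?_⟩
      · apply Finset.card_image_of_injOn
        intro a ha b hb h
        exact hε a ha b hb h
      · intro a ha
        rw [Finset.mem_image] at ha
        exact ha
    exact ⟨fun i => T.orderEmbOfFin hT1 i, fun i j hij => (T.orderEmbOfFin hT1).strictMono hij,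
      fun i => hT2 _ (T.orderEmbOfFin_mem hT1 i)⟩
  choose q hq1 hq2 using hg2
  obtain ⟨p, hp⟩ : ∃ p : ℕ → ℝ × ℝ, ∀ i, ∀ h : i < P.card, p i = q ⟨i, h⟩ :=
    ⟨fun i => if h : i < P.card then q ⟨i, h⟩ else (0, 0), fun i h => dif_pos h⟩
  have hpP : ∀ i, i < P.card → p i ∈ P := by
    intro i hi
    rw [hp i hi]
    exact hq1 _
  have hmono : ∀ i j, i < j → j < P.card →
      (p i).1 + ε * (p i).2 < (p j).1 + ε * (p j).2 := by
    intro i j hij hj
    rw [hp i (hij.trans hj), hp j hj, hq2, hq2]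
    exact hg1 (Fin.mk_lt_mk.2 hij)
  refine ⟨ε, p, hpP, ⟨hmono, ?_⟩⟩
  intro i j z hi hj hz hij hjz hiz h
  have hne : ∀ a b, a < P.card → b < P.card → a ≠ b → p a ≠ p b := by
    intro a b ha hb hab h0
    rcases lt_or_gt_of_ne hab with h1 | h1
    · have := hmono a b h1 hb
      rw [h0] at this
      exact lt_irrefl _ this
    · have := hmono b a h1 ha
      rw [h0] at this
      exact lt_irrefl _ this
  apply hgp _ (hpP i hi) _ (hpP j hj) _ (hpP z hz) (hne i j hi hj hij)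
    (hne j z hj hz hjz) (hne i z hi hz hiz)
  apply collinear_of_det (hne i j hi hj hij)
  unfold orr at h
  linear_combination h

theorem core_any {e Y D q : ℕ} {P : Finset (ℝ × ℝ)} (hgp : GenPos P) (he : 1 ≤ e)
    (hY1 : 1 ≤ Y) (hn : 9 ^ (4 * e * (7 * (4 * e) + 1)) ≤ P.card)
    (hDn : 2 * (2 * D) * (2 * D) < e + 1)
    (hq : Nat.log 2 (D + 1) < q) (hD : (q * q * Y + 1) * q ≤ D) :
    ∃ Q ⊆ P, KConvexSet 3 Q ∧ Q.card = 2 ^ Y + 1 := by
  classical
  obtain ⟨ε, p, hpP, hC⟩ := sorted hgp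
  obtain ⟨tri, hT⟩ := tri_fun hC
  obtain ⟨t, ht, hbb⟩ := exists_good (d := 4 * e) hT (by omega) (S := Finset.range P.card)
    (fun a ha => Finset.mem_range.1 ha) (by rw [Finset.card_range]; exact hn)
  have hn' : 9 ^ (4 * e * (7 * (4 * e) + 1)) ≤ (Finset.range P.card).card := by
    rw [Finset.card_range]; exact hn
  obtain ⟨m1, m2, m3, m4, m5⟩ := trees_mem hT (7 * (4 * e)) (4 * e) (Finset.range P.card)
    (fun a ha => Finset.mem_range.1 ha) hn' t ht
  have hlt : ∀ a ∈ t.lv, a < P.card := fun a ha => Finset.mem_range.1 (m1 a ha)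
  have hH := homog_of hC t ∅ hbb hlt m3
  obtain ⟨T, t1, t2, t3⟩ := Lb.exists_compat (slp_comm _ _) hH
  obtain ⟨t', k1, k2⟩ := LT.exists_comp (t := T) (h := 4 * e) (n := 2 ^ (4 * e)) (d := e)
    (by rw [t2, m5]) (by rw [t1, m4]) (by
      have e1 : 9 ^ (4 * e) * 8 ^ e = 52488 ^ e := by
        rw [pow_mul, ← mul_pow]; norm_num
      have e2 : 2 ^ (4 * e) * 8 ^ (4 * e) = 65536 ^ e := by
        rw [← mul_pow, pow_mul]; norm_num
      rw [e1, e2]
      exact Nat.pow_lt_pow_left (by norm_num) (by omega))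
  have hx : T.lv.Pairwise (fun i j => (p i).1 + ε * (p i).2 < (p j).1 + ε * (p j).2) := by
    rw [t1]
    refine m3.imp_of_mem ?_
    intro i j _ hj hij
    exact hC.mono i j hij (hlt j hj)
  obtain ⟨L, hL1, hL2, hL3⟩ := Lb.R.lt_core3 (t := t') (Y := Y) (n := e + 1)
    (hx.sublist k1.sublist) (t3.sub k1) k2 hDn hq hD
  have hLP : ∀ i ∈ L, p i ∈ P := by
    intro i hi
    apply hpP
    apply hlt
    rw [← t1]
    exact k1.mem (hL2 i hi)
  have h3 : 3 ≤ L.length := by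
    rw [hL1]
    have : 2 ^ 1 ≤ 2 ^ Y := Nat.pow_le_pow_right (by norm_num) hY1
    omega
  rcases hL3 with h | h | h
  · obtain ⟨Q, q1, q2, q3⟩ := kconvex_of_nice hgp ε p hLP h3 (Or.inl h)
    exact ⟨Q, q1, q2, by rw [q3, hL1]⟩
  · obtain ⟨Q, q1, q2, q3⟩ := kconvex_of_nice hgp ε p hLP h3 (Or.inr h)
    exact ⟨Q, q1, q2, by rw [q3, hL1]⟩
  · obtain ⟨Q, q1, q2, q3⟩ := kconvex_of_nice3 hgp ε p hLP h3 h
    exact ⟨Q, q1, q2, by rw [q3, hL1]⟩

theorem any_nat {n : ℕ} (hn : 3 ≤ n) : ∃ m : ℕ,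
    Real.exp (1 / 10000 * (Real.log n ^ ((1 : ℝ) / 4) / Real.log (3 + Real.log n) ^ 3)) ≤ m ∧
    ∀ P : Finset (ℝ × ℝ), GenPos P → P.card = n → ∃ Q ⊆ P, KConvexSet 3 Q ∧ Q.card = m := by
  have hn3 : (3 : ℝ) ≤ n := by exact_mod_cast hn
  obtain ⟨L, hL⟩ : ∃ L, L = Real.log n := ⟨_, rfl⟩
  rw [← hL]
  have hL0 : 0 ≤ L := by rw [hL]; exact Real.log_nonneg (by linarith)
  obtain ⟨r, hr⟩ : ∃ r, r = L ^ ((1 : ℝ) / 4) := ⟨_, rfl⟩
  rw [← hr]
  have hr0 : 0 ≤ r := by rw [hr]; exact Real.rpow_nonneg hL0 _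
  have hr4 : r ^ 4 = L := by
    rw [hr, ← Real.rpow_natCast, ← Real.rpow_mul hL0]
    norm_num
  obtain ⟨l, hl⟩ : ∃ l, l = Real.log (3 + L) := ⟨_, rfl⟩
  rw [← hl]
  have hl1 : 1 ≤ l := by
    rw [hl]
    have h1 : Real.exp 1 ≤ 3 + L := by have := Real.exp_one_lt_d9; linarith
    have h2 := Real.log_le_log (Real.exp_pos 1) h1
    rwa [Real.log_exp] at h2
  have hl3 : 1 ≤ l ^ 3 := one_le_pow₀ hl1
  obtain ⟨u, hu⟩ : ∃ u, u = r / l ^ 3 := ⟨_, rfl⟩
  rw [← hu]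
  have hu0 : 0 ≤ u := by rw [hu]; positivity
  rcases le_or_gt u 10000 with h | h
  · refine ⟨3, ?_, fun P hgp hP => triangle hgp (by omega)⟩
    have h2 : Real.exp (1 / 10000 * u) ≤ Real.exp 1 := Real.exp_le_exp.2 (by linarith)
    have h3 := Real.exp_one_lt_d9
    push_cast
    linarith
  · have hru : r = u * l ^ 3 := by
      rw [hu]; field_simp
    have hll : l ≤ l ^ 3 := by
      have : l ^ 3 = l * l ^ 2 := by ring
      rw [this]
      have h2 : 1 ≤ l ^ 2 := one_le_pow₀ hl1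
      nlinarith
    have hrl : 10000 * l ≤ r := by
      rw [hru]
      have h1 : 10000 * l ≤ 10000 * l ^ 3 := by linarith
      have h2 : 10000 * l ^ 3 ≤ u * l ^ 3 := mul_le_mul_of_nonneg_right h.le (by linarith)
      linarith
    have hr1 : 10000 ≤ r := by linarith
    have hr2 : 100000000 ≤ r ^ 2 := by nlinarith
    have hrL : r ^ 2 * r ^ 2 = L := by rw [← hr4]; ring
    have hrr : r ≤ r ^ 2 := by nlinarith
    have hrL2 : r ^ 2 ≤ L := by rw [← hrL]; nlinarith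
    obtain ⟨e, he⟩ : ∃ e : ℕ, e = ⌊r ^ 2 / 20⌋₊ := ⟨_, rfl⟩
    obtain ⟨D, hD⟩ : ∃ D : ℕ, D = ⌊r / 15⌋₊ := ⟨_, rfl⟩
    obtain ⟨Y, hY⟩ : ∃ Y : ℕ, Y = ⌊u / 1000⌋₊ := ⟨_, rfl⟩
    obtain ⟨q, hq⟩ : ∃ q : ℕ, q = Nat.log 2 (D + 1) + 1 := ⟨_, rfl⟩
    have e1 : (e : ℝ) ≤ r ^ 2 / 20 := by rw [he]; exact Nat.floor_le (by linarith)
    have e2 : r ^ 2 / 20 < e + 1 := by rw [he]; exact Nat.lt_floor_add_one _
    have d1 : (D : ℝ) ≤ r / 15 := by rw [hD]; exact Nat.floor_le (by linarith)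
    have d2 : r / 15 < D + 1 := by rw [hD]; exact Nat.lt_floor_add_one _
    have y1 : (Y : ℝ) ≤ u / 1000 := by rw [hY]; exact Nat.floor_le (by linarith)
    have y2 : u / 1000 < Y + 1 := by rw [hY]; exact Nat.lt_floor_add_one _
    have hY1 : 1 ≤ Y := by
      rw [hY]
      apply Nat.le_floor
      push_cast
      linarith
    have he1 : 1 ≤ e := by
      rw [he]
      apply Nat.le_floor
      push_cast
      linarith
    have hDn : 2 * (2 * D) * (2 * D) < e + 1 := by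
      have h1 : (2 * (2 * (D : ℝ)) * (2 * D)) < e + 1 := by
        have h2 : (D : ℝ) * D ≤ (r / 15) * (r / 15) := mul_self_le_mul_self (by positivity) d1
        nlinarith
      exact_mod_cast h1
    have hq1 : (q : ℝ) ≤ 5 / 2 * l := by
      have h1 : 2 ^ (Nat.log 2 (D + 1)) ≤ D + 1 := Nat.pow_log_le_self 2 (by omega)
      have h2 : (2 : ℝ) ^ (Nat.log 2 (D + 1)) ≤ D + 1 := by exact_mod_cast h1
      have h3 : (D : ℝ) + 1 ≤ 3 + L := by linarith
      have h4 : Real.log ((2 : ℝ) ^ (Nat.log 2 (D + 1))) ≤ l := by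
        rw [hl]; exact Real.log_le_log (by positivity) (h2.trans h3)
      rw [Real.log_pow] at h4
      have h5 := Real.log_two_gt_d9
      have h6 : (Nat.log 2 (D + 1) : ℝ) * 0.69 ≤ (Nat.log 2 (D + 1) : ℝ) * Real.log 2 :=
        mul_le_mul_of_nonneg_left (by linarith) (Nat.cast_nonneg _)
      have h7 : (q : ℝ) = Nat.log 2 (D + 1) + 1 := by rw [hq]; push_cast; ring
      rw [h7]
      linarith
    have hDq : (q * q * Y + 1) * q ≤ D := by
      have h1 : (((q : ℝ) * q * Y + 1) * q) ≤ D := by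
        have h2 : (q : ℝ) ^ 3 ≤ (5 / 2 * l) ^ 3 := pow_le_pow_left₀ (by positivity) hq1 3
        have h3 : (q : ℝ) ^ 3 * Y ≤ (5 / 2 * l) ^ 3 * (u / 1000) :=
          mul_le_mul h2 y1 (by positivity) (by positivity)
        have h4 : (5 / 2 * l) ^ 3 * (u / 1000) = 125 / 8000 * r := by
          rw [hru]; ring
        have h5 : (((q : ℝ) * q * Y + 1) * q) = (q : ℝ) ^ 3 * Y + q := by ring
        rw [h5]
        linarith
      exact_mod_cast h1
    have hnn : 9 ^ (4 * e * (7 * (4 * e) + 1)) ≤ n := by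
      have h1 : 4 * e * (7 * (4 * e) + 1) ≤ 116 * (e * e) := by nlinarith
      have h2 : 9 ^ (4 * e * (7 * (4 * e) + 1)) ≤ 16 ^ (116 * (e * e)) :=
        (Nat.pow_le_pow_left (by norm_num) _).trans (Nat.pow_le_pow_right (by norm_num) h1)
      have h3 : ((16 : ℝ) ^ (116 * (e * e))) ≤ n := by
        rw [← Real.log_le_log_iff (by positivity) (by linarith), Real.log_pow, ← hL]
        have h4 : Real.log 16 = 4 * Real.log 2 := by
          rw [show (16 : ℝ) = 2 ^ 4 by norm_num, Real.log_pow]; norm_num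
        have h5 := Real.log_two_lt_d9
        rw [h4]
        push_cast
        have h6 : (e : ℝ) * e ≤ (r ^ 2 / 20) * (r ^ 2 / 20) :=
          mul_self_le_mul_self (by positivity) e1
        have h7 : (r ^ 2 / 20) * (r ^ 2 / 20) = L / 400 := by rw [← hrL]; ring
        have h8 : 0 ≤ (e : ℝ) * e := by positivity
        calc 116 * ((e : ℝ) * e) * (4 * Real.log 2) ≤ 116 * ((e : ℝ) * e) * (4 * 0.7) := by
              apply mul_le_mul_of_nonneg_left _ (by positivity)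
              linarith
          _ ≤ L := by linarith
      have h4 : 16 ^ (116 * (e * e)) ≤ n := by exact_mod_cast h3
      exact h2.trans h4
    refine ⟨2 ^ Y + 1, ?_, fun P hgp hP => ?_⟩
    · have h3 : Real.exp (1 / 10000 * u) ≤ 2 ^ Y := exp_le_two_pow (by linarith)
      push_cast
      linarith
    · exact core_any hgp he1 hY1 (by rw [hP]; exact hnn) hDn (by rw [hq]; exact Nat.lt_succ_self _)
        hDq

/-- **Arbitrary point sets.** -/
theorem any_set {P : Finset (ℝ × ℝ)} (hgp : GenPos P) (h3 : 3 ≤ P.card) :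
    ∃ Q ⊆ P, KConvexSet 3 Q ∧ Real.exp (1 / 10000 *
      (Real.log P.card ^ ((1 : ℝ) / 4) / Real.log (3 + Real.log P.card) ^ 3)) ≤ Q.card := by
  obtain ⟨m, h1, h2⟩ := any_nat h3
  obtain ⟨Q, q1, q2, q3⟩ := h2 P hgp rfl
  exact ⟨Q, q1, q2, by rw [q3]; exact h1⟩

theorem any_f {k j n : ℕ} (hk : 3 ≤ k) (hj : 3 ≤ j) (hn : 3 ≤ n) :
    Real.exp (1 / 10000 *
      (Real.log n ^ ((1 : ℝ) / 4) / Real.log (3 + Real.log n) ^ 3)) ≤ f k j n := by
  obtain ⟨m, h1, h2⟩ := any_nat hn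
  refine h1.trans ?_
  have h3 : m ≤ f k j n := by
    apply le_f hk hn
    intro P hP hPk
    obtain ⟨Q, q1, q2, q3⟩ := h2 P hPk.1 hP
    exact ⟨Q, q1, q2.mono hj, q3⟩
  exact_mod_cast h3

end Pool.Agent.H595K.Z
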